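import Pool.Agent.Lib.ANT.SieveSums
import Pool.Agent.Lib.ANT.Mertens
import Pool.Agent.Lib.ANT.DivisorBound
import Pool.Agent.Lib.LargeSieve.Additive

/-!
Numerical lemmas and growth estimates.
-/

set_option autoImplicit false
set_option maxHeartbeats 400000

namespace Pool.Agent.Work.MP_51e72e_nt

open Finset Filter Topology Pool.Agent.Lib.ANT Pool.Agent.Lib.LargeSieve

lemma vol_norm (m : ℕ) (hm : 1 ≤ m) {θ x : ℝ} (hθ : θ = 1 / (433152 * ((m : ℝ) + 1) ^ 2))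
    (hx0 : 0 ≤ x) (hx1 : x ≤ 1) :
    1 + 1 / (9400 * ((m : ℝ) + 1)) ≤ (1 - θ * (206 + x)) ^ (m + 1)
      - (1 - 1 / (8 * ((m : ℝ) + 1)) - θ * (406 + x)) ^ (m + 1)
      + (1 - 1 / (8 * ((m : ℝ) + 1)) - θ * x) ^ (m + 1)
      - (1 / 4 + θ * (200 - x)) ^ (m + 1) + (1 / 4 - θ * (206 + x)) ^ (m + 1) := by
  have hm' : (1 : ℝ) ≤ m := by exact_mod_cast hm
  set κ : ℝ := (m : ℝ) + 1 with hκ
  have hκ2 : 2 ≤ κ := by linarith only [hm']
  have hθ0 : 0 < θ := by rw [hθ]; positivity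
  have hκθ : κ * θ = 1 / (433152 * κ) := by rw [hθ]; field_simp
  have hκθ' : κ * θ ≤ 1 / 866304 := by
    rw [hκθ]; exact one_div_le_one_div_of_le (by norm_num) (by linarith only [hm'])
  have hθ1 : θ ≤ 1 / 1732608 := by clear * - θ m hm' κ hκθ'; nlinarith only [hm', hκθ']
  have h8 : 1 / (8 * κ) ≤ 1 / 16 := one_div_le_one_div_of_le (by norm_num) (by linarith only [hm'])
  have h8' : κ * (1 / (8 * κ)) = 1 / 8 := by field_simp
  have h80 : 0 < 1 / (8 * κ) := by positivity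
  have hθx : θ * x ≤ θ := by clear * - θ x hx1 hθ0; nlinarith
  have hθx0 : 0 ≤ θ * x := by positivity
  have A := one_add_mul_le_pow (a := -(θ * (206 + x))) (by clear * - θ x hθ0 hθ1 hθx m; nlinarith) (m + 1)
  set y := 1 - 1 / (8 * κ) - θ * (406 + x) with hy
  have hy0 : 0 ≤ y := by clear * - y θ κ x m hθ0 hθ1 h8 hθx; nlinarith only [hθ0, hθ1, h8, hθx]
  have B := pow_add_mul_le_add_pow (a := y) (b := 406 * θ) hy0 (by linarith only [hθ0, hθ1, h8, hθx]) (m + 1)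
  have B' := one_add_mul_le_pow (a := -(1 / (8 * κ) + θ * (406 + x))) (by clear * - κ θ x m hθ0 hθ1 h8 hθx; nlinarith only [hθ0, hθ1, h8, hθx]) m
  have eB : 1 + -(1 / (8 * κ) + θ * (406 + x)) = y := by rw [hy]; ring
  rw [eB] at B'
  have B'' : 0.8745 ≤ y ^ m := by
    clear * - m κ θ x hθ0 hθ1 hθx hm hx0 hm' y hκθ' h8' B'
    have : (m : ℝ) * (1 / (8 * κ) + θ * (406 + x)) ≤ κ * (1 / (8 * κ) + θ * 407) := by
      refine mul_le_mul (by linarith only [hθ0, hθ1]) (by linarith only [hθx]) (by positivity) (by linarith only [hm', hθ0, hθ1])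
    nlinarith only [hθ0, hκθ', hθ1, h8', B', this]
  set z := 1 / 4 + θ * (200 - x) with hz
  have hz0 : 0 ≤ z := by clear * - z θ x hθ0 hθ1 hθx hz; nlinarith only [hθ0, hθ1, hθx, hz]
  have hz1 : z ≤ 0.2502 := by clear * - z θ x hθ0 hθ1 hθx0 hz; nlinarith only [hθ0, hθ1, hθx0, hz]
  have C := pow_add_mul_le_add_pow (a := z) (b := -(406 * θ)) hz0 (by clear * - z θ x hθ0 hθ1 hθx hz hz0 m; nlinarith only [hθ0, hθ1, hθx, hz]) (m + 1)
  have C' : z ^ m ≤ 0.2502 :=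
    (pow_le_of_le_one hz0 (by clear * - z θ x hθ0 hθ1 hθx0 hz hz0 hz1; linarith only [hθ0, hθ1, hθx0, hz]) (by omega)).trans hz1
  rw [Nat.add_sub_cancel] at B C
  push_cast at A B C
  rw [← hκ] at A B C
  rw [show y + 406 * θ = 1 - 1 / (8 * κ) - θ * x by rw [hy]; ring] at B
  rw [show z + -(406 * θ) = 1 / 4 - θ * (206 + x) by rw [hz]; ring] at C
  rw [show 1 + -(θ * (206 + x)) = 1 - θ * (206 + x) by ring] at A
  have hκθ0 : 0 < κ * θ := by positivity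
  have D1 : κ * θ * (406 * 0.8745) ≤ κ * y ^ m * (406 * θ) := by clear * - κ θ y m x hθ0 hθ1 B'' hκθ0; nlinarith only [hθ0, hθ1, B'', hκθ0]
  have D2 : κ * z ^ m * (406 * θ) ≤ κ * θ * (406 * 0.2502) := by clear * - κ z m θ x hθ0 hθ1 C' hκθ0; nlinarith only [hθ0, hθ1, C', hκθ0]
  have D3 : κ * (θ * (206 + x)) ≤ κ * θ * 207 := by nlinarith
  have D4 : 1 / (9400 * κ) ≤ κ * θ * 46.4 := by
    clear * - κ θ hκθ m hm hm' hθ0 hθ1
    rw [hκθ, div_mul_eq_mul_div, div_le_div_iff₀ (by positivity) (by positivity)]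
    nlinarith only [hm', hθ0, hθ1]
  nlinarith only [A, B, C, hκθ0, D1, D2, D3, D4]

lemma prod_weights_le (Ps : Finset ℕ) (N K : ℕ) (hN : 2 ≤ N) (h1 h2 : ℕ → ℝ)
    (hPs : ∀ p ∈ Ps, p.Prime ∧ p ≤ N) (hh1 : ∀ p ∈ Ps, 0 ≤ h1 p ∧ h1 p ≤ 2 / p)
    (hh2 : ∀ p ∈ Ps, 0 ≤ h2 p ∧ h2 p ≤ 2 * K / p) :
    ∏ p ∈ Ps, (1 + h1 p + h2 p) ≤ (Real.exp 73 * Real.log N) ^ (2 * K + 2) := by
  have hsub : Ps ⊆ (Ioc 0 N).filter Nat.Prime := fun p hp =>
    mem_filter.mpr ⟨mem_Ioc.mpr ⟨(hPs p hp).1.pos, (hPs p hp).2⟩, (hPs p hp).1⟩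
  have hge : ∀ p : ℕ, p.Prime → 1 + (p : ℝ)⁻¹ ≤ (1 - (p : ℝ)⁻¹)⁻¹ := by
    intro p hp
    have h : (1 : ℝ) < p := by exact_mod_cast hp.one_lt
    have h' : (p : ℝ)⁻¹ < 1 := inv_lt_one_of_one_lt₀ h
    rw [le_inv_comm₀ (by positivity) (by linarith only [h']), ← one_div, ← one_div (1 + _),
      le_div_iff₀ (by positivity)]
    nlinarith only [sq_nonneg (1 / (p : ℝ))]
  calc _ ≤ ∏ p ∈ Ps, ((1 - (p : ℝ)⁻¹)⁻¹) ^ (2 * K + 2) := by
        refine prod_le_prod (fun p hp => by linarith [(hh1 p hp).1, (hh2 p hp).1]) fun p hp => ?_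
        have a1 := one_add_mul_le_pow (a := (p : ℝ)⁻¹)
          (le_trans (by norm_num) (inv_nonneg.mpr (Nat.cast_nonneg p))) (2 * K + 2)
        refine le_trans ?_ (a1.trans (pow_le_pow_left₀ (by positivity) (hge p (hPs p hp).1) _))
        have := (hh1 p hp).2
        have := (hh2 p hp).2
        push_cast
        rw [div_eq_mul_inv] at *
        linarith
    _ ≤ (∏ p ∈ (Ioc 0 N).filter Nat.Prime, (1 - (p : ℝ)⁻¹)⁻¹) ^ (2 * K + 2) := by
        rw [prod_pow]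
        have hone : ∀ p : ℕ, p.Prime → 1 ≤ (1 - (p : ℝ)⁻¹)⁻¹ := fun p hp =>
          le_trans (by linarith [inv_nonneg.mpr (Nat.cast_nonneg p : (0 : ℝ) ≤ p)]) (hge p hp)
        refine pow_le_pow_left₀ (prod_nonneg fun p hp => zero_le_one.trans (hone p (hPs p hp).1))
          (prod_le_prod_of_subset_of_one_le hsub (fun p hp => zero_le_one.trans
            (hone p (hPs p hp).1)) fun p hp _ => hone p (mem_filter.mp hp).2) _
    _ ≤ _ := by
        refine pow_le_pow_left₀ (prod_nonneg fun p hp => ?_) (prod_one_sub_inv_prime_inv_le N hN) _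
        exact le_trans (by positivity) (hge p (mem_filter.mp hp).2)

lemma sum_inv_sq_le (Ps : Finset ℕ) {w : ℕ} (hw : 0 < w) (h : ∀ p ∈ Ps, w < p) :
    ∑ p ∈ Ps, ((p : ℝ) ^ 2)⁻¹ ≤ (w : ℝ)⁻¹ := by
  have h1 : Ps ⊆ Ioc w (max w (Ps.sup id)) := fun p hp =>
    mem_Ioc.mpr ⟨h p hp, le_max_of_le_right (le_sup (f := id) hp)⟩
  refine (sum_le_sum_of_subset_of_nonneg h1 fun _ _ _ => by positivity).trans
    ((sum_Ioc_inv_sq_le_sub hw.ne' (le_max_left _ _)).trans ?_)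
  exact sub_le_self _ (by positivity)

lemma prod_cross_le (Ps : Finset ℕ) {w K : ℕ} (hw : 0 < w) (h : ∀ p ∈ Ps, w < p) (h1 h2 : ℕ → ℝ)
    (hh1 : ∀ p ∈ Ps, 0 ≤ h1 p ∧ h1 p ≤ 2 / p) (hh2 : ∀ p ∈ Ps, 0 ≤ h2 p ∧ h2 p ≤ 2 * K / p) :
    ∏ p ∈ Ps, (1 + 2 * (h1 p * h2 p)) ≤ Real.exp (8 * K / w) := by
  calc _ ≤ ∏ p ∈ Ps, Real.exp (8 * K * ((p : ℝ) ^ 2)⁻¹) := by
        refine prod_le_prod (fun p hp => by nlinarith only [(hh1 p hp).1, (hh2 p hp).1]) fun p hp => ?_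
        refine le_trans ?_ (Real.add_one_le_exp _)
        have := mul_le_mul (hh1 p hp).2 (hh2 p hp).2 (hh2 p hp).1 (by positivity)
        have e : 2 / (p : ℝ) * (2 * K / p) = 4 * K * ((p : ℝ) ^ 2)⁻¹ := by ring
        linarith only [this, e]
    _ ≤ _ := by
        rw [← Real.exp_sum, ← mul_sum, div_eq_mul_inv]
        exact Real.exp_le_exp.mpr (mul_le_mul_of_nonneg_left (sum_inv_sq_le Ps hw h)
          (by positivity))

lemma eventually_log_pow_le (C : ℝ) (j : ℕ) {η : ℝ} (hη : 0 < η) :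
    ∀ᶠ N : ℕ in atTop, C * (2 + 2 * Real.log N) ^ j ≤ (N : ℝ) ^ η := by
  have h1 := (isLittleO_log_rpow_rpow_atTop (j : ℝ) hη).bound
    (show 0 < 1 / ((|C| + 1) * 4 ^ j) by positivity)
  filter_upwards [tendsto_natCast_atTop_atTop.eventually h1,
    (Real.tendsto_log_atTop.comp tendsto_natCast_atTop_atTop).eventually_ge_atTop 1] with N a b
  simp only [Function.comp] at b
  rw [Real.rpow_natCast, Real.norm_of_nonneg (by positivity),
    Real.norm_of_nonneg (by positivity), one_div_mul_eq_div, le_div_iff₀ (by positivity)] at a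
  calc C * (2 + 2 * Real.log N) ^ j ≤ (|C| + 1) * (4 * Real.log N) ^ j := by
        refine mul_le_mul (by linarith [le_abs_self C])
          (pow_le_pow_left₀ (by linarith) (by linarith) j) (by positivity) (by positivity)
    _ = Real.log N ^ j * ((|C| + 1) * 4 ^ j) := by rw [mul_pow]; ring
    _ ≤ _ := a

lemma eventually_divisors_le (j : ℕ) {η : ℝ} (hη : 0 < η) :
    ∀ᶠ N : ℕ in atTop, ∀ m : ℕ, m ≤ N ^ j → (m.divisors.card : ℝ) ≤ (N : ℝ) ^ η := by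
  obtain ⟨C, hC1, hC⟩ := exists_card_divisors_le (η / (2 * (j + 1))) (by positivity)
  filter_upwards [eventually_log_pow_le C 0 (half_pos hη), eventually_ge_atTop 1] with N a b m hm
  rw [pow_zero, mul_one] at a
  have hN : (1 : ℝ) ≤ N := by exact_mod_cast b
  have h1 : (m : ℝ) ≤ (N : ℝ) ^ ((j : ℝ) + 1) := by
    calc (m : ℝ) ≤ (N : ℝ) ^ j := by exact_mod_cast hm
      _ = (N : ℝ) ^ (j : ℝ) := (Real.rpow_natCast _ _).symm
      _ ≤ _ := Real.rpow_le_rpow_of_exponent_le hN (by linarith only [])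
  calc _ ≤ C * (m : ℝ) ^ (η / (2 * (j + 1))) := hC m
    _ ≤ (N : ℝ) ^ (η / 2) * ((N : ℝ) ^ ((j : ℝ) + 1)) ^ (η / (2 * (j + 1))) := by gcongr
    _ = _ := by
        rw [← Real.rpow_mul (by linarith only [hN]), ← Real.rpow_add (by linarith)]
        congr 1
        field_simp; ring

lemma log_two_le (N : ℕ) (hN : 1 ≤ N) : ((Nat.log 2 N + 1 : ℕ) : ℝ) ≤ 2 + 2 * Real.log N := by
  have h1 : (2 : ℝ) ^ Nat.log 2 N ≤ N := by
    exact_mod_cast Nat.pow_log_le_self 2 (show N ≠ 0 by omega)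
  have h2 := Real.log_le_log (by positivity) h1
  rw [Real.log_pow] at h2
  have h3 := Real.log_two_gt_d9
  have h4 : (0 : ℝ) ≤ Nat.log 2 N := Nat.cast_nonneg _
  push_cast
  nlinarith only [h2, h3]

end Pool.Agent.Work.MP_51e72e_nt
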