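import Pool.Agent.Work.MP_51e72e_nt.Disc
import Pool.Agent.Lib.ANT.SieveClasses

/-!
Bilinear remainder terms: removing the dependence of the range on the variables, and the gcd.
-/

set_option autoImplicit false

namespace Pool.Agent.Work.MP_51e72e_nt

open Finset Pool.Agent.Lib.LargeSieve

/-- remainder in counting `u ≤ Y` with `A ∣ u` and `u ≡ c` -/
noncomputable def remU {q : ℕ} (Y A : ℕ) (c : ZMod q) : ℝ :=
  (((Icc 1 Y).filter (fun u : ℕ => A ∣ u ∧ (u : ZMod q) = c)).card : ℝ) - Y / (A * q)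

lemma card_eq_cnt {q : ℕ} (Y A : ℕ) (hA : 0 < A) (hc : Nat.Coprime A q) (c : ZMod q) :
    ((Icc 1 Y).filter (fun u : ℕ => A ∣ u ∧ (u : ZMod q) = c)).card
      = cnt (Y / A) (c * (A : ZMod q)⁻¹) := by
  have h1 : (A : ZMod q) * (A : ZMod q)⁻¹ = 1 := ZMod.coe_mul_inv_eq_one A hc
  unfold cnt
  symm
  refine card_bij (fun t _ => A * t) ?_ ?_ ?_
  · intro t ht
    rw [mem_filter, mem_Icc] at ht ⊢
    refine ⟨⟨Nat.mul_pos hA ht.1.1, ?_⟩, Dvd.intro _ rfl, ?_⟩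
    · exact (Nat.mul_le_mul_left A ht.1.2).trans (Nat.mul_div_le Y A)
    · push_cast
      rw [ht.2]
      linear_combination c * h1
  · intro t _ t' _ h
    exact Nat.eq_of_mul_eq_mul_left hA h
  · intro u hu
    rw [mem_filter, mem_Icc] at hu
    obtain ⟨⟨u1, u2⟩, ⟨t, rfl⟩, u3⟩ := hu
    refine ⟨t, ?_, rfl⟩
    rw [mem_filter, mem_Icc]
    refine ⟨⟨Nat.pos_of_mul_pos_left u1, (Nat.le_div_iff_mul_le hA).mpr (by linarith only [u2])⟩, ?_⟩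
    rw [← u3]
    push_cast
    linear_combination (-(t : ZMod q)) * h1

lemma abs_cnt_sub_le {q : ℕ} [NeZero q] (T : ℕ) (y : ZMod q) : |(cnt T y : ℝ) - T / q| ≤ 1 := by
  have := Pool.Agent.Lib.ANT.abs_card_modEq_sub_le 0 T q y.val (Nat.pos_of_ne_zero (NeZero.ne q))
  rw [zero_add] at this
  have e : cnt T y = ((Ioc 0 T).filter (fun n => n ≡ y.val [MOD q])).card := by
    unfold cnt
    congr 1
    ext t
    rw [mem_filter, mem_filter, mem_Icc, mem_Ioc, ← ZMod.natCast_eq_natCast_iff,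
      ZMod.natCast_zmod_val]
    rfl
  rw [e]; exact this

lemma abs_remU_le {q : ℕ} [NeZero q] (Y A : ℕ) (hA : 0 < A) (hc : Nat.Coprime A q) (c : ZMod q) :
    |remU Y A c| ≤ 2 := by
  unfold remU
  rw [card_eq_cnt Y A hA hc]
  have h1 := abs_le.mp (abs_cnt_sub_le (Y / A) (c * (A : ZMod q)⁻¹))
  have hq : (1 : ℝ) ≤ q := by exact_mod_cast Nat.pos_of_ne_zero (NeZero.ne q)
  have h2 : ((Y / A : ℕ) : ℝ) ≤ (Y : ℝ) / A := Nat.cast_div_le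
  have h3 : (Y : ℝ) / A < (Y / A : ℕ) + 1 := by
    rw [← Nat.floor_div_eq_div (K := ℝ)]; exact Nat.lt_floor_add_one _
  have h4 : ((Y / A : ℕ) : ℝ) / q ≤ (Y : ℝ) / A / q := by gcongr
  have h5 : (Y : ℝ) / A / q ≤ ((Y / A : ℕ) : ℝ) / q + 1 := by
    calc (Y : ℝ) / A / q ≤ (((Y / A : ℕ) : ℝ) + 1) / q := by gcongr
      _ = ((Y / A : ℕ) : ℝ) / q + 1 / q := add_div _ _ _
      _ ≤ _ := by gcongr; exact div_le_one_of_le₀ hq (by linarith only [hq])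
  rw [← div_div, abs_le]
  constructor <;> linarith only [h1, h5, h4]

lemma inv_mul_three {q : ℕ} {g x y : ℕ} (hg : Nat.Coprime g q) (hx : Nat.Coprime x q)
    (hy : Nat.Coprime y q) (c : ZMod q) :
    c * ((g * x * y : ℕ) : ZMod q)⁻¹
      = c * (g : ZMod q)⁻¹ * (x : ZMod q)⁻¹ * (y : ZMod q)⁻¹ := by
  have h1 := ZMod.coe_mul_inv_eq_one g hg
  have h2 := ZMod.coe_mul_inv_eq_one x hx
  have h3 := ZMod.coe_mul_inv_eq_one y hy
  have h4 := ZMod.coe_mul_inv_eq_one (g * x * y) (Nat.Coprime.mul_left (hg.mul_left hx) hy)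
  have : ((g * x * y : ℕ) : ZMod q)⁻¹ = (g : ZMod q)⁻¹ * (x : ZMod q)⁻¹ * (y : ZMod q)⁻¹ := by
    set w := ((g * x * y : ℕ) : ZMod q)⁻¹
    push_cast at h4
    linear_combination (-w) * h1 - (w * g * (g : ZMod q)⁻¹) * h2
      - (w * g * (g : ZMod q)⁻¹ * x * (x : ZMod q)⁻¹) * h3
      + ((g : ZMod q)⁻¹ * (x : ZMod q)⁻¹ * (y : ZMod q)⁻¹) * h4
  rw [this]; ring

lemma box_le {q : ℕ} [NeZero q] (Y g : ℕ) (hg0 : 0 < g) (hg : Nat.Coprime g q)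
    (S1 S2 : Finset ℕ) (hc1 : ∀ x ∈ S1, Nat.Coprime x q) (hc2 : ∀ x ∈ S2, Nat.Coprime x q)
    (α β : ℕ → ℝ) (hα : ∀ x ∈ S1, |α x| ≤ 1) (hβ : ∀ x ∈ S2, |β x| ≤ 1) (c : ZMod q)
    {ρ l1 l2 K : ℝ} (hρ : 1 ≤ ρ) (hl1 : 0 < l1) (hl2 : 0 < l2)
    (hb1 : ∀ x ∈ S1, l1 ≤ x ∧ (x : ℝ) ≤ ρ * l1) (hb2 : ∀ x ∈ S2, l2 ≤ x ∧ (x : ℝ) ≤ ρ * l2)
    (hK : ∀ (T : ℕ) (α β : ℕ → ℝ), (∀ x ∈ S1, |α x| ≤ 1) → (∀ x ∈ S2, |β x| ≤ 1) →
      |∑ x ∈ S1, ∑ y ∈ S2, α x * β y * ((cnt T (c * (g : ZMod q)⁻¹ * ((x : ℕ) : ZMod q)⁻¹ *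
        ((y : ℕ) : ZMod q)⁻¹) : ℝ) - (T : ℝ) / q)| ≤ K) :
    |∑ x ∈ S1, ∑ y ∈ S2, α x * β y * remU Y (g * x * y) c|
      ≤ 3 * K + ∑ x ∈ S1, ∑ y ∈ S2, 2 / q * ((ρ ^ 2 - 1) * (Y / (g * x * y)) + 1) := by
  have hq : (0 : ℝ) < q := Nat.cast_pos.mpr (Nat.pos_of_ne_zero (NeZero.ne q))
  have hg' : (0 : ℝ) < g := Nat.cast_pos.mpr hg0
  set Tm : ℕ := ⌊(Y : ℝ) / (g * l1 * l2 * ρ ^ 2)⌋₊ with hTm
  set Tp : ℕ := ⌊(Y : ℝ) / (g * l1 * l2)⌋₊ with hTp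
  set w : ℕ → ℕ → ZMod q := fun x y =>
    c * (g : ZMod q)⁻¹ * ((x : ℕ) : ZMod q)⁻¹ * ((y : ℕ) : ZMod q)⁻¹ with hw
  set dm : ℕ → ℕ → ℝ := fun x y => (cnt Tm (w x y) : ℝ) - (Tm : ℝ) / q with hdm
  set dp : ℕ → ℕ → ℝ := fun x y => (cnt Tp (w x y) : ℝ) - (Tp : ℝ) / q with hdp
  have pt : ∀ x ∈ S1, ∀ y ∈ S2, |remU Y (g * x * y) c - dm x y|
      ≤ dp x y - dm x y + 2 / q * ((ρ ^ 2 - 1) * (Y / (g * x * y)) + 1) := by
    intro x hx y hy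
    obtain ⟨x1, x2⟩ := hb1 x hx
    obtain ⟨y1, y2⟩ := hb2 y hy
    have hx0 : (0 : ℝ) < x := hl1.trans_le x1
    have hy0 : (0 : ℝ) < y := hl2.trans_le y1
    have hA : 0 < g * x * y := Nat.mul_pos (Nat.mul_pos hg0 (Nat.cast_pos.mp hx0))
      (Nat.cast_pos.mp hy0)
    have hY : (0 : ℝ) ≤ Y := Nat.cast_nonneg Y
    have lo : g * l1 * l2 ≤ (g : ℝ) * x * y := by gcongr
    have hi : (g : ℝ) * x * y ≤ g * l1 * l2 * ρ ^ 2 := by
      calc (g : ℝ) * x * y ≤ g * (ρ * l1) * (ρ * l2) := by gcongr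
        _ = _ := by ring
    have p0 : 0 < (g : ℝ) * l1 * l2 := mul_pos (mul_pos hg' hl1) hl2
    have p1 : 0 < (g : ℝ) * x * y := mul_pos (mul_pos hg' hx0) hy0
    have e1 : (Y : ℝ) / (g * l1 * l2 * ρ ^ 2) ≤ Y / (g * x * y) :=
      div_le_div_of_nonneg_left hY p1 hi
    have e2 : (Y : ℝ) / (g * x * y) ≤ Y / (g * l1 * l2) := div_le_div_of_nonneg_left hY p0 lo
    have eT : Y / (g * x * y) = ⌊(Y : ℝ) / (g * x * y)⌋₊ := by
      rw [← Nat.floor_div_eq_div (K := ℝ)]; push_cast; rfl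
    have t1 : Tm ≤ Y / (g * x * y) := by rw [eT]; exact Nat.floor_mono e1
    have t2 : Y / (g * x * y) ≤ Tp := by rw [eT]; exact Nat.floor_mono e2
    have c1 : (cnt Tm (w x y) : ℝ) ≤ cnt (Y / (g * x * y)) (w x y) := by
      exact_mod_cast cnt_mono t1 _
    have c2 : (cnt (Y / (g * x * y)) (w x y) : ℝ) ≤ cnt Tp (w x y) := by
      exact_mod_cast cnt_mono t2 _
    have f1 : (Tm : ℝ) ≤ Y / (g * l1 * l2 * ρ ^ 2) :=
      Nat.floor_le (div_nonneg hY (mul_pos p0 (by positivity)).le)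
    have f2 : (Y : ℝ) / (g * l1 * l2 * ρ ^ 2) < Tm + 1 := Nat.lt_floor_add_one _
    have f3 : (Tp : ℝ) ≤ Y / (g * l1 * l2) := Nat.floor_le (div_nonneg hY p0.le)
    have f4 : (Y : ℝ) / (g * l1 * l2) = ρ ^ 2 * (Y / (g * l1 * l2 * ρ ^ 2)) := by
      have : ρ ≠ 0 := by linarith only [hρ]
      field_simp
    have hρ2 : 0 ≤ ρ ^ 2 - 1 := by nlinarith only [hρ]
    have f5 : (Y : ℝ) / (g * l1 * l2) - Tm ≤ (ρ ^ 2 - 1) * (Y / (g * x * y)) + 1 := by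
      have := mul_le_mul_of_nonneg_left e1 hρ2
      linarith only [f2, f4, this]
    have g1 : ((Tp : ℝ) - Tm) / q ≤ ((ρ ^ 2 - 1) * (Y / (g * x * y)) + 1) / q :=
      div_le_div_of_nonneg_right (by linarith only [f3, f5]) hq.le
    have g2 : ((Y : ℝ) / (g * x * y) - Tm) / q ≤ ((ρ ^ 2 - 1) * (Y / (g * x * y)) + 1) / q :=
      div_le_div_of_nonneg_right (by linarith only [e2, f5]) hq.le
    have g3 : 0 ≤ ((Y : ℝ) / (g * x * y) - Tm) / q := div_nonneg (by linarith only [e1, f1]) hq.le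
    have er : remU Y (g * x * y) c
        = cnt (Y / (g * x * y)) (w x y) - (Y : ℝ) / (g * x * y) / q := by
      unfold remU
      rw [card_eq_cnt Y _ hA (Nat.Coprime.mul_left (hg.mul_left (hc1 x hx)) (hc2 y hy)),
        inv_mul_three hg (hc1 x hx) (hc2 y hy), div_div]
      push_cast; rfl
    rw [sub_div] at g1 g2 g3
    have e3 : 2 / (q : ℝ) * ((ρ ^ 2 - 1) * (Y / (g * x * y)) + 1)
        = 2 * (((ρ ^ 2 - 1) * (Y / (g * x * y)) + 1) / q) := by ring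
    rw [er, e3, abs_le]
    simp only [hdm, hdp]
    constructor <;> linarith only [c1, c2, g1, g2, g3]
  have k1 := hK Tm α β hα hβ
  have k2 := abs_le.mp (hK Tm (fun _ => 1) (fun _ => 1) (by simp) (by simp))
  have k3 := abs_le.mp (hK Tp (fun _ => 1) (fun _ => 1) (by simp) (by simp))
  simp only [one_mul] at k2 k3
  have e : ∑ x ∈ S1, ∑ y ∈ S2, α x * β y * remU Y (g * x * y) c
      = ∑ x ∈ S1, ∑ y ∈ S2, α x * β y * dm x y
        + ∑ x ∈ S1, ∑ y ∈ S2, α x * β y * (remU Y (g * x * y) c - dm x y) := by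
    rw [← sum_add_distrib]
    refine sum_congr rfl fun x _ => ?_
    rw [← sum_add_distrib]
    exact sum_congr rfl fun y _ => by ring
  have b2 : |∑ x ∈ S1, ∑ y ∈ S2, α x * β y * (remU Y (g * x * y) c - dm x y)|
      ≤ ∑ x ∈ S1, ∑ y ∈ S2, (dp x y - dm x y
        + 2 / q * ((ρ ^ 2 - 1) * (Y / (g * x * y)) + 1)) := by
    refine (abs_sum_le_sum_abs _ _).trans (sum_le_sum fun x hx => ?_)
    refine (abs_sum_le_sum_abs _ _).trans (sum_le_sum fun y hy => ?_)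
    rw [abs_mul, abs_mul]
    exact (mul_le_of_le_one_left (abs_nonneg _)
      (mul_le_one₀ (hα x hx) (abs_nonneg _) (hβ y hy))).trans (pt x hx y hy)
  simp only [sum_add_distrib, sum_sub_distrib] at b2
  rw [e]
  refine (abs_add_le _ _).trans ?_
  have k2' : -K ≤ ∑ x ∈ S1, ∑ y ∈ S2, dm x y := k2.1
  have k3' : ∑ x ∈ S1, ∑ y ∈ S2, dp x y ≤ K := k3.2
  have k1' : |∑ x ∈ S1, ∑ y ∈ S2, α x * β y * dm x y| ≤ K := k1
  linarith only [k1, k2, k3, b2]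

lemma sum_inv_le_HH (S : Finset ℕ) (X : ℕ) (h : S ⊆ sqf X) : ∑ x ∈ S, 1 / (x : ℝ) ≤ HH X :=
  sum_le_sum_of_subset_of_nonneg (h.trans (filter_subset _ _)) fun _ _ _ => by positivity

lemma boxes_le {q Q : ℕ} [NeZero q] (hQ : q ≤ Q) (X1 X2 n Y g nB : ℕ) (hg0 : 0 < g)
    (hg : Nat.Coprime g q) (S1 S2 : Finset ℕ) (h1 : S1 ⊆ sqf X1) (h2 : S2 ⊆ sqf X2)
    (hc1 : ∀ x ∈ S1, Nat.Coprime x q) (hc2 : ∀ x ∈ S2, Nat.Coprime x q)
    (α β : ℕ → ℝ) (hα : ∀ x ∈ S1, |α x| ≤ 1) (hβ : ∀ x ∈ S2, |β x| ≤ 1) (c : ZMod q)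
    (hu : IsUnit c) {σ τ ρ : ℝ} (hσ : 0 ≤ σ) (hτ : 0 < τ)
    (hστ : Q * τ ^ 2 ≤ σ ^ (2 * (n + 1) ^ 2)) (hρ : 1 < ρ) (hB1 : (X1 : ℝ) < ρ ^ nB)
    (hB2 : (X2 : ℝ) < ρ ^ nB) :
    |∑ x ∈ S1, ∑ y ∈ S2, α x * β y * remU Y (g * x * y) c|
      ≤ 3 * (nB : ℝ) ^ 2 * kB X1 X2 (n + 1) Q σ τ q
        + 2 / q * ((ρ ^ 2 - 1) * (Y / g) * (HH X1 * HH X2) + X1 * X2) := by
  have hidx : ∀ x : ℕ, ∃ i : ℕ, 1 ≤ x → ρ ^ i ≤ x ∧ (x : ℝ) < ρ ^ (i + 1) := by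
    intro x
    by_cases hx : 1 ≤ x
    · obtain ⟨i, hi⟩ := exists_nat_pow_near (x := (x : ℝ)) (by exact_mod_cast hx) hρ
      exact ⟨i, fun _ => hi⟩
    · exact ⟨0, fun h => absurd h hx⟩
  choose idx hidx using hidx
  have hm : ∀ (S : Finset ℕ) (X : ℕ), S ⊆ sqf X → (X : ℝ) < ρ ^ nB →
      ∀ x ∈ S, idx x ∈ range nB := by
    intro S X hS hB x hx
    have := (mem_sqf.mp (hS hx)).1
    have h3 : (x : ℝ) ≤ X := by exact_mod_cast this.2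
    exact mem_range.mpr ((pow_lt_pow_iff_right₀ hρ).mp
      (((hidx x this.1).1.trans h3).trans_lt hB))
  have hu' : IsUnit (c * (g : ZMod q)⁻¹) :=
    hu.mul (IsUnit.of_mul_eq_one_right _ (ZMod.coe_mul_inv_eq_one g hg))
  have split : ∀ F : ℕ → ℕ → ℝ, ∑ x ∈ S1, ∑ y ∈ S2, F x y = ∑ i ∈ range nB, ∑ j ∈ range nB,
      ∑ x ∈ S1.filter (fun x => idx x = i), ∑ y ∈ S2.filter (fun y => idx y = j), F x y := by
    intro F
    rw [← sum_fiberwise_of_maps_to (hm S1 X1 h1 hB1)]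
    refine sum_congr rfl fun i _ => ?_
    rw [sum_comm (s := range nB)]
    refine sum_congr rfl fun x _ => ?_
    rw [sum_fiberwise_of_maps_to (hm S2 X2 h2 hB2)]
  have hq : (0 : ℝ) < q := Nat.cast_pos.mpr (Nat.pos_of_ne_zero (NeZero.ne q))
  have hg' : (0 : ℝ) < g := Nat.cast_pos.mpr hg0
  have hρ2 : 0 ≤ ρ ^ 2 - 1 := by nlinarith only [hρ]
  have last : ∑ x ∈ S1, ∑ y ∈ S2, 2 / (q : ℝ) * ((ρ ^ 2 - 1) * (Y / (g * x * y)) + 1)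
      ≤ 2 / q * ((ρ ^ 2 - 1) * (Y / g) * (HH X1 * HH X2) + X1 * X2) := by
    have e : ∑ x ∈ S1, ∑ y ∈ S2, 2 / (q : ℝ) * ((ρ ^ 2 - 1) * (Y / (g * x * y)) + 1)
        = 2 / q * ((ρ ^ 2 - 1) * (Y / g) * ((∑ x ∈ S1, 1 / (x : ℝ)) * ∑ y ∈ S2, 1 / (y : ℝ))
          + S1.card * S2.card) := by
      rw [sum_mul_sum, mul_sum, card_eq_sum_ones S1, card_eq_sum_ones S2]
      push_cast
      rw [sum_mul_sum, ← sum_add_distrib, mul_sum]
      refine sum_congr rfl fun x _ => ?_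
      rw [mul_sum, ← sum_add_distrib, mul_sum]
      refine sum_congr rfl fun y _ => ?_
      ring
    rw [e]
    have c1 : (S1.card : ℝ) ≤ X1 := by exact_mod_cast (card_le_card h1).trans (card_sqf_le X1)
    have c2 : (S2.card : ℝ) ≤ X2 := by exact_mod_cast (card_le_card h2).trans (card_sqf_le X2)
    have c3 := sum_inv_le_HH S1 X1 h1
    have c4 := sum_inv_le_HH S2 X2 h2
    have c5 : 0 ≤ ∑ y ∈ S2, 1 / (y : ℝ) := sum_nonneg fun _ _ => by positivity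
    have c6 := HH_nonneg X1
    gcongr
  rw [split] at last ⊢
  refine le_trans ?_ (add_le_add_right last _)
  have e : 3 * (nB : ℝ) ^ 2 * kB X1 X2 (n + 1) Q σ τ q
      = ∑ _i ∈ range nB, ∑ _j ∈ range nB, 3 * kB X1 X2 (n + 1) Q σ τ q := by
    simp only [sum_const, card_range, nsmul_eq_mul]; ring
  rw [e, ← sum_add_distrib]
  refine (abs_sum_le_sum_abs _ _).trans (sum_le_sum fun i _ => ?_)
  rw [← sum_add_distrib]
  refine (abs_sum_le_sum_abs _ _).trans (sum_le_sum fun j _ => ?_)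
  have hb : ∀ (S : Finset ℕ) (X : ℕ), S ⊆ sqf X → ∀ i, ∀ x ∈ S.filter (fun x => idx x = i),
      ρ ^ i ≤ x ∧ (x : ℝ) ≤ ρ * ρ ^ i := by
    intro S X hS i x hx
    rw [mem_filter] at hx
    have := hidx x (mem_sqf.mp (hS hx.1)).1.1
    rw [hx.2, pow_succ'] at this
    exact ⟨this.1, this.2.le⟩
  refine box_le Y g hg0 hg _ _ (fun x hx => hc1 x (mem_filter.mp hx).1)
    (fun x hx => hc2 x (mem_filter.mp hx).1) α β (fun x hx => hα x (mem_filter.mp hx).1)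
    (fun x hx => hβ x (mem_filter.mp hx).1) c hρ.le (pow_pos (by linarith only [hρ]) i)
    (pow_pos (by linarith only [hρ]) j) (hb S1 X1 h1 i) (hb S2 X2 h2 j) fun T α β a b => ?_
  exact disc_le hQ X1 X2 n _ _ ((filter_subset _ _).trans h1) ((filter_subset _ _).trans h2)
    (fun x hx => hc1 x (mem_filter.mp hx).1) (fun x hx => hc2 x (mem_filter.mp hx).1)
    α β a b _ hu' hσ hτ hστ T

end Pool.Agent.Work.MP_51e72e_nt
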