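import Pool.Agent.Work.MP_51e72e_nt.Bil

/-!
Bilinear remainder terms in `lcm d e`, on average over the modulus.
-/

set_option autoImplicit false

namespace Pool.Agent.Work.MP_51e72e_nt

open Finset Pool.Agent.Lib.LargeSieve ArithmeticFunction

/-- `{x : h x ∈ S}` -/
def quo (S : Finset ℕ) (X h : ℕ) : Finset ℕ := (sqf (X / h)).filter (fun x => h * x ∈ S)

lemma sum_quo (S : Finset ℕ) (X h : ℕ) (hS : S ⊆ sqf X) (hh : 0 < h) (F : ℕ → ℝ) :
    ∑ d ∈ S, (if h ∣ d then F d else 0) = ∑ x ∈ quo S X h, F (h * x) := by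
  rw [← sum_filter]
  symm
  refine sum_bij (fun x _ => h * x) ?_ ?_ ?_ (fun _ _ => rfl)
  · intro x hx
    exact mem_filter.mpr ⟨(mem_filter.mp hx).2, Dvd.intro _ rfl⟩
  · intro x _ y _ h1
    exact Nat.eq_of_mul_eq_mul_left hh h1
  · intro d hd
    obtain ⟨h1, x, rfl⟩ := mem_filter.mp hd
    have h2 := mem_sqf.mp (hS h1)
    refine ⟨x, mem_filter.mpr ⟨mem_sqf.mpr ⟨⟨Nat.pos_of_mul_pos_left h2.1.1,
      (Nat.le_div_iff_mul_le hh).mpr (by linarith [h2.1.2])⟩, h2.2.of_mul_right⟩, h1⟩, rfl⟩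

lemma psi_lcm (Ψ : ℕ → ℝ) {d e X : ℕ} (hd : 0 < d) (hX : d ≤ X) :
    Ψ (Nat.lcm d e) = ∑ h ∈ Icc 1 X, if h ∣ d then (if h ∣ e then
      ∑ z ∈ h.divisorsAntidiagonal, (moebius z.1 : ℝ) * Ψ (d * e / z.2) else 0) else 0 := by
  have := (sum_eq_iff_sum_mul_moebius_eq
    (f := fun h => ∑ z ∈ h.divisorsAntidiagonal, (moebius z.1 : ℝ) * Ψ (d * e / z.2))
    (g := fun g => Ψ (d * e / g))).mpr (fun _ _ => rfl) (Nat.gcd d e) (Nat.gcd_pos_of_pos_left e hd)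
  rw [Nat.lcm, ← this]
  simp_rw [← ite_and]
  rw [← sum_filter]
  congr 1
  ext h
  rw [Nat.mem_divisors, mem_filter, mem_Icc, Nat.dvd_gcd_iff]
  constructor
  · rintro ⟨h1, -⟩
    exact ⟨⟨Nat.pos_of_dvd_of_pos h1.1 hd, (Nat.le_of_dvd hd h1.1).trans hX⟩, h1⟩
  · rintro ⟨-, h1⟩
    exact ⟨h1, (Nat.gcd_pos_of_pos_left e hd).ne'⟩

lemma gcd_split (Ψ α β : ℕ → ℝ) (S1 S2 : Finset ℕ) (X1 X2 : ℕ) (h1 : S1 ⊆ sqf X1)
    (h2 : S2 ⊆ sqf X2) :
    ∑ d ∈ S1, ∑ e ∈ S2, α d * β e * Ψ (Nat.lcm d e)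
      = ∑ h ∈ Icc 1 X1, ∑ z ∈ h.divisorsAntidiagonal, (moebius z.1 : ℝ) *
        ∑ x ∈ quo S1 X1 h, ∑ y ∈ quo S2 X2 h, α (h * x) * β (h * y) * Ψ (h * z.1 * x * y) := by
  have e1 : ∑ d ∈ S1, ∑ e ∈ S2, α d * β e * Ψ (Nat.lcm d e)
      = ∑ d ∈ S1, ∑ e ∈ S2, ∑ h ∈ Icc 1 X1, if h ∣ d then (if h ∣ e then α d * β e *
        ∑ z ∈ h.divisorsAntidiagonal, (moebius z.1 : ℝ) * Ψ (d * e / z.2) else 0) else 0 := by
    refine sum_congr rfl fun d hd => sum_congr rfl fun e _ => ?_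
    have := (mem_sqf.mp (h1 hd)).1
    rw [psi_lcm Ψ this.1 this.2, mul_sum]
    refine sum_congr rfl fun h _ => ?_
    split_ifs <;> simp
  rw [e1]
  simp_rw [sum_comm (s := S2) (t := Icc 1 X1)]
  rw [sum_comm]
  refine sum_congr rfl fun h hh => ?_
  have hh0 : 0 < h := (mem_Icc.mp hh).1
  have e2 : ∀ d, (∑ e ∈ S2, if h ∣ d then (if h ∣ e then α d * β e *
        ∑ z ∈ h.divisorsAntidiagonal, (moebius z.1 : ℝ) * Ψ (d * e / z.2) else 0) else 0)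
      = if h ∣ d then ∑ y ∈ quo S2 X2 h, α d * β (h * y) *
        ∑ z ∈ h.divisorsAntidiagonal, (moebius z.1 : ℝ) * Ψ (d * (h * y) / z.2) else 0 := by
    intro d
    split_ifs
    · exact sum_quo S2 X2 h h2 hh0 (fun e => α d * β e *
        ∑ z ∈ h.divisorsAntidiagonal, (moebius z.1 : ℝ) * Ψ (d * e / z.2))
    · simp
  simp_rw [e2]
  rw [sum_quo S1 X1 h h1 hh0]
  simp_rw [mul_sum]
  simp_rw [sum_comm (s := quo S2 X2 h) (t := h.divisorsAntidiagonal)]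
  rw [sum_comm]
  refine sum_congr rfl fun z hz => sum_congr rfl fun x _ => sum_congr rfl fun y _ => ?_
  have hz1 := (Nat.mem_divisorsAntidiagonal.mp hz).1
  have hz2 : 0 < z.2 := Nat.pos_of_mul_pos_left (hz1 ▸ hh0)
  have : h * x * (h * y) / z.2 = h * z.1 * x * y := by
    refine Nat.div_eq_of_eq_mul_left hz2 ?_
    calc h * x * (h * y) = h * x * (z.1 * z.2 * y) := by rw [hz1]
      _ = _ := by ring
  rw [this]; ring

/-- The bilinear remainder bound, on average over the modulus. -/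
theorem bil_main (X1 X2 n Q Y nB : ℕ) (hQ : 1 ≤ Q) {ρ σ D L : ℝ} (hσ : 0 ≤ σ)
    (hQσ : 1 ≤ Q * σ ^ (2 * (n + 1) ^ 2)) (hρ : 1 < ρ) (hB1 : (X1 : ℝ) < ρ ^ nB)
    (hB2 : (X2 : ℝ) < ρ ^ nB) (hX1 : Q ≤ X1 ^ (n + 1)) (hX2 : Q ≤ X2 ^ (n + 1)) (hD0 : 0 ≤ D)
    (hD : ∀ m : ℕ, 1 ≤ m → m ≤ Q * ((n + 1) * (max X1 X2) ^ (2 * (n + 1))) →
      (m.divisors.card : ℝ) ≤ D)
    (hL1 : HH X1 ≤ L) (hL2 : HH X2 ≤ L) (hL3 : HH Q ≤ L) :
    ∃ B : ℕ → ℝ, (∀ q, 0 ≤ B q) ∧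
      ∑ q ∈ Icc 1 Q, B q ≤ D * L ^ 2 * (6 * (nB : ℝ) ^ 2 * (X1 * X2 * Q * σ) *
        (1 + 2 * (D ^ (2 * (n + 1)) + D)) + 2 * ((ρ ^ 2 - 1) * Y * L ^ 2 + X1 * X2)) ∧
      ∀ q ∈ Icc 1 Q, ∀ c : ZMod q, IsUnit c → ∀ S1 S2 : Finset ℕ, S1 ⊆ sqf X1 → S2 ⊆ sqf X2 →
        (∀ x ∈ S1, Nat.Coprime x q) → (∀ x ∈ S2, Nat.Coprime x q) → ∀ α β : ℕ → ℝ,
        (∀ x ∈ S1, |α x| ≤ 1) → (∀ x ∈ S2, |β x| ≤ 1) →
        |∑ d ∈ S1, ∑ e ∈ S2, α d * β e * remU Y (Nat.lcm d e) c| ≤ B q := by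
  set r := n + 1 with hr
  have hQ' : (0 : ℝ) < Q := Nat.cast_pos.mpr hQ
  have hρ2 : 0 ≤ ρ ^ 2 - 1 := by clear * - ρ hρ; nlinarith
  have hL0 : 0 ≤ L := (HH_nonneg Q).trans hL3
  have hX10 : 0 < X1 := by
    rcases Nat.eq_zero_or_pos X1 with h | h
    · rw [h, zero_pow (by omega)] at hX1; omega
    · exact h
  let σh : ℕ → ℝ := fun h => 2 * h * σ
  let τh : ℕ → ℝ := fun h => (2 * h : ℝ) ^ r / Q
  let Err : ℝ := (ρ ^ 2 - 1) * Y * L ^ 2 + X1 * X2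
  have hErr : 0 ≤ Err := by positivity
  have hσh : ∀ h, 0 ≤ σh h := fun h => by positivity
  have hτh : ∀ h, 1 ≤ h → 0 < τh h := fun h hh => by
    have : (0 : ℝ) < h := Nat.cast_pos.mpr hh
    positivity
  have hdiv : ∀ h ∈ Icc 1 X1, (h.divisors.card : ℝ) ≤ D := by
    intro h hh
    rw [mem_Icc] at hh
    refine hD h hh.1 (hh.2.trans ?_)
    calc X1 ≤ max X1 X2 := le_max_left _ _
      _ ≤ (max X1 X2) ^ (2 * r) := Nat.le_self_pow (by omega) _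
      _ = 1 * (1 * (max X1 X2) ^ (2 * r)) := by ring
      _ ≤ _ := Nat.mul_le_mul hQ (Nat.mul_le_mul_right _ (by omega))
  refine ⟨fun q => ∑ h ∈ Icc 1 X1, D * (3 * (nB : ℝ) ^ 2 *
    kB (X1 / h) (X2 / h) r Q (σh h) (τh h) q + 2 / q * (Err / h)), ?_, ?_, ?_⟩
  · intro q
    refine sum_nonneg fun h hh => ?_
    have := kB_nonneg (X1 / h) (X2 / h) r Q (hσh h) (hτh h (mem_Icc.mp hh).1).le q
    clear * - D nB X1 h X2 r Q σh τh q Err hD0 this ρ Y L hρ2 hX10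
    positivity
  · rw [sum_comm]
    have key : ∀ h ∈ Icc 1 X1, ∑ q ∈ Icc 1 Q, kB (X1 / h) (X2 / h) r Q (σh h) (τh h) q
        ≤ 1 / h * (L * (2 * (X1 * X2 * Q * σ) * (1 + 2 * (D ^ (2 * r) + D)))) := by
      clear * - X1 Q X2 r σh τh L σ D hQ' n hσh hτh hX1 hX2 hD0 hD hL3 hX10 hσ hQ hL0
      intro h hh
      rw [mem_Icc] at hh
      have hh' : (0 : ℝ) < h := Nat.cast_pos.mpr hh.1
      have hh1 : (1 : ℝ) ≤ h := by exact_mod_cast hh.1
      by_cases hX : h ≤ X2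
      · have big : ∀ X : ℕ, h ≤ X → Q ≤ X ^ r → 1 ≤ ((X / h : ℕ) : ℝ) ^ r * τh h := by
          intro X h1 h2
          have h3 : X ≤ X / h * (2 * h) := by
            have := Nat.div_add_mod X h
            have := Nat.mod_lt X hh.1
            have : 1 ≤ X / h := (Nat.one_le_div_iff hh.1).mpr h1
            nlinarith
          have h4 : (Q : ℝ) ≤ (((X / h : ℕ) : ℝ) * (2 * h)) ^ r := by
            exact_mod_cast h2.trans (Nat.pow_le_pow_left h3 r)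
          simp only [τh]
          rw [← mul_div_assoc, ← mul_pow, le_div_iff₀ hQ', one_mul]
          exact h4
        refine (sum_kB_le (X1 / h) (X2 / h) r Q (by omega) (hσh h) (hτh h hh.1) ?_
          (big X1 hh.2 hX1) (big X2 hX hX2) hD0 (fun m a b => hD m a (b.trans ?_))).trans ?_
        · simp only [τh]
          rw [mul_div_cancel₀ _ hQ'.ne']
          exact one_le_pow₀ (by linarith)
        · exact Nat.mul_le_mul_left _ (Nat.mul_le_mul_left _ (Nat.pow_le_pow_left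
            (max_le_max (Nat.div_le_self _ _) (Nat.div_le_self _ _)) _))
        · have a1 : ((X1 / h : ℕ) : ℝ) ≤ X1 / h := Nat.cast_div_le
          have a2 : ((X2 / h : ℕ) : ℝ) ≤ X2 / h := Nat.cast_div_le
          calc _ ≤ L * ((X1 / h) * (X2 / h) * σh h * (Q * (1 + 2 * (D ^ (2 * r) + D)))) := by
                have := hσh h
                gcongr
            _ = _ := by simp only [σh]; field_simp
      · have : X2 / h = 0 := Nat.div_eq_of_lt (by omega)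
        have e : ∀ q, kB (X1 / h) (X2 / h) r Q (σh h) (τh h) q = 0 := by
          intro q; simp [kB, kOne, this]
        simp only [e, sum_const_zero]
        positivity
    calc _ ≤ ∑ h ∈ Icc 1 X1, 1 / (h : ℝ) * (D * (3 * (nB : ℝ) ^ 2 *
          (L * (2 * (X1 * X2 * Q * σ) * (1 + 2 * (D ^ (2 * r) + D)))) + 2 * L * Err)) := by
          clear * - Q D nB X1 X2 r σh τh Err L σ key ρ Y hL3 hρ2 hX10 hD0 n
          refine sum_le_sum fun h hh => ?_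
          rw [← mul_sum, sum_add_distrib, ← mul_sum]
          have a1 := key h hh
          have a2 : ∑ q ∈ Icc 1 Q, 2 / (q : ℝ) * (Err / h) = HH Q * (2 * (Err / h)) := by
            rw [HH, sum_mul]; exact sum_congr rfl fun q _ => by ring
          have a3 : HH Q * (2 * (Err / h)) ≤ L * (2 * (Err / h)) := by gcongr
          rw [a2]
          calc _ ≤ D * (3 * (nB : ℝ) ^ 2 * (1 / h * (L * (2 * (X1 * X2 * Q * σ) *
                (1 + 2 * (D ^ (2 * r) + D))))) + L * (2 * (Err / h))) := by gcongr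
            _ = _ := by ring
      _ ≤ L * (D * (3 * (nB : ℝ) ^ 2 *
          (L * (2 * (X1 * X2 * Q * σ) * (1 + 2 * (D ^ (2 * r) + D)))) + 2 * L * Err)) := by
          clear * - X1 D nB L X2 Q σ r Err hL1 hD0 hL0 hX10 hQ hσ ρ Y hρ2
          rw [← sum_mul]
          exact mul_le_mul_of_nonneg_right hL1 (by positivity)
      _ = _ := by simp only [Err]; ring
  · intro q hq c hu S1 S2 h1 h2 hc1 hc2 α β hα hβ
    rw [mem_Icc] at hq
    have : NeZero q := ⟨by omega⟩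
    have hq' : (0 : ℝ) < q := Nat.cast_pos.mpr hq.1
    rw [gcd_split (fun A => remU Y A c) α β S1 S2 X1 X2 h1 h2]
    refine (abs_sum_le_sum_abs _ _).trans (sum_le_sum fun h hh => ?_)
    have hh0 := (mem_Icc.mp hh).1
    have hh' : (0 : ℝ) < h := Nat.cast_pos.mpr hh0
    have hh1 : (1 : ℝ) ≤ h := by exact_mod_cast hh0
    have hk := kB_nonneg (X1 / h) (X2 / h) r Q (hσh h) (hτh h hh0).le q
    have hcard : (h.divisorsAntidiagonal.card : ℝ) ≤ D := by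
      rw [← Nat.map_div_right_divisors, card_map]; exact hdiv h hh
    refine (abs_sum_le_sum_abs _ _).trans ((sum_le_card_nsmul _ _ (3 * (nB : ℝ) ^ 2 *
      kB (X1 / h) (X2 / h) r Q (σh h) (τh h) q + 2 / q * (Err / h)) fun z hz => ?_).trans ?_)
    swap
    · rw [nsmul_eq_mul]
      exact mul_le_mul_of_nonneg_right hcard (by clear * - nB X1 h X2 r Q σh τh q Err hk hq' ρ Y L hρ2 hX10 hh0 hcard; positivity)
    rw [abs_mul]
    have hμ : |(moebius z.1 : ℝ)| ≤ 1 := by clear * - z; exact_mod_cast abs_moebius_le_one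
    refine (mul_le_of_le_one_left (abs_nonneg _) hμ).trans ?_
    rcases (quo S1 X1 h).eq_empty_or_nonempty with he | ⟨x0, hx0⟩
    · rw [he, sum_empty, abs_zero]; positivity
    have hz1 := (Nat.mem_divisorsAntidiagonal.mp hz).1
    have hz2 : 0 < z.1 := Nat.pos_of_mul_pos_right (hz1 ▸ hh0)
    have hhq : Nat.Coprime h q := Nat.Coprime.coprime_mul_right (hc1 _ (mem_filter.mp hx0).2)
    have hg : Nat.Coprime (h * z.1) q :=
      Nat.Coprime.mul_left hhq (Nat.Coprime.coprime_mul_right (hz1 ▸ hhq))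
    have hστ : Q * τh h ^ 2 ≤ σh h ^ (2 * (n + 1) ^ 2) := by
      clear * - Q τh h σh n r hh' hh1 hr hh0 hQ σ hQ' hQσ
      simp only [τh, σh]
      have a1 : (2 * h : ℝ) ^ (2 * r) ≤ (2 * h : ℝ) ^ (2 * r ^ 2) :=
        pow_le_pow_right₀ (by linarith) (by nlinarith)
      have a2 : (Q : ℝ) * ((2 * h : ℝ) ^ r / Q) ^ 2 = (2 * h : ℝ) ^ (2 * r) / Q := by
        rw [mul_comm 2 r, pow_mul]; field_simp
      rw [a2, mul_pow (2 * h : ℝ) σ, div_le_iff₀ hQ', ← hr]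
      calc (2 * h : ℝ) ^ (2 * r) ≤ (2 * h : ℝ) ^ (2 * r ^ 2) * 1 := by linarith
        _ ≤ (2 * h : ℝ) ^ (2 * r ^ 2) * (Q * σ ^ (2 * r ^ 2)) :=
            mul_le_mul_of_nonneg_left hQσ (pow_nonneg (by linarith) _)
        _ = _ := by ring
    have a1 : ((X1 / h : ℕ) : ℝ) ≤ X1 := by exact_mod_cast Nat.div_le_self _ _
    have a2 : ((X2 / h : ℕ) : ℝ) ≤ X2 := by exact_mod_cast Nat.div_le_self _ _
    refine (boxes_le hq.2 (X1 / h) (X2 / h) n Y (h * z.1) nB (Nat.mul_pos hh0 hz2) hg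
      (quo S1 X1 h) (quo S2 X2 h) (filter_subset _ _) (filter_subset _ _)
      (fun x hx => Nat.Coprime.coprime_mul_left (hc1 _ (mem_filter.mp hx).2))
      (fun x hx => Nat.Coprime.coprime_mul_left (hc2 _ (mem_filter.mp hx).2))
      (fun x => α (h * x)) (fun y => β (h * y)) (fun x hx => hα _ (mem_filter.mp hx).2)
      (fun x hx => hβ _ (mem_filter.mp hx).2) c hu (hσh h) (hτh h hh0) hστ hρ
      (a1.trans_lt hB1) (a2.trans_lt hB2)).trans ?_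
    refine add_le_add_right (mul_le_mul_of_nonneg_left ?_ (by positivity)) _
    have a3 : HH (X1 / h) ≤ L := (HH_mono (Nat.div_le_self _ _)).trans hL1
    have a4 : HH (X2 / h) ≤ L := (HH_mono (Nat.div_le_self _ _)).trans hL2
    have a5 : ((X1 / h : ℕ) : ℝ) ≤ X1 / h := Nat.cast_div_le
    have a6 : (Y : ℝ) / ((h * z.1 : ℕ) : ℝ) ≤ Y / h := by
      refine div_le_div_of_nonneg_left (Nat.cast_nonneg _) hh' ?_
      exact_mod_cast Nat.le_mul_of_pos_right h hz2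
    have a7 := HH_nonneg (X2 / h)
    have a8 := mul_nonneg (HH_nonneg (X1 / h)) a7
    calc _ ≤ (ρ ^ 2 - 1) * (Y / h) * (L * L) + X1 / h * X2 := by clear * - ρ Y h z X1 X2 L a6 hρ2 a3 a4 a7 hL0 a8 hh0 a5 a2 hX10 Err; gcongr
      _ = _ := by simp only [Err]; ring

end Pool.Agent.Work.MP_51e72e_nt
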