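import Pool.Agent.Work.MP_51e72e_nt.Disc
import Pool.Agent.Lib.ANT.SieveClasses

/-!
Two-colour Selberg weights supported on an arbitrary region closed under taking divisors.
-/

set_option autoImplicit false
set_option maxHeartbeats 400000

namespace Pool.Agent.Work.MP_51e72e_nt

open Finset

section weights

variable {Ps : Finset ℕ}

/-- product of the primes of colour `j` -/
def part (D : Ps → Fin 3) (j : Fin 3) : ℕ := ∏ p : Ps, if D p = j then (p : ℕ) else 1

lemma prod_subset_eq {M : Type*} [CommMonoid M] {S : Finset ℕ} (hS : S ⊆ Ps) (f : ℕ → M) :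
    ∏ p ∈ S, f p = ∏ p : Ps, if (p : ℕ) ∈ S then f p else 1 := by
  rw [prod_coe_sort Ps (fun p => if p ∈ S then f p else 1), prod_ite_mem, inter_eq_right.mpr hS]

lemma prime_dvd_part (hPs : ∀ p ∈ Ps, p.Prime) (D : Ps → Fin 3) (j : Fin 3) {p : ℕ}
    (hp : p.Prime) : p ∣ part D j ↔ ∃ h : p ∈ Ps, D ⟨p, h⟩ = j := by
  rw [part, Prime.dvd_finsetProd_iff hp.prime]
  constructor
  · rintro ⟨i, -, hi⟩
    split_ifs at hi with h
    · have := (Nat.prime_dvd_prime_iff_eq hp (hPs i i.2)).mp hi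
      subst this
      exact ⟨i.2, h⟩
    · exact absurd (Nat.eq_one_of_dvd_one hi) hp.ne_one
  · rintro ⟨h, hD⟩
    exact ⟨⟨p, h⟩, mem_univ _, by simp [hD]⟩

lemma coe_dvd_part (hPs : ∀ p ∈ Ps, p.Prime) (D : Ps → Fin 3) (j : Fin 3) (p : Ps) :
    (p : ℕ) ∣ part D j ↔ D p = j := by
  rw [prime_dvd_part hPs D j (hPs p p.2)]
  exact ⟨fun ⟨_, h⟩ => h, fun h => ⟨p.2, h⟩⟩

lemma squarefree_part (hPs : ∀ p ∈ Ps, p.Prime) (D : Ps → Fin 3) (j : Fin 3) :
    Squarefree (part D j) := by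
  refine (Pool.Agent.Lib.ANT.squarefree_prod_primes Ps hPs).squarefree_of_dvd ?_
  rw [← prod_coe_sort Ps (fun p => p)]
  refine prod_dvd_prod_of_dvd _ _ fun p _ => ?_
  split_ifs <;> simp

lemma part_inj (hPs : ∀ p ∈ Ps, p.Prime) {D E : Ps → Fin 3} (h1 : part D 1 = part E 1)
    (h2 : part D 2 = part E 2) : D = E := by
  funext p
  have a1 := coe_dvd_part hPs D 1 p
  have a2 := coe_dvd_part hPs D 2 p
  rw [h1, coe_dvd_part hPs E 1 p] at a1
  rw [h2, coe_dvd_part hPs E 2 p] at a2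
  revert a1 a2
  generalize D p = x
  generalize E p = y
  fin_cases x <;> fin_cases y <;> simp

lemma part_zero (j : Fin 3) (hj : j ≠ 0) : part (fun _ : Ps => (0 : Fin 3)) j = 1 := by
  simp [part, hj.symm]

lemma part_dvd {D R : Ps → Fin 3} (j : Fin 3) (h : ∀ p, D p = j → R p = j) :
    part D j ∣ part R j := by
  refine prod_dvd_prod_of_dvd _ _ fun p _ => ?_
  split_ifs with h1 h2
  · exact dvd_rfl
  · exact absurd (h p h1) h2
  · exact one_dvd _
  · exact dvd_rfl

lemma prod_primeFactors_eq (hPs : ∀ p ∈ Ps, p.Prime) (D E : Ps → Fin 3) (j : Fin 3) (f : ℕ → ℝ) :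
    ∏ p ∈ (part D j * part E j).primeFactors, f p
      = ∏ p : Ps, if D p = j ∨ E p = j then f p else 1 := by
  have h0 : part D j * part E j ≠ 0 :=
    mul_ne_zero (squarefree_part hPs D j).ne_zero (squarefree_part hPs E j).ne_zero
  rw [prod_subset_eq (Ps := Ps)]
  · refine prod_congr rfl fun p _ => ?_
    refine if_congr ?_ rfl rfl
    rw [Nat.mem_primeFactors_of_ne_zero h0, Nat.Prime.dvd_mul (hPs p p.2), coe_dvd_part hPs,
      coe_dvd_part hPs]
    exact and_iff_right (hPs p p.2)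
  · intro p hp
    have hpp := Nat.prime_of_mem_primeFactors hp
    rcases (Nat.Prime.dvd_mul hpp).mp (Nat.dvd_of_mem_primeFactors hp) with h | h <;>
      exact ((prime_dvd_part hPs _ j hpp).mp h).1

lemma coprime_parts_iff (hPs : ∀ p ∈ Ps, p.Prime) (D E : Ps → Fin 3) :
    Nat.Coprime (part D 1 * part E 1) (part D 2 * part E 2)
      ↔ ∀ p, ¬ ((D p = 1 ∨ E p = 1) ∧ (D p = 2 ∨ E p = 2)) := by
  constructor
  · intro h p hp
    have h1 : (p : ℕ) ∣ part D 1 * part E 1 := by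
      rw [Nat.Prime.dvd_mul (hPs p p.2), coe_dvd_part hPs, coe_dvd_part hPs]; exact hp.1
    have h2 : (p : ℕ) ∣ part D 2 * part E 2 := by
      rw [Nat.Prime.dvd_mul (hPs p p.2), coe_dvd_part hPs, coe_dvd_part hPs]; exact hp.2
    exact (hPs p p.2).ne_one (Nat.eq_one_of_dvd_coprimes h h1 h2)
  · intro h
    refine Nat.Coprime.symm (Nat.coprime_of_dvd fun p hp h2 h1 => ?_)
    rw [Nat.Prime.dvd_mul hp, prime_dvd_part hPs _ _ hp, prime_dvd_part hPs _ _ hp] at h1 h2
    have hm : p ∈ Ps := by rcases h1 with ⟨h, -⟩ | ⟨h, -⟩ <;> exact h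
    refine h ⟨p, hm⟩ ⟨?_, ?_⟩
    · rcases h1 with ⟨_, h⟩ | ⟨_, h⟩
      exacts [Or.inl h, Or.inr h]
    · rcases h2 with ⟨_, h⟩ | ⟨_, h⟩
      exacts [Or.inl h, Or.inr h]

/-- local coefficients -/
def cLoc (a b : ℝ) : Fin 3 → Fin 3 → ℝ :=
  ![![1, 0, 0], ![a, -(1 + a), 0], ![b, 0, -(1 + b)]]

/-- local densities -/
noncomputable def gLoc (a b : ℝ) : Fin 3 → Fin 3 → ℝ :=
  ![![1, a / (1 + a), b / (1 + b)], ![a / (1 + a), a / (1 + a), 0], ![b / (1 + b), 0, b / (1 + b)]]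

/-- local Gram matrix, in absolute value -/
def gramLoc (a b : ℝ) : Fin 3 → Fin 3 → ℝ := ![![1, 0, 0], ![0, a, a * b], ![0, a * b, b]]

/-- local transfer kernel -/
def kerLoc (a b : ℝ) : Fin 3 → Fin 3 → ℝ := ![![1, 0, 0], ![a * b, 1, 0], ![a * b, 0, 1]]

lemma gram_loc {a b : ℝ} (ha : 0 ≤ a) (hb : 0 ≤ b) (i j : Fin 3) :
    |∑ k, ∑ l, cLoc a b i k * cLoc a b j l * gLoc a b k l| = gramLoc a b i j := by
  have h1 : 1 + a ≠ 0 := by linarith
  have h2 : 1 + b ≠ 0 := by linarith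
  have hab : 0 ≤ a * b := mul_nonneg ha hb
  have e : ∀ x y : ℝ, 0 ≤ y → (x = y ∨ x = -y) → |x| = y := by
    rintro x y hy (rfl | rfl)
    · exact abs_of_nonneg hy
    · rw [abs_neg]; exact abs_of_nonneg hy
  fin_cases i <;> fin_cases j <;>
    simp only [Fin.sum_univ_three, cLoc, gLoc, gramLoc] <;> simp <;>
    first
    | (field_simp; ring1)
    | (refine e _ _ (by assumption) (Or.inl ?_); field_simp; ring1)
    | (refine e _ _ (by assumption) (Or.inr ?_); field_simp; ring1)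

/-- the density attached to two pairs of divisors -/
noncomputable def gg (h1 h2 : ℕ → ℝ) (d1 d2 e1 e2 : ℕ) : ℝ :=
  if Nat.Coprime (d1 * e1) (d2 * e2) then
    (∏ p ∈ (d1 * e1).primeFactors, h1 p / (1 + h1 p)) *
      ∏ p ∈ (d2 * e2).primeFactors, h2 p / (1 + h2 p) else 0

lemma gg_parts (hPs : ∀ p ∈ Ps, p.Prime) (h1 h2 : ℕ → ℝ) (D E : Ps → Fin 3) :
    gg h1 h2 (part D 1) (part D 2) (part E 1) (part E 2)
      = ∏ p : Ps, gLoc (h1 p) (h2 p) (D p) (E p) := by
  unfold gg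
  split_ifs with h
  · rw [coprime_parts_iff hPs] at h
    rw [prod_primeFactors_eq hPs, prod_primeFactors_eq hPs, ← prod_mul_distrib]
    refine prod_congr rfl fun p _ => ?_
    have := h p
    revert this
    generalize D p = x
    generalize E p = y
    fin_cases x <;> fin_cases y <;> simp [gLoc]
  · rw [coprime_parts_iff hPs] at h
    push Not at h
    obtain ⟨p, hp⟩ := h
    refine (prod_eq_zero (mem_univ p) ?_).symm
    revert hp
    generalize D p = x
    generalize E p = y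
    fin_cases x <;> fin_cases y <;> simp [gLoc]

lemma col_inj {a1 a2 a3 a4 : Prop} [Decidable a1] [Decidable a2] [Decidable a3] [Decidable a4]
    (b1 : (if a1 then (if a2 then 0 else 1) else (if a2 then 2 else 0) : Fin 3)
      = if a3 then (if a4 then 0 else 1) else (if a4 then 2 else 0))
    (b2 : a1 ∧ a2 ↔ a3 ∧ a4) : (a1 ↔ a3) ∧ (a2 ↔ a4) := by
  by_cases a1 <;> by_cases a2 <;> by_cases a3 <;> by_cases a4 <;> simp_all

end weights

theorem exists_weights (Ps : Finset ℕ) (hPs : ∀ p ∈ Ps, p.Prime) (h1 h2 : ℕ → ℝ)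
    (hh1 : ∀ p ∈ Ps, 0 ≤ h1 p) (hh2 : ∀ p ∈ Ps, 0 ≤ h2 p) (T : ℕ → ℕ → Prop)
    [∀ a b, Decidable (T a b)]
    (hT : ∀ a b a' b', T a b → 0 < a → 0 < b → a' ∣ a → b' ∣ b → T a' b') (hT1 : T 1 1) (X : ℕ)
    (hX : ∀ a b, T a b → 0 < a → 0 < b → a ≤ X ∧ b ≤ X) :
    ∃ lam : ℕ → ℕ → ℝ, (∀ a b, |lam a b| ≤ ∏ p ∈ Ps, (1 + h1 p + h2 p)) ∧
      (∀ a b, lam a b ≠ 0 → Squarefree a ∧ Squarefree b ∧ Nat.Coprime a b ∧
        (∀ p, p.Prime → p ∣ a * b → p ∈ Ps) ∧ T a b) ∧ 1 ≤ lam 1 1 ∧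
      (∑ S1 ∈ Ps.powerset, ∑ S2 ∈ Ps.powerset, if T (∏ p ∈ S1, p) (∏ p ∈ S2, p) then
          (∏ p ∈ S1, h1 p) * ∏ p ∈ S2, h2 p else 0)
        ≤ lam 1 1 * ∏ p ∈ Ps, (1 + h1 p * h2 p) ∧
      ∑ d1 ∈ Icc 1 X, ∑ d2 ∈ Icc 1 X, ∑ e1 ∈ Icc 1 X, ∑ e2 ∈ Icc 1 X,
          lam d1 d2 * lam e1 e2 * gg h1 h2 d1 d2 e1 e2
        ≤ lam 1 1 * ∏ p ∈ Ps, (1 + 2 * (h1 p * h2 p)) := by
  classical
  set TT : Finset (Ps → Fin 3) := univ.filter (fun R => T (part R 1) (part R 2)) with hTT
  set lD : (Ps → Fin 3) → ℝ := fun D => ∑ R ∈ TT, ∏ p : Ps, cLoc (h1 p) (h2 p) (R p) (D p)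
    with hlD
  set ht : (Ps → Fin 3) → ℝ := fun R => ∏ p : Ps, cLoc (h1 p) (h2 p) (R p) 0 with hht
  have pos : ∀ (D : Ps → Fin 3) j, 0 < part D j := fun D j =>
    Nat.pos_of_ne_zero (squarefree_part hPs D j).ne_zero
  have down : ∀ R ∈ TT, ∀ D : Ps → Fin 3, (∀ p, D p = 0 ∨ D p = R p) → D ∈ TT := by
    intro R hR D h
    refine mem_filter.mpr ⟨mem_univ _, hT _ _ _ _ (mem_filter.mp hR).2 (pos _ _) (pos _ _)
      (part_dvd 1 fun p hp => ?_) (part_dvd 2 fun p hp => ?_)⟩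
    · rcases h p with h | h
      · rw [h] at hp; exact absurd hp (by decide)
      · exact h ▸ hp
    · rcases h p with h | h
      · rw [h] at hp; exact absurd hp (by decide)
      · exact h ▸ hp
  have supp : ∀ D, lD D ≠ 0 → D ∈ TT := by
    intro D hD
    obtain ⟨R, hR, h⟩ := exists_ne_zero_of_sum_ne_zero hD
    refine down R hR D fun p => ?_
    have := prod_ne_zero_iff.mp h p (mem_univ p)
    revert this
    generalize D p = x
    generalize R p = y
    fin_cases x <;> fin_cases y <;> simp [cLoc]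
  have ht0 : ∀ R, 0 ≤ ht R := fun R => prod_nonneg fun p _ => by
    generalize R p = y
    fin_cases y <;> simp [cLoc, hh1 p p.2, hh2 p p.2]
  have bnd : ∀ D, |lD D| ≤ ∏ p ∈ Ps, (1 + h1 p + h2 p) := by
    intro D
    calc |lD D| ≤ ∑ R ∈ TT, ∏ p : Ps, |cLoc (h1 p) (h2 p) (R p) (D p)| := by
          refine (abs_sum_le_sum_abs _ _).trans (sum_le_sum fun R _ => ?_)
          rw [abs_prod]
      _ ≤ ∑ R : Ps → Fin 3, ∏ p : Ps, |cLoc (h1 p) (h2 p) (R p) (D p)| :=
          sum_le_sum_of_subset_of_nonneg (subset_univ _)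
            fun _ _ _ => prod_nonneg fun _ _ => abs_nonneg _
      _ = ∏ p : Ps, ∑ i, |cLoc (h1 p) (h2 p) i (D p)| :=
          (Fintype.prod_sum fun (p : Ps) i => |cLoc (h1 p) (h2 p) i (D p)|).symm
      _ ≤ ∏ p : Ps, (1 + h1 p + h2 p) := by
          refine prod_le_prod (fun _ _ => sum_nonneg fun _ _ => abs_nonneg _) fun p _ => ?_
          have a1 := hh1 p p.2
          have a2 := hh2 p p.2
          have a3 : |-h1 p + -1| = 1 + h1 p := by rw [abs_of_nonpos (by linarith)]; ring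
          have a4 : |-h2 p + -1| = 1 + h2 p := by rw [abs_of_nonpos (by linarith)]; ring
          generalize D p = x
          fin_cases x <;> simp [Fin.sum_univ_three, cLoc, abs_of_nonneg a1, abs_of_nonneg a2,
            a1, a2, a3, a4]
      _ = _ := prod_coe_sort Ps (fun p => 1 + h1 p + h2 p)
  let lam : ℕ → ℕ → ℝ := fun a b =>
    ∑ D : Ps → Fin 3, if part D 1 = a ∧ part D 2 = b then lD D else 0
  have lam_part : ∀ D, lam (part D 1) (part D 2) = lD D := by
    intro D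
    simp only [lam]
    rw [sum_eq_single D]
    · simp
    · intro E _ hE
      rw [if_neg]
      exact fun h => hE (part_inj hPs h.1 h.2)
    · simp
  have lam_ne : ∀ a b, lam a b ≠ 0 → ∃ D, part D 1 = a ∧ part D 2 = b ∧ lD D ≠ 0 := by
    intro a b h
    obtain ⟨D, -, hD⟩ := exists_ne_zero_of_sum_ne_zero h
    split_ifs at hD with h'
    · exact ⟨D, h'.1, h'.2, hD⟩
    · exact absurd rfl hD
  have lam11 : lam 1 1 = ∑ R ∈ TT, ht R := by
    have := lam_part (fun _ => 0)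
    rwa [part_zero 1 (by decide), part_zero 2 (by decide)] at this
  have conv : ∀ F : ℕ → ℕ → ℝ, ∑ a ∈ Icc 1 X, ∑ b ∈ Icc 1 X, lam a b * F a b
      = ∑ D : Ps → Fin 3, lD D * F (part D 1) (part D 2) := by
    intro F
    simp only [lam, sum_mul]
    simp_rw [sum_comm (s := Icc 1 X) (t := (univ : Finset (Ps → Fin 3)))]
    refine sum_congr rfl fun D _ => ?_
    by_cases hD : lD D = 0
    · simp [hD]
    have := hX _ _ (mem_filter.mp (supp D hD)).2 (pos _ _) (pos _ _)
    rw [sum_eq_single (part D 1), sum_eq_single (part D 2)]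
    · simp
    · intro b _ hb; simp [hb.symm]
    · intro h; exact absurd (mem_Icc.mpr ⟨pos _ _, this.2⟩) h
    · intro a _ ha; simp [ha.symm]
    · intro h; exact absurd (mem_Icc.mpr ⟨pos _ _, this.1⟩) h
  refine ⟨lam, ?_, ?_, ?_, ?_, ?_⟩
  · intro a b
    by_cases h : lam a b = 0
    · rw [h, abs_zero]
      exact prod_nonneg fun p hp => by linarith [hh1 p hp, hh2 p hp]
    · obtain ⟨D, rfl, rfl, -⟩ := lam_ne a b h
      rw [lam_part]; exact bnd D
  · intro a b h
    obtain ⟨D, rfl, rfl, hD⟩ := lam_ne a b h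
    refine ⟨squarefree_part hPs _ _, squarefree_part hPs _ _, ?_, ?_,
      (mem_filter.mp (supp D hD)).2⟩
    · refine Nat.coprime_of_dvd fun p hp a1 a2 => ?_
      obtain ⟨_, b1⟩ := (prime_dvd_part hPs _ _ hp).mp a1
      obtain ⟨_, b2⟩ := (prime_dvd_part hPs _ _ hp).mp a2
      rw [b1] at b2
      exact absurd b2 (by decide)
    · intro p hp hd
      rcases (Nat.Prime.dvd_mul hp).mp hd with h | h <;>
        exact ((prime_dvd_part hPs _ _ hp).mp h).1
  · rw [lam11]
    have h0 : (fun _ : Ps => (0 : Fin 3)) ∈ TT := by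
      refine mem_filter.mpr ⟨mem_univ _, ?_⟩
      rwa [part_zero 1 (by decide), part_zero 2 (by decide)]
    refine le_trans ?_ (single_le_sum (fun R _ => ht0 R) h0)
    simp [hht, cLoc]
  · rw [lam11, prod_one_add, sum_mul_sum, ← sum_product', ← sum_product', ← sum_filter]
    let col : Finset ℕ × Finset ℕ → Ps → Fin 3 := fun S p =>
      if (p : ℕ) ∈ S.1 then (if (p : ℕ) ∈ S.2 then 0 else 1) else (if (p : ℕ) ∈ S.2 then 2 else 0)
    refine le_trans (le_of_eq ?_) (sum_le_of_inj ((Ps.powerset ×ˢ Ps.powerset).filter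
      (fun S => T (∏ p ∈ S.1, p) (∏ p ∈ S.2, p))) (TT ×ˢ Ps.powerset)
      (fun x => ht x.1 * ∏ p ∈ x.2, h1 p * h2 p) (fun S => (col S, S.1 ∩ S.2)) ?_ ?_ ?_)
    · refine sum_congr rfl fun S hS => ?_
      rw [mem_filter, mem_product, mem_powerset, mem_powerset] at hS
      simp only [hht]
      rw [prod_subset_eq hS.1.1, prod_subset_eq hS.1.2,
        prod_subset_eq (inter_subset_left.trans hS.1.1), ← prod_mul_distrib, ← prod_mul_distrib]
      refine prod_congr rfl fun p _ => ?_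
      by_cases a1 : (p : ℕ) ∈ S.1 <;> by_cases a2 : (p : ℕ) ∈ S.2 <;> simp [col, cLoc, a1, a2]
    · intro S hS S' hS' h
      simp only [coe_filter, mem_product, mem_powerset, Set.mem_ofPred_eq] at hS hS'
      have e1 : col S = col S' := congrArg Prod.fst h
      have e2 : S.1 ∩ S.2 = S'.1 ∩ S'.2 := congrArg Prod.snd h
      have key : ∀ p ∈ Ps, (p ∈ S.1 ↔ p ∈ S'.1) ∧ (p ∈ S.2 ↔ p ∈ S'.2) := by
        intro p hp
        have b1 := congrFun e1 ⟨p, hp⟩
        have b2 : p ∈ S.1 ∩ S.2 ↔ p ∈ S'.1 ∩ S'.2 := by rw [e2]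
        simp only [col] at b1
        rw [mem_inter, mem_inter] at b2
        exact col_inj b1 b2
      refine Prod.ext ?_ ?_
      · ext p
        exact ⟨fun h => (key p (hS.1.1 h)).1.mp h, fun h => (key p (hS'.1.1 h)).1.mpr h⟩
      · ext p
        exact ⟨fun h => (key p (hS.1.2 h)).2.mp h, fun h => (key p (hS'.1.2 h)).2.mpr h⟩
    · intro S hS
      rw [mem_filter, mem_product, mem_powerset, mem_powerset] at hS
      refine mem_product.mpr ⟨mem_filter.mpr ⟨mem_univ _, hT _ _ _ _ hS.2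
        (prod_pos fun p hp => (hPs p (hS.1.1 hp)).pos)
        (prod_pos fun p hp => (hPs p (hS.1.2 hp)).pos) ?_ ?_⟩,
        mem_powerset.mpr (inter_subset_left.trans hS.1.1)⟩
      · rw [prod_subset_eq hS.1.1]
        refine prod_dvd_prod_of_dvd _ _ fun p _ => ?_
        by_cases a1 : (p : ℕ) ∈ S.1 <;> by_cases a2 : (p : ℕ) ∈ S.2 <;> simp [col, a1, a2]
      · rw [prod_subset_eq hS.1.2]
        refine prod_dvd_prod_of_dvd _ _ fun p _ => ?_
        by_cases a1 : (p : ℕ) ∈ S.1 <;> by_cases a2 : (p : ℕ) ∈ S.2 <;> simp [col, a1, a2]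
    · intro x hx
      have := mem_powerset.mp (mem_product.mp hx).2
      exact mul_nonneg (ht0 _) (prod_nonneg fun p hp => mul_nonneg (hh1 p (this hp))
        (hh2 p (this hp)))
  · have e1 : ∑ d1 ∈ Icc 1 X, ∑ d2 ∈ Icc 1 X, ∑ e1 ∈ Icc 1 X, ∑ e2 ∈ Icc 1 X,
          lam d1 d2 * lam e1 e2 * gg h1 h2 d1 d2 e1 e2
        = ∑ D : Ps → Fin 3, ∑ E : Ps → Fin 3,
          lD D * lD E * ∏ p : Ps, gLoc (h1 p) (h2 p) (D p) (E p) := by
      have := conv (fun d1 d2 => ∑ e1 ∈ Icc 1 X, ∑ e2 ∈ Icc 1 X,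
        lam e1 e2 * gg h1 h2 d1 d2 e1 e2)
      simp only [mul_sum, ← mul_assoc] at this
      rw [this]
      refine sum_congr rfl fun D _ => ?_
      have := conv (fun e1 e2 => lD D * gg h1 h2 (part D 1) (part D 2) e1 e2)
      simp only [gg_parts hPs] at this
      simp only [mul_comm (lD D), mul_assoc]
      simp only [mul_comm (lD D)] at this
      exact this
    have e2 : ∑ D : Ps → Fin 3, ∑ E : Ps → Fin 3,
          lD D * lD E * ∏ p : Ps, gLoc (h1 p) (h2 p) (D p) (E p)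
        = ∑ R ∈ TT, ∑ R' ∈ TT, ∏ p : Ps, ∑ k, ∑ l, cLoc (h1 p) (h2 p) (R p) k *
            cLoc (h1 p) (h2 p) (R' p) l * gLoc (h1 p) (h2 p) k l := by
      simp only [hlD]
      simp_rw [sum_mul_sum, sum_mul]
      simp_rw [sum_comm (s := (univ : Finset (Ps → Fin 3))) (t := TT)]
      refine sum_congr rfl fun R _ => sum_congr rfl fun R' _ => ?_
      rw [Fintype.prod_sum]
      refine sum_congr rfl fun D _ => ?_
      rw [Fintype.prod_sum]
      refine sum_congr rfl fun E _ => ?_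
      rw [prod_mul_distrib, prod_mul_distrib]
    have gram0 : ∀ (p : Ps) i j, 0 ≤ gramLoc (h1 p) (h2 p) i j := fun p i j => by
      rw [← gram_loc (hh1 p p.2) (hh2 p p.2)]; exact abs_nonneg _
    have ker0 : ∀ (p : Ps) i j, 0 ≤ kerLoc (h1 p) (h2 p) i j := fun p i j => by
      have := mul_nonneg (hh1 p p.2) (hh2 p p.2)
      fin_cases i <;> fin_cases j <;> simp [kerLoc, this]
    rw [e1, e2, lam11]
    calc _ ≤ ∑ R ∈ TT, ∑ R' : Ps → Fin 3, ∏ p : Ps, gramLoc (h1 p) (h2 p) (R p) (R' p) := by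
          refine sum_le_sum fun R _ => le_trans (sum_le_sum fun R' _ => ?_)
            (sum_le_sum_of_subset_of_nonneg (subset_univ _)
              fun _ _ _ => prod_nonneg fun p _ => gram0 p _ _)
          refine (le_abs_self _).trans (le_of_eq ?_)
          rw [abs_prod]
          exact prod_congr rfl fun p _ => gram_loc (hh1 p p.2) (hh2 p p.2) _ _
      _ = ∑ R ∈ TT, ∑ D : Ps → Fin 3, ht D * ∏ p : Ps, kerLoc (h1 p) (h2 p) (R p) (D p) := by
          refine sum_congr rfl fun R _ => ?_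
          simp only [hht, ← prod_mul_distrib]
          rw [← Fintype.prod_sum fun (p : Ps) j => gramLoc (h1 p) (h2 p) (R p) j,
            ← Fintype.prod_sum fun (p : Ps) j => cLoc (h1 p) (h2 p) j 0 *
              kerLoc (h1 p) (h2 p) (R p) j]
          refine prod_congr rfl fun p _ => ?_
          generalize R p = y
          fin_cases y <;> simp [Fin.sum_univ_three, gramLoc, cLoc, kerLoc]
          all_goals ring
      _ = ∑ D ∈ TT, ht D * ∑ R ∈ TT, ∏ p : Ps, kerLoc (h1 p) (h2 p) (R p) (D p) := by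
          rw [sum_comm]
          simp_rw [← mul_sum]
          refine (sum_subset (subset_univ _) fun D _ hD => ?_).symm
          rw [sum_eq_zero, mul_zero]
          intro R hR
          by_contra h
          refine hD (down R hR D fun p => ?_)
          have := prod_ne_zero_iff.mp h p (mem_univ p)
          revert this
          generalize D p = x
          generalize R p = y
          fin_cases x <;> fin_cases y <;> simp [kerLoc]
      _ ≤ _ := by
          rw [sum_mul]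
          refine sum_le_sum fun D _ => mul_le_mul_of_nonneg_left ?_ (ht0 D)
          refine (sum_le_sum_of_subset_of_nonneg (subset_univ _)
            fun _ _ _ => prod_nonneg fun p _ => ker0 p _ _).trans ?_
          rw [← Fintype.prod_sum fun (p : Ps) i => kerLoc (h1 p) (h2 p) i (D p),
            ← prod_coe_sort Ps (fun p => 1 + 2 * (h1 p * h2 p))]
          refine prod_le_prod (fun p _ => sum_nonneg fun _ _ => ker0 p _ _) fun p _ => ?_
          have := mul_nonneg (hh1 p p.2) (hh2 p p.2)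
          generalize D p = x
          fin_cases x <;> simp [Fin.sum_univ_three, kerLoc, this]
          all_goals linarith

end Pool.Agent.Work.MP_51e72e_nt
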