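import Mathlib.NumberTheory.Divisors
import Mathlib.Data.Int.GCD
import Mathlib.Data.Int.Interval
import Mathlib.Data.Int.ModEq
import Mathlib.Data.Real.Basic
import Mathlib.Algebra.GCDMonoid.Nat
import Mathlib.Combinatorics.Pigeonhole
import Mathlib.Tactic

/-!
Auxiliary lemmas for the additive energy of reciprocals modulo `q`.
-/

set_option autoImplicit false

namespace Pool.Agent.Work.MP_51e72e_nt.Cub.EnAux

open Finset

lemma gcd_mul_le (x y : ℤ) (q : ℕ) (hq : 0 < q) :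
    Int.gcd (x * y) q ≤ Int.gcd x q * Int.gcd y q := by
  have h1 : Int.gcd (x * y) q ∣ Int.gcd x q * Int.gcd y q := by
    simp only [Int.gcd, Int.natAbs_mul, Int.natAbs_natCast]
    rw [Nat.gcd_comm, Nat.gcd_comm x.natAbs, Nat.gcd_comm y.natAbs]
    exact gcd_mul_dvd_mul_gcd q x.natAbs y.natAbs
  refine Nat.le_of_dvd (Nat.mul_pos ?_ ?_) h1 <;>
    exact Int.gcd_pos_of_ne_zero_right _ (by exact_mod_cast hq.ne')

lemma le_gcd_of_dvd {x : ℤ} {d q : ℕ} (hq : 0 < q) (h1 : (d : ℤ) ∣ x) (h2 : d ∣ q) :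
    d ≤ Int.gcd x q := by
  refine Nat.le_of_dvd (Int.gcd_pos_of_ne_zero_right _ (by exact_mod_cast hq.ne')) ?_
  exact Int.dvd_gcd h1 (Int.natCast_dvd_natCast.2 h2)

lemma gcd_le_natAbs {x : ℤ} (q : ℕ) (hx : x ≠ 0) : Int.gcd x q ≤ x.natAbs :=
  Nat.le_of_dvd (Int.natAbs_pos.2 hx) (Nat.gcd_dvd_left _ _)

lemma card_S {S : Finset ℤ} {A : ℕ} (hA : 1 ≤ A) (hS : ∀ a ∈ S, |a| ≤ A) : S.card ≤ 3 * A := by
  have : S ⊆ Icc (-(A : ℤ)) A := fun a ha => mem_Icc.2 (abs_le.1 (hS a ha))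
  have h := card_le_card this
  rw [Int.card_Icc] at h
  omega

/-- well spaced sets are small -/
lemma card_spaced {X : Finset ℤ} {A W q : ℕ} (hq : 0 < q) (hX : ∀ a ∈ X, |a| ≤ A)
    (h : ∀ a ∈ X, ∀ b ∈ X, a ≠ b → q ≤ (a - b).natAbs * W) : X.card ≤ 2 * A * W / q + 1 := by
  rw [← card_range (2 * A * W / q + 1)]
  refine card_le_card_of_injOn (fun a => (a + A).toNat * W / q) (fun a ha => ?_) ?_
  · have := abs_le.1 (hX a ha)
    simp only [coe_range, Set.mem_Iio, Nat.lt_succ_iff]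
    exact Nat.div_le_div_right (Nat.mul_le_mul_right _ (by omega))
  · intro a ha b hb hab
    by_contra hne
    have h1 := h a ha b hb hne
    have h2 := abs_le.1 (hX a ha)
    have h3 := abs_le.1 (hX b hb)
    simp only at hab
    have e1 := Nat.div_add_mod ((a + A).toNat * W) q
    have e2 := Nat.div_add_mod ((b + A).toNat * W) q
    have e3 := Nat.mod_lt ((a + A).toNat * W) hq
    have e4 := Nat.mod_lt ((b + A).toNat * W) hq
    rw [hab] at e1
    rcases le_total a b with hle | hle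
    · have : (b + A).toNat = (a + A).toNat + (a - b).natAbs := by omega
      rw [this, add_mul] at e2 e4
      rw [this, add_mul] at e1
      omega
    · have : (a + A).toNat = (b + A).toNat + (a - b).natAbs := by omega
      rw [this, add_mul] at e1 e3
      omega

/-- two dimensional pigeonhole -/
lemma pigeon (q T1 T2 : ℕ) (hq : 0 < q) (h1 : 0 < T1) (h2 : 0 < T2) (l m : ℤ) :
    ∃ k : ℕ, 1 ≤ k ∧ k ≤ (q / T1 + 1) * (q / T2 + 1) ∧ ∃ l' m' : ℤ, |l'| < T1 ∧ |m'| < T2 ∧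
      (q : ℤ) ∣ l' - k * l ∧ (q : ℤ) ∣ m' - k * m := by
  have hq' : (0 : ℤ) < q := by exact_mod_cast hq
  let f : ℕ → ℕ × ℕ := fun k => ((k * l % q).toNat / T1, (k * m % q).toNat / T2)
  have hb : ∀ x : ℤ, (x % q).toNat ≤ q := fun x => by
    have := Int.emod_lt_of_pos x hq'
    omega
  obtain ⟨x, hx, y, hy, hne, hf⟩ := exists_ne_map_eq_of_card_lt_of_maps_to
    (s := range ((q / T1 + 1) * (q / T2 + 1) + 1))
    (t := range (q / T1 + 1) ×ˢ range (q / T2 + 1)) (by simp) (f := f) (by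
      intro k _
      simp only [coe_product, coe_range, Set.mem_prod, Set.mem_Iio, Nat.lt_succ_iff, f]
      exact ⟨Nat.div_le_div_right (hb _), Nat.div_le_div_right (hb _)⟩)
  have close : ∀ (u v : ℤ) (T : ℕ), 0 < T → (u % q).toNat / T = (v % q).toNat / T →
      |u % q - v % q| < T := by
    intro u v T hT h
    have e1 := Nat.div_add_mod (u % q).toNat T
    have e2 := Nat.div_add_mod (v % q).toNat T
    have e3 := Nat.mod_lt (u % q).toNat hT
    have e4 := Nat.mod_lt (v % q).toNat hT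
    have e5 := Int.emod_nonneg u hq'.ne'
    have e6 := Int.emod_nonneg v hq'.ne'
    rw [h] at e1
    rw [abs_lt]
    omega
  have dv : ∀ u v : ℤ, (q : ℤ) ∣ (u % q - v % q) - (u - v) := by
    intro u v
    have e1 := Int.emod_add_mul_ediv u q
    have e2 := Int.emod_add_mul_ediv v q
    exact ⟨v / q - u / q, by linear_combination e1 - e2⟩
  simp only [f, Prod.mk.injEq] at hf
  have key : ∀ x y : ℕ, x < y → y < (q / T1 + 1) * (q / T2 + 1) + 1 →
      (y * l % q).toNat / T1 = (x * l % q).toNat / T1 →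
      (y * m % q).toNat / T2 = (x * m % q).toNat / T2 →
      ∃ k : ℕ, 1 ≤ k ∧ k ≤ (q / T1 + 1) * (q / T2 + 1) ∧ ∃ l' m' : ℤ, |l'| < T1 ∧ |m'| < T2 ∧
        (q : ℤ) ∣ l' - k * l ∧ (q : ℤ) ∣ m' - k * m := by
    intro x y hxy hy e1 e2
    refine ⟨y - x, by omega, by omega, _, _, close _ _ _ h1 e1, close _ _ _ h2 e2, ?_, ?_⟩
    · rw [Nat.cast_sub hxy.le, sub_mul]; exact dv _ _
    · rw [Nat.cast_sub hxy.le, sub_mul]; exact dv _ _
  rcases lt_or_gt_of_ne hne with h | h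
  · exact key x y h (mem_range.1 hy) hf.1.symm hf.2.symm
  · exact key y x h (mem_range.1 hx) hf.1 hf.2

/-- pairs on a hyperbola -/
lemma card_hyp (X : Finset (ℤ × ℤ)) (l m N : ℤ) (hl : l ≠ 0) (hN : N ≠ 0)
    (h : ∀ x ∈ X, (l * x.1 + m) * (l * x.2 + m) = N) :
    X.card ≤ 2 * N.natAbs.divisors.card := by
  have : (N.natAbs.divisors ×ˢ (univ : Finset Bool)).card = 2 * N.natAbs.divisors.card := by
    simp [mul_comm]
  rw [← this]
  refine card_le_card_of_injOn (fun x => ((l * x.1 + m).natAbs, decide (0 < l * x.1 + m)))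
    (fun x hx => ?_) ?_
  · simp only [coe_product, coe_univ, Set.mem_prod, mem_coe, Nat.mem_divisors, Set.mem_univ,
      and_true]
    exact ⟨Int.natAbs_dvd_natAbs.2 ⟨_, (h x hx).symm⟩, Int.natAbs_ne_zero.2 hN⟩
  · intro x hx y hy hxy
    simp only [Prod.mk.injEq, decide_eq_decide] at hxy
    have e1 : l * x.1 + m = l * y.1 + m := by omega
    have hx' := h x hx
    have hy' := h y hy
    have e0 : l * x.1 + m ≠ 0 := fun h0 => hN (by rw [← hx', h0, zero_mul])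
    have e2 : l * x.2 + m = l * y.2 + m := by
      apply mul_left_cancel₀ e0
      rw [hx', e1, hy']
    exact Prod.ext (mul_left_cancel₀ hl (by linarith only [e1])) (mul_left_cancel₀ hl (by linarith only [e2]))

/-- uniqueness of the second variable -/
lemma uniq {q A Γ : ℕ} {β c a1 a2 a2' Sg C3 C4 : ℤ} (hq : 0 < q) (h4 : 2 * A * Γ ^ 4 < q)
    (g1 : Int.gcd (β - a1 * c) q ≤ Γ) (g3 : Int.gcd C3 q ≤ Γ) (g4 : Int.gcd C4 q ≤ Γ)
    (hc : Int.gcd c q ≤ Γ) (b2 : |a2| ≤ A) (b2' : |a2'| ≤ A)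
    (d1 : (q : ℤ) ∣ ((β - a1 * c) + (β - a2 * c)) * (C3 * C4) - Sg * ((β - a1 * c) * (β - a2 * c)))
    (d2 : (q : ℤ) ∣ ((β - a1 * c) + (β - a2' * c)) * (C3 * C4) -
      Sg * ((β - a1 * c) * (β - a2' * c))) : a2 = a2' := by
  by_contra hne
  set C1 := β - a1 * c
  set U := Sg * C1 - C3 * C4 with hU
  have e1 : Int.gcd U q ≤ Γ ^ 3 := by
    have f1 : ((Int.gcd U q : ℕ) : ℤ) ∣ C1 * (C3 * C4) := by
      have f2 := (Int.gcd_dvd_right U q).trans d1
      have f3 := (Int.gcd_dvd_left U q).mul_right (β - a2 * c)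
      exact (dvd_add f2 f3).trans (dvd_of_eq (by rw [hU]; ring))
    have f4 := le_gcd_of_dvd hq f1 (Int.natCast_dvd_natCast.1 (Int.gcd_dvd_right U q))
    have f5 := gcd_mul_le C1 (C3 * C4) q hq
    have f6 := gcd_mul_le C3 C4 q hq
    calc Int.gcd U q ≤ Γ * (Γ * Γ) :=
          f4.trans (f5.trans (Nat.mul_le_mul g1 (f6.trans (Nat.mul_le_mul g3 g4))))
      _ = Γ ^ 3 := by ring
  have e2 : (q : ℤ) ∣ (U * c) * (a2 - a2') := by
    exact (dvd_sub d1 d2).trans (dvd_of_eq (by rw [hU]; ring))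
  have e3 := le_gcd_of_dvd hq e2 dvd_rfl
  have e4 := gcd_mul_le (U * c) (a2 - a2') q hq
  have e5 := gcd_mul_le U c q hq
  have e6 := gcd_le_natAbs q (sub_ne_zero.2 hne)
  have e7 : (a2 - a2').natAbs ≤ 2 * A := by
    have := abs_le.1 b2
    have := abs_le.1 b2'
    omega
  have : q ≤ Γ ^ 3 * Γ * (2 * A) :=
    e3.trans (e4.trans (Nat.mul_le_mul (e5.trans (Nat.mul_le_mul e1 hc)) (e6.trans e7)))
  have e8 : Γ ^ 3 * Γ * (2 * A) = 2 * A * Γ ^ 4 := by ring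
  omega

/-- the fibre over `(a3, a4)` -/
def fib (q β c : ℤ) (S : Finset ℤ) (y : ℤ × ℤ) : Finset (ℤ × ℤ) :=
  (S ×ˢ S).filter fun x =>
    q ∣ ((β - x.1 * c) + (β - x.2 * c)) * ((β - y.1 * c) * (β - y.2 * c))
      - ((β - y.1 * c) + (β - y.2 * c)) * ((β - x.1 * c) * (β - x.2 * c))

section
variable {q A Γ τ Ξ : ℕ} {β c : ℤ} {S : Finset ℤ}

lemma small (hq : 0 < q) (h1 : A ^ 2 * τ ≤ q) (h2 : 4 * q * Γ ^ 4 < τ ^ 2 * A ^ 3) :
    2 * A * Γ ^ 4 < q := by
  have e1 : (A ^ 2 * τ) * (A ^ 2 * τ) ≤ q * q := Nat.mul_le_mul h1 h1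
  have e2 : 4 * q * Γ ^ 4 * A ≤ τ ^ 2 * A ^ 3 * A := Nat.mul_le_mul_right _ h2.le
  have e3 : τ ^ 2 * A ^ 3 * A = (A ^ 2 * τ) * (A ^ 2 * τ) := by ring
  have e4 : q * (4 * A * Γ ^ 4) ≤ q * q := by linarith only [e1, e2]
  have e5 := Nat.le_of_mul_le_mul_left e4 hq
  have e6 : 4 * A * Γ ^ 4 = 2 * (2 * A * Γ ^ 4) := by ring
  omega

lemma fib_inj1 (hq : 0 < q) (hS : ∀ a ∈ S, |a| ≤ A) (hC : ∀ a ∈ S, Int.gcd (β - a * c) q ≤ Γ)
    (hc : Int.gcd c q ≤ Γ) (h4 : 2 * A * Γ ^ 4 < q) {y : ℤ × ℤ} (hy : y ∈ S ×ˢ S)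
    {x x' : ℤ × ℤ} (hx : x ∈ fib q β c S y) (hx' : x' ∈ fib q β c S y) (h : x.1 = x'.1) :
    x = x' := by
  obtain ⟨m1, d1⟩ := mem_filter.1 hx
  obtain ⟨m2, d2⟩ := mem_filter.1 hx'
  obtain ⟨y1, y2⟩ := mem_product.1 hy
  rw [← h] at d2
  exact Prod.ext h (uniq hq h4 (hC _ (mem_product.1 m1).1) (hC _ y1) (hC _ y2) hc
    (hS _ (mem_product.1 m1).2) (hS _ (mem_product.1 m2).2) d1 d2)

lemma fib_inj2 (hq : 0 < q) (hS : ∀ a ∈ S, |a| ≤ A) (hC : ∀ a ∈ S, Int.gcd (β - a * c) q ≤ Γ)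
    (hc : Int.gcd c q ≤ Γ) (h4 : 2 * A * Γ ^ 4 < q) {y : ℤ × ℤ} (hy : y ∈ S ×ˢ S)
    {x x' : ℤ × ℤ} (hx : x ∈ fib q β c S y) (hx' : x' ∈ fib q β c S y) (h : x.2 = x'.2) :
    x = x' := by
  obtain ⟨m1, d1⟩ := mem_filter.1 hx
  obtain ⟨m2, d2⟩ := mem_filter.1 hx'
  obtain ⟨y1, y2⟩ := mem_product.1 hy
  rw [← h] at d2
  refine Prod.ext (uniq (a1 := x.2) (Sg := (β - y.1 * c) + (β - y.2 * c)) hq h4
    (hC _ (mem_product.1 m1).2) (hC _ y1) (hC _ y2) hc
    (hS _ (mem_product.1 m1).1) (hS _ (mem_product.1 m2).1) ?_ ?_) h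
  · exact d1.trans (dvd_of_eq (by ring))
  · exact d2.trans (dvd_of_eq (by ring))

lemma fib_triv (hq : 0 < q) (hA : 1 ≤ A) (hS : ∀ a ∈ S, |a| ≤ A)
    (hC : ∀ a ∈ S, Int.gcd (β - a * c) q ≤ Γ) (hc : Int.gcd c q ≤ Γ) (h4 : 2 * A * Γ ^ 4 < q)
    {y : ℤ × ℤ} (hy : y ∈ S ×ˢ S) : (fib q β c S y).card ≤ 3 * A := by
  refine le_trans (card_le_card_of_injOn (t := S) Prod.fst (fun x hx => ?_) ?_) (card_S hA hS)
  · exact (mem_product.1 (mem_filter.1 hx).1).1
  · intro x hx x' hx' h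
    exact fib_inj1 hq hS hC hc h4 hy hx hx' h

lemma fib_good {D : ℝ} (hq : 0 < q) (hA : 1 ≤ A) (hτ : 1 ≤ τ) (hΞ : 1 ≤ Ξ)
    (hS : ∀ a ∈ S, |a| ≤ A)
    (hC : ∀ a ∈ S, Int.gcd (β - a * c) q ≤ Γ) (hc : Int.gcd c q ≤ Γ)
    (h1 : A ^ 2 * τ ≤ q) (h2 : 4 * q * Γ ^ 4 < τ ^ 2 * A ^ 3) (h3 : A ^ 3 ≤ q * Ξ)
    (hD : ∀ n : ℕ, 1 ≤ n → n ≤ q + 4 * (A ^ 2 * τ) ^ 2 → (n.divisors.card : ℝ) ≤ D)
    {y : ℤ × ℤ} (hy : y ∈ S ×ˢ S)
    (hnd : A ^ 2 * τ * Γ * Int.gcd ((β - y.1 * c) + (β - y.2 * c)) q < q) :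
    ((fib q β c S y).card : ℝ) ≤ 20 * D * (Ξ * τ) := by
  have h4 := small hq h1 h2
  obtain ⟨y1, y2⟩ := mem_product.1 hy
  have g3 := hC _ y1
  have g4 := hC _ y2
  set C3 := β - y.1 * c with hC3
  set C4 := β - y.2 * c with hC4
  have hT1 : 0 < A * τ := Nat.mul_pos hA hτ
  have hT2 : 0 < A ^ 2 * τ := Nat.mul_pos (pow_pos hA 2) hτ
  obtain ⟨k, k1, k2, l, m, bl, bm, dl, dm⟩ := pigeon q (A * τ) (A ^ 2 * τ) hq hT1 hT2
    ((C3 + C4) * c ^ 2) (c * (C3 * C4 - (C3 + C4) * β))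
  have hk : k * Γ ^ 4 < q := by
    have t12 : A * τ ≤ A ^ 2 * τ := Nat.mul_le_mul_right _ (by nlinarith only [hA])
    have e1 : (q / (A * τ) + 1) * (A * τ) ≤ 2 * q := by
      have := Nat.div_mul_le_self q (A * τ)
      rw [add_mul]; omega
    have e2 : (q / (A ^ 2 * τ) + 1) * (A ^ 2 * τ) ≤ 2 * q := by
      have := Nat.div_mul_le_self q (A ^ 2 * τ)
      rw [add_mul]; omega
    have e3 := Nat.mul_le_mul e1 e2
    have e4 : k * (τ ^ 2 * A ^ 3) ≤ 2 * q * (2 * q) := by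
      refine le_trans (Nat.mul_le_mul_right _ k2) (le_trans (le_of_eq ?_) e3)
      ring
    have e5 : k * (4 * q * Γ ^ 4) < k * (τ ^ 2 * A ^ 3) := Nat.mul_lt_mul_of_pos_left h2 k1
    have e6 : (4 * q) * (k * Γ ^ 4) < (4 * q) * q := by linarith only [e4, e5]
    exact Nat.lt_of_mul_lt_mul_left e6
  have hl : l ≠ 0 := by
    rintro rfl
    have d1 : (q : ℤ) ∣ k * ((C3 + C4) * c ^ 2) := by
      rw [zero_sub, dvd_neg] at dl; exact dl
    have d2 : (q : ℤ) ∣ m * c - k * (c * (c * (C3 * C4))) :=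
      (dvd_sub (dm.mul_right c) (d1.mul_right β)).trans (dvd_of_eq (by ring))
    have hm : m ≠ 0 := by
      rintro rfl
      rw [zero_mul, zero_sub, dvd_neg] at d2
      have f1 := le_gcd_of_dvd hq d2 dvd_rfl
      have f2 := gcd_mul_le k (c * (c * (C3 * C4))) q hq
      have f3 := gcd_mul_le c (c * (C3 * C4)) q hq
      have f4 := gcd_mul_le c (C3 * C4) q hq
      have f5 := gcd_mul_le C3 C4 q hq
      have f6 := gcd_le_natAbs (x := (k : ℤ)) q (by omega)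
      rw [Int.natAbs_natCast] at f6
      have : q ≤ k * (Γ * (Γ * (Γ * Γ))) :=
        f1.trans (f2.trans (Nat.mul_le_mul f6 (f3.trans (Nat.mul_le_mul hc (f4.trans
          (Nat.mul_le_mul hc (f5.trans (Nat.mul_le_mul g3 g4))))))))
      have e : k * (Γ * (Γ * (Γ * Γ))) = k * Γ ^ 4 := by ring
      omega
    have d3 : (q : ℤ) ∣ (m * c) * (C3 + C4) :=
      (dvd_add (d2.mul_right (C3 + C4)) (d1.mul_right (C3 * C4))).trans (dvd_of_eq (by ring))
    have f1 := le_gcd_of_dvd hq d3 dvd_rfl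
    have f2 := gcd_mul_le (m * c) (C3 + C4) q hq
    have f3 := gcd_mul_le m c q hq
    have f4 := gcd_le_natAbs q hm
    have f5 : m.natAbs ≤ A ^ 2 * τ := by
      rw [← Int.natCast_natAbs] at bm
      exact_mod_cast bm.le
    have := f1.trans (f2.trans (Nat.mul_le_mul_right _
      (f3.trans (Nat.mul_le_mul (f4.trans f5) hc))))
    omega
  have hq' : (0 : ℤ) < q := by exact_mod_cast hq
  set n : ℤ := (k * ((C3 + C4) * β ^ 2 - 2 * (C3 * C4) * β)) % q with hn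
  have n0 : 0 ≤ n := Int.emod_nonneg _ hq'.ne'
  have n1 : n < q := Int.emod_lt_of_pos _ hq'
  have dn : (q : ℤ) ∣ n - k * ((C3 + C4) * β ^ 2 - 2 * (C3 * C4) * β) := by
    have := Int.emod_add_mul_ediv (k * ((C3 + C4) * β ^ 2 - 2 * (C3 * C4) * β)) q
    exact ⟨-((k * ((C3 + C4) * β ^ 2 - 2 * (C3 * C4) * β)) / q), by linear_combination this⟩
  have hdiv : ∀ x ∈ fib q β c S y, (q : ℤ) ∣ l * (x.1 * x.2) + m * (x.1 + x.2) + n := by
    intro x hx
    have d := (mem_filter.1 hx).2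
    rw [← hC3, ← hC4] at d
    exact (dvd_sub (dvd_add (dvd_add (dl.mul_right (x.1 * x.2)) (dm.mul_right (x.1 + x.2))) dn)
      (d.mul_left k)).trans (dvd_of_eq (by ring))
  have hlin : ∀ a ∈ S, |l * a + m| ≤ 2 * ((A : ℤ) ^ 2 * τ) := by
    intro a ha
    have e1 := abs_add_le (l * a) m
    rw [abs_mul] at e1
    have e2 : |l| * |a| ≤ ((A * τ : ℕ) : ℤ) * A :=
      mul_le_mul bl.le (hS a ha) (abs_nonneg _) (Int.natCast_nonneg _)
    push_cast at e2 bm
    linarith only [e1, e2, bm]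
  let zf : ℤ × ℤ → ℤ := fun x => (l * (x.1 * x.2) + m * (x.1 + x.2) + n) / q
  have hz : ∀ x ∈ fib q β c S y, l * (x.1 * x.2) + m * (x.1 + x.2) + n = q * zf x :=
    fun x hx => (Int.mul_ediv_cancel' (hdiv x hx)).symm
  set Z : ℕ := 3 * (Ξ * τ) + 1 with hZ
  have hzb : ∀ x ∈ fib q β c S y, zf x ∈ Icc (-(Z : ℤ)) Z := by
    intro x hx
    obtain ⟨x1, x2⟩ := mem_product.1 (mem_filter.1 hx).1
    have b1 := hS _ x1
    have b2 := hS _ x2
    have e1 : |l * (x.1 * x.2)| ≤ ((A * τ : ℕ) : ℤ) * (A * A) := by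
      rw [abs_mul, abs_mul]
      exact mul_le_mul bl.le (mul_le_mul b1 b2 (abs_nonneg _) (Int.natCast_nonneg _))
        (by positivity) (Int.natCast_nonneg _)
    have e2 : |m * (x.1 + x.2)| ≤ ((A ^ 2 * τ : ℕ) : ℤ) * (A + A) := by
      rw [abs_mul]
      exact mul_le_mul bm.le ((abs_add_le _ _).trans (add_le_add b1 b2)) (abs_nonneg _)
        (Int.natCast_nonneg _)
    have e3 : (A : ℤ) ^ 3 * τ ≤ q * Ξ * τ := by exact_mod_cast Nat.mul_le_mul_right τ h3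
    have e4 : |(q : ℤ) * zf x| ≤ q * Z := by
      rw [← hz x hx, hZ]
      have e5 := abs_le.1 e1
      have e6 := abs_le.1 e2
      push_cast at e5 e6 ⊢
      rw [abs_le]
      constructor <;> linarith only [hq, n0, e3, e5, e6, n1]
    rw [abs_mul, abs_of_pos hq'] at e4
    exact mem_Icc.2 (abs_le.1 (le_of_mul_le_mul_left e4 hq'))
  have hD1 : 1 ≤ D := by simpa using hD 1 le_rfl (by omega)
  let X0 := (fib q β c S y).filter fun x => (l * x.1 + m) * (l * x.2 + m) = 0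
  let X1 := (fib q β c S y).filter fun x => ¬ (l * x.1 + m) * (l * x.2 + m) = 0
  have c0 : X0.card ≤ 2 := by
    have : X0 ⊆ (X0.filter fun x => l * x.1 + m = 0) ∪ (X0.filter fun x => l * x.2 + m = 0) := by
      intro x hx
      rcases mul_eq_zero.1 (mem_filter.1 hx).2 with h | h
      · exact mem_union_left _ (mem_filter.2 ⟨hx, h⟩)
      · exact mem_union_right _ (mem_filter.2 ⟨hx, h⟩)
    have e1 : (X0.filter fun x => l * x.1 + m = 0).card ≤ 1 := card_le_one.2 fun x hx x' hx' => by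
      obtain ⟨a1, a2⟩ := mem_filter.1 hx
      obtain ⟨a3, a4⟩ := mem_filter.1 hx'
      exact fib_inj1 hq hS hC hc h4 hy (mem_filter.1 a1).1 (mem_filter.1 a3).1
        (mul_left_cancel₀ hl (by linarith only [a2, a4]))
    have e2 : (X0.filter fun x => l * x.2 + m = 0).card ≤ 1 := card_le_one.2 fun x hx x' hx' => by
      obtain ⟨a1, a2⟩ := mem_filter.1 hx
      obtain ⟨a3, a4⟩ := mem_filter.1 hx'
      exact fib_inj2 hq hS hC hc h4 hy (mem_filter.1 a1).1 (mem_filter.1 a3).1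
        (mul_left_cancel₀ hl (by linarith only [a2, a4]))
    have := (card_le_card this).trans (card_union_le _ _)
    omega
  have c1 : (X1.card : ℝ) ≤ (2 * Z + 1) * (2 * D) := by
    rw [card_eq_sum_card_fiberwise (f := zf) (t := Icc (-(Z : ℤ)) Z)
      (fun x hx => hzb x (mem_filter.1 hx).1)]
    push_cast
    have : ∀ z ∈ Icc (-(Z : ℤ)) Z, (((X1.filter fun x => zf x = z).card : ℕ) : ℝ) ≤ 2 * D := by
      intro z _
      rcases (X1.filter fun x => zf x = z).eq_empty_or_nonempty with h | ⟨x0, hx0⟩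
      · rw [h]; simp; linarith only [hD1]
      · have hN : ∀ x ∈ X1.filter fun x => zf x = z,
            (l * x.1 + m) * (l * x.2 + m) = m ^ 2 + l * (q * z - n) := by
          intro x hx
          obtain ⟨a1, a2⟩ := mem_filter.1 hx
          have := hz x (mem_filter.1 a1).1
          rw [a2] at this
          linear_combination l * this
        have hN0 : m ^ 2 + l * (q * z - n) ≠ 0 := by
          rw [← hN x0 hx0]; exact (mem_filter.1 (mem_filter.1 hx0).1).2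
        have e1 := card_hyp _ l m _ hl hN0 hN
        have e2 : (m ^ 2 + l * (q * z - n)).natAbs ≤ q + 4 * (A ^ 2 * τ) ^ 2 := by
          rw [← hN x0 hx0]
          obtain ⟨x1, x2⟩ := mem_product.1 (mem_filter.1 (mem_filter.1 (mem_filter.1 hx0).1).1).1
          have e3 : |(l * x0.1 + m) * (l * x0.2 + m)| ≤
              (2 * ((A : ℤ) ^ 2 * τ)) * (2 * ((A : ℤ) ^ 2 * τ)) := by
            rw [abs_mul]
            exact mul_le_mul (hlin _ x1) (hlin _ x2) (abs_nonneg _) (by positivity)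
          rw [← Int.natCast_natAbs] at e3
          have e4 : ((l * x0.1 + m) * (l * x0.2 + m)).natAbs ≤
              (2 * (A ^ 2 * τ)) * (2 * (A ^ 2 * τ)) := by exact_mod_cast e3
          have e5 : (2 * (A ^ 2 * τ)) * (2 * (A ^ 2 * τ)) = 4 * (A ^ 2 * τ) ^ 2 := by ring
          omega
        have e3 := hD _ (Int.natAbs_pos.2 hN0) e2
        have e4 : (((X1.filter fun x => zf x = z).card : ℕ) : ℝ) ≤
            2 * ((m ^ 2 + l * (q * z - n)).natAbs.divisors.card : ℝ) := by exact_mod_cast e1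
        linarith only [e3, e4]
    refine (sum_le_card_nsmul _ _ _ this).trans (le_of_eq ?_)
    rw [Int.card_Icc, nsmul_eq_mul]
    have : ((Z : ℤ) + 1 - -(Z : ℤ)).toNat = 2 * Z + 1 := by omega
    rw [this]
    push_cast
    ring
  have c2 : X0.card + X1.card = (fib q β c S y).card := card_filter_add_card_filter_not _
  have c3 : ((fib q β c S y).card : ℝ) ≤ 2 + X1.card := by
    rw [← c2]; push_cast
    have : (X0.card : ℝ) ≤ 2 := by exact_mod_cast c0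
    linarith only [this]
  have c4 : (1 : ℝ) ≤ Ξ * τ := by exact_mod_cast Nat.mul_pos hΞ hτ
  have c5 : (Z : ℝ) = 3 * (Ξ * τ) + 1 := by rw [hZ]; push_cast; ring
  rw [c5] at c1
  linarith only [hD1, c1, c3, c4, mul_nonneg_of_nonpos_of_nonpos (Mathlib.Tactic.Linarith.sub_nonpos_of_le hD1) (Mathlib.Tactic.Linarith.sub_nonpos_of_le c4)]

lemma card_deg {D : ℝ} (hq : 0 < q) (hA : 1 ≤ A) (hΓ : 1 ≤ Γ) (hτ : 1 ≤ τ) (hΞ : 1 ≤ Ξ)
    (hS : ∀ a ∈ S, |a| ≤ A) (hc : Int.gcd c q ≤ Γ) (h3 : A ^ 3 ≤ q * Ξ)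
    (hD : (q.divisors.card : ℝ) ≤ D) :
    (((S ×ˢ S).filter fun y : ℤ × ℤ =>
      ¬ A ^ 2 * τ * Γ * Int.gcd ((β - y.1 * c) + (β - y.2 * c)) q < q).card : ℝ) ≤
      9 * A * D * (Ξ * τ * Γ ^ 2) := by
  set Y := (S ×ˢ S).filter fun y : ℤ × ℤ =>
      ¬ A ^ 2 * τ * Γ * Int.gcd ((β - y.1 * c) + (β - y.2 * c)) q < q with hY
  let f : ℤ × ℤ → ℤ × ℕ := fun y => (y.1, Int.gcd ((β - y.1 * c) + (β - y.2 * c)) q)
  have e1 : Y.card ≤ (3 * (Ξ * τ * Γ ^ 2)) * (S ×ˢ q.divisors).card := by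
    refine card_le_mul_card_image_of_maps_to (f := f) (fun y hy => ?_) _ (fun b _ => ?_)
    · refine mem_product.2 ⟨(mem_product.1 (mem_filter.1 hy).1).1, ?_⟩
      exact Nat.mem_divisors.2 ⟨Int.natCast_dvd_natCast.1 (Int.gcd_dvd_right _ _), hq.ne'⟩
    · have i1 : (Y.filter fun y => f y = b).card =
          ((Y.filter fun y => f y = b).image Prod.snd).card := by
        refine (card_image_of_injOn fun y hy y' hy' h => Prod.ext ?_ h).symm
        have a1 := congrArg Prod.fst (mem_filter.1 hy).2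
        have a2 := congrArg Prod.fst (mem_filter.1 hy').2
        exact a1.trans a2.symm
      rw [i1]
      have i2 := card_spaced (X := (Y.filter fun y => f y = b).image Prod.snd) (A := A)
        (W := A ^ 2 * τ * Γ * Γ) hq (fun a ha => by
          obtain ⟨y, hy, rfl⟩ := mem_image.1 ha
          exact hS _ (mem_product.1 (mem_filter.1 (mem_filter.1 hy).1).1).2) (by
          intro a ha a' ha' hne
          obtain ⟨y, hy, rfl⟩ := mem_image.1 ha
          obtain ⟨y', hy', rfl⟩ := mem_image.1 ha'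
          obtain ⟨a1, a2⟩ := mem_filter.1 hy
          obtain ⟨a3, a4⟩ := mem_filter.1 hy'
          have b1 : y.1 = y'.1 := (congrArg Prod.fst a2).trans (congrArg Prod.fst a4).symm
          have b2 : Int.gcd ((β - y.1 * c) + (β - y.2 * c)) q =
              Int.gcd ((β - y'.1 * c) + (β - y'.2 * c)) q :=
            (congrArg Prod.snd a2).trans (congrArg Prod.snd a4).symm
          have b3 := not_lt.1 (mem_filter.1 a1).2
          have b4 := Int.gcd_dvd_left ((β - y.1 * c) + (β - y.2 * c)) q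
          have b5 := Int.gcd_dvd_left ((β - y'.1 * c) + (β - y'.2 * c)) q
          rw [← b2, ← b1] at b5
          have b6 := le_gcd_of_dvd (x := c * (y.2 - y'.2)) hq
            ((dvd_sub b5 b4).trans (dvd_of_eq (by ring)))
            (Int.natCast_dvd_natCast.1 (Int.gcd_dvd_right ((β - y.1 * c) + (β - y.2 * c)) q))
          have b7 := b6.trans ((gcd_mul_le _ _ q hq).trans
            (Nat.mul_le_mul hc (gcd_le_natAbs q (sub_ne_zero.2 hne))))
          refine b3.trans ((Nat.mul_le_mul_left _ b7).trans (le_of_eq (by ring))))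
      have i3 : 2 * A * (A ^ 2 * τ * Γ * Γ) / q ≤ 2 * (Ξ * τ * Γ ^ 2) := by
        apply Nat.div_le_of_le_mul
        have := Nat.mul_le_mul_right (2 * τ * Γ ^ 2) h3
        refine le_trans (le_of_eq (by ring)) (this.trans (le_of_eq (by ring)))
      have i4 : 1 ≤ Ξ * τ * Γ ^ 2 := Nat.mul_pos (Nat.mul_pos hΞ hτ) (pow_pos hΓ 2)
      omega
  rw [card_product] at e1
  have e2 := e1.trans (Nat.mul_le_mul_left _ (Nat.mul_le_mul_right _ (card_S hA hS)))
  have e3 : (Y.card : ℝ) ≤ (3 * (Ξ * τ * Γ ^ 2)) * (3 * A * (q.divisors.card : ℝ)) := by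
    exact_mod_cast e2
  have e4 : (3 * ((Ξ : ℝ) * τ * Γ ^ 2)) * (3 * A * (q.divisors.card : ℝ)) ≤
      (3 * ((Ξ : ℝ) * τ * Γ ^ 2)) * (3 * A * D) := by gcongr
  linarith only [e3, e4]

end

end Pool.Agent.Work.MP_51e72e_nt.Cub.EnAux
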