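import Pool.Agent.Work.MP_51e72e_nt.CubMain

set_option autoImplicit false

open Classical in
theorem Pool.Agent.Work.MP_51e72e_nt.Cub.cubic_explicit :
    ∀ f : Polynomial ℤ, Irreducible f → f.natDegree = 3 →
      ∃ C : ℝ,
        Filter.Tendsto
          (fun y : ℕ => ∏ p ∈ (Finset.range (y + 1)).filter Nat.Prime,
            (1 - (((Finset.range p).filter
                  (fun n : ℕ => (p : ℤ) ∣ f.eval (n : ℤ))).card : ℝ) / (p : ℝ)) /
              (1 - 1 / (p : ℝ)))
          Filter.atTop (nhds C) ∧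
        ∀ ε : ℝ, 0 < ε → ∀ᶠ N : ℕ in Filter.atTop,
          (((Finset.Icc 1 N).filter (fun n : ℕ => (f.eval (n : ℤ)).natAbs.Prime)).card : ℝ) *
            Real.log |((f.eval (N : ℤ) : ℤ) : ℝ)| / (N : ℝ)
          ≤ (6 - 1 / 10 ^ 9) * C + ε := by
  have key : ∀ f : Polynomial ℤ, Irreducible f → f.natDegree = 3 → 0 < f.leadingCoeff →
      ∃ C : ℝ,
        Filter.Tendsto
          (fun y : ℕ => ∏ p ∈ (Finset.range (y + 1)).filter Nat.Prime,
            (1 - (((Finset.range p).filter
                  (fun n : ℕ => (p : ℤ) ∣ f.eval (n : ℤ))).card : ℝ) / (p : ℝ)) /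
              (1 - 1 / (p : ℝ)))
          Filter.atTop (nhds C) ∧
        ∀ ε : ℝ, 0 < ε → ∀ᶠ N : ℕ in Filter.atTop,
          (((Finset.Icc 1 N).filter (fun n : ℕ => (f.eval (n : ℤ)).natAbs.Prime)).card : ℝ) *
            Real.log |((f.eval (N : ℤ) : ℤ) : ℝ)| / (N : ℝ)
          ≤ (6 - 1 / 10 ^ 9) * C + ε := by
    intro f hf hd hl
    obtain ⟨C, hC, -⟩ := Pool.Agent.Work.MP_51e72e_nt.tendsto_prod_omegaF {f} (by
      simp only [Finset.mem_singleton, forall_eq]
      exact ⟨hf, by omega, hl⟩)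
    simp only [Pool.Agent.Work.MP_51e72e_nt.omegaF, Finset.prod_singleton, Finset.card_singleton,
      pow_one] at hC
    exact ⟨C, hC, fun ε hε =>
      Pool.Agent.Work.MP_51e72e_nt.Cub.cubic_upper f hf hd hl hC hε⟩
  intro f hf hd
  rcases lt_or_gt_of_ne (Polynomial.leadingCoeff_ne_zero.mpr hf.ne_zero) with h | h
  · have := key (-f) ((Associated.refl f).neg_right.irreducible hf) (by simpa using hd)
      (by simpa using h)
    simpa only [Polynomial.eval_neg, dvd_neg, Int.natAbs_neg, Int.cast_neg, abs_neg] using this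
  · exact key f hf hd h
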