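import Pool.Agent.Work.MP_51e72e_nt.NFTauber
import Mathlib.Analysis.SpecialFunctions.Integrals.Basic

/-!
# Karamata's Tauberian theorem in dimension one
-/

noncomputable section

open Finset Filter Topology

namespace Pool.Agent.Work.MP_51e72e_nt

/-- A continuous ramp divided by `x`. -/
def ramp (a b x : ℝ) : ℝ := max 0 (min 1 ((x - a) / (b - a))) / max x a

lemma continuous_ramp {a b : ℝ} (ha : 0 < a) : Continuous (ramp a b) := by
  unfold ramp
  exact Continuous.div (by fun_prop) (by fun_prop) fun x =>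
    (lt_of_lt_of_le ha (le_max_right _ _)).ne'

lemma ramp_nonneg {a b : ℝ} (ha : 0 < a) (x : ℝ) : 0 ≤ ramp a b x :=
  div_nonneg (le_max_left _ _) (ha.le.trans (le_max_right _ _))

lemma ramp_of_le {a b x : ℝ} (hab : a < b) (hx : x ≤ a) : ramp a b x = 0 := by
  unfold ramp
  have h1 : (x - a) / (b - a) ≤ 0 := div_nonpos_of_nonpos_of_nonneg (by linarith) (by linarith)
  rw [min_eq_right (h1.trans zero_le_one), max_eq_left h1, zero_div]

lemma ramp_of_ge {a b x : ℝ} (hab : a < b) (hx : b ≤ x) : ramp a b x = x⁻¹ := by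
  unfold ramp
  have h1 : (1 : ℝ) ≤ (x - a) / (b - a) := by
    rw [le_div_iff₀ (by linarith)]; linarith
  rw [min_eq_left h1, max_eq_right zero_le_one, max_eq_left (by linarith : a ≤ x), one_div]

lemma ramp_le_inv {a b x : ℝ} (hx : 0 < x) : ramp a b x ≤ x⁻¹ := by
  unfold ramp
  rw [← one_div]
  exact div_le_div₀ zero_le_one (max_le zero_le_one (min_le_left _ _)) hx (le_max_left _ _)

lemma integral_ramp_ge {a b : ℝ} (ha : 0 < a) (hab : a < b) (hb : b ≤ 1) :
    -Real.log b ≤ ∫ x in (0 : ℝ)..1, ramp a b x := by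
  have hc := continuous_ramp (b := b) ha
  rw [← intervalIntegral.integral_add_adjacent_intervals (b := b) (hc.intervalIntegrable _ _)
    (hc.intervalIntegrable _ _)]
  have h1 : 0 ≤ ∫ x in (0 : ℝ)..b, ramp a b x :=
    intervalIntegral.integral_nonneg (by linarith) fun x _ => ramp_nonneg ha x
  have h2 : ∫ x in b..1, ramp a b x = ∫ x in b..1, x⁻¹ := by
    refine intervalIntegral.integral_congr fun x hx => ?_
    rw [Set.uIcc_of_le hb] at hx
    exact ramp_of_ge hab hx.1
  rw [h2, integral_inv_of_pos (by linarith) one_pos, one_div, Real.log_inv]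
  linarith

lemma integral_ramp_le {a b : ℝ} (ha : 0 < a) (hab : a < b) (hb : b ≤ 1) :
    ∫ x in (0 : ℝ)..1, ramp a b x ≤ -Real.log a := by
  have hc := continuous_ramp (b := b) ha
  rw [← intervalIntegral.integral_add_adjacent_intervals (b := a) (hc.intervalIntegrable _ _)
    (hc.intervalIntegrable _ _)]
  have h1 : ∫ x in (0 : ℝ)..a, ramp a b x = 0 := by
    rw [intervalIntegral.integral_congr (g := fun _ => 0)]
    · simp
    · intro x hx
      rw [Set.uIcc_of_le ha.le] at hx
      exact ramp_of_le hab hx.2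
  have h2 : ∫ x in a..1, ramp a b x ≤ ∫ x in a..1, x⁻¹ := by
    refine intervalIntegral.integral_mono_on (by linarith) (hc.intervalIntegrable _ _) ?_
      fun x hx => ramp_le_inv (by linarith [hx.1])
    refine ContinuousOn.intervalIntegrable (continuousOn_inv₀.mono fun x hx => ?_)
    rw [Set.uIcc_of_le (by linarith)] at hx
    exact ne_of_gt (by linarith [hx.1])
  rw [integral_inv_of_pos ha one_pos, one_div, Real.log_inv] at h2
  linarith

variable {ι : Type*} {b t : ι → ℝ} {c : ℝ}

lemma summable_kar (hb : ∀ i, 0 ≤ b i)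
    (hs : ∀ ε, 0 < ε → Summable fun i => b i * Real.exp (-(ε * t i))) {ε : ℝ} (hε : 0 < ε)
    {g : ι → ℝ} {B : ℝ} (hg : ∀ i, |g i| ≤ B) :
    Summable fun i => b i * (Real.exp (-(ε * t i)) * g i) := by
  refine Summable.of_norm_bounded ((hs ε hε).mul_left B) fun i => ?_
  rw [Real.norm_eq_abs, abs_mul, abs_mul, abs_of_nonneg (hb i), abs_of_pos (Real.exp_pos _)]
  have := hb i
  calc _ ≤ b i * (Real.exp (-(ε * t i)) * B) := by gcongr; exact hg i
    _ = _ := by ring

lemma exp_mem (ht : ∀ i, 0 ≤ t i) {ε : ℝ} (hε : 0 < ε) (i : ι) :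
    Real.exp (-(ε * t i)) ∈ Set.Icc (0 : ℝ) 1 :=
  ⟨(Real.exp_pos _).le, Real.exp_le_one_iff.mpr (neg_nonpos.mpr (mul_nonneg hε.le (ht i)))⟩

lemma poly_bound (Q : Polynomial ℝ) : ∃ B, ∀ x ∈ Set.Icc (0 : ℝ) 1, |Q.eval x| ≤ B := by
  obtain ⟨B, hB⟩ := isCompact_Icc.exists_bound_of_continuousOn
    (Q.continuous.continuousOn (s := Set.Icc (0 : ℝ) 1))
  exact ⟨B, fun x hx => by simpa using hB x hx⟩

lemma tendsto_poly_kar (hb : ∀ i, 0 ≤ b i) (ht : ∀ i, 0 ≤ t i)
    (hs : ∀ ε, 0 < ε → Summable fun i => b i * Real.exp (-(ε * t i)))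
    (hc : Tendsto (fun ε : ℝ => ε * ∑' i, b i * Real.exp (-(ε * t i))) (𝓝[>] 0) (𝓝 c))
    (P : Polynomial ℝ) :
    Tendsto (fun ε : ℝ => ε * ∑' i, b i * (Real.exp (-(ε * t i)) * P.eval (Real.exp (-(ε * t i)))))
      (𝓝[>] 0) (𝓝 (c * ∫ x in (0 : ℝ)..1, P.eval x)) := by
  induction P using Polynomial.induction_on' with
  | add P Q hP hQ =>
    have := hP.add hQ
    simp only [Polynomial.eval_add]
    rw [intervalIntegral.integral_add (P.continuous.intervalIntegrable _ _)
      (Q.continuous.intervalIntegrable _ _), mul_add]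
    refine this.congr' ?_
    filter_upwards [self_mem_nhdsWithin] with ε hε
    obtain ⟨B, hB⟩ := poly_bound P
    obtain ⟨B', hB'⟩ := poly_bound Q
    rw [← mul_add, ← Summable.tsum_add (summable_kar hb hs hε fun i => hB _ (exp_mem ht hε i))
      (summable_kar hb hs hε fun i => hB' _ (exp_mem ht hε i))]
    congr 1
    exact tsum_congr fun i => by ring
  | monomial j a =>
    have h1 := (hc.comp (tendsto_mul_nhdsGT (a := (j : ℝ) + 1) (by positivity))).const_mul
      (a / (j + 1))
    simp only [Polynomial.eval_monomial]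
    rw [intervalIntegral.integral_const_mul, integral_pow]
    convert h1 using 2 with ε
    · simp only [Function.comp]
      have : ∀ i, b i * (Real.exp (-(ε * t i)) * (a * Real.exp (-(ε * t i)) ^ j)) =
          a * (b i * Real.exp (-(((j : ℝ) + 1) * ε * t i))) := by
        intro i
        have : Real.exp (-(((j : ℝ) + 1) * ε * t i)) = Real.exp (-(ε * t i)) ^ (j + 1) := by
          rw [← Real.exp_nat_mul]; congr 1; push_cast; ring
        rw [this]; ring
      simp only [this, tsum_mul_left]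
      field_simp
    · simp; ring

/-- **Karamata's theorem.** -/
theorem karamata (hb : ∀ i, 0 ≤ b i) (ht : ∀ i, 0 ≤ t i)
    (hs : ∀ ε, 0 < ε → Summable fun i => b i * Real.exp (-(ε * t i)))
    (hc : Tendsto (fun ε : ℝ => ε * ∑' i, b i * Real.exp (-(ε * t i))) (𝓝[>] 0) (𝓝 c)) :
    Tendsto (fun u : ℝ => (∑' i, if t i ≤ u then b i else 0) / u) atTop (𝓝 c) := by
  have hc0 : 0 ≤ c := ge_of_tendsto hc (by
    filter_upwards [self_mem_nhdsWithin] with ε hε
    exact mul_nonneg (le_of_lt hε) (tsum_nonneg fun i => mul_nonneg (hb i) (Real.exp_pos _).le))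
  rw [Metric.tendsto_nhds]
  intro η hη
  set δ := min (1 / 2) (η / (4 * (c + 1))) with hδ
  have hδ0 : 0 < δ := lt_min (by norm_num) (by positivity)
  have hδ1 : δ ≤ 1 / 2 := min_le_left _ _
  have hδ2 : c * (3 * δ) < η := by
    have h1 : δ ≤ η / (4 * (c + 1)) := min_le_right _ _
    rw [le_div_iff₀ (by positivity)] at h1
    nlinarith
  have e1 : Real.exp (-1) < Real.exp (-1 + δ) := Real.exp_lt_exp.mpr (by linarith)
  have e2 : Real.exp (-1 - δ) < Real.exp (-1) := Real.exp_lt_exp.mpr (by linarith)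
  have e3 : Real.exp (-1 + δ) ≤ 1 := Real.exp_le_one_iff.mpr (by linarith)
  have e4 : Real.exp (-1) ≤ 1 := Real.exp_le_one_iff.mpr (by linarith)
  obtain ⟨P, hP⟩ := exists_polynomial_near_of_continuousOn 0 1
    (ramp (Real.exp (-1)) (Real.exp (-1 + δ))) (continuous_ramp (Real.exp_pos _)).continuousOn δ hδ0
  obtain ⟨Q, hQ⟩ := exists_polynomial_near_of_continuousOn 0 1
    (ramp (Real.exp (-1 - δ)) (Real.exp (-1))) (continuous_ramp (Real.exp_pos _)).continuousOn δ hδ0
  have hPi : 1 - 3 * δ ≤ ∫ x in (0 : ℝ)..1, (P - Polynomial.C δ).eval x := by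
    have h1 := integral_ramp_ge (Real.exp_pos (-1)) e1 e3
    rw [Real.log_exp] at h1
    have h2 : ∫ x in (0 : ℝ)..1, (ramp (Real.exp (-1)) (Real.exp (-1 + δ)) x - 2 * δ) ≤
        ∫ x in (0 : ℝ)..1, (P - Polynomial.C δ).eval x := by
      refine intervalIntegral.integral_mono_on zero_le_one
        (((continuous_ramp (Real.exp_pos _)).sub continuous_const).intervalIntegrable _ _)
        ((P - Polynomial.C δ).continuous.intervalIntegrable _ _) fun x hx => ?_
      have := abs_lt.mp (hP x hx)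
      rw [Polynomial.eval_sub, Polynomial.eval_C]
      linarith [this.1]
    rw [intervalIntegral.integral_sub ((continuous_ramp (Real.exp_pos _)).intervalIntegrable _ _)
      (continuous_const.intervalIntegrable _ _)] at h2
    simp at h2 ⊢
    linarith
  have hQi : ∫ x in (0 : ℝ)..1, (Q + Polynomial.C δ).eval x ≤ 1 + 3 * δ := by
    have h1 := integral_ramp_le (Real.exp_pos (-1 - δ)) e2 e4
    rw [Real.log_exp] at h1
    have h2 : ∫ x in (0 : ℝ)..1, (Q + Polynomial.C δ).eval x ≤
        ∫ x in (0 : ℝ)..1, (ramp (Real.exp (-1 - δ)) (Real.exp (-1)) x + 2 * δ) := by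
      refine intervalIntegral.integral_mono_on zero_le_one
        ((Q + Polynomial.C δ).continuous.intervalIntegrable _ _)
        (((continuous_ramp (Real.exp_pos _)).add continuous_const).intervalIntegrable _ _)
        fun x hx => ?_
      have := abs_lt.mp (hQ x hx)
      rw [Polynomial.eval_add, Polynomial.eval_C]
      linarith [this.2]
    rw [intervalIntegral.integral_add ((continuous_ramp (Real.exp_pos _)).intervalIntegrable _ _)
      (continuous_const.intervalIntegrable _ _)] at h2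
    simp at h2 ⊢
    linarith
  have t1 := (tendsto_poly_kar hb ht hs hc (P - Polynomial.C δ)).comp
    tendsto_inv_atTop_nhdsGT_zero
  have t2 := (tendsto_poly_kar hb ht hs hc (Q + Polynomial.C δ)).comp
    tendsto_inv_atTop_nhdsGT_zero
  have l1 : c - η < c * ∫ x in (0 : ℝ)..1, (P - Polynomial.C δ).eval x := by
    have := mul_le_mul_of_nonneg_left hPi hc0
    linarith
  have l2 : c * ∫ x in (0 : ℝ)..1, (Q + Polynomial.C δ).eval x < c + η := by
    have := mul_le_mul_of_nonneg_left hQi hc0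
    linarith
  filter_upwards [t1.eventually (lt_mem_nhds l1), t2.eventually (gt_mem_nhds l2),
    eventually_gt_atTop 0] with u h1 h2 hu
  simp only [Function.comp] at h1 h2
  have hε : 0 < u⁻¹ := inv_pos.mpr hu
  obtain ⟨B, hB⟩ := poly_bound (P - Polynomial.C δ)
  obtain ⟨B', hB'⟩ := poly_bound (Q + Polynomial.C δ)
  have s1 := summable_kar hb hs hε fun i => hB _ (exp_mem ht hε i)
  have s2 := summable_kar hb hs hε fun i => hB' _ (exp_mem ht hε i)
  have hiff : ∀ i, t i ≤ u ↔ Real.exp (-1) ≤ Real.exp (-(u⁻¹ * t i)) := by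
    intro i
    rw [Real.exp_le_exp, neg_le_neg_iff, inv_mul_le_iff₀ hu, mul_one]
  have p1 : ∀ i, b i * (Real.exp (-(u⁻¹ * t i)) *
      (P - Polynomial.C δ).eval (Real.exp (-(u⁻¹ * t i)))) ≤ if t i ≤ u then b i else 0 := by
    intro i
    have hx := exp_mem ht hε i
    have hx0 := Real.exp_pos (-(u⁻¹ * t i))
    have := abs_lt.mp (hP _ hx)
    have h3 : (P - Polynomial.C δ).eval (Real.exp (-(u⁻¹ * t i))) ≤
        ramp (Real.exp (-1)) (Real.exp (-1 + δ)) (Real.exp (-(u⁻¹ * t i))) := by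
      rw [Polynomial.eval_sub, Polynomial.eval_C]; linarith [this.2]
    have hbi := hb i
    split_ifs with h
    · calc _ ≤ b i * (Real.exp (-(u⁻¹ * t i)) * (Real.exp (-(u⁻¹ * t i)))⁻¹) := by
            gcongr; exact h3.trans (ramp_le_inv hx0)
        _ = _ := by rw [mul_inv_cancel₀ hx0.ne', mul_one]
    · rw [ramp_of_le e1 (by rw [hiff] at h; linarith)] at h3
      exact mul_nonpos_of_nonneg_of_nonpos hbi (mul_nonpos_of_nonneg_of_nonpos hx0.le h3)
  have p2 : ∀ i, (if t i ≤ u then b i else 0) ≤ b i * (Real.exp (-(u⁻¹ * t i)) *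
      (Q + Polynomial.C δ).eval (Real.exp (-(u⁻¹ * t i)))) := by
    intro i
    have hx := exp_mem ht hε i
    have hx0 := Real.exp_pos (-(u⁻¹ * t i))
    have := abs_lt.mp (hQ _ hx)
    have h3 : ramp (Real.exp (-1 - δ)) (Real.exp (-1)) (Real.exp (-(u⁻¹ * t i))) ≤
        (Q + Polynomial.C δ).eval (Real.exp (-(u⁻¹ * t i))) := by
      rw [Polynomial.eval_add, Polynomial.eval_C]; linarith [this.1]
    have hbi := hb i
    split_ifs with h
    · rw [ramp_of_ge e2 ((hiff i).mp h)] at h3
      calc b i = b i * (Real.exp (-(u⁻¹ * t i)) * (Real.exp (-(u⁻¹ * t i)))⁻¹) := by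
            rw [mul_inv_cancel₀ hx0.ne', mul_one]
        _ ≤ _ := by gcongr
    · exact mul_nonneg hbi (mul_nonneg hx0.le ((ramp_nonneg (Real.exp_pos _) _).trans h3))
  have s3 : Summable fun i => if t i ≤ u then b i else 0 :=
    Summable.of_nonneg_of_le (fun i => by split_ifs; exacts [hb i, le_rfl]) p2 s2
  have q1 := mul_le_mul_of_nonneg_left (s1.tsum_le_tsum p1 s3) hε.le
  have q2 := mul_le_mul_of_nonneg_left (s3.tsum_le_tsum p2 s2) hε.le
  rw [Real.dist_eq, abs_lt, div_eq_inv_mul]
  constructor <;> linarith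

end Pool.Agent.Work.MP_51e72e_nt
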