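import Pool.Agent.Work.MP_51e72e_nt.NFMain
import Pool.Agent.Work.MP_51e72e_nt.NFKaramata
import Mathlib.Analysis.SpecialFunctions.Log.Summable

/-!
# Asymptotics of the Selberg sum attached to an irreducible polynomial
-/

noncomputable section

open Finset Filter Topology Polynomial

namespace Pool.Agent.Work.MP_51e72e_nt

open Pool.Agent.Lib.ANT

/-- Tail of the series of inverse squares. -/
def sqTail (w : ℕ) : ℝ := ∑' n : ℕ, if w < n then ((n : ℝ) ^ 2)⁻¹ else 0

lemma summable_sqTail (w : ℕ) : Summable fun n : ℕ => if w < n then ((n : ℝ) ^ 2)⁻¹ else 0 :=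
  Summable.of_nonneg_of_le (fun n => by split_ifs <;> positivity)
    (fun n => by split_ifs; exacts [le_rfl, by positivity])
    (Real.summable_nat_pow_inv.mpr one_lt_two)

lemma tendsto_sqTail : Tendsto sqTail atTop (𝓝 0) := by
  have : Tendsto sqTail atTop (𝓝 (∑' _ : ℕ, (0 : ℝ))) := by
    refine tendsto_tsum_of_dominated_convergence (Real.summable_nat_pow_inv.mpr one_lt_two)
      (fun n => ?_) (Eventually.of_forall fun w n => ?_)
    · refine tendsto_const_nhds.congr' ?_
      filter_upwards [eventually_ge_atTop n] with w hw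
      rw [if_neg (by omega)]
    · rw [Real.norm_eq_abs]
      split_ifs
      · exact (abs_of_nonneg (by positivity)).le
      · rw [abs_zero]; positivity
  simpa using this

/-- The Selberg weight on primes larger than `w`. -/
def selW (om : ℕ → ℕ) (w p : ℕ) : ℝ :=
  if p.Prime ∧ w < p then (om p : ℝ) / (p - om p) else 0

/-- The Selberg sum up to `exp u`. -/
def selSum (om : ℕ → ℕ) (w : ℕ) (u : ℝ) : ℝ :=
  ∑' T : Finset ℕ, if ∑ p ∈ T, Real.log p ≤ u then ∏ p ∈ T, selW om w p else 0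

lemma selSum_eq (om : ℕ → ℕ) {w W : ℕ} (hW : ∀ p : ℕ, p.Prime → (p ∣ W ↔ p ≤ w)) {y : ℝ}
    (hy : 0 < y) (Ps : Finset ℕ) (hPs : ∀ p ∈ Ps, p.Prime)
    (hall : ∀ p : ℕ, p.Prime → (p : ℝ) ≤ y → p ∈ Ps) :
    selSum om w (Real.log y) =
      sqfSum Ps (fun p => if p ∣ W then 0 else (om p : ℝ) / (p - om p)) y := by
  unfold selSum sqfSum
  rw [tsum_eq_sum (s := Ps.powerset)]
  · refine Finset.sum_congr rfl fun T hT => ?_
    have hT' := mem_powerset.mp hT
    have hpos : ∀ p ∈ T, (0 : ℝ) < p := fun p hp => by exact_mod_cast (hPs p (hT' hp)).pos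
    have h1 : ∑ p ∈ T, Real.log p ≤ Real.log y ↔ ((∏ p ∈ T, p : ℕ) : ℝ) ≤ y := by
      rw [← Real.log_prod fun p hp => (hpos p hp).ne', Nat.cast_prod,
        Real.log_le_log_iff (Finset.prod_pos hpos) hy]
    simp only [h1]
    congr 1
    refine Finset.prod_congr rfl fun p hp => ?_
    have hp' := hPs p (hT' hp)
    simp only [selW, hp', true_and, hW p hp']
    by_cases h : p ≤ w
    · rw [if_neg (by omega), if_pos h]
    · rw [if_pos (by omega), if_neg h]
  · intro T hT
    obtain ⟨p, hp, hpn⟩ := Finset.not_subset.mp (mt mem_powerset.mpr hT)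
    split_ifs with h
    · refine Finset.prod_eq_zero hp ?_
      rw [selW, if_neg]
      rintro ⟨h1, -⟩
      refine hpn (hall p h1 ?_)
      have h2 : Real.log p ≤ ∑ p ∈ T, Real.log p :=
        Finset.single_le_sum (f := fun p : ℕ => Real.log p)
          (fun q _ => Real.log_natCast_nonneg q) hp
      exact (Real.log_le_log_iff (by exact_mod_cast h1.pos) hy).mp (h2.trans h)
    · rfl

theorem tendsto_selSum {om : ℕ → ℕ} {d w : ℕ} (hom : ∀ p : ℕ, p.Prime → om p ≤ d)
    (hw : 2 * d ≤ w) {L : ℝ}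
    (hL : Tendsto (fun ε : ℝ => ∑' n : ℕ, (om n * pw n) * (n : ℝ) ^ (-ε) + Real.log ε)
      (𝓝[>] 0) (𝓝 L)) :
    ∃ R : ℝ, |R| ≤ 4 * (d : ℝ) ^ 2 * sqTail w ∧ Tendsto (fun u : ℝ => selSum om w u / u) atTop
      (𝓝 (Real.exp (L - ∑ n ∈ range (w + 1), om n * pw n + R))) := by
  have hbasic : ∀ p : ℕ, p.Prime → w < p → (0 : ℝ) < p ∧ (om p : ℝ) ≤ d ∧ 2 * (om p : ℝ) ≤ p := by
    intro p hp hwp
    have := hom p hp
    exact ⟨by exact_mod_cast hp.pos, by exact_mod_cast this,
      by exact_mod_cast (by omega : 2 * om p ≤ p)⟩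
  have hg0 : ∀ p, 0 ≤ selW om w p := by
    intro p
    unfold selW
    split_ifs with h
    · obtain ⟨h1, h2, h3⟩ := hbasic p h.1 h.2
      exact div_nonneg (Nat.cast_nonneg _) (by linarith only [h1, h3])
    · exact le_rfl
  have hg1 : ∀ p, |selW om w p| ≤ 2 * d * pw p := by
    intro p
    rw [abs_of_nonneg (hg0 p)]
    unfold selW
    split_ifs with h
    · obtain ⟨h1, h2, h3⟩ := hbasic p h.1 h.2
      rw [pw, if_pos h.1, ← div_eq_mul_inv, div_le_div_iff₀ (by linarith) h1]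
      have : (0 : ℝ) ≤ om p := Nat.cast_nonneg _
      nlinarith only [h3, h2]
    · have := pw_nonneg p
      positivity
  set r : ℝ → ℕ → ℝ := fun x p => Real.log (1 + selW om w p * x) -
    (if w < p then om p * pw p * x else 0) with hr
  have hrb : ∀ x ∈ Set.Icc (0 : ℝ) 1, ∀ p, ‖r x p‖ ≤
      4 * (d : ℝ) ^ 2 * (if w < p then ((p : ℝ) ^ 2)⁻¹ else 0) := by
    intro x hx p
    rw [Real.norm_eq_abs]
    by_cases h : p.Prime ∧ w < p
    · obtain ⟨h1, h2, h3⟩ := hbasic p h.1 h.2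
      have ho : (0 : ℝ) ≤ om p := Nat.cast_nonneg _
      have hh0 : 0 ≤ selW om w p * x := mul_nonneg (hg0 p) hx.1
      have hh1 : selW om w p * x ≤ 2 * d * (p : ℝ)⁻¹ := by
        have := hg1 p
        rw [abs_of_nonneg (hg0 p), pw, if_pos h.1] at this
        calc _ ≤ selW om w p * 1 := mul_le_mul_of_nonneg_left hx.2 (hg0 p)
          _ ≤ _ := by rwa [mul_one]
      have hl1 := Real.log_le_sub_one_of_pos (show 0 < 1 + selW om w p * x by linarith only [hh0])
      have hl2 := Real.one_sub_inv_le_log_of_pos (show 0 < 1 + selW om w p * x by linarith)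
      have hl3 : (1 + selW om w p * x)⁻¹ ≤ 1 - selW om w p * x + (selW om w p * x) ^ 2 := by
        rw [inv_le_iff_one_le_mul₀ (by linarith)]
        nlinarith only [hh0, pow_nonneg hh0 3]
      have hsq : (selW om w p * x) ^ 2 ≤ 4 * (d : ℝ) ^ 2 * ((p : ℝ) ^ 2)⁻¹ := by
        calc _ ≤ (2 * d * (p : ℝ)⁻¹) ^ 2 := pow_le_pow_left₀ hh0 hh1 2
          _ = _ := by rw [mul_pow, mul_pow, inv_pow]; norm_num
      have hdiff : selW om w p - om p * (p : ℝ)⁻¹ = selW om w p * (om p * (p : ℝ)⁻¹) := by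
        rw [selW, if_pos h]
        have : (p : ℝ) - om p ≠ 0 := by linarith only [h1, h3]
        field_simp
        ring
      have hd0 : 0 ≤ (selW om w p - om p * (p : ℝ)⁻¹) * x := by
        rw [hdiff]; have := hg0 p; have := hx.1; positivity
      have hd1 : (selW om w p - om p * (p : ℝ)⁻¹) * x ≤ 4 * (d : ℝ) ^ 2 * ((p : ℝ) ^ 2)⁻¹ := by
        rw [hdiff]
        calc _ = (selW om w p * x) * (om p * (p : ℝ)⁻¹) := by ring
          _ ≤ (2 * d * (p : ℝ)⁻¹) * (2 * d * (p : ℝ)⁻¹) := by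
              gcongr; linarith only [h2]
          _ = _ := by rw [← inv_pow]; ring
      simp only [hr, if_pos h.2, pw, if_pos h.1]
      rw [abs_le]
      constructor <;> nlinarith only [hl2, hl3, hsq, hd0, hl1, hd1]
    · simp only [hr, selW, if_neg h, zero_mul, add_zero, Real.log_one, zero_sub, abs_neg]
      split_ifs with h2
      · have : ¬ p.Prime := fun h3 => h ⟨h3, h2⟩
        simp only [pw, if_neg this, mul_zero, zero_mul, abs_zero]
        positivity
      · simp
  have hsb := (summable_sqTail w).mul_left (4 * (d : ℝ) ^ 2)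
  refine ⟨∑' p, r 1 p, ?_, ?_⟩
  · have := tsum_of_norm_bounded hsb.hasSum (hrb 1 ⟨zero_le_one, le_rfl⟩)
    rwa [tsum_mul_left, Real.norm_eq_abs] at this
  have hprod : ∀ (ε : ℝ) (T : Finset ℕ), 0 < ε →
      (∏ p ∈ T, selW om w p) * Real.exp (-(ε * ∑ p ∈ T, Real.log p)) =
        ∏ p ∈ T, selW om w p * (p : ℝ) ^ (-ε) := by
    intro ε T _
    rw [Finset.mul_sum, ← Finset.sum_neg_distrib, Real.exp_sum, ← Finset.prod_mul_distrib]
    refine Finset.prod_congr rfl fun p _ => ?_
    rcases Nat.eq_zero_or_pos p with rfl | hp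
    · simp [selW, Nat.not_prime_zero]
    · rw [Real.rpow_def_of_pos (by exact_mod_cast hp)]
      congr 2; ring
  have hsum : ∀ ε : ℝ, 0 < ε → Summable fun p : ℕ => selW om w p * (p : ℝ) ^ (-ε) := by
    intro ε hε
    simpa using summable_of_le_pw hg1 hε (g := fun _ => 1) (B := 1) (by simp)
  have hnn : ∀ (ε : ℝ) (p : ℕ), 0 ≤ selW om w p * (p : ℝ) ^ (-ε) := fun ε p =>
    mul_nonneg (hg0 p) (by positivity)
  refine karamata (b := fun T : Finset ℕ => ∏ p ∈ T, selW om w p)
    (t := fun T => ∑ p ∈ T, Real.log p) (fun T => Finset.prod_nonneg fun p _ => hg0 p)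
    (fun T => Finset.sum_nonneg fun p _ => Real.log_natCast_nonneg p) (fun ε hε => ?_) ?_
  · simp only [hprod ε _ hε]
    exact summable_finsetProd_of_summable_nonneg (hnn ε) (hsum ε hε)
  have h1 : Tendsto (fun ε : ℝ => ∑' p : ℕ, r ((p : ℝ) ^ (-ε)) p) (𝓝[>] 0) (𝓝 (∑' p, r 1 p)) := by
    refine tendsto_tsum_of_dominated_convergence hsb (fun p => ?_) ?_
    · rcases Nat.eq_zero_or_pos p with rfl | hp
      · simp [hr, selW, Nat.not_prime_zero]
      have hp' : (p : ℝ) ≠ 0 := by positivity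
      have h1 : Tendsto (fun ε : ℝ => -ε) (𝓝[>] 0) (𝓝 0) := by
        have : Tendsto (fun ε : ℝ => -ε) (𝓝 0) (𝓝 (-0)) := tendsto_id.neg
        rw [neg_zero] at this
        exact this.mono_left nhdsWithin_le_nhds
      have h2 := (Real.continuousAt_const_rpow hp').tendsto.comp h1
      rw [Real.rpow_zero] at h2
      refine (((h2.const_mul _).const_add 1).log ?_).sub ?_
      · have := hg0 p
        positivity
      · split_ifs
        · exact h2.const_mul _
        · exact tendsto_const_nhds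
    · filter_upwards [self_mem_nhdsWithin] with ε hε p
      exact hrb _ (rpow_neg_mem hε p) p
  refine (((hL.sub (tendsto_finite_abel (range (w + 1)) fun n => (om n : ℝ))).add h1).rexp).congr'
    ?_
  filter_upwards [self_mem_nhdsWithin] with ε hε
  have hε' : 0 < ε := hε
  simp only [hprod ε _ hε']
  rw [← tprod_one_add (summable_finsetProd_of_summable_nonneg (hnn ε) (hsum ε hε')),
    ← Real.rexp_tsum_eq_tprod (fun p => by have := hnn ε p; positivity)
      (Real.summable_log_one_add_of_summable (hsum ε hε'))]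
  conv_rhs => rw [← Real.exp_log hε', ← Real.exp_add]
  congr 1
  have s1 := summable_mul_pw (a := fun n => (om n : ℝ)) (D := d) (fun p hp => by
    rw [abs_of_nonneg (Nat.cast_nonneg _)]
    exact_mod_cast hom p hp) hε'
  have s2 : HasSum (fun n : ℕ => if n ∈ range (w + 1) then om n * pw n * (n : ℝ) ^ (-ε) else 0)
      (∑ n ∈ range (w + 1), om n * pw n * (n : ℝ) ^ (-ε)) := by
    have : HasSum (fun n : ℕ => if n ∈ range (w + 1) then om n * pw n * (n : ℝ) ^ (-ε) else 0) _ :=
      hasSum_sum_of_ne_finset_zero (s := range (w + 1)) (fun n hn => if_neg hn)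
    rwa [Finset.sum_congr rfl fun n hn => if_pos hn] at this
  have s3 : Summable fun p : ℕ => r ((p : ℝ) ^ (-ε)) p :=
    Summable.of_norm_bounded hsb fun p => hrb _ (rpow_neg_mem hε' p) p
  have h4 := ((s1.hasSum.sub s2).add s3.hasSum).tsum_eq
  rw [Real.exp_log hε']
  have h5 : ∑' p : ℕ, Real.log (1 + selW om w p * (p : ℝ) ^ (-ε)) =
      ∑' n : ℕ, ((om n * pw n * (n : ℝ) ^ (-ε) -
        if n ∈ range (w + 1) then om n * pw n * (n : ℝ) ^ (-ε) else 0) + r ((n : ℝ) ^ (-ε)) n) := by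
    refine tsum_congr fun n => ?_
    simp only [hr, mem_range]
    by_cases h : w < n
    · rw [if_pos h, if_neg (by omega)]; ring
    · rw [if_neg h, if_pos (by omega)]; ring
  rw [h5, h4]; ring

/-- Lower bound for the Selberg sum of an irreducible polynomial, after removing small primes. -/
theorem selberg_sum_lower {f : ℤ[X]} (hf : Irreducible f) (hd : 0 < f.natDegree) {ε : ℝ}
    (hε : 0 < ε) : ∃ w₀ : ℕ, ∀ w : ℕ, w₀ ≤ w → ∀ W : ℕ, 0 < W →
      (∀ p : ℕ, p.Prime → (p ∣ W ↔ p ≤ w)) → ∃ E : ℝ, 0 ≤ E ∧ ∀ y : ℝ, 1 ≤ y →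
        ∀ Ps : Finset ℕ, (∀ p ∈ Ps, p.Prime) → (∀ p : ℕ, p.Prime → (p : ℝ) ≤ y → p ∈ Ps) →
          (1 - ε) * ((W.totient : ℝ) / W) * (Real.log y - E) ≤
            sqfSum Ps (fun p => if p ∣ W then 0 else (omega f p : ℝ) / (p - omega f p)) y := by
  have hprim := hf.isPrimitive hd.ne'
  obtain ⟨L, hL⟩ := tendsto_omega_abel hf hd
  obtain ⟨L₀, hL₀⟩ := tendsto_pw_abel
  have h1 := (Metric.tendsto_nhds.mp (tendsto_sum_omega_of_abel hprim hL hL₀)) (ε / 6)
    (by positivity)
  have h2 := (tendsto_sqTail.const_mul (4 * (f.natDegree : ℝ) ^ 2)).eventually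
    (gt_mem_nhds (show 4 * (f.natDegree : ℝ) ^ 2 * 0 < ε / 6 by simpa using hε))
  have h3 := (tendsto_sqTail.const_mul (4 * ((1 : ℕ) : ℝ) ^ 2)).eventually
    (gt_mem_nhds (show 4 * ((1 : ℕ) : ℝ) ^ 2 * 0 < ε / 6 by simpa using hε))
  obtain ⟨w₀, hw₀⟩ := eventually_atTop.mp
    (h1.and (h2.and (h3.and (eventually_ge_atTop (2 * f.natDegree)))))
  refine ⟨w₀, fun w hw W hW0 hW => ?_⟩
  obtain ⟨a1, a2, a3, a4⟩ := hw₀ w hw
  have hnn : ∀ (y : ℝ) (Ps : Finset ℕ), (∀ p ∈ Ps, p.Prime) → 0 ≤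
      sqfSum Ps (fun p => if p ∣ W then 0 else (omega f p : ℝ) / (p - omega f p)) y := by
    intro y Ps hPs
    refine sqfSum_nonneg (fun p hp => ?_) y
    split_ifs with h
    · exact le_rfl
    · have h5 := omega_le_natDegree hprim (hPs p hp)
      have h6 : ¬ p ≤ w := fun h' => h ((hW p (hPs p hp)).mpr h')
      refine div_nonneg (Nat.cast_nonneg _) (sub_nonneg.mpr ?_)
      exact_mod_cast (by omega : omega f p ≤ p)
  have hκ : (0 : ℝ) < (W.totient : ℝ) / W :=
    div_pos (by exact_mod_cast Nat.totient_pos.mpr hW0) (by exact_mod_cast hW0)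
  by_cases hε1 : 1 ≤ ε
  · refine ⟨0, le_rfl, fun y hy Ps hPs _ => le_trans ?_ (hnn y Ps hPs)⟩
    rw [sub_zero]
    exact mul_nonpos_of_nonpos_of_nonneg (mul_nonpos_of_nonpos_of_nonneg (by linarith only [hε1]) hκ.le)
      (Real.log_nonneg hy)
  obtain ⟨R, hR, hlim⟩ := tendsto_selSum (om := omega f)
    (fun p hp => omega_le_natDegree hprim hp) a4 hL
  obtain ⟨R₀, hR₀, hlim₀⟩ := tendsto_selSum (om := omega X) (d := 1) (w := w) (L := L₀)
    (fun p hp => (omega_X hp.pos).le) (by omega) (by simpa only [omega_X_mul_pw] using hL₀)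
  have hc₀ : (W.totient : ℝ) / W ≤
      Real.exp (L₀ - ∑ n ∈ range (w + 1), omega X n * pw n + R₀) := by
    refine ge_of_tendsto hlim₀ ?_
    filter_upwards [eventually_gt_atTop 0] with u hu
    rw [le_div_iff₀ hu]
    set Ps := (range (⌊Real.exp u⌋₊ + 1)).filter Nat.Prime with hPs
    have hP1 : ∀ p ∈ Ps, p.Prime := fun p hp => (mem_filter.mp hp).2
    have hP2 : ∀ p : ℕ, p.Prime → (p : ℝ) ≤ Real.exp u → p ∈ Ps := fun p hp h =>
      mem_filter.mpr ⟨mem_range.mpr (Nat.lt_succ_of_le (Nat.le_floor h)), hp⟩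
    have e1 := selSum_eq (omega X) hW (Real.exp_pos u) Ps hP1 hP2
    have e2 := totient_mul_log_le_sqfSum Ps hP1 (Real.exp u) (Real.exp_pos u).le hP2 W hW0
    rw [Real.log_exp] at e1 e2
    rw [e1]
    refine e2.trans (sqfSum_mono (fun p hp => ?_) (fun p hp => ?_) le_rfl)
    · have : (1 : ℝ) < p := by exact_mod_cast (hP1 p hp).one_lt
      split_ifs
      · exact le_rfl
      · exact inv_nonneg.mpr (by linarith only [this])
    · rw [omega_X (hP1 p hp).pos]; simp
  have hc : (1 - ε) * ((W.totient : ℝ) / W) <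
      Real.exp (L - ∑ n ∈ range (w + 1), omega f n * pw n + R) := by
    have e1 : ∑ n ∈ range (w + 1), ((omega f n : ℝ) - 1) * pw n =
        ∑ n ∈ range (w + 1), omega f n * pw n - ∑ n ∈ range (w + 1), omega X n * pw n := by
      rw [← Finset.sum_sub_distrib]
      exact Finset.sum_congr rfl fun n _ => by rw [omega_X_mul_pw]; ring
    rw [Real.dist_eq, e1, abs_lt] at a1
    have b1 := (abs_le.mp hR).1
    have b2 := (abs_le.mp hR₀).2
    calc _ < (1 - ε / 2) * ((W.totient : ℝ) / W) := by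
          apply mul_lt_mul_of_pos_right _ hκ; linarith only [hε]
      _ ≤ Real.exp (-(ε / 2)) *
            Real.exp (L₀ - ∑ n ∈ range (w + 1), omega X n * pw n + R₀) := by
          refine mul_le_mul ?_ hc₀ hκ.le (Real.exp_pos _).le
          have := Real.add_one_le_exp (-(ε / 2))
          linarith only [this]
      _ ≤ _ := by
          rw [← Real.exp_add]
          have b3 := b1.trans' (neg_le_neg a2.le)
          have b4 := b2.trans a3.le
          exact Real.exp_le_exp.mpr (by linarith only [a1, a2, b1, b4, a1.2])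
  obtain ⟨u₀, hu₀⟩ := eventually_atTop.mp
    ((hlim.eventually (lt_mem_nhds hc)).and (eventually_gt_atTop 0))
  refine ⟨u₀, (hu₀ u₀ le_rfl).2.le, fun y hy Ps hPs hall => ?_⟩
  have hk : 0 ≤ (1 - ε) * ((W.totient : ℝ) / W) := mul_nonneg (by linarith only [hε1]) hκ.le
  by_cases hyu : u₀ ≤ Real.log y
  · obtain ⟨b1, b2⟩ := hu₀ _ hyu
    rw [lt_div_iff₀ b2, selSum_eq (omega f) hW (by linarith only [hε, hε1, hy]) Ps hPs hall] at b1
    refine le_trans (mul_le_mul_of_nonneg_left ?_ hk) b1.le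
    linarith only [(hu₀ u₀ le_rfl).2]
  · exact (mul_nonpos_of_nonneg_of_nonpos hk (by linarith only [hyu])).trans (hnn y Ps hPs)

end Pool.Agent.Work.MP_51e72e_nt
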