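import Pool.Agent.Work.MP_51e72e_nt.System
import Pool.Agent.Work.MP_51e72e_nt.NFLower
import Mathlib.Analysis.Polynomial.Basic

/-!
The upper bound in the Bateman-Horn problem for systems with a linear member.
-/

set_option autoImplicit false
set_option maxHeartbeats 400000

namespace Pool.Agent.Work.MP_51e72e_nt

open Finset Filter Topology Polynomial Pool.Agent.Lib.ANT

lemma growth (f : ℤ[X]) (hd : 0 < f.natDegree) {δ : ℝ} (hδ : 0 < δ) : ∀ᶠ n : ℕ in atTop,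
    (n : ℝ) / 2 ≤ |((f.eval (n : ℤ) : ℤ) : ℝ)| ∧
      Real.log |((f.eval (n : ℤ) : ℤ) : ℝ)| ≤ (1 + δ) * f.natDegree * Real.log n := by
  have hinj : Function.Injective (Int.castRingHom ℝ) := Int.cast_injective
  have h := (f.map (Int.castRingHom ℝ)).isEquivalent_atTop_lead.isLittleO.bound
    (show (0 : ℝ) < 1 / 2 by norm_num)
  rw [natDegree_map_eq_of_injective hinj, leadingCoeff_map_of_injective hinj] at h
  have hl : (1 : ℝ) ≤ |(f.leadingCoeff : ℝ)| := by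
    have : f.leadingCoeff ≠ 0 := leadingCoeff_ne_zero.mpr (by rintro rfl; simp at hd)
    exact_mod_cast Int.one_le_abs this
  have h2 := ((Real.tendsto_log_atTop.comp tendsto_natCast_atTop_atTop).const_mul_atTop
    hδ).eventually_ge_atTop (Real.log (2 * |(f.leadingCoeff : ℝ)|))
  filter_upwards [tendsto_natCast_atTop_atTop.eventually h, h2, eventually_ge_atTop 1]
    with n a b c
  have e : (f.map (Int.castRingHom ℝ)).eval (n : ℝ) = ((f.eval (n : ℤ) : ℤ) : ℝ) := by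
    have := eval_intCast_map (Int.castRingHom ℝ) f (n : ℤ)
    simp at this ⊢
  simp only [Pi.sub_apply, e, Real.norm_eq_abs, eq_intCast, Function.comp] at a b
  have n1 : (1 : ℝ) ≤ n := by exact_mod_cast c
  have d1 : (1 : ℝ) ≤ f.natDegree := by exact_mod_cast hd
  have p1 : (n : ℝ) ≤ (n : ℝ) ^ f.natDegree := le_self_pow₀ n1 hd.ne'
  generalize ((f.eval (n : ℤ) : ℤ) : ℝ) = v at a ⊢
  generalize (f.leadingCoeff : ℝ) = l at a b hl
  have e1 : |l * (n : ℝ) ^ f.natDegree| = |l| * (n : ℝ) ^ f.natDegree := by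
    rw [abs_mul, abs_of_nonneg (a := (n : ℝ) ^ _) (by positivity)]
  have a1 := abs_sub_abs_le_abs_sub v (l * (n : ℝ) ^ f.natDegree)
  have a2 := abs_sub_abs_le_abs_sub (l * (n : ℝ) ^ f.natDegree) v
  rw [abs_sub_comm] at a2
  have a3 : (n : ℝ) ≤ |l| * (n : ℝ) ^ f.natDegree := by nlinarith only [p1, hl]
  rw [e1] at a a1 a2
  refine ⟨by linarith only [a, a2, a3], ?_⟩
  have a4 : Real.log |v| ≤ Real.log (2 * |l| * (n : ℝ) ^ f.natDegree) :=
    Real.log_le_log (by linarith only [n1, a, a2, a3]) (by linarith only [n1, a, a1, a3])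
  rw [Real.log_mul (by linarith only [hl]) (by positivity), Real.log_pow] at a4
  have a5 := Real.log_nonneg n1
  nlinarith only [b, a4, d1, hδ, a5, mul_le_mul_of_nonneg_left d1 (mul_nonneg hδ.le a5)]

lemma omega_le (f : ℤ[X]) (p : ℕ) : omega f p ≤ p :=
  (card_filter_le _ _).trans_eq (card_range p)

lemma euler_nonneg (f : ℤ[X]) (T : Finset ℕ) (hT : ∀ p ∈ T, p.Prime) (k : ℕ) :
    0 ≤ ∏ p ∈ T, (1 - (omega f p : ℝ) / p) / (1 - 1 / (p : ℝ)) ^ k := by
  refine prod_nonneg fun p hp => ?_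
  have h1 : (1 : ℝ) ≤ p := by exact_mod_cast (hT p hp).one_lt.le
  refine div_nonneg (sub_nonneg.mpr (div_le_one_of_le₀ ?_ (by linarith)))
    (pow_nonneg (sub_nonneg.mpr (div_le_one_of_le₀ h1 (by linarith))) _)
  exact_mod_cast omega_le f p

open Classical in
lemma count_le (F : Finset ℤ[X]) (T : Finset ℕ) (M N n0 : ℕ)
    (h0 : ∀ n : ℕ, n0 ≤ n → ∀ f ∈ F, (n : ℝ) / 2 ≤ |((f.eval (n : ℤ) : ℤ) : ℝ)|)
    (hT : ∀ p ∈ T, (p : ℝ) ≤ √N) :
    (((Icc 1 N).filter (fun n : ℕ => ∀ f ∈ F, (f.eval (n : ℤ)).natAbs.Prime)).card : ℝ)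
      ≤ ((Ioc M (M + N)).filter (fun n : ℕ => ∀ p : ℕ, p.Prime → (p ∈ T ∨ (p : ℝ) ≤ √N) →
        ∀ f ∈ F, ¬ (p : ℤ) ∣ f.eval (n : ℤ))).card + (M + n0 + 2 * √N) := by
  have h1 : (Icc 1 N).filter (fun n : ℕ => ∀ f ∈ F, (f.eval (n : ℤ)).natAbs.Prime) ⊆
      (Ioc M (M + N)).filter (fun n : ℕ => ∀ p : ℕ, p.Prime → (p ∈ T ∨ (p : ℝ) ≤ √N) →
        ∀ f ∈ F, ¬ (p : ℤ) ∣ f.eval (n : ℤ)) ∪ Icc 1 (M + n0 + ⌊2 * √N⌋₊) := by
    intro n hn
    rw [mem_filter, mem_Icc] at hn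
    rw [mem_union, mem_filter, mem_Ioc, mem_Icc]
    by_cases h : n ≤ M + n0 + ⌊2 * √N⌋₊
    · exact Or.inr ⟨hn.1.1, h⟩
    refine Or.inl ⟨⟨by omega, by omega⟩, fun p hp hpT f hf hd => h ?_⟩
    have e := (Nat.prime_dvd_prime_iff_eq hp (hn.2 f hf)).mp (Int.natCast_dvd.mp hd)
    have e2 : |((f.eval (n : ℤ) : ℤ) : ℝ)| = p := by rw [e, Nat.cast_natAbs, Int.cast_abs]
    have e3 := h0 n (by omega) f hf
    have e4 : (p : ℝ) ≤ √N := hpT.elim (hT p) id
    exact (Nat.le_floor (by linarith only [e2, e3, e4])).trans (Nat.le_add_left _ _)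
  have h2 := (card_le_card h1).trans (card_union_le _ _)
  rw [Nat.card_Icc, Nat.add_sub_cancel] at h2
  have h3 : (⌊2 * √N⌋₊ : ℝ) ≤ 2 * √N := Nat.floor_le (by positivity)
  have h4 := (Nat.cast_le (α := ℝ)).mpr h2
  push_cast at h4
  linarith only [h3, h4]

lemma final_arith {c P A B L Λ D κ θ C ε ε' R N : ℝ} {k : ℕ} (hN : 0 < N) (hL : 0 < L)
    (hc : c ≤ N * P * A * B / L ^ k + R * N) (hc0 : 0 ≤ c) (hΛ : Λ ≤ θ * D * L ^ k)
    (hθ : 0 ≤ θ) (hD : 0 ≤ D) (hB : 0 ≤ B) (hP : 0 ≤ P) (hA : A * θ ≤ κ) (hκ0 : 0 ≤ κ)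
    (hκ : κ ≤ 1) (hε' : 0 ≤ ε') (hPC : P ≤ C + ε') (h1 : B * D * ε' ≤ ε / 2)
    (h2 : R * (θ * D * L ^ k) ≤ ε / 2) : c * Λ / N ≤ κ * (B * D) * C + ε := by
  have hLk : 0 < L ^ k := pow_pos hL k
  have a1 : c * Λ ≤ (N * P * A * B / L ^ k + R * N) * (θ * D * L ^ k) :=
    (mul_le_mul_of_nonneg_left hΛ hc0).trans (mul_le_mul_of_nonneg_right hc (by positivity))
  have a2 : (N * P * A * B / L ^ k + R * N) * (θ * D * L ^ k)
      = (A * θ * (B * D * P) + R * (θ * D * L ^ k)) * N := by field_simp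
  rw [div_le_iff₀ hN]
  refine a1.trans (a2.trans_le (mul_le_mul_of_nonneg_right ?_ hN.le))
  have a3 := mul_le_mul_of_nonneg_right hA (show 0 ≤ B * D * P by positivity)
  have a4 := mul_le_mul_of_nonneg_left hPC (show 0 ≤ κ * (B * D) by positivity)
  have a5 := mul_le_mul_of_nonneg_right hκ (show 0 ≤ B * D * ε' by positivity)
  nlinarith only [h1, h2, a3, a4, a5]

open Classical in
theorem bh_upper (F : Finset ℤ[X])
    (hF : ∀ f ∈ F, Irreducible f ∧ 0 < f.natDegree ∧ 0 < f.leadingCoeff) (hk : 2 ≤ F.card)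
    (hlin : ∃ f ∈ F, f.natDegree = 1) {C : ℝ}
    (hC : Tendsto (fun y : ℕ => ∏ p ∈ (range (y + 1)).filter Nat.Prime,
        (1 - (omegaF F p : ℝ) / (p : ℝ)) / (1 - 1 / (p : ℝ)) ^ F.card) atTop (𝓝 C))
    {ε : ℝ} (hε : 0 < ε) : ∀ᶠ N : ℕ in atTop,
      (((Icc 1 N).filter (fun n : ℕ => ∀ f ∈ F, (f.eval (n : ℤ)).natAbs.Prime)).card : ℝ) *
          (∏ f ∈ F, Real.log |((f.eval (N : ℤ) : ℤ) : ℝ)|) / (N : ℝ)
        ≤ (1 - 1 / (10000 * (F.card : ℝ))) *
          (2 ^ F.card * F.card.factorial * ∏ f ∈ F, (f.natDegree : ℝ)) * C + ε := by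
  obtain ⟨m, hm⟩ : ∃ m, F.card = m + 1 := ⟨F.card - 1, by omega⟩
  obtain ⟨f0, hf0, hd0⟩ := hlin
  obtain ⟨δ, δ0, δ1, hδ⟩ := exists_delta m
  obtain ⟨η, hη, hev⟩ := system_bound ℤ[X] m (∑ f ∈ F, f.natDegree) (by omega)
  obtain ⟨p₀, hp₀⟩ := exists_no_common_root F hF
  choose! w₀ hw₀ using fun f hf => selberg_sum_lower (hF f hf).1 (hF f hf).2.1 δ0
  have hlc : f0.leadingCoeff = f0.coeff 1 := by rw [leadingCoeff, hd0]
  obtain ⟨a, ha⟩ := Int.eq_ofNat_of_zero_le (hlc ▸ (hF f0 hf0).2.2.le)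
  have ha0 : 0 < a := by have := hlc ▸ (hF f0 hf0).2.2; omega
  have hev0 : ∀ n : ℤ, f0.eval n = a * n + f0.coeff 0 := fun n => by
    conv_lhs => rw [eq_X_add_C_of_natDegree_le_one hd0.le]
    simp [ha]
  set K := ∑ f ∈ F, f.natDegree with hK
  set D := ∏ f ∈ F, (f.natDegree : ℝ) with hD
  set B : ℝ := 2 ^ (m + 1) * (m + 1).factorial with hB
  have D0 : 0 < D := prod_pos fun f hf => Nat.cast_pos.mpr (hF f hf).2.1
  have B0 : 0 < B := by rw [hB]; positivity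
  have e0 : 0 < ε / 2 / (B * D) := div_pos (half_pos hε) (mul_pos B0 D0)
  obtain ⟨w, w1, w2, w3⟩ := ((hC.eventually (gt_mem_nhds (lt_add_of_pos_right C e0))).and
    ((eventually_ge_atTop (F.sup w₀ + p₀ + a + 2 * K + 1)).and
      (tendsto_natCast_atTop_atTop.eventually_ge_atTop (16 * K / δ)))).exists
  set T := (range (w + 1)).filter Nat.Prime with hT
  have hT1 : ∀ p ∈ T, p.Prime := fun p hp => (mem_filter.mp hp).2
  have hT2 : ∀ p, p.Prime → (p ∈ T ↔ p ≤ w) := fun p hp => by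
    rw [hT, mem_filter, mem_range, Nat.lt_succ_iff, and_iff_left hp]
  choose! E hE0 hE using fun f hf => hw₀ f hf w ((le_sup hf).trans (by omega)) (∏ p ∈ T, p)
    (prod_pos fun p hp => (hT1 p hp).pos) fun p hp => (prime_dvd_prod_iff hT1 hp).trans (hT2 p hp)
  obtain ⟨Y0, hY0⟩ := Int.eq_ofNat_of_zero_le (show 0 ≤ (a : ℤ) * (f0.coeff 0).natAbs + f0.coeff 0 by
    have h1 : (1 : ℤ) ≤ a := by exact_mod_cast ha0
    have := neg_abs_le (f0.coeff 0)
    rw [Int.natCast_natAbs]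
    nlinarith only [this, ha0, abs_nonneg (f0.coeff 0)])
  have hg := (eventually_all_finset F).mpr fun f hf => growth f (hF f hf).2.1 δ0
  obtain ⟨n0, hn0⟩ := eventually_atTop.mp hg
  have tN := (tendsto_natCast_atTop_atTop (R := ℝ))
  have tη := (tendsto_rpow_atTop hη).comp tN
  have η1 : 0 < min η (1 / 2) := lt_min hη (by norm_num)
  filter_upwards [hev, hg, eventually_ge_atTop 2,
    tη.eventually_ge_atTop ((Y0 + a : ℕ) + (∏ p ∈ T, p : ℕ)),
    ((Real.tendsto_log_atTop.comp tN).const_mul_atTop hη).eventually_ge_atTop (m * ∑ f ∈ F, E f),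
    (Real.tendsto_sqrt_atTop.comp tN).eventually_ge_atTop
      (w + (((f0.coeff 0).natAbs : ℝ) + n0)),
    eventually_log_pow_le (26 * ((1 + δ) ^ (m + 1) * D) / ε) (m + 1) η1] with N h1 h2 h3 h4 h5 h6 h7
  simp only [Function.comp] at h4 h5 h6
  have N1 : (1 : ℝ) < N := by exact_mod_cast h3
  have N0 : (0 : ℝ) < N := by linarith only [δ0, δ1, N1]
  have L0 := Real.log_pos N1
  have w0 : (0 : ℝ) < w := by exact_mod_cast (by omega : 0 < w)
  have x1 : (0 : ℝ) ≤ (∏ p ∈ T, p : ℕ) := Nat.cast_nonneg _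
  have x2 : (0 : ℝ) ≤ Y0 := Nat.cast_nonneg _
  have x3 : (0 : ℝ) ≤ a := Nat.cast_nonneg _
  have x4 : (0 : ℝ) ≤ ((f0.coeff 0).natAbs : ℝ) + n0 := add_nonneg (Nat.cast_nonneg _)
    (Nat.cast_nonneg _)
  rw [Nat.cast_add] at h4
  have main := h1 F id f0 a (f0.coeff 0) T (f0.coeff 0).natAbs Y0 w (1 - δ) (∑ f ∈ F, E f) hm hf0
    hev0 ha0 hT1 (fun p hp h => (hT2 p hp).mpr ((Nat.le_of_dvd ha0 h).trans (by omega))) hY0.symm
    (by linarith only [h4]) (by linarith only [h4]) ?_ (by omega) (by omega) ?_ (by linarith only [δ1]) (sum_nonneg hE0) h5 ?_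
  rotate_left
  · rw [Nat.cast_add, Nat.cast_mul]
    refine le_trans ?_ (mul_le_mul_of_nonneg_right (show (Y0 : ℝ) + a ≤ _ by linarith only [h4]) N0.le)
    rw [add_mul]
    exact add_le_add_left (le_mul_of_one_le_right x2 N1.le) _
  · intro p hp h
    have := mt (hT2 p hp).mpr h
    refine ⟨by omega, ?_, hp₀ p (by omega)⟩
    exact (sum_le_sum_of_subset (erase_subset _ _)).trans (sum_le_sum fun f hf =>
      omega_le_natDegree ((hF f hf).1.isPrimitive (hF f hf).2.1.ne') hp)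
  · intro f hf y y1 Ps k1 k2
    refine le_trans (mul_le_mul_of_nonneg_left ?_ (mul_nonneg (by linarith only [δ1]) (div_nonneg
      (Nat.cast_nonneg _) x1))) (hE f (mem_of_mem_erase hf) y y1 Ps k1 k2)
    linarith only [single_le_sum hE0 (mem_of_mem_erase hf)]
  have cnt := count_le F T (f0.coeff 0).natAbs N n0 (fun n hn f hf => (hn0 n hn f hf).1)
    fun p hp => by
      have : (p : ℝ) ≤ w := by exact_mod_cast (hT2 p (hT1 p hp)).mp hp
      linarith only [h6, this]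
  have ho : ∀ p, omega (∏ i ∈ F, id i) p = omegaF F p := fun p => by
    simp only [omega, omegaF, eval_prod, id]
  have P0 := euler_nonneg (∏ i ∈ F, id i) T hT1 (m + 1)
  simp only [ho] at main P0
  rw [hm] at w1 ⊢
  have Z0 : 0 < (N : ℝ) ^ min η (1 / 2) := Real.rpow_pos_of_pos N0 _
  have r1 : (N : ℝ) / N ^ η ≤ N / N ^ min η (1 / 2) :=
    div_le_div_of_nonneg_left N0.le Z0 (Real.rpow_le_rpow_of_exponent_le N1.le (min_le_left _ _))
  have r2 : √(N : ℝ) ≤ N / N ^ min η (1 / 2) := by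
    rw [le_div_iff₀ Z0]
    refine le_trans (mul_le_mul_of_nonneg_left ?_ (Real.sqrt_nonneg _))
      (Real.mul_self_sqrt N0.le).le
    rw [Real.sqrt_eq_rpow]
    exact Real.rpow_le_rpow_of_exponent_le N1.le (min_le_right _ _)
  have θ0 : 0 ≤ (1 + δ) ^ (m + 1) := pow_nonneg (by linarith only [δ0, δ1]) _
  have m1 : (1 : ℝ) ≤ 10000 * ((m : ℝ) + 1) := by linarith only [δ0, δ1, (Nat.cast_nonneg m : (0 : ℝ) ≤ m)]
  have γ0 : 0 < (1 + 1 / (9400 * ((m : ℝ) + 1))) * (1 - δ) ^ m :=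
    mul_pos (add_pos one_pos (one_div_pos.mpr (by linarith only [δ0, δ1]))) (pow_pos (by linarith only [δ1]) _)
  rw [Nat.cast_succ]
  refine final_arith (R := 13 / N ^ min η (1 / 2)) (θ := (1 + δ) ^ (m + 1)) (k := m + 1) (B := B)
    (A := Real.exp (16 * K / w) / ((1 + 1 / (9400 * ((m : ℝ) + 1))) * (1 - δ) ^ m)) N0 L0
    (cnt.trans ((add_le_add_left main _).trans ?_)) (Nat.cast_nonneg _) ?_ θ0 D0.le B0.le P0
    (le_trans (mul_le_mul_of_nonneg_right (div_le_div_of_nonneg_right ?_ γ0.le) θ0) hδ)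
    (sub_nonneg.mpr (div_le_one_of_le₀ m1 (by linarith only [δ0, δ1]))) (sub_le_self _ (by positivity))
    e0.le w1.le (mul_div_cancel₀ _ (mul_pos B0 D0).ne').le ?_
  · rw [add_assoc, div_mul_comm (13 : ℝ)]
    refine add_le_add_right ?_ _
    linarith only [h6, w0, r1, r2]
  · rw [hD, ← hm, ← prod_const, ← prod_const, ← prod_mul_distrib, ← prod_mul_distrib]
    refine prod_le_prod (fun f hf => Real.log_nonneg ?_) fun f hf => (h2 f hf).2
    have : (2 : ℝ) ≤ N := by exact_mod_cast h3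
    linarith only [this, (h2 f hf).1]
  · refine Real.exp_le_exp.mpr ?_
    rw [div_le_iff₀ w0]
    rw [div_le_iff₀ δ0] at w3
    linarith only [w3]
  · have : Real.log N ^ (m + 1) ≤ (2 + 2 * Real.log N) ^ (m + 1) :=
      pow_le_pow_left₀ L0.le (by linarith only [δ0, δ1, L0]) _
    have := (mul_le_mul_of_nonneg_left this (div_nonneg (mul_nonneg (by norm_num)
      (mul_nonneg θ0 D0.le)) hε.le)).trans h7
    rw [div_mul_eq_mul_div, div_le_iff₀ hε] at this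
    rw [div_mul_eq_mul_div, div_le_iff₀ Z0]
    linarith only [this]

end Pool.Agent.Work.MP_51e72e_nt
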