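import Pool.Agent.Work.MP_51e72e_nt.CubSieve
import Pool.Agent.Work.MP_51e72e_nt.Final
import Pool.Agent.Lib.ANT.Mertens

/-!
Lower bound for the enlarged Selberg sum.
-/

set_option autoImplicit false

namespace Pool.Agent.Work.MP_51e72e_nt.Cub

open Finset Filter Topology Pool.Agent.Lib.ANT

lemma sqfSum_subset {Q Ps : Finset ℕ} (h : Q ⊆ Ps) {g : ℕ → ℝ} (hg : ∀ p ∈ Ps, 0 ≤ g p) (x : ℝ) :
    sqfSum Q g x ≤ sqfSum Ps g x := by
  refine sum_le_sum_of_subset_of_nonneg (powerset_mono.mpr h) fun T hT _ => ?_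
  split_ifs
  · exact prod_nonneg fun p hp => hg p (mem_powerset.mp hT hp)
  · exact le_rfl

lemma sqfSum_le_sdiff {Ps : Finset ℕ} {g : ℕ → ℝ} (hg : ∀ p ∈ Ps, 0 ≤ g p) {x x' : ℝ}
    (A : Finset ℕ) (hA : A ⊆ Ps) (hx : ∀ p ∈ A, 0 < p ∧ x / p ≤ x') :
    sqfSum Ps g x ≤ sqfSum (Ps \ A) g x + (∑ p ∈ A, g p) * sqfSum Ps g x' := by
  induction A using Finset.induction_on with
  | empty => simp
  | insert p A hp ih =>
    have hpP : p ∈ Ps := hA (mem_insert_self _ _)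
    have h1 := ih ((subset_insert _ _).trans hA) fun q hq => hx q (mem_insert_of_mem hq)
    have h2 : Ps \ A = insert p (Ps \ insert p A) := by
      ext q
      simp only [Finset.mem_sdiff, mem_insert]
      by_cases hq : q = p
      · subst hq; tauto
      · tauto
    obtain ⟨p0, hxp⟩ := hx p (mem_insert_self _ _)
    rw [h2, sqfSum_insert (by simp) p0] at h1
    have h3 : sqfSum (Ps \ insert p A) g (x / p) ≤ sqfSum Ps g x' :=
      (sqfSum_subset sdiff_subset hg _).trans (sqfSum_mono hg (fun _ _ => le_rfl) hxp)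
    have h4 := mul_le_mul_of_nonneg_left h3 (hg p hpP)
    rw [sum_insert hp]
    linarith only [h1, h4]

lemma hh_bounds {f : Polynomial ℤ} (hf : f.IsPrimitive) (hd : f.natDegree = 3) {p : ℕ}
    (hp : p.Prime) (h : 12 ≤ p) :
    (omega f p : ℝ) * (p : ℝ)⁻¹ ≤ hh f p ∧ hh f p ≤ 4 * (p : ℝ)⁻¹ := by
  have h1 : (omega f p : ℝ) ≤ 3 := by exact_mod_cast hd ▸ omega_le_natDegree hf hp
  have h2 : (12 : ℝ) ≤ p := by exact_mod_cast h
  have h0 : (0 : ℝ) ≤ omega f p := Nat.cast_nonneg _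
  unfold hh
  rw [← div_eq_mul_inv, ← div_eq_mul_inv]
  refine ⟨div_le_div_of_nonneg_left h0 (by linarith only [h1, h2]) (by linarith), ?_⟩
  rw [div_le_div_iff₀ (by linarith) (by linarith)]
  linarith only [h1, h2, mul_nonneg_of_nonpos_of_nonpos (Mathlib.Tactic.Linarith.sub_nonpos_of_le (Mathlib.Tactic.Linarith.natCast_nonneg ℝ p)) (Mathlib.Tactic.Linarith.sub_nonpos_of_le h1)]

lemma hh_nonneg {f : Polynomial ℤ} (hf : f.IsPrimitive) (hd : f.natDegree = 3) {p : ℕ}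
    (hp : p.Prime) (h : 12 ≤ p) : 0 ≤ hh f p :=
  le_trans (by positivity) (hh_bounds hf hd hp h).1

/-- the sieving primes -/
noncomputable def psOf (W : ℕ) (z : ℝ) : Finset ℕ :=
  ((range (⌊z⌋₊ + 1)).filter Nat.Prime).filter fun p => ¬ p ∣ W

lemma mem_psOf {W p : ℕ} {z : ℝ} (hz : 0 ≤ z) :
    p ∈ psOf W z ↔ p.Prime ∧ (p : ℝ) ≤ z ∧ ¬ p ∣ W := by
  rw [psOf, mem_filter, mem_filter, mem_range, Nat.lt_succ_iff, Nat.le_floor_iff hz]
  tauto

lemma sqfSum_psOf (f : Polynomial ℤ) {w W : ℕ} (hW : ∀ p : ℕ, p.Prime → (p ∣ W ↔ p ≤ w))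
    {x z : ℝ} (hx : 0 < x) (hxz : x ≤ z) :
    sqfSum (psOf W z) (hh f) x = selSum (omega f) w (Real.log x) := by
  rw [selSum_eq (omega f) hW hx ((range (⌊z⌋₊ + 1)).filter Nat.Prime)
    (fun p hp => (mem_filter.mp hp).2) (fun p hp h => mem_filter.mpr
      ⟨mem_range.mpr (Nat.lt_succ_of_le (Nat.le_floor (h.trans hxz))), hp⟩),
    ← sqfSum_filter_of_eq_zero _ _ (fun p => ¬ p ∣ W) fun p _ h => if_pos (not_not.mp h)]
  refine sum_congr rfl fun T hT => ?_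
  congr 1
  refine prod_congr rfl fun p hp => ?_
  exact (if_neg (mem_filter.mp (mem_powerset.mp hT hp)).2).symm

lemma tendsto_pow_nat {k : ℕ} (hk : k ≠ 0) : Tendsto (fun B : ℕ => B ^ k) atTop atTop :=
  tendsto_atTop_mono (fun B => Nat.le_self_pow hk B) tendsto_id

lemma tendsto_logB : Tendsto (fun B : ℕ => Real.log B) atTop atTop :=
  Real.tendsto_log_atTop.comp tendsto_natCast_atTop_atTop

lemma H_bounds {f : Polynomial ℤ} (hf : Irreducible f) (hd : f.natDegree = 3) :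
    ∀ᶠ B : ℕ in atTop,
      28 / 10 ^ 6 ≤ ∑ p ∈ (Ioc (B ^ 349980) (B ^ 349990)).filter Nat.Prime, hh f p ∧
      ∑ p ∈ (Ioc (B ^ 349980) (B ^ 349990)).filter Nat.Prime, hh f p ≤ 12 / 10 ^ 5 := by
  have hprim := hf.isPrimitive (by omega)
  obtain ⟨L, hL⟩ := tendsto_sum_omega hf (by omega)
  have h0 : ∀ k : ℕ, k ≠ 0 → Tendsto (fun B : ℕ =>
      ∑ n ∈ range (B ^ k + 1), ((omega f n : ℝ) - 1) * pw n) atTop (𝓝 L) :=
    fun k hk => (hL.comp (tendsto_pow_nat hk) :)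
  have h1 := (h0 349990 (by norm_num)).sub (h0 349980 (by norm_num))
  rw [sub_self] at h1
  filter_upwards [h1.eventually (lt_mem_nhds (show (-1 / 10 ^ 7 : ℝ) < 0 by norm_num)),
    tendsto_logB.eventually_ge_atTop (10 ^ 4), eventually_ge_atTop 12] with B a b c
  have B3 : 1 ≤ B := le_trans (by norm_num) c
  have hPP : B ^ 349980 ≤ B ^ 349990 := pow_le_pow_right₀ B3 (by norm_num)
  have hP : 12 ≤ B ^ 349980 := c.trans (le_self_pow₀ B3 (by norm_num))
  have m := abs_le.mp (abs_sum_inv_prime_Ioc_sub_le _ _ (le_trans (by norm_num) hP) hPP)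
  simp only [Nat.cast_pow, Real.log_pow, Nat.cast_ofNat] at m
  have u0 : 0 < Real.log B := by linarith only [b]
  rw [← Real.log_div (by positivity) (by positivity), mul_div_mul_right _ _ u0.ne'] at m
  have l1 := Real.one_sub_inv_le_log_of_pos (show (0 : ℝ) < 349990 / 349980 by norm_num)
  have l2 := Real.log_le_sub_one_of_pos (show (0 : ℝ) < 349990 / 349980 by norm_num)
  have l3 : 48 / (349980 * Real.log B) ≤ 1 / 10 ^ 7 := by
    rw [div_le_iff₀ (by positivity)]; linarith only [b]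
  have hm : ∀ p ∈ (Ioc (B ^ 349980) (B ^ 349990)).filter Nat.Prime, p.Prime ∧ 12 ≤ p :=
    fun p hp => ⟨(mem_filter.mp hp).2, hP.trans (mem_Ioc.mp (mem_filter.mp hp).1).1.le⟩
  constructor
  · rw [← sum_Ico_eq_sub _ (Nat.add_le_add_right hPP 1), Ico_add_one_add_one_eq_Ioc] at a
    have e : ∑ n ∈ Ioc (B ^ 349980) (B ^ 349990), ((omega f n : ℝ) - 1) * pw n =
        ∑ p ∈ (Ioc (B ^ 349980) (B ^ 349990)).filter Nat.Prime, (omega f p : ℝ) * (p : ℝ)⁻¹ -
        ∑ p ∈ (Ioc (B ^ 349980) (B ^ 349990)).filter Nat.Prime, (p : ℝ)⁻¹ := by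
      rw [← sum_sub_distrib, sum_filter]
      refine sum_congr rfl fun n _ => ?_
      unfold pw
      split_ifs
      · ring
      · ring
    have s := sum_le_sum fun p hp => (hh_bounds hprim hd (hm p hp).1 (hm p hp).2).1
    norm_num at l1 l3 a ⊢
    linarith only [m, e, s, l1, l3, a, m.1]
  · have s := sum_le_sum fun p hp => (hh_bounds hprim hd (hm p hp).1 (hm p hp).2).2
    rw [← mul_sum] at s
    norm_num at l2 l3 ⊢
    linarith only [m, s, l2, l3, m.2]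

lemma tendsto_scale {F : ℝ → ℝ} {c a : ℝ} (ha : 0 < a)
    (h : Tendsto (fun u => F u / u) atTop (𝓝 c)) :
    Tendsto (fun B : ℕ => F (a * Real.log B) / Real.log B) atTop (𝓝 (a * c)) := by
  refine ((h.comp (tendsto_logB.const_mul_atTop ha)).const_mul a).congr fun B => ?_
  simp only [Function.comp]
  rw [← mul_div_assoc, mul_div_mul_left _ _ ha.ne']

lemma GG_lower {f : Polynomial ℤ} (hf : Irreducible f) (hd : f.natDegree = 3) {w W : ℕ}
    (hw : 12 ≤ w) (hW : ∀ p : ℕ, p.Prime → (p ∣ W ↔ p ≤ w)) {c : ℝ} (hc : 0 < c)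
    (h : Tendsto (fun u => selSum (omega f) w u / u) atTop (𝓝 c)) :
    ∀ᶠ B : ℕ in atTop, ∀ z : ℝ, Real.log z = (714975 - 1 / 10 ^ 5) * Real.log B →
      ((B ^ 365005 : ℕ) : ℝ) ≤ z →
      (714975 + 15 / 10 ^ 5) * c * Real.log B ≤
        GG f (psOf W z) ((Ioc (B ^ 349980) (B ^ 349990)).filter Nat.Prime) z
          (B ^ 364995) (B ^ 365005) := by
  have hprim := hf.isPrimitive (by omega)
  have t1 := tendsto_scale (a := 714975 - 1 / 10 ^ 5) (by norm_num) h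
  have t2 := ((tendsto_scale (a := 365005) (by norm_num) h).sub
    (tendsto_scale (a := 364995) (by norm_num) h)).sub
    ((tendsto_scale (a := 15025) (by norm_num) h).const_mul (12 / 10 ^ 5))
  filter_upwards [t1.eventually (lt_mem_nhds (show (714975 - 2 / 10 ^ 5) * c < _ by linarith only [hc])),
    t2.eventually (lt_mem_nhds (show 8 * c < _ by linarith only [hc])), H_bounds hf hd,
    eventually_gt_atTop w] with B a b ⟨H1, H2⟩ hB z hz hz'
  have B2 : 1 < B := lt_of_le_of_lt (le_trans (by norm_num) hw) hB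
  have B3 : 0 < B := B2.le
  have B1 : (1 : ℝ) < B := by exact_mod_cast B2
  have u0 := Real.log_pos B1
  have z0 : 0 < z := lt_of_lt_of_le (by positivity) hz'
  have hle : ∀ k : ℕ, k ≤ 365005 → ((B ^ k : ℕ) : ℝ) ≤ z := fun k hk =>
    le_trans (Nat.cast_le.mpr (pow_le_pow_right₀ B2.le hk)) hz'
  have hS : ∀ k : ℕ, k ≤ 365005 → sqfSum (psOf W z) (hh f) ((B ^ k : ℕ) : ℝ) =
      selSum (omega f) w (k * Real.log B) := fun k hk => by
    rw [sqfSum_psOf f hW (by positivity) (hle k hk), Nat.cast_pow, Real.log_pow]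
  have hg : ∀ p ∈ psOf W z, 0 ≤ hh f p := fun p hp => by
    obtain ⟨p1, -, p3⟩ := (mem_psOf z0.le).mp hp
    exact hh_nonneg hprim hd p1 (hw.trans (not_le.mp (mt (hW p p1).mpr p3)).le)
  have hsub : (Ioc (B ^ 349980) (B ^ 349990)).filter Nat.Prime ⊆ psOf W z := fun p hp => by
    obtain ⟨p1, p2⟩ := mem_filter.mp hp
    obtain ⟨p3, p4⟩ := mem_Ioc.mp p1
    refine (mem_psOf z0.le).mpr ⟨p2, (Nat.cast_le.mpr p4).trans (hle _ (by norm_num)), fun hh => ?_⟩
    exact absurd ((hW p p2).mp hh)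
      (not_le.mpr ((hB.trans_le (le_self_pow₀ B2.le (by norm_num))).trans p3))
  have s1 := sqfSum_le_sdiff hg (x := ((B ^ 365005 : ℕ) : ℝ)) (x' := ((B ^ 15025 : ℕ) : ℝ)) _ hsub
    fun p hp => by
      obtain ⟨p1, p2⟩ := mem_filter.mp hp
      refine ⟨p2.pos, ?_⟩
      rw [div_le_iff₀ (by exact_mod_cast p2.pos)]
      calc ((B ^ 365005 : ℕ) : ℝ) = ((B ^ 15025 : ℕ) : ℝ) * ((B ^ 349980 : ℕ) : ℝ) := by
            rw [← Nat.cast_mul, ← pow_add]
        _ ≤ _ := by gcongr; exact (mem_Ioc.mp p1).1.le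
  have s2 := sqfSum_subset (sdiff_subset (t := (Ioc (B ^ 349980) (B ^ 349990)).filter Nat.Prime))
    hg ((B ^ 364995 : ℕ) : ℝ)
  have s3 := sqfSum_nonneg hg ((B ^ 15025 : ℕ) : ℝ)
  rw [hS _ (by norm_num)] at s2 s3
  rw [hS _ (by norm_num), hS _ (by norm_num)] at s1
  unfold GG
  rw [sqfSum_psOf f hW z0 le_rfl, hz]
  simp only [Nat.cast_ofNat] at s1 s2 s3
  rw [lt_div_iff₀ u0] at a
  rw [← mul_div_assoc, ← sub_div, ← sub_div, lt_div_iff₀ u0] at b
  have cu : 0 < c * Real.log B := mul_pos hc u0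
  generalize ∑ p ∈ (Ioc (B ^ 349980) (B ^ 349990)).filter Nat.Prime, hh f p = H at *
  generalize sqfSum _ _ ((B ^ 365005 : ℕ) : ℝ) = S1 at *
  generalize sqfSum _ _ ((B ^ 364995 : ℕ) : ℝ) = S0 at *
  have k1 := mul_le_mul_of_nonneg_right H2 s3
  have k2 : 8 * (c * Real.log B) ≤ S1 - S0 := by linarith only [b, s1, s2, k1]
  have k3 : 28 / 10 ^ 6 * (8 * (c * Real.log B)) ≤ H * (S1 - S0) :=
    mul_le_mul H1 k2 (by positivity) (by linarith only [H1])
  linarith only [a, cu, k3]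

lemma prod_hh_le {f : Polynomial ℤ} (hf : f.IsPrimitive) (hd : f.natDegree = 3) (Ps : Finset ℕ)
    {M : ℕ} (hM : 2 ≤ M) (hPs : ∀ p ∈ Ps, p.Prime ∧ 12 ≤ p ∧ p ≤ M) :
    ∏ p ∈ Ps, (1 + hh f p) ≤ Real.exp 288 * Real.log M ^ 4 := by
  have h1 := (abs_le.mp (abs_sum_inv_prime_sub_loglog_le M hM)).2
  have h2 : ∑ p ∈ Ps, (p : ℝ)⁻¹ ≤ ∑ p ∈ (Ioc 0 M).filter Nat.Prime, (p : ℝ)⁻¹ :=
    sum_le_sum_of_subset_of_nonneg (fun p hp => mem_filter.mpr
      ⟨mem_Ioc.mpr ⟨(hPs p hp).1.pos, (hPs p hp).2.2⟩, (hPs p hp).1⟩) fun _ _ _ => by positivity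
  have hl : 0 < Real.log M := Real.log_pos (by exact_mod_cast hM)
  calc _ ≤ ∏ p ∈ Ps, Real.exp (4 * (p : ℝ)⁻¹) := by
        refine prod_le_prod (fun p hp => ?_) fun p hp => ?_
        · linarith only [hf, hd, hPs, hp, hh_nonneg hf hd (hPs p hp).1 (hPs p hp).2.1]
        · linarith only [hf, hd, hPs, hp, (hh_bounds hf hd (hPs p hp).1 (hPs p hp).2.1).2,
            Real.add_one_le_exp (4 * (p : ℝ)⁻¹)]
    _ ≤ Real.exp (288 + (4 : ℕ) * Real.log (Real.log M)) := by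
        rw [← Real.exp_sum, ← mul_sum, Real.exp_le_exp]
        push_cast
        linarith only [h1, h2]
    _ = _ := by rw [Real.exp_add, Real.exp_nat_mul, Real.exp_log hl]

end Pool.Agent.Work.MP_51e72e_nt.Cub
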