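import Pool.Agent.Work.MP_51e72e_nt.CubSieve1

/-!
The sieve weight with a product region and the abstract bound for its remainder.
-/

set_option autoImplicit false

namespace Pool.Agent.Work.MP_51e72e_nt.Cub.Sv

open Finset Pool.Agent.Lib.ANT

noncomputable section

/-- hypotheses on the remainder functional -/
structure Hyp (ρ : (Finset ℕ → ℝ) →ₗ[ℝ] ℝ) (h : ℕ → ℝ) (Ps Pw : Finset ℕ) (D Ω M0 M1 P1 : ℕ)
    (Λ B E : ℝ) : Prop where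
  prime : ∀ p ∈ Ps, p.Prime
  sub : Pw ⊆ Ps
  h0 : ∀ p ∈ Ps, 0 ≤ h p
  hΛ : ∏ p ∈ Ps, (1 + h p) ≤ Λ
  hD : ∀ U ⊆ Ps, pr U ≤ Ω → 2 ^ U.card ≤ D
  hP : ∀ p ∈ Pw, p ≤ P1
  hM : M1 ≤ Ω
  B0 : 0 ≤ B
  H1 : ∀ T ⊆ Ps, pr T ≤ Ω → |ρ (ind T)| ≤ B
  H2 : ∀ T ⊆ Ps, pr T ≤ Ω → ∀ p ∈ Pw, p ∉ T → |ρ (ind (insert p T))| ≤ 3 * B
  H3 : ∀ (A : ℝ) (c : Finset ℕ → ℝ), 0 < A → (∀ T, |c T| ≤ A * (D ^ 2 : ℕ)) →
    |∑ T ∈ Ps.powerset with M0 ≤ pr T ∧ pr T ≤ M1, ∑ p ∈ Pw,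
      if p ∈ T then 0 else c T * (1 + h p) * ρ (ind (insert p T))| ≤ A * Λ * E

variable {ρ : (Finset ℕ → ℝ) →ₗ[ℝ] ℝ} {h : ℕ → ℝ} {Ps Pw : Finset ℕ} {D Ω M0 M1 P1 : ℕ}
  {Λ B E : ℝ} {X : Finset ℕ → ℝ}

lemma prod_le_of_sub (h0 : ∀ p ∈ Ps, 0 ≤ h p) (hΛ : ∏ p ∈ Ps, (1 + h p) ≤ Λ) {Q : Finset ℕ}
    (hQ : Q ⊆ Ps) : ∏ p ∈ Q, (1 + h p) ≤ Λ :=
  (prod_le_prod_of_subset_of_one_le hQ (fun p hp => by linarith [h0 p (hQ hp)])
    fun p hp _ => by linarith [h0 p hp]).trans hΛ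

lemma abs_le_of_mem (h0 : ∀ p ∈ Ps, 0 ≤ h p) (hΛ : ∏ p ∈ Ps, (1 + h p) ≤ Λ) {p : ℕ}
    (hp : p ∈ Ps) : |1 + h p| ≤ Λ := by
  rw [abs_of_nonneg (by linarith [h0 p hp])]
  simpa using prod_le_of_sub h0 hΛ (singleton_subset_iff.2 hp)

lemma sum_le_prod {Q : Finset ℕ} (h0 : ∀ p ∈ Q, 0 ≤ h p) :
    1 + ∑ p ∈ Q, h p ≤ ∏ p ∈ Q, (1 + h p) := by
  induction Q using Finset.induction_on with
  | empty => simp
  | insert p Q hp ih =>
    have a1 := ih fun q hq => h0 q (mem_insert_of_mem hq)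
    have a2 := h0 p (mem_insert_self _ _)
    have a3 := sum_nonneg fun q hq => h0 q (mem_insert_of_mem hq)
    rw [sum_insert hp, prod_insert hp]
    nlinarith

lemma Hyp.one_le (H : Hyp ρ h Ps Pw D Ω M0 M1 P1 Λ B E) : 1 ≤ Λ := by
  simpa using prod_le_of_sub H.h0 H.hΛ (empty_subset _)

lemma Hyp.rem_le (H : Hyp ρ h Ps Pw D Ω M0 M1 P1 Λ B E) {C M : ℝ} (hX : Rep Ps X C M)
    (h0 : 0 ≤ M) (hM : M ≤ Ω) : |ρ X| ≤ M * (C * B) := by
  have C0 := hX.nonneg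
  obtain ⟨c, h1, h2, rfl⟩ := hX
  rw [map_sum]
  refine sum_le_of_level H.prime (mul_nonneg C0 H.B0) h0 fun T hT h3 => ?_
  rw [map_smul, smul_eq_mul] at h3 ⊢
  have h4 := h2 T (left_ne_zero_of_mul h3)
  rw [abs_mul]
  exact ⟨h4, mul_le_mul (h1 T) (H.H1 T hT (Nat.cast_le.1 (h4.trans hM))) (abs_nonneg _) C0⟩

lemma Hyp.rem_Pi (H : Hyp ρ h Ps Pw D Ω M0 M1 P1 Λ B E) {A : ℝ} (hA : 0 < A)
    (hX : Rep Ps X (A * (D ^ 2 : ℕ)) M1) : |ρ (X * PiW h Pw)| ≤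
      M1 * (D * (A * (D ^ 2 : ℕ) * Λ * B)) + M0 * (P1 * (A * (D ^ 2 : ℕ) * Λ * (3 * B))) +
        A * Λ * E := by
  have C0 := hX.nonneg
  have Λ1 := H.one_le
  have B0 := H.B0
  obtain ⟨c, h1, h2, rfl⟩ := hX
  have h3 := H.H3 A c hA h1
  generalize A * (D ^ 2 : ℕ) = C at *
  have hc : ∀ T, ∀ p ∈ Pw, |c T * (1 + h p)| ≤ C * Λ := fun T p hp => by
    rw [abs_mul]
    exact mul_le_mul (h1 T) (abs_le_of_mem H.h0 H.hΛ (H.sub hp)) (abs_nonneg _) C0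
  have hΩ : ∀ T, c T ≠ 0 → pr T ≤ Ω := fun T h0 => (Nat.cast_le.1 (h2 T h0)).trans H.hM
  have e : ρ ((∑ T ∈ Ps.powerset, c T • ind T) * PiW h Pw) =
      ∑ T ∈ Ps.powerset, (∑ p ∈ Pw with p ∈ T, c T * (1 + h p) * ρ (ind T)) +
      ∑ T ∈ Ps.powerset, (if pr T < M0 then ∑ p ∈ Pw,
        if p ∈ T then 0 else c T * (1 + h p) * ρ (ind (insert p T)) else 0) +
      ∑ T ∈ Ps.powerset with M0 ≤ pr T ∧ pr T ≤ M1, ∑ p ∈ Pw,
        if p ∈ T then 0 else c T * (1 + h p) * ρ (ind (insert p T)) := by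
    rw [mul_PiW, map_sum, sum_filter, ← sum_add_distrib, ← sum_add_distrib]
    refine sum_congr rfl fun T _ => ?_
    by_cases h0 : c T = 0
    · simp [h0]
    have e1 : ρ (∑ p ∈ Pw, (c T * (1 + h p)) • ind (insert p T)) =
        ∑ p ∈ Pw with p ∈ T, c T * (1 + h p) * ρ (ind T) + ∑ p ∈ Pw,
        if p ∈ T then 0 else c T * (1 + h p) * ρ (ind (insert p T)) := by
      rw [map_sum, sum_filter, ← sum_add_distrib]
      refine sum_congr rfl fun p _ => ?_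
      rw [map_smul, smul_eq_mul]
      split_ifs with hp
      · rw [insert_eq_of_mem hp, add_zero]
      · rw [zero_add]
    have h4 : pr T ≤ M1 := Nat.cast_le.1 (h2 T h0)
    rw [e1]
    by_cases h5 : pr T < M0
    · rw [if_pos h5, if_neg fun h6 => absurd h5 (not_lt.2 h6.1), add_zero]
    · rw [if_neg h5, if_pos ⟨not_lt.1 h5, h4⟩, add_zero]
  rw [e]
  refine (abs_add_le _ _).trans (add_le_add ((abs_add_le _ _).trans (add_le_add ?_ ?_)) h3)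
  · refine sum_le_of_level H.prime (by positivity) (Nat.cast_nonneg _) fun T hT h4 => ?_
    have h0 : c T ≠ 0 := fun h0 => h4 (by simp [h0])
    refine ⟨h2 T h0, (abs_sum_le_sum_abs _ _).trans
      ((sum_le_card_nsmul _ _ (C * Λ * B) fun p hp => ?_).trans ?_)⟩
    · rw [abs_mul]
      exact mul_le_mul (hc T p (mem_filter.1 hp).1) (H.H1 T hT (hΩ T h0)) (abs_nonneg _)
        (by positivity)
    · rw [nsmul_eq_mul]
      gcongr
      exact ((card_le_card fun p hp => (mem_filter.1 hp).2).trans Nat.lt_two_pow_self.le).trans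
        (H.hD T hT (hΩ T h0))
  · refine sum_le_of_level H.prime (by positivity) (Nat.cast_nonneg _) fun T hT h4 => ?_
    have h0 : c T ≠ 0 := fun h0 => h4 (by simp [h0])
    have h5 : pr T < M0 := by
      by_contra h5
      exact h4 (if_neg h5)
    rw [if_pos h5]
    refine ⟨Nat.cast_le.2 h5.le, (abs_sum_le_sum_abs _ _).trans
      ((sum_le_card_nsmul _ _ (C * Λ * (3 * B)) fun p hp => ?_).trans ?_)⟩
    · split_ifs with h6
      · rw [abs_zero]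
        positivity
      · rw [abs_mul]
        exact mul_le_mul (hc T p hp) (H.H2 T hT (hΩ T h0) p hp h6) (abs_nonneg _) (by positivity)
    · rw [nsmul_eq_mul]
      gcongr
      rw [← Nat.add_sub_cancel P1 1, ← Nat.card_Icc]
      exact card_le_card fun p hp => mem_Icc.2 ⟨(H.prime p (H.sub hp)).pos, H.hP p hp⟩

/-- the classical region -/
def D0 (Ps : Finset ℕ) (z : ℝ) : Finset (Finset ℕ) := Ps.powerset.filter fun l => (pr l : ℝ) ≤ z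

/-- the cofactors in the product region -/
def D1 (Q : Finset ℕ) (Z0 Z1 : ℕ) : Finset (Finset ℕ) :=
  Q.powerset.filter fun l => Z0 < pr l ∧ pr l ≤ Z1

/-- the sieve weight -/
def Phi (h : ℕ → ℝ) (Ps Pw : Finset ℕ) (z : ℝ) (Z0 Z1 : ℕ) : Finset ℕ → ℝ :=
  ∑ i ∈ (D0 Ps z).disjSum (Pw ×ˢ D1 (Ps \ Pw) Z0 Z1),
    ph h (Sum.elim id (fun x => insert x.1 x.2) i)

variable {z : ℝ} {Z0 Z1 : ℕ}

lemma not_mem_of_D1 {l : Finset ℕ} (hl : l ∈ D1 (Ps \ Pw) Z0 Z1) : ∀ q ∈ l, q ∉ Pw := fun _ hq =>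
  (mem_sdiff.1 (mem_powerset.1 (mem_filter.1 hl).1 hq)).2

lemma Phi_eq : Phi h Ps Pw z Z0 Z1 = (∑ l ∈ D0 Ps z, ph h l +
    (∑ p ∈ Pw, h p) • ∑ l ∈ D1 (Ps \ Pw) Z0 Z1, ph h l) -
      (∑ l ∈ D1 (Ps \ Pw) Z0 Z1, ph h l) * PiW h Pw := by
  rw [Phi, sum_disjSum, sum_product, add_sub_assoc, PiW, mul_sum, sum_smul, ← sum_sub_distrib]
  congr 1
  refine sum_congr rfl fun p hp => ?_
  rw [smul_sum, sum_mul, ← sum_sub_distrib]
  refine sum_congr rfl fun l hl => ?_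
  funext S
  simp only [Sum.elim_inr, Pi.sub_apply, Pi.smul_apply, Pi.mul_apply, smul_eq_mul, ind,
    singleton_subset_iff]
  rw [ph, prod_insert fun h1 => not_mem_of_D1 hl p h1 hp, ← ph]
  split_ifs <;> ring

lemma ph_empty (l : Finset ℕ) : ph h l ∅ = ∏ p ∈ l, h p := by simp [ph]

lemma Phi_empty (hZ : Z0 ≤ Z1) : Phi h Ps Pw z Z0 Z1 ∅ = sqfSum Ps h z +
    (∑ p ∈ Pw, h p) * (sqfSum (Ps \ Pw) h Z1 - sqfSum (Ps \ Pw) h Z0) := by
  have e : PiW h Pw ∅ = 0 := by simp [PiW, ind, Finset.sum_apply]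
  rw [Phi_eq]
  simp only [Pi.sub_apply, Pi.add_apply, Pi.mul_apply, Pi.smul_apply, e, mul_zero, sub_zero,
    Finset.sum_apply, ph_empty, smul_eq_mul]
  rw [D0, D1, sum_filter, sum_filter, sqfSum, sqfSum, sqfSum, ← sum_sub_distrib]
  refine congrArg₂ _ rfl (congrArg _ (sum_congr rfl fun l _ => ?_))
  simp only [Nat.cast_le, pr]
  split_ifs <;> first | omega | simp

lemma one_le_Phi_empty (h0 : ∀ p ∈ Ps, 0 ≤ h p) (hPw : Pw ⊆ Ps) (hz : 1 ≤ z) :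
    1 ≤ Phi h Ps Pw z Z0 Z1 ∅ := by
  rw [Phi, Finset.sum_apply]
  refine le_trans ?_ (single_le_sum (a := Sum.inl ∅) (fun i hi => ?_) ?_)
  · simp [ph]
  · rw [ph_empty]
    refine prod_nonneg fun p hp => h0 p ?_
    rcases i with l | x
    · exact mem_powerset.1 (mem_filter.1 (inl_mem_disjSum.1 hi)).1 hp
    · have := mem_product.1 (inr_mem_disjSum.1 hi)
      exact insert_subset (hPw this.1)
        ((mem_powerset.1 (mem_filter.1 this.2).1).trans sdiff_subset) hp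
  · simpa [D0, pr] using hz

lemma EX_Phi {g : ℕ → ℝ} (hg : ∀ p ∈ Ps, (1 - g p) * h p = g p) (hPw : Pw ⊆ Ps) {P0 : ℕ}
    (hP : ∀ p ∈ Pw, P0 < p) (h1 : z ≤ P0 * Z0) :
    EX g Ps (Phi h Ps Pw z Z0 Z1 * Phi h Ps Pw z Z0 Z1) = Phi h Ps Pw z Z0 Z1 ∅ := by
  have key : ∀ l ∈ D0 Ps z, ∀ x ∈ Pw ×ˢ D1 (Ps \ Pw) Z0 Z1, l ≠ insert x.1 x.2 := by
    rintro _ hl x hx rfl
    have a1 := (mem_filter.1 hl).2
    have a2 := mem_product.1 hx
    have a3 : pr (insert x.1 x.2) = x.1 * pr x.2 :=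
      prod_insert fun h1 => not_mem_of_D1 a2.2 _ h1 a2.1
    have a4 : P0 * Z0 < x.1 * pr x.2 := Nat.mul_lt_mul'' (hP _ a2.1) (mem_filter.1 a2.2).2.1
    have a5 : ((P0 * Z0 : ℕ) : ℝ) < (x.1 * pr x.2 : ℕ) := Nat.cast_lt.2 a4
    rw [a3] at a1
    push_cast at a1 a5
    linarith
  refine EX_sq hg _ _ (fun i hi => ?_) fun i hi j hj e => ?_
  · rcases i with l | x
    · exact mem_powerset.1 (mem_filter.1 (inl_mem_disjSum.1 hi)).1
    · have := mem_product.1 (inr_mem_disjSum.1 hi)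
      exact insert_subset (hPw this.1) ((mem_powerset.1 (mem_filter.1 this.2).1).trans sdiff_subset)
  · rcases i with l | x <;> rcases j with l' | x'
    · exact congrArg Sum.inl e
    · exact absurd e (key l (inl_mem_disjSum.1 hi) x' (inr_mem_disjSum.1 hj))
    · exact absurd e.symm (key l' (inl_mem_disjSum.1 hj) x (inr_mem_disjSum.1 hi))
    · have a1 := mem_product.1 (inr_mem_disjSum.1 hi)
      have a2 := mem_product.1 (inr_mem_disjSum.1 hj)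
      have := insert_inj a1.1 a2.1 (not_mem_of_D1 a1.2) (not_mem_of_D1 a2.2) e
      exact congrArg Sum.inr (Prod.ext this.1 this.2)

theorem Hyp.rem_Phi (H : Hyp ρ h Ps Pw D Ω M0 M1 P1 Λ B E) (hz : 1 ≤ z) (h3 : (Z1 : ℝ) ≤ z)
    (h4 : z * Z1 ≤ M1) (h5 : P1 * Z1 ^ 2 ≤ M1) (h6 : z ^ 2 ≤ Ω) :
    |ρ (Phi h Ps Pw z Z0 Z1 * Phi h Ps Pw z Z0 Z1)| ≤
      30 * Λ ^ 4 * (B * D ^ 3 * (z ^ 2 + M1 + M0 * P1) + E) := by
  have Λ1 := H.one_le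
  have B0 := H.B0
  have E0 : 0 ≤ E := by
    have := H.H3 1 0 one_pos (fun T => by simp)
    simp only [Pi.zero_apply, zero_mul, ite_self, sum_const_zero, abs_zero, one_mul] at this
    exact nonneg_of_mul_nonneg_right this (by linarith)
  have hM : (M1 : ℝ) ≤ Ω := Nat.cast_le.2 H.hM
  have D1' : (1 : ℝ) ≤ D := by
    have h7 : (1 : ℝ) ≤ Ω := le_trans (by nlinarith) h6
    exact_mod_cast H.hD ∅ (empty_subset _) (by simpa [pr] using h7)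
  have Z0' : (0 : ℝ) ≤ Z1 := Nat.cast_nonneg _
  have hQ : ∀ p ∈ Ps \ Pw, p.Prime := fun p hp => H.prime p (sdiff_subset hp)
  have r1 : Rep (Ps \ Pw) (∑ l ∈ D1 (Ps \ Pw) Z0 Z1, ph h l) Λ Z1 :=
    (rep_ph hQ (fun p hp => H.h0 p (sdiff_subset hp)) fun l hl =>
      ⟨mem_powerset.1 (mem_filter.1 hl).1, Nat.cast_le.2 (mem_filter.1 hl).2.2⟩).mono
      (subset_refl _) (prod_le_of_sub H.h0 H.hΛ sdiff_subset) le_rfl
  have r2 : Rep Ps (∑ l ∈ D0 Ps z, ph h l) Λ z :=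
    (rep_ph H.prime H.h0 fun l hl =>
      ⟨mem_powerset.1 (mem_filter.1 hl).1, (mem_filter.1 hl).2⟩).mono (subset_refl _) H.hΛ le_rfl
  have s1 : |∑ p ∈ Pw, h p| ≤ Λ := by
    rw [abs_of_nonneg (sum_nonneg fun p hp => H.h0 p (H.sub hp))]
    have := sum_le_prod fun p hp => H.h0 p (H.sub hp)
    linarith [prod_le_of_sub H.h0 H.hΛ H.sub]
  have r3 := (r2.add_smul (r1.mono sdiff_subset le_rfl h3) s1).mono (C' := 2 * Λ ^ 2)
    (subset_refl _) (by nlinarith) le_rfl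
  rw [Phi_eq]
  generalize ∑ l ∈ D0 Ps z, ph h l + (∑ p ∈ Pw, h p) • ∑ l ∈ D1 (Ps \ Pw) Z0 Z1, ph h l = F at *
  generalize ∑ l ∈ D1 (Ps \ Pw) Z0 Z1, ph h l = G at *
  have t1 := H.rem_le (r3.mul H.prime r3 (D := D) fun U hU h7 =>
    H.hD U hU (Nat.cast_le.1 (h7.trans ((sq z).symm.le.trans h6)))) (by positivity)
    ((sq z).symm.le.trans h6)
  have t2 := H.rem_Pi (A := 2 * Λ ^ 2 * Λ) (by positivity)
    ((r3.mul H.prime (r1.mono sdiff_subset le_rfl le_rfl) (D := D) fun U hU h7 =>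
      H.hD U hU (Nat.cast_le.1 (h7.trans (h4.trans hM)))).mono (subset_refl _) le_rfl h4)
  have t3 := H.rem_Pi (A := Λ ^ 3) (by positivity)
    (((r1.mul hQ r1 (D := D) fun U hU h7 => H.hD U (hU.trans sdiff_subset)
      (Nat.cast_le.1 (h7.trans (le_trans (by nlinarith) h6)))).mulPi H.sub (P1 := P1)
      (fun p hp => abs_le_of_mem H.h0 H.hΛ (H.sub hp)) (by linarith)
      fun p hp => Nat.cast_le.2 (H.hP p hp)).mono (subset_refl _) (le_of_eq (by ring))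
      (by rw [← sq]; exact_mod_cast h5))
  have e : (F - G * PiW h Pw) * (F - G * PiW h Pw) =
      F * F - (F * G * PiW h Pw + F * G * PiW h Pw) + G * G * PiW h Pw * PiW h Pw := by ring
  rw [e, map_add, map_sub, map_add]
  have u1 := abs_le.1 t1
  have u2 := abs_le.1 t2
  have u3 := abs_le.1 t3
  push_cast at u1 u2 u3
  have D23 : (D : ℝ) ^ 2 ≤ D ^ 3 := pow_le_pow_right₀ D1' (by norm_num)
  have v1 : Λ ^ 4 * B * z ^ 2 * D ^ 2 ≤ Λ ^ 4 * B * z ^ 2 * D ^ 3 := by gcongr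
  have v2 : Λ ^ 4 * B * (M0 * P1) * D ^ 2 ≤ Λ ^ 4 * B * (M0 * P1) * D ^ 3 := by gcongr
  have v3 : 0 ≤ Λ ^ 4 * B * z ^ 2 * D ^ 3 := by positivity
  have v4 : 0 ≤ Λ ^ 4 * B * (M0 * P1) * D ^ 3 := by positivity
  have v5 : 0 ≤ Λ ^ 4 * B * M1 * D ^ 3 := by positivity
  have v6 : 0 ≤ Λ ^ 4 * E := by positivity
  rw [abs_le]
  constructor <;> linarith [u1.1, u1.2, u2.1, u2.2, u3.1, u3.2]

end

end Pool.Agent.Work.MP_51e72e_nt.Cub.Sv
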