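import Pool.Agent.Work.MP_51e72e_nt.NFRoots

/-!
# Convergence of the Bateman-Horn constant
-/

noncomputable section

open Finset Filter Topology Polynomial

namespace Pool.Agent.Work.MP_51e72e_nt

lemma omega_le_natDegree {f : ℤ[X]} (hf : f.IsPrimitive) {p : ℕ} (hp : p.Prime) :
    omega f p ≤ f.natDegree := by
  classical
  have : Fact p.Prime := ⟨hp⟩
  have hne : f.map (Int.castRingHom (ZMod p)) ≠ 0 := by
    intro h
    have : C (p : ℤ) ∣ f := by
      rw [C_dvd_iff_dvd_coeff]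
      intro i
      have := congrArg (fun q => q.coeff i) h
      simpa [ZMod.intCast_zmod_eq_zero_iff_dvd] using this
    have := hf _ this
    rw [Int.isUnit_iff_natAbs_eq, Int.natAbs_natCast] at this
    exact hp.one_lt.ne' this
  rw [omega_eq_card, Nat.card_eq_fintype_card, Fintype.card_subtype]
  calc _ ≤ (f.map (Int.castRingHom (ZMod p))).roots.toFinset.card := by
        refine Finset.card_le_card fun r hr => ?_
        rw [Multiset.mem_toFinset, mem_roots hne, IsRoot, eval_map]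
        have := (mem_filter.mp hr).2
        rwa [aeval_def, algebraMap_int_eq] at this
    _ ≤ _ := (Multiset.toFinset_card_le _).trans ((card_roots' _).trans natDegree_map_le)

lemma omega_X {p : ℕ} (hp : 0 < p) : omega X p = 1 := by
  rw [omega, Finset.card_eq_one]
  refine ⟨0, ?_⟩
  ext n
  simp only [mem_filter, mem_range, eval_X, mem_singleton, Int.natCast_dvd_natCast]
  constructor
  · rintro ⟨h1, h2⟩
    exact Nat.eq_zero_of_dvd_of_lt h2 h1
  · rintro rfl
    exact ⟨hp, dvd_zero _⟩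

lemma omega_X_mul_pw (n : ℕ) : (omega X n : ℝ) * pw n = pw n := by
  unfold pw
  split_ifs with h
  · rw [omega_X h.pos]; simp
  · simp

lemma abs_mul_pw_le {a : ℕ → ℝ} {D : ℝ} (h : ∀ p, p.Prime → |a p| ≤ D) (n : ℕ) :
    |a n * pw n| ≤ D * pw n := by
  rw [abs_mul, abs_of_nonneg (pw_nonneg n)]
  by_cases hn : n.Prime
  · exact mul_le_mul_of_nonneg_right (h n hn) (pw_nonneg n)
  · simp [pw, hn]

lemma summable_mul_pw {a : ℕ → ℝ} {D : ℝ} (h : ∀ p, p.Prime → |a p| ≤ D) {ε : ℝ} (hε : 0 < ε) :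
    Summable fun n : ℕ => a n * pw n * (n : ℝ) ^ (-ε) := by
  simpa using summable_of_le_pw (abs_mul_pw_le h) hε (g := fun _ => 1) (B := 1) (by simp)

lemma tendsto_finite_abel (s : Finset ℕ) (a : ℕ → ℝ) :
    Tendsto (fun ε : ℝ => ∑ n ∈ s, a n * pw n * (n : ℝ) ^ (-ε)) (𝓝[>] 0)
      (𝓝 (∑ n ∈ s, a n * pw n)) := by
  refine tendsto_finsetSum _ fun n _ => ?_
  rcases Nat.eq_zero_or_pos n with rfl | hn
  · simp [pw, Nat.not_prime_zero]
  · have hn' : (n : ℝ) ≠ 0 := by positivity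
    have h1 : Tendsto (fun ε : ℝ => -ε) (𝓝[>] 0) (𝓝 0) := by
      have : Tendsto (fun ε : ℝ => -ε) (𝓝 0) (𝓝 (-0)) := tendsto_id.neg
      rw [neg_zero] at this
      exact this.mono_left nhdsWithin_le_nhds
    have h2 := ((Real.continuousAt_const_rpow hn').tendsto.comp h1).const_mul (a n * pw n)
    simpa using h2

theorem tendsto_omega_abel {f : ℤ[X]} (hf : Irreducible f) (hd : 0 < f.natDegree) : ∃ L : ℝ,
    Tendsto (fun ε : ℝ => ∑' n : ℕ, (omega f n * pw n) * (n : ℝ) ^ (-ε) + Real.log ε)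
      (𝓝[>] 0) (𝓝 L) := by
  obtain ⟨K, _, _, m, hm, hK⟩ := exists_field_of_irreducible hf hd
  obtain ⟨L, hL⟩ := tendsto_prime_ideal_sum K
  refine ⟨_, (hL.add (tendsto_finite_abel m.divisors
    fun n => (omega f n : ℝ) - idealCount K n)).congr' ?_⟩
  filter_upwards [self_mem_nhdsWithin] with ε hε
  have s1 := summable_mul_pw (a := fun n => (omega f n : ℝ)) (D := f.natDegree) (fun p hp => by
    rw [abs_of_nonneg (Nat.cast_nonneg _)]
    exact_mod_cast omega_le_natDegree (hf.isPrimitive hd.ne') hp) hε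
  have s2 := summable_mul_pw (a := fun n => (idealCount K n : ℝ))
    (D := Module.finrank ℤ (NumberField.RingOfIntegers K)) (fun p hp => by
    rw [abs_of_nonneg (Nat.cast_nonneg _)]
    exact_mod_cast idealCount_le K hp) hε
  have h3 : ∑ n ∈ m.divisors, ((omega f n : ℝ) - idealCount K n) * pw n * (n : ℝ) ^ (-ε) =
      ∑' n : ℕ, (omega f n * pw n) * (n : ℝ) ^ (-ε) -
        ∑' n : ℕ, (idealCount K n * pw n) * (n : ℝ) ^ (-ε) := by
    rw [← s1.tsum_sub s2, tsum_eq_sum (s := m.divisors)]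
    · exact Finset.sum_congr rfl fun n _ => by ring
    · intro n hn
      by_cases hp : n.Prime
      · rw [hK n hp fun h => hn (Nat.mem_divisors.mpr ⟨h, hm⟩), sub_self]
      · simp [pw, hp]
  rw [h3]; ring

theorem tendsto_pw_abel : ∃ L : ℝ,
    Tendsto (fun ε : ℝ => ∑' n : ℕ, pw n * (n : ℝ) ^ (-ε) + Real.log ε) (𝓝[>] 0) (𝓝 L) := by
  obtain ⟨L, hL⟩ := tendsto_omega_abel (f := X) irreducible_X (by simp)
  exact ⟨L, by simpa only [omega_X_mul_pw] using hL⟩

/-- If the two Abel limits are `L` and `L₀` then the partial sums converge to `L - L₀`. -/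
theorem tendsto_sum_omega_of_abel {f : ℤ[X]} (hf : f.IsPrimitive) {L L₀ : ℝ}
    (hL : Tendsto (fun ε : ℝ => ∑' n : ℕ, (omega f n * pw n) * (n : ℝ) ^ (-ε) + Real.log ε)
      (𝓝[>] 0) (𝓝 L))
    (hL₀ : Tendsto (fun ε : ℝ => ∑' n : ℕ, pw n * (n : ℝ) ^ (-ε) + Real.log ε) (𝓝[>] 0) (𝓝 L₀)) :
    Tendsto (fun y : ℕ => ∑ n ∈ range (y + 1), ((omega f n : ℝ) - 1) * pw n) atTop
      (𝓝 (L - L₀)) := by
  have hb : ∀ p : ℕ, p.Prime → |(omega f p : ℝ)| ≤ f.natDegree := fun p hp => by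
    rw [abs_of_nonneg (Nat.cast_nonneg _)]
    exact_mod_cast omega_le_natDegree hf hp
  refine tauber_primes (D := f.natDegree + 1) (abs_mul_pw_le fun p hp => ?_)
    ((hL.sub hL₀).congr' ?_) hL₀
  · exact (abs_sub _ _).trans (by have := hb p hp; simpa using this)
  · filter_upwards [self_mem_nhdsWithin] with ε hε
    have s1 := summable_mul_pw hb hε
    have s2 := summable_mul_pw (a := fun _ => 1) (D := 1) (by simp) hε
    simp only [one_mul] at s2
    rw [add_sub_add_right_eq_sub, ← s1.tsum_sub s2]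
    exact tsum_congr fun n => by ring

/-- The series `∑ (ω_f(p) - 1) / p` converges. -/
theorem tendsto_sum_omega {f : ℤ[X]} (hf : Irreducible f) (hd : 0 < f.natDegree) : ∃ L : ℝ,
    Tendsto (fun y : ℕ => ∑ n ∈ range (y + 1), ((omega f n : ℝ) - 1) * pw n) atTop (𝓝 L) := by
  obtain ⟨L, hL⟩ := tendsto_omega_abel hf hd
  obtain ⟨L₀, hL₀⟩ := tendsto_pw_abel
  exact ⟨_, tendsto_sum_omega_of_abel (hf.isPrimitive hd.ne') hL hL₀⟩

lemma exists_bezout {f g : ℤ[X]} (hf : Irreducible f) (hfd : 0 < f.natDegree)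
    (hfl : 0 < f.leadingCoeff) (hg : Irreducible g) (hgl : 0 < g.leadingCoeff) (hfg : f ≠ g) :
    ∃ (R : ℤ) (A B : ℤ[X]), R ≠ 0 ∧ A * f + B * g = C R := by
  have hprim := hf.isPrimitive hfd.ne'
  have hirr : Irreducible (f.map (Int.castRingHom ℚ)) :=
    (IsPrimitive.Int.irreducible_iff_irreducible_map_cast hprim).mp hf
  rcases EuclideanDomain.dvd_or_coprime _ (g.map (Int.castRingHom ℚ)) hirr with h | h
  · exfalso
    have h1 := (IsPrimitive.Int.dvd_iff_map_cast_dvd_map_cast f g hprim).mpr h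
    obtain ⟨u, hu⟩ := hf.associated_of_dvd hg h1
    obtain ⟨r, hr, hru⟩ := Polynomial.isUnit_iff.mp u.isUnit
    rw [← hru] at hu
    rcases Int.isUnit_iff.mp hr with rfl | rfl
    · exact hfg (by simpa using hu)
    · rw [← hu] at hgl
      simp at hgl
      linarith
  · obtain ⟨u, v, huv⟩ := h
    obtain ⟨a, ha, ha'⟩ := IsLocalization.integerNormalization_spec (nonZeroDivisors ℤ) u
    obtain ⟨b, hb, hb'⟩ := IsLocalization.integerNormalization_spec (nonZeroDivisors ℤ) v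
    rw [algebraMap_int_eq] at ha' hb'
    refine ⟨a * b, C b * IsLocalization.integerNormalization (nonZeroDivisors ℤ) u,
      C a * IsLocalization.integerNormalization (nonZeroDivisors ℤ) v,
      mul_ne_zero (nonZeroDivisors.ne_zero ha) (nonZeroDivisors.ne_zero hb), ?_⟩
    apply Polynomial.map_injective (Int.castRingHom ℚ) Int.cast_injective
    simp only [Polynomial.map_add, Polynomial.map_mul, ha', hb', zsmul_eq_mul, eq_intCast,
      Polynomial.map_intCast, Int.cast_mul]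
    linear_combination (a : ℚ[X]) * b * huv

/-- Distinct members of the system have no common root modulo large primes. -/
theorem exists_no_common_root (F : Finset ℤ[X])
    (hF : ∀ f ∈ F, Irreducible f ∧ 0 < f.natDegree ∧ 0 < f.leadingCoeff) :
    ∃ p₀ : ℕ, ∀ p : ℕ, p₀ < p → ∀ f ∈ F, ∀ g ∈ F, f ≠ g → ∀ n : ℤ,
      ¬ ((p : ℤ) ∣ f.eval n ∧ (p : ℤ) ∣ g.eval n) := by
  have : ∀ᶠ p : ℕ in atTop, ∀ f ∈ F, ∀ g ∈ F, f ≠ g → ∀ n : ℤ,
      ¬ ((p : ℤ) ∣ f.eval n ∧ (p : ℤ) ∣ g.eval n) := by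
    rw [eventually_all_finset]
    intro f hf
    rw [eventually_all_finset]
    intro g hg
    by_cases hfg : f = g
    · exact Eventually.of_forall fun p h => absurd hfg h
    obtain ⟨R, A, B, hR, hAB⟩ := exists_bezout (hF f hf).1 (hF f hf).2.1 (hF f hf).2.2
      (hF g hg).1 (hF g hg).2.2 hfg
    filter_upwards [eventually_gt_atTop R.natAbs] with p hp _ n ⟨h1, h2⟩
    have h3 := congrArg (eval n) hAB
    rw [eval_add, eval_mul, eval_mul, eval_C] at h3
    have h4 : (p : ℤ) ∣ R := h3 ▸ (h1.mul_left _).add (h2.mul_left _)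
    have := Nat.le_of_dvd (Int.natAbs_pos.mpr hR) (Int.natCast_dvd.mp h4)
    omega
  obtain ⟨p₀, hp₀⟩ := eventually_atTop.mp this
  exact ⟨p₀, fun p hp => hp₀ p hp.le⟩

/-- Number of roots modulo `p` of the product of the members of `F`. -/
def omegaF (F : Finset ℤ[X]) (p : ℕ) : ℕ :=
  ((range p).filter fun n : ℕ => (p : ℤ) ∣ ∏ f ∈ F, f.eval (n : ℤ)).card

theorem omegaF_eq_sum (F : Finset ℤ[X]) {p : ℕ} (hp : p.Prime)
    (h : ∀ f ∈ F, ∀ g ∈ F, f ≠ g → ∀ n : ℤ, ¬ ((p : ℤ) ∣ f.eval n ∧ (p : ℤ) ∣ g.eval n)) :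
    omegaF F p = ∑ f ∈ F, omega f p := by
  classical
  unfold omegaF omega
  rw [← Finset.card_biUnion]
  · congr 1
    ext n
    simp only [mem_filter, mem_biUnion, (Nat.prime_iff_prime_int.mp hp).dvd_finsetProd_iff]
    tauto
  · intro f hf g hg hfg
    refine Finset.disjoint_left.mpr fun n h1 h2 => ?_
    exact h f hf g hg hfg n ⟨(mem_filter.mp h1).2, (mem_filter.mp h2).2⟩

lemma tendsto_prod_of_log {v c r : ℕ → ℝ} {L : ℝ} {P : ℕ}
    (hc : Tendsto (fun y : ℕ => ∑ n ∈ range (y + 1), c n) atTop (𝓝 L)) (hr : Summable r)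
    (hv : ∀ n, P ≤ n → 0 < v n ∧ |Real.log (v n) - c n| ≤ r n) :
    ∃ E : ℝ, 0 < E ∧ Tendsto (fun y : ℕ => ∏ n ∈ range (y + 1), v n) atTop
      (𝓝 ((∏ n ∈ range P, v n) * E)) := by
  have hs : Summable fun n => Real.log (v n) - c n := by
    rw [← summable_nat_add_iff P]
    exact Summable.of_norm_bounded ((summable_nat_add_iff P).mpr hr) fun n =>
      (hv _ (Nat.le_add_left P n)).2
  have h1 := (hs.hasSum.tendsto_sum_nat.comp (tendsto_add_atTop_nat 1)).add hc
  have h2 := (h1.sub_const (∑ n ∈ range P, Real.log (v n))).rexp.const_mul (∏ n ∈ range P, v n)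
  refine ⟨_, Real.exp_pos _, h2.congr' ?_⟩
  filter_upwards [eventually_ge_atTop P] with y hy
  simp only [Function.comp]
  rw [← Finset.sum_add_distrib]
  simp only [sub_add_cancel]
  rw [← Finset.sum_Ico_eq_sub _ (by omega), Real.exp_sum,
    ← Finset.prod_range_mul_prod_Ico _ (show P ≤ y + 1 by omega)]
  congr 1
  exact Finset.prod_congr rfl fun n hn => Real.exp_log (hv n (mem_Ico.mp hn).1).1

/-- **Convergence of the Bateman-Horn product**, with positivity. -/
theorem tendsto_prod_omegaF (F : Finset ℤ[X])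
    (hF : ∀ f ∈ F, Irreducible f ∧ 0 < f.natDegree ∧ 0 < f.leadingCoeff) :
    ∃ C : ℝ, Tendsto (fun y : ℕ => ∏ p ∈ (range (y + 1)).filter Nat.Prime,
        (1 - (omegaF F p : ℝ) / (p : ℝ)) / (1 - 1 / (p : ℝ)) ^ F.card) atTop (𝓝 C) ∧
      ((∀ p : ℕ, p.Prime → omegaF F p < p) → 0 < C) := by
  obtain ⟨p₀, hp₀⟩ := exists_no_common_root F hF
  choose! L hL using fun f hf => tendsto_sum_omega (hF f hf).1 (hF f hf).2.1
  have hc := (tendsto_finsetSum F fun f hf => hL f hf).neg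
  set D := ∑ f ∈ F, f.natDegree with hD
  set v : ℕ → ℝ := fun p => if p.Prime then
    (1 - (omegaF F p : ℝ) / (p : ℝ)) / (1 - 1 / (p : ℝ)) ^ F.card else 1 with hv
  have hs2 : Summable fun n : ℕ => (2 * (D : ℝ) ^ 2 + 2 * F.card) * ((n : ℝ) ^ 2)⁻¹ :=
    (Real.summable_nat_pow_inv.mpr one_lt_two).mul_left _
  obtain ⟨E, hE, hlim⟩ := tendsto_prod_of_log (v := v)
    (c := fun n => -∑ f ∈ F, ((omega f n : ℝ) - 1) * pw n) (P := p₀ + 2 * D + 2)
    (hc.congr fun y => by rw [Finset.sum_comm, ← Finset.sum_neg_distrib]) hs2 (by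
      intro p hp
      by_cases hpp : p.Prime
      · have h1 := omegaF_eq_sum F hpp (hp₀ p (by omega))
        have h2 : omegaF F p ≤ D := h1 ▸ Finset.sum_le_sum fun f hf =>
          omega_le_natDegree ((hF f hf).1.isPrimitive (hF f hf).2.1.ne') hpp
        have h2' : (omegaF F p : ℝ) ≤ D := by exact_mod_cast h2
        have hp2 : (2 : ℝ) * D + 2 ≤ p := by exact_mod_cast (by omega : 2 * D + 2 ≤ p)
        have hD0 : (0 : ℝ) ≤ D := Nat.cast_nonneg _
        have hp0 : (0 : ℝ) < p := by linarith only [hp2]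
        have ha0 : 0 ≤ (omegaF F p : ℝ) / p := by positivity
        have ha1 : (omegaF F p : ℝ) / p ≤ 1 / 2 := by
          rw [div_le_iff₀ hp0]; linarith only [h2', hp2]
        have hb0 : 0 ≤ 1 / (p : ℝ) := by positivity
        have hb1 : 1 / (p : ℝ) ≤ 1 / 2 := one_div_le_one_div_of_le (by norm_num) (by linarith only [hp2])
        obtain ⟨l1, l2⟩ := neg_log_bounds ha0 ha1
        obtain ⟨l3, l4⟩ := neg_log_bounds hb0 hb1
        simp only [hv, if_pos hpp]
        refine ⟨div_pos (by linarith only [ha1]) (pow_pos (by linarith only [hb1]) _), ?_⟩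
        rw [Real.log_div (by linarith only [ha1]) (pow_pos (by linarith only [hb1]) _).ne', Real.log_pow]
        have h3 : ∑ f ∈ F, ((omega f p : ℝ) - 1) * pw p =
            (omegaF F p : ℝ) / p - F.card * (1 / (p : ℝ)) := by
          rw [← Finset.sum_mul, Finset.sum_sub_distrib, h1, pw, if_pos hpp]
          push_cast
          simp only [sum_const, nsmul_eq_mul, mul_one]
          ring
        have h4 : ((omegaF F p : ℝ) / p) ^ 2 ≤ (D : ℝ) ^ 2 * ((p : ℝ) ^ 2)⁻¹ := by
          rw [div_pow, div_eq_mul_inv]; gcongr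
        have h5 : (1 / (p : ℝ)) ^ 2 = ((p : ℝ) ^ 2)⁻¹ := by rw [one_div, inv_pow]
        have hk : (0 : ℝ) ≤ F.card := Nat.cast_nonneg _
        have h6 := mul_le_mul_of_nonneg_left l3 hk
        have h7 := mul_le_mul_of_nonneg_left l4 hk
        have h8 : (0 : ℝ) ≤ F.card * ((p : ℝ) ^ 2)⁻¹ := by positivity
        have h9 : (0 : ℝ) ≤ (D : ℝ) ^ 2 * ((p : ℝ) ^ 2)⁻¹ := by positivity
        rw [h5] at h7
        rw [h3, abs_le]
        constructor <;> nlinarith only [l2, h4, h6, h7, l1]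
      · simp only [hv, if_neg hpp, pw, mul_zero, sum_const_zero, neg_zero, Real.log_one, sub_zero,
          abs_zero]
        exact ⟨one_pos, by positivity⟩)
  refine ⟨_, hlim.congr fun y => ?_, fun h => mul_pos (Finset.prod_pos fun p _ => ?_) hE⟩
  · rw [Finset.prod_filter]
  · simp only [hv]
    split_ifs with hp
    · have h1 : (1 : ℝ) < p := by exact_mod_cast hp.one_lt
      have h2 : (omegaF F p : ℝ) < p := by exact_mod_cast h p hp
      refine div_pos (sub_pos.mpr ((div_lt_one (by linarith)).mpr h2))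
        (pow_pos (sub_pos.mpr ((div_lt_one (by linarith)).mpr h1)) _)
    · exact one_pos

end Pool.Agent.Work.MP_51e72e_nt
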