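import Pool.Agent.Work.MP_51e72e_nt.Kara
import Pool.Agent.Work.MP_51e72e_nt.NFMain
import Pool.Agent.Lib.ANT.SieveSums
import Pool.Agent.Lib.ANT.DivisorBound
import Mathlib.Analysis.Complex.Polynomial.Basic
import Mathlib.Analysis.PSeries
import Pool.Agent.Work.MP_51e72e_nt.CubSieve2

-- merged part: Pool.Agent.Work.MP_51e72e_nt.CubDefs
section
/-!
Definitions for the level of distribution of cubic polynomials, and the polynomial identities
attached to an element `a + b θ + c θ ^ 2` with `θ ^ 3 + P θ + Q = 0`.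
-/

set_option autoImplicit false

namespace Pool.Agent.Work.MP_51e72e_nt.Cub

open Finset Pool.Agent.Lib.LargeSieve

/-- the norm of `a + b θ + c θ ^ 2` -/
def nN (P Q a b c : ℤ) : ℤ :=
  a * (a - c * P) ^ 2 + 3 * a * b * c * Q + a * b ^ 2 * P - b ^ 3 * Q + c ^ 3 * Q ^ 2
    - b * c ^ 2 * P * Q

/-- numerator of the root -/
def uU (P Q a b c : ℤ) : ℤ := -2 * b * c ^ 2 * Q - (b ^ 2 - P * c ^ 2) * a - c * a ^ 2

/-- the index form -/
def rR (P Q b c : ℤ) : ℤ := b ^ 3 + P * b * c ^ 2 + Q * c ^ 3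

/-- a constant depending on the cubic only -/
def kK (P Q : ℤ) : ℕ := 10 * (1 + P.natAbs + Q.natAbs) ^ 2

/-- the cubic `x ^ 3 + P x + Q` has no rational root -/
def NoRoot (P Q : ℤ) : Prop := ∀ x : ℚ, x ^ 3 + P * x + Q ≠ 0

lemma nN_eq (P Q a b c r : ℤ) : nN P Q a b c =
    (a + b * r + c * r ^ 2) * (((a - c * P) ^ 2 + b * (c * Q + b * P)) - (a * b + Q * c ^ 2) * r
      + (b ^ 2 + P * c ^ 2 - a * c) * r ^ 2)
    - (r ^ 3 + P * r + Q) * (c * (b ^ 2 + P * c ^ 2 - a * c) * r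
      + (b * (b ^ 2 + P * c ^ 2 - a * c) - c * (a * b + Q * c ^ 2))) := by
  unfold nN; ring

lemma rR_mul_sub (P Q a b c r : ℤ) : rR P Q b c * r - uU P Q a b c =
    (a + b * r + c * r ^ 2) * (b ^ 2 - P * c ^ 2 + a * c - c * (b * r + c * r ^ 2))
      + (r ^ 3 + P * r + Q) * (c ^ 3 * r + 2 * b * c ^ 2) := by
  unfold rR uU; ring

lemma key_id (P Q a b c : ℤ) : (b ^ 2 + P * c ^ 2 - a * c) * uU P Q a b c =
    c ^ 2 * nN P Q a b c - rR P Q b c * (a * b + Q * c ^ 2) := by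
  unfold rR uU nN; ring

lemma rR_adj (P Q a b c : ℤ) : rR P Q (-(a * b + Q * c ^ 2)) (b ^ 2 + P * c ^ 2 - a * c) =
    -(nN P Q a b c * rR P Q b c) := by
  unfold rR nN; ring

/-- quadruples counted by the additive energy of the reciprocals of `β - a c` modulo `q` -/
def enSet (q β c : ℤ) (S : Finset ℤ) : Finset ((ℤ × ℤ) × (ℤ × ℤ)) :=
  ((S ×ˢ S) ×ˢ (S ×ˢ S)).filter fun z =>
    q ∣ ((β - z.1.1 * c) + (β - z.1.2 * c)) * ((β - z.2.1 * c) * (β - z.2.2 * c))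
      - ((β - z.2.1 * c) + (β - z.2.2 * c)) * ((β - z.1.1 * c) * (β - z.1.2 * c))

/-- smoothed count of the integers in the class `x` modulo `M` -/
noncomputable def cntw (N L M : ℕ) (x : ℤ) : ℝ :=
  ((((Icc 1 (N + L)) ×ˢ (range L)).filter
    fun z : ℕ × ℕ => (M : ℤ) ∣ ((z.1 : ℤ) - z.2) - x).card : ℝ) / L

/-- bilinear level of distribution for the roots of `f` -/
def Level (f : Polynomial ℤ) (W N L M0 M1 Y0 Y1 Dm : ℕ) (E : ℝ) : Prop :=
  ∀ (ι κ : Type) (I : Finset ι) (J : Finset κ) (m : ι → ℕ) (y : κ → ℕ) (r : ι → ℤ) (s : κ → ℤ)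
    (n : ι → κ → ℤ) (a : ι → ℝ) (b : κ → ℝ),
    (∀ i ∈ I, Squarefree (m i) ∧ Nat.Coprime (m i) W ∧ M0 ≤ m i ∧ m i ≤ M1 ∧
      (m i : ℤ) ∣ f.eval (r i)) →
    (∀ x : ℕ, (I.filter fun i => m i = x).card ≤ Dm) →
    (∀ j ∈ J, Y0 < y j ∧ y j ≤ Y1) →
    (∀ x : ℕ, (J.filter fun j => y j = x).card ≤ Dm) →
    (∀ i ∈ I, ∀ j ∈ J, Nat.Coprime (m i) (y j) →
      (m i : ℤ) ∣ n i j - r i ∧ (y j : ℤ) ∣ n i j - s j) →
    (∀ i ∈ I, |a i| ≤ 1) → (∀ j ∈ J, |b j| ≤ 1) →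
    |∑ i ∈ I, ∑ j ∈ J, if Nat.Coprime (m i) (y j) then
      a i * b j * (cntw N L (m i * y j) (n i j) - ((N : ℝ) + L) / (m i * y j)) else 0| ≤ E

end Pool.Agent.Work.MP_51e72e_nt.Cub
end

-- merged part: Pool.Agent.Work.MP_51e72e_nt.CubSep1
section
/-!
Finite Fourier analysis used in the separation lemmas.
-/

set_option autoImplicit false

namespace Pool.Agent.Work.MP_51e72e_nt.Cub

open Finset Pool.Agent.Lib.LargeSieve

lemma inv_le_dZ (M : ℕ) (hM : 0 < M) (x : ℤ) (hx : ¬ (M : ℤ) ∣ x) :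
    1 / (M : ℝ) ≤ dZ ((x : ℝ) / M) := by
  have hM' : (0 : ℝ) < M := by exact_mod_cast hM
  unfold dZ
  set r := round ((x : ℝ) / M)
  have h1 : x - r * M ≠ 0 := fun h => hx ⟨r, by linarith only [h]⟩
  have h2 : (1 : ℝ) ≤ |((x - r * M : ℤ) : ℝ)| := by
    rw [← Int.cast_abs]; exact_mod_cast Int.one_le_abs h1
  have h3 : (x : ℝ) / M - r = ((x - r * M : ℤ) : ℝ) / M := by
    push_cast; field_simp
  rw [h3, abs_div, abs_of_pos hM']
  exact div_le_div_of_nonneg_right h2 hM'.le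

lemma sum_range_ee (M : ℕ) (hM : 0 < M) (x : ℤ) :
    ∑ k ∈ range M, ee ((k : ℝ) * ((x : ℝ) / M)) = if (M : ℤ) ∣ x then (M : ℂ) else 0 := by
  have hM' : (0 : ℝ) < M := by exact_mod_cast hM
  split_ifs with h
  · obtain ⟨c, rfl⟩ := h
    have : ∀ k ∈ range M, ee ((k : ℝ) * ((((M : ℤ) * c : ℤ) : ℝ) / M)) = 1 := fun k _ => by
      have : (k : ℝ) * ((((M : ℤ) * c : ℤ) : ℝ) / M) = (((k : ℤ) * c : ℤ) : ℝ) := by
        push_cast; field_simp
      rw [this, ee_intCast]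
    rw [sum_congr rfl this]; simp
  · have h1 := inv_le_dZ M hM x h
    have h4 := four_dZ_le ((x : ℝ) / M)
    have hne : ee ((x : ℝ) / M) ≠ 1 := by
      intro h5
      rw [h5, sub_self, norm_zero] at h4
      have : 0 < 1 / (M : ℝ) := by positivity
      linarith only [h1, h4, this]
    simp_rw [ee_nat_mul]
    rw [geom_sum_eq hne, ← ee_nat_mul]
    have : (M : ℝ) * ((x : ℝ) / M) = x := by field_simp
    rw [this, ee_intCast, sub_self, zero_div]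

lemma sum_Ico_ee (M : ℕ) (hM : 0 < M) (c x : ℤ) :
    ∑ h ∈ Ico c (c + M), ee ((h : ℝ) * ((x : ℝ) / M)) = if (M : ℤ) ∣ x then (M : ℂ) else 0 := by
  have hM' : (0 : ℝ) < M := by exact_mod_cast hM
  have h1 : ∑ h ∈ Ico c (c + M), ee ((h : ℝ) * ((x : ℝ) / M))
      = ∑ k ∈ range M, ee (((c + k : ℤ) : ℝ) * ((x : ℝ) / M)) := by
    symm
    refine sum_bij (fun k _ => c + (k : ℤ)) ?_ ?_ ?_ ?_
    · intro k hk
      rw [mem_range] at hk
      rw [mem_Ico]; omega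
    · intro k _ l _ h; omega
    · intro h hh
      rw [mem_Ico] at hh
      exact ⟨(h - c).toNat, by rw [mem_range]; omega, by omega⟩
    · intro k _; rfl
  have h2 : ∀ k ∈ range M, ee (((c + k : ℤ) : ℝ) * ((x : ℝ) / M))
      = ee ((c : ℝ) * ((x : ℝ) / M)) * ee ((k : ℝ) * ((x : ℝ) / M)) := fun k _ => by
    rw [← ee_add]; congr 1; push_cast; ring
  rw [h1, sum_congr rfl h2, ← mul_sum, sum_range_ee M hM x]
  split_ifs with h
  · obtain ⟨d, rfl⟩ := h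
    have : (c : ℝ) * ((((M : ℤ) * d : ℤ) : ℝ) / M) = ((c * d : ℤ) : ℝ) := by
      push_cast; field_simp
    rw [this, ee_intCast, one_mul]
  · rw [mul_zero]

lemma norm_sum_Ioc_ee_le (a b : ℕ) (x : ℝ) (hx : 0 < dZ x) :
    ‖∑ y ∈ Ioc a b, ee (y * x)‖ ≤ 1 / (2 * dZ x) := by
  have h1 : ∑ y ∈ Ioc a b, ee (y * x) = ee (((a + 1 : ℕ) : ℝ) * x) *
      ∑ k ∈ range (b - a), ee (k * x) := by
    rw [mul_sum]
    symm
    refine sum_bij (fun k _ => a + 1 + k) ?_ ?_ ?_ ?_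
    · intro k hk
      rw [mem_range] at hk
      rw [mem_Ioc]; omega
    · intro k _ l _ h; omega
    · intro h hh
      rw [mem_Ioc] at hh
      exact ⟨h - (a + 1), by rw [mem_range]; omega, by omega⟩
    · intro k _
      rw [← ee_add]; congr 1; push_cast; ring
  rw [h1, norm_mul, norm_ee, one_mul]
  exact norm_sum_ee_le _ x hx

lemma norm_ee_sub_le (x y : ℝ) : ‖ee x - ee y‖ ≤ 2 * Real.pi * |x - y| := by
  have h1 : ee x - ee y = ee y * (ee (x - y) - 1) := by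
    rw [mul_sub, ← ee_add, mul_one]; congr 2; ring
  rw [h1, norm_mul, norm_ee, one_mul]
  unfold ee
  refine Real.norm_exp_I_mul_ofReal_sub_one_le.trans ?_
  rw [Real.norm_eq_abs, abs_mul, abs_of_pos (by positivity : 0 < 2 * Real.pi)]

lemma min_le_dZ (M : ℕ) (hM : 0 < M) (h : ℤ) (h0 : 0 < h) (h1 : h < M) :
    min (h : ℝ) (M - h) / M ≤ dZ ((h : ℝ) / M) := by
  have hM' : (0 : ℝ) < M := by exact_mod_cast hM
  have h0' : (0 : ℝ) < h := by exact_mod_cast h0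
  have h1' : (h : ℝ) < M := by exact_mod_cast h1
  unfold dZ
  set r := round ((h : ℝ) / M)
  have h3 : (h : ℝ) / M - r = ((h : ℝ) - r * M) / M := by field_simp
  rw [h3, abs_div, abs_of_pos hM']
  refine div_le_div_of_nonneg_right ?_ hM'.le
  rcases le_or_gt r 0 with hr | hr
  · have : (r : ℝ) ≤ 0 := by exact_mod_cast hr
    refine (min_le_left _ _).trans (le_trans ?_ (le_abs_self _))
    linarith only [this, mul_nonneg_of_nonpos_of_nonpos (Mathlib.Tactic.Linarith.sub_nonpos_of_le (Mathlib.Tactic.Linarith.natCast_nonneg ℝ M)) (Mathlib.Tactic.Linarith.sub_nonpos_of_le this)]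
  · have : (1 : ℝ) ≤ r := by exact_mod_cast hr
    refine (min_le_right _ _).trans (le_trans ?_ (neg_le_abs _))
    linarith only [this, mul_nonneg_of_nonpos_of_nonpos (Mathlib.Tactic.Linarith.sub_nonpos_of_le (Mathlib.Tactic.Linarith.natCast_nonneg ℝ M)) (Mathlib.Tactic.Linarith.sub_nonpos_of_le this)]

lemma sum_int_inv_sq_le (H : ℕ) (hH : 0 < H) (b : ℤ) :
    ∑ h ∈ Ioo (H : ℤ) b, 1 / (h : ℝ) ^ 2 ≤ 1 / (H : ℝ) := by
  have h1 : ∑ h ∈ Ioo (H : ℤ) b, 1 / (h : ℝ) ^ 2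
      ≤ ∑ k ∈ Ioc H (max H b.toNat), ((k : ℝ) ^ 2)⁻¹ := by
    have : ∑ k ∈ Ioc H (max H b.toNat), ((k : ℝ) ^ 2)⁻¹
        = ∑ h ∈ (Ioc H (max H b.toNat)).image (fun k : ℕ => (k : ℤ)), 1 / (h : ℝ) ^ 2 := by
      rw [sum_image (fun a _ b _ h => by exact_mod_cast h)]
      simp
    rw [this]
    refine sum_le_sum_of_subset_of_nonneg ?_ fun _ _ _ => by positivity
    intro h hh
    rw [mem_Ioo] at hh
    refine mem_image.2 ⟨h.toNat, ?_, by omega⟩
    rw [mem_Ioc]; omega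
  refine h1.trans ((sum_Ioc_inv_sq_le_sub hH.ne' (le_max_left _ _)).trans ?_)
  rw [one_div]
  have : (0 : ℝ) ≤ ((max H b.toNat : ℕ) : ℝ)⁻¹ := by positivity
  linarith only [this]

lemma sum_tail_le (M H : ℕ) (hM : 0 < M) (hH : 0 < H) :
    ∑ h ∈ Ioo (H : ℤ) (M - H), 1 / (2 * dZ ((h : ℝ) / M)) ^ 2 ≤ (M : ℝ) ^ 2 / (2 * H) := by
  have hM' : (0 : ℝ) < M := by exact_mod_cast hM
  have hH' : (0 : ℝ) < H := by exact_mod_cast hH
  have h1 : ∀ h ∈ Ioo (H : ℤ) (M - H), 1 / (2 * dZ ((h : ℝ) / M)) ^ 2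
      ≤ (M : ℝ) ^ 2 / 4 * (1 / (h : ℝ) ^ 2 + 1 / (((M : ℤ) - h : ℤ) : ℝ) ^ 2) := by
    intro h hh
    rw [mem_Ioo] at hh
    have h0 : 0 < h := by omega
    have h1 : h < M := by omega
    have h0' : (0 : ℝ) < h := by exact_mod_cast h0
    have h1' : (0 : ℝ) < M - h := by
      have : (h : ℝ) < M := by exact_mod_cast h1
      linarith only [this]
    have h2 := min_le_dZ M hM h h0 h1
    have h3 : 0 < min (h : ℝ) (M - h) := lt_min h0' h1'
    have h4 : 1 / (2 * dZ ((h : ℝ) / M)) ^ 2 ≤ 1 / (2 * (min (h : ℝ) (M - h) / M)) ^ 2 := by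
      gcongr
    refine h4.trans ?_
    push_cast
    have h5 : 1 / (2 * (min (h : ℝ) (M - h) / M)) ^ 2
        = (M : ℝ) ^ 2 / 4 * (1 / (min (h : ℝ) (M - h)) ^ 2) := by field_simp; norm_num
    rw [h5]
    gcongr
    rcases min_choice (h : ℝ) (M - h) with h6 | h6 <;> rw [h6]
    · have : 0 ≤ 1 / ((M : ℝ) - h) ^ 2 := by positivity
      linarith only [this]
    · have : 0 ≤ 1 / (h : ℝ) ^ 2 := by positivity
      linarith only [this]
  refine (sum_le_sum h1).trans ?_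
  rw [← mul_sum, sum_add_distrib]
  have h2 := sum_int_inv_sq_le H hH (M - H)
  have h3 : ∑ h ∈ Ioo (H : ℤ) (M - H), 1 / (((M : ℤ) - h : ℤ) : ℝ) ^ 2
      = ∑ h ∈ Ioo (H : ℤ) (M - H), 1 / (h : ℝ) ^ 2 := by
    refine sum_bij (fun h _ => (M : ℤ) - h) ?_ ?_ ?_ ?_
    · intro h hh; rw [mem_Ioo] at hh ⊢; omega
    · intro k _ l _ h; omega
    · intro h hh
      rw [mem_Ioo] at hh
      exact ⟨M - h, by rw [mem_Ioo]; omega, by omega⟩
    · intro k _; rfl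
  rw [h3]
  calc (M : ℝ) ^ 2 / 4 * (∑ h ∈ Ioo (H : ℤ) (M - H), 1 / (h : ℝ) ^ 2
        + ∑ h ∈ Ioo (H : ℤ) (M - H), 1 / (h : ℝ) ^ 2)
      ≤ (M : ℝ) ^ 2 / 4 * (1 / H + 1 / H) := by gcongr
    _ = (M : ℝ) ^ 2 / (2 * H) := by field_simp; norm_num

lemma sum_range_mul_periodic (g : ℕ → ℝ) (L : ℕ) (hg : ∀ k x, g (k * L + x) = g x) (T : ℕ) :
    ∑ x ∈ range (T * L), g x = T * ∑ x ∈ range L, g x := by
  induction T with
  | zero => simp
  | succ T ih =>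
    rw [Nat.succ_mul, sum_range_add, ih]
    simp_rw [hg]
    push_cast; ring

end Pool.Agent.Work.MP_51e72e_nt.Cub
end

-- merged part: Pool.Agent.Work.MP_51e72e_nt.CubSep2
section
/-!
The truncated Fourier expansion of the smoothed count `cntw` for one modulus `m * y`.
-/

set_option autoImplicit false

namespace Pool.Agent.Work.MP_51e72e_nt.Cub

open Finset Pool.Agent.Lib.LargeSieve

/-- pairs `(u, v)` in the smoothing -/
def prs (N L : ℕ) : Finset (ℕ × ℕ) := Icc 1 (N + L) ×ˢ range L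

/-- non-zero frequencies up to `H` -/
noncomputable def frq (H : ℕ) : Finset ℤ := (Icc (-(H : ℤ)) H).erase 0

/-- number of pairs whose difference has quotient `k` on division by `y` -/
def wk (N L y : ℕ) (k : ℤ) : ℕ :=
  ((prs N L).filter fun z : ℕ × ℕ => ((z.1 : ℤ) - z.2) / y = k).card

lemma card_prs (N L : ℕ) : (prs N L).card = (N + L) * L := by simp [prs]

lemma card_frq (H : ℕ) : (frq H).card = 2 * H := by
  unfold frq
  rw [card_erase_of_mem (by simp), Int.card_Icc]; omega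

lemma mem_frq {H : ℕ} {h : ℤ} (hh : h ∈ frq H) : h ≠ 0 ∧ |h| ≤ H := by
  unfold frq at hh
  rw [mem_erase, mem_Icc] at hh
  exact ⟨hh.1, abs_le.2 hh.2⟩

lemma wk_le (N L y : ℕ) (hy : 0 < y) (k : ℤ) : wk N L y k ≤ L * y := by
  have hy' : (0 : ℤ) < y := by exact_mod_cast hy
  have : (range L ×ˢ Ico (0 : ℤ) y).card = L * y := by simp
  rw [← this]
  refine card_le_card_of_injOn (fun z => (z.2, ((z.1 : ℤ) - z.2) % y)) ?_ ?_
  · intro z hz
    have hz := (mem_filter.1 (mem_coe.1 hz)).1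
    unfold prs at hz
    rw [mem_product] at hz
    rw [mem_coe, mem_product, mem_Ico]
    exact ⟨hz.2, Int.emod_nonneg _ hy'.ne', Int.emod_lt_of_pos _ hy'⟩
  · intro z hz w hw h
    have hz := (mem_filter.1 (mem_coe.1 hz)).2
    have hw := (mem_filter.1 (mem_coe.1 hw)).2
    simp only [Prod.mk.injEq] at h
    have e1 := Int.mul_ediv_add_emod ((z.1 : ℤ) - z.2) y
    have e2 := Int.mul_ediv_add_emod ((w.1 : ℤ) - w.2) y
    rw [hz] at e1
    rw [hw] at e2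
    obtain ⟨h1, h2⟩ := h
    have h3 : (z.2 : ℤ) = w.2 := by exact_mod_cast h1
    have h4 : (z.1 : ℤ) = w.1 := by linarith only [e1, e2, h1, h2]
    exact Prod.ext (by exact_mod_cast h4) h1

lemma cntw_eq (N L M H : ℕ) (hM : 0 < M) (x : ℤ) :
    (cntw N L M x : ℂ) = ∑ h ∈ Ico (-(H : ℤ)) (-(H : ℤ) + M), 1 / ((L : ℂ) * M) *
      ∑ z ∈ prs N L, ee ((h : ℝ) * (((((z.1 : ℤ) - z.2) - x : ℤ) : ℝ) / M)) := by
  have hM' : (M : ℂ) ≠ 0 := by exact_mod_cast hM.ne'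
  rw [← mul_sum, sum_comm]
  simp_rw [sum_Ico_ee M hM]
  unfold cntw prs
  rw [card_filter]
  push_cast
  rw [mul_sum, sum_div]
  refine sum_congr rfl fun z _ => ?_
  split_ifs
  · field_simp
    simp
  · simp

lemma split_Ico (M H : ℕ) (hM : 2 * H < M) (f : ℤ → ℂ) :
    ∑ h ∈ Ico (-(H : ℤ)) (-(H : ℤ) + M), f h
      = f 0 + ∑ h ∈ frq H, f h + ∑ h ∈ Ioo (H : ℤ) (M - H), f h := by
  have h1 : Ico (-(H : ℤ)) (-(H : ℤ) + M) = Icc (-(H : ℤ)) H ∪ Ioo (H : ℤ) (M - H) := by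
    ext h; simp only [mem_Ico, mem_union, mem_Icc, mem_Ioo]; omega
  have h2 : Disjoint (Icc (-(H : ℤ)) H) (Ioo (H : ℤ) (M - H)) := by
    rw [disjoint_left]; intro h a b
    rw [mem_Icc] at a; rw [mem_Ioo] at b; omega
  rw [h1, sum_union h2, frq, add_sum_erase _ _ (by simp)]

lemma tail_le (N L M H : ℕ) (hL : 0 < L) (hH : 0 < H) (hM : 0 < M) (x : ℤ) :
    ‖∑ h ∈ Ioo (H : ℤ) (M - H), 1 / ((L : ℂ) * M) *
      ∑ z ∈ prs N L, ee ((h : ℝ) * (((((z.1 : ℤ) - z.2) - x : ℤ) : ℝ) / M))‖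
      ≤ (M : ℝ) / (L * H) := by
  have hM' : (0 : ℝ) < M := by exact_mod_cast hM
  have hL' : (0 : ℝ) < L := by exact_mod_cast hL
  have hH' : (0 : ℝ) < H := by exact_mod_cast hH
  have h1 : ∀ h ∈ Ioo (H : ℤ) (M - H), ‖1 / ((L : ℂ) * M) *
      ∑ z ∈ prs N L, ee ((h : ℝ) * (((((z.1 : ℤ) - z.2) - x : ℤ) : ℝ) / M))‖
      ≤ 1 / ((L : ℝ) * M) * (1 / (2 * dZ ((h : ℝ) / M)) ^ 2) := by
    intro h hh
    rw [mem_Ioo] at hh
    have h0 : 0 < h := by omega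
    have h1 : h < M := by omega
    have hd : 0 < dZ ((h : ℝ) / M) := by
      refine lt_of_lt_of_le ?_ (inv_le_dZ M hM h fun hd => ?_)
      · positivity
      · have := Int.le_of_dvd h0 hd; omega
    have e : ∑ z ∈ prs N L, ee ((h : ℝ) * (((((z.1 : ℤ) - z.2) - x : ℤ) : ℝ) / M))
        = ee (-(x * ((h : ℝ) / M))) * ((∑ u ∈ Ioc 0 (N + L), ee (u * ((h : ℝ) / M))) *
          ∑ v ∈ range L, ee (v * (-((h : ℝ) / M)))) := by
      have : Icc 1 (N + L) = Ioc 0 (N + L) := by ext u; simp only [mem_Icc, mem_Ioc]; omega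
      rw [prs, this, sum_product, sum_mul_sum, mul_sum]
      refine sum_congr rfl fun u _ => ?_
      rw [mul_sum]
      refine sum_congr rfl fun v _ => ?_
      rw [← ee_add, ← ee_add]; congr 1; push_cast; ring
    rw [e, norm_mul, norm_mul, norm_mul, norm_ee, one_mul]
    have a1 := norm_sum_Ioc_ee_le 0 (N + L) _ hd
    have a2 := norm_sum_ee_le L (-((h : ℝ) / M)) (by rwa [dZ_neg])
    rw [dZ_neg] at a2
    have a3 : ‖1 / ((L : ℂ) * M)‖ = 1 / ((L : ℝ) * M) := by simp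
    rw [a3, sq, ← one_div_mul_one_div (2 * dZ ((h : ℝ) / M))]
    gcongr
  refine (norm_sum_le _ _).trans ((sum_le_sum h1).trans ?_)
  rw [← mul_sum]
  calc 1 / ((L : ℝ) * M) * ∑ h ∈ Ioo (H : ℤ) (M - H), 1 / (2 * dZ ((h : ℝ) / M)) ^ 2
      ≤ 1 / ((L : ℝ) * M) * ((M : ℝ) ^ 2 / (2 * H)) := by
        gcongr; exact sum_tail_le M H hM hH
    _ = (M : ℝ) / (L * H) / 2 := by field_simp
    _ ≤ (M : ℝ) / (L * H) := half_le_self (by positivity)

lemma mid_le (N L m y H : ℕ) (hL : 0 < L) (hm : 0 < m) (hy : 0 < y) (x : ℤ) (K : Finset ℤ)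
    (hK : ∀ z ∈ prs N L, ((z.1 : ℤ) - z.2) / y ∈ K) :
    ‖∑ h ∈ frq H, 1 / ((L : ℂ) * (m * y : ℕ)) *
        ∑ z ∈ prs N L, ee ((h : ℝ) * (((((z.1 : ℤ) - z.2) - x : ℤ) : ℝ) / (m * y : ℕ)))
      - ∑ h ∈ frq H, ∑ k ∈ K, ee (h * k / m) / m * ((wk N L y k : ℂ) / (L * y)) *
          ee (((-h : ℤ) : ℝ) * x / (m * y))‖
      ≤ 13 * (H : ℝ) ^ 2 * (N + L) / ((m : ℝ) ^ 2 * y) := by
  have hm' : (0 : ℝ) < m := by exact_mod_cast hm
  have hL' : (0 : ℝ) < L := by exact_mod_cast hL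
  have hy' : (0 : ℝ) < y := by exact_mod_cast hy
  have hyz : (0 : ℤ) < y := by exact_mod_cast hy
  have hmc : (m : ℂ) ≠ 0 := by exact_mod_cast hm.ne'
  have hLc : (L : ℂ) ≠ 0 := by exact_mod_cast hL.ne'
  have hyc : (y : ℂ) ≠ 0 := by exact_mod_cast hy.ne'
  rw [← sum_sub_distrib]
  have h1 : ∀ h ∈ frq H, ‖1 / ((L : ℂ) * (m * y : ℕ)) *
        ∑ z ∈ prs N L, ee ((h : ℝ) * (((((z.1 : ℤ) - z.2) - x : ℤ) : ℝ) / (m * y : ℕ)))
      - ∑ k ∈ K, ee (h * k / m) / m * ((wk N L y k : ℂ) / (L * y)) *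
          ee (((-h : ℤ) : ℝ) * x / (m * y))‖
      ≤ 2 * Real.pi * H * (N + L) / ((m : ℝ) ^ 2 * y) := by
    intro h hh
    have hH : |(h : ℝ)| ≤ H := by
      have := (mem_frq hh).2
      rw [← Int.cast_abs]; exact_mod_cast this
    have e1 : ∑ k ∈ K, ee (h * k / m) / m * ((wk N L y k : ℂ) / (L * y)) *
          ee (((-h : ℤ) : ℝ) * x / (m * y))
        = 1 / ((L : ℂ) * (m * y : ℕ)) * ∑ z ∈ prs N L,
          ee (h * ((((z.1 : ℤ) - z.2) / y : ℤ) : ℝ) / m + ((-h : ℤ) : ℝ) * x / (m * y)) := by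
      rw [← sum_fiberwise_of_maps_to hK, mul_sum]
      refine sum_congr rfl fun k _ => ?_
      rw [sum_congr rfl (g := fun _ => ee (h * k / m + ((-h : ℤ) : ℝ) * x / (m * y)))
        (fun z hz => by rw [(mem_filter.1 hz).2]), sum_const, nsmul_eq_mul, ee_add]
      unfold wk
      push_cast
      field_simp
    rw [e1, ← mul_sub, ← sum_sub_distrib, norm_mul]
    have a3 : ‖1 / ((L : ℂ) * (m * y : ℕ))‖ = 1 / ((L : ℝ) * (m * y)) := by simp
    have a4 : ∀ z ∈ prs N L,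
        ‖ee ((h : ℝ) * (((((z.1 : ℤ) - z.2) - x : ℤ) : ℝ) / (m * y : ℕ)))
          - ee (h * ((((z.1 : ℤ) - z.2) / y : ℤ) : ℝ) / m + ((-h : ℤ) : ℝ) * x / (m * y))‖
        ≤ 2 * Real.pi * (H / m) := by
      intro z _
      refine (norm_ee_sub_le _ _).trans ?_
      gcongr
      set d : ℤ := (z.1 : ℤ) - z.2
      have e2 := Int.mul_ediv_add_emod d y
      have b1 := Int.emod_nonneg d hyz.ne'
      have b2 := Int.emod_lt_of_pos d hyz
      have e3 : (d : ℝ) = y * ((d / y : ℤ) : ℝ) + ((d % y : ℤ) : ℝ) := by exact_mod_cast e2.symm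
      have b1' : (0 : ℝ) ≤ ((d % y : ℤ) : ℝ) := by exact_mod_cast b1
      have b2' : ((d % y : ℤ) : ℝ) ≤ y := by exact_mod_cast b2.le
      have e4 : (h : ℝ) * (((d - x : ℤ) : ℝ) / (m * y : ℕ))
          - (h * ((d / y : ℤ) : ℝ) / m + ((-h : ℤ) : ℝ) * x / (m * y))
          = h / m * (((d % y : ℤ) : ℝ) / y) := by
        rw [Int.cast_sub, e3]
        push_cast [Int.cast_neg]
        field_simp
        ring
      rw [e4, abs_mul, abs_div, abs_of_pos hm', abs_of_nonneg (div_nonneg b1' hy'.le)]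
      have b3 : ((d % y : ℤ) : ℝ) / y ≤ 1 := by rwa [div_le_one hy']
      calc |(h : ℝ)| / m * (((d % y : ℤ) : ℝ) / y) ≤ H / m * 1 := by gcongr
        _ = H / m := mul_one _
    have a5 := (norm_sum_le _ _).trans (sum_le_sum a4)
    rw [sum_const, card_prs, nsmul_eq_mul] at a5
    rw [a3]
    refine (mul_le_mul_of_nonneg_left a5 (by positivity)).trans (le_of_eq ?_)
    push_cast
    field_simp
  refine (norm_sum_le _ _).trans ((sum_le_sum h1).trans ?_)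
  rw [sum_const, card_frq, nsmul_eq_mul]
  have hpi := Real.pi_lt_d2
  push_cast
  rw [← mul_div_assoc]
  gcongr ?_ / _
  have : (0 : ℝ) ≤ (H : ℝ) ^ 2 * (N + L) := by positivity
  linarith only [this, hpi, mul_nonneg_of_nonpos_of_nonpos (le_of_lt (Mathlib.Tactic.Linarith.sub_neg_of_lt hpi)) (Mathlib.Tactic.Linarith.sub_nonpos_of_le this)]

lemma pair_le (N L m y H : ℕ) (hL : 0 < L) (hH : 0 < H) (hm : 2 * H < m) (hy : 0 < y) (x : ℤ)
    (K : Finset ℤ) (hK : ∀ z ∈ prs N L, ((z.1 : ℤ) - z.2) / y ∈ K) :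
    ‖((cntw N L (m * y) x - ((N : ℝ) + L) / (m * y) : ℝ) : ℂ)
      - ∑ h ∈ frq H, ∑ k ∈ K, ee (h * k / m) / m * ((wk N L y k : ℂ) / (L * y)) *
          ee (((-h : ℤ) : ℝ) * x / (m * y))‖
      ≤ (m : ℝ) * y / (L * H) + 13 * (H : ℝ) ^ 2 * (N + L) / ((m : ℝ) ^ 2 * y) := by
  have hm0 : 0 < m := by omega
  have hM : 0 < m * y := Nat.mul_pos hm0 hy
  have hM2 : 2 * H < m * y := lt_of_lt_of_le hm (Nat.le_mul_of_pos_right _ hy)
  have hmc : (m : ℂ) ≠ 0 := by exact_mod_cast hm0.ne'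
  have hLc : (L : ℂ) ≠ 0 := by exact_mod_cast hL.ne'
  have hyc : (y : ℂ) ≠ 0 := by exact_mod_cast hy.ne'
  have t1 := tail_le N L (m * y) H hL hH hM x
  have t2 := mid_le N L m y H hL hm0 hy x K hK
  rw [Complex.ofReal_sub, cntw_eq N L (m * y) H hM x, split_Ico _ _ hM2]
  have e0 : 1 / ((L : ℂ) * (m * y : ℕ)) * ∑ z ∈ prs N L,
      ee (((0 : ℤ) : ℝ) * (((((z.1 : ℤ) - z.2) - x : ℤ) : ℝ) / (m * y : ℕ)))
      = ((((N : ℝ) + L) / (m * y) : ℝ) : ℂ) := by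
    simp only [Int.cast_zero, zero_mul, ee_zero, sum_const, card_prs, nsmul_eq_mul]
    push_cast
    field_simp
  rw [e0]
  have t3 := (norm_add_le _ _).trans (add_le_add t1 t2)
  rw [Nat.cast_mul m y (α := ℝ)] at t3
  refine le_trans (le_of_eq ?_) t3
  congr 1
  rw [Nat.cast_mul m y (α := ℝ)]
  ring

end Pool.Agent.Work.MP_51e72e_nt.Cub
end

-- merged part: Pool.Agent.Work.MP_51e72e_nt.CubSep
section
/-!
From bilinear exponential sums to smoothed counts in residue classes.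
-/

set_option autoImplicit false

namespace Pool.Agent.Work.MP_51e72e_nt.Cub

open Finset Pool.Agent.Lib.LargeSieve

theorem abs_cntw_sub_le (N L M : ℕ) (hL : 0 < L) (hM : 0 < M) (x : ℤ) :
    |cntw N L M x - ((N : ℝ) + L) / M| ≤ 1 := by
  have hL' : (0 : ℝ) < L := by exact_mod_cast hL
  have hMz : (0 : ℤ) < M := by exact_mod_cast hM
  have h1 : ∀ v ∈ range L, |(((Icc 1 (N + L)).filter
      fun u : ℕ => (M : ℤ) ∣ ((u : ℤ) - v) - x).card : ℝ) - ((N : ℝ) + L) / M| ≤ 1 := by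
    intro v _
    have h2 := Pool.Agent.Lib.ANT.abs_card_modEq_sub_le 0 (N + L) M ((v + x) % M).toNat hM
    have h3 : (Icc 1 (N + L)).filter (fun u : ℕ => (M : ℤ) ∣ ((u : ℤ) - v) - x)
        = (Ioc 0 (0 + (N + L))).filter (fun u => u ≡ ((v + x) % M).toNat [MOD M]) := by
      ext u
      simp only [mem_filter, mem_Icc, mem_Ioc, zero_add]
      refine and_congr (by omega) ?_
      rw [← Int.natCast_modEq_iff, Int.toNat_of_nonneg (Int.emod_nonneg _ hMz.ne')]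
      have h4 : ((v : ℤ) + x) % M ≡ v + x [ZMOD M] := Int.mod_modEq _ _
      constructor
      · intro h
        refine Int.ModEq.trans ?_ h4.symm
        refine (Int.modEq_iff_dvd.2 ?_).symm
        convert h using 1; ring
      · intro h
        have := (h.trans h4).symm.dvd
        convert this using 1; ring
    rw [h3]
    push_cast at h2
    exact h2
  have h5 : cntw N L M x - ((N : ℝ) + L) / M = (∑ v ∈ range L, ((((Icc 1 (N + L)).filter
      fun u : ℕ => (M : ℤ) ∣ ((u : ℤ) - v) - x).card : ℝ) - ((N : ℝ) + L) / M)) / L := by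
    unfold cntw
    rw [sum_sub_distrib, sum_const, card_range, nsmul_eq_mul, card_filter, sum_product_right]
    simp_rw [card_filter]
    push_cast
    field_simp
  rw [h5, abs_div, abs_of_pos hL', div_le_one hL']
  refine (abs_sum_le_sum_abs _ _).trans ((sum_le_sum h1).trans ?_)
  simp

theorem sep_bound {ι κ : Type*} (I : Finset ι) (J : Finset κ) (m : ι → ℕ) (y : κ → ℕ)
    (n : ι → κ → ℤ) (N L H M0 M1 Y0 Y1 : ℕ) (Bd : ℝ)
    (hm : ∀ i ∈ I, M0 ≤ m i ∧ m i ≤ M1) (hy : ∀ j ∈ J, Y0 ≤ y j ∧ y j ≤ Y1)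
    (hY0 : 0 < Y0) (hL : 0 < L) (hH : 0 < H) (hHM : 2 * H < M0)
    (hB : ∀ h : ℤ, h ≠ 0 → |h| ≤ H → ∀ (z : ι → ℂ) (β : κ → ℂ), (∀ i ∈ I, ‖z i‖ ≤ 1) →
      (∀ j ∈ J, ‖β j‖ ≤ 1) →
      ‖∑ i ∈ I, ∑ j ∈ J, if Nat.Coprime (m i) (y j) then
        z i * β j * ee ((h : ℝ) * n i j / (m i * y j)) else 0‖ ≤ Bd)
    (a : ι → ℝ) (b : κ → ℝ) (ha : ∀ i ∈ I, |a i| ≤ 1) (hb : ∀ j ∈ J, |b j| ≤ 1) :
    |∑ i ∈ I, ∑ j ∈ J, if Nat.Coprime (m i) (y j) then
        a i * b j * (cntw N L (m i * y j) (n i j) - ((N : ℝ) + L) / (m i * y j)) else 0|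
      ≤ 2 * H * (((N : ℝ) + 2 * L) / Y0 + 2) * Bd / M0
        + I.card * J.card * ((M1 : ℝ) * Y1 / (L * H)
          + 13 * (H : ℝ) ^ 2 * (N + L) / ((M0 : ℝ) ^ 2 * Y0)) := by
  have hM0 : 0 < M0 := by omega
  have hM0' : (0 : ℝ) < M0 := by exact_mod_cast hM0
  have hM0c : (M0 : ℂ) ≠ 0 := by exact_mod_cast hM0.ne'
  have hL' : (0 : ℝ) < L := by exact_mod_cast hL
  have hH' : (0 : ℝ) < H := by exact_mod_cast hH
  have hY0' : (0 : ℝ) < Y0 := by exact_mod_cast hY0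
  have hBd : 0 ≤ Bd :=
    (norm_nonneg _).trans (hB 1 one_ne_zero (by rw [abs_one]; omega) 0 0 (by simp) (by simp))
  set K : Finset ℤ := Icc (-((L / Y0 : ℕ) : ℤ) - 1) (((N + L) / Y0 : ℕ) : ℤ) with hKdef
  have hK : ∀ j ∈ J, ∀ z ∈ prs N L, ((z.1 : ℤ) - z.2) / y j ∈ K := by
    clear * - κ J N L Y0 y Y1 hy hY0 K hKdef a
    intro j hj z hz
    have hyj := (hy j hj).1
    have hy0 : (0 : ℤ) < y j := by exact_mod_cast lt_of_lt_of_le hY0 hyj
    unfold prs at hz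
    rw [mem_product, mem_Icc, mem_range] at hz
    have a1 : L < (L / Y0 + 1) * y j := by
      have := Nat.lt_div_mul_add (a := L) hY0
      calc L < L / Y0 * Y0 + Y0 := this
        _ = (L / Y0 + 1) * Y0 := by ring
        _ ≤ _ := Nat.mul_le_mul_left _ hyj
    have a2 : N + L < ((N + L) / Y0 + 1) * y j := by
      have := Nat.lt_div_mul_add (a := N + L) hY0
      calc N + L < (N + L) / Y0 * Y0 + Y0 := this
        _ = ((N + L) / Y0 + 1) * Y0 := by ring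
        _ ≤ _ := Nat.mul_le_mul_left _ hyj
    have a1' : (L : ℤ) < (((L / Y0 : ℕ) : ℤ) + 1) * y j := by exact_mod_cast a1
    have a2' : (N : ℤ) + L < ((((N + L) / Y0 : ℕ) : ℤ) + 1) * y j := by exact_mod_cast a2
    have b1 : (z.1 : ℤ) ≤ N + L := by exact_mod_cast hz.1.2
    have b2 : (z.2 : ℤ) < L := by exact_mod_cast hz.2
    have b3 : (0 : ℤ) ≤ z.1 := by positivity
    have b4 : (0 : ℤ) ≤ z.2 := by positivity
    rw [hKdef, mem_Icc]
    constructor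
    · rw [Int.le_ediv_iff_mul_le hy0]; linarith only [hz, a1']
    · rw [← Int.lt_add_one_iff, Int.ediv_lt_iff_lt_mul hy0]; linarith only [hz, a2']
  have hKc : (K.card : ℝ) ≤ ((N : ℝ) + 2 * L) / Y0 + 2 := by
    clear * - K L Y0 N hKdef H M0
    have c1 : K.card = L / Y0 + (N + L) / Y0 + 2 := by
      rw [hKdef, Int.card_Icc]
      generalize L / Y0 = p
      generalize (N + L) / Y0 = q
      omega
    have c2 : ((L / Y0 : ℕ) : ℝ) ≤ (L : ℝ) / Y0 := Nat.cast_div_le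
    have c3 : (((N + L) / Y0 : ℕ) : ℝ) ≤ ((N + L : ℕ) : ℝ) / Y0 := Nat.cast_div_le
    have c4 : ((N : ℝ) + 2 * L) / Y0 = (L : ℝ) / Y0 + ((N + L : ℕ) : ℝ) / Y0 := by
      push_cast; ring
    rw [c1, c4, Nat.cast_add, Nat.cast_add]
    push_cast [-Nat.cast_add] at *
    linarith only [c2, c3]
  set F : ι → κ → ℂ := fun i j => ∑ h ∈ frq H, ∑ k ∈ K,
    ee (h * k / m i) / m i * ((wk N L (y j) k : ℂ) / (L * y j)) *
      ee (((-h : ℤ) : ℝ) * n i j / (m i * y j)) with hF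
  set G : ι → κ → ℝ := fun i j =>
    cntw N L (m i * y j) (n i j) - ((N : ℝ) + L) / (m i * y j) with hG
  have e1 : ((∑ i ∈ I, ∑ j ∈ J, if Nat.Coprime (m i) (y j) then a i * b j * G i j else 0 : ℝ) : ℂ)
      = (∑ i ∈ I, ∑ j ∈ J, if Nat.Coprime (m i) (y j) then (a i : ℂ) * b j * F i j else 0)
        + ∑ i ∈ I, ∑ j ∈ J, if Nat.Coprime (m i) (y j) then
          (a i : ℂ) * b j * ((G i j : ℂ) - F i j) else 0 := by
    rw [← sum_add_distrib, Complex.ofReal_sum]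
    refine sum_congr rfl fun i _ => ?_
    rw [← sum_add_distrib, Complex.ofReal_sum]
    refine sum_congr rfl fun j _ => ?_
    split_ifs
    · push_cast; ring
    · simp
  have e2 : (∑ i ∈ I, ∑ j ∈ J, if Nat.Coprime (m i) (y j) then (a i : ℂ) * b j * F i j else 0)
      = ∑ h ∈ frq H, ∑ k ∈ K, 1 / (M0 : ℂ) * ∑ i ∈ I, ∑ j ∈ J, if Nat.Coprime (m i) (y j) then
        ((a i : ℂ) * (M0 / m i) * ee (h * k / m i)) *
          ((b j : ℂ) * ((wk N L (y j) k : ℂ) / (L * y j))) *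
          ee (((-h : ℤ) : ℝ) * n i j / (m i * y j)) else 0 := by
    clear * - ι I κ J m y a b F H K M0 N L n hF hM0c
    simp_rw [mul_sum]
    symm
    calc _ = ∑ h ∈ frq H, ∑ i ∈ I, ∑ j ∈ J, ∑ k ∈ K, _ := by
            refine sum_congr rfl fun h _ => ?_
            rw [sum_comm]
            refine sum_congr rfl fun i _ => ?_
            rw [sum_comm]
      _ = ∑ i ∈ I, ∑ j ∈ J, ∑ h ∈ frq H, ∑ k ∈ K, _ := by
            rw [sum_comm]
            refine sum_congr rfl fun i _ => ?_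
            rw [sum_comm]
      _ = _ := by
            refine sum_congr rfl fun i _ => sum_congr rfl fun j _ => ?_
            split_ifs
            · simp only [hF, mul_sum]
              refine sum_congr rfl fun h _ => sum_congr rfl fun k _ => ?_
              clear * - M0 a i m h k b j N L y n hM0c; field_simp
            · simp
  have b1 : ‖∑ i ∈ I, ∑ j ∈ J, if Nat.Coprime (m i) (y j) then (a i : ℂ) * b j * F i j else 0‖
      ≤ 2 * H * (((N : ℝ) + 2 * L) / Y0 + 2) * Bd / M0 := by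
    rw [e2]
    have c1 : ∀ h ∈ frq H, ‖∑ k ∈ K, 1 / (M0 : ℂ) * ∑ i ∈ I, ∑ j ∈ J,
        if Nat.Coprime (m i) (y j) then
        ((a i : ℂ) * (M0 / m i) * ee (h * k / m i)) *
          ((b j : ℂ) * ((wk N L (y j) k : ℂ) / (L * y j))) *
          ee (((-h : ℤ) : ℝ) * n i j / (m i * y j)) else 0‖ ≤ K.card * (Bd / M0) := by
      intro h hh
      obtain ⟨h0, h1⟩ := mem_frq hh
      rw [← nsmul_eq_mul]
      refine (norm_sum_le _ _).trans (sum_le_card_nsmul _ _ _ fun k _ => ?_)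
      rw [norm_mul]
      have d1 : ‖1 / (M0 : ℂ)‖ = 1 / (M0 : ℝ) := by simp
      have d2 := hB (-h) (neg_ne_zero.2 h0) (by rwa [abs_neg])
        (fun i => (a i : ℂ) * (M0 / m i) * ee (h * k / m i))
        (fun j => (b j : ℂ) * ((wk N L (y j) k : ℂ) / (L * y j)))
        (fun i hi => by
          clear * - M0 m i M1 hm hi hM0' a h k ha hM0
          have f1 : (M0 : ℝ) ≤ m i := by exact_mod_cast (hm i hi).1
          have f2 : (M0 : ℝ) / m i ≤ 1 := by rwa [div_le_one (by linarith only [hM0', f1])]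
          simp only [norm_mul, norm_ee, mul_one, norm_div, Complex.norm_natCast,
            Complex.norm_real, Real.norm_eq_abs]
          exact mul_le_one₀ (ha i hi) (by positivity) f2)
        (fun j hj => by
          clear * - y j Y0 hY0 Y1 hy hj N L k hL b hb
          have f0 : 0 < y j := lt_of_lt_of_le hY0 (hy j hj).1
          have f1 : (wk N L (y j) k : ℝ) ≤ L * y j := by exact_mod_cast wk_le N L (y j) f0 k
          have f3 : (0 : ℝ) < y j := by exact_mod_cast f0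
          have f2 : (wk N L (y j) k : ℝ) / (L * y j) ≤ 1 := by
            rwa [div_le_one (by positivity)]
          simp only [norm_mul, norm_div, Complex.norm_natCast,
            Complex.norm_real, Real.norm_eq_abs]
          exact mul_le_one₀ (hb j hj) (by positivity) f2)
      rw [d1, one_div_mul_eq_div]
      gcongr
    refine (norm_sum_le _ _).trans ((sum_le_card_nsmul _ _ _ c1).trans ?_)
    rw [card_frq, nsmul_eq_mul]
    push_cast
    calc 2 * (H : ℝ) * (K.card * (Bd / M0))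
        ≤ 2 * H * ((((N : ℝ) + 2 * L) / Y0 + 2) * (Bd / M0)) := by clear * - H K Bd M0 N L Y0 hKc hBd hM0 hH; gcongr
      _ = _ := by ring
  have b2 : ‖∑ i ∈ I, ∑ j ∈ J, if Nat.Coprime (m i) (y j) then
        (a i : ℂ) * b j * ((G i j : ℂ) - F i j) else 0‖
      ≤ I.card * J.card * ((M1 : ℝ) * Y1 / (L * H)
          + 13 * (H : ℝ) ^ 2 * (N + L) / ((M0 : ℝ) ^ 2 * Y0)) := by
    rw [mul_assoc, ← nsmul_eq_mul, ← nsmul_eq_mul]
    refine (norm_sum_le _ _).trans (sum_le_card_nsmul _ _ _ fun i hi => ?_)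
    refine (norm_sum_le _ _).trans (sum_le_card_nsmul _ _ _ fun j hj => ?_)
    split_ifs
    · have f0 : 0 < y j := lt_of_lt_of_le hY0 (hy j hj).1
      have p := pair_le N L (m i) (y j) H hL hH (lt_of_lt_of_le hHM (hm i hi).1) f0 (n i j) K
        (hK j hj)
      have f1 : (M0 : ℝ) ≤ m i := by exact_mod_cast (hm i hi).1
      have f2 : (m i : ℝ) ≤ M1 := by exact_mod_cast (hm i hi).2
      have f3 : (Y0 : ℝ) ≤ y j := by exact_mod_cast (hy j hj).1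
      have f4 : (y j : ℝ) ≤ Y1 := by exact_mod_cast (hy j hj).2
      have f5 : ‖(a i : ℂ) * b j‖ ≤ 1 := by
        simp only [norm_mul, Complex.norm_real, Real.norm_eq_abs]
        exact mul_le_one₀ (ha i hi) (abs_nonneg _) (hb j hj)
      rw [norm_mul]
      refine (mul_le_of_le_one_left (norm_nonneg _) f5).trans (p.trans ?_)
      clear * - m i y j L H M1 Y1 N M0 Y0 f2 f4 f0 hL hH hM0 hY0 f1 f3; gcongr
    · rw [norm_zero]; clear * - M1 Y1 L H N M0 Y0 hL hH hM0 hY0; positivity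
  rw [← Real.norm_eq_abs, ← Complex.norm_real]
  change ‖((∑ i ∈ I, ∑ j ∈ J, if Nat.Coprime (m i) (y j) then a i * b j * G i j else 0 : ℝ) : ℂ)‖
    ≤ _
  rw [e1]
  exact (norm_add_le _ _).trans (add_le_add b1 b2)

/-- an arithmetic progression condition on a difference costs a logarithm in bilinear sums -/
theorem bil_ap_le {ι : Type*} (I : Finset ι) (a : ι → ℤ) (A Y0 Y1 : ℕ) (t : ℤ) (ht : t ≠ 0)
    (ha : ∀ i ∈ I, |a i| ≤ A) (Kf : ι → ι → ℂ) (Bd : ℝ)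
    (hB : ∀ z z' : ι → ℂ, (∀ i ∈ I, ‖z i‖ ≤ 1) → (∀ i ∈ I, ‖z' i‖ ≤ 1) →
      ‖∑ i ∈ I, ∑ j ∈ I, z i * z' j * Kf i j‖ ≤ Bd)
    (z z' : ι → ℂ) (hz : ∀ i ∈ I, ‖z i‖ ≤ 1) (hz' : ∀ i ∈ I, ‖z' i‖ ≤ 1) :
    ‖∑ i ∈ I, ∑ j ∈ I, ∑ y ∈ Ioc Y0 Y1,
        if a j - a i = t * y then z i * z' j * Kf i j else 0‖
      ≤ (2 + Real.log (2 * A + Y1 + 1)) * Bd := by
  have hBd : 0 ≤ Bd := (norm_nonneg _).trans (hB 0 0 (by simp) (by simp))
  set L0 : ℕ := 2 * A + Y1 + 1 with hL0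
  set T : ℕ := t.natAbs with hT
  have hT0 : 0 < T := Int.natAbs_pos.2 ht
  have hL : 0 < L0 := by omega
  have hQ : 0 < T * L0 := Nat.mul_pos hT0 hL
  have hT' : (0 : ℝ) < T := by exact_mod_cast hT0
  have hL' : (0 : ℝ) < L0 := by exact_mod_cast hL
  have hQc : ((T * L0 : ℕ) : ℂ) ≠ 0 := by exact_mod_cast hQ.ne'
  obtain ⟨s, hs, hst⟩ : ∃ s : ℤ, (s = 1 ∨ s = -1) ∧ t = s * T := by
    rcases Int.natAbs_eq t with h | h
    · exact ⟨1, Or.inl rfl, by rw [one_mul]; exact h⟩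
    · exact ⟨-1, Or.inr rfl, by rw [neg_one_mul]; exact h⟩
  have e1 : ∀ i ∈ I, ∀ j ∈ I, ∀ y ∈ Ioc Y0 Y1,
      (if a j - a i = t * y then z i * z' j * Kf i j else 0)
      = ∑ x ∈ range (T * L0), 1 / ((T * L0 : ℕ) : ℂ) * ee (y * (-s * x / L0)) *
        (z i * ee (-(x * a i / (T * L0 : ℕ))) * (z' j * ee (x * a j / (T * L0 : ℕ))) * Kf i j) := by
    intro i hi j hj y hy
    have h1 := sum_range_ee (T * L0) hQ (a j - a i - t * y)
    have h2 : ∑ x ∈ range (T * L0), 1 / ((T * L0 : ℕ) : ℂ) * ee (y * (-s * x / L0)) *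
        (z i * ee (-(x * a i / (T * L0 : ℕ))) * (z' j * ee (x * a j / (T * L0 : ℕ))) * Kf i j)
        = 1 / ((T * L0 : ℕ) : ℂ) * (z i * z' j * Kf i j) * ∑ x ∈ range (T * L0),
          ee ((x : ℝ) * (((a j - a i - t * y : ℤ) : ℝ) / (T * L0 : ℕ))) := by
      clear * - T L0 y s z i a z' j Kf t hst hT0 hL
      rw [mul_sum]
      refine sum_congr rfl fun x _ => ?_
      have : (x : ℝ) * (((a j - a i - t * y : ℤ) : ℝ) / (T * L0 : ℕ))
          = y * (-s * x / L0) + (-(x * a i / (T * L0 : ℕ)) + x * a j / (T * L0 : ℕ)) := by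
        rw [hst]; push_cast; field_simp; ring
      rw [this, ee_add, ee_add]; ring
    rw [h2, h1]
    have h3 : ((T * L0 : ℕ) : ℤ) ∣ a j - a i - t * y ↔ a j - a i = t * y := by
      constructor
      · intro h
        have b1 := abs_le.1 (ha i hi)
        have b2 := abs_le.1 (ha j hj)
        have b3 : (y : ℤ) ≤ Y1 := by exact_mod_cast (mem_Ioc.1 hy).2
        have b4 : (0 : ℤ) ≤ y := by positivity
        have b5 : (1 : ℤ) ≤ T := by exact_mod_cast hT0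
        have b6 : (0 : ℤ) ≤ A := by positivity
        have b7 : ((T * L0 : ℕ) : ℤ) = T * (2 * A + Y1 + 1) := by rw [hL0]; push_cast; ring
        have := Int.eq_zero_of_abs_lt_dvd h (by
          clear * - a j i t y T L0 A Y1 b7 s hst hs z z' Kf hT0 b1 b2 b3 h2
          rw [b7, hst, abs_lt]
          rcases hs with rfl | rfl <;> constructor <;> nlinarith only [hT0, b1, b2, b3])
        linarith only [this]
      · intro h; rw [h, sub_self]; exact dvd_zero _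
    by_cases h : a j - a i = t * y
    · rw [if_pos h, if_pos (h3.2 h)]; field_simp
    · rw [if_neg h, if_neg (fun h' => h (h3.1 h')), mul_zero]
  have e2 : (∑ i ∈ I, ∑ j ∈ I, ∑ y ∈ Ioc Y0 Y1,
        if a j - a i = t * y then z i * z' j * Kf i j else 0)
      = ∑ x ∈ range (T * L0), 1 / ((T * L0 : ℕ) : ℂ) * (∑ y ∈ Ioc Y0 Y1, ee (y * (-s * x / L0))) *
        ∑ i ∈ I, ∑ j ∈ I,
        (z i * ee (-(x * a i / (T * L0 : ℕ))) * (z' j * ee (x * a j / (T * L0 : ℕ))) * Kf i j) := by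
    rw [sum_congr rfl fun i hi => sum_congr rfl fun j hj => sum_congr rfl fun y hy =>
      e1 i hi j hj y hy]
    simp_rw [mul_sum, sum_mul]
    symm
    rw [sum_comm]
    refine sum_congr rfl fun i _ => ?_
    rw [sum_comm]
    refine sum_congr rfl fun j _ => ?_
    rw [sum_comm]
  set g : ℕ → ℝ := fun x => ‖∑ y ∈ Ioc Y0 Y1, ee (y * (-s * x / L0))‖ with hg
  have hper : ∀ k x, g (k * L0 + x) = g x := by
    clear * - g L0 Y0 Y1 s hg hL
    intro k x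
    simp only [hg]
    congr 1
    refine sum_congr rfl fun y _ => ?_
    rw [← ee_add_int (y * (-s * x / L0)) (-(y * s * k))]
    congr 1
    push_cast; field_simp; ring
  have hg0 : g 0 ≤ L0 := by
    simp only [hg]
    refine (norm_sum_le _ _).trans ?_
    simp only [norm_ee, sum_const, Nat.card_Ioc, nsmul_eq_mul, mul_one]
    exact_mod_cast (by omega : Y1 - Y0 ≤ L0)
  have hnd : ∀ x ∈ (range L0).erase 0, 1 / (L0 : ℝ) ≤ dZ ((x : ℝ) / L0) := by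
    intro x hx
    rw [mem_erase, mem_range] at hx
    have := inv_le_dZ L0 hL x fun h => by
      have := Int.le_of_dvd (by omega) h; omega
    simpa using this
  have hg1 : ∑ x ∈ (range L0).erase 0, g x ≤ L0 * HH L0 := by
    refine le_trans (sum_le_sum fun x hx => ?_)
      (sum_inv_dZ_le ((range L0).erase 0) (fun x : ℕ => (x : ℝ) / L0) L0 hL hnd ?_)
    · have h1 : dZ (-s * x / L0) = dZ ((x : ℝ) / L0) := by
        rcases hs with rfl | rfl
        · rw [← dZ_neg]; congr 1; push_cast; ring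
        · congr 1; push_cast; ring
      rw [← h1]
      refine norm_sum_Ioc_ee_le _ _ _ ?_
      rw [h1]
      exact lt_of_lt_of_le (by positivity) (hnd x hx)
    · intro x hx w hw hxw
      rw [mem_erase, mem_range] at hx hw
      have := inv_le_dZ L0 hL ((x : ℤ) - w) fun h => by
        have := Int.eq_zero_of_abs_lt_dvd h (by rw [abs_lt]; omega)
        omega
      rw [← sub_div]
      simpa using this
  have hsum : ∑ x ∈ range (T * L0), g x ≤ T * L0 * (2 + Real.log L0) := by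
    rw [sum_range_mul_periodic g L0 hper, ← add_sum_erase _ _ (mem_range.2 hL), mul_assoc]
    have := HH_le L0
    gcongr
    linarith only [hg0, hg1, this, mul_nonneg_of_nonpos_of_nonpos (Mathlib.Tactic.Linarith.sub_nonpos_of_le (Mathlib.Tactic.Linarith.natCast_nonneg ℝ L0)) (Mathlib.Tactic.Linarith.sub_nonpos_of_le this)]
  rw [e2]
  have b1 : ∀ x ∈ range (T * L0),
      ‖1 / ((T * L0 : ℕ) : ℂ) * (∑ y ∈ Ioc Y0 Y1, ee (y * (-s * x / L0))) * ∑ i ∈ I, ∑ j ∈ I,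
        (z i * ee (-(x * a i / (T * L0 : ℕ))) * (z' j * ee (x * a j / (T * L0 : ℕ))) * Kf i j)‖
      ≤ Bd / (T * L0) * g x := by
    clear * - T L0 ι I z a z' Kf Bd hB hz hz' Y0 Y1 s g t ht A
    intro x _
    have c1 := hB (fun i => z i * ee (-(x * a i / (T * L0 : ℕ))))
      (fun j => z' j * ee (x * a j / (T * L0 : ℕ)))
      (fun i hi => by simpa using hz i hi) (fun i hi => by simpa using hz' i hi)
    have c2 : ‖1 / ((T * L0 : ℕ) : ℂ)‖ = 1 / ((T : ℝ) * L0) := by simp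
    rw [norm_mul, norm_mul, c2]
    calc _ ≤ 1 / ((T : ℝ) * L0) * g x * Bd := by gcongr
      _ = _ := by ring
  refine (norm_sum_le _ _).trans ((sum_le_sum b1).trans ?_)
  rw [← mul_sum]
  have e3 : (2 * A + Y1 + 1 : ℝ) = L0 := by rw [hL0]; push_cast; ring
  rw [e3]
  calc Bd / (T * L0) * ∑ x ∈ range (T * L0), g x
      ≤ Bd / (T * L0) * (T * L0 * (2 + Real.log L0)) := by clear * - Bd T L0 g hsum hBd t ht A Y1; gcongr
    _ = _ := by field_simp

end Pool.Agent.Work.MP_51e72e_nt.Cub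
end

-- merged part: Pool.Agent.Work.MP_51e72e_nt.CubVdc
section
/-!
Van der Corput differencing along residue classes, in abstract form.
-/

set_option autoImplicit false

namespace Pool.Agent.Work.MP_51e72e_nt.Cub

open Finset Pool.Agent.Lib.LargeSieve

lemma sum_comp_le_mult {κ : Type*} (J : Finset κ) (y : κ → ℕ) (S : Finset ℕ) (D : ℕ)
    (hy : ∀ j ∈ J, y j ∈ S) (hJ : ∀ x : ℕ, (J.filter fun j => y j = x).card ≤ D) (F : ℕ → ℝ)
    (hF : ∀ x ∈ S, 0 ≤ F x) : ∑ j ∈ J, F (y j) ≤ D * ∑ x ∈ S, F x := by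
  rw [← sum_fiberwise_of_maps_to hy, mul_sum]
  refine sum_le_sum fun x hx => ?_
  rw [sum_congr rfl (fun j hj => by rw [(mem_filter.mp hj).2]), sum_const, nsmul_eq_mul]
  exact mul_le_mul_of_nonneg_right (by exact_mod_cast hJ x) (hF x hx)

lemma card_le_mult {ι : Type*} (I : Finset ι) (a : ι → ℤ) (A D : ℕ) (ha : ∀ i ∈ I, |a i| ≤ A)
    (hI : ∀ x : ℤ, (I.filter fun i => a i = x).card ≤ D) : I.card ≤ (2 * A + 1) * D := by
  have h : ∀ i ∈ I, a i ∈ Icc (-(A : ℤ)) A := fun i hi => mem_Icc.mpr (abs_le.mp (ha i hi))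
  rw [card_eq_sum_card_fiberwise h]
  refine (sum_le_card_nsmul _ _ D fun x _ => hI x).trans ?_
  rw [Int.card_Icc, smul_eq_mul]
  exact Nat.mul_le_mul_right _ (by omega)

/-- the quadratic form attached to a residue class -/
noncomputable def qForm {ι : Type*} (I : Finset ι) (a : ι → ℤ) (Kt : ℤ → ι → ι → ℂ) (z : ι → ℂ)
    (σ u : ℤ) : ℂ :=
  ∑ i ∈ I.filter (fun i => a i % σ = u), ∑ j ∈ I.filter (fun i => a i % σ = u),
    z i * (starRingEnd ℂ) (z j) * Kt ((a j - a i) / σ) i j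

lemma sub_eq_of_emod {σ x x' : ℤ} (h : x % σ = x' % σ) : x' - x = σ * ((x' - x) / σ) :=
  (Int.mul_ediv_cancel' (Int.ModEq.dvd h)).symm

lemma qForm_eq_sq {ι : Type*} (I : Finset ι) (a : ι → ℤ) (Kt : ℤ → ι → ι → ℂ) (z : ι → ℂ)
    (σ u : ℤ) (ψ : ι → ℂ)
    (h : ∀ i ∈ I, ∀ j ∈ I, a i % σ = u → a j % σ = u →
      ψ i * (starRingEnd ℂ) (ψ j) = Kt ((a j - a i) / σ) i j) :
    (qForm I a Kt z σ u).re = ‖∑ i ∈ I.filter (fun i => a i % σ = u), z i * ψ i‖ ^ 2 := by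
  have := normSq_sum_eq (I.filter (fun i => a i % σ = u)) (fun i => z i * ψ i)
  rw [← Complex.ofReal_re (‖_‖ ^ 2), this, qForm]
  congr 1
  refine sum_congr rfl fun i hi => sum_congr rfl fun j hj => ?_
  rw [mem_filter] at hi hj
  rw [← h i hi.1 j hj.1 hi.2 hj.2, map_mul]; ring

lemma qForm_nonneg {ι : Type*} (I : Finset ι) (a : ι → ℤ) (Kt : ℤ → ι → ι → ℂ) (z : ι → ℂ)
    {σ : ℤ} (hσ : σ ≠ 0) (u : ℤ)
    (H3 : ∀ i0 ∈ I, ∀ i1 ∈ I, ∀ i2 ∈ I, ∀ t1 t2 : ℤ, a i1 - a i0 = σ * t1 →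
      a i2 - a i0 = σ * t2 → Kt (t2 - t1) i1 i2 = Kt t2 i0 i2 * (starRingEnd ℂ) (Kt t1 i0 i1)) :
    0 ≤ (qForm I a Kt z σ u).re := by
  rcases (I.filter (fun i => a i % σ = u)).eq_empty_or_nonempty with h | ⟨i0, h0⟩
  · simp [qForm, h]
  rw [mem_filter] at h0
  rw [qForm_eq_sq I a Kt z σ u (fun i => (starRingEnd ℂ) (Kt ((a i - a i0) / σ) i0 i))]
  · positivity
  intro i hi j hj e1 e2
  have b1 := sub_eq_of_emod (h0.2.trans e1.symm)
  have b2 := sub_eq_of_emod (h0.2.trans e2.symm)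
  have b3 : (a j - a i) / σ = (a j - a i0) / σ - (a i - a i0) / σ := by
    refine Int.ediv_eq_of_eq_mul_right hσ ?_
    linear_combination b2 - b1
  rw [b3, H3 i0 h0.1 i hi j hj _ _ b1 b2, Complex.conj_conj, mul_comm]

lemma sum_qForm {ι : Type*} (I : Finset ι) (a : ι → ℤ) (Kt : ℤ → ι → ι → ℂ) (z : ι → ℂ)
    {σ : ℤ} (hσ : 0 < σ) (A T : ℕ) (ha : ∀ i ∈ I, |a i| ≤ A) (hT : 2 * (A : ℤ) ≤ σ * T) :
    ∑ u ∈ Ico 0 σ, qForm I a Kt z σ u = ∑ t ∈ Icc (-(T : ℤ)) T, ∑ i ∈ I, ∑ j ∈ I,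
      if a j - a i = σ * t then z i * (starRingEnd ℂ) (z j) * Kt t i j else 0 := by
  have h1 : ∀ u, qForm I a Kt z σ u = ∑ i ∈ I.filter (fun i => a i % σ = u),
      ∑ j ∈ I.filter (fun j => a j % σ = a i % σ),
        z i * (starRingEnd ℂ) (z j) * Kt ((a j - a i) / σ) i j := fun u =>
    sum_congr rfl fun i hi => by rw [(mem_filter.mp hi).2]
  simp_rw [h1]
  rw [sum_fiberwise_of_maps_to fun i _ =>
    mem_Ico.mpr ⟨Int.emod_nonneg _ hσ.ne', Int.emod_lt_of_pos _ hσ⟩, sum_comm]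
  refine sum_congr rfl fun i hi => ?_
  rw [sum_comm, sum_filter]
  refine sum_congr rfl fun j hj => ?_
  split_ifs with h
  · have b := sub_eq_of_emod h.symm
    rw [sum_eq_single ((a j - a i) / σ), if_pos b]
    · intro t _ ht
      rw [if_neg]
      intro h'
      exact ht (Int.ediv_eq_of_eq_mul_right hσ.ne' h').symm
    · intro hn
      exfalso
      apply hn
      have c1 := abs_le.mp (ha i hi)
      have c2 := abs_le.mp (ha j hj)
      generalize (a j - a i) / σ = t at b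
      rw [mem_Icc]
      constructor <;> (refine le_of_not_gt fun h_nl => ?_; linarith only [h_nl, hσ, hT, c1, c2, b, mul_nonneg_of_nonpos_of_nonpos (Mathlib.Tactic.Linarith.sub_nonpos_of_le (Int.add_one_le_iff.mpr hσ)) (Mathlib.Tactic.Linarith.sub_nonpos_of_le (Int.add_one_le_iff.mpr h_nl))])
  · refine (sum_eq_zero fun t _ => if_neg fun h' => h ?_).symm
    exact (Int.emod_emod_of_dvd _ dvd_rfl).symm.trans (by
      rw [Int.emod_emod_of_dvd _ dvd_rfl, show a j = a i + σ * t by linear_combination h',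
        Int.add_mul_emod_self_left])

theorem vdc {ι κ : Type*} (I : Finset ι) (J : Finset κ) (a : ι → ℤ) (y : κ → ℕ)
    (A Y0 Y1 σ0 T D : ℕ) (Bd : ℝ) (good : ι → κ → Prop) [∀ i j, Decidable (good i j)]
    (φ : ι → κ → ℂ) (Kt : ℤ → ι → ι → ℂ) (z : ι → ℂ) (hσ : 0 < σ0) (hT : 2 * A ≤ Y0 * T)
    (ha : ∀ i ∈ I, |a i| ≤ A) (hI : ∀ x : ℤ, (I.filter fun i => a i = x).card ≤ D)
    (hy : ∀ j ∈ J, Y0 < y j ∧ y j ≤ Y1) (hJ : ∀ x : ℕ, (J.filter fun j => y j = x).card ≤ D)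
    (hz : ∀ i ∈ I, ‖z i‖ ≤ 1)
    (H1 : ∀ j ∈ J, ∀ i1 ∈ I, ∀ i2 ∈ I, ∀ t : ℤ, a i2 - a i1 = σ0 * y j * t →
      good i1 j → good i2 j)
    (H2 : ∀ j ∈ J, ∀ i1 ∈ I, ∀ i2 ∈ I, ∀ t : ℤ, a i2 - a i1 = σ0 * y j * t →
      good i1 j → good i2 j → φ i1 j * (starRingEnd ℂ) (φ i2 j) = Kt t i1 i2)
    (H3 : ∀ σ : ℤ, ∀ i0 ∈ I, ∀ i1 ∈ I, ∀ i2 ∈ I, ∀ t1 t2 : ℤ, a i1 - a i0 = σ * t1 →
      a i2 - a i0 = σ * t2 → Kt (t2 - t1) i1 i2 = Kt t2 i0 i2 * (starRingEnd ℂ) (Kt t1 i0 i1))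
    (H4 : ∀ i1 ∈ I, ∀ i2 ∈ I, ‖Kt 0 i1 i2‖ ≤ 1)
    (H5 : ∀ t : ℤ, t ≠ 0 → |t| ≤ T → ∀ z z' : ι → ℂ, (∀ i ∈ I, ‖z i‖ ≤ 1) →
      (∀ i ∈ I, ‖z' i‖ ≤ 1) → ‖∑ i ∈ I, ∑ j ∈ I, z i * z' j * Kt t i j‖ ≤ Bd)
    (hB : 0 ≤ Bd) :
    (∑ j ∈ J, ‖∑ i ∈ I, if good i j then z i * φ i j else 0‖) ^ 2 ≤
      ((D : ℝ) * (Y1 : ℝ) ^ 2 * σ0) * (D * (Y1 * ((2 * A + 1) * (D : ℝ) ^ 2)
        + 2 * T * ((2 + Real.log (2 * A + Y1 + 1)) * Bd))) := by
  have hpos : ∀ x ∈ Ioc Y0 Y1, (0 : ℤ) < σ0 * (x : ℕ) := fun x hx => by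
    have := (mem_Ioc.mp hx).1
    have : 0 < σ0 * x := Nat.mul_pos hσ (by omega)
    exact_mod_cast this
  have hyS : ∀ j ∈ J, y j ∈ Ioc Y0 Y1 := fun j hj => mem_Ioc.mpr (hy j hj)
  have hq0 : ∀ x ∈ Ioc Y0 Y1, ∀ u, 0 ≤ (qForm I a Kt z (σ0 * (x : ℕ)) u).re := fun x hx u =>
    qForm_nonneg I a Kt z (hpos x hx).ne' u (H3 _)
  have s1 : ∀ j ∈ J, ‖∑ i ∈ I, if good i j then z i * φ i j else 0‖ ^ 2 ≤
      (Y1 * σ0 : ℝ) * ∑ u ∈ Ico (0 : ℤ) (σ0 * y j), (qForm I a Kt z (σ0 * y j) u).re := by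
    clear * - κ J σ0 y hpos hyS ι I good z φ Y1 a Kt Y0 hy H1 H2 hq0 hσ
    intro j hj
    have hp := hpos _ (hyS j hj)
    rw [← sum_fiberwise_of_maps_to (g := fun i => a i % (σ0 * y j)) fun i _ =>
      mem_Ico.mpr ⟨Int.emod_nonneg _ hp.ne', Int.emod_lt_of_pos _ hp⟩]
    refine (pow_le_pow_left₀ (norm_nonneg _) (norm_sum_le _ _) 2).trans
      (sq_sum_le_card_mul_sum_sq.trans (mul_le_mul ?_ (sum_le_sum fun u _ => ?_)
        (sum_nonneg fun _ _ => by positivity) (by positivity)))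
    · rw [Int.card_Ico, sub_zero, ← Nat.cast_mul, Int.toNat_natCast, mul_comm]
      exact_mod_cast Nat.mul_le_mul_right _ (hy j hj).2
    by_cases hg : ∃ i0 ∈ I.filter (fun i => a i % (σ0 * y j) = u), good i0 j
    · obtain ⟨i0, h0, g0⟩ := hg
      rw [mem_filter] at h0
      have hall : ∀ i ∈ I, a i % (σ0 * y j) = u → good i j := fun i hi e =>
        H1 j hj i0 h0.1 i hi _ (sub_eq_of_emod (h0.2.trans e.symm)) g0
      rw [qForm_eq_sq I a Kt z _ u (fun i => φ i j) fun i1 h1 i2 h2 e1 e2 =>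
        H2 j hj i1 h1 i2 h2 _ (sub_eq_of_emod (e1.trans e2.symm)) (hall i1 h1 e1) (hall i2 h2 e2)]
      refine le_of_eq (congrArg (fun x => ‖x‖ ^ 2) (sum_congr rfl fun i hi => ?_))
      rw [mem_filter] at hi
      exact if_pos (hall i hi.1 hi.2)
    · rw [sum_eq_zero fun i hi => if_neg fun h => hg ⟨i, hi, h⟩]
      simpa using hq0 _ (hyS j hj) u
  have s2 : ∑ j ∈ J, ∑ u ∈ Ico (0 : ℤ) (σ0 * y j), (qForm I a Kt z (σ0 * y j) u).re ≤
      D * ∑ x ∈ Ioc Y0 Y1, ∑ u ∈ Ico (0 : ℤ) (σ0 * (x : ℕ)), (qForm I a Kt z (σ0 * (x : ℕ)) u).re :=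
    sum_comp_le_mult J y _ D hyS hJ
      (fun x => ∑ u ∈ Ico (0 : ℤ) (σ0 * (x : ℕ)), (qForm I a Kt z (σ0 * (x : ℕ)) u).re)
      fun x hx => sum_nonneg fun u _ => hq0 x hx u
  have s3 : ∑ x ∈ Ioc Y0 Y1, ∑ u ∈ Ico (0 : ℤ) (σ0 * (x : ℕ)), qForm I a Kt z (σ0 * (x : ℕ)) u
      = ∑ t ∈ Icc (-(T : ℤ)) T, ∑ i ∈ I, ∑ j ∈ I, ∑ x ∈ Ioc Y0 Y1,
        if a j - a i = (σ0 * t) * (x : ℕ) then z i * (starRingEnd ℂ) (z j) * Kt t i j else 0 := by
    rw [sum_congr rfl fun x hx => sum_qForm I a Kt z (hpos x hx) A T ha ?_, sum_comm]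
    · refine sum_congr rfl fun t _ => ?_
      rw [sum_comm]
      refine sum_congr rfl fun i _ => ?_
      rw [sum_comm]
      refine sum_congr rfl fun j _ => sum_congr rfl fun x _ => ?_
      rw [mul_right_comm]
    · have h1 := (mem_Ioc.mp hx).1
      have : 2 * A ≤ σ0 * x * T := hT.trans (Nat.mul_le_mul_right _
        (h1.le.trans (Nat.le_mul_of_pos_left _ hσ)))
      exact_mod_cast this
  have hz' : ∀ i ∈ I, ‖(starRingEnd ℂ) (z i)‖ ≤ 1 := fun i hi => by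
    rw [Complex.norm_conj]; exact hz i hi
  have cI : (I.card : ℝ) ≤ (2 * A + 1) * D := by exact_mod_cast card_le_mult I a A D ha hI
  have s4 : ‖∑ i ∈ I, ∑ j ∈ I, ∑ x ∈ Ioc Y0 Y1, if a j - a i = (σ0 * (0 : ℤ)) * (x : ℕ) then
      z i * (starRingEnd ℂ) (z j) * Kt 0 i j else 0‖ ≤ Y1 * ((2 * A + 1) * (D : ℝ) ^ 2) := by
    clear * - ι I Y0 Y1 a σ0 z Kt D hz hz' H4 hI A cI
    have b1 : ∀ i ∈ I, ‖∑ j ∈ I, ∑ x ∈ Ioc Y0 Y1, if a j - a i = (σ0 * (0 : ℤ)) * (x : ℕ) then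
        z i * (starRingEnd ℂ) (z j) * Kt 0 i j else 0‖ ≤ D * Y1 := by
      intro i hi
      have b2 : ∀ j ∈ I, ‖∑ x ∈ Ioc Y0 Y1, if a j - a i = (σ0 * (0 : ℤ)) * (x : ℕ) then
          z i * (starRingEnd ℂ) (z j) * Kt 0 i j else 0‖ ≤ if a j = a i then (Y1 : ℝ) else 0 := by
        intro j hj
        simp only [mul_zero, zero_mul, sub_eq_zero]
        split_ifs
        · rw [sum_const, Nat.card_Ioc, nsmul_eq_mul, norm_mul, Complex.norm_natCast, norm_mul,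
            norm_mul]
          have : ((Y1 - Y0 : ℕ) : ℝ) ≤ Y1 := by exact_mod_cast Nat.sub_le _ _
          calc _ ≤ (Y1 : ℝ) * (1 * 1 * 1) := by
                gcongr
                exacts [hz i hi, hz' j hj, H4 i hi j hj]
            _ = _ := by ring
        · simp
      refine (norm_sum_le _ _).trans ((sum_le_sum b2).trans ?_)
      rw [← sum_filter, sum_const, nsmul_eq_mul]
      exact mul_le_mul_of_nonneg_right (by exact_mod_cast hI (a i)) (Nat.cast_nonneg _)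
    refine (norm_sum_le _ _).trans ((sum_le_card_nsmul _ _ _ b1).trans ?_)
    rw [nsmul_eq_mul]
    calc _ ≤ (2 * A + 1) * (D : ℝ) * (D * Y1) := by gcongr
      _ = _ := by ring
  have s5 : ∑ x ∈ Ioc Y0 Y1, ∑ u ∈ Ico (0 : ℤ) (σ0 * (x : ℕ)),
      (qForm I a Kt z (σ0 * (x : ℕ)) u).re ≤ Y1 * ((2 * A + 1) * (D : ℝ) ^ 2)
        + 2 * T * ((2 + Real.log (2 * A + Y1 + 1)) * Bd) := by
    clear * - Y0 Y1 σ0 ι I a Kt z A D T Bd s3 s4 hσ ha H5 hz hz'
    simp_rw [← Complex.re_sum]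
    rw [s3]
    refine (Complex.re_le_norm _).trans ?_
    rw [← add_sum_erase _ _ (show (0 : ℤ) ∈ Icc (-(T : ℤ)) T by simp)]
    refine (norm_add_le _ _).trans (add_le_add s4 ((norm_sum_le _ _).trans ?_))
    refine (sum_le_card_nsmul _ _ ((2 + Real.log (2 * A + Y1 + 1)) * Bd) fun t ht => ?_).trans ?_
    · rw [mem_erase, mem_Icc] at ht
      exact bil_ap_le I a A Y0 Y1 _ (mul_ne_zero (by exact_mod_cast hσ.ne') ht.1) ha (Kt t) Bd
        (H5 t ht.1 (abs_le.mpr ht.2)) z _ hz hz'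
    · rw [card_erase_of_mem (by simp), Int.card_Icc, nsmul_eq_mul]
      refine le_of_eq (congrArg (· * _) ?_)
      have : ((T : ℤ) + 1 - -(T : ℤ)).toNat - 1 = 2 * T := by omega
      rw [this]; push_cast; ring
  have cJ : (J.card : ℝ) ≤ D * Y1 := by
    have := sum_comp_le_mult J y _ D hyS hJ (fun _ => 1) fun _ _ => zero_le_one
    rw [sum_const, sum_const, nsmul_eq_mul, nsmul_eq_mul, mul_one, mul_one, Nat.card_Ioc] at this
    refine this.trans (mul_le_mul_of_nonneg_left ?_ (Nat.cast_nonneg _))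
    exact_mod_cast Nat.sub_le _ _
  have s6 := (sum_le_sum s1)
  rw [← mul_sum] at s6
  have s7 := s6.trans (mul_le_mul_of_nonneg_left (s2.trans
    (mul_le_mul_of_nonneg_left s5 (Nat.cast_nonneg _))) (by positivity))
  refine sq_sum_le_card_mul_sum_sq.trans ((mul_le_mul cJ s7
    (sum_nonneg fun _ _ => by positivity) (by positivity)).trans (le_of_eq (by ring)))

end Pool.Agent.Work.MP_51e72e_nt.Cub
end

-- merged part: Pool.Agent.Work.MP_51e72e_nt.CubPhase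
section
/-!
The correlation of two phases attached to generators on the same line.
-/

set_option autoImplicit false

namespace Pool.Agent.Work.MP_51e72e_nt.Cub

open Finset Pool.Agent.Lib.LargeSieve

lemma nN_modEq (P Q b c : ℤ) {x a a' : ℤ} (h : a ≡ a' [ZMOD x]) :
    nN P Q a b c ≡ nN P Q a' b c [ZMOD x] := by
  unfold nN; gcongr

lemma uU_modEq (P Q b c : ℤ) {x a a' : ℤ} (h : a ≡ a' [ZMOD x]) :
    uU P Q a b c ≡ uU P Q a' b c [ZMOD x] := by
  unfold uU; gcongr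

lemma cast_rR (P Q b c : ℤ) : ((rR P Q b c : ℤ) : ZMod (rR P Q b c).natAbs) = 0 := by
  rw [ZMod.intCast_zmod_eq_zero_iff_dvd]; simp

lemma isUnit_of_coprime {R m : ℤ} (h : IsCoprime m R) : IsUnit (m : ZMod R.natAbs) := by
  obtain ⟨u, v, huv⟩ := h
  have h0 : ((R : ℤ) : ZMod R.natAbs) = 0 := by
    rw [ZMod.intCast_zmod_eq_zero_iff_dvd]; simp
  have h1 := congrArg (fun x : ℤ => (x : ZMod R.natAbs)) huv
  simp only [Int.cast_add, Int.cast_mul, Int.cast_one, h0, mul_zero, add_zero] at h1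
  exact IsUnit.of_mul_eq_one_right _ h1

/-- the reduced numerator times the linear form is constant on the line -/
lemma lin_mul_om {P Q a b c k m : ℤ} {o : ZMod (rR P Q b c).natAbs}
    (hN : nN P Q a b c = k * m) (hm : IsCoprime m (rR P Q b c))
    (ho : (m : ZMod (rR P Q b c).natAbs) * o = (uU P Q a b c : ℤ)) :
    ((b ^ 2 + P * c ^ 2 - a * c : ℤ) : ZMod (rR P Q b c).natAbs) * o = ((c ^ 2 * k : ℤ) : _) := by
  have h1 := congrArg (fun x : ℤ => (x : ZMod (rR P Q b c).natAbs)) (key_id P Q a b c)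
  rw [hN] at h1
  simp only [Int.cast_sub (c ^ 2 * (k * m)), Int.cast_mul (rR P Q b c), cast_rR, zero_mul,
    sub_zero, Int.cast_mul (b ^ 2 + P * c ^ 2 - a * c)] at h1
  refine (isUnit_of_coprime hm).mul_left_cancel ?_
  rw [← ho] at h1
  push_cast at h1 ⊢
  linear_combination h1

lemma phase {P Q b c k y Γ j a1 a2 m1 m2 n1 n2 w1 w2 t : ℤ}
    {o1 o2 : ZMod (rR P Q b c).natAbs} (hk : k ≠ 0) (hy : y ≠ 0)
    (hj : ((j * (c ^ 2 * k) ^ 3 : ℤ) : ZMod (rR P Q b c).natAbs) = (Γ : ℤ))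
    (hN1 : nN P Q a1 b c = k * m1) (hN2 : nN P Q a2 b c = k * m2)
    (hw1 : m1 * w1 = rR P Q b c * n1 - uU P Q a1 b c)
    (hw2 : m2 * w2 = rR P Q b c * n2 - uU P Q a2 b c)
    (ho1 : (m1 : ZMod (rR P Q b c).natAbs) * o1 = (uU P Q a1 b c : ℤ))
    (ho2 : (m2 : ZMod (rR P Q b c).natAbs) * o2 = (uU P Q a2 b c : ℤ))
    (hc1 : IsCoprime m1 (rR P Q b c)) (hc2 : IsCoprime m2 (rR P Q b c))
    (hy1 : IsCoprime m1 y) (hy2 : IsCoprime m2 y) (hn : y ∣ n1 - n2)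
    (ha : a2 - a1 = y * k * Γ ^ 2 * t) :
    ∃ v : ℤ, w1 - w2 = y * v ∧ (v : ZMod (rR P Q b c).natAbs) =
      ((t * (Γ * j * (c ^ 2 * k) * c ^ 3 * k ^ 2) : ℤ) : _) * o1 * o2 := by
  have hmod : a1 ≡ a2 [ZMOD (a2 - a1)] := (Int.modEq_iff_dvd).mpr dvd_rfl
  have eN := nN_modEq P Q b c hmod
  have eU := uU_modEq P Q b c hmod
  obtain ⟨N', hN'⟩ := eN.dvd
  obtain ⟨V, hV⟩ : (a2 - a1) ∣ uU P Q a1 b c * nN P Q a2 b c - uU P Q a2 b c * nN P Q a1 b c := by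
    have := (eU.symm.mul eN).dvd
    rwa [mul_comm (uU P Q a1 b c)] at this ⊢
  obtain ⟨E', hE'⟩ : (a2 - a1) ∣
      (a1 * b + Q * c ^ 2) * ((b ^ 2 + P * c ^ 2 - a2 * c) * nN P Q a2 b c)
      - (a2 * b + Q * c ^ 2) * ((b ^ 2 + P * c ^ 2 - a1 * c) * nN P Q a1 b c) := by
    refine Int.ModEq.dvd ?_
    have e1 : a2 * b + Q * c ^ 2 ≡ a1 * b + Q * c ^ 2 [ZMOD (a2 - a1)] := by
      have := hmod.symm; gcongr
    have e2 : b ^ 2 + P * c ^ 2 - a1 * c ≡ b ^ 2 + P * c ^ 2 - a2 * c [ZMOD (a2 - a1)] := by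
      gcongr
    exact e1.mul (e2.mul eN)
  obtain ⟨ν, hν⟩ := hn
  have e1 : m2 - m1 = y * Γ ^ 2 * t * N' := by
    refine mul_left_cancel₀ hk ?_
    rw [hN1, hN2, ha] at hN'; linear_combination hN'
  have e2 : uU P Q a1 b c * m2 - uU P Q a2 b c * m1 = y * Γ ^ 2 * t * V := by
    refine mul_left_cancel₀ hk ?_
    rw [hN1, hN2, ha] at hV; linear_combination hV
  have e3 : m1 * m2 * (w1 - w2) =
      y * (rR P Q b c * (Γ ^ 2 * t * N' * n1 + m1 * ν) - Γ ^ 2 * t * V) := by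
    linear_combination m2 * hw1 - m1 * hw2 - e2 + rR P Q b c * n1 * e1 + rR P Q b c * m1 * hν
  obtain ⟨v, hv⟩ : y ∣ w1 - w2 :=
    (hy1.mul_left hy2).symm.dvd_of_dvd_mul_left ⟨_, e3⟩
  refine ⟨v, hv, ?_⟩
  have e4 : m1 * m2 * v = rR P Q b c * (Γ ^ 2 * t * N' * n1 + m1 * ν) - Γ ^ 2 * t * V := by
    refine mul_left_cancel₀ hy ?_
    rw [hv] at e3; linear_combination e3
  have e5 : Γ ^ 2 * t * ((b ^ 2 + P * c ^ 2 - a1 * c) * (b ^ 2 + P * c ^ 2 - a2 * c) * V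
      + c ^ 3 * (k * m1) * (k * m2) + rR P Q b c * E') = 0 := by
    refine mul_left_cancel₀ (mul_ne_zero hy hk) ?_
    have k1 := key_id P Q a1 b c
    have k2 := key_id P Q a2 b c
    rw [← hN1, ← hN2, mul_zero, ← mul_assoc, ← mul_assoc, ← ha]
    linear_combination (-(b ^ 2 + P * c ^ 2 - a1 * c) * (b ^ 2 + P * c ^ 2 - a2 * c)) * hV
      - rR P Q b c * hE' + ((b ^ 2 + P * c ^ 2 - a2 * c) * nN P Q a2 b c) * k1
      - ((b ^ 2 + P * c ^ 2 - a1 * c) * nN P Q a1 b c) * k2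
  have l1 := lin_mul_om hN1 hc1 ho1
  have l2 := lin_mul_om hN2 hc2 ho2
  have f4 := congrArg (fun x : ℤ => (x : ZMod (rR P Q b c).natAbs)) e4
  have f5 := congrArg (fun x : ℤ => (x : ZMod (rR P Q b c).natAbs)) e5
  have hR := cast_rR P Q b c
  refine ((isUnit_of_coprime hc1).mul (isUnit_of_coprime hc2)).mul_left_cancel ?_
  by_cases hΓ : Γ = 0
  · subst hΓ
    push_cast at f4 ⊢
    rw [hR] at f4
    linear_combination f4
  have e6 : Γ * t * ((b ^ 2 + P * c ^ 2 - a1 * c) * (b ^ 2 + P * c ^ 2 - a2 * c) * V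
      + c ^ 3 * (k * m1) * (k * m2) + rR P Q b c * E') = 0 := by
    refine mul_left_cancel₀ hΓ ?_
    linear_combination e5
  have f6 := congrArg (fun x : ℤ => (x : ZMod (rR P Q b c).natAbs)) e6
  push_cast at f4 f6 l1 l2 hj ⊢
  rw [hR] at f4 f6
  generalize (rR P Q b c).natAbs = q at *
  linear_combination f4 + (Γ : ZMod q) * t * V * hj
    - (j : ZMod q) * ((c : ZMod q) ^ 2 * k) * o1 * o2 * f6
    + (Γ : ZMod q) * t * V * j * ((c : ZMod q) ^ 2 * k)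
      * (((b : ZMod q) ^ 2 + P * (c : ZMod q) ^ 2 - a2 * c) * o2) * l1
    + (Γ : ZMod q) * t * V * j * ((c : ZMod q) ^ 2 * k) * ((c : ZMod q) ^ 2 * k) * l2

lemma cocycle {q : ℕ} {β c κ Γ j σ t1 t2 a0 a1 a2 o0 o1 o2 : ZMod q} (hj : j * κ ^ 3 = Γ)
    (h0 : (β - a0 * c) * o0 = κ) (h1 : (β - a1 * c) * o1 = κ) (h2 : (β - a2 * c) * o2 = κ)
    (e1 : a1 - a0 = σ * t1) (e2 : a2 - a0 = σ * t2) :
    Γ * ((t2 - t1) * o1 * o2) = Γ * (t2 * o0 * o2) - Γ * (t1 * o0 * o1) := by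
  have a1' : a1 = a0 + σ * t1 := by linear_combination e1
  have a2' : a2 = a0 + σ * t2 := by linear_combination e2
  subst a1' a2'
  have e : κ ^ 3 * ((t2 - t1) * o1 * o2 - (t2 * o0 * o2 - t1 * o0 * o1)) = 0 := by
    set C0 := β - a0 * c
    set C1 := β - (a0 + σ * t1) * c
    set C2 := β - (a0 + σ * t2) * c
    have hl : (t2 - t1) * C0 - t2 * C1 + t1 * C2 = 0 := by simp only [C0, C1, C2]; ring
    have g0 : κ ^ 3 * (o1 * o2) = κ ^ 2 * (o0 * o1 * o2) * C0 := by rw [← h0]; ring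
    have g1 : κ ^ 3 * (o0 * o2) = κ ^ 2 * (o0 * o1 * o2) * C1 := by rw [← h1]; ring
    have g2 : κ ^ 3 * (o0 * o1) = κ ^ 2 * (o0 * o1 * o2) * C2 := by rw [← h2]; ring
    linear_combination (t2 - t1) * g0 - t2 * g1 + t1 * g2 + κ ^ 2 * (o0 * o1 * o2) * hl
  linear_combination j * e - ((t2 - t1) * o1 * o2 - (t2 * o0 * o2 - t1 * o0 * o1)) * hj

lemma ee_div_eq {R : ℤ} (hR : R ≠ 0) [NeZero R.natAbs] (x : ℤ) :
    ee ((x : ℝ) / R) = ZMod.stdAddChar (((x * R.sign : ℤ)) : ZMod R.natAbs) := by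
  rw [ZMod.stdAddChar_coe, ee]
  congr 1
  have h1 : ((R.natAbs : ℕ) : ℂ) = (R.sign : ℂ) * R := by
    have : ((R.natAbs : ℕ) : ℤ) = R.sign * R := by rw [Int.sign_mul_self_eq_natAbs]
    have h := congrArg (fun x : ℤ => (x : ℂ)) this
    simpa only [Int.cast_natCast, Int.cast_mul] using h
  have h2 : (R.sign : ℂ) ≠ 0 := by exact_mod_cast Int.sign_eq_zero_iff_zero.not.mpr hR
  have h3 : (R : ℂ) ≠ 0 := by exact_mod_cast hR
  rw [h1]
  push_cast
  field_simp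

end Pool.Agent.Work.MP_51e72e_nt.Cub
end

-- merged part: Pool.Agent.Work.MP_51e72e_nt.CubAlg1
section
/-!
Sizes of the forms attached to a cubic, small generators, roots modulo squarefree numbers, and
the reduction to a depressed cubic.
-/

set_option autoImplicit false

namespace Pool.Agent.Work.MP_51e72e_nt.Cub

open Finset

lemma abs_mono3 {x y z : ℤ} (K : ℤ) {A : ℕ} (hx : |x| ≤ A) (hy : |y| ≤ A) (hz : |z| ≤ A) :
    |x * y * z * K| ≤ |K| * (A : ℤ) ^ 3 := by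
  rw [abs_mul, abs_mul, abs_mul, mul_comm]
  have h1 : |x| * |y| ≤ (A : ℤ) * A := mul_le_mul hx hy (abs_nonneg _) (Nat.cast_nonneg _)
  have h2 : |x| * |y| * |z| ≤ (A : ℤ) * A * A :=
    mul_le_mul h1 hz (abs_nonneg _) (by positivity)
  refine mul_le_mul_of_nonneg_left ?_ (abs_nonneg _)
  calc _ ≤ (A : ℤ) * A * A := h2
    _ = _ := by ring

lemma kK_cast (P Q : ℤ) : (kK P Q : ℤ) = 10 * (1 + |P| + |Q|) ^ 2 := by
  unfold kK
  push_cast
  rfl

theorem abs_nN_le' (P Q a b c : ℤ) (A : ℕ) (ha : |a| ≤ A) (hb : |b| ≤ A) (hc : |c| ≤ A) :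
    |nN P Q a b c| ≤ kK P Q * (A : ℤ) ^ 3 := by
  have e : nN P Q a b c = a * a * a * 1 - 2 * (a * a * c * P) + a * c * c * (P * P)
      + 3 * (a * b * c * Q) + a * b * b * P - b * b * b * Q + c * c * c * (Q * Q)
      - b * c * c * (P * Q) := by unfold nN; ring
  have h1 := abs_le.mp (abs_mono3 1 ha ha ha)
  have h2 := abs_le.mp (abs_mono3 P ha ha hc)
  have h3 := abs_le.mp (abs_mono3 (P * P) ha hc hc)
  have h4 := abs_le.mp (abs_mono3 Q ha hb hc)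
  have h5 := abs_le.mp (abs_mono3 P ha hb hb)
  have h6 := abs_le.mp (abs_mono3 Q hb hb hb)
  have h7 := abs_le.mp (abs_mono3 (Q * Q) hc hc hc)
  have h8 := abs_le.mp (abs_mono3 (P * Q) hb hc hc)
  rw [abs_mul] at h3 h7 h8
  rw [abs_one] at h1
  have hp := abs_nonneg P
  have hq := abs_nonneg Q
  have hA : (0 : ℤ) ≤ (A : ℤ) ^ 3 := by positivity
  have hk : 1 + 3 * |P| + |P| * |P| + 4 * |Q| + |Q| * |Q| + |P| * |Q| ≤ (kK P Q : ℤ) := by
    rw [kK_cast]; linarith only [hp, hq, mul_nonneg hp hq, mul_self_nonneg |P|, mul_self_nonneg |Q|, sq_nonneg ((1 : ℤ) + |P| + |Q|)]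
  have hk' := mul_le_mul_of_nonneg_right hk hA
  rw [e, abs_le]
  constructor <;> linarith only [h1, h2, h3, h4, h5, h6, h7, h8, hk']

theorem abs_uU_le' (P Q a b c : ℤ) (A : ℕ) (ha : |a| ≤ A) (hb : |b| ≤ A) (hc : |c| ≤ A) :
    |uU P Q a b c| ≤ kK P Q * (A : ℤ) ^ 3 := by
  have e : uU P Q a b c = -2 * (b * c * c * Q) - a * b * b * 1 + a * c * c * P
      - a * a * c * 1 := by unfold uU; ring
  have h1 := abs_le.mp (abs_mono3 Q hb hc hc)
  have h2 := abs_le.mp (abs_mono3 1 ha hb hb)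
  have h3 := abs_le.mp (abs_mono3 P ha hc hc)
  have h4 := abs_le.mp (abs_mono3 1 ha ha hc)
  rw [abs_one] at h2 h4
  have hp := abs_nonneg P
  have hq := abs_nonneg Q
  have hA : (0 : ℤ) ≤ (A : ℤ) ^ 3 := by positivity
  have hk : 2 + |P| + 2 * |Q| ≤ (kK P Q : ℤ) := by
    rw [kK_cast]; linarith only [hp, hq, mul_nonneg hp hq, mul_nonneg_of_nonpos_of_nonpos (Mathlib.Tactic.Linarith.sub_nonpos_of_le hp) (Mathlib.Tactic.Linarith.sub_nonpos_of_le hp), mul_nonneg_of_nonpos_of_nonpos (Mathlib.Tactic.Linarith.sub_nonpos_of_le hq) (Mathlib.Tactic.Linarith.sub_nonpos_of_le hq)]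
  have hk' := mul_le_mul_of_nonneg_right hk hA
  rw [e, abs_le]
  constructor <;> linarith only [h1, h2, h3, h4, hk']

theorem abs_rR_le' (P Q b c : ℤ) (A : ℕ) (hb : |b| ≤ A) (hc : |c| ≤ A) :
    |rR P Q b c| ≤ kK P Q * (A : ℤ) ^ 3 := by
  have e : rR P Q b c = b * b * b * 1 + b * c * c * P + c * c * c * Q := by unfold rR; ring
  have h1 := abs_le.mp (abs_mono3 1 hb hb hb)
  have h2 := abs_le.mp (abs_mono3 P hb hc hc)
  have h3 := abs_le.mp (abs_mono3 Q hc hc hc)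
  rw [abs_one] at h1
  have hp := abs_nonneg P
  have hq := abs_nonneg Q
  have hA : (0 : ℤ) ≤ (A : ℤ) ^ 3 := by positivity
  have hk : 1 + |P| + |Q| ≤ (kK P Q : ℤ) := by
    rw [kK_cast]; linarith only [hp, hq, mul_nonneg hp hq, mul_nonneg_of_nonpos_of_nonpos (Mathlib.Tactic.Linarith.sub_nonpos_of_le hp) (Mathlib.Tactic.Linarith.sub_nonpos_of_le hp), mul_nonneg_of_nonpos_of_nonpos (Mathlib.Tactic.Linarith.sub_nonpos_of_le hq) (Mathlib.Tactic.Linarith.sub_nonpos_of_le hq)]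
  have hk' := mul_le_mul_of_nonneg_right hk hA
  rw [e, abs_le]
  constructor <;> linarith only [h1, h2, h3, hk']

theorem rR_ne_zero' {P Q : ℤ} (hF : NoRoot P Q) {b c : ℤ} (h : b ≠ 0 ∨ c ≠ 0) :
    rR P Q b c ≠ 0 := by
  intro h0
  unfold rR at h0
  by_cases hc : c = 0
  · subst hc
    have hb : b ^ 3 = 0 := by simpa using h0
    rcases h with h | h
    · exact h (pow_eq_zero_iff (by norm_num) |>.mp hb)
    · exact h rfl
  · have hc' : (c : ℚ) ≠ 0 := by exact_mod_cast hc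
    refine hF ((b : ℚ) / c) ?_
    have h1 : (b : ℚ) ^ 3 + P * b * c ^ 2 + Q * c ^ 3 = 0 := by exact_mod_cast h0
    field_simp
    linear_combination h1

lemma nN_ne_zero {P Q : ℤ} (hF : NoRoot P Q) {a b c : ℤ} (h : a ≠ 0 ∨ b ≠ 0 ∨ c ≠ 0) :
    nN P Q a b c ≠ 0 := by
  intro h0
  have h1 := rR_adj P Q a b c
  rw [h0, zero_mul, neg_zero] at h1
  have h2 : ¬ (-(a * b + Q * c ^ 2) ≠ 0 ∨ b ^ 2 + P * c ^ 2 - a * c ≠ 0) :=
    fun h => rR_ne_zero' hF h h1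
  push Not at h2
  obtain ⟨h3, h4⟩ := h2
  have h5 : rR P Q b c = 0 := by unfold rR; linear_combination b * h4 - c * h3
  have h6 : ¬ (b ≠ 0 ∨ c ≠ 0) := fun h => rR_ne_zero' hF h h5
  push Not at h6
  obtain ⟨rfl, rfl⟩ := h6
  have h7 : a ^ 3 = 0 := by unfold nN at h0; linear_combination h0
  have h8 : a = 0 := pow_eq_zero_iff (by norm_num) |>.mp h7
  simp [h8] at h

lemma exists_cube_floor (m : ℕ) : ∃ B : ℕ, B ^ 3 ≤ m ∧ m < (B + 1) ^ 3 := by
  induction m with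
  | zero => exact ⟨0, by simp⟩
  | succ m ih =>
    obtain ⟨B, h1, h2⟩ := ih
    by_cases h : m + 1 < (B + 1) ^ 3
    · exact ⟨B, by omega, h⟩
    · refine ⟨B + 1, by omega, ?_⟩
      have : (B + 1) ^ 3 < (B + 1 + 1) ^ 3 := Nat.pow_lt_pow_left (by omega) (by norm_num)
      omega

lemma exists_small (m : ℕ) (hm : 0 < m) (r : ℤ) (B : ℕ) (hB : m < (B + 1) ^ 3) :
    ∃ a b c : ℤ, |a| ≤ B ∧ |b| ≤ B ∧ |c| ≤ B ∧ (a ≠ 0 ∨ b ≠ 0 ∨ c ≠ 0) ∧
      (m : ℤ) ∣ a + b * r + c * r ^ 2 := by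
  have : NeZero m := ⟨hm.ne'⟩
  obtain ⟨x, hx, y, hy, hxy, he⟩ := Finset.exists_ne_map_eq_of_card_lt_of_maps_to
    (s := range (B + 1) ×ˢ range (B + 1) ×ˢ range (B + 1)) (t := (univ : Finset (ZMod m)))
    (by simp only [card_univ, ZMod.card, card_product, card_range]; linarith only [hB])
    (f := fun z : ℕ × ℕ × ℕ => (((z.1 : ℤ) + z.2.1 * r + z.2.2 * r ^ 2 : ℤ) : ZMod m))
    (fun _ _ => mem_univ _)
  simp only [mem_product, mem_range] at hx hy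
  rw [ZMod.intCast_eq_intCast_iff_dvd_sub] at he
  refine ⟨(y.1 : ℤ) - x.1, (y.2.1 : ℤ) - x.2.1, (y.2.2 : ℤ) - x.2.2, ?_, ?_, ?_, ?_, ?_⟩
  · rw [abs_le]; omega
  · rw [abs_le]; omega
  · rw [abs_le]; omega
  · by_contra hcon
    push Not at hcon
    apply hxy
    ext <;> omega
  · convert he using 1; ring

theorem exists_alpha' {P Q : ℤ} (hF : NoRoot P Q) (m : ℕ) (hm : 0 < m) (r : ℤ)
    (hr : (m : ℤ) ∣ r ^ 3 + P * r + Q) (A : ℕ) (hA : m ≤ A ^ 3) :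
    ∃ a b c : ℤ, ∃ k : ℕ, |a| ≤ A ∧ |b| ≤ A ∧ |c| ≤ A ∧ 1 ≤ k ∧ k ≤ kK P Q ∧
      nN P Q a b c = k * m ∧ (m : ℤ) ∣ rR P Q b c * r - uU P Q a b c := by
  obtain ⟨B, hB1, hB2⟩ := exists_cube_floor m
  have hBA : B ≤ A := (Nat.pow_le_pow_iff_left (by norm_num : 3 ≠ 0)).mp (hB1.trans hA)
  have key : ∀ a b c : ℤ, |a| ≤ B → |b| ≤ B → |c| ≤ B → 0 < nN P Q a b c →
      (m : ℤ) ∣ a + b * r + c * r ^ 2 →
      ∃ k : ℕ, |a| ≤ A ∧ |b| ≤ A ∧ |c| ≤ A ∧ 1 ≤ k ∧ k ≤ kK P Q ∧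
        nN P Q a b c = k * m ∧ (m : ℤ) ∣ rR P Q b c * r - uU P Q a b c := by
    intro a b c ha hb hc hpos hd
    have hBA' : (B : ℤ) ≤ A := by exact_mod_cast hBA
    have h1 : (m : ℤ) ∣ nN P Q a b c := by
      rw [nN_eq P Q a b c r]
      exact dvd_sub (hd.mul_right _) (hr.mul_right _)
    have h2 : (m : ℤ) ∣ rR P Q b c * r - uU P Q a b c := by
      rw [rR_mul_sub]
      exact dvd_add (hd.mul_right _) (hr.mul_right _)
    obtain ⟨k, hk⟩ := h1
    have hm' : (0 : ℤ) < m := by exact_mod_cast hm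
    have hk0 : 0 < k := by
      rw [hk] at hpos
      exact (mul_pos_iff_of_pos_left hm').mp hpos
    have h3 := (le_abs_self _).trans (abs_nN_le' P Q a b c B ha hb hc)
    have h4 : (B : ℤ) ^ 3 ≤ m := by exact_mod_cast hB1
    have h5 : k ≤ kK P Q := by
      have h6 : (kK P Q : ℤ) * (B : ℤ) ^ 3 ≤ kK P Q * m :=
        mul_le_mul_of_nonneg_left h4 (Nat.cast_nonneg _)
      rw [hk] at h3
      by_contra hcon
      push Not at hcon
      linarith only [hm, h3, h6, hcon, mul_nonneg_of_nonpos_of_nonpos (Mathlib.Tactic.Linarith.sub_nonpos_of_le (Mathlib.Tactic.Linarith.natCast_nonneg ℤ m)) (Mathlib.Tactic.Linarith.sub_nonpos_of_le (Int.add_one_le_iff.mpr hcon))]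
    lift k to ℕ using hk0.le
    exact ⟨k, ha.trans hBA', hb.trans hBA', hc.trans hBA', by exact_mod_cast hk0,
      by exact_mod_cast h5, by rw [hk, mul_comm], h2⟩
  obtain ⟨a, b, c, ha, hb, hc, hne, hd⟩ := exists_small m hm r B hB2
  rcases lt_or_gt_of_ne (nN_ne_zero hF hne) with h | h
  · refine ⟨-a, -b, -c, key _ _ _ (by rwa [abs_neg]) (by rwa [abs_neg]) (by rwa [abs_neg]) ?_ ?_⟩
    · have : nN P Q (-a) (-b) (-c) = -nN P Q a b c := by unfold nN; ring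
      rw [this]; omega
    · have : -a + -b * r + -c * r ^ 2 = -(a + b * r + c * r ^ 2) := by ring
      rw [this]; exact hd.neg_right
  · exact ⟨a, b, c, key _ _ _ ha hb hc h hd⟩

lemma dvd_eval_congr (f : Polynomial ℤ) {g x y : ℤ} (h : g ∣ x - y) :
    g ∣ f.eval x ↔ g ∣ f.eval y :=
  (dvd_iff_dvd_of_dvd_sub (h.trans (Polynomial.sub_dvd_eval_sub x y f)))

theorem card_roots_prod' (f : Polynomial ℤ) (T : Finset ℕ) (hT : ∀ p ∈ T, p.Prime) :
    ((range (∏ p ∈ T, p)).filter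
      (fun n : ℕ => ((∏ p ∈ T, p : ℕ) : ℤ) ∣ f.eval (n : ℤ))).card = ∏ p ∈ T, omega f p := by
  have h := Pool.Agent.Lib.ANT.card_range_prod_primes T hT
    (fun p => (range p).filter fun n : ℕ => (p : ℤ) ∣ f.eval (n : ℤ))
    (fun p _ => filter_subset _ _)
  refine Eq.trans ?_ h
  congr 1
  refine filter_congr fun n _ => ?_
  have hmod : ∀ p : ℕ, (p : ℤ) ∣ f.eval ((n % p : ℕ) : ℤ) ↔ (p : ℤ) ∣ f.eval (n : ℤ) := by
    intro p
    refine dvd_eval_congr f ?_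
    push_cast
    exact Int.dvd_emod_sub_self
  simp only [mem_filter, mem_range, hmod]
  constructor
  · intro hd p hp
    exact ⟨Nat.mod_lt _ (hT p hp).pos,
      (Int.natCast_dvd_natCast.mpr (dvd_prod_of_mem _ hp)).trans hd⟩
  · intro hd
    rw [Int.natCast_dvd]
    exact Finset.prod_primes_dvd _ (fun p hp => (hT p hp).prime)
      (fun p hp => Int.natCast_dvd.mp (hd p hp).2)

theorem card_roots_le' (f : Polynomial ℤ) (hf : f.IsPrimitive) (hd : f.natDegree ≤ 3) (g : ℕ)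
    (hg : Squarefree g) :
    ((range g).filter (fun n : ℕ => (g : ℤ) ∣ f.eval (n : ℤ))).card ≤ g.divisors.card ^ 2 := by
  have h := card_roots_prod' f g.primeFactors (fun p hp => Nat.prime_of_mem_primeFactors hp)
  rw [Nat.prod_primeFactors_of_squarefree hg] at h
  rw [h, Nat.card_divisors hg.ne_zero, ← prod_pow]
  refine prod_le_prod' fun p hp => ?_
  have h1 := (omega_le_natDegree hf (Nat.prime_of_mem_primeFactors hp)).trans hd
  have h2 : 1 ≤ g.factorization p :=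
    Nat.Prime.factorization_pos_of_dvd (Nat.prime_of_mem_primeFactors hp) hg.ne_zero
      (Nat.dvd_of_mem_primeFactors hp)
  linarith only [h1, h2, mul_nonneg_of_nonpos_of_nonpos (Mathlib.Tactic.Linarith.sub_nonpos_of_le (Mathlib.Tactic.Linarith.natCast_nonneg ℤ (g.factorization p))) (Mathlib.Tactic.Linarith.sub_nonpos_of_le (Mathlib.Tactic.Linarith.natCast_nonneg ℤ (g.factorization p)))]

theorem exists_depressed' (f : Polynomial ℤ) (hf : Irreducible f) (hd : f.natDegree = 3) :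
    ∃ P Q t : ℤ, NoRoot P Q ∧ ∀ n : ℤ,
      (3 * f.leadingCoeff * n + t) ^ 3 + P * (3 * f.leadingCoeff * n + t) + Q
        = 27 * f.leadingCoeff ^ 2 * f.eval n := by
  have hl : f.leadingCoeff = f.coeff 3 := by rw [Polynomial.leadingCoeff, hd]
  have hl0 : f.coeff 3 ≠ 0 := hl ▸ Polynomial.leadingCoeff_ne_zero.mpr hf.ne_zero
  refine ⟨9 * f.coeff 3 * f.coeff 1 - 3 * f.coeff 2 ^ 2,
    27 * f.coeff 3 ^ 2 * f.coeff 0 - 9 * f.coeff 3 * f.coeff 1 * f.coeff 2 + 2 * f.coeff 2 ^ 3,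
    f.coeff 2, ?_, ?_⟩
  · intro x hx
    have hprim : f.IsPrimitive := hf.isPrimitive (by omega)
    have hirr : Irreducible (f.map (Int.castRingHom ℚ)) :=
      (Polynomial.IsPrimitive.Int.irreducible_iff_irreducible_map_cast hprim).mp hf
    have hdeg : (f.map (Int.castRingHom ℚ)).natDegree = 3 := by
      rw [Polynomial.natDegree_map_eq_of_injective (RingHom.injective_int _), hd]
    have hl' : (f.coeff 3 : ℚ) ≠ 0 := by exact_mod_cast hl0
    have hroot : (f.map (Int.castRingHom ℚ)).IsRoot ((x - f.coeff 2) / (3 * f.coeff 3)) := by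
      rw [Polynomial.IsRoot, Polynomial.eval_eq_sum_range, hdeg]
      simp only [sum_range_succ, sum_range_zero, Polynomial.coeff_map, eq_intCast]
      push_cast at hx
      field_simp
      linear_combination hx
    have h1 := Polynomial.degree_eq_one_of_irreducible_of_root hirr hroot
    have h2 : (f.map (Int.castRingHom ℚ)).natDegree = 1 :=
      Polynomial.natDegree_eq_of_degree_eq_some h1
    omega
  · intro n
    rw [hl, Polynomial.eval_eq_sum_range, hd]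
    simp only [sum_range_succ, sum_range_zero]
    ring

end Pool.Agent.Work.MP_51e72e_nt.Cub
end

-- merged part: Pool.Agent.Work.MP_51e72e_nt.CubAlg2
section
/-!
Counting lemmas for the exceptional set.
-/

set_option autoImplicit false

namespace Pool.Agent.Work.MP_51e72e_nt.Cub

open Finset

lemma card_box (A : ℕ) (hA : 1 ≤ A) : ((Icc (-(A : ℤ)) A).card : ℝ) ≤ 3 * A := by
  have : (Icc (-(A : ℤ)) A).card = 2 * A + 1 := by
    rw [Int.card_Icc]; omega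
  rw [this]
  have : (1 : ℝ) ≤ A := by exact_mod_cast hA
  push_cast; linarith only [this]

lemma card_class_le (A g : ℕ) (hg : 0 < g) (v : ℤ) :
    ((((Icc (-(A : ℤ)) A)).filter fun x => (g : ℤ) ∣ x - v).card : ℝ) ≤ 2 * A / g + 1 := by
  have hg' : (0 : ℤ) < g := by exact_mod_cast hg
  have h1 : (((Icc (-(A : ℤ)) A)).filter fun x => (g : ℤ) ∣ x - v).card
      ≤ (range (2 * A / g + 1)).card := by
    refine card_le_card_of_injOn (fun x : ℤ => (x + A).toNat / g) ?_ ?_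
    · intro x hx
      simp only [coe_filter, mem_Icc, Set.mem_ofPred_eq] at hx
      simp only [coe_range, Set.mem_Iio]
      exact Nat.lt_succ_of_le (Nat.div_le_div_right (by omega))
    · intro x hx y hy hxy
      simp only [coe_filter, mem_Icc, Set.mem_ofPred_eq] at hx hy
      have hd : (g : ℤ) ∣ x - y := by
        have := dvd_sub hx.2 hy.2
        rwa [sub_sub_sub_cancel_right] at this
      have hx' := Nat.div_add_mod (x + A).toNat g
      have hy' := Nat.div_add_mod (y + A).toNat g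
      have hx'' := Nat.mod_lt (x + A).toNat hg
      have hy'' := Nat.mod_lt (y + A).toNat hg
      simp only at hxy
      rw [hxy] at hx'
      have : |x - y| < g := by rw [abs_lt]; omega
      have := Int.eq_zero_of_abs_lt_dvd hd this
      omega
  rw [card_range] at h1
  calc _ ≤ ((2 * A / g + 1 : ℕ) : ℝ) := by exact_mod_cast h1
    _ ≤ _ := by
      push_cast
      have := Nat.cast_div_le (α := ℝ) (m := 2 * A) (n := g)
      push_cast at this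
      linarith only [this]

lemma card_gcd_le (A G : ℕ) (hG : 1 ≤ G) (hGA : G ≤ A) :
    (((Icc (-(A : ℤ)) A ×ˢ Icc (-(A : ℤ)) A).filter
      fun w : ℤ × ℤ => G < Int.gcd w.1 w.2).card : ℝ) ≤ 9 * (A : ℝ) ^ 2 / G := by
  set S := Icc (-(A : ℤ)) A with hS
  have hsub : ((S ×ˢ S).filter fun w : ℤ × ℤ => G < Int.gcd w.1 w.2) ⊆
      (Ioc G A).biUnion fun d : ℕ =>
        (S.filter fun x => (d : ℤ) ∣ x - 0) ×ˢ (S.filter fun x => (d : ℤ) ∣ x - 0) := by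
    intro w hw
    simp only [mem_filter, mem_product] at hw
    obtain ⟨⟨h1, h2⟩, h3⟩ := hw
    simp only [mem_biUnion, mem_Ioc, mem_product, mem_filter, sub_zero]
    refine ⟨Int.gcd w.1 w.2, ⟨h3, ?_⟩, ⟨h1, Int.gcd_dvd_left ..⟩, h2, Int.gcd_dvd_right ..⟩
    simp only [hS, mem_Icc] at h1 h2
    by_cases h0 : w.1 = 0
    · rw [h0, Int.gcd_zero_left]; omega
    · have := Nat.le_of_dvd (Int.natAbs_pos.mpr h0) (Nat.gcd_dvd_left w.1.natAbs w.2.natAbs)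
      rw [Int.gcd_eq_natAbs]
      omega
  have h1 := (card_le_card hsub).trans card_biUnion_le
  have h2 : ∀ d ∈ Ioc G A, (((S.filter fun x => (d : ℤ) ∣ x - 0) ×ˢ
      (S.filter fun x => (d : ℤ) ∣ x - 0)).card : ℝ) ≤ 9 * (A : ℝ) ^ 2 * ((d : ℝ) ^ 2)⁻¹ := by
    intro d hd
    rw [mem_Ioc] at hd
    have hd0 : 0 < d := by omega
    have hd' : (0 : ℝ) < d := by exact_mod_cast hd0
    have h3 := card_class_le A d hd0 0
    have h4 : (1 : ℝ) ≤ A / d := by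
      rw [le_div_iff₀ hd', one_mul]; exact_mod_cast hd.2
    have h5 : ((S.filter fun x => (d : ℤ) ∣ x - 0).card : ℝ) ≤ 3 * (A / d) := by
      rw [mul_div_assoc] at h3; linarith only [h3, h4]
    rw [card_product, Nat.cast_mul]
    calc _ ≤ (3 * ((A : ℝ) / d)) * (3 * (A / d)) :=
          mul_le_mul h5 h5 (Nat.cast_nonneg _) (by positivity)
      _ = _ := by field_simp; ring
  have h3 := sum_Ioc_inv_sq_le_sub (α := ℝ) (k := G) (n := A) (by omega) hGA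
  have h4 : (0 : ℝ) ≤ (A : ℝ)⁻¹ := by positivity
  calc _ ≤ ((∑ d ∈ Ioc G A, ((S.filter fun x => (d : ℤ) ∣ x - 0) ×ˢ
        (S.filter fun x => (d : ℤ) ∣ x - 0)).card : ℕ) : ℝ) := by exact_mod_cast h1
    _ ≤ ∑ d ∈ Ioc G A, 9 * (A : ℝ) ^ 2 * ((d : ℝ) ^ 2)⁻¹ := by
        push_cast; exact sum_le_sum h2
    _ = 9 * (A : ℝ) ^ 2 * ∑ d ∈ Ioc G A, ((d : ℝ) ^ 2)⁻¹ := by rw [mul_sum]
    _ ≤ 9 * (A : ℝ) ^ 2 * (G : ℝ)⁻¹ := by
        refine mul_le_mul_of_nonneg_left (by linarith only [h3, h4]) (by positivity)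
    _ = _ := by rw [div_eq_mul_inv]

lemma card_near_le (S : Finset ℤ) (x T : ℝ) (hT : 0 ≤ T) :
    ((S.filter fun b : ℤ => |(b : ℝ) - x| < T).card : ℝ) ≤ 2 * T + 1 := by
  have hsub : (S.filter fun b : ℤ => |(b : ℝ) - x| < T) ⊆ Ioc ⌊x - T⌋ ⌊x + T⌋ := by
    intro b hb
    rw [mem_filter, abs_lt] at hb
    rw [mem_Ioc, Int.floor_lt, Int.le_floor]
    constructor <;> linarith [hb.2.1, hb.2.2]
  have h1 := card_le_card hsub
  rw [Int.card_Ioc] at h1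
  have h2 : ⌊x - T⌋ ≤ ⌊x + T⌋ := Int.floor_le_floor (by linarith only [hT])
  have h3 : ((⌊x + T⌋ - ⌊x - T⌋).toNat : ℝ) = (⌊x + T⌋ : ℝ) - ⌊x - T⌋ := by
    have : ((⌊x + T⌋ - ⌊x - T⌋).toNat : ℤ) = ⌊x + T⌋ - ⌊x - T⌋ := Int.toNat_of_nonneg (by omega)
    exact_mod_cast this
  have h4 := Int.floor_le (x + T)
  have h5 := Int.lt_floor_add_one (x - T)
  have h6 : ((S.filter fun b : ℤ => |(b : ℝ) - x| < T).card : ℝ)
      ≤ ((⌊x + T⌋ - ⌊x - T⌋).toNat : ℝ) := by exact_mod_cast h1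
  linarith only [h3, h4, h5, h6]

lemma exists_cubic_split (p q : ℂ) : ∃ t1 t2 t3 : ℂ, ∀ x : ℂ,
    x ^ 3 + p * x + q = (x - t1) * (x - t2) * (x - t3) := by
  obtain ⟨t, ht⟩ : ∃ t : ℂ, t ^ 3 + p * t + q = 0 := by
    have hd : (Polynomial.X ^ 3 + Polynomial.C p * Polynomial.X + Polynomial.C q :
        Polynomial ℂ).degree = 3 := by compute_degree!
    obtain ⟨t, ht⟩ := Complex.exists_root (f := Polynomial.X ^ 3 + Polynomial.C p * Polynomial.X
      + Polynomial.C q) (by rw [hd]; norm_num)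
    exact ⟨t, by simpa using ht⟩
  obtain ⟨s, hs⟩ := IsAlgClosed.exists_pow_nat_eq (-3 * t ^ 2 - 4 * p) (n := 2) (by norm_num)
  refine ⟨t, (-t + s) / 2, (-t - s) / 2, fun x => ?_⟩
  linear_combination ht + (x - t) / 4 * hs

lemma card_small_le (P Q c : ℤ) (S : Finset ℤ) (T : ℝ) (hT : 0 ≤ T) :
    ((S.filter fun b : ℤ => (|rR P Q b c| : ℝ) < T ^ 3).card : ℝ) ≤ 3 * (2 * T + 1) := by
  obtain ⟨t1, t2, t3, ht⟩ := exists_cubic_split ((P * c ^ 2 : ℤ) : ℂ) ((Q * c ^ 3 : ℤ) : ℂ)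
  have hsub : (S.filter fun b : ℤ => (|rR P Q b c| : ℝ) < T ^ 3) ⊆
      (S.filter fun b : ℤ => |(b : ℝ) - t1.re| < T) ∪ (S.filter fun b : ℤ => |(b : ℝ) - t2.re| < T)
        ∪ (S.filter fun b : ℤ => |(b : ℝ) - t3.re| < T) := by
    intro b hb
    rw [mem_filter] at hb
    simp only [mem_union, mem_filter, hb.1, true_and]
    by_contra hcon
    push Not at hcon
    obtain ⟨⟨h1, h2⟩, h3⟩ := hcon
    have hre : ∀ t : ℂ, |(b : ℝ) - t.re| ≤ ‖(b : ℂ) - t‖ := fun t => by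
      simpa using Complex.abs_re_le_norm ((b : ℂ) - t)
    have e : ((rR P Q b c : ℤ) : ℂ) = ((b : ℂ) - t1) * (b - t2) * (b - t3) := by
      rw [← ht]; unfold rR; push_cast; ring
    have e2 : (|rR P Q b c| : ℝ) = ‖(b : ℂ) - t1‖ * ‖(b : ℂ) - t2‖ * ‖(b : ℂ) - t3‖ := by
      rw [← norm_mul, ← norm_mul, ← e, Complex.norm_intCast]
    have h4 : T * T ≤ ‖(b : ℂ) - t1‖ * ‖(b : ℂ) - t2‖ :=
      mul_le_mul (h1.trans (hre _)) (h2.trans (hre _)) hT (norm_nonneg _)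
    have h5 : T * T * T ≤ ‖(b : ℂ) - t1‖ * ‖(b : ℂ) - t2‖ * ‖(b : ℂ) - t3‖ :=
      mul_le_mul h4 (h3.trans (hre _)) hT (by positivity)
    have h6 := hb.2
    rw [e2] at h6
    linarith only [hb, e2, h5]
  have h1 := card_le_card hsub
  have h2 := (card_union_le _ _).trans (Nat.add_le_add_right (card_union_le
    (S.filter fun b : ℤ => |(b : ℝ) - t1.re| < T) (S.filter fun b : ℤ => |(b : ℝ) - t2.re| < T))
    (S.filter fun b : ℤ => |(b : ℝ) - t3.re| < T).card)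
  have h3 : ((S.filter fun b : ℤ => (|rR P Q b c| : ℝ) < T ^ 3).card : ℝ) ≤
      (S.filter fun b : ℤ => |(b : ℝ) - t1.re| < T).card
        + (S.filter fun b : ℤ => |(b : ℝ) - t2.re| < T).card
        + (S.filter fun b : ℤ => |(b : ℝ) - t3.re| < T).card := by exact_mod_cast h1.trans h2
  linarith only [h3, hT, card_near_le S t1.re T hT, card_near_le S t2.re T hT, card_near_le S t3.re T hT]

lemma card_nN_dvd_le (P Q b c : ℤ) (A g : ℕ) (hg : Squarefree g) :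
    ((((Icc (-(A : ℤ)) A)).filter fun a => (g : ℤ) ∣ nN P Q a b c).card : ℝ)
      ≤ (g.divisors.card : ℝ) ^ 2 * (2 * A / g + 1) := by
  have hg0 : 0 < g := Nat.pos_of_ne_zero hg.ne_zero
  have hg' : (0 : ℤ) < g := by exact_mod_cast hg0
  set f : Polynomial ℤ := Polynomial.X ^ 3 + Polynomial.C (-2 * c * P) * Polynomial.X ^ 2
    + Polynomial.C (c ^ 2 * P ^ 2 + 3 * b * c * Q + b ^ 2 * P) * Polynomial.X
    + Polynomial.C (-b ^ 3 * Q + c ^ 3 * Q ^ 2 - b * c ^ 2 * P * Q) with hf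
  have hev : ∀ a : ℤ, f.eval a = nN P Q a b c := by
    intro a
    simp only [hf, Polynomial.eval_add, Polynomial.eval_mul, Polynomial.eval_pow,
      Polynomial.eval_C, Polynomial.eval_X]
    unfold nN; ring
  have hmon : f.Monic := by rw [hf]; monicity!
  have hdeg : f.natDegree ≤ 3 := by rw [hf]; compute_degree
  have hR := card_roots_le' f hmon.isPrimitive hdeg g hg
  set R := (range g).filter (fun n : ℕ => (g : ℤ) ∣ f.eval (n : ℤ)) with hRdef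
  have hsub : ((Icc (-(A : ℤ)) A).filter fun a => (g : ℤ) ∣ nN P Q a b c) ⊆
      R.biUnion fun n : ℕ => (Icc (-(A : ℤ)) A).filter fun x => (g : ℤ) ∣ x - n := by
    intro a ha
    rw [mem_filter] at ha
    have h1 := Int.emod_nonneg a hg'.ne'
    have h2 := Int.emod_lt_of_pos a hg'
    have h3 : (((a % g).toNat : ℕ) : ℤ) = a % g := Int.toNat_of_nonneg h1
    have h4 : (g : ℤ) ∣ a - ((a % g).toNat : ℕ) := by
      rw [h3]; exact Int.dvd_self_sub_emod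
    simp only [mem_biUnion, hRdef, mem_filter, mem_range]
    refine ⟨(a % g).toNat, ⟨by omega, ?_⟩, ha.1, h4⟩
    rw [← dvd_eval_congr f h4, hev]
    exact ha.2
  have h1 := (card_le_card hsub).trans card_biUnion_le
  calc _ ≤ ((∑ n ∈ R, ((Icc (-(A : ℤ)) A).filter fun x => (g : ℤ) ∣ x - n).card : ℕ) : ℝ) := by
        exact_mod_cast h1
    _ ≤ ∑ _n ∈ R, (2 * (A : ℝ) / g + 1) := by
        push_cast; exact sum_le_sum fun n _ => card_class_le A g hg0 n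
    _ = R.card * (2 * (A : ℝ) / g + 1) := by rw [sum_const, nsmul_eq_mul]
    _ ≤ _ := by
        refine mul_le_mul_of_nonneg_right ?_ (by positivity)
        exact_mod_cast hR

end Pool.Agent.Work.MP_51e72e_nt.Cub
end

-- merged part: Pool.Agent.Work.MP_51e72e_nt.CubAlg
section
/-!
Small generators, sizes, roots modulo squarefree numbers, and the exceptional set.
-/

set_option autoImplicit false

namespace Pool.Agent.Work.MP_51e72e_nt.Cub

open Finset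

theorem abs_nN_le (P Q a b c : ℤ) (A : ℕ) (ha : |a| ≤ A) (hb : |b| ≤ A) (hc : |c| ≤ A) :
    |nN P Q a b c| ≤ kK P Q * (A : ℤ) ^ 3 :=
  abs_nN_le' P Q a b c A ha hb hc

theorem abs_uU_le (P Q a b c : ℤ) (A : ℕ) (ha : |a| ≤ A) (hb : |b| ≤ A) (hc : |c| ≤ A) :
    |uU P Q a b c| ≤ kK P Q * (A : ℤ) ^ 3 :=
  abs_uU_le' P Q a b c A ha hb hc

theorem abs_rR_le (P Q b c : ℤ) (A : ℕ) (hb : |b| ≤ A) (hc : |c| ≤ A) :
    |rR P Q b c| ≤ kK P Q * (A : ℤ) ^ 3 :=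
  abs_rR_le' P Q b c A hb hc

theorem rR_ne_zero {P Q : ℤ} (hF : NoRoot P Q) {b c : ℤ} (h : b ≠ 0 ∨ c ≠ 0) :
    rR P Q b c ≠ 0 :=
  rR_ne_zero' hF h

theorem exists_alpha {P Q : ℤ} (hF : NoRoot P Q) (m : ℕ) (hm : 0 < m) (r : ℤ)
    (hr : (m : ℤ) ∣ r ^ 3 + P * r + Q) (A : ℕ) (hA : m ≤ A ^ 3) :
    ∃ a b c : ℤ, ∃ k : ℕ, |a| ≤ A ∧ |b| ≤ A ∧ |c| ≤ A ∧ 1 ≤ k ∧ k ≤ kK P Q ∧
      nN P Q a b c = k * m ∧ (m : ℤ) ∣ rR P Q b c * r - uU P Q a b c :=
  exists_alpha' hF m hm r hr A hA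

theorem card_roots_prod (f : Polynomial ℤ) (T : Finset ℕ) (hT : ∀ p ∈ T, p.Prime) :
    ((range (∏ p ∈ T, p)).filter
      (fun n : ℕ => ((∏ p ∈ T, p : ℕ) : ℤ) ∣ f.eval (n : ℤ))).card = ∏ p ∈ T, omega f p :=
  card_roots_prod' f T hT

theorem card_roots_le (f : Polynomial ℤ) (hf : f.IsPrimitive) (hd : f.natDegree ≤ 3) (g : ℕ)
    (hg : Squarefree g) :
    ((range g).filter (fun n : ℕ => (g : ℤ) ∣ f.eval (n : ℤ))).card ≤ g.divisors.card ^ 2 :=
  card_roots_le' f hf hd g hg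

lemma card_filter_prod_le {α β : Type*} (S : Finset α) (T : Finset β) (p : α × β → Prop)
    [DecidablePred p] (B : ℝ) (h : ∀ y ∈ T, ((S.filter fun x => p (x, y)).card : ℝ) ≤ B) :
    (((S ×ˢ T).filter p).card : ℝ) ≤ T.card * B := by
  rw [card_filter, sum_product_right]
  push_cast
  calc _ ≤ ∑ _y ∈ T, B := by
        refine sum_le_sum fun y hy => le_trans (le_of_eq ?_) (h y hy)
        rw [card_filter]; push_cast; rfl
    _ = _ := by rw [sum_const, nsmul_eq_mul]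

lemma card_filter_prod_le' {α β : Type*} (S : Finset α) (T : Finset β) (p : β → Prop)
    [DecidablePred p] :
    (((S ×ˢ T).filter fun z => p z.2).card : ℝ) = S.card * (T.filter p).card := by
  rw [filter_product_right, card_product, Nat.cast_mul]

open Classical in
lemma card_third_le (P Q b c : ℤ) (A G : ℕ) (hG : 1 ≤ G) (hGA : G ≤ A) (D : ℝ)
    (hD : ∀ n : ℕ, 1 ≤ n → n ≤ kK P Q * A ^ 3 → (n.divisors.card : ℝ) ≤ D)
    (hb : |b| ≤ A) (hc : |c| ≤ A) :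
    (((Icc (-(A : ℤ)) A).filter fun a => rR P Q b c ≠ 0 ∧ ∃ g : ℕ, Squarefree g ∧ G < g ∧
      (g : ℤ) ∣ rR P Q b c ∧ (g : ℤ) ∣ nN P Q a b c).card : ℝ) ≤ D ^ 3 * (3 * A / G) := by
  have hG' : (0 : ℝ) < G := by exact_mod_cast hG
  have hGA' : (1 : ℝ) ≤ A / G := by rw [le_div_iff₀ hG', one_mul]; exact_mod_cast hGA
  have hk : 1 ≤ kK P Q * A ^ 3 := by
    refine Nat.mul_pos ?_ (pow_pos (by omega) _)
    unfold kK; positivity
  have hD0 : 0 ≤ D := (Nat.cast_nonneg _).trans (hD 1 le_rfl hk)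
  by_cases h0 : rR P Q b c = 0
  · simp only [h0, ne_eq, not_true_eq_false, false_and, filter_false, card_empty, Nat.cast_zero]
    positivity
  have hpos : 1 ≤ (rR P Q b c).natAbs := Int.natAbs_pos.mpr h0
  have hle : (rR P Q b c).natAbs ≤ kK P Q * A ^ 3 := by
    have := abs_rR_le P Q b c A hb hc
    rw [Int.abs_eq_natAbs] at this
    exact_mod_cast this
  set T := (rR P Q b c).natAbs.divisors.filter fun g => Squarefree g ∧ G < g with hT
  have hsub : ((Icc (-(A : ℤ)) A).filter fun a => rR P Q b c ≠ 0 ∧ ∃ g : ℕ, Squarefree g ∧ G < g ∧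
      (g : ℤ) ∣ rR P Q b c ∧ (g : ℤ) ∣ nN P Q a b c) ⊆
      T.biUnion fun g => (Icc (-(A : ℤ)) A).filter fun a => (g : ℤ) ∣ nN P Q a b c := by
    intro a ha
    rw [mem_filter] at ha
    obtain ⟨ha, -, g, h1, h2, h3, h4⟩ := ha
    simp only [mem_biUnion, hT, mem_filter, Nat.mem_divisors]
    exact ⟨g, ⟨⟨Int.natCast_dvd.mp h3, by omega⟩, h1, h2⟩, ha, h4⟩
  have h1 := (card_le_card hsub).trans card_biUnion_le
  have h2 : ∀ g ∈ T, (((Icc (-(A : ℤ)) A).filter fun a => (g : ℤ) ∣ nN P Q a b c).card : ℝ)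
      ≤ D ^ 2 * (3 * A / G) := by
    intro g hg
    simp only [hT, mem_filter, Nat.mem_divisors] at hg
    obtain ⟨⟨h3, -⟩, h4, h5⟩ := hg
    have h6 := hD g (by omega) ((Nat.le_of_dvd hpos h3).trans hle)
    refine (card_nN_dvd_le P Q b c A g h4).trans ?_
    have h7 : 2 * (A : ℝ) / g ≤ 2 * A / G :=
      div_le_div_of_nonneg_left (by positivity) hG' (by exact_mod_cast h5.le)
    refine mul_le_mul (pow_le_pow_left₀ (Nat.cast_nonneg _) h6 2) ?_ (by positivity)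
      (by positivity)
    rw [mul_div_assoc] at h7 ⊢
    rw [mul_div_assoc] at h7 ⊢
    linarith only [hGA', h7]
  have h3 : (T.card : ℝ) ≤ D :=
    le_trans (by exact_mod_cast card_filter_le _ _) (hD _ hpos hle)
  calc _ ≤ ((∑ g ∈ T, ((Icc (-(A : ℤ)) A).filter fun a => (g : ℤ) ∣ nN P Q a b c).card : ℕ) : ℝ) :=
        by exact_mod_cast h1
    _ ≤ ∑ _g ∈ T, D ^ 2 * (3 * (A : ℝ) / G) := by push_cast; exact sum_le_sum h2
    _ = T.card * (D ^ 2 * (3 * (A : ℝ) / G)) := by rw [sum_const, nsmul_eq_mul]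
    _ ≤ D * (D ^ 2 * (3 * (A : ℝ) / G)) := mul_le_mul_of_nonneg_right h3 (by positivity)
    _ = _ := by ring

open Classical in
theorem card_bad_le {P Q : ℤ} (hF : NoRoot P Q) (A G : ℕ) (hG : 1 ≤ G) (hGA : G ≤ A) (D : ℝ)
    (hD : ∀ n : ℕ, 1 ≤ n → n ≤ kK P Q * A ^ 3 → (n.divisors.card : ℝ) ≤ D) :
    ((((Icc (-(A : ℤ)) A) ×ˢ (Icc (-(A : ℤ)) A) ×ˢ (Icc (-(A : ℤ)) A)).filter
      fun z : ℤ × ℤ × ℤ => G < Int.gcd z.2.1 z.2.2 ∨
        |rR P Q z.2.1 z.2.2| * (G : ℤ) ^ 3 < (A : ℤ) ^ 3 ∨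
        ∃ g : ℕ, Squarefree g ∧ G < g ∧ (g : ℤ) ∣ rR P Q z.2.1 z.2.2 ∧
          (g : ℤ) ∣ nN P Q z.1 z.2.1 z.2.2).card : ℝ)
      ≤ 200 * D ^ 3 * (A : ℝ) ^ 3 / G := by
  have _ := hF
  have hA : 1 ≤ A := hG.trans hGA
  have hG' : (0 : ℝ) < G := by exact_mod_cast hG
  have hA' : (0 : ℝ) < A := by exact_mod_cast hA
  have hGA' : (1 : ℝ) ≤ A / G := by rw [le_div_iff₀ hG', one_mul]; exact_mod_cast hGA
  have hk : 1 ≤ kK P Q * A ^ 3 := by
    refine Nat.mul_pos ?_ (pow_pos (by omega) _)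
    unfold kK; positivity
  have hD1 : 1 ≤ D := by simpa using hD 1 le_rfl hk
  set S := Icc (-(A : ℤ)) A with hS
  have hSc : (S.card : ℝ) ≤ 3 * A := card_box A hA
  have hSS : ((S ×ˢ S).card : ℝ) ≤ 9 * (A : ℝ) ^ 2 := by
    rw [card_product, Nat.cast_mul]
    calc _ ≤ (3 * (A : ℝ)) * (3 * A) := mul_le_mul hSc hSc (Nat.cast_nonneg _) (by positivity)
      _ = _ := by ring
  set B1 := (S ×ˢ S ×ˢ S).filter fun z : ℤ × ℤ × ℤ => G < Int.gcd z.2.1 z.2.2 with hB1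
  set B2 := (S ×ˢ S ×ˢ S).filter
    fun z : ℤ × ℤ × ℤ => (|rR P Q z.2.1 z.2.2| : ℝ) < ((A : ℝ) / G) ^ 3 with hB2
  set B3 := (S ×ˢ S ×ˢ S).filter fun z : ℤ × ℤ × ℤ => rR P Q z.2.1 z.2.2 ≠ 0 ∧
    ∃ g : ℕ, Squarefree g ∧ G < g ∧ (g : ℤ) ∣ rR P Q z.2.1 z.2.2 ∧
      (g : ℤ) ∣ nN P Q z.1 z.2.1 z.2.2 with hB3
  have hsub : ((S ×ˢ S ×ˢ S).filter
      fun z : ℤ × ℤ × ℤ => G < Int.gcd z.2.1 z.2.2 ∨
        |rR P Q z.2.1 z.2.2| * (G : ℤ) ^ 3 < (A : ℤ) ^ 3 ∨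
        ∃ g : ℕ, Squarefree g ∧ G < g ∧ (g : ℤ) ∣ rR P Q z.2.1 z.2.2 ∧
          (g : ℤ) ∣ nN P Q z.1 z.2.1 z.2.2) ⊆ B1 ∪ B2 ∪ B3 := by
    intro z hz
    rw [mem_filter] at hz
    obtain ⟨hz, h⟩ := hz
    simp only [hB1, hB2, hB3, mem_union, mem_filter, hz, true_and]
    rcases h with h | h | h
    · exact Or.inl (Or.inl h)
    · refine Or.inl (Or.inr ?_)
      rw [div_pow, lt_div_iff₀ (by positivity)]
      exact_mod_cast h
    · by_cases h0 : rR P Q z.2.1 z.2.2 = 0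
      · refine Or.inl (Or.inr ?_)
        rw [h0, Int.cast_zero, abs_zero]
        positivity
      · exact Or.inr ⟨h0, h⟩
  have h1 : (B1.card : ℝ) ≤ 27 * ((A : ℝ) ^ 3 / G) := by
    rw [hB1, card_filter_prod_le' S (S ×ˢ S) (fun w : ℤ × ℤ => G < Int.gcd w.1 w.2)]
    calc _ ≤ (3 * (A : ℝ)) * (9 * (A : ℝ) ^ 2 / G) :=
          mul_le_mul hSc (card_gcd_le A G hG hGA) (Nat.cast_nonneg _) (by positivity)
      _ = _ := by ring
  have h2 : (B2.card : ℝ) ≤ 81 * ((A : ℝ) ^ 3 / G) := by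
    rw [hB2, card_filter_prod_le' S (S ×ˢ S)
      (fun w : ℤ × ℤ => (|rR P Q w.1 w.2| : ℝ) < ((A : ℝ) / G) ^ 3)]
    have h3 := card_filter_prod_le S S
      (fun w : ℤ × ℤ => (|rR P Q w.1 w.2| : ℝ) < ((A : ℝ) / G) ^ 3) (9 * (A / G))
      (fun c _ => (card_small_le P Q c S (A / G) (by positivity)).trans (by linarith only [hGA']))
    have h4 : (S.card : ℝ) * (9 * (A / G)) ≤ 3 * A * (9 * (A / G)) :=
      mul_le_mul_of_nonneg_right hSc (by positivity)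
    calc _ ≤ (3 * (A : ℝ)) * (3 * A * (9 * (A / G))) :=
          mul_le_mul hSc (h3.trans h4) (Nat.cast_nonneg _) (by positivity)
      _ = _ := by ring
  have h3 : (B3.card : ℝ) ≤ 27 * (D ^ 3 * ((A : ℝ) ^ 3 / G)) := by
    refine (card_filter_prod_le S (S ×ˢ S) _ (D ^ 3 * (3 * A / G)) ?_).trans ?_
    · intro w hw
      simp only [hS, mem_product, mem_Icc] at hw
      exact card_third_le P Q w.1 w.2 A G hG hGA D hD (abs_le.mpr hw.1) (abs_le.mpr hw.2)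
    · calc _ ≤ 9 * (A : ℝ) ^ 2 * (D ^ 3 * (3 * A / G)) :=
            mul_le_mul_of_nonneg_right hSS (by positivity)
        _ = _ := by ring
  have h4 := (card_le_card hsub).trans
    ((card_union_le _ _).trans (Nat.add_le_add_right (card_union_le B1 B2) B3.card))
  have h5 : (A : ℝ) ^ 3 / G ≤ D ^ 3 * ((A : ℝ) ^ 3 / G) :=
    le_mul_of_one_le_left (by positivity) (one_le_pow₀ hD1)
  have h6 : (0 : ℝ) ≤ (A : ℝ) ^ 3 / G := by positivity
  calc _ ≤ ((B1.card + B2.card + B3.card : ℕ) : ℝ) := by exact_mod_cast h4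
    _ ≤ 200 * (D ^ 3 * ((A : ℝ) ^ 3 / G)) := by push_cast; linarith only [h1, h2, h3, h5]
    _ = _ := by ring

/-- reduction of a cubic to a monic one without quadratic term -/
theorem exists_depressed (f : Polynomial ℤ) (hf : Irreducible f) (hd : f.natDegree = 3) :
    ∃ P Q t : ℤ, NoRoot P Q ∧ ∀ n : ℤ,
      (3 * f.leadingCoeff * n + t) ^ 3 + P * (3 * f.leadingCoeff * n + t) + Q
        = 27 * f.leadingCoeff ^ 2 * f.eval n :=
  exists_depressed' f hf hd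

end Pool.Agent.Work.MP_51e72e_nt.Cub
end

-- merged part: Pool.Agent.Work.MP_51e72e_nt.CubSieve3
section
/-!
The remainder functional of the smoothed count, in terms of residue classes.
-/

set_option autoImplicit false

namespace Pool.Agent.Work.MP_51e72e_nt.Cub.Sv

open Finset Pool.Agent.Lib.ANT

noncomputable section

/-- a solution of two congruences -/
def crt (m y : ℕ) (r s : ℤ) : ℤ := r + m * Nat.gcdA m y * (s - r)

/-- roots modulo `m` -/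
def Rt (f : Polynomial ℤ) (m : ℕ) : Finset ℕ :=
  (range m).filter fun n : ℕ => (m : ℤ) ∣ f.eval (n : ℤ)

/-- admissible roots modulo `y` -/
def Ad (f : Polynomial ℤ) (W y : ℕ) : Finset ℕ :=
  (range (W * y)).filter fun n : ℕ =>
    Nat.Coprime (f.eval (n : ℤ)).natAbs W ∧ (y : ℤ) ∣ f.eval (n : ℤ)

/-- the smoothed count -/
def AX (f : Polynomial ℤ) (W N L : ℕ) (Ps : Finset ℕ) : (Finset ℕ → ℝ) →ₗ[ℝ] ℝ where
  toFun X := (∑ z ∈ Icc 1 (N + L) ×ˢ range L,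
    (if Nat.Coprime (f.eval ((z.1 : ℤ) - z.2)).natAbs W then 1 else 0) *
      X (Ps.filter fun p : ℕ => (p : ℤ) ∣ f.eval ((z.1 : ℤ) - z.2))) / L
  map_add' X Y := by simp only [Pi.add_apply, mul_add, sum_add_distrib, add_div]
  map_smul' a X := by
    simp only [Pi.smul_apply, smul_eq_mul, RingHom.id_apply, ← mul_div_assoc, mul_sum]
    exact congrArg (· / (L : ℝ)) (sum_congr rfl fun S _ => by ring)

lemma crt_spec {m y : ℕ} (h : Nat.Coprime m y) (r s : ℤ) :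
    (m : ℤ) ∣ crt m y r s - r ∧ (y : ℤ) ∣ crt m y r s - s := by
  have e := Nat.gcd_eq_gcd_ab m y
  rw [h.gcd_eq_one, Nat.cast_one] at e
  refine ⟨⟨Nat.gcdA m y * (s - r), by unfold crt; ring⟩, ⟨Nat.gcdB m y * (r - s), ?_⟩⟩
  unfold crt
  linear_combination (r - s) * e

lemma dvd_crt_iff {m y : ℕ} (h : Nat.Coprime m y) (r s n : ℤ) :
    ((m * y : ℕ) : ℤ) ∣ n - crt m y r s ↔ (m : ℤ) ∣ n - r ∧ (y : ℤ) ∣ n - s := by
  obtain ⟨h1, h2⟩ := crt_spec h r s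
  rw [Nat.cast_mul]
  constructor
  · intro h3
    exact ⟨by simpa using (dvd_of_mul_right_dvd h3).add h1,
      by simpa using (dvd_of_mul_left_dvd h3).add h2⟩
  · rintro ⟨h3, h4⟩
    exact (Nat.isCoprime_iff_coprime.2 h).mul_dvd (by simpa using h3.sub h1)
      (by simpa using h4.sub h2)

lemma sum_class {m : ℕ} (hm : 0 < m) (q : ℤ → Prop) [DecidablePred q]
    (hq : ∀ a b : ℤ, (m : ℤ) ∣ a - b → q a → q b) (n : ℤ) :
    ∑ r ∈ (range m).filter (fun r : ℕ => q r), (if (m : ℤ) ∣ n - r then (1 : ℝ) else 0) =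
      if q n then 1 else 0 := by
  have hm' : (0 : ℤ) < m := by exact_mod_cast hm
  have h0 := Int.emod_nonneg n hm'.ne'
  have h1 := Int.emod_lt_of_pos n hm'
  obtain ⟨r0, e⟩ := Int.eq_ofNat_of_zero_le h0
  have h2 : (m : ℤ) ∣ n - r0 := e ▸ Int.dvd_self_sub_emod
  have h3 : r0 < m := by omega
  split_ifs with h
  · rw [sum_eq_single_of_mem r0 (mem_filter.2 ⟨mem_range.2 h3, hq _ _ h2 h⟩), if_pos h2]
    intro r hr hne
    refine if_neg fun h4 => hne ?_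
    have h5 := mem_range.1 (mem_filter.1 hr).1
    have h6 : (m : ℤ) ∣ (r : ℤ) - r0 := by simpa using h2.sub h4
    have := Int.eq_zero_of_abs_lt_dvd h6 (abs_lt.2 ⟨by omega, by omega⟩)
    omega
  · exact sum_eq_zero fun r hr => if_neg fun h4 =>
      h (hq _ _ (dvd_sub_comm.1 h4) (mem_filter.1 hr).2)

variable {f : Polynomial ℤ} {W N L : ℕ} {Ps T U : Finset ℕ}

lemma root_congr {m : ℕ} {a b : ℤ} (h : (m : ℤ) ∣ a - b) (ha : (m : ℤ) ∣ f.eval a) :
    (m : ℤ) ∣ f.eval b := by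
  simpa using ha.sub (h.trans (Polynomial.sub_dvd_eval_sub a b f))

lemma adm_congr {a b : ℤ} (h : (W : ℤ) ∣ a - b) (ha : Nat.Coprime (f.eval a).natAbs W) :
    Nat.Coprime (f.eval b).natAbs W := by
  obtain ⟨k, hk⟩ := h.trans (Polynomial.sub_dvd_eval_sub a b f)
  have h1 : IsCoprime (f.eval a) (W : ℤ) := Int.isCoprime_iff_gcd_eq_one.2 ha
  rw [sub_eq_iff_eq_add'.1 hk, IsCoprime.add_mul_left_left_iff] at h1
  exact Int.isCoprime_iff_gcd_eq_one.1 h1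

lemma sub_filter_iff (hPs : ∀ p ∈ Ps, p.Prime) (hT : T ⊆ Ps) (a : ℤ) :
    (T ⊆ Ps.filter fun p : ℕ => (p : ℤ) ∣ a) ↔ (pr T : ℤ) ∣ a := by
  constructor
  · intro h
    exact Int.natCast_dvd.2 (prod_primes_dvd _ (fun p hp => (hPs p (hT hp)).prime)
      fun p hp => Int.natCast_dvd.1 (mem_filter.1 (h hp)).2)
  · intro h p hp
    exact mem_filter.2 ⟨hT hp, (Int.natCast_dvd_natCast.2 (dvd_prod_of_mem _ hp)).trans h⟩

lemma AX_ind (hPs : ∀ p ∈ Ps, p.Prime) (hW : 0 < W) (hT : T ⊆ Ps) (hU : U ⊆ Ps)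
    (hc : Nat.Coprime (pr T) (W * pr U)) : AX f W N L Ps (ind (T ∪ U)) =
      ∑ r ∈ Rt f (pr T), ∑ s ∈ Ad f W (pr U),
        cntw N L (pr T * (W * pr U)) (crt (pr T) (W * pr U) r s) := by
  have p1 := pr_pos fun p hp => hPs p (hT hp)
  have p2 := pr_pos fun p hp => hPs p (hU hp)
  simp only [cntw, card_filter, ← sum_div]
  refine congrArg (· / (L : ℝ)) ?_
  simp only [Nat.cast_sum]
  rw [sum_comm]
  simp only [sum_comm (s := Rt f (pr T))]
  rw [sum_comm]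
  refine sum_congr rfl fun z _ => ?_
  generalize (z.1 : ℤ) - z.2 = n
  have e1 := sum_class p1 (fun a => (pr T : ℤ) ∣ f.eval a) (fun a b => root_congr) n
  have e2 := sum_class (Nat.mul_pos hW p2)
    (fun a => Nat.Coprime (f.eval a).natAbs W ∧ (pr U : ℤ) ∣ f.eval a)
    (fun a b h1 h2 => by
      rw [Nat.cast_mul] at h1
      exact ⟨adm_congr (dvd_of_mul_right_dvd h1) h2.1, root_congr (dvd_of_mul_left_dvd h1) h2.2⟩) n
  have e3 : ∑ s ∈ Ad f W (pr U), ∑ r ∈ Rt f (pr T),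
      (((if ((pr T * (W * pr U) : ℕ) : ℤ) ∣ n - crt (pr T) (W * pr U) r s then 1 else 0 : ℕ)) : ℝ) =
      (∑ s ∈ Ad f W (pr U), if ((W * pr U : ℕ) : ℤ) ∣ n - s then (1 : ℝ) else 0) *
        ∑ r ∈ Rt f (pr T), if (pr T : ℤ) ∣ n - r then (1 : ℝ) else 0 := by
    rw [sum_mul_sum]
    refine sum_congr rfl fun s _ => sum_congr rfl fun r _ => ?_
    simp only [dvd_crt_iff hc]
    by_cases h1 : (pr T : ℤ) ∣ n - r <;> by_cases h2 : ((W * pr U : ℕ) : ℤ) ∣ n - s <;>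
      simp only [h1, h2, and_self, and_true, and_false, if_true, if_false] <;> simp
  rw [e3, Rt, Ad, e1, e2]
  simp only [ind, union_subset_iff, sub_filter_iff hPs hT, sub_filter_iff hPs hU]
  by_cases h1 : (pr T : ℤ) ∣ f.eval n <;> by_cases h2 : (pr U : ℤ) ∣ f.eval n <;>
    by_cases h3 : Nat.Coprime (f.eval n).natAbs W <;> simp [h1, h2, h3]

lemma card_Ad (hW : 0 < W) (hU : ∀ p ∈ U, p.Prime ∧ Nat.Coprime p W) : (Ad f W (pr U)).card =
    ((range W).filter fun c : ℕ => Nat.Coprime (f.eval (c : ℤ)).natAbs W).card *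
      ∏ p ∈ U, omega f p := by
  have hc : Nat.Coprime W (pr U) := Nat.Coprime.prod_right fun p hp => (hU p hp).2.symm
  rw [← card_roots_prod f U fun p hp => (hU p hp).1]
  refine Eq.trans (congrArg _ (filter_congr fun n _ => ?_))
    (card_range_mul_coprime hc hW (pr_pos fun p hp => (hU p hp).1) _ _)
  have a1 : (W : ℤ) ∣ (n : ℤ) - (n % W : ℕ) := by
    rw [Int.natCast_mod]; exact Int.dvd_self_sub_emod
  have a2 : (pr U : ℤ) ∣ (n : ℤ) - (n % pr U : ℕ) := by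
    rw [Int.natCast_mod]; exact Int.dvd_self_sub_emod
  exact and_congr ⟨adm_congr a1, adm_congr (dvd_sub_comm.1 a1)⟩
    ⟨root_congr a2, root_congr (dvd_sub_comm.1 a2)⟩

/-- the remainder functional -/
def RM (f : Polynomial ℤ) (W N L : ℕ) (Ps : Finset ℕ) : (Finset ℕ → ℝ) →ₗ[ℝ] ℝ :=
  AX f W N L Ps - (((N : ℝ) + L) *
    ((((range W).filter fun c : ℕ => Nat.Coprime (f.eval (c : ℤ)).natAbs W).card : ℝ) / W)) •
    EX (fun p => (omega f p : ℝ) / p) Ps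

lemma cop_of_disj (hPs : ∀ p ∈ Ps, p.Prime ∧ Nat.Coprime p W) (hT : T ⊆ Ps) (hU : U ⊆ Ps)
    (hd : Disjoint T U) : Nat.Coprime (pr T) (W * pr U) :=
  Nat.Coprime.prod_left fun p hp => Nat.Coprime.mul_right (hPs p (hT hp)).2
    (Nat.Coprime.prod_right fun q hq => (Nat.coprime_primes (hPs p (hT hp)).1 (hPs q (hU hq)).1).2
      fun e => disjoint_left.1 hd hp (e ▸ hq))

lemma RM_ind (hPs : ∀ p ∈ Ps, p.Prime ∧ Nat.Coprime p W) (hW : 0 < W) (hT : T ⊆ Ps) (hU : U ⊆ Ps)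
    (hd : Disjoint T U) : RM f W N L Ps (ind (T ∪ U)) =
      ∑ r ∈ Rt f (pr T), ∑ s ∈ Ad f W (pr U),
        (cntw N L (pr T * (W * pr U)) (crt (pr T) (W * pr U) r s) -
          ((N : ℝ) + L) / (pr T * (W * pr U : ℕ))) := by
  rw [RM, LinearMap.sub_apply, LinearMap.smul_apply, smul_eq_mul, EX_ind _ (union_subset hT hU),
    AX_ind (fun p hp => (hPs p hp).1) hW hT hU (cop_of_disj hPs hT hU hd), prod_union hd]
  simp only [sum_sub_distrib, sum_const, nsmul_eq_mul]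
  rw [card_Ad hW fun p hp => hPs p (hU hp), Rt, pr, card_roots_prod f T fun p hp => (hPs p (hT hp)).1,
    prod_div_distrib, prod_div_distrib, pr]
  push_cast
  ring

lemma abs_RM_le (hPs : ∀ p ∈ Ps, p.Prime ∧ Nat.Coprime p W) (hW : 0 < W) (hL : 0 < L) (hT : T ⊆ Ps)
    (hU : U ⊆ Ps) (hd : Disjoint T U) : |RM f W N L Ps (ind (T ∪ U))| ≤
      (Rt f (pr T)).card * (W * ∏ p ∈ U, omega f p : ℕ) := by
  have p1 := pr_pos fun p hp => (hPs p (hT hp)).1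
  have p2 := pr_pos fun p hp => (hPs p (hU hp)).1
  have a1 : (Ad f W (pr U)).card ≤ W * ∏ p ∈ U, omega f p := by
    rw [card_Ad hW fun p hp => hPs p (hU hp)]
    exact Nat.mul_le_mul_right _ ((card_filter_le _ _).trans (card_range W).le)
  rw [RM_ind hPs hW hT hU hd, ← nsmul_eq_mul (Rt f (pr T)).card]
  refine (abs_sum_le_sum_abs _ _).trans (sum_le_card_nsmul _ _ _ fun r _ =>
    (abs_sum_le_sum_abs _ _).trans ((sum_le_card_nsmul _ _ 1 fun s _ => ?_).trans ?_))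
  · rw [← Nat.cast_mul]
    exact abs_cntw_sub_le N L _ hL (by positivity) _
  · rw [nsmul_eq_mul, mul_one]
    exact Nat.cast_le.2 a1

/-- large coefficients are traded for multiplicities -/
lemma level_scale {M0 M1 Y0 Y1 Dm : ℕ} {E : ℝ} (hLev : Level f W N L M0 M1 Y0 Y1 Dm E)
    {ι κ : Type} (I : Finset ι) (J : Finset κ) (m : ι → ℕ) (y : κ → ℕ) (r : ι → ℤ) (s : κ → ℤ)
    (a : ι → ℝ) (b : κ → ℝ) {K μ : ℕ} {A Λ : ℝ} (hK : 0 < K) (hA : 0 < A) (hΛ : 0 < Λ)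
    (hμ : μ * K ≤ Dm)
    (h1 : ∀ i ∈ I, Squarefree (m i) ∧ Nat.Coprime (m i) W ∧ M0 ≤ m i ∧ m i ≤ M1 ∧
      (m i : ℤ) ∣ f.eval (r i))
    (h2 : ∀ x : ℕ, (I.filter fun i => m i = x).card ≤ μ) (h3 : ∀ j ∈ J, Y0 < y j ∧ y j ≤ Y1)
    (h4 : ∀ x : ℕ, (J.filter fun j => y j = x).card ≤ Dm) (ha : ∀ i ∈ I, |a i| ≤ A * K)
    (hb : ∀ j ∈ J, |b j| ≤ Λ) :
    |∑ i ∈ I, ∑ j ∈ J, if Nat.Coprime (m i) (y j) then a i * b j *
      (cntw N L (m i * y j) (crt (m i) (y j) (r i) (s j)) - ((N : ℝ) + L) / (m i * y j)) else 0|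
      ≤ A * Λ * E := by
  have K0 : (0 : ℝ) < K := Nat.cast_pos.2 hK
  have := hLev (ι × ℕ) κ (I ×ˢ range K) J (fun i => m i.1) y (fun i => r i.1) s
    (fun i j => crt (m i.1) (y j) (r i.1) (s j)) (fun i => a i.1 / (A * K)) (fun j => b j / Λ)
    (fun i hi => h1 _ (mem_product.1 hi).1)
    (fun x => by
      rw [filter_product_left (p := fun i => m i = x), card_product, card_range]
      exact (Nat.mul_le_mul_right _ (h2 x)).trans hμ) h3 h4 (fun i _ j _ h => crt_spec h _ _)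
    (fun i hi => by
      rw [abs_div, abs_of_pos (a := A * K) (by positivity), div_le_one (by positivity)]
      exact ha _ (mem_product.1 hi).1)
    (fun j hj => by
      rw [abs_div, abs_of_pos hΛ, div_le_one hΛ]
      exact hb j hj)
  rw [sum_product] at this
  simp only [sum_const, card_range, nsmul_eq_mul] at this
  refine le_trans (le_of_eq ?_) (mul_le_mul_of_nonneg_left this (mul_pos hA hΛ).le)
  rw [← abs_of_pos (mul_pos hA hΛ), ← abs_mul, mul_sum]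
  refine congrArg _ (sum_congr rfl fun i _ => ?_)
  rw [mul_sum, mul_sum]
  refine sum_congr rfl fun j _ => ?_
  split_ifs
  · field_simp
  · simp

end

end Pool.Agent.Work.MP_51e72e_nt.Cub.Sv
end

-- merged part: Pool.Agent.Work.MP_51e72e_nt.CubSieve
section
/-!
Selberg's sieve with an additional product region, given a bilinear level of distribution.
-/

set_option autoImplicit false

namespace Pool.Agent.Work.MP_51e72e_nt.Cub

open Finset Pool.Agent.Lib.ANT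

/-- the local weight of the sieve -/
noncomputable def hh (f : Polynomial ℤ) (p : ℕ) : ℝ := (omega f p : ℝ) / (p - omega f p)

/-- the enlarged Selberg sum -/
noncomputable def GG (f : Polynomial ℤ) (Ps Pw : Finset ℕ) (z : ℝ) (Z0 Z1 : ℕ) : ℝ :=
  sqfSum Ps (hh f) z
    + (∑ p ∈ Pw, hh f p) * (sqfSum (Ps \ Pw) (hh f) Z1 - sqfSum (Ps \ Pw) (hh f) Z0)

namespace Sv

variable {f : Polynomial ℤ} {W N L : ℕ} {Ps Pw : Finset ℕ}

lemma count_le_AX (hL : 0 < L) (X : Finset ℕ → ℝ) :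
    (((Icc 1 N).filter (fun n : ℕ => Nat.Coprime (f.eval (n : ℤ)).natAbs W ∧
      ∀ p ∈ Ps, ¬ (p : ℤ) ∣ f.eval (n : ℤ))).card : ℝ) * (X ∅ * X ∅) ≤ AX f W N L Ps (X * X) := by
  have L0 : (0 : ℝ) < L := Nat.cast_pos.2 hL
  refine (le_div_iff₀ L0).2 ?_
  set A := (Icc 1 N).filter (fun n : ℕ => Nat.Coprime (f.eval (n : ℤ)).natAbs W ∧
      ∀ p ∈ Ps, ¬ (p : ℤ) ∣ f.eval (n : ℤ)) with hA
  refine le_trans (le_of_eq ?_) (sum_le_sum_of_subset_of_nonneg
    (s := (A ×ˢ range L).image fun x => (x.1 + x.2, x.2)) (fun z hz => ?_) fun z _ _ => ?_)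
  · rw [sum_image fun x _ y _ e => by
      simp only [Prod.mk.injEq] at e
      exact Prod.ext (by omega) e.2]
    rw [sum_congr rfl (g := fun _ => X ∅ * X ∅) fun x hx => ?_]
    · rw [sum_const, card_product, card_range, nsmul_eq_mul, Nat.cast_mul]
      ring
    · have h1 := (mem_filter.1 (mem_product.1 hx).1).2
      simp only [Nat.cast_add, add_sub_cancel_right]
      rw [if_pos h1.1, filter_eq_empty_iff.2 h1.2, one_mul, Pi.mul_apply]
  · obtain ⟨x, hx, rfl⟩ := mem_image.1 hz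
    have h1 := mem_Icc.1 (mem_filter.1 (mem_product.1 hx).1).1
    have h2 := mem_range.1 (mem_product.1 hx).2
    exact mem_product.2 ⟨mem_Icc.2 ⟨by omega, by omega⟩, mem_range.2 h2⟩
  · exact mul_nonneg (by split_ifs <;> norm_num) (mul_self_nonneg _)

lemma hyp_RM (hf : f.IsPrimitive) (hd : f.natDegree ≤ 3) (hW : 0 < W)
    (hPs : ∀ p ∈ Ps, p.Prime ∧ Nat.Coprime p W) (hPw : Pw ⊆ Ps) {h : ℕ → ℝ}
    (h0 : ∀ p ∈ Ps, 0 ≤ h p) {P0 P1 M0 M1 Dm Ω D : ℕ} {Λ E : ℝ} (hP : ∀ p ∈ Pw, P0 < p ∧ p ≤ P1)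
    (h7 : M1 ≤ Ω) (hD : ∀ n : ℕ, 1 ≤ n → n ≤ Ω → n.divisors.card ≤ D) (D1 : 1 ≤ D)
    (h8 : D ^ 5 ≤ Dm) (h9 : 3 * W ≤ Dm) (hΛ : ∏ p ∈ Ps, (1 + h p) ≤ Λ) (hL : 0 < L)
    (hLev : Level f W N L M0 M1 (W * P0) (W * P1) Dm E) :
    Hyp (RM f W N L Ps) h Ps Pw D Ω M0 M1 P1 Λ (W * D ^ 2) E := by
  have hpr : ∀ T ⊆ Ps, ∀ p ∈ T, p.Prime := fun T hT p hp => (hPs p (hT hp)).1
  have hR : ∀ T ⊆ Ps, pr T ≤ Ω → (Rt f (pr T)).card ≤ D ^ 2 := fun T hT h1 =>
    (card_roots_le f hf hd _ (squarefree_prod_primes T (hpr T hT))).trans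
      (Nat.pow_le_pow_left (hD _ (pr_pos (hpr T hT)) h1) 2)
  have hω : ∀ p ∈ Pw, omega f p ≤ 3 := fun p hp =>
    (omega_le_natDegree hf (hPs p (hPw hp)).1).trans hd
  have p1 : ∀ p, pr {p} = p := fun p => prod_singleton _ _
  refine ⟨fun p hp => (hPs p hp).1, hPw, h0, hΛ,
    fun U hU h1 => (two_pow_le (hpr U hU)).trans (hD _ (pr_pos (hpr U hU)) h1),
    fun p hp => (hP p hp).2, h7, by positivity, fun T hT h1 => ?_, fun T hT h1 p hp h2 => ?_,
    fun A c hA hc => ?_⟩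
  · have := abs_RM_le (f := f) (N := N) hPs hW hL hT (empty_subset _) (disjoint_empty_right _)
    rw [union_empty, prod_empty, mul_one, mul_comm] at this
    refine this.trans ?_
    gcongr
    exact_mod_cast hR T hT h1
  · have := abs_RM_le (f := f) (N := N) hPs hW hL hT (singleton_subset_iff.2 (hPw hp))
      (disjoint_singleton_right.2 h2)
    rw [union_comm, ← insert_eq, prod_singleton] at this
    refine this.trans ?_
    have a1 : (Rt f (pr T)).card * (W * omega f p) ≤ D ^ 2 * (W * 3) :=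
      Nat.mul_le_mul (hR T hT h1) (Nat.mul_le_mul_left _ (hω p hp))
    have a2 : (((Rt f (pr T)).card * (W * omega f p) : ℕ) : ℝ) ≤ (D ^ 2 * (W * 3) : ℕ) :=
      Nat.cast_le.2 a1
    push_cast at a2 ⊢
    linarith only [a2]
  have Λ1 : 1 ≤ Λ := by simpa using prod_le_of_sub h0 hΛ (empty_subset _)
  refine le_trans (le_of_eq (congrArg _ ?_)) (level_scale hLev
    ((Ps.powerset.filter fun T => M0 ≤ pr T ∧ pr T ≤ M1).sigma fun T => Rt f (pr T))
    (Pw.sigma fun p => Ad f W (pr {p})) (fun i => pr i.1) (fun j => W * pr {j.1})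
    (fun i => (i.2 : ℤ)) (fun j => (j.2 : ℤ)) (fun i => c i.1) (fun j => 1 + h j.1)
    (K := D ^ 2) (μ := D ^ 2) (by positivity) hA (by linarith only [Λ1])
    (le_trans (by rw [← pow_add]; exact Nat.pow_le_pow_right D1 (by norm_num)) h8)
    (fun i hi => ?_) (fun x => ?_) (fun j hj => ?_) (fun x => ?_) (fun i _ => hc _)
    fun j hj => abs_le_of_mem h0 hΛ (hPw (mem_sigma.1 hj).1))
  · rw [sum_sigma]
    refine sum_congr rfl fun T hT => ?_
    have hT' := mem_powerset.1 (mem_filter.1 hT).1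
    simp only [sum_sigma]
    rw [sum_comm]
    refine sum_congr rfl fun p hp => ?_
    have hp' := singleton_subset_iff.2 (hPw hp)
    by_cases h2 : p ∈ T
    · have : ¬Nat.Coprime (pr T) (W * pr {p}) := fun h3 => (hPs p (hPw hp)).1.one_lt.ne'
        (Nat.eq_one_of_dvd_coprimes h3 (dvd_prod_of_mem _ h2) (by rw [p1]; exact Dvd.intro_left _ rfl))
      simp [h2, this]
    · have h3 := disjoint_singleton_right.2 h2
      simp only [if_neg h2, if_pos (cop_of_disj hPs hT' hp' h3)]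
      rw [insert_eq, union_comm, RM_ind hPs hW hT' hp' h3, mul_sum]
      exact sum_congr rfl fun r _ => mul_sum _ _ _
  · obtain ⟨a1, a2⟩ := mem_sigma.1 hi
    obtain ⟨a3, a4⟩ := mem_filter.1 a1
    have a5 := mem_powerset.1 a3
    exact ⟨squarefree_prod_primes _ (hpr _ a5), Nat.Coprime.prod_left fun p hp => (hPs p (a5 hp)).2,
      a4.1, a4.2, (mem_filter.1 a2).2⟩
  · rcases eq_empty_or_nonempty _ with e | ⟨i, hi⟩
    · exact (card_eq_zero.2 e).le.trans (Nat.zero_le _)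
    obtain ⟨b1, rfl⟩ := mem_filter.1 hi
    obtain ⟨b2, b3⟩ := mem_filter.1 (mem_sigma.1 b1).1
    have b4 := mem_powerset.1 b2
    have key : ∀ k ∈ ((Ps.powerset.filter fun T => M0 ≤ pr T ∧ pr T ≤ M1).sigma
        fun T => Rt f (pr T)).filter fun k => pr k.1 = pr i.1, k.1 = i.1 ∧ k.2 ∈ Rt f (pr i.1) := by
      intro k hk
      obtain ⟨c1, c2⟩ := mem_filter.1 hk
      exact ⟨pr_inj (hpr _ (mem_powerset.1 (mem_filter.1 (mem_sigma.1 c1).1).1)) (hpr _ b4) c2,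
        c2 ▸ (mem_sigma.1 c1).2⟩
    refine (card_le_card_of_injOn (fun k => k.2) (fun k hk => (key k hk).2)
      fun k hk k' hk' e => ?_).trans (hR _ b4 (b3.2.trans h7))
    exact Sigma.ext ((key k hk).1.trans (key k' hk').1.symm) (heq_of_eq e)
  · have := hP _ (mem_sigma.1 hj).1
    rw [p1]
    exact ⟨Nat.mul_lt_mul_of_pos_left this.1 hW, Nat.mul_le_mul_left _ this.2⟩
  · rcases eq_empty_or_nonempty _ with e | ⟨i, hi⟩
    · exact (card_eq_zero.2 e).le.trans (Nat.zero_le _)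
    obtain ⟨b1, rfl⟩ := mem_filter.1 hi
    have b2 := (mem_sigma.1 b1).1
    have key : ∀ k ∈ (Pw.sigma fun p => Ad f W (pr {p})).filter
        fun k => W * pr {k.1} = W * pr {i.1}, k.1 = i.1 ∧ k.2 ∈ Ad f W (pr {i.1}) := by
      intro k hk
      obtain ⟨c1, c2⟩ := mem_filter.1 hk
      have c3 := Nat.eq_of_mul_eq_mul_left hW c2
      exact ⟨(p1 _).symm.trans (c3.trans (p1 _)), c3 ▸ (mem_sigma.1 c1).2⟩
    refine (card_le_card_of_injOn (fun k => k.2) (fun k hk => (key k hk).2)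
      fun k hk k' hk' e => ?_).trans (le_trans ?_ h9)
    · exact Sigma.ext ((key k hk).1.trans (key k' hk').1.symm) (heq_of_eq e)
    · rw [card_Ad hW fun p hp => hPs p (hPw (mem_singleton.1 hp ▸ b2)), prod_singleton, mul_comm]
      exact Nat.mul_le_mul (hω _ b2) ((card_filter_le _ _).trans (card_range W).le)

end Sv

open Sv in
theorem sieve_bound (f : Polynomial ℤ) (hf : f.IsPrimitive) (hd : f.natDegree ≤ 3) (W : ℕ)
    (hW : 0 < W) (Ps Pw : Finset ℕ) (hPs : ∀ p ∈ Ps, p.Prime ∧ 3 < p ∧ Nat.Coprime p W)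
    (hPw : Pw ⊆ Ps) (z : ℝ) (Z0 Z1 P0 P1 M0 M1 N L Dm Ω : ℕ) (D Λ E : ℝ)
    (hP : ∀ p ∈ Pw, P0 < p ∧ p ≤ P1) (hz : 1 ≤ z) (h1 : z ≤ P0 * Z0) (h2 : Z0 ≤ Z1)
    (h3 : (Z1 : ℝ) ≤ z) (h4 : z * Z1 ≤ M1) (h5 : P1 * Z1 ^ 2 ≤ M1) (h6 : z ^ 2 ≤ Ω) (h7 : M1 ≤ Ω)
    (hD : ∀ n : ℕ, 1 ≤ n → n ≤ Ω → (n.divisors.card : ℝ) ≤ D) (h8 : D ^ 5 ≤ Dm) (h9 : 3 * W ≤ Dm)
    (hΛ : ∏ p ∈ Ps, (1 + hh f p) ≤ Λ) (hL : 0 < L)
    (hLev : Level f W N L M0 M1 (W * P0) (W * P1) Dm E) :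
    (((Icc 1 N).filter (fun n : ℕ => Nat.Coprime (f.eval (n : ℤ)).natAbs W ∧
        ∀ p ∈ Ps, ¬ (p : ℤ) ∣ f.eval (n : ℤ))).card : ℝ)
      ≤ ((N : ℝ) + L) *
          ((((range W).filter (fun c : ℕ => Nat.Coprime (f.eval (c : ℤ)).natAbs W)).card : ℝ) / W)
          / GG f Ps Pw z Z0 Z1
        + 30 * Λ ^ 4 * (W * D ^ 5 * (z ^ 2 + M1 + M0 * P1) + E) := by
  have hω : ∀ p ∈ Ps, (0 : ℝ) < p - omega f p := fun p hp => sub_pos.2 (Nat.cast_lt.2
    (((omega_le_natDegree hf (hPs p hp).1).trans hd).trans_lt (hPs p hp).2.1))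
  have h0 : ∀ p ∈ Ps, 0 ≤ hh f p := fun p hp => div_nonneg (Nat.cast_nonneg _) (hω p hp).le
  have Ω1 : 1 ≤ Ω := by exact_mod_cast (one_le_pow₀ hz).trans h6
  have D1 : 1 ≤ D := by simpa using hD 1 le_rfl Ω1
  have D2 : (⌊D⌋₊ : ℝ) ≤ D := Nat.floor_le (by linarith only [D1])
  have H := hyp_RM (N := N) hf hd hW (fun p hp => ⟨(hPs p hp).1, (hPs p hp).2.2⟩) hPw h0 hP h7
    (D := ⌊D⌋₊) (fun n a b => Nat.le_floor (hD n a b)) (Nat.le_floor (by simpa using D1))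
    (by exact_mod_cast (pow_le_pow_left₀ (Nat.cast_nonneg _) D2 5).trans h8) h9 hΛ hL hLev
  have k1 := H.rem_Phi (Z0 := Z0) hz h3 h4 h5 h6
  have k2 := count_le_AX (f := f) (W := W) (N := N) (Ps := Ps) hL (Phi (hh f) Ps Pw z Z0 Z1)
  have k3 := one_le_Phi_empty (Z0 := Z0) (Z1 := Z1) h0 hPw hz
  rw [RM, LinearMap.sub_apply, LinearMap.smul_apply, smul_eq_mul,
    EX_Phi (fun p hp => ?_) hPw (fun p hp => (hP p hp).1) h1] at k1
  swap
  · have a1 := (hω p hp).ne'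
    have a2 : (p : ℝ) ≠ 0 := Nat.cast_ne_zero.2 (hPs p hp).1.ne_zero
    unfold hh
    field_simp
  rw [Phi_empty h2, ← GG] at k1 k2 k3
  have k4 : 30 * Λ ^ 4 * (W * (⌊D⌋₊ : ℝ) ^ 2 * ⌊D⌋₊ ^ 3 * (z ^ 2 + M1 + M0 * P1) + E) ≤
      30 * Λ ^ 4 * (W * D ^ 5 * (z ^ 2 + M1 + M0 * P1) + E) := by
    clear * - Λ W D z M1 M0 P1 E D2 hW hz
    rw [mul_assoc (W : ℝ), ← pow_add]
    gcongr
  have k5 := k1.trans k4
  generalize 30 * Λ ^ 4 * (W * D ^ 5 * (z ^ 2 + M1 + M0 * P1) + E) = R at *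
  generalize GG f Ps Pw z Z0 Z1 = G at *
  have G0 : 0 < G := by linarith only [k3]
  have k6 : R ≤ R * (G * G) := le_mul_of_one_le_right ((abs_nonneg _).trans k5) (by linarith only [k3, mul_nonneg_of_nonpos_of_nonpos (Mathlib.Tactic.Linarith.sub_nonpos_of_le k3) (Mathlib.Tactic.Linarith.sub_nonpos_of_le k3)])
  refine le_of_mul_le_mul_right ?_ (mul_pos G0 G0)
  rw [add_mul, ← mul_assoc (_ / G), div_mul_cancel₀ _ G0.ne']
  linarith only [k2, k6, k5, (abs_le.1 k5).2]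

end Pool.Agent.Work.MP_51e72e_nt.Cub
end
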