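import Pool.Agent.Work.MP_51e72e_nt.CubSieve
import Pool.Agent.Work.MP_51e72e_nt.CubEnergy1

-- merged part: Pool.Agent.Work.MP_51e72e_nt.CubEnergy
section
/-!
Additive energy of reciprocals of an arithmetic progression modulo `q`.
-/

set_option autoImplicit false

namespace Pool.Agent.Work.MP_51e72e_nt.Cub

open Finset

theorem energy_le (q A Γ τ Ξ : ℕ) (β c : ℤ) (S : Finset ℤ) (D : ℝ) (hq : 0 < q) (hA : 1 ≤ A)
    (hΓ : 1 ≤ Γ) (hτ : 1 ≤ τ) (hΞ : 1 ≤ Ξ) (hS : ∀ a ∈ S, |a| ≤ A)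
    (hC : ∀ a ∈ S, Int.gcd (β - a * c) q ≤ Γ) (hc : Int.gcd c q ≤ Γ)
    (h1 : A ^ 2 * τ ≤ q) (h2 : 4 * q * Γ ^ 4 < τ ^ 2 * A ^ 3) (h3 : A ^ 3 ≤ q * Ξ)
    (hD : ∀ n : ℕ, 1 ≤ n → n ≤ q + 4 * (A ^ 2 * τ) ^ 2 → (n.divisors.card : ℝ) ≤ D) :
    ((enSet q β c S).card : ℝ) ≤ 300 * D * (A : ℝ) ^ 2 * ((Ξ : ℝ) * τ * (Γ : ℝ) ^ 4) ^ 2 := by
  have e0 : (enSet q β c S).card = ∑ y ∈ S ×ˢ S, (EnAux.fib q β c S y).card := by
    rw [enSet, card_filter, sum_product_right]
    refine sum_congr rfl fun y _ => ?_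
    rw [EnAux.fib, card_filter]
  have h4 := EnAux.small hq h1 h2
  have hD1 : 1 ≤ D := by simpa using hD 1 le_rfl (by omega)
  have hS3 := EnAux.card_S hA hS
  let p : ℤ × ℤ → Prop := fun y =>
    A ^ 2 * τ * Γ * Int.gcd ((β - y.1 * c) + (β - y.2 * c)) q < q
  have e1 : ∑ y ∈ (S ×ˢ S).filter p, ((EnAux.fib q β c S y).card : ℝ) ≤
      (9 * (A : ℝ) ^ 2) * (20 * D * (Ξ * τ)) := by
    refine (sum_le_card_nsmul _ _ (20 * D * (Ξ * τ)) fun y hy => ?_).trans ?_
    · exact EnAux.fib_good hq hA hτ hΞ hS hC hc h1 h2 h3 hD (mem_filter.1 hy).1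
        (mem_filter.1 hy).2
    · rw [nsmul_eq_mul]
      have a1 : ((S ×ˢ S).filter p).card ≤ (3 * A) * (3 * A) := by
        refine (card_filter_le _ _).trans ?_
        rw [card_product]
        exact Nat.mul_le_mul hS3 hS3
      have a2 : (((S ×ˢ S).filter p).card : ℝ) ≤ 9 * (A : ℝ) ^ 2 := by
        have : (((S ×ˢ S).filter p).card : ℝ) ≤ (3 * A) * (3 * A) := by exact_mod_cast a1
        linarith only [this]
      exact mul_le_mul_of_nonneg_right a2 (by positivity)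
  have e2 : ∑ y ∈ (S ×ˢ S).filter (fun y => ¬ p y), ((EnAux.fib q β c S y).card : ℝ) ≤
      (9 * A * D * (Ξ * τ * Γ ^ 2)) * (3 * A) := by
    refine (sum_le_card_nsmul _ _ (3 * (A : ℝ)) fun y hy => ?_).trans ?_
    · exact_mod_cast EnAux.fib_triv hq hA hS hC hc h4 (mem_filter.1 hy).1
    · rw [nsmul_eq_mul]
      exact mul_le_mul_of_nonneg_right
        (EnAux.card_deg hq hA hΓ hτ hΞ hS hc h3 (hD q hq (by omega))) (by positivity)
  rw [e0]
  push_cast
  rw [← sum_filter_add_sum_filter_not (S ×ˢ S) p]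
  have c1 : (1 : ℝ) ≤ Ξ * τ := by exact_mod_cast Nat.mul_pos hΞ hτ
  have c2 : (1 : ℝ) ≤ Γ := by exact_mod_cast hΓ
  have c3 : (1 : ℝ) ≤ (Γ : ℝ) ^ 2 := one_le_pow₀ c2
  have c4 : (Γ : ℝ) ^ 2 ≤ (Γ : ℝ) ^ 4 := pow_le_pow_right₀ c2 (by norm_num)
  have c5 : (Ξ : ℝ) * τ * (Γ : ℝ) ^ 2 ≤ Ξ * τ * (Γ : ℝ) ^ 4 := by gcongr
  have c6 : (Ξ : ℝ) * τ ≤ Ξ * τ * (Γ : ℝ) ^ 2 := le_mul_of_one_le_right (by positivity) c3
  set W := (Ξ : ℝ) * τ * (Γ : ℝ) ^ 4 with hW
  have c7 : W ≤ W ^ 2 := by linarith only [c1, c5, c6, mul_nonneg_of_nonpos_of_nonpos (Mathlib.Tactic.Linarith.sub_nonpos_of_le c1) (Mathlib.Tactic.Linarith.sub_nonpos_of_le c1), mul_nonneg_of_nonpos_of_nonpos (Mathlib.Tactic.Linarith.sub_nonpos_of_le c1) (Mathlib.Tactic.Linarith.sub_nonpos_of_le c6), mul_nonneg_of_nonpos_of_nonpos (Mathlib.Tactic.Linarith.sub_nonpos_of_le c1) (Mathlib.Tactic.Linarith.sub_nonpos_of_le c5), mul_nonneg_of_nonpos_of_nonpos (Mathlib.Tactic.Linarith.sub_nonpos_of_le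 c6) (Mathlib.Tactic.Linarith.sub_nonpos_of_le c5), mul_nonneg_of_nonpos_of_nonpos (Mathlib.Tactic.Linarith.sub_nonpos_of_le c5) (Mathlib.Tactic.Linarith.sub_nonpos_of_le c5)]
  have c8 : 0 ≤ D * (A : ℝ) ^ 2 := by positivity
  have c9 := mul_le_mul_of_nonneg_left (c6.trans (c5.trans c7)) c8
  have c10 := mul_le_mul_of_nonneg_left (c5.trans c7) c8
  have c11 : 0 ≤ D * (A : ℝ) ^ 2 * W ^ 2 := by positivity
  linarith only [e1, e2, c9, c10, c11]

end Pool.Agent.Work.MP_51e72e_nt.Cub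
end

-- merged part: Pool.Agent.Work.MP_51e72e_nt.CubClass
section
/-!
The bilinear estimate for the generators lying on one line.
-/

set_option autoImplicit false

namespace Pool.Agent.Work.MP_51e72e_nt.Cub

open Finset Pool.Agent.Lib.LargeSieve

lemma moment_le {ι : Type*} {q0 : ℕ} (hq0 : 0 < q0) (I : Finset ι) (a : ι → ℤ) (o : ι → ZMod q0)
    (β c κ μ : ℤ) (lam : ZMod q0) (D : ℕ)
    (hI : ∀ x : ℤ, (I.filter fun i => a i = x).card ≤ D)
    (ho : ∀ i ∈ I, ((β - a i * c : ℤ) : ZMod q0) * o i = (κ : ℤ))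
    (hl : (c : ZMod q0) * lam = (μ : ℤ)) :
    momentCount I o lam 2 ≤
      D ^ 4 * (enSet ((q0 / Nat.gcd q0 (μ * κ).natAbs : ℕ) : ℤ) β c (I.image a)).card := by
  classical
  unfold momentCount
  refine card_le_mul_card_image_of_maps_to
    (f := fun z : (Fin 2 → ι) × (Fin 2 → ι) => ((a (z.1 0), a (z.1 1)), (a (z.2 0), a (z.2 1))))
    (fun z hz => ?_) _ fun x _ => ?_
  · rw [mem_filter, mem_product, Fintype.mem_piFinset, Fintype.mem_piFinset] at hz
    obtain ⟨⟨h1, h2⟩, h3⟩ := hz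
    rw [enSet, mem_filter, mem_product, mem_product, mem_product]
    refine ⟨⟨⟨mem_image_of_mem _ (h1 0), mem_image_of_mem _ (h1 1)⟩,
      mem_image_of_mem _ (h2 0), mem_image_of_mem _ (h2 1)⟩, ?_⟩
    simp only [Fin.sum_univ_two] at h3
    have e1 := ho _ (h1 0)
    have e2 := ho _ (h1 1)
    have e3 := ho _ (h2 0)
    have e4 := ho _ (h2 1)
    simp only
    generalize β - a (z.1 0) * c = C1 at *
    generalize β - a (z.1 1) * c = C2 at *
    generalize β - a (z.2 0) * c = C3 at *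
    generalize β - a (z.2 1) * c = C4 at *
    have e : (q0 : ℤ) ∣ (μ * κ) * ((C1 + C2) * (C3 * C4) - (C3 + C4) * (C1 * C2)) := by
      rw [← ZMod.intCast_zmod_eq_zero_iff_dvd]
      push_cast
      rw [← hl]
      linear_combination ((c : ZMod q0) * C1 * C2 * C3 * C4) * h3
        - (c : ZMod q0) * lam * (C2 * C3 * C4 * e1 + C1 * C3 * C4 * e2 - C1 * C2 * C4 * e3
          - C1 * C2 * C3 * e4)
    generalize (C1 + C2) * (C3 * C4) - (C3 + C4) * (C1 * C2) = X at e ⊢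
    rw [Int.natCast_dvd] at e ⊢
    rw [Int.natAbs_mul] at e
    have hg : 0 < Nat.gcd q0 (μ * κ).natAbs := Nat.gcd_pos_of_pos_left _ hq0
    refine (Nat.coprime_div_gcd_div_gcd hg).dvd_of_dvd_mul_left ?_
    refine Nat.dvd_of_mul_dvd_mul_left hg ?_
    rwa [← mul_assoc, Nat.mul_div_cancel' (Nat.gcd_dvd_left _ _),
      Nat.mul_div_cancel' (Nat.gcd_dvd_right _ _)]
  · refine (card_le_card_of_injOn
      (t := ((I.filter fun i => a i = x.1.1) ×ˢ (I.filter fun i => a i = x.1.2)) ×ˢ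
        ((I.filter fun i => a i = x.2.1) ×ˢ (I.filter fun i => a i = x.2.2)))
      (fun z => ((z.1 0, z.1 1), (z.2 0, z.2 1))) (fun z hz => ?_) fun z _ z' _ h => ?_).trans ?_
    · simp only [coe_filter, mem_filter, mem_product, Fintype.mem_piFinset, Set.mem_ofPred_eq]
        at hz
      obtain ⟨⟨⟨h1, h2⟩, -⟩, rfl⟩ := hz
      simp [h1, h2]
    · simp only [Prod.mk.injEq] at h
      refine Prod.ext (funext fun i => ?_) (funext fun i => ?_) <;> fin_cases i <;> simp [h]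
    · rw [card_product, card_product, card_product]
      calc _ ≤ D * D * (D * D) := Nat.mul_le_mul (Nat.mul_le_mul (hI _) (hI _))
            (Nat.mul_le_mul (hI _) (hI _))
        _ = _ := by ring

lemma moment_one_le {ι : Type*} {q0 : ℕ} (I : Finset ι) (o : ι → ZMod q0) (lam : ZMod q0) :
    momentCount I o 1 2 ≤ momentCount I o lam 2 := by
  unfold momentCount
  refine card_le_card fun z hz => ?_
  rw [mem_filter] at hz ⊢
  refine ⟨hz.1, ?_⟩
  have := hz.2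
  rw [one_mul, one_mul] at this
  rw [this]

lemma gcd_le_of_dvd {q0 q : ℕ} (hq0 : 0 < q0) (hq : q ∣ q0) {x κ : ℤ}
    (h : (Int.gcd x q : ℤ) ∣ κ) : Int.gcd x q ≤ Nat.gcd (κ ^ 3).natAbs q0 := by
  refine Nat.le_of_dvd (Nat.gcd_pos_of_pos_right _ hq0) (Nat.dvd_gcd ?_ ?_)
  · rw [← Int.natCast_dvd]; exact h.trans (dvd_pow_self _ three_ne_zero)
  · refine dvd_trans ?_ hq
    exact_mod_cast Int.gcd_dvd_right x q

lemma kernel_le {ι : Type*} {q0 : ℕ} [NeZero q0] (I : Finset ι) (a : ι → ℤ) (o : ι → ZMod q0)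
    (β c κ μ : ℤ) (lam : ZMod q0) (A D K Γ τ Ξ U G : ℕ) (Dt Bd : ℝ)
    (ha : ∀ i ∈ I, |a i| ≤ A) (hI : ∀ x : ℤ, (I.filter fun i => a i = x).card ≤ D)
    (ho : ∀ i ∈ I, ((β - a i * c : ℤ) : ZMod q0) * o i = (κ : ℤ)) (hcκ : c ∣ κ)
    (hl : (c : ZMod q0) * lam = (μ : ℤ)) (hμ0 : μ ≠ 0) (hμ : μ.natAbs ≤ U)
    (hΓ : Nat.gcd (κ ^ 3).natAbs q0 ≤ Γ) (h1 : A ^ 3 ≤ q0 * G) (h2 : q0 ≤ K * A ^ 3)
    (hΞ : G * U * Γ ≤ Ξ) (hτ : 4 * K * Γ ^ 4 < τ ^ 2) (hA : τ * Ξ ≤ A) (hΞ1 : 1 ≤ Ξ)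
    (hD : ∀ n : ℕ, 1 ≤ n → n ≤ K * A ^ 3 + 4 * A ^ 6 → (n.divisors.card : ℝ) ≤ Dt)
    (hB0 : 0 ≤ Bd)
    (hB : ((2 * A + 1) * (D : ℝ)) ^ 8 * (K * (A : ℝ) ^ 3 *
      ((D : ℝ) ^ 4 * (300 * Dt * (A : ℝ) ^ 2 * ((Ξ : ℝ) * τ * (Γ : ℝ) ^ 4) ^ 2)) ^ 2) ≤ Bd ^ 8)
    (z z' : ι → ℂ) (hz : ∀ i ∈ I, ‖z i‖ ≤ 1) (hz' : ∀ i ∈ I, ‖z' i‖ ≤ 1) :
    ‖∑ i ∈ I, ∑ j ∈ I, z i * z' j * ZMod.stdAddChar (lam * o i * o j)‖ ≤ Bd := by
  classical
  have hq0 : 0 < q0 := Nat.pos_of_ne_zero (NeZero.ne q0)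
  have hτ1 : 1 ≤ τ := by
    rcases Nat.eq_zero_or_pos τ with h | h
    · subst h; simp at hτ
    · exact h
  have hA1 : 1 ≤ A := (Nat.mul_pos hτ1 hΞ1).trans_le hA
  have hΓ1 : 1 ≤ Γ := (Nat.gcd_pos_of_pos_right _ hq0).trans_le hΓ
  set q := q0 / Nat.gcd q0 (μ * κ).natAbs with hq
  have hqd : q ∣ q0 := Nat.div_dvd_of_dvd (Nat.gcd_dvd_left _ _)
  have hq1 : 0 < q := Nat.pos_of_dvd_of_pos hqd hq0
  have g1 : Nat.gcd q0 (μ * κ).natAbs ≤ U * Γ := by
    rw [Int.natAbs_mul]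
    refine (Nat.le_of_dvd ?_ (Nat.gcd_mul_right_dvd_mul_gcd _ _ _)).trans (Nat.mul_le_mul ?_ ?_)
    · exact Nat.mul_pos (Nat.gcd_pos_of_pos_left _ hq0) (Nat.gcd_pos_of_pos_left _ hq0)
    · exact (Nat.gcd_le_right _ (Int.natAbs_pos.mpr hμ0)).trans hμ
    · refine le_trans (Nat.le_of_dvd (Nat.gcd_pos_of_pos_right _ hq0) (Nat.dvd_gcd ?_ ?_)) hΓ
      · rw [Int.natAbs_pow]
        exact (Nat.gcd_dvd_right _ _).trans (dvd_pow_self _ three_ne_zero)
      · exact Nat.gcd_dvd_left _ _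
  have g2 : A ^ 3 ≤ q * Ξ := by
    have : q0 = q * Nat.gcd q0 (μ * κ).natAbs := (Nat.div_mul_cancel (Nat.gcd_dvd_left _ _)).symm
    calc A ^ 3 ≤ q * Nat.gcd q0 (μ * κ).natAbs * G := by rw [← this]; exact h1
      _ ≤ q * (U * Γ) * G := by gcongr
      _ = q * (G * U * Γ) := by ring
      _ ≤ _ := Nat.mul_le_mul_left _ hΞ
  have g3 : q ≤ K * A ^ 3 := (Nat.le_of_dvd hq0 hqd).trans h2
  have hτA : τ ≤ A := (Nat.le_mul_of_pos_right _ hΞ1).trans hA
  have en := energy_le q A Γ τ Ξ β c (I.image a) Dt hq1 hA1 hΓ1 hτ1 hΞ1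
    (fun x hx => by obtain ⟨i, hi, rfl⟩ := mem_image.mp hx; exact ha i hi)
    (fun x hx => ?_) ((gcd_le_of_dvd hq0 hqd ((Int.gcd_dvd_left _ _).trans hcκ)).trans hΓ)
    ?_ ?_ g2 fun n n1 n2 => hD n n1 (n2.trans ?_)
  rotate_left
  · obtain ⟨i, hi, rfl⟩ := mem_image.mp hx
    refine (gcd_le_of_dvd hq0 hqd ?_).trans hΓ
    have e := ho i hi
    rw [← ZMod.intCast_zmod_cast (o i), ← Int.cast_mul, ZMod.intCast_eq_intCast_iff_dvd_sub] at e
    have d1 : (Int.gcd (β - a i * c) q : ℤ) ∣ (q0 : ℤ) :=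
      (Int.gcd_dvd_right _ _).trans (by exact_mod_cast hqd)
    have := (d1.trans e).add ((Int.gcd_dvd_left (β - a i * c) q).mul_right (ZMod.cast (o i) : ℤ))
    rwa [sub_add_cancel] at this
  · refine Nat.le_of_mul_le_mul_right ?_ hΞ1
    calc A ^ 2 * τ * Ξ = A ^ 2 * (τ * Ξ) := by ring
      _ ≤ A ^ 2 * A := Nat.mul_le_mul_left _ hA
      _ = A ^ 3 := by ring
      _ ≤ _ := g2
  · calc 4 * q * Γ ^ 4 ≤ 4 * (K * A ^ 3) * Γ ^ 4 := by gcongr
      _ = 4 * K * Γ ^ 4 * A ^ 3 := by ring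
      _ < _ := Nat.mul_lt_mul_of_pos_right hτ (by positivity)
  · calc q + 4 * (A ^ 2 * τ) ^ 2 ≤ K * A ^ 3 + 4 * (A ^ 2 * A) ^ 2 := by gcongr
      _ = _ := by ring
  have m1 : (momentCount I o lam 2 : ℝ) ≤
      (D : ℝ) ^ 4 * (300 * Dt * (A : ℝ) ^ 2 * ((Ξ : ℝ) * τ * (Γ : ℝ) ^ 4) ^ 2) := by
    have := moment_le hq0 I a o β c κ μ lam D hI ho hl
    rw [← hq] at this
    refine le_trans (by exact_mod_cast this) (mul_le_mul_of_nonneg_left en (by positivity))
  have m2 : (momentCount I o 1 2 : ℝ) ≤ momentCount I o lam 2 := by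
    exact_mod_cast moment_one_le I o lam
  have cI : (I.card : ℝ) ≤ (2 * A + 1) * D := by exact_mod_cast card_le_mult I a A D ha hI
  have kar := karatsuba I I o o z z' hz hz' lam 1
  refine le_of_pow_le_pow_left₀ (n := 8) (by norm_num) hB0 (le_trans kar (le_trans ?_ hB))
  have h2' : (q0 : ℝ) ≤ K * (A : ℝ) ^ 3 := by exact_mod_cast h2
  generalize (D : ℝ) ^ 4 * (300 * Dt * (A : ℝ) ^ 2 * ((Ξ : ℝ) * τ * (Γ : ℝ) ^ 4) ^ 2) = En at *
  have hE : 0 ≤ En := (Nat.cast_nonneg _).trans m1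
  calc _ ≤ ((2 * A + 1) * (D : ℝ)) ^ (2 * (1 + 1) * 1) * ((2 * A + 1) * (D : ℝ)) ^ (2 * (1 + 1) * 1)
        * (K * (A : ℝ) ^ 3 * En * En) := by
        clear * - ι I A D q0 o lam K En cI hA1 h2' m1 m2 hE hq0
        gcongr
        exact m2.trans m1
    _ = _ := by ring

theorem class_bound {ι κ : Type*} (P Q b c ρ h : ℤ) (k g : ℕ) (I : Finset ι) (J : Finset κ)
    (a : ι → ℤ) (m : ι → ℕ) (y : κ → ℕ) (s : κ → ℤ) (n : ι → κ → ℤ)
    (A Y0 Y1 T H D K Γ τ Ξ G : ℕ) (Dt Bd : ℝ) (hk : 0 < k) (hg : 0 < g)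
    (hgR : (g : ℤ) ∣ rR P Q b c) (hh0 : h ≠ 0) (hh : h.natAbs ≤ H) (hT : 2 * A ≤ Y0 * T)
    (ha : ∀ i ∈ I, |a i| ≤ A) (hI : ∀ x : ℤ, (I.filter fun i => a i = x).card ≤ D)
    (hy : ∀ j ∈ J, Y0 < y j ∧ y j ≤ Y1) (hJ : ∀ x : ℕ, (J.filter fun j => y j = x).card ≤ D)
    (hN : ∀ i ∈ I, nN P Q (a i) b c = (k * g : ℕ) * (m i : ℤ) ∧ IsCoprime (m i : ℤ) (rR P Q b c))
    (hn : ∀ i ∈ I, ∀ j ∈ J, Nat.Coprime (g * m i) (y j) →
      (m i : ℤ) ∣ rR P Q b c * n i j - uU P Q (a i) b c ∧ (y j : ℤ) ∣ n i j - s j ∧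
        (g : ℤ) ∣ n i j - ρ)
    (hΓ : Nat.gcd ((c ^ 2 * (k * g : ℕ)) ^ 3).natAbs (rR P Q b c).natAbs ≤ Γ)
    (h1 : A ^ 3 ≤ (rR P Q b c).natAbs * G) (h2 : (rR P Q b c).natAbs ≤ K * A ^ 3)
    (hΞ : G * (H * T * Γ ^ 2) * Γ ≤ Ξ) (hτ : 4 * K * Γ ^ 4 < τ ^ 2) (hA : τ * Ξ ≤ A) (hΞ1 : 1 ≤ Ξ)
    (hD : ∀ n : ℕ, 1 ≤ n → n ≤ K * A ^ 3 + 4 * A ^ 6 → (n.divisors.card : ℝ) ≤ Dt)
    (hB0 : 0 ≤ Bd)
    (hB : ((2 * A + 1) * (D : ℝ)) ^ 8 * (K * (A : ℝ) ^ 3 *
      ((D : ℝ) ^ 4 * (300 * Dt * (A : ℝ) ^ 2 * ((Ξ : ℝ) * τ * (Γ : ℝ) ^ 4) ^ 2)) ^ 2) ≤ Bd ^ 8)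
    (z : ι → ℂ) (hz : ∀ i ∈ I, ‖z i‖ ≤ 1) :
    (∑ j ∈ J, ‖∑ i ∈ I, if Nat.Coprime (g * m i) (y j) then z i *
      ee ((h * ((rR P Q b c * n i j - uU P Q (a i) b c) / m i) : ℤ) / (y j * g * rR P Q b c : ℤ))
      else 0‖) ^ 2 ≤
      ((D : ℝ) * (Y1 : ℝ) ^ 2 * (g * (k * g) * Γ ^ 2)) * (D * (Y1 * ((2 * A + 1) * (D : ℝ) ^ 2)
        + 2 * T * ((2 + Real.log (2 * A + Y1 + 1)) * Bd))) := by
  have hA1 : 1 ≤ A := by
    refine le_trans (Nat.mul_pos ?_ hΞ1) hA
    rcases Nat.eq_zero_or_pos τ with h | h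
    · subst h; simp at hτ
    · exact h
  have hq0 : 0 < (rR P Q b c).natAbs := by
    rcases Nat.eq_zero_or_pos (rR P Q b c).natAbs with h | h
    · rw [h, zero_mul] at h1; exact absurd h1 (not_le.mpr (by positivity))
    · exact h
  have hR : rR P Q b c ≠ 0 := Int.natAbs_pos.mp hq0
  have : NeZero (rR P Q b c).natAbs := ⟨hq0.ne'⟩
  set kk : ℤ := ((k * g : ℕ) : ℤ) with hkk
  have hkk0 : kk ≠ 0 := by rw [hkk]; exact_mod_cast (Nat.mul_pos hk hg).ne'
  set Γ0 := Nat.gcd ((c ^ 2 * kk) ^ 3).natAbs (rR P Q b c).natAbs with hΓ0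
  have hΓ00 : 0 < Γ0 := Nat.gcd_pos_of_pos_right _ hq0
  obtain ⟨j0, hj0⟩ : ∃ j0 : ℤ,
      ((j0 * (c ^ 2 * kk) ^ 3 : ℤ) : ZMod (rR P Q b c).natAbs) = ((Γ0 : ℤ) : _) := by
    refine ⟨Int.gcdA ((c ^ 2 * kk) ^ 3) (rR P Q b c), ?_⟩
    have e := Int.gcd_eq_gcd_ab ((c ^ 2 * kk) ^ 3) (rR P Q b c)
    have e' : (Γ0 : ℤ) = Int.gcd ((c ^ 2 * kk) ^ 3) (rR P Q b c) := rfl
    rw [e', e, Int.cast_add, Int.cast_mul (rR P Q b c), cast_rR, zero_mul, add_zero, mul_comm]
  choose! o ho using fun i (hi : i ∈ I) =>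
    (isUnit_of_coprime (hN i hi).2).exists_right_inv
  set om : ι → ZMod (rR P Q b c).natAbs := fun i => o i * (uU P Q (a i) b c : ℤ) with hom
  have hom1 : ∀ i ∈ I, (((m i : ℕ) : ℤ) : ZMod (rR P Q b c).natAbs) * om i
      = (uU P Q (a i) b c : ℤ) := fun i hi => by rw [hom, ← mul_assoc, ho i hi, one_mul]
  have hom2 : ∀ i ∈ I, ((b ^ 2 + P * c ^ 2 - a i * c : ℤ) : ZMod (rR P Q b c).natAbs) * om i
      = ((c ^ 2 * kk : ℤ) : _) := fun i hi => lin_mul_om (hN i hi).1 (hN i hi).2 (hom1 i hi)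
  set l0 : ℤ := Γ0 * j0 * (c ^ 2 * kk) * c ^ 3 * kk ^ 2 with hl0
  have main := vdc I J a y A Y0 Y1 (g * (k * g) * Γ0 ^ 2) T D Bd
    (fun i j => Nat.Coprime (g * m i) (y j))
    (fun i j => ee ((h * ((rR P Q b c * n i j - uU P Q (a i) b c) / m i) : ℤ)
      / (y j * g * rR P Q b c : ℤ)))
    (fun t i j => ZMod.stdAddChar (((h * (rR P Q b c).sign * t * l0 : ℤ) :
      ZMod (rR P Q b c).natAbs) * om i * om j)) z (by positivity) hT ha hI hy hJ hz
    ?_ ?_ ?_ (fun _ _ _ _ => (norm_stdAddChar _).le) ?_ hB0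
  · refine main.trans (mul_le_mul_of_nonneg_right ?_ ?_)
    · have : (Γ0 : ℝ) ≤ Γ := by exact_mod_cast hΓ
      push_cast
      clear * - D Y1 g k Γ0 Γ c kk P Q b hR this hg hk; gcongr
    · have := Real.log_nonneg (show (1 : ℝ) ≤ 2 * A + Y1 + 1 by
        linarith only [(Nat.cast_nonneg A : (0 : ℝ) ≤ A), (Nat.cast_nonneg Y1 : (0 : ℝ) ≤ Y1)])
      clear * - D Y1 A T Bd hA1 this hB0; positivity
  · intro j hj i1 hi1 i2 hi2 t e hc
    have e1 : a i1 ≡ a i2 [ZMOD kk * y j] := Int.modEq_iff_dvd.mpr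
      ⟨g * Γ0 ^ 2 * t, by rw [e, hkk]; push_cast; ring⟩
    have e2 := (nN_modEq P Q b c e1).dvd
    rw [(hN i1 hi1).1, (hN i2 hi2).1, ← mul_sub] at e2
    obtain ⟨x, hx⟩ := (mul_dvd_mul_iff_left hkk0).mp e2
    rw [← Nat.isCoprime_iff_coprime] at hc ⊢
    push_cast at hc ⊢
    rw [show (g : ℤ) * m i2 = g * m i1 + y j * (g * x) by linear_combination g * hx]
    exact hc.add_mul_left_left _
  · intro j hj i1 hi1 i2 hi2 t e c1 c2
    obtain ⟨a1, a2, a3⟩ := hn i1 hi1 j hj c1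
    obtain ⟨b1, b2, b3⟩ := hn i2 hi2 j hj c2
    rw [← Nat.isCoprime_iff_coprime] at c1 c2
    push_cast at c1 c2
    have y0 : (y j : ℤ) ≠ 0 := by have := (hy j hj).1; omega
    have g0 : (g : ℤ) ≠ 0 := by omega
    obtain ⟨v, hv1, hv2⟩ := phase (y := y j * g) (t := t) hkk0 (mul_ne_zero y0 g0) hj0
      (hN i1 hi1).1 (hN i2 hi2).1 (Int.mul_ediv_cancel' a1) (Int.mul_ediv_cancel' b1)
      (hom1 i1 hi1) (hom1 i2 hi2) (hN i1 hi1).2 (hN i2 hi2).2
      (c1.of_mul_left_right.mul_right ((hN i1 hi1).2.of_isCoprime_of_dvd_right hgR))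
      (c2.of_mul_left_right.mul_right ((hN i2 hi2).2.of_isCoprime_of_dvd_right hgR))
      (c1.of_mul_left_left.symm.mul_dvd (by simpa using a2.sub b2) (by simpa using a3.sub b3))
      (by rw [e, hkk]; push_cast; ring)
    have hRr : (rR P Q b c : ℝ) ≠ 0 := by exact_mod_cast hR
    have y0' : (y j : ℝ) ≠ 0 := by exact_mod_cast y0
    have g0' : (g : ℝ) ≠ 0 := by exact_mod_cast g0
    generalize (rR P Q b c * n i1 j - uU P Q (a i1) b c) / m i1 = w1 at *
    generalize (rR P Q b c * n i2 j - uU P Q (a i2) b c) / m i2 = w2 at *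
    have hv3 : (w1 : ℝ) = w2 + y j * g * v := by
      have : w1 = w2 + y j * g * v := by linear_combination hv1
      exact_mod_cast this
    rw [conj_ee, ← ee_add]
    have e3 : ((h * w1 : ℤ) : ℝ) / ((y j * g * rR P Q b c : ℤ) : ℝ)
        + -(((h * w2 : ℤ) : ℝ) / ((y j * g * rR P Q b c : ℤ) : ℝ))
        = ((h * v : ℤ) : ℝ) / (rR P Q b c : ℤ) := by
      push_cast
      rw [hv3]
      field_simp
      ring
    rw [e3, ee_div_eq hR]
    congr 1
    rw [Int.cast_mul, Int.cast_mul h, hv2, ← hl0]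
    push_cast
    ring
  · intro σ i0 h0 i1 hi1 i2 hi2 t1 t2 e1 e2
    rw [conj_stdAddChar, ← AddChar.map_add_eq_mul]
    congr 1
    have f0 := hom2 i0 h0
    have f1 := hom2 i1 hi1
    have f2 := hom2 i2 hi2
    have d1 := congrArg (fun x : ℤ => (x : ZMod (rR P Q b c).natAbs)) e1
    have d2 := congrArg (fun x : ℤ => (x : ZMod (rR P Q b c).natAbs)) e2
    push_cast at f0 f1 f2 d1 d2 hj0
    have := cocycle hj0 f0 f1 f2 d1 d2
    rw [hl0]
    push_cast
    linear_combination ((h : ZMod (rR P Q b c).natAbs) * (rR P Q b c).sign * j0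
      * ((c : ZMod (rR P Q b c).natAbs) ^ 2 * kk) * (c : ZMod (rR P Q b c).natAbs) ^ 3
      * (kk : ZMod (rR P Q b c).natAbs) ^ 2) * this
  · intro t t0 tT z z' hz hz'
    refine kernel_le I a om (b ^ 2 + P * c ^ 2) c (c ^ 2 * kk)
      (h * (rR P Q b c).sign * t * Γ0 ^ 2) _ A D K Γ τ Ξ (H * T * Γ ^ 2) G Dt Bd ha hI hom2
      ⟨c * kk, by ring⟩ ?_ ?_ ?_ hΓ h1 h2 hΞ hτ hA hΞ1 hD hB0 hB z z' hz hz'
    · rw [hl0]
      push_cast at hj0 ⊢
      linear_combination ((h : ZMod (rR P Q b c).natAbs) * (rR P Q b c).sign * t * Γ0) * hj0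
    · refine mul_ne_zero (mul_ne_zero (mul_ne_zero hh0 ?_) t0) (pow_ne_zero _ (by omega))
      exact Int.sign_eq_zero_iff_zero.not.mpr hR
    · rw [Int.natAbs_mul, Int.natAbs_mul, Int.natAbs_mul, Int.natAbs_sign_of_ne_zero hR,
        Int.natAbs_pow, Int.natAbs_natCast, mul_one]
      have : t.natAbs ≤ T := by rw [← Int.natCast_natAbs] at tT; exact_mod_cast tT
      clear * - h t H T Γ0 Γ hh this hΓ; gcongr

end Pool.Agent.Work.MP_51e72e_nt.Cub
end

-- merged part: Pool.Agent.Work.MP_51e72e_nt.CubTypeII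
section
/-!
The bilinear exponential sum over roots of a cubic congruence.
-/

set_option autoImplicit false

namespace Pool.Agent.Work.MP_51e72e_nt.Cub

open Finset Pool.Agent.Lib.LargeSieve

lemma norm_ee_sub_one_le (x : ℝ) : ‖ee x - 1‖ ≤ 7 * |x| := by
  refine Real.norm_exp_I_mul_ofReal_sub_one_le.trans ?_
  rw [Real.norm_eq_abs, abs_mul, abs_of_pos (by positivity : 0 < 2 * Real.pi)]
  exact mul_le_mul_of_nonneg_right (by linarith only [Real.pi_lt_d2]) (abs_nonneg _)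

lemma coprime_div_gcd {m R : ℕ} (hm : Squarefree m) : Nat.Coprime (m / Nat.gcd m R) R := by
  have h1 : Nat.gcd (m / Nat.gcd m R) R ∣ Nat.gcd m R :=
    Nat.dvd_gcd ((Nat.gcd_dvd_left _ _).trans (Nat.div_dvd_of_dvd (Nat.gcd_dvd_left _ _)))
      (Nat.gcd_dvd_right _ _)
  have h2 := mul_dvd_mul (Nat.gcd_dvd_left (m / Nat.gcd m R) R) h1
  rw [Nat.div_mul_cancel (Nat.gcd_dvd_left _ _)] at h2
  exact Nat.isUnit_iff.mp (hm _ h2)

lemma gamma_le {P Q b c : ℤ} {x G : ℕ} (hR : rR P Q b c ≠ 0) (hG : Int.gcd b c ≤ G) (hx : 0 < x) :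
    Nat.gcd ((c ^ 2 * (x : ℤ)) ^ 3).natAbs (rR P Q b c).natAbs ≤ G ^ 18 * x ^ 3 := by
  have hq : 0 < (rR P Q b c).natAbs := Int.natAbs_pos.mpr hR
  have h0 : 0 < Int.gcd b c := by
    rw [Int.gcd_pos_iff]
    by_contra h
    push Not at h
    exact hR (by simp [rR, h.1, h.2])
  have h1 : Nat.gcd c.natAbs (rR P Q b c).natAbs ∣ Int.gcd b c ^ 3 := by
    rw [Int.gcd, ← Nat.pow_gcd_pow]
    refine Nat.dvd_gcd ?_ ((Nat.gcd_dvd_left _ _).trans (dvd_pow_self _ three_ne_zero))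
    rw [← Int.natAbs_pow, ← Int.natCast_dvd]
    have a1 : ((Nat.gcd c.natAbs (rR P Q b c).natAbs : ℕ) : ℤ) ∣ c := Int.gcd_dvd_left _ _
    have a2 : ((Nat.gcd c.natAbs (rR P Q b c).natAbs : ℕ) : ℤ) ∣ rR P Q b c :=
      Int.gcd_dvd_right _ _
    have := a2.sub (a1.mul_right (P * b * c + Q * c ^ 2))
    rwa [show rR P Q b c - c * (P * b * c + Q * c ^ 2) = b ^ 3 by unfold rR; ring] at this
  have h2 : Nat.gcd (c.natAbs ^ 6) (rR P Q b c).natAbs ≤ G ^ 18 := by
    have a1 : Nat.gcd (c.natAbs ^ 6) (rR P Q b c).natAbs ∣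
        Nat.gcd c.natAbs (rR P Q b c).natAbs ^ 6 := by
      rw [← Nat.pow_gcd_pow]
      exact Nat.dvd_gcd (Nat.gcd_dvd_left _ _)
        ((Nat.gcd_dvd_right _ _).trans (dvd_pow_self _ (by norm_num)))
    refine (Nat.le_of_dvd (by positivity) (a1.trans (pow_dvd_pow_of_dvd h1 6))).trans ?_
    rw [← pow_mul]
    exact Nat.pow_le_pow_left hG _
  rw [show (c ^ 2 * (x : ℤ)) ^ 3 = c ^ 6 * (x : ℤ) ^ 3 by ring, Int.natAbs_mul, Int.natAbs_pow,
    Int.natAbs_pow, Int.natAbs_natCast]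
  refine (Nat.le_of_dvd (Nat.mul_pos (Nat.gcd_pos_of_pos_right _ hq)
    (Nat.gcd_pos_of_pos_right _ hq)) (Nat.gcd_mul_left_dvd_mul_gcd _ _ _)).trans ?_
  exact Nat.mul_le_mul h2 (Nat.gcd_le_left _ (by positivity))

lemma card_le_of_norm {ι : Type*} (I S : Finset ι) (hS : S ⊆ I) (m : ι → ℕ) (D : ℕ)
    (hI : ∀ x : ℕ, (I.filter fun i => m i = x).card ≤ D) (k : ℕ) (hk : 0 < k) (N : ℤ)
    (h : ∀ i ∈ S, N = k * (m i : ℤ)) : S.card ≤ D := by
  refine le_trans (card_le_card fun i hi => mem_filter.mpr ⟨hS hi, ?_⟩) (hI (N / k).toNat)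
  rw [h i hi, Int.mul_ediv_cancel_left _ (by omega), Int.toNat_natCast]

theorem typeII {ι κ : Type*} {P Q : ℤ} (hF : NoRoot P Q) (I : Finset ι) (J : Finset κ)
    (m : ι → ℕ) (r : ι → ℤ) (y : κ → ℕ) (s : κ → ℤ) (n : ι → κ → ℤ) (h : ℤ)
    (A Y0 Y1 T H D Γ τ Ξ G M0 : ℕ) (Dt Bd Cb : ℝ) (hh0 : h ≠ 0) (hh : h.natAbs ≤ H)
    (hT : 2 * A ≤ Y0 * T) (hM0 : 0 < M0) (hY0 : 0 < Y0) (hG1 : 1 ≤ G) (hGA : G ≤ A)
    (hm : ∀ i ∈ I, Squarefree (m i) ∧ M0 ≤ m i ∧ m i ≤ A ^ 3 ∧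
      (m i : ℤ) ∣ r i ^ 3 + P * r i + Q)
    (hI : ∀ x : ℕ, (I.filter fun i => m i = x).card ≤ D)
    (hy : ∀ j ∈ J, Y0 < y j ∧ y j ≤ Y1) (hJ : ∀ x : ℕ, (J.filter fun j => y j = x).card ≤ D)
    (hn : ∀ i ∈ I, ∀ j ∈ J, Nat.Coprime (m i) (y j) →
      (m i : ℤ) ∣ n i j - r i ∧ (y j : ℤ) ∣ n i j - s j)
    (hΓ : G ^ 18 * (kK P Q * G) ^ 3 ≤ Γ) (hΞ : G ^ 3 * (H * T * Γ ^ 2) * Γ ≤ Ξ)
    (hτ : 4 * kK P Q * Γ ^ 4 < τ ^ 2) (hA : τ * Ξ ≤ A) (hΞ1 : 1 ≤ Ξ)
    (hD : ∀ n : ℕ, 1 ≤ n → n ≤ kK P Q * A ^ 3 + 4 * A ^ 6 → (n.divisors.card : ℝ) ≤ Dt)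
    (hB0 : 0 ≤ Bd)
    (hB : ((2 * A + 1) * (D : ℝ)) ^ 8 * (kK P Q * (A : ℝ) ^ 3 *
      ((D : ℝ) ^ 4 * (300 * Dt * (A : ℝ) ^ 2 * ((Ξ : ℝ) * τ * (Γ : ℝ) ^ 4) ^ 2)) ^ 2) ≤ Bd ^ 8)
    (hC0 : 0 ≤ Cb)
    (hC : ((D : ℝ) * (Y1 : ℝ) ^ 2 * (G * (kK P Q * G) * Γ ^ 2)) *
      (D * (Y1 * ((2 * A + 1) * (D : ℝ) ^ 2)
        + 2 * T * ((2 + Real.log (2 * A + Y1 + 1)) * Bd))) ≤ Cb ^ 2)
    (z : ι → ℂ) (β : κ → ℂ) (hz : ∀ i ∈ I, ‖z i‖ ≤ 1) (hβ : ∀ j ∈ J, ‖β j‖ ≤ 1) :
    ‖∑ i ∈ I, ∑ j ∈ J, if Nat.Coprime (m i) (y j) then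
        z i * β j * ee ((h : ℝ) * n i j / (m i * y j)) else 0‖
      ≤ D * (200 * Dt ^ 3 * (A : ℝ) ^ 3 / G * kK P Q) * J.card
        + I.card * (J.card * (7 * (H * (kK P Q * (G : ℝ) ^ 3) / (M0 * Y0))))
        + (2 * A + 1) ^ 2 * (kK P Q * (G : ℝ) ^ 2) * Cb := by
  classical
  choose! a b c k ha hb hc hk1 hk2 hN hU using fun i (hi : i ∈ I) =>
    exists_alpha hF (m i) (hM0.trans_le (hm i hi).2.1) (r i) (hm i hi).2.2.2 A (hm i hi).2.2.1
  set K := kK P Q with hK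
  set bad : ℤ × ℤ × ℤ → Prop := fun z => G < Int.gcd z.2.1 z.2.2 ∨
    |rR P Q z.2.1 z.2.2| * (G : ℤ) ^ 3 < (A : ℤ) ^ 3 ∨
    ∃ g : ℕ, Squarefree g ∧ G < g ∧ (g : ℤ) ∣ rR P Q z.2.1 z.2.2 ∧
      (g : ℤ) ∣ nN P Q z.1 z.2.1 z.2.2 with hbad
  set g : ι → ℕ := fun i => Nat.gcd (m i) (rR P Q (b i) (c i)).natAbs with hg
  have hgm : ∀ i, g i ∣ m i := fun i => Nat.gcd_dvd_left _ _
  have hgR : ∀ i, (g i : ℤ) ∣ rR P Q (b i) (c i) := fun i =>
    Int.natCast_dvd.mpr (Nat.gcd_dvd_right _ _)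
  have hg0 : ∀ i ∈ I, 0 < g i := fun i hi =>
    Nat.gcd_pos_of_pos_left _ (hM0.trans_le (hm i hi).2.1)
  have hgood : ∀ i ∈ I, ¬ bad (a i, b i, c i) → Int.gcd (b i) (c i) ≤ G ∧
      A ^ 3 ≤ (rR P Q (b i) (c i)).natAbs * G ^ 3 ∧ g i ≤ G := by
    intro i hi hb
    simp only [hbad, not_or, not_lt, not_exists, not_and] at hb
    refine ⟨hb.1, ?_, not_lt.mp fun hlt => hb.2.2 (g i)
      ((hm i hi).1.squarefree_of_dvd (hgm i)) hlt (hgR i) ?_⟩
    · have := hb.2.1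
      rw [← Int.natCast_natAbs] at this
      exact_mod_cast this
    · rw [hN i hi]
      exact (Int.natCast_dvd_natCast.mpr (hgm i)).mul_left _
  have hA0 : 0 < A := hG1.trans hGA
  set E : ι → κ → ℂ := fun i j => ee ((h * ((rR P Q (b i) (c i) * n i j
    - uU P Q (a i) (b i) (c i)) / (m i / g i : ℕ)) : ℤ) / (y j * g i * rR P Q (b i) (c i) : ℤ))
    with hE
  have hdv : ∀ i ∈ I, ∀ j ∈ J, Nat.Coprime (m i) (y j) →
      ((m i / g i : ℕ) : ℤ) ∣ rR P Q (b i) (c i) * n i j - uU P Q (a i) (b i) (c i) := by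
    intro i hi j hj hc
    refine (Int.natCast_dvd_natCast.mpr (Nat.div_dvd_of_dvd (hgm i))).trans ?_
    have := (hU i hi).add ((hn i hi j hj hc).1.mul_left (rR P Q (b i) (c i)))
    rwa [show ∀ R u x r : ℤ, R * r - u + R * (x - r) = R * x - u by intros; ring] at this
  rw [← sum_filter_add_sum_filter_not I (fun i => bad (a i, b i, c i)), add_assoc]
  refine (norm_add_le _ _).trans (add_le_add ?_ ?_)
  · have c1 : ∀ i ∈ I.filter (fun i => bad (a i, b i, c i)),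
        ‖∑ j ∈ J, if Nat.Coprime (m i) (y j) then
          z i * β j * ee ((h : ℝ) * n i j / (m i * y j)) else 0‖ ≤ J.card := by
      intro i hi
      refine (norm_sum_le _ _).trans ((sum_le_card_nsmul _ _ 1 fun j hj => ?_).trans (by simp))
      split_ifs
      · rw [norm_mul, norm_mul, norm_ee, mul_one]
        exact mul_le_one₀ (hz i (mem_filter.mp hi).1) (norm_nonneg _) (hβ j hj)
      · simp
    refine (norm_sum_le _ _).trans ((sum_le_card_nsmul _ _ _ c1).trans ?_)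
    rw [nsmul_eq_mul]
    refine mul_le_mul_of_nonneg_right ?_ (Nat.cast_nonneg _)
    have c2 := card_le_mul_card_image_of_maps_to (s := I.filter (fun i => bad (a i, b i, c i)))
      (t := (((Icc (-(A : ℤ)) A) ×ˢ (Icc (-(A : ℤ)) A) ×ˢ (Icc (-(A : ℤ)) A)).filter bad)
        ×ˢ Icc 1 K) (f := fun i => ((a i, b i, c i), k i)) (fun i hi => ?_) D fun x hx => ?_
    · have c3 := card_bad_le hF A G hG1 hGA Dt fun n n1 n2 =>
        hD n n1 (n2.trans (Nat.le_add_right _ _))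
      rw [card_product, Nat.card_Icc, Nat.add_sub_cancel] at c2
      have c4 := (Nat.cast_le (α := ℝ)).mpr c2
      rw [Nat.cast_mul, Nat.cast_mul] at c4
      refine c4.trans (mul_le_mul_of_nonneg_left
        (mul_le_mul_of_nonneg_right ?_ (Nat.cast_nonneg _)) (Nat.cast_nonneg _))
      convert c3
    · rw [mem_filter] at hi
      simp only [mem_product, mem_filter, mem_Icc]
      exact ⟨⟨⟨abs_le.mp (ha i hi.1), abs_le.mp (hb i hi.1), abs_le.mp (hc i hi.1)⟩, hi.2⟩,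
        hk1 i hi.1, hk2 i hi.1⟩
    · refine card_le_of_norm I _ ((filter_subset _ _).trans (filter_subset _ _)) m D hI x.2
        (mem_Icc.mp (mem_product.mp hx).2).1 (nN P Q x.1.1 x.1.2.1 x.1.2.2) fun i hi => ?_
      rw [mem_filter, mem_filter] at hi
      obtain ⟨⟨hi, -⟩, rfl⟩ := hi
      exact hN i hi
  set Ig := I.filter (fun i => ¬ bad (a i, b i, c i)) with hIg
  have d1 : ∀ i ∈ Ig, ∀ j ∈ J, ‖(if Nat.Coprime (m i) (y j) then
      z i * β j * ee ((h : ℝ) * n i j / (m i * y j)) else 0) -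
      (if Nat.Coprime (m i) (y j) then z i * β j * E i j else 0)‖
      ≤ 7 * (H * (K * (G : ℝ) ^ 3) / (M0 * Y0)) := by
    intro i hi j hj
    rw [hIg, mem_filter] at hi
    split_ifs with hcop
    swap
    · simp only [sub_zero, norm_zero]; clear * - H K G M0 Y0 hG1 hM0 hY0; positivity
    obtain ⟨-, g2, -⟩ := hgood i hi.1 hi.2
    obtain ⟨w, hw⟩ := hdv i hi.1 j hj hcop
    obtain ⟨m', hm'⟩ := hgm i
    have g0 := hg0 i hi.1
    have e0 : m i / g i = m' := by rw [hm', Nat.mul_div_cancel_left _ g0]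
    have m0 : 0 < m' := Nat.pos_of_mul_pos_left (hm' ▸ hM0.trans_le (hm i hi.1).2.1)
    have R0 : 0 < (rR P Q (b i) (c i)).natAbs :=
      Nat.pos_of_mul_pos_right (lt_of_lt_of_le (by positivity) g2)
    have R1 : (rR P Q (b i) (c i) : ℝ) ≠ 0 := by exact_mod_cast Int.natAbs_pos.mp R0
    have y0 : Y0 < y j := (hy j hj).1
    have y1 : (0 : ℝ) < y j := by exact_mod_cast hY0.trans y0
    have g1 : (0 : ℝ) < g i := by exact_mod_cast g0
    have m1 : (0 : ℝ) < m' := by exact_mod_cast m0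
    rw [e0] at hw
    have e1 : (h : ℝ) * n i j / (m i * y j) =
        ((h * w : ℤ) : ℝ) / (y j * g i * rR P Q (b i) (c i) : ℤ)
          + h * uU P Q (a i) (b i) (c i) / (m i * y j * rR P Q (b i) (c i)) := by
      clear * - P Q a i b c n j m' w hw h m y g hm' R1 m0 y1 g0 hh0
      have hw' : (uU P Q (a i) (b i) (c i) : ℝ) = rR P Q (b i) (c i) * n i j - m' * w := by
        have : uU P Q (a i) (b i) (c i) = rR P Q (b i) (c i) * n i j - m' * w := by
          linear_combination -hw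
        exact_mod_cast this
      rw [hw', hm']
      push_cast
      field_simp
      ring
    have e2 : E i j = ee (((h * w : ℤ) : ℝ) / (y j * g i * rR P Q (b i) (c i) : ℤ)) := by
      simp only [hE]
      rw [e0, hw, Int.mul_ediv_cancel_left _ (by omega)]
    rw [e1, ee_add, ← e2, ← mul_sub, ← mul_sub_one, norm_mul, norm_mul, norm_mul, e2, norm_ee,
      one_mul]
    refine (mul_le_of_le_one_left (norm_nonneg _)
      (mul_le_one₀ (hz i hi.1) (norm_nonneg _) (hβ j hj))).trans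
      ((norm_ee_sub_one_le _).trans (mul_le_mul_of_nonneg_left ?_ (by norm_num)))
    have u1 : |(uU P Q (a i) (b i) (c i) : ℝ)| ≤ K * (A : ℝ) ^ 3 := by
      exact_mod_cast abs_uU_le P Q _ _ _ A (ha i hi.1) (hb i hi.1) (hc i hi.1)
    have u2 : (A : ℝ) ^ 3 ≤ |(rR P Q (b i) (c i) : ℝ)| * (G : ℝ) ^ 3 := by
      rw [← Int.cast_abs, ← Int.natCast_natAbs]; exact_mod_cast g2
    have u3 : |(h : ℝ)| ≤ H := by
      rw [← Int.cast_abs, ← Int.natCast_natAbs]; exact_mod_cast hh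
    have u4 : (M0 : ℝ) ≤ m i := by exact_mod_cast (hm i hi.1).2.1
    have u5 : (Y0 : ℝ) ≤ y j := by exact_mod_cast y0.le
    have u6 : 0 < |(rR P Q (b i) (c i) : ℝ)| := abs_pos.mpr R1
    have M0' : (0 : ℝ) < M0 := by exact_mod_cast hM0
    have Y0' : (0 : ℝ) < Y0 := by exact_mod_cast hY0
    rw [abs_div, abs_mul, abs_mul, abs_mul, Nat.abs_cast, Nat.abs_cast]
    calc _ ≤ H * (K * (|(rR P Q (b i) (c i) : ℝ)| * (G : ℝ) ^ 3))
          / (M0 * Y0 * |(rR P Q (b i) (c i) : ℝ)|) := by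
          clear * - h P Q a i b c m y j H K G M0 Y0 R1 hG1 u3 A u1 u2 hM0 hY0 u4 u5
          gcongr
          exact u1.trans (mul_le_mul_of_nonneg_left u2 (Nat.cast_nonneg _))
      _ = _ := by clear * - H K P Q b i c G M0 Y0 R1 hY0 hM0 hG1; field_simp
  have d2 : ‖∑ i ∈ Ig, ∑ j ∈ J, if Nat.Coprime (m i) (y j) then z i * β j * E i j else 0‖
      ≤ (2 * A + 1) ^ 2 * (K * (G : ℝ) ^ 2) * Cb := by
    rw [← sum_fiberwise_of_maps_to
      (t := (Icc (-(A : ℤ)) A) ×ˢ (Icc (-(A : ℤ)) A) ×ˢ Icc 1 K ×ˢ Icc 1 G ×ˢ Ico (0 : ℤ) G)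
      (g := fun i => (b i, c i, k i, g i, r i % g i)) fun i hi => ?_]
    swap
    · rw [hIg, mem_filter] at hi
      have g0 := hg0 i hi.1
      have g1 := (hgood i hi.1 hi.2).2.2
      have g2 := Int.emod_lt_of_pos (r i) (show (0 : ℤ) < g i by omega)
      simp only [mem_product, mem_Icc, mem_Ico]
      exact ⟨abs_le.mp (hb i hi.1), abs_le.mp (hc i hi.1), ⟨hk1 i hi.1, hk2 i hi.1⟩, ⟨g0, g1⟩,
        Int.emod_nonneg _ (by omega), by omega⟩
    refine (norm_sum_le _ _).trans ((sum_le_card_nsmul _ _ Cb ?_).trans (le_of_eq ?_))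
    swap
    · simp only [card_product, Int.card_Icc, Nat.card_Icc, Int.card_Ico, nsmul_eq_mul]
      rw [show ((A : ℤ) + 1 - -(A : ℤ)).toNat = 2 * A + 1 by omega]
      simp only [Nat.add_sub_cancel, sub_zero, Int.toNat_natCast]
      push_cast; ring
    rintro ⟨b0, c0, k0, g0, ρ⟩ -
    set Ic := Ig.filter (fun i => (b i, c i, k i, g i, r i % g i) = (b0, c0, k0, g0, ρ)) with hIc
    rcases Ic.eq_empty_or_nonempty with he | ⟨i0, hi0⟩
    · rw [he]; simpa using hC0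
    have hmem : ∀ i ∈ Ic, i ∈ I ∧ ¬ bad (a i, b i, c i) ∧ b i = b0 ∧ c i = c0 ∧ k i = k0 ∧
        g i = g0 ∧ r i % g i = ρ := fun i hi => by
      simpa only [hIc, hIg, mem_filter, Prod.mk.injEq, and_assoc] using hi
    obtain ⟨p1, p2, p3, p4, p5, p6, -⟩ := hmem i0 hi0
    obtain ⟨q1, q2, q3⟩ := hgood i0 p1 p2
    have q4 := abs_rR_le P Q _ _ A (hb i0 p1) (hc i0 p1)
    have q5 := hgR i0
    have q6 := hg0 i0 p1
    have q7 := hk1 i0 p1
    have q8 := hk2 i0 p1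
    rw [p3, p4] at q1 q2 q4 q5
    rw [p6] at q3 q5 q6
    rw [p5] at q7 q8
    have R0 : rR P Q b0 c0 ≠ 0 :=
      Int.natAbs_pos.mp (Nat.pos_of_mul_pos_right (lt_of_lt_of_le (by positivity) q2))
    have hmul : ∀ i ∈ Ic, g0 * (m i / g0) = m i := fun i hi => by
      rw [← (hmem i hi).2.2.2.2.2.1]; exact Nat.mul_div_cancel' (hgm i)
    have cb := class_bound P Q b0 c0 ρ h k0 g0 Ic J a (fun i => m i / g0) y s n A Y0 Y1 T H D K
      Γ τ Ξ (G ^ 3) Dt Bd q7 q6 q5 hh0 hh hT (fun i hi => ha i (hmem i hi).1) (fun x => ?_) hy hJ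
      (fun i hi => ?_) (fun i hi j hj hc => ?_)
      ((gamma_le R0 q1 (Nat.mul_pos q7 q6)).trans (le_trans (by clear * - G k0 g0 K q8 q3 hΓ q2; gcongr) hΓ)) q2
      (by rw [← Int.natCast_natAbs] at q4; exact_mod_cast q4) hΞ hτ hA hΞ1 hD hB0 hB z
      fun i hi => hz i (hmem i hi).1
    rotate_left
    · refine card_le_of_norm I _ (fun i hi => (hmem i (mem_filter.mp hi).1).1) m D hI k0 q7
        (nN P Q x b0 c0) fun i hi => ?_
      rw [mem_filter] at hi
      obtain ⟨s1, -, s3, s4, s5, -⟩ := hmem i hi.1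
      rw [← hi.2, ← s3, ← s4, ← s5]
      exact hN i s1
    · have e := hmul i hi
      obtain ⟨s1, -, s3, s4, s5, s6, -⟩ := hmem i hi
      constructor
      · rw [← s3, ← s4, hN i s1, s5, Nat.cast_mul, mul_assoc, ← Nat.cast_mul g0, e]
      · rw [← s3, ← s4, ← s6, Int.isCoprime_iff_gcd_eq_one]
        exact coprime_div_gcd (hm i s1).1
    · rw [hmul i hi] at hc
      obtain ⟨s1, -, s3, s4, s5, s6, s7⟩ := hmem i hi
      obtain ⟨t1, t2⟩ := hn i s1 j hj hc
      refine ⟨?_, t2, ?_⟩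
      · rw [← s3, ← s4, ← s6]; exact hdv i s1 j hj hc
      · rw [← s7, ← s6]
        have := ((Int.natCast_dvd_natCast.mpr (hgm i)).trans t1).add
          (Int.ModEq.dvd (Int.mod_modEq (r i) (g i)))
        rwa [sub_add_sub_cancel] at this
    rw [sum_comm]
    refine (norm_sum_le _ _).trans (le_trans (sum_le_sum fun j hj => ?_)
      (le_of_pow_le_pow_left₀ two_ne_zero hC0 (cb.trans (le_trans ?_ hC))))
    · have : (∑ i ∈ Ic, if Nat.Coprime (m i) (y j) then z i * β j * E i j else 0) =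
          β j * ∑ i ∈ Ic, if Nat.Coprime (g0 * (m i / g0)) (y j) then z i *
            ee ((h * ((rR P Q b0 c0 * n i j - uU P Q (a i) b0 c0) / (m i / g0 : ℕ)) : ℤ)
              / (y j * g0 * rR P Q b0 c0 : ℤ)) else 0 := by
        rw [mul_sum]
        refine sum_congr rfl fun i hi => ?_
        rw [hmul i hi]
        obtain ⟨-, -, s3, s4, -, s6, -⟩ := hmem i hi
        simp only [hE, s3, s4, s6]
        split_ifs
        · ring
        · simp
      rw [this, norm_mul]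
      exact mul_le_of_le_one_left (norm_nonneg _) (hβ j hj)
    · have := Real.log_nonneg (show (1 : ℝ) ≤ 2 * A + Y1 + 1 by
        linarith only [(Nat.cast_nonneg A : (0 : ℝ) ≤ A), (Nat.cast_nonneg Y1 : (0 : ℝ) ≤ Y1)])
      have v1 : (g0 : ℝ) ≤ G := by exact_mod_cast q3
      have v2 : (k0 : ℝ) ≤ K := by exact_mod_cast q8
      clear * - D Y1 A T Bd g0 k0 Γ G K v1 v2 q6 q7 hG1 hA0 this hB0; gcongr
  refine (norm_le_norm_sub_add _ _).trans (add_le_add ?_ d2)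
  rw [← sum_sub_distrib]
  refine (norm_sum_le _ _).trans ((sum_le_card_nsmul _ _
    (J.card * (7 * (H * (K * (G : ℝ) ^ 3) / (M0 * Y0)))) fun i hi => ?_).trans ?_)
  · rw [← sum_sub_distrib]
    refine (norm_sum_le _ _).trans ((sum_le_card_nsmul _ _ _ (d1 i hi)).trans ?_)
    rw [nsmul_eq_mul]
  · rw [nsmul_eq_mul]
    refine mul_le_mul_of_nonneg_right ?_ (by clear * - κ J H K G M0 Y0 hG1 hM0 hY0; positivity)
    exact_mod_cast card_filter_le _ _

end Pool.Agent.Work.MP_51e72e_nt.Cub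
end

-- merged part: Pool.Agent.Work.MP_51e72e_nt.CubPow
section
/-!
The bilinear estimate with all parameters chosen as powers of one number.
-/

set_option autoImplicit false

namespace Pool.Agent.Work.MP_51e72e_nt.Cub

open Finset Filter Pool.Agent.Lib.LargeSieve

lemma ev_divisors (e : ℕ) : ∀ᶠ B : ℕ in atTop, ∀ n : ℕ, n ≤ B ^ e →
    (n.divisors.card : ℝ) ≤ B := by
  obtain ⟨C, C1, hC⟩ := Pool.Agent.Lib.ANT.exists_card_divisors_le (1 / (2 * ((e : ℝ) + 1)))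
    (by positivity)
  filter_upwards [tendsto_natCast_atTop_atTop.eventually_ge_atTop (C ^ 2), eventually_ge_atTop 1]
    with B h1 h2 n hn
  have b1 : (1 : ℝ) ≤ B := by exact_mod_cast h2
  have a1 : (n : ℝ) ≤ (B : ℝ) ^ ((e : ℝ) + 1) := by
    rw [← Nat.cast_succ, Real.rpow_natCast]
    exact_mod_cast hn.trans (Nat.pow_le_pow_right h2 (Nat.le_succ e))
  have a2 : (n : ℝ) ^ (1 / (2 * ((e : ℝ) + 1))) ≤ √B := by
    refine (Real.rpow_le_rpow (Nat.cast_nonneg _) a1 (by positivity)).trans (le_of_eq ?_)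
    rw [← Real.rpow_mul (by positivity), Real.sqrt_eq_rpow]
    congr 1
    field_simp
  have a3 : C ≤ √B := Real.le_sqrt_of_sq_le h1
  calc _ ≤ C * (n : ℝ) ^ (1 / (2 * ((e : ℝ) + 1))) := hC n
    _ ≤ √B * √B := by gcongr
    _ = B := Real.mul_self_sqrt (by positivity)

lemma ev_log (e : ℕ) : ∀ᶠ B : ℕ in atTop, 2 + e * Real.log B ≤ B := by
  filter_upwards [tendsto_natCast_atTop_atTop.eventually_ge_atTop ((2 * (e : ℝ) + 2) ^ 2),
    eventually_ge_atTop 1] with B h1 h2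
  have b1 : (1 : ℝ) ≤ B := by exact_mod_cast h2
  have a1 : 2 * (e : ℝ) + 2 ≤ √B := Real.le_sqrt_of_sq_le h1
  have a2 : 1 ≤ √(B : ℝ) := Real.one_le_sqrt.mpr b1
  have a3 : Real.log B ≤ 2 * √B := by
    have := Real.log_le_sub_one_of_pos (show 0 < √(B : ℝ) by linarith only [a1])
    rw [Real.log_sqrt (by linarith)] at this
    linarith only [this]
  have a4 := Real.mul_self_sqrt (show (0 : ℝ) ≤ B by linarith)
  have e0 : (0 : ℝ) ≤ e := Nat.cast_nonneg _
  linarith only [a1, a4, a3, e0, mul_le_mul_of_nonneg_left a3 e0, mul_le_mul_of_nonneg_right a1 (Real.sqrt_nonneg B)]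

lemma card_le_mult_nat {ι : Type*} (I : Finset ι) (m : ι → ℕ) (X D : ℕ)
    (hm : ∀ i ∈ I, 0 < m i ∧ m i ≤ X) (hI : ∀ x : ℕ, (I.filter fun i => m i = x).card ≤ D) :
    (I.card : ℝ) ≤ D * X := by
  have := sum_comp_le_mult I m (Ioc 0 X) D (fun i hi => mem_Ioc.mpr (hm i hi)) hI (fun _ => 1)
    fun _ _ => zero_le_one
  simpa using this

lemma two_mul_add_one_le {b : ℝ} (hb : 3 ≤ b) (e : ℕ) : 2 * b ^ e + 1 ≤ b ^ (e + 1) := by
  have : 1 ≤ b ^ e := one_le_pow₀ (by linarith only [hb])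
  rw [pow_succ]; linarith only [hb, this, mul_nonneg_of_nonpos_of_nonpos (Mathlib.Tactic.Linarith.sub_nonpos_of_le hb) (Mathlib.Tactic.Linarith.sub_nonpos_of_le this)]

lemma mono_aux2 {x y x' y' e K B w g d : ℝ} (h1 : x ≤ x') (h2 : y ≤ y') (h3 : e ≤ B) (h4 : K ≤ B)
    (h5 : 0 ≤ x') (h6 : 0 ≤ y) (h7 : 0 ≤ e) (h8 : 0 ≤ K) (h9 : 0 ≤ w) (h10 : 0 ≤ g) (h11 : 0 ≤ d) :
    x * (y * (e * (w * (K * g) / d))) ≤ x' * (y' * (B * (w * (B * g) / d))) := by
  have := h6.trans h2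
  have := h7.trans h3
  gcongr

theorem typeII_pow {P Q : ℤ} (hF : NoRoot P Q) : ∀ᶠ B : ℕ in atTop,
    ∀ (ι κ : Type) (I : Finset ι) (J : Finset κ) (m : ι → ℕ) (r : ι → ℤ) (y : κ → ℕ) (s : κ → ℤ)
      (n : ι → κ → ℤ) (h : ℤ), h ≠ 0 → h.natAbs ≤ B ^ 100 →
      (∀ i ∈ I, Squarefree (m i) ∧ B ^ 1079940 ≤ m i ∧ m i ≤ B ^ 1080000 ∧
        (m i : ℤ) ∣ r i ^ 3 + P * r i + Q) →
      (∀ x : ℕ, (I.filter fun i => m i = x).card ≤ B) →
      (∀ j ∈ J, B ^ 349980 < y j ∧ y j ≤ B ^ 349991) →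
      (∀ x : ℕ, (J.filter fun j => y j = x).card ≤ B) →
      (∀ i ∈ I, ∀ j ∈ J, Nat.Coprime (m i) (y j) →
        (m i : ℤ) ∣ n i j - r i ∧ (y j : ℤ) ∣ n i j - s j) →
      ∀ (z : ι → ℂ) (β : κ → ℂ), (∀ i ∈ I, ‖z i‖ ≤ 1) → (∀ j ∈ J, ‖β j‖ ≤ 1) →
      ‖∑ i ∈ I, ∑ j ∈ J, if Nat.Coprime (m i) (y j) then
        z i * β j * ee ((h : ℝ) * n i j / (m i * y j)) else 0‖ ≤ 3 * (B : ℝ) ^ 1429798 := by
  filter_upwards [ev_divisors 2160002, ev_log 360002, eventually_ge_atTop (kK P Q),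
    eventually_ge_atTop 1000] with B hD hlog hK hB ι κ I J m r y s n h h0 hh hm hI hy hJ hn z β hz hβ
  have B1 : 1 ≤ B := by omega
  have B0 : 0 < B := B1
  have hp : ∀ {u v : ℕ}, u ≤ v → B ^ u ≤ B ^ v := fun h => Nat.pow_le_pow_right B1 h
  have b0 : (1000 : ℝ) ≤ B := by exact_mod_cast hB
  have k0 : (kK P Q : ℝ) ≤ B := by exact_mod_cast hK
  have hp' : ∀ {u v : ℕ}, u ≤ v → (B : ℝ) ^ u ≤ (B : ℝ) ^ v := fun h =>
    pow_le_pow_right₀ (by linarith only [b0]) h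
  have cI : (I.card : ℝ) ≤ B * (B : ℝ) ^ 1080000 := by
    have := card_le_mult_nat I m (B ^ 1080000) B (fun i hi =>
      ⟨(pow_pos B0 _).trans_le (hm i hi).2.1, (hm i hi).2.2.1⟩) hI
    rwa [Nat.cast_pow] at this
  have cJ : (J.card : ℝ) ≤ B * (B : ℝ) ^ 349991 := by
    have := card_le_mult_nat J y (B ^ 349991) B (fun i hi =>
      ⟨(pow_pos B0 _).trans (hy i hi).1, (hy i hi).2⟩) hJ
    rwa [Nat.cast_pow] at this
  have a1 : 2 * (B : ℝ) ^ 360000 + 1 ≤ (B : ℝ) ^ 360001 :=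
    two_mul_add_one_le (show (3 : ℝ) ≤ B by linarith only [b0]) 360000
  have a2 : 2 + Real.log (2 * (B : ℝ) ^ 360000 + (B : ℝ) ^ 349991 + 1) ≤ B := by
    refine le_trans (add_le_add_right ?_ 2) hlog
    rw [← Real.log_pow]
    refine Real.log_le_log (by positivity) ?_
    have : 2 * (B : ℝ) ^ 360001 + 1 ≤ (B : ℝ) ^ 360002 :=
      two_mul_add_one_le (show (3 : ℝ) ≤ B by linarith only [b0]) 360001
    linarith [hp' (show 349991 ≤ 360001 by norm_num), pow_pos (show (0 : ℝ) < B by linarith) 360001]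
  have a3 : 0 ≤ Real.log (2 * (B : ℝ) ^ 360000 + (B : ℝ) ^ 349991 + 1) :=
    Real.log_nonneg (le_add_of_nonneg_left (by positivity))
  have main := typeII hF I J m r y s n h (B ^ 360000) (B ^ 349980) (B ^ 349991) (B ^ 10021)
    (B ^ 100) B (B ^ 4203) (B ^ 8407) (B ^ 23330) (B ^ 200) (B ^ 1079940) B ((B : ℝ) ^ 699279)
    ((B : ℝ) ^ 709393) h0 hh ?_ (pow_pos B0 _) (pow_pos B0 _) (pow_pos B0 _) (hp (by norm_num))
    (fun i hi => ⟨(hm i hi).1, (hm i hi).2.1, (hm i hi).2.2.1.trans (le_of_eq (by ring)),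
      (hm i hi).2.2.2⟩) hI hy hJ hn ?_ (le_of_eq (by ring)) ?_
    ?_ (pow_pos B0 _) (fun x _ hx => hD x (hx.trans ?_)) (by positivity) ?_ (by positivity) ?_
    z β hz hβ
  rotate_left
  · calc 2 * B ^ 360000 ≤ B * B ^ 360000 := Nat.mul_le_mul_right _ (by omega)
      _ = _ := by ring
  · calc _ ≤ (B ^ 200) ^ 18 * (B * B ^ 200) ^ 3 := by gcongr
      _ = _ := by ring
  · calc _ < B * B * (B ^ 4203) ^ 4 := by
          refine Nat.mul_lt_mul_of_pos_right ?_ (by positivity)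
          exact Nat.mul_lt_mul_of_lt_of_le (by omega) hK B0
      _ = _ := by ring
  · rw [← pow_add]; exact hp (by norm_num)
  · calc _ ≤ B * (B ^ 360000) ^ 6 + B * (B ^ 360000) ^ 6 :=
          Nat.add_le_add (Nat.mul_le_mul hK (Nat.pow_le_pow_right (pow_pos B0 _) (by norm_num)))
            (Nat.mul_le_mul_right _ (by omega))
      _ = 2 * B ^ 2160001 := by ring
      _ ≤ B * B ^ 2160001 := Nat.mul_le_mul_right _ (by omega)
      _ = _ := by ring
  · push_cast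
    calc _ ≤ ((B : ℝ) ^ 360001 * B) ^ 8 * (B * ((B : ℝ) ^ 360000) ^ 3 * ((B : ℝ) ^ 4 *
          (B * B * ((B : ℝ) ^ 360000) ^ 2 * ((B : ℝ) ^ 23330 * (B : ℝ) ^ 8407 *
            ((B : ℝ) ^ 4203) ^ 4) ^ 2)) ^ 2) := by
          clear * - B P Q hB a1 k0 b0
          gcongr
          linarith only [b0]
      _ = (B : ℝ) ^ 5594225 := by ring
      _ ≤ (B : ℝ) ^ (699279 * 8) := hp' (by norm_num)
      _ = _ := by rw [pow_mul]
  · push_cast
    have c1 : (B : ℝ) ^ 349991 * ((2 * (B : ℝ) ^ 360000 + 1) * (B : ℝ) ^ 2) ≤ (B : ℝ) ^ 709994 :=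
      calc _ ≤ (B : ℝ) ^ 349991 * ((B : ℝ) ^ 360001 * (B : ℝ) ^ 2) := by gcongr
        _ = _ := by ring
    have c2 : 2 * (B : ℝ) ^ 10021 * ((2 + Real.log (2 * (B : ℝ) ^ 360000 + (B : ℝ) ^ 349991 + 1))
        * (B : ℝ) ^ 699279) ≤ (B : ℝ) ^ 709994 :=
      calc _ ≤ B * (B : ℝ) ^ 10021 * (B * (B : ℝ) ^ 699279) := by
            clear * - B b0 hB a2 a3
            gcongr
            linarith only [b0]
        _ = (B : ℝ) ^ 709302 := by ring
        _ ≤ _ := hp' (by norm_num)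
    calc _ ≤ (B * ((B : ℝ) ^ 349991) ^ 2 * ((B : ℝ) ^ 200 * (B * (B : ℝ) ^ 200) *
          ((B : ℝ) ^ 4203) ^ 2)) * (B * ((B : ℝ) ^ 709994 + (B : ℝ) ^ 709994)) := by clear * - B P Q k0 hB c1 c2 a3; gcongr
      _ = 2 * (B : ℝ) ^ 1418785 := by ring
      _ ≤ B * (B : ℝ) ^ 1418785 := by
          gcongr
          linarith only [b0]
      _ = _ := by ring
  refine main.trans ?_
  push_cast
  have t1 : (B : ℝ) * (200 * (B : ℝ) ^ 3 * ((B : ℝ) ^ 360000) ^ 3 / (B : ℝ) ^ 200 * kK P Q)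
      * J.card ≤ (B : ℝ) ^ 1429798 :=
    calc _ ≤ (B : ℝ) * (B * (B : ℝ) ^ 3 * ((B : ℝ) ^ 360000) ^ 3 / (B : ℝ) ^ 200 * B)
          * (B * (B : ℝ) ^ 349991) := by
          clear * - B P Q κ J b0 hB k0 cJ
          gcongr
          linarith only [b0]
      _ = (B : ℝ) ^ 1429798 * (B : ℝ) ^ 200 / (B : ℝ) ^ 200 := by ring
      _ = _ := mul_div_cancel_right₀ _ (by positivity)
  have t2 : (I.card : ℝ) * (J.card * (7 * ((B : ℝ) ^ 100 * (kK P Q * ((B : ℝ) ^ 200) ^ 3)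
      / ((B : ℝ) ^ 1079940 * (B : ℝ) ^ 349980)))) ≤ (B : ℝ) ^ 1429798 :=
    calc _ ≤ (B * (B : ℝ) ^ 1080000) * ((B * (B : ℝ) ^ 349991) * (B * ((B : ℝ) ^ 100 *
          (B * ((B : ℝ) ^ 200) ^ 3) / ((B : ℝ) ^ 1079940 * (B : ℝ) ^ 349980)))) :=
          mono_aux2 cI cJ (by linarith only [b0]) k0 (by positivity) (by positivity) (by positivity)
            (by positivity) (by positivity) (by positivity) (by positivity)
      _ = (B : ℝ) ^ 775 * ((B : ℝ) ^ 1079940 * (B : ℝ) ^ 349980)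
          / ((B : ℝ) ^ 1079940 * (B : ℝ) ^ 349980) := by ring
      _ = (B : ℝ) ^ 775 := mul_div_cancel_right₀ _ (by positivity)
      _ ≤ _ := hp' (by norm_num)
  have t3 : (2 * (B : ℝ) ^ 360000 + 1) ^ 2 * (kK P Q * ((B : ℝ) ^ 200) ^ 2) * (B : ℝ) ^ 709393
      ≤ (B : ℝ) ^ 1429798 :=
    calc _ ≤ ((B : ℝ) ^ 360001) ^ 2 * (B * ((B : ℝ) ^ 200) ^ 2) * (B : ℝ) ^ 709393 := by
          clear * - B P Q hB a1 k0
          gcongr
      _ = (B : ℝ) ^ 1429796 := by ring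
      _ ≤ _ := hp' (by norm_num)
  clear * - B P Q κ J ι I t1 t2 t3; linarith only [t1, t2, t3]

end Pool.Agent.Work.MP_51e72e_nt.Cub
end

-- merged part: Pool.Agent.Work.MP_51e72e_nt.DegDefs
section
/-!
Definitions for the level of distribution of the roots of a polynomial of arbitrary degree.
-/

set_option autoImplicit false

namespace Pool.Agent.Work.MP_51e72e_nt.Deg

open Finset Polynomial Pool.Agent.Lib.LargeSieve Pool.Agent.Work.MP_51e72e_nt.Cub

/-- the phase `e (x * D⁻¹ / Q)` -/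
noncomputable def ph (Q : ℕ) (x D : ℤ) : ℂ :=
  ee ((((x : ZMod Q) * (D : ZMod Q)⁻¹).val : ℝ) / Q)

/-- the divided difference of `P / Den` at the point `v`, cleared of denominators -/
noncomputable def dd (Den P : ℤ[X]) (v : ℤ) : ℤ[X] :=
  (C (Den.eval v) * P - C (P.eval v) * Den) /ₘ (X - C v)

/-- averaging over dilations -/
noncomputable def avg {q : ℕ} (U : Finset ℤ) (L : ℕ) (ω : ℤ → ZMod q) (f : ZMod q → ℝ)
    (x : ZMod q) : ℝ := (∑ u ∈ U, f (x * ω u)) / L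

/-- absolute value of the Fourier transform of the law of `ω` -/
noncomputable def nuh {q : ℕ} [NeZero q] (U : Finset ℤ) (L : ℕ) (ω : ℤ → ZMod q) (x : ZMod q) : ℝ :=
  ‖∑ u ∈ U, (ZMod.stdAddChar (x * ω u) : ℂ)‖ / L

/-- majorant of the bilinear sums -/
noncomputable def V0 {q : ℕ} [NeZero q] (U : Finset ℤ) (L : ℕ) (ω : ℤ → ZMod q) (x : ZMod q) : ℝ :=
  √((∑ u ∈ U, ∑ u' ∈ U, nuh U L ω (x * (ω u - ω u'))) / (L : ℝ) ^ 2)

/-- Fourier transforms of measures of mass at most one -/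
def IsPD {q : ℕ} [NeZero q] (φ : ZMod q → ℝ) : Prop :=
  ∃ μ : ZMod q → ℝ, (∀ z, 0 ≤ μ z) ∧ ∑ z, μ z ≤ 1 ∧
    ∀ x, (φ x : ℂ) = ∑ z, (μ z : ℂ) * ZMod.stdAddChar (x * z)

/-- one differencing step acting on majorants -/
noncomputable def Wm {q : ℕ} (μ : ZMod q) (Λ η : ℝ) (T : ℕ) (V : ZMod q → ℝ) (x : ZMod q) : ℝ :=
  √(η + Λ * ∑ t ∈ (Icc (-(T : ℤ)) T).erase 0, V (x * (μ * t)))

/-- the iterated majorant -/
noncomputable def Vm {q : ℕ} (V : ZMod q → ℝ) (av : (ZMod q → ℝ) → ZMod q → ℝ) (μ : ZMod q)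
    (Λ : ℝ) (η : ℕ → ℝ) (T : ℕ → ℕ) : ℕ → ZMod q → ℝ
  | 0 => V
  | k + 1 => av (Wm μ Λ (η k) (T k) (Vm V av μ Λ η T k))

/-- the element `∑ b i * θ ^ (i + 1)` -/
noncomputable def bet {S : Type*} [CommRing S] {e : ℕ} (b : Fin (e + 1) → S) : S[X] :=
  ∑ i, C (b i) * X ^ (i.val + 1)

/-- coordinates modulo `F` -/
noncomputable def crd {S : Type*} [CommRing S] (F : ℤ[X]) (e : ℕ) (g : S[X]) (j : Fin (e + 2)) : S :=
  (g %ₘ F.map (Int.castRingHom S)).coeff j

/-- the coordinates of the powers of `bet b` -/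
noncomputable def Bm {S : Type*} [CommRing S] (F : ℤ[X]) {e : ℕ} (b : Fin (e + 1) → S) :
    Matrix (Fin (e + 2)) (Fin (e + 2)) S := Matrix.of fun i => crd F e (bet b ^ i.val)

/-- the index form -/
noncomputable def rR {S : Type*} [CommRing S] (F : ℤ[X]) {e : ℕ} (b : Fin (e + 1) → S) : S :=
  (Bm F b).det

/-- top coefficient of the numerator -/
noncomputable def t0 {S : Type*} [CommRing S] (F : ℤ[X]) {e : ℕ} (b : Fin (e + 1) → S) : S :=
  (Bm F b).adjugate 1 (Fin.last _)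

/-- the constant term of the linear form -/
noncomputable def t1 (F : ℤ[X]) {e : ℕ} (b : Fin (e + 1) → ℤ) : ℤ :=
  ∑ j, crd F e (X * bet b) j * (Bm F b).adjugate j (Fin.last _)

/-- the numerator of the root -/
noncomputable def uU (F : ℤ[X]) {e : ℕ} (b : Fin (e + 1) → ℤ) : ℤ[X] :=
  ∑ i, C ((Bm F b).adjugate 1 i) * X ^ i.val

/-- the characteristic polynomial of `bet b` -/
noncomputable def chi (F : ℤ[X]) {e : ℕ} (b : Fin (e + 1) → ℤ) : ℤ[X] :=
  (Matrix.of fun i : Fin (e + 2) => crd F e (X ^ i.val * bet b)).charpoly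

/-- the box of coefficient vectors -/
noncomputable def box (e A : ℕ) : Finset (Fin (e + 1) → ℤ) :=
  Fintype.piFinset fun _ => Icc (-(A : ℤ)) A

/-- the index form is large and almost coprime to `t0` and to all small numbers -/
def GoodB (F : ℤ[X]) {e : ℕ} (A V K G : ℕ) (b : Fin (e + 1) → ℤ) : Prop :=
  A ≤ (rR F b).natAbs * V ∧ ∀ k : ℕ, 1 ≤ k → k ≤ K → ∃ q σ : ℕ, (rR F b).natAbs = q * σ ∧
    σ ≤ G ∧ Nat.Coprime q (σ * (t0 F b).natAbs * k)

/-- tuples of indices -/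
noncomputable def tup {κ : Type} (J : ℕ → Finset κ) (n : ℕ) : Finset (Fin n → κ) :=
  Fintype.piFinset fun k : Fin n => J k

/-- admissible families of moduli `m * (W * y 1 * ... * y n)` and residues -/
structure Fam {ι κ : Type} (f : ℤ[X]) (n W M0 M1 Dm : ℕ) (Y0 Y1 : ℕ → ℕ) (I : Finset ι)
    (J : ℕ → Finset κ) (m : ι → ℕ) (r : ι → ℤ) (y : κ → ℕ) (s : κ → ℤ) (c : ℤ)
    (x : ι → (Fin n → κ) → ℤ) : Prop where
  hm : ∀ i ∈ I, Squarefree (m i) ∧ Nat.Coprime (m i) W ∧ M0 ≤ m i ∧ m i ≤ M1 ∧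
    (m i : ℤ) ∣ f.eval (r i)
  hI : ∀ v : ℕ, (I.filter fun i => m i = v).card ≤ Dm
  hy : ∀ k < n, ∀ j ∈ J k, Y0 k ≤ y j ∧ y j ≤ Y1 k ∧ Nat.Coprime (y j) W
  hJ : ∀ k < n, ∀ v : ℕ, ((J k).filter fun j => y j = v).card ≤ Dm
  hyy : ∀ k < n, ∀ k' < n, k ≠ k' → ∀ j ∈ J k, ∀ j' ∈ J k', Nat.Coprime (y j) (y j')
  hmy : ∀ i ∈ I, ∀ k < n, ∀ j ∈ J k, Nat.Coprime (m i) (y j)
  hx : ∀ i ∈ I, ∀ j ∈ tup J n, (m i : ℤ) ∣ x i j - r i ∧ (W : ℤ) ∣ x i j - c ∧
    ∀ k, (y (j k) : ℤ) ∣ x i j - s (j k)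

/-- multilinear level of distribution for the roots of `f` -/
def LevelN (f : ℤ[X]) (n W N L M0 M1 Dm : ℕ) (Y0 Y1 : ℕ → ℕ) (E : ℝ) : Prop :=
  ∀ (ι κ : Type) (I : Finset ι) (J : ℕ → Finset κ) (m : ι → ℕ) (r : ι → ℤ) (y : κ → ℕ)
    (s : κ → ℤ) (c : ℤ) (x : ι → (Fin n → κ) → ℤ) (a : ι → ℝ) (b : (Fin n → κ) → ℝ),
    Fam f n W M0 M1 Dm Y0 Y1 I J m r y s c x → (∀ i ∈ I, |a i| ≤ 1) →
    (∀ j ∈ tup J n, |b j| ≤ 1) →
    |∑ i ∈ I, ∑ j ∈ tup J n, a i * b j * (cntw N L (m i * (W * ∏ k, y (j k))) (x i j)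
      - ((N : ℝ) + L) / (m i * (W * ∏ k, y (j k) : ℕ)))| ≤ E

/-- the level of distribution in the ranges given by the exponents `e0`, `e k` -/
def LevelAll (f : ℤ[X]) (n e0 : ℕ) (e : ℕ → ℕ) : Prop :=
  ∀ W : ℕ, 0 < W → (∀ p : ℕ, p.Prime → (p : ℤ) ∣ f.leadingCoeff → p ∣ W) →
    ∀ᶠ B : ℕ in Filter.atTop, ∀ N L : ℕ, B ^ (e0 + ∑ k ∈ range n, e k) ≤ N →
      N ≤ B ^ (e0 + ∑ k ∈ range n, e k + 1) → N ≤ L * B → L ≤ N →
      LevelN f n W N L (B ^ e0) (B ^ (e0 + 1)) B (fun k => B ^ e k) (fun k => B ^ (e k + 1))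
        ((N : ℝ) / B)

end Pool.Agent.Work.MP_51e72e_nt.Deg
end

-- merged part: Pool.Agent.Work.MP_51e72e_nt.DegFlat1
section
/-!
Elementary facts used in the flattening step.
-/

set_option autoImplicit false

namespace Pool.Agent.Work.MP_51e72e_nt.Deg

open Finset

section PD

variable {q : ℕ} [NeZero q] {φ : ZMod q → ℝ}

theorem chr_norm (x : ZMod q) : ‖(ZMod.stdAddChar x : ℂ)‖ = 1 := by
  rw [ZMod.stdAddChar_apply]; exact Circle.norm_coe _

theorem chr_conj (x : ZMod q) :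
    (starRingEnd ℂ) (ZMod.stdAddChar x : ℂ) = ZMod.stdAddChar (-x) := by
  rw [AddChar.map_neg_eq_inv, Complex.inv_def, Complex.normSq_eq_norm_sq, chr_norm]
  simp

theorem IsPD.le_one (h : IsPD φ) (x : ZMod q) : φ x ≤ 1 := by
  obtain ⟨m, hm0, hm1, hm⟩ := h
  have h1 : ‖(φ x : ℂ)‖ ≤ ∑ z, m z := by
    rw [hm x]
    refine (norm_sum_le _ _).trans (le_of_eq (sum_congr rfl fun z _ => ?_))
    rw [norm_mul, chr_norm, mul_one, Complex.norm_real, Real.norm_eq_abs, abs_of_nonneg (hm0 z)]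
  rw [Complex.norm_real, Real.norm_eq_abs] at h1
  exact (le_abs_self _).trans (h1.trans hm1)

theorem IsPD.even (h : IsPD φ) (x : ZMod q) : φ (-x) = φ x := by
  obtain ⟨m, -, -, hm⟩ := h
  have h1 : (starRingEnd ℂ) (φ x : ℂ) = φ (-x) := by
    rw [hm x, hm (-x), map_sum]
    refine sum_congr rfl fun z _ => ?_
    rw [map_mul, Complex.conj_ofReal, chr_conj, neg_mul]
  rw [Complex.conj_ofReal] at h1
  exact_mod_cast h1.symm

theorem IsPD.sq_le (h : IsPD φ) {ι : Type} (I : Finset ι) (y : ι → ZMod q) :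
    (∑ u ∈ I, φ (y u)) ^ 2 ≤ ∑ u ∈ I, ∑ u' ∈ I, φ (y u - y u') := by
  obtain ⟨m, hm0, hm1, hm⟩ := h
  set S : ZMod q → ℂ := fun z => ∑ u ∈ I, (ZMod.stdAddChar (y u * z) : ℂ) with hS
  have h1 : ((∑ u ∈ I, φ (y u) : ℝ) : ℂ) = ∑ z, (m z : ℂ) * S z := by
    push_cast
    simp only [hm, hS, mul_sum]
    exact sum_comm
  have h2 : ((∑ u ∈ I, ∑ u' ∈ I, φ (y u - y u') : ℝ) : ℂ) = ((∑ z, m z * ‖S z‖ ^ 2 : ℝ) : ℂ) := by
    have h3 : ∀ z, ((‖S z‖ ^ 2 : ℝ) : ℂ) =
        ∑ u ∈ I, ∑ u' ∈ I, (ZMod.stdAddChar ((y u - y u') * z) : ℂ) := by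
      intro z
      rw [← Complex.normSq_eq_norm_sq, ← Complex.mul_conj, hS]
      simp only [map_sum, sum_mul_sum, chr_conj]
      refine sum_congr rfl fun u _ => sum_congr rfl fun u' _ => ?_
      rw [← AddChar.map_add_eq_mul]
      congr 1; ring
    rw [Complex.ofReal_sum, Complex.ofReal_sum]
    simp only [Complex.ofReal_sum, Complex.ofReal_mul, h3, hm, mul_sum]
    rw [sum_comm (s := univ)]
    refine sum_congr rfl fun u _ => ?_
    rw [sum_comm (s := univ)]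
  have h2' : ∑ u ∈ I, ∑ u' ∈ I, φ (y u - y u') = ∑ z, m z * ‖S z‖ ^ 2 := by exact_mod_cast h2
  have h4 : |∑ u ∈ I, φ (y u)| ≤ ∑ z, m z * ‖S z‖ := by
    rw [← Real.norm_eq_abs, ← Complex.norm_real, h1]
    refine (norm_sum_le _ _).trans (le_of_eq (sum_congr rfl fun z _ => ?_))
    rw [norm_mul, Complex.norm_real, Real.norm_eq_abs, abs_of_nonneg (hm0 z)]
  have h5 : (∑ z, m z * ‖S z‖) ^ 2 ≤ (∑ z, m z) * ∑ z, m z * ‖S z‖ ^ 2 :=
    sum_sq_le_sum_mul_sum_of_sq_le_mul univ (fun z _ => hm0 z)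
      (fun z _ => mul_nonneg (hm0 z) (sq_nonneg _)) (fun z _ => le_of_eq (by ring))
  have h6 : 0 ≤ ∑ z, m z * ‖S z‖ ^ 2 := sum_nonneg fun z _ => mul_nonneg (hm0 z) (sq_nonneg _)
  rw [h2', ← sq_abs]
  calc _ ≤ (∑ z, m z * ‖S z‖) ^ 2 := pow_le_pow_left₀ (abs_nonneg _) h4 2
    _ ≤ _ := h5
    _ ≤ 1 * _ := mul_le_mul_of_nonneg_right hm1 h6
    _ = _ := one_mul _

end PD

section Count

variable {q : ℕ} [NeZero q]

theorem sum_unit (f : ZMod q → ℝ) {c : ZMod q} (hc : IsUnit c) :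
    ∑ x, f (x * c) = ∑ x, f x := by
  obtain ⟨u, rfl⟩ := hc
  exact Equiv.sum_comp (Units.mulRight u) f

theorem sum_mul_nat_le (f : ZMod q → ℝ) (hf : ∀ x, 0 ≤ f x) {g : ℕ} (hg : 0 < g) :
    ∑ x, f (x * g) ≤ g * ∑ x, f x := by
  classical
  rw [sum_comp f (fun x : ZMod q => x * g), mul_sum]
  calc _ ≤ ∑ y ∈ univ.image (fun x : ZMod q => x * g), (g : ℝ) * f y := by
        refine sum_le_sum fun y hy => ?_
        rw [nsmul_eq_mul]
        refine mul_le_mul_of_nonneg_right ?_ (hf y)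
        obtain ⟨x0, -, hx0⟩ := mem_image.1 hy
        have h1 := IsAddCyclic.card_nsmul_eq_zero_le (α := ZMod q) hg
        have h2 : (univ.filter fun x : ZMod q => x * g = y).card ≤
            (univ.filter fun x : ZMod q => g • x = 0).card := by
          refine card_le_card_of_injOn (fun x => x - x0) ?_ ?_
          · intro x hx
            have hx' := (mem_filter.1 hx).2
            simp only [coe_filter, mem_univ, true_and, Set.mem_ofPred_eq, nsmul_eq_mul]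
            rw [mul_comm, sub_mul, hx', hx0, sub_self]
          · intro a _ b _ hab
            simpa using hab
        exact_mod_cast h2.trans h1
    _ ≤ _ := sum_le_sum_of_subset_of_nonneg (subset_univ _) fun y _ _ =>
        mul_nonneg (Nat.cast_nonneg _) (hf y)

theorem sum_inv_ord_le : ∑ x : ZMod q, 1 / (addOrderOf x : ℝ) ≤ q.divisors.card := by
  classical
  rw [sum_comp (fun d : ℕ => 1 / (d : ℝ)) (fun x : ZMod q => addOrderOf x)]
  have hsub : univ.image (fun x : ZMod q => addOrderOf x) ⊆ q.divisors := by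
    intro d hd
    obtain ⟨x, -, rfl⟩ := mem_image.1 hd
    refine Nat.mem_divisors.2 ⟨?_, NeZero.ne q⟩
    have := addOrderOf_dvd_card (x := x)
    rwa [ZMod.card] at this
  calc _ ≤ ∑ d ∈ univ.image (fun x : ZMod q => addOrderOf x), (1 : ℝ) := by
        refine sum_le_sum fun d hd => ?_
        have hd' := Nat.mem_divisors.1 (hsub hd)
        have hpos : 0 < d := Nat.pos_of_dvd_of_pos hd'.1 (NeZero.pos q)
        have h1 := IsAddCyclic.card_addOrderOf_eq_totient (α := ZMod q) (d := d)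
          (by rw [ZMod.card]; exact hd'.1)
        rw [h1, nsmul_eq_mul, mul_one_div, div_le_one (by exact_mod_cast hpos)]
        exact_mod_cast Nat.totient_le d
    _ ≤ _ := by
        rw [sum_const, nsmul_eq_mul, mul_one]
        exact_mod_cast card_le_card hsub

theorem sum_Icc_le_period (f : ZMod q → ℝ) (hf : ∀ x, 0 ≤ f x) {N : ℕ} (hN : q ≤ N) :
    ∑ n ∈ Icc 1 N, f n ≤ 2 * N / q * ∑ x, f x := by
  classical
  have hq : 0 < q := NeZero.pos q
  have hq' : (0 : ℝ) < q := by exact_mod_cast hq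
  rw [sum_comp f (fun n : ℕ => (n : ZMod q)), mul_sum]
  calc _ ≤ ∑ y ∈ (Icc 1 N).image (fun n : ℕ => (n : ZMod q)), 2 * N / q * f y := by
        refine sum_le_sum fun y _ => ?_
        rw [nsmul_eq_mul]
        refine mul_le_mul_of_nonneg_right ?_ (hf y)
        have h2 : ((Icc 1 N).filter fun n : ℕ => (n : ZMod q) = y).card ≤
            (range (N / q + 1)).card := by
          refine card_le_card_of_injOn (fun n => n / q) ?_ ?_
          · intro n hn
            have hn' := mem_Icc.1 (mem_filter.1 hn).1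
            simp only [coe_range, Set.mem_Iio]
            exact Nat.lt_succ_of_le (Nat.div_le_div_right hn'.2)
          · intro a ha b hb hab
            have h3 : (a : ZMod q) = b := by
              rw [(mem_filter.1 ha).2, (mem_filter.1 hb).2]
            have h4 : a % q = b % q := (ZMod.natCast_eq_natCast_iff' a b q).1 h3
            have h5 : a / q = b / q := hab
            rw [← Nat.div_add_mod a q, ← Nat.div_add_mod b q, h4, h5]
        rw [card_range] at h2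
        have h3 : ((N / q : ℕ) : ℝ) ≤ N / q := Nat.cast_div_le
        have h4 : (1 : ℝ) ≤ N / q := by
          rw [le_div_iff₀ hq', one_mul]; exact_mod_cast hN
        have h5 : ((((Icc 1 N).filter fun n : ℕ => (n : ZMod q) = y).card : ℕ) : ℝ) ≤
          ((N / q : ℕ) : ℝ) + 1 := by exact_mod_cast h2
        rw [mul_div_assoc]
        linarith only [h3, h4, h5]
    _ ≤ _ := sum_le_sum_of_subset_of_nonneg (subset_univ _) fun y _ _ =>
        mul_nonneg (by positivity) (hf y)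

end Count

/-- splitting off the part of `t` supported on the primes of `q` -/
theorem exists_split (q t : ℕ) (ht : 0 < t) :
    ∃ g t', t = g * t' ∧ Nat.Coprime t' q ∧ ∀ p, p.Prime → p ∣ g → p ∣ q := by
  induction t using Nat.strong_induction_on with
  | _ t ih =>
    by_cases h : Nat.Coprime t q
    · exact ⟨1, t, by simp, h, fun p hp h1 => absurd (Nat.le_of_dvd one_pos h1) hp.one_lt.not_ge⟩
    · obtain ⟨p, hp, h1, h2⟩ := Nat.Prime.not_coprime_iff_dvd.1 h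
      obtain ⟨t1, rfl⟩ := h1
      have h3 : 0 < t1 := Nat.pos_of_mul_pos_left ht
      obtain ⟨g, t', e, hc, hg⟩ := ih t1 (by nlinarith only [hp, h3, hp.two_le]) h3
      refine ⟨p * g, t', by rw [e, mul_assoc], hc, fun r hr hrd => ?_⟩
      rcases (Nat.Prime.dvd_mul hr).1 hrd with h4 | h4
      · rwa [(Nat.prime_dvd_prime_iff_eq hr hp).1 h4]
      · exact hg r hr h4

theorem card_dvd_le (L d : ℕ) : ((((Icc 1 L).filter fun t => d ∣ t).card : ℕ) : ℝ) ≤ L / d := by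
  have : Icc 1 L = Ioc 0 L := by ext; simp [Nat.succ_le_iff]
  rw [this, Nat.Ioc_filter_dvd_card_eq_div]
  exact Nat.cast_div_le

/-- few integers have a large part supported on the primes of `q` -/
theorem card_bad_le {q : ℕ} (hq : q ≠ 0) (L E : ℕ) (hE : 0 < E) :
    ((((Icc 1 L).filter fun t => ¬ ∃ g ∈ Icc 1 (E ^ 3), ∃ t' ∈ (Icc 1 L).filter
      (fun t' => Nat.Coprime t' q), t = g * t').card : ℕ) : ℝ) ≤
        (q.divisors.card + 1) * (L / E) := by
  classical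
  have hE' : (0 : ℝ) < E := by exact_mod_cast hE
  set S1 := (q.divisors.filter fun d => E < d).biUnion fun d => (Icc 1 L).filter fun t => d ∣ t
  set S2 := (Ioc E (E + L)).biUnion fun k => (Icc 1 L).filter fun t => k ^ 2 ∣ t
  have hsub : ((Icc 1 L).filter fun t => ¬ ∃ g ∈ Icc 1 (E ^ 3), ∃ t' ∈ (Icc 1 L).filter
      (fun t' => Nat.Coprime t' q), t = g * t') ⊆ S1 ∪ S2 := by
    intro t ht
    obtain ⟨ht1, ht2⟩ := mem_filter.1 ht
    have ht3 := mem_Icc.1 ht1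
    obtain ⟨g, t', e, hc, hg⟩ := exists_split q t ht3.1
    have hg0 : 0 < g := Nat.pos_of_ne_zero (by rintro rfl; omega)
    have ht0 : 0 < t' := Nat.pos_of_ne_zero (by rintro rfl; omega)
    have hgE : E ^ 3 < g := by
      by_contra hh
      refine ht2 ⟨g, mem_Icc.2 ⟨hg0, by omega⟩, t', mem_filter.2 ⟨mem_Icc.2 ⟨ht0, ?_⟩, hc⟩, e⟩
      exact (Nat.le_of_dvd ht3.1 ⟨g, by rw [e, mul_comm]⟩).trans ht3.2
    obtain ⟨g1, g2, e2, hsq⟩ := Nat.sq_mul_squarefree g
    have hg1 : g1 ∣ q := by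
      rw [← Nat.prod_primeFactors_of_squarefree hsq]
      refine Finset.prod_primes_dvd q (fun p hp => (Nat.prime_of_mem_primeFactors hp).prime)
        fun p hp => hg p (Nat.prime_of_mem_primeFactors hp) ?_
      exact (Nat.dvd_of_mem_primeFactors hp).trans ⟨g2 ^ 2, by rw [← e2, mul_comm]⟩
    by_cases h1 : E < g1
    · refine mem_union_left _ (mem_biUnion.2 ⟨g1, mem_filter.2
        ⟨Nat.mem_divisors.2 ⟨hg1, hq⟩, h1⟩, mem_filter.2 ⟨ht1, ?_⟩⟩)
      exact ⟨g2 ^ 2 * t', by rw [e, ← e2]; ring⟩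
    · have h2 : E < g2 := by
        by_contra h2
        have : g2 ^ 2 * g1 ≤ E ^ 2 * E :=
          Nat.mul_le_mul (Nat.pow_le_pow_left (by omega) 2) (by omega)
        rw [e2, ← pow_succ] at this
        exact absurd hgE (not_lt.2 this)
      have h3 : g2 ^ 2 ∣ t := ⟨g1 * t', by rw [e, ← e2]; ring⟩
      have h4 : g2 ≤ t := Nat.le_of_dvd ht3.1 ((dvd_pow_self g2 two_ne_zero).trans h3)
      exact mem_union_right _ (mem_biUnion.2 ⟨g2, mem_Ioc.2 ⟨h2, by omega⟩,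
        mem_filter.2 ⟨ht1, h3⟩⟩)
  have h1 : (S1.card : ℝ) ≤ q.divisors.card * (L / E) := by
    calc (S1.card : ℝ) ≤ ∑ d ∈ q.divisors.filter fun d => E < d,
          ((((Icc 1 L).filter fun t => d ∣ t).card : ℕ) : ℝ) := by exact_mod_cast card_biUnion_le
      _ ≤ ∑ d ∈ q.divisors.filter fun d => E < d, (L : ℝ) / E := by
          refine sum_le_sum fun d hd => (card_dvd_le L d).trans ?_
          have : (E : ℝ) ≤ d := by exact_mod_cast (mem_filter.1 hd).2.le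
          gcongr
      _ ≤ _ := by
          rw [sum_const, nsmul_eq_mul]
          gcongr
          exact filter_subset _ _
  have h2 : (S2.card : ℝ) ≤ L / E := by
    calc (S2.card : ℝ) ≤ ∑ k ∈ Ioc E (E + L),
          ((((Icc 1 L).filter fun t => k ^ 2 ∣ t).card : ℕ) : ℝ) := by
          exact_mod_cast card_biUnion_le
      _ ≤ ∑ k ∈ Ioc E (E + L), (L : ℝ) * ((k : ℝ) ^ 2)⁻¹ := by
          refine sum_le_sum fun k _ => (card_dvd_le L _).trans (le_of_eq ?_)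
          push_cast; rw [div_eq_mul_inv]
      _ ≤ _ := by
          rw [← mul_sum, div_eq_mul_inv]
          refine mul_le_mul_of_nonneg_left ?_ (Nat.cast_nonneg _)
          have := sum_Ioc_inv_sq_le_sub (α := ℝ) hE.ne' (Nat.le_add_right E L)
          have h3 : (0 : ℝ) ≤ ((E + L : ℕ) : ℝ)⁻¹ := by positivity
          linarith only [this, h3]
  have h3 := (card_le_card hsub).trans (card_union_le _ _)
  have h4 : ((((Icc 1 L).filter fun t => ¬ ∃ g ∈ Icc 1 (E ^ 3), ∃ t' ∈ (Icc 1 L).filter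
      (fun t' => Nat.Coprime t' q), t = g * t').card : ℕ) : ℝ) ≤ S1.card + S2.card := by
    exact_mod_cast h3
  linarith only [h1, h2, h4]

end Pool.Agent.Work.MP_51e72e_nt.Deg
end

-- merged part: Pool.Agent.Work.MP_51e72e_nt.DegFlat2
section
/-!
The averaging operator over dilations by small units and its powers.
-/

set_option autoImplicit false

namespace Pool.Agent.Work.MP_51e72e_nt.Deg

open Finset

variable {q : ℕ} [NeZero q]

/-- averaging over the dilations by the members of `T` -/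
noncomputable def opM (T : Finset ℕ) (L : ℕ) (v : ZMod q → ℝ) (x : ZMod q) : ℝ :=
  (∑ t ∈ T, v (x * t)) / L

/-- the adjoint operator -/
noncomputable def opS (T : Finset ℕ) (L : ℕ) (v : ZMod q → ℝ) (x : ZMod q) : ℝ :=
  (∑ t ∈ T, v (x * (t : ZMod q)⁻¹)) / L

variable {T : Finset ℕ} {L : ℕ}

theorem opM_adj (hT : ∀ t ∈ T, IsUnit (t : ZMod q)) (v w : ZMod q → ℝ) :
    ∑ x, opM T L v x * w x = ∑ x, v x * opS T L w x := by
  simp only [opM, opS, div_mul_eq_mul_div, ← mul_div_assoc, ← sum_div, sum_mul, mul_sum]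
  congr 1
  rw [sum_comm, sum_comm (s := univ)]
  refine sum_congr rfl fun t ht => ?_
  rw [← sum_unit (fun x => v x * w (x * (t : ZMod q)⁻¹)) (hT t ht)]
  refine sum_congr rfl fun x _ => ?_
  rw [mul_assoc, ZMod.mul_inv_of_unit _ (hT t ht), mul_one]

theorem opS_norm (hT : ∀ t ∈ T, IsUnit (t : ZMod q)) (v : ZMod q → ℝ) :
    ∑ x, opS T L v x ^ 2 = ∑ x, opM T L v x ^ 2 := by
  simp only [opM, opS, div_pow, ← sum_div]
  congr 1
  simp only [sq, sum_mul_sum]
  rw [sum_comm, sum_comm (s := univ)]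
  refine sum_congr rfl fun t ht => ?_
  rw [sum_comm, sum_comm (s := univ)]
  refine sum_congr rfl fun t' ht' => ?_
  rw [← sum_unit (fun x => v (x * (t : ZMod q)⁻¹) * v (x * (t' : ZMod q)⁻¹))
    ((hT t ht).mul (hT t' ht'))]
  refine sum_congr rfl fun x _ => ?_
  have e1 : x * ((t : ZMod q) * t') * (t : ZMod q)⁻¹ = x * t' := by
    calc _ = x * t' * ((t : ZMod q) * (t : ZMod q)⁻¹) := by ring
      _ = _ := by rw [ZMod.mul_inv_of_unit _ (hT t ht), mul_one]
  have e2 : x * ((t : ZMod q) * t') * (t' : ZMod q)⁻¹ = x * t := by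
    calc _ = x * t * ((t' : ZMod q) * (t' : ZMod q)⁻¹) := by ring
      _ = _ := by rw [ZMod.mul_inv_of_unit _ (hT t' ht'), mul_one]
  simp only [e1, e2]
  ring

theorem opM_convex (hT : ∀ t ∈ T, IsUnit (t : ZMod q)) (v : ZMod q → ℝ) :
    (∑ x, opM T L v x ^ 2) ^ 2 ≤ (∑ x, v x ^ 2) * ∑ x, opM T L (opM T L v) x ^ 2 := by
  have h1 : ∑ x, opM T L v x ^ 2 = ∑ x, v x * opS T L (opM T L v) x := by
    rw [← opM_adj hT]; simp only [sq]
  rw [h1, ← opS_norm hT]
  exact sum_mul_sq_le_sq_mul_sq _ _ _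

theorem log_convex (a : ℕ → ℝ) (h0 : ∀ j, 0 ≤ a j) (h : ∀ j, a (j + 1) ^ 2 ≤ a j * a (j + 2))
    (h1 : 0 < a 1) (j : ℕ) : 0 < a (j + 1) ∧ a 1 * a j ≤ a 0 * a (j + 1) := by
  induction j with
  | zero => exact ⟨h1, le_of_eq (by ring)⟩
  | succ j ih =>
    obtain ⟨hp, hi⟩ := ih
    have h2 := h j
    have h3 : 0 < a j * a (j + 2) := lt_of_lt_of_le (by positivity) h2
    have h4 : 0 < a j := lt_of_le_of_ne (h0 j) (by rintro h5; rw [← h5] at h3; simp at h3)
    have h5 : 0 < a (j + 2) := (pos_iff_pos_of_mul_pos h3).1 h4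
    refine ⟨h5, ?_⟩
    have h6 : a j * (a 1 * a (j + 1)) ≤ a j * (a 0 * a (j + 2)) := by
      calc a j * (a 1 * a (j + 1)) = (a 1 * a j) * a (j + 1) := by ring
        _ ≤ (a 0 * a (j + 1)) * a (j + 1) := mul_le_mul_of_nonneg_right hi (h0 _)
        _ = a 0 * a (j + 1) ^ 2 := by ring
        _ ≤ a 0 * (a j * a (j + 2)) := mul_le_mul_of_nonneg_left h2 (h0 0)
        _ = _ := by ring
    exact le_of_mul_le_mul_left h6 h4

theorem log_convex' (a : ℕ → ℝ) (h0 : ∀ j, 0 ≤ a j) (h : ∀ j, a (j + 1) ^ 2 ≤ a j * a (j + 2))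
    (h1 : 0 < a 1) (j : ℕ) : a 1 ^ (j + 1) ≤ a 0 ^ j * a (j + 1) := by
  induction j with
  | zero => simp
  | succ j ih =>
    calc a 1 ^ (j + 1 + 1) = a 1 ^ (j + 1) * a 1 := pow_succ _ _
      _ ≤ a 0 ^ j * a (j + 1) * a 1 := mul_le_mul_of_nonneg_right ih h1.le
      _ = a 0 ^ j * (a 1 * a (j + 1)) := by ring
      _ ≤ a 0 ^ j * (a 0 * a (j + 1 + 1)) :=
        mul_le_mul_of_nonneg_left (log_convex a h0 h h1 (j + 1)).2 (pow_nonneg (h0 0) _)
      _ = _ := by ring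

theorem opM_nonneg {v : ZMod q → ℝ} (hv : ∀ x, 0 ≤ v x) (x : ZMod q) : 0 ≤ opM T L v x :=
  div_nonneg (sum_nonneg fun _ _ => hv _) (Nat.cast_nonneg _)

theorem opM_le_one (hL : 0 < L) (hc : T.card ≤ L) {v : ZMod q → ℝ} (hv : ∀ x, v x ≤ 1)
    (x : ZMod q) : opM T L v x ≤ 1 := by
  have hL' : (0 : ℝ) < L := by exact_mod_cast hL
  rw [opM, div_le_one hL']
  calc _ ≤ ∑ t ∈ T, (1 : ℝ) := sum_le_sum fun _ _ => hv _
    _ ≤ _ := by rw [sum_const, nsmul_eq_mul, mul_one]; exact_mod_cast hc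

theorem opM_sum_le (hT : ∀ t ∈ T, IsUnit (t : ZMod q)) (hL : 0 < L) (hc : T.card ≤ L)
    {v : ZMod q → ℝ} (hv : ∀ x, 0 ≤ v x) : ∑ x, opM T L v x ≤ ∑ x, v x := by
  have hL' : (0 : ℝ) < L := by exact_mod_cast hL
  simp only [opM, ← sum_div]
  rw [div_le_iff₀ hL', sum_comm, sum_congr rfl fun t ht => sum_unit v (hT t ht), sum_const,
    nsmul_eq_mul, mul_comm]
  exact mul_le_mul_of_nonneg_left (by exact_mod_cast hc) (sum_nonneg fun x _ => hv x)

theorem iter_nonneg {v : ZMod q → ℝ} (hv : ∀ x, 0 ≤ v x) (j : ℕ) (x : ZMod q) :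
    0 ≤ (opM T L)^[j] v x := by
  induction j generalizing x with
  | zero => exact hv x
  | succ j ih => rw [Function.iterate_succ_apply']; exact opM_nonneg ih x

theorem iter_le_one (hL : 0 < L) (hc : T.card ≤ L) {v : ZMod q → ℝ} (hv : ∀ x, v x ≤ 1) (j : ℕ)
    (x : ZMod q) : (opM T L)^[j] v x ≤ 1 := by
  induction j generalizing x with
  | zero => exact hv x
  | succ j ih => rw [Function.iterate_succ_apply']; exact opM_le_one hL hc ih x

theorem iter_sum_le (hT : ∀ t ∈ T, IsUnit (t : ZMod q)) (hL : 0 < L) (hc : T.card ≤ L)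
    {v : ZMod q → ℝ} (hv : ∀ x, 0 ≤ v x) (j : ℕ) : ∑ x, (opM T L)^[j] v x ≤ ∑ x, v x := by
  induction j with
  | zero => exact le_rfl
  | succ j ih =>
    rw [Function.iterate_succ_apply']
    exact (opM_sum_le hT hL hc (iter_nonneg hv j)).trans ih

theorem sum_prod_le (hT : T ⊆ Icc 1 L) (N b : ℕ) (hτ : ∀ n ≤ N * L, n.divisors.card ≤ b)
    (f : ℕ → ℝ) (hf : ∀ n, 0 ≤ f n) :
    ∑ t ∈ T, ∑ n ∈ Icc 1 N, f (t * n) ≤ b * ∑ n ∈ Icc 1 (N * L), f n := by
  classical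
  rw [← sum_product' (f := fun t n => f (t * n)),
    sum_comp f (fun p : ℕ × ℕ => p.1 * p.2), mul_sum]
  have hsub : (T ×ˢ Icc 1 N).image (fun p : ℕ × ℕ => p.1 * p.2) ⊆ Icc 1 (N * L) := by
    intro n hn
    obtain ⟨p, hp, rfl⟩ := mem_image.1 hn
    have h1 := mem_Icc.1 (hT (mem_product.1 hp).1)
    have h2 := mem_Icc.1 (mem_product.1 hp).2
    exact mem_Icc.2 ⟨Nat.mul_pos h1.1 h2.1, by rw [mul_comm N]; exact Nat.mul_le_mul h1.2 h2.2⟩
  calc _ ≤ ∑ n ∈ (T ×ˢ Icc 1 N).image (fun p : ℕ × ℕ => p.1 * p.2), (b : ℝ) * f n := by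
        refine sum_le_sum fun n hn => ?_
        rw [nsmul_eq_mul]
        refine mul_le_mul_of_nonneg_right ?_ (hf n)
        have hn' := mem_Icc.1 (hsub hn)
        have h1 : ((T ×ˢ Icc 1 N).filter fun p : ℕ × ℕ => p.1 * p.2 = n).card ≤
            n.divisors.card := by
          refine card_le_card_of_injOn (fun p => p.1) ?_ ?_
          · intro p hp
            have := (mem_filter.1 hp).2
            exact mem_coe.2 (Nat.mem_divisors.2 ⟨⟨p.2, this.symm⟩, by omega⟩)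
          · intro p hp p' hp' he
            have e1 := (mem_filter.1 hp).2
            have e2 := (mem_filter.1 hp').2
            have he' : p.1 = p'.1 := he
            have h3 := mem_Icc.1 (hT (mem_product.1 (mem_filter.1 hp).1).1)
            refine Prod.ext he' (Nat.eq_of_mul_eq_mul_left h3.1 ?_)
            rw [e1, he', e2]
        exact_mod_cast h1.trans (hτ n hn'.2)
    _ ≤ _ := sum_le_sum_of_subset_of_nonneg hsub fun n _ _ =>
        mul_nonneg (Nat.cast_nonneg _) (hf n)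

theorem iter_le_sum (hT : T ⊆ Icc 1 L) (hL : 0 < L) (J b : ℕ)
    (hτ : ∀ n ≤ L ^ J, n.divisors.card ≤ b) {v : ZMod q → ℝ} (hv : ∀ x, 0 ≤ v x) (j : ℕ)
    (hj : j ≤ J) (x : ZMod q) :
    (opM T L)^[j] v x ≤ (b : ℝ) ^ j / (L : ℝ) ^ j * ∑ n ∈ Icc 1 (L ^ j), v (x * n) := by
  have hL' : (0 : ℝ) < L := by exact_mod_cast hL
  induction j generalizing x with
  | zero => simp
  | succ j ih =>
    rw [Function.iterate_succ_apply', opM, div_le_iff₀ hL']
    have h1 := sum_prod_le hT (L ^ j) b (fun n hn => hτ n (hn.trans (by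
      rw [← pow_succ]; exact Nat.pow_le_pow_right hL hj))) (fun n => v (x * n)) (fun n => hv _)
    calc _ ≤ ∑ t ∈ T, (b : ℝ) ^ j / (L : ℝ) ^ j * ∑ n ∈ Icc 1 (L ^ j), v (x * t * n) :=
          sum_le_sum fun t _ => ih (by omega) _
      _ = (b : ℝ) ^ j / (L : ℝ) ^ j * ∑ t ∈ T, ∑ n ∈ Icc 1 (L ^ j), v (x * (t * n : ℕ)) := by
          rw [← mul_sum]; simp only [Nat.cast_mul, mul_assoc]
      _ ≤ (b : ℝ) ^ j / (L : ℝ) ^ j * (b * ∑ n ∈ Icc 1 (L ^ j * L), v (x * n)) :=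
          mul_le_mul_of_nonneg_left h1 (by positivity)
      _ = _ := by rw [← pow_succ]; field_simp; ring

end Pool.Agent.Work.MP_51e72e_nt.Deg
end

-- merged part: Pool.Agent.Work.MP_51e72e_nt.DegAlg1
section
/-!
Polynomial size bounds for the generators, and the minors of an adjugate matrix.
-/

set_option autoImplicit false

namespace Pool.Agent.Work.MP_51e72e_nt.Deg

open Finset Polynomial

/-- functions of `(a, b)` bounded by a constant times `A ^ n` on boxes of size `A` -/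
def PB (e n : ℕ) (f : ℤ → (Fin (e + 1) → ℤ) → ℤ) : Prop :=
  ∃ K : ℕ, ∀ A : ℕ, 1 ≤ A → ∀ a : ℤ, |a| ≤ A → ∀ b ∈ box e A, |f a b| ≤ K * A ^ n

lemma PB.mono {e n m : ℕ} {f : ℤ → (Fin (e + 1) → ℤ) → ℤ} (h : PB e n f) (hnm : n ≤ m) :
    PB e m f := by
  obtain ⟨K, hK⟩ := h
  refine ⟨K, fun A hA a ha b hb => (hK A hA a ha b hb).trans ?_⟩
  have h1 : (1 : ℤ) ≤ A := by exact_mod_cast hA
  exact mul_le_mul_of_nonneg_left (pow_le_pow_right₀ h1 hnm) (by positivity)

lemma PB.const (e : ℕ) (c : ℤ) : PB e 0 (fun _ _ => c) :=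
  ⟨c.natAbs, fun A _ a _ b _ => by simp⟩

lemma PB.fst (e : ℕ) : PB e 1 (fun a _ => a) :=
  ⟨1, fun A _ a ha b _ => by simpa using ha⟩

lemma PB.snd (e : ℕ) (i : Fin (e + 1)) : PB e 1 (fun _ b => b i) := by
  refine ⟨1, fun A _ a _ b hb => ?_⟩
  have := Fintype.mem_piFinset.1 hb i
  rw [Finset.mem_Icc] at this
  simpa using abs_le.2 this

lemma PB.add {e n : ℕ} {f g : ℤ → (Fin (e + 1) → ℤ) → ℤ} (hf : PB e n f) (hg : PB e n g) :
    PB e n (fun a b => f a b + g a b) := by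
  obtain ⟨K, hK⟩ := hf
  obtain ⟨L, hL⟩ := hg
  refine ⟨K + L, fun A hA a ha b hb => (abs_add_le _ _).trans ?_⟩
  have := hK A hA a ha b hb
  have := hL A hA a ha b hb
  push_cast
  linarith

lemma PB.sub {e n : ℕ} {f g : ℤ → (Fin (e + 1) → ℤ) → ℤ} (hf : PB e n f) (hg : PB e n g) :
    PB e n (fun a b => f a b - g a b) := by
  obtain ⟨K, hK⟩ := hf
  obtain ⟨L, hL⟩ := hg
  refine ⟨K + L, fun A hA a ha b hb => (abs_sub _ _).trans ?_⟩
  have := hK A hA a ha b hb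
  have := hL A hA a ha b hb
  push_cast
  linarith

lemma PB.mul {e n m : ℕ} {f g : ℤ → (Fin (e + 1) → ℤ) → ℤ} (hf : PB e n f) (hg : PB e m g) :
    PB e (n + m) (fun a b => f a b * g a b) := by
  obtain ⟨K, hK⟩ := hf
  obtain ⟨L, hL⟩ := hg
  refine ⟨K * L, fun A hA a ha b hb => ?_⟩
  have h1 := hK A hA a ha b hb
  have h2 := hL A hA a ha b hb
  rw [abs_mul]
  calc |f a b| * |g a b| ≤ (K * A ^ n) * (L * A ^ m) :=
        mul_le_mul h1 h2 (abs_nonneg _) (by positivity)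
    _ = _ := by push_cast; ring

lemma PB.sum {e n : ℕ} {ι : Type*} (s : Finset ι) (f : ι → ℤ → (Fin (e + 1) → ℤ) → ℤ)
    (h : ∀ i ∈ s, PB e n (f i)) : PB e n (fun a b => ∑ i ∈ s, f i a b) := by
  classical
  induction s using Finset.induction_on with
  | empty => simpa using (PB.const e 0).mono (Nat.zero_le n)
  | insert i s hi ih =>
    simp only [Finset.sum_insert hi]
    exact (h i (mem_insert_self _ _)).add (ih fun j hj => h j (mem_insert_of_mem hj))

lemma PB.prod {e n : ℕ} {ι : Type*} (s : Finset ι) (f : ι → ℤ → (Fin (e + 1) → ℤ) → ℤ)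
    (h : ∀ i ∈ s, PB e n (f i)) : PB e (s.card * n) (fun a b => ∏ i ∈ s, f i a b) := by
  classical
  induction s using Finset.induction_on with
  | empty => simpa using PB.const e 1
  | insert i s hi ih =>
    simp only [Finset.prod_insert hi, Finset.card_insert_of_notMem hi]
    have := (h i (mem_insert_self _ _)).mul (ih fun j hj => h j (mem_insert_of_mem hj))
    exact this.mono (by rw [Nat.add_mul]; omega)

lemma PB.pow {e n : ℕ} {f : ℤ → (Fin (e + 1) → ℤ) → ℤ} (hf : PB e n f) (k : ℕ) :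
    PB e (k * n) (fun a b => f a b ^ k) := by
  simpa using PB.prod (range k) (fun _ => f) (fun _ _ => hf)

lemma PB.det {e n d : ℕ} (M : ℤ → (Fin (e + 1) → ℤ) → Matrix (Fin d) (Fin d) ℤ)
    (h : ∀ i j, PB e n (fun a b => M a b i j)) : PB e (d * n) (fun a b => (M a b).det) := by
  simp only [Matrix.det_apply']
  refine PB.sum _ _ fun σ _ => ?_
  have := (PB.const e ((Equiv.Perm.sign σ : ℤˣ) : ℤ)).mul
    (PB.prod (univ : Finset (Fin d)) (fun i a b => M a b (σ i) i) fun i _ => h _ _)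
  simpa using this

lemma PB.adj {e n d : ℕ} (M : ℤ → (Fin (e + 1) → ℤ) → Matrix (Fin d) (Fin d) ℤ)
    (h : ∀ i j, PB e n (fun a b => M a b i j)) (i j : Fin d) :
    PB e (d * n) (fun a b => (M a b).adjugate i j) := by
  simp only [Matrix.adjugate_apply]
  refine PB.det (fun a b => (M a b).updateRow j (Pi.single i 1)) fun k l => ?_
  by_cases hk : k = j
  · subst hk
    simp only [Matrix.updateRow_self]
    exact (PB.const e _).mono (Nat.zero_le n)
  · simp only [Matrix.updateRow_ne hk]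
    exact h k l

lemma crd_lin (F : ℤ[X]) (e : ℕ) {ι : Type*} (s : Finset ι) (c : ι → ℤ) (g : ι → ℤ[X])
    (j : Fin (e + 2)) :
    crd F e (∑ i ∈ s, C (c i) * g i) j = ∑ i ∈ s, c i * crd F e (g i) j := by
  have : ∀ p : ℤ[X], crd F e p j
      = (lcoeff ℤ j.val) (modByMonicHom (F.map (Int.castRingHom ℤ)) p) := fun p => rfl
  simp only [this, map_sum, ← smul_eq_C_mul, map_smul, smul_eq_mul]

lemma natDegree_bet_le {e : ℕ} (b : Fin (e + 1) → ℤ) : (bet b).natDegree ≤ e + 1 := by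
  unfold bet
  refine natDegree_sum_le_of_forall_le _ _ fun i _ => (natDegree_C_mul_X_pow_le _ _).trans ?_
  omega

lemma PB_coeff_bet (e k : ℕ) : PB e 1 (fun _ b => (bet b).coeff k) := by
  simp only [bet, finsetSum_coeff, coeff_C_mul]
  refine PB.sum _ _ fun i _ => ?_
  simpa using (PB.snd e i).mul (PB.const e (((X : ℤ[X]) ^ (i.val + 1)).coeff k))

lemma PB_coeff_bet_pow (e i : ℕ) : ∀ k, PB e i (fun _ b => (bet b ^ i).coeff k) := by
  induction i with
  | zero => intro k; simpa using PB.const e ((1 : ℤ[X]).coeff k)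
  | succ i ih =>
    intro k
    simp only [pow_succ, coeff_mul]
    exact PB.sum _ _ fun x _ => (ih x.1).mul (PB_coeff_bet e x.2)

lemma PB_Bm (F : ℤ[X]) (e : ℕ) (i j : Fin (e + 2)) : PB e (e + 1) (fun _ b => Bm F b i j) := by
  have key : ∀ b : Fin (e + 1) → ℤ, Bm F b i j = ∑ k ∈ range (i.val * (e + 1) + 1),
      (bet b ^ i.val).coeff k * crd F e (X ^ k) j := by
    intro b
    rw [← crd_lin]
    have hd : (bet b ^ i.val).natDegree < i.val * (e + 1) + 1 :=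
      Nat.lt_succ_of_le (natDegree_pow_le.trans (Nat.mul_le_mul_left _ (natDegree_bet_le b)))
    have := (bet b ^ i.val).as_sum_range_C_mul_X_pow' hd
    simp only [Bm, Matrix.of_apply]
    rw [← this]
  simp only [key]
  refine PB.sum _ _ fun k _ => ?_
  have := (PB_coeff_bet_pow e i.val k).mul (PB.const e (crd F e (X ^ k) j))
  exact this.mono (by have := i.isLt; omega)

lemma PB_M (F : ℤ[X]) (e : ℕ) (i j : Fin (e + 2)) :
    PB e 1 (fun _ b => crd F e (X ^ i.val * bet b) j) := by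
  have key : ∀ b : Fin (e + 1) → ℤ, crd F e (X ^ i.val * bet b) j =
      ∑ l, b l * crd F e (X ^ i.val * X ^ (l.val + 1)) j := by
    intro b
    rw [← crd_lin]
    congr 1
    simp only [bet, Finset.mul_sum]
    exact Finset.sum_congr rfl fun l _ => by ring
  simp only [key]
  exact PB.sum _ _ fun l _ => by simpa using (PB.snd e l).mul (PB.const e _)

/-- two by two minors of an adjugate matrix are divisible by the determinant -/
lemma det_dvd_minor {d : ℕ} (B : Matrix (Fin d) (Fin d) ℤ) (hB : B.det ≠ 0)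
    (Xm : Matrix (Fin 2) (Fin d) ℤ) (Ym : Matrix (Fin d) (Fin 2) ℤ) :
    B.det ∣ (Xm * B.adjugate * Ym).det := by
  set φ := Int.castRingHom ℚ
  have hq : ((B.det : ℤ) : ℚ) ≠ 0 := by exact_mod_cast hB
  have hdet : (B.map φ).det = (B.det : ℚ) := by
    rw [← RingHom.mapMatrix_apply, ← RingHom.map_det]; rfl
  have h1 := Matrix.det_add_mul (A := B.map φ) (Ym.map φ) (Xm.map φ)
    (by rw [hdet]; exact isUnit_iff_ne_zero.2 hq)
  have hadj : (B.map φ).adjugate = B.adjugate.map φ := by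
    rw [← RingHom.mapMatrix_apply, ← RingHom.map_adjugate]; rfl
  have h2 : Xm.map φ * (B.map φ)⁻¹ * Ym.map φ
      = (B.det : ℚ)⁻¹ • (Xm * B.adjugate * Ym).map φ := by
    rw [Matrix.inv_def, hdet, hadj, Ring.inverse_eq_inv', Matrix.map_mul, Matrix.map_mul,
      Matrix.mul_smul, Matrix.smul_mul]
  have h3 : (B.map φ + Ym.map φ * Xm.map φ).det = ((B + Ym * Xm).det : ℚ) := by
    rw [← Matrix.map_mul, ← Matrix.map_add _ (map_add φ), ← RingHom.mapMatrix_apply,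
      ← RingHom.map_det]; rfl
  rw [h2, h3, hdet] at h1
  set N := Xm * B.adjugate * Ym
  refine ⟨(B + Ym * Xm).det - B.det - N 0 0 - N 1 1, ?_⟩
  have : ((N.det : ℤ) : ℚ) = B.det * ((B + Ym * Xm).det - B.det - N 0 0 - N 1 1) := by
    rw [h1, Matrix.det_fin_two, Matrix.det_fin_two]
    simp [φ]
    field_simp
    ring
  exact_mod_cast this

end Pool.Agent.Work.MP_51e72e_nt.Deg
end

-- merged part: Pool.Agent.Work.MP_51e72e_nt.DegAlg
section
/-!
Algebraic properties of the generators of the ideals attached to roots of a congruence.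
-/

set_option autoImplicit false

namespace Pool.Agent.Work.MP_51e72e_nt.Deg

open Finset Polynomial

lemma sum_crd {S T : Type*} [CommRing S] [CommRing T] (φ : S →+* T) {F : ℤ[X]} {e : ℕ}
    (hm : F.Monic) (hd : F.natDegree = e + 2) (g : S[X]) (z : T)
    (hz : F.eval₂ (Int.castRingHom T) z = 0) :
    ∑ j : Fin (e + 2), φ (crd F e g j) * z ^ j.val = g.eval₂ φ z := by
  rcases subsingleton_or_nontrivial T with hT | hT
  · exact Subsingleton.elim _ _
  have : Nontrivial S := φ.domain_nontrivial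
  have hm' : (F.map (Int.castRingHom S)).Monic := hm.map _
  have hd' : (F.map (Int.castRingHom S)).natDegree = e + 2 := by rw [hm.natDegree_map, hd]
  have hz' : (F.map (Int.castRingHom S)).eval₂ φ z = 0 := by
    rw [eval₂_map, RingHom.ext_int (φ.comp (Int.castRingHom S)) (Int.castRingHom T), hz]
  rw [← eval₂_modByMonic_eq_self_of_root (p := g) hz']
  have hlt : (g %ₘ F.map (Int.castRingHom S)).natDegree < e + 2 := by
    rw [← hd']
    refine natDegree_modByMonic_lt g hm' ?_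
    intro h1
    rw [h1, natDegree_one] at hd'
    omega
  rw [eval₂_eq_sum_range' φ hlt, ← Fin.sum_univ_eq_sum_range
    (fun i => φ ((g %ₘ F.map (Int.castRingHom S)).coeff i) * z ^ i)]
  rfl

lemma chi_monic (F : ℤ[X]) {e : ℕ} (b : Fin (e + 1) → ℤ) :
    (chi F b).Monic ∧ (chi F b).natDegree = e + 2 :=
  ⟨Matrix.charpoly_monic _, by simp [chi, Matrix.charpoly_natDegree_eq_dim]⟩

lemma eval₂_uU {T : Type*} [CommRing T] {F : ℤ[X]} {e : ℕ} (hm : F.Monic)
    (hd : F.natDegree = e + 2) (b : Fin (e + 1) → ℤ) (z : T)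
    (hz : F.eval₂ (Int.castRingHom T) z = 0) :
    (uU F b).eval₂ (Int.castRingHom T) ((bet b).eval₂ (Int.castRingHom T) z)
      = ((rR F b : ℤ) : T) * z := by
  set φ := Int.castRingHom T
  have h1 : ∀ i : Fin (e + 2), ((bet b).eval₂ φ z) ^ i.val
      = ∑ j : Fin (e + 2), φ (Bm F b i j) * z ^ j.val := by
    intro i
    rw [← eval₂_pow, ← sum_crd φ hm hd _ z hz]
    rfl
  have h2 : ∀ j : Fin (e + 2), ∑ i, (Bm F b).adjugate 1 i * Bm F b i j
      = if j = 1 then rR F b else 0 := by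
    intro j
    have := congrFun (congrFun (Matrix.adjugate_mul (Bm F b)) 1) j
    rw [Matrix.mul_apply] at this
    rw [this, Matrix.smul_apply, Matrix.one_apply, rR]
    by_cases h : j = 1
    · simp [h]
    · simp [h, Ne.symm h]
  simp only [uU, eval₂_finsetSum, eval₂_mul, eval₂_C, eval₂_X_pow, h1, Finset.mul_sum]
  rw [Finset.sum_comm]
  have h3 : ∀ j : Fin (e + 2), ∑ i, φ ((Bm F b).adjugate 1 i) * (φ (Bm F b i j) * z ^ j.val)
      = φ (if j = 1 then rR F b else 0) * z ^ j.val := by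
    intro j
    rw [← h2, map_sum, Finset.sum_mul]
    exact Finset.sum_congr rfl fun i _ => by rw [map_mul, mul_assoc]
  simp only [h3]
  rw [Finset.sum_eq_single 1]
  · simp [φ]
  · intro j _ hj
    simp [hj]
  · simp

lemma eval₂_chi {T : Type*} [CommRing T] {F : ℤ[X]} {e : ℕ} (hm : F.Monic)
    (hd : F.natDegree = e + 2) (b : Fin (e + 1) → ℤ) (z : T)
    (hz : F.eval₂ (Int.castRingHom T) z = 0) :
    (chi F b).eval₂ (Int.castRingHom T) ((bet b).eval₂ (Int.castRingHom T) z) = 0 := by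
  set φ := Int.castRingHom T
  set β := (bet b).eval₂ φ z
  set M : Matrix (Fin (e + 2)) (Fin (e + 2)) ℤ :=
    Matrix.of fun i : Fin (e + 2) => crd F e (X ^ i.val * bet b)
  rw [eval₂_eq_eval_map, chi, ← Matrix.charpoly_map, Matrix.eval_charpoly]
  set N := Matrix.scalar (Fin (e + 2)) β - M.map φ
  have hv : N.mulVec (fun j => z ^ j.val) = 0 := by
    funext i
    have h1 := sum_crd φ hm hd (X ^ i.val * bet b) z hz
    rw [eval₂_mul, eval₂_X_pow] at h1
    rw [Matrix.sub_mulVec, Pi.sub_apply, Matrix.scalar_apply, Matrix.mulVec_diagonal]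
    have : (M.map φ).mulVec (fun j => z ^ j.val) i = z ^ i.val * β := by
      rw [← h1]; rfl
    rw [this, mul_comm, sub_self, Pi.zero_apply]
  have h2 : N.adjugate.mulVec (N.mulVec (fun j => z ^ j.val)) = 0 := by
    rw [hv, Matrix.mulVec_zero]
  rw [Matrix.mulVec_mulVec, Matrix.adjugate_mul, Matrix.smul_mulVec, Matrix.one_mulVec] at h2
  simpa using congrFun h2 0

lemma eq_zero_of_root {F : ℤ[X]} {p : ℤ[X]} (hp : p.natDegree < F.natDegree)
    (h : p.eval₂ (Int.castRingHom (AdjoinRoot F)) (AdjoinRoot.root F) = 0) : p = 0 := by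
  have h1 : AdjoinRoot.mk F p = 0 := by
    rw [← AdjoinRoot.aeval_eq, aeval_def, ← h]
    congr 1
  rw [AdjoinRoot.mk_eq_zero] at h1
  by_contra h0
  exact absurd (natDegree_le_of_dvd h1 h0) (not_le.2 hp)

lemma root_zero (F : ℤ[X]) :
    F.eval₂ (Int.castRingHom (AdjoinRoot F)) (AdjoinRoot.root F) = 0 := by
  rw [← AdjoinRoot.eval₂_root F]
  congr 1

lemma natDegree_vec_lt {e : ℕ} (w : Fin (e + 2) → ℤ) :
    (∑ i, C (w i) * X ^ i.val : ℤ[X]).natDegree < e + 2 := by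
  refine Nat.lt_succ_of_le (natDegree_sum_le_of_forall_le _ _ fun i _ =>
    (natDegree_C_mul_X_pow_le _ _).trans ?_)
  have := i.isLt
  omega

lemma coeff_vec {n : ℕ} (w : Fin n → ℤ) (j : Fin n) :
    (∑ i, C (w i) * X ^ i.val : ℤ[X]).coeff j.val = w j := by
  simp only [finsetSum_coeff, coeff_C_mul_X_pow]
  rw [Finset.sum_eq_single j]
  · simp
  · intro i _ hi
    rw [if_neg fun h => hi (Fin.ext h).symm]
  · simp

lemma indep {F : ℤ[X]} {e : ℕ} (hd : F.natDegree = e + 2) (w : Fin (e + 2) → ℤ)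
    (h : ∑ i, (w i : AdjoinRoot F) * AdjoinRoot.root F ^ i.val = 0) : w = 0 := by
  have h1 := eq_zero_of_root (p := ∑ i, C (w i) * X ^ i.val) (by rw [hd]; exact natDegree_vec_lt w)
    (by simp only [eval₂_finsetSum, eval₂_mul, eval₂_C, eval₂_X_pow]; exact h)
  funext j
  rw [← coeff_vec w j, h1]
  simp

lemma coeff_bet_zero {e : ℕ} (b : Fin (e + 1) → ℤ) : (bet b).coeff 0 = 0 := by
  simp [bet, coeff_X_pow]

lemma coeff_bet_succ {e : ℕ} (b : Fin (e + 1) → ℤ) (j : Fin (e + 1)) :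
    (bet b).coeff (j.val + 1) = b j := by
  simp only [bet, finsetSum_coeff, coeff_C_mul_X_pow]
  rw [Finset.sum_eq_single j]
  · simp
  · intro i _ hi
    rw [if_neg fun h => hi (Fin.ext (by omega))]
  · simp

lemma chi_ne_zero {F : ℤ[X]} {e : ℕ} (hF : Irreducible F) (hm : F.Monic)
    (hd : F.natDegree = e + 2) (a : ℤ) (b : Fin (e + 1) → ℤ) (hab : ¬ (a = 0 ∧ b = 0)) :
    (chi F b).eval a ≠ 0 := by
  intro h0
  rw [chi, Matrix.eval_charpoly, ← Matrix.exists_vecMul_eq_zero_iff] at h0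
  obtain ⟨w, hw, h1⟩ := h0
  have : IsDomain (AdjoinRoot F) := AdjoinRoot.isDomain_of_prime hF.prime
  set φ := Int.castRingHom (AdjoinRoot F)
  set z := AdjoinRoot.root F
  have hz := root_zero F
  have h2 : ∀ j, w j * a = ∑ i, w i * crd F e (X ^ i.val * bet b) j := by
    intro j
    have := congrFun h1 j
    rw [Matrix.vecMul_sub, Pi.sub_apply, Matrix.scalar_apply, Matrix.vecMul_diagonal,
      Pi.zero_apply, sub_eq_zero] at this
    exact this
  have h3 : (∑ i, (w i : AdjoinRoot F) * z ^ i.val) * ((C a - bet b).eval₂ φ z) = 0 := by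
    rw [eval₂_sub, eval₂_C, mul_sub, sub_eq_zero, Finset.sum_mul, Finset.sum_mul]
    have h4 : ∀ i : Fin (e + 2), (w i : AdjoinRoot F) * z ^ i.val * (bet b).eval₂ φ z
        = ∑ j, φ (w i * crd F e (X ^ i.val * bet b) j) * z ^ j.val := by
      intro i
      have := sum_crd φ hm hd (X ^ i.val * bet b) z hz
      rw [eval₂_mul, eval₂_X_pow] at this
      rw [mul_assoc, ← this, Finset.mul_sum]
      exact Finset.sum_congr rfl fun j _ => by simp [φ, mul_assoc]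
    simp only [h4]
    rw [Finset.sum_comm]
    refine Finset.sum_congr rfl fun j _ => ?_
    rw [← Finset.sum_mul, ← map_sum, ← h2]
    simp only [φ, eq_intCast, Int.cast_mul]
    ring
  rcases mul_eq_zero.1 h3 with h | h
  · exact hw (indep hd w h)
  · have hdeg : (C a - bet b).natDegree < F.natDegree := by
      rw [hd]
      refine Nat.lt_succ_of_le ((natDegree_sub_le _ _).trans (max_le ?_ (natDegree_bet_le b)))
      simp
    have h5 := eq_zero_of_root hdeg h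
    apply hab
    constructor
    · have := congrArg (fun p => p.coeff 0) h5
      simpa [coeff_bet_zero] using this
    · funext j
      have := congrArg (fun p => p.coeff (j.val + 1)) h5
      simp only [coeff_sub, coeff_bet_succ, coeff_C_succ, coeff_zero] at this
      simpa using this

theorem exists_alpha {F : ℤ[X]} {e : ℕ} (hF : Irreducible F) (hm : F.Monic)
    (hd : F.natDegree = e + 2) (m : ℕ) (hm0 : 0 < m) (ρ : ℤ) (hρ : (m : ℤ) ∣ F.eval ρ) (A : ℕ)
    (hA : m ≤ A ^ (e + 2)) : ∃ (a : ℤ) (b : Fin (e + 1) → ℤ), |a| ≤ A ∧ b ∈ box e A ∧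
      (chi F b).eval a ≠ 0 ∧ (m : ℤ) ∣ (chi F b).eval a ∧
      (m : ℤ) ∣ rR F b * ρ - (uU F b).eval a := by
  have : NeZero m := ⟨hm0.ne'⟩
  set φ := Int.castRingHom (ZMod m)
  set s : Finset (ℤ × (Fin (e + 1) → ℤ)) :=
    Icc (0 : ℤ) A ×ˢ Fintype.piFinset fun _ => Icc (0 : ℤ) A
  have hcard : (univ : Finset (ZMod m)).card < s.card := by
    have : s.card = (A + 1) ^ (e + 2) := by
      simp only [s, card_product, Fintype.card_piFinset, Int.card_Icc, prod_const, card_univ,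
        Fintype.card_fin]
      have : ((A : ℤ) + 1 - 0).toNat = A + 1 := by omega
      rw [this]; ring
    rw [this, card_univ, ZMod.card]
    exact hA.trans_lt (Nat.pow_lt_pow_left (Nat.lt_succ_self A) (by omega))
  obtain ⟨x, hx, y, hy, hxy, h⟩ := Finset.exists_ne_map_eq_of_card_lt_of_maps_to hcard
    (f := fun x => (((bet x.2).eval ρ - x.1 : ℤ) : ZMod m)) (fun _ _ => mem_univ _)
  simp only [s, mem_product, mem_Icc, Fintype.mem_piFinset] at hx hy
  set a := x.1 - y.1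
  set b := x.2 - y.2
  have hbet : bet b = bet x.2 - bet y.2 := by
    simp only [bet, b, ← Finset.sum_sub_distrib, Pi.sub_apply, C_sub, sub_mul]
  have hz : F.eval₂ φ (ρ : ZMod m) = 0 := by
    have := eval₂_at_apply (p := F) φ ρ
    simp only [φ, eq_intCast] at this
    rw [this]
    exact (ZMod.intCast_zmod_eq_zero_iff_dvd _ _).2 hρ
  have hβ : (bet b).eval₂ φ (ρ : ZMod m) = (a : ZMod m) := by
    have := eval₂_at_apply (p := bet b) φ ρ
    simp only [φ, eq_intCast] at this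
    rw [this, hbet, eval_sub]
    simp only [a] at h ⊢
    push_cast at h ⊢
    linear_combination h
  have hev : ∀ p : ℤ[X], p.eval₂ φ (a : ZMod m) = ((p.eval a : ℤ) : ZMod m) := by
    intro p
    have := eval₂_at_apply (p := p) φ a
    simpa only [φ, eq_intCast] using this
  refine ⟨a, b, ?_, ?_, chi_ne_zero hF hm hd a b ?_, ?_, ?_⟩
  · rw [abs_le]; constructor <;> simp only [a] <;> omega
  · refine Fintype.mem_piFinset.2 fun i => ?_
    have h1 := hx.2 i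
    have h2 := hy.2 i
    simp only [b, mem_Icc, Pi.sub_apply]
    omega
  · rintro ⟨h1, h2⟩
    exact hxy (Prod.ext (sub_eq_zero.1 h1) (sub_eq_zero.1 h2))
  · have := eval₂_chi hm hd b _ hz
    rw [hβ, hev] at this
    exact (ZMod.intCast_zmod_eq_zero_iff_dvd _ _).1 this
  · have := eval₂_uU hm hd b _ hz
    rw [hβ, hev] at this
    refine (ZMod.intCast_zmod_eq_zero_iff_dvd _ _).1 ?_
    push_cast
    rw [this, sub_self]

theorem size_bound {F : ℤ[X]} (hm : F.Monic) (e : ℕ) : ∃ K : ℕ, ∀ A : ℕ, 1 ≤ A → ∀ a : ℤ, |a| ≤ A →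
    ∀ b ∈ box e A, |(chi F b).eval a| ≤ K * A ^ (e + 2) ∧
      |(uU F b).eval a| ≤ K * A ^ (2 * (e + 2) ^ 2) ∧ |rR F b| ≤ K * A ^ (2 * (e + 2) ^ 2) := by
  have _ := hm
  have h1 : PB e (e + 2) (fun a b => (chi F b).eval a) := by
    simp only [chi, Matrix.eval_charpoly]
    have := PB.det (e := e) (n := 1) (fun a b => Matrix.scalar (Fin (e + 2)) a -
      Matrix.of fun i : Fin (e + 2) => crd F e (X ^ i.val * bet b)) fun i j => ?_
    · simpa using this
    · simp only [Matrix.sub_apply, Matrix.of_apply, Matrix.scalar_apply, Matrix.diagonal_apply]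
      refine PB.sub ?_ (PB_M F e i j)
      split_ifs
      · exact PB.fst e
      · exact (PB.const e 0).mono (Nat.zero_le _)
  have h2 : PB e (2 * (e + 2) ^ 2) (fun a b => (uU F b).eval a) := by
    simp only [uU, eval_finsetSum, eval_mul, eval_C, eval_pow, eval_X]
    refine PB.sum _ _ fun i _ => ?_
    refine ((PB.adj (fun _ b => Bm F b) (PB_Bm F e) 1 i).mul ((PB.fst e).pow i.val)).mono ?_
    have := i.isLt
    linarith only [this, sq_nonneg (↑e + (2 : ℤ))]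
  have h3 : PB e (2 * (e + 2) ^ 2) (fun _ b => rR F b) :=
    (PB.det (fun _ b => Bm F b) (PB_Bm F e)).mono (by nlinarith)
  obtain ⟨K1, h1⟩ := h1
  obtain ⟨K2, h2⟩ := h2
  obtain ⟨K3, h3⟩ := h3
  refine ⟨K1 + K2 + K3, fun A hA a ha b hb => ⟨(h1 A hA a ha b hb).trans ?_,
    (h2 A hA a ha b hb).trans ?_, (h3 A hA a ha b hb).trans ?_⟩⟩ <;>
  exact mul_le_mul_of_nonneg_right (by push_cast; omega) (by positivity)

theorem single_pole {F : ℤ[X]} {e : ℕ} (hm : F.Monic) (hd : F.natDegree = e + 2)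
    (b : Fin (e + 1) → ℤ) (hR : rR F b ≠ 0) : ∃ V : ℤ[X],
    (C (t0 F b) * X - C (t1 F b)) * uU F b = C (t0 F b ^ 2) * chi F b + C (rR F b) * V := by
  set G := (C (t0 F b) * X - C (t1 F b)) * uU F b - C (t0 F b ^ 2) * chi F b with hG
  have hU : (uU F b).natDegree ≤ e + 1 := Nat.le_of_lt_succ (natDegree_vec_lt _)
  have hU1 : (uU F b).coeff (e + 1) = t0 F b := coeff_vec _ (Fin.last (e + 1))
  obtain ⟨hc1, hc2⟩ := chi_monic F b
  have hGd : G.natDegree < e + 2 := by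
    refine Nat.lt_succ_of_le (natDegree_le_iff_coeff_eq_zero.2 fun N hN => ?_)
    obtain ⟨k, rfl⟩ : ∃ k, N = k + 1 := ⟨N - 1, by omega⟩
    rw [hG, sub_mul, mul_assoc, coeff_sub, coeff_sub, coeff_C_mul, coeff_C_mul, coeff_C_mul,
      coeff_X_mul, coeff_eq_zero_of_natDegree_lt (p := uU F b) (n := k + 1) (by omega)]
    rcases eq_or_lt_of_le (show e + 1 ≤ k by omega) with h | h
    · have : (chi F b).coeff (k + 1) = 1 := by
        rw [← h, show e + 1 + 1 = (chi F b).natDegree from hc2.symm]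
        exact hc1
      rw [this, ← h, hU1]; ring
    · rw [coeff_eq_zero_of_natDegree_lt (p := uU F b) (by omega),
        coeff_eq_zero_of_natDegree_lt (p := chi F b) (by omega)]
      ring
  set φ := Int.castRingHom (AdjoinRoot F)
  set z := AdjoinRoot.root F
  have hz := root_zero F
  set β := (bet b).eval₂ φ z
  set g : Fin (e + 2) → ℤ := fun j => G.coeff j.val
  set c1 : Fin (e + 2) → ℤ := crd F e (X * bet b)
  set u : Fin (e + 2) → ℤ := t0 F b • c1 - t1 F b • Pi.single 1 1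
  have hGs : G = ∑ j, C (g j) * X ^ j.val := by
    rw [Fin.sum_univ_eq_sum_range (fun j => C (G.coeff j) * X ^ j)]
    exact G.as_sum_range_C_mul_X_pow' hGd
  have e1 : G.eval₂ φ β = ((rR F b : ℤ) : AdjoinRoot F) * ((t0 F b : ℤ) * (z * β) - t1 F b * z) := by
    rw [hG, eval₂_sub, eval₂_mul, eval₂_mul (p := C _), eval₂_chi hm hd b z hz,
      eval₂_uU hm hd b z hz]
    simp only [eval₂_sub, eval₂_mul, eval₂_C, eval₂_X]
    simp only [φ, eq_intCast]
    ring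
  have e2 : G.eval₂ φ β = ∑ k, ((Matrix.vecMul g (Bm F b) k : ℤ) : AdjoinRoot F) * z ^ k.val := by
    have h1 : ∀ i : Fin (e + 2), β ^ i.val = ∑ j : Fin (e + 2), φ (Bm F b i j) * z ^ j.val := by
      intro i
      rw [← eval₂_pow, ← sum_crd φ hm hd _ z hz]
      rfl
    conv_lhs => rw [hGs]
    simp only [eval₂_finsetSum, eval₂_mul, eval₂_C, eval₂_X_pow, h1, Finset.mul_sum]
    rw [Finset.sum_comm]
    refine Finset.sum_congr rfl fun k _ => ?_
    simp only [Matrix.vecMul, dotProduct, φ, eq_intCast]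
    push_cast
    rw [Finset.sum_mul]
    exact Finset.sum_congr rfl fun i _ => by ring
  have e3 : ∑ k, ((u k : ℤ) : AdjoinRoot F) * z ^ k.val = (t0 F b : ℤ) * (z * β) - t1 F b * z := by
    have h1 := sum_crd φ hm hd (X * bet b) z hz
    rw [eval₂_mul, eval₂_X] at h1
    have h2 : ∑ k : Fin (e + 2), (((Pi.single 1 1 : Fin (e + 2) → ℤ) k : ℤ) : AdjoinRoot F)
        * z ^ k.val = z := by
      rw [Finset.sum_eq_single 1]
      · simp
      · intro j _ hj
        simp [hj]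
      · simp
    rw [← h1, ← congrArg (fun t => (t1 F b : AdjoinRoot F) * t) h2]
    simp only [Finset.mul_sum, ← Finset.sum_sub_distrib]
    refine Finset.sum_congr rfl fun k _ => ?_
    simp only [u, c1, Pi.sub_apply, Pi.smul_apply, smul_eq_mul, φ, eq_intCast]
    push_cast
    ring
  have e4 : Matrix.vecMul g (Bm F b) = rR F b • u := by
    rw [← sub_eq_zero]
    refine indep hd _ ?_
    have : ∑ k, ((Matrix.vecMul g (Bm F b) k : ℤ) : AdjoinRoot F) * z ^ k.val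
        - ((rR F b : ℤ) : AdjoinRoot F) * ∑ k, ((u k : ℤ) : AdjoinRoot F) * z ^ k.val = 0 := by
      rw [← e2, e1, e3, sub_self]
    rw [← this, Finset.mul_sum, ← Finset.sum_sub_distrib]
    refine Finset.sum_congr rfl fun k _ => ?_
    simp only [Pi.sub_apply, Pi.smul_apply, smul_eq_mul]
    push_cast
    ring
  have e5 : g = Matrix.vecMul u (Bm F b).adjugate := by
    have h1 := congrArg (fun v => Matrix.vecMul v (Bm F b).adjugate) e4
    simp only [Matrix.vecMul_vecMul, Matrix.mul_adjugate, Matrix.smul_vecMul,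
      Matrix.vecMul_smul, Matrix.vecMul_one] at h1
    funext j
    have h2 := congrFun h1 j
    simp only [Pi.smul_apply, smul_eq_mul] at h2
    exact mul_left_cancel₀ hR h2
  have e6 : ∀ j, rR F b ∣ g j := by
    intro j
    set Xm : Fin 2 → Fin (e + 2) → ℤ := ![Pi.single 1 1, c1]
    set Ym : Fin 2 → Fin (e + 2) → ℤ := ![Pi.single (Fin.last _) 1, Pi.single j 1]
    have h1 := det_dvd_minor (Bm F b) hR (Matrix.of Xm) (Matrix.of Ym).transpose
    have h2 : ∀ (v : Fin (e + 2) → ℤ) (k : Fin (e + 2)),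
        Matrix.vecMul v (Bm F b).adjugate ⬝ᵥ Pi.single k 1
          = Matrix.vecMul v (Bm F b).adjugate k := by
      intro v k
      simp
    have h3 : ∀ r s : Fin 2, (Matrix.of Xm * (Bm F b).adjugate * (Matrix.of Ym).transpose) r s
        = Matrix.vecMul (Xm r) (Bm F b).adjugate ⬝ᵥ Ym s := fun r s => rfl
    rw [Matrix.det_fin_two, h3, h3, h3, h3] at h1
    simp only [Xm, Ym, Matrix.cons_val_zero, Matrix.cons_val_one, Matrix.cons_val_fin_one,
      h2] at h1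
    have h4 : t1 F b = Matrix.vecMul c1 (Bm F b).adjugate (Fin.last _) := rfl
    have h5 : t0 F b = Matrix.vecMul (Pi.single 1 1) (Bm F b).adjugate (Fin.last _) := by
      simp [t0]
    rw [← h4, ← h5] at h1
    rw [e5]
    simp only [u, Matrix.sub_vecMul, Matrix.smul_vecMul, Pi.sub_apply, Pi.smul_apply, smul_eq_mul]
    rwa [mul_comm (t1 F b)]
  choose v hv using e6
  refine ⟨∑ j, C (v j) * X ^ j.val, ?_⟩
  rw [← sub_eq_iff_eq_add', ← hG, hGs, Finset.mul_sum]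
  exact Finset.sum_congr rfl fun j _ => by rw [hv j, C_mul, mul_assoc]

theorem exists_monic (f : ℤ[X]) (hf : Irreducible f) (hd : 0 < f.natDegree) :
    ∃ F : ℤ[X], Irreducible F ∧ F.Monic ∧ F.natDegree = f.natDegree ∧
      ∀ x : ℤ, F.eval (f.leadingCoeff * x) = f.leadingCoeff ^ (f.natDegree - 1) * f.eval x := by
  have h0 : f ≠ 0 := hf.ne_zero
  have hmon := monic_integralNormalization h0
  refine ⟨integralNormalization f, ?_, hmon, natDegree_integralNormalization, fun x => ?_⟩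
  · rw [IsPrimitive.Int.irreducible_iff_irreducible_map_cast hmon.isPrimitive]
    have h1 := (IsPrimitive.Int.irreducible_iff_irreducible_map_cast
      (hf.isPrimitive hd.ne')).1 hf
    set φ := Int.castRingHom ℚ
    have hl : φ f.leadingCoeff ≠ 0 := by simpa [φ] using h0
    let : Invertible (φ f.leadingCoeff)⁻¹ := invertibleOfNonzero (inv_ne_zero hl)
    have h2 : Irreducible (algEquivCMulXAddC (φ f.leadingCoeff)⁻¹ 0 (f.map φ)) :=
      (MulEquiv.irreducible_iff _).2 h1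
    have h3 : (integralNormalization f).map φ = C (φ f.leadingCoeff ^ (f.natDegree - 1)) *
        algEquivCMulXAddC (φ f.leadingCoeff)⁻¹ 0 (f.map φ) := by
      refine Polynomial.funext fun x => ?_
      have := integralNormalization_eval₂_leadingCoeff_mul (p := f) hd φ ((φ f.leadingCoeff)⁻¹ * x)
      rw [mul_inv_cancel_left₀ hl] at this
      rw [eval_map, this, eval_mul, eval_C, algEquivCMulXAddC_apply, ← comp_eq_aeval, eval_comp,
        eval_map]
      simp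
    rw [h3]
    exact (irreducible_isUnit_mul (isUnit_C.2 (isUnit_iff_ne_zero.2 (pow_ne_zero _ hl)))).2 h2
  · exact integralNormalization_eval₂_leadingCoeff_mul (p := f) hd (RingHom.id ℤ) x

lemma exists_den (P : ℤ[X]) (k a0 : ℤ) (h : k ∣ P.eval a0) :
    ∃ Den : ℤ[X], C k * Den = P.comp (C |k| * X + C a0) := by
  have h1 := sub_dvd_eval_sub (C |k| * X + C a0) (C a0) (P.map C)
  have h2 : C k ∣ C |k| * X + C a0 - C a0 := by
    rw [add_sub_cancel_right]
    exact (map_dvd C (self_dvd_abs k)).mul_right _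
  have h3 : (P.map C).eval (C a0) = C (P.eval a0) := by
    rw [eval_map, eval₂_at_apply]
  have h4 : (P.map C).eval (C |k| * X + C a0) = P.comp (C |k| * X + C a0) := by
    rw [eval_map]; rfl
  rw [h3, h4] at h1
  obtain ⟨D, hD⟩ := (dvd_sub_left (map_dvd C h)).1 (h2.trans h1)
  exact ⟨D, hD.symm⟩

end Pool.Agent.Work.MP_51e72e_nt.Deg
end

-- merged part: Pool.Agent.Work.MP_51e72e_nt.DegRes1
section
/-!
Functoriality of the index form and its expression through the roots.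
-/

set_option autoImplicit false

namespace Pool.Agent.Work.MP_51e72e_nt.Deg

open Finset Polynomial Matrix

section map
variable {S T : Type*} [CommRing S] [CommRing T]

lemma res_map_crd (φ : S →+* T) {F : ℤ[X]} (hm : F.Monic) (e : ℕ) (g : S[X]) (j : Fin (e + 2)) :
    φ (crd F e g j) = crd F e (g.map φ) j := by
  unfold crd
  rw [← coeff_map, map_modByMonic φ (hm.map _), Polynomial.map_map]
  congr 3
  exact RingHom.ext_int _ _

lemma res_map_bet (φ : S →+* T) {e : ℕ} (b : Fin (e + 1) → S) :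
    (bet b).map φ = bet fun i => φ (b i) := by
  simp [bet, Polynomial.map_sum]

lemma res_map_Bm (φ : S →+* T) {F : ℤ[X]} (hm : F.Monic) {e : ℕ} (b : Fin (e + 1) → S) :
    φ.mapMatrix (Bm F b) = Bm F fun i => φ (b i) := by
  ext i j
  simp only [Bm, RingHom.mapMatrix_apply, Matrix.map_apply, Matrix.of_apply]
  rw [res_map_crd φ hm, Polynomial.map_pow, res_map_bet]

lemma res_map_rR (φ : S →+* T) {F : ℤ[X]} (hm : F.Monic) {e : ℕ} (b : Fin (e + 1) → S) :
    φ (rR F b) = rR F fun i => φ (b i) := by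
  rw [rR, RingHom.map_det, res_map_Bm φ hm, rR]

lemma res_map_t0 (φ : S →+* T) {F : ℤ[X]} (hm : F.Monic) {e : ℕ} (b : Fin (e + 1) → S) :
    φ (t0 F b) = t0 F fun i => φ (b i) := by
  rw [t0, t0, ← res_map_Bm φ hm, ← RingHom.map_adjugate]
  rfl

/-- coefficient vector with generic first entry -/
noncomputable def resV {e : ℕ} (b : Fin e → S) : Fin (e + 1) → S[X] :=
  Fin.cons X fun i => C (b i)

lemma resV_eval {e : ℕ} (b : Fin e → S) (x : S) :
    (fun i => evalRingHom x (resV b i)) = Fin.cons x b := by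
  funext i
  refine Fin.cases ?_ (fun i => ?_) i <;> simp [resV]

lemma resV_map (φ : S →+* T) {e : ℕ} (b : Fin e → S) :
    (fun i => mapRingHom φ (resV b i)) = resV fun i => φ (b i) := by
  funext i
  refine Fin.cases ?_ (fun i => ?_) i <;> simp [resV]

lemma res_eval_rR {F : ℤ[X]} (hm : F.Monic) {e : ℕ} (b : Fin e → S) (x : S) :
    (rR F (resV b)).eval x = rR F (Fin.cons x b : Fin (e + 1) → S) := by
  rw [← resV_eval, ← res_map_rR _ hm, coe_evalRingHom]

lemma res_eval_t0 {F : ℤ[X]} (hm : F.Monic) {e : ℕ} (b : Fin e → S) (x : S) :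
    (t0 F (resV b)).eval x = t0 F (Fin.cons x b : Fin (e + 1) → S) := by
  rw [← resV_eval, ← res_map_t0 _ hm, coe_evalRingHom]

lemma res_mapP_rR (φ : S →+* T) {F : ℤ[X]} (hm : F.Monic) {e : ℕ} (b : Fin e → S) :
    (rR F (resV b)).map φ = rR F (resV fun i => φ (b i)) := by
  rw [← resV_map, ← res_map_rR _ hm, coe_mapRingHom]

lemma res_mapP_t0 (φ : S →+* T) {F : ℤ[X]} (hm : F.Monic) {e : ℕ} (b : Fin e → S) :
    (t0 F (resV b)).map φ = t0 F (resV fun i => φ (b i)) := by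
  rw [← resV_map, ← res_map_t0 _ hm, coe_mapRingHom]

lemma res_Bm_mul {F : ℤ[X]} {e : ℕ} (hm : F.Monic) (hd : F.natDegree = e + 2)
    (th : Fin (e + 2) → S) (hth : ∀ k, F.eval₂ (Int.castRingHom S) (th k) = 0)
    (b : Fin (e + 1) → S) :
    Bm F b * (vandermonde th)ᵀ = (vandermonde fun k => (bet b).eval (th k))ᵀ := by
  ext i k
  have := sum_crd (RingHom.id S) hm hd (bet b ^ i.val) (th k) (hth k)
  simp only [RingHom.id_apply, eval₂_id, eval_pow] at this
  simp only [Matrix.mul_apply, Bm, Matrix.of_apply, transpose_apply, vandermonde_apply]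
  exact this

lemma res_rR_mul {F : ℤ[X]} {e : ℕ} (hm : F.Monic) (hd : F.natDegree = e + 2)
    (th : Fin (e + 2) → S) (hth : ∀ k, F.eval₂ (Int.castRingHom S) (th k) = 0)
    (b : Fin (e + 1) → S) :
    rR F b * ∏ i, ∏ j ∈ Ioi i, (th j - th i) =
      ∏ i, ∏ j ∈ Ioi i, ((bet b).eval (th j) - (bet b).eval (th i)) := by
  have := congrArg det (res_Bm_mul hm hd th hth b)
  rwa [det_mul, det_transpose, det_transpose, det_vandermonde, det_vandermonde] at this

lemma res_t0_mul {F : ℤ[X]} {e : ℕ} (hm : F.Monic) (hd : F.natDegree = e + 2)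
    (th : Fin (e + 2) → S) (hth : ∀ k, F.eval₂ (Int.castRingHom S) (th k) = 0)
    (b : Fin (e + 1) → S) :
    t0 F b * (vandermonde th).det =
      (updateRow (vandermonde fun k => (bet b).eval (th k))ᵀ (Fin.last _) th).det := by
  rw [t0, adjugate_apply, ← det_transpose (vandermonde th), ← det_mul, updateRow_mul,
    res_Bm_mul hm hd th hth]
  congr 2
  funext k
  simp [single_vecMul]

lemma res_eval_bet {e : ℕ} (x : S) (b : Fin e → S) (z : S) :
    (bet (Fin.cons x b : Fin (e + 1) → S)).eval z = x * z + ∑ l, b l * z ^ (l.val + 2) := by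
  simp [bet, Fin.sum_univ_succ, eval_finsetSum]

end map

lemma res_roots {F : ℤ[X]} {d : ℕ} (hF : Irreducible F) (hm : F.Monic) (hd : F.natDegree = d) :
    ∃ th : Fin d → ℂ, Function.Injective th ∧ ∀ k, F.eval₂ (Int.castRingHom ℂ) (th k) = 0 := by
  have h1 : Irreducible (F.map (algebraMap ℤ ℚ)) :=
    (hm.irreducible_iff_irreducible_map_fraction_map (K := ℚ)).1 hF
  have h2 : (F.map (Int.castRingHom ℂ)).Separable := by
    have := h1.separable.map (f := algebraMap ℚ ℂ)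
    rwa [Polynomial.map_map, RingHom.ext_int ((algebraMap ℚ ℂ).comp _) (Int.castRingHom ℂ)]
      at this
  have h3 : (F.map (Int.castRingHom ℂ)).roots.toFinset.card = d := by
    rw [Multiset.toFinset_card_of_nodup (nodup_roots h2), IsAlgClosed.card_roots_eq_natDegree,
      hm.natDegree_map, hd]
  refine ⟨fun k => ((equivFinOfCardEq h3).symm k : ℂ), fun k l h =>
    (equivFinOfCardEq h3).symm.injective (Subtype.ext h), fun k => ?_⟩
  have := ((equivFinOfCardEq h3).symm k).2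
  rw [Multiset.mem_toFinset, mem_roots (hm.map _).ne_zero, IsRoot, eval_map] at this
  exact this

lemma res_growth {e : ℕ} (P : MvPolynomial (Fin e) ℤ) : ∃ K E : ℕ, ∀ A : ℕ, 1 ≤ A →
    ∀ b : Fin e → ℤ, (∀ i, |b i| ≤ A) → |MvPolynomial.eval b P| ≤ K * A ^ E := by
  induction P using MvPolynomial.induction_on with
  | C a => exact ⟨a.natAbs, 0, fun A _ b _ => by simp⟩
  | add p q hp hq =>
    obtain ⟨K1, E1, h1⟩ := hp
    obtain ⟨K2, E2, h2⟩ := hq
    refine ⟨K1 + K2, E1 + E2, fun A hA b hb => ?_⟩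
    have hA' : (1 : ℤ) ≤ A := by exact_mod_cast hA
    have g1 : (A : ℤ) ^ E1 ≤ A ^ (E1 + E2) := pow_le_pow_right₀ hA' (by omega)
    have g2 : (A : ℤ) ^ E2 ≤ A ^ (E1 + E2) := pow_le_pow_right₀ hA' (by omega)
    rw [map_add]
    calc _ ≤ _ := abs_add_le _ _
      _ ≤ (K1 : ℤ) * A ^ E1 + K2 * A ^ E2 := add_le_add (h1 A hA b hb) (h2 A hA b hb)
      _ ≤ (K1 : ℤ) * A ^ (E1 + E2) + K2 * A ^ (E1 + E2) := by gcongr
      _ = _ := by push_cast; ring
  | mul_X p i hp =>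
    obtain ⟨K, E, h⟩ := hp
    refine ⟨K, E + 1, fun A hA b hb => ?_⟩
    rw [map_mul, MvPolynomial.eval_X, abs_mul, pow_succ, ← mul_assoc]
    exact mul_le_mul (h A hA b hb) (hb i) (abs_nonneg _) (by positivity)

lemma res_count {e : ℕ} (c : Fin e → ℂ) (hc : c ≠ 0) (A : ℕ) (hA : 1 ≤ A) :
    ((Fintype.piFinset fun _ : Fin e => Icc (-(A : ℤ)) A).filter
      fun b => ∑ m, (b m : ℂ) * c m = 0).card * A ≤ 3 ^ e * A ^ e := by
  obtain ⟨m0, hm0⟩ := Function.ne_iff.1 hc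
  set B := Fintype.piFinset fun _ : Fin e => Icc (-(A : ℤ)) A with hB
  have hI : (Icc (-(A : ℤ)) A).card = 2 * A + 1 := by
    rw [Int.card_Icc]; omega
  have h1 : ((B.filter fun b => ∑ m, (b m : ℂ) * c m = 0) ×ˢ Icc (-(A : ℤ)) A).card ≤ B.card := by
    refine card_le_card_of_injOn (fun p => Function.update p.1 m0 p.2) (fun p hp => ?_) ?_
    · obtain ⟨h1, h2⟩ := mem_product.1 (mem_coe.1 hp)
      refine mem_coe.2 (Fintype.mem_piFinset.2 fun m => ?_)
      by_cases h : m = m0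
      · simpa [h] using h2
      · simpa [Function.update_of_ne h] using Fintype.mem_piFinset.1 (mem_filter.1 h1).1 m
    · rintro ⟨b, t⟩ hp ⟨b', t'⟩ hp' h
      have h1 := (mem_filter.1 (mem_product.1 (mem_coe.1 hp)).1).2
      have h2 := (mem_filter.1 (mem_product.1 (mem_coe.1 hp')).1).2
      have ht : t = t' := by simpa using congrFun h m0
      have hb : ∀ m, m ≠ m0 → b m = b' m := fun m hm => by
        simpa [Function.update_of_ne hm] using congrFun h m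
      have h3 : ∑ m, ((b m : ℂ) - b' m) * c m = 0 := by
        simp only [sub_mul, sum_sub_distrib] at h1 h2 ⊢
        rw [h1, h2, sub_zero]
      rw [sum_eq_single m0 (fun m _ hm => by rw [hb m hm, sub_self, zero_mul]) (by simp)] at h3
      have h4 : b m0 = b' m0 := by
        exact_mod_cast sub_eq_zero.1 ((mul_eq_zero.1 h3).resolve_right hm0)
      refine Prod.ext (funext fun m => ?_) ht
      by_cases hm : m = m0
      · rw [hm]; exact h4
      · exact hb m hm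
  rw [card_product, hI, hB, Fintype.card_piFinset, prod_const, hI, card_univ,
    Fintype.card_fin] at h1
  calc _ ≤ _ := Nat.mul_le_mul_left _ (by omega : A ≤ 2 * A + 1)
    _ ≤ _ := h1
    _ ≤ (3 * A) ^ e := Nat.pow_le_pow_left (by omega) _
    _ = _ := mul_pow _ _ _

end Pool.Agent.Work.MP_51e72e_nt.Deg
end

-- merged part: Pool.Agent.Work.MP_51e72e_nt.DegRes
section
/-!
The index form as a polynomial in the first coefficient, and its resultant with `t0`.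
-/

set_option autoImplicit false

namespace Pool.Agent.Work.MP_51e72e_nt.Deg

open Finset Polynomial Matrix

/-- opposite of the roots of the index form -/
noncomputable def resE {e : ℕ} (th : Fin (e + 2) → ℂ) (b : Fin e → ℂ) (i j : Fin (e + 2)) : ℂ :=
  ∑ m, b m * ((th j ^ (m.val + 2) - th i ^ (m.val + 2)) / (th j - th i))

lemma res_beta_sub {e : ℕ} {th : Fin (e + 2) → ℂ} (hinj : Function.Injective th) (x : ℂ)
    (b : Fin e → ℂ) {i j : Fin (e + 2)} (hij : i ≠ j) :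
    (bet (Fin.cons x b : Fin (e + 1) → ℂ)).eval (th j) -
      (bet (Fin.cons x b : Fin (e + 1) → ℂ)).eval (th i) = (th j - th i) * (x + resE th b i j) := by
  have h : th j - th i ≠ 0 := sub_ne_zero.2 fun h => hij (hinj h).symm
  rw [res_eval_bet, res_eval_bet, resE, mul_add, mul_sum, add_sub_add_comm, ← sum_sub_distrib]
  congr 1
  · ring
  · exact sum_congr rfl fun m _ => by field_simp

lemma res_factor {F : ℤ[X]} {e : ℕ} (hm : F.Monic) (hd : F.natDegree = e + 2)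
    {th : Fin (e + 2) → ℂ} (hinj : Function.Injective th)
    (hth : ∀ k, F.eval₂ (Int.castRingHom ℂ) (th k) = 0) (b : Fin e → ℂ) :
    rR F (resV b) = ∏ i, ∏ j ∈ Ioi i, (X + C (resE th b i j)) := by
  refine Polynomial.funext fun x => ?_
  have h := res_rR_mul hm hd th hth (Fin.cons x b)
  have h0 : ∏ i, ∏ j ∈ Ioi i, (th j - th i) ≠ 0 := by
    rw [← det_vandermonde]
    exact det_vandermonde_ne_zero_iff.2 hinj
  rw [res_eval_rR hm]
  refine mul_right_cancel₀ h0 (h.trans ?_)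
  simp only [eval_prod, eval_add, eval_X, eval_C]
  rw [← prod_mul_distrib]
  refine prod_congr rfl fun i _ => ?_
  rw [← prod_mul_distrib]
  refine prod_congr rfl fun j hj => ?_
  rw [res_beta_sub hinj x b (mem_Ioi.1 hj).ne, mul_comm]

lemma res_monic {F : ℤ[X]} {e : ℕ} (hm : F.Monic) (hd : F.natDegree = e + 2)
    {th : Fin (e + 2) → ℂ} (hinj : Function.Injective th)
    (hth : ∀ k, F.eval₂ (Int.castRingHom ℂ) (th k) = 0) (b : Fin e → ℂ) :
    (rR F (resV b)).Monic ∧ (rR F (resV b)).natDegree = (e + 2).choose 2 := by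
  rw [res_factor hm hd hinj hth]
  have h1 : ∀ i : Fin (e + 2), (∏ j ∈ Ioi i, (X + C (resE th b i j))).Monic := fun i =>
    monic_prod_of_monic _ _ fun j _ => monic_X_add_C _
  refine ⟨monic_prod_of_monic _ _ fun i _ => h1 i, ?_⟩
  rw [natDegree_prod_of_monic _ _ fun i _ => h1 i]
  have h2 : ∀ i : Fin (e + 2), (∏ j ∈ Ioi i, (X + C (resE th b i j))).natDegree =
      e + 2 - 1 - i.val := fun i => by
    rw [natDegree_prod_of_monic _ _ fun j _ => monic_X_add_C _]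
    simp only [natDegree_X_add_C, sum_const, smul_eq_mul, mul_one, Fin.card_Ioi]
  simp only [h2]
  rw [Fin.sum_univ_eq_sum_range (fun i => e + 2 - 1 - i), sum_range_reflect (fun i => i),
    sum_range_id, Nat.choose_two_right]

lemma res_coprime {F : ℤ[X]} {e : ℕ} (hm : F.Monic) (hd : F.natDegree = e + 2)
    {th : Fin (e + 2) → ℂ} (hinj : Function.Injective th)
    (hth : ∀ k, F.eval₂ (Int.castRingHom ℂ) (th k) = 0) (b : Fin e → ℂ)
    (H : ∀ i j k l, i < j → k < l → resE th b i j = resE th b k l → i = k ∧ j = l) :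
    IsCoprime (rR F (resV b)) (t0 F (resV b)) := by
  refine (isCoprime_iff_aeval_ne_zero_of_isAlgClosed ℂ ℂ _ _).2 fun x => ?_
  simp only [coe_aeval_eq_eval]
  by_contra hn
  push Not at hn
  obtain ⟨h1, h2⟩ := hn
  rw [res_factor hm hd hinj hth, eval_prod, prod_eq_zero_iff] at h1
  obtain ⟨i, -, h1⟩ := h1
  rw [eval_prod, prod_eq_zero_iff] at h1
  obtain ⟨j, hj, h1⟩ := h1
  have hij : i < j := mem_Ioi.1 hj
  simp only [eval_add, eval_X, eval_C] at h1
  rw [res_eval_t0 hm] at h2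
  have h3 := res_t0_mul hm hd th hth (Fin.cons x b)
  rw [h2, zero_mul] at h3
  set β := fun k => (bet (Fin.cons x b : Fin (e + 1) → ℂ)).eval (th k) with hβ
  obtain ⟨c, hc, h4⟩ := exists_vecMul_eq_zero_iff.2 h3.symm
  have h5 : ∀ k, ∑ r : Fin (e + 1), c r.castSucc * β k ^ r.val + c (Fin.last _) * th k = 0 := by
    intro k
    have := congrFun h4 k
    rw [vecMul, dotProduct, Fin.sum_univ_castSucc] at this
    simpa [updateRow_ne (Fin.castSucc_ne_last _)] using this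
  have hb : β j = β i := by
    have := res_beta_sub hinj x b hij.ne
    rw [h1, mul_zero] at this
    exact sub_eq_zero.1 this
  have h6 : c (Fin.last _) = 0 := by
    have a1 := h5 i
    have a2 := h5 j
    rw [hb] at a2
    have : c (Fin.last _) * (th j - th i) = 0 := by linear_combination a2 - a1
    exact (mul_eq_zero.1 this).resolve_right (sub_ne_zero.2 fun h => hij.ne (hinj h).symm)
  have h7 : ∀ k l, k < l → β k = β l → l = j := fun k l hkl h => by
    have := res_beta_sub hinj x b hkl.ne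
    rw [show (bet (Fin.cons x b : Fin (e + 1) → ℂ)).eval (th l) = β l from rfl,
      show (bet (Fin.cons x b : Fin (e + 1) → ℂ)).eval (th k) = β k from rfl, h, sub_self] at this
    have h8 := (mul_eq_zero.1 this.symm).resolve_left
      (sub_ne_zero.2 fun h => hkl.ne (hinj h).symm)
    exact (H k l i j hkl hij (by linear_combination h8 - h1)).2
  have h8 : Function.Injective fun m : Fin (e + 1) => β (j.succAbove m) := by
    intro m m' h
    by_contra hne
    rcases lt_or_gt_of_ne (Fin.succAbove_right_injective.ne hne : j.succAbove m ≠ _) with g | g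
    · exact Fin.succAbove_ne j m' (h7 _ _ g h)
    · exact Fin.succAbove_ne j m (h7 _ _ g h.symm)
  have h9 : (fun r : Fin (e + 1) => c r.castSucc) = 0 :=
    eq_zero_of_forall_index_sum_mul_pow_eq_zero h8 fun m => by
      simpa [h6] using h5 (j.succAbove m)
  refine hc (funext fun r => ?_)
  refine Fin.lastCases h6 (fun r => congrFun h9 r) r

lemma res_form {e : ℕ} {th : Fin (e + 2) → ℂ} (hinj : Function.Injective th)
    {i j k l : Fin (e + 2)} (hij : i < j) (hkl : k < l)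
    (h : ∀ m : Fin e, (th j ^ (m.val + 2) - th i ^ (m.val + 2)) / (th j - th i) =
      (th l ^ (m.val + 2) - th k ^ (m.val + 2)) / (th l - th k)) : i = k ∧ j = l := by
  have h1 : th j - th i ≠ 0 := sub_ne_zero.2 fun h => hij.ne (hinj h).symm
  have h2 : th l - th k ≠ 0 := sub_ne_zero.2 fun h => hkl.ne (hinj h).symm
  have h3 : ∀ r : Fin (e + 2), (th j ^ r.val - th i ^ r.val) / (th j - th i) =
      (th l ^ r.val - th k ^ r.val) / (th l - th k) := fun r => by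
    refine Fin.cases (by simp) (fun r => Fin.cases ?_ (fun r => h r) r) r
    simp [div_self h1, div_self h2]
  have h4 := eq_zero_of_forall_pow_sum_mul_pow_eq_zero hinj
    (v := fun s => ((if s = j then 1 else 0) - (if s = i then 1 else 0)) / (th j - th i) -
      ((if s = l then 1 else 0) - (if s = k then 1 else 0)) / (th l - th k)) fun r => by
      have := h3 r
      simp only [sub_div, sub_mul, sum_sub_distrib, ite_div, zero_div, ite_mul, zero_mul,
        sum_ite_eq', mem_univ, if_true] at this ⊢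
      linear_combination this
  have hik : i = k := by
    rcases lt_trichotomy i k with g | g | g
    · have := congrFun h4 i
      simp [hij.ne, g.ne, (g.trans hkl).ne, h1] at this
    · exact g
    · have := congrFun h4 k
      simp [hkl.ne, g.ne, (g.trans hij).ne, h2] at this
  refine ⟨hik, by_contra fun g => ?_⟩
  subst hik
  have := congrFun h4 j
  simp [hij.ne', g, h1] at this

theorem exists_res {F : ℤ[X]} {e : ℕ} (hF : Irreducible F) (hm : F.Monic)
    (hd : F.natDegree = e + 2) : ∃ (K E : ℕ) (Rp : (Fin e → ℤ) → ℤ[X]) (ρ : (Fin e → ℤ) → ℤ),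
    (∀ b', (Rp b').Monic ∧ (Rp b').natDegree = (e + 2).choose 2 ∧
      ∀ x : ℤ, (Rp b').eval x = rR F (Fin.cons x b' : Fin (e + 1) → ℤ)) ∧
    (∀ b' (x p : ℤ), p ∣ rR F (Fin.cons x b' : Fin (e + 1) → ℤ) →
      p ∣ t0 F (Fin.cons x b' : Fin (e + 1) → ℤ) → p ∣ ρ b') ∧
    ∀ A : ℕ, 1 ≤ A →
      (∀ b' : Fin e → ℤ, (∀ i, |b' i| ≤ A) → |ρ b'| ≤ K * A ^ E) ∧
      ((Fintype.piFinset fun _ : Fin e => Icc (-(A : ℤ)) A).filter fun b' => ρ b' = 0).card * A
        ≤ K * A ^ e := by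
  obtain ⟨th, hinj, hth⟩ := res_roots hF hm hd
  set Tg := t0 F (resV (MvPolynomial.X : Fin e → MvPolynomial (Fin e) ℤ)) with hTg
  set Rg := rR F (resV (MvPolynomial.X : Fin e → MvPolynomial (Fin e) ℤ)) with hRg
  set D := (e + 2).choose 2 with hD
  obtain ⟨K, E, hK⟩ := res_growth (resultant Rg Tg D Tg.natDegree)
  have hinjC : Function.Injective (Int.castRingHom ℂ) := Int.cast_injective
  have hR : ∀ b' : Fin e → ℤ, (rR F (resV b')).Monic ∧ (rR F (resV b')).natDegree = D := by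
    intro b'
    have := res_monic hm hd hinj hth fun i => Int.castRingHom ℂ (b' i)
    rw [← res_mapP_rR _ hm, natDegree_map_eq_of_injective hinjC] at this
    exact ⟨monic_of_injective hinjC this.1, this.2⟩
  have hT : ∀ b' : Fin e → ℤ, t0 F (resV b') = Tg.map (MvPolynomial.eval b') := fun b' => by
    rw [hTg, res_mapP_t0 _ hm]; simp
  have hT' : ∀ b' : Fin e → ℤ, (t0 F (resV b')).natDegree ≤ Tg.natDegree := fun b' => by
    rw [hT]; exact natDegree_map_le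
  have hρ : ∀ b' : Fin e → ℤ, MvPolynomial.eval b' (resultant Rg Tg D Tg.natDegree) =
      resultant (rR F (resV b')) (t0 F (resV b')) D Tg.natDegree := fun b' => by
    have : rR F (resV b') = Rg.map (MvPolynomial.eval b') := by
      rw [hRg, res_mapP_rR _ hm]; simp
    rw [← resultant_map_map, hT, this]
  refine ⟨K + (e + 2) ^ 4 * 3 ^ e, E, fun b' => rR F (resV b'),
    fun b' => MvPolynomial.eval b' (resultant Rg Tg D Tg.natDegree),
    fun b' => ⟨(hR b').1, (hR b').2, res_eval_rR hm b'⟩, fun b' x p h1 h2 => ?_,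
    fun A hA => ⟨fun b' hb => (hK A hA b' hb).trans ?_, ?_⟩⟩
  · obtain ⟨u, v, -, -, h⟩ := exists_mul_add_mul_eq_C_resultant _ _ (hR b').2.le (hT' b')
      (Or.inl (Nat.choose_pos (by omega)).ne')
    have := congrArg (eval x) h
    rw [eval_C, eval_add, eval_mul, eval_mul, res_eval_rR hm, res_eval_t0 hm] at this
    simp only
    rw [hρ, ← this]
    exact dvd_add (h1.mul_right _) (h2.mul_right _)
  · push_cast
    gcongr
    exact le_add_of_nonneg_right (by positivity)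
  · set w : Fin (e + 2) → Fin (e + 2) → Fin e → ℂ := fun i j m =>
      (th j ^ (m.val + 2) - th i ^ (m.val + 2)) / (th j - th i) with hw
    set B := Fintype.piFinset fun _ : Fin e => Icc (-(A : ℤ)) A with hB
    set I : Finset ((Fin (e + 2) × Fin (e + 2)) × (Fin (e + 2) × Fin (e + 2))) :=
      univ.filter fun q => w q.1.1 q.1.2 - w q.2.1 q.2.2 ≠ 0 with hI
    have hsub : (B.filter fun b' => MvPolynomial.eval b' (resultant Rg Tg D Tg.natDegree) = 0) ⊆
        I.biUnion fun q => B.filter fun b =>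
          ∑ m, (b m : ℂ) * (w q.1.1 q.1.2 - w q.2.1 q.2.2) m = 0 := by
      intro b' hb
      obtain ⟨hb, h0⟩ := mem_filter.1 hb
      by_contra hn
      have hc := res_coprime hm hd hinj hth (fun i => Int.castRingHom ℂ (b' i))
        fun i j k l hij hkl h => by
          by_contra hne
          refine hn (mem_biUnion.2 ⟨((i, j), (k, l)), mem_filter.2 ⟨mem_univ _, fun h0 =>
            hne (res_form hinj hij hkl fun m => sub_eq_zero.1 (congrFun h0 m))⟩,
            mem_filter.2 ⟨hb, ?_⟩⟩)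
          simp only [Pi.sub_apply, mul_sub, sum_sub_distrib]
          exact sub_eq_zero.2 h
      have h1 := resultant_ne_zero _ _ hc
      rw [← res_mapP_rR _ hm, ← res_mapP_t0 _ hm, natDegree_map_eq_of_injective hinjC,
        natDegree_map_eq_of_injective hinjC, resultant_map_map, (hR b').2] at h1
      obtain ⟨k, hk⟩ := Nat.exists_eq_add_of_le (hT' b')
      rw [hρ, hk, resultant_add_right_deg _ _ _ _ _ le_rfl, ← (hR b').2, (hR b').1.coeff_natDegree,
        one_pow, one_mul, (hR b').2] at h0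
      exact h1 (by rw [h0, map_zero])
    have hc : I.card ≤ (e + 2) ^ 4 := by
      refine (card_le_univ _).trans (le_of_eq ?_)
      simp only [Fintype.card_prod, Fintype.card_fin]
      ring
    calc _ ≤ (∑ q ∈ I, (B.filter fun b =>
          ∑ m, (b m : ℂ) * (w q.1.1 q.1.2 - w q.2.1 q.2.2) m = 0).card) * A :=
          Nat.mul_le_mul_right _ ((card_le_card hsub).trans card_biUnion_le)
      _ ≤ ∑ _q ∈ I, 3 ^ e * A ^ e := by
          rw [sum_mul]
          exact sum_le_sum fun q hq => res_count _ (mem_filter.1 hq).2 A hA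
      _ ≤ (e + 2) ^ 4 * (3 ^ e * A ^ e) := by
          rw [sum_const, smul_eq_mul]
          exact Nat.mul_le_mul_right _ hc
      _ ≤ _ := by
          rw [add_mul, mul_assoc]
          exact Nat.le_add_left _ _

end Pool.Agent.Work.MP_51e72e_nt.Deg
end

-- merged part: Pool.Agent.Work.MP_51e72e_nt.DegExc1
section
/-!
Counting lemmas for the exceptional generators.
-/

set_option autoImplicit false

namespace Pool.Agent.Work.MP_51e72e_nt.Deg

open Finset Polynomial Filter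

lemma exc_block (P : ℤ[X]) (hP : P.Monic) (hn : 0 < P.natDegree) (g l : ℕ)
    (hg : l ^ (P.natDegree + 1).choose 2 ≤ g) (S : Finset ℤ)
    (h1 : ∀ x ∈ S, (g : ℤ) ∣ P.eval x) (h2 : ∀ x ∈ S, ∀ y ∈ S, y - x < l) :
    S.card ≤ P.natDegree := by
  by_contra c
  set n := P.natDegree with hnd
  set v := S.orderEmbOfCardLe (k := n + 1) (by omega)
  have hv : ∀ i, v i ∈ S := fun i => S.orderEmbOfCardLe_mem _ i
  have a1 := Matrix.det_eval_matrixOfPolynomials_eq_det_vandermonde (fun i => v i)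
    (fun j => if j = Fin.last n then P else X ^ (j : ℕ))
    (fun j => by
      split_ifs with h
      · rw [h, Fin.val_last]
      · exact natDegree_X_pow _)
    fun j => by
      split_ifs
      · exact hP
      · exact monic_X_pow _
  have a2 : (g : ℤ) ∣ (Matrix.vandermonde fun i => v i).det := by
    rw [a1, Matrix.det_apply']
    refine dvd_sum fun σ _ => Dvd.dvd.mul_left (dvd_trans ?_ (dvd_prod_of_mem _
      (mem_univ (Fin.last n)))) _
    simpa using h1 _ (hv _)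
  rw [Matrix.det_vandermonde] at a2
  have a3 : ∀ i, ∀ j ∈ Ioi i, 0 < v j - v i := fun i j hj =>
    sub_pos.2 (v.strictMono (mem_Ioi.1 hj))
  have a4 := Int.le_of_dvd (prod_pos fun i _ => prod_pos (a3 i)) a2
  have a5 : ∏ i, ∏ j ∈ Ioi i, (v j - v i) ≤ ((l : ℤ) - 1) ^ (n + 1).choose 2 := by
    refine (prod_le_prod (fun i _ => (prod_pos (a3 i)).le) fun i _ => prod_le_prod
      (fun j hj => (a3 i j hj).le) fun j _ => Int.le_sub_one_of_lt
        (h2 _ (hv i) _ (hv j))).trans (le_of_eq ?_)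
    simp only [prod_const, prod_pow_eq_pow_sum, Fin.card_Ioi]
    rw [Fin.sum_univ_eq_sum_range (fun i => n + 1 - 1 - i), sum_range_reflect (fun i => i),
      sum_range_id, Nat.choose_two_right]
  have a6 : (0 : ℤ) < l := by simpa using h2 _ (hv 0) _ (hv 0)
  have a7 : ((l : ℤ) - 1) ^ (n + 1).choose 2 < (l : ℤ) ^ (n + 1).choose 2 :=
    pow_lt_pow_left₀ (by omega) (by omega) (Nat.choose_pos (by omega)).ne'
  have a8 : (l : ℤ) ^ (n + 1).choose 2 ≤ g := by exact_mod_cast hg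
  omega

theorem exc_roots (P : ℤ[X]) (hP : P.Monic) (hn : 0 < P.natDegree) (g l A : ℕ)
    (hl : 0 < l) (hg : l ^ (P.natDegree + 1).choose 2 ≤ g) :
    ((Icc (-(A : ℤ)) A).filter fun x => (g : ℤ) ∣ P.eval x).card * l
      ≤ P.natDegree * (2 * A + 1 + l) := by
  have hl' : (0 : ℤ) < l := by exact_mod_cast hl
  have h1 := card_le_mul_card_image_of_maps_to
    (s := (Icc (-(A : ℤ)) A).filter fun x : ℤ => (g : ℤ) ∣ P.eval x)
    (t := Icc (0 : ℤ) ((2 * A / l : ℕ) : ℤ)) (f := fun x : ℤ => (x + A) / l) (fun x hx => by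
      have := mem_Icc.1 (mem_filter.1 hx).1
      refine mem_Icc.2 ⟨Int.ediv_nonneg (by omega) hl'.le, ?_⟩
      push_cast
      exact Int.ediv_le_ediv hl' (by omega)) P.natDegree fun b _ =>
    exc_block P hP hn g l hg _ (fun x hx => (mem_filter.1 (mem_filter.1 hx).1).2)
      fun x hx y hy => by
      have b1 := Int.mul_ediv_add_emod (x + A) l
      have b2 := Int.mul_ediv_add_emod (y + A) l
      have b3 := Int.emod_nonneg (x + A) hl'.ne'
      have b4 := Int.emod_lt_of_pos (y + A) hl'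
      rw [(mem_filter.1 hx).2] at b1
      rw [(mem_filter.1 hy).2] at b2
      omega
  refine (Nat.mul_le_mul_right _ h1).trans ?_
  rw [mul_assoc, Int.card_Icc, sub_zero, ← Nat.cast_succ, Int.toNat_natCast]
  refine Nat.mul_le_mul_left _ ?_
  have := Nat.div_mul_le_self (2 * A) l
  rw [Nat.succ_mul]
  omega

lemma exc_split (u : ℕ) (N : ℕ) (hN : N ≠ 0) : ∃ q σ : ℕ, N = q * σ ∧
    Nat.Coprime q (σ * u) ∧ ∀ p : ℕ, p.Prime → p ∣ σ → p ∣ u := by
  induction N using Nat.strong_induction_on with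
  | _ N ih =>
    by_cases h : Nat.gcd N u = 1
    · exact ⟨N, 1, by simp, by simpa using h, fun p hp h => absurd h hp.not_dvd_one⟩
    obtain ⟨M, hM⟩ := Nat.gcd_dvd_left N u
    have h0 : 0 < Nat.gcd N u := Nat.gcd_pos_of_pos_left _ (Nat.pos_of_ne_zero hN)
    have h1 : M ≠ 0 := fun e => hN (by rw [hM, e, mul_zero])
    obtain ⟨q, σ, e, hc, hp⟩ := ih M (by
      conv_rhs => rw [hM]
      exact lt_mul_of_one_lt_left (Nat.pos_of_ne_zero h1) (by omega)) h1
    refine ⟨q, Nat.gcd N u * σ, by rw [mul_left_comm, ← e, ← hM], ?_, fun p pp h => ?_⟩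
    · rw [mul_assoc]
      exact Nat.Coprime.mul_right ((Nat.Coprime.coprime_mul_left_right hc).coprime_dvd_right
        (Nat.gcd_dvd_right N u)) hc
    · exact ((Nat.Prime.dvd_mul pp).1 h).elim (fun h => h.trans (Nat.gcd_dvd_right N u)) (hp p pp)

lemma exc_dec (m n : ℕ) (hm : 0 < m) (σ : ℕ) : σ ≠ 0 → (∀ p : ℕ, p.Prime → p ∣ σ → p ∣ n) →
    ∃ h r : ℕ, h ^ m ∣ σ ∧ r ∣ σ ∧ r ∣ n ∧ σ ≤ (h * r) ^ m := by
  induction σ using Nat.recOnPosPrimePosCoprime with
  | zero => exact fun h => absurd rfl h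
  | one => exact fun _ _ => ⟨1, 1, by simp⟩
  | prime_pow p v hp hv =>
    intro _ h
    refine ⟨p ^ (v / m), p, ?_, dvd_pow_self p hv.ne', h p hp (dvd_pow_self p hv.ne'), ?_⟩
    · rw [← pow_mul]
      exact pow_dvd_pow _ (Nat.div_mul_le_self _ _)
    · rw [← pow_succ, ← pow_mul, mul_comm]
      exact Nat.pow_le_pow_right hp.pos (Nat.lt_mul_div_succ v hm).le
  | coprime a b ha hb hab iha ihb =>
    intro _ h
    obtain ⟨h1, r1, a1, a2, a3, a4⟩ := iha (by omega) fun p hp d => h p hp (d.mul_right _)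
    obtain ⟨h2, r2, b1, b2, b3, b4⟩ := ihb (by omega) fun p hp d => h p hp (d.mul_left _)
    refine ⟨h1 * h2, r1 * r2, by rw [mul_pow]; exact mul_dvd_mul a1 b1, mul_dvd_mul a2 b2,
      ((hab.coprime_dvd_left a2).coprime_dvd_right b2).mul_dvd_of_dvd_of_dvd a3 b3, ?_⟩
    rw [mul_mul_mul_comm, mul_pow]
    exact Nat.mul_le_mul a4 b4

open Classical in
lemma exc_div (P : ℤ[X]) (hP : P.Monic) (hn : 0 < P.natDegree) (N B l A : ℕ) (hN : N ≠ 0)
    (hB : N.divisors.card ≤ B) (hl : 0 < l) (hA : l ≤ A) :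
    ((Icc (-(A : ℤ)) A).filter fun x => ∃ g : ℕ, g ∣ N ∧ l ^ (P.natDegree + 1).choose 2 ≤ g ∧
      (g : ℤ) ∣ P.eval x).card * l ≤ B * (4 * P.natDegree * A) := by
  have h1 : ((Icc (-(A : ℤ)) A).filter fun x => ∃ g : ℕ, g ∣ N ∧
      l ^ (P.natDegree + 1).choose 2 ≤ g ∧ (g : ℤ) ∣ P.eval x) ⊆
      (N.divisors.filter fun g => l ^ (P.natDegree + 1).choose 2 ≤ g).biUnion fun g =>
        (Icc (-(A : ℤ)) A).filter fun x => (g : ℤ) ∣ P.eval x := fun x hx => by
    obtain ⟨a1, g, a2, a3, a4⟩ := mem_filter.1 hx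
    exact mem_biUnion.2 ⟨g, mem_filter.2 ⟨Nat.mem_divisors.2 ⟨a2, hN⟩, a3⟩, mem_filter.2 ⟨a1, a4⟩⟩
  refine (Nat.mul_le_mul_right _ ((card_le_card h1).trans card_biUnion_le)).trans ?_
  rw [sum_mul]
  refine (sum_le_card_nsmul _ _ (4 * P.natDegree * A) fun g hg =>
    (exc_roots P hP hn g l A hl (mem_filter.1 hg).2).trans ?_).trans
    (Nat.mul_le_mul_right _ ((card_filter_le _ _).trans hB))
  rw [mul_comm 4, mul_assoc]
  exact Nat.mul_le_mul_left _ (by omega)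

open Classical in
lemma exc_pow (P : ℤ[X]) (hP : P.Monic) (hn : 0 < P.natDegree) (m E K H A : ℕ) (hH : H ≠ 0)
    (hA : 1 ≤ A) (hE : E ≠ 0) (hm1 : 2 * (P.natDegree + 1).choose 2 ≤ m) (hm2 : 2 * E ≤ m) :
    ((Icc (-(A : ℤ)) A).filter fun x => ∃ h : ℕ, H < h ∧ h ^ m ≤ K * A ^ E ∧
      ((h ^ m : ℕ) : ℤ) ∣ P.eval x).card * H ≤ P.natDegree * (3 + K) * A := by
  have h0 : ∀ h : ℕ, H < h → h ^ m ≤ K * A ^ E → h ^ 2 ≤ K * A := fun h a1 a2 => by
    refine le_of_pow_le_pow_left₀ hE (Nat.zero_le _) ?_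
    rw [← pow_mul, mul_pow]
    exact (Nat.pow_le_pow_right (by omega) hm2).trans
      (a2.trans (Nat.mul_le_mul_right _ (Nat.le_self_pow hE K)))
  have h1 : ((Icc (-(A : ℤ)) A).filter fun x => ∃ h : ℕ, H < h ∧ h ^ m ≤ K * A ^ E ∧
      ((h ^ m : ℕ) : ℤ) ∣ P.eval x) ⊆ ((Ioc H (H + K * A)).filter fun h => h ^ 2 ≤ K * A).biUnion
        fun h => (Icc (-(A : ℤ)) A).filter fun x => ((h ^ m : ℕ) : ℤ) ∣ P.eval x := fun x hx => by
    obtain ⟨a1, h, a2, a3, a4⟩ := mem_filter.1 hx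
    have a5 := h0 h a2 a3
    exact mem_biUnion.2 ⟨h, mem_filter.2 ⟨mem_Ioc.2 ⟨a2, ((Nat.le_self_pow two_ne_zero h).trans
      a5).trans (Nat.le_add_left _ _)⟩, a5⟩, mem_filter.2 ⟨a1, a4⟩⟩
  refine (Nat.mul_le_mul_right _ ((card_le_card h1).trans card_biUnion_le)).trans ?_
  have hH' : (0 : ℝ) < H := by positivity
  rw [← Nat.cast_le (α := ℝ), Nat.cast_mul, ← le_div_iff₀ hH', Nat.cast_sum]
  calc _ ≤ ∑ h ∈ (Ioc H (H + K * A)).filter fun h => h ^ 2 ≤ K * A,
        ((P.natDegree * (3 + K) * A : ℕ) : ℝ) * ((h : ℝ) ^ 2)⁻¹ := sum_le_sum fun h hh => by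
        obtain ⟨a1, a2⟩ := mem_filter.1 hh
        have a3 : 0 < h := (Nat.zero_le _).trans_lt (mem_Ioc.1 a1).1
        rw [← div_eq_mul_inv, le_div_iff₀ (by positivity), ← Nat.cast_pow, ← Nat.cast_mul,
          Nat.cast_le]
        refine (exc_roots P hP hn (h ^ m) (h ^ 2) A (by positivity)
          (by rw [← pow_mul]; exact Nat.pow_le_pow_right a3 hm1)).trans ?_
        rw [mul_assoc, add_mul]
        exact Nat.mul_le_mul_left _ (by omega)
    _ ≤ ∑ h ∈ Ioc H (H + K * A), ((P.natDegree * (3 + K) * A : ℕ) : ℝ) * ((h : ℝ) ^ 2)⁻¹ :=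
        sum_le_sum_of_subset_of_nonneg (filter_subset _ _) fun _ _ _ => by positivity
    _ ≤ _ := by
        rw [← mul_sum, div_eq_mul_inv]
        exact mul_le_mul_of_nonneg_left ((sum_Ioc_inv_sq_le_sub hH (Nat.le_add_right _ _)).trans
          (sub_le_self _ (by positivity))) (by positivity)

lemma exc_val (P : ℤ[X]) (hn : 0 < P.natDegree) (M : ℕ) (hM : 1 ≤ M) (S : Finset ℤ)
    (h : ∀ x ∈ S, (P.eval x).natAbs ≤ M) : S.card ≤ P.natDegree * (3 * M) := by
  refine (card_le_mul_card_image_of_maps_to (t := Icc (-(M : ℤ)) M) (f := fun x => P.eval x)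
    (fun x hx => by have := h x hx; rw [mem_Icc]; omega) P.natDegree fun v _ => ?_).trans
    (Nat.mul_le_mul_left _ (by rw [Int.card_Icc]; omega))
  have h0 := natDegree_pos_iff_degree_pos.1 hn
  refine le_trans (Multiset.card_le_card (Finset.val_le_iff_val_subset.2 fun x hx => ?_))
    (card_roots_sub_C' (a := v) h0)
  exact (mem_roots_sub_C h0).2 (mem_filter.1 hx).2

end Pool.Agent.Work.MP_51e72e_nt.Deg
end

-- merged part: Pool.Agent.Work.MP_51e72e_nt.DegExc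
section
/-!
The exceptional generators are rare.
-/

set_option autoImplicit false

namespace Pool.Agent.Work.MP_51e72e_nt.Deg

open Finset Polynomial Filter

/-- roots of a monic polynomial to an arbitrary modulus -/
theorem card_roots_le (P : ℤ[X]) (hP : P.Monic) (hn : 0 < P.natDegree) (g l A : ℕ)
    (hl : 0 < l) (hg : l ^ (P.natDegree + 1).choose 2 ≤ g) :
    ((Icc (-(A : ℤ)) A).filter fun x => (g : ℤ) ∣ P.eval x).card * l
      ≤ P.natDegree * (2 * A + 1 + l) := exc_roots P hP hn g l A hl hg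

lemma exc_line (P : ℤ[X]) (hP : P.Monic) (hn : 0 < P.natDegree) (τ : ℤ → ℤ) (ρ : ℤ) (hρ : ρ ≠ 0)
    (h1 : ∀ x p : ℤ, p ∣ P.eval x → p ∣ τ x → p ∣ ρ) (a B s K E m G : ℕ) (hB : 0 < B)
    (hs : 1 ≤ s) (ha : 2 * s + 3 ≤ a) (hE : E ≠ 0) (hm1 : 2 * (P.natDegree + 1).choose 2 ≤ m)
    (hm2 : 2 * E ≤ m)
    (hG : (B ^ (s + 1) * (B ^ (2 * s + 3)) ^ (P.natDegree + 1).choose 2) ^ m ≤ G)
    (hd : ∀ k, k ≤ B ^ s → (ρ.natAbs * k).divisors.card ≤ B) (S : Finset ℤ)
    (hS : ∀ x ∈ S, x ∈ Icc (-((B ^ a : ℕ) : ℤ)) (B ^ a : ℕ) ∧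
      (P.eval x).natAbs ≤ K * (B ^ a) ^ E ∧ ¬ (B ^ a ≤ (P.eval x).natAbs * B ^ (2 * s) ∧
      ∀ k : ℕ, 1 ≤ k → k ≤ B ^ s → ∃ q σ : ℕ, (P.eval x).natAbs = q * σ ∧
        σ ≤ G ∧ Nat.Coprime q (σ * (τ x).natAbs * k))) :
    S.card * B ^ (s + 1) ≤ P.natDegree * (10 + K) * B ^ a := by
  classical
  set A := B ^ a with hA
  set S1 := S.filter fun x => (P.eval x).natAbs ≤ B ^ (a - 2 * s)
  set S2 := fun k : ℕ => (Icc (-(A : ℤ)) A).filter fun x => ∃ g : ℕ, g ∣ ρ.natAbs * k ∧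
    (B ^ (2 * s + 3)) ^ (P.natDegree + 1).choose 2 ≤ g ∧ (g : ℤ) ∣ P.eval x
  set S3 := (Icc (-(A : ℤ)) A).filter fun x => ∃ h : ℕ, B ^ (s + 1) < h ∧ h ^ m ≤ K * A ^ E ∧
    ((h ^ m : ℕ) : ℤ) ∣ P.eval x
  have hA0 : 0 < A := by positivity
  have sub : S ⊆ S1 ∪ (Icc 1 (B ^ s)).biUnion S2 ∪ S3 := fun x hx => by
    obtain ⟨a1, a2, a3⟩ := hS x hx
    by_cases c : A ≤ (P.eval x).natAbs * B ^ (2 * s)
    · obtain ⟨k, hk⟩ := not_forall.1 fun h => a3 ⟨c, h⟩
      simp only [Classical.not_imp] at hk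
      obtain ⟨k1, k2, k3⟩ := hk
      have n0 : (P.eval x).natAbs ≠ 0 := fun e => by rw [e] at c; omega
      obtain ⟨q, σ, e, hc, hp⟩ := exc_split ((τ x).natAbs * k) _ n0
      have hσ : σ ∣ (P.eval x).natAbs := Dvd.intro_left _ e.symm
      have g1 : G < σ := not_le.1 fun h => k3 ⟨q, σ, e, h, by rwa [mul_assoc]⟩
      obtain ⟨h, r, b1, b2, b3, b4⟩ := exc_dec m (ρ.natAbs * k) (by omega) σ (by omega)
        fun p pp d => ((Nat.Prime.dvd_mul pp).1 (hp p pp d)).elim (fun d' => Dvd.dvd.mul_right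
          (Int.natCast_dvd.1 (h1 x p (Int.natCast_dvd.2 (d.trans hσ)) (Int.natCast_dvd.2 d'))) _)
          fun d' => d'.mul_left _
      by_cases c2 : B ^ (s + 1) < h
      · exact mem_union_right _ (mem_filter.2 ⟨a1, h, c2, (Nat.le_of_dvd (by omega)
          (b1.trans hσ)).trans a2, Int.natCast_dvd.2 (b1.trans hσ)⟩)
      · refine mem_union_left _ (mem_union_right _ (mem_biUnion.2 ⟨k, mem_Icc.2 ⟨k1, k2⟩,
          mem_filter.2 ⟨a1, r, b3, ?_, Int.natCast_dvd.2 (b2.trans hσ)⟩⟩))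
        by_contra c3
        exact absurd (b4.trans ((Nat.pow_le_pow_left (Nat.mul_le_mul (not_lt.1 c2)
          (not_le.1 c3).le) m).trans hG)) (not_le.2 g1)
    · refine mem_union_left _ (mem_union_left _ (mem_filter.2 ⟨hx, ?_⟩))
      refine Nat.le_of_mul_le_mul_right ((not_le.1 c).le.trans (le_of_eq ?_))
        (pow_pos hB (2 * s))
      rw [← pow_add, Nat.sub_add_cancel (by omega)]
  have c1 : S1.card * B ^ (s + 1) ≤ P.natDegree * 3 * A := by
    refine (Nat.mul_le_mul_right _ (exc_val P hn _ (Nat.one_le_pow _ _ hB) S1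
      fun x hx => (mem_filter.1 hx).2)).trans ?_
    rw [mul_assoc, mul_assoc, mul_assoc, ← pow_add]
    exact Nat.mul_le_mul_left _ (Nat.mul_le_mul_left _ (Nat.pow_le_pow_right hB (by omega)))
  have c2 : ((Icc 1 (B ^ s)).biUnion S2).card * B ^ (s + 1) ≤ P.natDegree * 4 * A := by
    refine Nat.le_of_mul_le_mul_right ?_ (pow_pos hB (s + 2))
    rw [mul_assoc, ← pow_add, show s + 1 + (s + 2) = 2 * s + 3 by ring]
    refine (Nat.mul_le_mul_right _ card_biUnion_le).trans ?_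
    rw [sum_mul]
    refine (sum_le_card_nsmul _ _ _ fun k hk => exc_div P hP hn _ B _ A
      (mul_ne_zero (Int.natAbs_ne_zero.2 hρ) (by have := (mem_Icc.1 hk).1; omega))
      (hd k (mem_Icc.1 hk).2) (by positivity) (Nat.pow_le_pow_right hB ha)).trans ?_
    rw [Nat.card_Icc, Nat.add_sub_cancel, smul_eq_mul, ← mul_assoc, ← pow_succ, mul_comm,
      mul_comm 4]
    exact Nat.mul_le_mul_left _ (Nat.pow_le_pow_right hB (by omega))
  have c3 := exc_pow P hP hn m E K (B ^ (s + 1)) A (by positivity) hA0 hE hm1 hm2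
  refine (Nat.mul_le_mul_right _ ((card_le_card sub).trans ((card_union_le _ _).trans
    (Nat.add_le_add_right (card_union_le _ _) _)))).trans ?_
  rw [add_mul, add_mul]
  refine (Nat.add_le_add (Nat.add_le_add c1 c2) c3).trans (le_of_eq ?_)
  ring

lemma card_pi_le (e A : ℕ) (hA : 1 ≤ A) :
    (Fintype.piFinset fun _ : Fin e => Icc (-(A : ℤ)) A).card ≤ 3 ^ e * A ^ e := by
  rw [Fintype.card_piFinset, prod_const, card_univ, Fintype.card_fin, ← mul_pow, Int.card_Icc]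
  exact Nat.pow_le_pow_left (by omega) _

open Classical in
theorem card_exc (e : ℕ) : ∃ c : ℕ, 2 ≤ c ∧ ∀ F : ℤ[X], Irreducible F → F.Monic →
    F.natDegree = e + 2 → ∀ a : ℕ, ∀ᶠ B : ℕ in atTop, ∀ s : ℕ, 1 ≤ s → c * s ≤ a →
      ((box e (B ^ a)).filter fun b =>
        ¬ GoodB F (B ^ a) (B ^ (2 * s)) (B ^ s) (B ^ (c * s)) b).card * B ^ s ≤ (B ^ a) ^ (e + 1) ∧
      ((Icc (-((B ^ a : ℕ) : ℤ)) (B ^ a : ℕ) ×ˢ box e (B ^ a)).filter fun z =>
        rR F z.2 ≠ 0 ∧ B ^ (c * s) < Int.gcd (rR F z.2) ((chi F z.2).eval z.1)).card * B ^ s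
          ≤ (B ^ a) ^ (e + 2) := by
  set D := (e + 2).choose 2 with hD
  set D' := (D + 1).choose 2
  set E := 2 * (e + 2) ^ 2 with hE
  set m := 2 * D' + 2 * E
  set c := (5 * D' + 2) * m + 3 * (e + 3).choose 2 + 5 with hc
  refine ⟨c, by omega, fun F hF hm hd a => ?_⟩
  obtain ⟨K, hK⟩ := size_bound hm e
  obtain ⟨K', E', Rp, ρ, r1, r2, r3⟩ := exists_res hF hm hd
  have hD0 : 0 < D := Nat.choose_pos (by omega)
  filter_upwards [Cub.ev_divisors (1 + a * E' + a), Cub.ev_divisors (1 + a * E),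
    eventually_ge_atTop (K + 6 * K' + 2 * (3 ^ e * (D * (10 + K))) + 3 ^ (e + 1) * (4 * (e + 2)) + 1)]
    with B d1 d2 hB s hs ha
  have B0 : 0 < B := by omega
  set A := B ^ a with hA
  have A1 : 1 ≤ A := Nat.one_le_pow _ _ B0
  have hp : ∀ {u v : ℕ}, u ≤ v → B ^ u ≤ B ^ v := fun h => Nat.pow_le_pow_right B0 h
  have ha5 : 5 * s ≤ a := (Nat.mul_le_mul_right _ (by omega)).trans ha
  have hR : ∀ b ∈ box e A, (rR F b).natAbs ≤ K * A ^ E := fun b hb => by
    have := (hK A A1 0 (by simp) b hb).2.2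
    rw [← Int.natCast_natAbs] at this
    exact_mod_cast this
  constructor
  · set T := Fintype.piFinset fun _ : Fin e => Icc (-(A : ℤ)) A with hT
    set S := (box e A).filter fun b => ¬ GoodB F A (B ^ (2 * s)) (B ^ s) (B ^ (c * s)) b
    have hmap : ∀ b ∈ S, Fin.tail b ∈ T := fun b hb =>
      Fintype.mem_piFinset.2 fun i => Fintype.mem_piFinset.1 (mem_filter.1 hb).1 i.succ
    have hinj : ∀ b' : Fin e → ℤ, (S.filter fun b => Fin.tail b = b').card =
        ((S.filter fun b => Fin.tail b = b').image fun b => b 0).card := fun b' =>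
      (card_image_of_injOn fun b hb b₂ hb₂ e0 => by
        have e1 : b 0 = b₂ 0 := e0
        rw [← Fin.cons_self_tail b, ← Fin.cons_self_tail b₂, (mem_filter.1 hb).2,
          (mem_filter.1 hb₂).2, e1]).symm
    have k1 : ∀ b' ∈ T, (S.filter fun b => Fin.tail b = b').card ≤ 3 * A := fun b' _ => by
      rw [hinj]
      refine (card_le_card (t := Icc (-(A : ℤ)) A) fun x hx => ?_).trans
        (by rw [Int.card_Icc]; omega)
      obtain ⟨b, hb, rfl⟩ := mem_image.1 hx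
      exact Fintype.mem_piFinset.1 (mem_filter.1 (mem_filter.1 hb).1).1 0
    have k2 : ∀ b' ∈ T, ρ b' ≠ 0 → (S.filter fun b => Fin.tail b = b').card * B ^ (s + 1) ≤
        D * (10 + K) * A := fun b' hb' h0 => by
      obtain ⟨p1, p2, p3⟩ := r1 b'
      rw [← hD] at p2
      rw [hinj, ← p2]
      refine exc_line (Rp b') p1 (p2 ▸ hD0) (fun x => t0 F (Fin.cons x b' : Fin (e + 1) → ℤ)) _ h0
        (fun x p h => r2 b' x p (p3 x ▸ h)) a B s K E m (B ^ (c * s)) B0 hs (by omega)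
        (by positivity) (by rw [p2]; omega) (by omega) ?_ (fun k hk => ?_) _ fun x hx => ?_
      · rw [p2, ← pow_mul, ← pow_add, ← pow_mul]
        refine hp (le_trans (Nat.mul_le_mul_right _ ?_) (le_trans (le_of_eq (mul_right_comm _ _ _))
          (Nat.mul_le_mul_right s (by omega : (5 * D' + 2) * m ≤ c))))
        linarith only [hs, Nat.mul_le_mul_right D' (by omega : 2 * s + 3 ≤ 5 * s)]
      · have a1 := (r3 A A1).1 b' fun i => abs_le.2 (mem_Icc.1 (Fintype.mem_piFinset.1 hb' i))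
        rw [← Int.natCast_natAbs] at a1
        have a2 : (ρ b').natAbs ≤ K' * A ^ E' := by exact_mod_cast a1
        have := d1 ((ρ b').natAbs * k) (by
          rw [pow_add, pow_add, pow_one, pow_mul]
          exact Nat.mul_le_mul (a2.trans (Nat.mul_le_mul_right _ (by omega)))
            (hk.trans (hp (by omega))))
        exact_mod_cast this
      · obtain ⟨b, hb, rfl⟩ := mem_image.1 hx
        obtain ⟨hb1, rfl⟩ := mem_filter.1 hb
        obtain ⟨hb2, hb3⟩ := mem_filter.1 hb1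
        rw [p3, Fin.cons_self_tail]
        exact ⟨Fintype.mem_piFinset.1 hb2 0, hR b hb2, hb3⟩
    refine Nat.le_of_mul_le_mul_right ?_ (by omega : 0 < 2 * B)
    rw [card_eq_sum_card_fiberwise hmap, ← sum_filter_add_sum_filter_not T fun b' => ρ b' = 0]
    have k3 : ∑ b' ∈ T.filter fun b' => ρ b' = 0, (S.filter fun b => Fin.tail b = b').card ≤
        3 * (K' * A ^ e) := by
      refine (sum_le_card_nsmul _ _ _ fun b' hb' => k1 b' (mem_filter.1 hb').1).trans ?_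
      rw [smul_eq_mul, mul_left_comm]
      exact Nat.mul_le_mul_left _ (r3 A A1).2
    have k4 : (∑ b' ∈ T.filter fun b' => ¬ ρ b' = 0, (S.filter fun b => Fin.tail b = b').card) *
        B ^ (s + 1) ≤ 3 ^ e * A ^ e * (D * (10 + K) * A) := by
      rw [sum_mul]
      exact (sum_le_card_nsmul _ _ _ fun b' hb' => k2 b' (mem_filter.1 hb').1
        (mem_filter.1 hb').2).trans (Nat.mul_le_mul_right _ ((card_filter_le _ _).trans
          (card_pi_le e A A1)))
    have k5 : B ^ s * B ≤ A := (pow_succ B s).symm.le.trans (hp (by omega))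
    generalize (∑ b' ∈ T.filter fun b' => ρ b' = 0,
      (S.filter fun b => Fin.tail b = b').card) = X at k3 ⊢
    generalize (∑ b' ∈ T.filter fun b' => ¬ ρ b' = 0,
      (S.filter fun b => Fin.tail b = b').card) = Y at k4 ⊢
    calc _ = 2 * X * (B ^ s * B) + 2 * (Y * B ^ (s + 1)) := by ring
      _ ≤ 2 * (3 * (K' * A ^ e)) * A + 2 * (3 ^ e * A ^ e * (D * (10 + K) * A)) := by gcongr
      _ = A ^ (e + 1) * (6 * K' + 2 * (3 ^ e * (D * (10 + K)))) := by ring
      _ ≤ _ := Nat.mul_le_mul_left _ (by omega)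
  · refine Nat.le_of_mul_le_mul_right ?_ (by positivity : 0 < B * B)
    rw [card_eq_sum_card_fiberwise (f := Prod.snd) (t := box e A)
      (fun z hz => (mem_product.1 (mem_filter.1 hz).1).2), mul_assoc, ← mul_assoc (B ^ s),
      ← pow_succ, ← pow_succ, sum_mul]
    refine (sum_le_card_nsmul _ _ (B * (4 * (e + 2) * A)) fun b hb => ?_).trans ?_
    · by_cases h0 : rR F b = 0
      · rw [card_eq_zero.2 (filter_eq_empty_iff.2 fun z hz e0 =>
          (mem_filter.1 hz).2.1 (e0 ▸ h0)), zero_mul]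
        exact Nat.zero_le _
      obtain ⟨c1, c2⟩ := chi_monic F b
      have a1 := d2 (rR F b).natAbs ((hR b hb).trans (by
        rw [pow_add, pow_one, pow_mul B]
        exact Nat.mul_le_mul_right _ (by omega)))
      have a2 := exc_div (chi F b) c1 (by omega) _ B (B ^ (s + 1 + 1)) A
        (Int.natAbs_ne_zero.2 h0) (by exact_mod_cast a1) (by positivity) (hp (by omega))
      rw [c2] at a2
      refine le_trans (Nat.mul_le_mul_right _ (card_le_card_of_injOn Prod.fst (fun z hz => ?_)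
        fun z hz z' hz' e0 => Prod.ext e0
          ((mem_filter.1 hz).2.trans (mem_filter.1 hz').2.symm))) a2
      obtain ⟨h1, rfl⟩ := mem_filter.1 hz
      obtain ⟨h2, -, h3⟩ := mem_filter.1 h1
      refine mem_filter.2 ⟨(mem_product.1 h2).1, _, Nat.gcd_dvd_left _ _, le_trans ?_ h3.le,
        Int.gcd_dvd_right _ _⟩
      rw [← pow_mul]
      refine hp (le_trans ?_ (Nat.mul_le_mul_right s (by omega : 3 * (e + 3).choose 2 ≤ c)))
      rw [mul_right_comm]
      exact Nat.mul_le_mul_right _ (by omega)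
    · calc _ ≤ 3 ^ (e + 1) * A ^ (e + 1) * (B * (4 * (e + 2) * A)) :=
            Nat.mul_le_mul_right _ (card_pi_le (e + 1) A A1)
        _ = A ^ (e + 2) * (B * (3 ^ (e + 1) * (4 * (e + 2)))) := by ring
        _ ≤ _ := Nat.mul_le_mul_left _ (Nat.mul_le_mul_left _ (by omega))

end Pool.Agent.Work.MP_51e72e_nt.Deg
end
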