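import Pool.Agent.Work.MP_51e72e_nt.DegLevel2
import Pool.Agent.Work.MP_51e72e_nt.DegExc
import Pool.Agent.Work.MP_51e72e_nt.CubSieve
import Pool.Agent.Work.MP_51e72e_nt.CubMain1

-- merged part: Pool.Agent.Work.MP_51e72e_nt.DegLevel
section
/-!
Level of distribution beyond the length of the interval for the roots of any polynomial.
-/

set_option autoImplicit false

namespace Pool.Agent.Work.MP_51e72e_nt.Deg

open Finset Polynomial Filter Pool.Agent.Lib.LargeSieve Pool.Agent.Work.MP_51e72e_nt.Cub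

lemma card_tup_le2 {κ : Type} (J : ℕ → Finset κ) (y : κ → ℕ) (n D : ℕ) (Y1 : ℕ → ℕ)
    (hy : ∀ k < n, ∀ j ∈ J k, 0 < y j ∧ y j ≤ Y1 k)
    (hJ : ∀ k < n, ∀ v : ℕ, ((J k).filter fun j => y j = v).card ≤ D) :
    ((tup J n).card : ℝ) ≤ ∏ k ∈ range n, ((D : ℝ) * Y1 k) := by
  rw [tup, Fintype.card_piFinset, Nat.cast_prod,
    ← Fin.prod_univ_eq_prod_range (fun k => (D : ℝ) * Y1 k)]
  exact prod_le_prod (fun _ _ => Nat.cast_nonneg _) fun k _ =>
    card_le_mult_nat _ y _ D (hy k k.2) (hJ k k.2)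

theorem level_all' (d : ℕ) (hd : 2 ≤ d) : ∃ (n e0 : ℕ) (e : ℕ → ℕ), 1 ≤ n ∧ 1 ≤ e0 ∧
    (∀ k, 1 ≤ e k) ∧ ∀ f : ℤ[X], Irreducible f →
    f.natDegree = d → 0 < f.leadingCoeff → LevelAll f n e0 e := by
  obtain ⟨e, rfl⟩ := Nat.exists_eq_add_of_le' hd
  obtain ⟨ν, e0, ex, he0, hν, hex, hE⟩ := expsum e
  refine ⟨ν, e0, ex, hν, by omega, hex, fun f hf hd hl W hW hW' => ?_⟩
  obtain ⟨F, hF, hm, hdF, hev⟩ := exists_monic f hf (by omega)
  obtain ⟨l, hl'⟩ := Int.eq_ofNat_of_zero_le hl.le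
  have l0 : 0 < l := by omega
  rw [hl'] at hev hW'
  have hcl : ∀ v : ℕ, Nat.Coprime v W → Nat.Coprime v (l * W) := fun v hv =>
    Nat.Coprime.mul_right (Nat.coprime_of_dvd fun p hp p1 p2 => hp.ne_one
      (Nat.eq_one_of_dvd_coprimes hv p1 (hW' p hp (Int.natCast_dvd_natCast.mpr p2)))) hv
  filter_upwards [hE F hF hm (hdF.trans hd), eventually_ge_atTop (l * W), eventually_ge_atTop 100]
    with B hT h1 hB N L n1 n2 n3 n4 ι κ I J m r y s c x a b hfam ha hb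
  have B0 : 0 < B := by omega
  have b0 : (100 : ℝ) ≤ B := by exact_mod_cast hB
  have b1 : (0 : ℝ) < B := by linarith only [b0]
  have hp : ∀ {x y : ℕ}, x ≤ y → B ^ x ≤ B ^ y := fun h => Nat.pow_le_pow_right B0 h
  have hp' : ∀ {x y : ℕ}, x ≤ y → (B : ℝ) ^ x ≤ (B : ℝ) ^ y := fun h =>
    pow_le_pow_right₀ (by linarith only [b0]) h
  have W1 : W ≤ B := (Nat.le_mul_of_pos_left _ l0).trans h1
  have hfam' : Fam F ν (l * W) (B ^ e0) (B ^ (e0 + 1)) B (fun k => B ^ ex k)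
      (fun k => B ^ (ex k + 1)) I J m (fun i => l * r i) y (fun j => l * s j) (l * c)
      (fun i j => l * x i j) :=
    { hm := fun i hi => ⟨(hfam.hm i hi).1, hcl _ (hfam.hm i hi).2.1, (hfam.hm i hi).2.2.1,
        (hfam.hm i hi).2.2.2.1, by rw [hev]; exact (hfam.hm i hi).2.2.2.2.mul_left _⟩
      hI := hfam.hI
      hy := fun k hk j hj => ⟨(hfam.hy k hk j hj).1, (hfam.hy k hk j hj).2.1,
        hcl _ (hfam.hy k hk j hj).2.2⟩
      hJ := hfam.hJ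
      hyy := hfam.hyy
      hmy := hfam.hmy
      hx := fun i hi j hj => by
        obtain ⟨a1, a2, a3⟩ := hfam.hx i hi j hj
        simp only [← mul_sub, Nat.cast_mul]
        exact ⟨a1.mul_left _, mul_dvd_mul_left _ a2, fun k => (a3 k).mul_left _⟩ }
  have hT' := hT ι κ (l * W) I J m _ y _ _ _ (Nat.mul_pos l0 hW) h1 hfam'
  have mem : ∀ j ∈ tup J ν, ∀ k : Fin ν, j k ∈ J k := fun j hj => Fintype.mem_piFinset.mp hj
  have cI : (I.card : ℝ) ≤ B * (B : ℝ) ^ (e0 + 1) := by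
    have := card_le_mult_nat I m (B ^ (e0 + 1)) B (fun i hi =>
      ⟨(pow_pos B0 _).trans_le (hfam.hm i hi).2.2.1, (hfam.hm i hi).2.2.2.1⟩) hfam.hI
    rwa [Nat.cast_pow] at this
  have cJ := card_tup_le2 J y ν B (fun k => B ^ (ex k + 1)) (fun k hk j hj =>
    ⟨(pow_pos B0 _).trans_le (hfam.hy k hk j hj).1, (hfam.hy k hk j hj).2.1⟩) hfam.hJ
  push_cast at cJ
  rw [prod_pow_succ] at cJ
  have hy1 : ∀ j ∈ tup J ν, B ^ (∑ k ∈ range ν, ex k) ≤ W * ∏ k, y (j k) ∧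
      W * ∏ k, y (j k) ≤ B ^ (∑ k ∈ range ν, ex k + ν + 1) := fun j hj => by
    constructor
    · refine le_trans ?_ (Nat.le_mul_of_pos_left _ hW)
      rw [← prod_pow_eq_pow_sum, ← Fin.prod_univ_eq_prod_range (fun k => B ^ ex k)]
      exact prod_le_prod' fun k _ => (hfam.hy k k.2 _ (mem j hj k)).1
    · rw [pow_succ, mul_comm]
      refine Nat.mul_le_mul ?_ W1
      have : ∑ k ∈ range ν, ex k + ν = ∑ k ∈ range ν, (ex k + 1) := by
        rw [sum_add_distrib]; simp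
      rw [this, ← prod_pow_eq_pow_sum, ← Fin.prod_univ_eq_prod_range (fun k => B ^ (ex k + 1))]
      exact prod_le_prod' fun k _ => (hfam.hy k k.2 _ (mem j hj k)).2.1
  have hco : ∀ i ∈ I, ∀ j ∈ tup J ν, Nat.Coprime (m i) (W * ∏ k, y (j k)) := fun i hi j hj =>
    Nat.Coprime.mul_right (hfam.hm i hi).2.1
      (Nat.Coprime.prod_right fun k _ => hfam.hmy i hi k k.2 _ (mem j hj k))
  have N0 : 0 < N := (pow_pos B0 _).trans_le n1
  have L0 : 0 < L := Nat.pos_of_mul_pos_right (N0.trans_le n3)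
  generalize ∑ k ∈ range ν, ex k = S at *
  have main := sep_bound I (tup J ν) m (fun j => W * ∏ k, y (j k)) x N L (B ^ (3 * ν + 7))
    (B ^ e0) (B ^ (e0 + 1)) (B ^ S) (B ^ (S + ν + 1)) ((B : ℝ) ^ (e0 + S) / (B : ℝ) ^ (3 * ν + 9))
    (fun i hi => ⟨(hfam.hm i hi).2.2.1, (hfam.hm i hi).2.2.2.1⟩) hy1 (pow_pos B0 _) L0
    (pow_pos B0 _) ?_ (fun h h0 hh z β hz hβ => ?_) a b ha hb
  rotate_left
  · calc 2 * B ^ (3 * ν + 7) < B * B ^ (3 * ν + 7) :=
          Nat.mul_lt_mul_of_pos_right (by omega) (pow_pos B0 _)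
      _ = B ^ (3 * ν + 8) := by ring
      _ ≤ _ := hp (by omega)
  · rw [le_div_iff₀ (by positivity)]
    refine le_trans (mul_le_mul_of_nonneg_right ?_ (by positivity))
      (hT' h h0 (by rw [← Int.natCast_natAbs] at hh; exact_mod_cast hh) z hz)
    rw [sum_comm]
    refine (norm_sum_le _ _).trans (sum_le_sum fun j hj => ?_)
    refine le_trans (le_of_eq ?_) (mul_le_of_le_one_left (norm_nonneg _) (hβ j hj))
    rw [← norm_mul, mul_sum]
    congr 1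
    refine sum_congr rfl fun i hi => ?_
    rw [if_pos (hco i hi j hj), mul_comm (z i), mul_assoc]
    congr 3
    have : (l : ℝ) ≠ 0 := by positivity
    push_cast
    rw [mul_left_comm (h : ℝ), mul_assoc (l : ℝ), mul_left_comm (m i : ℝ) l,
      mul_div_mul_left _ _ this]
  rw [sum_congr rfl fun i hi => sum_congr rfl fun j hj => if_pos (hco i hi j hj)] at main
  refine main.trans ?_
  push_cast
  have N1 : (B : ℝ) ^ (e0 + S) ≤ N := by exact_mod_cast n1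
  have N2 : (N : ℝ) ≤ L * B := by exact_mod_cast n3
  have N3 : (L : ℝ) ≤ N := by exact_mod_cast n4
  have N4 : (0 : ℝ) < N := by exact_mod_cast N0
  have L1 : (0 : ℝ) < L := by exact_mod_cast L0
  have p0 : (0 : ℝ) < (B : ℝ) ^ S := by positivity
  have s1 : ((N : ℝ) + 2 * L) / (B : ℝ) ^ S + 2 ≤ 5 * N / (B : ℝ) ^ S := by
    clear * - N L B S p0 e0 N1 N3 hp' e ν f W F l
    rw [div_add' _ _ _ p0.ne']
    refine div_le_div_of_nonneg_right ?_ p0.le
    linarith [hp' (show S ≤ e0 + S by omega)]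
  have v1 : 2 * (B : ℝ) ^ (3 * ν + 7) * (((N : ℝ) + 2 * L) / (B : ℝ) ^ S + 2) *
      ((B : ℝ) ^ (e0 + S) / (B : ℝ) ^ (3 * ν + 9)) / (B : ℝ) ^ e0 ≤ 10 * (N / (B : ℝ) ^ 2) :=
    calc _ ≤ 2 * (B : ℝ) ^ (3 * ν + 7) * (5 * N / (B : ℝ) ^ S) *
          ((B : ℝ) ^ (e0 + S) / (B : ℝ) ^ (3 * ν + 9)) / (B : ℝ) ^ e0 := by clear * - B ν N L S e0 s1 hB; gcongr
      _ = _ := by field_simp; ring
  have v2 : (B : ℝ) ^ (e0 + 1) * (B : ℝ) ^ (S + ν + 1) / (L * (B : ℝ) ^ (3 * ν + 7))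
      ≤ N / (B : ℝ) ^ 2 / (B * (B : ℝ) ^ (e0 + 1) * (B : ℝ) ^ (S + 2 * ν)) := by
    clear * - B e0 S ν L N L0 hB N1 N2 N0
    rw [div_div, div_le_div_iff₀ (by positivity) (by positivity)]
    calc _ = (B : ℝ) ^ (e0 + S) * (B : ℝ) ^ (e0 + S) * (B : ℝ) ^ (3 * ν + 6) := by ring
      _ ≤ N * (L * B) * (B : ℝ) ^ (3 * ν + 6) := by
          gcongr
          exact N1.trans N2
      _ = _ := by ring
  have v3 : 13 * ((B : ℝ) ^ (3 * ν + 7)) ^ 2 * (N + L) / (((B : ℝ) ^ e0) ^ 2 * (B : ℝ) ^ S)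
      ≤ 26 * (N / (B : ℝ) ^ 2) / (B * (B : ℝ) ^ (e0 + 1) * (B : ℝ) ^ (S + 2 * ν)) := by
    clear * - B ν N L e0 S hB N3 hp' he0 N0
    rw [← mul_div_assoc, div_div, div_le_div_iff₀ (by positivity) (by positivity)]
    calc _ = 13 * (N + L) * ((B : ℝ) ^ (e0 + S) * (B : ℝ) ^ (8 * ν + 18)) := by ring
      _ ≤ 13 * (N + N) * ((B : ℝ) ^ (e0 + S) * (B : ℝ) ^ e0) := by
          gcongr ?_ * (_ + ?_) * (_ * ?_)
          exact hp' he0
      _ = _ := by ring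
  have v4 := mul_le_mul (mul_le_mul cI cJ (Nat.cast_nonneg _) (by positivity))
    (add_le_add v2 v3) (by positivity) (by positivity)
  rw [← add_div, mul_div_cancel₀ _ (by positivity)] at v4
  refine (add_le_add v1 v4).trans ?_
  have : (0 : ℝ) ≤ N / (B : ℝ) ^ 2 := by positivity
  calc _ ≤ B * (N / (B : ℝ) ^ 2) := by linarith only [this, b0, mul_nonneg_of_nonpos_of_nonpos (Mathlib.Tactic.Linarith.sub_nonpos_of_le (Mathlib.Tactic.Linarith.natCast_nonneg ℝ B)) (Mathlib.Tactic.Linarith.sub_nonpos_of_le this), mul_nonneg_of_nonpos_of_nonpos (Mathlib.Tactic.Linarith.sub_nonpos_of_le b0) (Mathlib.Tactic.Linarith.sub_nonpos_of_le this)]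
    _ = _ := by field_simp

theorem level_all (d : ℕ) (hd : 2 ≤ d) : ∃ (n e0 : ℕ) (e : ℕ → ℕ), ∀ f : ℤ[X], Irreducible f →
    f.natDegree = d → 0 < f.leadingCoeff → LevelAll f n e0 e := by
  obtain ⟨n, e0, e, -, -, -, h⟩ := level_all' d hd
  exact ⟨n, e0, e, h⟩

end Pool.Agent.Work.MP_51e72e_nt.Deg
end

-- merged part: Pool.Agent.Work.MP_51e72e_nt.CubLevel
section
/-!
Level of distribution beyond the length of the interval for the roots of a cubic polynomial.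
-/

set_option autoImplicit false

namespace Pool.Agent.Work.MP_51e72e_nt.Cub

open Finset Filter Pool.Agent.Lib.LargeSieve

lemma mono_aux3 {x y x' y' e B w t t' d : ℝ} (h1 : x ≤ x') (h2 : y ≤ y') (h3 : e ≤ B) (h4 : t ≤ t')
    (h5 : 0 ≤ x') (h6 : 0 ≤ y) (h7 : 0 ≤ e) (h8 : 0 ≤ t) (h9 : 0 ≤ w) (h11 : 0 ≤ d) :
    x * (y * (e * (w * t / d))) ≤ x' * (y' * (B * (w * t' / d))) := by
  have := h6.trans h2
  have := h7.trans h3
  gcongr

theorem expsum_cubic (f : Polynomial ℤ) (hf : Irreducible f) (hd : f.natDegree = 3)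
    (hl : 0 < f.leadingCoeff) (W : ℕ) (hW : 0 < W)
    (hW' : ∀ p : ℕ, p.Prime → (p : ℤ) ∣ 3 * f.leadingCoeff → p ∣ W) : ∀ᶠ B : ℕ in atTop,
    ∀ (ι κ : Type) (I : Finset ι) (J : Finset κ) (m : ι → ℕ) (r : ι → ℤ) (y : κ → ℕ) (s : κ → ℤ)
      (n : ι → κ → ℤ),
      (∀ i ∈ I, Squarefree (m i) ∧ Nat.Coprime (m i) W ∧ B ^ 1079940 ≤ m i ∧
        m i ≤ B ^ 1080000 ∧ (m i : ℤ) ∣ f.eval (r i)) →
      (∀ x : ℕ, (I.filter fun i => m i = x).card ≤ B) →
      (∀ j ∈ J, W * B ^ 349980 < y j ∧ y j ≤ W * B ^ 349990) →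
      (∀ x : ℕ, (J.filter fun j => y j = x).card ≤ B) →
      (∀ i ∈ I, ∀ j ∈ J, Nat.Coprime (m i) (y j) →
        (m i : ℤ) ∣ n i j - r i ∧ (y j : ℤ) ∣ n i j - s j) →
      ∀ h : ℤ, h ≠ 0 → |h| ≤ (B ^ 100 : ℕ) →
      ∀ (z : ι → ℂ) (β : κ → ℂ), (∀ i ∈ I, ‖z i‖ ≤ 1) → (∀ j ∈ J, ‖β j‖ ≤ 1) →
      ‖∑ i ∈ I, ∑ j ∈ J, if Nat.Coprime (m i) (y j) then
        z i * β j * ee ((h : ℝ) * n i j / (m i * y j)) else 0‖ ≤ (B : ℝ) ^ 1429799 := by
  obtain ⟨P, Q, t, hF, hPQ⟩ := exists_depressed f hf hd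
  obtain ⟨l, hl'⟩ := Int.eq_ofNat_of_zero_le (show 0 ≤ 3 * f.leadingCoeff by omega)
  have l0 : 0 < l := by omega
  rw [hl'] at hPQ hW'
  filter_upwards [typeII_pow hF, eventually_ge_atTop (l * W), eventually_ge_atTop t.natAbs,
    eventually_ge_atTop 1000] with B hT h1 h2 hB ι κ I J m r y s n hm hI hy hJ hn h h0 hh z β hz hβ
  have B0 : 0 < B := by omega
  have b0 : (1000 : ℝ) ≤ B := by exact_mod_cast hB
  have hp' : ∀ {u v : ℕ}, u ≤ v → (B : ℝ) ^ u ≤ (B : ℝ) ^ v := fun h =>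
    pow_le_pow_right₀ (by linarith only [b0]) h
  have hcl : ∀ i ∈ I, Nat.Coprime (m i) l := fun i hi =>
    Nat.coprime_of_dvd fun p hp p1 p2 => hp.ne_one (Nat.eq_one_of_dvd_coprimes (hm i hi).2.1 p1
      (hW' p hp (Int.natCast_dvd_natCast.mpr p2)))
  have hcop : ∀ i ∈ I, ∀ j, Nat.Coprime (m i) (l * y j) ↔ Nat.Coprime (m i) (y j) := fun i hi j =>
    ⟨Nat.Coprime.coprime_mul_left_right, (hcl i hi).mul_right⟩
  have hy1 : ∀ j ∈ J, B ^ 349980 < y j := fun j hj =>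
    (Nat.le_mul_of_pos_left _ hW).trans_lt (hy j hj).1
  have hy2 : ∀ j ∈ J, l * y j ≤ B ^ 349991 := fun j hj =>
    calc l * y j ≤ l * (W * B ^ 349990) := Nat.mul_le_mul_left _ (hy j hj).2
      _ = l * W * B ^ 349990 := (mul_assoc _ _ _).symm
      _ ≤ B * B ^ 349990 := Nat.mul_le_mul_right _ h1
      _ = _ := by ring
  have hh' : h.natAbs ≤ B ^ 100 := by rw [← Int.natCast_natAbs] at hh; exact_mod_cast hh
  have main := hT ι κ I J m (fun i => l * r i + t) (fun j => l * y j) (fun j => l * s j + t)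
    (fun i j => l * n i j + t) h h0 hh'
    (fun i hi => ⟨(hm i hi).1, (hm i hi).2.2.1, (hm i hi).2.2.2.1, by
      rw [hPQ]; exact (hm i hi).2.2.2.2.mul_left _⟩) hI
    (fun j hj => ⟨(hy1 j hj).trans_le (Nat.le_mul_of_pos_left _ l0), hy2 j hj⟩)
    (fun x => le_trans (card_le_card fun j hj => ?_) (hJ (x / l))) (fun i hi j hj hc => ?_)
    z β hz hβ
  rotate_left
  · rw [mem_filter] at hj ⊢
    exact ⟨hj.1, by rw [← hj.2, Nat.mul_div_cancel_left _ l0]⟩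
  · obtain ⟨a1, a2⟩ := hn i hi j hj ((hcop i hi j).mp hc)
    rw [add_sub_add_right_eq_sub, add_sub_add_right_eq_sub, ← mul_sub, ← mul_sub, Nat.cast_mul]
    exact ⟨a1.mul_left _, mul_dvd_mul_left _ a2⟩
  have cI : (I.card : ℝ) ≤ B * (B : ℝ) ^ 1080000 := by
    have := card_le_mult_nat I m (B ^ 1080000) B (fun i hi =>
      ⟨(pow_pos B0 _).trans_le (hm i hi).2.2.1, (hm i hi).2.2.2.1⟩) hI
    rwa [Nat.cast_pow] at this
  have cJ : (J.card : ℝ) ≤ B * (B : ℝ) ^ 349991 := by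
    have := card_le_mult_nat J y (B ^ 349991) B (fun j hj =>
      ⟨(pow_pos B0 _).trans (hy1 j hj), (Nat.le_mul_of_pos_left _ l0).trans (hy2 j hj)⟩) hJ
    rwa [Nat.cast_pow] at this
  have d1 : ∀ i ∈ I, ∀ j ∈ J, ‖(if Nat.Coprime (m i) (y j) then
      z i * β j * ee ((h : ℝ) * n i j / (m i * y j)) else 0) -
      (if Nat.Coprime (m i) (l * y j) then z i * β j *
        ee ((h : ℝ) * (l * n i j + t : ℤ) / (m i * (l * y j : ℕ))) else 0)‖
      ≤ 7 * ((B : ℝ) ^ 100 * |(t : ℝ)| / ((B : ℝ) ^ 1079940 * (B : ℝ) ^ 349980)) := by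
    clear * - ι I κ J m y z β h n l t B hcop r f W hm hy1 l0 hh hB h0 hz hβ b0
    intro i hi j hj
    simp only [hcop i hi j]
    split_ifs with hc
    swap
    · rw [sub_zero, norm_zero]; positivity
    have u4 : (B : ℝ) ^ 1079940 ≤ m i := by exact_mod_cast (hm i hi).2.2.1
    have u5 : (B : ℝ) ^ 349980 ≤ y j := by exact_mod_cast (hy1 j hj).le
    have u6 : (1 : ℝ) ≤ l := by exact_mod_cast l0
    have u3 : |(h : ℝ)| ≤ (B : ℝ) ^ 100 := by exact_mod_cast hh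
    have m0 : (0 : ℝ) < m i := lt_of_lt_of_le (by positivity) u4
    have y0 : (0 : ℝ) < y j := lt_of_lt_of_le (by positivity) u5
    have e1 : (h : ℝ) * (l * n i j + t : ℤ) / (m i * (l * y j : ℕ)) =
        (h : ℝ) * n i j / (m i * y j) + h * t / (m i * (l * y j)) := by
      clear * - h l n i j t m y l0 y0 m0 h0
      push_cast
      field_simp
    rw [e1, ee_add, ← mul_sub, ← mul_one_sub, norm_mul, norm_mul, norm_mul, norm_ee, one_mul,
      norm_sub_rev]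
    refine (mul_le_of_le_one_left (norm_nonneg _)
      (mul_le_one₀ (hz i hi) (norm_nonneg _) (hβ j hj))).trans
      ((norm_ee_sub_one_le _).trans (mul_le_mul_of_nonneg_left ?_ (by norm_num)))
    rw [abs_div, abs_mul, abs_of_pos (show (0 : ℝ) < m i * (l * y j) by positivity)]
    have b1 : (0 : ℝ) < B := by linarith only [b0]
    exact div_le_div₀ (mul_nonneg (pow_pos b1 _).le (abs_nonneg _))
      (mul_le_mul_of_nonneg_right u3 (abs_nonneg _))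
      (mul_pos (pow_pos b1 _) (pow_pos b1 _)) (mul_le_mul u4 (u5.trans (le_mul_of_one_le_left y0.le u6)) (by positivity)
        m0.le)
  have t0 : |(t : ℝ)| ≤ B := by
    rw [← Int.cast_abs, ← Int.natCast_natAbs]; exact_mod_cast h2
  have t2 : (I.card : ℝ) * (J.card * (7 * ((B : ℝ) ^ 100 * |(t : ℝ)|
      / ((B : ℝ) ^ 1079940 * (B : ℝ) ^ 349980)))) ≤ (B : ℝ) ^ 1429798 :=
    calc _ ≤ (B * (B : ℝ) ^ 1080000) * ((B * (B : ℝ) ^ 349991) * (B * ((B : ℝ) ^ 100 *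
          B / ((B : ℝ) ^ 1079940 * (B : ℝ) ^ 349980)))) :=
          mono_aux3 cI cJ (by linarith only [b0]) t0 (by positivity) (by positivity) (by positivity)
            (by positivity) (by positivity) (by positivity)
      _ = (B : ℝ) ^ 175 * ((B : ℝ) ^ 1079940 * (B : ℝ) ^ 349980)
          / ((B : ℝ) ^ 1079940 * (B : ℝ) ^ 349980) := by ring
      _ = (B : ℝ) ^ 175 := mul_div_cancel_right₀ _ (by positivity)
      _ ≤ _ := hp' (by norm_num)
  have t3 : (B : ℝ) ^ 1429798 + 3 * (B : ℝ) ^ 1429798 ≤ (B : ℝ) ^ 1429799 :=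
    calc _ = 4 * (B : ℝ) ^ 1429798 := by ring
      _ ≤ B * (B : ℝ) ^ 1429798 := mul_le_mul_of_nonneg_right (by linarith only [b0]) (by positivity)
      _ = _ := by ring
  refine (norm_le_norm_sub_add _ _).trans (le_trans (add_le_add (le_trans ?_ t2) main) t3)
  rw [← sum_sub_distrib]
  refine (norm_sum_le _ _).trans ((sum_le_card_nsmul _ _ _ fun i hi => ?_).trans
    (nsmul_eq_mul _ _).le)
  rw [← sum_sub_distrib]
  exact (norm_sum_le _ _).trans ((sum_le_card_nsmul _ _ _ (d1 i hi)).trans (nsmul_eq_mul _ _).le)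

lemma mono_aux4 {H N L Y Bd M B X : ℝ} (h0 : 0 ≤ H) (h1 : 2 ≤ B) (h2 : (N + 2 * L) / Y + 2 ≤ X)
    (h3 : 0 ≤ Bd) (h4 : 0 ≤ M) (h5 : 0 ≤ (N + 2 * L) / Y + 2) :
    2 * H * ((N + 2 * L) / Y + 2) * Bd / M ≤ B * H * X * Bd / M := by
  have : 0 ≤ B := by linarith only [h1]
  gcongr

lemma mono_aux5 {x y x' y' u L L' H v B N N' d : ℝ} (h1 : x ≤ x') (h2 : y ≤ y') (h3 : L' ≤ L)
    (h4 : N ≤ N') (h5 : 13 ≤ B) (a1 : 0 ≤ x') (a2 : 0 ≤ y) (a3 : 0 < L') (a4 : 0 < H) (a5 : 0 ≤ u)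
    (a6 : 0 ≤ v) (a7 : 0 ≤ N) (a8 : 0 ≤ d) :
    x * y * (u / (L * H) + 13 * v * N / d) ≤ x' * y' * (u / (L' * H) + B * v * N' / d) := by
  have := a2.trans h2
  have := a3.trans_le h3
  have : 0 ≤ B := by linarith only [h5]
  gcongr

theorem level_cubic (f : Polynomial ℤ) (hf : Irreducible f) (hd : f.natDegree = 3)
    (hl : 0 < f.leadingCoeff) (W : ℕ) (hW : 0 < W)
    (hW' : ∀ p : ℕ, p.Prime → (p : ℤ) ∣ 3 * f.leadingCoeff → p ∣ W) :
    ∀ᶠ B : ℕ in atTop, ∀ N L : ℕ, N ≤ 2 * B ^ 1429950 → B ^ 1429949 ≤ L → L ≤ N →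
      Level f W N L (B ^ 1079940) (B ^ 1080000) (W * B ^ 349980) (W * B ^ 349990) B
        ((B : ℝ) ^ 1429940) := by
  filter_upwards [expsum_cubic f hf hd hl W hW hW', eventually_ge_atTop W,
    eventually_ge_atTop 1000] with B hT h1 hB N L n1 n2 n3 ι κ I J m y r s n a b hm hI hy hJ hn
    ha hb
  have B0 : 0 < B := by omega
  have b0 : (1000 : ℝ) ≤ B := by exact_mod_cast hB
  have hp' : ∀ {u v : ℕ}, u ≤ v → (B : ℝ) ^ u ≤ (B : ℝ) ^ v := fun h =>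
    pow_le_pow_right₀ (by linarith only [b0]) h
  have hy1 : ∀ j ∈ J, B ^ 349980 ≤ y j ∧ y j ≤ B ^ 349991 := fun j hj =>
    ⟨(Nat.le_mul_of_pos_left _ hW).trans (hy j hj).1.le, (hy j hj).2.trans
      ((Nat.mul_le_mul_right _ h1).trans (le_of_eq (by ring)))⟩
  have cI : (I.card : ℝ) ≤ B * (B : ℝ) ^ 1080000 := by
    have := card_le_mult_nat I m (B ^ 1080000) B (fun i hi =>
      ⟨(pow_pos B0 _).trans_le (hm i hi).2.2.1, (hm i hi).2.2.2.1⟩) hI
    rwa [Nat.cast_pow] at this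
  have cJ : (J.card : ℝ) ≤ B * (B : ℝ) ^ 349991 := by
    have := card_le_mult_nat J y (B ^ 349991) B (fun j hj =>
      ⟨(pow_pos B0 _).trans_le (hy1 j hj).1, (hy1 j hj).2⟩) hJ
    rwa [Nat.cast_pow] at this
  have main := sep_bound I J m y n N L (B ^ 100) (B ^ 1079940) (B ^ 1080000) (B ^ 349980)
    (B ^ 349991) ((B : ℝ) ^ 1429799) (fun i hi => ⟨(hm i hi).2.2.1, (hm i hi).2.2.2.1⟩) hy1
    (pow_pos B0 _) ((pow_pos B0 _).trans_le n2) (pow_pos B0 _) ?_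
    (hT ι κ I J m r y s n hm hI hy hJ hn) a b ha hb
  swap
  · calc 2 * B ^ 100 < B * B ^ 100 := Nat.mul_lt_mul_of_pos_right (by omega) (pow_pos B0 _)
      _ = B ^ 101 := by ring
      _ ≤ _ := Nat.pow_le_pow_right B0 (by norm_num)
  refine main.trans ?_
  push_cast
  have N1 : (N : ℝ) ≤ 2 * (B : ℝ) ^ 1429950 := by exact_mod_cast n1
  have N2 : (B : ℝ) ^ 1429949 ≤ L := by exact_mod_cast n2
  have N3 : (L : ℝ) ≤ N := by exact_mod_cast n3
  have p0 : (0 : ℝ) < (B : ℝ) ^ 349980 := by positivity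
  have s1 : ((N : ℝ) + 2 * L) / (B : ℝ) ^ 349980 + 2 ≤ (B : ℝ) ^ 1079971 := by
    have c1 : ((N : ℝ) + 2 * L) / (B : ℝ) ^ 349980 ≤ 6 * (B : ℝ) ^ 1079970 := by
      rw [div_le_iff₀ p0]
      calc _ ≤ 6 * (B : ℝ) ^ 1429950 := by linarith only [N1, N3]
        _ = _ := by ring
    have c2 : 1 ≤ (B : ℝ) ^ 1079970 := one_le_pow₀ (by linarith only [b0])
    calc _ ≤ 8 * (B : ℝ) ^ 1079970 := by linarith only [c1, c2]
      _ ≤ B * (B : ℝ) ^ 1079970 := mul_le_mul_of_nonneg_right (by linarith only [b0]) (by linarith only [c2])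
      _ = _ := by ring
  have s2 : (N : ℝ) + L ≤ B * (B : ℝ) ^ 1429950 :=
    le_trans (by linarith only [N1, N3]) (mul_le_mul_of_nonneg_right (show (4 : ℝ) ≤ B by linarith only [b0])
      (by positivity))
  refine (add_le_add (mono_aux4 (B := B) (by positivity) (by linarith only [b0]) s1 (by positivity)
    (by positivity) (by positivity)) (mono_aux5 (B := B) cI cJ N2 s2 (by linarith only [b0]) (by positivity)
    (by positivity) (by positivity) (by positivity) (by positivity) (by positivity)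
    (by positivity) (by positivity))).trans ?_
  calc _ = (B : ℝ) ^ 1429931 * (B : ℝ) ^ 1079940 / (B : ℝ) ^ 1079940
        + ((B : ℝ) ^ 1429935 * ((B : ℝ) ^ 1429949 * (B : ℝ) ^ 100)
            / ((B : ℝ) ^ 1429949 * (B : ℝ) ^ 100)
          + (B : ℝ) ^ 350285 * (((B : ℝ) ^ 1079940) ^ 2 * (B : ℝ) ^ 349980)
            / (((B : ℝ) ^ 1079940) ^ 2 * (B : ℝ) ^ 349980)) := by ring
    _ = (B : ℝ) ^ 1429931 + ((B : ℝ) ^ 1429935 + (B : ℝ) ^ 350285) := by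
        rw [mul_div_cancel_right₀ _ (by positivity), mul_div_cancel_right₀ _ (by positivity),
          mul_div_cancel_right₀ _ (by positivity)]
    _ ≤ (B : ℝ) ^ 1429939 + ((B : ℝ) ^ 1429939 + (B : ℝ) ^ 1429939) :=
        add_le_add (hp' (by norm_num)) (add_le_add (hp' (by norm_num)) (hp' (by norm_num)))
    _ = 3 * (B : ℝ) ^ 1429939 := by ring
    _ ≤ B * (B : ℝ) ^ 1429939 := mul_le_mul_of_nonneg_right (by linarith only [b0]) (by positivity)
    _ = _ := by ring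

end Pool.Agent.Work.MP_51e72e_nt.Cub
end

-- merged part: Pool.Agent.Work.MP_51e72e_nt.CubMain
section
/-!
The upper bound for prime values of a cubic polynomial.
-/

set_option autoImplicit false

namespace Pool.Agent.Work.MP_51e72e_nt.Cub

open Finset Filter Topology Pool.Agent.Lib.ANT

lemma count_le_sifted (f : Polynomial ℤ) {W N n0 : ℕ} {z : ℝ} (hz : 0 ≤ z)
    (hW : ∀ p : ℕ, p.Prime → p ∣ W → (p : ℝ) ≤ z)
    (h0 : ∀ n : ℕ, n0 ≤ n → (n : ℝ) / 2 ≤ |((f.eval (n : ℤ) : ℤ) : ℝ)|) :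
    (((Icc 1 N).filter (fun n : ℕ => (f.eval (n : ℤ)).natAbs.Prime)).card : ℝ)
      ≤ ((Icc 1 N).filter (fun n : ℕ => Nat.Coprime (f.eval (n : ℤ)).natAbs W ∧
        ∀ p ∈ psOf W z, ¬ (p : ℤ) ∣ f.eval (n : ℤ))).card + (n0 + 2 * z) := by
  have h1 : (Icc 1 N).filter (fun n : ℕ => (f.eval (n : ℤ)).natAbs.Prime) ⊆
      (Icc 1 N).filter (fun n : ℕ => Nat.Coprime (f.eval (n : ℤ)).natAbs W ∧
        ∀ p ∈ psOf W z, ¬ (p : ℤ) ∣ f.eval (n : ℤ)) ∪ Icc 1 (n0 + ⌊2 * z⌋₊) := by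
    intro n hn
    rw [mem_filter] at hn
    rw [mem_union, mem_filter]
    by_cases h : n ≤ n0 + ⌊2 * z⌋₊
    · exact Or.inr (mem_Icc.mpr ⟨(mem_Icc.mp hn.1).1, h⟩)
    have e3 := h0 n (by omega)
    have e4 : ¬ ((f.eval (n : ℤ)).natAbs : ℝ) ≤ z := fun hh => by
      rw [Nat.cast_natAbs, Int.cast_abs] at hh
      exact h ((Nat.le_floor (by linarith only [e3, hh])).trans (Nat.le_add_left _ _))
    refine Or.inl ⟨hn.1, (Nat.Prime.coprime_iff_not_dvd hn.2).mpr fun hh => e4 (hW _ hn.2 hh),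
      fun p hp hd => e4 ?_⟩
    obtain ⟨p1, p2, -⟩ := (mem_psOf hz).mp hp
    rwa [← (Nat.prime_dvd_prime_iff_eq p1 hn.2).mp (Int.natCast_dvd.mp hd)]
  have h2 := (card_le_card h1).trans (card_union_le _ _)
  rw [Nat.card_Icc, Nat.add_sub_cancel] at h2
  have h3 : (⌊2 * z⌋₊ : ℝ) ≤ 2 * z := Nat.floor_le (by positivity)
  have h4 := (Nat.cast_le (α := ℝ)).mpr h2
  push_cast at h4
  linarith only [h3, h4]

lemma eventually_root {J : ℕ} (hJ : J ≠ 0) {P : ℕ → Prop}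
    (h : ∀ᶠ B : ℕ in atTop, ∀ N : ℕ, B ^ J ≤ N → N ≤ 2 * B ^ J → P N) :
    ∀ᶠ N : ℕ in atTop, P N := by
  obtain ⟨B0, hB0⟩ := eventually_atTop.mp h
  filter_upwards [eventually_ge_atTop ((B0 + 2 * J) ^ J)] with N hN
  have b1 := (Nat.le_nthRoot_iff hJ).mpr hN
  have b2 : Nat.nthRoot J N ^ J ≤ N := Nat.pow_nthRoot_le (Or.inl hJ)
  have b3 := Nat.lt_pow_nthRoot_add_one hJ N
  generalize Nat.nthRoot J N = B at b1 b2 b3
  have b4 : (2 * J : ℝ) ≤ B := by exact_mod_cast (Nat.le_add_left _ _).trans b1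
  have J0 : (0 : ℝ) < J := Nat.cast_pos.mpr (Nat.pos_of_ne_zero hJ)
  have b5 : ((B : ℝ) + 1) ^ J ≤ 2 * (B : ℝ) ^ J := by
    have b0 : (0 : ℝ) < B := by linarith only [b4, J0]
    have a1 : (B : ℝ) + 1 ≤ Real.exp (1 / B) * B := by
      have := mul_le_mul_of_nonneg_right (Real.add_one_le_exp (1 / B)) b0.le
      rwa [add_mul, one_div_mul_cancel b0.ne', one_mul, add_comm] at this
    refine (pow_le_pow_left₀ (by positivity) a1 _).trans ?_
    rw [mul_pow, ← Real.exp_nat_mul]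
    gcongr
    refine le_trans (Real.exp_le_exp.mpr ?_) (Real.exp_log two_pos).le
    rw [mul_one_div, div_le_iff₀ b0]
    linarith only [b4, J0, Real.log_two_gt_d9, mul_nonneg_of_nonpos_of_nonpos (Mathlib.Tactic.Linarith.sub_nonpos_of_le (Mathlib.Tactic.Linarith.natCast_nonneg ℝ B)) (le_of_lt (Mathlib.Tactic.Linarith.sub_neg_of_lt Real.log_two_gt_d9))]
  refine hB0 B ((Nat.le_add_right _ _).trans b1) N b2 (b3.le.trans ?_)
  exact_mod_cast b5

lemma sizes {B v : ℝ} (hB : 1 ≤ B) (v1 : 1 ≤ v) (hv : v ^ 20 ≤ B) {k : ℕ} (hk : k ≤ 1429949) :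
    B ^ k ≤ B ^ 1429950 / v ^ 20 := by
  rw [le_div_iff₀ (by positivity)]
  calc B ^ k * v ^ 20 ≤ B ^ 1429949 * B := by gcongr
    _ = _ := (pow_succ _ _).symm

lemma cubic_upper_B (f : Polynomial ℤ) (hf : Irreducible f) (hd : f.natDegree = 3)
    (hl : 0 < f.leadingCoeff) {w W : ℕ} (hw : 12 ≤ w) (hw' : 3 * f.leadingCoeff ≤ w)
    (hW0 : 0 < W) (hW : ∀ p : ℕ, p.Prime → (p ∣ W ↔ p ≤ w)) {c : ℝ} (hc : 0 < c)
    (h : Tendsto (fun u => selSum (omega f) w u / u) atTop (𝓝 c)) {η : ℝ} (hη : 0 < η) :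
    ∀ᶠ B : ℕ in atTop, ∀ N : ℕ, B ^ 1429950 ≤ N → N ≤ 2 * B ^ 1429950 →
      (((Icc 1 N).filter (fun n : ℕ => (f.eval (n : ℤ)).natAbs.Prime)).card : ℝ) *
          Real.log |((f.eval (N : ℤ) : ℤ) : ℝ)| / (N : ℝ)
        ≤ (6 - 1 / 10 ^ 9) * ((((range W).filter
          (fun c : ℕ => Nat.Coprime (f.eval (c : ℤ)).natAbs W)).card : ℝ) / W / c) + η := by
  have hprim := hf.isPrimitive (by omega)
  obtain ⟨n0, hn0⟩ := eventually_atTop.mp (growth f (by omega) (δ := 1 / 10 ^ 11) (by norm_num))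
  have κ0 : (0 : ℝ) < 1 / 10 ^ 6 := by norm_num
  filter_upwards [level_cubic f hf hd hl W hW0 fun p hp hh => (hW p hp).mpr (by
      have := Int.le_of_dvd (by omega) hh; omega), GG_lower hf hd hw hW hc h,
    eventually_divisors_le 1429950 κ0, eventually_log_pow_le (Real.exp 288 * 1429950 ^ 4) 4 κ0,
    eventually_log_pow_le (4 * 1429950) 1 κ0, eventually_log_pow_le ((120 * W + 3) / η) 0 κ0,
    tendsto_logB.eventually_ge_atTop (10 ^ 11), eventually_ge_atTop (10 ^ 11 + 3 * W + n0 + w)]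
    with B hLev hG hD hΛ hlog herr hu hB N hN1 hN2
  have B1 : 1 ≤ B := by omega
  have B2 : 10 ^ 11 ≤ B := by omega
  have B3 : 3 * W ≤ B := by omega
  have B4 : n0 ≤ B := by omega
  have B5 : w ≤ B := by omega
  clear hB
  have b1 : (1 : ℝ) ≤ B := by exact_mod_cast B1
  have b0 : (0 : ℝ) < B := by linarith only [b1]
  have hBN : B ≤ N := (le_self_pow₀ B1 (by norm_num)).trans hN1
  have N0 : (0 : ℝ) < N := by exact_mod_cast B1.trans hBN
  have hN1' : (B : ℝ) ^ 1429950 ≤ N := by exact_mod_cast hN1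
  have hN2' : (N : ℝ) ≤ 2 * (B : ℝ) ^ 1429950 := by exact_mod_cast hN2
  have lv : Real.log ((B : ℝ) ^ (1 / 10 ^ 6 : ℝ)) = 1 / 10 ^ 6 * Real.log B := Real.log_rpow b0 _
  have v1 : 1 ≤ (B : ℝ) ^ (1 / 10 ^ 6 : ℝ) := Real.one_le_rpow b1 κ0.le
  have hv : ((B : ℝ) ^ (1 / 10 ^ 6 : ℝ)) ^ 20 ≤ B := by
    rw [← Real.rpow_natCast, ← Real.rpow_mul b0.le]
    exact (Real.rpow_le_rpow_of_exponent_le b1 (by norm_num)).trans_eq (Real.rpow_one _)
  generalize (B : ℝ) ^ (1 / 10 ^ 6 : ℝ) = v at *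
  have v0 : 0 < v := by linarith only [hu, hlog]
  have hvk : ∀ k : ℕ, k ≤ 20 → v ^ k ≤ B := fun k hk => (pow_le_pow_right₀ v1 hk).trans hv
  obtain ⟨z, hz⟩ : ∃ z : ℝ, z = (B : ℝ) ^ 714975 / v ^ 10 := ⟨_, rfl⟩
  have z1 : z ≤ (B : ℝ) ^ 714975 := hz ▸ div_le_self (by positivity) (one_le_pow₀ v1)
  have z2 : (B : ℝ) ^ 365005 ≤ z := by
    rw [hz, le_div_iff₀ (by positivity)]
    calc (B : ℝ) ^ 365005 * v ^ 10 ≤ (B : ℝ) ^ 365005 * B := by gcongr; exact hvk _ (by norm_num)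
      _ = (B : ℝ) ^ 365006 := (pow_succ _ _).symm
      _ ≤ _ := pow_le_pow_right₀ b1 (by norm_num)
  have z3 : z ^ 2 = (B : ℝ) ^ 1429950 / v ^ 20 := by rw [hz, div_pow, ← pow_mul, ← pow_mul]
  have z4 : (B : ℝ) ≤ z := (le_self_pow₀ b1 (by norm_num)).trans z2
  have z5 : 1 ≤ z := b1.trans z4
  have z0 : 0 < z := by linarith only [b1, z4]
  have z6 : z ^ 2 ≤ (B : ℝ) ^ 1429950 := z3 ▸ div_le_self (by positivity) (one_le_pow₀ v1)
  have lz : Real.log z = (714975 - 1 / 10 ^ 5) * Real.log B := by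
    rw [hz, Real.log_div (by positivity) (by positivity), Real.log_pow, Real.log_pow, lv]
    push_cast
    ring
  have hG' := hG z lz (by rw [Nat.cast_pow]; exact z2)
  have hL1 : B ^ 1429949 ≤ N / 10 ^ 11 := by
    rw [Nat.le_div_iff_mul_le (by norm_num)]
    exact le_trans (le_trans (Nat.mul_le_mul_left _ B2) (le_of_eq (by ring))) hN1
  have hps : ∀ p ∈ psOf W z, p.Prime ∧ 12 ≤ p ∧ (p : ℝ) ≤ z ∧ ¬ p ∣ W := fun p hp => by
    obtain ⟨p1, p2, p3⟩ := (mem_psOf z0.le).mp hp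
    exact ⟨p1, hw.trans (not_le.mp (mt (hW p p1).mpr p3)).le, p2, p3⟩
  have u0 : 0 < Real.log B := by linarith only [hu]
  have hΛ' : ∏ p ∈ psOf W z, (1 + hh f p) ≤ v := by
    clear * - W z f B v hprim hd B2 B1 hps z5 z6 hu hΛ
    refine (prod_hh_le hprim hd _ (M := B ^ 1429950) (le_trans (le_trans (by norm_num) B2)
      (le_self_pow₀ B1 (by norm_num))) fun p hp => ⟨(hps p hp).1, (hps p hp).2.1, ?_⟩).trans
      (le_trans ?_ hΛ)
    · have := (hps p hp).2.2.1.trans ((le_self_pow₀ z5 two_ne_zero).trans z6)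
      rwa [← Nat.cast_pow, Nat.cast_le] at this
    · rw [Nat.cast_pow, Real.log_pow, mul_pow, mul_assoc, Nat.cast_ofNat]
      gcongr
      linarith only [hu]
  have sv := sieve_bound f hprim hd.le W hW0 (psOf W z)
    ((Ioc (B ^ 349980) (B ^ 349990)).filter Nat.Prime)
    (fun p hp => ⟨(hps p hp).1, lt_of_lt_of_le (by norm_num) (hps p hp).2.1,
      (Nat.Prime.coprime_iff_not_dvd (hps p hp).1).mpr (hps p hp).2.2.2⟩)
    (fun p hp => ?_) z (B ^ 364995) (B ^ 365005) (B ^ 349980) (B ^ 349990) (B ^ 1079940)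
    (B ^ 1080000) N (N / 10 ^ 11) B (B ^ 1429950) v v ((B : ℝ) ^ 1429940)
    (fun p hp => mem_Ioc.mp (mem_filter.mp hp).1) z5
    (by rw [Nat.cast_pow, Nat.cast_pow, ← pow_add]; exact z1)
    (pow_le_pow_right₀ B1 (by norm_num)) (by rw [Nat.cast_pow]; exact z2) ?_
    (by rw [← pow_mul, ← pow_add]) (by rw [Nat.cast_pow]; exact z6)
    (pow_le_pow_right₀ B1 (by norm_num)) (fun n _ hn => hD n hn) (hvk 5 (by norm_num)) B3 hΛ'
    (lt_of_lt_of_le (pow_pos B1 _) hL1) (hLev N _ hN2 hL1 (Nat.div_le_self _ _))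
  rotate_left
  · obtain ⟨p1, p2⟩ := mem_filter.mp hp
    obtain ⟨p3, p4⟩ := mem_Ioc.mp p1
    refine (mem_psOf z0.le).mpr ⟨p2, (Nat.cast_le.mpr p4).trans ?_, fun hh => ?_⟩
    · rw [Nat.cast_pow]
      exact (pow_le_pow_right₀ b1 (by norm_num)).trans z2
    · exact absurd ((hW p p2).mp hh)
        (not_le.mpr ((B5.trans (le_self_pow₀ B1 (by norm_num))).trans_lt p3))
  · rw [Nat.cast_pow, Nat.cast_pow]
    calc z * (B : ℝ) ^ 365005 ≤ (B : ℝ) ^ 714975 * (B : ℝ) ^ 365005 := by gcongr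
      _ = (B : ℝ) ^ 1079980 := (pow_add _ _ _).symm
      _ ≤ _ := pow_le_pow_right₀ b1 (by norm_num)
  have cnt := count_le_sifted f (W := W) (N := N) z0.le
    (fun p hp hh => le_trans (by exact_mod_cast ((hW p hp).mp hh).trans B5) z4)
    fun n hn => (hn0 n hn).1
  obtain ⟨g1, g2⟩ := hn0 N (B4.trans hBN)
  have lN : Real.log N ≤ (1 + 1 / 10 ^ 11) * 1429950 * Real.log B := by
    have := Real.log_le_log N0 hN2'
    rw [Real.log_mul (by norm_num) (by positivity), Real.log_pow, Nat.cast_ofNat] at this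
    linarith only [hu, this, Real.log_two_lt_d9]
  have lf : Real.log |((f.eval (N : ℤ) : ℤ) : ℝ)| ≤
      (1 + 1 / 10 ^ 11) ^ 2 * 3 * 1429950 * Real.log B := by
    rw [hd, Nat.cast_ofNat] at g2
    linarith only [g2, lN]
  have lf0 : 0 ≤ Real.log |((f.eval (N : ℤ) : ℤ) : ℝ)| := by
    have : (10 : ℝ) ^ 11 ≤ N := by exact_mod_cast B2.trans hBN
    exact Real.log_nonneg (by linarith only [g1, this])
  have lf1 : Real.log |((f.eval (N : ℤ) : ℤ) : ℝ)| ≤ v := by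
    rw [pow_one] at hlog
    linarith only [hu, hlog, lf]
  have hLN : ((N / 10 ^ 11 : ℕ) : ℝ) ≤ N / 10 ^ 11 := by
    exact (Nat.cast_div_le (α := ℝ) (m := N) (n := 10 ^ 11)).trans_eq (by norm_num)
  have s1 := sizes b1 v1 hv (k := 1080000) (by norm_num)
  have s2 := sizes b1 v1 hv (k := 1429930) (by norm_num)
  have s3 := sizes b1 v1 hv (k := 1429940) (by norm_num)
  have s4 : (B : ℝ) ^ 1429950 / v ^ 20 ≤ N / v ^ 20 := by gcongr
  have s5 : (n0 : ℝ) ≤ z := le_trans (by exact_mod_cast B4) z4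
  have s6 : z ≤ z ^ 2 := le_self_pow₀ z5 two_ne_zero
  rw [Nat.cast_pow, Nat.cast_pow, Nat.cast_pow, ← pow_add] at sv
  have W1 : (1 : ℝ) ≤ W := by exact_mod_cast hW0
  rw [pow_zero, mul_one, div_le_iff₀ hη] at herr
  generalize GG _ _ _ _ _ _ = G at *
  generalize Real.log |((f.eval (N : ℤ) : ℤ) : ℝ)| = l at *
  have A0 : 0 ≤ (((range W).filter
    (fun c : ℕ => Nat.Coprime (f.eval (c : ℤ)).natAbs W)).card : ℝ) / W := by clear * - f W hW0; positivity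
  generalize (((range W).filter
    (fun c : ℕ => Nat.Coprime (f.eval (c : ℤ)).natAbs W)).card : ℝ) / W = A at *
  have X0 : 0 ≤ (N : ℝ) / v ^ 20 := by positivity
  have e1 : 30 * v ^ 4 * (W * v ^ 5 * (z ^ 2 + (B : ℝ) ^ 1080000 + B ^ (1079940 + 349990)) +
      B ^ 1429940) ≤ 120 * W * v ^ 9 * (N / v ^ 20) := by
    clear * - B W v N s3 s4 X0 W1 v1 z z3 s1 s2 hW0
    have a1 : (B : ℝ) ^ 1429940 ≤ W * v ^ 5 * (N / v ^ 20) :=
      (s3.trans s4).trans (le_mul_of_one_le_left X0 (one_le_mul_of_one_le_of_one_le W1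
        (one_le_pow₀ v1)))
    have a2 : z ^ 2 + (B : ℝ) ^ 1080000 + B ^ (1079940 + 349990) ≤ 3 * (N / v ^ 20) := by
      have := z3.le.trans s4
      have := s1.trans s4
      have : (B : ℝ) ^ (1079940 + 349990) ≤ _ := s2.trans s4
      linarith only [z3, s1, s2, s4]
    calc _ ≤ 30 * v ^ 4 * (W * v ^ 5 * (3 * (N / v ^ 20)) + W * v ^ 5 * (N / v ^ 20)) := by gcongr
      _ = _ := by ring
  have e2 : (n0 : ℝ) + 2 * z ≤ 3 * v ^ 9 * (N / v ^ 20) := by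
    have := z3.le.trans s4
    have : (N : ℝ) / v ^ 20 ≤ v ^ 9 * (N / v ^ 20) := le_mul_of_one_le_left X0 (one_le_pow₀ v1)
    linarith only [z3, s4, s5, s6, this]
  have e3 : ((N : ℝ) + (N / 10 ^ 11 : ℕ)) * A / G ≤
      (1 + 1 / 10 ^ 11) * N * A / ((714975 + 15 / 10 ^ 5) * c * Real.log B) := by
    clear * - N A G c B N0 A0 hLN hc hu hG'
    gcongr
    linarith only [hLN]
  have e4 := cnt.trans (add_le_add (sv.trans (add_le_add e3 e1)) e2)
  rw [div_le_iff₀ N0]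
  refine (mul_le_mul_of_nonneg_right e4 lf0).trans ?_
  rw [add_assoc, add_mul, add_mul _ η]
  refine add_le_add ?_ ?_
  · refine (mul_le_mul_of_nonneg_left lf (by positivity)).trans ?_
    calc _ = ((1 + 1 / 10 ^ 11) ^ 3 * 3 * 1429950 / (714975 + 15 / 10 ^ 5)) * (A / c * N) := by
          clear * - N A c B hu hc N0
          field_simp
      _ ≤ (6 - 1 / 10 ^ 9) * (A / c * N) := by clear * - A c N A0 hc N0; gcongr; norm_num
      _ = _ := by ring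
  · calc _ ≤ (120 * W * v ^ 9 * (N / v ^ 20) + 3 * v ^ 9 * (N / v ^ 20)) * v := by clear * - W v N l lf1 hW0 v1 N0 η; gcongr
      _ = (120 * W + 3) / v ^ 10 * N := by field_simp
      _ ≤ v * η / v ^ 1 * N := by clear * - N W v η v1 hη herr N0; gcongr; norm_num
      _ = _ := by field_simp

theorem cubic_upper (f : Polynomial ℤ) (hf : Irreducible f) (hd : f.natDegree = 3)
    (hl : 0 < f.leadingCoeff) {C : ℝ}
    (hC : Tendsto (fun y : ℕ => ∏ p ∈ (range (y + 1)).filter Nat.Prime,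
        (1 - (omega f p : ℝ) / (p : ℝ)) / (1 - 1 / (p : ℝ))) atTop (𝓝 C))
    {ε : ℝ} (hε : 0 < ε) : ∀ᶠ N : ℕ in atTop,
      (((Icc 1 N).filter (fun n : ℕ => (f.eval (n : ℤ)).natAbs.Prime)).card : ℝ) *
          Real.log |((f.eval (N : ℤ) : ℤ) : ℝ)| / (N : ℝ)
        ≤ (6 - 1 / 10 ^ 9) * C + ε := by
  have hprim := hf.isPrimitive (by omega)
  obtain ⟨e, e1, e2, e0⟩ : ∃ e : ℝ, (C + e) / (1 - e) < C + ε / 12 ∧ e < 1 ∧ 0 < e := by
    have hc : ContinuousAt (fun e : ℝ => (C + e) / (1 - e)) 0 :=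
      ContinuousAt.div (by fun_prop) (by fun_prop) (by norm_num)
    have h1 := (hc.eventually (gt_mem_nhds (show (C + 0) / (1 - 0) < C + ε / 12 by
      simpa using hε))).filter_mono (nhdsWithin_le_nhds (s := Set.Ioi 0))
    have h2 : ∀ᶠ δ : ℝ in 𝓝[>] 0, δ < 1 :=
      (gt_mem_nhds one_pos : ∀ᶠ δ : ℝ in 𝓝 0, δ < 1).filter_mono nhdsWithin_le_nhds
    exact (h1.and (h2.and self_mem_nhdsWithin)).exists
  obtain ⟨w₀, hw₀⟩ := selberg_sum_lower hf (by omega) e0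
  obtain ⟨w, w1, w2⟩ := ((hC.eventually (gt_mem_nhds (lt_add_of_pos_right C e0))).and
    (eventually_ge_atTop (w₀ + 12 + 3 * f.leadingCoeff.natAbs))).exists
  set T := (range (w + 1)).filter Nat.Prime with hT
  have hT1 : ∀ p ∈ T, p.Prime := fun p hp => (mem_filter.mp hp).2
  have hW : ∀ p : ℕ, p.Prime → (p ∣ ∏ p ∈ T, p ↔ p ≤ w) := fun p hp => by
    rw [prime_dvd_prod_iff hT1 hp, hT, mem_filter, mem_range, Nat.lt_succ_iff, and_iff_left hp]
  have hW0 : 0 < ∏ p ∈ T, p := prod_pos fun p hp => (hT1 p hp).pos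
  obtain ⟨E, hE0, hE⟩ := hw₀ w (by omega) _ hW0 hW
  obtain ⟨L, hL⟩ := tendsto_omega_abel hf (by omega)
  obtain ⟨R, -, hlim⟩ := tendsto_selSum (om := omega f) (w := w)
    (fun p hp => omega_le_natDegree hprim hp) (by omega) hL
  generalize hc : Real.exp (L - ∑ n ∈ range (w + 1), omega f n * pw n + R) = c at hlim
  have c0 : 0 < c := hc ▸ Real.exp_pos _
  have hcl : (1 - e) * (((∏ p ∈ T, p).totient : ℝ) / (∏ p ∈ T, p : ℕ)) ≤ c := by
    clear * - e T E f w c hlim hE hW0 hW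
    have t1 : Tendsto (fun u : ℝ => (1 - e) * (((∏ p ∈ T, p).totient : ℝ) / (∏ p ∈ T, p : ℕ)) *
        (1 - E / u)) atTop (𝓝 _) :=
      ((tendsto_const_nhds.div_atTop tendsto_id).const_sub 1).const_mul _
    rw [sub_zero, mul_one] at t1
    refine le_of_tendsto_of_tendsto t1 hlim ?_
    filter_upwards [eventually_gt_atTop 0] with u hu
    have hP1 : ∀ p ∈ (range (⌊Real.exp u⌋₊ + 1)).filter Nat.Prime, p.Prime :=
      fun p hp => (mem_filter.mp hp).2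
    have hP2 : ∀ p : ℕ, p.Prime → (p : ℝ) ≤ Real.exp u →
        p ∈ (range (⌊Real.exp u⌋₊ + 1)).filter Nat.Prime := fun p hp h =>
      mem_filter.mpr ⟨mem_range.mpr (Nat.lt_succ_of_le (Nat.le_floor h)), hp⟩
    have a1 := hE _ (Real.one_le_exp hu.le) _ hP1 hP2
    rw [← selSum_eq (omega f) hW (Real.exp_pos u) _ hP1 hP2, Real.log_exp] at a1
    rw [le_div_iff₀ hu]
    refine le_trans (le_of_eq ?_) a1
    field_simp
  have main := cubic_upper_B f hf hd hl (w := w) (by omega) (by omega) hW0 hW c0 hlim (half_pos hε)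
  have hA : (range (∏ p ∈ T, p)).filter
      (fun c : ℕ => Nat.Coprime (f.eval (c : ℤ)).natAbs (∏ p ∈ T, p)) =
      (range (∏ p ∈ T, p)).filter (fun c : ℕ => ∀ p ∈ T, ¬ (p : ℤ) ∣ f.eval (c : ℤ)) := by
    refine filter_congr fun n _ => ?_
    rw [Nat.coprime_prod_right_iff]
    refine forall₂_congr fun p hp => ?_
    rw [Nat.coprime_comm, Nat.Prime.coprime_iff_not_dvd (hT1 p hp), Int.natCast_dvd]
  rw [hA, card_adm f T hT1] at main
  rw [totient_prod_primes T hT1] at hcl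
  rw [prod_div_distrib] at w1
  have φ0 : 0 < ∏ p ∈ T, (1 - 1 / (p : ℝ)) := prod_pos fun p hp => by
    have : (1 : ℝ) < p := by exact_mod_cast (hT1 p hp).one_lt
    exact sub_pos.mpr ((div_lt_one (by linarith only [e2, e0, this])).mpr this)
  have A0 : 0 ≤ ∏ p ∈ T, (1 - (omega f p : ℝ) / p) := by
    clear * - T f hT1 hW0
    rw [← card_adm f T hT1]; positivity
  have hAc : (∏ p ∈ T, (1 - (omega f p : ℝ) / p)) / c ≤ C + ε / 12 := by
    refine (div_le_div_of_nonneg_left A0 (mul_pos (by linarith only [e2]) φ0) hcl).trans (le_trans ?_ e1.le)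
    rw [mul_comm, ← div_div]
    exact div_le_div_of_nonneg_right w1.le (by linarith only [e2])
  filter_upwards [eventually_root (by norm_num) main] with N hN
  have := mul_le_mul_of_nonneg_left hAc (show (0 : ℝ) ≤ 6 - 1 / 10 ^ 9 by norm_num)
  linarith only [hε, hAc, hN]

end Pool.Agent.Work.MP_51e72e_nt.Cub
end
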