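import Pool.Agent.Lib.ANT.SieveSums

/-!
Combinatorics of the sieve weights: functions of the set of sieving primes dividing a value.
-/

set_option autoImplicit false

namespace Pool.Agent.Work.MP_51e72e_nt.Cub.Sv

open Finset

noncomputable section

/-- the indicator of `T ⊆ S` -/
def ind (T S : Finset ℕ) : ℝ := if T ⊆ S then 1 else 0

/-- the orthogonal functions of the sieve -/
def ph (h : ℕ → ℝ) (l S : Finset ℕ) : ℝ := ∏ p ∈ l, if p ∈ S then -1 else h p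

/-- the product of the members -/
def pr (T : Finset ℕ) : ℕ := ∏ p ∈ T, p

/-- combinations of indicators with bounded coefficients and bounded level -/
def Rep (Q : Finset ℕ) (X : Finset ℕ → ℝ) (C M : ℝ) : Prop :=
  ∃ c : Finset ℕ → ℝ, (∀ T, |c T| ≤ C) ∧ (∀ T, c T ≠ 0 → (pr T : ℝ) ≤ M) ∧
    X = ∑ T ∈ Q.powerset, c T • ind T

/-- the weighted number of window primes -/
def PiW (h : ℕ → ℝ) (Pw : Finset ℕ) : Finset ℕ → ℝ := ∑ p ∈ Pw, (1 + h p) • ind {p}

lemma ind_mul (T U : Finset ℕ) : ind T * ind U = ind (T ∪ U) := by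
  funext S
  simp only [ind, Pi.mul_apply, union_subset_iff]
  by_cases h1 : T ⊆ S <;> by_cases h2 : U ⊆ S <;> simp [h1, h2]

lemma pr_pos {T : Finset ℕ} (hT : ∀ p ∈ T, p.Prime) : 0 < pr T :=
  prod_pos fun p hp => (hT p hp).pos

lemma pr_mono {T U : Finset ℕ} (hU : ∀ p ∈ U, p.Prime) (h : T ⊆ U) : pr T ≤ pr U :=
  Nat.le_of_dvd (pr_pos hU) (prod_dvd_prod_of_subset _ _ _ h)

lemma pr_union_le {T : Finset ℕ} (hT : ∀ p ∈ T, p.Prime) (U : Finset ℕ) :
    pr (T ∪ U) ≤ pr T * pr U := by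
  have h : pr (T ∪ U) * pr (T ∩ U) = pr T * pr U := prod_union_inter
  have h2 : 0 < pr (T ∩ U) := pr_pos fun p hp => hT p (mem_inter.1 hp).1
  rw [← h]
  exact Nat.le_mul_of_pos_right _ h2

lemma pr_inj {T U : Finset ℕ} (hT : ∀ p ∈ T, p.Prime) (hU : ∀ p ∈ U, p.Prime) (h : pr T = pr U) :
    T = U := by
  rw [← Nat.primeFactors_prod hT, ← Nat.primeFactors_prod hU]
  exact congrArg _ h

lemma two_pow_le {U : Finset ℕ} (hU : ∀ p ∈ U, p.Prime) : 2 ^ U.card ≤ (pr U).divisors.card := by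
  rw [← card_powerset]
  refine card_le_card_of_injOn pr (fun T hT => ?_) fun T hT T' hT' e => ?_
  · exact Nat.mem_divisors.2 ⟨prod_dvd_prod_of_subset _ _ _ (mem_powerset.1 hT), (pr_pos hU).ne'⟩
  · exact pr_inj (fun p hp => hU p (mem_powerset.1 hT hp))
      (fun p hp => hU p (mem_powerset.1 hT' hp)) e

lemma insert_inj {Pw T T' : Finset ℕ} {p p' : ℕ} (hp : p ∈ Pw) (hp' : p' ∈ Pw)
    (hT : ∀ q ∈ T, q ∉ Pw) (hT' : ∀ q ∈ T', q ∉ Pw) (h : insert p T = insert p' T') :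
    p = p' ∧ T = T' := by
  have e : p = p' := by
    have : p ∈ insert p' T' := h ▸ mem_insert_self p T
    rcases mem_insert.1 this with h1 | h1
    · exact h1
    · exact absurd hp (hT' p h1)
  subst e
  refine ⟨rfl, ?_⟩
  rw [← erase_insert (s := T) (a := p) fun h1 => hT p h1 hp, h, erase_insert fun h1 => hT' p h1 hp]

lemma sum_le_of_level {Q : Finset ℕ} (hQ : ∀ p ∈ Q, p.Prime) {a : Finset ℕ → ℝ} {B M : ℝ}
    (hB : 0 ≤ B) (hM : 0 ≤ M) (h : ∀ T ⊆ Q, a T ≠ 0 → (pr T : ℝ) ≤ M ∧ |a T| ≤ B) :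
    |∑ T ∈ Q.powerset, a T| ≤ M * B := by
  rw [← sum_filter_ne_zero]
  have h1 : (Q.powerset.filter fun T => a T ≠ 0).card ≤ ⌊M⌋₊ := by
    rw [← Nat.add_sub_cancel ⌊M⌋₊ 1, ← Nat.card_Icc]
    refine card_le_card_of_injOn pr (fun T hT => ?_) fun T hT T' hT' e => ?_
    · have hT' := mem_filter.1 (mem_coe.1 hT)
      have h2 := mem_powerset.1 hT'.1
      exact mem_coe.2 (mem_Icc.2 ⟨pr_pos fun p hp => hQ p (h2 hp), Nat.le_floor (h T h2 hT'.2).1⟩)
    · exact pr_inj (fun p hp => hQ p (mem_powerset.1 (mem_filter.1 (mem_coe.1 hT)).1 hp))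
        (fun p hp => hQ p (mem_powerset.1 (mem_filter.1 (mem_coe.1 hT')).1 hp)) e
  have h3 : ((Q.powerset.filter fun T => a T ≠ 0).card : ℝ) ≤ M :=
    (Nat.cast_le.2 h1).trans (Nat.floor_le hM)
  refine (abs_sum_le_sum_abs _ _).trans ((sum_le_card_nsmul _ _ B fun T hT => ?_).trans ?_)
  · exact (h T (mem_powerset.1 (mem_filter.1 hT).1) (mem_filter.1 hT).2).2
  · rw [nsmul_eq_mul]
    gcongr

lemma rep_of {ι : Type} {Q : Finset ℕ} (I : Finset ι) (t : ι → Finset ℕ) (c : ι → ℝ) {C M : ℝ}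
    {K : ℕ} (hC : 0 ≤ C) (ht : ∀ i ∈ I, t i ⊆ Q) (hc : ∀ i ∈ I, |c i| ≤ C)
    (hM : ∀ i ∈ I, c i ≠ 0 → (pr (t i) : ℝ) ≤ M)
    (hK : ∀ U ⊆ Q, (pr U : ℝ) ≤ M → (I.filter fun i => t i = U).card ≤ K) :
    Rep Q (∑ i ∈ I, c i • ind (t i)) (C * K) M := by
  have key : ∀ U, ∑ i ∈ I with t i = U, c i ≠ 0 → U ⊆ Q ∧ (pr U : ℝ) ≤ M := fun U hU => by
    obtain ⟨i, hi, h⟩ := exists_ne_zero_of_sum_ne_zero hU
    obtain ⟨h1, rfl⟩ := mem_filter.1 hi
    exact ⟨ht i h1, hM i h1 h⟩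
  refine ⟨fun U => ∑ i ∈ I with t i = U, c i, fun U => ?_, fun U hU => (key U hU).2, ?_⟩
  · beta_reduce
    by_cases hU : ∑ i ∈ I with t i = U, c i = 0
    · rw [hU, abs_zero]
      positivity
    · have h1 : ((I.filter fun i => t i = U).card : ℝ) ≤ K :=
        Nat.cast_le.2 (hK U (key U hU).1 (key U hU).2)
      refine (abs_sum_le_sum_abs _ _).trans ((sum_le_card_nsmul _ _ C fun i hi =>
        hc i (mem_filter.1 hi).1).trans ?_)
      rw [nsmul_eq_mul, mul_comm]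
      gcongr
  · rw [← sum_fiberwise_of_maps_to (g := t) (t := Q.powerset) fun i hi => mem_powerset.2 (ht i hi)]
    refine sum_congr rfl fun U _ => ?_
    rw [sum_smul]
    exact sum_congr rfl fun i hi => by rw [(mem_filter.1 hi).2]

variable {Q Q' : Finset ℕ} {X Y : Finset ℕ → ℝ} {C C' M M' : ℝ}

lemma Rep.nonneg (h : Rep Q X C M) : 0 ≤ C := by
  obtain ⟨c, h1, -⟩ := h
  exact (abs_nonneg _).trans (h1 ∅)

lemma Rep.mono (h : Rep Q X C M) (hQ : Q ⊆ Q') (hC : C ≤ C') (hM : M ≤ M') : Rep Q' X C' M' := by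
  have C0 := h.nonneg
  obtain ⟨c, h1, h2, rfl⟩ := h
  have := rep_of (Q := Q') Q.powerset id c (K := 1) (M := M') (C0.trans hC)
    (fun T hT => (mem_powerset.1 hT).trans hQ) (fun T _ => (h1 T).trans hC)
    (fun T _ h => (h2 T h).trans hM)
    (fun U _ _ => card_le_one.2 fun a ha b hb => (mem_filter.1 ha).2.trans (mem_filter.1 hb).2.symm)
  simpa using this

lemma Rep.add_smul (hX : Rep Q X C M) (hY : Rep Q Y C' M) {a A : ℝ} (ha : |a| ≤ A) :
    Rep Q (X + a • Y) (C + A * C') M := by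
  obtain ⟨c, h1, h2, rfl⟩ := hX
  obtain ⟨c', h1', h2', rfl⟩ := hY
  refine ⟨fun T => c T + a * c' T, fun T => ?_, fun T h => ?_, ?_⟩
  · refine (abs_add_le _ _).trans (add_le_add (h1 T) ?_)
    rw [abs_mul]
    exact mul_le_mul ha (h1' T) (abs_nonneg _) ((abs_nonneg _).trans ha)
  · by_cases h0 : c T = 0
    · exact h2' T fun h3 => h (by simp [h0, h3])
    · exact h2 T h0
  · rw [smul_sum, ← sum_add_distrib]
    exact sum_congr rfl fun T _ => by rw [_root_.add_smul, smul_smul]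

lemma Rep.mul (hQ : ∀ p ∈ Q, p.Prime) (hX : Rep Q X C M) (hY : Rep Q Y C' M') {D : ℕ}
    (hD : ∀ U ⊆ Q, (pr U : ℝ) ≤ M * M' → 2 ^ U.card ≤ D) :
    Rep Q (X * Y) (C * C' * (D ^ 2 : ℕ)) (M * M') := by
  have C0 := hX.nonneg
  have C1 := hY.nonneg
  obtain ⟨c, h1, h2, rfl⟩ := hX
  obtain ⟨c', h1', h2', rfl⟩ := hY
  have := rep_of (Q := Q) (Q.powerset ×ˢ Q.powerset) (fun x => x.1 ∪ x.2)
    (fun x => c x.1 * c' x.2) (K := D ^ 2) (M := M * M') (mul_nonneg C0 C1)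
    (fun x hx => union_subset (mem_powerset.1 (mem_product.1 hx).1)
      (mem_powerset.1 (mem_product.1 hx).2))
    (fun x _ => by rw [abs_mul]; exact mul_le_mul (h1 _) (h1' _) (abs_nonneg _) C0)
    (fun x hx h => by
      have a1 := h2 _ (left_ne_zero_of_mul h)
      have a2 := h2' _ (right_ne_zero_of_mul h)
      have a3 : (pr (x.1 ∪ x.2) : ℝ) ≤ pr x.1 * pr x.2 := by
        exact_mod_cast pr_union_le (fun p hp => hQ p (mem_powerset.1 (mem_product.1 hx).1 hp)) _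
      exact a3.trans (mul_le_mul a1 a2 (Nat.cast_nonneg _) ((Nat.cast_nonneg _).trans a1)))
    (fun U hU hM => by
      refine (card_le_card (t := U.powerset ×ˢ U.powerset) fun x hx => ?_).trans ?_
      · obtain ⟨-, rfl⟩ := mem_filter.1 hx
        exact mem_product.2 ⟨mem_powerset.2 subset_union_left, mem_powerset.2 subset_union_right⟩
      · rw [card_product, card_powerset, sq]
        exact Nat.mul_le_mul (hD U hU hM) (hD U hU hM))
  convert this using 1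
  rw [sum_mul_sum, sum_product]
  exact sum_congr rfl fun T _ => sum_congr rfl fun U _ => by rw [smul_mul_smul_comm, ind_mul]

lemma mul_PiW (c : Finset ℕ → ℝ) (h : ℕ → ℝ) (Q Pw : Finset ℕ) :
    (∑ T ∈ Q.powerset, c T • ind T) * PiW h Pw =
      ∑ T ∈ Q.powerset, ∑ p ∈ Pw, (c T * (1 + h p)) • ind (insert p T) := by
  rw [PiW, sum_mul_sum]
  refine sum_congr rfl fun T _ => sum_congr rfl fun p _ => ?_
  rw [smul_mul_smul_comm, ind_mul, union_comm, insert_eq]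

lemma Rep.mulPi {Ps Pw : Finset ℕ} (hPw : Pw ⊆ Ps) {h : ℕ → ℝ}
    {Λ P1 : ℝ} (hΛ : ∀ p ∈ Pw, |1 + h p| ≤ Λ) (hΛ0 : 0 ≤ Λ) (hP : ∀ p ∈ Pw, (p : ℝ) ≤ P1)
    (hX : Rep (Ps \ Pw) X C M) : Rep Ps (X * PiW h Pw) (C * Λ) (P1 * M) := by
  have C0 := hX.nonneg
  obtain ⟨c, h1, h2, rfl⟩ := hX
  have hn : ∀ T ∈ (Ps \ Pw).powerset, ∀ q ∈ T, q ∉ Pw := fun T hT q hq =>
    (mem_sdiff.1 (mem_powerset.1 hT hq)).2
  have := rep_of (Q := Ps) ((Ps \ Pw).powerset ×ˢ Pw) (fun x => insert x.2 x.1)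
    (fun x => c x.1 * (1 + h x.2)) (K := 1) (M := P1 * M) (mul_nonneg C0 hΛ0)
    (fun x hx => insert_subset (hPw (mem_product.1 hx).2)
      ((mem_powerset.1 (mem_product.1 hx).1).trans sdiff_subset))
    (fun x hx => by
      rw [abs_mul]; exact mul_le_mul (h1 _) (hΛ _ (mem_product.1 hx).2) (abs_nonneg _) C0)
    (fun x hx h => by
      have a1 := h2 _ (left_ne_zero_of_mul h)
      have a2 := hP _ (mem_product.1 hx).2
      have a3 : pr (insert x.2 x.1) = x.2 * pr x.1 :=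
        prod_insert fun h1 => hn _ (mem_product.1 hx).1 _ h1 (mem_product.1 hx).2
      rw [a3, Nat.cast_mul]
      exact mul_le_mul a2 a1 (Nat.cast_nonneg _) ((Nat.cast_nonneg _).trans a2))
    (fun U _ _ => card_le_one.2 fun a ha b hb => by
      obtain ⟨ha1, ha2⟩ := mem_filter.1 ha
      obtain ⟨hb1, hb2⟩ := mem_filter.1 hb
      have := insert_inj (mem_product.1 ha1).2 (mem_product.1 hb1).2 (hn _ (mem_product.1 ha1).1)
        (hn _ (mem_product.1 hb1).1) (ha2.trans hb2.symm)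
      exact Prod.ext this.2 this.1)
  rw [mul_PiW, ← sum_product']
  simpa using this

lemma ph_expand (h : ℕ → ℝ) (l : Finset ℕ) :
    ph h l = ∑ T ∈ l.powerset, ((∏ p ∈ T, -(1 + h p)) * ∏ p ∈ l \ T, h p) • ind T := by
  funext S
  have e : ph h l S = ∏ p ∈ l, ((-(1 + h p) * if p ∈ S then 1 else 0) + h p) :=
    prod_congr rfl fun p _ => by split_ifs <;> ring
  rw [e, prod_add, Finset.sum_apply]
  refine sum_congr rfl fun T _ => ?_
  rw [prod_mul_distrib, prod_boole, Pi.smul_apply, smul_eq_mul, ind, mul_right_comm]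
  rfl

lemma rep_ph (hQ : ∀ p ∈ Q, p.Prime) {h : ℕ → ℝ} (hh : ∀ p ∈ Q, 0 ≤ h p) {Dd : Finset (Finset ℕ)}
    (hD : ∀ l ∈ Dd, l ⊆ Q ∧ (pr l : ℝ) ≤ M) :
    Rep Q (∑ l ∈ Dd, ph h l) (∏ p ∈ Q, (1 + h p)) M := by
  refine ⟨fun T => ∑ l ∈ Dd with T ⊆ l, (∏ p ∈ T, -(1 + h p)) * ∏ p ∈ l \ T, h p, fun T => ?_,
    fun T hT => ?_, ?_⟩
  · beta_reduce
    by_cases hT : T ⊆ Q
    · have a1 : |∏ p ∈ T, -(1 + h p)| = ∏ p ∈ T, (1 + h p) := by
        rw [abs_prod]
        exact prod_congr rfl fun p hp => by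
          rw [abs_neg, abs_of_nonneg (by linarith [hh p (hT hp)])]
      have a0 : ∀ V ⊆ Q \ T, 0 ≤ ∏ p ∈ V, h p := fun V hV =>
        prod_nonneg fun p hp => hh p (mem_sdiff.1 (hV hp)).1
      have a2 : ∀ l ∈ Dd.filter (T ⊆ ·), l \ T ⊆ Q \ T := fun l hl =>
        sdiff_subset_sdiff (hD l (mem_filter.1 hl).1).1 (subset_refl _)
      rw [← mul_sum, abs_mul, a1, abs_of_nonneg (sum_nonneg fun l hl => a0 _ (a2 l hl)),
        ← prod_sdiff hT, mul_comm]
      refine mul_le_mul_of_nonneg_right ?_ (prod_nonneg fun p hp => by linarith [hh p (hT hp)])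
      rw [prod_one_add, ← sum_image (g := fun l => l \ T) (f := fun V => ∏ p ∈ V, h p)]
      · refine sum_le_sum_of_subset_of_nonneg (fun V hV => ?_) fun V hV _ => a0 V (mem_powerset.1 hV)
        obtain ⟨l, hl, rfl⟩ := mem_image.1 hV
        exact mem_powerset.2 (a2 l hl)
      · intro l hl l' hl' e
        rw [← sdiff_union_of_subset (mem_filter.1 (mem_coe.1 hl)).2,
          ← sdiff_union_of_subset (mem_filter.1 (mem_coe.1 hl')).2]
        exact congrArg (· ∪ T) e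
    · rw [filter_eq_empty_iff.2 fun l hl (h1 : T ⊆ l) => hT (h1.trans (hD l hl).1), sum_empty, abs_zero]
      exact prod_nonneg fun p hp => by linarith [hh p hp]
  · obtain ⟨l, hl, -⟩ := exists_ne_zero_of_sum_ne_zero hT
    obtain ⟨h1, h2⟩ := mem_filter.1 hl
    exact (Nat.cast_le.2 (pr_mono (fun p hp => hQ p ((hD l h1).1 hp)) h2)).trans (hD l h1).2
  · simp only [ph_expand, sum_smul]
    refine sum_comm' fun l T => ?_
    simp only [mem_powerset, mem_filter]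
    exact ⟨fun h1 => ⟨h1, h1.2.trans (hD l h1.1).1⟩, fun h1 => h1.1⟩

/-! ### The model expectation -/

/-- the expectation in the independent model -/
def EX (g : ℕ → ℝ) (Ps : Finset ℕ) : (Finset ℕ → ℝ) →ₗ[ℝ] ℝ where
  toFun X := ∑ S ∈ Ps.powerset, ((∏ p ∈ S, g p) * ∏ p ∈ Ps \ S, (1 - g p)) * X S
  map_add' X Y := by simp only [Pi.add_apply, mul_add, sum_add_distrib]
  map_smul' a X := by
    simp only [Pi.smul_apply, smul_eq_mul, RingHom.id_apply, mul_sum]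
    exact sum_congr rfl fun S _ => by ring

lemma EX_prod (g a b : ℕ → ℝ) (Ps : Finset ℕ) :
    EX g Ps (fun S => ∏ p ∈ Ps, if p ∈ S then a p else b p) =
      ∏ p ∈ Ps, (g p * a p + (1 - g p) * b p) := by
  rw [prod_add]
  refine sum_congr rfl fun S hS => ?_
  have hS' := mem_powerset.1 hS
  have e1 : (∏ p ∈ Ps \ S, if p ∈ S then a p else b p) = ∏ p ∈ Ps \ S, b p :=
    prod_congr rfl fun p hp => if_neg (mem_sdiff.1 hp).2
  have e2 : (∏ p ∈ S, if p ∈ S then a p else b p) = ∏ p ∈ S, a p :=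
    prod_congr rfl fun p hp => if_pos hp
  simp only
  rw [← prod_sdiff hS', e1, e2, prod_mul_distrib, prod_mul_distrib]
  ring

lemma EX_ind (g : ℕ → ℝ) {Ps T : Finset ℕ} (hT : T ⊆ Ps) : EX g Ps (ind T) = ∏ p ∈ T, g p := by
  have e : ind T = fun S => ∏ p ∈ Ps, if p ∈ S then (1 : ℝ) else if p ∈ T then 0 else 1 := by
    funext S
    unfold ind
    split_ifs with h
    · exact (prod_eq_one fun p _ => by
        by_cases h1 : p ∈ S
        · simp [h1]
        · simp [h1, show p ∉ T from fun h2 => h1 (h h2)]).symm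
    · obtain ⟨p, h1, h2⟩ := not_subset.1 h
      exact (prod_eq_zero (hT h1) (by simp [h1, h2])).symm
  rw [e, EX_prod]
  conv_rhs => rw [← inter_eq_right.2 hT, ← prod_ite_mem]
  refine prod_congr rfl fun p hp => ?_
  by_cases h1 : p ∈ T <;> simp [h1]

lemma EX_ph {g h : ℕ → ℝ} {Ps l l' : Finset ℕ} (hg : ∀ p ∈ Ps, (1 - g p) * h p = g p)
    (hl : l ⊆ Ps) (hl' : l' ⊆ Ps) :
    EX g Ps (ph h l * ph h l') = if l = l' then ∏ p ∈ l, h p else 0 := by
  have e0 : ∀ l ⊆ Ps, ∀ S, ph h l S =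
      ∏ p ∈ Ps, if p ∈ l then (if p ∈ S then -1 else h p) else 1 := fun l hl S => by
    rw [prod_ite_mem, inter_eq_right.2 hl, ph]
  have e : ph h l * ph h l' = fun S => ∏ p ∈ Ps, if p ∈ S then
      ((if p ∈ l then -1 else 1) * if p ∈ l' then -1 else 1) else
      ((if p ∈ l then h p else 1) * if p ∈ l' then h p else 1) := by
    funext S
    rw [Pi.mul_apply, e0 l hl, e0 l' hl', ← prod_mul_distrib]
    exact prod_congr rfl fun p _ => by by_cases h1 : p ∈ S <;> simp [h1]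
  rw [e, EX_prod]
  split_ifs with h0
  · subst h0
    conv_rhs => rw [← inter_eq_right.2 hl, ← prod_ite_mem]
    refine prod_congr rfl fun p hp => ?_
    have := hg p hp
    by_cases h1 : p ∈ l
    · simp only [h1, if_true]
      linear_combination (h p - 1) * this
    · simp [h1]
  · obtain ⟨p, hp⟩ : ∃ p, ¬(p ∈ l ↔ p ∈ l') := not_forall.1 fun h1 => h0 (Finset.ext h1)
    by_cases h1 : p ∈ l
    · have h2 : p ∉ l' := fun h2 => hp (iff_of_true h1 h2)
      refine prod_eq_zero (hl h1) ?_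
      simp only [h1, h2, if_true, if_false]
      linear_combination hg p (hl h1)
    · have h2 : p ∈ l' := by
        by_contra h2
        exact hp (iff_of_false h1 h2)
      refine prod_eq_zero (hl' h2) ?_
      simp only [h1, h2, if_true, if_false]
      linear_combination hg p (hl' h2)

lemma EX_sq {ι : Type} {g h : ℕ → ℝ} {Ps : Finset ℕ} (hg : ∀ p ∈ Ps, (1 - g p) * h p = g p)
    (I : Finset ι) (t : ι → Finset ℕ) (ht : ∀ i ∈ I, t i ⊆ Ps)
    (hi : ∀ i ∈ I, ∀ j ∈ I, t i = t j → i = j) :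
    EX g Ps ((∑ i ∈ I, ph h (t i)) * ∑ i ∈ I, ph h (t i)) = (∑ i ∈ I, ph h (t i)) ∅ := by
  rw [sum_mul_sum, map_sum, Finset.sum_apply]
  refine sum_congr rfl fun i h1 => ?_
  rw [map_sum, sum_eq_single_of_mem i h1 fun j h2 h3 => ?_]
  · rw [EX_ph hg (ht i h1) (ht i h1), if_pos rfl]
    simp [ph]
  · rw [EX_ph hg (ht i h1) (ht j h2), if_neg fun e => h3 (hi i h1 j h2 e).symm]

end

end Pool.Agent.Work.MP_51e72e_nt.Cub.Sv
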