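import Pool.Agent.Work.MP_51e72e_nt.DegDefs
import Pool.Agent.Work.MP_51e72e_nt.Final
import Pool.Agent.Lib.ANT.RosserMain
import Pool.Agent.Lib.ANT.LinSieveConst
import Pool.Agent.Work.MP_51e72e_nt.DegMain3
import Pool.Agent.Work.MP_51e72e_nt.CubMain

/-!
The gain in the linear sieve from a multilinear level of distribution.
-/

set_option autoImplicit false

namespace Pool.Agent.Work.MP_51e72e_nt.Deg

open Finset Polynomial Filter Topology Pool.Agent.Lib.ANT Pool.Agent.Work.MP_51e72e_nt.Cub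

lemma exists_param {A c : ℝ} (A3 : 3 ≤ A) (A63 : A ≤ 63) (c0 : 0 < c) : ∃ t : ℝ,
    (1 + t) ^ 3 * (2 + t) * (A + t * 200000 - 3 * c) / (A * (1 - 2 * t)) < 2 - c / 21 ∧
      t < 1 / 1000 ∧ 0 < t := by
  have hc : ContinuousAt (fun t : ℝ =>
      (1 + t) ^ 3 * (2 + t) * (A + t * 200000 - 3 * c) / (A * (1 - 2 * t))) 0 :=
    ContinuousAt.div (by fun_prop) (by fun_prop) (by simp only [mul_zero, sub_zero]; positivity)
  have h1 := (hc.eventually (gt_mem_nhds (show (1 + 0) ^ 3 * (2 + 0) * (A + 0 * 200000 - 3 * c) /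
    (A * (1 - 2 * 0)) < 2 - c / 21 by
      rw [div_lt_iff₀ (by linarith)]
      nlinarith))).filter_mono (nhdsWithin_le_nhds (s := Set.Ioi 0))
  have h2 : ∀ᶠ t : ℝ in 𝓝[>] 0, t < 1 / 1000 :=
    (gt_mem_nhds (by norm_num) : ∀ᶠ t : ℝ in 𝓝 0, t < 1 / 1000).filter_mono nhdsWithin_le_nhds
  exact (h1.and (h2.and self_mem_nhdsWithin)).exists

lemma adm_prod (f : ℤ[X]) {w y : ℕ} (h : w ≤ y) :
    ((adm f (∏ p ∈ (range (w + 1)).filter Nat.Prime, p)).card : ℝ) /
        (∏ p ∈ (range (w + 1)).filter Nat.Prime, p : ℕ) *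
      ∏ p ∈ psOf (∏ p ∈ (range (w + 1)).filter Nat.Prime, p) y, (1 - (omega f p : ℝ) / p) =
      (∏ p ∈ (range (y + 1)).filter Nat.Prime, (1 - (omega f p : ℝ) / p) / (1 - 1 / (p : ℝ))) *
        ∏ p ∈ (Ioc 0 y).filter Nat.Prime, (1 - (p : ℝ)⁻¹) := by
  set T := (range (w + 1)).filter Nat.Prime with hT
  have hT1 : ∀ p ∈ T, p.Prime := fun p hp => (mem_filter.mp hp).2
  have e1 : adm f (∏ p ∈ T, p) =
      (range (∏ p ∈ T, p)).filter (fun c : ℕ => ∀ p ∈ T, ¬ (p : ℤ) ∣ f.eval (c : ℤ)) := by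
    refine filter_congr fun n _ => ?_
    rw [Nat.coprime_prod_right_iff]
    refine forall₂_congr fun p hp => ?_
    rw [Nat.coprime_comm, Nat.Prime.coprime_iff_not_dvd (hT1 p hp), Int.natCast_dvd]
  have e2 : ((range (y + 1)).filter Nat.Prime).filter (fun p => p ∣ ∏ p ∈ T, p) = T := by
    ext p
    rw [mem_filter]
    refine ⟨fun k => (prime_dvd_prod_iff hT1 (mem_filter.1 k.1).2).1 k.2,
      fun k => ⟨mem_filter.2 ⟨?_, hT1 p k⟩, dvd_prod_of_mem _ k⟩⟩
    exact mem_range.2 ((mem_range.1 (mem_filter.1 k).1).trans_le (by omega))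
  have e3 : (Ioc 0 y).filter Nat.Prime = (range (y + 1)).filter Nat.Prime := by
    ext p
    simp only [mem_filter, mem_Ioc, mem_range, Nat.lt_succ_iff]
    exact ⟨fun k => ⟨k.1.2, k.2⟩, fun k => ⟨⟨k.2.pos, k.1⟩, k.2⟩⟩
  rw [e1, card_adm f T hT1, psOf, Nat.floor_natCast, e3, ← prod_mul_distrib]
  conv_lhs => enter [1]; rw [← e2]
  rw [prod_filter_mul_prod_filter_not]
  refine prod_congr rfl fun p hp => ?_
  have : (1 : ℝ) < p := by exact_mod_cast (mem_filter.1 hp).2.one_lt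
  rw [one_div, div_mul_cancel₀ _ (sub_pos.2 (inv_lt_one_of_one_lt₀ this)).ne']

theorem upper_of_level (n e0 : ℕ) (e : ℕ → ℕ) : ∃ δ : ℝ, 0 < δ ∧ ∀ f : ℤ[X], Irreducible f →
    0 < f.natDegree → 0 < f.leadingCoeff → LevelAll f n e0 e → ∀ C : ℝ,
    Tendsto (fun y : ℕ => ∏ p ∈ (range (y + 1)).filter Nat.Prime,
        (1 - (omega f p : ℝ) / (p : ℝ)) / (1 - 1 / (p : ℝ))) atTop (𝓝 C) →
    ∀ ε : ℝ, 0 < ε → ∀ᶠ N : ℕ in atTop,
      (((Icc 1 N).filter (fun n : ℕ => (f.eval (n : ℤ)).natAbs.Prime)).card : ℝ) *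
          Real.log |((f.eval (N : ℤ) : ℤ) : ℝ)| / (N : ℝ)
        ≤ (2 - δ) * f.natDegree * C + ε := by
  obtain ⟨μ, c, μ3, c0, c1, hs⟩ := sieve_B n e0 e
  obtain ⟨A, A3, A63, hA, hA'⟩ := exists_const
  obtain ⟨t, ht, t1, t0⟩ := exists_param A3 A63 c0
  refine ⟨c / 21, by positivity, fun f hf hd hl hLev C hC ε hε => ?_⟩
  have d1 : (1 : ℝ) ≤ f.natDegree := Nat.one_le_cast.2 hd
  have μ1 : (3 : ℝ) ≤ μ := by exact_mod_cast μ3
  obtain ⟨w, w1, w2⟩ := ((linHyp hf hd t0).and (eventually_ge_atTop f.leadingCoeff.natAbs)).exists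
  have hP := fun y => adm_prod f (w := w) (y := y)
  set T := (range (w + 1)).filter Nat.Prime with hT
  have hT1 : ∀ p ∈ T, p.Prime := fun p hp => (mem_filter.mp hp).2
  have hW : ∀ p : ℕ, p.Prime → (p ∣ ∏ p ∈ T, p ↔ p ≤ w) := fun p hp => by
    rw [prime_dvd_prod_iff hT1 hp, hT, mem_filter, mem_range, Nat.lt_succ_iff, and_iff_left hp]
  have hW0 : 0 < ∏ p ∈ T, p := prod_pos fun p hp => (hT1 p hp).pos
  generalize ∏ p ∈ T, p = W at hP hW hW0
  have H : ∀ y : ℕ, LinHyp (psOf W y) (fun p => (omega f p : ℝ) / p) t := fun y => w1 _ fun p hp =>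
    have k := (mem_psOf (Nat.cast_nonneg y)).1 hp
    ⟨k.1, not_le.1 (mt (hW p k.1).2 k.2.2)⟩
  have η0 : 0 < ε / (4 * f.natDegree) := by positivity
  obtain ⟨n0, hn0⟩ := eventually_atTop.mp ((growth f hd t0).and ((hA' t t0).and
    (hC.eventually (gt_mem_nhds (lt_add_of_pos_right C η0)))))
  refine eventually_root (J := 3 * μ) (by omega) ?_
  filter_upwards [hs f hf hd hLev t t w W t0.le t1.le t0 (by linarith) hW0 hW
      (fun p hp h => (hW p hp).2 (by have := Int.le_of_dvd hl h; omega)) H,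
    eventually_log_pow_le (6 * μ * f.natDegree) 1 t0,
    eventually_log_pow_le (2 + (9 * W + 24) / (ε / 2)) 0 t0,
    tendsto_logB.eventually_ge_atTop (1 / t),
    tendsto_natCast_atTop_atTop.eventually_ge_atTop (2 / t), eventually_ge_atTop (n0 + w + 2)]
    with B h1 h2 h3 h4 h5 h6 N hN1 hN2
  have B1 : 1 ≤ B := by omega
  have b1 : (1 : ℝ) ≤ B := by exact_mod_cast B1
  have b0 : (0 : ℝ) < B := by linarith
  have u0 : 0 < Real.log B := lt_of_lt_of_le (by positivity) h4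
  have hBN : B ≤ N := (le_self_pow₀ B1 (by omega)).trans hN1
  have N0 : (0 : ℝ) < N := by exact_mod_cast B1.trans hBN
  have hN1' : (B : ℝ) ^ (3 * μ) ≤ N := by exact_mod_cast hN1
  have hN2' : (N : ℝ) ≤ 2 * (B : ℝ) ^ (3 * μ) := by exact_mod_cast hN2
  have lv : Real.log ((B : ℝ) ^ t) = t * Real.log B := Real.log_rpow b0 _
  have hv : ((B : ℝ) ^ t) ^ 2 ≤ B := by
    rw [← Real.rpow_natCast, ← Real.rpow_mul b0.le]
    exact (Real.rpow_le_rpow_of_exponent_le b1 (by push_cast; linarith)).trans_eq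
      (Real.rpow_one _)
  generalize (B : ℝ) ^ t = v at *
  rw [pow_zero, mul_one] at h3
  have k0 : 0 ≤ (9 * (W : ℝ) + 24) / (ε / 2) := by positivity
  have v2 : 2 ≤ v := by linarith
  have v0 : 0 < v := by linarith
  have vB : v ≤ B := (le_self_pow₀ (by linarith) two_ne_zero).trans hv
  obtain ⟨m, rfl⟩ : ∃ m, μ = m + 1 := ⟨μ - 1, by omega⟩
  have x1 : (B : ℝ) ^ m ≤ B ^ (m + 1) / v := by
    rw [le_div_iff₀ v0, pow_succ]
    gcongr
  have x2 : (B : ℝ) ≤ B ^ m := le_self_pow₀ b1 (by omega)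
  have y1 : B ^ m ≤ ⌊(B : ℝ) ^ (m + 1) / v⌋₊ := Nat.le_floor (by rwa [Nat.cast_pow])
  have y2 := Nat.floor_le (show 0 ≤ (B : ℝ) ^ (m + 1) / v by positivity)
  have y3 := Nat.lt_floor_add_one ((B : ℝ) ^ (m + 1) / v)
  generalize ⌊(B : ℝ) ^ (m + 1) / v⌋₊ = y at y1 y2 y3
  have y4 : B ≤ y := (le_self_pow₀ B1 (by omega)).trans y1
  have y5 : (B : ℝ) ≤ y := Nat.cast_le.2 y4
  have y6 : (y : ℝ) + 1 ≤ 2 * (B ^ (m + 1) / v) := by linarith
  have y7 : y + 1 ≤ B ^ (m + 1) := by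
    have : 2 * ((B : ℝ) ^ (m + 1) / v) ≤ B ^ (m + 1) := by
      rw [← mul_div_assoc, div_le_iff₀ v0, mul_comm]
      gcongr
    exact_mod_cast y6.trans this
  have ly : ((m + 1 : ℕ) : ℝ) * (1 - 2 * t) * Real.log B ≤ Real.log y := by
    have a1 : (B : ℝ) ^ (m + 1) / v ^ 2 ≤ y := by
      rw [div_lt_iff₀ v0] at y3
      rw [div_le_iff₀ (by positivity)]
      have : (y : ℝ) + 1 ≤ y * v := by
        linarith [mul_le_mul_of_nonneg_left v2 (Nat.cast_nonneg y)]
      linarith [mul_le_mul_of_nonneg_right this v0.le]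
    have a2 := Real.log_le_log (by positivity) a1
    rw [Real.log_div (by positivity) (by positivity), Real.log_pow, Real.log_pow, lv] at a2
    have a3 : t * Real.log B ≤ ((m + 1 : ℕ) : ℝ) * (t * Real.log B) :=
      le_mul_of_one_le_left (by positivity) (by linarith)
    push_cast at a2 a3 ⊢
    linarith
  have sv := h1 N y hN1 hN2 y1 y7
  have cnt := count_le_sifted f (W := W) (N := N) (Nat.cast_nonneg y)
    (fun p hp hh => Nat.cast_le.2 (((hW p hp).mp hh).trans (by omega)))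
    fun n hn => (hn0 n hn).1.1
  obtain ⟨g1, g2⟩ := (hn0 N (by omega)).1
  obtain ⟨-, g3, g4⟩ := hn0 y (by omega)
  have up := hA _ _ t ((y : ℝ) + 1) (H y) t0.le t1.le (by linarith)
  have e0 : below (psOf W y) ((y : ℝ) + 1) = psOf W y := filter_true_of_mem fun p hp => by
    linarith [((mem_psOf (Nat.cast_nonneg y)).1 hp).2.1]
  rw [VV, e0] at up
  have lN : Real.log N ≤ (1 + t) * (3 * (m + 1 : ℕ)) * Real.log B := by
    have a1 := Real.log_le_log N0 hN2'
    rw [Real.log_mul (by norm_num) (by positivity), Real.log_pow, Nat.cast_mul] at a1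
    rw [div_le_iff₀ t0] at h4
    have a2 : Real.log B * t ≤ ((m + 1 : ℕ) : ℝ) * (Real.log B * t) :=
      le_mul_of_one_le_left (by positivity) (by linarith)
    push_cast at a1 a2 ⊢
    linarith [Real.log_two_lt_d9]
  have lf : Real.log |((f.eval (N : ℤ) : ℤ) : ℝ)| ≤
      (1 + t) * f.natDegree * ((1 + t) * (3 * (m + 1 : ℕ)) * Real.log B) :=
    g2.trans (by gcongr)
  have lf0 : 0 ≤ Real.log |((f.eval (N : ℤ) : ℤ) : ℝ)| := by
    have : (2 : ℝ) ≤ N := by exact_mod_cast (by omega : 2 ≤ N)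
    exact Real.log_nonneg (by linarith)
  have lf1 : Real.log |((f.eval (N : ℤ) : ℤ) : ℝ)| ≤ v := by
    refine lf.trans (le_trans ?_ h2)
    calc _ = (1 + t) ^ 2 * (3 * (m + 1 : ℕ) * f.natDegree * Real.log B) := by ring
      _ ≤ 4 * (3 * (m + 1 : ℕ) * f.natDegree * (1 + Real.log B)) := by
          gcongr
          · exact (pow_le_pow_left₀ (by linarith) (show 1 + t ≤ 2 by linarith) 2).trans
              (by norm_num)
          · linarith
      _ = _ := by ring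
  have hL : (N : ℝ) + (N / B + 1 : ℕ) ≤ (1 + t) * N := by
    have a1 : ((N / B : ℕ) : ℝ) ≤ N / B := Nat.cast_div_le
    have a2 : (1 : ℝ) ≤ N / B := (one_le_div b0).2 (Nat.cast_le.2 hBN)
    have a3 : 2 / (B : ℝ) * N ≤ t * N := by
      gcongr
      rwa [div_le_comm₀ b0 t0]
    have a4 : 2 / (B : ℝ) * N = 2 * (N / B) := by ring
    push_cast
    linarith
  have Q0 := euler_nonneg f ((range (y + 1)).filter Nat.Prime) (fun p hp => (mem_filter.1 hp).2) 1
  simp only [pow_one] at Q0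
  have M0 : 0 ≤ ∏ p ∈ (Ioc 0 y).filter Nat.Prime, (1 - (p : ℝ)⁻¹) := prod_nonneg fun p hp =>
    sub_nonneg.2 (inv_le_one_of_one_le₀ (Nat.one_le_cast.2 (mem_filter.1 hp).2.pos))
  have hP' := hP y (by omega)
  have a0 : (0 : ℝ) ≤ (adm f W).card / W := by positivity
  generalize Real.log |((f.eval (N : ℤ) : ℤ) : ℝ)| = l at *
  generalize ∏ p ∈ (Ioc 0 y).filter Nat.Prime, (1 - (p : ℝ)⁻¹) = M at *
  generalize ∏ p ∈ (range (y + 1)).filter Nat.Prime,
    (1 - (omega f p : ℝ) / p) / (1 - 1 / (p : ℝ)) = Q at *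
  generalize ∏ p ∈ psOf W y, (1 - (omega f p : ℝ) / p) = V at *
  generalize ((adm f W).card : ℝ) / W = a at *
  generalize rSum _ _ _ _ = r at *
  have Γ0 : 0 ≤ A + t * 200000 - 3 * c := by linarith
  have m1 : ((N : ℝ) + (N / B + 1 : ℕ)) * a * (r - c * V) ≤
      (1 + t) * N * (Q * M * ((A + t * 200000 - 3 * c) / 3)) := by
    calc _ ≤ ((N : ℝ) + (N / B + 1 : ℕ)) * a * (V * ((A + t * 200000 - 3 * c) / 3)) :=
          mul_le_mul_of_nonneg_left (by linarith) (by positivity)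
      _ = ((N : ℝ) + (N / B + 1 : ℕ)) * (Q * M * ((A + t * 200000 - 3 * c) / 3)) := by
          rw [← hP']
          ring
      _ ≤ _ := by gcongr
  have t2 : 0 < 1 - 2 * t := by linarith
  have m2 : M ≤ (2 + t) / (A * ((m + 1 : ℕ) * (1 - 2 * t) * Real.log B)) := by
    rw [le_div_iff₀ (by positivity)]
    refine le_trans (le_trans (le_of_eq (by ring)) (mul_le_mul_of_nonneg_left
      (mul_le_mul_of_nonneg_right ly M0) (by linarith))) g3
  have m3 : ((y : ℝ) + 1) ^ 3 * v ≤ 8 * (N / v ^ 2) :=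
    calc _ ≤ (2 * (B ^ (m + 1) / v)) ^ 3 * v := by gcongr
      _ = 8 * (B ^ (3 * (m + 1)) / v ^ 2) := by
          rw [mul_comm 3, pow_mul]
          field_simp
          norm_num
      _ ≤ _ := by gcongr
  have m4 : (N : ℝ) / B ≤ N / v ^ 2 := by gcongr
  have m5 : (n0 : ℝ) + 2 * y ≤ 24 * (N / v ^ 2) := by
    have a1 : (n0 : ℝ) ≤ y := Nat.cast_le.2 (by omega)
    have a2 : (y : ℝ) + 1 ≤ (y + 1) ^ 3 := le_self_pow₀ (by linarith) (by norm_num)
    have a3 : ((y : ℝ) + 1) ^ 3 ≤ (y + 1) ^ 3 * v :=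
      le_mul_of_one_le_right (by positivity) (by linarith)
    linarith
  have m6 : ((y : ℝ) + 1) ^ 3 * (v * W) + W * (N / B) + (n0 + 2 * y) ≤
      (9 * W + 24) * (N / v ^ 2) := by
    have W0 : (0 : ℝ) ≤ W := Nat.cast_nonneg _
    linarith [mul_le_mul_of_nonneg_right m3 W0, mul_le_mul_of_nonneg_left m4 W0]
  have e4 := cnt.trans (add_le_add_left (sv.trans (add_le_add_left m1 _)) _)
  rw [add_assoc] at e4
  rw [div_le_iff₀ N0]
  refine (mul_le_mul_of_nonneg_right (e4.trans (add_le_add_right m6 _)) lf0).trans ?_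
  rw [add_mul, ← add_halves ε, ← add_assoc, add_mul _ (ε / 2)]
  refine add_le_add ?_ ?_
  · calc _ ≤ (1 + t) * N * (Q * ((2 + t) / (A * ((m + 1 : ℕ) * (1 - 2 * t) * Real.log B))) *
          ((A + t * 200000 - 3 * c) / 3)) *
          ((1 + t) * f.natDegree * ((1 + t) * (3 * (m + 1 : ℕ)) * Real.log B)) := by gcongr
      _ = (1 + t) ^ 3 * (2 + t) * (A + t * 200000 - 3 * c) / (A * (1 - 2 * t)) *
          (f.natDegree * Q * N) := by field_simp
      _ ≤ (2 - c / 21) * (f.natDegree * (C + ε / (4 * f.natDegree)) * N) := by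
          gcongr
          linarith
      _ = ((2 - c / 21) * f.natDegree * C + (2 - c / 21) * (ε / 4)) * N := by field_simp
      _ ≤ _ := mul_le_mul_of_nonneg_right (by linarith [mul_pos c0 hε]) N0.le
  · calc _ ≤ (9 * W + 24) * (N / v ^ 2) * v := by gcongr
      _ = (9 * W + 24) / v * N := by field_simp
      _ ≤ _ := by
          refine mul_le_mul_of_nonneg_right ?_ N0.le
          rw [div_le_comm₀ v0 (half_pos hε)]
          linarith

end Pool.Agent.Work.MP_51e72e_nt.Deg
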