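import Pool.Agent.Work.MP_51e72e_nt.DegLevel
import Pool.Agent.Work.MP_51e72e_nt.DegMain

/-!
The upper bound for prime values of a polynomial of arbitrary degree.
-/

set_option autoImplicit false

namespace Pool.Agent.Work.MP_51e72e_nt.Deg

open Finset Polynomial Filter Topology

theorem upper_all (d : ℕ) (hd : 2 ≤ d) : ∃ δ : ℝ, 0 < δ ∧ ∀ f : ℤ[X], Irreducible f →
    f.natDegree = d → ∃ C : ℝ,
      Tendsto (fun y : ℕ => ∏ p ∈ (range (y + 1)).filter Nat.Prime,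
        (1 - (omega f p : ℝ) / (p : ℝ)) / (1 - 1 / (p : ℝ))) atTop (𝓝 C) ∧
      ∀ ε : ℝ, 0 < ε → ∀ᶠ N : ℕ in atTop,
        (((Icc 1 N).filter (fun n : ℕ => (f.eval (n : ℤ)).natAbs.Prime)).card : ℝ) *
          Real.log |((f.eval (N : ℤ) : ℤ) : ℝ)| / (N : ℝ) ≤ (2 - δ) * d * C + ε := by
  obtain ⟨n, e0, e, hL⟩ := level_all d hd
  obtain ⟨δ, hδ, hU⟩ := upper_of_level n e0 e
  have key : ∀ f : ℤ[X], Irreducible f → f.natDegree = d → 0 < f.leadingCoeff → ∃ C : ℝ,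
      Tendsto (fun y : ℕ => ∏ p ∈ (range (y + 1)).filter Nat.Prime,
        (1 - (omega f p : ℝ) / (p : ℝ)) / (1 - 1 / (p : ℝ))) atTop (𝓝 C) ∧
      ∀ ε : ℝ, 0 < ε → ∀ᶠ N : ℕ in atTop,
        (((Icc 1 N).filter (fun n : ℕ => (f.eval (n : ℤ)).natAbs.Prime)).card : ℝ) *
          Real.log |((f.eval (N : ℤ) : ℤ) : ℝ)| / (N : ℝ) ≤ (2 - δ) * d * C + ε := by
    intro f hf hdf hl
    obtain ⟨C, hC, -⟩ := tendsto_prod_omegaF {f} (by
      simp only [mem_singleton, forall_eq]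
      exact ⟨hf, by omega, hl⟩)
    simp only [omegaF, prod_singleton, card_singleton, pow_one] at hC
    exact ⟨C, hC, fun ε hε => hdf ▸ hU f hf (by omega) hl (hL f hf hdf hl) C hC ε hε⟩
  refine ⟨δ, hδ, fun f hf hdf => ?_⟩
  rcases lt_or_gt_of_ne (leadingCoeff_ne_zero.mpr hf.ne_zero) with h | h
  · have := key (-f) ((Associated.refl f).neg_right.irreducible hf) (by simpa using hdf)
      (by simpa using h)
    simpa only [omega, eval_neg, dvd_neg, Int.natAbs_neg, Int.cast_neg, abs_neg] using this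
  · exact key f hf hdf h

end Pool.Agent.Work.MP_51e72e_nt.Deg
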