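import Pool.Agent.Work.MP_51e72e_nt.DegExc

-- merged part: Pool.Agent.Work.MP_51e72e_nt.DegFlat
section
/-!
The flattening step for positive definite functions under dilation by reciprocals.
-/

set_option autoImplicit false

namespace Pool.Agent.Work.MP_51e72e_nt.Deg

open Finset

section Steps

variable {q : ℕ} [NeZero q] {φ : ZMod q → ℝ}

theorem sum_Icc_symm (B : ℤ → ℝ) (hB : ∀ t, B (-t) = B t) (L : ℕ) :
    ∑ t ∈ Icc (-(L : ℤ)) L, B t = B 0 + 2 * ∑ t ∈ Icc 1 L, B (t : ℕ) := by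
  induction L with
  | zero => simp
  | succ L ih =>
    have e : Icc (-((L + 1 : ℕ) : ℤ)) (L + 1 : ℕ) =
        insert (-((L + 1 : ℕ) : ℤ)) (insert ((L + 1 : ℕ) : ℤ) (Icc (-(L : ℤ)) L)) := by
      ext t; simp only [mem_Icc, mem_insert]; push_cast; omega
    rw [e, sum_insert (by simp only [mem_Icc, mem_insert]; push_cast; omega),
      sum_insert (by simp only [mem_Icc]; push_cast; omega), ih, hB,
      sum_Icc_succ_top (by omega)]
    ring

theorem flat_one (h0 : ∀ x, 0 ≤ φ x) (A : ℕ) (K : ℝ) (hK : 0 ≤ K)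
    (U : Finset ℤ) (hU : ∀ u ∈ U, |u| ≤ A) (μ s : ZMod q)
    (ω : ℤ → ZMod q) (hω : ∀ u ∈ U, (μ * u + s) * ω u = 1)
    (h : K < ∑ x, avg U (2 * A + 1) ω φ x ^ 2) :
    ∃ c : ZMod q, IsUnit c ∧ (2 * A + 1 : ℕ) * K <
      ∑ x, φ x * ∑ u ∈ Icc (-(A : ℤ)) A, φ (x * c * (μ * u + s)) := by
  set L : ℕ := 2 * A + 1 with hLdef
  have hL : (0 : ℝ) < L := by positivity
  have hsub : U ⊆ Icc (-(A : ℤ)) A := fun u hu => mem_Icc.2 (abs_le.1 (hU u hu))
  have hcard : U.card ≤ L := by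
    refine (card_le_card hsub).trans (le_of_eq ?_)
    rw [Int.card_Icc]; omega
  by_contra hc
  push Not at hc
  have h1 : ∑ x, avg U L ω φ x ^ 2 =
      (∑ u2 ∈ U, ∑ u1 ∈ U, ∑ x, φ (x * ω u1) * φ (x * ω u2)) / (L : ℝ) ^ 2 := by
    simp only [avg, div_pow, ← sum_div]
    congr 1
    simp only [sq, sum_mul_sum]
    rw [sum_comm, sum_comm (s := U) (t := U)]
    refine sum_congr rfl fun u1 _ => ?_
    rw [sum_comm]
  have h2 : ∀ u2 ∈ U, ∑ u1 ∈ U, ∑ x, φ (x * ω u1) * φ (x * ω u2) ≤ L * K := by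
    intro u2 hu2
    have hu : IsUnit (ω u2) := IsUnit.of_mul_eq_one_right _ (hω u2 hu2)
    refine le_trans ?_ (hc _ hu)
    simp only [mul_sum]
    rw [sum_comm (s := univ)]
    calc _ = ∑ u1 ∈ U, ∑ x, φ x * φ (x * ω u2 * (μ * u1 + s)) := by
          refine sum_congr rfl fun u1 hu1 => ?_
          have hu1' : IsUnit (μ * u1 + s) := IsUnit.of_mul_eq_one _ (hω u1 hu1)
          rw [← sum_unit (fun x => φ (x * ω u1) * φ (x * ω u2)) hu1']
          refine sum_congr rfl fun x _ => ?_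
          rw [mul_assoc x, hω u1 hu1, mul_one, mul_right_comm]
      _ ≤ _ := sum_le_sum_of_subset_of_nonneg hsub fun u _ _ =>
          sum_nonneg fun x _ => mul_nonneg (h0 _) (h0 _)
  have h3 : ∑ u2 ∈ U, ∑ u1 ∈ U, ∑ x, φ (x * ω u1) * φ (x * ω u2) ≤ L * (L * K) := by
    refine (sum_le_sum h2).trans ?_
    rw [sum_const, nsmul_eq_mul]
    exact mul_le_mul_of_nonneg_right (by exact_mod_cast hcard) (by positivity)
  rw [h1, lt_div_iff₀ (by positivity)] at h
  nlinarith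

theorem flat_two (h0 : ∀ x, 0 ≤ φ x) (hPD : IsPD φ) (A : ℕ) (c μ s : ZMod q) :
    (∑ x, φ x * ∑ u ∈ Icc (-(A : ℤ)) A, φ (x * c * (μ * u + s))) ^ 2 ≤
      (∑ x, φ x) * ((2 * A + 1 : ℕ) * ((∑ x, φ x) +
        2 * ∑ t ∈ Icc 1 (2 * A + 1), ∑ x, φ x * φ (x * (c * μ) * (t : ℕ)))) := by
  set L : ℕ := 2 * A + 1 with hLdef
  set I := Icc (-(A : ℤ)) A with hI
  set B : ℤ → ℝ := fun t => ∑ x, φ x * φ (x * (c * μ) * (t : ZMod q)) with hB
  have hB0 : ∀ t, 0 ≤ B t := fun t => sum_nonneg fun x _ => mul_nonneg (h0 _) (h0 _)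
  have hBe : ∀ t, B (-t) = B t := fun t => sum_congr rfl fun x _ => by
    rw [Int.cast_neg, mul_neg, hPD.even]
  have h1 : (∑ x, φ x * ∑ u ∈ I, φ (x * c * (μ * u + s))) ^ 2 ≤
      (∑ x, φ x) * ∑ x, φ x * (∑ u ∈ I, φ (x * c * (μ * u + s))) ^ 2 :=
    sum_sq_le_sum_mul_sum_of_sq_le_mul univ (fun z _ => h0 z)
      (fun z _ => mul_nonneg (h0 z) (sq_nonneg _)) (fun z _ => le_of_eq (by ring))
  refine h1.trans (mul_le_mul_of_nonneg_left ?_ (sum_nonneg fun x _ => h0 x))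
  have h2 : ∑ x, φ x * (∑ u ∈ I, φ (x * c * (μ * u + s))) ^ 2 ≤ ∑ u ∈ I, ∑ u' ∈ I, B (u - u') := by
    calc _ ≤ ∑ x, φ x * ∑ u ∈ I, ∑ u' ∈ I,
            φ (x * c * (μ * u + s) - x * c * (μ * u' + s)) :=
          sum_le_sum fun x _ => mul_le_mul_of_nonneg_left
            (hPD.sq_le I fun u : ℤ => x * c * (μ * u + s)) (h0 x)
      _ = _ := by
          simp only [mul_sum, hB]
          rw [sum_comm]
          refine sum_congr rfl fun u _ => ?_
          rw [sum_comm]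
          refine sum_congr rfl fun u' _ => sum_congr rfl fun x _ => ?_
          congr 2; push_cast; ring
  have h3 : ∀ u ∈ I, ∑ u' ∈ I, B (u - u') ≤ ∑ t ∈ Icc (-(L : ℤ)) L, B t := by
    intro u hu
    rw [← sum_image (g := fun u' : ℤ => u - u') (f := B) (s := I)
      (fun a _ b _ h => by simpa using h)]
    refine sum_le_sum_of_subset_of_nonneg ?_ fun t _ _ => hB0 t
    intro t ht
    obtain ⟨u', hu', rfl⟩ := mem_image.1 ht
    have e1 := mem_Icc.1 hu
    have e2 := mem_Icc.1 hu'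
    refine mem_Icc.2 ?_
    rw [hLdef]; push_cast; omega
  have h4 : I.card = L := by rw [hI, Int.card_Icc]; omega
  have h5 : B 0 ≤ ∑ x, φ x := sum_le_sum fun x _ => mul_le_of_le_one_right (h0 x) (hPD.le_one _)
  refine h2.trans ((sum_le_sum h3).trans ?_)
  rw [sum_const, h4, nsmul_eq_mul, sum_Icc_symm B hBe]
  refine mul_le_mul_of_nonneg_left ?_ (Nat.cast_nonneg _)
  simp only [hB, Int.cast_natCast] at h5 ⊢
  linarith

theorem flat_three (B : ℕ → ℝ) (hB0 : ∀ t, 0 ≤ B t) (Φ : ℝ) (hB : ∀ t, B t ≤ Φ) (L b : ℕ)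
    (hb : 10 ≤ b) (hτ : q.divisors.card ≤ b) (h : L * Φ / (4 * b ^ 2) ≤ ∑ t ∈ Icc 1 L, B t) :
    ∃ g ∈ Icc 1 (b ^ 12), L * Φ / b ^ 15 ≤
      ∑ t ∈ (Icc 1 L).filter (fun t => Nat.Coprime t q), B (g * t) := by
  classical
  have hΦ : 0 ≤ Φ := (hB0 0).trans (hB 0)
  have hb' : (10 : ℝ) ≤ b := by exact_mod_cast hb
  set T := (Icc 1 L).filter (fun t => Nat.Coprime t q) with hT
  have hbad := card_bad_le (NeZero.ne q) L (b ^ 4) (by positivity)
  rw [← pow_mul, ← hT] at hbad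
  set P : ℕ → Prop := fun t => ∃ g ∈ Icc 1 (b ^ (4 * 3)), ∃ t' ∈ T, t = g * t' with hP
  rw [← sum_filter_add_sum_filter_not (Icc 1 L) P] at h
  have h1 : ∑ t ∈ (Icc 1 L).filter (fun t => ¬ P t), B t ≤ L * Φ / (8 * b ^ 2) := by
    calc _ ≤ ∑ t ∈ (Icc 1 L).filter (fun t => ¬ P t), Φ := sum_le_sum fun t _ => hB t
      _ = (((Icc 1 L).filter (fun t => ¬ P t)).card : ℝ) * Φ := by rw [sum_const, nsmul_eq_mul]
      _ ≤ ((b + 1) * (L / (b ^ 4 : ℕ))) * Φ := by
          refine mul_le_mul_of_nonneg_right (hbad.trans ?_) hΦ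
          have : (q.divisors.card : ℝ) ≤ b := by exact_mod_cast hτ
          gcongr
      _ ≤ _ := by
          push_cast
          rw [mul_div_assoc', div_mul_eq_mul_div, div_le_div_iff₀ (by positivity) (by positivity)]
          have h2 : ((b : ℝ) + 1) * 8 ≤ b ^ 2 := by linarith only [hb', mul_nonneg_of_nonpos_of_nonpos (Mathlib.Tactic.Linarith.sub_nonpos_of_le (Mathlib.Tactic.Linarith.natCast_nonneg ℝ b)) (Mathlib.Tactic.Linarith.sub_nonpos_of_le hb')]
          have h3 : (0 : ℝ) ≤ L * Φ * b ^ 2 := by positivity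
          linarith only [h2, h3, mul_le_mul_of_nonneg_left h2 h3]
  have h2 : ∑ t ∈ (Icc 1 L).filter P, B t ≤ ∑ g ∈ Icc 1 (b ^ 12), ∑ t ∈ T, B (g * t) := by
    rw [← sum_product' (f := fun g t => B (g * t))]
    refine le_trans ?_ (sum_image_le_of_nonneg (g := fun p : ℕ × ℕ => p.1 * p.2) (f := B)
      fun u _ => hB0 u)
    refine sum_le_sum_of_subset_of_nonneg ?_ fun t _ _ => hB0 t
    intro t ht
    obtain ⟨g, hg, t', ht', e⟩ := (mem_filter.1 ht).2
    exact mem_image.2 ⟨(g, t'), mem_product.2 ⟨hg, ht'⟩, e.symm⟩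
  by_contra hc
  push Not at hc
  have h3 : ∑ g ∈ Icc 1 (b ^ 12), ∑ t ∈ T, B (g * t) < ∑ g ∈ Icc 1 (b ^ 12), L * Φ / b ^ 15 :=
    sum_lt_sum_of_nonempty ⟨1, mem_Icc.2 ⟨le_rfl, Nat.one_le_pow _ _ (by omega)⟩⟩ hc
  rw [sum_const, Nat.card_Icc, Nat.add_sub_cancel, nsmul_eq_mul] at h3
  have h4 : ((b ^ 12 : ℕ) : ℝ) * (L * Φ / b ^ 15) ≤ L * Φ / (8 * b ^ 2) := by
    push_cast
    rw [mul_div_assoc', div_le_div_iff₀ (by positivity) (by positivity)]
    have h5 : (0 : ℝ) ≤ L * Φ * b ^ 14 := by positivity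
    linarith only [h5, hb', mul_le_mul_of_nonneg_left hb' h5]
  have h5 : L * Φ / (4 * b ^ 2) = L * Φ / (8 * b ^ 2) + L * Φ / (8 * (b : ℝ) ^ 2) := by
    field_simp; ring
  linarith only [h, h1, h2, h3, h4, h5]

theorem flat_four (h0 : ∀ x, 0 ≤ φ x) (h1 : ∀ x, φ x ≤ 1) (L J b g : ℕ) (hb : 10 ≤ b)
    (hJ : 1 ≤ J) (hN : ∀ x, (∑ ζ, φ (x * ζ)) / q ≤ 1 / (addOrderOf x : ℝ) + 1 / (L : ℝ))
    (hq : q ≤ L ^ J) (hτ : ∀ n : ℕ, n ≤ L ^ J → n.divisors.card ≤ b)
    (hL : b ^ (50 * J) ≤ L) (c : ZMod q) (hc : IsUnit c) (hg : g ∈ Icc 1 (b ^ 12))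
    (hΦ : (b : ℝ) ^ (46 * J) ≤ ∑ x, φ x)
    (h : L * (∑ x, φ x) / b ^ 15 ≤ ∑ t ∈ (Icc 1 L).filter (fun t => Nat.Coprime t q),
      ∑ x, φ x * φ (x * c * (g * t : ℕ))) : False := by
  set Φ := ∑ x, φ x with hΦdef
  set T := (Icc 1 L).filter (fun t => Nat.Coprime t q) with hT
  have hb' : (10 : ℝ) ≤ b := by exact_mod_cast hb
  have hb0 : (0 : ℝ) < b := by linarith only [hb']
  have hb1 : (1 : ℝ) ≤ b := by linarith only [hb']
  have hL0 : 0 < L := lt_of_lt_of_le (by positivity) hL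
  have hL' : (0 : ℝ) < L := by exact_mod_cast hL0
  have hΦ0 : 0 < Φ := lt_of_lt_of_le (by positivity) hΦ
  have hg1 := mem_Icc.1 hg
  have hgb : (g : ℝ) ≤ (b : ℝ) ^ 12 := by exact_mod_cast hg1.2
  have hTu : ∀ t ∈ T, IsUnit (t : ZMod q) := fun t ht =>
    (ZMod.isUnit_iff_coprime t q).2 (mem_filter.1 ht).2
  have hTs : T ⊆ Icc 1 L := filter_subset _ _
  have hTc : T.card ≤ L := (card_le_card hTs).trans (by simp)
  set ψ : ZMod q → ℝ := fun x => φ (x * c * g) with hψ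
  have hψ0 : ∀ x, 0 ≤ ψ x := fun x => h0 _
  have hψ1 : ∀ x, ψ x ≤ 1 := fun x => h1 _
  have hfib : ∀ f : ZMod q → ℝ, (∀ x, 0 ≤ f x) → ∑ x, f (x * c * g) ≤ b ^ 12 * ∑ x, f x := by
    intro f hf
    rw [sum_unit (fun x : ZMod q => f (x * (g : ZMod q))) hc]
    exact (sum_mul_nat_le f hf hg1.1).trans
      (mul_le_mul_of_nonneg_right hgb (sum_nonneg fun x _ => hf x))
  have hψs : ∑ x, ψ x ≤ b ^ 12 * Φ := hfib φ h0
  set a : ℕ → ℝ := fun j => ∑ x, (opM T L)^[j] ψ x ^ 2 with ha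
  have ha0 : ∀ j, 0 ≤ a j := fun j => sum_nonneg fun x _ => sq_nonneg _
  have hconv : ∀ j, a (j + 1) ^ 2 ≤ a j * a (j + 2) := by
    intro j
    simp only [ha, Function.iterate_succ_apply']
    exact opM_convex hTu _
  have hz : a 0 ≤ b ^ 12 * Φ := by
    refine le_trans (sum_le_sum fun x _ => ?_) hψs
    simp only [Function.iterate_zero, id]
    linarith only [hψ0, hψ1, hψ0 x, hψ1 x, mul_nonneg_of_nonpos_of_nonpos (Mathlib.Tactic.Linarith.sub_nonpos_of_le (hψ0 x)) (Mathlib.Tactic.Linarith.sub_nonpos_of_le (hψ1 x))]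
  have hone : Φ / b ^ 30 ≤ a 1 := by
    have e1 : ∑ x, φ x * opM T L ψ x =
        (∑ t ∈ T, ∑ x, φ x * φ (x * c * (g * t : ℕ))) / L := by
      simp only [opM, ← mul_div_assoc, ← sum_div, mul_sum, hψ]
      rw [sum_comm]
      congr 1
      refine sum_congr rfl fun t _ => sum_congr rfl fun x _ => ?_
      congr 2; push_cast; ring
    have e2 : Φ / b ^ 15 ≤ ∑ x, φ x * opM T L ψ x := by
      rw [e1, le_div_iff₀ hL']
      refine le_trans (le_of_eq ?_) h
      ring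
    have e3 := sum_mul_sq_le_sq_mul_sq univ φ (opM T L ψ)
    have e4 : ∑ x, φ x ^ 2 ≤ Φ := sum_le_sum fun x _ => by linarith only [h0, h1, h0 x, h1 x, mul_nonneg_of_nonpos_of_nonpos (Mathlib.Tactic.Linarith.sub_nonpos_of_le (h0 x)) (Mathlib.Tactic.Linarith.sub_nonpos_of_le (h1 x))]
    have e5 : (Φ / b ^ 15) ^ 2 ≤ Φ * a 1 :=
      (pow_le_pow_left₀ (by positivity) e2 2).trans
        (e3.trans (mul_le_mul_of_nonneg_right e4 (ha0 1)))
    have e6 : (Φ / b ^ 15) ^ 2 = Φ * (Φ / b ^ 30) := by field_simp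
    rw [e6] at e5
    exact le_of_mul_le_mul_left e5 hΦ0
  obtain ⟨j, rfl⟩ : ∃ j, J = j + 1 := ⟨J - 1, by omega⟩
  have hlow : Φ ≤ b ^ (42 * j + 30) * a (j + 1) := by
    have e1 := log_convex' a ha0 hconv (lt_of_lt_of_le (by positivity) hone) j
    have e2 : (Φ / b ^ 30) ^ (j + 1) ≤ (b ^ 12 * Φ) ^ j * a (j + 1) :=
      (pow_le_pow_left₀ (by positivity) hone _).trans
        (e1.trans (mul_le_mul_of_nonneg_right (pow_le_pow_left₀ (ha0 0) hz j) (ha0 _)))
    rw [div_pow, div_le_iff₀ (by positivity)] at e2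
    have e3 : Φ ^ j * Φ ≤ Φ ^ j * (b ^ (42 * j + 30) * a (j + 1)) := by
      rw [← pow_succ]
      refine e2.trans (le_of_eq ?_)
      ring
    exact le_of_mul_le_mul_left e3 (by positivity)
  have hq0 : (0 : ℝ) < q := by exact_mod_cast NeZero.pos q
  have hpt : ∀ x, (opM T L)^[j + 1] ψ x ≤
      2 * b ^ (j + 1) * (1 / (addOrderOf (x * c * g) : ℝ) + 1 / L) := by
    intro x
    refine (iter_le_sum hTs hL0 (j + 1) b hτ hψ0 (j + 1) le_rfl x).trans ?_
    have e1 := sum_Icc_le_period (fun ζ : ZMod q => φ (x * c * (g : ZMod q) * ζ)) (fun _ => h0 _) hq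
    have e2 : ∑ n ∈ Icc 1 (L ^ (j + 1)), ψ (x * ((n : ℕ) : ZMod q)) =
        ∑ n ∈ Icc 1 (L ^ (j + 1)), φ (x * c * g * ((n : ℕ) : ZMod q)) :=
      sum_congr rfl fun n _ => by simp only [hψ]; congr 1; ring
    rw [e2]
    calc _ ≤ (b : ℝ) ^ (j + 1) / (L : ℝ) ^ (j + 1) *
            (2 * (L ^ (j + 1) : ℕ) / q * ∑ ζ, φ (x * c * g * ζ)) :=
          mul_le_mul_of_nonneg_left e1 (by positivity)
      _ = 2 * b ^ (j + 1) * ((∑ ζ, φ (x * c * g * ζ)) / q) := by
          push_cast; field_simp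
      _ ≤ _ := mul_le_mul_of_nonneg_left (hN _) (by positivity)
  have hup : a (j + 1) ≤ 2 * b ^ (j + 1) * (b ^ 12 * b + b ^ 12 * Φ / L) := by
    have e1 : ∑ x : ZMod q, 1 / (addOrderOf (x * c * g) : ℝ) ≤ b ^ 12 * b := by
      refine (hfib (fun y => 1 / (addOrderOf y : ℝ)) fun y => by positivity).trans ?_
      refine mul_le_mul_of_nonneg_left (sum_inv_ord_le.trans ?_) (by positivity)
      exact_mod_cast hτ q hq
    have e2 : ∑ x, (opM T L)^[j + 1] ψ x ≤ b ^ 12 * Φ :=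
      (iter_sum_le hTu hL0 hTc hψ0 _).trans hψs
    calc a (j + 1) ≤ ∑ x, 2 * b ^ (j + 1) * (1 / (addOrderOf (x * c * g) : ℝ) +
            (opM T L)^[j + 1] ψ x / L) := by
          refine sum_le_sum fun x _ => ?_
          have f0 := iter_nonneg (T := T) (L := L) hψ0 (j + 1) x
          have f1 := iter_le_one hL0 hTc hψ1 (j + 1) x
          have f2 := hpt x
          have f3 : (0 : ℝ) ≤ 1 / (addOrderOf (x * c * g) : ℝ) := by positivity
          calc _ = (opM T L)^[j + 1] ψ x * (opM T L)^[j + 1] ψ x := sq _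
            _ ≤ (opM T L)^[j + 1] ψ x *
                (2 * b ^ (j + 1) * (1 / (addOrderOf (x * c * g) : ℝ) + 1 / L)) :=
              mul_le_mul_of_nonneg_left f2 f0
            _ = 2 * b ^ (j + 1) * ((opM T L)^[j + 1] ψ x * (1 / (addOrderOf (x * c * g) : ℝ)) +
                (opM T L)^[j + 1] ψ x / L) := by ring
            _ ≤ _ := by
              refine mul_le_mul_of_nonneg_left (add_le_add ?_ le_rfl) (by positivity)
              exact mul_le_of_le_one_left f3 f1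
      _ = 2 * b ^ (j + 1) * ((∑ x : ZMod q, 1 / (addOrderOf (x * c * g) : ℝ)) +
            (∑ x, (opM T L)^[j + 1] ψ x) / L) := by
          rw [← mul_sum, sum_add_distrib, sum_div]
      _ ≤ _ := by gcongr
  have hLr : (b : ℝ) ^ (50 * (j + 1)) ≤ L := by exact_mod_cast hL
  have f1 : (b : ℝ) ^ (42 * j + 30) * (2 * b ^ (j + 1) * (b ^ 12 * Φ / L)) ≤ Φ / 2 := by
    have e1 : (b : ℝ) ^ (43 * j + 44) ≤ L :=
      (pow_le_pow_right₀ hb1 (by omega)).trans hLr
    have e2 : (b : ℝ) ^ (42 * j + 30) * (2 * b ^ (j + 1) * (b ^ 12 * Φ / L)) =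
        2 * b ^ (43 * j + 43) * Φ / L := by ring
    rw [e2, div_le_div_iff₀ hL' (by norm_num)]
    have e3 : (0 : ℝ) ≤ b ^ (43 * j + 43) * Φ := by positivity
    have e4 : (b : ℝ) ^ (43 * j + 44) * Φ ≤ L * Φ := mul_le_mul_of_nonneg_right e1 hΦ0.le
    rw [pow_succ] at e4
    linarith only [e3, e4, hb', mul_le_mul_of_nonneg_left hb' e3]
  have f2 : (b : ℝ) ^ (42 * j + 30) * (2 * b ^ (j + 1) * (b ^ 12 * b)) < Φ / 2 := by
    have e1 : (b : ℝ) ^ (43 * j + 45) ≤ Φ := (pow_le_pow_right₀ hb1 (by omega)).trans hΦ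
    have e2 : (b : ℝ) ^ (42 * j + 30) * (2 * b ^ (j + 1) * (b ^ 12 * b)) =
        2 * b ^ (43 * j + 44) := by ring
    have e3 : (0 : ℝ) < b ^ (43 * j + 44) := by positivity
    rw [pow_succ] at e1
    rw [e2]
    linarith only [e1, e3, hb', mul_le_mul_of_nonneg_left hb' e3.le]
  have f3 := hlow.trans (mul_le_mul_of_nonneg_left hup (by positivity))
  rw [mul_add, mul_add] at f3
  linarith only [f1, f2, f3]

end Steps

theorem flatten {q : ℕ} [NeZero q] (φ : ZMod q → ℝ) (h0 : ∀ x, 0 ≤ φ x) (hPD : IsPD φ)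
    (A J b : ℕ) (hb : 10 ≤ b) (hJ : 1 ≤ J)
    (hN : ∀ x, (∑ ζ, φ (x * ζ)) / q ≤ 1 / (addOrderOf x : ℝ) + 1 / (2 * A + 1 : ℕ))
    (hq : q ≤ (2 * A + 1) ^ J) (hτ : ∀ n : ℕ, n ≤ (2 * A + 1) ^ J → n.divisors.card ≤ b)
    (hL : b ^ (50 * J) ≤ 2 * A + 1) (U : Finset ℤ) (hU : ∀ u ∈ U, |u| ≤ A) (μ s : ZMod q)
    (hμ : IsUnit μ) (ω : ℤ → ZMod q) (hω : ∀ u ∈ U, (μ * u + s) * ω u = 1)
    (hΦ : (b : ℝ) ^ (46 * J) ≤ ∑ x, φ x) :
    ∑ x, avg U (2 * A + 1) ω φ x ^ 2 ≤ (∑ x, φ x) / b := by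
  by_contra hcon
  push Not at hcon
  have hb' : (10 : ℝ) ≤ b := by exact_mod_cast hb
  have hb0 : (0 : ℝ) < b := by linarith only [hb']
  have hΦ0 : 0 < ∑ x, φ x := lt_of_lt_of_le (by positivity) hΦ
  obtain ⟨c, hc, h1⟩ := flat_one h0 A _ (by positivity) U hU μ s ω hω hcon
  have h2 := flat_two h0 hPD A c μ s
  set L : ℕ := 2 * A + 1 with hLdef
  set Φ := ∑ x, φ x with hΦdef
  set S := ∑ t ∈ Icc 1 L, ∑ x, φ x * φ (x * (c * μ) * (t : ℕ)) with hS
  have hL' : (0 : ℝ) < L := by positivity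
  have hLb : (b : ℝ) ^ 3 ≤ L := by
    have : b ^ 3 ≤ L := (Nat.pow_le_pow_right (by omega) (by omega)).trans hL
    exact_mod_cast this
  have h3 : (L * (Φ / b)) ^ 2 ≤ Φ * (L * (Φ + 2 * S)) :=
    (pow_le_pow_left₀ (by positivity) h1.le 2).trans h2
  have h4 : L * Φ / b ^ 2 ≤ Φ + 2 * S := by
    have e : (L * (Φ / b)) ^ 2 = (Φ * L) * (L * Φ / b ^ 2) := by field_simp
    rw [e, ← mul_assoc] at h3
    exact le_of_mul_le_mul_left h3 (by positivity)
  have h5 : L * Φ / (4 * b ^ 2) ≤ S := by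
    have e1 : Φ ≤ L * Φ / (2 * b ^ 2) := by
      rw [le_div_iff₀ (by positivity), mul_comm]
      refine mul_le_mul_of_nonneg_right (le_trans ?_ hLb) hΦ0.le
      nlinarith only [hb', mul_le_mul_of_nonneg_left hb' (sq_nonneg (b : ℝ))]
    have e2 : L * Φ / b ^ 2 = 4 * (L * Φ / (4 * b ^ 2)) := by field_simp
    have e3 : L * Φ / (2 * b ^ 2) = 2 * (L * Φ / (4 * b ^ 2)) := by field_simp; ring
    linarith only [h4, e1, e2, e3]
  obtain ⟨g, hg, h6⟩ := flat_three (q := q) (fun t => ∑ x, φ x * φ (x * (c * μ) * (t : ℕ)))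
    (fun t => sum_nonneg fun x _ => mul_nonneg (h0 _) (h0 _)) Φ
    (fun t => sum_le_sum fun x _ => mul_le_of_le_one_right (h0 x) (hPD.le_one _)) L b hb
    (hτ q hq) h5
  exact flat_four h0 hPD.le_one L J b g hb hJ hN hq hτ hL (c * μ) (hc.mul hμ) hg hΦ h6

end Pool.Agent.Work.MP_51e72e_nt.Deg
end

-- merged part: Pool.Agent.Work.MP_51e72e_nt.DegMul1
section
/-!
General facts on the averaging operator `avg`, its iterates and additive orders.
-/

set_option autoImplicit false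

namespace Pool.Agent.Work.MP_51e72e_nt.Deg

open Finset

section Avg

variable {q : ℕ} {U : Finset ℤ} {L : ℕ} {ω : ℤ → ZMod q}

theorem avg_mono {f g : ZMod q → ℝ} (h : ∀ x, f x ≤ g x) (x : ZMod q) :
    avg U L ω f x ≤ avg U L ω g x :=
  div_le_div_of_nonneg_right (sum_le_sum fun _ _ => h _) (Nat.cast_nonneg _)

theorem avg_nonneg {f : ZMod q → ℝ} (h : ∀ x, 0 ≤ f x) (x : ZMod q) : 0 ≤ avg U L ω f x :=
  div_nonneg (sum_nonneg fun _ _ => h _) (Nat.cast_nonneg _)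

theorem card_div_le (hU : U.card ≤ L) : (U.card : ℝ) / L ≤ 1 :=
  div_le_one_of_le₀ (by exact_mod_cast hU) (Nat.cast_nonneg _)

theorem avg_const_le (hU : U.card ≤ L) {c : ℝ} (hc : 0 ≤ c) (x : ZMod q) :
    avg U L ω (fun _ => c) x ≤ c := by
  have h := card_div_le hU
  simp only [avg, sum_const, nsmul_eq_mul]
  rw [mul_div_right_comm]
  linarith only [hc, h, mul_nonneg_of_nonpos_of_nonpos (Mathlib.Tactic.Linarith.sub_nonpos_of_le hc) (Mathlib.Tactic.Linarith.sub_nonpos_of_le h)]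

theorem avg_sq (hU : U.card ≤ L) (f : ZMod q → ℝ) (x : ZMod q) :
    avg U L ω f x ^ 2 ≤ avg U L ω (fun z => f z ^ 2) x := by
  have h := card_div_le hU
  have h1 := sq_sum_le_card_mul_sum_sq (s := U) (f := fun u => f (x * ω u))
  have h2 : 0 ≤ (∑ u ∈ U, f (x * ω u) ^ 2) / L :=
    div_nonneg (sum_nonneg fun _ _ => sq_nonneg _) (Nat.cast_nonneg _)
  simp only [avg]
  calc ((∑ u ∈ U, f (x * ω u)) / L) ^ 2 = (∑ u ∈ U, f (x * ω u)) ^ 2 / (L : ℝ) ^ 2 := div_pow _ _ _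
    _ ≤ (U.card * ∑ u ∈ U, f (x * ω u) ^ 2) / (L : ℝ) ^ 2 :=
      div_le_div_of_nonneg_right h1 (by positivity)
    _ = (U.card : ℝ) / L * ((∑ u ∈ U, f (x * ω u) ^ 2) / L) := by
      rw [div_mul_div_comm, sq (L : ℝ)]
    _ ≤ _ := by linarith only [h, h2, mul_nonneg_of_nonpos_of_nonpos (Mathlib.Tactic.Linarith.sub_nonpos_of_le h) (Mathlib.Tactic.Linarith.sub_nonpos_of_le h2)]

theorem avg_pow (hU : U.card ≤ L) {f : ZMod q → ℝ} (hf : ∀ x, 0 ≤ f x) (k : ℕ) (x : ZMod q) :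
    avg U L ω f x ^ 2 ^ k ≤ avg U L ω (fun z => f z ^ 2 ^ k) x := by
  induction k with
  | zero => simp
  | succ k ih =>
    rw [pow_succ, pow_mul]
    refine (pow_le_pow_left₀ (pow_nonneg (avg_nonneg hf x) _) ih 2).trans ?_
    refine (avg_sq hU _ x).trans (le_of_eq ?_)
    simp only [← pow_mul]

theorem it_mono {f g : ZMod q → ℝ} (h : ∀ x, f x ≤ g x) (m : ℕ) (x : ZMod q) :
    (avg U L ω)^[m] f x ≤ (avg U L ω)^[m] g x := by
  induction m generalizing x with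
  | zero => exact h x
  | succ m ih =>
    rw [Function.iterate_succ_apply', Function.iterate_succ_apply']
    exact avg_mono ih x

theorem it_nonneg {f : ZMod q → ℝ} (h : ∀ x, 0 ≤ f x) (m : ℕ) (x : ZMod q) :
    0 ≤ (avg U L ω)^[m] f x := by
  induction m generalizing x with
  | zero => exact h x
  | succ m ih =>
    rw [Function.iterate_succ_apply']
    exact avg_nonneg ih x

theorem it_const_le (hU : U.card ≤ L) {c : ℝ} (hc : 0 ≤ c) (m : ℕ) (x : ZMod q) :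
    (avg U L ω)^[m] (fun _ => c) x ≤ c := by
  induction m generalizing x with
  | zero => exact le_rfl
  | succ m ih =>
    rw [Function.iterate_succ_apply']
    exact (avg_mono ih x).trans (avg_const_le hU hc x)

theorem it_sq (hU : U.card ≤ L) (f : ZMod q → ℝ) (m : ℕ) (x : ZMod q) :
    (avg U L ω)^[m] f x ^ 2 ≤ (avg U L ω)^[m] (fun z => f z ^ 2) x := by
  induction m generalizing x with
  | zero => exact le_rfl
  | succ m ih =>
    rw [Function.iterate_succ_apply', Function.iterate_succ_apply']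
    exact (avg_sq hU _ x).trans (avg_mono ih x)

theorem it_add (f g : ZMod q → ℝ) (m : ℕ) (x : ZMod q) :
    (avg U L ω)^[m] (fun z => f z + g z) x = (avg U L ω)^[m] f x + (avg U L ω)^[m] g x := by
  induction m generalizing x with
  | zero => rfl
  | succ m ih =>
    simp only [Function.iterate_succ_apply']
    simp only [avg, ih, sum_add_distrib, add_div]

theorem it_mul (c : ℝ) (f : ZMod q → ℝ) (m : ℕ) (x : ZMod q) :
    (avg U L ω)^[m] (fun z => c * f z) x = c * (avg U L ω)^[m] f x := by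
  induction m generalizing x with
  | zero => rfl
  | succ m ih =>
    simp only [Function.iterate_succ_apply']
    simp only [avg, ih, ← mul_sum, mul_div_assoc]

theorem it_sum {ι : Type*} (s : Finset ι) (f : ι → ZMod q → ℝ) (m : ℕ) (x : ZMod q) :
    (avg U L ω)^[m] (fun z => ∑ i ∈ s, f i z) x = ∑ i ∈ s, (avg U L ω)^[m] (f i) x := by
  induction m generalizing x with
  | zero => rfl
  | succ m ih =>
    simp only [Function.iterate_succ_apply']
    simp only [avg, ih]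
    rw [sum_comm, sum_div]

theorem it_dil (f : ZMod q → ℝ) (c : ZMod q) (m : ℕ) (x : ZMod q) :
    (avg U L ω)^[m] (fun z => f (z * c)) x = (avg U L ω)^[m] f (x * c) := by
  induction m generalizing x with
  | zero => rfl
  | succ m ih =>
    simp only [Function.iterate_succ_apply']
    simp only [avg, ih, mul_right_comm x c]

end Avg

section Ord

variable {q : ℕ}

theorem ord_unit (x : ZMod q) {c : ZMod q} (hc : IsUnit c) : addOrderOf (x * c) = addOrderOf x :=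
  addOrderOf_injective (AddMonoidHom.mulRight c) (fun _ _ h => hc.mul_right_cancel h) x

theorem ord_dvd_iff (x : ZMod q) (t : ℤ) : x * t = 0 ↔ (addOrderOf x : ℤ) ∣ t := by
  rw [addOrderOf_dvd_iff_zsmul_eq_zero, zsmul_eq_mul, mul_comm]

theorem ord_le [NeZero q] (x : ZMod q) (t : ℤ) :
    addOrderOf x ≤ addOrderOf (x * t) * Nat.gcd (addOrderOf x) t.natAbs := by
  have h1 : (addOrderOf x : ℤ) ∣ (addOrderOf (x * t) : ℤ) * t := by
    rw [← ord_dvd_iff]
    have := addOrderOf_nsmul_eq_zero (x * t)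
    rw [nsmul_eq_mul] at this
    push_cast
    linear_combination this
  have h2 : addOrderOf x ∣ addOrderOf (x * t) * t.natAbs := by
    have := Int.natAbs_dvd_natAbs.2 h1
    simpa [Int.natAbs_mul] using this
  refine Nat.le_of_dvd (Nat.mul_pos (addOrderOf_pos _) (Nat.gcd_pos_of_pos_left _ (addOrderOf_pos _))) ?_
  rw [← Nat.gcd_mul_left]
  exact Nat.dvd_gcd (Dvd.intro_left _ rfl) h2

/-- points of an interval in a residue class -/
theorem card_class (A g : ℕ) (hg : 0 < g) (U : Finset ℤ) (hU : ∀ u ∈ U, |u| ≤ A) (u : ℤ) :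
    ((U.filter fun v => (g : ℤ) ∣ v - u).card : ℝ) ≤ ((2 * A + 1 : ℕ) : ℝ) / g + 1 := by
  have hg' : (0 : ℤ) < g := by exact_mod_cast hg
  have h1 : (U.filter fun v => (g : ℤ) ∣ v - u).card ≤ (range ((2 * A + 1) / g + 1)).card := by
    refine card_le_card_of_injOn (fun v => ((v + A) / g).toNat) ?_ ?_
    · intro v hv
      have := abs_le.1 (hU v (mem_filter.1 hv).1)
      simp only [coe_range, Set.mem_Iio]
      have h3 : (v + A) / g ≤ ((2 * A + 1 : ℕ) : ℤ) / g :=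
        Int.ediv_le_ediv hg' (by push_cast; omega)
      rw [← Int.natCast_div] at h3
      generalize (2 * A + 1) / g = N at h3 ⊢
      omega
    · intro v hv w hw h
      have hv' := mem_filter.1 hv
      have hw' := mem_filter.1 hw
      have a1 := abs_le.1 (hU v hv'.1)
      have a2 := abs_le.1 (hU w hw'.1)
      have b1 : 0 ≤ (v + A) / g := Int.ediv_nonneg (by omega) hg'.le
      have b2 : 0 ≤ (w + A) / g := Int.ediv_nonneg (by omega) hg'.le
      have c : (v + A) / g = (w + A) / g := by simp only at h; omega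
      have d : (v + A) % g = (w + A) % g := by
        have : (g : ℤ) ∣ (w + A) - (v + A) := by
          have h5 := dvd_sub hw'.2 hv'.2
          have h6 : (w + A) - (v + A) = w - u - (v - u) := by ring
          rwa [h6]
        exact (Int.modEq_iff_dvd.2 this : (v + A) ≡ (w + A) [ZMOD g])
      have e1 := Int.mul_ediv_add_emod (v + A) g
      have e2 := Int.mul_ediv_add_emod (w + A) g
      rw [c, d] at e1
      omega
  rw [card_range] at h1
  have h2 : (((2 * A + 1) / g : ℕ) : ℝ) ≤ ((2 * A + 1 : ℕ) : ℝ) / g := Nat.cast_div_le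
  have h3 : ((U.filter fun v => (g : ℤ) ∣ v - u).card : ℝ) ≤ (((2 * A + 1) / g : ℕ) : ℝ) + 1 := by
    exact_mod_cast h1
  linarith only [h2, h3]

theorem card_le_of_abs (A : ℕ) (U : Finset ℤ) (hU : ∀ u ∈ U, |u| ≤ A) : U.card ≤ 2 * A + 1 := by
  have : U ⊆ Icc (-(A : ℤ)) A := fun u hu => mem_Icc.2 (abs_le.1 (hU u hu))
  have h := card_le_card this
  rw [Int.card_Icc] at h
  omega

end Ord

end Pool.Agent.Work.MP_51e72e_nt.Deg
end

-- merged part: Pool.Agent.Work.MP_51e72e_nt.DegMul2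
section
/-!
Positive definite functions and the Fourier transform `nuh`.
-/

set_option autoImplicit false

namespace Pool.Agent.Work.MP_51e72e_nt.Deg

open Finset Pool.Agent.Lib.LargeSieve

variable {q : ℕ} [NeZero q]

theorem isPD_of_sum {ι : Type*} (s : Finset ι) (c : ι → ℝ) (p : ι → ZMod q) (φ : ZMod q → ℝ)
    (hc : ∀ i ∈ s, 0 ≤ c i) (h1 : ∑ i ∈ s, c i ≤ 1)
    (h : ∀ x, (φ x : ℂ) = ∑ i ∈ s, (c i : ℂ) * ZMod.stdAddChar (x * p i)) : IsPD φ := by
  classical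
  refine ⟨fun z => ∑ i ∈ s.filter (fun i => p i = z), c i,
    fun z => sum_nonneg fun i hi => hc i (mem_filter.1 hi).1, ?_, fun x => ?_⟩
  · rwa [sum_fiberwise]
  · rw [h, ← sum_fiberwise s p]
    refine sum_congr rfl fun z _ => ?_
    push_cast
    rw [sum_mul]
    exact sum_congr rfl fun i hi => by rw [(mem_filter.1 hi).2]

theorem IsPD.sq {φ : ZMod q → ℝ} (h : IsPD φ) : IsPD fun x => φ x ^ 2 := by
  obtain ⟨μ, h0, h1, h2⟩ := h
  refine isPD_of_sum (univ ×ˢ univ) (fun i : ZMod q × ZMod q => μ i.1 * μ i.2) (fun i => i.1 + i.2) _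
    (fun i _ => mul_nonneg (h0 _) (h0 _)) ?_ fun x => ?_
  · rw [sum_product, ← sum_mul_sum]
    have := sum_nonneg (s := univ) fun z _ => h0 z
    nlinarith
  · push_cast
    rw [h2, _root_.sq, sum_mul_sum, sum_product]
    refine sum_congr rfl fun a _ => sum_congr rfl fun b _ => ?_
    rw [mul_add, AddChar.map_add_eq_mul]
    ring

variable {U : Finset ℤ} {L : ℕ} {ω : ℤ → ZMod q}

theorem IsPD.avg (hU : U.card ≤ L) {φ : ZMod q → ℝ} (h : IsPD φ) : IsPD (avg U L ω φ) := by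
  obtain ⟨μ, h0, h1, h2⟩ := h
  refine isPD_of_sum (U ×ˢ univ) (fun i : ℤ × ZMod q => μ i.2 / L) (fun i => ω i.1 * i.2) _
    (fun i _ => div_nonneg (h0 _) (Nat.cast_nonneg _)) ?_ fun x => ?_
  · rw [sum_product]
    simp only [← sum_div, sum_const, nsmul_eq_mul]
    have := sum_nonneg (s := univ) fun z _ => h0 z
    have h3 := card_div_le hU
    have h4 : (0 : ℝ) ≤ (U.card : ℝ) / L := by positivity
    rw [mul_div_right_comm]
    nlinarith
  · simp only [Deg.avg]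
    push_cast
    rw [sum_product, sum_div]
    refine sum_congr rfl fun a _ => ?_
    rw [h2, sum_div]
    refine sum_congr rfl fun b _ => ?_
    rw [mul_assoc x]
    ring

theorem char_conj (a b : ZMod q) :
    (ZMod.stdAddChar a : ℂ) * (starRingEnd ℂ) (ZMod.stdAddChar b) = ZMod.stdAddChar (a - b) := by
  rw [← AddChar.map_neg_eq_conj, ← AddChar.map_add_eq_mul, sub_eq_add_neg]

theorem nuh_nonneg (x : ZMod q) : 0 ≤ nuh U L ω x := div_nonneg (norm_nonneg _) (Nat.cast_nonneg _)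

theorem nuh_le (hU : U.card ≤ L) (x : ZMod q) : nuh U L ω x ≤ 1 := by
  refine le_trans (div_le_div_of_nonneg_right ?_ (Nat.cast_nonneg _)) (card_div_le hU)
  refine (norm_sum_le _ _).trans (le_of_eq ?_)
  simp [AddChar.norm_apply]

theorem nuh_sq (x : ZMod q) : ((nuh U L ω x ^ 2 : ℝ) : ℂ) =
    ∑ i ∈ U ×ˢ U, ((1 / (L : ℝ) ^ 2 : ℝ) : ℂ) * ZMod.stdAddChar (x * (ω i.1 - ω i.2)) := by
  rw [nuh, div_pow, Complex.ofReal_div, normSq_sum_eq, sum_product, sum_div]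
  refine sum_congr rfl fun a _ => ?_
  rw [sum_div]
  refine sum_congr rfl fun b _ => ?_
  rw [char_conj, mul_sub]
  push_cast
  ring

theorem isPD_nuh_sq (hU : U.card ≤ L) : IsPD fun x => nuh U L ω x ^ 2 := by
  refine isPD_of_sum (U ×ˢ U) (fun _ => 1 / (L : ℝ) ^ 2) (fun i => ω i.1 - ω i.2) _
    (fun i _ => by positivity) ?_ fun x => nuh_sq x
  rw [sum_const, card_product, nsmul_eq_mul]
  have h3 := card_div_le hU
  have h4 : (0 : ℝ) ≤ (U.card : ℝ) / L := by positivity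
  have : ((U.card * U.card : ℕ) : ℝ) * (1 / (L : ℝ) ^ 2) = (U.card : ℝ) / L * ((U.card : ℝ) / L) := by
    push_cast
    ring
  rw [this]
  linarith only [h3, h4, mul_nonneg_of_nonpos_of_nonpos (Mathlib.Tactic.Linarith.sub_nonpos_of_le h3) (Mathlib.Tactic.Linarith.sub_nonpos_of_le h4)]

omit [NeZero q] in
theorem omega_sub {μ s : ZMod q} (hω : ∀ u ∈ U, (μ * u + s) * ω u = 1) {u v : ℤ} (hu : u ∈ U)
    (hv : v ∈ U) : ω u - ω v = ((v - u : ℤ) : ZMod q) * (μ * ω u * ω v) := by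
  push_cast
  linear_combination (ω v) * hω u hu - (ω u) * hω v hv

omit [NeZero q] in
theorem omega_unit {μ s : ZMod q} (hω : ∀ u ∈ U, (μ * u + s) * ω u = 1) {u : ℤ} (hu : u ∈ U) :
    IsUnit (ω u) := IsUnit.of_mul_eq_one_right _ (hω u hu)

omit [NeZero q] in
theorem omega_eq_iff {μ s : ZMod q} (hμ : IsUnit μ) (hω : ∀ u ∈ U, (μ * u + s) * ω u = 1) {u v : ℤ}
    (hu : u ∈ U) (hv : v ∈ U) (x : ZMod q) :
    x * (ω u - ω v) = 0 ↔ (addOrderOf x : ℤ) ∣ v - u := by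
  rw [omega_sub hω hu hv, ← mul_assoc,
    ((hμ.mul (omega_unit hω hu)).mul (omega_unit hω hv)).mul_left_eq_zero, ord_dvd_iff]

theorem nuh_line (A : ℕ) (hU : ∀ u ∈ U, |u| ≤ A) {μ s : ZMod q} (hμ : IsUnit μ)
    (hω : ∀ u ∈ U, (μ * u + s) * ω u = 1) (x : ZMod q) :
    (∑ ζ, nuh U (2 * A + 1) ω (x * ζ) ^ 2) / q ≤ 1 / (addOrderOf x : ℝ) + 1 / (2 * A + 1 : ℕ) := by
  classical
  have hq : (0 : ℝ) < q := by exact_mod_cast Nat.pos_of_ne_zero (NeZero.ne q)
  have hL : (0 : ℝ) < (2 * A + 1 : ℕ) := by positivity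
  have h1 : ((∑ ζ, nuh U (2 * A + 1) ω (x * ζ) ^ 2 : ℝ) : ℂ) =
      ((∑ u ∈ U, (1 / ((2 * A + 1 : ℕ) : ℝ) ^ 2 * q) *
        (U.filter fun v => (addOrderOf x : ℤ) ∣ v - u).card : ℝ) : ℂ) := by
    rw [Complex.ofReal_sum]
    simp only [nuh_sq]
    rw [sum_comm, sum_product, Complex.ofReal_sum]
    refine sum_congr rfl fun u hu => ?_
    rw [card_filter]
    push_cast
    rw [mul_sum]
    refine sum_congr rfl fun v hv => ?_
    rw [← mul_sum]
    have : ∀ ζ : ZMod q, x * ζ * (ω u - ω v) = ζ * (x * (ω u - ω v)) := fun ζ => by ring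
    simp only [this]
    rw [AddChar.sum_mulShift _ (ZMod.isPrimitive_stdAddChar q), ZMod.card]
    simp only [omega_eq_iff hμ hω hu hv]
    split_ifs <;> simp
  rw [Complex.ofReal_inj] at h1
  rw [h1, div_le_iff₀ hq]
  have h2 : ∀ u ∈ U, (1 / ((2 * A + 1 : ℕ) : ℝ) ^ 2 * q) *
      (U.filter fun v => (addOrderOf x : ℤ) ∣ v - u).card ≤ (1 / ((2 * A + 1 : ℕ) : ℝ) ^ 2 * q) *
        (((2 * A + 1 : ℕ) : ℝ) / addOrderOf x + 1) := fun u _ =>
    mul_le_mul_of_nonneg_left (card_class A _ (addOrderOf_pos x) U hU u) (by positivity)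
  refine (sum_le_sum h2).trans ?_
  rw [sum_const, nsmul_eq_mul]
  have h3 : (U.card : ℝ) ≤ (2 * A + 1 : ℕ) := by exact_mod_cast card_le_of_abs A U hU
  refine (mul_le_mul_of_nonneg_right h3 (by positivity)).trans (le_of_eq ?_)
  have : (0 : ℝ) < addOrderOf x := by exact_mod_cast addOrderOf_pos x
  generalize ((2 * A + 1 : ℕ) : ℝ) = L at hL
  field_simp

theorem sum_dil (f : ZMod q → ℝ) {c : ZMod q} (hc : IsUnit c) : ∑ z, f (z * c) = ∑ z, f z := by
  obtain ⟨c, rfl⟩ := hc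
  exact Equiv.sum_comp (Units.mulRight c) f

theorem sum_avg_le (hU : U.card ≤ L) (hω : ∀ u ∈ U, IsUnit (ω u)) {f : ZMod q → ℝ}
    (hf : ∀ x, 0 ≤ f x) (x : ZMod q) : ∑ ζ, avg U L ω f (x * ζ) ≤ ∑ ζ, f (x * ζ) := by
  simp only [avg]
  rw [← sum_div, sum_comm]
  have : ∀ u ∈ U, ∑ ζ, f (x * ζ * ω u) = ∑ ζ, f (x * ζ) := fun u hu => by
    simp only [mul_assoc]
    exact sum_dil (fun z => f (x * z)) (hω u hu)
  rw [sum_congr rfl this, sum_const, nsmul_eq_mul, mul_div_right_comm]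
  have h3 := card_div_le hU
  have := sum_nonneg (s := univ) fun ζ _ => hf (x * ζ)
  nlinarith

theorem avg_le_ord (A : ℕ) (hU : ∀ u ∈ U, |u| ≤ A) {μ s : ZMod q} (hμ : IsUnit μ)
    (hω : ∀ u ∈ U, (μ * u + s) * ω u = 1) {f : ZMod q → ℝ} (hf : ∀ x, 0 ≤ f x) (y : ZMod q) :
    avg U (2 * A + 1) ω f y ≤ (1 / (addOrderOf y : ℝ) + 1 / (2 * A + 1 : ℕ)) * ∑ z, f z := by
  classical
  have hL : (0 : ℝ) < (2 * A + 1 : ℕ) := by positivity
  have hg : (0 : ℝ) < addOrderOf y := by exact_mod_cast addOrderOf_pos y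
  rw [avg, div_le_iff₀ hL, ← sum_fiberwise U (fun u => y * ω u), mul_sum, sum_mul]
  refine sum_le_sum fun z _ => ?_
  rw [sum_congr rfl (g := fun _ => f z) fun u hu => by rw [(mem_filter.1 hu).2], sum_const,
    nsmul_eq_mul]
  have h1 : ((U.filter fun u => y * ω u = z).card : ℝ) ≤ ((2 * A + 1 : ℕ) : ℝ) / addOrderOf y + 1 := by
    rcases (U.filter fun u => y * ω u = z).eq_empty_or_nonempty with h | ⟨u, hu⟩
    · rw [h, card_empty, Nat.cast_zero]
      positivity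
    refine le_trans ?_ (card_class A _ (addOrderOf_pos y) U hU u)
    refine Nat.cast_le.2 (card_le_card fun v hv => ?_)
    have hu' := mem_filter.1 hu
    have hv' := mem_filter.1 hv
    refine mem_filter.2 ⟨hv'.1, (omega_eq_iff hμ hω hu'.1 hv'.1 y).1 ?_⟩
    rw [mul_sub, hu'.2, hv'.2, sub_self]
  refine (mul_le_mul_of_nonneg_right h1 (hf z)).trans (le_of_eq ?_)
  generalize ((2 * A + 1 : ℕ) : ℝ) = L at hL
  field_simp

end Pool.Agent.Work.MP_51e72e_nt.Deg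
end

-- merged part: Pool.Agent.Work.MP_51e72e_nt.DegMul
section
/-!
Multilinear sums of Kloosterman fractions over short intervals, for an arbitrary modulus.
-/

set_option autoImplicit false

namespace Pool.Agent.Work.MP_51e72e_nt.Deg

open Finset Pool.Agent.Lib.LargeSieve

theorem bilin_le {q : ℕ} [NeZero q] (U : Finset ℤ) (L : ℕ) (hU : U.card ≤ L) (ω : ℤ → ZMod q)
    (w : ℤ → ℂ) (hw : ∀ u ∈ U, ‖w u‖ ≤ 1) (x : ZMod q) :
    ∑ v ∈ U, ‖∑ u ∈ U, w u * ZMod.stdAddChar (x * ω v * ω u)‖ ≤ (L : ℝ) ^ 2 * V0 U L ω x := by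
  rcases Nat.eq_zero_or_pos L with rfl | hL
  · rw [card_eq_zero.1 (Nat.le_zero.1 hU)]
    simp
  have hL' : (0 : ℝ) < L := by exact_mod_cast hL
  set S := ∑ u ∈ U, ∑ u' ∈ U, nuh U L ω (x * (ω u - ω u')) with hS
  have hS0 : 0 ≤ S := sum_nonneg fun _ _ => sum_nonneg fun _ _ => nuh_nonneg _
  have h1 : ∑ v ∈ U, ‖∑ u ∈ U, w u * ZMod.stdAddChar (x * ω v * ω u)‖ ^ 2 ≤ L * S := by
    have h2 : ((∑ v ∈ U, ‖∑ u ∈ U, w u * ZMod.stdAddChar (x * ω v * ω u)‖ ^ 2 : ℝ) : ℂ) =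
        ∑ u ∈ U, ∑ u' ∈ U, w u * (starRingEnd ℂ) (w u') *
          ∑ v ∈ U, ZMod.stdAddChar (x * (ω u - ω u') * ω v) := by
      rw [Complex.ofReal_sum]
      simp only [normSq_sum_eq]
      rw [sum_comm]
      refine sum_congr rfl fun u _ => ?_
      rw [sum_comm]
      refine sum_congr rfl fun u' _ => ?_
      rw [mul_sum]
      refine sum_congr rfl fun v _ => ?_
      rw [map_mul (starRingEnd ℂ), mul_mul_mul_comm, char_conj]
      congr 2
      ring
    have h3 := congrArg norm h2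
    rw [Complex.norm_real, Real.norm_of_nonneg (sum_nonneg fun _ _ => sq_nonneg _)] at h3
    rw [h3, hS, mul_sum]
    refine (norm_sum_le _ _).trans (sum_le_sum fun u hu => ?_)
    rw [mul_sum]
    refine (norm_sum_le _ _).trans (sum_le_sum fun u' hu' => ?_)
    rw [norm_mul, norm_mul, RCLike.norm_conj, nuh, mul_div_cancel₀ _ hL'.ne']
    exact mul_le_of_le_one_left (norm_nonneg _) (mul_le_one₀ (hw u hu) (norm_nonneg _) (hw u' hu'))
  have h4 := sq_sum_le_card_mul_sum_sq (s := U)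
    (f := fun v => ‖∑ u ∈ U, w u * ZMod.stdAddChar (x * ω v * ω u)‖)
  have h5 : (U.card : ℝ) ≤ L := by exact_mod_cast hU
  have h6 : 0 ≤ V0 U L ω x := Real.sqrt_nonneg _
  refine (pow_le_pow_iff_left₀ (sum_nonneg fun _ _ => norm_nonneg _)
    (mul_nonneg (by positivity) h6) two_ne_zero).1 (h4.trans ?_)
  refine (mul_le_mul h5 h1 (sum_nonneg fun _ _ => sq_nonneg _) hL'.le).trans (le_of_eq ?_)
  rw [mul_pow, V0, ← hS, Real.sq_sqrt (by positivity)]
  field_simp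

/-- the sequence of positive definite majorants -/
noncomputable def fm {q : ℕ} [NeZero q] (U : Finset ℤ) (L : ℕ) (ω : ℤ → ZMod q) : ℕ → ZMod q → ℝ
  | 0 => fun x => nuh U L ω x ^ 2
  | j + 1 => avg U L ω fun x => fm U L ω j x ^ 2

section
variable {q : ℕ} [NeZero q] {U : Finset ℤ} {L : ℕ} {ω : ℤ → ZMod q}

theorem fm_nonneg (j : ℕ) (x : ZMod q) : 0 ≤ fm U L ω j x := by
  cases j with
  | zero => exact sq_nonneg _
  | succ j => exact avg_nonneg (fun _ => sq_nonneg _) x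

theorem fm_le (hU : U.card ≤ L) (j : ℕ) (x : ZMod q) : fm U L ω j x ≤ 1 := by
  induction j generalizing x with
  | zero => exact pow_le_one₀ (nuh_nonneg x) (nuh_le hU x)
  | succ j ih =>
    exact (avg_mono (fun z => pow_le_one₀ (fm_nonneg j z) (ih z)) x).trans
      (avg_const_le hU zero_le_one x)

theorem fm_sq_le (hU : U.card ≤ L) (j : ℕ) (x : ZMod q) : fm U L ω j x ^ 2 ≤ fm U L ω j x := by
  have := fm_nonneg (U := U) (L := L) (ω := ω) j x
  have := fm_le (ω := ω) hU j x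
  nlinarith

theorem fm_pd (hU : U.card ≤ L) (j : ℕ) : IsPD (fm U L ω j) := by
  induction j with
  | zero => exact isPD_nuh_sq hU
  | succ j ih => exact ih.sq.avg hU

theorem it_le_fm (hU : U.card ≤ L) (j : ℕ) (x : ZMod q) :
    (avg U L ω)^[j] (nuh U L ω) x ^ 2 ^ (j + 1) ≤ fm U L ω j x := by
  induction j generalizing x with
  | zero => exact le_of_eq (by simp [fm])
  | succ j ih =>
    rw [Function.iterate_succ_apply']
    refine (avg_pow hU (it_nonneg nuh_nonneg j) _ x).trans (avg_mono (fun z => ?_) x)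
    rw [pow_succ 2 (j + 1), pow_mul]
    exact pow_le_pow_left₀ (pow_nonneg (it_nonneg nuh_nonneg j z) _) (ih z) 2

theorem fm_line (A : ℕ) (hU : ∀ u ∈ U, |u| ≤ A) {μ s : ZMod q} (hμ : IsUnit μ)
    (hω : ∀ u ∈ U, (μ * u + s) * ω u = 1) (j : ℕ) (x : ZMod q) :
    (∑ ζ, fm U (2 * A + 1) ω j (x * ζ)) / q ≤ 1 / (addOrderOf x : ℝ) + 1 / (2 * A + 1 : ℕ) := by
  have hc := card_le_of_abs A U hU
  induction j with
  | zero => exact nuh_line A hU hμ hω x
  | succ j ih =>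
    refine le_trans (div_le_div_of_nonneg_right ?_ (Nat.cast_nonneg _)) ih
    exact (sum_avg_le hc (fun u hu => omega_unit hω hu) (fun _ => sq_nonneg _) x).trans
      (sum_le_sum fun _ _ => fm_sq_le hc j _)

theorem fm_total (A J b n0 : ℕ) (hb : 10 ≤ b) (hJ : 1 ≤ J)
    (hq : q ≤ (2 * A + 1) ^ J) (hq2 : q ≤ b ^ n0)
    (hτ : ∀ n : ℕ, n ≤ (2 * A + 1) ^ J → n.divisors.card ≤ b)
    (hL : b ^ (50 * J) ≤ 2 * A + 1) (hU : ∀ u ∈ U, |u| ≤ A) {μ s : ZMod q}
    (hμ : IsUnit μ) (hω : ∀ u ∈ U, (μ * u + s) * ω u = 1) :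
    ∑ x, fm U (2 * A + 1) ω n0 x ^ 2 ≤ (b : ℝ) ^ (46 * J) := by
  have hc := card_le_of_abs A U hU
  have hb' : (10 : ℝ) ≤ b := by exact_mod_cast hb
  have key : ∀ j, ∑ x, fm U (2 * A + 1) ω j x ^ 2 ≤ (b : ℝ) ^ (46 * J) ∨
      (∑ x, fm U (2 * A + 1) ω j x ^ 2) * (b : ℝ) ^ j ≤ (b : ℝ) ^ n0 := by
    intro j
    induction j with
    | zero =>
      right
      rw [pow_zero, mul_one]
      refine (sum_le_sum fun x _ => (fm_sq_le hc 0 x).trans (fm_le hc 0 x)).trans ?_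
      rw [sum_const, card_univ, ZMod.card, nsmul_eq_mul, mul_one]
      exact_mod_cast hq2
    | succ j ih =>
      rcases le_total (∑ x, fm U (2 * A + 1) ω j x ^ 2) ((b : ℝ) ^ (46 * J)) with h | h
      · left
        refine (sum_le_sum fun x _ => fm_sq_le hc (j + 1) x).trans (le_trans ?_ h)
        have := sum_avg_le hc (fun u hu => omega_unit hω hu)
          (f := fun x => fm U (2 * A + 1) ω j x ^ 2) (fun _ => sq_nonneg _) 1
        simp only [one_mul] at this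
        exact this
      have h1 := flatten (fun x => fm U (2 * A + 1) ω j x ^ 2) (fun _ => sq_nonneg _)
        (fm_pd hc j).sq A J b hb hJ (fun x => le_trans (div_le_div_of_nonneg_right
          (sum_le_sum fun _ _ => fm_sq_le hc j _) (Nat.cast_nonneg _)) (fm_line A hU hμ hω j x))
        hq hτ hL U hU μ s hμ ω hω h
      rw [le_div_iff₀ (by linarith only [hb'])] at h1
      change (∑ x, fm U (2 * A + 1) ω (j + 1) x ^ 2) * b ≤ _ at h1
      rcases ih with ih | ih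
      · left
        have : 0 ≤ ∑ x, fm U (2 * A + 1) ω (j + 1) x ^ 2 := sum_nonneg fun _ _ => sq_nonneg _
        nlinarith
      · right
        refine le_trans ?_ ih
        rw [pow_succ', ← mul_assoc]
        exact mul_le_mul_of_nonneg_right h1 (by positivity)
  rcases key n0 with h | h
  · exact h
  · have h1 : (0 : ℝ) < (b : ℝ) ^ n0 := by positivity
    have h2 : (1 : ℝ) ≤ (b : ℝ) ^ (46 * J) := one_le_pow₀ (by linarith only [hb'])
    nlinarith

/-- pairs for which the additive order drops -/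
theorem bad_pairs (A B D : ℕ) (hD : 0 < D) (hq : q.divisors.card ≤ B) (hU : ∀ u ∈ U, |u| ≤ A)
    (x : ZMod q) (hx : D * D ≤ addOrderOf x) (u : ℤ) :
    ((U.filter fun v => addOrderOf (x * ((v - u : ℤ) : ZMod q)) < D).card : ℝ) ≤
      B * (((2 * A + 1 : ℕ) : ℝ) / D + 1) := by
  classical
  have h1 : (U.filter fun v => addOrderOf (x * ((v - u : ℤ) : ZMod q)) < D) ⊆
      (q.divisors.filter fun g => D ≤ g).biUnion fun g => U.filter fun v => (g : ℤ) ∣ v - u := by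
    intro v hv
    have hv' := mem_filter.1 hv
    refine mem_biUnion.2 ⟨Nat.gcd (addOrderOf x) (v - u).natAbs, mem_filter.2 ⟨?_, ?_⟩,
      mem_filter.2 ⟨hv'.1, ?_⟩⟩
    · refine Nat.mem_divisors.2 ⟨(Nat.gcd_dvd_left _ _).trans ?_, NeZero.ne q⟩
      simpa [ZMod.card] using addOrderOf_dvd_card (x := x)
    · by_contra hc
      have h2 := ord_le x (v - u)
      have h3 := Nat.mul_lt_mul'' hv'.2 (not_le.1 hc)
      omega
    · exact Int.natCast_dvd.2 (Nat.gcd_dvd_right _ _)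
  have h2 : ((U.filter fun v => addOrderOf (x * ((v - u : ℤ) : ZMod q)) < D).card : ℝ) ≤
      ∑ g ∈ q.divisors.filter fun g => D ≤ g, ((U.filter fun v => (g : ℤ) ∣ v - u).card : ℝ) := by
    exact_mod_cast (card_le_card h1).trans card_biUnion_le
  refine h2.trans ((sum_le_card_nsmul _ _ (((2 * A + 1 : ℕ) : ℝ) / D + 1) fun g hg => ?_).trans ?_)
  · have hg' := (mem_filter.1 hg).2
    refine (card_class A g (hD.trans_le hg') U hU u).trans ?_
    gcongr
  · rw [nsmul_eq_mul]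
    refine mul_le_mul_of_nonneg_right ?_ (by positivity)
    exact_mod_cast (card_filter_le _ _).trans hq

end

theorem multi_bound {q : ℕ} [NeZero q] (A J b n0 : ℕ) (hb : 10 ≤ b) (hJ : 1 ≤ J)
    (hq : q ≤ (2 * A + 1) ^ J) (hq2 : q ≤ b ^ n0)
    (hτ : ∀ n : ℕ, n ≤ (2 * A + 1) ^ J → n.divisors.card ≤ b)
    (hL : b ^ (50 * J) ≤ 2 * A + 1) (U : Finset ℤ) (hU : ∀ u ∈ U, |u| ≤ A) (μ s : ZMod q)
    (hμ : IsUnit μ) (ω : ℤ → ZMod q) (hω : ∀ u ∈ U, (μ * u + s) * ω u = 1)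
    (ε : ℝ) (hε0 : 0 ≤ ε) (hε1 : ε ≤ 1) (hε : 2 / (b : ℝ) ≤ ε ^ 2 ^ (n0 + 2))
    (x : ZMod q) (hx : b ^ (100 * J) ≤ addOrderOf x) :
    (avg U (2 * A + 1) ω)^[n0 + 1] (V0 U (2 * A + 1) ω) x ^ 2 ≤ 2 * ε := by
  classical
  have hc := card_le_of_abs A U hU
  have hb' : (10 : ℝ) ≤ b := by exact_mod_cast hb
  have hD : (0 : ℝ) < (b : ℝ) ^ (50 * J) := by positivity
  have hL' : (b : ℝ) ^ (50 * J) ≤ (2 * A + 1 : ℕ) := by exact_mod_cast hL
  have hT := fm_total A J b n0 hb hJ hq hq2 hτ hL hU hμ hω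
  have hbe : 2 / (b : ℝ) ≤ ε := hε.trans (pow_le_of_le_one hε0 hε1 (by positivity))
  have hgood : ∀ y : ZMod q, b ^ (50 * J) ≤ addOrderOf y →
      (avg U (2 * A + 1) ω)^[n0 + 1] (nuh U (2 * A + 1) ω) y ≤ ε := by
    intro y hy
    have hy' : (b : ℝ) ^ (50 * J) ≤ addOrderOf y := by exact_mod_cast hy
    refine (pow_le_pow_iff_left₀ (it_nonneg nuh_nonneg _ y) hε0 (n := 2 ^ (n0 + 2))
      (by positivity)).1 ((it_le_fm hc (n0 + 1) y).trans (le_trans ?_ hε))
    refine (avg_le_ord A hU hμ hω (fun _ => sq_nonneg _) y).trans ?_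
    have h1 := one_div_le_one_div_of_le hD hy'
    have h2 := one_div_le_one_div_of_le hD hL'
    refine (mul_le_mul (add_le_add h1 h2) hT (sum_nonneg fun _ _ => sq_nonneg _)
      (by positivity)).trans ?_
    have h3 : (b : ℝ) ^ (46 * J) * b ≤ (b : ℝ) ^ (50 * J) := by
      rw [← pow_succ]
      exact pow_le_pow_right₀ (by linarith only [hb']) (by omega)
    rw [← add_div, div_mul_eq_mul_div, div_le_div_iff₀ hD (by linarith only [hb'])]
    linarith only [h3]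
  have hL0 : (0 : ℝ) < (2 * A + 1 : ℕ) := by positivity
  refine (it_sq hc _ _ x).trans ?_
  have h1 : (fun z => V0 U (2 * A + 1) ω z ^ 2) = fun z => (1 / ((2 * A + 1 : ℕ) : ℝ) ^ 2) *
      ∑ u ∈ U, ∑ u' ∈ U, nuh U (2 * A + 1) ω (z * (ω u - ω u')) := by
    funext z
    rw [V0, Real.sq_sqrt (div_nonneg (sum_nonneg fun _ _ => sum_nonneg fun _ _ => nuh_nonneg _)
      (by positivity))]
    ring
  rw [h1, it_mul, it_sum]
  have h2 : ∀ u ∈ U, (avg U (2 * A + 1) ω)^[n0 + 1]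
      (fun z => ∑ u' ∈ U, nuh U (2 * A + 1) ω (z * (ω u - ω u'))) x ≤
      ((2 * A + 1 : ℕ) : ℝ) * (2 * ε) := by
    intro u hu
    rw [it_sum]
    simp only [it_dil]
    have h3 : ∀ v ∈ U, (avg U (2 * A + 1) ω)^[n0 + 1] (nuh U (2 * A + 1) ω) (x * (ω u - ω v)) ≤
        ε + if addOrderOf (x * ((v - u : ℤ) : ZMod q)) < b ^ (50 * J) then 1 else 0 := by
      intro v hv
      split_ifs with h
      · have := (it_mono (U := U) (L := 2 * A + 1) (ω := ω) (nuh_le (ω := ω) hc) (n0 + 1)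
          (x * (ω u - ω v))).trans (it_const_le hc zero_le_one _ _)
        linarith
      · rw [add_zero]
        refine hgood _ ?_
        rw [omega_sub hω hu hv, ← mul_assoc,
          ord_unit _ ((hμ.mul (omega_unit hω hu)).mul (omega_unit hω hv))]
        exact not_lt.1 h
    refine (sum_le_sum h3).trans ?_
    rw [sum_add_distrib, sum_const, nsmul_eq_mul, sum_boole]
    have h4 := bad_pairs A b (b ^ (50 * J)) (by positivity) (hτ q hq) hU x
      (by rw [← pow_add]; convert hx using 2; ring) u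
    have h5 : (U.card : ℝ) ≤ (2 * A + 1 : ℕ) := by exact_mod_cast hc
    have h6 : (b : ℝ) * (((2 * A + 1 : ℕ) : ℝ) / (b ^ (50 * J) : ℕ) + 1) ≤
        ((2 * A + 1 : ℕ) : ℝ) * (2 / b) := by
      have h7 : (b : ℝ) * b ≤ (b : ℝ) ^ (50 * J) := by
        rw [← sq]
        exact pow_le_pow_right₀ (by linarith only [hb']) (by omega)
      rw [Nat.cast_pow]
      generalize ((2 * A + 1 : ℕ) : ℝ) = L at hL' hL0
      generalize (b : ℝ) ^ (50 * J) = D at hL' hD h7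
      have h8 : 1 ≤ L / D := (one_le_div hD).2 hL'
      have h9 : L / D ≤ L / (b * b) := div_le_div_of_nonneg_left hL0.le (by positivity) h7
      calc (b : ℝ) * (L / D + 1) ≤ b * (2 * (L / (b * b))) := by gcongr; linarith only [h8, h9]
        _ = _ := by field_simp
    linarith only [h4, h6, hbe, hε0, h5, mul_nonneg_of_nonpos_of_nonpos (Mathlib.Tactic.Linarith.sub_nonpos_of_le (Mathlib.Tactic.Linarith.natCast_nonneg ℝ ((2 : ℕ) * A + (1 : ℕ)))) (Mathlib.Tactic.Linarith.sub_nonpos_of_le hbe), mul_nonneg_of_nonpos_of_nonpos (Mathlib.Tactic.Linarith.sub_nonpos_of_le hε0) (Mathlib.Tactic.Linarith.sub_nonpos_of_le h5)]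
  refine (mul_le_mul_of_nonneg_left (sum_le_card_nsmul _ _ _ h2) (by positivity)).trans ?_
  have h5 : (U.card : ℝ) ≤ (2 * A + 1 : ℕ) := by exact_mod_cast hc
  rw [nsmul_eq_mul]
  refine (mul_le_mul_of_nonneg_left (mul_le_mul_of_nonneg_right h5 (by positivity))
    (by positivity)).trans (le_of_eq ?_)
  generalize ((2 * A + 1 : ℕ) : ℝ) = L at hL0
  field_simp

theorem maj_bound {q : ℕ} [NeZero q] (V : ZMod q → ℝ) (hV : ∀ z, 0 ≤ V z) (U : Finset ℤ) (L : ℕ)
    (hU : U.card ≤ L) (ω : ℤ → ZMod q) (μ : ZMod q) (hμ : IsUnit μ) (Λ : ℝ) (hΛ : 0 ≤ Λ)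
    (η : ℕ → ℝ) (hη : ∀ k, 0 ≤ η k) (T : ℕ → ℕ) (n : ℕ) (x : ℕ → ℝ) (hx0 : ∀ k, 0 ≤ x k)
    (O : ℕ → ℕ) (hO : ∀ k ≤ n, O k * T k ≤ O (k + 1))
    (h0 : ∀ z, O 0 ≤ addOrderOf z → (avg U L ω)^[n] V z ≤ x 0)
    (hx : ∀ k ≤ n, η k + Λ * (2 * T k * x k) ≤ x (k + 1) ^ 2)
    (z : ZMod q) (hz : O (n + 1) ≤ addOrderOf z) :
    Wm μ Λ (η n) (T n) (Vm V (avg U L ω) μ Λ η T n) z ≤ x (n + 1) := by
  have hVm : ∀ k z, 0 ≤ Vm V (avg U L ω) μ Λ η T k z := by
    intro k z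
    cases k with
    | zero => exact hV z
    | succ k => exact avg_nonneg (fun _ => Real.sqrt_nonneg _) z
  have step : ∀ k ≤ n, ∀ m, (∀ z, O k ≤ addOrderOf z →
      (avg U L ω)^[m] (Vm V (avg U L ω) μ Λ η T k) z ≤ x k) → ∀ z, O (k + 1) ≤ addOrderOf z →
      (avg U L ω)^[m] (Wm μ Λ (η k) (T k) (Vm V (avg U L ω) μ Λ η T k)) z ≤ x (k + 1) := by
    intro k hk m ih z hz
    have hW : ∀ z, 0 ≤ Wm μ Λ (η k) (T k) (Vm V (avg U L ω) μ Λ η T k) z :=
      fun _ => Real.sqrt_nonneg _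
    refine (pow_le_pow_iff_left₀ (it_nonneg hW _ z) (hx0 _)
      two_ne_zero).1 ((it_sq hU _ _ z).trans (le_trans ?_ (hx k hk)))
    have h1 : (fun z => Wm μ Λ (η k) (T k) (Vm V (avg U L ω) μ Λ η T k) z ^ 2) = fun z => η k + Λ *
        ∑ t ∈ (Icc (-(T k : ℤ)) (T k)).erase 0, Vm V (avg U L ω) μ Λ η T k (z * (μ * t)) := by
      funext z
      rw [Wm, Real.sq_sqrt (add_nonneg (hη k) (mul_nonneg hΛ (sum_nonneg fun _ _ => hVm _ _)))]
    rw [h1, it_add, it_mul, it_sum]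
    refine add_le_add (it_const_le hU (hη k) m z) (mul_le_mul_of_nonneg_left ?_ hΛ)
    refine (sum_le_card_nsmul _ _ (x k) fun t ht => ?_).trans (le_of_eq ?_)
    · rw [it_dil]
      refine ih _ ?_
      have ht0 := (mem_erase.1 ht).1
      have ht1 := mem_Icc.1 (mem_erase.1 ht).2
      have h2 := ord_le z t
      have h3 : Nat.gcd (addOrderOf z) t.natAbs ≤ T k :=
        (Nat.gcd_le_right _ (Int.natAbs_pos.2 ht0)).trans (by omega)
      rw [mul_comm μ, ← mul_assoc, ord_unit _ hμ]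
      refine Nat.le_of_mul_le_mul_right (c := T k) ?_ (by omega)
      exact (hO k hk).trans (hz.trans (h2.trans (Nat.mul_le_mul_left _ h3)))
    · rw [card_erase_of_mem (by simp), Int.card_Icc, nsmul_eq_mul]
      have : ((T k : ℤ) + 1 - -(T k : ℤ)).toNat - 1 = 2 * T k := by omega
      rw [this]
      push_cast
      ring
  have key : ∀ k ≤ n, ∀ z, O k ≤ addOrderOf z →
      (avg U L ω)^[n - k] (Vm V (avg U L ω) μ Λ η T k) z ≤ x k := by
    intro k
    induction k with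
    | zero => exact fun _ => h0
    | succ k ih =>
      intro hk z hz
      have := step k (by omega) (n - k) (ih (by omega)) z hz
      rwa [show n - k = (n - (k + 1)) + 1 by omega, Function.iterate_succ_apply] at this
  have := step n le_rfl (n - n) (key n le_rfl) z hz
  rwa [Nat.sub_self] at this

end Pool.Agent.Work.MP_51e72e_nt.Deg
end

-- merged part: Pool.Agent.Work.MP_51e72e_nt.DegLevel1
section
/-!
The majorant of the iterated differencing when all parameters are powers of one number.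
-/

set_option autoImplicit false

namespace Pool.Agent.Work.MP_51e72e_nt.Deg

open Finset Polynomial Filter Pool.Agent.Lib.LargeSieve Pool.Agent.Work.MP_51e72e_nt.Cub

lemma avg_iter_mul {q : ℕ} (U : Finset ℤ) (L : ℕ) (ω : ℤ → ZMod q) (c : ℝ) (f : ZMod q → ℝ)
    (i : ℕ) (z : ZMod q) : (avg U L ω)^[i] (fun x => c * f x) z = c * (avg U L ω)^[i] f z := by
  induction i generalizing z with
  | zero => rfl
  | succ i ih =>
    rw [Function.iterate_succ_apply', Function.iterate_succ_apply']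
    simp only [avg, ih]
    rw [← mul_sum, mul_div_assoc]

lemma card_le_of_abs2 {U : Finset ℤ} {A : ℕ} (hU : ∀ u ∈ U, |u| ≤ A) : U.card ≤ 2 * A + 1 := by
  refine (card_le_card (t := Icc (-(A : ℤ)) A) fun u hu => mem_Icc.mpr (abs_le.mp (hU u hu))).trans ?_
  rw [Int.card_Icc]; omega

theorem wm_pow (E n0 u P a g hh : ℕ) (ha : a = 400 * (E + 1) * u)
    (hn : n0 = 400 * (E + 1) * (E + 1)) (hP : 5 ≤ P)
    (h1 : (2 * (5 ^ (n0 + 2) * P) + 2 * g + 1) * 2 ^ (n0 + 2) + 1 ≤ u)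
    (h2 : (n0 + 2) * (2 * (5 ^ (n0 + 1) * P) + 3) + g + hh ≤ u) : ∀ᶠ B : ℕ in atTop,
    ∀ (q : ℕ) [NeZero q] (σ : ℕ) (U : Finset ℤ) (μ s : ZMod q) (ω : ℤ → ZMod q) (lam : ZMod q)
      (h : ℕ), B ^ a ≤ q * B ^ g → q ≤ B * (B ^ a) ^ E → σ ≤ B ^ g → (∀ v ∈ U, |v| ≤ (B ^ a : ℕ)) →
      IsUnit μ → (∀ v ∈ U, (μ * v + s) * ω v = 1) → h ≤ B ^ hh → q ≤ addOrderOf lam * h →
      Wm μ B (1 / (B : ℝ) ^ (2 * (5 ^ (n0 + 1 - (n0 + 1)) * P) + 1))
        (B ^ (2 * (5 ^ (n0 + 1 - (n0 + 1)) * P) + 3))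
        (Vm (fun z => (σ : ℝ) * V0 U (2 * B ^ a + 1) ω z) (avg U (2 * B ^ a + 1) ω) μ B
          (fun k => 1 / (B : ℝ) ^ (2 * (5 ^ (n0 + 1 - k) * P) + 1))
          (fun k => B ^ (2 * (5 ^ (n0 + 1 - k) * P) + 3)) (n0 + 1)) lam ≤ 1 / (B : ℝ) ^ P := by
  filter_upwards [ev_divisors ((a + 1) * (E + 1)), eventually_ge_atTop 10]
    with B hD hB q _ σ U μ s ω lam h q1 q2 hσ hU hμ hω hh1 hh2
  have B0 : 0 < B := by omega
  have B1 : 1 ≤ B := B0
  have b0 : (10 : ℝ) ≤ B := by exact_mod_cast hB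
  have b1 : (0 : ℝ) < B := by linarith only [b0]
  have u1 : 1 ≤ u := le_trans (Nat.le_add_left _ _) h1
  have a1 : 1 ≤ a := by rw [ha]; exact Nat.mul_pos (by omega) u1
  have hp : ∀ {x y : ℕ}, x ≤ y → B ^ x ≤ B ^ y := fun h => Nat.pow_le_pow_right B0 h
  have hp' : ∀ {x y : ℕ}, x ≤ y → (B : ℝ) ^ x ≤ (B : ℝ) ^ y := fun h =>
    pow_le_pow_right₀ (by linarith only [b0]) h
  have q3 : q ≤ (B ^ a) ^ (E + 1) := by
    rw [pow_succ, mul_comm]
    exact q2.trans (Nat.mul_le_mul_right _ (by simpa using hp a1))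
  have m := maj_bound (fun z => (σ : ℝ) * V0 U (2 * B ^ a + 1) ω z)
    (fun z => mul_nonneg (Nat.cast_nonneg _) (Real.sqrt_nonneg _)) U (2 * B ^ a + 1)
    (card_le_of_abs2 hU) ω μ hμ B b1.le
    (fun k => 1 / (B : ℝ) ^ (2 * (5 ^ (n0 + 1 - k) * P) + 1)) (fun k => by positivity)
    (fun k => B ^ (2 * (5 ^ (n0 + 1 - k) * P) + 3)) (n0 + 1)
    (fun k => 1 / (B : ℝ) ^ (5 ^ (n0 + 2 - k) * P)) (fun k => by positivity)
    (fun k => B ^ (u * (100 * (E + 1)) + k * (2 * (5 ^ (n0 + 1) * P) + 3))) (fun k _ => ?_)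
    (fun z hz => ?_) (fun k hk => ?_) lam ?_
  · simpa using m
  · rw [← pow_add]
    refine hp ?_
    have : 5 ^ (n0 + 1 - k) * P ≤ 5 ^ (n0 + 1) * P :=
      Nat.mul_le_mul_right _ (Nat.pow_le_pow_right (by norm_num) (Nat.sub_le _ _))
    rw [add_mul k 1]
    omega
  · rw [avg_iter_mul]
    set ε0 := 2 * (5 ^ (n0 + 2) * P) + 2 * g + 1 with hε0
    have mb := multi_bound (B ^ a) (E + 1) (B ^ u) n0 (hB.trans (by simpa using hp u1)) (by omega)
      (q3.trans (Nat.pow_le_pow_left (by omega) _)) ?_ (fun n hn => ?_) ?_ U hU μ s hμ ω hω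
      (1 / (B : ℝ) ^ ε0) (by positivity) ?_ ?_ z (by rw [← pow_mul]; simpa using hz)
    · refine le_of_sq_le_sq ?_ (by positivity) |> fun h => h
      rw [mul_pow]
      have s1 : (σ : ℝ) ≤ (B : ℝ) ^ g := by exact_mod_cast hσ
      calc _ ≤ ((B : ℝ) ^ g) ^ 2 * (B * (1 / (B : ℝ) ^ ε0)) :=
            mul_le_mul (pow_le_pow_left₀ (Nat.cast_nonneg _) s1 2)
              (mb.trans (mul_le_mul_of_nonneg_right (by linarith only [b0]) (by positivity)))
              (sq_nonneg _) (by positivity)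
        _ = _ := by
            rw [hε0, Nat.sub_zero]
            field_simp
            ring
    · rw [← pow_mul] at q3 ⊢
      refine q3.trans (hp (le_of_eq ?_))
      rw [ha, hn]; ring
    · have := hD n (hn.trans ?_)
      · exact le_trans (by exact_mod_cast this) (by simpa using hp u1 : B ≤ B ^ u)
      · rw [pow_mul]
        refine Nat.pow_le_pow_left ?_ _
        have : 1 ≤ B ^ a := Nat.one_le_pow _ _ B0
        rw [pow_succ]; nlinarith only [hB, this]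
    · rw [← pow_mul]
      refine (hp (y := a) ?_).trans (by omega)
      rw [ha]; linarith only [ha, a1]
    · rw [div_le_one (by positivity)]; exact one_le_pow₀ (by linarith only [b0])
    · rw [div_pow, one_pow, ← pow_mul, div_le_div_iff₀ (by positivity) (by positivity), one_mul,
        Nat.cast_pow]
      refine le_trans ?_ (hp' h1)
      rw [pow_succ (B : ℝ), mul_comm]
      exact mul_le_mul_of_nonneg_left (by linarith only [b0]) (by positivity)
  · have e1 : n0 + 2 - k = n0 + 1 - k + 1 := by omega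
    have e2 : n0 + 2 - (k + 1) = n0 + 1 - k := by omega
    rw [e1, e2, pow_succ 5, mul_right_comm _ 5 P]
    have p5 : 5 ≤ 5 ^ (n0 + 1 - k) * P := hP.trans (Nat.le_mul_of_pos_left _ (by positivity))
    generalize 5 ^ (n0 + 1 - k) * P = p at p5
    push_cast
    have c1 : (B : ℝ) * (2 * (B : ℝ) ^ (2 * p + 3) * (1 / (B : ℝ) ^ (p * 5)))
        ≤ 2 * (1 / (B : ℝ) ^ (2 * p + 1)) := by
      rw [mul_one_div, mul_one_div, ← mul_div_assoc,
        div_le_div_iff₀ (by positivity) (by positivity)]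
      calc _ = 2 * (B : ℝ) ^ (4 * p + 5) := by ring
        _ ≤ _ := mul_le_mul_of_nonneg_left (hp' (by omega)) (by norm_num)
    refine (add_le_add_right c1 _).trans ?_
    rw [div_pow, one_pow, ← pow_mul, mul_comm p 2, pow_succ (B : ℝ) (2 * p)]
    have : (0 : ℝ) < (B : ℝ) ^ (2 * p) := by positivity
    rw [← one_add_mul, mul_one_div, div_le_div_iff₀ (by positivity) this]
    linarith only [this, b0, mul_nonneg_of_nonpos_of_nonpos (Mathlib.Tactic.Linarith.sub_nonpos_of_le b0) (le_of_lt (Mathlib.Tactic.Linarith.sub_neg_of_lt this))]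
  · refine Nat.le_of_mul_le_mul_right ?_ (pow_pos B0 (hh + g))
    rw [← pow_add]
    calc _ ≤ B ^ a := hp (by rw [ha]; linarith only [ha, h2, a1, mul_nonneg_of_nonpos_of_nonpos (Mathlib.Tactic.Linarith.sub_nonpos_of_le (Mathlib.Tactic.Linarith.natCast_nonneg ℤ E)) (Mathlib.Tactic.Linarith.sub_nonpos_of_le (Mathlib.Tactic.Linarith.natCast_nonneg ℤ u))])
      _ ≤ addOrderOf lam * h * B ^ g := q1.trans (Nat.mul_le_mul_right _ hh2)
      _ ≤ addOrderOf lam * B ^ hh * B ^ g := by gcongr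
      _ = _ := by rw [pow_add, mul_assoc]

end Pool.Agent.Work.MP_51e72e_nt.Deg
end
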