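import Pool.Agent.Work.MP_51e72e_nt.DegExc
import Pool.Agent.Work.MP_51e72e_nt.DegLevel1

-- merged part: Pool.Agent.Work.MP_51e72e_nt.DegVdc
section
/-!
Van der Corput differencing with an outer average, and the calculus of phases.
-/

set_option autoImplicit false

namespace Pool.Agent.Work.MP_51e72e_nt.Deg

open Finset Polynomial Pool.Agent.Lib.LargeSieve

lemma norm_ph (Q : ℕ) (x D : ℤ) : ‖ph Q x D‖ = 1 := norm_ee _

lemma exists_quot {Q : ℕ} {D : ℤ} (hD : IsCoprime D (Q : ℤ)) (x : ℤ) :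
    ∃ w : ℤ, (Q : ℤ) ∣ x - D * w := by
  obtain ⟨a, b, h⟩ := hD
  exact ⟨a * x, x * b, by linear_combination (-x) * h⟩

lemma ee_div_congr {Q : ℕ} (hQ : 0 < Q) {w w' : ℤ} (h : (Q : ℤ) ∣ w - w') :
    ee ((w : ℝ) / Q) = ee ((w' : ℝ) / Q) := by
  obtain ⟨k, hk⟩ := h
  have hQ' : (Q : ℝ) ≠ 0 := by exact_mod_cast hQ.ne'
  rw [← ee_add_int ((w' : ℝ) / Q) k]
  congr 1
  have : (w : ℝ) = w' + Q * k := by exact_mod_cast (by linear_combination hk : w = w' + Q * k)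
  rw [this]
  field_simp

lemma ph_eq {Q : ℕ} (hQ : 0 < Q) {x D w : ℤ} (hD : IsCoprime D (Q : ℤ))
    (h : (Q : ℤ) ∣ x - D * w) : ph Q x D = ee ((w : ℝ) / Q) := by
  have : NeZero Q := ⟨hQ.ne'⟩
  have hu : IsUnit (D : ZMod Q) := by
    obtain ⟨a, b, e⟩ := hD
    have := congrArg (Int.cast : ℤ → ZMod Q) e
    push_cast at this
    rw [ZMod.natCast_self, mul_zero, add_zero] at this
    exact IsUnit.of_mul_eq_one_right _ this
  have h1 : (x : ZMod Q) = D * w := by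
    have := (ZMod.intCast_zmod_eq_zero_iff_dvd _ Q).2 h
    push_cast at this
    linear_combination this
  have h2 : (x : ZMod Q) * (D : ZMod Q)⁻¹ = w := by
    rw [h1, mul_right_comm, ZMod.mul_inv_of_unit _ hu, one_mul]
  unfold ph
  rw [h2]
  have h3 : (((w : ZMod Q).val : ℕ) : ℝ) = ((w % Q : ℤ) : ℝ) := by
    rw [← ZMod.val_intCast]
    norm_cast
  rw [h3]
  exact ee_div_congr hQ (Int.mod_modEq w Q).symm.dvd

lemma ph_congr {Q : ℕ} {x x' D D' : ℤ} (hx : (Q : ℤ) ∣ x - x') (hD : (Q : ℤ) ∣ D - D') :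
    ph Q x D = ph Q x' D' := by
  unfold ph
  rw [((ZMod.intCast_eq_intCast_iff_dvd_sub _ _ Q).2 hx).symm,
    ((ZMod.intCast_eq_intCast_iff_dvd_sub _ _ Q).2 hD).symm]

lemma X_sub_mul_dd (Den P : ℤ[X]) (v : ℤ) :
    (X - C v) * dd Den P v = C (Den.eval v) * P - C (P.eval v) * Den := by
  refine mul_divByMonic_eq_iff_isRoot.2 ?_
  simp only [IsRoot.def, eval_sub, eval_mul, eval_C]
  ring

lemma sub_mul_eval_dd (Den P : ℤ[X]) (v u : ℤ) :
    (u - v) * (dd Den P v).eval u = Den.eval v * P.eval u - P.eval v * Den.eval u := by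
  have := congrArg (eval u) (X_sub_mul_dd Den P v)
  simpa only [eval_mul, eval_sub, eval_X, eval_C] using this

lemma dd_add_mul (Den P1 P2 : ℤ[X]) (c v : ℤ) :
    dd Den (P1 + C c * P2) v = dd Den P1 v + C c * dd Den P2 v := by
  refine mul_left_cancel₀ (X_sub_C_ne_zero v) ?_
  rw [mul_add, mul_left_comm, X_sub_mul_dd, X_sub_mul_dd, X_sub_mul_dd]
  simp only [eval_add, eval_mul, eval_C, C_add, C_mul]
  ring

lemma map_X_sub_mul_dd {S : Type*} [CommRing S] (Den P : ℤ[X]) (v : ℤ) :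
    (X - C (v : S)) * (dd Den P v).map (Int.castRingHom S) =
      C ((Den.eval v : ℤ) : S) * P.map (Int.castRingHom S)
        - C ((P.eval v : ℤ) : S) * Den.map (Int.castRingHom S) := by
  have := congrArg (Polynomial.map (Int.castRingHom S)) (X_sub_mul_dd Den P v)
  simp only [Polynomial.map_mul, Polynomial.map_sub, map_X, map_C] at this
  exact this

lemma eval_map_int {S : Type*} [CommRing S] (P : ℤ[X]) (v : ℤ) :
    (P.map (Int.castRingHom S)).eval (v : S) = ((P.eval v : ℤ) : S) := by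
  rw [eval_intCast_map]
  simp

lemma dd_congr (Den P : ℤ[X]) {Q v v' : ℤ} (h : Q ∣ v - v') (u : ℤ) :
    Q ∣ (dd Den P v).eval u - (dd Den P v').eval u := by
  have hv : (v : ZMod Q.natAbs) = v' :=
    ((ZMod.intCast_eq_intCast_iff_dvd_sub _ _ _).2 (Int.natAbs_dvd.2 h)).symm
  have h1 : (dd Den P v).map (Int.castRingHom (ZMod Q.natAbs))
      = (dd Den P v').map (Int.castRingHom (ZMod Q.natAbs)) := by
    refine (monic_X_sub_C (v : ZMod Q.natAbs)).isRegular.left ?_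
    simp only
    rw [map_X_sub_mul_dd, hv, map_X_sub_mul_dd, ← eval_map_int, ← eval_map_int, hv,
      eval_map_int, eval_map_int]
  rw [← Int.natAbs_dvd, ← ZMod.intCast_eq_intCast_iff_dvd_sub, ← eval_map_int, ← eval_map_int, h1]

/-- differencing removes the factor `y` of the modulus -/
lemma ph_diff (Den P : ℤ[X]) {Q y : ℕ} (hQ : 0 < Q) (hy : 0 < y) {δ u u' t : ℤ}
    (h1 : IsCoprime (δ * Den.eval u) (Q * y : ℕ)) (h2 : IsCoprime (δ * Den.eval u') (Q * y : ℕ))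
    (h : u' - u = y * t) :
    ph (Q * y) (P.eval u) (δ * Den.eval u) *
        (starRingEnd ℂ) (ph (Q * y) (P.eval u') (δ * Den.eval u'))
      = ph Q (-t * (dd Den P u).eval u') (δ * Den.eval u * Den.eval u') := by
  have hQy : 0 < Q * y := Nat.mul_pos hQ hy
  obtain ⟨w, hw⟩ := exists_quot h1 (P.eval u)
  obtain ⟨w', hw'⟩ := exists_quot h2 (P.eval u')
  rw [ph_eq hQy h1 hw, ph_eq hQy h2 hw', conj_ee, ← ee_add]
  have h3 : IsCoprime (δ * Den.eval u * Den.eval u') ((Q * y : ℕ) : ℤ) :=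
    h1.mul_left h2.of_mul_left_right
  push_cast at h3 hw hw'
  have e := sub_mul_eval_dd Den P u u'
  rw [h] at e
  have h4 : (Q : ℤ) * y ∣ δ * Den.eval u * Den.eval u' * (w - w')
      + y * t * (dd Den P u).eval u' := by
    have := (hw'.mul_left (Den.eval u)).sub (hw.mul_left (Den.eval u'))
    convert! this using 1
    linear_combination e
  have h5 : (y : ℤ) ∣ w - w' := by
    refine h3.of_mul_right_right.symm.dvd_of_dvd_mul_left ?_
    have h6 : (y : ℤ) ∣ y * t * (dd Den P u).eval u' := by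
      rw [mul_assoc]
      exact dvd_mul_right _ _
    exact (dvd_add_left h6).1 ((dvd_mul_left _ _).trans h4)
  obtain ⟨v, hv⟩ := h5
  have hy' : (y : ℤ) ≠ 0 := by exact_mod_cast hy.ne'
  have h7 : (Q : ℤ) ∣ -t * (dd Den P u).eval u' - δ * Den.eval u * Den.eval u' * v := by
    rw [← mul_dvd_mul_iff_right hy', ← dvd_neg]
    convert! h4 using 1
    rw [hv]
    ring
  rw [ph_eq hQ h3.of_mul_right_left h7]
  congr 1
  have h8 : (w : ℝ) = w' + y * v := by exact_mod_cast (by linear_combination hv : w = w' + y * v)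
  have hQ' : (Q : ℝ) ≠ 0 := by exact_mod_cast hQ.ne'
  have hy'' : (y : ℝ) ≠ 0 := by exact_mod_cast hy.ne'
  rw [h8]
  push_cast
  field_simp
  ring

lemma ph_cocycle (Den P : ℤ[X]) {Q : ℕ} (hQ : 0 < Q) {δ σ u0 u1 u2 t1 t2 : ℤ} (hσ : σ ≠ 0)
    (h0 : IsCoprime (δ * Den.eval u0) (Q : ℤ)) (h1 : IsCoprime (δ * Den.eval u1) (Q : ℤ))
    (h2 : IsCoprime (δ * Den.eval u2) (Q : ℤ)) (e1 : u1 - u0 = σ * t1) (e2 : u2 - u0 = σ * t2) :
    ph Q (-(t2 - t1) * (dd Den P u1).eval u2) (δ * Den.eval u1 * Den.eval u2)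
      = ph Q (-t2 * (dd Den P u0).eval u2) (δ * Den.eval u0 * Den.eval u2) *
        (starRingEnd ℂ) (ph Q (-t1 * (dd Den P u0).eval u1) (δ * Den.eval u0 * Den.eval u1)) := by
  have c12 := h1.mul_left h2.of_mul_left_right
  have c02 := h0.mul_left h2.of_mul_left_right
  have c01 := h0.mul_left h1.of_mul_left_right
  have c012 := c01.mul_left h2.of_mul_left_right
  obtain ⟨w12, hw12⟩ := exists_quot c12 (-(t2 - t1) * (dd Den P u1).eval u2)
  obtain ⟨w02, hw02⟩ := exists_quot c02 (-t2 * (dd Den P u0).eval u2)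
  obtain ⟨w01, hw01⟩ := exists_quot c01 (-t1 * (dd Den P u0).eval u1)
  rw [ph_eq hQ c12 hw12, ph_eq hQ c02 hw02, ph_eq hQ c01 hw01, conj_ee, ← ee_add]
  have a12 := sub_mul_eval_dd Den P u1 u2
  have a02 := sub_mul_eval_dd Den P u0 u2
  have a01 := sub_mul_eval_dd Den P u0 u1
  have e3 : u2 - u1 = σ * (t2 - t1) := by linear_combination e2 - e1
  rw [e3] at a12
  rw [e2] at a02
  rw [e1] at a01
  have key : -(t2 - t1) * (dd Den P u1).eval u2 * Den.eval u0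
      = -t2 * (dd Den P u0).eval u2 * Den.eval u1 + t1 * (dd Den P u0).eval u1 * Den.eval u2 := by
    refine mul_left_cancel₀ hσ ?_
    linear_combination (-Den.eval u0) * a12 + Den.eval u1 * a02 - Den.eval u2 * a01
  have h3 : (Q : ℤ) ∣ w12 - (w02 - w01) := by
    refine c012.symm.dvd_of_dvd_mul_left ?_
    have := ((hw02.mul_left (Den.eval u1)).sub (hw12.mul_left (Den.eval u0))).sub
      (hw01.mul_left (Den.eval u2))
    convert! this using 1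
    linear_combination key
  rw [ee_div_congr hQ h3]
  congr 1
  push_cast
  ring

/-- the multiplier of the single pole after one differencing step -/
lemma dd_pole {q : ℕ} (Den P : ℤ[X]) (μ s lam o : ZMod q) (v t : ℤ) (ho : (μ * v + s) * o = 1)
    (hP : (C μ * X + C s) * P.map (Int.castRingHom (ZMod q))
      = C lam * Den.map (Int.castRingHom (ZMod q))) :
    (C μ * X + C s) * (C (-t) * dd Den P v).map (Int.castRingHom (ZMod q))
      = C (lam * (μ * t) * o * (Den.eval v : ℤ)) * Den.map (Int.castRingHom (ZMod q)) := by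
  have h1 := congrArg (eval (v : ZMod q)) hP
  simp only [eval_mul, eval_add, eval_C, eval_X, eval_map_int] at h1
  have h2 : ((P.eval v : ℤ) : ZMod q) = o * lam * (Den.eval v : ℤ) := by
    linear_combination o * h1 - ((P.eval v : ℤ) : ZMod q) * ho
  have h3 := map_X_sub_mul_dd (S := ZMod q) Den P v
  rw [h2] at h3
  have h4 := congrArg (C : ZMod q → (ZMod q)[X]) ho
  refine (monic_X_sub_C (v : ZMod q)).isRegular.left ?_
  have h5 : (C (-t) * dd Den P v).map (Int.castRingHom (ZMod q))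
      = -C (t : ZMod q) * (dd Den P v).map (Int.castRingHom (ZMod q)) := by
    rw [Polynomial.map_mul, map_C, map_neg, C_neg]
    rfl
  rw [h5]
  simp only [C_mul, C_add, C_1] at h3 h4 ⊢
  linear_combination (-(C μ * X + C s) * C (t : ZMod q)) * h3
    - (C (t : ZMod q) * C ((Den.eval v : ℤ) : ZMod q)) * hP
    + (C (t : ZMod q) * C lam * C ((Den.eval v : ℤ) : ZMod q) *
      Den.map (Int.castRingHom (ZMod q))) * h4

theorem vdc2 {Ω κ : Type*} (O : Finset Ω) (J : Finset κ) (y : κ → ℕ) (U : Finset ℤ)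
    (A Y0 Y1 T D : ℕ) (Bd : ℤ → ℝ) (φ : Ω → κ → ℤ → ℂ) (Kt : Ω → ℤ → ℤ → ℤ → ℂ) (w : ℤ → ℂ)
    (hY0 : 0 < Y0) (hT : 2 * A ≤ Y0 * T) (hU : ∀ u ∈ U, |u| ≤ A)
    (hy : ∀ j ∈ J, Y0 ≤ y j ∧ y j ≤ Y1) (hJ : ∀ x : ℕ, (J.filter fun j => y j = x).card ≤ D)
    (hw : ∀ u ∈ U, ‖w u‖ ≤ 1)
    (H2 : ∀ o ∈ O, ∀ j ∈ J, ∀ u ∈ U, ∀ u' ∈ U, ∀ t : ℤ, u' - u = y j * t →
      φ o j u * (starRingEnd ℂ) (φ o j u') = Kt o t u u')
    (H3 : ∀ o ∈ O, ∀ σ : ℤ, σ ≠ 0 → ∀ u0 ∈ U, ∀ u1 ∈ U, ∀ u2 ∈ U, ∀ t1 t2 : ℤ,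
      u1 - u0 = σ * t1 → u2 - u0 = σ * t2 →
      Kt o (t2 - t1) u1 u2 = Kt o t2 u0 u2 * (starRingEnd ℂ) (Kt o t1 u0 u1))
    (H4 : ∀ o ∈ O, ∀ u ∈ U, ‖Kt o 0 u u‖ ≤ 1)
    (H5 : ∀ t : ℤ, t ≠ 0 → |t| ≤ T → ∀ z : ℤ → ℂ, (∀ u ∈ U, ‖z u‖ ≤ 1) →
      ∑ v ∈ U, ∑ o ∈ O, ‖∑ u ∈ U, z u * Kt o t v u‖ ≤ Bd t) :
    (∑ o ∈ O, ∑ j ∈ J, ‖∑ u ∈ U, w u * φ o j u‖) ^ 2 ≤
      (O.card * ((D : ℝ) * (Y1 : ℝ) ^ 2)) * (D * (O.card * (Y1 * (2 * A + 1))
        + (2 + Real.log (2 * A + Y1 + 1)) * ∑ t ∈ (Icc (-(T : ℤ)) T).erase 0, Bd t)) := by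
  have hpos : ∀ x ∈ Ioc (Y0 - 1) Y1, (0 : ℤ) < (x : ℕ) := fun x hx => by
    have := (mem_Ioc.mp hx).1
    have : 0 < x := by omega
    exact_mod_cast this
  have hyS : ∀ j ∈ J, y j ∈ Ioc (Y0 - 1) Y1 := fun j hj =>
    mem_Ioc.mpr ⟨by have := (hy j hj).1; omega, (hy j hj).2⟩
  have hq0 : ∀ o ∈ O, ∀ x ∈ Ioc (Y0 - 1) Y1, ∀ u,
      0 ≤ (Cub.qForm U id (Kt o) w (x : ℕ) u).re := fun o ho x hx u =>
    Cub.qForm_nonneg U id (Kt o) w (hpos x hx).ne' u (H3 o ho _ (hpos x hx).ne')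
  have s1 : ∀ o ∈ O, ∀ j ∈ J, ‖∑ u ∈ U, w u * φ o j u‖ ^ 2 ≤
      (Y1 : ℝ) * ∑ r ∈ Ico (0 : ℤ) (y j), (Cub.qForm U id (Kt o) w (y j) r).re := by
    intro o ho j hj
    have hp := hpos _ (hyS j hj)
    rw [← sum_fiberwise_of_maps_to (g := fun i : ℤ => i % (y j)) fun i _ =>
      mem_Ico.mpr ⟨Int.emod_nonneg _ hp.ne', Int.emod_lt_of_pos _ hp⟩]
    refine (pow_le_pow_left₀ (norm_nonneg _) (norm_sum_le _ _) 2).trans
      (sq_sum_le_card_mul_sum_sq.trans (mul_le_mul ?_ (sum_le_sum fun u _ => ?_)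
        (sum_nonneg fun _ _ => by positivity) (by positivity)))
    · rw [Int.card_Ico, sub_zero, Int.toNat_natCast]
      exact_mod_cast (hy j hj).2
    · rw [Cub.qForm_eq_sq U id (Kt o) w _ u (fun i => φ o j i) fun i1 h1 i2 h2 e1 e2 =>
        H2 o ho j hj i1 h1 i2 h2 _ (Cub.sub_eq_of_emod (e1.trans e2.symm))]
      exact le_rfl
  have s2 : ∀ o ∈ O, ∑ j ∈ J, ∑ r ∈ Ico (0 : ℤ) (y j), (Cub.qForm U id (Kt o) w (y j) r).re ≤
      D * ∑ x ∈ Ioc (Y0 - 1) Y1, ∑ r ∈ Ico (0 : ℤ) (x : ℕ),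
        (Cub.qForm U id (Kt o) w (x : ℕ) r).re := fun o ho =>
    Cub.sum_comp_le_mult J y _ D hyS hJ
      (fun x => ∑ r ∈ Ico (0 : ℤ) (x : ℕ), (Cub.qForm U id (Kt o) w (x : ℕ) r).re)
      fun x hx => sum_nonneg fun u _ => hq0 o ho x hx u
  have s3 : ∑ o ∈ O, ∑ x ∈ Ioc (Y0 - 1) Y1, ∑ r ∈ Ico (0 : ℤ) (x : ℕ),
        Cub.qForm U id (Kt o) w (x : ℕ) r
      = ∑ t ∈ Icc (-(T : ℤ)) T, ∑ i ∈ U, ∑ j ∈ U, ∑ x ∈ Ioc (Y0 - 1) Y1,
        if j - i = t * (x : ℕ) then w i * (starRingEnd ℂ) (w j) * ∑ o ∈ O, Kt o t i j else 0 := by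
    have b1 : ∀ o ∈ O, ∀ x ∈ Ioc (Y0 - 1) Y1, ∑ r ∈ Ico (0 : ℤ) (x : ℕ),
        Cub.qForm U id (Kt o) w (x : ℕ) r = ∑ t ∈ Icc (-(T : ℤ)) T, ∑ i ∈ U, ∑ j ∈ U,
          if j - i = (x : ℕ) * t then w i * (starRingEnd ℂ) (w j) * Kt o t i j else 0 := by
      intro o _ x hx
      refine Cub.sum_qForm U id (Kt o) w (hpos x hx) A T hU ?_
      have h1 := (mem_Ioc.mp hx).1
      have : 2 * A ≤ x * T := hT.trans (Nat.mul_le_mul_right _ (by omega))
      exact_mod_cast this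
    rw [sum_congr rfl fun o ho => sum_congr rfl fun x hx => b1 o ho x hx]
    calc _ = ∑ o ∈ O, ∑ t ∈ Icc (-(T : ℤ)) T, ∑ i ∈ U, ∑ j ∈ U, ∑ x ∈ Ioc (Y0 - 1) Y1,
          if j - i = (x : ℕ) * t then w i * (starRingEnd ℂ) (w j) * Kt o t i j else 0 := by
          refine sum_congr rfl fun o _ => ?_
          rw [sum_comm]
          refine sum_congr rfl fun t _ => ?_
          rw [sum_comm]
          refine sum_congr rfl fun i _ => ?_
          rw [sum_comm]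
      _ = _ := by
          rw [sum_comm]
          refine sum_congr rfl fun t _ => ?_
          rw [sum_comm]
          refine sum_congr rfl fun i _ => ?_
          rw [sum_comm]
          refine sum_congr rfl fun j _ => ?_
          rw [sum_comm]
          refine sum_congr rfl fun x _ => ?_
          rw [mul_comm t]
          split_ifs
          · rw [mul_sum]
          · simp
  have hw' : ∀ i ∈ U, ‖(starRingEnd ℂ) (w i)‖ ≤ 1 := fun i hi => by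
    rw [Complex.norm_conj]; exact hw i hi
  have cU : (U.card : ℝ) ≤ 2 * A + 1 := by
    have := Cub.card_le_mult U id A 1 hU fun x => card_le_one.2 fun a ha b hb =>
      (mem_filter.1 ha).2.trans (mem_filter.1 hb).2.symm
    rw [mul_one] at this
    exact_mod_cast this
  have cY : ((Ioc (Y0 - 1) Y1).card : ℝ) ≤ Y1 := by
    rw [Nat.card_Ioc]
    exact_mod_cast Nat.sub_le _ _
  have s4 : ‖∑ i ∈ U, ∑ j ∈ U, ∑ x ∈ Ioc (Y0 - 1) Y1, if j - i = (0 : ℤ) * (x : ℕ) then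
      w i * (starRingEnd ℂ) (w j) * ∑ o ∈ O, Kt o 0 i j else 0‖
      ≤ O.card * (Y1 * (2 * A + 1)) := by
    have b1 : ∀ i ∈ U, ‖∑ j ∈ U, ∑ x ∈ Ioc (Y0 - 1) Y1, if j - i = (0 : ℤ) * (x : ℕ) then
        w i * (starRingEnd ℂ) (w j) * ∑ o ∈ O, Kt o 0 i j else 0‖ ≤ O.card * Y1 := by
      intro i hi
      rw [sum_eq_single_of_mem i hi fun j _ hj => sum_eq_zero fun x _ => if_neg (by
        rw [zero_mul, sub_eq_zero]; exact hj)]
      simp only [zero_mul, sub_self, if_true]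
      rw [sum_const, nsmul_eq_mul, norm_mul, Complex.norm_natCast, norm_mul, norm_mul]
      have b2 : ‖∑ o ∈ O, Kt o 0 i i‖ ≤ O.card := by
        refine (norm_sum_le _ _).trans ((sum_le_card_nsmul _ _ 1 fun o ho => H4 o ho i hi).trans ?_)
        simp
      calc _ ≤ (Y1 : ℝ) * (1 * 1 * O.card) := by
            gcongr
            exacts [hw i hi, hw' i hi]
        _ = _ := by ring
    refine (norm_sum_le _ _).trans ((sum_le_card_nsmul _ _ _ b1).trans ?_)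
    rw [nsmul_eq_mul]
    calc _ ≤ (2 * A + 1) * ((O.card : ℝ) * Y1) := by gcongr
      _ = _ := by ring
  have s5 : ∑ o ∈ O, ∑ x ∈ Ioc (Y0 - 1) Y1, ∑ r ∈ Ico (0 : ℤ) (x : ℕ),
      (Cub.qForm U id (Kt o) w (x : ℕ) r).re ≤ O.card * (Y1 * (2 * A + 1))
        + (2 + Real.log (2 * A + Y1 + 1)) * ∑ t ∈ (Icc (-(T : ℤ)) T).erase 0, Bd t := by
    simp_rw [← Complex.re_sum]
    rw [s3]
    refine (Complex.re_le_norm _).trans ?_
    rw [← add_sum_erase _ _ (show (0 : ℤ) ∈ Icc (-(T : ℤ)) T by simp), mul_sum]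
    refine (norm_add_le _ _).trans (add_le_add s4 ((norm_sum_le _ _).trans ?_))
    refine sum_le_sum fun t ht => ?_
    rw [mem_erase, mem_Icc] at ht
    refine Cub.bil_ap_le U id A (Y0 - 1) Y1 t ht.1 hU (fun i j => ∑ o ∈ O, Kt o t i j) (Bd t)
      (fun z z' hz hz' => ?_) w _ hw hw'
    refine le_trans ?_ (H5 t ht.1 (abs_le.mpr ht.2) z' hz')
    refine (norm_sum_le _ _).trans (sum_le_sum fun i hi => ?_)
    have b3 : ∑ j ∈ U, z i * z' j * ∑ o ∈ O, Kt o t i j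
        = z i * ∑ o ∈ O, ∑ j ∈ U, z' j * Kt o t i j := by
      rw [sum_comm, mul_sum]
      refine sum_congr rfl fun j _ => ?_
      rw [← mul_sum, mul_assoc]
    rw [b3, norm_mul]
    exact (mul_le_of_le_one_left (norm_nonneg _) (hz i hi)).trans (norm_sum_le _ _)
  have cJ : (J.card : ℝ) ≤ D * Y1 := by
    have := Cub.sum_comp_le_mult J y _ D hyS hJ (fun _ => 1) fun _ _ => zero_le_one
    rw [sum_const, sum_const, nsmul_eq_mul, nsmul_eq_mul, mul_one, mul_one] at this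
    exact this.trans (mul_le_mul_of_nonneg_left cY (Nat.cast_nonneg _))
  have s6 : ∀ o ∈ O, (∑ j ∈ J, ‖∑ u ∈ U, w u * φ o j u‖) ^ 2 ≤ ((D : ℝ) * Y1) * (Y1 * (D *
      ∑ x ∈ Ioc (Y0 - 1) Y1, ∑ r ∈ Ico (0 : ℤ) (x : ℕ),
        (Cub.qForm U id (Kt o) w (x : ℕ) r).re)) := by
    intro o ho
    have b1 := sum_le_sum (s1 o ho)
    rw [← mul_sum] at b1
    exact sq_sum_le_card_mul_sum_sq.trans (mul_le_mul cJ
      (b1.trans (mul_le_mul_of_nonneg_left (s2 o ho) (Nat.cast_nonneg _)))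
      (sum_nonneg fun _ _ => by positivity) (by positivity))
  have s7 := sum_le_sum s6
  rw [← mul_sum, ← mul_sum, ← mul_sum] at s7
  refine sq_sum_le_card_mul_sum_sq.trans ((mul_le_mul_of_nonneg_left (s7.trans
    (mul_le_mul_of_nonneg_left (mul_le_mul_of_nonneg_left (mul_le_mul_of_nonneg_left s5
      (Nat.cast_nonneg _)) (Nat.cast_nonneg _)) (by positivity))) (Nat.cast_nonneg _)).trans
    (le_of_eq (by ring)))

end Pool.Agent.Work.MP_51e72e_nt.Deg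
end

-- merged part: Pool.Agent.Work.MP_51e72e_nt.DegIter
section
/-!
Iterated differencing.
-/

set_option autoImplicit false

namespace Pool.Agent.Work.MP_51e72e_nt.Deg

open Finset Polynomial Pool.Agent.Lib.LargeSieve

lemma ee_div_nat {q : ℕ} [NeZero q] (x : ℤ) :
    ee ((x : ℝ) / q) = ZMod.stdAddChar (x : ZMod q) := by
  rw [ZMod.stdAddChar_coe, ee]
  congr 1
  push_cast
  ring

lemma card_U_le {U : Finset ℤ} {A : ℕ} (hU : ∀ u ∈ U, |u| ≤ A) : U.card ≤ 2 * A + 1 := by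
  have h : U ⊆ Icc (-(A : ℤ)) A := fun u hu => mem_Icc.mpr (abs_le.mp (hU u hu))
  refine (card_le_card h).trans ?_
  rw [Int.card_Icc]
  omega

lemma Vm_nonneg {q : ℕ} (V : ZMod q → ℝ) (hV : ∀ z, 0 ≤ V z) (U : Finset ℤ) (L : ℕ)
    (ω : ℤ → ZMod q) (μ : ZMod q) (Λ : ℝ) (η : ℕ → ℝ) (T : ℕ → ℕ) (n : ℕ) (z : ZMod q) :
    0 ≤ Vm V (avg U L ω) μ Λ η T n z := by
  cases n with
  | zero => exact hV z
  | succ k =>
    show 0 ≤ avg U L ω _ z
    unfold avg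
    exact div_nonneg (sum_nonneg fun u _ => Real.sqrt_nonneg _) (Nat.cast_nonneg _)

/-- splitting of the phase after the last differencing step -/
lemma ph_split {q : ℕ} [NeZero q] {s' : ℕ} (hs : 0 < s') {a b : ℤ} (hab : a * s' + b * q = 1)
    {num Dn : ℤ} (hD : IsCoprime Dn ((q * s' : ℕ) : ℤ)) {x : ZMod q}
    (hx : (num : ZMod q) = x * s' * Dn) :
    ph (q * s') num Dn = ZMod.stdAddChar x * ph s' (b * num) Dn := by
  have hq : 0 < q := Nat.pos_of_ne_zero (NeZero.ne q)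
  obtain ⟨w, hw⟩ := exists_quot hD num
  have hD' := hD
  rw [Nat.cast_mul] at hD'
  have hDq : IsCoprime Dn (q : ℤ) := hD'.of_mul_right_left
  have hDs : IsCoprime Dn (s' : ℤ) := hD'.of_mul_right_right
  have h1 : ph s' (b * num) Dn = ee (((w * b : ℤ) : ℝ) / s') := by
    refine ph_eq hs hDs ?_
    have : (s' : ℤ) ∣ num - Dn * w := (Dvd.intro_left (q : ℤ) (by push_cast; ring)).trans hw
    have h2 : b * num - Dn * (w * b) = b * (num - Dn * w) := by ring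
    rw [h2]
    exact this.mul_left _
  have h2 : x = ((w * a : ℤ) : ZMod q) := by
    have h3 : (q : ℤ) ∣ num - Dn * w := (Dvd.intro (s' : ℤ) (by push_cast; ring)).trans hw
    have h4 : ((num - Dn * w : ℤ) : ZMod q) = 0 := (ZMod.intCast_zmod_eq_zero_iff_dvd _ _).mpr h3
    obtain ⟨e, f, hef⟩ := hDq
    have h5 := congrArg (fun z : ℤ => (z : ZMod q)) hef
    have h6 := congrArg (fun z : ℤ => (z : ZMod q)) hab
    simp only [Int.cast_add, Int.cast_mul, Int.cast_natCast, ZMod.natCast_self, mul_zero,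
      add_zero, Int.cast_one] at h5 h6
    push_cast at h4 ⊢
    rw [hx] at h4
    linear_combination (a * e : ZMod q) * h4 - (x * (a * s') - w * a) * h5 - x * h6
  rw [ph_eq (Nat.mul_pos hq hs) hD hw, h1, h2, ← ee_div_nat, ← ee_add]
  congr 1
  have h7 : ((a : ℝ) * s' + b * q) = 1 := by exact_mod_cast hab
  have hq' : (q : ℝ) ≠ 0 := by exact_mod_cast hq.ne'
  have hs' : (s' : ℝ) ≠ 0 := by exact_mod_cast hs.ne'
  push_cast
  field_simp
  linear_combination (-(w : ℝ)) * h7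

/-- the bilinear base case -/
lemma base_bound {q : ℕ} [NeZero q] (s' A : ℕ) (Den : ℤ[X]) (U : Finset ℤ)
    (μ s : ZMod q) (ω : ℤ → ZMod q) (hs : 0 < s') (hcop : Nat.Coprime q s')
    (hU : ∀ u ∈ U, |u| ≤ A) (hω : ∀ u ∈ U, (μ * u + s) * ω u = 1)
    (hDen : ∀ u ∈ U, IsCoprime (Den.eval u) ((q * s' : ℕ) : ℤ)) (P : ℤ[X]) (δ : ℤ) (lam : ZMod q)
    (hδ : IsCoprime δ ((q * s' : ℕ) : ℤ))
    (hP : (C μ * X + C s) * P.map (Int.castRingHom (ZMod q))
      = C (lam * (s' * δ)) * Den.map (Int.castRingHom (ZMod q)))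
    (t : ℤ) (z : ℤ → ℂ) (hz : ∀ u ∈ U, ‖z u‖ ≤ 1) :
    ∑ v ∈ U, ‖∑ u ∈ U, z u * ph (q * s') (-t * (dd Den P v).eval u)
        (δ * Den.eval v * Den.eval u)‖
      ≤ ((2 * A + 1 : ℕ) : ℝ) ^ 2 * (s' * V0 U (2 * A + 1) ω (lam * (μ * t))) := by
  obtain ⟨b, a, hab⟩ := Nat.isCoprime_iff_coprime.mpr hcop
  have hab' : a * s' + b * q = 1 := by linear_combination hab
  obtain ⟨ψ, hψ⟩ : ∃ ψ : ℤ → ℤ → ℂ, ∀ ρ u, ψ ρ u =
      ph s' (b * (-t * (dd Den P ρ).eval u)) (δ * Den.eval ρ * Den.eval u) := ⟨_, fun _ _ => rfl⟩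
  have hs' : (0 : ℤ) < s' := by exact_mod_cast hs
  have key : ∀ v ∈ U, ∀ u ∈ U, ph (q * s') (-t * (dd Den P v).eval u)
      (δ * Den.eval v * Den.eval u)
      = ZMod.stdAddChar (lam * (μ * (t : ZMod q)) * ω v * ω u) * ψ (v % (s' : ℤ)) u := by
    intro v hv u hu
    have hD : IsCoprime (δ * Den.eval v * Den.eval u) ((q * s' : ℕ) : ℤ) :=
      (hδ.mul_left (hDen v hv)).mul_left (hDen u hu)
    have h1 := dd_pole Den P μ s _ (ω v) v t (hω v hv) hP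
    have h2 := congrArg (fun p => p.eval (u : ZMod q)) h1
    simp only [eval_intCast_map, Int.cast_id, eval_mul, eval_add, eval_C, eval_X] at h2
    simp only [eq_intCast] at h2
    have h3 : ((-t * (dd Den P v).eval u : ℤ) : ZMod q) =
        (lam * (μ * t) * ω v * ω u) * s' * ((δ * Den.eval v * Den.eval u : ℤ) : ZMod q) := by
      have h4 := hω u hu
      push_cast at h2 ⊢
      linear_combination (ω u) * h2 + ((t : ZMod q) * ((dd Den P v).eval u : ℤ)) * h4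
    rw [ph_split hs hab' hD h3, hψ]
    congr 1
    have hv' : (s' : ℤ) ∣ v - v % s' := Dvd.intro (v / s') (by
      have := Int.emod_add_mul_ediv v s'
      linear_combination this)
    refine ph_congr ?_ ?_
    · have := dd_congr Den P hv' u
      have e : b * (-t * (dd Den P v).eval u) - b * (-t * (dd Den P (v % s')).eval u)
          = (b * -t) * ((dd Den P v).eval u - (dd Den P (v % s')).eval u) := by ring
      rw [e]
      exact this.mul_left _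
    · have := hv'.trans (Polynomial.sub_dvd_eval_sub v (v % s') Den)
      have e : δ * Den.eval v * Den.eval u - δ * Den.eval (v % s') * Den.eval u
          = (δ * Den.eval u) * (Den.eval v - Den.eval (v % s')) := by ring
      rw [e]
      exact this.mul_left _
  calc ∑ v ∈ U, ‖∑ u ∈ U, z u * ph (q * s') (-t * (dd Den P v).eval u)
        (δ * Den.eval v * Den.eval u)‖
      ≤ ∑ v ∈ U, ∑ ρ ∈ Ico (0 : ℤ) s', ‖∑ u ∈ U, (z u * ψ ρ u) *
          ZMod.stdAddChar (lam * (μ * (t : ZMod q)) * ω v * ω u)‖ := by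
        refine sum_le_sum fun v hv => ?_
        have hm : v % s' ∈ Ico (0 : ℤ) s' :=
          mem_Ico.mpr ⟨Int.emod_nonneg _ hs'.ne', Int.emod_lt_of_pos _ hs'⟩
        refine le_trans (le_of_eq ?_) (single_le_sum (f := fun ρ => ‖∑ u ∈ U, (z u * ψ ρ u) *
          ZMod.stdAddChar (lam * (μ * (t : ZMod q)) * ω v * ω u)‖) (fun _ _ => norm_nonneg _) hm)
        congr 1
        refine sum_congr rfl fun u hu => ?_
        rw [key v hv u hu]
        ring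
    _ = ∑ ρ ∈ Ico (0 : ℤ) s', ∑ v ∈ U, ‖∑ u ∈ U, (z u * ψ ρ u) *
          ZMod.stdAddChar (lam * (μ * (t : ZMod q)) * ω v * ω u)‖ := sum_comm
    _ ≤ ∑ ρ ∈ Ico (0 : ℤ) s', ((2 * A + 1 : ℕ) : ℝ) ^ 2 * V0 U (2 * A + 1) ω (lam * (μ * t)) := by
        refine sum_le_sum fun ρ _ => ?_
        refine bilin_le U (2 * A + 1) (card_U_le hU) ω (fun u => z u * ψ ρ u) (fun u hu => ?_) _
        rw [norm_mul, hψ, norm_ph, mul_one]
        exact hz u hu
    _ = _ := by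
        rw [sum_const, Int.card_Ico, nsmul_eq_mul]
        simp only [sub_zero, Int.toNat_natCast]
        ring

lemma sum_tup_succ {κ : Type} (J : ℕ → Finset κ) (n : ℕ) (f : (Fin (n + 1) → κ) → ℝ) :
    ∑ j ∈ tup J (n + 1), f j = ∑ o ∈ tup J n, ∑ i ∈ J n, f (Fin.snoc o i) := by
  rw [← sum_product']
  refine sum_bij' (fun j _ => (Fin.init j, j (Fin.last n))) (fun p _ => Fin.snoc p.1 p.2)
    ?_ ?_ ?_ ?_ ?_
  · intro j hj
    simp only [tup, Fintype.mem_piFinset, mem_product] at hj ⊢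
    exact ⟨fun k => by simpa [Fin.init] using hj k.castSucc, by simpa using hj (Fin.last n)⟩
  · intro p hp
    simp only [tup, Fintype.mem_piFinset, mem_product] at hp ⊢
    intro k
    refine Fin.lastCases ?_ (fun i => ?_) k
    · simpa using hp.2
    · simpa using hp.1 i
  · intro j _
    exact Fin.snoc_init_self j
  · intro p _
    simp
  · intro j _
    simp

lemma snoc_mem_tup {κ : Type} {J : ℕ → Finset κ} {n : ℕ} {o : Fin n → κ} {i : κ}
    (ho : o ∈ tup J n) (hi : i ∈ J n) : (Fin.snoc o i : Fin (n + 1) → κ) ∈ tup J (n + 1) := by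
  simp only [tup, Fintype.mem_piFinset] at ho ⊢
  intro k
  refine Fin.lastCases ?_ (fun i => ?_) k
  · simpa using hi
  · simpa using ho i

lemma mem_of_tup {κ : Type} {J : ℕ → Finset κ} {n : ℕ} {o : Fin n → κ}
    (ho : o ∈ tup J n) (k : Fin n) : o k ∈ J k := by
  simp only [tup, Fintype.mem_piFinset] at ho
  exact ho k

theorem iter_bound {κ : Type} {q : ℕ} [NeZero q] (σ y0 A D n0 : ℕ) (Den : ℤ[X]) (U : Finset ℤ)
    (μ s : ZMod q) (ω : ℤ → ZMod q) (J : ℕ → Finset κ) (y : κ → ℕ) (r : κ → ℤ) (c : ℤ)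
    (Y0 Y1 T : ℕ → ℕ) (Λ : ℝ) (η : ℕ → ℝ) (hσ : 0 < σ) (hy0 : 0 < y0)
    (hcop : Nat.Coprime q (σ * y0)) (hU : ∀ u ∈ U, |u| ≤ A)
    (hω : ∀ u ∈ U, (μ * u + s) * ω u = 1)
    (hDen : ∀ u ∈ U, IsCoprime (Den.eval u) (q * σ * y0 : ℕ) ∧
      ∀ k < n0, ∀ j ∈ J k, IsCoprime (Den.eval u) (y j))
    (hy : ∀ k < n0, ∀ j ∈ J k, Y0 k ≤ y j ∧ y j ≤ Y1 k ∧ Nat.Coprime (y j) y0)
    (hJ : ∀ k < n0, ∀ v : ℕ, ((J k).filter fun j => y j = v).card ≤ D)
    (hyy : ∀ k < n0, ∀ k' < n0, k ≠ k' → ∀ j ∈ J k, ∀ j' ∈ J k', Nat.Coprime (y j) (y j'))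
    (hT : ∀ k < n0, 0 < Y0 k ∧ 2 * A ≤ Y0 k * T k)
    (hΛ : ∀ k < n0, 2 + Real.log (2 * A + Y1 k + 1) ≤ Λ)
    (hη : ∀ k < n0, (Y1 k : ℝ) / (2 * A + 1) ≤ η k)
    (n : ℕ) (hn : n < n0) (P1 P2 : ℤ[X]) (δ : ℤ) (lam : ZMod q)
    (hδ : IsCoprime δ (q * σ * y0 : ℕ) ∧ ∀ k < n0, ∀ j ∈ J k, IsCoprime δ (y j))
    (hP : (C μ * X + C s) * P1.map (Int.castRingHom (ZMod q))
      = C (lam * ((σ * y0 : ℕ) * δ)) * Den.map (Int.castRingHom (ZMod q)))
    (x : (Fin (n + 1) → κ) → ℤ)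
    (hx : ∀ j ∈ tup J (n + 1), (y0 : ℤ) ∣ x j - c ∧ ∀ k, (y (j k) : ℤ) ∣ x j - r (j k))
    (w : ℤ → ℂ) (hw : ∀ u ∈ U, ‖w u‖ ≤ 1) :
    ∑ j ∈ tup J (n + 1), ‖∑ u ∈ U, w u * ph (q * σ * y0 * ∏ k, y (j k))
        (P1.eval u + x j * (q * σ : ℕ) * P2.eval u) (δ * Den.eval u)‖
      ≤ (2 * A + 1) * (∏ k ∈ range (n + 1), ((D : ℝ) * Y1 k)) *
        Wm μ Λ (η n) (T n) (Vm (fun z => (σ * y0 : ℕ) * V0 U (2 * A + 1) ω z)
          (avg U (2 * A + 1) ω) μ Λ η T n) lam := by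
  have hq : 0 < q := Nat.pos_of_ne_zero (NeZero.ne q)
  obtain ⟨V, hV⟩ : ∃ V : ℕ → ZMod q → ℝ, V = Vm (fun z => (σ * y0 : ℕ) * V0 U (2 * A + 1) ω z)
      (avg U (2 * A + 1) ω) μ Λ η T := ⟨_, rfl⟩
  have hV0 : ∀ n z, 0 ≤ V n z := fun n z => by
    rw [hV]
    exact Vm_nonneg _ (fun z => mul_nonneg (Nat.cast_nonneg _) (Real.sqrt_nonneg _)) _ _ _ _ _ _ _ _ _
  rw [← hV]
  -- the two statements
  let Q : ℕ → Prop := fun n => ∀ (P1 P2 : ℤ[X]) (δ : ℤ) (lam : ZMod q),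
    (IsCoprime δ (q * σ * y0 : ℕ) ∧ ∀ k < n0, ∀ j ∈ J k, IsCoprime δ (y j)) →
    (C μ * X + C s) * P1.map (Int.castRingHom (ZMod q))
      = C (lam * ((σ * y0 : ℕ) * δ)) * Den.map (Int.castRingHom (ZMod q)) →
    ∀ (x : (Fin n → κ) → ℤ) (t : ℤ) (z : ℤ → ℂ), (∀ u ∈ U, ‖z u‖ ≤ 1) →
    (∀ j ∈ tup J n, (y0 : ℤ) ∣ x j - c ∧ ∀ k, (y (j k) : ℤ) ∣ x j - r (j k)) →
    ∑ v ∈ U, ∑ j ∈ tup J n, ‖∑ u ∈ U, z u * ph (q * σ * y0 * ∏ k, y (j k))
        (-t * (dd Den (P1 + C (x j * (q * σ : ℕ)) * P2) v).eval u)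
          (δ * Den.eval v * Den.eval u)‖
      ≤ (2 * A + 1) ^ 2 * (∏ k ∈ range n, ((D : ℝ) * Y1 k)) * V n (lam * (μ * t))
  let R : ℕ → Prop := fun n => ∀ (P1 P2 : ℤ[X]) (δ : ℤ) (lam : ZMod q),
    (IsCoprime δ (q * σ * y0 : ℕ) ∧ ∀ k < n0, ∀ j ∈ J k, IsCoprime δ (y j)) →
    (C μ * X + C s) * P1.map (Int.castRingHom (ZMod q))
      = C (lam * ((σ * y0 : ℕ) * δ)) * Den.map (Int.castRingHom (ZMod q)) →
    ∀ (x : (Fin (n + 1) → κ) → ℤ) (w : ℤ → ℂ), (∀ u ∈ U, ‖w u‖ ≤ 1) →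
    (∀ j ∈ tup J (n + 1), (y0 : ℤ) ∣ x j - c ∧ ∀ k, (y (j k) : ℤ) ∣ x j - r (j k)) →
    ∑ j ∈ tup J (n + 1), ‖∑ u ∈ U, w u * ph (q * σ * y0 * ∏ k, y (j k))
        (P1.eval u + x j * (q * σ : ℕ) * P2.eval u) (δ * Den.eval u)‖
      ≤ (2 * A + 1) * (∏ k ∈ range (n + 1), ((D : ℝ) * Y1 k)) * Wm μ Λ (η n) (T n) (V n) lam
  have hL : (0 : ℝ) < 2 * A + 1 := by positivity
  have hQ0 : Q 0 := by
    intro P1 P2 δ lam hδ hP x t z hz _
    have ht : tup J 0 = {Fin.elim0} := by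
      ext j
      simp only [tup, Fintype.mem_piFinset, mem_singleton]
      exact ⟨fun _ => Subsingleton.elim _ _, fun _ k => k.elim0⟩
    simp only [ht, sum_singleton, univ_eq_empty, prod_empty, mul_one, range_zero]
    have hb := base_bound (σ * y0) A Den U μ s ω (Nat.mul_pos hσ hy0) hcop hU hω
      (fun u hu => by rw [← mul_assoc]; exact (hDen u hu).1)
      (P1 + C (x Fin.elim0 * (q * σ : ℕ)) * P2) δ lam (by rw [← mul_assoc]; exact hδ.1)
      (by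
        rw [← hP, Polynomial.map_add, Polynomial.map_mul, map_C]
        simp) t z hz
    rw [← mul_assoc] at hb
    refine hb.trans (le_of_eq ?_)
    rw [hV]
    simp only [Vm]
    push_cast
    ring
  have hRQ : ∀ n, R n → Q (n + 1) := by
    intro n hR P1 P2 δ lam hδ hP x t z hz hx
    have h1 : ∀ v ∈ U, ∑ j ∈ tup J (n + 1), ‖∑ u ∈ U, z u * ph (q * σ * y0 * ∏ k, y (j k))
        (-t * (dd Den (P1 + C (x j * (q * σ : ℕ)) * P2) v).eval u)
          (δ * Den.eval v * Den.eval u)‖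
        ≤ (2 * A + 1) * (∏ k ∈ range (n + 1), ((D : ℝ) * Y1 k)) *
          Wm μ Λ (η n) (T n) (V n) (lam * (μ * t) * ω v) := by
      intro v hv
      have h2 := hR (C (-t) * dd Den P1 v) (C (-t) * dd Den P2 v) (δ * Den.eval v)
        (lam * (μ * t) * ω v)
        ⟨hδ.1.mul_left (hDen v hv).1, fun k hk j hj =>
          (hδ.2 k hk j hj).mul_left ((hDen v hv).2 k hk j hj)⟩
        (by
          rw [dd_pole Den P1 μ s _ (ω v) v t (hω v hv) hP]
          congr 2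
          push_cast
          ring) x z hz hx
      refine le_trans (le_of_eq ?_) h2
      refine sum_congr rfl fun j _ => ?_
      congr 1
      refine sum_congr rfl fun u _ => ?_
      congr 2
      rw [dd_add_mul]
      simp only [eval_add, eval_mul, eval_C]
      ring
    refine (sum_le_sum h1).trans (le_of_eq ?_)
    rw [← mul_sum]
    have h3 : V (n + 1) (lam * (μ * t)) =
        (∑ v ∈ U, Wm μ Λ (η n) (T n) (V n) (lam * (μ * t) * ω v)) / ((2 * A + 1 : ℕ) : ℝ) := by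
      rw [hV]
      rfl
    rw [h3]
    push_cast
    field_simp
  have hQR : ∀ n < n0, Q n → R n := by
    intro n hn hQ P1 P2 δ lam hδ hP x w hw hx
    have hW : 0 ≤ Wm μ Λ (η n) (T n) (V n) lam := Real.sqrt_nonneg _
    have hPi : 0 ≤ ∏ k ∈ range n, ((D : ℝ) * Y1 k) := prod_nonneg fun _ _ => by positivity
    rw [sum_tup_succ]
    rcases (J n).eq_empty_or_nonempty with h0 | ⟨j0, hj0⟩
    · simp only [h0, sum_empty, sum_const_zero]
      exact mul_nonneg (mul_nonneg hL.le (prod_nonneg fun _ _ => by positivity)) hW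
    have hypos : ∀ k < n0, ∀ j ∈ J k, 0 < y j := fun k hk j hj =>
      (hT k hk).1.trans_le (hy k hk j hj).1
    have hlt : ∀ k : Fin n, (k : ℕ) < n0 := fun k => k.2.trans hn
    have hQpos : ∀ o ∈ tup J n, 0 < q * σ * y0 * ∏ k, y (o k) := fun o ho =>
      Nat.mul_pos (Nat.mul_pos (Nat.mul_pos hq hσ) hy0)
        (prod_pos fun k _ => hypos k (hlt k) _ (mem_of_tup ho k))
    have hcopQ : ∀ o ∈ tup J n, ∀ u ∈ U,
        IsCoprime (δ * Den.eval u) ((q * σ * y0 * ∏ k, y (o k) : ℕ) : ℤ) := by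
      intro o ho u hu
      rw [Nat.cast_mul (q * σ * y0), Nat.cast_prod]
      refine (hδ.1.mul_left (hDen u hu).1).mul_right (IsCoprime.prod_right fun k _ => ?_)
      exact (hδ.2 k (hlt k) _ (mem_of_tup ho k)).mul_left
        ((hDen u hu).2 k (hlt k) _ (mem_of_tup ho k))
    have hdiff : ∀ o ∈ tup J n, ∀ i ∈ J n, ((y0 * ∏ k, y (o k) : ℕ) : ℤ) ∣
        x (Fin.snoc o i) - x (Fin.snoc o j0) := by
      intro o ho i hi
      have a1 := hx _ (snoc_mem_tup ho hi)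
      have a2 := hx _ (snoc_mem_tup ho hj0)
      rw [Nat.cast_mul, Nat.cast_prod]
      refine IsCoprime.mul_dvd (IsCoprime.prod_right fun k _ => ?_) ?_ ?_
      · exact Nat.isCoprime_iff_coprime.mpr (hy k (hlt k) _ (mem_of_tup ho k)).2.2.symm
      · have := dvd_sub a1.1 a2.1
        rwa [sub_sub_sub_cancel_right] at this
      · refine Finset.prod_dvd_of_coprime (fun k _ k' _ hkk => ?_) fun k _ => ?_
        · exact Nat.isCoprime_iff_coprime.mpr (hyy k (hlt k) k' (hlt k')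
            (fun h => hkk (Fin.ext h)) _ (mem_of_tup ho k) _ (mem_of_tup ho k'))
        · have b1 := a1.2 k.castSucc
          have b2 := a2.2 k.castSucc
          rw [Fin.snoc_castSucc] at b1 b2
          have := dvd_sub b1 b2
          rwa [sub_sub_sub_cancel_right] at this
    have hx' : ∀ o ∈ tup J n, (y0 : ℤ) ∣ x (Fin.snoc o j0) - c ∧
        ∀ k, (y (o k) : ℤ) ∣ x (Fin.snoc o j0) - r (o k) := by
      intro o ho
      have a2 := hx _ (snoc_mem_tup ho hj0)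
      refine ⟨a2.1, fun k => ?_⟩
      have b2 := a2.2 k.castSucc
      rwa [Fin.snoc_castSucc] at b2
    have main := vdc2 (tup J n) (J n) y U A (Y0 n) (Y1 n) (T n) D
      (fun t => (2 * A + 1) ^ 2 * (∏ k ∈ range n, ((D : ℝ) * Y1 k)) * V n (lam * (μ * t)))
      (fun o i u => ph ((q * σ * y0 * ∏ k, y (o k)) * y i)
        ((P1 + C (x (Fin.snoc o i) * (q * σ : ℕ)) * P2).eval u) (δ * Den.eval u))
      (fun o t v u => ph (q * σ * y0 * ∏ k, y (o k))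
        (-t * (dd Den (P1 + C (x (Fin.snoc o j0) * (q * σ : ℕ)) * P2) v).eval u)
          (δ * Den.eval v * Den.eval u)) w (hT n hn).1 (hT n hn).2 hU
      (fun j hj => ⟨(hy n hn j hj).1, (hy n hn j hj).2.1⟩) (hJ n hn) hw
      (by
        intro o ho i hi u hu u' hu' t ht
        have c1 : ∀ u ∈ U, IsCoprime (δ * Den.eval u)
            (((q * σ * y0 * ∏ k, y (o k)) * y i : ℕ) : ℤ) := fun u hu => by
          rw [Nat.cast_mul _ (y i)]
          exact (hcopQ o ho u hu).mul_right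
            ((hδ.2 n hn i hi).mul_left ((hDen u hu).2 n hn i hi))
        rw [ph_diff Den _ (hQpos o ho) (hypos n hn i hi) (c1 u hu) (c1 u' hu') ht]
        refine ph_congr ?_ (by simp)
        obtain ⟨e, he⟩ := hdiff o ho i hi
        refine ⟨-t * e * (dd Den P2 u).eval u', ?_⟩
        rw [dd_add_mul, dd_add_mul]
        simp only [eval_add, eval_mul, eval_C]
        push_cast at he ⊢
        linear_combination (-t * (q * σ) * (dd Den P2 u).eval u') * he)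
      (by
        intro o ho σ' hσ' u0 h0 u1 h1 u2 h2 t1 t2 e1 e2
        exact ph_cocycle Den _ (hQpos o ho) hσ' (hcopQ o ho u0 h0) (hcopQ o ho u1 h1)
          (hcopQ o ho u2 h2) e1 e2)
      (fun o _ u _ => (norm_ph _ _ _).le)
      (fun t _ _ z hz => hQ P1 P2 δ lam hδ hP (fun o => x (Fin.snoc o j0)) t z hz hx')
    have hcard : ((tup J n).card : ℝ) ≤ ∏ k ∈ range n, ((D : ℝ) * Y1 k) := by
      rw [tup, Fintype.card_piFinset, Nat.cast_prod, ← Fin.prod_univ_eq_prod_range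
        (fun k => (D : ℝ) * Y1 k)]
      refine prod_le_prod (fun _ _ => Nat.cast_nonneg _) fun k _ => ?_
      exact Cub.card_le_mult_nat (J k) y (Y1 k) D
        (fun j hj => ⟨hypos k (hlt k) j hj, (hy k (hlt k) j hj).2.1⟩) (hJ k (hlt k))
    have e1 : ∑ o ∈ tup J n, ∑ i ∈ J n, ‖∑ u ∈ U, w u *
        ph (q * σ * y0 * ∏ k, y ((Fin.snoc o i : Fin (n + 1) → κ) k))
          (P1.eval u + x (Fin.snoc o i) * (q * σ : ℕ) * P2.eval u) (δ * Den.eval u)‖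
        = ∑ o ∈ tup J n, ∑ i ∈ J n, ‖∑ u ∈ U, w u * ph ((q * σ * y0 * ∏ k, y (o k)) * y i)
        ((P1 + C (x (Fin.snoc o i) * (q * σ : ℕ)) * P2).eval u) (δ * Den.eval u)‖ := by
      refine sum_congr rfl fun o _ => sum_congr rfl fun i _ => ?_
      simp only [Fin.prod_univ_castSucc, Fin.snoc_castSucc, Fin.snoc_last, eval_add, eval_mul,
        eval_C, mul_assoc]
    rw [e1, prod_range_succ]
    obtain ⟨Pi, hPi'⟩ : ∃ Pi : ℝ, Pi = ∏ k ∈ range n, ((D : ℝ) * Y1 k) := ⟨_, rfl⟩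
    rw [← hPi'] at main hcard hPi ⊢
    rw [← mul_sum] at main
    obtain ⟨S, hS⟩ : ∃ S : ℝ, S = ∑ t ∈ (Icc (-(T n : ℤ)) (T n)).erase 0, V n (lam * (μ * t)) :=
      ⟨_, rfl⟩
    have hS0 : 0 ≤ S := hS ▸ sum_nonneg fun _ _ => hV0 _ _
    rw [← hS] at main
    have hΛ0 : 0 ≤ 2 + Real.log (2 * A + Y1 n + 1) := by
      have : 0 ≤ Real.log (2 * A + Y1 n + 1) := Real.log_nonneg (by
        have : (0 : ℝ) ≤ 2 * A + Y1 n := by positivity
        linarith only [])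
      linarith only [this]
    have hΛn := hΛ n hn
    have hηn : (Y1 n : ℝ) ≤ η n * (2 * A + 1) := (div_le_iff₀ hL).mp (hη n hn)
    have hη0 : 0 ≤ η n := le_trans (by positivity) (hη n hn)
    have hin : 0 ≤ η n + Λ * S := add_nonneg hη0 (mul_nonneg (hΛ0.trans hΛn) hS0)
    have hWm : Wm μ Λ (η n) (T n) (V n) lam = √(η n + Λ * S) := by rw [hS]; rfl
    rw [hWm]
    refine abs_le_of_sq_le_sq' (main.trans ?_) (by positivity) |>.2
    rw [mul_pow _ (√(η n + Λ * S)), Real.sq_sqrt hin]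
    have c0 : (0 : ℝ) ≤ (tup J n).card := Nat.cast_nonneg _
    calc ((tup J n).card * ((D : ℝ) * (Y1 n : ℝ) ^ 2)) * (D * ((tup J n).card * (Y1 n * (2 * A + 1))
          + (2 + Real.log (2 * A + Y1 n + 1)) * ((2 * A + 1) ^ 2 * Pi * S)))
        ≤ (Pi * ((D : ℝ) * (Y1 n : ℝ) ^ 2)) * (D * (Pi * ((η n * (2 * A + 1)) * (2 * A + 1))
          + Λ * ((2 * A + 1) ^ 2 * Pi * S))) := by
          gcongr
      _ = _ := by ring
  have hall : ∀ n < n0, Q n := by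
    intro n
    induction n with
    | zero => exact fun _ => hQ0
    | succ k ih => exact fun hk => hRQ k (hQR k (by omega) (ih (by omega)))
  exact hQR n hn (hall n hn) P1 P2 δ lam hδ hP x w hw hx

end Pool.Agent.Work.MP_51e72e_nt.Deg
end

-- merged part: Pool.Agent.Work.MP_51e72e_nt.DegType1
section
/-!
The multilinear exponential sum over one class of generators.
-/

set_option autoImplicit false

namespace Pool.Agent.Work.MP_51e72e_nt.Deg

open Finset Polynomial Pool.Agent.Lib.LargeSieve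

lemma mem_tup {κ : Type} {J : ℕ → Finset κ} {n : ℕ} {j : Fin n → κ} :
    j ∈ tup J n ↔ ∀ k : Fin n, j k ∈ J k := Fintype.mem_piFinset

lemma card_tup_le {κ : Type} (J : ℕ → Finset κ) (n D : ℕ) (y : κ → ℕ) (Y1 : ℕ → ℕ)
    (hy : ∀ k < n, ∀ j ∈ J k, 0 < y j ∧ y j ≤ Y1 k)
    (hJ : ∀ k < n, ∀ v : ℕ, ((J k).filter fun j => y j = v).card ≤ D) :
    ((tup J n).card : ℝ) ≤ ∏ k ∈ range n, ((D : ℝ) * Y1 k) := by
  rw [tup, Fintype.card_piFinset, Nat.cast_prod, ← Fin.prod_univ_eq_prod_range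
    (fun k => (D : ℝ) * Y1 k)]
  exact prod_le_prod (fun _ _ => Nat.cast_nonneg _) fun k _ =>
    Cub.card_le_mult_nat _ y _ _ (hy k k.2) (hJ k k.2)

lemma le_ord_mul {q : ℕ} [NeZero q] {lam v : ZMod q} {h : ℤ} (hh : h ≠ 0) (hv : IsUnit v)
    (e : lam = h * v) : q ≤ addOrderOf lam * h.natAbs := by
  have h1 : addOrderOf lam • lam = 0 := addOrderOf_nsmul_eq_zero lam
  have h2 : (((addOrderOf lam : ℤ) * h : ℤ) : ZMod q) = 0 := by
    rw [← hv.mul_left_eq_zero, ← h1]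
    conv_rhs => rw [nsmul_eq_mul]; enter [2]; rw [e]
    push_cast
    ring
  rw [ZMod.intCast_zmod_eq_zero_iff_dvd, Int.natCast_dvd, Int.natAbs_mul, Int.natAbs_natCast] at h2
  exact Nat.le_of_dvd (Nat.mul_pos (addOrderOf_pos lam) (Int.natAbs_pos.2 hh)) h2

lemma exists_sgn {R : ℤ} (hR : R ≠ 0) : ∃ ε : ℤ, ε * ε = 1 ∧ ε * R = R.natAbs := by
  rcases lt_or_gt_of_ne hR with h | h
  · exact ⟨-1, by norm_num, by omega⟩
  · exact ⟨1, by norm_num, by omega⟩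

lemma unit_of_coprime {q : ℕ} {a : ℤ} (h : Nat.Coprime q a.natAbs) : IsUnit (a : ZMod q) := by
  rw [ZMod.coe_int_isUnit_iff_isCoprime, Int.isCoprime_iff_gcd_eq_one]
  exact h

lemma prod_mod_dvd {n : ℕ} {y0 : ℕ} {y : Fin n → ℕ} {d : ℤ} (h0 : (y0 : ℤ) ∣ d)
    (h1 : ∀ k, (y k : ℤ) ∣ d) (c0 : ∀ k, Nat.Coprime (y k) y0)
    (c1 : ∀ k k', k ≠ k' → Nat.Coprime (y k) (y k')) : ((y0 * ∏ k, y k : ℕ) : ℤ) ∣ d := by
  push_cast
  refine IsCoprime.mul_dvd (IsCoprime.prod_right fun k _ => ?_) h0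
    (Fintype.prod_dvd_of_coprime (fun k k' hk => ?_) h1)
  · exact Nat.isCoprime_iff_coprime.2 (c0 k).symm
  · exact Nat.isCoprime_iff_coprime.2 (c1 k k' hk)

theorem class_bd {ι κ : Type} {F : ℤ[X]} {e : ℕ} (hm : F.Monic)
    (hd : F.natDegree = e + 2) (n A W M0 M1 Dm KE V K' G G2 : ℕ) (Y0 Y1 T : ℕ → ℕ) (Λ Xb : ℝ)
    (η : ℕ → ℝ) (I : Finset ι) (J : ℕ → Finset κ) (m : ι → ℕ) (r : ι → ℤ) (y : κ → ℕ) (s : κ → ℤ)
    (c : ℤ) (x : ι → (Fin (n + 1) → κ) → ℤ) (h : ℤ) (hA : 0 < A) (hW : 0 < W) (hM0 : 0 < M0)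
    (hfam : Fam F (n + 1) W M0 M1 Dm Y0 Y1 I J m r y s c x)
    (hT : ∀ k < n + 1, 0 < Y0 k ∧ 2 * A ≤ Y0 k * T k)
    (hΛ : ∀ k < n + 1, 2 + Real.log (2 * A + Y1 k + 1) ≤ Λ)
    (hη : ∀ k < n + 1, (Y1 k : ℝ) / (2 * A + 1) ≤ η k) (hX0 : 0 ≤ Xb)
    (hX : ∀ (q : ℕ) [NeZero q] (σ : ℕ) (U : Finset ℤ) (μ s' : ZMod q) (ω : ℤ → ZMod q)
      (lam : ZMod q), A ≤ q * (G2 * V) → q ≤ KE → σ ≤ G2 * (G * W) → (∀ u ∈ U, |u| ≤ A) →
      IsUnit μ → (∀ u ∈ U, (μ * u + s') * ω u = 1) → q ≤ addOrderOf lam * h.natAbs →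
      Wm μ Λ (η n) (T n) (Vm (fun z => (σ : ℝ) * V0 U (2 * A + 1) ω z)
        (avg U (2 * A + 1) ω) μ Λ η T n) lam ≤ Xb)
    (hh : h ≠ 0) (z : ι → ℂ) (hz : ∀ i ∈ I, ‖z i‖ ≤ 1)
    (b : Fin (e + 1) → ℤ) (k : ℤ) (g : ℕ) (ρ a0 : ℤ) (Ic : Finset ι) (a : ι → ℤ) (hk : k ≠ 0)
    (hb : GoodB F A V K' G2 b) (hkK : k.natAbs * g * W ≤ K') (hgG : g ≤ G)
    (hR : (rR F b).natAbs ≤ KE)
    (hIc : ∀ i ∈ Ic, i ∈ I ∧ |a i| ≤ A ∧ (chi F b).eval (a i) = k * m i ∧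
      Nat.gcd (m i) (rR F b).natAbs = g ∧ r i % g = ρ ∧ a i % |k * g| = a0 ∧
      (m i : ℤ) ∣ rR F b * r i - (uU F b).eval (a i)) :
    ∑ j ∈ tup J (n + 1), ‖∑ i ∈ Ic, z i *
        ee (((h * ((rR F b * x i j - (uU F b).eval (a i)) / (m i / g : ℕ)) : ℤ) : ℝ)
          / ((g * (W * ∏ k, y (j k)) : ℕ) * ((rR F b : ℤ) : ℝ)))‖
      ≤ Dm * ((2 * A + 1) * (∏ k ∈ range (n + 1), ((Dm : ℝ) * Y1 k)) * Xb) := by
  classical
  rcases Ic.eq_empty_or_nonempty with rfl | ⟨i0, hi0⟩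
  · simp only [sum_empty, norm_zero, sum_const_zero]
    have : 0 ≤ ∏ k ∈ range (n + 1), ((Dm : ℝ) * Y1 k) := prod_nonneg fun _ _ => by positivity
    positivity
  set R := rR F b with hRdef
  have hR0 : 0 < R.natAbs := Nat.pos_of_mul_pos_right (hA.trans_le hb.1)
  have hR1 : R ≠ 0 := Int.natAbs_pos.1 hR0
  have hm0 : ∀ i ∈ Ic, 0 < m i := fun i hi => hM0.trans_le (hfam.hm i (hIc i hi).1).2.2.1
  have hgm : ∀ i ∈ Ic, g ∣ m i := fun i hi => (hIc i hi).2.2.2.1 ▸ Nat.gcd_dvd_left _ _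
  have hgR : g ∣ R.natAbs := (hIc i0 hi0).2.2.2.1 ▸ Nat.gcd_dvd_right _ _
  have hg0 : 0 < g := Nat.pos_of_dvd_of_pos hgR hR0
  have hmul : ∀ i ∈ Ic, (m i : ℤ) = g * (m i / g : ℕ) := fun i hi => by
    rw [← Nat.cast_mul, Nat.mul_div_cancel' (hgm i hi)]
  have hk' : k * g ≠ 0 := mul_ne_zero hk (by exact_mod_cast hg0.ne')
  have hka : 0 < |k * g| := abs_pos.2 hk'
  set u : ι → ℤ := fun i => a i / |k * g| with hu
  have hau : ∀ i ∈ Ic, |k * g| * u i + a0 = a i := fun i hi => by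
    rw [← (hIc i hi).2.2.2.2.2.1]; exact Int.mul_ediv_add_emod _ _
  obtain ⟨Den, hDen⟩ := exists_den (chi F b) (k * g) a0 (by
    have h1 := sub_dvd_eval_sub (a i0) a0 (chi F b)
    rw [show a i0 - a0 = |k * g| * u i0 by rw [← hau i0 hi0]; ring, (hIc i0 hi0).2.2.1,
      hmul i0 hi0, ← mul_assoc] at h1
    have h2 := ((dvd_abs _ _).2 (dvd_refl (k * g))).mul_right (u i0) |>.trans h1
    simpa using (dvd_mul_right (k * g) ((m i0 / g : ℕ) : ℤ)).sub h2)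
  have hDv : ∀ i ∈ Ic, Den.eval (u i) = (m i / g : ℕ) := fun i hi => by
    have h1 := congrArg (eval (u i)) hDen
    rw [eval_mul, eval_C, eval_comp, eval_add, eval_mul, eval_C, eval_C, eval_X, hau i hi,
      (hIc i hi).2.2.1, hmul i hi, ← mul_assoc] at h1
    exact mul_left_cancel₀ hk' h1
  obtain ⟨q, σ, hqσ, hσG, hcop⟩ := hb.2 (k.natAbs * g * W)
    (Nat.mul_pos (Nat.mul_pos (Int.natAbs_pos.2 hk) hg0) hW) hkK
  rw [← hRdef] at hqσ
  have hq0 : 0 < q := Nat.pos_of_mul_pos_right (hqσ ▸ hR0)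
  have hσ0 : 0 < σ := Nat.pos_of_mul_pos_left (hqσ ▸ hR0)
  have : NeZero q := ⟨hq0.ne'⟩
  have c1 : Nat.Coprime q (σ * (g * W)) :=
    hcop.coprime_dvd_right ⟨(t0 F b).natAbs * k.natAbs, by ring⟩
  have c2 : IsUnit ((t0 F b : ℤ) : ZMod q) :=
    unit_of_coprime (hcop.coprime_dvd_right ⟨σ * (k.natAbs * g * W), by ring⟩)
  have c3 : IsUnit ((k * g : ℤ) : ZMod q) :=
    unit_of_coprime (hcop.coprime_dvd_right ⟨σ * (t0 F b).natAbs * W, by
      rw [Int.natAbs_mul, Int.natAbs_natCast]; ring⟩)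
  have c4 : IsUnit ((|k * g| : ℤ) : ZMod q) :=
    unit_of_coprime (hcop.coprime_dvd_right ⟨σ * (t0 F b).natAbs * W, by
      rw [Int.natAbs_abs, Int.natAbs_mul, Int.natAbs_natCast]; ring⟩)
  have c5 : IsUnit ((σ * (g * W) : ℕ) : ZMod q) := (ZMod.isUnit_iff_coprime _ _).2 c1.symm
  have cD : ∀ i ∈ Ic, Nat.Coprime (m i / g) (q * σ * (g * W)) ∧
      ∀ k < n + 1, ∀ j ∈ J k, Nat.Coprime (m i / g) (y j) := fun i hi => by
    have d1 : Nat.Coprime (m i / g) R.natAbs :=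
      (hIc i hi).2.2.2.1 ▸ Cub.coprime_div_gcd (hfam.hm i (hIc i hi).1).1
    have d2 : m i / g ∣ m i := Nat.div_dvd_of_dvd (hgm i hi)
    refine ⟨Nat.Coprime.mul_right (hqσ ▸ d1) (Nat.Coprime.mul_right (d1.coprime_dvd_right hgR)
      ((hfam.hm i (hIc i hi).1).2.1.coprime_dvd_left d2)), fun k hk j hj =>
      (hfam.hmy i (hIc i hi).1 k hk j hj).coprime_dvd_left d2⟩
  have cy : ∀ k < n + 1, ∀ j ∈ J k, Nat.Coprime (y j) (g * W) := fun k hk j hj =>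
    Nat.Coprime.mul_right
      ((hfam.hmy i0 (hIc i0 hi0).1 k hk j hj).coprime_dvd_left (hgm i0 hi0)).symm
      (hfam.hy k hk j hj).2.2
  have cgW : IsCoprime (g : ℤ) (W : ℤ) := Nat.isCoprime_iff_coprime.2
    ((hfam.hm i0 (hIc i0 hi0).1).2.1.coprime_dvd_left (hgm i0 hi0))
  have hxg : ∀ i ∈ Ic, ∀ j ∈ tup J (n + 1), (g : ℤ) ∣ x i j - ρ := fun i hi j hj => by
    have := ((Int.natCast_dvd_natCast.2 (hgm i hi)).trans (hfam.hx i (hIc i hi).1 j hj).1).add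
      (Int.ModEq.dvd (Int.mod_modEq (r i) g))
    rwa [sub_add_sub_cancel, (hIc i hi).2.2.2.2.1] at this
  have hxx : ∀ i ∈ Ic, ∀ j ∈ tup J (n + 1), ∀ i' ∈ Ic, ∀ j' ∈ tup J (n + 1),
      ((g * W : ℕ) : ℤ) ∣ x i j - x i' j' := fun i hi j hj i' hi' j' hj' => by
    push_cast
    refine cgW.mul_dvd ?_ ?_
    · simpa using (hxg i hi j hj).sub (hxg i' hi' j' hj')
    · simpa using (hfam.hx i (hIc i hi).1 j hj).2.1.sub (hfam.hx i' (hIc i' hi').1 j' hj').2.1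
  obtain ⟨c', hc'⟩ : ∃ c' : ℤ, ∀ j ∈ tup J (n + 1), ((g * W : ℕ) : ℤ) ∣ x i0 j - c' := by
    rcases (tup J (n + 1)).eq_empty_or_nonempty with he | ⟨j0, hj0⟩
    · exact ⟨0, by simp [he]⟩
    · exact ⟨x i0 j0, fun j hj => hxx i0 hi0 j hj i0 hi0 j0 hj0⟩
  obtain ⟨ε, hε1, hε2⟩ := exists_sgn hR1
  obtain ⟨Vp, hVp⟩ := single_pole hm hd b hR1
  set Uc : ℤ[X] := (uU F b).comp (C |k * g| * X + C a0) with hUc
  set μ : ZMod q := (t0 F b : ℤ) * ((|k * g| : ℤ) : ZMod q) with hμ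
  set s' : ZMod q := (t0 F b : ℤ) * (a0 : ZMod q) - (t1 F b : ℤ) with hs'
  have hpole : (C μ * X + C s') * Uc.map (Int.castRingHom (ZMod q)) =
      C (((t0 F b : ℤ) : ZMod q) ^ 2 * ((k * g : ℤ) : ZMod q)) *
        Den.map (Int.castRingHom (ZMod q)) := by
    have h1 := congrArg (fun P : ℤ[X] =>
      (P.comp (C |k * g| * X + C a0)).map (Int.castRingHom (ZMod q))) hVp
    have h2 : ((rR F b : ℤ) : ZMod q) = 0 := by
      rw [ZMod.intCast_zmod_eq_zero_iff_dvd, Int.natCast_dvd, ← hRdef, hqσ]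
      exact dvd_mul_right _ _
    simp only [mul_comp, add_comp, sub_comp, C_comp, X_comp, ← hDen, ← hUc, Polynomial.map_mul,
      Polynomial.map_add, Polynomial.map_sub, map_C, map_X, eq_intCast (Int.castRingHom _), h2,
      C_0, zero_mul, add_zero, Int.cast_pow] at h1
    rw [hμ, hs', C_mul, C_sub, C_mul, C_mul]
    linear_combination h1
  set U := Ic.image u with hU
  have hUA : ∀ v ∈ U, |v| ≤ A := by
    intro v hv
    obtain ⟨i, hi, rfl⟩ := mem_image.1 hv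
    exact (Int.abs_ediv_le_abs _ _).trans (hIc i hi).2.1
  have hω : ∀ v ∈ U, (μ * v + s') * (μ * v + s')⁻¹ = 1 := by
    intro v hv
    obtain ⟨i, hi, rfl⟩ := mem_image.1 hv
    refine ZMod.mul_inv_of_unit _ ?_
    have h1 := congrArg (eval ((u i : ℤ) : ZMod q)) hpole
    rw [eval_mul, eval_mul, eval_C, eval_intCast_map, eval_intCast_map, eval_add, eval_mul, eval_C,
      eval_C, eval_X] at h1
    refine isUnit_of_mul_isUnit_left (h1 ▸ ((c2.pow 2).mul c3).mul ?_)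
    refine unit_of_coprime (a := Den.eval (u i)) ?_
    rw [hDv i hi, Int.natAbs_natCast]
    exact ((cD i hi).1.coprime_dvd_right ⟨σ * (g * W), by ring⟩).symm
  have hD1 : 0 < Dm := by
    refine lt_of_lt_of_le (card_pos.2 ⟨i0, ?_⟩) (hfam.hI (m i0))
    exact mem_filter.2 ⟨(hIc i0 hi0).1, rfl⟩
  have hD2 : (0 : ℝ) < Dm := by exact_mod_cast hD1
  set w : ℤ → ℂ := fun v => (∑ i ∈ Ic.filter (fun i => u i = v), z i) / Dm with hw
  have hw1 : ∀ v ∈ U, ‖w v‖ ≤ 1 := by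
    intro v hv
    obtain ⟨i1, hi1, rfl⟩ := mem_image.1 hv
    rw [hw, norm_div, Complex.norm_natCast, div_le_one hD2]
    refine (norm_sum_le _ _).trans ((sum_le_card_nsmul _ _ 1 fun i hi =>
      hz i (hIc i (mem_filter.1 hi).1).1).trans ?_)
    rw [nsmul_eq_mul, mul_one, Nat.cast_le]
    refine le_trans (card_le_card fun i hi => ?_) (hfam.hI (m i1))
    obtain ⟨hi, e⟩ := mem_filter.1 hi
    refine mem_filter.2 ⟨(hIc i hi).1, ?_⟩
    have e1 := hDv i hi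
    rw [e, hDv i1 hi1] at e1
    have e2 := hmul i hi
    rw [← e1, ← hmul i1 hi1] at e2
    exact_mod_cast e2
  set lam : ZMod q := (h : ZMod q) * (-(ε : ZMod q) * (((t0 F b : ℤ) : ZMod q) ^ 2 *
    ((k * g : ℤ) : ZMod q)) * ((σ * (g * W) : ℕ) : ZMod q)⁻¹) with hlam
  have hinv := ZMod.mul_inv_of_unit _ c5
  have hεu : IsUnit (ε : ZMod q) := by
    refine IsUnit.of_mul_eq_one (ε : ZMod q) ?_
    rw [← Int.cast_mul, hε1, Int.cast_one]
  have main := iter_bound σ (g * W) A Dm (n + 1) Den U μ s' (fun v => (μ * v + s')⁻¹) J y s c'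
    Y0 Y1 T Λ η hσ0 (Nat.mul_pos hg0 hW) c1 hUA hω (by
      intro v hv
      obtain ⟨i, hi, rfl⟩ := mem_image.1 hv
      rw [hDv i hi]
      exact ⟨Nat.isCoprime_iff_coprime.2 (cD i hi).1,
        fun k hk j hj => Nat.isCoprime_iff_coprime.2 ((cD i hi).2 k hk j hj)⟩)
    (fun k hk j hj => ⟨(hfam.hy k hk j hj).1, (hfam.hy k hk j hj).2.1, cy k hk j hj⟩)
    hfam.hJ hfam.hyy hT hΛ hη n (Nat.lt_succ_self n) (C (-(h * ε)) * Uc) (C h) 1 lam
    ⟨isCoprime_one_left, fun _ _ _ _ => isCoprime_one_left⟩ (by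
      rw [Polynomial.map_mul, map_C, mul_left_comm, hpole, ← mul_assoc, ← C_mul]
      congr 2
      rw [hlam, eq_intCast, Int.cast_one, mul_one, Int.cast_neg, Int.cast_mul]
      linear_combination (-((h : ZMod q) * (-(ε : ZMod q) * (((t0 F b : ℤ) : ZMod q) ^ 2 *
        ((k * g : ℤ) : ZMod q))))) * hinv)
    (x i0) (fun j hj => ⟨hc' j hj, (hfam.hx i0 (hIc i0 hi0).1 j hj).2.2⟩) w hw1
  have hWm := hX q (σ * (g * W)) U μ s' (fun v => (μ * v + s')⁻¹) lam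
    (hb.1.trans (by rw [← hRdef, hqσ, mul_assoc]; gcongr))
    ((Nat.le_mul_of_pos_right _ hσ0).trans (hqσ ▸ hR)) (by gcongr) hUA (c2.mul c4) hω
    (le_ord_mul hh ((hεu.neg.mul ((c2.pow 2).mul c3)).mul
      (IsUnit.of_mul_eq_one _ ((mul_comm _ _).trans hinv))) hlam)
  have hP : 0 ≤ ∏ k ∈ range (n + 1), ((Dm : ℝ) * Y1 k) := prod_nonneg fun _ _ => by positivity
  refine le_trans (le_of_eq ?_) (mul_le_mul_of_nonneg_left (main.trans
    (mul_le_mul_of_nonneg_left hWm (by positivity))) hD2.le)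
  rw [mul_sum]
  refine sum_congr rfl fun j hj => ?_
  rw [← Complex.norm_natCast Dm, ← norm_mul, mul_sum,
    ← sum_fiberwise_of_maps_to (g := u) (t := U) fun i hi => mem_image_of_mem u hi]
  congr 1
  refine sum_congr rfl fun v _ => ?_
  have hD3 : (Dm : ℂ) ≠ 0 := by exact_mod_cast hD1.ne'
  rw [← mul_assoc (Dm : ℂ), show (Dm : ℂ) * w v = ∑ i ∈ Ic.filter (fun i => u i = v), z i from
    mul_div_cancel₀ _ hD3, sum_mul]
  refine sum_congr rfl fun i hi2 => ?_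
  obtain ⟨hi, rfl⟩ := mem_filter.1 hi2
  congr 1
  have hj' := mem_tup.1 hj
  have hY0 : 0 < ∏ k, y (j k) := prod_pos fun k _ =>
    (hT k k.2).1.trans_le (hfam.hy k k.2 _ (hj' k)).1
  obtain ⟨w0, hw0⟩ : ((m i / g : ℕ) : ℤ) ∣ R * x i j - (uU F b).eval (a i) := by
    refine (Int.natCast_dvd_natCast.2 (Nat.div_dvd_of_dvd (hgm i hi))).trans ?_
    have := (hIc i hi).2.2.2.2.2.2.add ((hfam.hx i (hIc i hi).1 j hj).1.mul_left R)
    rwa [show ∀ R u x r : ℤ, R * r - u + R * (x - r) = R * x - u by intros; ring] at this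
  have hm1 : ((m i / g : ℕ) : ℤ) ≠ 0 := by
    have := Nat.div_pos (Nat.le_of_dvd (hm0 i hi) (hgm i hi)) hg0
    omega
  have cQ : Nat.Coprime (m i / g) (q * σ * (g * W) * ∏ k, y (j k)) :=
    Nat.Coprime.mul_right (cD i hi).1 (Nat.Coprime.prod_right fun k _ =>
      (cD i hi).2 k k.2 _ (hj' k))
  rw [hw0, Int.mul_ediv_cancel_left _ hm1, one_mul, hDv i hi,
    ph_eq (w := h * ε * w0) (by positivity) (Nat.isCoprime_iff_coprime.2 cQ)]
  · congr 1
    have e1 : (R : ℝ) = ε * (q * σ) := by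
      have : R = ε * (q * σ : ℕ) := by
        rw [← hqσ, ← hε2, ← mul_assoc, hε1, one_mul]
      exact_mod_cast this
    have e2 : (ε : ℝ) * ε = 1 := by exact_mod_cast hε1
    have e3 : (ε : ℝ) ≠ 0 := fun h => by simp [h] at e2
    have e4 : ((∏ k, y (j k) : ℕ) : ℝ) ≠ 0 := by exact_mod_cast hY0.ne'
    rw [e1, Nat.cast_mul, Nat.cast_mul, Nat.cast_mul, Nat.cast_mul, Nat.cast_mul, Nat.cast_mul,
      Int.cast_mul, Int.cast_mul, Int.cast_mul]
    have : (0 : ℝ) < g := by exact_mod_cast hg0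
    have : (0 : ℝ) < W := by exact_mod_cast hW
    have : (0 : ℝ) < q := by exact_mod_cast hq0
    have : (0 : ℝ) < σ := by exact_mod_cast hσ0
    rw [div_eq_div_iff (by positivity) (by positivity)]
    linear_combination (-(h : ℝ) * w0 * g * W * q * σ * (∏ k, y (j k) : ℕ)) * e2
  · have d1 := prod_mod_dvd (y := fun k => y (j k)) (hxx i0 hi0 j hj i hi j hj) (fun k => by
      simpa using ((hfam.hx i0 (hIc i0 hi0).1 j hj).2.2 k).sub
        ((hfam.hx i (hIc i hi).1 j hj).2.2 k)) (fun k => cy k k.2 _ (hj' k))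
      fun k k' hk => hfam.hyy k k.2 k' k'.2 (fun e => hk (Fin.ext e)) _ (hj' k) _ (hj' k')
    have d2 := (mul_dvd_mul_left ((q * σ : ℕ) : ℤ) d1).mul_right h
    rw [← Nat.cast_mul, ← mul_assoc] at d2
    refine d2.trans (dvd_of_eq (Eq.symm ?_))
    rw [eval_mul, eval_C, eval_C, hUc, eval_comp, eval_add, eval_mul, eval_C, eval_C, eval_X,
      hau i hi, ← hqσ, ← hε2]
    linear_combination (h * ε) * hw0

end Pool.Agent.Work.MP_51e72e_nt.Deg
end

-- merged part: Pool.Agent.Work.MP_51e72e_nt.DegType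
section
/-!
The multilinear exponential sum over roots of a polynomial congruence.
-/

set_option autoImplicit false

namespace Pool.Agent.Work.MP_51e72e_nt.Deg

open Finset Polynomial Pool.Agent.Lib.LargeSieve

open Classical in
theorem typeN {ι κ : Type} {F : ℤ[X]} {e : ℕ} (hF : Irreducible F) (hm : F.Monic)
    (hd : F.natDegree = e + 2) (n A W M0 Dm K E Kk V K' G G2 : ℕ) (Y0 Y1 T : ℕ → ℕ) (Λ Xb : ℝ)
    (η : ℕ → ℝ) (I : Finset ι) (J : ℕ → Finset κ) (m : ι → ℕ) (r : ι → ℤ) (y : κ → ℕ) (s : κ → ℤ)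
    (c : ℤ) (x : ι → (Fin (n + 1) → κ) → ℤ) (h : ℤ) (hA : 0 < A) (hW : 0 < W) (hM0 : 0 < M0)
    (hfam : Fam F (n + 1) W M0 (A ^ (e + 2)) Dm Y0 Y1 I J m r y s c x)
    (hK : ∀ a : ℤ, |a| ≤ A → ∀ b ∈ box e A, |(chi F b).eval a| ≤ K * A ^ (e + 2) ∧
      |(uU F b).eval a| ≤ K * A ^ E ∧ |rR F b| ≤ K * A ^ E)
    (hKk : K * A ^ (e + 2) ≤ Kk * M0) (hK' : Kk * G * W ≤ K')
    (hT : ∀ k < n + 1, 0 < Y0 k ∧ 2 * A ≤ Y0 k * T k)
    (hΛ : ∀ k < n + 1, 2 + Real.log (2 * A + Y1 k + 1) ≤ Λ)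
    (hη : ∀ k < n + 1, (Y1 k : ℝ) / (2 * A + 1) ≤ η k) (hX0 : 0 ≤ Xb)
    (hX : ∀ (q : ℕ) [NeZero q] (σ : ℕ) (U : Finset ℤ) (μ s' : ZMod q) (ω : ℤ → ZMod q)
      (lam : ZMod q), A ≤ q * (G2 * V) → q ≤ K * A ^ E → σ ≤ G2 * (G * W) → (∀ u ∈ U, |u| ≤ A) →
      IsUnit μ → (∀ u ∈ U, (μ * u + s') * ω u = 1) → q ≤ addOrderOf lam * h.natAbs →
      Wm μ Λ (η n) (T n) (Vm (fun z => (σ : ℝ) * V0 U (2 * A + 1) ω z)
        (avg U (2 * A + 1) ω) μ Λ η T n) lam ≤ Xb)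
    (hh : h ≠ 0) (z : ι → ℂ) (hz : ∀ i ∈ I, ‖z i‖ ≤ 1) :
    ∑ j ∈ tup J (n + 1), ‖∑ i ∈ I, z i *
        ee ((h : ℝ) * x i j / (m i * (W * ∏ k, y (j k) : ℕ)))‖
      ≤ (Dm * (2 * Kk + 1) *
            (((box e A).filter fun b => ¬ GoodB F A V K' G2 b).card * (2 * A + 1)
            + ((Icc (-(A : ℤ)) A ×ˢ box e A).filter fun z =>
              rR F z.2 ≠ 0 ∧ G < Int.gcd (rR F z.2) ((chi F z.2).eval z.1)).card)
          + I.card * (7 * (|(h : ℝ)| * (K * (A : ℝ) ^ E)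
            / (M0 * ∏ k ∈ range (n + 1), (Y0 k : ℝ))))) * ∏ k ∈ range (n + 1), ((Dm : ℝ) * Y1 k)
        + (2 * A + 1) ^ (e + 1) * ((2 * Kk + 1) * (G : ℝ) ^ 2 * (Kk * G)) *
          (Dm * ((2 * A + 1) * (∏ k ∈ range (n + 1), ((Dm : ℝ) * Y1 k)) * Xb)) := by
  choose! a b ha hb hc0 hc1 hU using fun i (hi : i ∈ I) =>
    exists_alpha hF hm hd (m i) (hM0.trans_le (hfam.hm i hi).2.2.1) (r i) (hfam.hm i hi).2.2.2.2
      A (hfam.hm i hi).2.2.2.1
  choose! k hk using fun i (hi : i ∈ I) => exists_eq_mul_left_of_dvd (hc1 i hi)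
  have hm0 : ∀ i ∈ I, 0 < m i := fun i hi => hM0.trans_le (hfam.hm i hi).2.2.1
  have hk0 : ∀ i ∈ I, k i ≠ 0 := fun i hi e => hc0 i hi (by rw [hk i hi, e, zero_mul])
  have hk1 : ∀ i ∈ I, (k i).natAbs ≤ Kk := fun i hi => by
    have h1 := (hK _ (ha i hi) _ (hb i hi)).1
    rw [hk i hi, ← Int.natCast_natAbs, Int.natAbs_mul, Int.natAbs_natCast] at h1
    have h2 : (k i).natAbs * m i ≤ K * A ^ (e + 2) := by exact_mod_cast h1
    exact Nat.le_of_mul_le_mul_right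
      ((Nat.mul_le_mul_left _ (hfam.hm i hi).2.2.1).trans (h2.trans hKk)) hM0
  set g : ι → ℕ := fun i => Nat.gcd (m i) (rR F (b i)).natAbs with hg
  set bad : ℤ × (Fin (e + 1) → ℤ) → Prop := fun z => ¬ GoodB F A V K' G2 z.2 ∨
    (rR F z.2 ≠ 0 ∧ G < Int.gcd (rR F z.2) ((chi F z.2).eval z.1)) with hbad
  have hgm : ∀ i, g i ∣ m i := fun i => Nat.gcd_dvd_left _ _
  have hg0 : ∀ i ∈ I, 0 < g i := fun i hi => Nat.gcd_pos_of_pos_left _ (hm0 i hi)
  have hgood : ∀ i ∈ I, ¬ bad (a i, b i) → GoodB F A V K' G2 (b i) ∧ rR F (b i) ≠ 0 ∧ g i ≤ G := by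
    intro i hi hb
    simp only [hbad, not_or, not_not, not_and, not_lt] at hb
    have R0 : rR F (b i) ≠ 0 := Int.natAbs_pos.1 (Nat.pos_of_mul_pos_right (hA.trans_le hb.1.1))
    refine ⟨hb.1, R0, le_trans (Nat.le_of_dvd (Int.gcd_pos_of_ne_zero_left _ R0) ?_) (hb.2 R0)⟩
    exact Nat.dvd_gcd (Nat.gcd_dvd_right _ _) ((hgm i).trans (Int.natCast_dvd.1 (hc1 i hi)))
  set P : ℝ := ∏ k ∈ range (n + 1), ((Dm : ℝ) * Y1 k) with hP
  have hP0 : 0 ≤ P := prod_nonneg fun _ _ => by positivity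
  have hcard : ((tup J (n + 1)).card : ℝ) ≤ P := card_tup_le J (n + 1) Dm y Y1
    (fun k hk j hj => ⟨(hT k hk).1.trans_le (hfam.hy k hk j hj).1, (hfam.hy k hk j hj).2.1⟩) hfam.hJ
  set E0 : ι → (Fin (n + 1) → κ) → ℂ := fun i j =>
    ee ((h : ℝ) * x i j / (m i * (W * ∏ k, y (j k) : ℕ))) with hE0
  set E1 : ι → (Fin (n + 1) → κ) → ℂ := fun i j =>
    ee (((h * ((rR F (b i) * x i j - (uU F (b i)).eval (a i)) / (m i / g i : ℕ)) : ℤ) : ℝ)
      / ((g i * (W * ∏ k, y (j k)) : ℕ) * ((rR F (b i) : ℤ) : ℝ))) with hE1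
  set Ib := I.filter (fun i => bad (a i, b i)) with hIb
  set Ig := I.filter (fun i => ¬ bad (a i, b i)) with hIg
  set δ : ℝ := 7 * (|(h : ℝ)| * (K * (A : ℝ) ^ E)
    / (M0 * ∏ k ∈ range (n + 1), (Y0 k : ℝ))) with hδ
  have hY0 : 0 < ∏ k ∈ range (n + 1), (Y0 k : ℝ) := prod_pos fun k hk => by
    exact_mod_cast (hT k (mem_range.1 hk)).1
  have M0' : (0 : ℝ) < M0 := by exact_mod_cast hM0
  have hδ0 : 0 ≤ δ := by positivity
  have d1 : ∀ i ∈ Ig, ∀ j ∈ tup J (n + 1), ‖z i * E0 i j - z i * E1 i j‖ ≤ δ := by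
    intro i hi j hj
    rw [hIg, mem_filter] at hi
    obtain ⟨-, R0, -⟩ := hgood i hi.1 hi.2
    obtain ⟨w, hw⟩ : ((m i / g i : ℕ) : ℤ) ∣ rR F (b i) * x i j - (uU F (b i)).eval (a i) := by
      refine (Int.natCast_dvd_natCast.2 (Nat.div_dvd_of_dvd (hgm i))).trans ?_
      have := (hU i hi.1).add ((hfam.hx i hi.1 j hj).1.mul_left (rR F (b i)))
      rwa [show ∀ R u x r : ℤ, R * r - u + R * (x - r) = R * x - u by intros; ring] at this
    obtain ⟨m', hm'⟩ := hgm i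
    have g0 := hg0 i hi.1
    have e0 : m i / g i = m' := by rw [hm', Nat.mul_div_cancel_left _ g0]
    have m0 : 0 < m' := Nat.pos_of_mul_pos_left (hm' ▸ hm0 i hi.1)
    have R1 : ((rR F (b i) : ℤ) : ℝ) ≠ 0 := by exact_mod_cast R0
    have y0 : ∏ k ∈ range (n + 1), (Y0 k : ℝ) ≤ (W * ∏ k, y (j k) : ℕ) := by
      rw [← Fin.prod_univ_eq_prod_range (fun k => (Y0 k : ℝ)), ← Nat.cast_prod, Nat.cast_le]
      exact (prod_le_prod' fun (k : Fin (n + 1)) _ => (hfam.hy k k.2 _ (mem_tup.1 hj k)).1).trans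
        (Nat.le_mul_of_pos_left _ hW)
    have y1 : (0 : ℝ) < (W * ∏ k, y (j k) : ℕ) := hY0.trans_le y0
    have g1 : (0 : ℝ) < g i := by exact_mod_cast g0
    have m1 : (0 : ℝ) < m' := by exact_mod_cast m0
    rw [e0] at hw
    have e1 : (h : ℝ) * x i j / (m i * (W * ∏ k, y (j k) : ℕ)) =
        ((h * w : ℤ) : ℝ) / ((g i * (W * ∏ k, y (j k)) : ℕ) * ((rR F (b i) : ℤ) : ℝ))
          + h * (((uU F (b i)).eval (a i) : ℤ) : ℝ) /
            (m i * (W * ∏ k, y (j k) : ℕ) * ((rR F (b i) : ℤ) : ℝ)) := by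
      have hw' : (((uU F (b i)).eval (a i) : ℤ) : ℝ) =
          ((rR F (b i) : ℤ) : ℝ) * x i j - m' * w := by
        have : (uU F (b i)).eval (a i) = rR F (b i) * x i j - m' * w := by
          linear_combination -hw
        exact_mod_cast this
      rw [hw', Nat.cast_mul (g i), Int.cast_mul]
      generalize ((W * ∏ k, y (j k) : ℕ) : ℝ) = Y at y1
      rw [show (m i : ℝ) = g i * m' by exact_mod_cast hm']
      field_simp
      ring
    have e2 : E1 i j = ee (((h * w : ℤ) : ℝ) /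
        ((g i * (W * ∏ k, y (j k)) : ℕ) * ((rR F (b i) : ℤ) : ℝ))) := by
      simp only [hE1]
      rw [e0, hw, Int.mul_ediv_cancel_left _ (by omega)]
    simp only [hE0]
    rw [e1, ee_add, ← e2, ← mul_sub, ← mul_sub_one, norm_mul, norm_mul, e2, norm_ee, one_mul]
    refine (mul_le_of_le_one_left (norm_nonneg _) (hz i hi.1)).trans
      ((Cub.norm_ee_sub_one_le _).trans (mul_le_mul_of_nonneg_left ?_ (by norm_num)))
    have u1 : |(((uU F (b i)).eval (a i) : ℤ) : ℝ)| ≤ K * (A : ℝ) ^ E := by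
      exact_mod_cast (hK _ (ha i hi.1) _ (hb i hi.1)).2.1
    have u2 : 1 ≤ |((rR F (b i) : ℤ) : ℝ)| := by exact_mod_cast Int.one_le_abs R0
    have u4 : (M0 : ℝ) ≤ m i := by exact_mod_cast (hfam.hm i hi.1).2.2.1
    rw [abs_div, abs_mul, abs_mul, abs_mul, Nat.abs_cast, Nat.abs_cast,
      ← mul_one ((M0 : ℝ) * _)]
    gcongr
  have d2 : (Ib.card : ℝ) ≤ Dm * (2 * Kk + 1) *
      (((box e A).filter fun b => ¬ GoodB F A V K' G2 b).card * (2 * A + 1)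
        + ((Icc (-(A : ℤ)) A ×ˢ box e A).filter fun z =>
          rR F z.2 ≠ 0 ∧ G < Int.gcd (rR F z.2) ((chi F z.2).eval z.1)).card) := by
    have c2 := card_le_mul_card_image_of_maps_to (s := Ib)
      (t := ((Icc (-(A : ℤ)) A ×ˢ ((box e A).filter fun b => ¬ GoodB F A V K' G2 b)) ∪
        ((Icc (-(A : ℤ)) A ×ˢ box e A).filter fun z =>
          rR F z.2 ≠ 0 ∧ G < Int.gcd (rR F z.2) ((chi F z.2).eval z.1))) ×ˢ Icc (-(Kk : ℤ)) Kk)
      (f := fun i => ((a i, b i), k i)) (fun i hi => ?_) Dm fun t _ => ?_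
    · rw [card_product] at c2
      have c3 := c2.trans (Nat.mul_le_mul_left _ (Nat.mul_le_mul_right _ (card_union_le _ _)))
      rw [card_product, Int.card_Icc, Int.card_Icc,
        show ((A : ℤ) + 1 - -(A : ℤ)).toNat = 2 * A + 1 by omega,
        show ((Kk : ℤ) + 1 - -(Kk : ℤ)).toNat = 2 * Kk + 1 by omega] at c3
      refine ((Nat.cast_le (α := ℝ)).2 c3).trans (le_of_eq ?_)
      push_cast
      ring
    · obtain ⟨hi, hi'⟩ := mem_filter.1 hi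
      have := hk1 i hi
      refine mem_product.2 ⟨mem_union.2 (hi'.imp (fun h => ?_) fun h => ?_), mem_Icc.2 (by
        show -(Kk : ℤ) ≤ k i ∧ k i ≤ Kk
        omega)⟩
      · exact mem_product.2 ⟨mem_Icc.2 (abs_le.1 (ha i hi)), mem_filter.2 ⟨hb i hi, h⟩⟩
      · exact mem_filter.2 ⟨mem_product.2 ⟨mem_Icc.2 (abs_le.1 (ha i hi)), hb i hi⟩, h⟩
    · refine le_trans (card_le_card fun i hi => ?_)
        (hfam.hI ((chi F t.1.2).eval t.1.1 / t.2).toNat)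
      obtain ⟨hi2, rfl⟩ := mem_filter.1 hi
      have hi' := (mem_filter.1 hi2).1
      refine mem_filter.2 ⟨hi', ?_⟩
      show m i = ((chi F (b i)).eval (a i) / k i).toNat
      rw [hk i hi', Int.mul_ediv_cancel_left _ (hk0 i hi'), Int.toNat_natCast]
  set S := box e A ×ˢ Icc (-(Kk : ℤ)) Kk ×ˢ Icc 1 G ×ˢ Ico (0 : ℤ) G ×ˢ Ico (0 : ℤ) (Kk * G : ℕ)
    with hS
  set cl : ι → (Fin (e + 1) → ℤ) × ℤ × ℕ × ℤ × ℤ :=
    fun i => (b i, k i, g i, r i % g i, a i % |k i * g i|) with hcl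
  have hmap : ∀ i ∈ Ig, cl i ∈ S := by
    intro i hi
    rw [hIg, mem_filter] at hi
    have g0 := hg0 i hi.1
    have g1 := (hgood i hi.1 hi.2).2.2
    have g2 := Int.emod_lt_of_pos (r i) (show (0 : ℤ) < g i by omega)
    have g3 := hk1 i hi.1
    have g4 : 0 < |k i * g i| := abs_pos.2 (mul_ne_zero (hk0 i hi.1) (by omega))
    have g5 := Int.emod_lt_of_pos (a i) g4
    have g6 : |k i * g i| ≤ (Kk * G : ℕ) := by
      rw [← Int.natCast_natAbs, Int.natAbs_mul, Int.natAbs_natCast, Nat.cast_le]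
      exact Nat.mul_le_mul g3 g1
    simp only [hS, hcl, mem_product, mem_Icc, mem_Ico]
    exact ⟨hb i hi.1, by omega, ⟨g0, g1⟩, ⟨Int.emod_nonneg _ (by omega), by omega⟩,
      Int.emod_nonneg _ g4.ne', g5.trans_le g6⟩
  have d3 : ∀ t ∈ S, ∑ j ∈ tup J (n + 1), ‖∑ i ∈ Ig.filter (fun i => cl i = t), z i * E1 i j‖ ≤
      Dm * ((2 * A + 1) * P * Xb) := by
    rintro ⟨b0, k0, g0, ρ, a0⟩ -
    set Ic := Ig.filter (fun i => cl i = (b0, k0, g0, ρ, a0)) with hIc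
    rcases Ic.eq_empty_or_nonempty with he | ⟨i0, hi0⟩
    · rw [he]
      simp only [sum_empty, norm_zero, sum_const_zero]
      positivity
    have hmem : ∀ i ∈ Ic, i ∈ I ∧ ¬ bad (a i, b i) ∧ b i = b0 ∧ k i = k0 ∧
        g i = g0 ∧ r i % g i = ρ ∧ a i % |k i * g i| = a0 := fun i hi => by
      simpa only [hIc, hIg, hcl, mem_filter, Prod.mk.injEq, and_assoc] using hi
    obtain ⟨p1, p2, p3, p4, p5, -⟩ := hmem i0 hi0
    obtain ⟨q1, -, q3⟩ := hgood i0 p1 p2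
    have q4 := (hK _ (ha i0 p1) _ (hb i0 p1)).2.2
    have q5 := hk1 i0 p1
    have q6 := hk0 i0 p1
    rw [p3] at q1 q4
    rw [p4] at q5 q6
    rw [p5] at q3
    refine le_trans (le_of_eq ?_) (class_bd hm hd n A W M0 _ Dm (K * A ^ E) V K' G G2 Y0 Y1 T Λ Xb
      η I J m r y s c x h hA hW hM0 hfam hT hΛ hη hX0 hX hh z hz b0 k0 g0 ρ a0 Ic a q6 q1
      (le_trans (by gcongr) hK') q3 (by rw [← Int.natCast_natAbs] at q4; exact_mod_cast q4)
      fun i hi => ?_)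
    · refine sum_congr rfl fun j _ => congrArg _ (sum_congr rfl fun i hi => ?_)
      obtain ⟨-, -, s3, -, s5, -⟩ := hmem i hi
      simp only [hE1, s3, s5]
    · obtain ⟨s1, -, s3, s4, s5, s6, s7⟩ := hmem i hi
      rw [← s3, ← s4, ← s5]
      exact ⟨s1, ha i s1, hk i s1, rfl, s6, s7, hU i s1⟩
  have d4 : ∀ j ∈ tup J (n + 1), ‖∑ i ∈ I, z i * E0 i j‖ ≤ (Ib.card + I.card * δ) +
      ∑ t ∈ S, ‖∑ i ∈ Ig.filter (fun i => cl i = t), z i * E1 i j‖ := by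
    intro j hj
    rw [← sum_filter_add_sum_filter_not I (fun i => bad (a i, b i)), add_assoc]
    refine (norm_add_le _ _).trans (add_le_add ?_ ?_)
    · refine (norm_sum_le _ _).trans ((sum_le_card_nsmul _ _ 1 fun i hi => ?_).trans (by simp [hIb]))
      simp only [hE0]
      rw [norm_mul, norm_ee, mul_one]
      exact hz i (mem_filter.1 hi).1
    · refine (norm_le_norm_sub_add _ (∑ i ∈ Ig, z i * E1 i j)).trans (add_le_add ?_ ?_)
      · rw [← sum_sub_distrib]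
        refine (norm_sum_le _ _).trans ((sum_le_card_nsmul _ _ δ fun i hi => d1 i hi j hj).trans ?_)
        rw [nsmul_eq_mul]
        refine mul_le_mul_of_nonneg_right ?_ hδ0
        exact_mod_cast card_filter_le _ _
      · rw [← sum_fiberwise_of_maps_to hmap]
        exact norm_sum_le _ _
  refine (sum_le_sum d4).trans ?_
  rw [sum_add_distrib, sum_comm, sum_const, nsmul_eq_mul]
  refine add_le_add ?_ ((sum_le_card_nsmul _ _ _ d3).trans (le_of_eq ?_))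
  · rw [mul_comm]
    gcongr
  · simp only [hS, box, card_product, Fintype.card_piFinset, Int.card_Icc, Nat.card_Icc,
      Int.card_Ico, nsmul_eq_mul, prod_const, card_univ, Fintype.card_fin]
    rw [show ((A : ℤ) + 1 - -(A : ℤ)).toNat = 2 * A + 1 by omega,
      show ((Kk : ℤ) + 1 - -(Kk : ℤ)).toNat = 2 * Kk + 1 by omega]
    simp only [Nat.add_sub_cancel, sub_zero, Int.toNat_natCast]
    push_cast
    ring

end Pool.Agent.Work.MP_51e72e_nt.Deg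
end
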