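import Pool.Agent.Work.MP_51e72e_nt.DegLevel1
import Pool.Agent.Work.MP_51e72e_nt.DegType
import Pool.Agent.Work.MP_51e72e_nt.DegExc

/-!
The multilinear exponential sum when all parameters are powers of one number.
-/

set_option autoImplicit false

namespace Pool.Agent.Work.MP_51e72e_nt.Deg

open Finset Polynomial Filter Pool.Agent.Lib.LargeSieve Pool.Agent.Work.MP_51e72e_nt.Cub

lemma prod_pow_succ (B : ℝ) (ex : ℕ → ℕ) (ν : ℕ) :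
    ∏ k ∈ range ν, (B * B ^ (ex k + 1)) = B ^ (∑ k ∈ range ν, ex k + 2 * ν) := by
  induction ν with
  | zero => simp
  | succ ν ih => rw [prod_range_succ, sum_range_succ, ih]; ring

lemma term1 {B X b1 b2 : ℝ} {s s1 : ℕ} (hB : 12 ≤ B) (A : ℝ) (hA : 1 ≤ A) (hX : 0 ≤ X)
    (hs : s ≤ s1) (h1 : b1 * B ^ s1 ≤ X) (h2 : b2 * B ^ s ≤ X * A) (p1 : 0 ≤ b1) (p2 : 0 ≤ b2) :
    B * (2 * B ^ 2 + 1) * (b1 * (2 * A + 1) + b2) * B ^ s ≤ B ^ 4 * (X * A) := by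
  have B1 : 1 ≤ B := by linarith only [hB]
  have c1 : b1 * B ^ s ≤ X := (mul_le_mul_of_nonneg_left (pow_le_pow_right₀ B1 hs) p1).trans h1
  have c2 : (b1 * (2 * A + 1) + b2) * B ^ s ≤ 4 * (X * A) := by
    have := mul_le_mul c1 (show 2 * A + 1 ≤ 3 * A by linarith only [hA]) (by linarith only [hA]) hX
    linarith only [h2, this]
  have c3 : 2 * B ^ 2 + 1 ≤ 3 * B ^ 2 := by linarith only [hB, mul_nonneg_of_nonpos_of_nonpos (Mathlib.Tactic.Linarith.sub_nonpos_of_le hB) (Mathlib.Tactic.Linarith.sub_nonpos_of_le hB)]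
  have c4 : 0 ≤ X * A := by positivity
  calc _ = B * (2 * B ^ 2 + 1) * ((b1 * (2 * A + 1) + b2) * B ^ s) := by ring
    _ ≤ B * (3 * B ^ 2) * (4 * (X * A)) := by gcongr
    _ = 12 * (B ^ 3 * (X * A)) := by ring
    _ ≤ B * (B ^ 3 * (X * A)) := by gcongr
    _ = _ := by ring

theorem expsum (e : ℕ) : ∃ (ν e0 : ℕ) (ex : ℕ → ℕ), 8 * ν + 18 ≤ e0 ∧ 1 ≤ ν ∧ (∀ k, 1 ≤ ex k) ∧
    ∀ F : ℤ[X], Irreducible F →
    F.Monic → F.natDegree = e + 2 → ∀ᶠ B : ℕ in atTop, ∀ (ι κ : Type) (W : ℕ) (I : Finset ι)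
      (J : ℕ → Finset κ) (m : ι → ℕ) (r : ι → ℤ) (y : κ → ℕ) (s : κ → ℤ) (c : ℤ)
      (x : ι → (Fin ν → κ) → ℤ), 0 < W → W ≤ B →
      Fam F ν W (B ^ e0) (B ^ (e0 + 1)) B (fun k => B ^ ex k) (fun k => B ^ (ex k + 1))
        I J m r y s c x → ∀ h : ℤ, h ≠ 0 → h.natAbs ≤ B ^ (3 * ν + 7) →
      ∀ z : ι → ℂ, (∀ i ∈ I, ‖z i‖ ≤ 1) →
      (∑ j ∈ tup J ν, ‖∑ i ∈ I, z i * ee ((h : ℝ) * x i j / (m i * (W * ∏ k, y (j k) : ℕ)))‖)
        * (B : ℝ) ^ (3 * ν + 9) ≤ (B : ℝ) ^ (e0 + ∑ k ∈ range ν, ex k) := by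
  classical
  obtain ⟨c, c2, hc⟩ := card_exc e
  obtain ⟨E, hE⟩ : ∃ E, E = 2 * (e + 2) ^ 2 := ⟨_, rfl⟩
  obtain ⟨n0, hn0⟩ : ∃ n0, n0 = 400 * (E + 1) * (E + 1) := ⟨_, rfl⟩
  obtain ⟨s, hs⟩ : ∃ s, s = 5 * n0 + 25 := ⟨_, rfl⟩
  obtain ⟨s1, hs1⟩ : ∃ s1, s1 = c * s + 3 := ⟨_, rfl⟩
  obtain ⟨P, hP⟩ : ∃ P, P = 5 * n0 + 28 + 3 * (c * s) := ⟨_, rfl⟩
  obtain ⟨g, hg⟩ : ∃ g, g = c * s1 + 2 * s1 + c * s + 1 := ⟨_, rfl⟩
  obtain ⟨τ, hτ⟩ : ∃ τ, τ = 2 * (5 ^ (n0 + 1) * P) + 3 := ⟨_, rfl⟩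
  obtain ⟨u, hu1, hu2, hu3⟩ : ∃ u, (2 * (5 ^ (n0 + 2) * P) + 2 * g + 1) * 2 ^ (n0 + 2) + 1 ≤ u ∧
      (n0 + 2) * τ + g + (3 * (n0 + 2) + 7) ≤ u ∧ 8 * (n0 + 2) + 19 ≤ u :=
    ⟨_, le_max_left _ _, (le_max_left _ _).trans (le_max_right _ _),
      (le_max_right _ _).trans (le_max_right _ _)⟩
  obtain ⟨a, ha⟩ : ∃ a, a = 400 * (E + 1) * u := ⟨_, rfl⟩
  have a1 : 400 * u ≤ a := by rw [ha]; linarith only [mul_nonneg_of_nonpos_of_nonpos (Mathlib.Tactic.Linarith.sub_nonpos_of_le (Mathlib.Tactic.Linarith.natCast_nonneg ℤ E)) (Mathlib.Tactic.Linarith.sub_nonpos_of_le (Mathlib.Tactic.Linarith.natCast_nonneg ℤ u))]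
  have τu : τ ≤ u := le_trans (by nlinarith only [c2, hn0, hs1, hg, hs]) hu2
  have hk : ∀ k, 2 * (5 ^ (n0 + 1 - k) * P) + 3 ≤ τ := fun k => by
    have : 5 ^ (n0 + 1 - k) * P ≤ 5 ^ (n0 + 1) * P :=
      Nat.mul_le_mul_right _ (Nat.pow_le_pow_right (by norm_num) (Nat.sub_le _ _))
    omega
  obtain ⟨ex, hex⟩ : ∃ ex : ℕ → ℕ, ∀ k, ex k + (2 * (5 ^ (n0 + 1 - k) * P) + 2) = a :=
    ⟨fun k => a - (2 * (5 ^ (n0 + 1 - k) * P) + 2), fun k => by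
      have := hk k; exact Nat.sub_add_cancel (by omega)⟩
  obtain ⟨e0, he0⟩ : ∃ e0, e0 + 1 = a * (e + 2) := ⟨a * (e + 2) - 1, by
    have : 1 ≤ a * (e + 2) := Nat.mul_pos (by omega) (by omega)
    omega⟩
  have hS : a * E + 8 * (n0 + 2) + 21 ≤ e0 + ∑ k ∈ range (n0 + 2), ex k := by
    have h1 : (n0 + 2) * a ≤ ∑ k ∈ range (n0 + 2), 2 * ex k := by
      have := card_nsmul_le_sum (range (n0 + 2)) (fun k => 2 * ex k) a fun k _ => by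
        have := hex k; have := hk k; omega
      simpa using this
    rw [← mul_sum] at h1
    have h2 : 4 * E ≤ n0 := by rw [hn0]; linarith only [hn0, mul_nonneg_of_nonpos_of_nonpos (Mathlib.Tactic.Linarith.sub_nonpos_of_le (Mathlib.Tactic.Linarith.natCast_nonneg ℤ E)) (Mathlib.Tactic.Linarith.sub_nonpos_of_le (Mathlib.Tactic.Linarith.natCast_nonneg ℤ E))]
    have h3 : 4 * (a * E) ≤ (n0 + 2) * a := by nlinarith only [c2, hn0, hs1, hg, hu2, ha, a1, hs, hu3]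
    have h4 : (n0 + 2) * 400 ≤ (n0 + 2) * a := Nat.mul_le_mul_left _ (by omega)
    omega
  refine ⟨n0 + 2, e0, ex, by nlinarith only [c2, hn0, hs1, hg, hu2, a1, he0, hs], by omega, fun k => by have := hex k; have := hk k; omega,
    fun F hF hm hd => ?_⟩
  obtain ⟨K, hK⟩ := size_bound hm e
  filter_upwards [wm_pow E n0 u P a g (3 * (n0 + 2) + 7) ha hn0 (by omega) hu1 (hτ ▸ hu2),
    hc F hF hm hd a, ev_log (a + 1), eventually_ge_atTop K, eventually_ge_atTop (3 ^ (e + 2)),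
    eventually_ge_atTop 12]
    with B hW hC hL hKB h3 hB ι κ W I J m r y s' c' x W0 W1 hfam h h0 hh z hz
  have B0 : 0 < B := by omega
  have b0 : (12 : ℝ) ≤ B := by exact_mod_cast hB
  have b1 : (0 : ℝ) < B := by linarith only [b0]
  have hp : ∀ {x y : ℕ}, x ≤ y → B ^ x ≤ B ^ y := fun h => Nat.pow_le_pow_right B0 h
  have hp' : ∀ {x y : ℕ}, x ≤ y → (B : ℝ) ^ x ≤ (B : ℝ) ^ y := fun h =>
    pow_le_pow_right₀ (by linarith only [b0]) h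
  have A1 : 1 ≤ B ^ a := Nat.one_le_pow _ _ B0
  have A1' : (1 : ℝ) ≤ (B : ℝ) ^ a := by exact_mod_cast A1
  have eA : B ^ (e0 + 1) = (B ^ a) ^ (e + 2) := by rw [he0, pow_mul]
  have cs : c * s1 ≤ a := by omega
  have cs' : c * s ≤ a := by omega
  have cI : (I.card : ℝ) ≤ B * (B : ℝ) ^ (e0 + 1) := by
    have := card_le_mult_nat I m (B ^ (e0 + 1)) B (fun i hi =>
      ⟨(pow_pos B0 _).trans_le (hfam.hm i hi).2.2.1, (hfam.hm i hi).2.2.2.1⟩) hfam.hI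
    rwa [Nat.cast_pow] at this
  rw [eA] at hfam
  have main := typeN hF hm hd (n0 + 1) (B ^ a) W (B ^ e0) B K E (B ^ 2) (B ^ (2 * s1)) (B ^ s1)
    (B ^ (c * s)) (B ^ (c * s1)) _ _ (fun k => B ^ (2 * (5 ^ (n0 + 1 - k) * P) + 3)) B
    (1 / (B : ℝ) ^ P) (fun k => 1 / (B : ℝ) ^ (2 * (5 ^ (n0 + 1 - k) * P) + 1)) I J m r y s' c' x h
    A1 W0 (pow_pos B0 _) hfam (hE ▸ hK _ A1) ?_ ?_ (fun k _ => ⟨pow_pos B0 _, ?_⟩) (fun k _ => ?_)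
    (fun k _ => ?_) (by positivity)
    (fun q _ σ U μ s2 ω lam q1 q2 q3 q4 q5 q6 q7 => hW q σ U μ s2 ω lam h.natAbs ?_ ?_ ?_ q4 q5 q6
      hh q7) h0 z hz
  rotate_left
  · rw [← eA]
    calc _ ≤ B * B ^ (e0 + 1) := Nat.mul_le_mul_right _ hKB
      _ = _ := by ring
  · calc _ ≤ B ^ 2 * B ^ (c * s) * B := Nat.mul_le_mul_left _ W1
      _ = _ := by rw [hs1]; ring
  · rw [← pow_add]
    calc _ ≤ B * B ^ a := Nat.mul_le_mul_right _ (by omega)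
      _ = B ^ (a + 1) := by ring
      _ ≤ _ := hp (by have := hex k; omega)
  · refine le_trans (add_le_add_right ?_ _) hL
    rw [← Real.log_pow]
    refine Real.log_le_log (by positivity) ?_
    have := hp' (show ex k + 1 ≤ a by have := hex k; omega)
    push_cast
    rw [pow_succ (B : ℝ) a]
    linarith only [b0, this, A1', mul_nonneg_of_nonpos_of_nonpos (Mathlib.Tactic.Linarith.sub_nonpos_of_le (Mathlib.Tactic.Linarith.natCast_nonneg ℝ B)) (Mathlib.Tactic.Linarith.sub_nonpos_of_le A1'), mul_nonneg_of_nonpos_of_nonpos (Mathlib.Tactic.Linarith.sub_nonpos_of_le b0) (Mathlib.Tactic.Linarith.sub_nonpos_of_le A1')]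
  · rw [div_le_div_iff₀ (by positivity) (by positivity)]
    push_cast
    rw [← pow_add, show ex k + 1 + (2 * (5 ^ (n0 + 1 - k) * P) + 1) = a by have := hex k; omega]
    linarith only [A1']
  · refine q1.trans (Nat.mul_le_mul_left _ ?_)
    rw [← pow_add]; exact hp (by omega)
  · exact q2.trans (Nat.mul_le_mul_right _ hKB)
  · refine q3.trans ?_
    calc _ ≤ B ^ (c * s1) * (B ^ (c * s) * B) := by gcongr
      _ = B ^ (c * s1 + c * s + 1) := by ring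
      _ ≤ _ := hp (by omega)
  have k1 := (Nat.cast_le (α := ℝ)).mpr (hC s1 (by omega) cs).1
  have k2 := (Nat.cast_le (α := ℝ)).mpr (hC s (by omega) cs').2
  refine (mul_le_mul_of_nonneg_right main (by positivity)).trans ?_
  generalize ((box e (B ^ a)).filter fun b =>
    ¬ GoodB F (B ^ a) (B ^ (2 * s1)) (B ^ s1) (B ^ (c * s1)) b).card = n1 at k1 ⊢
  generalize ((Icc (-((B ^ a : ℕ) : ℤ)) (B ^ a : ℕ) ×ˢ box e (B ^ a)).filter fun z =>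
    rR F z.2 ≠ 0 ∧ B ^ (c * s) < Int.gcd (rR F z.2) ((chi F z.2).eval z.1)).card = n2 at k2 ⊢
  push_cast at k1 k2 ⊢
  rw [prod_pow_succ, prod_pow_eq_pow_sum]
  rw [pow_succ ((B : ℝ) ^ a) (e + 1)] at k2
  have t1 := term1 b0 _ A1' (by positivity) (show s ≤ s1 by nlinarith only [c2, hn0, hs, hs1]) k1 k2 (Nat.cast_nonneg _)
    (Nat.cast_nonneg _)
  have eA' : (B : ℝ) ^ (e0 + 1) = ((B : ℝ) ^ a) ^ (e + 2) := by exact_mod_cast eA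
  rw [← pow_succ, ← eA'] at t1
  show _ ≤ (B : ℝ) ^ (e0 + ∑ k ∈ range (n0 + 2), ex k)
  rw [show n0 + 1 + 1 = n0 + 2 from rfl]
  generalize ∑ k ∈ range (n0 + 2), ex k = S at hS ⊢
  have hh' : |(h : ℝ)| ≤ (B : ℝ) ^ (3 * (n0 + 2) + 7) := by
    rw [← Int.cast_abs, ← Int.natCast_natAbs]; exact_mod_cast hh
  have hK' : (K : ℝ) ≤ B := by exact_mod_cast hKB
  have v1 : (B : ℝ) * (2 * (B : ℝ) ^ 2 + 1) * (n1 * (2 * (B : ℝ) ^ a + 1) + n2)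
      * (B : ℝ) ^ (S + 2 * (n0 + 2)) * (B : ℝ) ^ (3 * (n0 + 2) + 9) * B ≤ (B : ℝ) ^ (e0 + S) := by
    refine le_of_mul_le_mul_right ?_ (pow_pos b1 s)
    calc _ = (B : ℝ) * (2 * (B : ℝ) ^ 2 + 1) * (n1 * (2 * (B : ℝ) ^ a + 1) + n2) * (B : ℝ) ^ s *
          (B : ℝ) ^ (S + 5 * n0 + 20) := by ring
      _ ≤ (B : ℝ) ^ 4 * (B : ℝ) ^ (e0 + 1) * (B : ℝ) ^ (S + 5 * n0 + 20) :=
          mul_le_mul_of_nonneg_right t1 (by positivity)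
      _ = _ := by rw [hs]; ring
  have v2 : (I.card : ℝ) * (7 * (|(h : ℝ)| * (K * ((B : ℝ) ^ a) ^ E) / ((B : ℝ) ^ e0 * (B : ℝ) ^ S)))
      * (B : ℝ) ^ (S + 2 * (n0 + 2)) * (B : ℝ) ^ (3 * (n0 + 2) + 9) * B ≤ (B : ℝ) ^ (e0 + S) := by
    calc _ ≤ (B * (B : ℝ) ^ (e0 + 1)) * (B * ((B : ℝ) ^ (3 * (n0 + 2) + 7) *
          (B * ((B : ℝ) ^ a) ^ E) / ((B : ℝ) ^ e0 * (B : ℝ) ^ S)))
          * (B : ℝ) ^ (S + 2 * (n0 + 2)) * (B : ℝ) ^ (3 * (n0 + 2) + 9) * B := by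
          gcongr
          linarith only [b0]
      _ = (B : ℝ) ^ (a * E + 8 * (n0 + 2) + 21) := by
          rw [← pow_mul]
          field_simp
          ring
      _ ≤ _ := hp' hS
  have v3 : (2 * (B : ℝ) ^ a + 1) ^ (e + 1) * ((2 * (B : ℝ) ^ 2 + 1) * ((B : ℝ) ^ (c * s)) ^ 2 *
      ((B : ℝ) ^ 2 * (B : ℝ) ^ (c * s))) * (B * ((2 * (B : ℝ) ^ a + 1) *
        (B : ℝ) ^ (S + 2 * (n0 + 2)) * (1 / (B : ℝ) ^ P))) * (B : ℝ) ^ (3 * (n0 + 2) + 9) * B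
      ≤ (B : ℝ) ^ (e0 + S) := by
    have w1 : (2 * (B : ℝ) ^ a + 1) ^ (e + 2) ≤ B * (B : ℝ) ^ (e0 + 1) := by
      rw [eA']
      refine (pow_le_pow_left₀ (by positivity) (show _ ≤ 3 * (B : ℝ) ^ a by linarith only [A1']) _).trans ?_
      rw [mul_pow]
      exact mul_le_mul_of_nonneg_right (by exact_mod_cast h3) (by positivity)
    have w2 : 2 * (B : ℝ) ^ 2 + 1 ≤ B * (B : ℝ) ^ 2 := by linarith only [b0, mul_nonneg_of_nonpos_of_nonpos (Mathlib.Tactic.Linarith.sub_nonpos_of_le (sq_nonneg ↑B)) (Mathlib.Tactic.Linarith.sub_nonpos_of_le b0), mul_nonneg_of_nonpos_of_nonpos (Mathlib.Tactic.Linarith.sub_nonpos_of_le (Mathlib.Tactic.Linarith.natCast_nonneg ℝ B)) (Mathlib.Tactic.Linarith.sub_nonpos_of_le b0)]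
    calc _ = (2 * (B : ℝ) ^ a + 1) ^ (e + 2) * (2 * (B : ℝ) ^ 2 + 1) *
          ((B : ℝ) ^ (S + 5 * n0 + 23 + 3 * (c * s)) / (B : ℝ) ^ P) := by ring
      _ ≤ B * (B : ℝ) ^ (e0 + 1) * (B * (B : ℝ) ^ 2) *
          ((B : ℝ) ^ (S + 5 * n0 + 23 + 3 * (c * s)) / (B : ℝ) ^ P) := by gcongr
      _ = _ := by
          rw [hP]
          field_simp
          ring
  refine le_of_mul_le_mul_right ?_ b1
  have : (0 : ℝ) ≤ (B : ℝ) ^ (e0 + S) := by positivity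
  calc _ ≤ 3 * (B : ℝ) ^ (e0 + S) := by linarith only [v1, v2, v3]
    _ ≤ _ := by linarith only [this, b0, mul_nonneg_of_nonpos_of_nonpos (Mathlib.Tactic.Linarith.sub_nonpos_of_le (Mathlib.Tactic.Linarith.natCast_nonneg ℝ B)) (Mathlib.Tactic.Linarith.sub_nonpos_of_le this), mul_nonneg_of_nonpos_of_nonpos (Mathlib.Tactic.Linarith.sub_nonpos_of_le b0) (Mathlib.Tactic.Linarith.sub_nonpos_of_le this)]

end Pool.Agent.Work.MP_51e72e_nt.Deg
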