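import Pool.Agent.Work.MP_51e72e_nt.DegExc
import Pool.Agent.Work.MP_51e72e_nt.CubSieve
import Pool.Agent.Lib.ANT.RosserMain

-- merged part: Pool.Agent.Work.MP_51e72e_nt.DegMain1
section
/-!
The slack in Rosser's upper sieve and its remainder in terms of a multilinear level.
-/

set_option autoImplicit false

namespace Pool.Agent.Work.MP_51e72e_nt.Deg

open Finset Pool.Agent.Lib.ANT Pool.Agent.Work.MP_51e72e_nt.Cub
  Pool.Agent.Work.MP_51e72e_nt.Cub.Sv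

lemma ind_nonneg (T S : Finset ℕ) : 0 ≤ ind T S := by
  unfold ind
  split_ifs <;> norm_num

lemma ind_union (T U S : Finset ℕ) : ind (T ∪ U) S = ind T S * ind U S := by
  rw [← ind_mul]
  rfl

lemma sum_rSet_ind' (e : ℕ) (D : ℝ) (Ps T : Finset ℕ) :
    ∑ d ∈ rSet e D Ps, (-1 : ℝ) ^ d.card * ind d T =
      ∑ d ∈ rSet e D (Ps.filter (· ∈ T)), (-1 : ℝ) ^ d.card := by
  rw [← sum_rSet_ind]
  refine sum_congr rfl fun d _ => ?_
  unfold ind
  congr

lemma slack {ι : Type} {Ps W0 T : Finset ℕ} {D D' : ℝ} (I : Finset ι) (d : ι → Finset ℕ)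
    (hinj : Set.InjOn d I)
    (h : ∀ p ∈ W0, ∀ i ∈ I, (∀ q ∈ d i, p < q) ∧ (d i).card % 2 = 0 ∧ rOK 0 D (d i) ∧
      D ≤ (∏ q ∈ d i, (q : ℝ)) * (p : ℝ) ^ 3) (hT : T ⊆ Ps) :
    (if T = ∅ then (1 : ℝ) else 0) + ∑ p ∈ W0, ∑ i ∈ I, ∑ l ∈ rSet 1 D' (Ps.filter (· < p)),
      (-1) ^ l.card * ind (insert p (d i) ∪ l) T ≤
      ∑ d ∈ rSet 0 D Ps, (-1) ^ d.card * ind d T := by
  classical
  have e0 : Ps.filter (· ∈ T) = T := by
    rw [filter_mem_eq_inter, inter_eq_right.2 hT]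
  have k : ∀ p ∈ W0, ∀ i ∈ I, ∑ l ∈ rSet 1 D' (Ps.filter (· < p)),
      (-1) ^ l.card * ind (insert p (d i) ∪ l) T ≤ ind (insert p (d i)) T *
        if (Ps.filter (· < p)).filter (· ∈ T) = ∅ then 1 else 0 := by
    intro p _ i _
    refine le_trans (le_of_eq ?_) (mul_le_mul_of_nonneg_left (sum_rSet_lower D' _)
      (ind_nonneg _ _))
    rw [← sum_rSet_ind', mul_sum]
    exact sum_congr rfl fun l _ => by rw [ind_union]; ring
  refine le_trans (add_le_add_right (sum_le_sum fun p hp => sum_le_sum (k p hp)) _) ?_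
  rw [sum_rSet_ind', e0]
  induction T using Finset.induction_on_min with
  | empty => simp [rSet_empty, ind]
  | insert a s ha _ =>
    rw [sum_rSet_insert_min 0 D ha, if_neg (insert_ne_empty a s), zero_add, pow_zero, one_mul]
    have k2 : ∀ p ∈ W0, ∑ i ∈ I, (ind (insert p (d i)) (insert a s) *
        if (Ps.filter (· < p)).filter (· ∈ insert a s) = ∅ then 1 else 0) ≤
        if p = a then ((I.filter fun i => d i ⊆ s).card : ℝ) else 0 := by
      intro p hp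
      have k3 : ∀ i ∈ I, (ind (insert p (d i)) (insert a s) *
          if (Ps.filter (· < p)).filter (· ∈ insert a s) = ∅ then 1 else 0) ≤
          if p = a then (if d i ⊆ s then 1 else 0) else 0 := by
        intro i hi
        unfold ind
        by_cases h1 : insert p (d i) ⊆ insert a s
        swap
        · rw [if_neg h1, zero_mul]
          split_ifs <;> norm_num
        by_cases h2 : (Ps.filter (· < p)).filter (· ∈ insert a s) = ∅
        swap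
        · rw [if_neg h2, mul_zero]
          split_ifs <;> norm_num
        have h3 : p = a := by
          rcases mem_insert.1 (h1 (mem_insert_self _ _)) with h3 | h3
          · exact h3
          · exact absurd (mem_insert_self a s) (filter_eq_empty_iff.1 h2
              (mem_filter.2 ⟨hT (mem_insert_self _ _), ha p h3⟩))
        have h4 : d i ⊆ s := fun q hq => by
          rcases mem_insert.1 (h1 (mem_insert_of_mem hq)) with h4 | h4
          · exact absurd ((h p hp i hi).1 q hq) (by omega)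
          · exact h4
        rw [if_pos h1, if_pos h2, if_pos h3, if_pos h4, one_mul]
      refine (sum_le_sum k3).trans (le_of_eq ?_)
      split_ifs
      · rw [card_filter]
        push_cast
        rfl
      · simp
    refine (sum_le_sum k2).trans ?_
    rw [sum_ite_eq']
    split_ifs with h1
    · refine Nat.cast_le.2 (card_le_card_of_injOn d (fun i hi => ?_)
        (hinj.mono (coe_subset.2 (filter_subset _ _))))
      obtain ⟨h2, h3⟩ := mem_filter.1 (mem_coe.1 hi)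
      obtain ⟨-, h4, h5, h6⟩ := h a h1 i h2
      exact mem_coe.2 (mem_filter.2 ⟨mem_rSet.2 ⟨h3, h5⟩, h4, h6⟩)
    · positivity

/-- elementary symmetric sums -/
noncomputable def es (g : ℕ → ℝ) (Q : Finset ℕ) (j : ℕ) : ℝ :=
  ∑ S ∈ Q.powersetCard j, ∏ p ∈ S, g p

lemma es_insert (g : ℕ → ℝ) {Q : Finset ℕ} {a : ℕ} (h : a ∉ Q) (j : ℕ) :
    es g (insert a Q) (j + 1) = es g Q (j + 1) + g a * es g Q j := by
  have hn : ∀ S ∈ Q.powersetCard j, a ∉ S := fun S hS k => h ((mem_powersetCard.1 hS).1 k)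
  rw [es, powersetCard_succ_insert h, sum_union, sum_image, es, es, mul_sum]
  · exact congrArg _ (sum_congr rfl fun S hS => prod_insert (hn S hS))
  · intro S hS S' hS' e
    rw [← erase_insert (hn S hS), e, erase_insert (hn S' hS')]
  · refine disjoint_left.2 fun S hS k => ?_
    obtain ⟨S', -, rfl⟩ := mem_image.1 k
    exact h ((mem_powersetCard.1 hS).1 (mem_insert_self _ _))

lemma es_nonneg {g : ℕ → ℝ} {Q : Finset ℕ} (hg : ∀ p ∈ Q, 0 ≤ g p) (j : ℕ) : 0 ≤ es g Q j :=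
  sum_nonneg fun _ hS => prod_nonneg fun p hp => hg p ((mem_powersetCard.1 hS).1 hp)

lemma es_zero (g : ℕ → ℝ) (Q : Finset ℕ) : es g Q 0 = 1 := by simp [es]

lemma es_step {g : ℕ → ℝ} {γ : ℝ} (Q : Finset ℕ) (hg : ∀ p ∈ Q, 0 ≤ g p ∧ g p ≤ γ) (j : ℕ) :
    es g Q j * ∑ p ∈ Q, g p ≤ (j + 1) * es g Q (j + 1) + j * γ * es g Q j := by
  induction Q using Finset.induction_on generalizing j with
  | empty =>
    have : ∀ k, es g ∅ (k + 1) = 0 := fun k => by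
      rw [es, powersetCard_eq_empty.2 (by simp), sum_empty]
    cases j <;> simp [this]
  | insert a Q ha ih =>
    have ih' := ih fun p hp => hg p (mem_insert_of_mem hp)
    obtain ⟨a0, a1⟩ := hg a (mem_insert_self _ _)
    have e0 := es_nonneg fun p hp => (hg p (mem_insert_of_mem hp)).1
    rw [sum_insert ha, es_insert g ha]
    cases j with
    | zero =>
      have := ih' 0
      simp only [es_zero, Nat.cast_zero] at this ⊢
      linarith
    | succ j =>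
      rw [es_insert g ha]
      have h1 := ih' (j + 1)
      have h2 := mul_le_mul_of_nonneg_left (ih' j) a0
      have h3 := mul_le_mul_of_nonneg_left a1 (mul_nonneg a0 (e0 j))
      push_cast at h1 ⊢
      linarith

lemma es_lower {g : ℕ → ℝ} {γ σ : ℝ} {Q : Finset ℕ} (hg : ∀ p ∈ Q, 0 ≤ g p ∧ g p ≤ γ)
    (hγ : 0 ≤ γ) (hσ : 0 ≤ σ) (j : ℕ) (h : σ + j * γ ≤ ∑ p ∈ Q, g p) :
    σ ^ j / j.factorial ≤ es g Q j := by
  induction j with
  | zero => simp [es_zero]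
  | succ j ih =>
    push_cast at h
    have h1 := ih (by linarith)
    have h2 := es_step Q hg j
    have e0 := es_nonneg (fun p hp => (hg p hp).1) j
    have h3 : es g Q j * σ ≤ (j + 1) * es g Q (j + 1) := by nlinarith
    have h4 := mul_le_mul_of_nonneg_right h1 hσ
    rw [Nat.factorial_succ, pow_succ, div_le_iff₀ (by positivity)]
    rw [div_mul_eq_mul_div, div_le_iff₀ (by positivity)] at h4
    push_cast
    have f0 : (0 : ℝ) ≤ j.factorial := Nat.cast_nonneg _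
    nlinarith [mul_le_mul_of_nonneg_right h3 f0]

/-- admissible classes -/
noncomputable def adm (f : Polynomial ℤ) (W : ℕ) : Finset ℕ :=
  (range W).filter fun c : ℕ => Nat.Coprime (f.eval (c : ℤ)).natAbs W

variable {f : Polynomial ℤ} {W N L n : ℕ} {Ps : Finset ℕ}

lemma sum_Rt {T : Finset ℕ} (hPs : ∀ p ∈ Ps, p.Prime) (hT : T ⊆ Ps) (a : ℤ) :
    ∑ r ∈ Rt f (pr T), (if (pr T : ℤ) ∣ a - r then (1 : ℝ) else 0) =
      ind T (Ps.filter fun p : ℕ => (p : ℤ) ∣ f.eval a) := by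
  rw [Rt, sum_class (pr_pos fun p hp => hPs p (hT hp)) (fun a => (pr T : ℤ) ∣ f.eval a)
    (fun a b => root_congr) a]
  simp only [ind, sub_filter_iff hPs hT]

lemma dvd_multi {m : ℕ} {y : Fin n → ℕ} (hm : Nat.Coprime m (W * ∏ k, y k))
    (hW : ∀ k, Nat.Coprime (y k) W) (hy : ∀ k k', k ≠ k' → Nat.Coprime (y k) (y k'))
    {x r c : ℤ} {t : Fin n → ℤ}
    (hx : (m : ℤ) ∣ x - r ∧ (W : ℤ) ∣ x - c ∧ ∀ k, (y k : ℤ) ∣ x - t k) (a : ℤ) :
    ((m * (W * ∏ k, y k) : ℕ) : ℤ) ∣ a - x ↔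
      (m : ℤ) ∣ a - r ∧ (W : ℤ) ∣ a - c ∧ ∀ k, (y k : ℤ) ∣ a - t k := by
  obtain ⟨h1, h2, h3⟩ := hx
  have c1 := Nat.isCoprime_iff_coprime.2 hm
  have c0 : Nat.Coprime W (∏ k, y k) := Nat.Coprime.prod_right fun k _ => (hW k).symm
  have c2 := Nat.isCoprime_iff_coprime.2 c0
  push_cast at c1 c2 ⊢
  constructor
  · intro h
    have h4 := dvd_of_mul_left_dvd h
    refine ⟨by simpa using (dvd_of_mul_right_dvd h).add h1,
      by simpa using (dvd_of_mul_right_dvd h4).add h2, fun k => ?_⟩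
    simpa using (((dvd_prod_of_mem (fun k => (y k : ℤ)) (mem_univ k)).trans
      (dvd_of_mul_left_dvd h4))).add (h3 k)
  · rintro ⟨h4, h5, h6⟩
    refine c1.mul_dvd (by simpa using h4.sub h1) (c2.mul_dvd (by simpa using h5.sub h2)
      (Fintype.prod_dvd_of_coprime (fun k k' h => Nat.isCoprime_iff_coprime.2 (hy k k' h))
        fun k => by simpa using (h6 k).sub (h3 k)))

lemma exists_multi {m : ℕ} {y : Fin n → ℕ} (hm : Nat.Coprime m (W * ∏ k, y k))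
    (hW : ∀ k, Nat.Coprime (y k) W) (hy : ∀ k k', k ≠ k' → Nat.Coprime (y k) (y k'))
    (h0 : ∀ k, y k ≠ 0) (r c : ℤ) (t : Fin n → ℕ) :
    ∃ x : ℤ, (m : ℤ) ∣ x - r ∧ (W : ℤ) ∣ x - c ∧ ∀ k, (y k : ℤ) ∣ x - t k := by
  obtain ⟨u, hu⟩ := Nat.chineseRemainderOfFinset t y univ (fun k _ => h0 k)
    fun k _ k' _ h => hy k k' h
  have c0 : Nat.Coprime W (∏ k, y k) := Nat.Coprime.prod_right fun k _ => (hW k).symm
  obtain ⟨h1, h2⟩ := crt_spec c0 c u
  obtain ⟨h3, h4⟩ := crt_spec hm r (crt W (∏ k, y k) c u)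
  rw [Nat.cast_mul] at h4
  refine ⟨_, h3, by simpa using (dvd_of_mul_right_dvd h4).add h1, fun k => ?_⟩
  have h5 : (y k : ℤ) ∣ (∏ k, y k : ℕ) :=
    Int.natCast_dvd_natCast.2 (dvd_prod_of_mem _ (mem_univ k))
  simpa using ((h5.trans (dvd_of_mul_left_dvd h4)).add (h5.trans h2)).sub
    (hu k (mem_univ k)).dvd

lemma card_fibre_le {α : Type} {I : Finset α} {tt : α → Finset ℕ} (hPs : ∀ p ∈ Ps, p.Prime)
    (hinj : Set.InjOn tt I) {Dm : ℕ} (hI : ∀ i ∈ I, tt i ⊆ Ps ∧ (Rt f (pr (tt i))).card ≤ Dm)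
    (v : ℕ) :
    ((I.sigma fun i => Rt f (pr (tt i))).filter fun i => pr (tt i.1) = v).card ≤ Dm := by
  rcases eq_empty_or_nonempty ((I.sigma fun i => Rt f (pr (tt i))).filter
    fun i => pr (tt i.1) = v) with e | ⟨i, hi⟩
  · rw [e]
    exact Nat.zero_le _
  obtain ⟨b1, rfl⟩ := mem_filter.1 hi
  have b2 := (mem_sigma.1 b1).1
  have key : ∀ k ∈ (I.sigma fun i => Rt f (pr (tt i))).filter
      fun k => pr (tt k.1) = pr (tt i.1), k.1 = i.1 ∧ k.2 ∈ Rt f (pr (tt i.1)) := by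
    intro k hk
    obtain ⟨c1, c2⟩ := mem_filter.1 hk
    have c3 := (mem_sigma.1 c1).1
    exact ⟨hinj c3 b2 (pr_inj (fun p hp => hPs p ((hI _ c3).1 hp))
      (fun p hp => hPs p ((hI _ b2).1 hp)) c2), c2 ▸ (mem_sigma.1 c1).2⟩
  refine (card_le_card_of_injOn (fun k => k.2) (fun k hk => (key k hk).2)
    fun k hk k' hk' e => ?_).trans (hI _ b2).2
  exact Sigma.ext ((key k hk).1.trans (key k' hk').1.symm) (heq_of_eq e)

lemma cop_pr {T U : Finset ℕ} (hPs : ∀ p ∈ Ps, p.Prime) (hT : T ⊆ Ps) (hU : U ⊆ Ps)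
    (hd : Disjoint T U) : Nat.Coprime (pr T) (pr U) :=
  Nat.Coprime.prod_left fun p hp => Nat.Coprime.prod_right fun q hq =>
    (Nat.coprime_primes (hPs p (hT hp)) (hPs q (hU hq))).2 fun e => disjoint_left.1 hd hp (e ▸ hq)

lemma sum_Rt_inv {T : Finset ℕ} (hT : ∀ p ∈ T, p.Prime) :
    ∑ _r ∈ Rt f (pr T), ((pr T : ℝ))⁻¹ = ∏ p ∈ T, (omega f p : ℝ) / p := by
  rw [sum_const, nsmul_eq_mul, Rt, pr, card_roots_prod f T hT, prod_div_distrib]
  push_cast
  rfl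

lemma AX_multi {α : Type} (I : Finset α) (tt : α → Finset ℕ) (a : α → ℝ)
    (A : ℕ → Finset (Finset ℕ)) {M0 M1 Dm : ℕ} {Y0 Y1 : ℕ → ℕ} {E : ℝ}
    (hPs : ∀ p ∈ Ps, p.Prime ∧ Nat.Coprime p W) (hW : 0 < W) (hinj : Set.InjOn tt I)
    (hI : ∀ i ∈ I, tt i ⊆ Ps ∧ (Rt f (pr (tt i))).card ≤ Dm ∧ M0 ≤ pr (tt i) ∧ pr (tt i) ≤ M1 ∧
      |a i| ≤ 1)
    (hA : ∀ k < n, ∀ S ∈ A k, S ⊆ Ps ∧ (Rt f (pr S)).card ≤ Dm ∧ Y0 k ≤ pr S ∧ pr S ≤ Y1 k)
    (hd : ∀ i ∈ I, ∀ k < n, ∀ S ∈ A k, Disjoint (tt i) S)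
    (hdd : ∀ k < n, ∀ k' < n, k ≠ k' → ∀ S ∈ A k, ∀ S' ∈ A k', Disjoint S S')
    (hLev : LevelN f n W N L M0 M1 Dm Y0 Y1 E) :
    |AX f W N L Ps (fun T => (∑ i ∈ I, a i * ind (tt i) T) * ∏ k : Fin n, ∑ S ∈ A k, ind S T) -
      ((N : ℝ) + L) * ((adm f W).card / W) * ((∑ i ∈ I, a i * ∏ p ∈ tt i, (omega f p : ℝ) / p) *
        ∏ k : Fin n, ∑ S ∈ A k, ∏ p ∈ S, (omega f p : ℝ) / p)| ≤ W * E := by
  have hP : ∀ p ∈ Ps, p.Prime := fun p hp => (hPs p hp).1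
  have cW : ∀ T ⊆ Ps, Nat.Coprime (pr T) W := fun T hT =>
    Nat.Coprime.prod_left fun p hp => (hPs p (hT hp)).2
  set I' := I.sigma fun i => Rt f (pr (tt i)) with hI'
  set J : ℕ → Finset (Σ _ : Finset ℕ, ℕ) := fun k => (A k).sigma fun S => Rt f (pr S) with hJ
  have mJ : ∀ j ∈ tup J n, ∀ k : Fin n, (j k).1 ∈ A k := fun j hj k =>
    (mem_sigma.1 (Fintype.mem_piFinset.1 hj k)).1
  have c1 : ∀ j ∈ tup J n, ∀ k : Fin n, Nat.Coprime (pr (j k).1) W := fun j hj k =>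
    cW _ (hA k k.2 _ (mJ j hj k)).1
  have c2 : ∀ j ∈ tup J n, ∀ k k' : Fin n, k ≠ k' → Nat.Coprime (pr (j k).1) (pr (j k').1) :=
    fun j hj k k' h => cop_pr hP (hA k k.2 _ (mJ j hj k)).1 (hA k' k'.2 _ (mJ j hj k')).1
      (hdd k k.2 k' k'.2 (Fin.val_ne_of_ne h) _ (mJ j hj k) _ (mJ j hj k'))
  have c3 : ∀ i ∈ I', ∀ j ∈ tup J n, Nat.Coprime (pr (tt i.1)) (W * ∏ k, pr (j k).1) :=
    fun i hi j hj => Nat.Coprime.mul_right (cW _ (hI _ (mem_sigma.1 hi).1).1)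
      (Nat.Coprime.prod_right fun k _ => cop_pr hP (hI _ (mem_sigma.1 hi).1).1
        (hA k k.2 _ (mJ j hj k)).1 (hd _ (mem_sigma.1 hi).1 k k.2 _ (mJ j hj k)))
  have ex : ∀ c : ℕ, ∀ i ∈ I', ∀ j ∈ tup J n, ∃ x : ℤ, (pr (tt i.1) : ℤ) ∣ x - i.2 ∧
      (W : ℤ) ∣ x - c ∧ ∀ k, (pr (j k).1 : ℤ) ∣ x - (j k).2 := fun c i hi j hj =>
    exists_multi (c3 i hi j hj) (c1 j hj) (c2 j hj)
      (fun k => (pr_pos fun p hp => hP p ((hA k k.2 _ (mJ j hj k)).1 hp)).ne') _ _ _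
  choose! x hx using ex
  have lev := fun c : ℕ => hLev _ _ I' J (fun i => pr (tt i.1)) (fun i => i.2) (fun j => pr j.1)
    (fun j => j.2) c (x c) (fun i => a i.1) (fun _ => 1)
    ⟨fun i hi => ?_, card_fibre_le hP hinj fun i hi => ⟨(hI i hi).1, (hI i hi).2.1⟩,
      fun k hk j hj => ?_,
      fun k hk => card_fibre_le (tt := id) hP (Set.injOn_id _)
        fun S hS => ⟨(hA k hk S hS).1, (hA k hk S hS).2.1⟩,
      fun k hk k' hk' h j hj j' hj' => ?_, fun i hi k hk j hj => ?_, hx c⟩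
    (fun i hi => (hI _ (mem_sigma.1 hi).1).2.2.2.2) (by simp)
  rotate_left
  · obtain ⟨h1, -, h2, h3, -⟩ := hI _ (mem_sigma.1 hi).1
    exact ⟨squarefree_prod_primes _ fun p hp => hP p (h1 hp), cW _ h1, h2, h3,
      (mem_filter.1 (mem_sigma.1 hi).2).2⟩
  · obtain ⟨h1, -, h2, h3⟩ := hA k hk _ (mem_sigma.1 hj).1
    exact ⟨h2, h3, cW _ h1⟩
  · exact cop_pr hP (hA k hk _ (mem_sigma.1 hj).1).1 (hA k' hk' _ (mem_sigma.1 hj').1).1
      (hdd k hk k' hk' h _ (mem_sigma.1 hj).1 _ (mem_sigma.1 hj').1)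
  · exact cop_pr hP (hI _ (mem_sigma.1 hi).1).1 (hA k hk _ (mem_sigma.1 hj).1).1
      (hd _ (mem_sigma.1 hi).1 k hk _ (mem_sigma.1 hj).1)
  have E0 : 0 ≤ E := (abs_nonneg _).trans (lev 0)
  have e1 : AX f W N L Ps
      (fun T => (∑ i ∈ I, a i * ind (tt i) T) * ∏ k : Fin n, ∑ S ∈ A k, ind S T) =
      ∑ c ∈ adm f W, ∑ i ∈ I', ∑ j ∈ tup J n,
        a i.1 * cntw N L (pr (tt i.1) * (W * ∏ k, pr (j k).1)) (x c i j) := by
    simp only [cntw, card_filter, ← mul_div_assoc, ← sum_div]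
    refine congrArg (· / (L : ℝ)) ?_
    simp only [Nat.cast_sum, mul_sum]
    simp only [sum_comm (t := Icc 1 (N + L) ×ˢ range L)]
    refine sum_congr rfl fun z _ => ?_
    generalize (z.1 : ℤ) - z.2 = u
    have f1 := sum_class hW (fun a => Nat.Coprime (f.eval a).natAbs W) (fun a b => adm_congr) u
    have f2 : ∑ i ∈ I, a i * ind (tt i) (Ps.filter fun p : ℕ => (p : ℤ) ∣ f.eval u) =
        ∑ i ∈ I', a i.1 * if (pr (tt i.1) : ℤ) ∣ u - i.2 then 1 else 0 := by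
      rw [hI', sum_sigma]
      exact sum_congr rfl fun i hi => by rw [← sum_Rt hP (hI i hi).1, mul_sum]
    have f3 : ∏ k : Fin n, ∑ S ∈ A k, ind S (Ps.filter fun p : ℕ => (p : ℤ) ∣ f.eval u) =
        ∑ j ∈ tup J n, ∏ k : Fin n, if (pr (j k).1 : ℤ) ∣ u - (j k).2 then 1 else 0 := by
      rw [tup, ← prod_univ_sum (fun k : Fin n => J k)
        fun _ j => if (pr j.1 : ℤ) ∣ u - j.2 then (1 : ℝ) else 0]
      refine prod_congr rfl fun k _ => ?_
      rw [hJ, sum_sigma]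
      exact sum_congr rfl fun S hS => (sum_Rt hP (hA k k.2 S hS).1 u).symm
    rw [← f1, f2, f3, sum_mul_sum, sum_mul, adm]
    refine sum_congr rfl fun c _ => ?_
    rw [mul_sum]
    refine sum_congr rfl fun i hi => ?_
    rw [mul_sum]
    refine sum_congr rfl fun j hj => ?_
    simp only [dvd_multi (c3 i hi j hj) (c1 j hj) (c2 j hj) (hx c i hi j hj), prod_boole]
    by_cases h1 : (pr (tt i.1) : ℤ) ∣ u - i.2 <;> by_cases h2 : (W : ℤ) ∣ u - c <;>
      by_cases h3 : ∀ k, (pr (j k).1 : ℤ) ∣ u - (j k).2 <;> simp [h1, h2, h3]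
  have e2 : ((N : ℝ) + L) * ((adm f W).card / W) *
      ((∑ i ∈ I, a i * ∏ p ∈ tt i, (omega f p : ℝ) / p) *
        ∏ k : Fin n, ∑ S ∈ A k, ∏ p ∈ S, (omega f p : ℝ) / p) =
      ∑ _c ∈ adm f W, ∑ i ∈ I', ∑ j ∈ tup J n,
        a i.1 * (((N : ℝ) + L) / (pr (tt i.1) * (W * ∏ k, pr (j k).1 : ℕ))) := by
    have f2 : ∑ i ∈ I, a i * ∏ p ∈ tt i, (omega f p : ℝ) / p =
        ∑ i ∈ I', a i.1 * (pr (tt i.1) : ℝ)⁻¹ := by
      rw [hI', sum_sigma]
      exact sum_congr rfl fun i hi => by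
        rw [← sum_Rt_inv fun p hp => hP p ((hI i hi).1 hp), mul_sum]
    have f3 : ∏ k : Fin n, ∑ S ∈ A k, ∏ p ∈ S, (omega f p : ℝ) / p =
        ∑ j ∈ tup J n, ∏ k : Fin n, (pr (j k).1 : ℝ)⁻¹ := by
      rw [tup, ← prod_univ_sum (fun k : Fin n => J k) fun _ j => (pr j.1 : ℝ)⁻¹]
      refine prod_congr rfl fun k _ => ?_
      rw [hJ, sum_sigma]
      exact sum_congr rfl fun S hS => (sum_Rt_inv fun p hp => hP p ((hA k k.2 S hS).1 hp)).symm
    rw [f2, f3, sum_mul_sum, sum_const, nsmul_eq_mul, mul_comm _ (_ / _), mul_assoc,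
      div_mul_eq_mul_div, mul_div_assoc, mul_sum, sum_div]
    refine congrArg _ (sum_congr rfl fun i _ => ?_)
    rw [mul_sum, sum_div]
    refine sum_congr rfl fun j _ => ?_
    rw [prod_inv_distrib]
    push_cast
    ring
  rw [e1, e2, ← sum_sub_distrib]
  refine (abs_sum_le_sum_abs _ _).trans ((sum_le_card_nsmul _ _ E fun c _ => ?_).trans ?_)
  · refine le_trans (le_of_eq (congrArg _ ?_)) (lev c)
    rw [← sum_sub_distrib]
    refine sum_congr rfl fun i _ => ?_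
    rw [← sum_sub_distrib]
    exact sum_congr rfl fun j _ => by ring
  · rw [nsmul_eq_mul]
    gcongr
    exact (card_filter_le _ _).trans (card_range W).le

end Pool.Agent.Work.MP_51e72e_nt.Deg
end

-- merged part: Pool.Agent.Work.MP_51e72e_nt.DegMain2
section
/-!
Rosser's upper sieve improved by the primes in consecutive windows.
-/

set_option autoImplicit false

namespace Pool.Agent.Work.MP_51e72e_nt.Deg

open Finset Pool.Agent.Lib.ANT Pool.Agent.Work.MP_51e72e_nt.Cub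
  Pool.Agent.Work.MP_51e72e_nt.Cub.Sv

variable {f : Polynomial ℤ} {W N L n : ℕ} {Ps : Finset ℕ}

lemma AX_mono {X Y : Finset ℕ → ℝ} (h : ∀ T ⊆ Ps, X T ≤ Y T) :
    AX f W N L Ps X ≤ AX f W N L Ps Y :=
  div_le_div_of_nonneg_right (sum_le_sum fun _ _ => mul_le_mul_of_nonneg_left
    (h _ (filter_subset _ _)) (by split_ifs <;> norm_num)) (Nat.cast_nonneg _)

lemma ind_biUnion (S : Fin n → Finset ℕ) (T : Finset ℕ) :
    ind (univ.biUnion S) T = ∏ k, ind (S k) T := by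
  simp only [ind, prod_boole, biUnion_subset]
  congr

/-- the sieving primes in a window -/
def win (Ps : Finset ℕ) (b : ℕ → ℕ) (i : ℕ) : Finset ℕ :=
  Ps.filter fun p => b i < p ∧ p ≤ b (i + 1)

variable {b : ℕ → ℕ}

lemma mem_win {i p : ℕ} : p ∈ win Ps b i ↔ p ∈ Ps ∧ b i < p ∧ p ≤ b (i + 1) := mem_filter

lemma win_disj (hb : Monotone b) {i i' : ℕ} (h : i ≠ i') : Disjoint (win Ps b i) (win Ps b i') := by
  refine disjoint_left.2 fun p h1 h2 => ?_
  obtain ⟨-, a1, a2⟩ := mem_win.1 h1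
  obtain ⟨-, a3, a4⟩ := mem_win.1 h2
  rcases lt_or_gt_of_ne h with h | h
  · have := hb (show i + 1 ≤ i' from h)
    omega
  · have := hb (show i' + 1 ≤ i from h)
    omega

lemma pr_le_pow {T : Finset ℕ} {x : ℕ} (h : ∀ p ∈ T, p ≤ x) : pr T ≤ x ^ T.card :=
  prod_le_pow_card _ _ _ h

lemma pow_le_pr {T : Finset ℕ} {x : ℕ} (h : ∀ p ∈ T, x ≤ p) : x ^ T.card ≤ pr T :=
  pow_card_le_prod _ _ _ h

lemma cast_pr (T : Finset ℕ) : (pr T : ℝ) = ∏ p ∈ T, (p : ℝ) := Nat.cast_prod _ _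

lemma slack_win (hb : Monotone b) (j0 : ℕ) (j : ℕ → ℕ) {K : ℕ} (hK : K = j0 + ∑ k ∈ range n, j k)
    {D D' : ℝ} (h2 : K % 2 = 0) (hOK : ((b (n + 2) ^ (K + 2) : ℕ) : ℝ) < D)
    (hD : D ≤ (b 0 ^ (K + 3) : ℕ)) {T : Finset ℕ} (hT : T ⊆ Ps) :
    (if T = ∅ then (1 : ℝ) else 0) +
      (∑ i ∈ (win Ps b 0 ×ˢ (win Ps b 1).powersetCard j0).sigma
          (fun x => rSet 1 D' (Ps.filter (· < x.1))),
        (-1) ^ i.2.card * ind (insert i.1.1 i.1.2 ∪ i.2) T) *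
        ∏ k : Fin n, ∑ S ∈ (win Ps b (k + 2)).powersetCard (j k), ind S T ≤
      ∑ d ∈ rSet 0 D Ps, (-1) ^ d.card * ind d T := by
  have hm : ∀ x ∈ (win Ps b 1).powersetCard j0 ×ˢ
      Fintype.piFinset fun k : Fin n => (win Ps b (k + 2)).powersetCard (j k),
      (x.1 ⊆ win Ps b 1 ∧ x.1.card = j0) ∧
        ∀ k : Fin n, x.2 k ⊆ win Ps b (k + 2) ∧ (x.2 k).card = j k := fun x hx =>
    ⟨mem_powersetCard.1 (mem_product.1 hx).1,
      fun k => mem_powersetCard.1 (Fintype.mem_piFinset.1 (mem_product.1 hx).2 k)⟩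
  refine le_trans (le_of_eq (congrArg _ ?_)) (slack (W0 := win Ps b 0) (D' := D')
    ((win Ps b 1).powersetCard j0 ×ˢ
      Fintype.piFinset fun k : Fin n => (win Ps b (k + 2)).powersetCard (j k))
    (fun x => x.1 ∪ univ.biUnion x.2) (fun x hx x' hx' e => ?_)
    (fun p hp x hx => ?_) hT)
  · rw [prod_univ_sum (fun k : Fin n => (win Ps b (k + 2)).powersetCard (j k)) fun _ S => ind S T,
      sum_sigma, sum_product, sum_mul]
    refine sum_congr rfl fun p _ => ?_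
    rw [sum_product, sum_mul]
    refine sum_congr rfl fun S0 _ => ?_
    rw [sum_mul_sum, sum_comm]
    refine sum_congr rfl fun S _ => sum_congr rfl fun l _ => ?_
    rw [← insert_union, union_right_comm, ind_union _ (univ.biUnion S), ind_biUnion, mul_assoc]
  · have key : ∀ x ∈ (win Ps b 1).powersetCard j0 ×ˢ
        Fintype.piFinset fun k : Fin n => (win Ps b (k + 2)).powersetCard (j k),
        (x.1 ∪ univ.biUnion x.2) ∩ win Ps b 1 = x.1 ∧
          ∀ k : Fin n, (x.1 ∪ univ.biUnion x.2) ∩ win Ps b (k + 2) = x.2 k := by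
      intro x hx
      obtain ⟨⟨a1, -⟩, a2⟩ := hm x hx
      refine ⟨?_, fun k => ?_⟩
      · ext q
        simp only [mem_inter, mem_union, mem_biUnion, mem_univ, true_and]
        refine ⟨fun ⟨c1, c2⟩ => c1.elim id fun ⟨k, c3⟩ => ?_, fun c => ⟨Or.inl c, a1 c⟩⟩
        exact absurd c2 (disjoint_left.1 (win_disj hb (by omega)) ((a2 k).1 c3))
      · ext q
        simp only [mem_inter, mem_union, mem_biUnion, mem_univ, true_and]
        refine ⟨fun ⟨c1, c2⟩ => c1.elim (fun c3 => ?_) fun ⟨k', c3⟩ => ?_,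
          fun c => ⟨Or.inr ⟨k, c⟩, (a2 k).1 c⟩⟩
        · exact absurd c2 (disjoint_left.1 (win_disj hb (by omega)) (a1 c3))
        · by_cases c4 : k' = k
          · exact c4 ▸ c3
          · exact absurd c2 (disjoint_left.1 (win_disj hb (by omega)) ((a2 k').1 c3))
    have e' : x.1 ∪ univ.biUnion x.2 = x'.1 ∪ univ.biUnion x'.2 := e
    refine Prod.ext ?_ (funext fun k => ?_)
    · rw [← (key x hx).1, e', (key x' hx').1]
    · rw [← (key x hx).2, e', (key x' hx').2]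
  · obtain ⟨⟨a1, a3⟩, a2⟩ := hm x hx
    obtain ⟨-, p1, p2⟩ := mem_win.1 hp
    have c0 : (x.1 ∪ univ.biUnion x.2).card = K := by
      rw [card_union_of_disjoint, card_biUnion, hK, a3, ← Fin.sum_univ_eq_sum_range]
      · exact congrArg _ (sum_congr rfl fun k _ => (a2 k).2)
      · exact fun k _ k' _ h => (win_disj hb (by omega)).mono (a2 k).1 (a2 k').1
      · exact (disjoint_biUnion_right _ _ _).2 fun k _ =>
          (win_disj hb (by omega)).mono a1 (a2 k).1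
    have c1 : ∀ q ∈ x.1 ∪ univ.biUnion x.2, b 1 < q ∧ q ≤ b (n + 2) := by
      intro q hq
      rcases mem_union.1 hq with h | h
      · obtain ⟨-, c1, c2⟩ := mem_win.1 (a1 h)
        exact ⟨c1, c2.trans (hb (by omega))⟩
      · obtain ⟨k, -, h⟩ := mem_biUnion.1 h
        obtain ⟨-, c1, c2⟩ := mem_win.1 ((a2 k).1 h)
        exact ⟨(hb (by omega)).trans_lt c1, c2.trans (hb (by omega))⟩
    generalize x.1 ∪ univ.biUnion x.2 = d at c0 c1
    refine ⟨fun q hq => lt_of_le_of_lt p2 (c1 q hq).1, c0 ▸ h2, fun q hq _ => ?_, ?_⟩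
    · refine lt_of_le_of_lt ?_ hOK
      rw [← cast_pr, ← Nat.cast_pow, ← Nat.cast_mul, Nat.cast_le]
      have c2 : (d.filter fun r => q < r).card < K :=
        c0 ▸ card_lt_card (filter_ssubset.2 ⟨q, hq, lt_irrefl q⟩)
      calc _ ≤ b (n + 2) ^ (d.filter fun r => q < r).card * b (n + 2) ^ 3 :=
            Nat.mul_le_mul (pr_le_pow fun r hr => (c1 r (mem_filter.1 hr).1).2)
              (Nat.pow_le_pow_left (c1 q hq).2 3)
        _ ≤ _ := by
            rw [← pow_add]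
            exact Nat.pow_le_pow_right (by have := c1 q hq; omega) (by omega)
    · refine hD.trans ?_
      rw [← cast_pr, ← Nat.cast_pow, ← Nat.cast_mul, Nat.cast_le, pow_add, ← c0]
      exact Nat.mul_le_mul (pow_le_pr fun r hr => (hb zero_le_one).trans (c1 r hr).1.le)
        (Nat.pow_le_pow_left p1.le 3)

theorem sieve_win (hb : Monotone b) (j0 : ℕ) (j : ℕ → ℕ) {K : ℕ}
    (hK : K = j0 + ∑ k ∈ range n, j k) {D D' E : ℝ} {M0 M1 Dm R Ω : ℕ} {Y0 Y1 : ℕ → ℕ}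
    (hPs : ∀ p ∈ Ps, p.Prime ∧ Nat.Coprime p W ∧ (p : ℝ) < D) (hW : 0 < W) (hL : 0 < L)
    (h2 : K % 2 = 0) (hOK : ((b (n + 2) ^ (K + 2) : ℕ) : ℝ) < D) (hD : D ≤ (b 0 ^ (K + 3) : ℕ))
    (hD1 : 1 < D) (hD' : (b 1 : ℝ) ≤ D') (hD1' : 1 < D') (hM0 : M0 ≤ b 0 ^ (j0 + 1))
    (hM1 : (b 1 * b 2 ^ j0 : ℕ) * D' ≤ M1) (hY0 : ∀ k < n, Y0 k ≤ b 0 ^ j k)
    (hY1 : ∀ k < n, b (k + 3) ^ j k ≤ Y1 k)
    (hR : ∀ T ⊆ Ps, pr T ≤ Ω → (Rt f (pr T)).card ≤ R) (hDm : R ≤ Dm) (hΩ : M1 ≤ Ω)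
    (hΩ1 : ∀ k < n, Y1 k ≤ Ω) (hΩ2 : D ≤ Ω) (hLev : LevelN f n W N L M0 M1 Dm Y0 Y1 E)
    {g : ℕ → ℝ} (hg : g = fun p => (omega f p : ℝ) / p) :
    (((Icc 1 N).filter (fun n : ℕ => Nat.Coprime (f.eval (n : ℤ)).natAbs W ∧
        ∀ p ∈ Ps, ¬ (p : ℤ) ∣ f.eval (n : ℤ))).card : ℝ)
      ≤ ((N : ℝ) + L) * ((adm f W).card / W) * (rSum 0 D Ps g -
          (∑ p ∈ win Ps b 0, g p * rSum 1 D' (Ps.filter (· < p)) g) * es g (win Ps b 1) j0 *
            ∏ k : Fin n, es g (win Ps b (k + 2)) (j k)) + (D * (R * W) + W * E) := by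
  have hP : ∀ p ∈ Ps, p.Prime := fun p hp => (hPs p hp).1
  have hP' : ∀ p ∈ Ps, p.Prime ∧ Nat.Coprime p W := fun p hp => ⟨hP p hp, (hPs p hp).2.1⟩
  have ws : ∀ i, win Ps b i ⊆ Ps := fun i => filter_subset _ _
  have hm : ∀ i ∈ (win Ps b 0 ×ˢ (win Ps b 1).powersetCard j0).sigma
      (fun x => rSet 1 D' (Ps.filter (· < x.1))), i.1.1 ∈ Ps ∧ b 0 < i.1.1 ∧ i.1.1 ≤ b 1 ∧
      (∀ q ∈ i.1.2, q ∈ Ps ∧ b 1 < q ∧ q ≤ b 2) ∧ i.1.2.card = j0 ∧
      (∀ q ∈ i.2, q ∈ Ps ∧ q < i.1.1) ∧ rOK 1 D' i.2 := by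
    intro i hi
    obtain ⟨a1, a2⟩ := mem_sigma.1 hi
    obtain ⟨a3, a4⟩ := mem_product.1 a1
    obtain ⟨a5, a6, a7⟩ := mem_win.1 a3
    exact ⟨a5, a6, a7, fun q hq => mem_win.1 ((mem_powersetCard.1 a4).1 hq),
      (mem_powersetCard.1 a4).2, fun q hq => mem_filter.1 ((mem_rSet.1 a2).1 hq),
      (mem_rSet.1 a2).2⟩
  have hpr : ∀ i ∈ (win Ps b 0 ×ˢ (win Ps b 1).powersetCard j0).sigma
      (fun x => rSet 1 D' (Ps.filter (· < x.1))),
      i.1.1 ∉ i.1.2 ∧ Disjoint (insert i.1.1 i.1.2) i.2 := by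
    intro i hi
    obtain ⟨-, -, a3, a4, -, a6, -⟩ := hm i hi
    refine ⟨fun h => by have := a4 _ h; omega, disjoint_left.2 fun q h1 h2 => ?_⟩
    have := a6 q h2
    rcases mem_insert.1 h1 with h | h
    · omega
    · have := a4 q h
      omega
  have k2 := AX_multi (f := f) (N := N) (L := L) (n := n)
    ((win Ps b 0 ×ˢ (win Ps b 1).powersetCard j0).sigma fun x => rSet 1 D' (Ps.filter (· < x.1)))
    (fun i => insert i.1.1 i.1.2 ∪ i.2) (fun i => (-1) ^ i.2.card)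
    (fun k => (win Ps b (k + 2)).powersetCard (j k)) hP' hW (fun i hi i' hi' e => ?_)
    (fun i hi => ?_) (fun k hk S hS => ?_) (fun i hi k hk S hS => ?_)
    (fun k _ k' _ h S hS S' hS' => (win_disj hb (by omega)).mono (mem_powersetCard.1 hS).1
      (mem_powersetCard.1 hS').1) hLev
  rotate_left
  · obtain ⟨-, -, a3, a4, -, a6, -⟩ := hm i hi
    obtain ⟨-, -, c3, c4, -, c6, -⟩ := hm i' hi'
    have e' : ∀ q, (q = i.1.1 ∨ q ∈ i.1.2) ∨ q ∈ i.2 ↔ (q = i'.1.1 ∨ q ∈ i'.1.2) ∨ q ∈ i'.2 := by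
      intro q
      rw [← mem_insert, ← mem_insert, ← mem_union, ← mem_union]
      exact Finset.ext_iff.1 e q
    have e1 : i.1.1 = i'.1.1 := by
      have u1 := (e' i.1.1).1 (Or.inl (Or.inl rfl))
      have u2 := (e' i'.1.1).2 (Or.inl (Or.inl rfl))
      have u3 := c4 i.1.1
      have u4 := c6 i.1.1
      have u5 := a4 i'.1.1
      have u6 := a6 i'.1.1
      grind
    refine Sigma.ext (Prod.ext e1 (Finset.ext fun q => ?_)) (heq_of_eq (Finset.ext fun q => ?_))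
    all_goals
      have u1 := e' q
      have u3 := c4 q
      have u4 := c6 q
      have u5 := a4 q
      have u6 := a6 q
      grind
  · obtain ⟨a1, a2, a3, a4, a5, a6, a7⟩ := hm i hi
    have s1 : insert i.1.1 i.1.2 ∪ i.2 ⊆ Ps := union_subset
      (insert_subset a1 fun q hq => (a4 q hq).1) fun q hq => (a6 q hq).1
    have e : pr (insert i.1.1 i.1.2 ∪ i.2) = i.1.1 * pr i.1.2 * pr i.2 := by
      rw [pr, prod_union (hpr i hi).2, prod_insert (hpr i hi).1, pr, pr]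
    have s2 : pr (insert i.1.1 i.1.2 ∪ i.2) ≤ M1 := by
      have t1 := prod_lt_of_rOK le_rfl a7 hD1' fun q hq => ⟨(hP q (a6 q hq).1).pos,
        lt_of_lt_of_le (Nat.cast_lt.2 ((a6 q hq).2.trans_le a3)) hD'⟩
      have t2 : i.1.1 * pr i.1.2 ≤ b 1 * b 2 ^ j0 :=
        Nat.mul_le_mul a3 (a5 ▸ pr_le_pow fun q hq => (a4 q hq).2.2)
      rw [← Nat.cast_le (α := ℝ), e, Nat.cast_mul, cast_pr i.2]
      exact (mul_le_mul (Nat.cast_le.2 t2) t1.le (prod_nonneg fun _ _ => Nat.cast_nonneg _)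
        (Nat.cast_nonneg _)).trans hM1
    refine ⟨s1, (hR _ s1 (s2.trans hΩ)).trans hDm, hM0.trans ?_, s2, by simp⟩
    rw [e, pow_succ']
    refine le_trans (Nat.mul_le_mul a2.le (a5 ▸ pow_le_pr fun q hq => ?_))
      (Nat.le_mul_of_pos_right _ (pr_pos fun q hq => hP q (a6 q hq).1))
    exact (hb zero_le_one).trans (a4 q hq).2.1.le
  · obtain ⟨a1, a2⟩ := mem_powersetCard.1 hS
    have s2 : pr S ≤ Y1 k := (pr_le_pow fun q hq => (mem_win.1 (a1 hq)).2.2).trans (a2 ▸ hY1 k hk)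
    exact ⟨a1.trans (ws _), (hR _ (a1.trans (ws _)) (s2.trans (hΩ1 k hk))).trans hDm,
      (hY0 k hk).trans (a2 ▸ pow_le_pr fun q hq =>
        (hb (Nat.zero_le _)).trans (mem_win.1 (a1 hq)).2.1.le), s2⟩
  · obtain ⟨-, -, a3, a4, -, a6, -⟩ := hm i hi
    refine disjoint_left.2 fun q h1 h2 => ?_
    have u1 := (mem_win.1 ((mem_powersetCard.1 hS).1 h2)).2.1
    have u2 := hb (show 2 ≤ k + 2 by omega)
    have u3 := hb (show 1 ≤ 2 by omega)
    have u5 := a4 q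
    have u6 := a6 q
    rw [mem_union, mem_insert] at h1
    grind
  have k0 := count_le_AX (f := f) (W := W) (N := N) (Ps := Ps) hL
    fun T => if T = ∅ then (1 : ℝ) else 0
  have k1 : |RM f W N L Ps (∑ d ∈ rSet 0 D Ps, (-1 : ℝ) ^ d.card • ind d)| ≤ D * (R * W) := by
    classical
    rw [map_sum, rSet, sum_filter]
    refine sum_le_of_level hP (by positivity) (by linarith) fun T hT h => ?_
    have t0 : rOK 0 D T := by
      by_contra h0
      exact h (if_neg h0)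
    have t1 := (prod_lt_of_rOK zero_le_one t0 hD1 fun q hq =>
      ⟨(hP q (hT hq)).pos, (hPs q (hT hq)).2.2⟩).le
    rw [← cast_pr] at t1
    have t2 := abs_RM_le (f := f) (N := N) hP' hW hL hT (empty_subset _) (disjoint_empty_right _)
    rw [union_empty, prod_empty, mul_one] at t2
    refine ⟨t1, ?_⟩
    rw [if_pos t0, map_smul, smul_eq_mul, abs_mul, abs_pow, abs_neg, abs_one, one_pow, one_mul]
    refine t2.trans ?_
    gcongr
    exact hR T hT (Nat.cast_le.1 (t1.trans hΩ2))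
  have e1 : EX g Ps (∑ d ∈ rSet 0 D Ps, (-1 : ℝ) ^ d.card • ind d) = rSum 0 D Ps g := by
    rw [map_sum]
    exact sum_congr rfl fun d hd => by rw [map_smul, EX_ind _ (mem_rSet.1 hd).1, smul_eq_mul]
  have e2 : ∑ i ∈ (win Ps b 0 ×ˢ (win Ps b 1).powersetCard j0).sigma
      (fun x => rSet 1 D' (Ps.filter (· < x.1))),
      (-1) ^ i.2.card * ∏ p ∈ insert i.1.1 i.1.2 ∪ i.2, g p =
      (∑ p ∈ win Ps b 0, g p * rSum 1 D' (Ps.filter (· < p)) g) * es g (win Ps b 1) j0 := by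
    rw [sum_congr rfl fun i hi => by rw [prod_union (hpr i hi).2, prod_insert (hpr i hi).1],
      sum_sigma, sum_product, es, sum_mul_sum]
    refine sum_congr rfl fun p _ => sum_congr rfl fun S _ => ?_
    rw [rSum, mul_sum, sum_mul]
    exact sum_congr rfl fun l _ => by ring
  rw [RM, LinearMap.sub_apply, LinearMap.smul_apply, smul_eq_mul, ← hg, e1] at k1
  have k3 := AX_mono (f := f) (W := W) (N := N) (L := L) (Ps := Ps)
    (X := ((fun T => if T = ∅ then (1 : ℝ) else 0) * fun T => if T = ∅ then (1 : ℝ) else 0) +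
      fun T => (∑ i ∈ (win Ps b 0 ×ˢ (win Ps b 1).powersetCard j0).sigma
          (fun x => rSet 1 D' (Ps.filter (· < x.1))),
        (-1) ^ i.2.card * ind (insert i.1.1 i.1.2 ∪ i.2) T) *
        ∏ k : Fin n, ∑ S ∈ (win Ps b (k + 2)).powersetCard (j k), ind S T)
    (Y := ∑ d ∈ rSet 0 D Ps, (-1 : ℝ) ^ d.card • ind d) fun T hT => by
      rw [Finset.sum_apply]
      refine le_trans (le_of_eq ?_) (slack_win (D' := D') hb j0 j hK h2 hOK hD hT)
      rw [Pi.add_apply, Pi.mul_apply]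
      congr 1
      split_ifs <;> norm_num
  rw [map_add] at k3
  subst hg
  rw [e2] at k2
  simp only [if_true, mul_one] at k0
  have k4 := (abs_le.1 k1).2
  have k5 := (abs_le.1 k2).1
  unfold adm es at *
  linarith

end Pool.Agent.Work.MP_51e72e_nt.Deg
end
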