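import Pool.Agent.Work.MP_51e72e_nt.Moment

/-!
Discrepancy of `c / (x y)` modulo `q` in an interval, for bilinear weights.
-/

set_option autoImplicit false

namespace Pool.Agent.Work.MP_51e72e_nt

open Finset Pool.Agent.Lib.LargeSieve

/-- number of `t ∈ [1, T]` in the class `y` -/
def cnt {q : ℕ} (T : ℕ) (y : ZMod q) : ℕ :=
  ((Icc 1 T).filter (fun t : ℕ => (t : ZMod q) = y)).card

lemma cnt_mono {q : ℕ} {T T' : ℕ} (h : T ≤ T') (y : ZMod q) : cnt T y ≤ cnt T' y :=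
  card_le_card (filter_subset_filter _ (Icc_subset_Icc_right h))

lemma cnt_fourier {q : ℕ} [NeZero q] (T : ℕ) (y : ZMod q) :
    (cnt T y : ℂ) - (T : ℂ) / q = ∑ m ∈ (univ : Finset (ZMod q)).erase 0,
      ((∑ t ∈ Icc 1 T, ZMod.stdAddChar (m * (t : ZMod q))) / q) * ZMod.stdAddChar (-m * y) := by
  have hq : (q : ℂ) ≠ 0 := Nat.cast_ne_zero.mpr (NeZero.ne q)
  have h1 : (cnt T y : ℂ) = ∑ m : ZMod q,
      ((∑ t ∈ Icc 1 T, ZMod.stdAddChar (m * (t : ZMod q))) / q) * ZMod.stdAddChar (-m * y) := by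
    rw [cnt, card_filter]
    push_cast
    simp_rw [sum_div, sum_mul]
    rw [sum_comm]
    refine sum_congr rfl fun t _ => ?_
    have := sum_stdAddChar_orth q (t : ZMod q) y
    simp_rw [conj_stdAddChar] at this
    have e : ∑ m : ZMod q, ZMod.stdAddChar (m * (t : ZMod q)) / (q : ℂ) * ZMod.stdAddChar (-m * y)
        = (∑ m : ZMod q, ZMod.stdAddChar (m * (t : ZMod q)) * ZMod.stdAddChar (-(m * y))) / q := by
      rw [sum_div]
      refine sum_congr rfl fun m _ => ?_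
      rw [neg_mul]; ring
    rw [e, this]
    split_ifs
    · simp [hq]
    · simp
  rw [h1, ← add_sum_erase univ _ (mem_univ (0 : ZMod q))]
  simp

/-- distance of a residue from zero -/
def mred {q : ℕ} (m : ZMod q) : ℕ := min m.val (q - m.val)

lemma mred_pos {q : ℕ} [NeZero q] {m : ZMod q} (hm : m ≠ 0) : 1 ≤ mred m := by
  have h1 := ZMod.val_lt m
  have h2 : m.val ≠ 0 := (ZMod.val_eq_zero m).not.mpr hm
  unfold mred; omega

lemma norm_geom_le {q : ℕ} [NeZero q] (T : ℕ) {m : ZMod q} (hm : m ≠ 0) :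
    ‖(∑ t ∈ Icc 1 T, ZMod.stdAddChar (m * (t : ZMod q)) : ℂ) / q‖ ≤ 1 / (2 * (mred m : ℝ)) := by
  have hq : (0 : ℝ) < q := Nat.cast_pos.mpr (Nat.pos_of_ne_zero (NeZero.ne q))
  have hm1 : (1 : ℝ) ≤ mred m := by exact_mod_cast mred_pos hm
  have hv := ZMod.val_lt m
  set x : ℝ := (m.val : ℝ) / q with hx
  have hd : (mred m : ℝ) / q ≤ dZ x := by
    unfold dZ
    have a1 : (mred m : ℝ) ≤ m.val := by exact_mod_cast min_le_left _ _
    have a2 : (mred m : ℝ) ≤ q - m.val := by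
      have : mred m ≤ q - m.val := min_le_right _ _
      rw [← Nat.cast_sub hv.le]; exact_mod_cast this
    rcases le_or_gt (round x) 0 with h | h
    · have h' : ((round x : ℤ) : ℝ) ≤ 0 := by exact_mod_cast h
      refine le_trans ?_ (le_abs_self _)
      have : (mred m : ℝ) / q ≤ x := div_le_div_of_nonneg_right a1 hq.le
      linarith only [h', this]
    · have h' : (1 : ℝ) ≤ ((round x : ℤ) : ℝ) := by exact_mod_cast h
      refine le_trans ?_ (neg_le_abs _)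
      have : (mred m : ℝ) / q ≤ (q - m.val) / q := div_le_div_of_nonneg_right a2 hq.le
      rw [sub_div, div_self hq.ne'] at this
      linarith only [h', this]
  have hd0 : 0 < dZ x := lt_of_lt_of_le (by positivity) hd
  have e : (∑ t ∈ Icc 1 T, ZMod.stdAddChar (m * (t : ZMod q)) : ℂ)
      = ee x * ∑ n ∈ range T, ee (n * x) := by
    rw [← Finset.Ico_add_one_right_eq_Icc, sum_Ico_eq_sum_range, Nat.add_sub_cancel, mul_sum]
    refine sum_congr rfl fun n _ => ?_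
    have := stdAddChar_nat q (1 + n) m.val
    rw [ZMod.natCast_zmod_val] at this
    rw [mul_comm m, this, ← ee_add]
    congr 1
    push_cast; ring
  rw [e, norm_div, norm_mul, norm_ee, one_mul, Complex.norm_natCast, div_le_iff₀ hq]
  refine (norm_sum_ee_le T x hd0).trans ?_
  rw [div_le_iff₀ (by positivity)]
  rw [div_le_iff₀ hq] at hd
  have : 1 / (2 * (mred m : ℝ)) * q * (2 * dZ x) = (dZ x * q) / mred m := by field_simp
  rw [this, le_div_iff₀ (by positivity)]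
  linarith only [hd]

lemma dvd_mred_mul {q : ℕ} [NeZero q] (m : ZMod q) (N : ℤ) (h : -m * (N : ZMod q) = 0) :
    (q : ℤ) ∣ (mred m : ℤ) * N := by
  rw [← ZMod.intCast_zmod_eq_zero_iff_dvd]
  push_cast
  have hv := ZMod.val_lt m
  unfold mred
  rcases min_choice m.val (q - m.val) with h1 | h1
  · rw [h1, ZMod.natCast_zmod_val]; linear_combination -h
  · rw [h1, Nat.cast_sub hv.le, ZMod.natCast_zmod_val, ZMod.natCast_self]
    linear_combination h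

lemma sum_le_of_inj {α β : Type*} [DecidableEq β] (s : Finset α) (t : Finset β) (F : β → ℝ)
    (φ : α → β) (hφ : Set.InjOn φ s) (hm : ∀ a ∈ s, φ a ∈ t) (hF : ∀ x ∈ t, 0 ≤ F x) :
    ∑ a ∈ s, F (φ a) ≤ ∑ x ∈ t, F x := by
  rw [← sum_image hφ]
  exact sum_le_sum_of_subset_of_nonneg (image_subset_iff.mpr hm) fun x hx _ => hF x hx

lemma sum_mred_le {q Q : ℕ} [NeZero q] (hQ : q ≤ Q) (f : ℕ → ℝ) (hf : ∀ k, 0 ≤ f k) :
    ∑ m ∈ (univ : Finset (ZMod q)).erase 0, 1 / (2 * (mred m : ℝ)) * f (mred m)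
      ≤ ∑ k ∈ Icc 1 Q, 1 / (k : ℝ) * f k := by
  set F : ℕ → ℝ := fun k => 1 / (2 * (k : ℝ)) * f k with hF
  have hF0 : ∀ k, 0 ≤ F k := fun k => mul_nonneg (by positivity) (hf k)
  have h1 : ∀ m ∈ (univ : Finset (ZMod q)).erase 0, F (mred m) ≤ F m.val + F (q - m.val) := by
    intro m _
    unfold mred
    rcases min_choice m.val (q - m.val) with h | h <;> rw [h]
    · linarith only [hF0 (q - m.val)]
    · linarith only [hF0 m.val]
  have h2 : ∑ m ∈ (univ : Finset (ZMod q)).erase 0, F m.val ≤ ∑ k ∈ Icc 1 Q, F k := by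
    refine sum_le_of_inj _ _ F _ (fun a _ b _ h => ZMod.val_injective q h) ?_ fun k _ => hF0 k
    intro m hm
    have := ZMod.val_lt m
    have h2 : m.val ≠ 0 := (ZMod.val_eq_zero m).not.mpr (mem_erase.mp hm).1
    rw [mem_Icc]; omega
  have h3 : ∑ m ∈ (univ : Finset (ZMod q)).erase 0, F (q - m.val) ≤ ∑ k ∈ Icc 1 Q, F k := by
    refine sum_le_of_inj _ _ F (fun m : ZMod q => q - m.val) ?_ ?_ fun k _ => hF0 k
    · intro a _ b _ h
      have ha := ZMod.val_lt a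
      have hb := ZMod.val_lt b
      apply ZMod.val_injective q
      simp only at h
      omega
    · intro m hm
      have := ZMod.val_lt m
      rw [mem_Icc]; omega
  calc _ ≤ ∑ m ∈ (univ : Finset (ZMod q)).erase 0, (F m.val + F (q - m.val)) := sum_le_sum h1
    _ ≤ ∑ k ∈ Icc 1 Q, F k + ∑ k ∈ Icc 1 Q, F k := by rw [sum_add_distrib]; linarith
    _ = _ := by
        rw [← sum_add_distrib]
        refine sum_congr rfl fun k _ => ?_
        rw [hF]; ring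

/-- the bound for one frequency -/
noncomputable def kOne (X1 X2 r q : ℕ) (σ τ : ℝ) (k : ℕ) : ℝ :=
  X1 * X2 * σ * (1 + jCount X1 r q k / ((X1 : ℝ) ^ (2 * r) * τ)
    + jCount X2 r q k / ((X2 : ℝ) ^ (2 * r) * τ))

/-- the bound for the bilinear discrepancy -/
noncomputable def kB (X1 X2 r Q : ℕ) (σ τ : ℝ) (q : ℕ) : ℝ :=
  ∑ k ∈ Icc 1 Q, 1 / (k : ℝ) * kOne X1 X2 r q σ τ k

lemma kOne_nonneg (X1 X2 r q : ℕ) {σ τ : ℝ} (hσ : 0 ≤ σ) (hτ : 0 ≤ τ) (k : ℕ) :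
    0 ≤ kOne X1 X2 r q σ τ k := by unfold kOne; positivity

lemma kB_nonneg (X1 X2 r Q : ℕ) {σ τ : ℝ} (hσ : 0 ≤ σ) (hτ : 0 ≤ τ) (q : ℕ) :
    0 ≤ kB X1 X2 r Q σ τ q :=
  sum_nonneg fun k _ => mul_nonneg (by positivity) (kOne_nonneg _ _ _ _ hσ hτ k)

lemma pow_ident (x y Q a b τ : ℝ) (n : ℕ) :
    x ^ (2 * (n + 1) * n) * y ^ (2 * (n + 1) * n) *
        (Q * (a * (x ^ (2 * (n + 1)) * τ)) * (b * (y ^ (2 * (n + 1)) * τ)))
      = (x * y) ^ (2 * (n + 1) ^ 2) * (Q * τ ^ 2) * (a * b) := by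
  rw [show 2 * (n + 1) ^ 2 = 2 * (n + 1) * n + 2 * (n + 1) by ring, mul_pow, pow_add, pow_add]
  generalize x ^ (2 * (n + 1) * n) = A
  generalize y ^ (2 * (n + 1) * n) = B
  generalize x ^ (2 * (n + 1)) = C
  generalize y ^ (2 * (n + 1)) = D
  ring

lemma mono_aux {c1 c2 x y q Q j1 j2 J1 J2 : ℝ} (e : ℕ) (h0 : 0 ≤ c1) (h1 : c1 ≤ x) (h2 : 0 ≤ c2)
    (h3 : c2 ≤ y) (h4 : 0 ≤ q) (h5 : q ≤ Q) (h6 : 0 ≤ j1) (h7 : j1 ≤ J1) (h8 : 0 ≤ j2)
    (h9 : j2 ≤ J2) : c1 ^ e * c2 ^ e * (q * j1 * j2) ≤ x ^ e * y ^ e * (Q * J1 * J2) := by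
  have : 0 ≤ x := h0.trans h1
  have : 0 ≤ y := h2.trans h3
  have : 0 ≤ Q := h4.trans h5
  have : 0 ≤ J1 := h6.trans h7
  gcongr

lemma bil_char_le {q Q : ℕ} [NeZero q] (hQ : q ≤ Q) (X1 X2 n : ℕ) (S1 S2 : Finset ℕ)
    (h1 : S1 ⊆ sqf X1) (h2 : S2 ⊆ sqf X2) (hc1 : ∀ x ∈ S1, Nat.Coprime x q)
    (hc2 : ∀ x ∈ S2, Nat.Coprime x q) (α β : ℕ → ℂ) (hα : ∀ x ∈ S1, ‖α x‖ ≤ 1)
    (hβ : ∀ x ∈ S2, ‖β x‖ ≤ 1) (c : ZMod q) (hu : IsUnit c) {σ τ : ℝ} (hσ : 0 ≤ σ) (hτ : 0 < τ)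
    (hστ : Q * τ ^ 2 ≤ σ ^ (2 * (n + 1) ^ 2)) (m : ZMod q) :
    ‖∑ x ∈ S1, ∑ y ∈ S2, α x * β y *
        ZMod.stdAddChar (-m * c * ((x : ℕ) : ZMod q)⁻¹ * ((y : ℕ) : ZMod q)⁻¹)‖
      ≤ kOne X1 X2 (n + 1) q σ τ (mred m) := by
  rcases Nat.eq_zero_or_pos X1 with rfl | hX1
  · have : S1 = ∅ := by simpa [sqf] using h1
    subst this
    simpa using kOne_nonneg _ _ _ _ hσ hτ.le _
  rcases Nat.eq_zero_or_pos X2 with rfl | hX2
  · have : S2 = ∅ := by simpa [sqf] using h2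
    subst this
    simpa using kOne_nonneg _ _ _ _ hσ hτ.le _
  have k := karatsuba S1 S2 (fun x => ((x : ℕ) : ZMod q)⁻¹) (fun x => ((x : ℕ) : ZMod q)⁻¹)
    α β hα hβ (-m * c) n
  set r := n + 1 with hr
  have j1 : (momentCount S1 (fun x => ((x : ℕ) : ZMod q)⁻¹) (-m * c) r : ℝ)
      ≤ jCount X1 r q (mred m) := by
    exact_mod_cast momentCount_le_jCount S1 X1 r (mred m) h1 hc1 (-m) c hu (dvd_mred_mul m)
  have j2 : (momentCount S2 (fun x => ((x : ℕ) : ZMod q)⁻¹) 1 r : ℝ)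
      ≤ jCount X2 r q (mred m) := by
    have := momentCount_le_jCount S2 X2 r (mred m) h2 hc2 1 1 isUnit_one (fun N hN => by
      rw [one_mul, ZMod.intCast_zmod_eq_zero_iff_dvd] at hN
      exact hN.mul_left _)
    rw [one_mul] at this
    exact_mod_cast this
  have c1 : (S1.card : ℝ) ≤ X1 := by exact_mod_cast (card_le_card h1).trans (card_sqf_le X1)
  have c2 : (S2.card : ℝ) ≤ X2 := by exact_mod_cast (card_le_card h2).trans (card_sqf_le X2)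
  have hX1' : (0 : ℝ) < X1 := Nat.cast_pos.mpr hX1
  have hX2' : (0 : ℝ) < X2 := Nat.cast_pos.mpr hX2
  have hq' : (q : ℝ) ≤ Q := by exact_mod_cast hQ
  set a : ℝ := jCount X1 r q (mred m) / ((X1 : ℝ) ^ (2 * r) * τ) with ha
  set b : ℝ := jCount X2 r q (mred m) / ((X2 : ℝ) ^ (2 * r) * τ) with hb
  have ha0 : 0 ≤ a := div_nonneg (Nat.cast_nonneg _) (mul_pos (pow_pos hX1' _) hτ).le
  have hb0 : 0 ≤ b := div_nonneg (Nat.cast_nonneg _) (mul_pos (pow_pos hX2' _) hτ).le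
  have ea : (jCount X1 r q (mred m) : ℝ) = a * ((X1 : ℝ) ^ (2 * r) * τ) := by
    rw [ha]; field_simp
  have eb : (jCount X2 r q (mred m) : ℝ) = b * ((X2 : ℝ) ^ (2 * r) * τ) := by
    rw [hb]; field_simp
  have hab : a * b ≤ (1 + a + b) ^ (2 * r ^ 2) := by
    calc a * b ≤ (1 + a + b) ^ 2 := by nlinarith only [ha0, hb0]
      _ ≤ _ := pow_le_pow_right₀ (by linarith) (by rw [hr]; nlinarith)
  refine le_of_pow_le_pow_left₀ (n := 2 * r ^ 2) (by rw [hr]; positivity)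
    (kOne_nonneg _ _ _ _ hσ hτ.le _) (k.trans ?_)
  calc _ ≤ (X1 : ℝ) ^ (2 * r * n) * (X2 : ℝ) ^ (2 * r * n) *
        (Q * (a * ((X1 : ℝ) ^ (2 * r) * τ)) * (b * ((X2 : ℝ) ^ (2 * r) * τ))) := by
        rw [← ea, ← eb]
        exact mono_aux _ (Nat.cast_nonneg _) c1 (Nat.cast_nonneg _) c2 (Nat.cast_nonneg _) hq'
          (Nat.cast_nonneg _) j1 (Nat.cast_nonneg _) j2
    _ = ((X1 : ℝ) * X2) ^ (2 * r ^ 2) * (Q * τ ^ 2) * (a * b) :=
        pow_ident _ _ _ _ _ _ n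
    _ ≤ ((X1 : ℝ) * X2) ^ (2 * r ^ 2) * σ ^ (2 * r ^ 2) * (1 + a + b) ^ (2 * r ^ 2) :=
        mul_le_mul (mul_le_mul_of_nonneg_left hστ (pow_nonneg (mul_pos hX1' hX2').le _)) hab
          (mul_nonneg ha0 hb0)
          (mul_nonneg (pow_nonneg (mul_pos hX1' hX2').le _) (pow_nonneg hσ _))
    _ = _ := by rw [kOne, ← ha, ← hb, mul_pow (X1 * X2 * σ : ℝ), mul_pow (X1 * X2 : ℝ) σ]

/-- The bilinear discrepancy bound for one modulus. -/
theorem disc_le {q Q : ℕ} [NeZero q] (hQ : q ≤ Q) (X1 X2 n : ℕ) (S1 S2 : Finset ℕ)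
    (h1 : S1 ⊆ sqf X1) (h2 : S2 ⊆ sqf X2) (hc1 : ∀ x ∈ S1, Nat.Coprime x q)
    (hc2 : ∀ x ∈ S2, Nat.Coprime x q) (α β : ℕ → ℝ) (hα : ∀ x ∈ S1, |α x| ≤ 1)
    (hβ : ∀ x ∈ S2, |β x| ≤ 1) (c : ZMod q) (hu : IsUnit c) {σ τ : ℝ} (hσ : 0 ≤ σ) (hτ : 0 < τ)
    (hστ : Q * τ ^ 2 ≤ σ ^ (2 * (n + 1) ^ 2)) (T : ℕ) :
    |∑ x ∈ S1, ∑ y ∈ S2, α x * β y *
        ((cnt T (c * ((x : ℕ) : ZMod q)⁻¹ * ((y : ℕ) : ZMod q)⁻¹) : ℝ) - (T : ℝ) / q)|
      ≤ kB X1 X2 (n + 1) Q σ τ q := by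
  rw [← Real.norm_eq_abs, ← Complex.norm_real]
  push_cast
  simp_rw [cnt_fourier, mul_sum]
  simp_rw [sum_comm (s := S2) (t := (univ : Finset (ZMod q)).erase 0)]
  rw [sum_comm]
  refine (norm_sum_le _ _).trans (le_trans (sum_le_sum fun m hm => ?_)
    (sum_mred_le hQ _ (kOne_nonneg X1 X2 (n + 1) q hσ hτ.le)))
  have e : ∑ x ∈ S1, ∑ y ∈ S2, (α x : ℂ) * (β y : ℂ) *
      ((∑ t ∈ Icc 1 T, ZMod.stdAddChar (m * (t : ZMod q))) / q *
        ZMod.stdAddChar (-m * (c * ((x : ℕ) : ZMod q)⁻¹ * ((y : ℕ) : ZMod q)⁻¹)))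
      = ((∑ t ∈ Icc 1 T, ZMod.stdAddChar (m * (t : ZMod q))) / q) *
        ∑ x ∈ S1, ∑ y ∈ S2, (α x : ℂ) * (β y : ℂ) *
          ZMod.stdAddChar (-m * c * ((x : ℕ) : ZMod q)⁻¹ * ((y : ℕ) : ZMod q)⁻¹) := by
    rw [mul_sum]
    refine sum_congr rfl fun x _ => ?_
    rw [mul_sum]
    refine sum_congr rfl fun y _ => ?_
    rw [show -m * (c * ((x : ℕ) : ZMod q)⁻¹ * ((y : ℕ) : ZMod q)⁻¹)
      = -m * c * ((x : ℕ) : ZMod q)⁻¹ * ((y : ℕ) : ZMod q)⁻¹ by ring]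
    ring
  rw [e, norm_mul]
  refine mul_le_mul (norm_geom_le T (mem_erase.mp hm).1) ?_ (norm_nonneg _) (by positivity)
  exact bil_char_le hQ X1 X2 n S1 S2 h1 h2 hc1 hc2 _ _
    (fun x hx => by rw [Complex.norm_real]; exact hα x hx)
    (fun x hx => by rw [Complex.norm_real]; exact hβ x hx) c hu hσ hτ hστ m

/-- The discrepancy bound summed over the moduli. -/
theorem sum_kB_le (X1 X2 r Q : ℕ) (hr : 1 ≤ r) {σ τ D : ℝ} (hσ : 0 ≤ σ) (hτ : 0 < τ)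
    (hQτ : 1 ≤ Q * τ) (h1 : 1 ≤ (X1 : ℝ) ^ r * τ) (h2 : 1 ≤ (X2 : ℝ) ^ r * τ) (hD0 : 0 ≤ D)
    (hD : ∀ n : ℕ, 1 ≤ n → n ≤ Q * (r * (max X1 X2) ^ (2 * r)) → (n.divisors.card : ℝ) ≤ D) :
    ∑ q ∈ Icc 1 Q, kB X1 X2 r Q σ τ q
      ≤ HH Q * (X1 * X2 * σ * (Q * (1 + 2 * (D ^ (2 * r) + D)))) := by
  have key : ∀ X : ℕ, X ≤ max X1 X2 → 1 ≤ (X : ℝ) ^ r * τ → ∀ k ∈ Icc 1 Q,
      ∑ q ∈ Icc 1 Q, (jCount X r q k : ℝ) / ((X : ℝ) ^ (2 * r) * τ)
        ≤ Q * (D ^ (2 * r) + D) := by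
    intro X hX h k hk
    rw [mem_Icc] at hk
    have hXr : 0 < (X : ℝ) ^ r := by
      rcases (pow_nonneg (Nat.cast_nonneg X : (0 : ℝ) ≤ X) r).eq_or_lt with h0 | h0
      · rw [← h0] at h; norm_num at h
      · exact h0
    have e : (X : ℝ) ^ (2 * r) = (X : ℝ) ^ r * (X : ℝ) ^ r := by ring
    have := sum_jCount_le X r Q k hr hk.1 hk.2 D (fun n a b => hD n a (b.trans
      (Nat.mul_le_mul_left _ (Nat.mul_le_mul_left _ (Nat.pow_le_pow_left hX _))))) hD0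
    rw [← sum_div, div_le_iff₀ (by rw [e]; positivity)]
    refine this.trans ?_
    rw [e]
    have a1 : (Q : ℝ) * ((X : ℝ) ^ r * D ^ (2 * r)) * 1
        ≤ (Q : ℝ) * ((X : ℝ) ^ r * D ^ (2 * r)) * ((X : ℝ) ^ r * τ) := by gcongr
    have a2 : (X : ℝ) ^ r * (X : ℝ) ^ r * D * 1 ≤ (X : ℝ) ^ r * (X : ℝ) ^ r * D * (Q * τ) := by
      gcongr
    nlinarith only [a1, a2]
  unfold kB
  rw [sum_comm, HH, sum_mul]
  refine sum_le_sum fun k hk => ?_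
  rw [← mul_sum]
  refine mul_le_mul_of_nonneg_left ?_ (by positivity)
  unfold kOne
  rw [← mul_sum]
  refine mul_le_mul_of_nonneg_left ?_ (by positivity)
  rw [sum_add_distrib, sum_add_distrib]
  have a1 := key X1 (le_max_left _ _) h1 k hk
  have a2 := key X2 (le_max_right _ _) h2 k hk
  simp only [sum_const, Nat.card_Icc, add_tsub_cancel_right, nsmul_eq_mul, mul_one]
  linarith only [a1, a2]

end Pool.Agent.Work.MP_51e72e_nt
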