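import Pool.Agent.Work.MP_51e72e_nt.GPMain

/-!
Consequences of `gap_patterns`: chains of long gaps, and the question of Erdős and Prachar on
`p_n / n < p_(n+1) / (n+1)`.
-/

set_option autoImplicit false

namespace Pool.Agent.Work.MP_51e72e_nt.PP

open Finset Filter Pool.Agent.Lib.ANT

open Classical in
/-- a positive proportion of the `n` start a chain of `m` gaps, all at least `lam * log p_n` -/
theorem long_gaps (m : ℕ) (lam : ℝ) : ∃ c : ℝ, 0 < c ∧ ∀ᶠ M : ℕ in atTop,
    c * (M : ℝ) ≤ (((range M).filter fun n : ℕ => ∀ j < m, lam * Real.log (Nat.nth Nat.Prime n)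
      ≤ (Nat.nth Nat.Prime (n + j + 1) : ℝ) - Nat.nth Nat.Prime (n + j)).card : ℝ) := by
  obtain ⟨k, h⟩ := gap_patterns m
  obtain ⟨c, hc, h⟩ := h (fun i => (|lam| + 1) * i)
    (fun i i' hi => mul_le_mul_of_nonneg_left (by exact_mod_cast hi) (by positivity)) 1 one_pos
  refine ⟨c, hc, h.mono fun M hM => hM.trans (Nat.cast_le.2 (card_le_card fun n hn => ?_))⟩
  obtain ⟨h1, J, hJ, h2⟩ := mem_filter.1 hn
  refine mem_filter.2 ⟨h1, fun j hj => ?_⟩
  have a1 := (abs_le.1 (h2 ⟨j, hj⟩)).1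
  have a2 : ((J (Fin.castSucc ⟨j, hj⟩) : ℕ) : ℝ) + 1 ≤ (J (Fin.succ ⟨j, hj⟩) : ℕ) := by
    exact_mod_cast hJ (Fin.castSucc_lt_succ (i := ⟨j, hj⟩))
  have a3 : 0 < Real.log (Nat.nth Nat.Prime n) :=
    Real.log_pos (by exact_mod_cast (Nat.prime_nth_prime n).one_lt)
  rw [← le_div_iff₀ a3]
  have a4 := mul_le_mul_of_nonneg_left a2 (show 0 ≤ |lam| + 1 by positivity)
  have a5 := le_abs_self lam
  simp only at a1
  linarith

open Classical in
/-- `p_n / n < p_(n+1) / (n+1)` on a set of positive lower density (`p_(n+1) = nth n`) -/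
theorem erdos_prachar : ∃ c : ℝ, 0 < c ∧ ∀ᶠ M : ℕ in atTop,
    c * (M : ℝ) ≤ (((range M).filter fun n : ℕ => (Nat.nth Nat.Prime n : ℝ) / (n + 1)
      < Nat.nth Nat.Prime (n + 1) / (n + 2)).card : ℝ) := by
  obtain ⟨c, hc, h⟩ := long_gaps 1 2
  have h1 := (tendsto_primeCounting_mul_log_div.comp (tendsto_natCast_atTop_atTop.comp
    nthP_mono.tendsto_atTop)).eventually (lt_mem_nhds (show (1 / 2 : ℝ) < 1 by norm_num))
  obtain ⟨n₀, hn₀⟩ := eventually_atTop.1 h1
  refine ⟨c / 2, by positivity, ?_⟩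
  filter_upwards [h, tendsto_natCast_atTop_atTop.eventually_ge_atTop (2 * (n₀ : ℝ) / c)]
    with M hM hM0
  rw [div_le_iff₀ hc] at hM0
  have a := hM.trans (Nat.cast_le.2 (card_le_card (t := range n₀ ∪
      (range M).filter fun n : ℕ => (Nat.nth Nat.Prime n : ℝ) / (n + 1)
        < Nat.nth Nat.Prime (n + 1) / (n + 2)) fun n hn => ?_))
  · have a' := a.trans (Nat.cast_le.2 (card_union_le _ _))
    rw [card_range] at a'
    push_cast at a'
    linarith
  · rcases lt_or_ge n n₀ with hlt | hge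
    · exact mem_union_left _ (mem_range.2 hlt)
    obtain ⟨a1, a2⟩ := mem_filter.1 hn
    refine mem_union_right _ (mem_filter.2 ⟨a1, ?_⟩)
    have a3 := a2 0 one_pos
    have a4 := hn₀ n hge
    simp only [Function.comp, Nat.floor_natCast, add_zero] at a3 a4
    have hp : (0 : ℝ) < Nat.nth Nat.Prime n := by exact_mod_cast (Nat.prime_nth_prime n).pos
    rw [lt_div_iff₀ hp, Nat.primeCounting, Nat.primeCounting',
      Nat.count_nth_succ_of_infinite Nat.infinite_setOfPred_prime] at a4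
    push_cast at a4
    rw [div_lt_div_iff₀ (by positivity) (by positivity)]
    have a5 := mul_le_mul_of_nonneg_left a3 (show (0 : ℝ) ≤ n + 1 by positivity)
    linarith

end Pool.Agent.Work.MP_51e72e_nt.PP
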