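import Pool.Agent.Work.MP_51e72e_nt.GPCount

/-!
Choice of the parameters, blocks at arbitrary positions.
-/

set_option autoImplicit false

namespace Pool.Agent.Work.MP_51e72e_nt.PP

open Finset Filter Pool.Agent.Lib.ANT

/-- the primes among `n + 1, …, n + K` lie in distinct blocks, and there are at least `m` -/
def Pat {k : ℕ} (K Δ : ℕ) (off : Fin k → ℕ) (m n : ℕ) : Prop :=
  (∀ t, 0 < t → t ≤ K → (n + t).Prime → ∃ i, off i < t ∧ t ≤ off i + Δ) ∧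
    (∀ i t t', off i < t → t ≤ off i + Δ → off i < t' → t' ≤ off i + Δ → (n + t).Prime →
      (n + t').Prime → t = t') ∧ m ≤ ((Ioc n (n + K)).filter Nat.Prime).card

lemma QPar.Good.pat {π : QPar} (ok : π.Ok) {m n : ℕ} (hg : π.Good m n) :
    Pat π.K π.Δ π.off m n := by
  obtain ⟨g1, g2, g3⟩ := hg
  refine ⟨fun t h0 h1 hp => ?_, fun i t t' a1 a2 a3 a4 hp hp' => ?_, ?_⟩
  · by_contra hne
    refine g1 ⟨t - 1, by omega⟩ (mem_compl.2 fun hb => ?_) (by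
      simp only
      rwa [Nat.sub_add_cancel (by omega)])
    obtain ⟨i, -, hb⟩ := mem_biUnion.1 hb
    unfold QPar.B at hb
    rw [mem_blk] at hb
    simp only at hb
    exact hne ⟨i, by omega, by omega⟩
  · have h1 := g2 i
    unfold QPar.B at h1
    rw [card_blk (ok.hKK i) (fun t => (n + t).Prime)] at h1
    exact card_le_one.1 h1 t (mem_filter.2 ⟨mem_Ioc.2 ⟨a1, a2⟩, hp⟩) t'
      (mem_filter.2 ⟨mem_Ioc.2 ⟨a3, a4⟩, hp'⟩)
  · refine g3.trans ?_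
    rw [← card_biUnion fun i _ i' _ h => (ok.B_disjoint i i' h).mono (filter_subset _ _)
      (filter_subset _ _)]
    refine card_le_card_of_injOn (fun j => n + ((j : ℕ) + 1)) (fun j hj => ?_)
      fun j _ j' _ e => Fin.ext (by simpa using e)
    obtain ⟨i, -, hj⟩ := mem_biUnion.1 (mem_coe.1 hj)
    have := j.2
    exact mem_coe.2 (mem_filter.2 ⟨mem_Ioc.2 ⟨by simp only; omega, by simp only; omega⟩,
      (mem_filter.1 hj).2⟩)

lemma CF_le' {π : QPar} {H : ℝ} (hK : (π.K : ℝ) ≤ H ^ 2) (h1 : 3 * π.mA ≤ H) (h2 : Real.exp 3 ≤ H) :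
    π.CF ≤ H ^ (3 * π.k + 2 * (2 * 16 ^ π.mB) + 1) := by
  have h0 : 0 ≤ H := (Real.exp_pos _).le.trans h2
  have h3 : (π.mA : ℝ) * (3 * π.K) ≤ H ^ 3 := by
    calc (π.mA : ℝ) * (3 * π.K) = (3 * π.mA) * π.K := by ring
      _ ≤ H * H ^ 2 := by gcongr
      _ = _ := by ring
  unfold QPar.CF
  rw [pow_succ, pow_add, pow_mul H 3, pow_mul H 2, mul_assoc]
  gcongr

lemma QPar.Ok.surv_bounds {π : QPar} (ok : π.Ok) (hp₁ : π.p₁.Prime) {h : ℕ} (hy : π.y = h ^ 6)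
    (h2 : 2 ≤ h) {δ Λ : ℝ} (v1 : (1 : ℝ) / 16 ^ π.M ≤ 1638400 * (Real.log π.y / h))
    (sq1 : Real.sqrt h * Real.log π.y ≤ 4 * π.Δ) (hΔK : π.Δ ≤ π.K) (Δ1 : (π.Δ : ℝ) ≤ δ * h)
    (K1 : (π.K : ℝ) ≤ 4 * Λ * h) :
    (∀ n i, ((π.B i ∩ π.R n).card : ℝ) * (1 / 16 ^ π.M) ≤ 100 * δ * 1638400) ∧
      ∀ n, ((π.R n).card : ℝ) * (1 / 16 ^ π.M) ≤ 400 * Λ * 1638400 := by
  have hH0 : (0 : ℝ) < h := by exact_mod_cast (by omega : 0 < h)
  have hl : 0 < Real.log π.y := by linarith [ok.hy]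
  unfold QPar.B QPar.R QPar.P
  rw [hy] at *
  constructor
  · intro n i
    have := card_blk_surv (K := π.K) (a := π.off i) (h := π.Δ) hp₁ h2
      (ok.hKK i) sq1 n
    refine (mul_le_mul this v1 (by positivity) (by positivity)).trans ?_
    calc _ = 100 * 1638400 * ((π.Δ : ℝ) / h) := by field_simp
      _ ≤ 100 * 1638400 * δ := by gcongr; rwa [div_le_iff₀ hH0]
      _ = _ := by ring
  · intro n
    have := card_blk_surv (K := π.K) (a := 0) (h := π.K) hp₁ h2 (by omega)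
      (sq1.trans (by gcongr)) n
    rw [show blk π.K 0 π.K = univ from eq_univ_of_forall fun j => mem_blk.2 (by omega),
      univ_inter] at this
    refine (mul_le_mul this v1 (by positivity) (by positivity)).trans ?_
    calc _ = 100 * 1638400 * ((π.K : ℝ) / h) := by field_simp
      _ ≤ 100 * 1638400 * (4 * Λ) := by gcongr; rwa [div_le_iff₀ hH0]
      _ = _ := by ring

lemma QPar.Ok.cm_le {π : QPar} (ok : π.Ok) {H δ : ℝ} (hH : 0 < H) (hδ : 0 < δ)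
    (v2 : Real.log π.y / H ≤ 1 / 16 ^ π.M) (Δ3 : δ * H / 2 ≤ π.Δ)
    (hW : 2 * (2 * π.k).factorial ≤ π.Δ) :
    (δ / (12 * (2 * π.k).factorial)) ^ π.k * Real.exp (-(72 * π.k + 2 * π.k ^ 2))
      ≤ (1 / 3 * (1 / 16 ^ π.M)) ^ π.k *
        avg (pr π.P) (fun n => ∏ i, ((π.B i ∩ π.R n).card : ℝ)) := by
  have hl : 0 < Real.log π.y := by linarith [ok.hy]
  have hW0 : (0 : ℝ) < (2 * π.k).factorial := by exact_mod_cast Nat.factorial_pos _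
  have := avg_prod_card_ge (p₁ := π.p₁) (y := π.y) (K := π.K) (Δ := π.Δ)
    (by have := ok.hK1; have := ok.hK; omega) ok.hk
    π.off ok.hKK hW
  refine le_trans ?_ (mul_le_mul_of_nonneg_left this (by positivity))
  rw [← mul_assoc, ← mul_pow, mul_div_assoc', mul_div_right_comm, ← div_pow]
  generalize ((2 * π.k).factorial : ℝ) = W at hW0 ⊢
  have : δ / (12 * W) ≤ 1 / 3 * (1 / 16 ^ π.M) * (π.Δ / (2 * W)) / Real.log π.y := by
    calc δ / (12 * W) = 1 / 3 * (Real.log π.y / H) * (δ * H / 2 / (2 * W)) / Real.log π.y := by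
          field_simp; norm_num
      _ ≤ _ := by gcongr
  gcongr

open Classical in
lemma good_fixed' {δ cm M₄ : ℝ} {m Λ mA k mB N p₁ : ℕ} {o : Fin k → ℕ} (ho : Monotone o)
    (hoΛ : ∀ i, o i ≤ Λ * hh N) (hΛ1 : (1 : ℝ) ≤ Λ) (hA : 1 ≤ mA) (hk : 1 ≤ k) (hAB : mA ≤ mB)
    (n1 : 96 * C₀ * k * mA ≤ 16 ^ mA)
    (n2 : 96 * 1638400 * (2 * m + 3) * C₀ * 16 ^ mA ≤ mA ^ 2 * k)
    (n3 : 8 * (k + 1) * (C₀ * (400 * Λ * 1638400)) ^ 2 ≤ mB)
    (n4 : (k + 1) * k * 2 * (C₀ * (100 * δ * 1638400)) * (12 * C₀ * mA ^ 2 + 1) ≤ 1)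
    (hδ0 : 0 < δ) (hδ1 : 4 * k * δ ≤ Λ) (hM₄ : M₄ = Real.exp (QPar.κ₄ mB * (400 * Λ * 1638400)))
    (hcm : cm = (δ / (12 * (2 * k).factorial)) ^ k * Real.exp (-(72 * k + 2 * k ^ 2)))
    (hp₁ : p₁.Prime) (hT : ∀ A B : Finset ℕ, (∀ p ∈ A, p.Prime) → B ⊆ A → p₁ ∉ A →
      (∀ p ∈ A, p ≤ N) → (∀ p ∈ B, p ≤ hh N ^ 6) →
      Transfer A B (4 * (k + 2 * 16 ^ mB) + 2) (Real.exp (Real.log N / 8)) N
        (N / (hh N : ℝ) ^ (4 * (3 * k + 2 * (2 * 16 ^ mB) + 1) + 6)))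
    (hΘ : ∀ j ≤ N, (N : ℝ) / 2 ≤ ∑ n ∈ Ioc N (N + N), th (n + j))
    (h200 : Real.exp 200 ≤ hh N) (hH1 : 4 * (Λ : ℝ) + 3 * mA ≤ hh N)
    (hH2 : (4 * (2 * k).factorial + 8) / δ ≤ hh N)
    (hH3 : 128 * Real.exp 73 * k * Λ ^ 2 * M₄ / cm ≤ hh N) (hH4 : 36 / cm ≤ hh N)
    (hH5 : (k : ℝ) + m + (k + 1) * (1 + k) ≤ hh N)
    (hl1 : 51200 * 16 ^ mB * 6 * Real.log (hh N) ^ 1 ≤ Real.log N)
    (hl2 : 9 / δ ^ 2 * Real.log (hh N) ^ 2 ≤ Real.log N)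
    (hl3 : 3 * Real.log (hh N) ^ 1 ≤ Real.log N) (hN2 : 2 ≤ N) :
    ∃ K Δ : ℕ, (K : ℝ) ≤ 4 * Λ * hh N ∧ K ≤ N ∧ (Δ : ℝ) ≤ δ * hh N ∧
      cm ^ 2 / (12 * k ^ 2 * M₄) * N
        ≤ ((Ioc N (N + N)).filter (Pat K Δ (fun i => o i + i * Δ) m)).card := by
  have hlH := log_le_hh N
  have hHl := hh_le N
  generalize hh N = h at *
  have hk' : (1 : ℝ) ≤ k := by exact_mod_cast hk
  have hm0 : (0 : ℝ) ≤ m := Nat.cast_nonneg _
  have hM1 : 1 ≤ M₄ := hM₄ ▸ Real.one_le_exp (mul_nonneg (QPar.κ₄_nonneg _) (by positivity))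
  have hW0 : (0 : ℝ) < (2 * k).factorial := by exact_mod_cast Nat.factorial_pos _
  have hcm0 : 0 < cm := by rw [hcm]; positivity
  have hN : (2 : ℝ) ≤ N := by exact_mod_cast hN2
  have hH201 : (201 : ℝ) ≤ h := by linarith only [Real.add_one_le_exp 200, h200]
  have hH0 : (0 : ℝ) < h := by linarith only [hH201]
  have hH2' : 2 ≤ h := by exact_mod_cast (by linarith only [hH201] : (2 : ℝ) ≤ h)
  have hlog : 200 ≤ Real.log h := (Real.le_log_iff_exp_le hH0).2 h200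
  have hy : Real.log ((h ^ 6 : ℕ) : ℝ) = 6 * Real.log h := by
    rw [Nat.cast_pow, Real.log_pow]; norm_num
  obtain ⟨M, hM, M1, M2⟩ := exists_M (l := Real.log N) (m := mB) (ly := Real.log ((h ^ 6 : ℕ) : ℝ))
    (by linarith only [hy, hlog]) (by rw [hy]; linarith only [hl1])
  have hH3N : (h : ℝ) ^ 3 ≤ N := by
    rw [← Real.log_le_log_iff (by positivity) (by positivity), Real.log_pow]
    push_cast; linarith only [hl3]
  obtain ⟨Δ, Δ1, Δ2⟩ : ∃ Δ : ℕ, (Δ : ℝ) ≤ δ * h ∧ δ * h < Δ + 1 :=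
    ⟨⌊δ * h⌋₊, Nat.floor_le (by positivity), Nat.lt_floor_add_one _⟩
  rw [div_le_iff₀ hδ0] at hH2
  have Δ3 : δ * h / 2 ≤ Δ := by linarith only [Δ2, hH2, hW0]
  obtain ⟨K, hK⟩ : ∃ K, K = Λ * (h + 2) + Δ + 2 * k * Δ := ⟨_, rfl⟩
  have K1 : (K : ℝ) ≤ 4 * Λ * h :=
    hK ▸ K_aux hk' hΛ1 hδ1 Δ1 (by linarith only [hH201])
  have hmA : (0 : ℝ) ≤ mA := Nat.cast_nonneg _
  have K2 : (K : ℝ) ≤ h ^ 2 := K1.trans (by
    rw [sq]; exact mul_le_mul_of_nonneg_right (by linarith only [hH1, hmA]) hH0.le)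
  have K3 : 1 ≤ K := by
    have : 1 ≤ Λ := by exact_mod_cast hΛ1
    have : 0 < Λ * (h + 2) := by positivity
    omega
  have K4 : Δ ≤ K := by omega
  have H1 : (1 : ℝ) ≤ h := by linarith only [hH201]
  have H2 : (100 : ℝ) ≤ h ^ 2 := by nlinarith only [hH201]
  have H4 : (h : ℝ) ^ 2 ≤ h ^ 4 := pow_le_pow_right₀ H1 (by norm_num)
  have H3 : (h : ℝ) ^ 2 ≤ h ^ 3 := pow_le_pow_right₀ H1 (by norm_num)
  let π : QPar := ⟨K, h ^ 6, p₁, M, k, mA, mB, fun i => o i + i * Δ, Δ⟩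
  have ok : π.Ok := by
    refine ⟨K3, ?_, ?_, by show 1000 ≤ Real.log ((h ^ 6 : ℕ) : ℝ); linarith only [hy, hlog],
      hA, hAB, hM, hk, fun i => ?_, fun i i' hi => ?_⟩
    · have : 100 * (K : ℝ) ≤ h ^ 6 := by
        calc 100 * (K : ℝ) ≤ (h : ℝ) ^ 2 * (h : ℝ) ^ 4 :=
            mul_le_mul H2 (K2.trans H4) (by positivity) (by positivity)
          _ = (h : ℝ) ^ 6 := by ring
      exact_mod_cast this
    · have : 8 * (K : ℝ) ^ 2 ≤ h ^ 6 := by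
        calc 8 * (K : ℝ) ^ 2 ≤ (h : ℝ) ^ 2 * ((h : ℝ) ^ 2) ^ 2 := by gcongr; linarith only [H2]
          _ = (h : ℝ) ^ 6 := by ring
      exact_mod_cast this
    · show o i + i * Δ + Δ ≤ K
      have a1 := hoΛ i
      have a2 : (i : ℕ) * Δ ≤ k * Δ := Nat.mul_le_mul_right _ i.2.le
      rw [hK, mul_add, mul_assoc]
      omega
    · show o i + i * Δ + Δ ≤ o i' + i' * Δ
      have a1 := ho hi.le
      have a2 : ((i : ℕ) + 1) * Δ ≤ i' * Δ := Nat.mul_le_mul_right _ hi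
      rw [add_mul, one_mul] at a2
      omega
  have KN : K ≤ N := by exact_mod_cast (K2.trans H3).trans hH3N
  have ly0 : (0 : ℝ) ≤ 16 ^ M * Real.log ((h ^ 6 : ℕ) : ℝ) :=
    mul_nonneg (by positivity) (Real.log_natCast_nonneg _)
  have hY : (h ^ 6) ^ 16 ^ M ≤ N := by
    have : ((h ^ 6 : ℕ) : ℝ) ^ 16 ^ M ≤ N := by
      rw [← Real.log_le_log_iff (by push_cast; positivity) (by positivity), Real.log_pow,
        Nat.cast_pow 16]
      norm_num only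
      linarith only [ly0, M1]
    exact_mod_cast this
  have hAN : ∀ p ∈ π.A, p ≤ N := fun p hp => (mem_Qs.1 hp).2.2.1.trans hY
  have v1 : (1 : ℝ) / 16 ^ M ≤ 1638400 * (Real.log ((h ^ 6 : ℕ) : ℝ) / h) := by
    rw [mul_div_assoc', div_le_div_iff₀ (by positivity) hH0]
    linarith only [M2, hHl, hH201]
  have v2 : Real.log ((h ^ 6 : ℕ) : ℝ) / h ≤ 1 / 16 ^ M := by
    rw [div_le_div_iff₀ hH0 (by positivity)]
    linarith only [M1, ly0, hlH]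
  obtain ⟨b1, b2⟩ := ok.surv_bounds hp₁ rfl hH2' v1
    (by have := sqrt_aux hH0 hδ0 (hl2.trans hlH) Δ3; rwa [← hy] at this) K4 Δ1 K1
  have E1 : 16 ^ M * Real.log ((h ^ 6 : ℕ) : ℝ) / 2 ≤ Eul π.A := by
    refine le_trans (le_of_eq ?_) (half_log_le_Eul p₁ ((h ^ 6) ^ 16 ^ M))
    rw [Nat.cast_pow (h ^ 6), Real.log_pow, Nat.cast_pow 16]; norm_num
  have E2 := Eul_le_log π.A_prime hN2 hAN
  have l1 : 1 / (8 * 1638400) ≤ Eul π.A / (2 * (2 * h)) := by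
    rw [div_le_div_iff₀ (by norm_num) (by positivity)]; linarith only [E1, M2, hHl, hH201]
  have l2 : Eul π.A / (2 * (2 * h)) ≤ Real.exp 73 := by
    rw [div_le_iff₀ (by positivity)]
    exact E2.trans (mul_le_mul_of_nonneg_left (by linarith only [hlH, hH0]) (Real.exp_pos _).le)
  have l0 : 0 ≤ Eul π.A / (2 * (2 * h)) := le_trans (by norm_num) l1
  obtain ⟨av1, av2⟩ := ok.averages (η := 8 * Λ * M₄ / h ^ 2) (cm := cm) b1 b2
    (by linarith only [hΛ1]) l0 hm0 (by positivity)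
    (by
      show 4 * (K : ℝ) ^ 2 / (h ^ 6 : ℕ) * Real.exp (QPar.κ₄ mB * (400 * Λ * 1638400)) ≤ _
      rw [← hM₄, Nat.cast_pow]
      calc _ ≤ 4 * (4 * Λ * h) ^ 2 / h ^ 6 * M₄ ^ 2 := by gcongr; nlinarith only [hM1]
        _ = _ := by field_simp; norm_num) n1
    (by
      show 12 * (2 * m + 3) * C₀ * 16 ^ mA ≤ _ * (mA : ℝ) ^ 2 * k
      rw [mul_assoc _ _ (k : ℝ)]
      refine le_trans ?_ (mul_le_mul_of_nonneg_right l1 (by positivity))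
      linarith only [n2]) n3 n4
    (hcm ▸ ok.cm_le hH0 hδ0 v2 Δ3 (by
      exact_mod_cast (by linarith only [Δ3, hH2] : 2 * ((2 * k).factorial : ℝ) ≤ Δ)))
  have hCF := CF_le' (π := π) K2 (by show 3 * (mA : ℝ) ≤ h; linarith only [hH1, hΛ1])
    (le_trans (Real.exp_le_exp.2 (by norm_num)) h200)
  have hCF1 := ok.one_le_CF
  have e1 : 9 * π.CF ^ 4 * (N / h ^ (4 * (3 * k + 2 * (2 * 16 ^ mB) + 1) + 6))
      ≤ 9 * N / h ^ 6 := by
    change π.CF ≤ h ^ (3 * k + 2 * (2 * 16 ^ mB) + 1) at hCF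
    generalize 3 * k + 2 * (2 * 16 ^ mB) + 1 = g at hCF ⊢
    calc _ ≤ 9 * ((h : ℝ) ^ g) ^ 4 * (N / h ^ (4 * g + 6)) := by gcongr
      _ = _ := by field_simp; ring
  have H6 : (9 : ℝ) ≤ h ^ 6 :=
    le_trans (by linarith only [H2]) (pow_le_pow_right₀ H1 (show 2 ≤ 6 by norm_num))
  have hlog3 : Real.log (3 * N : ℕ) ≤ 2 * h := by
    push_cast
    rw [Real.log_mul (by norm_num) (by positivity)]
    linarith only [Real.log_le_sub_one_of_pos (show (0 : ℝ) < 3 by norm_num), hlH, hH201]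
  refine ⟨K, Δ, K1, KN, Δ1, le_trans ?_ (Nat.cast_le.2 (card_le_card
    (monotone_filter_right (p := π.Good m) _ fun n _ hn => hn.pat ok)))⟩
  · refine ok.count (Q := Real.exp (Real.log N / 8)) ?_ (hT π.A π.P π.A_prime (fun p hp => ?_)
      (notMem_erase _ _) hAN fun p hp => (mem_Qs.1 hp).2.2.1) (by positivity)
      KN hY (by linarith only [H1]) hlog3
      (fun j hj => hΘ j (hj.trans KN)) (hM₄ ▸ av1) av2 hcm0.le (by linarith only [hM1]) ?_ ?_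
    · rw [← Real.exp_nat_mul]
      refine Real.exp_le_exp.2 ?_
      show ((8 : ℕ) : ℝ) * (800 * 16 ^ M * Real.log ((h ^ 6 : ℕ) : ℝ)) ≤ _
      norm_num only
      linarith only [M1]
    · have := mem_Qs.1 hp
      exact mem_Qs.2 ⟨this.1, this.2.1, this.2.2.1.trans (le_pow_pow ok.y1 M), this.2.2.2⟩
    · refine e1.trans ?_
      rw [div_le_iff₀ (by positivity), mul_comm, mul_assoc]
      gcongr
      nlinarith only [H6, hM1]
    · exact err_aux (Nat.cast_nonneg _) (by linarith only [hH201]) (Nat.cast_nonneg _)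
        (Nat.cast_nonneg _) hm0 hcm0 (Nat.cast_nonneg _) (by linarith only [hM1]) K1 K2 l2
        (by positivity) e1 hH3 hH4 hH5

open Classical in
theorem good_count' (m : ℕ) : ∃ k : ℕ, 1 ≤ k ∧ ∀ (Λ : ℕ) (ε : ℝ), 1 ≤ Λ → 0 < ε →
    ∃ c : ℝ, 0 < c ∧ ∀ᶠ N : ℕ in atTop, ∀ o : Fin k → ℕ, Monotone o → (∀ i, o i ≤ Λ * hh N) →
      ∃ K Δ : ℕ, (K : ℝ) ≤ 4 * Λ * hh N ∧ K ≤ N ∧ (Δ : ℝ) ≤ ε * hh N ∧
        c * N ≤ ((Ioc N (N + N)).filter (Pat K Δ (fun i => o i + i * Δ) m)).card := by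
  have hC := C₀_ge
  have hm0 : (0 : ℝ) ≤ m := Nat.cast_nonneg _
  obtain ⟨mA, k, hA, hk, n1, n2⟩ := exists_ak (C := 96 * C₀)
    (D := 96 * 1638400 * (2 * m + 3) * C₀) (by linarith) (by nlinarith)
  refine ⟨k, hk, fun Λ ε hΛ hε => ?_⟩
  have hΛ1 : (1 : ℝ) ≤ Λ := by exact_mod_cast hΛ
  have hk' : (1 : ℝ) ≤ k := by exact_mod_cast hk
  obtain ⟨mB, hAB, n3⟩ : ∃ mB : ℕ, mA ≤ mB ∧
      8 * (k + 1) * (C₀ * (400 * Λ * 1638400)) ^ 2 ≤ mB :=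
    ⟨max mA ⌈8 * (k + 1) * (C₀ * (400 * Λ * 1638400)) ^ 2⌉₊, le_max_left _ _,
      (Nat.le_ceil _).trans (Nat.cast_le.2 (le_max_right _ _))⟩
  obtain ⟨δ, hδ0, hδε, hδ1, n4⟩ : ∃ δ : ℝ, 0 < δ ∧ δ ≤ ε ∧ 4 * k * δ ≤ Λ ∧
      (k + 1) * k * 2 * (C₀ * (100 * δ * 1638400)) * (12 * C₀ * mA ^ 2 + 1) ≤ 1 := by
    refine ⟨min ε (min ((Λ : ℝ) / (4 * k))
      (1 / ((k + 1) * k * 2 * (C₀ * (100 * 1638400)) * (12 * C₀ * mA ^ 2 + 1)))),
      lt_min hε (lt_min (by positivity) (by positivity)), min_le_left _ _, ?_, ?_⟩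
    · rw [mul_comm, ← le_div_iff₀ (by positivity)]
      exact (min_le_right _ _).trans (min_le_left _ _)
    · have := (min_le_right ε _).trans (min_le_right ((Λ : ℝ) / (4 * k))
        (1 / ((k + 1) * k * 2 * (C₀ * (100 * 1638400)) * (12 * C₀ * mA ^ 2 + 1))))
      rw [le_div_iff₀ (by positivity)] at this
      linarith
  obtain ⟨M₄, hM₄⟩ : ∃ M₄, M₄ = Real.exp (QPar.κ₄ mB * (400 * Λ * 1638400)) := ⟨_, rfl⟩
  obtain ⟨cm, hcm⟩ : ∃ cm : ℝ,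
      cm = (δ / (12 * (2 * k).factorial)) ^ k * Real.exp (-(72 * k + 2 * k ^ 2)) := ⟨_, rfl⟩
  have hM1 : 0 < M₄ := hM₄ ▸ Real.exp_pos _
  have hW0 : (0 : ℝ) < (2 * k).factorial := by exact_mod_cast Nat.factorial_pos _
  have hcm0 : 0 < cm := by rw [hcm]; positivity
  refine ⟨cm ^ 2 / (12 * k ^ 2 * M₄), by positivity, ?_⟩
  filter_upwards [transfer_ev (4 * (k + 2 * 16 ^ mB) + 2)
    (4 * (3 * k + 2 * (2 * 16 ^ mB) + 1) + 6), ev_theta,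
    ev_hh (Real.exp 200), ev_hh (4 * Λ + 3 * mA), ev_hh ((4 * (2 * k).factorial + 8) / δ),
    ev_hh (128 * Real.exp 73 * k * Λ ^ 2 * M₄ / cm), ev_hh (36 / cm),
    ev_hh (k + m + (k + 1) * (1 + k)), ev_log (51200 * 16 ^ mB * 6) 1, ev_log (9 / δ ^ 2) 2,
    ev_log 3 1, eventually_ge_atTop 2]
    with N hT hΘ h200 hH1 hH2 hH3 hH4 hH5 hl1 hl2 hl3 hN2 o ho hoΛ
  obtain ⟨p₁, hp₁, hT⟩ := hT
  obtain ⟨K, Δ, a1, a2, a3, a4⟩ := good_fixed' ho hoΛ hΛ1 hA hk hAB n1 n2 n3 n4 hδ0 hδ1 hM₄ hcm hp₁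
    hT hΘ h200 hH1 hH2 hH3 hH4 hH5 hl1 hl2 hl3 hN2
  exact ⟨K, Δ, a1, a2, a3.trans (by gcongr), a4⟩

end Pool.Agent.Work.MP_51e72e_nt.PP
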