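import Pool.Agent.Work.MP_51e72e_nt.GPGood

/-!
From patterns of primes in a window to patterns of consecutive prime gaps.
-/

set_option autoImplicit false

namespace Pool.Agent.Work.MP_51e72e_nt.PP

open Finset Filter Pool.Agent.Lib.ANT

lemma nthP_mono : StrictMono (Nat.nth Nat.Prime) := Nat.nth_strictMono Nat.infinite_setOfPred_prime

lemma Pat.nth {k K Δ m n : ℕ} {off : Fin k → ℕ} (hoff : Monotone off)
    (h : Pat K Δ off (m + 1) n) :
    n < Nat.nth Nat.Prime (Nat.count Nat.Prime (n + 1)) ∧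
    Nat.nth Nat.Prime (Nat.count Nat.Prime (n + 1)) ≤ n + K ∧
    ∃ J : Fin (m + 1) → Fin k, StrictMono J ∧ ∀ j : Fin (m + 1),
      n + off (J j) < Nat.nth Nat.Prime (Nat.count Nat.Prime (n + 1) + j) ∧
      Nat.nth Nat.Prime (Nat.count Nat.Prime (n + 1) + j) ≤ n + off (J j) + Δ := by
  classical
  obtain ⟨h1, h2, h3⟩ := h
  set r := Nat.count Nat.Prime (n + 1) with hr
  have a1 : r + (m + 1) ≤ Nat.count Nat.Prime (n + K + 1) := by
    refine (add_le_add le_rfl h3).trans ?_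
    rw [hr, Nat.count_eq_card_filter_range, Nat.count_eq_card_filter_range,
      ← card_union_of_disjoint (disjoint_left.2 fun x hx hy => by
        simp only [mem_filter, mem_range, mem_Ioc] at hx hy; omega)]
    refine card_le_card fun x hx => ?_
    simp only [mem_union, mem_filter, mem_range, mem_Ioc] at hx ⊢
    rcases hx with hx | hx
    exacts [⟨by omega, hx.2⟩, ⟨by omega, hx.2⟩]
  have a2 : n + 1 ≤ Nat.nth Nat.Prime r := Nat.le_nth_count Nat.infinite_setOfPred_prime _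
  have a3 : ∀ j : Fin (m + 1), n < Nat.nth Nat.Prime (r + j) ∧ Nat.nth Nat.Prime (r + j) ≤ n + K :=
    fun j => ⟨lt_of_lt_of_le a2 (nthP_mono.monotone (Nat.le_add_right _ _)),
      Nat.lt_succ_iff.1 (Nat.nth_lt_of_lt_count (lt_of_lt_of_le (by have := j.2; omega) a1))⟩
  have a4 : ∀ j : Fin (m + 1), ∃ i, n + off i < Nat.nth Nat.Prime (r + j) ∧
      Nat.nth Nat.Prime (r + j) ≤ n + off i + Δ := fun j => by
    obtain ⟨b1, b2⟩ := a3 j
    obtain ⟨i, c1, c2⟩ := h1 (Nat.nth Nat.Prime (r + j) - n) (by omega) (by omega) (by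
      rw [Nat.add_sub_cancel' b1.le]; exact Nat.prime_nth_prime _)
    exact ⟨i, by omega, by omega⟩
  choose J hJ using a4
  refine ⟨a2, (a3 0).2, J, fun j j' hj => ?_, hJ⟩
  have b1 : Nat.nth Nat.Prime (r + j) < Nat.nth Nat.Prime (r + j') :=
    nthP_mono (Nat.add_lt_add_left hj r)
  obtain ⟨c1, c2⟩ := hJ j
  obtain ⟨c3, c4⟩ := hJ j'
  by_contra hne
  have b2 := hoff (not_lt.1 hne)
  have := h2 (J j) (Nat.nth Nat.Prime (r + j) - n) (Nat.nth Nat.Prime (r + j') - n) (by omega)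
    (by omega) (by omega) (by omega)
    (by rw [Nat.add_sub_cancel' (by omega)]; exact Nat.prime_nth_prime _)
    (by rw [Nat.add_sub_cancel' (by omega)]; exact Nat.prime_nth_prime _)
  omega

lemma ev_nth : ∀ᶠ M : ℕ in atTop,
    M * Real.log (Nat.nth Nat.Prime M) ≤ 2 * Nat.nth Nat.Prime M := by
  have h1 := (tendsto_primeCounting_mul_log_div.comp (tendsto_natCast_atTop_atTop.comp
    nthP_mono.tendsto_atTop)).eventually (gt_mem_nhds (show (1 : ℝ) < 2 by norm_num))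
  filter_upwards [h1] with M h
  simp only [Function.comp, Nat.floor_natCast] at h
  have hp : (0 : ℝ) < Nat.nth Nat.Prime M := by exact_mod_cast (Nat.prime_nth_prime M).pos
  rw [div_lt_iff₀ hp] at h
  refine le_trans (mul_le_mul_of_nonneg_right ?_ (Real.log_natCast_nonneg _)) h.le
  have : M ≤ Nat.primeCounting (Nat.nth Nat.Prime M) := by
    rw [Nat.primeCounting, Nat.primeCounting']
    conv_lhs => rw [← Nat.count_nth_of_infinite Nat.infinite_setOfPred_prime M]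
    exact Nat.count_monotone _ (Nat.le_succ _)
  exact_mod_cast this

lemma norm_aux {g L h D B E ε k δ : ℝ} (hL : 0 < L) (h1 : |h - L| ≤ 2) (hD0 : 0 ≤ D) (hD : D ≤ B)
    (hg : |g - D * h| ≤ 1 + k * E) (hE : E ≤ δ * h) (hk : 0 ≤ k) (hδ : 0 ≤ δ) (hh : h ≤ 2 * L)
    (h2 : 4 * k * δ ≤ ε) (h3 : 2 * (1 + 2 * B) ≤ ε * L) : |g / L - D| ≤ ε := by
  rw [div_sub' hL.ne', abs_div, abs_of_pos hL, div_le_iff₀ hL]
  have a1 : |g - L * D| ≤ |g - D * h| + D * |h - L| := by
    rw [← abs_of_nonneg hD0, ← abs_mul, abs_of_nonneg hD0]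
    refine le_trans (le_of_eq ?_) (abs_add_le _ _)
    congr 1; ring
  have a2 : D * |h - L| ≤ B * 2 := mul_le_mul hD h1 (abs_nonneg _) (hD0.trans hD)
  have a3 : k * E ≤ k * (δ * (2 * L)) := by gcongr; exact hE.trans (by gcongr)
  have a4 := mul_le_mul_of_nonneg_right h2 hL.le
  linarith

open Classical in
theorem gap_patterns (m : ℕ) : ∃ k : ℕ, ∀ β : Fin k → ℝ, Monotone β → ∀ ε : ℝ, 0 < ε →
    ∃ c : ℝ, 0 < c ∧ ∀ᶠ M : ℕ in atTop, c * (M : ℝ) ≤ (((range M).filter fun n : ℕ =>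
      ∃ J : Fin (m + 1) → Fin k, StrictMono J ∧ ∀ j : Fin m,
        |((Nat.nth Nat.Prime (n + j + 1) : ℝ) - Nat.nth Nat.Prime (n + j))
            / Real.log (Nat.nth Nat.Prime n) - (β (J j.succ) - β (J j.castSucc))| ≤ ε).card : ℝ) := by
  obtain ⟨k, hk, h⟩ := good_count' (m + 1)
  refine ⟨k, fun β hβ ε hε => ?_⟩
  obtain ⟨b, hb⟩ : ∃ b, ∀ i, b ≤ β i := ⟨β ⟨0, hk⟩, fun i => hβ (Fin.le_def.2 (Nat.zero_le _))⟩
  obtain ⟨Λ, hΛ, hΛβ⟩ : ∃ Λ : ℕ, 1 ≤ Λ ∧ ∀ i, β i - b ≤ Λ :=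
    ⟨⌈β ⟨k - 1, by omega⟩ - b⌉₊ + 1, by omega, fun i => by
      have a1 := hβ (show i ≤ ⟨k - 1, by omega⟩ from Fin.le_def.2 (by have := i.2; simp; omega))
      have a2 := Nat.le_ceil (β ⟨k - 1, by omega⟩ - b)
      push_cast; linarith⟩
  have hΛ1 : (1 : ℝ) ≤ Λ := by exact_mod_cast hΛ
  have hk0 : (0 : ℝ) < k := by exact_mod_cast hk
  obtain ⟨c, hc, h⟩ := h Λ (ε / (4 * k)) hΛ (by positivity)
  refine ⟨c / (80 * Λ), by positivity, ?_⟩
  have hT : Tendsto (fun M : ℕ => Nat.nth Nat.Prime M / 4) atTop atTop :=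
    Tendsto.comp (g := fun X : ℕ => X / 4) (map_div_atTop_eq_nat 4 (by norm_num)).le
      nthP_mono.tendsto_atTop
  filter_upwards [hT.eventually h, ev_nth, hT.eventually_ge_atTop 4,
    hT.eventually (tendsto_logN.eventually_ge_atTop (2 * (1 + 2 * Λ) / ε)),
    hT.eventually (tendsto_logN.eventually_ge_atTop 1)] with M h hM hN4 hl1 hl2
  obtain ⟨P, hP⟩ : ∃ P, P = Nat.nth Nat.Prime M := ⟨_, rfl⟩
  rw [← hP] at h hM hN4 hl1 hl2
  obtain ⟨N, hN⟩ : ∃ N, N = P / 4 := ⟨_, rfl⟩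
  rw [← hN] at h hN4 hl1 hl2
  have hlH := log_le_hh N
  have hHl := hh_le N
  generalize hh N = H at *
  have hH0 : (0 : ℝ) ≤ H := Nat.cast_nonneg _
  have f0 : ∀ i, 0 ≤ (β i - b) * H := fun i => mul_nonneg (sub_nonneg.2 (hb i)) hH0
  have hmono : Monotone fun i => ⌊(β i - b) * H⌋₊ := fun i i' hi =>
    Nat.floor_le_floor (mul_le_mul_of_nonneg_right (sub_le_sub_right (hβ hi) _) hH0)
  obtain ⟨K, Δ, K1, KN, Δ1, hcount⟩ := h (fun i => ⌊(β i - b) * H⌋₊) hmono fun i => by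
    have : ((⌊(β i - b) * H⌋₊ : ℕ) : ℝ) ≤ Λ * H :=
      (Nat.floor_le (f0 i)).trans (mul_le_mul_of_nonneg_right (hΛβ i) hH0)
    exact_mod_cast this
  have hoff : Monotone fun i : Fin k => ⌊(β i - b) * H⌋₊ + i * Δ := fun i i' hi =>
    add_le_add (hmono hi) (Nat.mul_le_mul_right _ hi)
  have hN0 : (0 : ℝ) < N := by exact_mod_cast (by omega : 0 < N)
  refine le_trans ?_ (Nat.cast_le.2 (card_le_card (s := ((Ioc N (N + N)).filter
    (Pat K Δ (fun i : Fin k => ⌊(β i - b) * H⌋₊ + i * Δ) (m + 1))).image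
      fun n => Nat.count Nat.Prime (n + 1)) fun r hr => ?_))
  · have a1 := card_le_mul_card_image (f := fun n => Nat.count Nat.Prime (n + 1))
      ((Ioc N (N + N)).filter
        (Pat K Δ (fun i : Fin k => ⌊(β i - b) * H⌋₊ + i * Δ) (m + 1))) K fun r _ => by
      refine (card_le_card (t := Ico (Nat.nth Nat.Prime r - K) (Nat.nth Nat.Prime r))
        fun n hn => ?_).trans (by simp; omega)
      obtain ⟨hn', rfl⟩ := mem_filter.1 hn
      obtain ⟨b1, b2, -⟩ := (mem_filter.1 hn').2.nth hoff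
      exact mem_Ico.2 ⟨by omega, b1⟩
    generalize (image (fun n => Nat.count Nat.Prime (n + 1)) _).card = T at a1 ⊢
    have a2 : c * N ≤ K * T := hcount.trans (by exact_mod_cast a1)
    have a3 : (P : ℝ) ≤ 5 * N := by exact_mod_cast (by omega : P ≤ 5 * N)
    have a4 : Real.log N ≤ Real.log P := Real.log_le_log hN0 (by exact_mod_cast (by omega))
    have M0 : (0 : ℝ) ≤ M := Nat.cast_nonneg _
    have T0 : (0 : ℝ) ≤ T := Nat.cast_nonneg _
    have a5 : M * Real.log N ≤ 10 * N := by nlinarith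
    have a6 : (K : ℝ) * T ≤ 4 * Λ * (2 * Real.log N) * T := by
      gcongr; exact K1.trans (by gcongr; linarith)
    rw [div_mul_eq_mul_div, div_le_iff₀ (by positivity)]
    refine le_of_mul_le_mul_right ?_ (show 0 < Real.log N by linarith)
    have a7 := mul_le_mul_of_nonneg_left a5 hc.le
    linarith
  · obtain ⟨n, hn, rfl⟩ := mem_image.1 hr
    obtain ⟨hn, hp⟩ := mem_filter.1 hn
    rw [mem_Ioc] at hn
    obtain ⟨b1, b2, J, hJ, b3⟩ := hp.nth hoff
    generalize Nat.count Nat.Prime (n + 1) = r at *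
    refine mem_filter.2 ⟨mem_range.2 (nthP_mono.lt_iff_lt.1 (by omega)), J, hJ, fun j => ?_⟩
    have c1 : Real.log N ≤ Real.log (Nat.nth Nat.Prime r) :=
      Real.log_le_log hN0 (by exact_mod_cast (by omega))
    have c2 : Real.log (Nat.nth Nat.Prime r) ≤ Real.log N + 2 := by
      have : Real.log (Nat.nth Nat.Prime r) ≤ Real.log (3 * N) :=
        Real.log_le_log (by exact_mod_cast (by omega)) (by exact_mod_cast (by omega))
      rw [Real.log_mul (by norm_num) hN0.ne'] at this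
      linarith [Real.log_le_sub_one_of_pos (show (0 : ℝ) < 3 by norm_num)]
    have hj := hJ (Fin.castSucc_lt_succ (i := j))
    refine norm_aux (h := H) (B := Λ) (E := Δ) (k := k) (δ := ε / (4 * k)) (by linarith)
      (abs_le.2 ⟨by linarith, by linarith⟩) (sub_nonneg.2 (hβ hj.le))
      (by linarith [hΛβ (J j.succ), hb (J j.castSucc)]) ?_ Δ1 hk0.le (by positivity) (by linarith)
      (le_of_eq (by field_simp)) ?_
    · obtain ⟨d1, d2⟩ := b3 j.succ
      obtain ⟨d3, d4⟩ := b3 j.castSucc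
      simp only [Fin.val_succ, Fin.val_castSucc, ← add_assoc] at d1 d2 d3 d4
      have e1 := Nat.floor_le (f0 (J j.succ))
      have e2 := Nat.lt_floor_add_one ((β (J j.succ) - b) * H)
      have e3 := Nat.floor_le (f0 (J j.castSucc))
      have e4 := Nat.lt_floor_add_one ((β (J j.castSucc) - b) * H)
      have e5 : ((J j.succ : ℕ) + 1) * Δ ≤ k * Δ := Nat.mul_le_mul_right _ (J j.succ).2
      have e6 : ((J j.castSucc : ℕ) + 1) * Δ ≤ (J j.succ : ℕ) * Δ := Nat.mul_le_mul_right _ hj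
      rw [add_mul, one_mul] at e5 e6
      generalize ⌊(β (J j.succ) - b) * H⌋₊ = u at *
      generalize ⌊(β (J j.castSucc) - b) * H⌋₊ = v at *
      generalize (J j.succ : ℕ) * Δ = x at *
      generalize (J j.castSucc : ℕ) * Δ = y at *
      have g1 : (Nat.nth Nat.Prime (r + j + 1) : ℝ) + v ≤ Nat.nth Nat.Prime (r + j) + u + k * Δ := by
        exact_mod_cast (by omega)
      have g2 : (Nat.nth Nat.Prime (r + j) : ℝ) + u ≤ Nat.nth Nat.Prime (r + j + 1) + v := by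
        exact_mod_cast (by omega)
      have g3 : (0 : ℝ) ≤ k * Δ := by positivity
      exact abs_le.2 ⟨by linarith, by linarith⟩
    · rw [div_le_iff₀ hε] at hl1
      nlinarith

end Pool.Agent.Work.MP_51e72e_nt.PP
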