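import Pool.Agent.Lib.LargeSieve.Mult

/-!
Karatsuba's bilinear estimate for sums of additive characters, by Hoelder's inequality.
-/

set_option autoImplicit false

namespace Pool.Agent.Work.MP_51e72e_nt

open Finset Pool.Agent.Lib.LargeSieve

/-- The number of pairs of `r`-tuples from `X` with `c (u x_1 + ⋯ + u x_r) = c (u x'_1 + ⋯)`. -/
def momentCount {ι : Type*} {q : ℕ} (X : Finset ι) (u : ι → ZMod q) (c : ZMod q) (r : ℕ) : ℕ :=
  (((Fintype.piFinset fun _ : Fin r => X) ×ˢ (Fintype.piFinset fun _ : Fin r => X)).filter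
    (fun z => c * ∑ i, u (z.1 i) = c * ∑ i, u (z.2 i))).card

lemma norm_stdAddChar {q : ℕ} [NeZero q] (x : ZMod q) : ‖(ZMod.stdAddChar x : ℂ)‖ = 1 := by
  rw [ZMod.stdAddChar_apply]; simp

lemma parseval_le {κ : Type*} {q : ℕ} [NeZero q] (s : Finset κ) (Θ : κ → ℂ)
    (hΘ : ∀ j ∈ s, ‖Θ j‖ ≤ 1) (a : κ → ZMod q) :
    ∑ l : ZMod q, ‖∑ j ∈ s, Θ j * ZMod.stdAddChar (l * a j)‖ ^ 2
      ≤ q * (((s ×ˢ s).filter (fun z => a z.1 = a z.2)).card : ℝ) := by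
  have h1 : ((∑ l : ZMod q, ‖∑ j ∈ s, Θ j * ZMod.stdAddChar (l * a j)‖ ^ 2 : ℝ) : ℂ)
      = ∑ j ∈ s, ∑ k ∈ s, Θ j * (starRingEnd ℂ) (Θ k) *
          (if a j = a k then ((q : ℝ) : ℂ) else 0) := by
    rw [Complex.ofReal_sum]
    simp_rw [normSq_sum_eq]
    rw [sum_comm]
    refine sum_congr rfl fun j _ => ?_
    rw [sum_comm]
    refine sum_congr rfl fun k _ => ?_
    rw [← sum_stdAddChar_orth q (a j) (a k), mul_sum]
    refine sum_congr rfl fun l _ => ?_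
    rw [map_mul (starRingEnd ℂ)]; ring
  have h0 : 0 ≤ ∑ l : ZMod q, ‖∑ j ∈ s, Θ j * ZMod.stdAddChar (l * a j)‖ ^ 2 :=
    sum_nonneg fun _ _ => by positivity
  calc _ = ‖((∑ l : ZMod q, ‖∑ j ∈ s, Θ j * ZMod.stdAddChar (l * a j)‖ ^ 2 : ℝ) : ℂ)‖ := by
        rw [Complex.norm_real, Real.norm_of_nonneg h0]
    _ ≤ ∑ j ∈ s, ∑ k ∈ s, (if a j = a k then (q : ℝ) else 0) := by
        rw [h1]
        refine (norm_sum_le _ _).trans (sum_le_sum fun j hj => ?_)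
        refine (norm_sum_le _ _).trans (sum_le_sum fun k hk => ?_)
        split_ifs
        · rw [norm_mul, norm_mul, Complex.norm_conj, Complex.norm_real,
            Real.norm_of_nonneg (Nat.cast_nonneg q)]
          have := mul_le_one₀ (hΘ j hj) (norm_nonneg _) (hΘ k hk)
          nlinarith [(Nat.cast_nonneg q : (0 : ℝ) ≤ q)]
        · simp
    _ = _ := by
        rw [← sum_product' (f := fun j k => if a j = a k then (q : ℝ) else 0), ← sum_filter,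
          sum_const, nsmul_eq_mul, mul_comm]

lemma sq_sum_comp_le {κ : Type*} {q : ℕ} [NeZero q] (s : Finset κ) (σ : κ → ZMod q)
    (F : ZMod q → ℝ) :
    (∑ y ∈ s, F (σ y)) ^ 2
      ≤ (((s ×ˢ s).filter (fun z => σ z.1 = σ z.2)).card : ℝ) * ∑ l : ZMod q, F l ^ 2 := by
  have h1 : ∑ y ∈ s, F (σ y) = ∑ l : ZMod q, ((s.filter (fun y => σ y = l)).card : ℝ) * F l := by
    rw [← sum_fiberwise (s := s) (g := σ)]
    refine sum_congr rfl fun l _ => ?_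
    rw [sum_congr rfl (g := fun _ => F l) (fun y hy => by rw [(mem_filter.mp hy).2]), sum_const,
      nsmul_eq_mul]
  have h2 : (((s ×ˢ s).filter (fun z => σ z.1 = σ z.2)).card : ℝ)
      = ∑ l : ZMod q, ((s.filter (fun y => σ y = l)).card : ℝ) ^ 2 := by
    rw [card_eq_sum_card_fiberwise (f := fun z => σ z.1) (t := univ) (fun _ _ => mem_univ _)]
    push_cast
    refine sum_congr rfl fun l _ => ?_
    rw [sq, ← Nat.cast_mul, ← card_product]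
    congr 2
    ext z
    simp only [mem_filter, mem_product]
    constructor
    · rintro ⟨⟨⟨h1, h2⟩, h3⟩, h4⟩
      exact ⟨⟨h1, h4⟩, h2, h3 ▸ h4⟩
    · rintro ⟨⟨h1, h2⟩, h3, h4⟩
      exact ⟨⟨⟨h1, h3⟩, h2.trans h4.symm⟩, h2⟩
  rw [h1, h2]
  exact sum_mul_sq_le_sq_mul_sq _ _ _

lemma stdAddChar_sum {κ : Type*} {q : ℕ} [NeZero q] (s : Finset κ) (f : κ → ZMod q) :
    (ZMod.stdAddChar (∑ i ∈ s, f i) : ℂ) = ∏ i ∈ s, ZMod.stdAddChar (f i) := by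
  classical
  induction s using Finset.induction_on with
  | empty => simp
  | insert a s ha ih => rw [sum_insert ha, prod_insert ha, AddChar.map_add_eq_mul, ih]

lemma pow_sum_char {κ : Type*} {q : ℕ} [NeZero q] (Y : Finset κ) (β : κ → ℂ) (v : κ → ZMod q)
    (l : ZMod q) (r : ℕ) :
    (∑ y ∈ Y, β y * ZMod.stdAddChar (l * v y)) ^ r
      = ∑ y ∈ Fintype.piFinset (fun _ : Fin r => Y),
          (∏ i, β (y i)) * ZMod.stdAddChar (l * ∑ i, v (y i)) := by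
  rw [sum_pow']
  refine sum_congr rfl fun y _ => ?_
  rw [prod_mul_distrib, mul_sum, stdAddChar_sum]

lemma norm_prod_le_one {κ : Type*} (Y : Finset κ) (β : κ → ℂ) (hβ : ∀ y ∈ Y, ‖β y‖ ≤ 1) (r : ℕ)
    (y : Fin r → κ) (hy : y ∈ Fintype.piFinset (fun _ : Fin r => Y)) : ‖∏ i, β (y i)‖ ≤ 1 := by
  rw [norm_prod]
  exact prod_le_one (fun _ _ => norm_nonneg _) fun i _ => hβ _ (Fintype.mem_piFinset.mp hy i)

/-- Karatsuba's bilinear inequality. -/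
theorem karatsuba {ι κ : Type*} {q : ℕ} [NeZero q] (X : Finset ι) (Y : Finset κ)
    (u : ι → ZMod q) (v : κ → ZMod q) (α : ι → ℂ) (β : κ → ℂ) (hα : ∀ x ∈ X, ‖α x‖ ≤ 1)
    (hβ : ∀ y ∈ Y, ‖β y‖ ≤ 1) (c : ZMod q) (n : ℕ) :
    ‖∑ x ∈ X, ∑ y ∈ Y, α x * β y * ZMod.stdAddChar (c * u x * v y)‖ ^ (2 * (n + 1) ^ 2)
      ≤ (X.card : ℝ) ^ (2 * (n + 1) * n) * (Y.card : ℝ) ^ (2 * (n + 1) * n) *
        (q * momentCount X u c (n + 1) * momentCount Y v 1 (n + 1)) := by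
  classical
  set r := n + 1 with hr
  set T : ι → ℂ := fun x => ∑ y ∈ Y, β y * ZMod.stdAddChar (c * u x * v y) with hT
  have hθ : ∀ x, ∃ θ : ℂ, ‖θ‖ ≤ 1 ∧ θ * T x ^ r = ((‖T x‖ ^ r : ℝ) : ℂ) := by
    intro x
    by_cases h : T x ^ r = 0
    · refine ⟨0, by simp, ?_⟩
      rw [← norm_pow, h]; simp
    · refine ⟨((‖T x‖ ^ r : ℝ) : ℂ) / T x ^ r, ?_, by field_simp⟩
      rw [norm_div, Complex.norm_real, Real.norm_of_nonneg (by positivity), ← norm_pow,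
        div_self (norm_ne_zero_iff.mpr h)]
  choose θ hθ1 hθ2 using hθ
  set U : ZMod q → ℂ := fun l => ∑ x ∈ X, θ x * ZMod.stdAddChar (l * (c * u x)) with hU
  set P := Fintype.piFinset (fun _ : Fin r => Y) with hP
  set σ : (Fin r → κ) → ZMod q := fun y => ∑ i, v (y i) with hσ
  have s1 : ‖∑ x ∈ X, ∑ y ∈ Y, α x * β y * ZMod.stdAddChar (c * u x * v y)‖ ≤ ∑ x ∈ X, ‖T x‖ := by
    refine (norm_sum_le _ _).trans (sum_le_sum fun x hx => ?_)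
    have : ∑ y ∈ Y, α x * β y * ZMod.stdAddChar (c * u x * v y) = α x * T x := by
      rw [hT, mul_sum]; exact sum_congr rfl fun y _ => by ring
    rw [this, norm_mul]
    exact mul_le_of_le_one_left (norm_nonneg _) (hα x hx)
  have s2 : (∑ x ∈ X, ‖T x‖) ^ r ≤ (X.card : ℝ) ^ n * ∑ x ∈ X, ‖T x‖ ^ r :=
    pow_sum_le_card_mul_sum_pow (fun _ _ => norm_nonneg _) n
  have s3 : ∑ x ∈ X, ‖T x‖ ^ r ≤ ∑ y ∈ P, ‖U (σ y)‖ := by
    have e : ((∑ x ∈ X, ‖T x‖ ^ r : ℝ) : ℂ) = ∑ y ∈ P, (∏ i, β (y i)) * U (σ y) := by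
      rw [Complex.ofReal_sum]
      simp_rw [← hθ2, hT, pow_sum_char, mul_sum]
      rw [sum_comm]
      refine sum_congr rfl fun y _ => ?_
      rw [hU, mul_sum]
      refine sum_congr rfl fun x _ => ?_
      rw [← mul_sum, mul_comm (c * u x)]
      ring
    calc _ = ‖((∑ x ∈ X, ‖T x‖ ^ r : ℝ) : ℂ)‖ := by
          rw [Complex.norm_real, Real.norm_of_nonneg (sum_nonneg fun _ _ => by positivity)]
      _ ≤ _ := by
          rw [e]
          refine (norm_sum_le _ _).trans (sum_le_sum fun y hy => ?_)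
          rw [norm_mul]
          exact mul_le_of_le_one_left (norm_nonneg _) (norm_prod_le_one Y β hβ r y hy)
  have s4 : (∑ y ∈ P, ‖U (σ y)‖) ^ r ≤ ((Y.card : ℝ) ^ r) ^ n * ∑ y ∈ P, ‖U (σ y)‖ ^ r := by
    have := pow_sum_le_card_mul_sum_pow (s := P) (f := fun y => ‖U (σ y)‖)
      (fun _ _ => norm_nonneg _) n
    rwa [hP, Fintype.card_piFinset, prod_const, card_univ, Fintype.card_fin, Nat.cast_pow] at this
  have s5 : (∑ y ∈ P, ‖U (σ y)‖ ^ r) ^ 2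
      ≤ (momentCount Y v 1 r : ℝ) * ∑ l : ZMod q, (‖U l‖ ^ r) ^ 2 := by
    have := sq_sum_comp_le P σ (fun l => ‖U l‖ ^ r)
    simpa [momentCount, hP, hσ] using this
  have s6 : ∑ l : ZMod q, (‖U l‖ ^ r) ^ 2 ≤ q * (momentCount X u c r : ℝ) := by
    have := parseval_le (Fintype.piFinset (fun _ : Fin r => X)) (fun x => ∏ i, θ (x i))
      (fun x hx => norm_prod_le_one X θ (fun x _ => hθ1 x) r x hx)
      (fun x => ∑ i, c * u (x i))
    simp_rw [← pow_sum_char X θ (fun x => c * u x), norm_pow, ← mul_sum] at this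
    exact this
  have a0 : 0 ≤ ∑ x ∈ X, ‖T x‖ := sum_nonneg fun _ _ => norm_nonneg _
  have a1 : 0 ≤ ∑ x ∈ X, ‖T x‖ ^ r := sum_nonneg fun _ _ => by positivity
  have a2 : 0 ≤ ∑ y ∈ P, ‖U (σ y)‖ := sum_nonneg fun _ _ => norm_nonneg _
  have a3 : 0 ≤ ∑ y ∈ P, ‖U (σ y)‖ ^ r := sum_nonneg fun _ _ => by positivity
  calc _ ≤ (∑ x ∈ X, ‖T x‖) ^ (2 * r ^ 2) := pow_le_pow_left₀ (norm_nonneg _) s1 _
    _ = (((∑ x ∈ X, ‖T x‖) ^ r) ^ r) ^ 2 := by rw [← pow_mul, ← pow_mul]; congr 1; ring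
    _ ≤ (((X.card : ℝ) ^ n * ∑ y ∈ P, ‖U (σ y)‖) ^ r) ^ 2 := by
        gcongr
        exact s2.trans (by gcongr)
    _ = ((X.card : ℝ) ^ n) ^ (2 * r) * ((∑ y ∈ P, ‖U (σ y)‖) ^ r) ^ 2 := by ring
    _ ≤ ((X.card : ℝ) ^ n) ^ (2 * r) *
          (((Y.card : ℝ) ^ r) ^ n * ∑ y ∈ P, ‖U (σ y)‖ ^ r) ^ 2 := by gcongr
    _ = ((X.card : ℝ) ^ n) ^ (2 * r) * ((((Y.card : ℝ) ^ r) ^ n) ^ 2 *
          (∑ y ∈ P, ‖U (σ y)‖ ^ r) ^ 2) := by ring
    _ ≤ ((X.card : ℝ) ^ n) ^ (2 * r) * ((((Y.card : ℝ) ^ r) ^ n) ^ 2 *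
          ((momentCount Y v 1 r : ℝ) * (q * (momentCount X u c r : ℝ)))) := by
        gcongr
        exact s5.trans (by gcongr)
    _ = _ := by ring

end Pool.Agent.Work.MP_51e72e_nt
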