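import Pool.Agent.Lib.ANT.SieveSums

/-! Divisor sums of functions supported on integers without small prime factors. -/

set_option autoImplicit false
open Filter Topology Finset

namespace Pool.Agent.Work.MP_51e72e_nt.LT

open Pool.Agent.Lib.ANT

/-- all prime factors of `m` exceed `y` -/
def Rough (y : ℝ) (m : ℕ) : Prop := ∀ p : ℕ, p.Prime → p ∣ m → y < p

noncomputable instance (y : ℝ) : DecidablePred (Rough y) := Classical.decPred _

/-- sum over the divisors -/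
noncomputable def Fd (φ : ℕ → ℝ) (n : ℕ) : ℝ := ∑ j ∈ n.divisors, φ j

/-- the expected mean of `Fd φ` -/
noncomputable def dl (φ : ℕ → ℝ) (N : ℕ) : ℝ := ∑ j ∈ Icc 1 N, φ j / j

lemma Rough.mono {y z : ℝ} {m : ℕ} (h : Rough y m) (hz : z ≤ y) : Rough z m :=
  fun p hp hm => hz.trans_lt (h p hp hm)

lemma Rough.of_dvd {y : ℝ} {m k : ℕ} (h : Rough y m) (hk : k ∣ m) : Rough y k :=
  fun p hp hm => h p hp (hm.trans hk)

lemma Rough.coprime {y : ℝ} {m d : ℕ} (h : Rough y m) (hd : 0 < d) (hy : (d : ℝ) ≤ y) :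
    Nat.Coprime m d := by
  refine Nat.coprime_of_dvd fun p hp h1 h2 => ?_
  have h3 := h p hp h1
  have h4 : (p : ℝ) ≤ d := by exact_mod_cast Nat.le_of_dvd hd h2
  linarith

lemma Fd_mul {φ : ℕ → ℝ} {y : ℝ} (hφ : ∀ j, φ j ≠ 0 → Rough y j) {d : ℕ} (hd : 0 < d)
    (hy : (d : ℝ) ≤ y) (n : ℕ) : Fd φ (d * n) = Fd φ n := by
  rcases Nat.eq_zero_or_pos n with rfl | hn
  · simp
  unfold Fd
  symm
  refine sum_subset (Nat.divisors_subset_of_dvd (by positivity) (Dvd.intro_left d rfl)) ?_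
  intro j hj hj'
  by_contra h
  refine hj' (Nat.mem_divisors.2 ⟨?_, hn.ne'⟩)
  exact ((hφ j h).coprime hd hy).dvd_of_dvd_mul_left (Nat.dvd_of_mem_divisors hj)

lemma card_rough_divisors {y : ℝ} (hy : 0 < y) (K : ℕ) : ∀ n : ℕ, (n : ℝ) ≤ y ^ K →
    #(n.divisors.filter (Rough y)) ≤ 2 ^ K := by
  have base : ∀ n : ℕ, (∀ p : ℕ, p.Prime → p ∣ n → ¬ y < p) →
      #(n.divisors.filter (Rough y)) ≤ 1 := by
    intro n h
    refine card_le_one.2 fun a ha b hb => ?_
    have key : ∀ a ∈ n.divisors.filter (Rough y), a = 1 := by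
      intro a ha
      obtain ⟨h1, h2⟩ := mem_filter.1 ha
      by_contra h3
      exact h _ (Nat.minFac_prime h3) ((Nat.minFac_dvd a).trans (Nat.dvd_of_mem_divisors h1))
        (h2 _ (Nat.minFac_prime h3) (Nat.minFac_dvd a))
    rw [key a ha, key b hb]
  induction K with
  | zero =>
    intro n hn
    have : n ≤ 1 := by exact_mod_cast (by simpa using hn : (n : ℝ) ≤ 1)
    interval_cases n
    · simp
    · exact (card_filter_le _ _).trans (by simp)
  | succ K ih =>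
    intro n hn
    by_cases h : ∀ p : ℕ, p.Prime → p ∣ n → ¬ y < p
    · exact (base n h).trans Nat.one_le_two_pow
    push Not at h
    obtain ⟨p, hp, ⟨m, rfl⟩, hyp⟩ := h
    rcases Nat.eq_zero_or_pos m with rfl | hm
    · simp
    have hm' : (m : ℝ) ≤ y ^ K := by
      have h1 : y * m ≤ p * m := by gcongr
      rw [pow_succ', Nat.cast_mul] at hn
      exact le_of_mul_le_mul_left (h1.trans hn) hy
    have hsub : (p * m).divisors.filter (Rough y) ⊆
        m.divisors.filter (Rough y) ∪ (m.divisors.filter (Rough y)).image (p * ·) := by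
      intro j hj
      obtain ⟨h1, h2⟩ := mem_filter.1 hj
      have h3 := Nat.dvd_of_mem_divisors h1
      rw [mem_union]
      by_cases h4 : p ∣ j
      · obtain ⟨i, rfl⟩ := h4
        refine Or.inr (mem_image.2 ⟨i, mem_filter.2 ⟨Nat.mem_divisors.2
          ⟨Nat.dvd_of_mul_dvd_mul_left hp.pos h3, hm.ne'⟩, h2.of_dvd (Dvd.intro_left p rfl)⟩, rfl⟩)
      · exact Or.inl (mem_filter.2 ⟨Nat.mem_divisors.2
          ⟨((hp.coprime_iff_not_dvd.2 h4).symm).dvd_of_dvd_mul_left h3, hm.ne'⟩, h2⟩)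
    have := ih m hm'
    calc _ ≤ _ := card_le_card hsub
      _ ≤ _ := card_union_le _ _
      _ ≤ 2 ^ K + 2 ^ K := add_le_add this (card_image_le.trans this)
      _ = _ := by ring

lemma abs_sum_le_card {φ : ℕ → ℝ} {y : ℝ} (h1 : ∀ j, |φ j| ≤ 1) (hφ : ∀ j, φ j ≠ 0 → Rough y j)
    (s : Finset ℕ) : ∑ j ∈ s, |φ j| ≤ #(s.filter (Rough y)) := by
  rw [card_filter]
  push_cast
  refine sum_le_sum fun j _ => ?_
  split_ifs with h
  · exact h1 j
  · have : φ j = 0 := by by_contra h2; exact h (hφ j h2)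
    simp [this]

lemma abs_Fd_le {φ : ℕ → ℝ} {y : ℝ} (hy : 0 < y) (h1 : ∀ j, |φ j| ≤ 1)
    (hφ : ∀ j, φ j ≠ 0 → Rough y j) {K n : ℕ} (hn : (n : ℝ) ≤ y ^ K) : |Fd φ n| ≤ 2 ^ K := by
  refine (abs_sum_le_sum_abs _ _).trans ((abs_sum_le_card h1 hφ _).trans ?_)
  exact_mod_cast card_rough_divisors hy K n hn

lemma abs_dl_le {φ : ℕ → ℝ} {y : ℝ} (hy : 0 < y) (h1 : ∀ j, |φ j| ≤ 1)
    (hφ : ∀ j, φ j ≠ 0 → Rough y j) {K M : ℕ} (hM : ((2 * M : ℕ) : ℝ) ≤ y ^ K) :
    |dl φ M| ≤ 2 * 2 ^ K := by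
  rcases Nat.eq_zero_or_pos M with rfl | hM0
  · simp [dl]
  have hMr : (0 : ℝ) < M := by exact_mod_cast hM0
  have e1 : ∑ n ∈ Icc 1 (2 * M), ∑ j ∈ Icc 1 M, (if j ∣ n then |φ j| else 0) ≤ 2 * M * 2 ^ K := by
    have : ∀ n ∈ Icc 1 (2 * M), ∑ j ∈ Icc 1 M, (if j ∣ n then |φ j| else 0) ≤ 2 ^ K := by
      intro n hn
      obtain ⟨n1, n2⟩ := mem_Icc.1 hn
      rw [← sum_filter]
      calc _ ≤ ∑ j ∈ n.divisors, |φ j| := by
            refine sum_le_sum_of_subset_of_nonneg (fun j hj => ?_) fun _ _ _ => abs_nonneg _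
            exact Nat.mem_divisors.2 ⟨(mem_filter.1 hj).2, by omega⟩
        _ ≤ _ := abs_sum_le_card h1 hφ _
        _ ≤ _ := by
            have : (n : ℝ) ≤ (2 * M : ℕ) := by exact_mod_cast n2
            exact_mod_cast card_rough_divisors hy K n (this.trans hM)
    have := sum_le_card_nsmul _ _ _ this
    simpa using this
  have e2 : M * ∑ j ∈ Icc 1 M, |φ j / j| ≤
      ∑ n ∈ Icc 1 (2 * M), ∑ j ∈ Icc 1 M, (if j ∣ n then |φ j| else 0) := by
    rw [sum_comm, mul_sum]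
    refine sum_le_sum fun j hj => ?_
    obtain ⟨j1, j2⟩ := mem_Icc.1 hj
    have hjr : (0 : ℝ) < j := by exact_mod_cast j1
    rw [← sum_filter, sum_const, nsmul_eq_mul, abs_div, Nat.abs_cast,
      show Icc 1 (2 * M) = Ioc 0 (2 * M) from rfl, Nat.Ioc_filter_dvd_card_eq_div,
      ← mul_div_assoc, div_le_iff₀ hjr, mul_right_comm]
    refine mul_le_mul_of_nonneg_right ?_ (abs_nonneg _)
    have h3 := Nat.lt_mul_div_succ (2 * M) (show 0 < j by omega)
    have h4 : M ≤ 2 * M / j * j := by nlinarith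
    exact_mod_cast h4
  refine (abs_sum_le_sum_abs _ _).trans (le_of_mul_le_mul_left (e2.trans (e1.trans ?_)) hMr)
  exact le_of_eq (by ring)

lemma card_rough_le {y w : ℝ} (hw : 1 < w) (hwy : w ≤ y) (M : ℕ) :
    (#((Icc 1 M).filter (Rough y)) : ℝ) ≤ M / Real.log w + w ^ 4 := by
  classical
  have h := sieve_dim (univ : Finset Unit) (fun _ => 1) (fun _ _ => one_pos) w hw (fun _ => {0})
    (fun p hp _ => by simpa using hp.pos) (fun p hp _ => by simpa using hp.one_lt)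
    (fun p _ _ => (card_filter_le _ _).trans (by simp)) 0 M
  simp only [zero_add, Nat.totient_one, Nat.cast_one, div_one, one_mul, prod_const, card_univ,
    Fintype.card_unit, pow_one] at h
  refine le_trans ?_ h
  have : (Icc 1 M).filter (Rough y) ⊆ (Ioc 0 M).filter (fun n =>
      ∀ p ∈ (range (⌊w⌋₊ + 1)).filter Nat.Prime, n % p ∉ ({0} : Finset ℕ)) := by
    intro n hn
    obtain ⟨h1, h2⟩ := mem_filter.1 hn
    refine mem_filter.2 ⟨h1, fun p hp h3 => ?_⟩
    obtain ⟨h4, h5⟩ := mem_filter.1 hp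
    have h6 := h2 p h5 (Nat.dvd_of_mod_eq_zero (mem_singleton.1 h3))
    have h7 : (p : ℝ) ≤ w :=
      (Nat.cast_le.mpr (Nat.lt_succ_iff.mp (mem_range.1 h4))).trans (Nat.floor_le (by linarith))
    linarith
  exact_mod_cast card_le_card this

lemma tendsto_rpow {η : ℝ} (hη : 0 < η) : Tendsto (fun N : ℕ => (N : ℝ) ^ η) atTop atTop :=
  (tendsto_rpow_atTop hη).comp tendsto_natCast_atTop_atTop

/-- integers without small prime factors are sparse -/
lemma card_rough_small {η ε : ℝ} (hη : 0 < η) (hε : 0 < ε) : ∀ᶠ N : ℕ in atTop,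
    (#((Icc 1 N).filter (Rough ((N : ℝ) ^ η))) : ℝ) ≤ ε * N := by
  set w := Real.exp (2 / ε) with hw
  have hw1 : 1 < w := Real.one_lt_exp_iff.2 (by positivity)
  filter_upwards [(tendsto_rpow hη).eventually_ge_atTop w,
    tendsto_natCast_atTop_atTop.eventually_ge_atTop (2 * w ^ 4 / ε)] with N h1 h2
  refine (card_rough_le hw1 h1 N).trans ?_
  rw [hw, Real.log_exp, ← hw]
  rw [div_le_iff₀ hε] at h2
  have e : (N : ℝ) / (2 / ε) = ε * N / 2 := by field_simp
  rw [e]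
  linarith

lemma abs_card_dvd_sub_le {a j : ℕ} (b N : ℕ) (hj : 0 < j) (h : Nat.Coprime j a) :
    |(#((Icc 1 N).filter fun n => j ∣ a * n + b) : ℝ) - N / j| ≤ 1 := by
  have : NeZero j := ⟨hj.ne'⟩
  obtain ⟨u, hu⟩ := (ZMod.isUnit_iff_coprime a j).2 h.symm
  have key := abs_card_modEq_sub_le 0 N j ((-(↑u⁻¹ : ZMod j) * b).val) hj
  have : (Icc 1 N).filter (fun n => j ∣ a * n + b) =
      (Ioc 0 (0 + N)).filter (fun n => n ≡ (-(↑u⁻¹ : ZMod j) * b).val [MOD j]) := by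
    rw [zero_add]
    refine filter_congr fun n _ => ?_
    rw [← ZMod.natCast_eq_zero_iff, ← ZMod.natCast_eq_natCast_iff, ZMod.natCast_zmod_val]
    push_cast
    rw [← hu]
    constructor
    · intro h1
      have : (n : ZMod j) = ↑u⁻¹ * (↑u * n) := by rw [← mul_assoc, Units.inv_mul, one_mul]
      rw [this, eq_neg_of_add_eq_zero_left h1]
      ring
    · intro h1
      rw [h1, neg_mul, mul_neg, ← mul_assoc, Units.mul_inv, one_mul, neg_add_cancel]
  rw [this]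
  exact key

/-- mean value along a linear form -/
lemma abs_mean_le {φ : ℕ → ℝ} {y : ℝ} (h1 : ∀ j, |φ j| ≤ 1) (hφ : ∀ j, φ j ≠ 0 → Rough y j)
    {N : ℕ} (hs : ∀ j, N < j → φ j = 0) {a : ℕ} (ha : 0 < a) (hay : (a : ℝ) ≤ y) (b : ℕ) :
    |∑ n ∈ Icc 1 N, Fd φ (a * n + b) - N * dl φ N| ≤ #((Icc 1 N).filter (Rough y)) := by
  have e1 : ∀ n ∈ Icc 1 N, Fd φ (a * n + b) =
      ∑ j ∈ Icc 1 N, if j ∣ a * n + b then φ j else 0 := by
    intro n hn
    have hn1 := (mem_Icc.1 hn).1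
    have hne : a * n + b ≠ 0 := by positivity
    rw [← sum_filter, Fd]
    symm
    refine sum_subset (fun j hj => Nat.mem_divisors.2 ⟨(mem_filter.1 hj).2, hne⟩) ?_
    intro j hj hj'
    refine hs j ?_
    by_contra h2
    exact hj' (mem_filter.2 ⟨mem_Icc.2 ⟨Nat.pos_of_mem_divisors hj, by omega⟩,
      Nat.dvd_of_mem_divisors hj⟩)
  rw [sum_congr rfl e1, sum_comm, dl, mul_sum, ← sum_sub_distrib]
  refine (abs_sum_le_sum_abs _ _).trans (le_trans (sum_le_sum fun j hj => ?_)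
    (abs_sum_le_card h1 hφ _))
  by_cases h0 : φ j = 0
  · simp [h0]
  have h2 := abs_card_dvd_sub_le b N (mem_Icc.1 hj).1 ((hφ j h0).coprime ha hay)
  rw [← sum_filter, sum_const, nsmul_eq_mul]
  have e : (#((Icc 1 N).filter fun n => j ∣ a * n + b) : ℝ) * φ j - N * (φ j / j) =
      ((#((Icc 1 N).filter fun n => j ∣ a * n + b) : ℝ) - N / j) * φ j := by ring
  rw [e, abs_mul]
  exact mul_le_of_le_one_left (abs_nonneg _) h2

end Pool.Agent.Work.MP_51e72e_nt.LT
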