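import Pool.Agent.Lib.MR.Basic
import Pool.Agent.Lib.MR.Vdc
import Pool.Agent.Lib.ANT.SieveSums

/-!
# Twisted character sums, and counts of rough numbers
-/

set_option autoImplicit false
open Filter Topology Finset

namespace Pool.Agent.Work.MP_51e72e_nt.L2

open Pool.Agent.Lib.MR Pool.Agent.Lib.ANT

/-- `x ^ (1 + i u) / (1 + i u)`. -/
noncomputable def Phi (u x : ℝ) : ℂ :=
  (x : ℂ) * Complex.exp (Complex.I * ((u * Real.log x : ℝ) : ℂ)) / (1 + Complex.I * u)

lemma one_le_norm_den (u : ℝ) : 1 ≤ ‖(1 + Complex.I * u : ℂ)‖ := by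
  have := Complex.abs_re_le_norm (1 + Complex.I * u)
  simpa using this

lemma den_ne (u : ℝ) : (1 + Complex.I * u : ℂ) ≠ 0 := by
  intro h
  have := one_le_norm_den u
  rw [h, norm_zero] at this
  linarith

lemma norm_expI (x : ℝ) : ‖Complex.exp (Complex.I * (x : ℂ))‖ = 1 := by
  rw [mul_comm]; exact Complex.norm_exp_ofReal_mul_I x

lemma norm_Phi_le (u : ℝ) {x : ℝ} (hx : 0 ≤ x) : ‖Phi u x‖ ≤ x := by
  rw [Phi, norm_div, norm_mul, norm_expI, mul_one, Complex.norm_real, Real.norm_of_nonneg hx]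
  exact div_le_self hx (one_le_norm_den u)

lemma hasDerivAt_Phi (u : ℝ) {x : ℝ} (hx : 0 < x) :
    HasDerivAt (Phi u) (Complex.exp (Complex.I * ((u * Real.log x : ℝ) : ℂ))) x := by
  have h1 : HasDerivAt (fun y : ℝ => ((u * Real.log y : ℝ) : ℂ)) ((u * x⁻¹ : ℝ) : ℂ) x :=
    ((Real.hasDerivAt_log hx.ne').const_mul u).ofReal_comp
  have h2 := (h1.const_mul Complex.I).cexp
  have h3 : HasDerivAt (fun y : ℝ => (y : ℂ)) 1 x := Complex.ofRealCLM.hasDerivAt
  have h4 := (h3.mul h2).div_const (1 + Complex.I * u)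
  refine HasDerivAt.congr_deriv (f := Phi u) h4 ?_
  have hx' : (x : ℂ) ≠ 0 := by exact_mod_cast hx.ne'
  rw [div_eq_iff (den_ne u)]
  generalize Complex.exp (Complex.I * ((u * Real.log x : ℝ) : ℂ)) = E
  push_cast
  field_simp

lemma Phi_lip (u : ℝ) {x y : ℝ} (hx : 0 ≤ x) (hy : 0 ≤ y) : ‖Phi u x - Phi u y‖ ≤ |x - y| := by
  rcases hx.eq_or_lt with rfl | hx
  · have : Phi u 0 = 0 := by simp [Phi]
    rw [this, zero_sub, norm_neg, zero_sub, abs_neg, abs_of_nonneg hy]
    exact norm_Phi_le u hy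
  rcases hy.eq_or_lt with rfl | hy
  · have : Phi u 0 = 0 := by simp [Phi]
    rw [this, sub_zero, sub_zero, abs_of_pos hx]
    exact norm_Phi_le u hx.le
  have := (convex_Ioi (0 : ℝ)).norm_image_sub_le_of_norm_hasDerivWithin_le (f := Phi u) (C := 1)
    (fun z hz => (hasDerivAt_Phi u hz).hasDerivWithinAt) (fun z _ => (norm_expI _).le) hy hx
  simpa using this

lemma Phi_div (u : ℝ) {x : ℝ} (hx : 0 < x) {k : ℕ} (hk : 0 < k) :
    nit k u * Phi u (x / k) = Phi u x / k := by
  have hk' : (0 : ℝ) < k := by exact_mod_cast hk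
  have hk'' : (k : ℂ) ≠ 0 := by exact_mod_cast hk.ne'
  have e : Complex.exp (Complex.I * ((u * Real.log x : ℝ) : ℂ))
      = nit k u * Complex.exp (Complex.I * ((u * Real.log (x / k) : ℝ) : ℂ)) := by
    rw [nit, ← Complex.exp_add, Real.log_div hx.ne' hk'.ne']
    congr 1; push_cast; ring
  rw [Phi, Phi, e]
  push_cast
  field_simp

lemma sum_Icc_residue (q : ℕ) (hq : 0 < q) (y : ℕ) (f : ℕ → ℂ) (hf : ∀ n, ‖f n‖ ≤ 1) :
    ‖∑ r ∈ Icc 1 y, f r - ∑ a ∈ range q, ∑ m ∈ Icc 1 ((y - a) / q), f (q * m + a)‖ ≤ q := by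
  have e : ∑ a ∈ range q, ∑ m ∈ Icc 1 ((y - a) / q), f (q * m + a) = ∑ r ∈ Icc q y, f r := by
    rw [sum_sigma']
    refine sum_nbij' (fun x => q * x.2 + x.1) (fun r => ⟨r % q, r / q⟩) ?_ ?_ ?_ ?_ ?_
    · rintro ⟨a, m⟩ h
      simp only [mem_sigma, mem_range, mem_Icc] at h ⊢
      have h1 := (Nat.le_div_iff_mul_le hq).1 h.2.2
      have h2 : q * 1 ≤ q * m := Nat.mul_le_mul_left _ h.2.1
      have h3 : 0 < m * q := Nat.mul_pos h.2.1 hq
      rw [mul_comm m] at h1 h3
      omega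
    · intro r h
      simp only [mem_sigma, mem_range, mem_Icc] at h ⊢
      have := Nat.div_add_mod r q
      refine ⟨Nat.mod_lt _ hq, (Nat.le_div_iff_mul_le hq).2 (by omega),
        (Nat.le_div_iff_mul_le hq).2 (by rw [mul_comm]; omega)⟩
    · rintro ⟨a, m⟩ h
      simp only [mem_sigma, mem_range, mem_Icc] at h
      simp only [Sigma.mk.injEq, heq_eq_eq]
      exact ⟨by rw [Nat.mul_add_mod, Nat.mod_eq_of_lt h.1],
        by rw [Nat.mul_add_div hq, Nat.div_eq_of_lt h.1, add_zero]⟩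
    · intro r _
      exact Nat.div_add_mod r q
    · intro x _; rfl
  rw [e, ← sum_sdiff (Icc_subset_Icc_left hq : Icc q y ⊆ Icc 1 y), add_sub_cancel_right]
  refine (norm_sum_le _ _).trans ((sum_le_card_nsmul _ _ 1 fun n _ => hf n).trans ?_)
  rw [nsmul_eq_mul, mul_one]
  have : #(Icc 1 y \ Icc q y) ≤ q := by
    refine (card_le_card (t := range q) fun n hn => ?_).trans (by simp)
    simp only [Finset.mem_sdiff, Finset.mem_Icc, Finset.mem_range] at hn ⊢
    omega
  exact_mod_cast this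

theorem char_sum (K : ℕ) : ∃ c : ℝ, 0 < c ∧ c ≤ 1 ∧ ∃ C : ℝ, 0 ≤ C ∧ ∀ q : ℕ, 0 < q →
    ∀ f : ZMod q → ℂ, (∀ a, ‖f a‖ ≤ 1) → ∀ A : ℝ, 1 ≤ A → ∀ u : ℝ, |u| ≤ A ^ K →
      ‖∑ r ∈ Icc 1 ⌊A⌋₊, f r * nit r u - (∑ a ∈ range q, f a) / q * Phi u A‖
        ≤ q * C * A ^ (1 - c) := by
  obtain ⟨c, hc, C, h⟩ := exp_sum_log K
  refine ⟨min c 1, lt_min hc one_pos, min_le_right _ _, |C| + 3, by positivity,
    fun q hq f hf A hA u hu => ?_⟩
  have hqr : (0 : ℝ) < q := by exact_mod_cast hq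
  have hq1 : (1 : ℝ) ≤ q := by exact_mod_cast hq
  have hqc : (q : ℂ) ≠ 0 := by exact_mod_cast hq.ne'
  set y := ⌊A⌋₊ with hy
  have hyA : (y : ℝ) ≤ A := Nat.floor_le (by linarith)
  have hAy : A < y + 1 := Nat.lt_floor_add_one A
  have hp1 : 1 ≤ A ^ (1 - min c 1) := Real.one_le_rpow hA (by linarith [min_le_right c 1])
  have hp2 : A ^ (1 - c) ≤ A ^ (1 - min c 1) :=
    Real.rpow_le_rpow_of_exponent_le hA (by linarith [min_le_left c 1])
  have h1 := sum_Icc_residue q hq y (fun r => f r * nit r u) fun n => by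
    rw [norm_mul, norm_nit, mul_one]; exact hf _
  have h2 : ∀ a ∈ range q, ‖∑ m ∈ Icc 1 ((y - a) / q), f ((q * m + a : ℕ) : ZMod q) *
      nit (q * m + a) u - f a / q * Phi u A‖ ≤ (|C| + 2) * A ^ (1 - min c 1) := by
    intro a ha
    have haq : (a : ℝ) < q := by exact_mod_cast mem_range.1 ha
    set Y := (y - a) / q with hY
    have hYA : (Y : ℝ) ≤ A := by
      have : Y ≤ y := (Nat.div_le_self _ _).trans (Nat.sub_le _ _)
      exact le_trans (by exact_mod_cast this) hyA
    have k := h A hA (a / q) (by positivity) (by rw [div_le_one hqr]; exact haq.le) u hu Y hYA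
    change ‖_ - Phi u (Y + a / q)‖ ≤ _ at k
    have e1 : ∑ m ∈ Icc 1 Y, f ((q * m + a : ℕ) : ZMod q) * nit (q * m + a) u
        = f a * (nit q u * ∑ m ∈ Icc 1 Y,
          Complex.exp (Complex.I * ((u * Real.log (m + a / q) : ℝ) : ℂ))) := by
      rw [mul_sum, mul_sum]
      refine sum_congr rfl fun m hm => ?_
      have hm0 : (0 : ℝ) < m := by exact_mod_cast (mem_Icc.1 hm).1
      congr 1
      · simp
      · rw [nit, nit, ← Complex.exp_add]
        have : ((q * m + a : ℕ) : ℝ) = q * (m + a / q) := by push_cast; field_simp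
        rw [this, Real.log_mul hqr.ne' (by positivity)]
        congr 1; push_cast; ring
    have e2 : f a / q * Phi u A = f a * (nit q u * Phi u (A / q)) := by
      rw [Phi_div u (by linarith) hq]; ring
    rw [e1, e2, ← mul_sub, ← mul_sub, norm_mul, norm_mul, norm_nit, one_mul]
    refine (mul_le_of_le_one_left (norm_nonneg _) (hf _)).trans ?_
    have l := Phi_lip u (x := Y + a / q) (y := A / q) (by positivity) (by positivity)
    have l2 : |(Y : ℝ) + a / q - A / q| ≤ 2 := by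
      have d1 : q * Y ≤ y - a := Nat.mul_div_le _ _
      have d2 : y - a < q * Y + q := by
        have := Nat.lt_div_mul_add (a := y - a) hq
        rwa [mul_comm] at this
      have haq' := mem_range.1 ha
      have d3 : (q : ℝ) * Y + a ≤ y + q := by exact_mod_cast (by omega : q * Y + a ≤ y + q)
      have d4 : (y : ℝ) ≤ q * Y + a + q := by exact_mod_cast (by omega : y ≤ q * Y + a + q)
      have e : (Y : ℝ) + a / q - A / q = (q * Y + a - A) / q := by field_simp
      rw [e, abs_div, abs_of_pos hqr, div_le_iff₀ hqr, abs_le]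
      constructor <;> linarith
    have t := norm_sub_le_norm_sub_add_norm_sub (∑ m ∈ Icc 1 Y,
          Complex.exp (Complex.I * ((u * Real.log (m + a / q) : ℝ) : ℂ))) (Phi u (Y + a / q))
          (Phi u (A / q))
    have k2 : C * A ^ (1 - c) ≤ |C| * A ^ (1 - min c 1) :=
      mul_le_mul (le_abs_self C) hp2 (by positivity) (abs_nonneg C)
    nlinarith
  have h3 : ‖∑ a ∈ range q, ∑ m ∈ Icc 1 ((y - a) / q), f ((q * m + a : ℕ) : ZMod q) *
      nit (q * m + a) u - (∑ a ∈ range q, f a) / q * Phi u A‖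
      ≤ q * ((|C| + 2) * A ^ (1 - min c 1)) := by
    rw [sum_div, sum_mul, ← sum_sub_distrib]
    refine (norm_sum_le _ _).trans ((sum_le_card_nsmul _ _ _ h2).trans ?_)
    simp
  have t := norm_sub_le_norm_sub_add_norm_sub (∑ r ∈ Icc 1 y, f r * nit r u)
    (∑ a ∈ range q, ∑ m ∈ Icc 1 ((y - a) / q), f ((q * m + a : ℕ) : ZMod q) * nit (q * m + a) u)
    ((∑ a ∈ range q, f a) / q * Phi u A)
  nlinarith

/-- all prime factors exceed `w` -/
def Rough (w : ℝ) (k : ℕ) : Prop := ∀ p : ℕ, p.Prime → p ∣ k → w < p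

open Classical in
lemma card_rough_divisors {w : ℝ} (hw : 1 < w) (m : ℕ) (hm : m ≠ 0) :
    (#{j ∈ m.divisors | Rough w j} : ℝ) ≤ (m : ℝ) ^ (Real.log 2 / Real.log w) := by
  have hl : 0 < Real.log w := Real.log_pos hw
  have he : 0 ≤ Real.log 2 / Real.log w := div_nonneg (Real.log_nonneg one_le_two) hl.le
  induction m using induction_on_primes with
  | zero => exact absurd rfl hm
  | one =>
    simp only [Nat.divisors_one, Nat.cast_one, Real.one_rpow]
    exact_mod_cast (card_filter_le _ _).trans (by simp)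
  | prime_mul p a hp ih =>
    have ha : a ≠ 0 := by rintro rfl; simp at hm
    have ih := ih ha
    have hp1 : (1 : ℝ) ≤ p := by exact_mod_cast hp.pos
    rw [Nat.cast_mul, Real.mul_rpow (by positivity) (by positivity)]
    have hsub : ∀ j ∈ (p * a).divisors, ¬ p ∣ j → j ∈ a.divisors := fun j hj hpj =>
      Nat.mem_divisors.2 ⟨Nat.Coprime.dvd_of_dvd_mul_left
        ((Nat.Prime.coprime_iff_not_dvd hp).2 hpj).symm (Nat.dvd_of_mem_divisors hj), ha⟩
    by_cases hpw : w < p
    · have h2 : (2 : ℝ) ≤ (p : ℝ) ^ (Real.log 2 / Real.log w) := by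
        calc (2 : ℝ) = w ^ (Real.log 2 / Real.log w) := by
              rw [Real.rpow_def_of_pos (by linarith), mul_div_cancel₀ _ hl.ne',
                Real.exp_log two_pos]
          _ ≤ _ := Real.rpow_le_rpow (by linarith) hpw.le he
      have h3 : #{j ∈ (p * a).divisors | Rough w j} ≤ 2 * #{j ∈ a.divisors | Rough w j} := by
        have : {j ∈ (p * a).divisors | Rough w j} ⊆ {j ∈ a.divisors | Rough w j} ∪
            ({j ∈ a.divisors | Rough w j}.image (p * ·)) := by
          intro j hj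
          obtain ⟨hj, hr⟩ := mem_filter.1 hj
          by_cases hpj : p ∣ j
          · obtain ⟨i, rfl⟩ := hpj
            refine mem_union_right _ (mem_image_of_mem _ (mem_filter.2 ⟨Nat.mem_divisors.2
              ⟨Nat.dvd_of_mul_dvd_mul_left hp.pos (Nat.dvd_of_mem_divisors hj), ha⟩,
              fun r hr' hd => hr r hr' (hd.mul_left _)⟩))
          · exact mem_union_left _ (mem_filter.2 ⟨hsub j hj hpj, hr⟩)
        refine (card_le_card this).trans ((card_union_le _ _).trans ?_)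
        have := card_image_le (s := {j ∈ a.divisors | Rough w j}) (f := (p * ·))
        omega
      calc (#{j ∈ (p * a).divisors | Rough w j} : ℝ) ≤ 2 * #{j ∈ a.divisors | Rough w j} := by
            exact_mod_cast h3
        _ ≤ _ := by gcongr
    · have h3 : #{j ∈ (p * a).divisors | Rough w j} ≤ #{j ∈ a.divisors | Rough w j} :=
        card_le_card fun j hj => mem_filter.2 ⟨hsub j (mem_filter.1 hj).1
          fun hd => hpw ((mem_filter.1 hj).2 p hp hd), (mem_filter.1 hj).2⟩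
      calc (#{j ∈ (p * a).divisors | Rough w j} : ℝ) ≤ 1 * #{j ∈ a.divisors | Rough w j} := by
            rw [one_mul]; exact_mod_cast h3
        _ ≤ _ := by gcongr; exact Real.one_le_rpow hp1 he

open Classical in
lemma card_rough_Ioc {w : ℝ} (hw : 1 < w) (M L : ℕ) :
    (#{n ∈ Ioc M (M + L) | Rough w n} : ℝ) ≤ L / Real.log w + w ^ 4 := by
  have h := sieve_dim ({()} : Finset Unit) (fun _ => 1) (fun _ _ => one_pos) w hw (fun _ => {0})
    (fun p hp _ => by simpa using hp.pos) (fun p hp _ => by simpa using hp.one_lt)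
    (fun p hp _ => (card_filter_le _ _).trans (by simp)) M L
  simp only [Nat.totient_one, Nat.cast_one, div_one, one_mul, prod_singleton, card_singleton,
    pow_one] at h
  refine le_trans ?_ h
  refine Nat.cast_le.2 (card_le_card fun n hn => ?_)
  obtain ⟨h1, h2⟩ := mem_filter.1 hn
  refine mem_filter.2 ⟨h1, fun p hp hd => ?_⟩
  obtain ⟨a, b⟩ := mem_filter.1 hp
  have c := h2 p b (Nat.dvd_of_mod_eq_zero (mem_singleton.1 hd))
  have d : p ≤ ⌊w⌋₊ := Nat.lt_succ_iff.1 (mem_range.1 a)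
  have e : (p : ℝ) ≤ w := (Nat.cast_le.2 d).trans (Nat.floor_le (by linarith))
  linarith

open Classical in
lemma sum_inv_rough {w : ℝ} (hw : 1 < w) (A : ℕ) (hA : 0 < A) (J : ℕ) :
    ∑ n ∈ Ioc A (2 ^ J * A) with Rough w n, (1 / (n : ℝ))
      ≤ J * (1 / Real.log w + w ^ 4 / A) := by
  have hl : 0 < Real.log w := Real.log_pos hw
  have hAr : (0 : ℝ) < A := by exact_mod_cast hA
  induction J with
  | zero => simp
  | succ J ih =>
    have h1 : A ≤ 2 ^ J * A := Nat.le_mul_of_pos_left _ (by positivity)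
    have h2 : 2 ^ (J + 1) * A = 2 ^ J * A + 2 ^ J * A := by ring
    set B := 2 ^ J * A with hB
    have hBr : (A : ℝ) ≤ B := by exact_mod_cast h1
    rw [h2, ← Ioc_union_Ioc_eq_Ioc h1 (Nat.le_add_right B B), filter_union,
      sum_union (disjoint_filter_filter (Ioc_disjoint_Ioc_of_le le_rfl))]
    have h3 : ∑ n ∈ Ioc B (B + B) with Rough w n, (1 / (n : ℝ)) ≤ 1 / Real.log w + w ^ 4 / A := by
      have : ∀ n ∈ {n ∈ Ioc B (B + B) | Rough w n}, (1 / (n : ℝ)) ≤ 1 / B := fun n hn => by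
        have : (B : ℝ) ≤ n := by exact_mod_cast (mem_Ioc.1 (mem_filter.1 hn).1).1.le
        gcongr
      refine (sum_le_card_nsmul _ _ _ this).trans ?_
      rw [nsmul_eq_mul]
      have hB0 : (0 : ℝ) < B := by linarith
      calc _ ≤ (B / Real.log w + w ^ 4) * (1 / B) := by gcongr; exact card_rough_Ioc hw B B
        _ = 1 / Real.log w + w ^ 4 / B := by field_simp
        _ ≤ _ := by gcongr
    push_cast
    linarith

end Pool.Agent.Work.MP_51e72e_nt.L2
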