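import Pool.Agent.Work.MP_51e72e_nt.L2Char
import Pool.Agent.Lib.MR.Kernel

/-!
# Divisor sums of rough weights have small Dirichlet polynomials on sparse sets
-/

set_option autoImplicit false
open Filter Topology Finset MeasureTheory

namespace Pool.Agent.Work.MP_51e72e_nt.L2

open Pool.Agent.Lib.MR

lemma ev_log (a : ℝ) {γ : ℝ} (hγ : 0 < γ) :
    ∀ᶠ X : ℕ in atTop, a * Real.log X ^ 2 ≤ (X : ℝ) ^ γ := by
  have h := (isLittleO_log_rpow_rpow_atTop 2 hγ).bound (c := 1 / (|a| + 1)) (by positivity)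
  filter_upwards [tendsto_natCast_atTop_atTop (R := ℝ) |>.eventually h] with X hX
  rw [Real.rpow_two, Real.norm_of_nonneg (sq_nonneg _), Real.norm_of_nonneg (by positivity),
    one_div, ← div_eq_inv_mul, le_div_iff₀ (by positivity)] at hX
  nlinarith [le_abs_self a, sq_nonneg (Real.log X)]

lemma sum_div_swap {M : Type*} [AddCommMonoid M] (X : ℕ) (p : ℕ → Prop) [DecidablePred p]
    (F : ℕ → ℕ → M) : ∑ m ∈ Icc 1 X, ∑ j ∈ m.divisors with p j, F j m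
      = ∑ j ∈ Icc 1 X with p j, ∑ r ∈ Icc 1 (X / j), F j (j * r) := by
  rw [sum_sigma', sum_sigma']
  refine sum_nbij' (fun x => ⟨x.2, x.1 / x.2⟩) (fun y => ⟨y.1 * y.2, y.1⟩) ?_ ?_ ?_ ?_ ?_
  · rintro ⟨m, j⟩ h
    simp only [mem_sigma, Finset.mem_Icc, mem_filter, Nat.mem_divisors] at h ⊢
    obtain ⟨⟨h1, h2⟩, ⟨h3, h4⟩, h5⟩ := h
    have h6 := Nat.le_of_dvd h1 h3
    have h7 : 0 < j := Nat.pos_of_dvd_of_pos h3 h1
    exact ⟨⟨⟨h7, h6.trans h2⟩, h5⟩, Nat.div_pos h6 h7, Nat.div_le_div_right h2⟩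
  · rintro ⟨j, r⟩ h
    simp only [mem_sigma, Finset.mem_Icc, mem_filter, Nat.mem_divisors] at h ⊢
    obtain ⟨⟨⟨h1, _⟩, h5⟩, h3, h4⟩ := h
    have h6 : 0 < j * r := Nat.mul_pos h1 h3
    exact ⟨⟨h6, by rw [mul_comm]; exact (Nat.le_div_iff_mul_le h1).1 h4⟩,
      ⟨dvd_mul_right _ _, h6.ne'⟩, h5⟩
  · rintro ⟨m, j⟩ h
    simp only [mem_sigma, mem_filter, Nat.mem_divisors] at h
    simp [Nat.mul_div_cancel' h.2.1.1]
  · rintro ⟨j, r⟩ h
    simp only [mem_sigma, Finset.mem_Icc, mem_filter] at h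
    simp [Nat.mul_div_cancel_left r h.1.1.1]
  · rintro ⟨m, j⟩ h
    simp only [mem_sigma, mem_filter, Nat.mem_divisors] at h
    simp [Nat.mul_div_cancel' h.2.1.1]

lemma harm_le (N : ℕ) : ∑ j ∈ Icc 1 N, (1 / (j : ℝ)) ≤ 1 + Real.log N := by
  have h := harmonic_le_one_add_log N
  rw [harmonic_eq_sum_Icc] at h
  simpa using h

lemma norm_wsum_le {φ : ℕ → ℝ} (hφ : ∀ j, |φ j| ≤ 1) {A N : ℕ} (h : A ≤ N) :
    |∑ j ∈ Icc 1 A, φ j / j| ≤ 1 + Real.log N := by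
  refine (abs_sum_le_sum_abs _ _).trans (le_trans ?_ (harm_le N))
  refine (sum_le_sum fun j _ => ?_).trans
    (sum_le_sum_of_subset_of_nonneg (Icc_subset_Icc_right h) fun _ _ _ => by positivity)
  rw [abs_div, Nat.abs_cast]
  gcongr
  exact hφ j

/-- The pointwise bound for the main part. -/
lemma pointwise {q : ℕ} (hq : 0 < q) (χ : ZMod q → ℂ) (hχ : ∀ a, ‖χ a‖ ≤ 1)
    (hm : ∀ a b, χ (a * b) = χ a * χ b) {φ : ℕ → ℝ} (hφ : ∀ j, |φ j| ≤ 1) (s : ℂ)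
    (hs : s = (∑ a ∈ range q, χ a) / q) (hS : ∀ j : ℕ, s * χ j * φ j = s * φ j)
    {c C : ℝ} (hc : 0 < c) (hC : 0 ≤ C) {K : ℕ}
    (H : ∀ f : ZMod q → ℂ, (∀ a, ‖f a‖ ≤ 1) → ∀ A : ℝ, 1 ≤ A → ∀ u : ℝ, |u| ≤ A ^ K →
      ‖∑ r ∈ Icc 1 ⌊A⌋₊, f r * nit r u - (∑ a ∈ range q, f a) / q * Phi u A‖
        ≤ q * C * A ^ (1 - c))
    {X A N : ℕ} {B : ℝ} (hB : 1 ≤ B) (hA : 1 ≤ A) (hAB : A * B ≤ X) (hAN : A ≤ N) {u : ℝ}
    (hu : |u| ≤ B ^ K) :
    ‖DP (Icc 1 X) (fun m => (((∑ j ∈ m.divisors, φ j) - ∑ j ∈ Icc 1 N, φ j / j : ℝ) : ℂ) * χ m) u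
      - DP (Icc 1 X) (fun m => ((∑ j ∈ m.divisors with ¬ j ≤ A, φ j : ℝ) : ℂ) * χ m
        + s * ((∑ j ∈ Icc 1 A, φ j / j - ∑ j ∈ Icc 1 N, φ j / j : ℝ) : ℂ)) u‖
      ≤ 4 * (q * C * X * B ^ (-c)) * (1 + Real.log N) := by
  have hA1 : (1 : ℝ) ≤ A := by exact_mod_cast hA
  have hqc : (q : ℂ) ≠ 0 := by exact_mod_cast hq.ne'
  have hAX : A ≤ X := by
    have : (A : ℝ) ≤ X := by nlinarith
    exact_mod_cast this
  have hX : (0 : ℝ) < X := by nlinarith
  set E := q * C * X * B ^ (-c) with hE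
  have hE0 : 0 ≤ E := by positivity
  have hs1 : ‖s‖ ≤ 1 := by
    rw [hs, norm_div, Complex.norm_natCast]
    refine div_le_one_of_le₀ ((norm_sum_le _ _).trans ?_) (by positivity)
    simpa using sum_le_card_nsmul (range q) (fun a => ‖χ a‖) 1 fun a _ => hχ _
  have key : ∀ f : ZMod q → ℂ, (∀ a, ‖f a‖ ≤ 1) → ∀ j ∈ Icc 1 A,
      ‖∑ r ∈ Icc 1 (X / j), f r * nit r u - (∑ a ∈ range q, f a) / q * Phi u (X / j)‖
        ≤ E * (1 / j) := by
    intro f hf j hj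
    obtain ⟨h1, h2⟩ := mem_Icc.1 hj
    have hj0 : (0 : ℝ) < j := by exact_mod_cast h1
    have hjA : (j : ℝ) ≤ A := by exact_mod_cast h2
    have h3 : B ≤ X / j := by rw [le_div_iff₀ hj0]; nlinarith
    have h4 := H f hf (X / j) (hB.trans h3) u (hu.trans (pow_le_pow_left₀ (by linarith) h3 K))
    rw [Nat.floor_div_eq_div] at h4
    refine h4.trans ?_
    have h5 : ((X : ℝ) / j) ^ (-c) ≤ B ^ (-c) :=
      Real.rpow_le_rpow_of_nonpos (by linarith) h3 (by linarith)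
    rw [sub_eq_add_neg, Real.rpow_add (by positivity), Real.rpow_one, hE]
    calc _ ≤ q * C * (X / j * B ^ (-c)) := by gcongr
      _ = _ := by ring
  set δ := ∑ j ∈ Icc 1 N, φ j / j with hδ
  set σ := ∑ j ∈ Icc 1 A, φ j / j with hσ
  have e1 : ∑ m ∈ Icc 1 X, ((∑ j ∈ m.divisors with j ≤ A, φ j : ℝ) : ℂ) * χ m * nit m u
      = ∑ j ∈ Icc 1 A, φ j * χ j * nit j u * ∑ r ∈ Icc 1 (X / j), χ r * nit r u := by
    have h := sum_div_swap X (· ≤ A) fun j m => (φ j : ℂ) * χ m * nit m u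
    have h' : {j ∈ Icc 1 X | j ≤ A} = Icc 1 A := by
      ext j; simp only [mem_filter, Finset.mem_Icc]; omega
    rw [h'] at h
    push_cast
    simp only [sum_mul, mul_sum]
    rw [h]
    refine sum_congr rfl fun j hj => sum_congr rfl fun r hr => ?_
    rw [Nat.cast_mul, hm, nit_mul (by have := (mem_Icc.1 hj).1; omega)
      (by have := (mem_Icc.1 hr).1; omega)]
    ring
  have e2 : ∑ j ∈ Icc 1 A, φ j * χ j * nit j u * (s * Phi u (X / j)) = s * σ * Phi u X := by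
    rw [hσ]
    push_cast
    rw [mul_sum, sum_mul]
    refine sum_congr rfl fun j hj => ?_
    have h := Phi_div u hX (mem_Icc.1 hj).1
    calc _ = (s * χ j * φ j) * (nit j u * Phi u (X / j)) := by ring
      _ = _ := by rw [hS, h]; ring
  have e3 : DP (Icc 1 X) (fun m => (((∑ j ∈ m.divisors, φ j) - δ : ℝ) : ℂ) * χ m) u
      - DP (Icc 1 X) (fun m => ((∑ j ∈ m.divisors with ¬ j ≤ A, φ j : ℝ) : ℂ) * χ m
        + s * ((σ - δ : ℝ) : ℂ)) u
      = ∑ j ∈ Icc 1 A, φ j * χ j * nit j u *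
          (∑ r ∈ Icc 1 (X / j), χ r * nit r u - s * Phi u (X / j))
        - δ * (∑ r ∈ Icc 1 X, χ r * nit r u - s * Phi u X)
        - s * ((σ - δ : ℝ) : ℂ) * (∑ r ∈ Icc 1 X, nit r u - Phi u X) := by
    simp only [mul_sub, sum_sub_distrib]
    rw [e2, ← e1, DP, DP, ← sum_sub_distrib, mul_sum, mul_sum]
    have : ∀ m ∈ Icc 1 X, (((∑ j ∈ m.divisors, φ j) - δ : ℝ) : ℂ) * χ m * nit m u
        - (((∑ j ∈ m.divisors with ¬ j ≤ A, φ j : ℝ) : ℂ) * χ m + s * ((σ - δ : ℝ) : ℂ)) * nit m u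
        = ((∑ j ∈ m.divisors with j ≤ A, φ j : ℝ) : ℂ) * χ m * nit m u - δ * (χ m * nit m u)
          - s * ((σ - δ : ℝ) : ℂ) * nit m u := by
      intro m _
      rw [← sum_filter_add_sum_filter_not m.divisors (· ≤ A) φ]
      push_cast
      ring
    rw [sum_congr rfl this, sum_sub_distrib, sum_sub_distrib]
    push_cast
    ring
  rw [e3]
  have b1 : ‖∑ j ∈ Icc 1 A, φ j * χ j * nit j u *
      (∑ r ∈ Icc 1 (X / j), χ r * nit r u - s * Phi u (X / j))‖ ≤ E * (1 + Real.log N) := by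
    refine (norm_sum_le _ _).trans ((sum_le_sum (g := fun j : ℕ => E * (1 / j)) fun j hj => ?_).trans ?_)
    · rw [norm_mul, norm_mul, norm_mul, norm_nit, mul_one, Complex.norm_real, Real.norm_eq_abs, hs]
      refine le_trans (mul_le_of_le_one_left (norm_nonneg _) ?_) (key χ hχ j hj)
      exact mul_le_one₀ (hφ j) (norm_nonneg _) (hχ _)
    · rw [← mul_sum]
      refine mul_le_mul_of_nonneg_left (le_trans ?_ (harm_le N)) hE0
      exact sum_le_sum_of_subset_of_nonneg (Icc_subset_Icc_right hAN) fun _ _ _ => by positivity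
  have b2 := key χ hχ 1 (mem_Icc.2 ⟨le_rfl, hA⟩)
  have b3 := key (fun _ => 1) (fun _ => by simp) 1 (mem_Icc.2 ⟨le_rfl, hA⟩)
  simp only [Nat.div_one, Nat.cast_one, div_one, mul_one, one_mul, sum_const, card_range,
    nsmul_eq_mul, div_self hqc, ← hs] at b2 b3
  have d1 : |δ| ≤ 1 + Real.log N := norm_wsum_le hφ le_rfl
  have d2 : |σ| ≤ 1 + Real.log N := norm_wsum_le hφ hAN
  have d3 : |σ - δ| ≤ 2 * (1 + Real.log N) := (abs_sub _ _).trans (by linarith)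
  have hL : 0 ≤ 1 + Real.log N := (abs_nonneg _).trans d1
  refine (norm_sub_le _ _).trans ((add_le_add_left (norm_sub_le _ _) _).trans ?_)
  rw [norm_mul, norm_mul, norm_mul, Complex.norm_real, Complex.norm_real, Real.norm_eq_abs,
    Real.norm_eq_abs]
  have t1 := mul_le_mul d1 b2 (norm_nonneg _) hL
  have t2 := mul_le_mul (mul_le_mul hs1 d3 (abs_nonneg _) zero_le_one) b3 (norm_nonneg _)
    (by positivity)
  linarith

open Classical in
lemma abs_sum_le_rough {w : ℝ} {φ : ℕ → ℝ} (hφ : ∀ j, |φ j| ≤ 1) (hr : ∀ j, φ j ≠ 0 → Rough w j)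
    (S : Finset ℕ) (a : ℕ → ℝ) (ha : ∀ j, 0 ≤ a j) :
    |∑ j ∈ S, φ j * a j| ≤ ∑ j ∈ S with Rough w j, a j := by
  rw [sum_filter]
  refine (abs_sum_le_sum_abs _ _).trans (sum_le_sum fun j _ => ?_)
  split_ifs with h
  · rw [abs_mul, abs_of_nonneg (ha j)]
    exact mul_le_of_le_one_left (ha j) (hφ j)
  · have : φ j = 0 := by by_contra h'; exact h (hr j h')
    simp [this]

open Classical in
/-- The large divisors are small in mean square. -/
lemma tail_sq {w : ℝ} (hw : 1 < w) {φ : ℕ → ℝ} (hφ : ∀ j, |φ j| ≤ 1)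
    (hr : ∀ j, φ j ≠ 0 → Rough w j) (χ : ℕ → ℂ) (hχ : ∀ a, ‖χ a‖ ≤ 1) {s : ℂ} (hs : ‖s‖ ≤ 1)
    {X A N M : ℕ} (hAN : A ≤ N) (hXM : X ≤ M) (hNM : N ≤ M) {ρ R : ℝ}
    (hρ : ∑ n ∈ Ioc A M with Rough w n, (1 / (n : ℝ)) ≤ ρ)
    (hR : (X : ℝ) ^ (Real.log 2 / Real.log w) ≤ R) :
    ∑ m ∈ Icc 1 X, ‖((∑ j ∈ m.divisors with ¬ j ≤ A, φ j : ℝ) : ℂ) * χ m
        + s * ((∑ j ∈ Icc 1 A, φ j / j - ∑ j ∈ Icc 1 N, φ j / j : ℝ) : ℂ)‖ ^ 2
      ≤ 2 * X * (R * ρ + ρ ^ 2) := by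
  have he : 0 ≤ Real.log 2 / Real.log w :=
    div_nonneg (Real.log_nonneg one_le_two) (Real.log_pos hw).le
  have hR0 : 0 ≤ R := le_trans (by positivity) hR
  have h1 : |∑ j ∈ Icc 1 A, φ j / j - ∑ j ∈ Icc 1 N, φ j / j| ≤ ρ := by
    have e : Icc 1 N = Icc 1 A ∪ Ioc A N := by
      ext j; simp only [mem_union, Finset.mem_Icc, Finset.mem_Ioc]; omega
    rw [e, sum_union (disjoint_left.2 fun j h1 h2 => by
      have := (mem_Icc.1 h1).2; have := (mem_Ioc.1 h2).1; omega), sub_add_cancel_left, abs_neg]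
    have := abs_sum_le_rough hφ hr (Ioc A N) (fun j => 1 / (j : ℝ)) fun _ => by positivity
    simp only [mul_one_div] at this
    refine this.trans (le_trans ?_ hρ)
    exact sum_le_sum_of_subset_of_nonneg (filter_subset_filter _ (Ioc_subset_Ioc_right hNM))
      fun _ _ _ => by positivity
  set n : ℕ → ℝ := fun m => ∑ j ∈ m.divisors with (¬ j ≤ A ∧ Rough w j), 1 with hn
  have h2 : ∀ m ∈ Icc 1 X, ‖((∑ j ∈ m.divisors with ¬ j ≤ A, φ j : ℝ) : ℂ) * χ m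
        + s * ((∑ j ∈ Icc 1 A, φ j / j - ∑ j ∈ Icc 1 N, φ j / j : ℝ) : ℂ)‖ ^ 2
      ≤ 2 * R * n m + 2 * ρ ^ 2 := by
    intro m hm
    obtain ⟨m1, m2⟩ := mem_Icc.1 hm
    have a1 : |∑ j ∈ m.divisors with ¬ j ≤ A, φ j| ≤ n m := by
      have := abs_sum_le_rough hφ hr {j ∈ m.divisors | ¬ j ≤ A} (fun _ => 1) fun _ => zero_le_one
      simpa only [mul_one, filter_filter] using this
    have a2 : n m ≤ R := by
      refine le_trans ?_ ((card_rough_divisors hw m (by omega)).trans (le_trans ?_ hR))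
      · simp only [hn, sum_const, nsmul_eq_mul, mul_one]
        exact Nat.cast_le.2 (card_le_card (monotone_filter_right _ fun j _ h => h.2))
      · gcongr
    have a0 : 0 ≤ n m := (abs_nonneg _).trans a1
    have a3 : ‖((∑ j ∈ m.divisors with ¬ j ≤ A, φ j : ℝ) : ℂ) * χ m
        + s * ((∑ j ∈ Icc 1 A, φ j / j - ∑ j ∈ Icc 1 N, φ j / j : ℝ) : ℂ)‖ ≤ n m + ρ := by
      refine (norm_add_le _ _).trans (add_le_add ?_ ?_)
      · rw [norm_mul, Complex.norm_real, Real.norm_eq_abs]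
        exact (mul_le_of_le_one_right (abs_nonneg _) (hχ _)).trans a1
      · rw [norm_mul, Complex.norm_real, Real.norm_eq_abs]
        exact (mul_le_of_le_one_left (abs_nonneg _) hs).trans h1
    refine (pow_le_pow_left₀ (norm_nonneg _) a3 2).trans ?_
    nlinarith [sq_nonneg (n m - ρ), mul_le_mul_of_nonneg_right a2 a0]
  have h3 : ∑ m ∈ Icc 1 X, n m ≤ X * ρ := by
    simp only [hn]
    rw [sum_div_swap X (fun j => ¬ j ≤ A ∧ Rough w j) fun _ _ => (1 : ℝ)]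
    refine le_trans ?_ (mul_le_mul_of_nonneg_left hρ (Nat.cast_nonneg X))
    rw [mul_sum]
    refine (sum_le_sum (g := fun j : ℕ => (X : ℝ) * (1 / j)) fun j _ => ?_).trans
      (sum_le_sum_of_subset_of_nonneg (fun j hj => ?_) fun _ _ _ => by positivity)
    · simp only [sum_const, Nat.card_Icc, add_tsub_cancel_right, nsmul_eq_mul, mul_one,
        mul_one_div]
      exact Nat.cast_div_le
    · simp only [mem_filter, Finset.mem_Icc, Finset.mem_Ioc] at hj ⊢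
      exact ⟨⟨by omega, by omega⟩, hj.2.2⟩
  refine (sum_le_sum h2).trans ?_
  rw [sum_add_distrib, ← mul_sum]
  simp only [sum_const, Nat.card_Icc, add_tsub_cancel_right, nsmul_eq_mul]
  nlinarith [mul_le_mul_of_nonneg_left h3 hR0]

lemma mean_char {q : ℕ} [NeZero q] (χ : DirichletCharacter ℂ q) {w : ℝ} (hw : (q : ℝ) ≤ w)
    {φ : ℕ → ℝ} (hr : ∀ j, φ j ≠ 0 → Rough w j) (j : ℕ) :
    (∑ a ∈ range q, χ a) / q * χ j * φ j = (∑ a ∈ range q, χ a) / q * φ j := by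
  by_cases h1 : χ = 1
  · by_cases h2 : φ j = 0
    · simp [h2]
    · have : χ j = 1 := by
        rw [h1]
        refine MulChar.one_apply ((ZMod.isUnit_iff_coprime _ _).2 ?_)
        refine Nat.Coprime.symm (Nat.coprime_of_dvd fun p hp hq hj => ?_)
        have a := hr j h2 p hp hj
        have b : (p : ℝ) ≤ q := Nat.cast_le.2 (Nat.le_of_dvd (NeZero.pos q) hq)
        linarith
      rw [this, mul_one]
  · have : ∑ a ∈ range q, χ a = 0 := by
      rw [← MulChar.sum_eq_zero_of_ne_one h1]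
      exact sum_nbij' (fun a => (a : ZMod q)) ZMod.val (fun _ _ => mem_univ _)
        (fun a _ => mem_range.2 (ZMod.val_lt a)) (fun a ha => ZMod.val_cast_of_lt (mem_range.1 ha))
        (fun a _ => ZMod.natCast_zmod_val a) fun _ _ => rfl
    simp [this]

open Classical in
lemma rough_range {η θ : ℝ} (hη : 0 < η) (hη' : η ≤ 1 / 10) (hθ : 0 < θ) (hθ' : θ ≤ 1 / 10)
    (k : ℕ) : ∀ᶠ X : ℕ in atTop, ∃ M : ℕ, k * X ≤ M ∧
      ∑ n ∈ Ioc ⌊(X : ℝ) ^ (1 - θ)⌋₊ M with Rough ((X : ℝ) ^ η) n, (1 / (n : ℝ)) ≤ 4 * θ / η := by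
  have hl : Tendsto (fun X : ℕ => Real.log X) atTop atTop :=
    Real.tendsto_log_atTop.comp tendsto_natCast_atTop_atTop
  filter_upwards [eventually_ge_atTop 2, ev_log 2 one_half_pos, hl.eventually_ge_atTop 1,
    hl.eventually_ge_atTop (2 * (k + 2) / θ)] with X h2 he hL hd
  have hX : (1 : ℝ) < X := by exact_mod_cast h2
  have hX0 : (0 : ℝ) < X := by linarith
  set L := Real.log X with hLdef
  set A := ⌊(X : ℝ) ^ (1 - θ)⌋₊ with hA
  have hA1 : 1 ≤ (X : ℝ) ^ (1 - θ) := Real.one_le_rpow hX.le (by linarith)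
  have hA0 : 0 < A := Nat.floor_pos.2 hA1
  have hAr : (1 : ℝ) ≤ A := by exact_mod_cast hA0
  have hA2 : (X : ℝ) ^ (1 - θ) ≤ 2 * A := by
    have := Nat.lt_floor_add_one ((X : ℝ) ^ (1 - θ))
    linarith
  set J := ⌈θ * L / Real.log 2⌉₊ with hJ
  have l2 : 2 / 3 < Real.log 2 := by linarith [Real.log_two_gt_d9]
  refine ⟨2 ^ (J + k + 1) * A, ?_, (sum_inv_rough (Real.one_lt_rpow hX hη) A hA0 _).trans ?_⟩
  · have a1 : (X : ℝ) ^ θ ≤ 2 ^ J := by
      rw [← Real.rpow_natCast, Real.rpow_def_of_pos hX0, Real.rpow_def_of_pos two_pos]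
      refine Real.exp_le_exp.2 ?_
      have := Nat.le_ceil (θ * L / Real.log 2)
      rw [div_le_iff₀ (by linarith)] at this
      linarith
    have a2 : (k : ℝ) ≤ 2 ^ k := by exact_mod_cast (Nat.lt_two_pow_self (n := k)).le
    have a3 : (X : ℝ) = X ^ θ * X ^ (1 - θ) := by rw [← Real.rpow_add hX0]; simp
    have : (k : ℝ) * X ≤ 2 ^ (J + k + 1) * A := by
      calc (k : ℝ) * X = k * (X ^ θ * X ^ (1 - θ)) := by rw [← a3]
        _ ≤ 2 ^ k * (2 ^ J * (2 * A)) := by gcongr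
        _ = _ := by ring
    exact_mod_cast this
  · have b1 : ((J + k + 1 : ℕ) : ℝ) ≤ 2 * θ * L := by
      have c1 : (J : ℝ) < θ * L / Real.log 2 + 1 := Nat.ceil_lt_add_one (by positivity)
      have c2 : θ * L / Real.log 2 ≤ 3 / 2 * (θ * L) := by
        rw [div_le_iff₀ (by linarith)]
        nlinarith [mul_pos hθ (by linarith : 0 < L)]
      rw [div_le_iff₀ hθ] at hd
      push_cast
      linarith
    have b2 : ((X : ℝ) ^ η) ^ 4 / A ≤ 1 / (η * L) := by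
      rw [div_le_div_iff₀ (by linarith) (by positivity), one_mul, ← Real.rpow_natCast,
        ← Real.rpow_mul hX0.le]
      have c1 : (X : ℝ) ^ (η * (4 : ℕ)) * X ^ (1 / 2 : ℝ) ≤ X ^ (1 - θ) := by
        rw [← Real.rpow_add hX0]
        exact Real.rpow_le_rpow_of_exponent_le hX.le (by push_cast; linarith)
      have c2 : 2 * (η * L) ≤ (X : ℝ) ^ (1 / 2 : ℝ) := by nlinarith
      have c3 : 0 ≤ (X : ℝ) ^ (η * (4 : ℕ)) := by positivity
      have c4 := (mul_le_mul_of_nonneg_left c2 c3).trans (c1.trans hA2)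
      generalize (X : ℝ) ^ (η * (4 : ℕ)) = Z at c4 ⊢
      linarith
    rw [Real.log_rpow hX0, ← hLdef]
    calc _ ≤ (2 * θ * L) * (1 / (η * L) + 1 / (η * L)) := by gcongr
      _ = _ := by field_simp; ring

theorem exc_det {η : ℝ} (hη : 0 < η) (hη' : η ≤ 1 / 10) (q : ℕ) [NeZero q]
    (χ : DirichletCharacter ℂ q) {ε : ℝ} (hε : 0 < ε) : ∃ β : ℝ, 0 < β ∧ ∀ k : ℕ,
    ∀ᶠ X : ℕ in atTop, ∀ N : ℕ, N ≤ k * X → X ≤ k * N → ∀ φ : ℕ → ℝ, (∀ j, |φ j| ≤ 1) →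
      (∀ j, φ j ≠ 0 → Rough ((X : ℝ) ^ η) j) → ∀ T : ℝ, 0 < T → T ≤ X → ∀ U : Set ℝ,
        MeasurableSet U → (cm T).real U ≤ (X : ℝ) ^ β →
        MS T U (DP (Icc 1 X) fun m =>
          (((∑ j ∈ m.divisors, φ j) - ∑ j ∈ Icc 1 N, φ j / j : ℝ) : ℂ) * χ m)
          ≤ ε * (X : ℝ) ^ 2 := by
  classical
  have hq := NeZero.pos q
  set R := Real.exp (Real.log 2 / η) with hR
  have hR0 : 0 < R := Real.exp_pos _
  set ρ := min (1 / 10) (ε / (96 * (R + 1))) with hρ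
  have hρ0 : 0 < ρ := by positivity
  have hρ1 : ρ ≤ 1 / 10 := min_le_left _ _
  have hρ2 : ρ * (96 * (R + 1)) ≤ ε := (le_div_iff₀ (by positivity)).1 (min_le_right _ _)
  set θ := ρ * η / 4 with hθ
  have hθ0 : 0 < θ := by positivity
  have hθ1 : θ ≤ 1 / 10 := by nlinarith
  obtain ⟨c, hc, -, C, hC, H⟩ := char_sum ⌈5 / θ⌉₊
  refine ⟨θ * c, by positivity, fun k => ?_⟩
  have hl : Tendsto (fun X : ℕ => Real.log X) atTop atTop :=
    Real.tendsto_log_atTop.comp tendsto_natCast_atTop_atTop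
  filter_upwards [eventually_ge_atTop 2, hl.eventually_ge_atTop 1, ev_log k hθ0, ev_log q hη,
    ev_log (8 * (12 * q * C) ^ 2 / ε) (mul_pos hθ0 hc), rough_range hη hη' hθ0 hθ1 k,
    eventually_ge_atTop k, (tendsto_natCast_atTop_atTop (R := ℝ)).eventually_ge_atTop
      (8 * (k + 1) ^ 2 / ε)] with X h2 hL hb hcq hf hM hkX hg N hN1 hN2 φ hφ hr T hT hTX U hU hUβ
  obtain ⟨M, hM1, hM2⟩ := hM
  have hX : (1 : ℝ) < X := by exact_mod_cast h2
  have hX0 : (0 : ℝ) < X := by linarith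
  set L := Real.log X with hLdef
  have hL2 : 1 ≤ L ^ 2 := one_le_pow₀ hL
  have hk : 0 < k := Nat.pos_of_ne_zero (by rintro rfl; omega)
  have hN0 : 0 < N := Nat.pos_of_ne_zero (by rintro rfl; omega)
  set A := ⌊(X : ℝ) ^ (1 - θ)⌋₊ with hA
  have hA0 : 0 < A := Nat.floor_pos.2 (Real.one_le_rpow hX.le (by linarith))
  have hAB : A * (X : ℝ) ^ θ ≤ X := by
    calc A * (X : ℝ) ^ θ ≤ X ^ (1 - θ) * X ^ θ := by gcongr; exact Nat.floor_le (by positivity)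
      _ = X := by rw [← Real.rpow_add hX0]; simp
  have hAN : A ≤ N := by
    have a1 : (k : ℝ) ≤ X ^ θ := le_trans (le_mul_of_one_le_right (by positivity) hL2) hb
    have a2 : (k : ℝ) * A ≤ X := by nlinarith [Nat.cast_nonneg (α := ℝ) A]
    have a3 : k * A ≤ X := by exact_mod_cast a2
    exact Nat.le_of_mul_le_mul_left (a3.trans hN2) hk
  have hχ : ∀ a, ‖χ a‖ ≤ 1 := fun a => χ.norm_le_one a
  set s : ℂ := (∑ a ∈ range q, χ a) / q with hs
  have hs1 : ‖s‖ ≤ 1 := by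
    rw [hs, norm_div, Complex.norm_natCast]
    refine div_le_one_of_le₀ ((norm_sum_le _ _).trans ?_) (by positivity)
    simpa using sum_le_card_nsmul (range q) (fun a => ‖χ a‖) 1 fun a _ => hχ _
  set D := DP (Icc 1 X) fun m =>
    (((∑ j ∈ m.divisors, φ j) - ∑ j ∈ Icc 1 N, φ j / j : ℝ) : ℂ) * χ m with hD
  set F := DP (Icc 1 X) fun m => ((∑ j ∈ m.divisors with ¬ j ≤ A, φ j : ℝ) : ℂ) * χ m
    + s * ((∑ j ∈ Icc 1 A, φ j / j - ∑ j ∈ Icc 1 N, φ j / j : ℝ) : ℂ) with hF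
  have tD : Trig D := Trig.DP _ _
  have tF : Trig F := Trig.DP _ _
  have hNr : (N : ℝ) ≤ k * X := by exact_mod_cast hN1
  -- the large divisors
  have m1 : MS T Set.univ F ≤ ε / 4 * X ^ 2 := by
    refine (mean_value Subset.rfl _ hT).trans ?_
    have a1 := tail_sq (Real.one_lt_rpow hX hη) hφ hr (fun m => χ m) (fun m => hχ _) hs1 hAN
      ((Nat.le_mul_of_pos_left X hk).trans hM1) (hN1.trans hM1) hM2 (R := R) (by
        rw [Real.log_rpow hX0, Real.rpow_def_of_pos hX0, hR, ← hLdef]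
        refine le_of_eq (congrArg _ ?_)
        field_simp)
    have a2 : 4 * θ / η = ρ := by rw [hθ]; field_simp
    rw [a2] at a1
    calc _ ≤ 4 * (X + 2 * X) * (2 * X * (R * ρ + ρ ^ 2)) := by
          gcongr
          exact Real.pi_le_four
      _ = 24 * (R * ρ + ρ ^ 2) * X ^ 2 := by ring
      _ ≤ _ := by gcongr; nlinarith
  -- the main part
  have m2 : MS T (U ∩ {u | |u| ≤ (X : ℝ) ^ 5}) (fun u => D u - F u) ≤ ε / 8 * X ^ 2 := by
    have hlog : 1 + Real.log N ≤ 3 * L := by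
      have : Real.log N ≤ Real.log ((X : ℝ) ^ 2) := by
        refine Real.log_le_log (by exact_mod_cast hN0) (hNr.trans ?_)
        have : (k : ℝ) ≤ X := by exact_mod_cast hkX
        nlinarith
      rw [Real.log_pow] at this
      push_cast at this
      linarith
    have a1 : ∀ u ∈ U ∩ {u | |u| ≤ (X : ℝ) ^ 5},
        ‖D u - F u‖ ≤ 12 * q * C * X * (X : ℝ) ^ (-(θ * c)) * L := by
      intro u hu
      have b1 : |u| ≤ ((X : ℝ) ^ θ) ^ ⌈5 / θ⌉₊ := by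
        refine le_trans hu.2 ?_
        rw [← Real.rpow_natCast, ← Real.rpow_natCast, ← Real.rpow_mul hX0.le]
        refine Real.rpow_le_rpow_of_exponent_le hX.le ?_
        have := Nat.le_ceil (5 / θ)
        rw [div_le_iff₀ hθ0] at this
        push_cast
        linarith
      refine (pointwise hq χ hχ (fun a b => map_mul χ a b) hφ s hs (mean_char χ
        (le_trans (le_mul_of_one_le_right (by positivity) hL2) hcq) hr) hc hC (H q hq)
        (Real.one_le_rpow hX.le hθ0.le) hA0 hAB hAN b1).trans ?_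
      rw [← Real.rpow_mul hX0.le, mul_neg]
      calc _ ≤ 4 * (q * C * X * (X : ℝ) ^ (-(θ * c))) * (3 * L) := by gcongr
        _ = _ := by ring
    refine (MS_le_const (tD.sub tF) T (hU.inter (measurableSet_le (by fun_prop) (by fun_prop)))
      a1).trans ?_
    have a2 : (cm T).real (U ∩ {u | |u| ≤ (X : ℝ) ^ 5}) ≤ (X : ℝ) ^ (θ * c) :=
      (measureReal_mono Set.inter_subset_left).trans hUβ
    refine (mul_le_mul_of_nonneg_left a2 (sq_nonneg _)).trans ?_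
    rw [Real.rpow_neg hX0.le]
    have a3 : 0 < (X : ℝ) ^ (θ * c) := by positivity
    generalize (X : ℝ) ^ (θ * c) = Y at hf a3 ⊢
    rw [div_mul_eq_mul_div, div_le_iff₀ hε] at hf
    have : (12 * q * C * X * Y⁻¹ * L) ^ 2 * Y = (8 * (12 * q * C) ^ 2 * L ^ 2) / (8 * Y) * X ^ 2 := by
      field_simp
    rw [this]
    refine mul_le_mul_of_nonneg_right ?_ (sq_nonneg _)
    rw [div_le_div_iff₀ (by positivity) (by norm_num)]
    nlinarith
  -- the tail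
  have m3 : MS T {u | (X : ℝ) ^ 5 < |u|} D ≤ ε / 4 * X ^ 2 := by
    have a1 : ∀ u ∈ {u : ℝ | (X : ℝ) ^ 5 < |u|}, ‖D u‖ ≤ (k + 1) * X ^ 2 := by
      intro u _
      refine (norm_DP_le _ _ _).trans ((sum_le_card_nsmul _ _ ((k + 1) * X : ℝ)
        fun m hm => ?_).trans (le_of_eq (by simp; ring)))
      rw [norm_mul, Complex.norm_real, Real.norm_eq_abs]
      refine (mul_le_of_le_one_right (abs_nonneg _) (hχ _)).trans ((abs_sub _ _).trans ?_)
      have b1 : |∑ j ∈ m.divisors, φ j| ≤ X := by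
        refine (abs_sum_le_sum_abs _ _).trans ((sum_le_card_nsmul _ _ 1 fun j _ => hφ j).trans ?_)
        rw [nsmul_eq_mul, mul_one]
        exact Nat.cast_le.2 ((Nat.card_divisors_le_self m).trans (mem_Icc.1 hm).2)
      have b2 : |∑ j ∈ Icc 1 N, φ j / j| ≤ N := by
        refine (abs_sum_le_sum_abs _ _).trans ((sum_le_card_nsmul _ _ 1 fun j hj => ?_).trans
          (by simp))
        rw [abs_div, Nat.abs_cast]
        exact div_le_one_of_le₀ ((hφ j).trans (by exact_mod_cast (mem_Icc.1 hj).1)) (by positivity)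
      linarith
    refine (MS_le_const tD T (measurableSet_lt (by fun_prop) (by fun_prop)) a1).trans ?_
    refine (mul_le_mul_of_nonneg_left (cm_tail T (by positivity)) (sq_nonneg _)).trans ?_
    rw [div_le_iff₀ hε] at hg
    calc _ ≤ ((k + 1) * (X : ℝ) ^ 2) ^ 2 * (2 * X ^ 2 / X ^ 5) := by gcongr
      _ = 8 * (k + 1) ^ 2 * X / 4 := by field_simp; ring
      _ ≤ X * ε * X / 4 := by gcongr
      _ = _ := by ring
  have m4 : MS T U D ≤ MS T (U ∩ {u | |u| ≤ (X : ℝ) ^ 5}) D + MS T {u | (X : ℝ) ^ 5 < |u|} D := by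
    refine (MS_mono tD T fun u hu => ?_).trans (MS_union_le tD T _ _)
    rcases le_or_gt |u| ((X : ℝ) ^ 5) with h | h
    exacts [Or.inl ⟨hu, h⟩, Or.inr h]
  have m5 := MS_add_le (tD.sub tF) tF T (U ∩ {u | |u| ≤ (X : ℝ) ^ 5})
  simp only [sub_add_cancel] at m5
  have m6 := MS_mono tF T (Set.subset_univ (U ∩ {u | |u| ≤ (X : ℝ) ^ 5}))
  change MS T _ D ≤ _ at m5
  linarith

/-- Hypothesis (E) for divisor sums of rough weights. -/
theorem exc_rough {η : ℝ} (hη : 0 < η) (φ : ℕ → ℕ → ℝ) (hφ : ∀ N j, |φ N j| ≤ 1)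
    (hr : ∀ N j, φ N j ≠ 0 → ∀ p : ℕ, p.Prime → p ∣ j → (N : ℝ) ^ η < p) (q : ℕ) [NeZero q]
    (χ : DirichletCharacter ℂ q) {ε : ℝ} (hε : 0 < ε) : ∃ β : ℝ, 0 < β ∧ ∀ k : ℕ,
    ∀ᶠ N : ℕ in atTop, ∀ X : ℕ, N ≤ k * X → X ≤ k * N → ∀ T : ℝ, 0 < T → T ≤ X → ∀ U : Set ℝ,
      MeasurableSet U → (cm T).real U ≤ (X : ℝ) ^ β →
      MS T U (DP (Icc 1 X) fun m =>
        (((∑ j ∈ m.divisors, φ N j) - ∑ j ∈ Icc 1 N, φ N j / j : ℝ) : ℂ) * χ m)
        ≤ ε * (X : ℝ) ^ 2 := by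
  obtain ⟨β, hβ, h⟩ := exc_det (η := min (η / 2) (1 / 10)) (by positivity) (min_le_right _ _) q χ hε
  refine ⟨β, hβ, fun k => ?_⟩
  obtain ⟨X₀, hX⟩ := eventually_atTop.1 (h k)
  filter_upwards [eventually_gt_atTop (k * X₀), eventually_ge_atTop k] with N hN hk X h1 h2
  have h3 : X₀ ≤ X := by
    by_contra h2
    have : k * X ≤ k * X₀ := Nat.mul_le_mul_left k (by omega)
    omega
  refine hX X h3 N h1 h2 (φ N) (hφ N) fun j hj p hp hd => lt_of_le_of_lt ?_ (hr N j hj p hp hd)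
  have h4 : (X : ℝ) ≤ N ^ 2 := by
    have : X ≤ N ^ 2 := h2.trans (by rw [sq]; exact Nat.mul_le_mul_right _ hk)
    exact_mod_cast this
  have h5 : (1 : ℝ) ≤ N := by exact_mod_cast (by omega : 1 ≤ N)
  calc (X : ℝ) ^ min (η / 2) (1 / 10) ≤ ((N : ℝ) ^ 2) ^ min (η / 2) (1 / 10) := by gcongr
    _ ≤ ((N : ℝ) ^ 2) ^ (η / 2) :=
        Real.rpow_le_rpow_of_exponent_le (one_le_pow₀ h5) (min_le_left _ _)
    _ = _ := by
        rw [← Real.rpow_natCast, ← Real.rpow_mul (by linarith)]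
        congr 1; push_cast; ring

end Pool.Agent.Work.MP_51e72e_nt.L2
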