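import Pool.Agent.Work.MP_51e72e_nt.L2Main

/-! Integer coefficients, uniformity and complex weights. -/

set_option autoImplicit false
open Filter Topology Finset

namespace Pool.Agent.Work.MP_51e72e_nt.LT

open Pool.Agent.Lib.MR Pool.Agent.Work.MP_ca0f09_nt

/-- sum of `φ` over the divisors of `x` that are at most `N` -/
noncomputable def TT (φ : ℕ → ℝ) (N : ℕ) (x : ℤ) : ℝ :=
  ∑ m ∈ Icc 1 N, if (m : ℤ) ∣ x then φ m else 0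

lemma TT_eq {φ : ℕ → ℝ} {N : ℕ} (hs : ∀ j, N < j → φ j = 0) {x : ℤ} (hx : x ≠ 0) :
    TT φ N x = Fd φ x.natAbs := by
  rw [TT, ← sum_filter, Fd]
  refine sum_subset (fun j hj => Nat.mem_divisors.2
    ⟨Int.natCast_dvd.1 (mem_filter.1 hj).2, Int.natAbs_ne_zero.2 hx⟩) ?_
  intro j hj hj'
  refine hs j ?_
  by_contra h2
  exact hj' (mem_filter.2 ⟨mem_Icc.2 ⟨Nat.pos_of_mem_divisors hj, by omega⟩,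
    Int.natCast_dvd.2 (Nat.dvd_of_mem_divisors hj)⟩)

lemma abs_TT_le {φ : ℕ → ℝ} {y : ℝ} (h1 : ∀ j, |φ j| ≤ 1) (hφ : ∀ j, φ j ≠ 0 → Rough y j)
    (N : ℕ) (x : ℤ) : |TT φ N x| ≤ #((Icc 1 N).filter (Rough y)) := by
  refine (abs_sum_le_sum_abs _ _).trans (le_trans (sum_le_sum fun j _ => ?_)
    (abs_sum_le_card h1 hφ _))
  split_ifs
  · exact le_rfl
  · simp

lemma TT_sign (φ : ℕ → ℝ) (N : ℕ) {s : ℤ} (hs : s = 1 ∨ s = -1) (x : ℤ) :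
    TT φ N (s * x) = TT φ N x := by
  rcases hs with rfl | rfl <;> simp [TT]

section

variable (hsys : SysExists) {η : ℝ} (hη : 0 < η) (φ ψ : ℕ → ℕ → ℝ)
    (h1 : ∀ N j, |φ N j| ≤ 1) (h2 : ∀ N j, |ψ N j| ≤ 1)
    (hφ : ∀ N j, φ N j ≠ 0 → Rough ((N : ℝ) ^ η) j)
    (hψ : ∀ N j, ψ N j ≠ 0 → Rough ((N : ℝ) ^ η) j)
    (sφ : ∀ N j, N < j → φ N j = 0) (sψ : ∀ N j, N < j → ψ N j = 0) {ε : ℝ} (hε : 0 < ε)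
include hsys hη h1 h2 hφ hψ sφ sψ hε

lemma main_nat' {a₁ a₂ b₁ b₂ : ℕ} (ha₁ : 1 ≤ a₁) (ha₂ : 1 ≤ a₂) (hab : a₂ * b₁ ≠ a₁ * b₂) :
    ∀ᶠ N : ℕ in atTop, |∑ n ∈ Icc 1 N, Fd (φ N) (a₁ * n + b₁) * Fd (ψ N) (a₂ * n + b₂)
      - N * (dl (φ N) N * dl (ψ N) N)| ≤ ε * N := by
  rcases lt_or_gt_of_ne hab with h | h
  · exact main_nat hsys ha₁ ha₂ h hη φ ψ h1 h2 hφ hψ sφ sψ hε
  · refine (main_nat hsys ha₂ ha₁ h hη ψ φ h2 h1 hψ hφ sψ sφ hε).mono fun N hN => ?_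
    simpa only [mul_comm (Fd (ψ N) _), mul_comm (dl (ψ N) N)] using hN

lemma main_pos {a₁ a₂ : ℕ} {b₁ b₂ : ℤ} (ha₁ : 1 ≤ a₁) (ha₂ : 1 ≤ a₂)
    (hab : (a₁ : ℤ) * b₂ ≠ a₂ * b₁) :
    ∀ᶠ N : ℕ in atTop, |∑ n ∈ Icc 1 N, TT (φ N) N (a₁ * n + b₁) * TT (ψ N) N (a₂ * n + b₂)
      - N * (dl (φ N) N * dl (ψ N) N)| ≤ ε * N := by
  set k := b₁.natAbs + b₂.natAbs with hk
  have p1 : (0 : ℤ) ≤ a₁ * k + b₁ := by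
    have : (k : ℤ) ≤ a₁ * k := by exact_mod_cast Nat.le_mul_of_pos_left k ha₁
    omega
  have p2 : (0 : ℤ) ≤ a₂ * k + b₂ := by
    have : (k : ℤ) ≤ a₂ * k := by exact_mod_cast Nat.le_mul_of_pos_left k ha₂
    omega
  obtain ⟨c₁, hc₁⟩ := Int.eq_ofNat_of_zero_le p1
  obtain ⟨c₂, hc₂⟩ := Int.eq_ofNat_of_zero_le p2
  have hc : a₂ * c₁ ≠ a₁ * c₂ := by
    intro h
    have h' : (a₂ : ℤ) * c₁ = a₁ * c₂ := by exact_mod_cast h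
    rw [← hc₁, ← hc₂] at h'
    exact hab (by linear_combination -h')
  have hB := one_le_BB η
  filter_upwards [main_nat' hsys hη φ ψ h1 h2 hφ hψ sφ sψ (half_pos hε) ha₁ ha₂ hc,
    card_rough_small hη (show 0 < ε / (4 * (k + 1) * BB η) by positivity),
    eventually_ge_atTop (2 * a₁ + 2 * a₂ + k + 2)] with N t1 t2 t3
  set R : ℝ := (#((Icc 1 N).filter (Rough ((N : ℝ) ^ η))) : ℝ) with hR
  have R0 : 0 ≤ R := Nat.cast_nonneg _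
  have key : ∀ (f : ℕ → ℝ), (∀ j, |f j| ≤ 1) → (∀ j, f j ≠ 0 → Rough ((N : ℝ) ^ η) j) →
      (∀ j, N < j → f j = 0) → ∀ (a : ℕ) (b : ℤ) (n : ℕ), 2 * a + k ≤ N → b.natAbs ≤ k →
      n < N + k → (a : ℤ) * ((1 + n : ℕ) : ℤ) + b ≠ 0 →
      |TT f N (a * ((1 + n : ℕ) : ℤ) + b)| ≤ BB η := by
    intro f f1 f2 f3 a b n ha hb hn h0
    rw [TT_eq f3 h0]
    have : (a * ((1 + n : ℕ) : ℤ) + b).natAbs ≤ N * N := by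
      refine (Int.natAbs_add_le _ _).trans ?_
      rw [← Nat.cast_mul, Int.natAbs_natCast]
      have : a * (1 + n) ≤ a * (2 * N) := Nat.mul_le_mul_left a (by omega)
      nlinarith
    linarith [abs_Fd_le' hη f1 (by omega : 2 ≤ N) f2 this]
  have s1 := abs_shift_le (fun n => TT (φ N) N (a₁ * ((1 + n : ℕ) : ℤ) + b₁) *
    TT (ψ N) N (a₂ * ((1 + n : ℕ) : ℤ) + b₂)) (A := BB η * R) N k (fun n hn => by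
      rw [abs_mul]
      by_cases h0 : (a₁ : ℤ) * ((1 + n : ℕ) : ℤ) + b₁ = 0
      · have h3 : (a₂ : ℤ) * ((1 + n : ℕ) : ℤ) + b₂ ≠ 0 := fun h3 =>
          hab (by linear_combination a₁ * h3 - a₂ * h0)
        rw [mul_comm (BB η)]
        exact mul_le_mul (abs_TT_le (h1 N) (hφ N) N _)
          (key _ (h2 N) (hψ N) (sψ N) a₂ b₂ n (by omega) (by omega) hn h3) (abs_nonneg _) R0
      · exact mul_le_mul (key _ (h1 N) (hφ N) (sφ N) a₁ b₁ n (by omega) (by omega) hn h0)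
          (abs_TT_le (h2 N) (hψ N) N _) (abs_nonneg _) (by linarith))
  have s2 : ∑ n ∈ range N, TT (φ N) N (a₁ * ((1 + (k + n) : ℕ) : ℤ) + b₁) *
      TT (ψ N) N (a₂ * ((1 + (k + n) : ℕ) : ℤ) + b₂) =
      ∑ n ∈ Icc 1 N, Fd (φ N) (a₁ * n + c₁) * Fd (ψ N) (a₂ * n + c₂) := by
    rw [sum_Icc_eq_range]
    refine sum_congr rfl fun n _ => ?_
    have e1 : (a₁ : ℤ) * ((1 + (k + n) : ℕ) : ℤ) + b₁ = ((a₁ * (1 + n) + c₁ : ℕ) : ℤ) := by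
      push_cast; rw [← hc₁]; ring
    have e2 : (a₂ : ℤ) * ((1 + (k + n) : ℕ) : ℤ) + b₂ = ((a₂ * (1 + n) + c₂ : ℕ) : ℤ) := by
      push_cast; rw [← hc₂]; ring
    rw [e1, e2, TT_eq (sφ N) (by positivity), TT_eq (sψ N) (by positivity), Int.natAbs_natCast,
      Int.natAbs_natCast]
  beta_reduce at s1
  rw [s2] at s1
  rw [sum_Icc_eq_range fun n : ℕ => TT (φ N) N (a₁ * n + b₁) * TT (ψ N) N (a₂ * n + b₂)]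
  have s3 : 2 * k * (BB η * R) ≤ ε / 2 * N := by
    calc 2 * k * (BB η * R) ≤ 2 * (k + 1) * (BB η * (ε / (4 * (k + 1) * BB η) * N)) := by
          gcongr; linarith
      _ = _ := by field_simp; ring
  rw [abs_le] at s1 t1 ⊢
  constructor <;> linarith [s1.1, s1.2, t1.1, t1.2]

lemma main_int {a₁ a₂ b₁ b₂ : ℤ} (ha₁ : a₁ ≠ 0) (ha₂ : a₂ ≠ 0) (hab : a₁ * b₂ ≠ a₂ * b₁) :
    ∀ᶠ N : ℕ in atTop, |∑ n ∈ Icc 1 N, TT (φ N) N (a₁ * n + b₁) * TT (ψ N) N (a₂ * n + b₂)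
      - N * (dl (φ N) N * dl (ψ N) N)| ≤ ε * N := by
  have key : ∀ a : ℤ, a ≠ 0 → ∃ (c : ℕ) (s : ℤ), 1 ≤ c ∧ (s = 1 ∨ s = -1) ∧ (c : ℤ) = s * a :=
    fun a ha => by
      rcases le_or_gt 0 a with h | h
      · exact ⟨a.natAbs, 1, by omega, Or.inl rfl, by omega⟩
      · exact ⟨a.natAbs, -1, by omega, Or.inr rfl, by omega⟩
  obtain ⟨c₁, s₁, c1, t1, e1⟩ := key a₁ ha₁
  obtain ⟨c₂, s₂, c2, t2, e2⟩ := key a₂ ha₂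
  have h3 : (c₁ : ℤ) * (s₂ * b₂) ≠ c₂ * (s₁ * b₁) := by
    rw [e1, e2]
    intro h
    have h4 : s₁ * s₂ ≠ 0 := by rcases t1 with rfl | rfl <;> rcases t2 with rfl | rfl <;> simp
    exact hab (mul_left_cancel₀ h4 (by linear_combination h))
  refine (main_pos hsys hη φ ψ h1 h2 hφ hψ sφ sψ hε c1 c2 h3).mono fun N hN => ?_
  simpa only [e1, e2, mul_assoc, ← mul_add, TT_sign _ _ t1, TT_sign _ _ t2] using hN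

end

/-- the remainder of the sieve problem -/
noncomputable def rem (a₁ b₁ a₂ b₂ : ℤ) (N m₁ m₂ : ℕ) : ℝ :=
  (#((Icc 1 N).filter fun n : ℕ => (m₁ : ℤ) ∣ a₁ * n + b₁ ∧ (m₂ : ℤ) ∣ a₂ * n + b₂) : ℝ)
    - (N : ℝ) / (m₁ * m₂)

lemma bilin_eq (a₁ b₁ a₂ b₂ : ℤ) (N : ℕ) (φ ψ : ℕ → ℝ) :
    ∑ m₁ ∈ Icc 1 N, ∑ m₂ ∈ Icc 1 N, φ m₁ * ψ m₂ * rem a₁ b₁ a₂ b₂ N m₁ m₂ =
      ∑ n ∈ Icc 1 N, TT φ N (a₁ * n + b₁) * TT ψ N (a₂ * n + b₂) - N * (dl φ N * dl ψ N) := by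
  simp only [rem, TT, dl, mul_sub, sum_sub_distrib, sum_mul_sum]
  congr 1
  · symm
    rw [sum_comm]
    refine sum_congr rfl fun m₁ _ => ?_
    rw [sum_comm]
    refine sum_congr rfl fun m₂ _ => ?_
    rw [card_filter]
    push_cast
    rw [mul_sum]
    refine sum_congr rfl fun n _ => ?_
    by_cases p1 : (m₁ : ℤ) ∣ a₁ * n + b₁ <;> by_cases p2 : (m₂ : ℤ) ∣ a₂ * n + b₂ <;>
      simp [p1, p2]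
  · rw [mul_sum]
    refine sum_congr rfl fun m₁ _ => ?_
    rw [mul_sum]
    refine sum_congr rfl fun m₂ _ => ?_
    ring

theorem level_real (hsys : SysExists) {a₁ b₁ a₂ b₂ : ℤ} (ha₁ : a₁ ≠ 0) (ha₂ : a₂ ≠ 0)
    (hab : a₁ * b₂ ≠ a₂ * b₁) {η ε : ℝ} (hη : 0 < η) (hε : 0 < ε) :
    ∀ᶠ N : ℕ in atTop, ∀ φ ψ : ℕ → ℝ, (∀ j, |φ j| ≤ 1) → (∀ j, |ψ j| ≤ 1) →
      (∀ j, φ j ≠ 0 → Rough ((N : ℝ) ^ η) j) → (∀ j, ψ j ≠ 0 → Rough ((N : ℝ) ^ η) j) →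
      |∑ m₁ ∈ Icc 1 N, ∑ m₂ ∈ Icc 1 N, φ m₁ * ψ m₂ * rem a₁ b₁ a₂ b₂ N m₁ m₂| ≤ ε * N := by
  have key : ∀ N : ℕ, ∃ φ ψ : ℕ → ℝ, (∀ j, |φ j| ≤ 1) ∧ (∀ j, |ψ j| ≤ 1) ∧
      (∀ j, φ j ≠ 0 → Rough ((N : ℝ) ^ η) j) ∧ (∀ j, ψ j ≠ 0 → Rough ((N : ℝ) ^ η) j) ∧
      (∀ j, N < j → φ j = 0) ∧ (∀ j, N < j → ψ j = 0) ∧
      (|∑ m₁ ∈ Icc 1 N, ∑ m₂ ∈ Icc 1 N, φ m₁ * ψ m₂ * rem a₁ b₁ a₂ b₂ N m₁ m₂| ≤ ε * N →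
        ∀ φ ψ : ℕ → ℝ, (∀ j, |φ j| ≤ 1) → (∀ j, |ψ j| ≤ 1) →
        (∀ j, φ j ≠ 0 → Rough ((N : ℝ) ^ η) j) → (∀ j, ψ j ≠ 0 → Rough ((N : ℝ) ^ η) j) →
        |∑ m₁ ∈ Icc 1 N, ∑ m₂ ∈ Icc 1 N, φ m₁ * ψ m₂ * rem a₁ b₁ a₂ b₂ N m₁ m₂| ≤ ε * N) := by
    intro N
    by_cases h : ∀ φ ψ : ℕ → ℝ, (∀ j, |φ j| ≤ 1) → (∀ j, |ψ j| ≤ 1) →
        (∀ j, φ j ≠ 0 → Rough ((N : ℝ) ^ η) j) → (∀ j, ψ j ≠ 0 → Rough ((N : ℝ) ^ η) j) →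
        |∑ m₁ ∈ Icc 1 N, ∑ m₂ ∈ Icc 1 N, φ m₁ * ψ m₂ * rem a₁ b₁ a₂ b₂ N m₁ m₂| ≤ ε * N
    · exact ⟨0, 0, by simp, by simp, by simp, by simp, by simp, by simp, fun _ => h⟩
    push Not at h
    obtain ⟨φ, ψ, p1, p2, p3, p4, p5⟩ := h
    have q1 : ∀ f : ℕ → ℝ, (∀ j, |f j| ≤ 1) → ∀ j, |if j ≤ N then f j else 0| ≤ 1 := by
      intro f hf j
      split_ifs
      · exact hf j
      · simp
    have q2 : ∀ f : ℕ → ℝ, (∀ j, f j ≠ 0 → Rough ((N : ℝ) ^ η) j) →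
        ∀ j, (if j ≤ N then f j else 0) ≠ 0 → Rough ((N : ℝ) ^ η) j := by
      intro f hf j hj
      split_ifs at hj
      · exact hf j hj
      · exact absurd rfl hj
    refine ⟨fun j => if j ≤ N then φ j else 0, fun j => if j ≤ N then ψ j else 0, q1 φ p1,
      q1 ψ p2, q2 φ p3, q2 ψ p4, fun j hj => if_neg (by omega), fun j hj => if_neg (by omega),
      fun h => absurd (le_trans (le_of_eq ?_) h) (not_le.2 p5)⟩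
    congr 1
    refine sum_congr rfl fun m₁ hm₁ => sum_congr rfl fun m₂ hm₂ => ?_
    beta_reduce
    rw [if_pos (mem_Icc.1 hm₁).2, if_pos (mem_Icc.1 hm₂).2]
  choose φ ψ p1 p2 p3 p4 p5 p6 p7 using key
  refine (main_int hsys hη φ ψ p1 p2 p3 p4 p5 p6 hε ha₁ ha₂ hab).mono fun N hN => p7 N ?_
  rwa [bilin_eq]

theorem level_complex (hsys : SysExists) {a₁ b₁ a₂ b₂ : ℤ} (ha₁ : a₁ ≠ 0) (ha₂ : a₂ ≠ 0)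
    (hab : a₁ * b₂ ≠ a₂ * b₁) {η ε : ℝ} (hη : 0 < η) (hε : 0 < ε) :
    ∀ᶠ N : ℕ in atTop, ∀ φ ψ : ℕ → ℂ, (∀ j, ‖φ j‖ ≤ 1) → (∀ j, ‖ψ j‖ ≤ 1) →
      (∀ j, φ j ≠ 0 → Rough ((N : ℝ) ^ η) j) → (∀ j, ψ j ≠ 0 → Rough ((N : ℝ) ^ η) j) →
      ‖∑ m₁ ∈ Icc 1 N, ∑ m₂ ∈ Icc 1 N, φ m₁ * ψ m₂ * (rem a₁ b₁ a₂ b₂ N m₁ m₂ : ℝ)‖ ≤ ε * N := by
  filter_upwards [level_real hsys ha₁ ha₂ hab hη (show 0 < ε / 4 by positivity)]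
    with N hN φ ψ p1 p2 p3 p4
  have r1 : ∀ f : ℕ → ℂ, (∀ j, ‖f j‖ ≤ 1) → ∀ j, |(f j).re| ≤ 1 :=
    fun f hf j => (Complex.abs_re_le_norm _).trans (hf j)
  have r2 : ∀ f : ℕ → ℂ, (∀ j, ‖f j‖ ≤ 1) → ∀ j, |(f j).im| ≤ 1 :=
    fun f hf j => (Complex.abs_im_le_norm _).trans (hf j)
  have r3 : ∀ f : ℕ → ℂ, (∀ j, f j ≠ 0 → Rough ((N : ℝ) ^ η) j) →
      ∀ j, (f j).re ≠ 0 → Rough ((N : ℝ) ^ η) j :=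
    fun f hf j hj => hf j fun h => hj (by rw [h, Complex.zero_re])
  have r4 : ∀ f : ℕ → ℂ, (∀ j, f j ≠ 0 → Rough ((N : ℝ) ^ η) j) →
      ∀ j, (f j).im ≠ 0 → Rough ((N : ℝ) ^ η) j :=
    fun f hf j hj => hf j fun h => hj (by rw [h, Complex.zero_im])
  have a1 := hN _ _ (r1 φ p1) (r1 ψ p2) (r3 φ p3) (r3 ψ p4)
  have a2 := hN _ _ (r2 φ p1) (r2 ψ p2) (r4 φ p3) (r4 ψ p4)
  have a3 := hN _ _ (r1 φ p1) (r2 ψ p2) (r3 φ p3) (r4 ψ p4)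
  have a4 := hN _ _ (r2 φ p1) (r1 ψ p2) (r4 φ p3) (r3 ψ p4)
  refine (Complex.norm_le_abs_re_add_abs_im _).trans ?_
  simp only [Complex.re_sum, Complex.im_sum, Complex.mul_re, Complex.mul_im, Complex.ofReal_re,
    Complex.ofReal_im, mul_zero, sub_zero, zero_add, sub_mul, add_mul, sum_sub_distrib,
    sum_add_distrib]
  have b1 := abs_sub
    (∑ m₁ ∈ Icc 1 N, ∑ m₂ ∈ Icc 1 N, (φ m₁).re * (ψ m₂).re * rem a₁ b₁ a₂ b₂ N m₁ m₂)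
    (∑ m₁ ∈ Icc 1 N, ∑ m₂ ∈ Icc 1 N, (φ m₁).im * (ψ m₂).im * rem a₁ b₁ a₂ b₂ N m₁ m₂)
  have b2 := abs_add_le
    (∑ m₁ ∈ Icc 1 N, ∑ m₂ ∈ Icc 1 N, (φ m₁).re * (ψ m₂).im * rem a₁ b₁ a₂ b₂ N m₁ m₂)
    (∑ m₁ ∈ Icc 1 N, ∑ m₂ ∈ Icc 1 N, (φ m₁).im * (ψ m₂).re * rem a₁ b₁ a₂ b₂ N m₁ m₂)
  linarith

end Pool.Agent.Work.MP_51e72e_nt.LT
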