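import Pool.Agent.Work.MP_51e72e_nt.L2Unif

/-! Two linear forms. -/

set_option autoImplicit false
open Filter Topology Finset

namespace Pool.Agent.Work.MP_51e72e_nt.LT

open Pool.Agent.Lib.MR Pool.Agent.Work.MP_ca0f09_nt

lemma sum_class (u : ℕ → ℝ) {W r : ℕ} (hr : r < W) (N : ℕ) :
    ∑ m ∈ range (W * N), (if m % W = r then 1 else 0) * u m = ∑ n ∈ range N, u (W * n + r) := by
  rw [mul_comm W N, arcs_sum_mul]
  refine sum_congr rfl fun n _ => ?_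
  rw [sum_eq_single r]
  · rw [Nat.mul_add_mod_of_lt hr, if_pos rfl, one_mul, mul_comm]
  · intro s hs hsr
    rw [Nat.mul_add_mod_of_lt (mem_range.1 hs), if_neg hsr, zero_mul]
  · intro h
    exact absurd (mem_range.2 hr) h

lemma abs_shift_le (v : ℕ → ℝ) {A : ℝ} (N i : ℕ) (hv : ∀ n, n < N + i → |v n| ≤ A) :
    |∑ n ∈ range N, v (i + n) - ∑ n ∈ range N, v n| ≤ 2 * i * A := by
  have h1 := sum_range_add v N i
  have h2 := sum_range_add v i N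
  rw [add_comm i N, h1] at h2
  have h3 : |∑ x ∈ range i, v (N + x)| ≤ i * A := by
    refine (abs_sum_le_sum_abs _ _).trans ?_
    simpa using sum_le_card_nsmul (range i) (fun x => |v (N + x)|) A fun x hx =>
      hv _ (by have := mem_range.1 hx; omega)
  have h4 : |∑ x ∈ range i, v x| ≤ i * A := by
    refine (abs_sum_le_sum_abs _ _).trans ?_
    simpa using sum_le_card_nsmul (range i) (fun x => |v x|) A fun x hx =>
      hv _ (by have := mem_range.1 hx; omega)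
  have e : ∑ n ∈ range N, v (i + n) - ∑ n ∈ range N, v n =
      ∑ x ∈ range i, v (N + x) - ∑ x ∈ range i, v x := by linarith
  rw [e]
  refine (abs_sub _ _).trans ?_
  linarith

lemma sum_Icc_eq_range (v : ℕ → ℝ) (N : ℕ) : ∑ n ∈ Icc 1 N, v n = ∑ n ∈ range N, v (1 + n) := by
  rw [show Icc 1 N = Ico 1 (N + 1) from rfl, sum_Ico_eq_sum_range]
  simp

theorem main_nat (hsys : SysExists) {a₁ a₂ b₁ b₂ : ℕ} (ha₁ : 1 ≤ a₁) (ha₂ : 1 ≤ a₂)
    (hab : a₂ * b₁ < a₁ * b₂) {η : ℝ} (hη : 0 < η) (φ ψ : ℕ → ℕ → ℝ)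
    (h1 : ∀ N j, |φ N j| ≤ 1) (h2 : ∀ N j, |ψ N j| ≤ 1)
    (hφ : ∀ N j, φ N j ≠ 0 → Rough ((N : ℝ) ^ η) j)
    (hψ : ∀ N j, ψ N j ≠ 0 → Rough ((N : ℝ) ^ η) j)
    (sφ : ∀ N j, N < j → φ N j = 0) (sψ : ∀ N j, N < j → ψ N j = 0) {ε : ℝ} (hε : 0 < ε) :
    ∀ᶠ N : ℕ in atTop, |∑ n ∈ Icc 1 N, Fd (φ N) (a₁ * n + b₁) * Fd (ψ N) (a₂ * n + b₂)
      - N * (dl (φ N) N * dl (ψ N) N)| ≤ ε * N := by
  classical
  set W := a₁ * a₂ with hW
  have hW1 : 1 ≤ W := Nat.mul_pos ha₁ ha₂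
  have hWr : (1 : ℝ) ≤ W := by exact_mod_cast hW1
  obtain ⟨h, hh⟩ : ∃ h, a₁ * b₂ = a₂ * b₁ + h := ⟨a₁ * b₂ - a₂ * b₁, by omega⟩
  have hh1 : 1 ≤ h := by omega
  set c := a₂ * b₁ with hc
  have hη2 : 0 < η / 2 := half_pos hη
  set B := BB (η / 2) with hB
  have hB1 : 1 ≤ B := one_le_BB _
  let tr : (ℕ → ℕ → ℝ) → ℕ → ℕ → ℝ := fun f M j =>
    if Rough ((M : ℝ) ^ (η / 2)) j then f (M / W) j else 0
  have tr1 : ∀ f : ℕ → ℕ → ℝ, (∀ N j, |f N j| ≤ 1) → ∀ M j, |tr f M j| ≤ 1 := by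
    intro f hf M j
    simp only [tr]
    split_ifs
    · exact hf _ _
    · simp
  have tr2 : ∀ f : ℕ → ℕ → ℝ, ∀ M j, tr f M j ≠ 0 → Rough ((M : ℝ) ^ (η / 2)) j := by
    intro f M j hj
    by_contra h0
    exact hj (if_neg h0)
  have hle : ∀ N : ℕ, W ≤ N → ((W * N : ℕ) : ℝ) ^ (η / 2) ≤ (N : ℝ) ^ η := by
    intro N hN
    have h3 : ((W * N : ℕ) : ℝ) ≤ (N : ℝ) ^ (2 : ℝ) := by
      rw [Real.rpow_two, sq]; exact_mod_cast Nat.mul_le_mul_right N hN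
    calc _ ≤ ((N : ℝ) ^ (2 : ℝ)) ^ (η / 2) := Real.rpow_le_rpow (by positivity) h3 hη2.le
      _ = _ := by rw [← Real.rpow_mul (by positivity)]; congr 1; ring
  have tr3 : ∀ f : ℕ → ℕ → ℝ, (∀ N j, f N j ≠ 0 → Rough ((N : ℝ) ^ η) j) → ∀ N, W ≤ N →
      tr f (W * N) = f N := by
    intro f hf N hN
    funext j
    simp only [tr, Nat.mul_div_cancel_left _ hW1]
    split_ifs with h0
    · rfl
    · by_contra h3
      exact h0 ((hf N j (Ne.symm h3)).mono (hle N hN))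
  have T := corr_family hsys hη2 (tr φ) (tr ψ) (tr1 ψ h2) (tr2 φ) (tr2 ψ) h W hh1 hW1
    (fun m => if m % W = c % W then 1 else 0) (fun m => by split_ifs <;> simp)
    (fun m => by rw [Nat.add_mod_right])
  have hWN : Tendsto (fun N : ℕ => W * N) atTop atTop :=
    tendsto_atTop_mono (fun N => Nat.le_mul_of_pos_left N hW1) tendsto_id
  have T2 := (Metric.tendsto_nhds.1 (T.comp hWN)) (ε / (3 * B ^ 2 * W)) (by positivity)
  filter_upwards [T2, eventually_ge_atTop W, eventually_ge_atTop (2 + c + h),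
    card_rough_small hη (show 0 < ε / (3 * B) by positivity),
    (tendsto_rpow hη).eventually_ge_atTop (W : ℝ),
    tendsto_natCast_atTop_atTop.eventually_ge_atTop (3 * B ^ 2 * (2 * (1 + c)) / ε)]
    with N t1 t2 t3 t4 t5 t6
  have N0 : (0 : ℝ) < N := by exact_mod_cast (by omega : 0 < N)
  have hM2 : 2 ≤ W * N := by nlinarith
  have a1y : (a₁ : ℝ) ≤ (N : ℝ) ^ η :=
    le_trans (by exact_mod_cast Nat.le_mul_of_pos_right a₁ ha₂) t5
  have a2y : (a₂ : ℝ) ≤ (N : ℝ) ^ η :=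
    le_trans (by exact_mod_cast Nat.le_mul_of_pos_left a₂ ha₁) t5
  have rφ : ∀ j, φ N j ≠ 0 → Rough (((W * N : ℕ) : ℝ) ^ (η / 2)) j :=
    fun j hj => (hφ N j hj).mono (hle N t2)
  have rψ : ∀ j, ψ N j ≠ 0 → Rough (((W * N : ℕ) : ℝ) ^ (η / 2)) j :=
    fun j hj => (hψ N j hj).mono (hle N t2)
  have hδ : dl (ψ N) (W * N) = dl (ψ N) N := by
    unfold dl
    symm
    refine sum_subset (Icc_subset_Icc_right (Nat.le_mul_of_pos_left N hW1)) fun j hj hj' => ?_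
    rw [sψ N j (by simp only [mem_Icc] at hj hj'; omega), zero_div]
  have hδb : |dl (ψ N) N| ≤ 2 * (B / 3) := hδ ▸ abs_dl_le' hη2 (h2 N) hM2 rψ
  simp only [Function.comp, tr3 φ hφ N t2, tr3 ψ hψ N t2, hδ, Real.dist_0_eq_abs, mul_assoc] at t1
  set u : ℕ → ℝ := fun m => Gc (η / 2) (φ N) 0 m * Gc (η / 2) (ψ N) (dl (ψ N) N) (m + h) with hu
  have u1 : ∀ m, |u m| ≤ 1 := fun m => by
    rw [hu, abs_mul]
    exact mul_le_one₀ (abs_clamp_le _) (abs_nonneg _) (abs_clamp_le _)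
  rw [sum_class u (Nat.mod_lt c hW1), abs_mul, abs_of_pos (by positivity), one_div,
    inv_mul_lt_iff₀ (by positivity)] at t1
  have s1 := abs_shift_le (fun n => u (W * n + c % W)) N (c / W + 1) (fun n _ => u1 _)
  have s2 : ∑ n ∈ range N, u (W * (c / W + 1 + n) + c % W) = ∑ n ∈ Icc 1 N, u (W * n + c) := by
    rw [sum_Icc_eq_range]
    refine sum_congr rfl fun n _ => ?_
    congr 1
    have := Nat.div_add_mod c W
    nlinarith
  have s3 : ∀ n ∈ Icc 1 N, Fd (φ N) (a₁ * n + b₁) * Fd (ψ N) (a₂ * n + b₂) =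
      B ^ 2 * u (W * n + c) + dl (ψ N) N * Fd (φ N) (a₁ * n + b₁) := by
    intro n hn
    have n2 := (mem_Icc.1 hn).2
    have k1 : W * n + c + h ≤ W * N * (W * N) := by
      have : W * n ≤ W * N := Nat.mul_le_mul_left W n2
      have : N ≤ W * N := Nat.le_mul_of_pos_left N hW1
      nlinarith
    have e1 : W * n + c = a₂ * (a₁ * n + b₁) := by rw [hW, hc]; ring
    have e2 : W * n + c + h = a₁ * (a₂ * n + b₂) := by rw [add_assoc, ← hh, hW]; ring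
    simp only [hu]
    rw [Gc_eq hη2 (h1 N) hM2 rφ (by rw [abs_zero]; positivity) (by omega),
      Gc_eq hη2 (h2 N) hM2 rψ hδb k1, e2, e1, Fd_mul (hφ N) ha₂ a2y, Fd_mul (hψ N) ha₁ a1y, ← hB]
    field_simp
    ring
  have s4 := abs_mean_le (h1 N) (hφ N) (sφ N) ha₁ a1y b₁
  rw [sum_congr rfl s3, sum_add_distrib, ← mul_sum, ← mul_sum, ← s2]
  beta_reduce at s1
  set S1 := ∑ n ∈ range N, u (W * (c / W + 1 + n) + c % W)
  set S0 := ∑ n ∈ range N, u (W * n + c % W)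
  set S2 := ∑ n ∈ Icc 1 N, Fd (φ N) (a₁ * n + b₁)
  have e : B ^ 2 * S1 + dl (ψ N) N * S2 - N * (dl (φ N) N * dl (ψ N) N) =
      B ^ 2 * S0 + B ^ 2 * (S1 - S0) + dl (ψ N) N * (S2 - N * dl (φ N) N) := by ring
  have f1 : |B ^ 2 * S0| ≤ ε / 3 * N := by
    rw [abs_mul, abs_of_pos (by positivity)]
    calc B ^ 2 * |S0| ≤ B ^ 2 * (((W * N : ℕ) : ℝ) * (ε / (3 * (B ^ 2 * W)))) := by gcongr
      _ = _ := by push_cast; field_simp
  have f2 : |B ^ 2 * (S1 - S0)| ≤ ε / 3 * N := by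
    rw [abs_mul, abs_of_pos (by positivity)]
    have g1 : ((c / W + 1 : ℕ) : ℝ) ≤ 1 + c := by
      have := Nat.div_le_self c W
      exact_mod_cast (by omega : c / W + 1 ≤ 1 + c)
    rw [div_le_iff₀ hε] at t6
    calc B ^ 2 * |S1 - S0| ≤ B ^ 2 * (2 * (1 + c)) := by gcongr; linarith
      _ ≤ _ := by linarith
  have f3 : |dl (ψ N) N * (S2 - N * dl (φ N) N)| ≤ ε / 3 * N := by
    rw [abs_mul]
    calc _ ≤ B * (ε / (3 * B) * N) :=
          mul_le_mul (by linarith) (s4.trans t4) (abs_nonneg _) (by linarith)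
      _ = _ := by field_simp
  rw [e]
  refine (abs_add_three _ _ _).trans ?_
  linarith

end Pool.Agent.Work.MP_51e72e_nt.LT
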