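import Pool.Agent.Work.MP_51e72e_nt.L2Basic
import Pool.Agent.Work.MP_51e72e_nt.L2Exc
import Pool.Agent.Lib.MR.Core2
import Pool.Agent.Lib.MR.FamShort
import Pool.Agent.Lib.MR.ArcsFam
import Pool.Agent.Work.MP_ca0f09_nt.Main2

/-! Short interval uniformity of centred divisor sums, and their two-point correlations. -/

set_option autoImplicit false
open Filter Topology Finset MeasureTheory

namespace Pool.Agent.Work.MP_51e72e_nt.LT

open Pool.Agent.Lib.MR Pool.Agent.Work.MP_ca0f09_nt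

/-- truncation to `[-1, 1]` -/
noncomputable def clamp (x : ℝ) : ℝ := max (-1) (min 1 x)

lemma abs_clamp_le (x : ℝ) : |clamp x| ≤ 1 :=
  abs_le.2 ⟨le_max_left _ _, max_le (by norm_num) (min_le_left _ _)⟩

lemma clamp_eq {x : ℝ} (h : |x| ≤ 1) : clamp x = x := by
  rw [clamp, min_eq_right (abs_le.1 h).2, max_eq_right (abs_le.1 h).1]

/-- the normalising constant -/
noncomputable def BB (η : ℝ) : ℝ := 3 * 2 ^ ⌈2 / η⌉₊

lemma one_le_BB (η : ℝ) : 1 ≤ BB η := by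
  have : (1 : ℝ) ≤ 2 ^ ⌈2 / η⌉₊ := one_le_pow₀ one_le_two
  unfold BB; linarith

/-- normalised divisor sum, centred at `c` -/
noncomputable def Gc (η : ℝ) (φ : ℕ → ℝ) (c : ℝ) (n : ℕ) : ℝ := clamp ((Fd φ n - c) / BB η)

lemma sq_le_pow {η : ℝ} (hη : 0 < η) {N : ℕ} (hN : 1 ≤ N) :
    (N : ℝ) ^ 2 ≤ ((N : ℝ) ^ η) ^ ⌈2 / η⌉₊ := by
  have h1 : (1 : ℝ) ≤ N := by exact_mod_cast hN
  rw [← Real.rpow_natCast, ← Real.rpow_natCast, ← Real.rpow_mul (by linarith)]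
  refine Real.rpow_le_rpow_of_exponent_le h1 ?_
  have := Nat.le_ceil (2 / η)
  rw [div_le_iff₀ hη] at this
  push_cast
  linarith

section

variable {η : ℝ} (hη : 0 < η) {φ : ℕ → ℝ} (h1 : ∀ j, |φ j| ≤ 1) {N : ℕ} (hN : 2 ≤ N)
  (hφ : ∀ j, φ j ≠ 0 → Rough ((N : ℝ) ^ η) j)
include hη h1 hN hφ

lemma abs_Fd_le' {n : ℕ} (hn : n ≤ N * N) : |Fd φ n| ≤ BB η / 3 := by
  have h0 : (0 : ℝ) < (N : ℝ) ^ η := by positivity
  have h2 : (n : ℝ) ≤ (N : ℝ) ^ 2 := by rw [sq]; exact_mod_cast hn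
  refine (abs_Fd_le h0 h1 hφ (h2.trans (sq_le_pow hη (by omega)))).trans (le_of_eq ?_)
  unfold BB; ring

lemma abs_dl_le' : |dl φ N| ≤ 2 * (BB η / 3) := by
  have h0 : (0 : ℝ) < (N : ℝ) ^ η := by positivity
  have h2 : ((2 * N : ℕ) : ℝ) ≤ (N : ℝ) ^ 2 := by
    rw [sq]; exact_mod_cast Nat.mul_le_mul_right N hN
  refine (abs_dl_le h0 h1 hφ (h2.trans (sq_le_pow hη (by omega)))).trans (le_of_eq ?_)
  unfold BB; ring

lemma Gc_eq {c : ℝ} (hc : |c| ≤ 2 * (BB η / 3)) {n : ℕ} (hn : n ≤ N * N) :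
    Gc η φ c n = (Fd φ n - c) / BB η := by
  have hB := one_le_BB η
  refine clamp_eq ?_
  rw [abs_div, abs_of_pos (by linarith : 0 < BB η), div_le_one (by linarith)]
  have := abs_Fd_le' hη h1 hN hφ hn
  have := abs_sub (Fd φ n) c
  linarith

end

section

variable {η : ℝ} (hη : 0 < η) (φ : ℕ → ℕ → ℝ) (h1 : ∀ N j, |φ N j| ≤ 1)
  (hφ : ∀ N j, φ N j ≠ 0 → Rough ((N : ℝ) ^ η) j)
include hη hφ

lemma Gc_inv (c : ℕ → ℝ) (d : ℕ) (hd : 0 < d) :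
    ∀ᶠ N : ℕ in atTop, ∀ m, Gc η (φ N) (c N) (d * m) = Gc η (φ N) (c N) m := by
  filter_upwards [(tendsto_rpow hη).eventually_ge_atTop (d : ℝ)] with N hN m
  rw [Gc, Gc, Fd_mul (hφ N) hd hN]

include h1

lemma shortFam_char (q : ℕ) [NeZero q] (χ : DirichletCharacter ℂ q) :
    ShortFam fun N n => ((Gc η (φ N) (dl (φ N) N) n : ℝ) : ℂ) * χ n := by
  have hb : ∀ N n : ℕ, ‖((Gc η (φ N) (dl (φ N) N) n : ℝ) : ℂ) * χ n‖ ≤ 1 := by
    intro N n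
    rw [norm_mul, Complex.norm_real]
    exact mul_le_one₀ (abs_clamp_le _) (norm_nonneg _) (χ.norm_le_one _)
  refine shortFam_of_MS hb fun ε hε => ?_
  obtain ⟨β, hβ, hE⟩ := L2.exc_rough hη φ h1 hφ q χ (half_pos hε)
  obtain ⟨h, hh, hC⟩ := core2 (half_pos hε) hβ
  refine ⟨h, hh, fun k => ?_⟩
  filter_upwards [hE k, eventually_scale ((hC (η / 2) (half_pos hη)).and (eventually_ge_atTop 1)) k,
    eventually_ge_atTop k, eventually_ge_atTop 2] with N a1 a2 a3 a4 X s1 s2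
  obtain ⟨a2, X1⟩ := a2 X s1
  have hXN : X ≤ N * N := s2.trans (Nat.mul_le_mul_right N a3)
  have X0 : (0 : ℝ) < X := by exact_mod_cast X1
  obtain ⟨U, u1, u2, u3⟩ := a2 (fun n => χ n)
    (fun n => ((Gc η (φ N) (dl (φ N) N) n : ℝ) : ℂ) * χ n) (fun n => χ.norm_le_one _) (hb N) (by
      intro p hp hpX m _
      have h2 : (X : ℝ) ^ (η / 2) ≤ (N : ℝ) ^ η := by
        have h3 : (X : ℝ) ≤ (N : ℝ) ^ (2 : ℝ) := by
          rw [Real.rpow_two, sq]; exact_mod_cast hXN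
        calc (X : ℝ) ^ (η / 2) ≤ ((N : ℝ) ^ (2 : ℝ)) ^ (η / 2) :=
              Real.rpow_le_rpow X0.le h3 (by positivity)
          _ = _ := by rw [← Real.rpow_mul (by positivity)]; congr 1; ring
      rw [Gc, Gc, Fd_mul (hφ N) hp.pos (hpX.trans h2), Nat.cast_mul, map_mul]
      ring)
  have a5 := a1 X s1 s2 (X / h) (by positivity) (div_le_self X0.le hh) U u1 u2
  have a6 := MS_le_of_le (Trig.DP (Icc 1 X)
      (fun n => ((Gc η (φ N) (dl (φ N) N) n : ℝ) : ℂ) * χ n)) (Trig.DP (Icc 1 X) fun m =>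
      (((∑ j ∈ m.divisors, φ N j) - ∑ j ∈ Icc 1 N, φ N j / j : ℝ) : ℂ) * χ m) (X / h) u1 (c := 1)
    (fun u _ => by
      have e : DP (Icc 1 X) (fun n => ((Gc η (φ N) (dl (φ N) N) n : ℝ) : ℂ) * χ n) u =
          (((BB η)⁻¹ : ℝ) : ℂ) * DP (Icc 1 X) (fun m =>
            (((∑ j ∈ m.divisors, φ N j) - ∑ j ∈ Icc 1 N, φ N j / j : ℝ) : ℂ) * χ m) u := by
        unfold DP
        rw [mul_sum]
        refine sum_congr rfl fun n hn => ?_
        beta_reduce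
        rw [Gc_eq hη (h1 N) a4 (hφ N) (abs_dl_le' hη (h1 N) a4 (hφ N))
          ((mem_Icc.1 hn).2.trans hXN), div_eq_mul_inv, Complex.ofReal_mul]
        unfold Fd dl
        ring
      rw [e, norm_mul, Complex.norm_real]
      refine mul_le_mul_of_nonneg_right ?_ (norm_nonneg _)
      have := one_le_BB η
      rw [Real.norm_of_nonneg (by positivity)]
      exact inv_le_one_of_one_le₀ this)
  have a7 := MS_union_le (Trig.DP (Icc 1 X)
    (fun n => ((Gc η (φ N) (dl (φ N) N) n : ℝ) : ℂ) * χ n)) (X / h) U Uᶜ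
  rw [Set.union_compl_self] at a7
  linarith

theorem unifFam_Gc : UnifFam fun N => Gc η (φ N) (dl (φ N) N) := by
  have hb : ∀ N n : ℕ, ‖((Gc η (φ N) (dl (φ N) N) n : ℝ) : ℂ)‖ ≤ 1 := fun N n => by
    rw [Complex.norm_real]; exact abs_clamp_le _
  have hinv : ∀ d : ℕ, 0 < d → ∀ᶠ N : ℕ in atTop, ∀ m,
      ((Gc η (φ N) (dl (φ N) N) (d * m) : ℝ) : ℂ) = ((Gc η (φ N) (dl (φ N) N) m : ℝ) : ℂ) :=
    fun d hd => (Gc_inv hη φ hφ _ d hd).mono fun N h m => by rw [h m]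
  intro ε hε
  obtain ⟨H₀, hH⟩ := unif_of_shortFam (fun N n => ((Gc η (φ N) (dl (φ N) N) n : ℝ) : ℂ))
    (fun _ => 1) hb (fun _ => by simp)
    (fun p hp => (hinv p hp.pos).mono fun N h m _ => by rw [h m, one_mul])
    (shortFam_periodic hb hinv fun q _ χ => shortFam_char hη φ h1 hφ q χ) ε hε
  refine ⟨H₀, fun H hH' α q => ?_⟩
  filter_upwards [hH H hH' α (q + 1)] with N h X s1 s2
  exact h X (by nlinarith) (by nlinarith)

end

/-- Two-point correlations of divisor sums along a periodic weight. -/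
theorem corr_family (hsys : SysExists) {η : ℝ} (hη : 0 < η) (φ ψ : ℕ → ℕ → ℝ)
    (h2 : ∀ N j, |ψ N j| ≤ 1)
    (hφ : ∀ N j, φ N j ≠ 0 → Rough ((N : ℝ) ^ η) j)
    (hψ : ∀ N j, ψ N j ≠ 0 → Rough ((N : ℝ) ^ η) j) (h W : ℕ) (hh : 1 ≤ h) (hW : 1 ≤ W)
    (g : ℕ → ℝ) (hg : ∀ n, |g n| ≤ 1) (hper : ∀ n, g (n + W) = g n) :
    Tendsto (fun N : ℕ => (1 / (N : ℝ)) * ∑ n ∈ range N,
      g n * Gc η (φ N) 0 n * Gc η (ψ N) (dl (ψ N) N) (n + h)) atTop (𝓝 0) := by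
  refine transfer_unif hsys h W hh hW (fun _ => g) (fun N => Gc η (φ N) 0)
    (fun N => Gc η (ψ N) (dl (ψ N) N)) (fun _ => hg) (fun _ _ => abs_clamp_le _)
    (fun _ _ => abs_clamp_le _) (fun _ => hper) (fun d hd => ?_) (fun d hd => ?_)
    (unifFam_Gc hη ψ h2 hψ)
  · filter_upwards [Gc_inv hη φ hφ (fun _ => 0) d (Nat.pos_of_ne_zero hd.ne_zero),
      Gc_inv hη ψ hψ (fun N => dl (ψ N) N) d (Nat.pos_of_ne_zero hd.ne_zero)] with N a b m k _ _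
    rw [a m, b k]
  · filter_upwards [Gc_inv hη ψ hψ (fun N => dl (ψ N) N) d (Nat.pos_of_ne_zero hd.ne_zero)]
      with N b
    exact ⟨1, by simp, fun m _ => by rw [b m, one_mul]⟩

end Pool.Agent.Work.MP_51e72e_nt.LT
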