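import Pool.Agent.Work.MP_51e72e_nt.LPSmooth2

-- merged part: Pool.Agent.Work.MP_51e72e_nt.LPMertens
section
/-!
Mertens estimates for the number of roots of a polynomial modulo primes.
-/

set_option autoImplicit false

namespace Pool.Agent.Work.MP_51e72e_nt.LP

open Finset Polynomial Filter Topology Pool.Agent.Lib.ANT

lemma kronecker_mer {a : ℕ → ℝ} {L : ℝ}
    (h : Tendsto (fun y : ℕ => ∑ n ∈ range (y + 1), a n) atTop (𝓝 L)) {η : ℝ} (hη : 0 < η) :
    ∀ᶠ y : ℕ in atTop, ∑ n ∈ range (y + 1), a n * Real.log n ≤ 3 * η * Real.log y := by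
  obtain ⟨n0, hn0⟩ := eventually_atTop.mp ((Metric.tendsto_nhds.mp h) η hη)
  have hb : ∀ y, n0 ≤ y → |∑ n ∈ range (y + 1), a n - L| < η := fun y hy => by
    simpa [Real.dist_eq] using hn0 y hy
  set U : ℕ → ℝ := fun y => ∑ n ∈ range (y + 1), a n * Real.log n -
    (∑ n ∈ range (y + 1), a n - L) * Real.log y - η * Real.log y with hU
  have hlog : ∀ y : ℕ, Real.log y ≤ Real.log ((y + 1 : ℕ) : ℝ) := fun y => by
    rcases Nat.eq_zero_or_pos y with rfl | hy
    · simp
    · exact Real.log_le_log (by exact_mod_cast hy) (by exact_mod_cast Nat.le_succ y)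
  have hmono : ∀ y, n0 ≤ y → U y ≤ U n0 := by
    intro y hy
    induction y, hy using Nat.le_induction with
    | base => exact le_rfl
    | succ y hy ih =>
      refine le_trans ?_ ih
      have h1 := (abs_lt.mp (hb y hy)).1
      have h2 := hlog y
      have h3 := mul_nonneg (show 0 ≤ ∑ n ∈ range (y + 1), a n - L + η by linarith only [h1])
        (sub_nonneg.mpr h2)
      simp only [hU]
      rw [sum_range_succ (fun n => a n * Real.log n) (y + 1), sum_range_succ a (y + 1)]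
      linarith only [h3]
  filter_upwards [eventually_ge_atTop n0, Cub.tendsto_logB.eventually_ge_atTop (U n0 / η),
    Cub.tendsto_logB.eventually_ge_atTop 0] with y hy h1 h0
  have h2 := hmono y hy
  have h3 := (abs_lt.mp (hb y hy)).2
  rw [div_le_iff₀ hη] at h1
  have h4 := mul_le_mul_of_nonneg_right h3.le h0
  simp only [hU] at h2 h1
  linarith only [h4, h2, h1]

theorem sum_omega_log {f : ℤ[X]} (hf : Irreducible f) (hd : 0 < f.natDegree) {ε : ℝ}
    (hε : 0 < ε) : ∀ᶠ y : ℕ in atTop,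
      ∑ p ∈ (Ioc 0 y).filter Nat.Prime, (omega f p : ℝ) * Real.log p / p
        ≤ (1 + ε) * Real.log y := by
  obtain ⟨L, hL⟩ := tendsto_sum_omega hf hd
  filter_upwards [kronecker_mer hL (show 0 < ε / 6 by positivity),
    Cub.tendsto_logB.eventually_ge_atTop (28 / ε), eventually_gt_atTop 0] with y h1 h2 hy
  have h3 := (abs_le.mp (abs_sum_log_div_prime_sub_log_le y hy)).2
  have e : ∑ n ∈ range (y + 1), ((omega f n : ℝ) - 1) * pw n * Real.log n =
      ∑ p ∈ (Ioc 0 y).filter Nat.Prime, (omega f p : ℝ) * Real.log p / p -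
      ∑ p ∈ (Ioc 0 y).filter Nat.Prime, Real.log p / p := by
    rw [← sum_sub_distrib, sum_filter, range_eq_Ico, sum_eq_sum_Ico_succ_bot (show 0 < y + 1 by omega),
      Ico_add_one_add_one_eq_Ioc]
    simp only [Nat.cast_zero, Real.log_zero, mul_zero, zero_add]
    refine sum_congr rfl fun n _ => ?_
    unfold pw
    split_ifs
    · ring
    · ring
  rw [div_le_iff₀ hε] at h2
  linarith only [h1, h2, h3, e]

theorem window_lower {f : ℤ[X]} (hf : Irreducible f) (hd : 0 < f.natDegree) (a : ℕ)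
    (ha : 1 ≤ a) : ∀ᶠ B : ℕ in atTop,
      1 / (2 * ((a : ℝ) + 1)) ≤
        ∑ p ∈ (Ioc (B ^ a) (B ^ (a + 1))).filter Nat.Prime, (omega f p : ℝ) / p := by
  obtain ⟨L, hL⟩ := tendsto_sum_omega hf hd
  have h1 := (hL.comp (Cub.tendsto_pow_nat (k := a + 1) (by omega))).sub
    (hL.comp (Cub.tendsto_pow_nat (k := a) (by omega)))
  rw [sub_self] at h1
  have a1 : (1 : ℝ) ≤ a := by exact_mod_cast ha
  have a0 : (0 : ℝ) < a := by linarith only [a1]
  have hδ : -(1 / (4 * ((a : ℝ) + 1))) < 0 := neg_lt_zero.mpr (by positivity)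
  filter_upwards [h1.eventually (lt_mem_nhds hδ),
    Cub.tendsto_logB.eventually_ge_atTop (192 * ((a : ℝ) + 1)), eventually_ge_atTop 2] with B x b c
  have B3 : 1 ≤ B := le_trans (by norm_num) c
  have hPP : B ^ a ≤ B ^ (a + 1) := pow_le_pow_right₀ B3 (by omega)
  have hP : 2 ≤ B ^ a := c.trans (le_self_pow₀ B3 (by omega))
  have m := (abs_le.mp (abs_sum_inv_prime_Ioc_sub_le _ _ hP hPP)).1
  simp only [Function.comp] at x
  simp only [Nat.cast_pow, Real.log_pow, Nat.cast_add, Nat.cast_one] at m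
  have u0 : 0 < Real.log B := by linarith only [a1, b]
  rw [← Real.log_div (by positivity) (by positivity), mul_div_mul_right _ _ u0.ne'] at m
  have l1 := Real.one_sub_inv_le_log_of_pos (show (0 : ℝ) < (a + 1) / a by positivity)
  have l2 : 1 - (((a : ℝ) + 1) / a)⁻¹ = 4 * (1 / (4 * ((a : ℝ) + 1))) := by
    field_simp; ring
  have l3 : 48 / (a * Real.log B) ≤ 1 / (4 * ((a : ℝ) + 1)) := by
    rw [div_le_div_iff₀ (by positivity) (by positivity)]
    linarith only [a1, b, mul_nonneg_of_nonpos_of_nonpos (Mathlib.Tactic.Linarith.sub_nonpos_of_le (Mathlib.Tactic.Linarith.natCast_nonneg ℝ a)) (Mathlib.Tactic.Linarith.sub_nonpos_of_le a1), mul_nonneg_of_nonpos_of_nonpos (Mathlib.Tactic.Linarith.sub_nonpos_of_le (Mathlib.Tactic.Linarith.natCast_nonneg ℝ a)) (Mathlib.Tactic.Linarith.sub_nonpos_of_le b)]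
  have l4 : 1 / (2 * ((a : ℝ) + 1)) = 2 * (1 / (4 * ((a : ℝ) + 1))) := by
    field_simp; ring
  rw [← sum_Ico_eq_sub _ (Nat.add_le_add_right hPP 1), Ico_add_one_add_one_eq_Ioc] at x
  have e : ∑ n ∈ Ioc (B ^ a) (B ^ (a + 1)), ((omega f n : ℝ) - 1) * pw n =
      ∑ p ∈ (Ioc (B ^ a) (B ^ (a + 1))).filter Nat.Prime, (omega f p : ℝ) / p -
      ∑ p ∈ (Ioc (B ^ a) (B ^ (a + 1))).filter Nat.Prime, (p : ℝ)⁻¹ := by
    rw [← sum_sub_distrib, sum_filter]
    refine sum_congr rfl fun n _ => ?_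
    unfold pw
    split_ifs
    · ring
    · ring
  linarith only [x, m, l1, l2, l3, l4, e]

lemma bezout_deriv_mer {f : ℤ[X]} (hf : Irreducible f) (hd : 0 < f.natDegree) :
    ∃ (R : ℤ) (A B : ℤ[X]), R ≠ 0 ∧ A * f + B * derivative f = C R := by
  have hprim := hf.isPrimitive hd.ne'
  have hirr : Irreducible (f.map (Int.castRingHom ℚ)) :=
    (IsPrimitive.Int.irreducible_iff_irreducible_map_cast hprim).mp hf
  obtain ⟨u, v, huv⟩ := (separable_def _).mp hirr.separable
  rw [derivative_map] at huv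
  obtain ⟨a, ha, ha'⟩ := IsLocalization.integerNormalization_spec (nonZeroDivisors ℤ) u
  obtain ⟨b, hb, hb'⟩ := IsLocalization.integerNormalization_spec (nonZeroDivisors ℤ) v
  rw [algebraMap_int_eq] at ha' hb'
  refine ⟨a * b, C b * IsLocalization.integerNormalization (nonZeroDivisors ℤ) u,
    C a * IsLocalization.integerNormalization (nonZeroDivisors ℤ) v,
    mul_ne_zero (nonZeroDivisors.ne_zero ha) (nonZeroDivisors.ne_zero hb), ?_⟩
  apply Polynomial.map_injective (Int.castRingHom ℚ) Int.cast_injective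
  simp only [Polynomial.map_add, Polynomial.map_mul, ha', hb', zsmul_eq_mul, eq_intCast,
    Polynomial.map_intCast, Int.cast_mul]
  linear_combination (a : ℚ[X]) * b * huv

lemma pow_dvd_left_mer {p : ℕ} (hp : p.Prime) {d u : ℤ} {e v : ℕ} (h : (p : ℤ) ^ e ∣ d * u)
    (hu : ¬ (p : ℤ) ^ (v + 1) ∣ u) : (p : ℤ) ^ (e - v) ∣ d := by
  have := Fact.mk hp
  rcases eq_or_ne d 0 with rfl | hd
  · exact dvd_zero _
  have hu0 : u ≠ 0 := by rintro rfl; exact hu (dvd_zero _)
  rw [padicValInt_dvd_iff] at h hu ⊢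
  have h1 := h.resolve_left (mul_ne_zero hd hu0)
  rw [padicValInt.mul hd hu0] at h1
  push Not at hu
  right
  omega

lemma hensel_mer {f A B : ℤ[X]} {R : ℤ} (hAB : A * f + B * derivative f = C R) {p : ℕ}
    (hp : p.Prime) {e v : ℕ} (hv : ¬ (p : ℤ) ^ (v + 1) ∣ R) (he : v + 1 ≤ e) {x y : ℤ}
    (hx : (p : ℤ) ^ e ∣ f.eval x) (hy : (p : ℤ) ^ e ∣ f.eval y)
    (hxy : (p : ℤ) ^ (v + 1) ∣ y - x) : (p : ℤ) ^ (e - v) ∣ y - x := by
  obtain ⟨k, hk⟩ := f.binomExpansion x (y - x)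
  rw [add_sub_cancel] at hk
  refine pow_dvd_left_mer (u := f.derivative.eval x + k * (y - x)) hp ?_ fun h => hv ?_
  · have : (y - x) * (f.derivative.eval x + k * (y - x)) = f.eval y - f.eval x := by
      rw [hk]; ring
    rw [this]
    exact dvd_sub hy hx
  · have h1 : (p : ℤ) ^ (v + 1) ∣ f.derivative.eval x := by
      have := dvd_sub h (hxy.mul_left k)
      simpa using this
    have h2 : (p : ℤ) ^ (v + 1) ∣ f.eval x := (pow_dvd_pow _ he).trans hx
    have h3 := congrArg (eval x) hAB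
    simp only [eval_add, eval_mul, eval_C] at h3
    rw [← h3]
    exact dvd_add (h2.mul_left _) (h1.mul_left _)

lemma card_class_mer {F : Finset ℕ} {N m : ℕ} (hF : ∀ n ∈ F, n ≤ N)
    (h : ∀ x ∈ F, ∀ y ∈ F, x % m = y % m) : F.card ≤ N / m + 1 := by
  rw [← card_range (N / m + 1)]
  refine card_le_card_of_injOn (fun n => n / m) (fun n hn => ?_) fun x hx y hy hxy => ?_
  · exact mem_coe.mpr (mem_range.mpr (Nat.lt_succ_of_le (Nat.div_le_div_right (hF n hn))))
  · have h1 := h x hx y hy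
    have h2 : x / m = y / m := hxy
    rw [← Nat.div_add_mod x m, ← Nat.div_add_mod y m, h1, h2]

theorem roots_pow {f : ℤ[X]} (hf : Irreducible f) (hd : 0 < f.natDegree) : ∃ M : ℕ,
    ∀ p : ℕ, p.Prime → ∀ e N : ℕ,
      (((Icc 1 N).filter fun n : ℕ => (p : ℤ) ^ e ∣ f.eval (n : ℤ)).card : ℝ)
        ≤ M * ((N : ℝ) / (p : ℝ) ^ e + 1) := by
  obtain ⟨R, A, B, hR, hAB⟩ := bezout_deriv_mer hf hd
  refine ⟨f.natDegree + R.natAbs ^ 3, fun p hp e N => ?_⟩
  have := Fact.mk hp
  set v := padicValInt p R with hv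
  set r := R.natAbs with hr
  have r1 : 1 ≤ r := Int.natAbs_pos.mpr hR
  have hv1 : (p : ℤ) ^ v ∣ R := padicValInt_dvd R
  have hv2 : ¬ (p : ℤ) ^ (v + 1) ∣ R := by
    rw [padicValInt_dvd_iff]; push Not; exact ⟨hR, by omega⟩
  have hpv : p ^ v ≤ r := by
    refine Nat.le_of_dvd r1 ?_
    rw [← Int.natCast_dvd]; exact_mod_cast hv1
  have p0 : (0 : ℝ) < p := by exact_mod_cast hp.pos
  have hq : (0 : ℝ) ≤ (N : ℝ) / (p : ℝ) ^ e := by positivity
  set S := (Icc 1 N).filter fun n : ℕ => (p : ℤ) ^ e ∣ f.eval (n : ℤ) with hS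
  have r3 : r ≤ r ^ 3 := Nat.le_self_pow (by norm_num) r
  rcases le_or_gt e v with he | he
  · have h1 : S.card ≤ N := (card_filter_le _ _).trans (by simp)
    have h2 : p ^ e ≤ f.natDegree + r ^ 3 :=
      ((Nat.pow_le_pow_right hp.pos he).trans (hpv.trans r3)).trans (Nat.le_add_left _ _)
    have h3 : (p : ℝ) ^ e ≤ ((f.natDegree + r ^ 3 : ℕ) : ℝ) := by exact_mod_cast h2
    calc (S.card : ℝ) ≤ N := by exact_mod_cast h1
      _ = (p : ℝ) ^ e * ((N : ℝ) / (p : ℝ) ^ e) := by field_simp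
      _ ≤ _ := mul_le_mul h3 (by linarith only []) hq (by positivity)
  have hfib : ∀ b : ℕ, (S.filter fun n => n % p ^ (v + 1) = b).card ≤ N / p ^ (e - v) + 1 := by
    intro b
    refine card_class_mer (fun n hn => ?_) fun x hx y hy => ?_
    · exact (mem_Icc.mp (mem_filter.mp (mem_filter.mp hn).1).1).2
    · obtain ⟨x1, x2⟩ := mem_filter.mp hx
      obtain ⟨y1, y2⟩ := mem_filter.mp hy
      have h1 : x ≡ y [MOD p ^ (v + 1)] := x2.trans y2.symm
      have h2 := hensel_mer hAB hp hv2 he (mem_filter.mp x1).2 (mem_filter.mp y1).2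
        (by exact_mod_cast h1.dvd)
      exact (Nat.modEq_iff_dvd.mpr (by exact_mod_cast h2) : x ≡ y [MOD p ^ (e - v)])
  have hgrp : ∃ t : Finset ℕ, (∀ n ∈ S, n % p ^ (v + 1) ∈ t) ∧
      t.card * p ^ v ≤ f.natDegree + r ^ 3 := by
    rcases Nat.eq_zero_or_pos v with h0 | h0
    · refine ⟨(range p).filter fun n : ℕ => (p : ℤ) ∣ f.eval (n : ℤ), fun n hn => ?_, ?_⟩
      · rw [h0, zero_add, pow_one]
        refine mem_filter.mpr ⟨mem_range.mpr (Nat.mod_lt _ hp.pos), ?_⟩
        have h1 : (p : ℤ) ∣ f.eval (n : ℤ) :=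
          (dvd_pow_self _ (by omega)).trans (mem_filter.mp hn).2
        have h2 : (p : ℤ) ∣ (n : ℤ) - ((n % p : ℕ) : ℤ) := (Nat.mod_modEq n p).dvd
        have h3 := dvd_sub h1 (h2.trans (sub_dvd_eval_sub _ _ f))
        simpa using h3
      · rw [h0, pow_zero, mul_one]
        exact (omega_le_natDegree (hf.isPrimitive hd.ne') hp).trans (Nat.le_add_right _ _)
    · refine ⟨range (p ^ (v + 1)), fun n _ => mem_range.mpr (Nat.mod_lt _ (pow_pos hp.pos _)), ?_⟩
      have h1 : p ≤ r := (Nat.le_self_pow h0.ne' p).trans hpv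
      rw [card_range, pow_succ]
      calc p ^ v * p * p ^ v ≤ r * r * r := by gcongr
        _ = r ^ 3 := by ring
        _ ≤ _ := Nat.le_add_left _ _
  obtain ⟨t, ht1, ht2⟩ := hgrp
  have h1 := card_le_mul_card_image_of_maps_to ht1 (N / p ^ (e - v) + 1) fun b _ => hfib b
  have h2 : ((N / p ^ (e - v) + 1 : ℕ) : ℝ) ≤ (p : ℝ) ^ v * ((N : ℝ) / (p : ℝ) ^ e + 1) := by
    have h3 : ((N / p ^ (e - v) : ℕ) : ℝ) ≤ (N : ℝ) / ((p ^ (e - v) : ℕ) : ℝ) := Nat.cast_div_le
    have h4 : (p : ℝ) ^ e = (p : ℝ) ^ v * (p : ℝ) ^ (e - v) := by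
      rw [← pow_add, Nat.add_sub_cancel' he.le]
    have h5 : (1 : ℝ) ≤ (p : ℝ) ^ v := one_le_pow₀ (by exact_mod_cast hp.one_le)
    have h6 : (p : ℝ) ^ v * ((N : ℝ) / (p : ℝ) ^ e) = (N : ℝ) / (p : ℝ) ^ (e - v) := by
      rw [h4]; field_simp
    push_cast at h3 ⊢
    rw [mul_add, h6]
    linarith only [h5, h3]
  have h3 : (t.card : ℝ) * (p : ℝ) ^ v ≤ ((f.natDegree + r ^ 3 : ℕ) : ℝ) := by exact_mod_cast ht2
  calc (S.card : ℝ) ≤ ((N / p ^ (e - v) + 1 : ℕ) : ℝ) * t.card := by exact_mod_cast h1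
    _ ≤ (p : ℝ) ^ v * ((N : ℝ) / (p : ℝ) ^ e + 1) * t.card := by gcongr
    _ = (t.card : ℝ) * (p : ℝ) ^ v * ((N : ℝ) / (p : ℝ) ^ e + 1) := by ring
    _ ≤ _ := by gcongr

end Pool.Agent.Work.MP_51e72e_nt.LP
end

-- merged part: Pool.Agent.Work.MP_51e72e_nt.LPSmall
section
/-!
The contribution of the primes up to `K N` to the product of the values.
-/

set_option autoImplicit false

namespace Pool.Agent.Work.MP_51e72e_nt.LP

open Finset Polynomial Filter Topology

theorem eval_ne_zero_sm {f : ℤ[X]} (hf : Irreducible f) (hd : 2 ≤ f.natDegree) (n : ℤ) :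
    f.eval n ≠ 0 := fun h => by
  have h1 := natDegree_eq_of_degree_eq_some (n := 1)
    (degree_eq_one_of_irreducible_of_root hf (x := n) h)
  omega

theorem eval_le_sm (f : ℤ[X]) : ∀ᶠ N : ℕ in atTop, ∀ n ∈ Icc 1 N,
    (f.eval (n : ℤ)).natAbs ≤ N ^ (f.natDegree + 1) := by
  filter_upwards [eventually_ge_atTop (∑ i ∈ range (f.natDegree + 1), (f.coeff i).natAbs)]
    with N hN n hn
  obtain ⟨h1, h2⟩ := mem_Icc.mp hn
  rw [eval_eq_sum_range]
  refine (Int.natAbs_sum_le _ _).trans ?_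
  calc ∑ i ∈ range (f.natDegree + 1), (f.coeff i * (n : ℤ) ^ i).natAbs
      ≤ ∑ i ∈ range (f.natDegree + 1), (f.coeff i).natAbs * N ^ f.natDegree :=
        sum_le_sum fun i hi => by
          rw [Int.natAbs_mul, Int.natAbs_pow, Int.natAbs_natCast]
          exact Nat.mul_le_mul_left _ ((Nat.pow_le_pow_left h2 i).trans
            (Nat.pow_le_pow_right (by omega) (by have := mem_range.mp hi; omega)))
    _ ≤ N ^ (f.natDegree + 1) := by
        rw [← sum_mul, pow_succ']
        exact Nat.mul_le_mul_right _ hN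

theorem lam1_le_sm {f : ℤ[X]} {n : ℤ} (h0 : f.eval n ≠ 0) {B : ℕ} (hB : (f.eval n).natAbs ≤ B)
    (X : ℕ) : lam1 f X n ≤ ∑ p ∈ X.primesLE, Real.log p *
      ∑ e ∈ Icc 1 (Nat.log p B), if (p : ℤ) ^ e ∣ f.eval n then (1 : ℝ) else 0 := by
  have h1 : (f.eval n).natAbs ≠ 0 := by simpa using h0
  refine (sum_le_sum_of_subset_of_nonneg (t := X.primesLE) (fun p hp => ?_)
    fun p _ _ => by positivity).trans (sum_le_sum fun p hp => ?_)
  · obtain ⟨h2, h3⟩ := mem_filter.mp hp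
    exact Nat.mem_primesLE.mpr ⟨h3, Nat.prime_of_mem_primeFactors h2⟩
  · have hp' := Nat.prime_of_mem_primesLE hp
    rw [mul_comm, sum_boole]
    refine mul_le_mul_of_nonneg_left ?_ (by positivity)
    norm_cast
    refine (Nat.card_Icc 1 _).ge.trans (card_le_card fun e he => ?_)
    obtain ⟨h2, h3⟩ := mem_Icc.mp he
    have h4 : p ^ e ∣ (f.eval n).natAbs := (pow_dvd_pow p h3).trans (Nat.ordProj_dvd _ p)
    refine mem_filter.mpr ⟨mem_Icc.mpr ⟨h2, Nat.le_log_of_pow_le hp'.one_lt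
      ((Nat.le_of_dvd (Nat.pos_of_ne_zero h1) h4).trans hB)⟩, ?_⟩
    exact_mod_cast Int.natCast_dvd.mpr h4

theorem cnt_one_sm (f : ℤ[X]) {p : ℕ} (hp : 0 < p) (N : ℕ) :
    (((Icc 1 N).filter fun n : ℕ => (p : ℤ) ∣ f.eval (n : ℤ)).card : ℝ)
      ≤ omega f p * ((N : ℝ) / p + 1) := by
  have h : ((Icc 1 N).filter fun n : ℕ => (p : ℤ) ∣ f.eval (n : ℤ)).card ≤
      omega f p * (N / p + 1) := by
    rw [omega, ← card_range (N / p + 1), ← card_product]
    refine card_le_card_of_injOn (fun n => (n % p, n / p)) (fun n hn => ?_) fun a _ b _ h => ?_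
    · obtain ⟨h1, h2⟩ := mem_filter.mp hn
      refine mem_product.mpr ⟨mem_filter.mpr ⟨mem_range.mpr (Nat.mod_lt _ hp), ?_⟩,
        mem_range.mpr (Nat.lt_succ_of_le (Nat.div_le_div_right (mem_Icc.mp h1).2))⟩
      have h3 : (p : ℤ) ∣ (n : ℤ) - (n % p : ℕ) := ⟨(n / p : ℕ), by
        rw [sub_eq_iff_eq_add]; exact_mod_cast (Nat.div_add_mod n p).symm⟩
      simpa using h2.sub (h3.trans (sub_dvd_eval_sub _ _ f))
    · obtain ⟨h1, h2⟩ := Prod.ext_iff.mp h
      rw [← Nat.div_add_mod a p, ← Nat.div_add_mod b p]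
      simp only at h1 h2
      rw [h1, h2]
  refine (Nat.cast_le.mpr h).trans ?_
  push_cast
  gcongr
  exact Nat.cast_div_le

theorem geom_sm {x : ℝ} (hx : 1 < x) (E : ℕ) : ∑ e ∈ Icc 2 E, 1 / x ^ e ≤ 1 / (x * (x - 1)) := by
  have h0 : 0 < x - 1 := by linarith
  have key : ∀ E : ℕ, ∑ e ∈ Icc 2 (E + 1), 1 / x ^ e =
      1 / (x * (x - 1)) - 1 / (x ^ (E + 1) * (x - 1)) := fun E => by
    induction E with
    | zero => simp
    | succ E ih =>
      rw [sum_Icc_succ_top (by omega), ih]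
      field_simp
      ring
  cases E with
  | zero => simp only [show Icc 2 0 = ∅ from rfl, sum_empty]; positivity
  | succ E => rw [key]; exact sub_le_self _ (by positivity)

theorem prime_term_sm {f : ℤ[X]} {M : ℕ} {p : ℕ} (hp : p.Prime) (N E : ℕ)
    (hM : ∀ e, (((Icc 1 N).filter fun n : ℕ => (p : ℤ) ^ e ∣ f.eval (n : ℤ)).card : ℝ)
        ≤ M * ((N : ℝ) / (p : ℝ) ^ e + 1)) :
    ∑ e ∈ Icc 1 E, (((Icc 1 N).filter fun n : ℕ => (p : ℤ) ^ e ∣ f.eval (n : ℤ)).card : ℝ) ≤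
      omega f p * ((N : ℝ) / p + 1) + M * N * (1 / (p * (p - 1))) + M * E := by
  have h1 : (1 : ℝ) < p := by exact_mod_cast hp.one_lt
  have h0 : (0 : ℝ) < p - 1 := by linarith
  rcases Nat.eq_zero_or_pos E with rfl | hE
  · simp only [show Icc 1 0 = ∅ from rfl, sum_empty]; positivity
  rw [← insert_Icc_add_one_left_eq_Icc hE, sum_insert (by simp), add_assoc]
  refine add_le_add (by simpa using cnt_one_sm f hp.pos N) ((sum_le_sum fun e _ => hM e).trans ?_)
  calc ∑ e ∈ Icc 2 E, M * ((N : ℝ) / (p : ℝ) ^ e + 1)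
      = M * N * ∑ e ∈ Icc 2 E, 1 / (p : ℝ) ^ e + M * ((Icc 2 E).card : ℝ) := by
        rw [mul_sum, card_eq_sum_ones, Nat.cast_sum, mul_sum, ← sum_add_distrib]
        exact sum_congr rfl fun e _ => by push_cast; ring
    _ ≤ _ := by
        have h2 : (Icc 2 E).card ≤ E := by rw [Nat.card_Icc]; omega
        gcongr
        exact geom_sm h1 E

theorem pi_log_sm {K N : ℕ} (hK : 1 ≤ K) (hN : 2 ≤ N) :
    ((K * N).primesLE.card : ℝ) * Real.log N ≤
      2 * Real.log 4 * K * N + √(K * N) * Real.log N := by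
  have h1 : (2 : ℝ) ≤ N := by exact_mod_cast hN
  have h2 : (1 : ℝ) ≤ K := by exact_mod_cast hK
  have h3 : (N : ℝ) ≤ K * N := le_mul_of_one_le_left (by linarith only [h1]) h2
  have h4 := Chebyshev.pi_le_log4_mul_div (x := (K * N : ℕ)) (by push_cast; linarith)
  rw [Nat.floor_natCast, ← Nat.primesLE_card_eq_primeCounting, Nat.cast_mul,
    Real.log_sqrt (by positivity)] at h4
  have h5 : 0 < Real.log N := Real.log_pos (by linarith only [h1])
  have h6 : Real.log N ≤ Real.log (K * N) := Real.log_le_log (by linarith only [h1]) h3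
  have h7 : 0 < Real.log 4 := Real.log_pos (by norm_num)
  refine (mul_le_mul_of_nonneg_right h4 h5.le).trans ?_
  rw [add_mul]
  refine add_le_add ?_ le_rfl
  rw [div_mul_eq_mul_div, div_le_iff₀ (by linarith only [h5, h6])]
  have h8 : 0 ≤ Real.log 4 * (K * N) := by positivity
  linarith only [h6, h8, mul_le_mul_of_nonneg_left h6 h8]

theorem sum_lam1_le {f : ℤ[X]} (hf : Irreducible f) (hd : 2 ≤ f.natDegree) (K : ℕ) {ε : ℝ}
    (hε : 0 < ε) : ∀ᶠ N : ℕ in atTop,
      ∑ n ∈ Icc 1 N, lam1 f (K * N) n ≤ (1 + ε) * N * Real.log N := by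
  rcases Nat.eq_zero_or_pos K with rfl | hK
  · refine Eventually.of_forall fun N => (sum_eq_zero fun n _ => sum_eq_zero fun p hp => ?_).trans_le
      (by positivity)
    obtain ⟨h1, h2⟩ := mem_filter.mp hp
    have := (Nat.prime_of_mem_primeFactors h1).pos
    omega
  obtain ⟨M, hM⟩ := roots_pow hf (by omega)
  obtain ⟨d, hd'⟩ : ∃ d, d = f.natDegree := ⟨_, rfl⟩
  have hK' : (1 : ℝ) ≤ K := by exact_mod_cast hK
  have t1 : Tendsto (fun N : ℕ => K * N) atTop atTop := tendsto_id.const_mul_atTop' hK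
  have t2 : Tendsto (fun N : ℕ => Real.log N) atTop atTop :=
    Real.tendsto_log_atTop.comp tendsto_natCast_atTop_atTop
  filter_upwards [eval_le_sm f, t1.eventually (sum_omega_log hf (by omega) (half_pos hε)),
    eventually_ge_atTop 2, t2.eventually_ge_atTop (((1 + ε / 2) * Real.log K + d * Real.log 4 * K +
      8 * M + M * (d + 1) * (2 * Real.log 4 * K)) / (ε / 4)),
    tendsto_natCast_atTop_atTop.eventually_ge_atTop (K * (M * (d + 1) / (ε / 4)) ^ 2 : ℝ)]
    with N h1 h2 h3 h4 h5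
  have hN : (2 : ℝ) ≤ N := by exact_mod_cast h3
  have hL : 0 < Real.log N := Real.log_pos (by linarith only [hN])
  rw [← hd'] at h1
  rw [← Nat.primesLE_eq_filter_Ioc_zero, Nat.cast_mul, Real.log_mul (by linarith only [hK']) (by linarith only [hN])]
    at h2
  rw [div_le_iff₀ (by positivity)] at h4
  have h6 : M * (d + 1) * √(K * N) ≤ ε / 4 * N := by
    have k1 : √(K * N) * (M * (d + 1) / (ε / 4)) ≤ N := by
      refine abs_le_of_sq_le_sq' ?_ (by linarith only [hN]) |>.2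
      rw [mul_pow, Real.sq_sqrt (by positivity)]
      linarith only [h5, mul_nonneg_of_nonpos_of_nonpos (Mathlib.Tactic.Linarith.sub_nonpos_of_le (Mathlib.Tactic.Linarith.natCast_nonneg ℝ N)) (Mathlib.Tactic.Linarith.sub_nonpos_of_le h5)]
    rw [← mul_div_assoc, div_le_iff₀ (by positivity)] at k1
    linarith only [k1]
  have h7 : ∑ p ∈ (K * N).primesLE, Real.log p ≤ Real.log 4 * (K * N) := by
    rw [← Chebyshev.theta_eq_sum_primesLE_log, ← Nat.cast_mul]
    exact Chebyshev.theta_le_log4_mul_x (by positivity)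
  have h8 : ∑ p ∈ (K * N).primesLE, Real.log p / (p * (p - 1)) ≤ 8 := by
    refine le_trans ?_ (Pool.Agent.Lib.ANT.sum_log_div_mul_pred_le (K * N))
    rw [Nat.primesLE_eq_filter_Ioc_one]
    refine sum_le_sum_of_subset_of_nonneg (filter_subset _ _) fun p hp _ => ?_
    have : (1 : ℝ) < p := by exact_mod_cast (mem_Ioc.mp hp).1
    have : (0 : ℝ) < p - 1 := by linarith only [this]
    positivity
  have h9 := pi_log_sm hK h3
  calc ∑ n ∈ Icc 1 N, lam1 f (K * N) n
      ≤ ∑ n ∈ Icc 1 N, ∑ p ∈ (K * N).primesLE, Real.log p * ∑ e ∈ Icc 1 (Nat.log p (N ^ (d + 1))),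
          if (p : ℤ) ^ e ∣ f.eval (n : ℤ) then (1 : ℝ) else 0 :=
        sum_le_sum fun n hn => lam1_le_sm (eval_ne_zero_sm hf hd n) (h1 n hn) _
    _ = ∑ p ∈ (K * N).primesLE, Real.log p * ∑ e ∈ Icc 1 (Nat.log p (N ^ (d + 1))),
          (((Icc 1 N).filter fun n : ℕ => (p : ℤ) ^ e ∣ f.eval (n : ℤ)).card : ℝ) := by
        rw [sum_comm]
        refine sum_congr rfl fun p _ => ?_
        rw [← mul_sum, sum_comm]
        simp only [sum_boole]
    _ ≤ ∑ p ∈ (K * N).primesLE, (N * (omega f p * Real.log p / p) + d * Real.log p +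
          M * N * (Real.log p / (p * (p - 1))) + M * (d + 1) * Real.log N) := by
        refine sum_le_sum fun p hp => ?_
        have hp' := Nat.prime_of_mem_primesLE hp
        have k1 : (omega f p : ℝ) ≤ d := by
          exact_mod_cast hd' ▸ omega_le_natDegree (hf.isPrimitive (by omega)) hp'
        have k2 : (Nat.log p (N ^ (d + 1)) : ℝ) * Real.log p ≤ (d + 1) * Real.log N := by
          rw [← Real.log_pow, show (d + 1 : ℝ) = (d + 1 : ℕ) by push_cast; rfl, ← Real.log_pow]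
          refine Real.log_le_log (by have := hp'.pos; positivity) ?_
          exact_mod_cast Nat.pow_log_le_self p (by positivity)
        have k3 : 0 ≤ Real.log p := by positivity
        refine (mul_le_mul_of_nonneg_left (prime_term_sm hp' N _ (hM p hp' · N)) k3).trans ?_
        have k4 := mul_le_mul_of_nonneg_right k1 k3
        have k5 := mul_le_mul_of_nonneg_left k2 (Nat.cast_nonneg (α := ℝ) M)
        calc _ = N * (omega f p * Real.log p / p) + omega f p * Real.log p +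
          M * N * (Real.log p / (p * (p - 1))) + M * (Nat.log p (N ^ (d + 1)) * Real.log p) := by ring
          _ ≤ _ := by linarith only [k4, k5]
    _ = N * ∑ p ∈ (K * N).primesLE, omega f p * Real.log p / p +
          d * ∑ p ∈ (K * N).primesLE, Real.log p +
          M * N * ∑ p ∈ (K * N).primesLE, Real.log p / (p * (p - 1)) +
          M * (d + 1) * (((K * N).primesLE.card : ℝ) * Real.log N) := by
        simp only [sum_add_distrib, mul_sum, sum_const, nsmul_eq_mul]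
        ring
    _ ≤ N * ((1 + ε / 2) * (Real.log K + Real.log N)) + d * (Real.log 4 * (K * N)) + M * N * 8 +
          M * (d + 1) * (2 * Real.log 4 * K * N + √(K * N) * Real.log N) := by gcongr
    _ ≤ _ := by
        have k1 := mul_le_mul_of_nonneg_left h4 (by linarith only [hN] : (0 : ℝ) ≤ N)
        have k2 := mul_le_mul_of_nonneg_right h6 hL.le
        linarith only [k1, k2]

end Pool.Agent.Work.MP_51e72e_nt.LP
end
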