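import Pool.Agent.Work.MP_51e72e_nt.LPSmooth2
import Pool.Agent.Work.MP_51e72e_nt.LPSmall
import Pool.Agent.Work.MP_51e72e_nt.CubMain

-- merged part: Pool.Agent.Work.MP_51e72e_nt.LPSmooth
section
/-!
A positive proportion of the values has a smooth part larger than the length of the interval.
-/

set_option autoImplicit false

namespace Pool.Agent.Work.MP_51e72e_nt.LP

open Finset Polynomial Filter Pool.Agent.Work.MP_51e72e_nt.Cub Pool.Agent.Work.MP_51e72e_nt.Deg

lemma count_hits {ι κ : Type} {n N L M : ℕ} (hL : 0 < L) (I : Finset ι) (J : ℕ → Finset κ)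
    (P : ι → ℤ → Prop) (Q : κ → ℤ → Prop) [∀ i t, Decidable (P i t)] [∀ j t, Decidable (Q j t)]
    (G : Finset ℕ) (h1 : ∀ t : ℤ, t.natAbs ≤ N + L → (I.filter fun i => P i t).card ≤ M ∧
      ∀ k < n, ((J k).filter fun j => Q j t).card ≤ M)
    (h2 : ∀ t ∈ Icc 1 N, ∀ i ∈ I, ∀ j ∈ tup J n, P i t → (∀ k, Q (j k) t) → t ∈ G) :
    ∑ i ∈ I, ∑ j ∈ tup J n, (((Icc 1 (N + L) ×ˢ range L).filter fun z : ℕ × ℕ =>
        (P i ((z.1 : ℤ) - z.2) ∧ ∀ k, Q (j k) ((z.1 : ℤ) - z.2)) ∧ True).card : ℝ) / L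
      ≤ (M : ℝ) ^ (n + 1) * (G.card + 2 * L) := by
  classical
  obtain ⟨Z, hZ⟩ : ∃ Z : Finset ℤ, Z = image (fun t : ℕ => (t : ℤ)) G ∪
    (Ioc (-(L : ℤ)) 0 ∪ Ioc (N : ℤ) (N + L)) := ⟨_, rfl⟩
  have cZ : Z.card ≤ G.card + 2 * L := by
    rw [hZ]
    refine (card_union_le _ _).trans (add_le_add card_image_le ((card_union_le _ _).trans ?_))
    simp only [Int.card_Ioc]
    omega
  have c1 : ((Icc 1 (N + L) ×ˢ range L).filter fun z : ℕ × ℕ => (z.1 : ℤ) - z.2 ∈ Z).card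
      ≤ (G.card + 2 * L) * L := by
    refine le_trans (card_le_card_of_injOn (t := Z ×ˢ range L)
      (fun z => ((z.1 : ℤ) - z.2, z.2)) (fun z hz => ?_) fun z _ z' _ h => ?_) ?_
    · obtain ⟨a1, a2⟩ := mem_filter.mp hz
      exact mem_product.mpr ⟨a2, (mem_product.mp a1).2⟩
    · simp only [Prod.mk.injEq] at h
      exact Prod.ext (by omega) h.2
    · rw [card_product, card_range]
      exact Nat.mul_le_mul_right _ cZ
  simp only [← sum_div]
  rw [div_le_iff₀ (by positivity), mul_assoc]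
  suffices h : ∑ i ∈ I, ∑ j ∈ tup J n, ((Icc 1 (N + L) ×ˢ range L).filter fun z : ℕ × ℕ =>
      (P i ((z.1 : ℤ) - z.2) ∧ ∀ k, Q (j k) ((z.1 : ℤ) - z.2)) ∧ True).card
      ≤ M ^ (n + 1) * ((G.card + 2 * L) * L) by exact_mod_cast h
  refine le_trans ?_ (Nat.mul_le_mul_left _ c1)
  simp only [card_filter, mul_sum]
  rw [sum_congr rfl fun i _ => sum_comm, sum_comm]
  refine sum_le_sum fun z hz => ?_
  obtain ⟨z1, z2⟩ := mem_product.mp hz
  rw [mem_Icc] at z1
  rw [mem_range] at z2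
  obtain ⟨t, ht⟩ : ∃ t, t = (z.1 : ℤ) - z.2 := ⟨_, rfl⟩
  rw [← ht]
  by_cases h : t ∈ Z
  · obtain ⟨a1, a2⟩ := h1 t (by omega)
    have a3 : ((tup J n).filter fun j => ∀ k, Q (j k) t).card ≤ M ^ n := by
      refine (card_le_card (t := tup (fun k => (J k).filter fun j => Q j t) n)
        fun j hj => ?_).trans ?_
      · obtain ⟨b1, b2⟩ := mem_filter.mp hj
        exact Fintype.mem_piFinset.mpr fun k =>
          mem_filter.mpr ⟨Fintype.mem_piFinset.mp b1 k, b2 k⟩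
      · rw [tup, Fintype.card_piFinset]
        simpa using prod_le_pow_card univ _ M fun (k : Fin n) _ => a2 k k.2
    rw [if_pos h, mul_one, pow_succ']
    refine le_trans (le_of_eq ?_) (Nat.mul_le_mul a1 a3)
    rw [card_filter, card_filter, sum_mul_sum]
    refine sum_congr rfl fun i _ => sum_congr rfl fun j _ => ?_
    by_cases b1 : P i t <;> by_cases b2 : ∀ k, Q (j k) t <;> simp [b1, b2]
  · refine le_trans (le_of_eq (sum_eq_zero fun i hi => sum_eq_zero fun j hj =>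
      if_neg fun a => h ?_)) (Nat.zero_le _)
    simp only [hZ, mem_union, mem_Ioc, mem_image]
    by_cases b : 1 ≤ t ∧ t ≤ N
    · obtain ⟨s, rfl⟩ := Int.eq_ofNat_of_zero_le (show 0 ≤ t by omega)
      exact Or.inl ⟨s, h2 s (mem_Icc.mpr ⟨by omega, by omega⟩) i hi j hj a.1.1 a.1.2, rfl⟩
    · omega

open Classical in
theorem smooth_of_level (d n e0 : ℕ) (e : ℕ → ℕ) (hd : 2 ≤ d) (hn : 1 ≤ n) (he0 : 1 ≤ e0)
    (he : ∀ k, 1 ≤ e k) : ∃ δ α : ℝ, 0 < δ ∧ 0 < α ∧ ∀ f : ℤ[X], Irreducible f →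
      f.natDegree = d → 0 < f.leadingCoeff → LevelAll f n e0 e → ∀ᶠ N : ℕ in atTop, α * N ≤
        (((Icc 1 N).filter fun x : ℕ => (1 + δ) * Real.log N ≤ lam1 f N x).card : ℝ) := by
  obtain ⟨S, hS⟩ : ∃ S, S = e0 + ∑ k ∈ range n, e k := ⟨_, rfl⟩
  obtain ⟨u, hu⟩ : ∃ u, u = n + 3 := ⟨_, rfl⟩
  obtain ⟨M, hM⟩ : ∃ M, M = u * S * d + 1 := ⟨_, rfl⟩
  obtain ⟨γ, hγ⟩ : ∃ γ : ℝ, γ = 1 / (2 * ((u * S : ℕ) : ℝ)) := ⟨_, rfl⟩
  have hek : ∀ k < n, e k + 1 ≤ S := fun k hk => by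
    have := single_le_sum (f := e) (fun _ _ => Nat.zero_le _) (mem_range.mpr hk)
    omega
  have he1 : e0 + 1 ≤ S := by
    have := single_le_sum (f := e) (fun _ _ => Nat.zero_le _) (mem_range.mpr hn)
    have := he 0
    omega
  have uS : 0 < u * S := Nat.mul_pos (by omega) (by omega)
  have γ0 : 0 < γ := by rw [hγ]; positivity
  have M0 : (0 : ℝ) < M := by rw [hM]; positivity
  have w0 : u * e0 + (n + 2) + 1 ≤ u * S := by nlinarith only [he1, hu]
  have w1 : ∀ k < n, u * e k + k + 1 ≤ u * (e k + 1) := fun k hk => by linarith only [hu, hk]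
  have w2 : ∀ k < n, u * e k + k + 1 ≤ u * S := fun k hk =>
    (w1 k hk).trans (Nat.mul_le_mul_left _ (hek k hk))
  have w3 : ∀ x y k k', k < u → k' < u → k ≠ k' → u * x + k ≠ u * y + k' := by
    intro x y k k' a1 a2 a3 a4
    have := congrArg (· % u) a4
    simp only [Nat.mul_add_mod, Nat.mod_eq_of_lt a1, Nat.mod_eq_of_lt a2] at this
    exact a3 this
  have w4 : ∀ k, 1 ≤ u * e k + k := fun k =>
    (Nat.mul_pos (by omega) (he k)).trans_le (Nat.le_add_right _ _)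
  have w5 : u * S + 2 ≤ u * e0 + (n + 2) + ∑ k ∈ range n, (u * e k + k) := by
    rw [sum_add_distrib, ← mul_sum, hS, mul_add]
    omega
  refine ⟨1 / ((u * S : ℕ) + 1), γ ^ (n + 1) / (2 * (M : ℝ) ^ (n + 1)), by positivity,
    by positivity, fun f hf hdf hl hLev => ?_⟩
  have hprim := hf.isPrimitive (by omega)
  obtain ⟨W, hW⟩ := Int.eq_ofNat_of_zero_le hl.le
  have W0 : 0 < W := by omega
  obtain ⟨C, hC⟩ := eval_le f
  have hL1 := (tendsto_pow_nat (k := u) (by omega)).eventually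
    (hLev W W0 fun p _ h => Int.natCast_dvd_natCast.mp (hW ▸ h))
  have hwin := (eventually_all_finset (range n)).mpr fun k _ =>
    window_lower hf (by omega) (u * e k + k) (w4 k)
  refine eventually_root uS.ne' ?_
  filter_upwards [hL1, hwin, window_lower hf (by omega) (u * e0 + (n + 2)) (by omega),
    eventually_ge_atTop (C * 4 ^ d + W + d + 2), tendsto_natCast_atTop_atTop.eventually_ge_atTop
      (2 * (W + 4 * (M : ℝ) ^ (n + 1)) / γ ^ (n + 1))] with B hB hw hw0 B1 B2 N N1 N2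
  have B3 : 2 ≤ B := by omega
  have hp : ∀ {x y : ℕ}, x ≤ y → B ^ x ≤ B ^ y := fun h => Nat.pow_le_pow_right (by omega) h
  have Bu : B ≤ B ^ u := Nat.le_self_pow (by omega) B
  have uN : B ^ u ≤ N := (hp (Nat.le_mul_of_pos_right _ (by omega))).trans N1
  have N3 : N ≤ B ^ (u * S + 1) := N2.trans (by rw [pow_succ']; exact Nat.mul_le_mul_right _ B3)
  obtain ⟨L, hL⟩ : ∃ L, L = N / B ^ u + 1 := ⟨_, rfl⟩
  have L1 : L ≤ N := by
    have := Nat.div_lt_self (show 0 < N by omega) (show 1 < B ^ u by omega)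
    omega
  have L2 : L * B ^ u ≤ 2 * N := by
    have := Nat.div_mul_le_self N (B ^ u)
    rw [hL, add_mul]
    omega
  have hcop : ∀ {a : ℕ} {z : ℕ × ℕ}, 1 ≤ a → z ∈ Pr f B a → Nat.Coprime z.1 W := by
    intro a z ha hz
    obtain ⟨a1, -, a2, -⟩ := mem_Pr.mp hz
    have := Nat.le_self_pow (show a ≠ 0 by omega) B
    exact (Nat.Prime.coprime_iff_not_dvd a2).mpr fun h => by have := Nat.le_of_dvd W0 h; omega
  have hco : ∀ {a a' : ℕ} {z z' : ℕ × ℕ}, a ≠ a' → z ∈ Pr f B a → z' ∈ Pr f B a' →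
      Nat.Coprime z.1 z'.1 := fun h hz hz' => (Nat.coprime_primes (mem_Pr.mp hz).2.2.1
        (mem_Pr.mp hz').2.2.1).mpr (ne_of_Pr (by omega) h hz hz')
  have hfib : ∀ a v, ((Pr f B a).filter fun z => z.1 = v).card ≤ B ^ u := fun a v =>
    (card_Pr_le hprim v).trans (by omega)
  rw [← hS] at hB
  have main := level_classes (hB N L (by rwa [← pow_mul])
    (by rw [← pow_mul]; exact N3.trans (hp (by linarith only [hn, hu])))
    (by rw [hL, mul_comm]; exact (Nat.lt_mul_div_succ N (by omega)).le) L1) W0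
    (Pr f B (u * e0 + (n + 2))) (fun k => Pr f B (u * e k + k)) Prod.fst (fun z => (z.2 : ℤ))
    Prod.fst (fun z => (z.2 : ℤ)) (fun i hi => ?_) (hfib _) (fun k hk j hj => ?_)
    (fun k _ => hfib _) (fun k hk k' hk' h j hj j' hj' =>
      hco (w3 _ _ _ _ (by omega) (by omega) h) hj hj')
    (fun i hi k hk j hj => hco (w3 _ _ _ _ (by omega) (by omega) (by omega)) hi hj)
    (fun _ => 1) (fun _ => 1) (by simp) (by simp) (fun _ => True) (fun _ _ _ _ => trivial)
  rotate_left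
  · obtain ⟨a1, a2, a3, -, a4⟩ := mem_Pr.mp hi
    simp only [← pow_mul]
    exact ⟨a3.prime.squarefree, hcop (by omega) hi, (hp (by omega)).trans a1.le,
      a2.trans (hp (by linarith only [hu])), a4⟩
  · obtain ⟨a1, a2, -⟩ := mem_Pr.mp hj
    simp only [← pow_mul]
    exact ⟨(hp (by omega)).trans a1.le, a2.trans (hp (w1 k hk)), hcop (w4 k) hj⟩
  have hf0 := eval_ne_zero hf (by omega)
  have hfM : ∀ t : ℤ, t.natAbs ≤ N + L → (f.eval t).natAbs ≤ B ^ M := fun t ht => by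
    refine (hC (4 * B ^ (u * S)) t (Nat.mul_pos (by omega) (pow_pos (by omega) _))
      (by omega)).trans ?_
    rw [hdf, mul_pow, ← mul_assoc, ← pow_mul, hM, pow_succ']
    exact Nat.mul_le_mul_right _ (by omega)
  have b1 : (1 : ℝ) ≤ B := by exact_mod_cast (show 1 ≤ B by omega)
  have up := count_hits (N := N) (M := M) (n := n) (show 0 < L from hL ▸ Nat.succ_pos _)
    (Pr f B (u * e0 + (n + 2))) (fun k => Pr f B (u * e k + k))
    (fun z t => (z.1 : ℤ) ∣ t - z.2) (fun z t => (z.1 : ℤ) ∣ t - z.2)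
    ((Icc 1 N).filter fun x : ℕ => (1 + 1 / (((u * S : ℕ) : ℝ) + 1)) * Real.log N ≤ lam1 f N x)
    (fun t ht => ⟨card_hit B3 (by omega) (hf0 t) (hfM t ht),
      fun k _ => card_hit B3 (w4 k) (hf0 t) (hfM t ht)⟩) fun t ht i hi j hj di dj => ?_
  swap
  · refine mem_filter.mpr ⟨ht, le_trans ?_ (le_lam1 (ak := fun k => u * e k + k) (by omega)
      (fun k hk => w3 _ _ _ _ (by omega) (by omega) (by omega))
      (fun k hk k' hk' h => w3 _ _ _ _ (by omega) (by omega) h) ((hp w0).trans N1)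
      (fun k hk => (hp (w2 k hk)).trans N1) (hf0 t) hi (Fintype.mem_piFinset.mp hj) di dj)⟩
    have l1 : Real.log N ≤ ((u * S + 1 : ℕ) : ℝ) * Real.log B := by
      rw [← Real.log_pow]
      exact Real.log_le_log (by exact_mod_cast (show 0 < N by omega)) (by exact_mod_cast N3)
    calc _ ≤ (1 + 1 / (((u * S : ℕ) : ℝ) + 1)) * (((u * S + 1 : ℕ) : ℝ) * Real.log B) := by gcongr
      _ = ((u * S + 2 : ℕ) : ℝ) * Real.log B := by
          rw [Nat.cast_add, Nat.cast_add]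
          field_simp
          push_cast
          ring
      _ ≤ _ := mul_le_mul_of_nonneg_right (Nat.cast_le.mpr w5) (Real.log_nonneg b1)
  have lw : ∀ a, a + 1 ≤ u * S → γ ≤ 1 / (2 * ((a : ℕ) + 1 : ℝ)) := fun a ha => by
    rw [hγ]
    refine one_div_le_one_div_of_le (by positivity) (mul_le_mul_of_nonneg_left ?_ zero_le_two)
    exact_mod_cast ha
  have lo : ((N : ℝ) + L) * γ ^ (n + 1) ≤ ∑ i ∈ Pr f B (u * e0 + (n + 2)),
      ∑ j ∈ tup (fun k => Pr f B (u * e k + k)) n, (((range W).filter fun _ : ℕ => True).card : ℝ)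
        * (((N : ℝ) + L) / (i.1 * (W * ∏ k, (j k).1 : ℕ))) := by
    have e1 : ∀ (i : ℕ × ℕ) (j : Fin n → ℕ × ℕ), (((range W).filter fun _ : ℕ => True).card : ℝ)
        * (((N : ℝ) + L) / (i.1 * (W * ∏ k, (j k).1 : ℕ))) =
        ((N : ℝ) + L) * ((1 : ℝ) / i.1 * ∏ k, (1 : ℝ) / (j k).1) := fun i j => by
      have : (W : ℝ) ≠ 0 := by positivity
      rw [filter_true, card_range, prod_div_distrib]
      push_cast
      rw [prod_const_one, mul_left_comm (i.1 : ℝ), ← mul_div_assoc, mul_div_mul_left _ _ this,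
        div_mul_div_comm, one_mul, mul_one_div]
    simp only [e1, ← mul_sum, ← sum_mul]
    rw [tup, ← prod_univ_sum (fun k : Fin n => Pr f B (u * e k + k))
      (fun _ z => (1 : ℝ) / z.1), pow_succ']
    simp only [sum_Pr]
    refine mul_le_mul_of_nonneg_left (mul_le_mul ((lw _ w0).trans hw0) ?_ (by positivity)
      (γ0.le.trans ((lw _ w0).trans hw0))) (by positivity)
    refine le_trans (le_of_eq ?_) (prod_le_prod (fun _ _ => γ0.le) fun k _ =>
      (lw _ (w2 k k.2)).trans (hw k (mem_range.mpr k.2)))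
    simp
  simp only [one_mul, sum_sub_distrib] at main
  have m2 := (abs_le.mp main).1
  have b2 : (B : ℝ) ≤ ((B ^ u : ℕ) : ℝ) := by exact_mod_cast Bu
  have N0 : (0 : ℝ) ≤ N := Nat.cast_nonneg _
  have q1 : (N : ℝ) / (B ^ u : ℕ) ≤ N / B := div_le_div_of_nonneg_left N0 (by linarith only [b1]) b2
  have q2 : (L : ℝ) ≤ 2 * (N / B) := by
    rw [← mul_div_assoc, le_div_iff₀ (by linarith only [b1])]
    exact_mod_cast (Nat.mul_le_mul_left _ Bu).trans L2
  have q3 : (W + 4 * (M : ℝ) ^ (n + 1)) * (N / B) ≤ γ ^ (n + 1) / 2 * N := by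
    rw [div_le_iff₀ (by positivity)] at B2
    rw [← mul_div_assoc, div_le_iff₀ (by linarith only [b1])]
    linarith only [B2, N0, mul_le_mul_of_nonneg_right B2 N0]
  have q4 := mul_le_mul_of_nonneg_left q1 (Nat.cast_nonneg W)
  have q5 := mul_le_mul_of_nonneg_left q2 (pow_pos M0 (n + 1)).le
  have q6 : 0 ≤ (L : ℝ) * γ ^ (n + 1) := by positivity
  rw [div_mul_eq_mul_div, div_le_iff₀ (by positivity)]
  linarith only [up, lo, m2, q3, q4, q5, q6]

end Pool.Agent.Work.MP_51e72e_nt.LP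
end

-- merged part: Pool.Agent.Work.MP_51e72e_nt.LPCheb
section
/-!
The argument of Chebyshev and Erdos: many values with a large smooth part force many values
with a large prime factor.
-/

set_option autoImplicit false

namespace Pool.Agent.Work.MP_51e72e_nt.LP

open Finset Polynomial Filter Topology

/-- logarithm of the part of `m` made of the primes above `X` -/
noncomputable def bigLogC (m X : ℕ) : ℝ :=
  ∑ p ∈ m.primeFactors.filter (fun p => ¬ p ≤ X), (m.factorization p : ℝ) * Real.log p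

/-- number of prime factors of `m` above `X`, with multiplicity -/
def bigCntC (m X : ℕ) : ℕ :=
  ∑ p ∈ m.primeFactors.filter (fun p => ¬ p ≤ X), m.factorization p

lemma log_split_C (f : ℤ[X]) (X : ℕ) (n : ℤ) :
    Real.log ((f.eval n).natAbs : ℝ) = lam1 f X n + bigLogC (f.eval n).natAbs X := by
  unfold lam1 bigLogC
  rw [sum_filter_add_sum_filter_not, Real.log_nat_eq_sum_factorization]
  rfl

lemma log_nat_nonneg_C (p : ℕ) : 0 ≤ Real.log (p : ℝ) := Real.log_natCast_nonneg p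

lemma lam1_nonneg_C (f : ℤ[X]) (X : ℕ) (n : ℤ) : 0 ≤ lam1 f X n :=
  sum_nonneg fun p _ => mul_nonneg (Nat.cast_nonneg _) (log_nat_nonneg_C p)

lemma lam1_mono_C (f : ℤ[X]) {X Y : ℕ} (h : X ≤ Y) (n : ℤ) : lam1 f X n ≤ lam1 f Y n := by
  unfold lam1
  refine sum_le_sum_of_subset_of_nonneg (fun p hp => ?_) fun p _ _ =>
    mul_nonneg (Nat.cast_nonneg _) (log_nat_nonneg_C p)
  rw [mem_filter] at hp ⊢
  exact ⟨hp.1, hp.2.trans h⟩

lemma cnt_le_log_C (m : ℕ) {X : ℕ} (hX : 1 ≤ X) :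
    (bigCntC m X : ℝ) * Real.log X ≤ bigLogC m X := by
  unfold bigCntC bigLogC
  rw [Nat.cast_sum, sum_mul]
  refine sum_le_sum fun p hp => mul_le_mul_of_nonneg_left ?_ (Nat.cast_nonneg _)
  have h := (mem_filter.mp hp).2
  exact Real.log_le_log (by exact_mod_cast hX) (by exact_mod_cast (not_le.mp h).le)

lemma log_le_cnt_C (m X : ℕ) {T : ℝ} (h : ∀ p ∈ m.primeFactors, Real.log p ≤ T) :
    bigLogC m X ≤ (bigCntC m X : ℝ) * T := by
  unfold bigCntC bigLogC
  rw [Nat.cast_sum, sum_mul]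
  exact sum_le_sum fun p hp =>
    mul_le_mul_of_nonneg_left (h p (mem_filter.mp hp).1) (Nat.cast_nonneg _)

lemma eval_ne_zero_C {f : ℤ[X]} (hf : Irreducible f) (hd : 2 ≤ f.natDegree) (n : ℤ) :
    f.eval n ≠ 0 := by
  intro h
  have h1 := degree_eq_one_of_irreducible_of_root hf (show f.IsRoot n from h)
  have h2 : f.natDegree = 1 := natDegree_eq_of_degree_eq_some h1
  omega

lemma upper_C (f : ℤ[X]) : ∃ C : ℕ, 1 ≤ C ∧ ∀ N n : ℕ, 1 ≤ n → n ≤ N →
    (f.eval (n : ℤ)).natAbs ≤ C * N ^ f.natDegree := by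
  refine ⟨1 + ∑ i ∈ range (f.natDegree + 1), (f.coeff i).natAbs, by omega, fun N n h1 h2 => ?_⟩
  rw [eval_eq_sum_range]
  refine (Int.natAbs_sum_le _ _).trans ?_
  rw [add_mul, sum_mul]
  refine le_trans (sum_le_sum fun i hi => ?_) (Nat.le_add_left _ _)
  rw [Int.natAbs_mul, Int.natAbs_pow, Int.natAbs_natCast]
  refine Nat.mul_le_mul_left _ ?_
  have := mem_range.mp hi
  calc n ^ i ≤ N ^ i := Nat.pow_le_pow_left h2 i
    _ ≤ N ^ f.natDegree := Nat.pow_le_pow_right (by omega) (by omega)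

lemma lower0_C (f : ℤ[X]) (hd : 0 < f.natDegree) : ∀ᶠ n : ℕ in atTop,
    (n : ℝ) ^ f.natDegree / 2 ≤ |((f.eval (n : ℤ) : ℤ) : ℝ)| := by
  have hinj : Function.Injective (Int.castRingHom ℝ) := Int.cast_injective
  have h := (f.map (Int.castRingHom ℝ)).isEquivalent_atTop_lead.isLittleO.bound
    (show (0 : ℝ) < 1 / 2 by norm_num)
  rw [natDegree_map_eq_of_injective hinj, leadingCoeff_map_of_injective hinj] at h
  have hl : (1 : ℝ) ≤ |(f.leadingCoeff : ℝ)| := by
    have : f.leadingCoeff ≠ 0 := leadingCoeff_ne_zero.mpr (by rintro rfl; simp at hd)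
    exact_mod_cast Int.one_le_abs this
  filter_upwards [tendsto_natCast_atTop_atTop.eventually h] with n a
  have e : (f.map (Int.castRingHom ℝ)).eval (n : ℝ) = ((f.eval (n : ℤ) : ℤ) : ℝ) := by
    have := eval_intCast_map (Int.castRingHom ℝ) f (n : ℤ)
    simp at this ⊢
  simp only [Pi.sub_apply, e, Real.norm_eq_abs, eq_intCast] at a
  generalize ((f.eval (n : ℤ) : ℤ) : ℝ) = v at a ⊢
  generalize (f.leadingCoeff : ℝ) = l at a hl
  have p0 : (0 : ℝ) ≤ (n : ℝ) ^ f.natDegree := by positivity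
  have e1 : |l * (n : ℝ) ^ f.natDegree| = |l| * (n : ℝ) ^ f.natDegree := by
    rw [abs_mul, abs_of_nonneg p0]
  have a2 := abs_sub_abs_le_abs_sub (l * (n : ℝ) ^ f.natDegree) v
  rw [abs_sub_comm] at a2
  rw [e1] at a a2
  linarith only [a, a2, hl, p0, mul_nonneg_of_nonpos_of_nonpos (Mathlib.Tactic.Linarith.sub_nonpos_of_le hl) (Mathlib.Tactic.Linarith.sub_nonpos_of_le p0)]

lemma lower1_C {f : ℤ[X]} (hf : Irreducible f) (hd : 2 ≤ f.natDegree) : ∃ B : ℝ,
    ∀ n : ℕ, 1 ≤ n →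
      f.natDegree * Real.log n - B ≤ Real.log ((f.eval (n : ℤ)).natAbs : ℝ) := by
  obtain ⟨n0, h0⟩ := eventually_atTop.mp (lower0_C f (by omega))
  refine ⟨Real.log 2 + f.natDegree * Real.log n0, fun n hn => ?_⟩
  have l2 : 0 ≤ Real.log 2 := Real.log_nonneg (by norm_num)
  have d0 : (0 : ℝ) ≤ f.natDegree := Nat.cast_nonneg _
  have n1 : (0 : ℝ) < n := by exact_mod_cast hn
  rcases le_total n0 n with h | h
  · have a := h0 n h
    rw [← Int.cast_abs, ← Int.natCast_natAbs, Int.cast_natCast] at a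
    have b := Real.log_le_log (by positivity) a
    rw [Real.log_div (by positivity) (by norm_num), Real.log_pow] at b
    have := mul_nonneg d0 (log_nat_nonneg_C n0)
    linarith only [b, this]
  · have a : Real.log n ≤ Real.log n0 := Real.log_le_log n1 (by exact_mod_cast h)
    have b := log_nat_nonneg_C (f.eval (n : ℤ)).natAbs
    have := mul_le_mul_of_nonneg_left a d0
    linarith only [l2, b, this]

lemma tendsto_log_C : Tendsto (fun N : ℕ => Real.log N) atTop atTop :=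
  Real.tendsto_log_atTop.comp tendsto_natCast_atTop_atTop

lemma lower_C {f : ℤ[X]} (hf : Irreducible f) (hd : 2 ≤ f.natDegree) {ε : ℝ} (hε : 0 < ε) :
    ∀ᶠ N : ℕ in atTop, (f.natDegree - ε) * N * Real.log N ≤
      ∑ n ∈ Icc 1 N, Real.log ((f.eval (n : ℤ)).natAbs : ℝ) := by
  obtain ⟨B, hB⟩ := lower1_C hf hd
  filter_upwards [(tendsto_log_C.const_mul_atTop hε).eventually_ge_atTop (f.natDegree + B)]
    with N hN
  have h1 : ∑ n ∈ Icc 1 N, ((f.natDegree : ℝ) * Real.log n - B) ≤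
      ∑ n ∈ Icc 1 N, Real.log ((f.eval (n : ℤ)).natAbs : ℝ) :=
    sum_le_sum fun n hn => hB n (mem_Icc.mp hn).1
  have h2 := Pool.Agent.Lib.ANT.le_sum_log N
  have e : Ioc 0 N = Icc 1 N := by ext x; simp only [mem_Ioc, mem_Icc]; omega
  rw [e] at h2
  rw [sum_sub_distrib, ← mul_sum, sum_const, Nat.card_Icc, Nat.add_sub_cancel, nsmul_eq_mul] at h1
  have d0 : (0 : ℝ) ≤ f.natDegree := Nat.cast_nonneg _
  have N0 : (0 : ℝ) ≤ N := Nat.cast_nonneg _
  have h3 := mul_le_mul_of_nonneg_left h2 d0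
  have h4 := mul_le_mul_of_nonneg_left hN N0
  linarith only [h1, h3, h4]

/-- the inequality for one value -/
lemma point_C {f : ℤ[X]} (hf : Irreducible f) (hd : 2 ≤ f.natDegree) {δ c : ℝ} (hc : 0 < c)
    {C N n : ℕ} (hC : 1 ≤ C) (hN : 2 ≤ N)
    (hup : (f.eval (n : ℤ)).natAbs ≤ C * N ^ f.natDegree)
    (h1 : Real.log C ≤ Real.log N) (h2 : Real.log C < δ * Real.log N) (a x : ℝ)
    (ha : a = 0 ∨ a = 1 ∧ (1 + δ) * Real.log N ≤ lam1 f N n)
    (hx : x = 1 ∨ x = 0 ∧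
      ¬ ∃ p : ℕ, p.Prime ∧ (p : ℤ) ∣ f.eval (n : ℤ) ∧ (N : ℝ) ^ (1 + c) < p) :
    Real.log ((f.eval (n : ℤ)).natAbs : ℝ) ≤ lam1 f ((C + 1) * N) n +
      (1 + c) * Real.log N * (f.natDegree - 1 - a) + x * ((f.natDegree + 1) * Real.log N) := by
  have m0 : (f.eval (n : ℤ)).natAbs ≠ 0 := Int.natAbs_ne_zero.mpr (eval_ne_zero_C hf hd n)
  have hs := log_split_C f ((C + 1) * N) n
  have l0 := lam1_nonneg_C f ((C + 1) * N) n
  have hm := lam1_mono_C f (show N ≤ (C + 1) * N by linarith only [mul_nonneg_of_nonpos_of_nonpos (Mathlib.Tactic.Linarith.sub_nonpos_of_le (Mathlib.Tactic.Linarith.natCast_nonneg ℤ C)) (Mathlib.Tactic.Linarith.sub_nonpos_of_le (Mathlib.Tactic.Linarith.natCast_nonneg ℤ N))]) (n : ℤ)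
  have hk := cnt_le_log_C (f.eval (n : ℤ)).natAbs (show 1 ≤ (C + 1) * N by linarith only [hN, mul_nonneg_of_nonpos_of_nonpos (Mathlib.Tactic.Linarith.sub_nonpos_of_le (Mathlib.Tactic.Linarith.natCast_nonneg ℤ C)) (Mathlib.Tactic.Linarith.sub_nonpos_of_le (Mathlib.Tactic.Linarith.natCast_nonneg ℤ N))])
  have N0 : (0 : ℝ) < N := by positivity
  have C0 : (0 : ℝ) < C := by positivity
  have L0 : 0 < Real.log N := Real.log_pos (by exact_mod_cast hN)
  have d2 : (2 : ℝ) ≤ f.natDegree := by exact_mod_cast hd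
  have hu : Real.log ((f.eval (n : ℤ)).natAbs : ℝ) ≤ Real.log C + f.natDegree * Real.log N := by
    rw [← Real.log_pow, ← Real.log_mul C0.ne' (by positivity)]
    exact Real.log_le_log (by exact_mod_cast Nat.pos_of_ne_zero m0) (by exact_mod_cast hup)
  have hK : Real.log (((C + 1) * N : ℕ) : ℝ) = Real.log (C + 1) + Real.log N := by
    push_cast
    rw [Real.log_mul (by positivity) N0.ne']
  have K1 : Real.log C < Real.log (C + 1) := Real.log_lt_log C0 (by linarith only [])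
  have K0 : 0 ≤ Real.log C := log_nat_nonneg_C C
  rw [hK] at hk
  rcases hx with rfl | ⟨rfl, hx⟩
  · have a1 : 0 ≤ (f.natDegree : ℝ) - 1 - a := by
      rcases ha with rfl | ⟨rfl, -⟩ <;> linarith only [d2]
    have : 0 ≤ (1 + c) * Real.log N * (f.natDegree - 1 - a) := by positivity
    linarith only [h1, l0, hu, this]
  · have hb : bigLogC (f.eval (n : ℤ)).natAbs ((C + 1) * N) ≤
        (bigCntC (f.eval (n : ℤ)).natAbs ((C + 1) * N) : ℝ) * ((1 + c) * Real.log N) := by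
      refine log_le_cnt_C _ _ fun p hp => ?_
      have pp := Nat.prime_of_mem_primeFactors hp
      have pd : (p : ℤ) ∣ f.eval (n : ℤ) := Int.natCast_dvd.mpr (Nat.dvd_of_mem_primeFactors hp)
      have : (p : ℝ) ≤ (N : ℝ) ^ (1 + c) := not_lt.mp fun h => hx ⟨p, pp, pd, h⟩
      rw [← Real.log_rpow N0]
      exact Real.log_le_log (by exact_mod_cast pp.pos) this
    have kk : (bigCntC (f.eval (n : ℤ)).natAbs ((C + 1) * N) : ℝ) ≤ f.natDegree - 1 - a := by
      generalize bigCntC (f.eval (n : ℤ)).natAbs ((C + 1) * N) = k at hk ⊢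
      have k0 : (0 : ℝ) ≤ k := Nat.cast_nonneg _
      rcases ha with rfl | ⟨rfl, ha⟩
      · have : k + 1 ≤ f.natDegree := by
          by_contra hh
          have h3 : (f.natDegree : ℝ) ≤ k := by exact_mod_cast (by omega : f.natDegree ≤ k)
          have h4 := mul_le_mul_of_nonneg_right h3
            (show 0 ≤ Real.log (C + 1) + Real.log N by linarith only [L0, K1, K0])
          linarith only [hs, l0, hu, K1, K0, hk, h4, d2, mul_nonneg_of_nonpos_of_nonpos (Mathlib.Tactic.Linarith.sub_nonpos_of_le d2) (le_of_lt (Mathlib.Tactic.Linarith.sub_neg_of_lt K1)), mul_nonneg_of_nonpos_of_nonpos (Mathlib.Tactic.Linarith.sub_nonpos_of_le d2) (Mathlib.Tactic.Linarith.sub_nonpos_of_le K0)]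
        have : (k : ℝ) + 1 ≤ f.natDegree := by exact_mod_cast this
        linarith only [this]
      · have : k + 2 ≤ f.natDegree := by
          by_contra hh
          have h3 : (f.natDegree : ℝ) ≤ k + 1 := by
            exact_mod_cast (by omega : f.natDegree ≤ k + 1)
          have h4 := mul_le_mul_of_nonneg_right h3 L0.le
          have h5 := mul_nonneg k0 (show 0 ≤ Real.log (C + 1) by linarith only [K1, K0])
          linarith only [h2, hs, hm, hu, hk, ha, h4, h5]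
        have : (k : ℝ) + 2 ≤ f.natDegree := by exact_mod_cast this
        linarith only [this]
    have := mul_le_mul_of_nonneg_right kk (show 0 ≤ (1 + c) * Real.log N by positivity)
    linarith only [hs, hb, this]

open Classical in
theorem largest_of_smooth (d : ℕ) (hd : 2 ≤ d) {δ α : ℝ} (hδ : 0 < δ) (hα : 0 < α) :
    ∃ c : ℝ, 0 < c ∧ ∀ f : ℤ[X], Irreducible f → f.natDegree = d →
      (∀ᶠ N : ℕ in atTop, α * N ≤
        (((Icc 1 N).filter fun x : ℕ => (1 + δ) * Real.log N ≤ lam1 f N x).card : ℝ)) →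
      ∀ᶠ N : ℕ in atTop, c * N ≤ (((Icc 1 N).filter fun n : ℕ =>
        ∃ p : ℕ, p.Prime ∧ (p : ℤ) ∣ f.eval (n : ℤ) ∧ (N : ℝ) ^ (1 + c) < p).card : ℝ) := by
  have d2 : (2 : ℝ) ≤ d := by exact_mod_cast hd
  have hc : 0 < α / (4 * d) := by positivity
  have ec : α = 4 * d * (α / (4 * d)) := by field_simp
  refine ⟨α / (4 * d), hc, fun f hf hfd hA => ?_⟩
  generalize α / (4 * d) = c at hc ec ⊢
  subst hfd
  obtain ⟨C, hC, hup⟩ := upper_C f
  have hε : 0 < α / 8 := by positivity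
  filter_upwards [hA, sum_lam1_le hf hd (C + 1) hε, lower_C hf hd hε, eventually_ge_atTop 2,
    tendsto_log_C.eventually_ge_atTop (Real.log C),
    (tendsto_log_C.const_mul_atTop hδ).eventually_gt_atTop (Real.log C)] with N a1 a2 a3 hN h1 h2
  have L0 : 0 < Real.log N := Real.log_pos (by exact_mod_cast hN)
  have key : ∑ n ∈ Icc 1 N, Real.log ((f.eval (n : ℤ)).natAbs : ℝ) ≤
      ∑ n ∈ Icc 1 N, (lam1 f ((C + 1) * N) n + (1 + c) * Real.log N * (f.natDegree - 1 -
        if (1 + δ) * Real.log N ≤ lam1 f N n then 1 else 0) +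
        (if ∃ p : ℕ, p.Prime ∧ (p : ℤ) ∣ f.eval (n : ℤ) ∧ (N : ℝ) ^ (1 + c) < p then 1 else 0) *
          ((f.natDegree + 1) * Real.log N)) := by
    refine sum_le_sum fun n hn => ?_
    have hn' := mem_Icc.mp hn
    refine point_C (δ := δ) hf hd hc hC hN (hup N n hn'.1 hn'.2) h1 h2 _ _ ?_ ?_
    · split_ifs with h
      · exact Or.inr ⟨rfl, h⟩
      · exact Or.inl rfl
    · split_ifs with h
      · exact Or.inl rfl
      · exact Or.inr ⟨rfl, h⟩
  rw [sum_add_distrib, sum_add_distrib, ← mul_sum, ← sum_mul, sum_sub_distrib, sum_boole,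
    sum_boole, sum_const, Nat.card_Icc, Nat.add_sub_cancel, nsmul_eq_mul] at key
  generalize (((Icc 1 N).filter fun x : ℕ => (1 + δ) * Real.log N ≤ lam1 f N x).card : ℝ) = A
    at a1 key
  generalize (((Icc 1 N).filter fun n : ℕ =>
    ∃ p : ℕ, p.Prime ∧ (p : ℤ) ∣ f.eval (n : ℤ) ∧ (N : ℝ) ^ (1 + c) < p).card : ℝ) = X at key ⊢
  generalize (f.natDegree : ℝ) = D at *
  have N0 : (0 : ℝ) ≤ N := Nat.cast_nonneg _
  have k2 : (D - α / 8) * N ≤ (1 + α / 8) * N + (1 + c) * (N * (D - 1) - A) + X * (D + 1) := by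
    refine le_of_mul_le_mul_right ?_ L0
    linarith only [a2, a3, key]
  have A0 : 0 ≤ c * A := mul_nonneg hc.le (le_trans (by positivity) a1)
  refine le_of_mul_le_mul_right ?_ (show 0 < D + 1 by linarith only [d2])
  have e1 : α * N = 4 * (D * c * N) := by rw [ec]; ring
  have p1 : 0 ≤ D * c * N := by positivity
  linarith only [a1, k2, A0, e1, p1]

end Pool.Agent.Work.MP_51e72e_nt.LP
end

-- merged part: Pool.Agent.Work.MP_51e72e_nt.LPFinal
section
/-!
Large prime factors of the values of an irreducible polynomial.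
-/

set_option autoImplicit false

namespace Pool.Agent.Work.MP_51e72e_nt.LP

open Finset Polynomial Filter

open Classical in
theorem largest_all (d : ℕ) (hd : 2 ≤ d) : ∃ c : ℝ, 0 < c ∧ ∀ f : ℤ[X], Irreducible f →
    f.natDegree = d → ∀ᶠ N : ℕ in atTop, c * N ≤ (((Icc 1 N).filter fun n : ℕ =>
      ∃ p : ℕ, p.Prime ∧ (p : ℤ) ∣ f.eval (n : ℤ) ∧ (N : ℝ) ^ (1 + c) < p).card : ℝ) := by
  obtain ⟨n, e0, e, h1, h2, h3, hL⟩ := Deg.level_all' d hd
  obtain ⟨δ, α, hδ, hα, hS⟩ := smooth_of_level d n e0 e hd h1 h2 h3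
  obtain ⟨c, hc, hC⟩ := largest_of_smooth d hd hδ hα
  refine ⟨c, hc, fun f hf hdf => hC f hf hdf ?_⟩
  rcases lt_or_gt_of_ne (leadingCoeff_ne_zero.mpr hf.ne_zero) with h | h
  · have i1 : Irreducible (-f) := (Associated.refl f).neg_right.irreducible hf
    have i2 : (-f).natDegree = d := by simpa using hdf
    have i3 : 0 < (-f).leadingCoeff := by simpa using h
    simpa only [lam1, eval_neg, Int.natAbs_neg] using hS (-f) i1 i2 i3 (hL _ i1 i2 i3)
  · exact hS f hf hdf h (hL f hf hdf h)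

end Pool.Agent.Work.MP_51e72e_nt.LP
end
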