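import Pool.Agent.Work.MP_51e72e_nt.DegExc
import Pool.Agent.Work.MP_51e72e_nt.CubMain1

-- merged part: Pool.Agent.Work.MP_51e72e_nt.LPDefs
section
/-!
The logarithm of the smooth part of a polynomial value.
-/

set_option autoImplicit false

namespace Pool.Agent.Work.MP_51e72e_nt.LP

open Finset Polynomial

/-- logarithm of the part of `f n` made of the primes `p ≤ X` -/
noncomputable def lam1 (f : ℤ[X]) (X : ℕ) (n : ℤ) : ℝ :=
  ∑ p ∈ (f.eval n).natAbs.primeFactors.filter (fun p => p ≤ X),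
    ((f.eval n).natAbs.factorization p : ℝ) * Real.log p

end Pool.Agent.Work.MP_51e72e_nt.LP
end

-- merged part: Pool.Agent.Work.MP_51e72e_nt.LPSmooth1
section
/-!
The multilinear level of distribution summed over all classes to the small modulus.
-/

set_option autoImplicit false

namespace Pool.Agent.Work.MP_51e72e_nt.LP

open Finset Polynomial Pool.Agent.Work.MP_51e72e_nt.Cub Pool.Agent.Work.MP_51e72e_nt.Deg

lemma exists_crt {κ : Type} (t : Finset κ) (y : κ → ℕ) (s : κ → ℤ)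
    (h : ∀ k k', k ≠ k' → Nat.Coprime (y k) (y k')) : ∃ x : ℤ, ∀ k ∈ t, (y k : ℤ) ∣ x - s k := by
  classical
  induction t using Finset.induction_on with
  | empty => exact ⟨0, by simp⟩
  | insert k0 t hk ih =>
    obtain ⟨x, hx⟩ := ih
    have hc : Nat.Coprime (∏ k ∈ t, y k) (y k0) :=
      Nat.Coprime.prod_left fun k hk' => h k k0 fun e => hk (e ▸ hk')
    obtain ⟨h1, h2⟩ := Sv.crt_spec hc x (s k0)
    refine ⟨Sv.crt (∏ k ∈ t, y k) (y k0) x (s k0), fun k hk' => ?_⟩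
    rcases mem_insert.mp hk' with rfl | hk'
    · exact h2
    · simpa using ((Int.natCast_dvd_natCast.2 (dvd_prod_of_mem y hk')).trans h1).add (hx k hk')

lemma dvd_iff_three {n m W : ℕ} {y : Fin n → ℕ} {r c x t : ℤ} {s : Fin n → ℤ}
    (c0 : Nat.Coprime m W) (c1 : ∀ k, Nat.Coprime m (y k)) (c2 : ∀ k, Nat.Coprime (y k) W)
    (c3 : ∀ k k', k ≠ k' → Nat.Coprime (y k) (y k')) (h1 : (m : ℤ) ∣ x - r)
    (h2 : (W : ℤ) ∣ x - c) (h3 : ∀ k, (y k : ℤ) ∣ x - s k) :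
    ((m * (W * ∏ k, y k) : ℕ) : ℤ) ∣ t - x ↔
      ((m : ℤ) ∣ t - r ∧ ∀ k, (y k : ℤ) ∣ t - s k) ∧ (W : ℤ) ∣ t - c := by
  push_cast
  constructor
  · intro h
    refine ⟨⟨by simpa using (dvd_of_mul_right_dvd h).add h1, fun k => ?_⟩,
      by simpa using (dvd_of_mul_right_dvd (dvd_of_mul_left_dvd h)).add h2⟩
    simpa using ((dvd_prod_of_mem (fun k => (y k : ℤ)) (mem_univ k)).trans
      (dvd_of_mul_left_dvd (dvd_of_mul_left_dvd h))).add (h3 k)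
  · rintro ⟨⟨a1, a3⟩, a2⟩
    refine IsCoprime.mul_dvd (IsCoprime.mul_right (Nat.isCoprime_iff_coprime.2 c0)
      (IsCoprime.prod_right fun k _ => Nat.isCoprime_iff_coprime.2 (c1 k)))
      (by simpa using a1.sub h1) (IsCoprime.mul_dvd
        (IsCoprime.prod_right fun k _ => Nat.isCoprime_iff_coprime.2 (c2 k).symm)
        (by simpa using a2.sub h2) (Fintype.prod_dvd_of_coprime
          (fun k k' hk => Nat.isCoprime_iff_coprime.2 (c3 k k' hk)) fun k => ?_))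
    simpa using (a3 k).sub (h3 k)

lemma level_classes {f : ℤ[X]} {n W N L M0 M1 Dm : ℕ} {Y0 Y1 : ℕ → ℕ} {E : ℝ}
    (hL : LevelN f n W N L M0 M1 Dm Y0 Y1 E) (hW : 0 < W) {ι κ : Type} (I : Finset ι)
    (J : ℕ → Finset κ) (m : ι → ℕ) (r : ι → ℤ) (y : κ → ℕ) (s : κ → ℤ)
    (hm : ∀ i ∈ I, Squarefree (m i) ∧ Nat.Coprime (m i) W ∧ M0 ≤ m i ∧ m i ≤ M1 ∧
      (m i : ℤ) ∣ f.eval (r i))
    (hI : ∀ v : ℕ, (I.filter fun i => m i = v).card ≤ Dm)
    (hy : ∀ k < n, ∀ j ∈ J k, Y0 k ≤ y j ∧ y j ≤ Y1 k ∧ Nat.Coprime (y j) W)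
    (hJ : ∀ k < n, ∀ v : ℕ, ((J k).filter fun j => y j = v).card ≤ Dm)
    (hyy : ∀ k < n, ∀ k' < n, k ≠ k' → ∀ j ∈ J k, ∀ j' ∈ J k', Nat.Coprime (y j) (y j'))
    (hmy : ∀ i ∈ I, ∀ k < n, ∀ j ∈ J k, Nat.Coprime (m i) (y j)) (a : ι → ℝ)
    (b : (Fin n → κ) → ℝ) (ha : ∀ i ∈ I, |a i| ≤ 1) (hb : ∀ j ∈ tup J n, |b j| ≤ 1)
    (q : ℤ → Prop) [DecidablePred q] (hq : ∀ u v : ℤ, (W : ℤ) ∣ u - v → q u → q v) :
    |∑ i ∈ I, ∑ j ∈ tup J n, a i * b j * ((((Icc 1 (N + L) ×ˢ range L).filter fun z : ℕ × ℕ =>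
        ((m i : ℤ) ∣ ((z.1 : ℤ) - z.2) - r i ∧ ∀ k, (y (j k) : ℤ) ∣ ((z.1 : ℤ) - z.2) - s (j k)) ∧
          q ((z.1 : ℤ) - z.2)).card : ℝ) / L
      - ((range W).filter fun c : ℕ => q c).card * (((N : ℝ) + L) / (m i * (W * ∏ k, y (j k) : ℕ))))|
      ≤ W * E := by
  have mem : ∀ j ∈ tup J n, ∀ k : Fin n, j k ∈ J k := fun j hj => Fintype.mem_piFinset.mp hj
  have c3 : ∀ j ∈ tup J n, ∀ k k' : Fin n, k ≠ k' → Nat.Coprime (y (j k)) (y (j k')) :=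
    fun j hj k k' hk => hyy k k.2 k' k'.2 (fun e => hk (Fin.ext e)) _ (mem j hj k) _ (mem j hj k')
  have hx : ∀ (c : ℤ) (i : ι) (j : Fin n → κ), ∃ x : ℤ, i ∈ I → j ∈ tup J n →
      (m i : ℤ) ∣ x - r i ∧ (W : ℤ) ∣ x - c ∧ ∀ k, (y (j k) : ℤ) ∣ x - s (j k) := by
    intro c i j
    by_cases h : i ∈ I ∧ j ∈ tup J n
    · obtain ⟨x, hx⟩ := exists_crt univ (fun k => y (j k)) (fun k => s (j k)) (c3 j h.2)
      have d1 : Nat.Coprime W (∏ k, y (j k)) :=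
        Nat.Coprime.prod_right fun k _ => (hy k k.2 _ (mem j h.2 k)).2.2.symm
      have d2 : Nat.Coprime (m i) (W * ∏ k, y (j k)) := Nat.Coprime.mul_right (hm i h.1).2.1
        (Nat.Coprime.prod_right fun k _ => hmy i h.1 k k.2 _ (mem j h.2 k))
      obtain ⟨e1, e2⟩ := Sv.crt_spec d1 c x
      obtain ⟨e3, e4⟩ := Sv.crt_spec d2 (r i) (Sv.crt W (∏ k, y (j k)) c x)
      rw [Nat.cast_mul] at e4
      refine ⟨_, fun _ _ => ⟨e3, by simpa using (dvd_of_mul_right_dvd e4).add e1, fun k => ?_⟩⟩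
      have e5 := Int.natCast_dvd_natCast.2 (dvd_prod_of_mem (fun k => y (j k)) (mem_univ k))
      simpa using ((e5.trans (dvd_of_mul_left_dvd e4)).add (e5.trans e2)).add (hx k (mem_univ k))
    · exact ⟨0, fun h1 h2 => absurd ⟨h1, h2⟩ h⟩
  choose x hx using hx
  have key : ∀ c : ℕ, _ := fun c => hL ι κ I J m r y s c (x c) a b
    ⟨hm, hI, hy, hJ, hyy, hmy, fun i hi j hj => hx c i j hi hj⟩ ha hb
  have E0 : 0 ≤ E := (abs_nonneg _).trans (key 0)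
  have h1 := (abs_sum_le_sum_abs _ _).trans
    (sum_le_card_nsmul ((range W).filter fun c : ℕ => q c) _ E fun c _ => key c)
  rw [nsmul_eq_mul] at h1
  refine le_trans (le_of_eq ?_) (h1.trans (mul_le_mul_of_nonneg_right ?_ E0))
  · congr 1
    rw [sum_comm (s := (range W).filter _)]
    refine sum_congr rfl fun i hi => ?_
    rw [sum_comm (s := (range W).filter _)]
    refine sum_congr rfl fun j hj => ?_
    rw [← mul_sum, sum_sub_distrib, sum_const, nsmul_eq_mul]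
    congr 2
    simp only [cntw, card_filter, ← sum_div, Nat.cast_sum]
    congr 1
    rw [sum_comm]
    refine sum_congr rfl fun z _ => ?_
    obtain ⟨-, c0, -⟩ := hm i hi
    have e := fun c : ℕ => dvd_iff_three (t := (z.1 : ℤ) - z.2) c0
      (fun k => hmy i hi k k.2 _ (mem j hj k)) (fun k => (hy k k.2 _ (mem j hj k)).2.2) (c3 j hj)
      (hx c i j hi hj).1 (hx c i j hi hj).2.1 (hx c i j hi hj).2.2
    simp only [e]
    have e2 := Sv.sum_class hW q hq ((z.1 : ℤ) - z.2)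
    by_cases h : (m i : ℤ) ∣ ((z.1 : ℤ) - z.2) - r i ∧
        ∀ k, (y (j k) : ℤ) ∣ ((z.1 : ℤ) - z.2) - s (j k)
    · simp only [h, true_and, implies_true, Nat.cast_ite, Nat.cast_one, Nat.cast_zero]
      exact e2.symm
    · simp only [h, false_and, if_false, Nat.cast_zero, sum_const_zero]
  · exact_mod_cast (card_filter_le _ _).trans_eq (card_range W)

end Pool.Agent.Work.MP_51e72e_nt.LP
end

-- merged part: Pool.Agent.Work.MP_51e72e_nt.LPSmooth2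
section
/-!
Pairs of a prime in a window and a root modulo this prime.
-/

set_option autoImplicit false

namespace Pool.Agent.Work.MP_51e72e_nt.LP

open Finset Polynomial Pool.Agent.Work.MP_51e72e_nt.Cub Pool.Agent.Work.MP_51e72e_nt.Deg

/-- primes of a window with a root -/
def Pr (f : ℤ[X]) (B a : ℕ) : Finset (ℕ × ℕ) :=
  (Ioc (B ^ a) (B ^ (a + 1)) ×ˢ range (B ^ (a + 1))).filter fun z =>
    z.1.Prime ∧ z.2 < z.1 ∧ (z.1 : ℤ) ∣ f.eval (z.2 : ℤ)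

variable {f : ℤ[X]} {B a : ℕ}

lemma mem_Pr {z : ℕ × ℕ} : z ∈ Pr f B a ↔ B ^ a < z.1 ∧ z.1 ≤ B ^ (a + 1) ∧ z.1.Prime ∧
    z.2 < z.1 ∧ (z.1 : ℤ) ∣ f.eval (z.2 : ℤ) := by
  simp only [Pr, mem_filter, mem_product, mem_Ioc, mem_range]
  constructor
  · tauto
  · rintro ⟨h1, h2, h3, h4, h5⟩
    exact ⟨⟨⟨h1, h2⟩, h4.trans_le h2⟩, h3, h4, h5⟩

lemma card_Pr_fiber {v : ℕ} (hv : v ∈ (Ioc (B ^ a) (B ^ (a + 1))).filter Nat.Prime) :
    ((Pr f B a).filter fun z => z.1 = v).card = omega f v := by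
  obtain ⟨h1, h2⟩ := mem_filter.mp hv
  rw [mem_Ioc] at h1
  refine card_bij (fun z _ => z.2) (fun z hz => ?_) (fun z hz z' hz' h => ?_) fun r hr => ?_
  · obtain ⟨a1, rfl⟩ := mem_filter.mp hz
    rw [mem_Pr] at a1
    exact mem_filter.mpr ⟨mem_range.mpr a1.2.2.2.1, a1.2.2.2.2⟩
  · exact Prod.ext ((mem_filter.mp hz).2.trans (mem_filter.mp hz').2.symm) h
  · obtain ⟨a1, a2⟩ := mem_filter.mp hr
    exact ⟨(v, r), mem_filter.mpr ⟨mem_Pr.mpr ⟨h1.1, h1.2, h2, mem_range.mp a1, a2⟩, rfl⟩, rfl⟩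

lemma fst_mem {z : ℕ × ℕ} (hz : z ∈ Pr f B a) :
    z.1 ∈ (Ioc (B ^ a) (B ^ (a + 1))).filter Nat.Prime :=
  mem_filter.mpr ⟨mem_Ioc.mpr ⟨(mem_Pr.mp hz).1, (mem_Pr.mp hz).2.1⟩, (mem_Pr.mp hz).2.2.1⟩

lemma card_Pr_le (hf : f.IsPrimitive) (v : ℕ) :
    ((Pr f B a).filter fun z => z.1 = v).card ≤ f.natDegree := by
  by_cases hv : v ∈ (Ioc (B ^ a) (B ^ (a + 1))).filter Nat.Prime
  · rw [card_Pr_fiber hv]
    exact omega_le_natDegree hf (mem_filter.mp hv).2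
  · rw [card_eq_zero.mpr (filter_eq_empty_iff.mpr fun z hz (e : z.1 = v) => hv (e ▸ fst_mem hz))]
    exact Nat.zero_le _

lemma sum_Pr : ∑ z ∈ Pr f B a, (1 : ℝ) / z.1 =
    ∑ p ∈ (Ioc (B ^ a) (B ^ (a + 1))).filter Nat.Prime, (omega f p : ℝ) / p := by
  rw [← sum_fiberwise_of_maps_to fun z hz => fst_mem hz]
  refine sum_congr rfl fun p hp => ?_
  rw [sum_congr rfl fun z hz => by rw [(mem_filter.mp hz).2], sum_const, card_Pr_fiber hp,
    nsmul_eq_mul, mul_one_div]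

lemma mem_pf {z : ℕ × ℕ} (hz : z ∈ Pr f B a) {t : ℤ} (h0 : f.eval t ≠ 0)
    (h : (z.1 : ℤ) ∣ t - z.2) : z.1 ∈ (f.eval t).natAbs.primeFactors :=
  Nat.mem_primeFactors.mpr ⟨(mem_Pr.mp hz).2.2.1, Int.natCast_dvd.mp
    (Sv.root_congr (dvd_sub_comm.mp h) (mem_Pr.mp hz).2.2.2.2), Int.natAbs_ne_zero.mpr h0⟩

lemma card_hit (hB : 2 ≤ B) (ha : 1 ≤ a) {t : ℤ} {M : ℕ} (h0 : f.eval t ≠ 0)
    (h1 : (f.eval t).natAbs ≤ B ^ M) :
    ((Pr f B a).filter fun z => (z.1 : ℤ) ∣ t - z.2).card ≤ M := by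
  have h2 : ((Pr f B a).filter fun z => (z.1 : ℤ) ∣ t - z.2).card ≤
      ((f.eval t).natAbs.primeFactors.filter fun p => B ≤ p).card := by
    refine card_le_card_of_injOn (fun z => z.1) (fun z hz => ?_) fun z hz z' hz' h => ?_
    · obtain ⟨a1, a2⟩ := mem_filter.mp hz
      exact mem_filter.mpr ⟨mem_pf a1 h0 a2,
        (Nat.le_self_pow (by omega) B).trans (mem_Pr.mp a1).1.le⟩
    · obtain ⟨a1, a2⟩ := mem_filter.mp hz
      obtain ⟨b1, b2⟩ := mem_filter.mp hz'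
      simp only at h
      have a3 := (mem_Pr.mp a1).2.2.2.1
      have b3 := (mem_Pr.mp b1).2.2.2.1
      rw [← h] at b2 b3
      have h6 : (z.1 : ℤ) ∣ (z.2 : ℤ) - z'.2 := by simpa using b2.sub a2
      have := Int.eq_zero_of_abs_lt_dvd h6 (abs_lt.2 ⟨by omega, by omega⟩)
      exact Prod.ext h (by omega)
  refine h2.trans ((Nat.pow_le_pow_iff_right hB).mp (le_trans ?_ h1))
  refine (pow_card_le_prod _ (fun p => p) _ fun p hp => (mem_filter.mp hp).2).trans ?_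
  exact Nat.le_of_dvd (Int.natAbs_pos.mpr h0) ((prod_dvd_prod_of_subset _ _ _
    (filter_subset _ _)).trans (Nat.prod_primeFactors_dvd _))

lemma ne_of_Pr {a' : ℕ} (hB : 1 ≤ B) (h : a ≠ a') {z z' : ℕ × ℕ} (hz : z ∈ Pr f B a)
    (hz' : z' ∈ Pr f B a') : z.1 ≠ z'.1 := by
  intro e
  obtain ⟨a1, a2, -⟩ := mem_Pr.mp hz
  obtain ⟨b1, b2, -⟩ := mem_Pr.mp hz'
  rcases lt_or_gt_of_ne h with h | h
  · have := Nat.pow_le_pow_right hB (show a + 1 ≤ a' from h)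
    omega
  · have := Nat.pow_le_pow_right hB (show a' + 1 ≤ a from h)
    omega

lemma le_lam1 {n N : ℕ} (hB : 1 ≤ B) {ak : ℕ → ℕ} (h1 : ∀ k < n, a ≠ ak k)
    (h2 : ∀ k < n, ∀ k' < n, k ≠ k' → ak k ≠ ak k') (h3 : B ^ (a + 1) ≤ N)
    (h4 : ∀ k < n, B ^ (ak k + 1) ≤ N) {t : ℤ} (h0 : f.eval t ≠ 0) {i : ℕ × ℕ}
    (hi : i ∈ Pr f B a) {j : Fin n → ℕ × ℕ} (hj : ∀ k : Fin n, j k ∈ Pr f B (ak k))
    (di : (i.1 : ℤ) ∣ t - i.2) (dj : ∀ k, ((j k).1 : ℤ) ∣ t - (j k).2) :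
    ((a + ∑ k ∈ range n, ak k : ℕ) : ℝ) * Real.log B ≤ lam1 f N t := by
  have hl : ∀ {b : ℕ} {z : ℕ × ℕ}, z ∈ Pr f B b → b * Real.log B ≤ Real.log z.1 := fun hz => by
    rw [← Real.log_pow]
    exact Real.log_le_log (by positivity) (by exact_mod_cast (mem_Pr.mp hz).1.le)
  have hs : insert i.1 (image (fun k => (j k).1) univ) ⊆
      (f.eval t).natAbs.primeFactors.filter fun p => p ≤ N := by
    intro p hp
    rcases mem_insert.mp hp with rfl | hp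
    · exact mem_filter.mpr ⟨mem_pf hi h0 di, (mem_Pr.mp hi).2.1.trans h3⟩
    · obtain ⟨k, -, rfl⟩ := mem_image.mp hp
      exact mem_filter.mpr ⟨mem_pf (hj k) h0 (dj k), (mem_Pr.mp (hj k)).2.1.trans (h4 k k.2)⟩
  calc _ = a * Real.log B + ∑ k : Fin n, (ak k : ℝ) * Real.log B := by
        rw [Fin.sum_univ_eq_sum_range (fun k => (ak k : ℝ) * Real.log B), ← sum_mul]
        push_cast
        ring
    _ ≤ Real.log i.1 + ∑ k : Fin n, Real.log (j k).1 :=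
        add_le_add (hl hi) (sum_le_sum fun k _ => hl (hj k))
    _ = ∑ p ∈ insert i.1 (image (fun k => (j k).1) univ), Real.log p := by
        rw [sum_insert, sum_image]
        · intro k _ k' _ e
          by_contra hne
          exact ne_of_Pr hB (h2 k k.2 k' k'.2 fun e => hne (Fin.ext e)) (hj k) (hj k') e
        · intro hp
          obtain ⟨k, -, e⟩ := mem_image.mp hp
          exact ne_of_Pr hB (h1 k k.2) hi (hj k) e.symm
    _ ≤ ∑ p ∈ (f.eval t).natAbs.primeFactors.filter fun p => p ≤ N, Real.log p :=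
        sum_le_sum_of_subset_of_nonneg hs fun p _ _ => Real.log_natCast_nonneg p
    _ ≤ _ := sum_le_sum fun p hp => le_mul_of_one_le_left (Real.log_natCast_nonneg p) (by
        have := Nat.mem_primeFactors.mp (mem_filter.mp hp).1
        exact_mod_cast this.1.factorization_pos_of_dvd this.2.2 this.2.1)

lemma eval_ne_zero (hf : Irreducible f) (hd : 2 ≤ f.natDegree) (t : ℤ) : f.eval t ≠ 0 := by
  intro h
  have : f.natDegree = 1 :=
    natDegree_eq_of_degree_eq_some (degree_eq_one_of_irreducible_of_root hf h)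
  omega

lemma eval_le (f : ℤ[X]) : ∃ C : ℕ, ∀ (A : ℕ) (t : ℤ), 1 ≤ A → t.natAbs ≤ A →
    (f.eval t).natAbs ≤ C * A ^ f.natDegree := by
  refine ⟨∑ i ∈ range (f.natDegree + 1), (f.coeff i).natAbs, fun A t hA ht => ?_⟩
  rw [eval_eq_sum_range, sum_mul]
  refine (Int.natAbs_sum_le _ _).trans (sum_le_sum fun i hi => ?_)
  rw [Int.natAbs_mul, Int.natAbs_pow]
  exact Nat.mul_le_mul_left _ ((Nat.pow_le_pow_left ht _).trans
    (Nat.pow_le_pow_right hA (Nat.le_of_lt_succ (mem_range.mp hi))))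

end Pool.Agent.Work.MP_51e72e_nt.LP
end
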