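import Pool.Agent.Lib.ANT.SieveSums
import Mathlib.Analysis.SpecialFunctions.Integrals.Basic

/-!
Lower bounds for convolutions of Selberg sums.
-/

set_option autoImplicit false
set_option maxHeartbeats 400000

namespace Pool.Agent.Work.MP_51e72e_nt

open Finset Pool.Agent.Lib.ANT MeasureTheory

lemma integral_step_le {a b l g : ℝ} (hab : a ≤ b) (hg : 0 ≤ g) :
    ∫ t in a..b, (if l ≤ t then g else 0) ≤ g * max (b - max l a) 0 := by
  have e : (fun t : ℝ => if l ≤ t then g else 0) = (Set.Ici l).indicator (fun _ => g) := by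
    ext t; simp [Set.indicator]
  rw [e, intervalIntegral.integral_of_le hab, setIntegral_indicator measurableSet_Ici,
    setIntegral_const, smul_eq_mul, mul_comm, ← Real.volume_real_Icc]
  refine mul_le_mul_of_nonneg_left (measureReal_mono ?_ (by simp)) hg
  rintro t ⟨⟨h1, h2⟩, h3⟩
  exact ⟨max_le h3 h1.le, h2⟩

lemma layer (Ps : Finset ℕ) (hPs : ∀ p ∈ Ps, p.Prime) (G : ℕ → ℝ) (hG : ∀ p ∈ Ps, 0 ≤ G p)
    {c E z v0 v1 : ℝ} (m : ℕ)
    (H : ∀ y, 1 ≤ y → y ≤ z → c * (max (Real.log y - E) 0) ^ m / m.factorial ≤ sqfSum Ps G y)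
    (h0 : 0 ≤ v0) (h01 : v0 ≤ v1) (h1 : Real.exp v1 ≤ z) :
    c / (m + 1).factorial * ((max (v1 - E) 0) ^ (m + 1) - (max (v0 - E) 0) ^ (m + 1))
      ≤ ∑ S ∈ Ps.powerset, (∏ p ∈ S, G p) *
        max (v1 - max (Real.log ((∏ p ∈ S, p : ℕ) : ℝ)) v0) 0 := by
  have hS : ∀ S ∈ Ps.powerset, 0 ≤ ∏ p ∈ S, G p := fun S hS =>
    prod_nonneg fun p hp => hG p (mem_powerset.mp hS hp)
  rcases le_total v1 E with h | h
  · rw [max_eq_right (by linarith), max_eq_right (by linarith), sub_self, mul_zero]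
    exact sum_nonneg fun S h => mul_nonneg (hS S h) (le_max_right _ _)
  have ha : max v0 E ≤ v1 := max_le h01 h
  have e1 : c / (m + 1).factorial * ((max (v1 - E) 0) ^ (m + 1) - (max (v0 - E) 0) ^ (m + 1))
      = ∫ t in (max v0 E)..v1, c / m.factorial * (t - E) ^ m := by
    rw [intervalIntegral.integral_const_mul, intervalIntegral.integral_comp_sub_right (fun t => t ^ m),
      integral_pow, max_eq_left (sub_nonneg.mpr h), ← max_sub_sub_right, sub_self,
      Nat.factorial_succ]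
    have : (m.factorial : ℝ) ≠ 0 := by positivity
    push_cast
    field_simp
  have hint : ∀ S ∈ Ps.powerset, IntervalIntegrable (fun t : ℝ =>
      if Real.log ((∏ p ∈ S, p : ℕ) : ℝ) ≤ t then ∏ p ∈ S, G p else 0) volume (max v0 E) v1 := by
    intro S h
    refine Monotone.intervalIntegrable (fun s t hst => ?_)
    split_ifs with h1 h2
    · exact le_rfl
    · exact absurd (h1.trans hst) h2
    · exact hS S h
    · exact le_rfl
  rw [e1]
  calc _ ≤ ∫ t in (max v0 E)..v1, ∑ S ∈ Ps.powerset,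
        (if Real.log ((∏ p ∈ S, p : ℕ) : ℝ) ≤ t then ∏ p ∈ S, G p else 0) := by
        refine intervalIntegral.integral_mono_on ha
          (Continuous.intervalIntegrable (by fun_prop) _ _) ?_ fun t ht => ?_
        · have := IntervalIntegrable.sum Ps.powerset hint
          rwa [sum_fn] at this
        · have t0 : 0 ≤ t := h0.trans ((le_max_left _ _).trans ht.1)
          have := H (Real.exp t) (Real.one_le_exp t0) ((Real.exp_le_exp.mpr ht.2).trans h1)
          rw [Real.log_exp, max_eq_left (sub_nonneg.mpr ((le_max_right _ _).trans ht.1))] at this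
          refine le_trans (le_of_eq (by ring)) (this.trans (le_of_eq ?_))
          refine sum_congr rfl fun S h => if_congr ?_ rfl rfl
          exact (Real.log_le_iff_le_exp (Nat.cast_pos.mpr
            (prod_pos fun p hp => (hPs p (mem_powerset.mp h hp)).pos))).symm
    _ = _ := intervalIntegral.integral_finsetSum hint
    _ ≤ _ := by
        refine sum_le_sum fun S h => (integral_step_le ha (hS S h)).trans
          (mul_le_mul_of_nonneg_left (max_le_max_right _ ?_) (hS S h))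
        linarith only [max_le_max_left (Real.log ((∏ p ∈ S, p : ℕ) : ℝ)) (le_max_left v0 E)]

lemma conv_le (Ps : Finset ℕ) (hPs : ∀ p ∈ Ps, 0 < p) (g1 g2 : ℕ → ℝ)
    (h1 : ∀ p ∈ Ps, 0 ≤ g1 p) (h2 : ∀ p ∈ Ps, 0 ≤ g2 p) (y : ℝ) (hy : 0 ≤ y) :
    ∑ S ∈ Ps.powerset, (∏ p ∈ S, g2 p) * sqfSum Ps g1 (y / (∏ p ∈ S, p : ℕ))
      ≤ sqfSum Ps (fun p => g1 p + g2 p + g1 p * g2 p) y := by
  induction Ps using Finset.induction_on generalizing y with
  | empty => simp [sqfSum]
  | insert p Ps hp ih =>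
    have hp0 := hPs p (mem_insert_self _ _)
    have hp1 : (1 : ℝ) ≤ p := by exact_mod_cast hp0
    have ih' := ih (fun q hq => hPs q (mem_insert_of_mem hq))
      (fun q hq => h1 q (mem_insert_of_mem hq)) (fun q hq => h2 q (mem_insert_of_mem hq))
    have a1 := h1 p (mem_insert_self _ _)
    have a2 := h2 p (mem_insert_self _ _)
    have hg0 : ∀ q ∈ Ps, 0 ≤ g1 q + g2 q + g1 q * g2 q := fun q hq => by
      have b1 := h1 q (mem_insert_of_mem hq)
      have b2 := h2 q (mem_insert_of_mem hq)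
      positivity
    have e1 := ih' y hy
    have e2 := ih' (y / p) (by positivity)
    have e3 := (ih' (y / p / p) (by positivity)).trans
      (sqfSum_mono hg0 (fun _ _ => le_rfl) (div_le_self (by positivity) hp1))
    rw [sum_powerset_insert hp, sqfSum_insert hp hp0]
    have f1 : ∑ S ∈ Ps.powerset, (∏ q ∈ S, g2 q) *
        sqfSum (insert p Ps) g1 (y / (∏ q ∈ S, q : ℕ))
        = ∑ S ∈ Ps.powerset, (∏ q ∈ S, g2 q) * sqfSum Ps g1 (y / (∏ q ∈ S, q : ℕ))
          + g1 p * ∑ S ∈ Ps.powerset, (∏ q ∈ S, g2 q) *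
            sqfSum Ps g1 (y / p / (∏ q ∈ S, q : ℕ)) := by
      rw [mul_sum, ← sum_add_distrib]
      refine sum_congr rfl fun S _ => ?_
      rw [sqfSum_insert hp hp0, div_right_comm y]; ring
    have f2 : ∑ S ∈ Ps.powerset, (∏ q ∈ insert p S, g2 q) *
        sqfSum (insert p Ps) g1 (y / (∏ q ∈ insert p S, q : ℕ))
        = g2 p * ∑ S ∈ Ps.powerset, (∏ q ∈ S, g2 q) * sqfSum Ps g1 (y / p / (∏ q ∈ S, q : ℕ))
          + g1 p * g2 p * ∑ S ∈ Ps.powerset, (∏ q ∈ S, g2 q) *
            sqfSum Ps g1 (y / p / p / (∏ q ∈ S, q : ℕ)) := by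
      rw [mul_sum, mul_sum, ← sum_add_distrib]
      refine sum_congr rfl fun S hS => ?_
      have hpS : p ∉ S := fun h => hp (mem_powerset.mp hS h)
      rw [sqfSum_insert hp hp0, prod_insert hpS, prod_insert hpS, Nat.cast_mul, ← div_div,
        div_right_comm (y / p)]
      ring
    rw [f1, f2]
    nlinarith only [e1, e2, a1, a2, e3, mul_le_mul_of_nonneg_left e2 a1, mul_le_mul_of_nonneg_left e2 a2,
      mul_le_mul_of_nonneg_left e3 (mul_nonneg a1 a2)]

theorem sqfSum_pow_lower {ι : Type*} (Ps : Finset ℕ) (hPs : ∀ p ∈ Ps, p.Prime) (I : Finset ι)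
    (g : ι → ℕ → ℝ) (hg : ∀ j ∈ I, ∀ p ∈ Ps, 0 ≤ g j p) {c E z : ℝ} (hc : 0 ≤ c) (hE : 0 ≤ E)
    (H : ∀ j ∈ I, ∀ y, 1 ≤ y → y ≤ z → c * (Real.log y - E) ≤ sqfSum Ps (g j) y) :
    ∀ y, 1 ≤ y → y ≤ z →
      c ^ I.card * (max (Real.log y - I.card * E) 0) ^ I.card / (I.card).factorial
        ≤ sqfSum Ps (fun p => (∏ j ∈ I, (1 + g j p)) - 1) y := by
  classical
  induction I using Finset.induction_on with
  | empty =>
    intro y hy _
    have := single_le_sum (f := fun T : Finset ℕ => if ((∏ p ∈ T, p : ℕ) : ℝ) ≤ y then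
      ∏ p ∈ T, ((∏ j ∈ (∅ : Finset ι), (1 + g j p)) - 1) else 0) (s := Ps.powerset)
      (fun T _ => by split_ifs; exacts [prod_nonneg fun _ _ => by simp, le_rfl])
      (empty_mem_powerset Ps)
    refine le_trans ?_ this
    simp [hy]
  | insert j I hj ih =>
    intro y y1 y2
    have ih' := ih (fun i hi => hg i (mem_insert_of_mem hi)) fun i hi => H i (mem_insert_of_mem hi)
    have hG : ∀ p ∈ Ps, 0 ≤ (∏ j ∈ I, (1 + g j p)) - 1 := fun p hp => sub_nonneg.mpr
      (one_le_prod fun i hi => by linarith [hg i (mem_insert_of_mem hi) p hp])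
    have hgj := hg j (mem_insert_self _ _)
    have y0 : 0 < y := by linarith
    have c1 := conv_le Ps (fun p hp => (hPs p hp).pos) (g j) _ hgj hG y y0.le
    have e : (fun p => g j p + ((∏ j ∈ I, (1 + g j p)) - 1) + g j p * ((∏ j ∈ I, (1 + g j p)) - 1))
        = fun p => (∏ j ∈ insert j I, (1 + g j p)) - 1 := by
      ext p; rw [prod_insert hj]; ring
    rw [e] at c1
    refine le_trans ?_ c1
    rw [card_insert_of_notMem hj]
    have hE' : 0 ≤ (I.card : ℝ) * E := by positivity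
    rcases le_total (Real.log y - E) 0 with h | h
    · rw [max_eq_right (by push_cast; linarith), zero_pow (Nat.succ_ne_zero _), mul_zero, zero_div]
      exact sum_nonneg fun S hS => mul_nonneg
        (prod_nonneg fun p hp => hG p (mem_powerset.mp hS hp)) (sqfSum_nonneg hgj _)
    have l := layer Ps hPs _ hG I.card ih' le_rfl h
      (((Real.exp_le_exp.mpr (sub_le_self _ hE)).trans_eq (Real.exp_log y0)).trans y2)
    rw [max_eq_right (a := 0 - _) (by linarith), zero_pow (Nat.succ_ne_zero _), sub_zero] at l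
    have l2 := mul_le_mul_of_nonneg_left l hc
    refine le_trans (le_of_eq ?_) (l2.trans ?_)
    · push_cast
      rw [show Real.log y - E - I.card * E = Real.log y - (I.card + 1) * E by ring]
      ring
    · rw [mul_sum]
      refine sum_le_sum fun S hS => ?_
      rw [mul_left_comm]
      refine mul_le_mul_of_nonneg_left ?_ (prod_nonneg fun p hp => hG p (mem_powerset.mp hS hp))
      have r1 : (1 : ℝ) ≤ (∏ p ∈ S, p : ℕ) := by
        exact_mod_cast prod_pos fun p hp => (hPs p (mem_powerset.mp hS hp)).pos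
      generalize ((∏ p ∈ S, p : ℕ) : ℝ) = r at r1 ⊢
      have r0 : 0 < r := by linarith only [r1]
      rw [max_eq_left (Real.log_nonneg r1)]
      rcases le_total (Real.log y - E - Real.log r) 0 with k | k
      · rw [max_eq_right k, mul_zero]; exact sqfSum_nonneg hgj _
      · have hry : r ≤ y := (Real.log_le_log_iff r0 y0).mp (by linarith only [hE, k])
        have := H j (mem_insert_self _ _) (y / r) ((one_le_div r0).mpr hry)
          ((div_le_self y0.le r1).trans y2)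
        rw [Real.log_div y0.ne' r0.ne'] at this
        rw [max_eq_left k]
        exact le_trans (le_of_eq (by ring)) this

lemma slice {ρc ρ u1 u2 l S : ℝ} (a3 : ρc ≤ ρ) (a4 : ρ ≤ u1 + u2)
    (a5 : u2 ≤ ρ) (hl : 0 ≤ l) (hS : S = max (ρc - max l (ρc - ρ + u2)) 0
      + max (u2 - max l (ρ - u1)) 0 + max (ρc - u1 - max l 0) 0) :
    S ≤ 0 ∨ S ≤ ρc - l ∨ (l ≤ u2 ∧ S ≤ ρ - l ∧ S ≤ u1) := by
  rw [max_eq_left hl] at hS
  rcases le_total l (ρc - u1) with h | h
  · right; left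
    rw [max_eq_right (a := l) (by linarith), max_eq_right (a := l) (by linarith),
      max_eq_left (by linarith), max_eq_left (by linarith), max_eq_left (by linarith)] at hS
    linarith
  rw [max_eq_right (a := ρc - u1 - l) (by linarith)] at hS
  rcases le_total l u2 with k | k
  · right; right
    have b1 : max (ρc - max l (ρc - ρ + u2)) 0 ≤ ρ - u2 :=
      max_le (by linarith [le_max_right l (ρc - ρ + u2)]) (by linarith)
    rw [max_eq_left (a := u2 - _) (sub_nonneg.mpr (max_le k (by linarith)))] at hS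
    exact ⟨k, by linarith [le_max_left l (ρ - u1)], by linarith [le_max_right l (ρ - u1)]⟩
  · rw [max_eq_right (a := u2 - _) (by linarith [le_max_left l (ρ - u1)])] at hS
    rcases le_total (ρc - max l (ρc - ρ + u2)) 0 with k2 | k2
    · left; rw [max_eq_right k2] at hS; linarith
    · right; left; rw [max_eq_left k2] at hS; linarith [le_max_left l (ρc - ρ + u2)]

theorem G0_lower (Ps : Finset ℕ) (hPs : ∀ p ∈ Ps, p.Prime) (h1 h2 : ℕ → ℝ)
    (hh1 : ∀ p ∈ Ps, 0 ≤ h1 p) (hh2 : ∀ p ∈ Ps, 0 ≤ h2 p)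
    (T : ℕ → ℕ → Prop) [∀ a b, Decidable (T a b)] {Rc R U1 U2 z c1 c2 E : ℝ} (m : ℕ)
    (hT : ∀ a b : ℕ, 0 < a → 0 < b →
      ((a : ℝ) * b ≤ Rc ∨ ((a : ℝ) * b ≤ R ∧ (a : ℝ) ≤ U1 ∧ (b : ℝ) ≤ U2)) → T a b)
    (a1 : 1 ≤ U1) (a2 : U1 ≤ Rc) (a3 : Rc ≤ R) (a4 : R ≤ U1 * U2) (a5 : U2 ≤ R) (a6 : Rc ≤ z)
    (a7 : U2 ≤ z) (b1 : 0 ≤ c1) (_b2 : 0 ≤ c2) (b3 : 0 ≤ E)
    (H1 : ∀ y, 1 ≤ y → y ≤ z → c1 * Real.log y ≤ sqfSum Ps h1 y)
    (H2 : ∀ y, 1 ≤ y → y ≤ z → c2 * (max (Real.log y - E) 0) ^ m / m.factorial ≤ sqfSum Ps h2 y) :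
    c1 * c2 / (m + 1).factorial * ((max (Real.log Rc - E) 0) ^ (m + 1)
      - (max (Real.log Rc - Real.log R + Real.log U2 - E) 0) ^ (m + 1)
      + (max (Real.log U2 - E) 0) ^ (m + 1) - (max (Real.log R - Real.log U1 - E) 0) ^ (m + 1)
      + (max (Real.log Rc - Real.log U1 - E) 0) ^ (m + 1))
    ≤ ∑ S1 ∈ Ps.powerset, ∑ S2 ∈ Ps.powerset, if T (∏ p ∈ S1, p) (∏ p ∈ S2, p) then
      (∏ p ∈ S1, h1 p) * ∏ p ∈ S2, h2 p else 0 := by
  have u0 : 0 < U1 := by linarith
  have c0 : 0 < Rc := by linarith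
  have r0 : 0 < R := by linarith
  have v0 : 0 < U2 := (pos_iff_pos_of_mul_pos (r0.trans_le a4)).mp u0
  have l1 := Real.log_nonneg a1
  have l2 := Real.log_le_log u0 a2
  have l3 := Real.log_le_log c0 a3
  have l4 := Real.log_le_log r0 a4
  rw [Real.log_mul u0.ne' v0.ne'] at l4
  have l5 := Real.log_le_log v0 a5
  have i1 := layer Ps hPs h2 hh2 m H2 (v0 := Real.log Rc - Real.log R + Real.log U2)
    (v1 := Real.log Rc) (by linarith) (by linarith) ((Real.exp_log c0).trans_le a6)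
  have i2 := layer Ps hPs h2 hh2 m H2 (v0 := Real.log R - Real.log U1)
    (v1 := Real.log U2) (by linarith) (by linarith) ((Real.exp_log v0).trans_le a7)
  have i3 := layer Ps hPs h2 hh2 m H2 (v0 := 0) (v1 := Real.log Rc - Real.log U1) le_rfl
    (by linarith only [l2]) (((Real.exp_le_exp.mpr (sub_le_self _ l1)).trans_eq (Real.exp_log c0)).trans a6)
  rw [max_eq_right (a := 0 - _) (by linarith only [b3]), zero_pow (Nat.succ_ne_zero _), sub_zero] at i3
  have i4 := mul_le_mul_of_nonneg_left (add_le_add (add_le_add i1 i2) i3) b1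
  refine le_trans (le_of_eq (by ring)) (i4.trans ?_)
  rw [← sum_add_distrib, ← sum_add_distrib, mul_sum, sum_comm]
  refine sum_le_sum fun S hS => ?_
  have hb : 0 < ∏ p ∈ S, p := prod_pos fun p hp => (hPs p (mem_powerset.mp hS hp)).pos
  have g0 : 0 ≤ ∏ p ∈ S, h2 p := prod_nonneg fun p hp => hh2 p (mem_powerset.mp hS hp)
  have g1 : ∀ S ∈ Ps.powerset, 0 ≤ ∏ p ∈ S, h1 p := fun S hS =>
    prod_nonneg fun p hp => hh1 p (mem_powerset.mp hS hp)
  generalize ∏ p ∈ S, p = b at hb ⊢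
  generalize ∏ p ∈ S, h2 p = g at g0 ⊢
  have hb1 : (1 : ℝ) ≤ b := by exact_mod_cast hb
  have hb0 : (0 : ℝ) < b := by linarith only [hb1]
  have lb := Real.log_nonneg hb1
  rw [← mul_add, ← mul_add]
  generalize hσ : max (Real.log Rc - max (Real.log b) (Real.log Rc - Real.log R + Real.log U2)) 0
    + max (Real.log U2 - max (Real.log b) (Real.log R - Real.log U1)) 0
    + max (Real.log Rc - Real.log U1 - max (Real.log b) 0) 0 = σ
  have hσ0 : 0 ≤ σ := by rw [← hσ]; positivity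
  have key : Real.exp σ ≤ z → (∀ a : ℕ, 0 < a → Real.log a ≤ σ → T a b) →
      c1 * (g * σ) ≤ ∑ S1 ∈ Ps.powerset, if T (∏ p ∈ S1, p) b then (∏ p ∈ S1, h1 p) * g else 0 := by
    intro k1 k2
    have := mul_le_mul_of_nonneg_right (H1 _ (Real.one_le_exp hσ0) k1) g0
    rw [Real.log_exp, sqfSum, sum_mul] at this
    refine le_trans (le_of_eq (by ring)) (this.trans (sum_le_sum fun S1 hS1 => ?_))
    have ha : 0 < ∏ p ∈ S1, p := prod_pos fun p hp => (hPs p (mem_powerset.mp hS1 hp)).pos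
    split_ifs with k3 k4
    · exact le_rfl
    · exact absurd (k2 _ ha ((Real.log_le_iff_le_exp (Nat.cast_pos.mpr ha)).mpr k3)) k4
    · rw [zero_mul]; exact mul_nonneg (g1 S1 hS1) g0
    · rw [zero_mul]
  have hz : σ ≤ Real.log Rc → Real.exp σ ≤ z := fun h =>
    ((Real.exp_le_exp.mpr h).trans_eq (Real.exp_log c0)).trans a6
  rcases slice l3 l4 l5 lb hσ.symm with k | k | k
  · rw [le_antisymm k hσ0, mul_zero, mul_zero]
    refine sum_nonneg fun S1 hS1 => ?_
    split_ifs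
    exacts [mul_nonneg (g1 S1 hS1) g0, le_rfl]
  · refine key (hz (by linarith only [lb, k])) fun a ha h => hT a b ha hb (Or.inl ?_)
    have ha0 : (0 : ℝ) < a := Nat.cast_pos.mpr ha
    rw [← Real.log_le_log_iff (mul_pos ha0 hb0) c0, Real.log_mul ha0.ne' hb0.ne']
    linarith only [k, h]
  · refine key (hz (by linarith only [l2, k, k.2.2])) fun a ha h => hT a b ha hb (Or.inr ?_)
    have ha0 : (0 : ℝ) < a := Nat.cast_pos.mpr ha
    rw [← Real.log_le_log_iff (mul_pos ha0 hb0) r0, Real.log_mul ha0.ne' hb0.ne',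
      ← Real.log_le_log_iff ha0 u0, ← Real.log_le_log_iff hb0 v0]
    exact ⟨by linarith only [k, h, k.2.1], by linarith only [k, h, k.2.2], k.1⟩

end Pool.Agent.Work.MP_51e72e_nt
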