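import Pool.Agent.Work.MP_51e72e_nt.Rem3
import Pool.Agent.Work.MP_51e72e_nt.Aux1
import Pool.Agent.Work.MP_51e72e_nt.Lower

/-!
The sieve bound beyond the square-root level, uniformly in the data.
-/

set_option autoImplicit false
set_option maxHeartbeats 400000

namespace Pool.Agent.Work.MP_51e72e_nt

open Finset Filter Polynomial Pool.Agent.Lib.ANT Pool.Agent.Lib.LargeSieve

lemma vol_ge (m : ℕ) (hm : 1 ≤ m) {H c u v : ℕ} {lg E : ℝ} (hH : H = 433152 * (m + 1) ^ 2)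
    (hc : c + 206 = H) (hu : u = 324864 * (m + 1) ^ 2) (hv : v + 54144 * (m + 1) = H)
    (hl : 0 < lg) (hE0 : 0 ≤ E) (hE : E ≤ lg) :
    (H * lg) ^ (m + 1) * (1 + 1 / (9400 * ((m : ℝ) + 1)))
      ≤ (max (c * lg - E) 0) ^ (m + 1)
        - (max (c * lg - (H + 200 : ℕ) * lg + v * lg - E) 0) ^ (m + 1)
        + (max (v * lg - E) 0) ^ (m + 1) - (max ((H + 200 : ℕ) * lg - u * lg - E) 0) ^ (m + 1)
        + (max (c * lg - u * lg - E) 0) ^ (m + 1) := by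
  have hm' : (1 : ℝ) ≤ m := by exact_mod_cast hm
  have hH' : (H : ℝ) = 433152 * ((m : ℝ) + 1) ^ 2 := by exact_mod_cast hH
  have hc' : (c : ℝ) = H - 206 := by rw [← hc]; push_cast; ring
  have hu' : (u : ℝ) = 324864 * ((m : ℝ) + 1) ^ 2 := by exact_mod_cast hu
  have hv' : (v : ℝ) = H - 54144 * ((m : ℝ) + 1) := by rw [← hv]; push_cast; ring
  have hH0 : (0 : ℝ) < H := by rw [hH']; positivity
  have hP : 0 < H * lg := mul_pos hH0 hl
  have key := vol_norm m hm (θ := 1 / (433152 * ((m : ℝ) + 1) ^ 2)) (x := E / lg) rfl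
    (div_nonneg hE0 hl.le) (div_le_one_of_le₀ hE hl.le)
  have hmx : ∀ y t : ℝ, y = H * lg * t → y ^ (m + 1) = (H * lg) ^ (m + 1) * t ^ (m + 1) := by
    rintro y t rfl; exact mul_pow _ _ _
  have hκ : 2 ≤ (m : ℝ) + 1 := by clear * - m hm'; linarith
  have hκ2 : 2 * ((m : ℝ) + 1) ≤ ((m : ℝ) + 1) ^ 2 := by clear * - m hm'; nlinarith only [hm']
  rw [max_eq_left, max_eq_left, max_eq_left, max_eq_left, max_eq_left,
    hmx (c * lg - E) (1 - 1 / (433152 * ((m : ℝ) + 1) ^ 2) * (206 + E / lg)),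
    hmx (c * lg - (H + 200 : ℕ) * lg + v * lg - E)
      (1 - 1 / (8 * ((m : ℝ) + 1)) - 1 / (433152 * ((m : ℝ) + 1) ^ 2) * (406 + E / lg)),
    hmx (v * lg - E) (1 - 1 / (8 * ((m : ℝ) + 1)) - 1 / (433152 * ((m : ℝ) + 1) ^ 2) * (E / lg)),
    hmx ((H + 200 : ℕ) * lg - u * lg - E)
      (1 / 4 + 1 / (433152 * ((m : ℝ) + 1) ^ 2) * (200 - E / lg)),
    hmx (c * lg - u * lg - E) (1 / 4 - 1 / (433152 * ((m : ℝ) + 1) ^ 2) * (206 + E / lg))]
  · have := mul_le_mul_of_nonneg_left key (pow_pos hP (m + 1)).le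
    clear * - H lg m E this
    linarith only [this]
  all_goals push_cast
  all_goals simp only [hc', hu', hv', hH']
  · field_simp; ring
  · field_simp; ring
  · field_simp; ring
  · field_simp; ring
  · field_simp; ring
  all_goals nlinarith only [hl, hE, hm', hH', hv', hκ2]

lemma final_alg {s B e l P φ c f lg γ : ℝ} (k : ℕ) (hB : 0 ≤ B) (he : 0 ≤ e) (hP : 0 < P)
    (hl : 1 ≤ l) (hφ : 0 < φ) (hc : 0 < c) (hf : 0 < f) (hlg : 0 < lg) (hγ : 0 < γ)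
    (L1 : φ * c / f * ((lg / 2) ^ k * γ) ≤ l * P) (S : s * l ^ 2 ≤ B * (l * P) + 10 * e) :
    s ≤ B * (P * P) * (2 ^ k * f) / (γ * φ * c * lg ^ k) + 10 * e := by
  have hl0 : 0 < l := by linarith only [hl]
  have hg : 0 < φ * c / f * ((lg / 2) ^ k * γ) := by positivity
  have e2 : B * (P * P) * (2 ^ k * f) / (γ * φ * c * lg ^ k)
      = B * (P * P / (φ * c / f * ((lg / 2) ^ k * γ))) := by
    rw [div_pow]; field_simp
  rw [e2]
  generalize φ * c / f * ((lg / 2) ^ k * γ) = g at L1 hg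
  have f1 : s ≤ B * (P / l) + 10 * e / l ^ 2 := by
    rw [← le_div_iff₀ (pow_pos hl0 2)] at S
    refine S.trans (le_of_eq ?_)
    field_simp
  have f2 : P / l ≤ P * P / g := by
    clear * - P l g hl0 hg hP L1
    rw [div_le_div_iff₀ hl0 hg]
    nlinarith only [hP, L1]
  have f3 : 10 * e / l ^ 2 ≤ 10 * e := div_le_self (by linarith) (one_le_pow₀ hl)
  linarith only [f1, f3, f2, hB, mul_le_mul_of_nonneg_left f2 hB]

/-- The sieve bound. -/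
theorem sieve_main (m K : ℕ) (hm : 1 ≤ m) : ∃ η : ℝ, 0 < η ∧ ∀ᶠ N : ℕ in atTop,
    ∀ (G : ℤ[X]) (a W M Y0 w : ℕ) (𝒜 P0 : Finset ℕ) (b0 : ℤ) (c2 E : ℝ),
    0 < a → 0 < W → 𝒜 ⊆ range W → (∀ p, p.Prime → p ∣ a → p ∣ W) →
    (∀ c ∈ 𝒜, ∀ p, p.Prime → p ∣ W → ¬ (p : ℤ) ∣ a * c + b0) →
    (Y0 : ℤ) = a * M + b0 → (a : ℝ) ≤ (N : ℝ) ^ η → (W : ℝ) ≤ (N : ℝ) ^ η →
    ((Y0 + a * N : ℕ) : ℝ) ≤ (N : ℝ) ^ η * N → 0 < w → 2 * K ≤ w →
    (∀ p ∈ P0, p.Prime ∧ p ≤ N) → (∀ p : ℕ, p.Prime → (p : ℝ) ≤ √N → p ∈ P0) →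
    (∀ p : ℕ, p.Prime → ¬ p ∣ W → w < p ∧ omega G p ≤ K ∧
      ∀ n : ℤ, ¬ ((p : ℤ) ∣ a * n + b0 ∧ (p : ℤ) ∣ G.eval n)) →
    0 < c2 → 0 ≤ E → E ≤ η * Real.log N →
    (∀ y : ℝ, 1 ≤ y → y ≤ √N → c2 * (max (Real.log y - E) 0) ^ m / m.factorial ≤
      sqfSum P0 (fun p => if p ∣ W then 0 else (omega G p : ℝ) / (p - omega G p)) y) →
    (((Ioc M (M + N)).filter (fun n : ℕ => n % W ∈ 𝒜 ∧ ∀ p ∈ P0, ¬ p ∣ W →
        ¬ (p : ℤ) ∣ a * n + b0 ∧ ¬ (p : ℤ) ∣ G.eval (n : ℤ))).card : ℝ)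
      ≤ N * 𝒜.card / W * Real.exp (16 * K / w) * (2 ^ (m + 1) * (m + 1).factorial) /
          ((1 + 1 / (9400 * ((m : ℝ) + 1))) * (W.totient / W) * c2 * Real.log N ^ (m + 1))
        + 10 * (N / (N : ℝ) ^ η) := by
  classical
  obtain ⟨H, hH⟩ : ∃ H : ℕ, H = 433152 * (m + 1) ^ 2 := ⟨_, rfl⟩
  obtain ⟨n, hn⟩ : ∃ n : ℕ, n = 16 * m + 15 := ⟨_, rfl⟩
  obtain ⟨u, hu⟩ : ∃ u : ℕ, u = 324864 * (m + 1) ^ 2 := ⟨_, rfl⟩
  have hm2 : 2 * (m + 1) ≤ (m + 1) ^ 2 := by nlinarith only [hm]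
  obtain ⟨c, hc⟩ : ∃ c : ℕ, c + 206 = H := ⟨H - 206, by omega⟩
  obtain ⟨t, ht⟩ : ∃ t : ℕ, u + t = c := ⟨c - u, by omega⟩
  obtain ⟨v, hv⟩ : ∃ v : ℕ, v + 54144 * (m + 1) = H := ⟨H - 54144 * (m + 1), by omega⟩
  have hH0 : (0 : ℝ) < H := by exact_mod_cast (show 0 < H by omega)
  refine ⟨1 / (2 * H), by positivity, ?_⟩
  set η : ℝ := 1 / (2 * H) with hη
  have hη0 : 0 < η := by positivity
  filter_upwards [eventually_log_pow_le 480 6 hη0, eventually_log_pow_le 4 0 hη0,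
    eventually_log_pow_le (Real.exp 73 ^ (2 * K + 2)) (2 * K + 2) hη0,
    eventually_divisors_le (2 * (n + 1) + 2) (η := η / (K + 3 + 2 * (n + 1) : ℕ)) (by positivity),
    eventually_ge_atTop (n + 2)] with N ev1 ev2 ev3 ev4 ev5
  intro G a W M Y0 w 𝒜 P0 b0 c2 E ha hW hA haW hAc hY haZ hWZ hYZ hw hKw hP0 hP0' hgood hc2 hE0
    hE H2
  set Z : ℝ := (N : ℝ) ^ η with hZ
  have hN2 : 2 ≤ N := by omega
  have hN1 : (1 : ℝ) < N := by exact_mod_cast hN2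
  have hN0 : (0 : ℝ) < N := by clear * - N hN1; linarith
  have hlog : 0 < Real.log N := Real.log_pos hN1
  rw [pow_zero, mul_one] at ev2
  have hZ1 : 1 ≤ Z := by linarith only [ev2]
  have hZ0 : 0 < Z := by linarith only [ev2]
  have hNZ : (N : ℝ) = Z ^ (2 * H) := by
    rw [hZ, ← Real.rpow_natCast, ← Real.rpow_mul hN0.le, hη]
    push_cast
    rw [one_div_mul_cancel (by positivity), Real.rpow_one]
  have hsq : √N = Z ^ H := by
    rw [hNZ, mul_comm, pow_mul, Real.sqrt_sq (by positivity)]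
  have hlZ : Real.log Z = η * Real.log N := Real.log_rpow hN0 _
  have hlZ0 : 0 < Real.log Z := by rw [hlZ]; positivity
  set Ps := P0.filter (fun p => ¬ p ∣ W) with hPs
  have hPp : ∀ p ∈ Ps, p.Prime := fun p hp => (hP0 p (mem_filter.mp hp).1).1
  have hPW : ∀ p ∈ Ps, ¬ p ∣ W := fun p hp => (mem_filter.mp hp).2
  have hPg := fun p (hp : p ∈ Ps) => hgood p (hPp p hp) (hPW p hp)
  set h1 : ℕ → ℝ := fun p => ((p : ℝ) - 1)⁻¹ with hh1
  set h2 : ℕ → ℝ := fun p => (omega G p : ℝ) / (p - omega G p) with hh2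
  have b1 : ∀ p ∈ Ps, 0 ≤ h1 p ∧ h1 p ≤ 2 / p := by
    clear * - Ps hPp h1 hh1
    intro p hp
    have : (2 : ℝ) ≤ p := by exact_mod_cast (hPp p hp).two_le
    refine ⟨inv_nonneg.mpr (by linarith), ?_⟩
    simp only [hh1]
    rw [← one_div, div_le_div_iff₀ (by linarith) (by linarith)]
    linarith
  have hom : ∀ p ∈ Ps, 2 * omega G p < p := fun p hp => by
    have := hPg p hp; omega
  have b2 : ∀ p ∈ Ps, 0 ≤ h2 p ∧ h2 p ≤ 2 * K / p := by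
    clear * - Ps G hom K a b0 w hPg h2 hh2
    intro p hp
    have a1 : 2 * (omega G p : ℝ) < p := by exact_mod_cast hom p hp
    have a2 : (omega G p : ℝ) ≤ K := by exact_mod_cast (hPg p hp).2.1
    have a3 : (0 : ℝ) ≤ omega G p := Nat.cast_nonneg _
    refine ⟨div_nonneg a3 (by linarith), ?_⟩
    simp only [hh2]
    rw [div_le_div_iff₀ (by linarith) (by linarith)]
    nlinarith only [a2, a1]
  let T : ℕ → ℕ → Prop := fun x y => (x : ℝ) * y ≤ Z ^ c ∨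
    ((x : ℝ) * y ≤ Z ^ (H + 200) ∧ (x : ℝ) ≤ Z ^ u ∧ (y : ℝ) ≤ Z ^ v)
  have hcR : Z ^ c ≤ Z ^ (H + 200) := pow_le_pow_right₀ hZ1 (by omega)
  have hRN : Z ^ (H + 200) ≤ N := hNZ ▸ pow_le_pow_right₀ hZ1 (by omega)
  have hT : ∀ x y x' y', T x y → 0 < x → 0 < y → x' ∣ x → y' ∣ y → T x' y' := by
    intro x y x' y' h hx hy hx' hy'
    have a1 : (x' : ℝ) ≤ x := by exact_mod_cast Nat.le_of_dvd hx hx'
    have a2 : (y' : ℝ) ≤ y := by exact_mod_cast Nat.le_of_dvd hy hy'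
    have a3 : (x' : ℝ) * y' ≤ x * y := mul_le_mul a1 a2 (Nat.cast_nonneg _) (Nat.cast_nonneg _)
    exact h.imp a3.trans fun h => ⟨a3.trans h.1, a1.trans h.2.1, a2.trans h.2.2⟩
  have hX : ∀ x y, T x y → 0 < x → 0 < y → x ≤ N ∧ y ≤ N := by
    intro x y h hx hy
    have a1 : (x : ℝ) * y ≤ N := (h.elim (fun h => h.trans hcR) fun h => h.1).trans hRN
    have a2 : x * y ≤ N := by exact_mod_cast a1
    exact ⟨(Nat.le_mul_of_pos_right x hy).trans a2, (Nat.le_mul_of_pos_left y hx).trans a2⟩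
  obtain ⟨lam, l1, l2, l3, l4, l5⟩ := exists_weights Ps hPp h1 h2 (fun p hp => (b1 p hp).1)
    (fun p hp => (b2 p hp).1) T hT (Or.inl (by simpa using one_le_pow₀ hZ1)) N hX
  have S := sieve_ineq G a M N Y0 W N 𝒜 Ps b0 ha hW (by omega) hA hY hPW
    (fun p hp => by have := hom p hp; omega) (fun p hp => (hPg p hp).2.2) lam
    (fun x y h => ⟨(l2 x y h).1, (l2 x y h).2.1, (l2 x y h).2.2.2.1⟩)
  have hΛ0 : 0 < ∏ p ∈ Ps, (1 + h1 p + h2 p) :=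
    prod_pos fun p hp => by clear * - h1 p h2 G b1 hp K b2; linarith [(b1 p hp).1, (b2 p hp).1]
  have hΛZ : ∏ p ∈ Ps, (1 + h1 p + h2 p) ≤ Z := by
    clear * - Ps h1 h2 N K Z hN2 hP0 P0 W b1 b2 hlog ev3
    refine (prod_weights_le Ps N K hN2 h1 h2 (fun p hp => hP0 p (mem_filter.mp hp).1) b1 b2).trans
      (le_trans ?_ ev3)
    rw [mul_pow]
    exact mul_le_mul_of_nonneg_left (pow_le_pow_left₀ hlog.le (by linarith) _) (by positivity)
  have Err : ∀ Y : ℕ, (Y : ℝ) ≤ Z * N →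
      |∑ d1 ∈ Icc 1 N, ∑ d2 ∈ Icc 1 N, ∑ e1 ∈ Icc 1 N, ∑ e2 ∈ Icc 1 N,
        lam d1 d2 * lam e1 e2 * errT G a W 𝒜 b0 Y d1 d2 e1 e2| ≤ 5 * (N / Z) := by
    clear * - Z N G a W n K H c u t v m 𝒜 Ps b0 ha hW hA haW hPW hAc w hPg h1 h2 η lam T l2 l1 hΛ0
      hc ht hv hn hH M Y0 hu hm ev2 hNZ haZ hWZ hΛZ hN1 hH0 hN0 ev4 ev5 hlog ev1 hN2 hY
    intro Y hY
    refine err_pow_le G a W Y N n K H c u t v (54144 * (m + 1)) 𝒜 Ps b0 ha hW hA haW hPW hAc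
      (fun p hp => (hPg p hp).2.2) (fun p hp => (hPg p hp).2.1)
      (D := (N : ℝ) ^ (η / (K + 3 + 2 * (n + 1) : ℕ))) (L := 2 + 2 * Real.log N) lam
      (fun x y h => ⟨(l2 x y h).1, (l2 x y h).2.1, (l2 x y h).2.2.2.1, (l2 x y h).2.2.2.2⟩)
      l1 hΛ0 hc ht hv ?_ ?_ (by omega) ev2 hNZ haZ hWZ hΛZ hY
      (Real.one_le_rpow hN1.le (by positivity)) ?_ ?_ (by linarith only [hlog]) ev1
      ((HH_le N).trans (by linarith only [hlog])) (log_two_le N (by omega))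
    · have : 54144 * (m + 1) * (n + 1) = 866304 * (m + 1) ^ 2 := by rw [hn]; ring
      omega
    · have : (n + 1) ^ 2 = 256 * (m + 1) ^ 2 := by rw [hn]; ring
      omega
    · rw [← Real.rpow_natCast, ← Real.rpow_mul hN0.le, div_mul_cancel₀ _ (by positivity)]
    · intro x _ hx
      refine ev4 x (hx.trans ?_)
      calc N * ((n + 1) * N ^ (2 * (n + 1))) ≤ N * (N * N ^ (2 * (n + 1))) :=
            Nat.mul_le_mul_left _ (Nat.mul_le_mul_right _ (by omega))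
        _ = _ := by ring
  have E1 := abs_le.mp (Err _ hYZ)
  have E0 := abs_le.mp (Err Y0 (le_trans (by exact_mod_cast Nat.le_add_right _ _) hYZ))
  have hφ : (0 : ℝ) < (W.totient : ℝ) / W := by
    have : (0 : ℝ) < W.totient := by exact_mod_cast Nat.totient_pos.mpr hW
    positivity
  have conv : ∀ (g : ℕ → ℝ) (y : ℝ), (∀ p ∈ Ps, 0 ≤ g p) →
      sqfSum P0 (fun p => if p ∣ W then 0 else g p) y ≤ sqfSum Ps g y := by
    intro g y hg
    rw [← sqfSum_filter_of_eq_zero P0 _ (fun p => ¬ p ∣ W) (fun p _ h => if_pos (not_not.mp h))]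
    refine sqfSum_mono (fun p hp => ?_) (fun p hp => ?_) le_rfl
    · rw [if_neg (hPW p hp)]; exact hg p hp
    · rw [if_neg (hPW p hp)]
  have G0 := G0_lower Ps hPp h1 h2 (fun p hp => (b1 p hp).1) (fun p hp => (b2 p hp).1) T
    (Rc := Z ^ c) (R := Z ^ (H + 200)) (U1 := Z ^ u) (U2 := Z ^ v) (z := √N)
    (c1 := W.totient / W) (c2 := c2) (E := E) m (fun _ _ _ _ h => h) (one_le_pow₀ hZ1)
    (pow_le_pow_right₀ hZ1 (by omega)) hcR
    (by rw [← pow_add]; exact pow_le_pow_right₀ hZ1 (by omega))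
    (pow_le_pow_right₀ hZ1 (by omega)) (hsq ▸ pow_le_pow_right₀ hZ1 (by omega))
    (hsq ▸ pow_le_pow_right₀ hZ1 (by omega)) hφ.le hc2.le hE0
    (fun y y1 y2 => (totient_mul_log_le_sqfSum P0 (fun p hp => (hP0 p hp).1) y (by clear * - y y1 P0 W b1 conv h1 hP0 hP0' hW y2; linarith)
      (fun p hp h => hP0' p hp (h.trans y2)) W hW).trans (conv h1 y fun p hp => (b1 p hp).1))
    (fun y y1 y2 => (H2 y y1 y2).trans (conv h2 y fun p hp => (b2 p hp).1))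
  simp only [Real.log_pow] at G0
  have V := vol_ge m hm hH hc hu hv hlZ0 hE0 (hlZ ▸ hE)
  have hHl : H * Real.log Z = Real.log N / 2 := by rw [hlZ, hη]; field_simp
  rw [hHl] at V
  set γ : ℝ := 1 + 1 / (9400 * ((m : ℝ) + 1)) with hγ
  have hγ0 : 0 < γ := by rw [hγ]; positivity
  have hfac : (0 : ℝ) < (m + 1).factorial := by exact_mod_cast Nat.factorial_pos _
  set g0 : ℝ := W.totient / W * c2 / (m + 1).factorial * ((Real.log N / 2) ^ (m + 1) * γ) with hg0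
  have hg00 : 0 < g0 := mul_pos (div_pos (mul_pos hφ hc2) hfac)
    (mul_pos (pow_pos (half_pos hlog) _) hγ0)
  have P2 := prod_cross_le Ps hw (fun p hp => (hPg p hp).1) h1 h2 b1 b2
  have P1 : ∏ p ∈ Ps, (1 + h1 p * h2 p) ≤ Real.exp (8 * K / w) := by
    clear * - Ps h1 h2 K w G b1 b2 P2
    refine le_trans (prod_le_prod (fun p hp => ?_) fun p hp => ?_) P2
    · linarith [mul_nonneg (b1 p hp).1 (b2 p hp).1]
    · linarith [mul_nonneg (b1 p hp).1 (b2 p hp).1]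
  set pp := Real.exp (8 * K / w) with hpp
  have hpp0 : 0 < pp := Real.exp_pos _
  set l := lam 1 1 with hl
  have hl0 : 0 < l := by clear * - l l3; linarith
  have L1 : g0 ≤ l * pp := by
    refine le_trans ?_ (G0.trans (l4.trans (mul_le_mul_of_nonneg_left P1 hl0.le)))
    exact mul_le_mul_of_nonneg_left V (div_pos (mul_pos hφ hc2) hfac).le
  have L2 := l5.trans (mul_le_mul_of_nonneg_left P2 hl0.le)
  have hB0 : (0 : ℝ) ≤ N * 𝒜.card / W :=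
    div_nonneg (mul_nonneg hN0.le (Nat.cast_nonneg _)) (Nat.cast_nonneg _)
  have hNZ0 : 0 ≤ (N : ℝ) / Z := div_nonneg hN0.le hZ0.le
  have eq1 : (Ioc M (M + N)).filter (fun n : ℕ => n % W ∈ 𝒜 ∧ ∀ p ∈ P0, ¬ p ∣ W →
        ¬ (p : ℤ) ∣ a * n + b0 ∧ ¬ (p : ℤ) ∣ G.eval (n : ℤ))
      = (Ioc M (M + N)).filter (fun n : ℕ => n % W ∈ 𝒜 ∧ ∀ p ∈ Ps,
        ¬ (p : ℤ) ∣ a * n + b0 ∧ ¬ (p : ℤ) ∣ G.eval (n : ℤ)) := by
    refine filter_congr fun x _ => and_congr_right fun _ => ?_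
    exact ⟨fun h p hp => h p (mem_filter.mp hp).1 (mem_filter.mp hp).2,
      fun h p h1 h2 => h p (mem_filter.mpr ⟨h1, h2⟩)⟩
  rw [eq1]
  have S2 := S.trans (show _ ≤ N * 𝒜.card / W * (l * pp) + 10 * (N / Z) by
    clear * - N 𝒜 W lam G a b0 Y0 l pp Z h1 h2 E1 E0 L2 hB0
    linarith only [E1, E0, L2, hB0, mul_le_mul_of_nonneg_left L2 hB0, E1.2, E0.1])
  rw [show (16 : ℝ) * K / w = 8 * K / w + 8 * K / w by ring, Real.exp_add]
  exact final_alg (m + 1) hB0 hNZ0 hpp0 l3 hφ hc2 hfac hlog hγ0 L1 S2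

end Pool.Agent.Work.MP_51e72e_nt
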