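import Pool.Agent.Work.MP_51e72e_nt.Kara

/-!
Moments of sums of reciprocals, on average over the modulus.
-/

set_option autoImplicit false

namespace Pool.Agent.Work.MP_51e72e_nt

open Finset

/-- squarefree integers in `[1, X]` -/
def sqf (X : ℕ) : Finset ℕ := (Icc 1 X).filter Squarefree

/-- `∑_i ∏_{j ≠ i} x_j` -/
def eSym {r : ℕ} (x : Fin r → ℕ) : ℕ := ∑ i, ∏ j ∈ univ.erase i, x j

/-- numerator of `∑ 1 / x_i - ∑ 1 / x'_i` -/
def numer {r : ℕ} (z : (Fin r → ℕ) × (Fin r → ℕ)) : ℤ :=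
  ((eSym z.1 * ∏ j, z.2 j : ℕ) : ℤ) - (((∏ j, z.1 j) * eSym z.2 : ℕ) : ℤ)

/-- pairs of `r`-tuples of squarefree integers up to `X` -/
def tuples (X r : ℕ) : Finset ((Fin r → ℕ) × (Fin r → ℕ)) :=
  (Fintype.piFinset fun _ : Fin r => sqf X) ×ˢ (Fintype.piFinset fun _ : Fin r => sqf X)

/-- number of pairs of tuples with `q ∣ m * numer` -/
def jCount (X r q m : ℕ) : ℕ := ((tuples X r).filter (fun z => (q : ℤ) ∣ m * numer z)).card

lemma mem_sqf {X a : ℕ} : a ∈ sqf X ↔ (1 ≤ a ∧ a ≤ X) ∧ Squarefree a := by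
  simp [sqf]

lemma card_sqf_le (X : ℕ) : (sqf X).card ≤ X := by
  simpa [sqf] using card_filter_le (Icc 1 X) Squarefree

lemma prod_mul_sum_inv {q r : ℕ} (x : Fin r → ℕ) (hx : ∀ i, Nat.Coprime (x i) q) :
    ((∏ j, x j : ℕ) : ZMod q) * ∑ i, ((x i : ZMod q))⁻¹ = (eSym x : ZMod q) := by
  unfold eSym
  push_cast
  rw [mul_sum]
  refine sum_congr rfl fun i _ => ?_
  rw [← mul_prod_erase univ (fun j => (x j : ZMod q)) (mem_univ i), mul_right_comm,
    ZMod.coe_mul_inv_eq_one _ (hx i), one_mul]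

lemma momentCount_le_jCount {q : ℕ} (S : Finset ℕ) (X r m : ℕ) (hS : S ⊆ sqf X)
    (hc : ∀ x ∈ S, Nat.Coprime x q) (μ c : ZMod q) (hu : IsUnit c)
    (hm : ∀ N : ℤ, μ * (N : ZMod q) = 0 → (q : ℤ) ∣ m * N) :
    momentCount S (fun x => ((x : ℕ) : ZMod q)⁻¹) (μ * c) r ≤ jCount X r q m := by
  unfold momentCount jCount
  refine card_le_card fun z hz => ?_
  rw [mem_filter, mem_product, Fintype.mem_piFinset, Fintype.mem_piFinset] at hz
  obtain ⟨⟨h1, h2⟩, h3⟩ := hz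
  rw [mem_filter, tuples, mem_product, Fintype.mem_piFinset, Fintype.mem_piFinset]
  refine ⟨⟨fun i => hS (h1 i), fun i => hS (h2 i)⟩, hm _ ?_⟩
  have e1 := prod_mul_sum_inv z.1 (fun i => hc _ (h1 i))
  have e2 := prod_mul_sum_inv z.2 (fun i => hc _ (h2 i))
  have e3 : c * (μ * ((numer z : ℤ) : ZMod q)) = 0 := by
    unfold numer
    rw [Int.cast_sub, Int.cast_natCast, Int.cast_natCast, Nat.cast_mul, Nat.cast_mul, ← e1, ← e2]
    linear_combination (((∏ j, z.1 j : ℕ) : ZMod q) * ((∏ j, z.2 j : ℕ) : ZMod q)) * h3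
  exact (hu.mul_right_eq_zero).mp e3

lemma sq_dvd_of_dvd_eSym {r p : ℕ} (hp : p.Prime) (x : Fin r → ℕ) (h1 : p ∣ ∏ j, x j)
    (h2 : p ∣ eSym x) : p ^ 2 ∣ ∏ j, x j := by
  obtain ⟨i, -, hi⟩ := (Prime.dvd_finsetProd_iff hp.prime _).mp h1
  unfold eSym at h2
  rw [← add_sum_erase univ _ (mem_univ i)] at h2
  have h3 : p ∣ ∑ k ∈ univ.erase i, ∏ j ∈ univ.erase k, x j :=
    dvd_sum fun k hk => hi.trans (dvd_prod_of_mem _ (mem_erase.mpr
      ⟨(mem_erase.mp hk).1.symm, mem_univ _⟩))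
  have h4 : p ∣ ∏ j ∈ univ.erase i, x j := (Nat.dvd_add_left h3).mp h2
  rw [← mul_prod_erase univ x (mem_univ i), sq]
  exact mul_dvd_mul hi h4

lemma prod_le_pow_of_mem {X r : ℕ} {x : Fin r → ℕ}
    (hx : x ∈ Fintype.piFinset fun _ : Fin r => sqf X) : 0 < ∏ j, x j ∧ ∏ j, x j ≤ X ^ r := by
  rw [Fintype.mem_piFinset] at hx
  refine ⟨prod_pos fun j _ => (mem_sqf.mp (hx j)).1.1, ?_⟩
  have := prod_le_pow_card univ x X (fun j _ => (mem_sqf.mp (hx j)).1.2)
  simpa using this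

lemma eSym_le_of_mem {X r : ℕ} {x : Fin r → ℕ}
    (hx : x ∈ Fintype.piFinset fun _ : Fin r => sqf X) : eSym x ≤ r * X ^ r := by
  have h := prod_le_pow_of_mem hx
  rw [Fintype.mem_piFinset] at hx
  have : ∀ i ∈ (univ : Finset (Fin r)), ∏ j ∈ univ.erase i, x j ≤ X ^ r := fun i _ =>
    (Nat.le_of_dvd h.1 (prod_dvd_prod_of_subset _ _ _ (erase_subset _ _))).trans h.2
  simpa [eSym] using sum_le_card_nsmul univ _ _ this

lemma natAbs_numer_le {X r : ℕ} {z : (Fin r → ℕ) × (Fin r → ℕ)} (hz : z ∈ tuples X r) :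
    (numer z).natAbs ≤ r * X ^ (2 * r) := by
  rw [tuples, mem_product] at hz
  have a1 : eSym z.1 * ∏ j, z.2 j ≤ r * X ^ (2 * r) := by
    calc _ ≤ r * X ^ r * X ^ r := Nat.mul_le_mul (eSym_le_of_mem hz.1) (prod_le_pow_of_mem hz.2).2
      _ = _ := by ring
  have a2 : (∏ j, z.1 j) * eSym z.2 ≤ r * X ^ (2 * r) := by
    calc _ ≤ X ^ r * (r * X ^ r) :=
          Nat.mul_le_mul (prod_le_pow_of_mem hz.1).2 (eSym_le_of_mem hz.2)
      _ = _ := by ring
  unfold numer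
  omega

lemma exists_rad {X r : ℕ} {z : (Fin r → ℕ) × (Fin r → ℕ)} (hz : z ∈ tuples X r)
    (h0 : numer z = 0) :
    ∃ ρ ∈ Icc 1 (X ^ r), (∀ i, z.1 i ∣ ρ) ∧ ∀ i, z.2 i ∣ ρ := by
  rw [tuples, mem_product] at hz
  have b1 := prod_le_pow_of_mem hz.1
  have b2 := prod_le_pow_of_mem hz.2
  set P1 := ∏ j, z.1 j with hP1
  set P2 := ∏ j, z.2 j with hP2
  have hE : eSym z.1 * P2 = P1 * eSym z.2 := by
    unfold numer at h0
    exact_mod_cast sub_eq_zero.mp h0
  have hn : P1 * P2 ≠ 0 := (Nat.mul_pos b1.1 b2.1).ne'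
  have key : ∀ p ∈ (P1 * P2).primeFactors, p ^ 2 ∣ P1 * P2 := by
    intro p hp
    have hpp := Nat.prime_of_mem_primeFactors hp
    have hd := Nat.dvd_of_mem_primeFactors hp
    by_cases h1 : p ∣ P1
    · by_cases h2 : p ∣ P2
      · rw [sq]; exact mul_dvd_mul h1 h2
      · have : p ∣ eSym z.1 * P2 := hE ▸ h1.mul_right _
        exact (sq_dvd_of_dvd_eSym hpp z.1 h1
          (((Nat.Prime.dvd_mul hpp).mp this).resolve_right h2)).mul_right _
    · have h2 : p ∣ P2 := ((Nat.Prime.dvd_mul hpp).mp hd).resolve_left h1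
      have : p ∣ P1 * eSym z.2 := hE ▸ h2.mul_left _
      exact (sq_dvd_of_dvd_eSym hpp z.2 h2
        (((Nat.Prime.dvd_mul hpp).mp this).resolve_left h1)).mul_left _
  refine ⟨∏ p ∈ (P1 * P2).primeFactors, p, ?_, ?_, ?_⟩
  · rw [mem_Icc]
    refine ⟨prod_pos fun p hp => (Nat.prime_of_mem_primeFactors hp).pos, ?_⟩
    have h1 : (∏ p ∈ (P1 * P2).primeFactors, p) ^ 2 ≤ P1 * P2 := by
      rw [← prod_pow]
      conv_rhs => rw [← Nat.prod_factorization_pow_eq_self hn]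
      rw [Finsupp.prod, Nat.support_factorization]
      refine prod_le_prod' fun p hp => ?_
      have hpp := Nat.prime_of_mem_primeFactors hp
      exact Nat.pow_le_pow_right hpp.pos ((hpp.pow_dvd_iff_le_factorization hn).mp (key p hp))
    have h2 : P1 * P2 ≤ (X ^ r) ^ 2 := by rw [sq]; exact Nat.mul_le_mul b1.2 b2.2
    exact (Nat.pow_le_pow_iff_left two_ne_zero).mp (h1.trans h2)
  · intro i
    have hs := (mem_sqf.mp (Fintype.mem_piFinset.mp hz.1 i)).2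
    rw [← Nat.prod_primeFactors_of_squarefree hs]
    exact prod_dvd_prod_of_subset _ _ _ (Nat.primeFactors_mono
      ((dvd_prod_of_mem z.1 (mem_univ i)).mul_right _) hn)
  · intro i
    have hs := (mem_sqf.mp (Fintype.mem_piFinset.mp hz.2 i)).2
    rw [← Nat.prod_primeFactors_of_squarefree hs]
    exact prod_dvd_prod_of_subset _ _ _ (Nat.primeFactors_mono
      ((dvd_prod_of_mem z.2 (mem_univ i)).mul_left _) hn)

lemma card_diag_le (X r : ℕ) (D : ℝ)
    (hD : ∀ n : ℕ, 1 ≤ n → n ≤ X ^ r → (n.divisors.card : ℝ) ≤ D) :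
    (((tuples X r).filter (fun z => numer z = 0)).card : ℝ) ≤ (X : ℝ) ^ r * D ^ (2 * r) := by
  have h1 : (tuples X r).filter (fun z => numer z = 0) ⊆ (Icc 1 (X ^ r)).biUnion fun ρ =>
      (Fintype.piFinset fun _ : Fin r => ρ.divisors) ×ˢ
        (Fintype.piFinset fun _ : Fin r => ρ.divisors) := by
    intro z hz
    rw [mem_filter] at hz
    obtain ⟨ρ, hρ, h1, h2⟩ := exists_rad hz.1 hz.2
    have hρ0 : ρ ≠ 0 := by have := (mem_Icc.mp hρ).1; omega
    rw [mem_biUnion]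
    refine ⟨ρ, hρ, ?_⟩
    rw [mem_product, Fintype.mem_piFinset, Fintype.mem_piFinset]
    exact ⟨fun i => Nat.mem_divisors.mpr ⟨h1 i, hρ0⟩, fun i => Nat.mem_divisors.mpr ⟨h2 i, hρ0⟩⟩
  have h2 := (card_le_card h1).trans card_biUnion_le
  calc _ ≤ ((∑ ρ ∈ Icc 1 (X ^ r), ((Fintype.piFinset fun _ : Fin r => ρ.divisors) ×ˢ
        (Fintype.piFinset fun _ : Fin r => ρ.divisors)).card : ℕ) : ℝ) := by exact_mod_cast h2
    _ ≤ ∑ ρ ∈ Icc 1 (X ^ r), D ^ (2 * r) := by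
        push_cast
        refine sum_le_sum fun ρ hρ => ?_
        rw [card_product, Fintype.card_piFinset, prod_const, card_univ, Fintype.card_fin]
        push_cast
        rw [← pow_add, ← two_mul]
        exact pow_le_pow_left₀ (Nat.cast_nonneg _)
          (hD ρ (mem_Icc.mp hρ).1 (mem_Icc.mp hρ).2) _
    _ = _ := by simp

lemma card_tuples_le (X r : ℕ) : (tuples X r).card ≤ X ^ (2 * r) := by
  rw [tuples, card_product, Fintype.card_piFinset, prod_const, card_univ, Fintype.card_fin,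
    ← pow_add, ← two_mul]
  exact Nat.pow_le_pow_left (card_sqf_le X) _

/-- The moment count on average over the modulus. -/
theorem sum_jCount_le (X r Q m : ℕ) (hr : 1 ≤ r) (hm : 1 ≤ m) (hmQ : m ≤ Q) (D : ℝ)
    (hD : ∀ n : ℕ, 1 ≤ n → n ≤ Q * (r * X ^ (2 * r)) → (n.divisors.card : ℝ) ≤ D) (hD0 : 0 ≤ D) :
    ∑ q ∈ Icc 1 Q, (jCount X r q m : ℝ)
      ≤ Q * ((X : ℝ) ^ r * D ^ (2 * r)) + (X : ℝ) ^ (2 * r) * D := by
  have hX : X ^ r ≤ Q * (r * X ^ (2 * r)) := by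
    rcases Nat.eq_zero_or_pos X with rfl | hX
    · rw [zero_pow (by omega)]; exact Nat.zero_le _
    · calc X ^ r ≤ X ^ (2 * r) := Nat.pow_le_pow_right hX (by omega)
        _ = 1 * (1 * X ^ (2 * r)) := by ring
        _ ≤ _ := Nat.mul_le_mul (hm.trans hmQ) (Nat.mul_le_mul_right _ hr)
  have h1 : ∑ q ∈ Icc 1 Q, (jCount X r q m : ℝ)
      = ∑ z ∈ tuples X r, (((Icc 1 Q).filter (fun q : ℕ => (q : ℤ) ∣ m * numer z)).card : ℝ) := by
    simp only [jCount, card_filter]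
    push_cast
    rw [sum_comm]
  have h2 : ∀ z ∈ tuples X r,
      (((Icc 1 Q).filter (fun q : ℕ => (q : ℤ) ∣ m * numer z)).card : ℝ)
        ≤ (if numer z = 0 then (Q : ℝ) else 0) + D := by
    intro z hz
    split_ifs with h
    · have : ((Icc 1 Q).filter (fun q : ℕ => (q : ℤ) ∣ m * numer z)).card ≤ Q := by
        simpa using card_filter_le (Icc 1 Q) (fun q : ℕ => (q : ℤ) ∣ m * numer z)
      have : (((Icc 1 Q).filter (fun q : ℕ => (q : ℤ) ∣ m * numer z)).card : ℝ) ≤ Q := by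
        exact_mod_cast this
      linarith
    · have hn : m * (numer z).natAbs ≠ 0 :=
        Nat.mul_ne_zero (by omega) (Int.natAbs_ne_zero.mpr h)
      have hs : (Icc 1 Q).filter (fun q : ℕ => (q : ℤ) ∣ m * numer z)
          ⊆ (m * (numer z).natAbs).divisors := by
        intro q hq
        refine Nat.mem_divisors.mpr ⟨?_, hn⟩
        have := Int.natAbs_dvd_natAbs.mpr (mem_filter.mp hq).2
        simpa [Int.natAbs_mul] using this
      have h3 := hD _ (Nat.one_le_iff_ne_zero.mpr hn)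
        (Nat.mul_le_mul hmQ (natAbs_numer_le hz))
      have h4 : (((Icc 1 Q).filter (fun q : ℕ => (q : ℤ) ∣ m * numer z)).card : ℝ)
          ≤ ((m * (numer z).natAbs).divisors.card : ℝ) := by exact_mod_cast card_le_card hs
      linarith
  rw [h1]
  refine (sum_le_sum h2).trans ?_
  rw [sum_add_distrib, ← sum_filter, sum_const, sum_const, nsmul_eq_mul, nsmul_eq_mul]
  have h3 := card_diag_le X r D (fun n h1 h2 => hD n h1 (h2.trans hX))
  have h4 : ((tuples X r).card : ℝ) ≤ (X : ℝ) ^ (2 * r) := by exact_mod_cast card_tuples_le X r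
  have h5 : (0 : ℝ) ≤ Q := Nat.cast_nonneg Q
  nlinarith [mul_le_mul_of_nonneg_right h4 hD0, mul_le_mul_of_nonneg_right h3 h5]

end Pool.Agent.Work.MP_51e72e_nt
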