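import Pool.Agent.Work.MP_51e72e_nt.NFTauber
import Mathlib.NumberTheory.NumberField.DedekindZeta
import Mathlib.Analysis.Normed.Group.Tannery

/-!
# The sum of `N(P)^(-s)` over prime ideals of degree one, as `s` tends to one
-/

noncomputable section

open Finset Filter Topology NumberField Ideal

namespace Pool.Agent.Work.MP_51e72e_nt

variable (K : Type*) [Field K] [NumberField K]

/-- Number of ideals of norm `n`. -/
def idealCount (n : ℕ) : ℕ := Nat.card {I : Ideal (𝓞 K) // absNorm I = n}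

/-- The real Dedekind zeta function. -/
def zetaR (s : ℝ) : ℝ := ∑' n : ℕ, (idealCount K n : ℝ) * (n : ℝ) ^ (-s)

lemma term_eq {s : ℝ} (hs : 1 < s) (n : ℕ) :
    LSeries.term (fun n ↦ (Nat.card {I : Ideal (𝓞 K) // absNorm I = n} : ℂ)) (s : ℂ) n =
      (((idealCount K n : ℝ) * (n : ℝ) ^ (-s) : ℝ) : ℂ) := by
  rcases Nat.eq_zero_or_pos n with rfl | hn
  · simp [Real.zero_rpow (show -s ≠ 0 by linarith)]
  · rw [LSeries.term_of_ne_zero hn.ne', Real.rpow_neg (Nat.cast_nonneg n), idealCount]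
    push_cast
    rw [Complex.ofReal_cpow (Nat.cast_nonneg n), div_eq_mul_inv]
    simp

lemma zetaR_eq {s : ℝ} (hs : 1 < s) : (zetaR K s : ℂ) = dedekindZeta K s := by
  rw [zetaR, dedekindZeta, LSeries, Complex.ofReal_tsum]
  exact tsum_congr fun n => (term_eq K hs n).symm

lemma tendsto_zetaR :
    Tendsto (fun s : ℝ => (s - 1) * zetaR K s) (𝓝[>] 1) (𝓝 (dedekindZeta_residue K)) := by
  have h := (Complex.continuous_re.tendsto _).comp (tendsto_sub_one_mul_dedekindZeta_nhdsGT K)
  simp only [Complex.ofReal_re] at h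
  refine h.congr' ?_
  filter_upwards [self_mem_nhdsWithin] with s hs
  simp only [Function.comp]
  rw [← zetaR_eq K hs]
  norm_cast

lemma summable_idealCount {s : ℝ} (hs : 1 < s) :
    Summable fun n : ℕ => (idealCount K n : ℝ) * (n : ℝ) ^ (-s) := by
  have h1 := (tendsto_zetaR K).eventually (lt_mem_nhds (dedekindZeta_residue_pos K))
  have h2 : ∀ᶠ t in 𝓝[>] (1 : ℝ), t < s := nhdsWithin_le_nhds (gt_mem_nhds hs)
  obtain ⟨t, ⟨ht1, ht2⟩, ht3⟩ := ((h1.and h2).and self_mem_nhdsWithin).exists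
  have ht3' : 1 < t := ht3
  have hsum : Summable fun n : ℕ => (idealCount K n : ℝ) * (n : ℝ) ^ (-t) := by
    by_contra hns
    rw [zetaR, tsum_eq_zero_of_not_summable hns] at ht1
    simp at ht1
  refine Summable.of_nonneg_of_le (fun n => by positivity) (fun n => ?_) hsum
  rcases Nat.eq_zero_or_pos n with rfl | hn
  · simp [Real.zero_rpow (show -s ≠ 0 by linarith), Real.zero_rpow (show -t ≠ 0 by linarith)]
  · exact mul_le_mul_of_nonneg_left
      (Real.rpow_le_rpow_of_exponent_le (by exact_mod_cast hn) (by linarith)) (Nat.cast_nonneg _)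

lemma hasSum_norm {g : ℕ → ℝ} (hg : ∀ n, 0 ≤ g n)
    (h : Summable fun n : ℕ => (idealCount K n : ℝ) * g n) :
    HasSum (fun I : Ideal (𝓞 K) => g (absNorm I)) (∑' n : ℕ, (idealCount K n : ℝ) * g n) := by
  have hfin : ∀ n, Finite {I : Ideal (𝓞 K) // absNorm I = n} := fun n =>
    (finite_setOfPred_absNorm_eq n).to_subtype
  have hin : ∀ n, HasSum (fun I : {I : Ideal (𝓞 K) // absNorm I = n} => g (absNorm I.1))
      ((idealCount K n : ℝ) * g n) := by
    intro n
    have := hfin n
    have h1 : (fun I : {I : Ideal (𝓞 K) // absNorm I = n} => g (absNorm I.1)) = fun _ => g n := by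
      ext I; rw [I.2]
    rw [h1]
    have h0 : Summable fun _ : {I : Ideal (𝓞 K) // absNorm I = n} => g n := Summable.of_finite
    have h2 := h0.hasSum
    rwa [tsum_const, nsmul_eq_mul] at h2
  rw [← (Equiv.sigmaFiberEquiv (fun I : Ideal (𝓞 K) => absNorm I)).hasSum_iff]
  have hs : Summable ((fun I : Ideal (𝓞 K) => g (absNorm I)) ∘
      (Equiv.sigmaFiberEquiv (fun I : Ideal (𝓞 K) => absNorm I))) := by
    refine (summable_sigma_of_nonneg fun x => hg _).mpr ⟨fun n => (hin n).summable, ?_⟩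
    exact h.congr fun n => (hin n).tsum_eq.symm
  have := hs.hasSum.sigma hin
  rw [this.tsum_eq]
  exact hs.hasSum

variable {K}

/-- The weight `N(I)^(-s)`. -/
def wt (s : ℝ) (I : Ideal (𝓞 K)) : ℝ := (absNorm I : ℝ) ^ (-s)

lemma wt_nonneg (s : ℝ) (I : Ideal (𝓞 K)) : 0 ≤ wt s I := by unfold wt; positivity

lemma wt_mul (s : ℝ) (I J : Ideal (𝓞 K)) : wt s (I * J) = wt s I * wt s J := by
  unfold wt
  rw [map_mul, Nat.cast_mul, Real.mul_rpow (Nat.cast_nonneg _) (Nat.cast_nonneg _)]

lemma hasSum_wt {s : ℝ} (hs : 1 < s) : HasSum (wt s : Ideal (𝓞 K) → ℝ) (zetaR K s) :=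
  hasSum_norm K (g := fun n => (n : ℝ) ^ (-s)) (fun n => by positivity)
    (summable_idealCount K hs)

open Classical in
lemma sieve_identity {s : ℝ} (hs : 1 < s) (S : Finset (Ideal (𝓞 K))) (hS : ∀ P ∈ S, Prime P) :
    ∑' I : Ideal (𝓞 K), (if ∀ P ∈ S, ¬ P ∣ I then wt s I else 0) =
      (∏ P ∈ S, (1 - wt s P)) * zetaR K s := by
  have hsm : ∀ (q : Ideal (𝓞 K) → Prop) [DecidablePred q],
      Summable fun I => if q I then wt s I else 0 := by
    intro q _
    refine Summable.of_nonneg_of_le (fun I => ?_) (fun I => ?_) (hasSum_wt hs).summable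
    · split_ifs; exacts [wt_nonneg _ _, le_rfl]
    · split_ifs; exacts [le_rfl, wt_nonneg _ _]
  induction S using Finset.induction_on with
  | empty => simpa using (hasSum_wt hs).tsum_eq
  | insert P S hP ih =>
    have hS' : ∀ Q ∈ S, Prime Q := fun Q hQ => hS Q (mem_insert_of_mem hQ)
    have hPp : Prime P := hS P (mem_insert_self _ _)
    rw [Finset.prod_insert hP, mul_assoc, ← ih hS', sub_mul, one_mul, ← tsum_mul_left]
    have h1 : ∑' J : Ideal (𝓞 K), wt s P * (if ∀ Q ∈ S, ¬ Q ∣ J then wt s J else 0) =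
        ∑' I : Ideal (𝓞 K), (if (∀ Q ∈ S, ¬ Q ∣ I) ∧ P ∣ I then wt s I else 0) := by
      have hinj : Function.Injective fun J : Ideal (𝓞 K) => P * J :=
        mul_right_injective₀ hPp.ne_zero
      rw [← hinj.tsum_eq (f := fun I => if (∀ Q ∈ S, ¬ Q ∣ I) ∧ P ∣ I then wt s I else 0)]
      · refine tsum_congr fun J => ?_
        have : (∀ Q ∈ S, ¬ Q ∣ P * J) ↔ (∀ Q ∈ S, ¬ Q ∣ J) := by
          refine forall₂_congr fun Q hQ => not_congr ⟨fun h => ?_, fun h => h.mul_left _⟩
          rcases (hS' Q hQ).dvd_or_dvd h with h | h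
          · have := (hS' Q hQ).associated_of_dvd hPp h
            rw [associated_iff_eq] at this
            exact absurd (this ▸ hQ) hP
          · exact h
        simp only [this, dvd_mul_right, and_true]
        split_ifs
        · rw [wt_mul]
        · simp
      · intro I hI
        by_contra hne
        apply hI
        have : ¬ P ∣ I := fun ⟨J, hJ⟩ => hne ⟨J, hJ.symm⟩
        simp [this]
    rw [h1, ← (hsm _).tsum_sub (hsm _)]
    refine tsum_congr fun I => ?_
    by_cases h1 : ∀ Q ∈ S, ¬ Q ∣ I <;> by_cases h2 : P ∣ I <;> simp [h1, h2]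

lemma two_le_absNorm {P : Ideal (𝓞 K)} (hP : Prime P) : 2 ≤ absNorm P := by
  have h0 : absNorm P ≠ 0 := by rw [Ne, absNorm_eq_zero_iff]; exact hP.ne_zero
  have h1 : absNorm P ≠ 1 := by
    rw [Ne, absNorm_eq_one_iff, ← Ideal.one_eq_top]; exact hP.ne_one
  omega

lemma wt_le_inv {s : ℝ} (hs : 1 ≤ s) (I : Ideal (𝓞 K)) : wt s I ≤ (absNorm I : ℝ)⁻¹ := by
  unfold wt
  rcases Nat.eq_zero_or_pos (absNorm I) with h | h
  · simp [h, Real.zero_rpow (show -s ≠ 0 by linarith)]
  · rw [← Real.rpow_neg_one]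
    exact Real.rpow_le_rpow_of_exponent_le (by exact_mod_cast h) (by linarith)

lemma wt_le_half {s : ℝ} (hs : 1 ≤ s) {P : Ideal (𝓞 K)} (hP : Prime P) : wt s P ≤ 1 / 2 := by
  refine (wt_le_inv hs P).trans ?_
  have : (2 : ℝ) ≤ absNorm P := by exact_mod_cast two_le_absNorm hP
  rw [← one_div]
  exact one_div_le_one_div_of_le (by norm_num) this

lemma neg_log_bounds {x : ℝ} (h0 : 0 ≤ x) (h1 : x ≤ 1 / 2) :
    x ≤ -Real.log (1 - x) ∧ -Real.log (1 - x) ≤ x + 2 * x ^ 2 := by
  constructor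
  · have := Real.log_le_sub_one_of_pos (show 0 < 1 - x by linarith)
    linarith
  · have := Real.one_sub_inv_le_log_of_pos (show 0 < 1 - x by linarith)
    have h2 : (1 - x)⁻¹ ≤ 1 + x + 2 * x ^ 2 := by
      rw [inv_le_iff_one_le_mul₀ (by linarith)]
      nlinarith [mul_nonneg h0 h0, mul_nonneg (mul_nonneg h0 h0) (show 0 ≤ 1 - 2 * x by linarith)]
    linarith

open Classical in
/-- The logarithm of the local factor. -/
def lf (s : ℝ) (I : Ideal (𝓞 K)) : ℝ := if Prime I then -Real.log (1 - wt s I) else 0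

lemma lf_nonneg {s : ℝ} (hs : 1 ≤ s) (I : Ideal (𝓞 K)) : 0 ≤ lf s I := by
  unfold lf; split_ifs with h
  · exact (wt_nonneg s I).trans (neg_log_bounds (wt_nonneg s I) (wt_le_half hs h)).1
  · exact le_rfl

lemma lf_le {s : ℝ} (hs : 1 ≤ s) (I : Ideal (𝓞 K)) : lf s I ≤ 2 * wt s I := by
  have h0 := wt_nonneg s I
  unfold lf; split_ifs with h
  · have h1 := wt_le_half hs h
    have := (neg_log_bounds h0 h1).2
    nlinarith
  · positivity

lemma tsum_lf {s : ℝ} (hs : 1 < s) : ∑' I : Ideal (𝓞 K), lf s I = Real.log (zetaR K s) := by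
  classical
  set S : ℕ → Finset (Ideal (𝓞 K)) := fun y =>
    (finite_setOfPred_absNorm_le (S := 𝓞 K) y).toFinset.filter Prime with hS
  have hmem : ∀ y P, P ∈ S y ↔ absNorm P ≤ y ∧ Prime P := fun y P => by simp [hS]
  have hsw := (hasSum_wt (K := K) hs).summable
  have h1 : Tendsto (fun y => ∑' I : Ideal (𝓞 K), (if ∀ P ∈ S y, ¬ P ∣ I then wt s I else 0))
      atTop (𝓝 (∑' I : Ideal (𝓞 K), if I = ⊤ then (1 : ℝ) else 0)) := by
    refine tendsto_tsum_of_dominated_convergence hsw (fun I => ?_)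
      (Eventually.of_forall fun y I => ?_)
    · by_cases hI : I = ⊤
      · subst hI
        refine tendsto_const_nhds.congr fun y => ?_
        rw [if_pos rfl, if_pos]
        · simp [wt]
        · intro P hP h
          rw [← Ideal.one_eq_top] at h
          exact ((hmem y P).mp hP).2.not_dvd_one h
      · rw [if_neg hI]
        by_cases hI0 : I = ⊥
        · subst hI0
          refine tendsto_const_nhds.congr fun y => ?_
          simp [wt, Real.zero_rpow (show -s ≠ 0 by linarith)]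
        · obtain ⟨P, hP, hPI⟩ := WfDvdMonoid.exists_irreducible_factor
            (a := I) (by rw [Ideal.isUnit_iff]; exact hI) hI0
          refine tendsto_const_nhds.congr' ?_
          filter_upwards [eventually_ge_atTop (absNorm P)] with y hy
          rw [if_neg]
          push Not
          exact ⟨P, (hmem y P).mpr ⟨hy, hP.prime⟩, hPI⟩
    · rw [Real.norm_eq_abs]
      split_ifs
      · exact (abs_of_nonneg (wt_nonneg _ _)).le
      · simpa using wt_nonneg s I
  rw [tsum_ite_eq] at h1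
  have hsl : Summable (lf s : Ideal (𝓞 K) → ℝ) :=
    Summable.of_nonneg_of_le (lf_nonneg hs.le) (lf_le hs.le) (hsw.mul_left 2)
  have h2 : Tendsto (fun y => ∑' I : Ideal (𝓞 K), (if absNorm I ≤ y then lf s I else 0))
      atTop (𝓝 (∑' I : Ideal (𝓞 K), lf s I)) := by
    refine tendsto_tsum_of_dominated_convergence hsl (fun I => ?_)
      (Eventually.of_forall fun y I => ?_)
    · refine tendsto_const_nhds.congr' ?_
      filter_upwards [eventually_ge_atTop (absNorm I)] with y hy
      rw [if_pos hy]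
    · rw [Real.norm_eq_abs]
      split_ifs
      · exact (abs_of_nonneg (lf_nonneg hs.le _)).le
      · simpa using lf_nonneg hs.le I
  have hZ : 0 < zetaR K s := by
    have := le_hasSum (hasSum_wt (K := K) hs) ⊤ (fun I _ => wt_nonneg s I)
    have h' : wt s (⊤ : Ideal (𝓞 K)) = 1 := by simp [wt]
    linarith
  have h3 : ∀ y, ∑' I : Ideal (𝓞 K), (if absNorm I ≤ y then lf s I else 0) =
      Real.log (zetaR K s) -
        Real.log (∑' I : Ideal (𝓞 K), (if ∀ P ∈ S y, ¬ P ∣ I then wt s I else 0)) := by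
    intro y
    have hne : ∀ P ∈ S y, 1 - wt s P ≠ 0 := fun P hP => by
      have := wt_le_half hs.le ((hmem y P).mp hP).2
      linarith
    rw [sieve_identity hs (S y) fun P hP => ((hmem y P).mp hP).2,
      Real.log_mul (Finset.prod_ne_zero_iff.mpr hne) hZ.ne', Real.log_prod hne,
      tsum_eq_sum (s := S y)]
    · rw [show ∀ a b : ℝ, a - (b + a) = -b from fun a b => by ring, ← Finset.sum_neg_distrib]
      refine Finset.sum_congr rfl fun P hP => ?_
      obtain ⟨h1, h2⟩ := (hmem y P).mp hP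
      rw [if_pos h1, lf, if_pos h2]
    · intro P hP
      split_ifs with h
      · rw [lf, if_neg fun h' => hP ((hmem y P).mpr ⟨h, h'⟩)]
      · rfl
  have h4 := ((h1.log one_ne_zero).const_sub (Real.log (zetaR K s)))
  rw [Real.log_one, sub_zero] at h4
  exact tendsto_nhds_unique h2 (h4.congr fun y => (h3 y).symm)

lemma card_le_finrank {p : ℕ} (hp : p.Prime) (T : Finset (Ideal (𝓞 K)))
    (hT : ∀ P ∈ T, Prime P ∧ (p : 𝓞 K) ∈ P ∧ p ∣ absNorm P) :
    T.card ≤ Module.finrank ℤ (𝓞 K) := by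
  have h1 : ∏ P ∈ T, P ∣ span {(p : 𝓞 K)} :=
    Finset.prod_primes_dvd _ (fun P hP => (hT P hP).1) fun P hP => by
      rw [Ideal.dvd_iff_le, span_singleton_le_iff_mem]; exact (hT P hP).2.1
  have h2 := map_dvd (absNorm (S := 𝓞 K)) h1
  rw [map_prod, absNorm_span_natCast] at h2
  have h3 : p ^ T.card ∣ ∏ P ∈ T, absNorm P := by
    rw [← Finset.prod_const]
    exact Finset.prod_dvd_prod_of_dvd _ _ fun P hP => (hT P hP).2.2
  exact (Nat.pow_dvd_pow_iff_le_right hp.one_lt).mp (h3.trans h2)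

lemma prime_of_absNorm_prime {I : Ideal (𝓞 K)} (h : (absNorm I).Prime) : Prime I :=
  (irreducible_of_irreducible_absNorm h).prime

variable (K) in
lemma idealCount_le {p : ℕ} (hp : p.Prime) : idealCount K p ≤ Module.finrank ℤ (𝓞 K) := by
  have hf := finite_setOfPred_absNorm_eq (S := 𝓞 K) p
  have : idealCount K p = hf.toFinset.card := by
    rw [idealCount, ← Set.ncard_eq_toFinset_card _ hf]; rfl
  rw [this]
  refine card_le_finrank hp _ fun P hP => ?_
  have hP' : absNorm P = p := by simpa using hP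
  exact ⟨prime_of_absNorm_prime (hP' ▸ hp), hP' ▸ absNorm_mem P, hP' ▸ dvd_rfl⟩

open Classical in
lemma summable_higher : Summable fun I : Ideal (𝓞 K) =>
    if Prime I ∧ ¬ (absNorm I).Prime then (absNorm I : ℝ)⁻¹ else 0 := by
  have hs2 : Summable fun n : ℕ => ((n : ℝ) ^ 2)⁻¹ := Real.summable_nat_pow_inv.mpr one_lt_two
  refine summable_of_sum_le (c := Module.finrank ℤ (𝓞 K) * ∑' n : ℕ, ((n : ℝ) ^ 2)⁻¹)
    (fun I => by split_ifs <;> positivity) fun T => ?_
  rw [← Finset.sum_filter]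
  set T' := T.filter fun I => Prime I ∧ ¬ (absNorm I).Prime with hT'
  have hdata : ∀ I ∈ T', ((absNorm I).minFac).Prime ∧ Prime I ∧
      (((absNorm I).minFac : ℕ) : 𝓞 K) ∈ I ∧ (absNorm I).minFac ^ 2 ≤ absNorm I := by
    intro I hI
    obtain ⟨h1, h2⟩ := (mem_filter.mp hI).2
    have : I.IsMaximal := (Ideal.isPrime_of_prime h1).isMaximal h1.ne_zero
    obtain ⟨p, n, hn, hpI, hp, hN⟩ := exists_prime_and_absNorm_eq_pow I
    have hm : (absNorm I).minFac = p := by rw [hN, hp.pow_minFac hn.ne']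
    have hn2 : 2 ≤ n := by
      by_contra hlt
      have : n = 1 := by omega
      rw [this, pow_one] at hN
      exact h2 (hN ▸ hp)
    rw [hm]
    exact ⟨hp, h1, hpI, hN ▸ Nat.pow_le_pow_right hp.pos hn2⟩
  calc ∑ I ∈ T', (absNorm I : ℝ)⁻¹ ≤ ∑ I ∈ T', ((((absNorm I).minFac : ℕ) : ℝ) ^ 2)⁻¹ := by
        refine Finset.sum_le_sum fun I hI => ?_
        obtain ⟨h1, -, -, h4⟩ := hdata I hI
        have : (0 : ℝ) < (absNorm I).minFac := by exact_mod_cast h1.pos
        exact inv_anti₀ (by positivity) (by exact_mod_cast h4)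
    _ = ∑ p ∈ T'.image fun I => (absNorm I).minFac,
          (T'.filter fun I => (absNorm I).minFac = p).card • ((p : ℝ) ^ 2)⁻¹ :=
        Finset.sum_comp (fun p : ℕ => ((p : ℝ) ^ 2)⁻¹) fun I => (absNorm I).minFac
    _ ≤ ∑ p ∈ T'.image fun I => (absNorm I).minFac,
          (Module.finrank ℤ (𝓞 K) : ℝ) * ((p : ℝ) ^ 2)⁻¹ := by
        refine Finset.sum_le_sum fun p hp => ?_
        obtain ⟨I₀, hI₀, rfl⟩ := mem_image.mp hp
        rw [nsmul_eq_mul]
        refine mul_le_mul_of_nonneg_right ?_ (by positivity)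
        exact_mod_cast card_le_finrank (hdata I₀ hI₀).1 _ fun P hP => by
          obtain ⟨h1, h2⟩ := mem_filter.mp hP
          obtain ⟨-, h4, h5, -⟩ := hdata P h1
          exact ⟨h4, h2 ▸ h5, h2 ▸ Nat.minFac_dvd _⟩
    _ ≤ _ := by
        rw [← Finset.mul_sum]
        exact mul_le_mul_of_nonneg_left (hs2.sum_le_tsum _ fun n _ => by positivity)
          (Nat.cast_nonneg _)

variable (K) in
/-- The sum over primes of `a(p) p^(-1-ε)` is `log (1/ε)` plus a constant plus `o(1)`. -/
theorem tendsto_prime_ideal_sum : ∃ L : ℝ,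
    Tendsto (fun ε : ℝ => ∑' n : ℕ, (idealCount K n * pw n) * (n : ℝ) ^ (-ε) + Real.log ε)
      (𝓝[>] 0) (𝓝 L) := by
  classical
  set u : ℝ → Ideal (𝓞 K) → ℝ := fun s I => if (absNorm I).Prime then wt s I else 0 with hu
  set r : ℝ → Ideal (𝓞 K) → ℝ := fun s I => lf s I - u s I with hr
  have hbd : ∀ s, 1 ≤ s → ∀ I, ‖r s I‖ ≤ 2 * wt 2 I +
      2 * (if Prime I ∧ ¬ (absNorm I).Prime then (absNorm I : ℝ)⁻¹ else 0) := by
    intro s hs I
    have h0 := wt_nonneg s I
    have h02 := wt_nonneg 2 I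
    rw [Real.norm_eq_abs]
    by_cases h1 : (absNorm I).Prime
    · have hP := prime_of_absNorm_prime h1
      obtain ⟨b1, b2⟩ := neg_log_bounds h0 (wt_le_half hs hP)
      simp only [hr, hu, lf, h1, hP, if_true, not_true, and_false, if_false]
      have : wt s I ^ 2 ≤ wt 2 I := by
        have h2 : wt 2 I = ((absNorm I : ℝ)⁻¹) ^ 2 := by
          unfold wt
          rw [Real.rpow_neg (Nat.cast_nonneg _), inv_pow]
          norm_num
        rw [h2]
        exact pow_le_pow_left₀ h0 (wt_le_inv hs I) 2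
      rw [abs_le]; constructor <;> linarith
    · simp only [hr, hu, h1, if_false, sub_zero, not_false_iff, and_true]
      rw [abs_of_nonneg (lf_nonneg hs I)]
      split_ifs with hP
      · have := lf_le hs I
        have := wt_le_inv hs I
        linarith
      · rw [lf, if_neg hP]; positivity
  have hsb : Summable fun I : Ideal (𝓞 K) => 2 * wt 2 I +
      2 * (if Prime I ∧ ¬ (absNorm I).Prime then (absNorm I : ℝ)⁻¹ else 0) :=
    ((hasSum_wt one_lt_two).summable.mul_left 2).add (summable_higher.mul_left 2)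
  have hone : Tendsto (fun ε : ℝ => 1 + ε) (𝓝[>] 0) (𝓝 1) := by
    have : Tendsto (fun ε : ℝ => 1 + ε) (𝓝 0) (𝓝 (1 + 0)) := tendsto_id.const_add 1
    rw [add_zero] at this
    exact this.mono_left nhdsWithin_le_nhds
  have hone' : Tendsto (fun ε : ℝ => 1 + ε) (𝓝[>] 0) (𝓝[>] 1) :=
    tendsto_nhdsWithin_iff.mpr ⟨hone, by
      filter_upwards [self_mem_nhdsWithin] with ε hε
      exact lt_add_of_pos_right 1 (show 0 < ε from hε)⟩
  have h1 : Tendsto (fun ε : ℝ => ∑' I, r (1 + ε) I) (𝓝[>] 0) (𝓝 (∑' I, r 1 I)) := by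
    refine tendsto_tsum_of_dominated_convergence hsb (fun I => ?_) ?_
    · by_cases hP : Prime I
      · have hN : (absNorm I : ℝ) ≠ 0 := by
          have := two_le_absNorm hP
          positivity
        have hw : Tendsto (fun ε : ℝ => wt (1 + ε) I) (𝓝[>] 0) (𝓝 (wt 1 I)) :=
          ((Real.continuousAt_const_rpow hN).tendsto).comp hone.neg
        have hne : 1 - wt 1 I ≠ 0 := by
          have := wt_le_half le_rfl hP
          linarith
        simp only [hr, hu, lf, hP, if_true]
        refine ((hw.const_sub 1).log hne).neg.sub ?_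
        split_ifs
        · exact hw
        · exact tendsto_const_nhds
      · have : ¬ (absNorm I).Prime := fun h => hP (prime_of_absNorm_prime h)
        simp only [hr, hu, lf, hP, this, if_false]
        exact tendsto_const_nhds
    · filter_upwards [self_mem_nhdsWithin] with ε hε I
      exact hbd _ (le_add_of_nonneg_right (le_of_lt hε)) I
  have h2 := (((tendsto_zetaR K).comp hone').log (dedekindZeta_residue_ne_zero K)).sub h1
  refine ⟨_, h2.congr' ?_⟩
  filter_upwards [self_mem_nhdsWithin] with ε hε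
  have hε' : 0 < ε := hε
  have hs : 1 < 1 + ε := by linarith
  have hZ : 0 < zetaR K (1 + ε) := by
    have := le_hasSum (hasSum_wt (K := K) hs) ⊤ (fun I _ => wt_nonneg _ I)
    have h' : wt (1 + ε) (⊤ : Ideal (𝓞 K)) = 1 := by simp [wt]
    linarith
  simp only [Function.comp, add_sub_cancel_left]
  rw [Real.log_mul hε'.ne' hZ.ne', ← tsum_lf hs]
  have hsw := (hasSum_wt (K := K) hs).summable
  have hsl : Summable (lf (1 + ε) : Ideal (𝓞 K) → ℝ) :=
    Summable.of_nonneg_of_le (lf_nonneg hs.le) (lf_le hs.le) (hsw.mul_left 2)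
  have hg : ∀ n : ℕ, (if n.Prime then (n : ℝ) ^ (-(1 + ε)) else 0) = pw n * (n : ℝ) ^ (-ε) := by
    intro n
    unfold pw
    split_ifs with h
    · rw [show -(1 + ε) = -1 + -ε by ring, Real.rpow_add (by exact_mod_cast h.pos),
        Real.rpow_neg_one]
    · simp
  have hu' := hasSum_norm K (g := fun n => if n.Prime then (n : ℝ) ^ (-(1 + ε)) else 0)
    (fun n => by split_ifs <;> positivity) (by
      refine Summable.of_nonneg_of_le (fun n => by split_ifs <;> positivity) (fun n => ?_)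
        (summable_idealCount K hs)
      split_ifs
      · exact le_rfl
      · rw [mul_zero]; positivity)
  have h3 : ∑' I, r (1 + ε) I = ∑' I : Ideal (𝓞 K), lf (1 + ε) I -
      ∑' n : ℕ, (idealCount K n * pw n) * (n : ℝ) ^ (-ε) := by
    have := (hsl.hasSum.sub hu').tsum_eq
    simp only [hg, ← mul_assoc] at this
    rw [← this]
    refine tsum_congr fun I => ?_
    simp only [hr, hu, wt, hg]
  rw [h3]; ring

end Pool.Agent.Work.MP_51e72e_nt
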