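import Pool.Agent.Work.MP_51e72e_nt.NFEuler
import Mathlib.RingTheory.Polynomial.GaussLemma
import Mathlib.RingTheory.Polynomial.ScaleRoots

/-!
# Ideals of prime norm and roots modulo `p`
-/

noncomputable section

open Finset NumberField Ideal Polynomial

namespace Pool.Agent.Work.MP_51e72e_nt

/-- Number of roots of `f` modulo `p`. -/
def omega (f : ℤ[X]) (p : ℕ) : ℕ :=
  ((range p).filter fun n : ℕ => (p : ℤ) ∣ f.eval (n : ℤ)).card

lemma aeval_intCast (f : ℤ[X]) (p : ℕ) (n : ℤ) :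
    aeval (n : ZMod p) f = ((f.eval n : ℤ) : ZMod p) := by
  have := aeval_algebraMap_apply (ZMod p) n f
  simpa using this

lemma omega_eq_card (f : ℤ[X]) (p : ℕ) [NeZero p] :
    omega f p = Nat.card {r : ZMod p // aeval r f = 0} := by
  classical
  rw [Nat.card_eq_fintype_card, Fintype.card_subtype, omega]
  refine Finset.card_bij (fun n _ => (n : ZMod p)) (fun n hn => ?_) (fun a ha b hb h => ?_)
    (fun r hr => ?_)
  · have h := (mem_filter.mp hn).2
    refine mem_filter.mpr ⟨mem_univ _, ?_⟩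
    have := aeval_intCast f p (n : ℤ)
    rw [Int.cast_natCast] at this
    rw [this, ZMod.intCast_zmod_eq_zero_iff_dvd]; exact h
  · have ha' := mem_range.mp (mem_filter.mp ha).1
    have hb' := mem_range.mp (mem_filter.mp hb).1
    have := congrArg ZMod.val h
    rwa [ZMod.val_cast_of_lt ha', ZMod.val_cast_of_lt hb'] at this
  · refine ⟨r.val, mem_filter.mpr ⟨mem_range.mpr (ZMod.val_lt r), ?_⟩, ZMod.natCast_zmod_val r⟩
    have h := (mem_filter.mp hr).2
    have := aeval_intCast f p (r.val : ℤ)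
    rw [Int.cast_natCast, ZMod.natCast_zmod_val, h] at this
    rw [← ZMod.intCast_zmod_eq_zero_iff_dvd, ← this]

variable {K : Type*} [Field K] [NumberField K]

lemma idealCount_eq_card_hom {p : ℕ} (hp : p.Prime) :
    idealCount K p = Nat.card (𝓞 K →+* ZMod p) := by
  have : Fact p.Prime := ⟨hp⟩
  have hker : ∀ φ : 𝓞 K →+* ZMod p, absNorm (RingHom.ker φ) = p := by
    intro φ
    rw [absNorm_apply, Submodule.cardQuot_apply]
    have e := RingHom.quotientKerEquivOfSurjective (ZMod.ringHom_surjective φ)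
    rw [Nat.card_congr e.toEquiv, Nat.card_zmod]
  refine (Nat.card_congr (Equiv.ofBijective
    (fun φ : 𝓞 K →+* ZMod p => (⟨RingHom.ker φ, hker φ⟩ : {I : Ideal (𝓞 K) // absNorm I = p}))
    ⟨fun φ ψ h => ?_, fun I => ?_⟩)).symm
  · have h' : RingHom.ker φ = RingHom.ker ψ := congrArg Subtype.val h
    ext x
    have h1 : x - ((φ x).val : 𝓞 K) ∈ RingHom.ker φ := by
      rw [RingHom.mem_ker, map_sub, map_natCast, ZMod.natCast_zmod_val, sub_self]
    rw [h', RingHom.mem_ker, map_sub, map_natCast, ZMod.natCast_zmod_val, sub_eq_zero] at h1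
    exact h1.symm
  · have hc : Nat.card (𝓞 K ⧸ I.1) = p := by
      rw [← Submodule.cardQuot_apply, ← absNorm_apply]; exact I.2
    have : Finite (𝓞 K ⧸ I.1) := Nat.finite_of_card_ne_zero (by rw [hc]; exact hp.ne_zero)
    have := Fintype.ofFinite (𝓞 K ⧸ I.1)
    have e := ZMod.ringEquivOfPrime (𝓞 K ⧸ I.1) hp (by rw [← Nat.card_eq_fintype_card, hc])
    refine ⟨e.symm.toRingHom.comp (Ideal.Quotient.mk I.1), Subtype.ext ?_⟩
    ext x
    simp [RingHom.mem_ker, Ideal.Quotient.eq_zero_iff_mem]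

omit [NumberField K] in
lemma card_hom_eq {f : ℤ[X]} {α : K} (hα : aeval α f = 0)
    (hdvd : ∀ Q : ℤ[X], aeval α Q = 0 → f ∣ Q) {m : ℤ}
    (hm : ∀ x : 𝓞 K, ∃ Q : ℤ[X], (m : K) * x = aeval α Q) {p : ℕ} (hp : p.Prime)
    (hpm : ¬ (p : ℤ) ∣ m) (hpa : ¬ (p : ℤ) ∣ f.leadingCoeff) :
    Nat.card (𝓞 K →+* ZMod p) = Nat.card {r : ZMod p // aeval r f = 0} := by
  have : Fact p.Prime := ⟨hp⟩
  set a := f.leadingCoeff with ha
  have hm0 : (m : ZMod p) ≠ 0 := by rwa [Ne, ZMod.intCast_zmod_eq_zero_iff_dvd]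
  have ha0 : (a : ZMod p) ≠ 0 := by rwa [Ne, ZMod.intCast_zmod_eq_zero_iff_dvd]
  let θ : 𝓞 K := ⟨a • α, isIntegral_leadingCoeff_smul f α hα⟩
  have hθ : (θ : K) = (a : K) * α := by simp [θ]
  have hscale : ∀ Q : ℤ[X], ((aeval θ (scaleRoots Q a) : 𝓞 K) : K) =
      (a : K) ^ Q.natDegree * aeval α Q := by
    intro Q
    have h1 := aeval_algebraMap_apply K θ (scaleRoots Q a)
    have h2 := scaleRoots_eval₂_mul (p := Q) (algebraMap ℤ K) α a
    rw [← aeval_def, ← aeval_def] at h2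
    simp only [eq_intCast] at h2
    rw [← h2, ← hθ]
    exact h1.symm
  have hscale' : ∀ (Q : ℤ[X]) (r : ZMod p), aeval ((a : ZMod p) * r) (scaleRoots Q a) =
      (a : ZMod p) ^ Q.natDegree * aeval r Q := by
    intro Q r
    have h2 := scaleRoots_eval₂_mul (p := Q) (algebraMap ℤ (ZMod p)) r a
    rw [← aeval_def, ← aeval_def] at h2
    simpa only [eq_intCast] using h2
  have hφ : ∀ (φ : 𝓞 K →+* ZMod p) (Q : ℤ[X]), φ (aeval θ Q) = aeval (φ θ) Q := fun φ Q =>
    (aeval_algHom_apply φ.toIntAlgHom θ Q).symm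
  -- the root attached to a homomorphism
  have hroot : ∀ φ : 𝓞 K →+* ZMod p, aeval ((a : ZMod p)⁻¹ * φ θ) f = 0 := by
    intro φ
    have h1 : aeval θ (scaleRoots f a) = 0 := by
      apply Subtype.ext
      have := hscale f
      rw [hα, mul_zero] at this
      exact this
    have h2 := hφ φ (scaleRoots f a)
    rw [h1, map_zero] at h2
    have h3 := hscale' f ((a : ZMod p)⁻¹ * φ θ)
    rw [mul_inv_cancel_left₀ ha0, ← h2] at h3
    exact (mul_eq_zero.mp h3.symm).resolve_left (pow_ne_zero _ ha0)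
  have hval : ∀ (φ : 𝓞 K →+* ZMod p) (x : 𝓞 K) (Q : ℤ[X]), (m : K) * x = aeval α Q →
      (m : ZMod p) * φ x = aeval ((a : ZMod p)⁻¹ * φ θ) Q := by
    intro φ x Q hQ
    have h1 : aeval θ (scaleRoots Q a) = (a : 𝓞 K) ^ Q.natDegree * ((m : 𝓞 K) * x) := by
      apply Subtype.ext
      have := hscale Q
      rw [← hQ] at this
      exact this.trans rfl
    have h2 := hφ φ (scaleRoots Q a)
    have h3 := hscale' Q ((a : ZMod p)⁻¹ * φ θ)
    rw [mul_inv_cancel_left₀ ha0, ← h2, h1, map_mul, map_mul, map_pow, map_intCast,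
      map_intCast] at h3
    exact mul_left_cancel₀ (pow_ne_zero _ ha0) h3
  refine Nat.card_congr (Equiv.ofBijective
    (fun φ : 𝓞 K →+* ZMod p => (⟨_, hroot φ⟩ : {r : ZMod p // aeval r f = 0}))
    ⟨fun φ ψ h => ?_, fun r => ?_⟩)
  · have h' : (a : ZMod p)⁻¹ * φ θ = (a : ZMod p)⁻¹ * ψ θ := congrArg Subtype.val h
    ext x
    obtain ⟨Q, hQ⟩ := hm x
    apply mul_left_cancel₀ hm0
    rw [hval φ x Q hQ, hval ψ x Q hQ, h']
  · choose Q hQ using hm
    have hwd : ∀ Q₁ Q₂ : ℤ[X], aeval α Q₁ = aeval α Q₂ → aeval r.1 Q₁ = aeval r.1 Q₂ := by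
      intro Q₁ Q₂ h
      obtain ⟨R, hR⟩ := hdvd (Q₁ - Q₂) (by rw [map_sub, h, sub_self])
      rw [← sub_eq_zero, ← map_sub, hR, map_mul, r.2, zero_mul]
    have hCm : ∀ {A : Type} [CommRing A] (t : A), aeval t (C m) = (m : A) := fun t => by simp
    have hCK : aeval α (C m) = (m : K) := by simp
    let φ : 𝓞 K →+* ZMod p :=
      { toFun := fun x => (m : ZMod p)⁻¹ * aeval r.1 (Q x)
        map_one' := by
          rw [hwd (Q 1) (C m) (by rw [← hQ, hCK]; simp), hCm, inv_mul_cancel₀ hm0]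
        map_mul' := fun x y => by
          have := hwd (C m * Q (x * y)) (Q x * Q y) (by
            rw [map_mul, map_mul, ← hQ, ← hQ, ← hQ, hCK]; push_cast; ring)
          rw [map_mul, map_mul, hCm] at this
          field_simp
          rw [← this]
        map_zero' := by
          rw [hwd (Q 0) 0 (by rw [← hQ]; simp)]; simp
        map_add' := fun x y => by
          rw [hwd (Q (x + y)) (Q x + Q y) (by
            rw [map_add, ← hQ, ← hQ, ← hQ]; push_cast; ring), map_add, mul_add] }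
    refine ⟨φ, Subtype.ext ?_⟩
    have : aeval r.1 (Q θ) = aeval r.1 (C m * (C a * X)) :=
      hwd _ _ (by rw [← hQ, hθ]; simp)
    change (a : ZMod p)⁻¹ * ((m : ZMod p)⁻¹ * aeval r.1 (Q θ)) = r.1
    rw [this]
    simp only [map_mul, aeval_X, eq_intCast, map_intCast]
    field_simp

theorem exists_field_of_irreducible {f : ℤ[X]} (hf : Irreducible f) (hd : 0 < f.natDegree) :
    ∃ (K : Type) (_ : Field K) (_ : NumberField K) (m : ℕ), m ≠ 0 ∧
      ∀ p : ℕ, p.Prime → ¬ p ∣ m → idealCount K p = omega f p := by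
  have hprim : f.IsPrimitive := hf.isPrimitive hd.ne'
  have hirr : Irreducible (f.map (Int.castRingHom ℚ)) :=
    (IsPrimitive.Int.irreducible_iff_irreducible_map_cast hprim).mp hf
  have : Fact (Irreducible (f.map (Int.castRingHom ℚ))) := ⟨hirr⟩
  let K := AdjoinRoot (f.map (Int.castRingHom ℚ))
  let α : K := AdjoinRoot.root _
  have hmk : ∀ Q : ℤ[X], aeval α Q = AdjoinRoot.mk _ (Q.map (Int.castRingHom ℚ)) := by
    intro Q
    rw [← AdjoinRoot.aeval_eq]
    exact (aeval_map_algebraMap ℚ α Q).symm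
  have hα : aeval α f = 0 := by rw [hmk, AdjoinRoot.mk_self]
  have hdvd : ∀ Q : ℤ[X], aeval α Q = 0 → f ∣ Q := by
    intro Q hQ
    rw [hmk, AdjoinRoot.mk_eq_zero] at hQ
    exact (IsPrimitive.Int.dvd_iff_map_cast_dvd_map_cast f Q hprim).mpr hQ
  have hloc : ∀ x : K, ∃ b : ℤ, b ≠ 0 ∧ ∃ Q : ℤ[X], (b : K) * x = aeval α Q := by
    intro x
    obtain ⟨g, rfl⟩ := AdjoinRoot.mk_surjective x
    obtain ⟨b, hb, hb'⟩ := IsLocalization.integerNormalization_spec (nonZeroDivisors ℤ) g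
    refine ⟨b, nonZeroDivisors.ne_zero hb, IsLocalization.integerNormalization
      (nonZeroDivisors ℤ) g, ?_⟩
    rw [algebraMap_int_eq] at hb'
    rw [hmk, hb', zsmul_eq_mul, map_mul, map_intCast]
  have hglob : ∃ m : ℤ, m ≠ 0 ∧ ∀ x : 𝓞 K, ∃ Q : ℤ[X], (m : K) * x = aeval α Q := by
    choose b hb Q hQ using hloc
    let B := RingOfIntegers.basis K
    refine ⟨∏ i, b (B i), Finset.prod_ne_zero_iff.mpr fun i _ => hb _, fun x => ?_⟩
    classical
    refine ⟨∑ i, C (B.repr x i * ∏ j ∈ univ.erase i, b (B j)) * Q (B i), ?_⟩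
    conv_lhs => rw [← B.sum_repr x]
    rw [map_sum]
    push_cast
    rw [Finset.mul_sum]
    refine Finset.sum_congr rfl fun i _ => ?_
    rw [map_mul, ← hQ, ← Finset.mul_prod_erase univ _ (mem_univ i)]
    simp only [zsmul_eq_mul, map_mul, eq_intCast, map_intCast, map_prod]
    ring
  obtain ⟨m, hm0, hm⟩ := hglob
  have ha0 : f.leadingCoeff ≠ 0 := leadingCoeff_ne_zero.mpr hf.ne_zero
  refine ⟨K, inferInstance, inferInstance, (m * f.leadingCoeff).natAbs,
    Int.natAbs_ne_zero.mpr (mul_ne_zero hm0 ha0), fun p hp hpm => ?_⟩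
  have : NeZero p := ⟨hp.ne_zero⟩
  rw [idealCount_eq_card_hom hp, omega_eq_card]
  refine card_hom_eq hα hdvd hm hp (fun h => hpm ?_) (fun h => hpm ?_)
  · exact Int.natCast_dvd.mp (h.mul_right _)
  · exact Int.natCast_dvd.mp (h.mul_left _)

end Pool.Agent.Work.MP_51e72e_nt
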