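import Pool.Agent.Lib.ANT.Mertens
import Mathlib.Topology.ContinuousMap.Weierstrass
import Mathlib.Analysis.PSeries

/-!
# A Tauberian theorem for Dirichlet series over primes (Karamata's method)
-/

noncomputable section

open Finset Filter Topology

namespace Pool.Agent.Work.MP_51e72e_nt

open Pool.Agent.Lib.ANT

/-- The weight `1/p` on primes, zero elsewhere. -/
def pw (n : ℕ) : ℝ := if n.Prime then (n : ℝ)⁻¹ else 0

lemma pw_nonneg (n : ℕ) : 0 ≤ pw n := by
  unfold pw; split_ifs <;> positivity

lemma pw_le (n : ℕ) : pw n ≤ (n : ℝ)⁻¹ := by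
  unfold pw; split_ifs
  · exact le_rfl
  · positivity

lemma summable_of_le_pw {c : ℕ → ℝ} {D : ℝ} (hc : ∀ n, |c n| ≤ D * pw n) {ε : ℝ} (hε : 0 < ε)
    {g : ℕ → ℝ} {B : ℝ} (hg : ∀ n, |g n| ≤ B) :
    Summable fun n : ℕ => c n * ((n : ℝ) ^ (-ε) * g n) := by
  have hs : Summable fun n : ℕ => |D| * B * (n : ℝ) ^ (-(1 + ε)) :=
    (Real.summable_nat_rpow.mpr (by linarith)).mul_left _
  refine Summable.of_norm_bounded hs fun n => ?_
  have hB : 0 ≤ B := (abs_nonneg _).trans (hg 0)
  rcases Nat.eq_zero_or_pos n with rfl | hn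
  · have h0 : c 0 = 0 := by
      have := hc 0
      simp [pw, Nat.not_prime_zero] at this
      exact this
    rw [h0, zero_mul, norm_zero]; positivity
  have hn' : (0 : ℝ) < n := by exact_mod_cast hn
  have h1 : |c n| ≤ |D| * (n : ℝ)⁻¹ :=
    (hc n).trans (mul_le_mul (le_abs_self D) (pw_le n) (pw_nonneg n) (abs_nonneg D))
  rw [Real.norm_eq_abs, abs_mul, abs_mul, abs_of_nonneg (Real.rpow_nonneg hn'.le _),
    show -(1 + ε) = -1 + -ε by ring, Real.rpow_add hn', Real.rpow_neg_one]
  calc |c n| * ((n : ℝ) ^ (-ε) * |g n|) ≤ (|D| * (n : ℝ)⁻¹) * ((n : ℝ) ^ (-ε) * B) := by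
        gcongr; exact hg n
    _ = _ := by ring

lemma rpow_neg_mem {ε : ℝ} (hε : 0 < ε) (n : ℕ) : (n : ℝ) ^ (-ε) ∈ Set.Icc (0 : ℝ) 1 := by
  refine ⟨Real.rpow_nonneg (Nat.cast_nonneg n) _, ?_⟩
  rcases Nat.eq_zero_or_pos n with rfl | hn
  · simp [Real.zero_rpow (show -ε ≠ 0 by linarith)]
  · exact Real.rpow_le_one_of_one_le_of_nonpos (by exact_mod_cast hn) (by linarith)

lemma tendsto_mul_nhdsGT {a : ℝ} (ha : 0 < a) :
    Tendsto (fun ε : ℝ => a * ε) (𝓝[>] 0) (𝓝[>] 0) := by
  refine tendsto_nhdsWithin_iff.mpr ⟨?_, ?_⟩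
  · have : Tendsto (fun ε : ℝ => a * ε) (𝓝 0) (𝓝 (a * 0)) := tendsto_id.const_mul a
    rw [mul_zero] at this
    exact this.mono_left nhdsWithin_le_nhds
  · filter_upwards [self_mem_nhdsWithin] with ε hε using mul_pos ha hε

lemma tendsto_poly {c : ℕ → ℝ} {D L : ℝ} (hc : ∀ n, |c n| ≤ D * pw n)
    (hL : Tendsto (fun ε : ℝ => ∑' n : ℕ, c n * (n : ℝ) ^ (-ε)) (𝓝[>] 0) (𝓝 L))
    (P : Polynomial ℝ) :
    Tendsto (fun ε : ℝ => ∑' n : ℕ,
      c n * ((n : ℝ) ^ (-ε) * ((1 - (n : ℝ) ^ (-ε)) * P.eval ((n : ℝ) ^ (-ε))))) (𝓝[>] 0) (𝓝 0) := by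
  have hbd : ∀ Q : Polynomial ℝ, ∃ B, ∀ x ∈ Set.Icc (0 : ℝ) 1, |(1 - x) * Q.eval x| ≤ B := by
    intro Q
    have : ContinuousOn (fun x : ℝ => (1 - x) * Q.eval x) (Set.Icc 0 1) :=
      ((continuous_const.sub continuous_id).mul Q.continuous).continuousOn
    obtain ⟨B, hB⟩ := isCompact_Icc.exists_bound_of_continuousOn this
    exact ⟨B, fun x hx => by simpa using hB x hx⟩
  induction P using Polynomial.induction_on' with
  | add P Q hP hQ =>
    have := hP.add hQ
    rw [add_zero] at this
    refine this.congr' ?_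
    filter_upwards [self_mem_nhdsWithin] with ε hε
    obtain ⟨B, hB⟩ := hbd P
    obtain ⟨B', hB'⟩ := hbd Q
    rw [← Summable.tsum_add (summable_of_le_pw hc hε fun n => hB _ (rpow_neg_mem hε n))
      (summable_of_le_pw hc hε fun n => hB' _ (rpow_neg_mem hε n))]
    refine tsum_congr fun n => ?_
    rw [Polynomial.eval_add]; ring
  | monomial j a =>
    have h1 := hL.comp (tendsto_mul_nhdsGT (a := (j : ℝ) + 1) (by positivity))
    have h2 := hL.comp (tendsto_mul_nhdsGT (a := (j : ℝ) + 2) (by positivity))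
    have := (h1.sub h2).const_mul a
    rw [sub_self, mul_zero] at this
    refine this.congr' ?_
    filter_upwards [self_mem_nhdsWithin] with ε hε
    have hε' : 0 < ε := hε
    simp only [Function.comp]
    have s1 := summable_of_le_pw hc (ε := ((j : ℝ) + 1) * ε) (by positivity) (g := fun _ => 1)
      (B := 1) (by simp)
    have s2 := summable_of_le_pw hc (ε := ((j : ℝ) + 2) * ε) (by positivity) (g := fun _ => 1)
      (B := 1) (by simp)
    simp only [mul_one] at s1 s2
    rw [← s1.tsum_sub s2, ← tsum_mul_left]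
    refine tsum_congr fun n => ?_
    have e1 : (n : ℝ) ^ (-(((j : ℝ) + 1) * ε)) = ((n : ℝ) ^ (-ε)) ^ (j + 1) := by
      rw [← Real.rpow_natCast, ← Real.rpow_mul (Nat.cast_nonneg n)]
      congr 1; push_cast; ring
    have e2 : (n : ℝ) ^ (-(((j : ℝ) + 2) * ε)) = ((n : ℝ) ^ (-ε)) ^ (j + 2) := by
      rw [← Real.rpow_natCast, ← Real.rpow_mul (Nat.cast_nonneg n)]
      congr 1; push_cast; ring
    rw [e1, e2, Polynomial.eval_monomial]; ring

/-- The continuous kernel used in Karamata's argument. -/
def ker (a b x : ℝ) : ℝ :=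
  max 0 (min 1 ((x - a) / (b - a))) / max x a -
    (1 - max 0 (min 1 ((x - a) / (b - a)))) / (1 - min x b)

lemma continuous_ker {a b : ℝ} (ha : 0 < a) (hb : b < 1) : Continuous (ker a b) := by
  unfold ker
  refine Continuous.sub (Continuous.div (by fun_prop) (by fun_prop) fun x => ?_)
    (Continuous.div (by fun_prop) (by fun_prop) fun x => ?_)
  · exact (lt_of_lt_of_le ha (le_max_right _ _)).ne'
  · have := min_le_right x b
    linarith

lemma abs_ker_le {a b : ℝ} (ha : 0 < a) (hb : b < 1) (x : ℝ) :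
    |ker a b x| ≤ a⁻¹ + (1 - b)⁻¹ := by
  unfold ker
  set t := max 0 (min 1 ((x - a) / (b - a)))
  have t0 : 0 ≤ t := le_max_left _ _
  have t1 : t ≤ 1 := max_le zero_le_one (min_le_left _ _)
  have h1 : a ≤ max x a := le_max_right _ _
  have h2 : 1 - b ≤ 1 - min x b := by have := min_le_right x b; linarith
  have h3 : t / max x a ≤ a⁻¹ := by
    rw [← one_div]; exact div_le_div₀ zero_le_one t1 ha h1
  have h4 : (1 - t) / (1 - min x b) ≤ (1 - b)⁻¹ := by
    rw [← one_div]; exact div_le_div₀ zero_le_one (by linarith) (by linarith) h2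
  have h5 : 0 ≤ t / max x a := div_nonneg t0 (by linarith)
  have h6 : 0 ≤ (1 - t) / (1 - min x b) := div_nonneg (by linarith) (by linarith)
  have h7 : 0 ≤ a⁻¹ := by positivity
  have h8 : 0 ≤ (1 - b)⁻¹ := inv_nonneg.mpr (by linarith)
  rw [abs_le]; constructor <;> linarith

lemma ker_of_ge {a b x : ℝ} (ha : 0 < a) (hab : a < b) (hx : b ≤ x) :
    x * ((1 - x) * ker a b x) = 1 - x := by
  unfold ker
  have h1 : (1 : ℝ) ≤ (x - a) / (b - a) := by
    rw [le_div_iff₀ (by linarith)]; linarith
  rw [min_eq_left h1, max_eq_right zero_le_one, max_eq_left (by linarith : a ≤ x)]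
  have : x ≠ 0 := by linarith
  field_simp
  ring

lemma ker_of_le {a b x : ℝ} (hab : a < b) (hb : b < 1) (hx : x ≤ a) :
    x * ((1 - x) * ker a b x) = -x := by
  unfold ker
  have h1 : (x - a) / (b - a) ≤ 0 := div_nonpos_of_nonpos_of_nonneg (by linarith) (by linarith)
  rw [min_eq_right (h1.trans zero_le_one), max_eq_left h1, min_eq_left (by linarith : x ≤ b)]
  have : 1 - x ≠ 0 := by linarith
  field_simp
  ring

lemma tendsto_inv_log : Tendsto (fun y : ℕ => (Real.log y)⁻¹) atTop (𝓝[>] 0) := by
  have h : Tendsto (fun y : ℕ => Real.log y) atTop atTop :=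
    Real.tendsto_log_atTop.comp tendsto_natCast_atTop_atTop
  exact tendsto_inv_atTop_nhdsGT_zero.comp h

/-- **Tauberian theorem.** -/
theorem tauber_primes {c : ℕ → ℝ} {D L L₀ : ℝ} (hc : ∀ n, |c n| ≤ D * pw n)
    (hL : Tendsto (fun ε : ℝ => ∑' n : ℕ, c n * (n : ℝ) ^ (-ε)) (𝓝[>] 0) (𝓝 L))
    (hG : Tendsto (fun ε : ℝ => ∑' n : ℕ, pw n * (n : ℝ) ^ (-ε) + Real.log ε) (𝓝[>] 0) (𝓝 L₀)) :
    Tendsto (fun y : ℕ => ∑ n ∈ range (y + 1), c n) atTop (𝓝 L) := by
  have hpw : ∀ n, |pw n| ≤ 1 * pw n := fun n => by rw [abs_of_nonneg (pw_nonneg n), one_mul]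
  have hD : 0 ≤ D := by
    have := hc 2
    have h2 : pw 2 = 2⁻¹ := by simp [pw, Nat.prime_two]
    rw [h2] at this
    have := (abs_nonneg _).trans this
    linarith
  -- the bound for the total mass
  have hG2 : Tendsto (fun ε : ℝ => ∑' n : ℕ, pw n * ((n : ℝ) ^ (-ε) * (1 - (n : ℝ) ^ (-ε))))
      (𝓝[>] 0) (𝓝 (Real.log 2)) := by
    have h2 := hG.comp (tendsto_mul_nhdsGT (a := 2) (by norm_num))
    have := (hG.sub h2).add_const (Real.log 2)
    rw [sub_self, zero_add] at this
    refine this.congr' ?_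
    filter_upwards [self_mem_nhdsWithin] with ε hε
    have hε' : 0 < ε := hε
    simp only [Function.comp]
    have s1 := summable_of_le_pw hpw hε' (g := fun _ => 1) (B := 1) (by simp)
    have s2 := summable_of_le_pw hpw (ε := 2 * ε) (by positivity) (g := fun _ => 1) (B := 1)
      (by simp)
    simp only [mul_one] at s1 s2
    rw [Real.log_mul (by norm_num) hε'.ne']
    have : ∑' n : ℕ, pw n * ((n : ℝ) ^ (-ε) * (1 - (n : ℝ) ^ (-ε))) =
        ∑' n : ℕ, pw n * (n : ℝ) ^ (-ε) - ∑' n : ℕ, pw n * (n : ℝ) ^ (-(2 * ε)) := by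
      rw [← s1.tsum_sub s2]
      refine tsum_congr fun n => ?_
      have e1 : (n : ℝ) ^ (-(2 * ε)) = ((n : ℝ) ^ (-ε)) ^ 2 := by
        rw [← Real.rpow_natCast, ← Real.rpow_mul (Nat.cast_nonneg n)]
        congr 1; push_cast; ring
      rw [e1]; ring
    rw [this]; ring
  have key : Tendsto (fun y : ℕ => ∑ n ∈ range (y + 1), c n -
      ∑' n : ℕ, c n * (n : ℝ) ^ (-(Real.log y)⁻¹)) atTop (𝓝 0) := by
    rw [Metric.tendsto_nhds]
    intro η hη
    set b := Real.exp (-1) with hb
    have hb1 : b < 1 := by rw [hb]; exact Real.exp_lt_one_iff.mpr (by norm_num)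
    set C := Real.exp 2 + (1 - b)⁻¹ + 1 with hC
    have hC0 : 0 < C := by
      have : 0 < (1 - b)⁻¹ := inv_pos.mpr (by linarith)
      positivity
    set δ := min 1 (η / (8 * (D + 1) * C)) with hδ
    have hδ0 : 0 < δ := lt_min one_pos (by positivity)
    have hδ1 : δ ≤ 1 := min_le_left _ _
    have hδ2 : δ ≤ η / (8 * (D + 1) * C) := min_le_right _ _
    set a := Real.exp (-(1 + δ)) with ha
    have ha0 : 0 < a := Real.exp_pos _
    have hab : a < b := Real.exp_lt_exp.mpr (by linarith)
    have hainv : a⁻¹ ≤ Real.exp 2 := by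
      rw [ha, ← Real.exp_neg]; exact Real.exp_le_exp.mpr (by linarith)
    obtain ⟨P, hP⟩ := exists_polynomial_near_of_continuousOn 0 1 (ker a b)
      (continuous_ker ha0 hb1).continuousOn (η / (4 * (D + 1))) (by positivity)
    have e1 := (tendsto_poly hc hL P).comp tendsto_inv_log
    have e2 := hG2.comp tendsto_inv_log
    have hlog2 : Real.log 2 < 1 := by have := Real.log_two_lt_d9; linarith
    have e3 : Tendsto (fun y : ℕ => (Real.log y)⁻¹) atTop (𝓝 0) :=
      tendsto_inv_log.mono_right nhdsWithin_le_nhds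
    filter_upwards [(Metric.tendsto_nhds.mp e1) (η / 4) (by positivity),
      e2.eventually (gt_mem_nhds hlog2), e3.eventually (gt_mem_nhds (show (0 : ℝ) < δ / 48 by
        positivity)), eventually_ge_atTop 2] with y h1 h2 h3 hy
    simp only [Function.comp] at h1 h2
    rw [Real.dist_eq, sub_zero] at h1 ⊢
    have hy' : (1 : ℝ) < y := by exact_mod_cast hy
    have hly : 0 < Real.log y := Real.log_pos hy'
    set ε := (Real.log y)⁻¹ with hε
    have hε0 : 0 < ε := inv_pos.mpr hly
    set x : ℕ → ℝ := fun n => (n : ℝ) ^ (-ε) with hx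
    have hxm : ∀ n, x n ∈ Set.Icc (0 : ℝ) 1 := rpow_neg_mem hε0
    have hxe : ∀ n : ℕ, 0 < n → x n = Real.exp (-(Real.log n / Real.log y)) := by
      intro n hn
      simp only [hx]
      rw [Real.rpow_def_of_pos (by exact_mod_cast hn), hε]
      congr 1; ring
    set z := ⌊(y : ℝ) ^ (1 + δ)⌋₊ with hz
    have hyz : y ≤ z := by
      refine Nat.le_floor ?_
      calc (y : ℝ) = (y : ℝ) ^ (1 : ℝ) := (Real.rpow_one _).symm
        _ ≤ _ := Real.rpow_le_rpow_of_exponent_le hy'.le (by linarith)
    have hc0 : c 0 = 0 := by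
      have := hc 0
      simp [pw, Nat.not_prime_zero] at this
      exact this
    -- window sum
    have hwin : ∑ n ∈ Ioc y z, pw n ≤ 2 * δ := by
      clear * - y z hy hyz hy' δ ε hδ1 h3 hε0 hly
      have hm := (abs_le.mp (abs_sum_inv_prime_Ioc_sub_le y z hy hyz)).2
      have hz1 : (1 : ℝ) < z := lt_of_lt_of_le hy' (by exact_mod_cast hyz)
      have hlz : Real.log z ≤ (1 + δ) * Real.log y := by
        rw [← Real.log_rpow (by linarith)]
        exact Real.log_le_log (by linarith) (Nat.floor_le (by positivity))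
      have hll : Real.log (Real.log z) - Real.log (Real.log y) ≤ δ := by
        have := Real.log_le_log (Real.log_pos hz1) hlz
        rw [Real.log_mul (by linarith) hly.ne'] at this
        have h' := Real.log_le_sub_one_of_pos (show 0 < 1 + δ by linarith)
        linarith
      have h48 : 48 / Real.log y ≤ δ := by
        rw [div_eq_mul_inv]; linarith
      have : ∑ n ∈ Ioc y z, pw n = ∑ p ∈ (Ioc y z).filter Nat.Prime, (p : ℝ)⁻¹ := by
        rw [Finset.sum_filter]; rfl
      linarith
    -- pointwise decomposition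
    have sA : Summable fun n : ℕ => c n * (x n * ((1 - x n) * P.eval (x n))) := by
      have : ContinuousOn (fun t : ℝ => (1 - t) * P.eval t) (Set.Icc 0 1) :=
        ((continuous_const.sub continuous_id).mul P.continuous).continuousOn
      obtain ⟨B, hB⟩ := isCompact_Icc.exists_bound_of_continuousOn this
      exact summable_of_le_pw hc hε0 fun n => by simpa using hB _ (hxm n)
    have sB : Summable fun n : ℕ => pw n * (x n * (1 - x n)) :=
      summable_of_le_pw hpw hε0 (B := 1) fun n => by
        have := hxm n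
        rw [abs_le]; constructor <;> linarith [this.1, this.2]
    have sF : Summable fun n : ℕ => c n * x n := by
      have := summable_of_le_pw hc hε0 (g := fun _ => 1) (B := 1) (by simp)
      simpa using this
    have sI : HasSum (fun n : ℕ => if n ∈ range (y + 1) then c n else 0)
        (∑ n ∈ range (y + 1), c n) := by
      have : HasSum (fun n : ℕ => if n ∈ range (y + 1) then c n else 0) _ :=
        hasSum_sum_of_ne_finset_zero (s := range (y + 1)) (fun n hn => if_neg hn)
      rwa [Finset.sum_congr rfl fun n hn => if_pos hn] at this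
    have sW : HasSum (fun n : ℕ => if n ∈ Ioc y z then pw n else 0) (∑ n ∈ Ioc y z, pw n) := by
      have : HasSum (fun n : ℕ => if n ∈ Ioc y z then pw n else 0) _ :=
        hasSum_sum_of_ne_finset_zero (s := Ioc y z) (fun n hn => if_neg hn)
      rwa [Finset.sum_congr rfl fun n hn => if_pos hn] at this
    have hpt : ∀ n : ℕ, ‖(if n ∈ range (y + 1) then c n else 0) - c n * x n -
        c n * (x n * ((1 - x n) * P.eval (x n)))‖ ≤
        D * (η / (4 * (D + 1))) * (pw n * (x n * (1 - x n))) +
          D * C * (if n ∈ Ioc y z then pw n else 0) := by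
      clear * - x hxm y c P D η C z hc0 hD hη ε b hb1 a hP hxe hb hly ha0 hab hainv δ hδ1 h3 hε0
        ha hy' hy hc
      intro n
      have hxn := hxm n
      have hx0 := hxn.1
      have hx1 : 0 ≤ 1 - x n := by linarith [hxn.2]
      have hpn := pw_nonneg n
      rcases Nat.eq_zero_or_pos n with rfl | hn
      · simp only [hc0, ite_self, zero_mul, sub_zero, norm_zero]
        have : 0 ≤ (if 0 ∈ Ioc y z then pw 0 else 0) := by split_ifs <;> simp [pw_nonneg]
        positivity
      have hn' : (0 : ℝ) < n := by exact_mod_cast hn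
      have hPk : |x n * ((1 - x n) * (ker a b (x n) - P.eval (x n)))| ≤
          η / (4 * (D + 1)) * (x n * (1 - x n)) := by
        rw [abs_mul, abs_mul, abs_of_nonneg hx0, abs_of_nonneg hx1, abs_sub_comm]
        have := (hP _ hxn).le
        calc _ ≤ x n * ((1 - x n) * (η / (4 * (D + 1)))) := by gcongr
          _ = _ := by ring
      have hdec : (if n ∈ range (y + 1) then c n else 0) - c n * x n -
          c n * (x n * ((1 - x n) * P.eval (x n))) =
          c n * (x n * ((1 - x n) * (ker a b (x n) - P.eval (x n)))) +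
          c n * (((if n ∈ range (y + 1) then 1 else 0) - x n) -
            x n * ((1 - x n) * ker a b (x n))) := by
        split_ifs <;> ring
      have hrem : |((if n ∈ range (y + 1) then 1 else 0) - x n) -
            x n * ((1 - x n) * ker a b (x n))| ≤ C * (if n ∈ Ioc y z then 1 else 0) := by
        by_cases hny : n ≤ y
        · have hxb : b ≤ x n := by
            rw [hxe n hn, hb]
            refine Real.exp_le_exp.mpr (neg_le_neg ?_)
            rw [div_le_one hly]
            exact Real.log_le_log hn' (by exact_mod_cast hny)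
          rw [ker_of_ge ha0 hab hxb, if_pos (mem_range.mpr (by omega)), sub_self, abs_zero]
          split_ifs <;> positivity
        · rw [if_neg (by rw [mem_range]; omega)]
          by_cases hnz : n ≤ z
          · rw [if_pos (mem_Ioc.mpr ⟨by omega, hnz⟩), mul_one]
            have hk := abs_ker_le ha0 hb1 (x n)
            have : |x n * ((1 - x n) * ker a b (x n))| ≤ Real.exp 2 + (1 - b)⁻¹ := by
              rw [abs_mul, abs_mul, abs_of_nonneg hx0, abs_of_nonneg hx1]
              calc _ ≤ 1 * (1 * (a⁻¹ + (1 - b)⁻¹)) := by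
                    gcongr
                    · exact hxn.2
                    · linarith
                _ ≤ _ := by linarith
            rw [abs_le] at this ⊢
            constructor <;> linarith [this.1, this.2, hxn.1, hxn.2]
          · have hxa : x n ≤ a := by
              rw [hxe n hn, ha]
              refine Real.exp_le_exp.mpr (neg_le_neg ?_)
              rw [le_div_iff₀ hly, ← Real.log_rpow (by linarith)]
              refine Real.log_le_log (by positivity) ?_
              have := Nat.lt_floor_add_one ((y : ℝ) ^ (1 + δ))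
              have h' : (z : ℝ) + 1 ≤ n := by exact_mod_cast (by omega : z + 1 ≤ n)
              linarith
            rw [ker_of_le hab hb1 hxa]
            simp only [zero_sub, sub_self, abs_zero]
            split_ifs <;> positivity
      rw [hdec, Real.norm_eq_abs]
      refine (abs_add_le _ _).trans (add_le_add ?_ ?_)
      · rw [abs_mul]
        calc _ ≤ (D * pw n) * (η / (4 * (D + 1)) * (x n * (1 - x n))) :=
              mul_le_mul (hc n) hPk (abs_nonneg _) (by positivity)
          _ = _ := by ring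
      · rw [abs_mul]
        calc _ ≤ (D * pw n) * (C * (if n ∈ Ioc y z then 1 else 0)) :=
              mul_le_mul (hc n) hrem (abs_nonneg _) (by positivity)
          _ = _ := by split_ifs <;> ring
    have hsum := tsum_of_norm_bounded
      ((sB.hasSum.mul_left (D * (η / (4 * (D + 1))))).add (sW.mul_left (D * C))) hpt
    rw [((sI.sub sF.hasSum).sub sA.hasSum).tsum_eq, Real.norm_eq_abs] at hsum
    have b1 : D * (η / (4 * (D + 1))) * ∑' n : ℕ, pw n * (x n * (1 - x n)) ≤ η / 4 := by
      clear * - D η hD hη x ε h2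
      have h0 : D * (η / (4 * (D + 1))) ≤ η / 4 := by
        rw [← mul_div_assoc, div_le_div_iff₀ (by positivity) (by positivity)]
        nlinarith
      calc _ ≤ D * (η / (4 * (D + 1))) * 1 := by gcongr
        _ ≤ _ := by linarith
    have b2 : D * C * ∑ n ∈ Ioc y z, pw n ≤ η / 4 := by
      clear * - D C y z η δ b hδ2 hwin hD hb1 hC0 hη
      calc _ ≤ D * C * (2 * (η / (8 * (D + 1) * C))) := by
            gcongr; linarith
        _ = D * (η / (4 * (D + 1))) := by field_simp; ring
        _ ≤ η / 4 := by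
            rw [← mul_div_assoc, div_le_div_iff₀ (by positivity) (by positivity)]
            nlinarith
    rw [abs_lt] at h1 ⊢
    rw [abs_le] at hsum
    constructor <;> linarith [hsum.1, hsum.2, h1.1, h1.2]
  have := key.add (hL.comp tendsto_inv_log)
  rw [zero_add] at this
  exact this.congr fun y => by simp [Function.comp]

end Pool.Agent.Work.MP_51e72e_nt
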