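import Pool.Agent.Work.MP_51e72e_nt.DegFinal

set_option autoImplicit false

open Classical in
theorem Pool.Agent.Work.MP_51e72e_nt.OldAllDegrees.result :
    ∀ d : ℕ, 2 ≤ d → ∃ δ : ℝ, 0 < δ ∧
      ∀ f : Polynomial ℤ, Irreducible f → f.natDegree = d →
        ∃ C : ℝ,
          Filter.Tendsto
            (fun y : ℕ => ∏ p ∈ (Finset.range (y + 1)).filter Nat.Prime,
              (1 - (((Finset.range p).filter
                    (fun n : ℕ => (p : ℤ) ∣ f.eval (n : ℤ))).card : ℝ) / (p : ℝ)) /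
                (1 - 1 / (p : ℝ)))
            Filter.atTop (nhds C) ∧
          ∀ ε : ℝ, 0 < ε → ∀ᶠ N : ℕ in Filter.atTop,
            (((Finset.Icc 1 N).filter (fun n : ℕ => (f.eval (n : ℤ)).natAbs.Prime)).card : ℝ) *
              Real.log |((f.eval (N : ℤ) : ℤ) : ℝ)| / (N : ℝ)
            ≤ (2 - δ) * d * C + ε :=
  fun d hd => Pool.Agent.Work.MP_51e72e_nt.Deg.upper_all d hd
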