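import Pool.Agent.Work.MP_51e72e_nt.GPCor

/-!
Patterns of consecutive prime gaps on the scale `log p` occur for a positive proportion of the
primes. Here `Nat.nth Nat.Prime n` is the `n`-th prime, counted from `0`.
-/

namespace Pool.Agent.Work.MP_51e72e_nt.OldGapPatterns

theorem result (m : ℕ) :
    ∃ k : ℕ, ∀ β : Fin k → ℝ, Monotone β → ∀ ε : ℝ, 0 < ε →
      ∃ c : ℝ, 0 < c ∧ ∀ᶠ N : ℕ in Filter.atTop, c * (N : ℝ) ≤
        ({n : ℕ | n < N ∧ ∃ J : Fin (m + 1) → Fin k, StrictMono J ∧ ∀ j : Fin m,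
          |((Nat.nth Nat.Prime (n + (j : ℕ) + 1) : ℝ) - (Nat.nth Nat.Prime (n + (j : ℕ)) : ℝ))
              / Real.log (Nat.nth Nat.Prime n : ℝ) - (β (J j.succ) - β (J j.castSucc))| ≤ ε}.ncard : ℝ) := by
  obtain ⟨k, h⟩ := Pool.Agent.Work.MP_51e72e_nt.PP.gap_patterns m
  refine ⟨k, fun β hβ ε hε => ?_⟩
  obtain ⟨c, hc, h⟩ := h β hβ ε hε
  refine ⟨c, hc, h.mono fun N hN => hN.trans (le_of_eq ?_)⟩
  rw [← Set.ncard_coe_finset]
  congr 2
  ext n
  simp only [Finset.coe_filter, Finset.mem_range, Set.mem_ofPred_eq]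

end Pool.Agent.Work.MP_51e72e_nt.OldGapPatterns
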