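import Pool.Agent.Work.MP_51e72e_nt.PPMain

/-!
Unconditional order of magnitude in Gallagher's Poisson law: for every `λ > 0` and every `m ≥ 0`,
a positive proportion of the integers `x` have exactly `m` primes in `(x, x + λ log x]`.
-/

namespace Pool.Agent.Work.MP_51e72e_nt.OldPoissonOrder

theorem result (lam : ℝ) (hlam : 0 < lam) (m : ℕ) :
    ∃ c : ℝ, 0 < c ∧ ∀ᶠ X : ℕ in Filter.atTop,
      c * (X : ℝ) ≤ (((Finset.Icc 1 X).filter fun x : ℕ =>
        ((Finset.Ioc x ⌊(x : ℝ) + lam * Real.log (x : ℝ)⌋₊).filter Nat.Prime).card = m).card : ℝ) :=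
  Pool.Agent.Work.MP_51e72e_nt.PP.main lam hlam m

end Pool.Agent.Work.MP_51e72e_nt.OldPoissonOrder
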