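import Pool.Agent.Work.MP_51e72e_nt.Final

set_option autoImplicit false

open Classical in
theorem Pool.Agent.Work.MP_51e72e_nt.OldSieveConstant.result :
    ∀ F : Finset (Polynomial ℤ),
      (∀ f ∈ F, Irreducible f ∧ 0 < f.natDegree ∧ 0 < f.leadingCoeff) →
      2 ≤ F.card → (∃ f ∈ F, f.natDegree = 1) →
      ∃ C : ℝ,
        Filter.Tendsto
          (fun y : ℕ => ∏ p ∈ (Finset.range (y + 1)).filter Nat.Prime,
            (1 - (((Finset.range p).filter
                  (fun n : ℕ => (p : ℤ) ∣ ∏ f ∈ F, f.eval (n : ℤ))).card : ℝ) / (p : ℝ)) /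
              (1 - 1 / (p : ℝ)) ^ F.card)
          Filter.atTop (nhds C) ∧
        ∀ ε : ℝ, 0 < ε → ∀ᶠ N : ℕ in Filter.atTop,
          (((Finset.Icc 1 N).filter
              (fun n : ℕ => ∀ f ∈ F, (f.eval (n : ℤ)).natAbs.Prime)).card : ℝ) *
            (∏ f ∈ F, Real.log |((f.eval (N : ℤ) : ℤ) : ℝ)|) / (N : ℝ)
          ≤ (1 - 1 / (10000 * (F.card : ℝ))) *
            (2 ^ F.card * (F.card.factorial : ℝ) * ∏ f ∈ F, (f.natDegree : ℝ)) * C + ε := by
  intro F hF hk hlin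
  obtain ⟨C, hC, -⟩ := Pool.Agent.Work.MP_51e72e_nt.tendsto_prod_omegaF F hF
  refine ⟨C, hC, fun ε hε => ?_⟩
  convert Pool.Agent.Work.MP_51e72e_nt.bh_upper F hF hk hlin hC hε
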