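import Pool.Agent.Work.MP_51e72e_nt.PPWeight

/-!
The main inequality for period averages of the weight.
-/

set_option autoImplicit false

namespace Pool.Agent.Work.MP_51e72e_nt.PP

open Finset Pool.Agent.Lib.ANT

/-- the parameters of the construction -/
structure Par where
  K : ℕ
  y : ℕ
  p₁ : ℕ
  M : ℕ
  k : ℕ
  mA : ℕ
  mB : ℕ
  K₀ : ℕ
  Δ : ℕ

namespace Par

variable (π : Par)

/-- all sieving primes -/
def A : Finset ℕ := Qs π.p₁ 0 (π.y ^ 16 ^ π.M)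
/-- small and medium primes -/
def P : Finset ℕ := Qs π.p₁ 0 π.y
/-- blocks of coordinates -/
def B (i : Fin π.k) : Finset (Fin π.K) := blk π.K (π.K₀ + 2 * i * π.Δ) π.Δ
/-- coordinates outside the blocks -/
def J : Finset (Fin π.K) := (univ.biUnion π.B)ᶜ
/-- surviving coordinates -/
noncomputable def R (n : ℕ) : Finset (Fin π.K) := surv π.K π.P n
/-- pattern of large prime factors -/
def T (n : ℕ) : Fin π.K → Fin π.M → Finset ℕ := cfg π.K π.M (Qb π.p₁ π.y) n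
/-- the orthogonal system -/
noncomputable def e (m : ℕ) (a : Fin m) : (Fin π.M → Finset ℕ) → ℝ :=
  es (qq π.K) (Qb π.p₁ π.y) π.M (π.M - 1 - a)
/-- squared norms -/
noncomputable def nr (m : ℕ) (a : Fin m) : ℝ := nn (qq π.K) (Qb π.p₁ π.y) π.M (π.M - 1 - a)
/-- the form for a given set of survivors -/
noncomputable def F (R E : Finset (Fin π.K)) (τ : Fin π.K → Fin π.M → Finset ℕ) : ℝ :=
  FE (fun i => π.B i ∩ R) (π.J ∩ R) (fun a : Fin π.mA => tau a) (fun a : Fin π.mB => tau a)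
    (π.e π.mA) (π.e π.mB) E τ
/-- the upper bound sieve -/
noncomputable def top : (Fin π.M → Finset ℕ) → ℝ := es (qq π.K) (Qb π.p₁ π.y) π.M π.M
/-- the weight before squaring -/
noncomputable def W (E : Finset (Fin π.K)) (n : ℕ) : ℝ := π.F (π.R n) E (π.T n)
/-- majorant for a prime at `j` -/
noncomputable def ΦB (j : Fin π.K) (n : ℕ) : ℝ :=
  (if j ∈ π.R n then 1 else 0) * (π.top (π.T n j) * π.W {j} n ^ 2)
/-- majorant for primes at `j` and `j'` -/
noncomputable def ΦP (j j' : Fin π.K) (n : ℕ) : ℝ :=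
  (if j ∈ π.R n then 1 else 0) * ((if j' ∈ π.R n then 1 else 0) *
    (π.top (π.T n j) * π.top (π.T n j') * π.W {j, j'} n ^ 2))

lemma B_disjoint (i i' : Fin π.k) (h : i ≠ i') : Disjoint (π.B i) (π.B i') := by
  have key : ∀ i i' : Fin π.k, (i : ℕ) < i' → Disjoint (π.B i) (π.B i') := fun i i' h =>
    disjoint_left.2 fun j h1 h2 => by
      unfold B at h1 h2
      rw [mem_blk] at h1 h2
      have : 2 * i * π.Δ + π.Δ ≤ 2 * i' * π.Δ := by nlinarith
      omega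
  rcases lt_or_gt_of_ne (fun e => h (Fin.ext e)) with x | x
  exacts [key i i' x, (key i' i x).symm]

lemma B_disjoint_J (i : Fin π.k) : Disjoint (π.B i) π.J :=
  disjoint_left.2 fun j h1 h2 => mem_compl.1 h2 (mem_biUnion.2 ⟨i, mem_univ _, h1⟩)

/-- basic size conditions -/
structure Ok : Prop where
  hK1 : 1 ≤ π.K
  hK : 100 * π.K ≤ π.y
  hK2 : 8 * π.K ^ 2 ≤ π.y
  hy : 1000 ≤ Real.log π.y
  hA : 1 ≤ π.mA
  hAB : π.mA ≤ π.mB
  hBM : π.mB ≤ π.M
  hk : 1 ≤ π.k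
  hKK : π.K₀ + 2 * π.k * π.Δ ≤ π.K

variable {π}

lemma Ok.y1 (h : π.Ok) : 1 ≤ π.y := by have := h.hK1; have := h.hK; omega

lemma Ok.blocks (h : π.Ok) : Blocks π.M (Qb π.p₁ π.y) (qq π.K) := PP.blocks h.hK1 h.hK h.hy _ _

lemma Ok.sys (h : π.Ok) (R : Finset (Fin π.K)) :
    Sys (sp π.M (Qb π.p₁ π.y)) (sw π.M (Qb π.p₁ π.y) (qq π.K)) (fun i => π.B i ∩ R) (π.J ∩ R)
      (fun a : Fin π.mA => tau a) (π.nr π.mA) (fun a : Fin π.mB => tau a) (π.nr π.mB)
      (π.e π.mA) (π.e π.mB) :=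
  ⟨h.blocks.orth (h.hAB.trans h.hBM), h.blocks.orth h.hBM, fun _ => tau_nonneg _,
    fun _ => tau_le _, fun _ => tau_nonneg _, fun _ => tau_le _,
    fun i i' hi => (π.B_disjoint i i' hi).mono inter_subset_left inter_subset_left,
    fun i => (π.B_disjoint_J i).mono inter_subset_left inter_subset_left⟩

lemma Ok.tau_nr (h : π.Ok) {m : ℕ} (hm : m ≤ π.M) :
    ∑ a : Fin m, tau a * π.nr m a ≤ m * (C₀ / 2 * (1 / 16 ^ π.M)) := by
  refine (sum_le_card_nsmul _ _ (C₀ / 2 * (1 / 16 ^ π.M)) fun a _ => ?_).trans (by simp)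
  refine (mul_le_mul_of_nonneg_left (h.blocks.nn_le' hm a) (tau_nonneg _)).trans (le_of_eq ?_)
  unfold tau; field_simp

lemma Ok.G_le (h : π.Ok) : ∑ a, π.nr π.mA a ≤ C₀ * 16 ^ π.mA * (1 / 16 ^ π.M) := by
  refine (sum_le_sum fun a _ => h.blocks.nn_le' (h.hAB.trans h.hBM) a).trans ?_
  rw [← sum_div, ← mul_sum, mul_one_div, Fin.sum_univ_eq_sum_range (fun a => (16 : ℝ) ^ a),
    geom_sum_eq (by norm_num)]
  have : (0 : ℝ) < 16 ^ π.mA := by positivity
  have := C₀_ge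
  gcongr
  linarith

lemma Ok.G_ge (h : π.Ok) (a : Fin π.mA) : 16 ^ (a : ℕ) / 3 * (1 / 16 ^ π.M) ≤ ∑ a, π.nr π.mA a :=
  le_trans (le_of_eq (by field_simp)) ((h.blocks.nn_ge' (h.hAB.trans h.hBM) a).trans
    (single_le_sum (f := π.nr π.mA) (fun a _ => (h.sys ∅).oA.nonneg a) (mem_univ a)))

/-- constant in the fourth moment bound -/
noncomputable def κ₄ (m : ℕ) : ℝ := 15 * (1 + m ^ 3) * m * (C₀ * 16 ^ m)

lemma κ₄_nonneg (m : ℕ) : 0 ≤ κ₄ m := by
  have := C₀_ge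
  unfold κ₄; positivity

lemma Ok.fourth (h : π.Ok) {R : Finset (Fin π.K)} {β : ℝ} (hR : R.card * (1 / 16 ^ π.M) ≤ β) :
    EI (Fin π.K) (sp π.M (Qb π.p₁ π.y)) (sw π.M (Qb π.p₁ π.y) (qq π.K))
      (fun τ => π.F R ∅ τ ^ 4) ≤ Real.exp (κ₄ π.mB * β) := by
  refine ((h.sys R).m5 (Y := fun x => ∑ a, |π.e π.mB a x|) (fun x => ?_) (fun x => le_rfl)
    (U := R) (fun i => inter_subset_right) inter_subset_right).trans ?_
  · unfold e
    rw [Fin.sum_univ_eq_sum_range (fun a => |es (qq π.K) (Qb π.p₁ π.y) π.M (π.M - 1 - a) x|),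
      Fin.sum_univ_eq_sum_range (fun a => |es (qq π.K) (Qb π.p₁ π.y) π.M (π.M - 1 - a) x|)]
    exact sum_le_sum_of_subset_of_nonneg (range_mono h.hAB) fun _ _ _ => abs_nonneg _
  · have h1 := (h.blocks.fourth h.hBM).trans
      ((add_comm _ _).le.trans (Real.add_one_le_exp _))
    refine (pow_le_pow_left₀ (h.blocks.prob.nonneg fun x _ => by positivity) h1 _).trans ?_
    rw [← Real.exp_nat_mul]
    refine Real.exp_le_exp.2 (le_trans (le_of_eq ?_) (mul_le_mul_of_nonneg_left hR (κ₄_nonneg _)))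
    unfold κ₄; ring

lemma Ok.model (h : π.Ok) {R : Finset (Fin π.K)} {β₁ β₂ c₀ l₀ η m : ℝ} (hc1 : 1 ≤ c₀) (hc2 : c₀ ≤ 2)
    (hβ₁ : ∀ i, (π.B i ∩ R).card * (1 / 16 ^ π.M) ≤ β₁) (hβ₂ : R.card * (1 / 16 ^ π.M) ≤ β₂)
    (hβ : 1 ≤ β₂) (hl : 0 ≤ l₀) (hm : 0 ≤ m) (hη0 : 0 ≤ η)
    (hη : 4 * π.K ^ 2 / π.y * Real.exp (κ₄ π.mB * β₂) ≤ η ^ 2)
    (n1 : 96 * C₀ * π.k * π.mA ≤ 16 ^ π.mA)
    (n2 : 12 * (2 * m + 3) * C₀ * 16 ^ π.mA ≤ l₀ * π.mA ^ 2 * π.k)
    (n3 : 8 * (π.k + 1) * (C₀ * β₂) ^ 2 ≤ π.mB)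
    (n4 : (π.k + 1) * π.k * 2 * (C₀ * β₁) * (12 * C₀ * π.mA ^ 2 + 1) ≤ 1) :
    (1 / 3 * (1 / 16 ^ π.M)) ^ π.k * ∏ i, ((π.B i ∩ R).card : ℝ) - l₀ * (π.k * π.K) * η ≤
      l₀ * (∑ i, ∑ j ∈ π.B i ∩ R, c₀ * EI (Fin π.K) (sp π.M (Qb π.p₁ π.y))
          (sw π.M (Qb π.p₁ π.y) (qq π.K)) (fun τ => nd τ *
          ((if τ j = fun _ => ∅ then 1 else 0) * π.F R ∅ τ ^ 2)))
        - m * (c₀ * EI (Fin π.K) (sp π.M (Qb π.p₁ π.y))
          (sw π.M (Qb π.p₁ π.y) (qq π.K)) (fun τ => nd τ * π.F R ∅ τ ^ 2))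
        - (π.k + 1) * ((∑ j ∈ π.J ∩ R, c₀ * EI (Fin π.K) (sp π.M (Qb π.p₁ π.y))
          (sw π.M (Qb π.p₁ π.y) (qq π.K)) (fun τ => nd τ * (π.top (τ j) * π.F R {j} τ ^ 2)))
          + ∑ i, ∑ j ∈ π.B i ∩ R, ∑ j' ∈ (π.B i ∩ R).erase j, c₀ * EI (Fin π.K)
            (sp π.M (Qb π.p₁ π.y)) (sw π.M (Qb π.p₁ π.y) (qq π.K)) (fun τ => nd τ *
            (π.top (τ j) * π.top (τ j') * π.F R {j, j'} τ ^ 2))) := by
  have hb := h.blocks
  have hs := h.sys R
  have hC := C₀_ge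
  have hA := h.hA
  have hAB := h.hAB
  have : Nonempty (Fin π.mB) := ⟨⟨0, by omega⟩⟩
  set v : ℝ := 1 / 16 ^ π.M with hv
  have hv0 : 0 < v := by positivity
  have hk : (1 : ℝ) ≤ π.k := by exact_mod_cast h.hk
  have hA' : (1 : ℝ) ≤ π.mA := by exact_mod_cast hA
  have hB' : (0 : ℝ) < π.mB := by exact_mod_cast (by omega : 0 < π.mB)
  have g0 := h.G_ge ⟨0, by omega⟩
  have g1 := h.G_ge ⟨π.mA - 1, by omega⟩
  have g2 := h.G_le
  have t1 := h.tau_nr (h.hAB.trans h.hBM)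
  have t2 := h.tau_nr h.hBM
  simp only [pow_zero] at g0
  have e16 : (16 : ℝ) ^ π.mA = 16 * 16 ^ (π.mA - 1) := by
    rw [← pow_succ']; congr 1; omega
  rw [← hv] at g0 g1 g2 t1 t2
  set G := ∑ a, π.nr π.mA a with hG
  have hG0 : 0 < G := lt_of_lt_of_le (by positivity) g0
  have hJ : ((π.J ∩ R).card : ℝ) * (C₀ * v) ≤ C₀ * β₂ := by
    have : ((π.J ∩ R).card : ℝ) ≤ R.card := by exact_mod_cast card_le_card inter_subset_right
    have : ((π.J ∩ R).card : ℝ) * v ≤ β₂ := le_trans (by gcongr) hβ₂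
    nlinarith
  have hD : 1 ≤ C₀ * β₂ := by nlinarith
  have hθ : ((π.J ∩ R).card : ℝ) * ((∑ a : Fin π.mB, tau a * π.nr π.mB a) / (π.mB : ℝ) ^ 2)
      ≤ C₀ * β₂ / (2 * π.mB) := by
    refine (mul_le_mul_of_nonneg_left (div_le_div_of_nonneg_right t2 (by positivity))
      (Nat.cast_nonneg _)).trans ?_
    rw [le_div_iff₀ (by positivity)]
    refine le_trans (le_of_eq ?_) hJ
    field_simp
  have hm := hs.main (o := fun _ => ∅) (fun a => hb.es_empty _) (fun a => hb.es_empty _)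
    nd_nonneg nd_le_one hc1 hc2 (𝒜 := π.top) es_top_nonneg (a := C₀ * v) (V := v / 3) (η := η)
    (l₀ := l₀) (m := m) (hb.top_le.trans (le_of_eq (by rw [hv]; ring)))
    (le_trans (le_of_eq (by rw [hv]; field_simp)) hb.empty_ge) (by positivity) hl hm hη0
    (le_trans (mul_le_mul (law h.hK1 h.hK h.hK2 h.hy π.p₁ π.M).1 (h.fourth hβ₂)
      (EI_nonneg hb.prob fun _ => by positivity) (by positivity)) hη) hG0
    (by
      rw [Fintype.card_fin]
      refine (mul_le_mul_of_nonneg_left t1 (by positivity)).trans (le_trans ?_ g1)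
      simp only
      nlinarith)
    (by
      rw [Fintype.card_fin]
      refine hθ.trans ?_
      rw [div_le_div_iff₀ (by positivity) (by norm_num)]
      nlinarith)
    (by
      rw [Fintype.card_fin, Fintype.card_fin]
      refine (mul_le_mul_of_nonneg_left g2 (by positivity)).trans ?_
      nlinarith)
    (by
      rw [Fintype.card_fin, Fintype.card_fin]
      have a1 : ((π.J ∩ R).card : ℝ) * (2 * (C₀ * v)) * (8 * (((π.J ∩ R).card : ℝ) *
          ((∑ a : Fin π.mB, tau a * π.nr π.mB a) / (π.mB : ℝ) ^ 2)))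
          ≤ (2 * (C₀ * β₂)) * (8 * (C₀ * β₂ / (2 * π.mB))) :=
        mul_le_mul (by linarith) (by linarith) (mul_nonneg (by norm_num) (mul_nonneg
          (Nat.cast_nonneg _) (div_nonneg (sum_nonneg fun a _ => mul_nonneg (tau_nonneg _)
          (hs.oB.nonneg a)) (by positivity)))) (by positivity)
      refine (mul_le_mul_of_nonneg_left a1 (by positivity)).trans ?_
      rw [← div_le_one hB'] at n3
      exact le_trans (le_of_eq (by field_simp)) n3)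
    (fun i => by
      rw [Fintype.card_fin, Fintype.card_fin, ← hG]
      have a0 : (0 : ℝ) ≤ (π.B i ∩ R).card := Nat.cast_nonneg _
      have a1 := hβ₁ i
      generalize ((π.B i ∩ R).card : ℝ) = b at a0 a1
      have a2 : C₀ * v * b ≤ C₀ * β₁ := by nlinarith
      have a3 : 0 ≤ C₀ * v * b := by positivity
      have a4 : C₀ * β₁ ≤ 1 := by
        have : (1 : ℝ) ≤ (π.k + 1) * π.k * 2 * (12 * C₀ * π.mA ^ 2 + 1) := by
          have b1 : 0 ≤ 12 * C₀ * π.mA ^ 2 := by positivity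
          exact one_le_mul_of_one_le_of_one_le (by nlinarith) (by linarith)
        nlinarith
      have a5 : C₀ * v * (4 * π.mA ^ 2) + (C₀ * v * b) * G ≤ (12 * C₀ * π.mA ^ 2 + 1) * G := by
        have : C₀ * v * (4 * π.mA ^ 2) ≤ C₀ * (3 * G) * (4 * π.mA ^ 2) := by
          gcongr; linarith
        nlinarith
      have a6 := mul_le_mul a2 a5 (by positivity) (a3.trans a2)
      have a7 := mul_le_mul_of_nonneg_left a6 (show (0 : ℝ) ≤ (π.k + 1) * π.k * 2 by positivity)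
      have a8 := mul_le_mul_of_nonneg_right n4 hG0.le
      nlinarith)
  rw [Fintype.card_fin] at hm
  refine le_trans (sub_le_sub ?_ ?_) hm
  · unfold mm
    refine le_trans ?_ (le_mul_of_one_le_right (prod_nonneg fun _ _ => by positivity) hs.one_le_MB)
    rw [← Fin.prod_const, ← prod_mul_distrib]
    exact prod_le_prod (fun _ _ => by positivity) fun i _ => by
      rw [mul_comm]; exact mul_le_mul_of_nonneg_left g0 (Nat.cast_nonneg _)
  · refine mul_le_mul_of_nonneg_right (mul_le_mul_of_nonneg_left ?_ hl) hη0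
    have : ∑ i, (π.B i ∩ R).card ≤ π.k * π.K :=
      (sum_le_card_nsmul _ _ π.K fun i _ => (card_le_univ _).trans (by simp)).trans (by simp)
    exact_mod_cast this

end Par

end Pool.Agent.Work.MP_51e72e_nt.PP
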