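import Pool.Agent.Work.MP_51e72e_nt.PPStr
import Pool.Agent.Lib.ANT.Mertens

/-!
The transfer estimates with errors saving an arbitrary power of the logarithm.
-/

set_option autoImplicit false

namespace Pool.Agent.Work.MP_51e72e_nt.PP

open Finset Filter Pool.Agent.Lib.ANT

/-- sums over `(N, 2N]` and over shifted primes agree with period averages up to `ε` -/
def Transfer (A B : Finset ℕ) (e : ℕ) (Q : ℝ) (N : ℕ) (ε : ℝ) : Prop :=
  ∀ C Φ, Str A B e Q C Φ →
    |∑ n ∈ Ioc N (N + N), Φ n - N * avg (pr A) Φ| ≤ C * ε ∧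
    ∀ j ≤ N, |∑ n ∈ Ioc N (N + N), th (n + j) * Φ n - (∑ n ∈ Ioc N (N + N), th (n + j)) * Eul A *
      avg (pr A) (fun n => rho A {j} n * Φ n)| ≤ C * ε

/-- the logarithm rounded up -/
noncomputable def hh (N : ℕ) : ℕ := ⌈Real.log N⌉₊

lemma tendsto_logN : Tendsto (fun N : ℕ => Real.log N) atTop atTop :=
  Real.tendsto_log_atTop.comp tendsto_natCast_atTop_atTop

lemma tendsto_hh : Tendsto hh atTop atTop := tendsto_nat_ceil_atTop.comp tendsto_logN

lemma log_le_hh (N : ℕ) : Real.log N ≤ hh N := Nat.le_ceil _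

lemma hh_le (N : ℕ) : (hh N : ℝ) ≤ Real.log N + 1 :=
  (Nat.ceil_lt_add_one (Real.log_natCast_nonneg N)).le

lemma ev_hh (c : ℝ) : ∀ᶠ N : ℕ in atTop, c ≤ hh N :=
  (tendsto_natCast_atTop_atTop.comp tendsto_hh).eventually_ge_atTop c

lemma ev_log (c : ℝ) (k : ℕ) : ∀ᶠ N : ℕ in atTop, c * Real.log (hh N) ^ k ≤ Real.log N := by
  have h := (Real.isLittleO_pow_log_id_atTop (n := k)).def (c := 1 / (2 * (|c| + 1))) (by positivity)
  have h2 := (tendsto_natCast_atTop_atTop.comp tendsto_hh).eventually h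
  filter_upwards [h2, ev_hh 2] with N h2 h3
  simp only [Function.comp, id, Real.norm_eq_abs, Nat.abs_cast] at h2
  have h4 := hh_le N
  have h5 : c * Real.log (hh N) ^ k ≤ (|c| + 1) * |Real.log (hh N) ^ k| :=
    (le_abs_self _).trans (by rw [abs_mul]; nlinarith [abs_nonneg (Real.log (hh N) ^ k)])
  have h6 : (|c| + 1) * |Real.log (hh N) ^ k| ≤ (|c| + 1) * (1 / (2 * (|c| + 1)) * hh N) :=
    mul_le_mul_of_nonneg_left h2 (by positivity)
  have h7 : (|c| + 1) * (1 / (2 * (|c| + 1)) * hh N) = hh N / 2 := by field_simp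
  linarith

lemma Eul_le_log {A : Finset ℕ} (hA : ∀ p ∈ A, p.Prime) {N : ℕ} (hN : 2 ≤ N)
    (h : ∀ p ∈ A, p ≤ N) : Eul A ≤ Real.exp 73 * Real.log N := by
  refine le_trans ?_ (prod_one_sub_inv_prime_inv_le N hN)
  exact Eul_mono (A := (Ioc 0 N).filter Nat.Prime) (fun p hp => (mem_filter.1 hp).2)
    fun p hp => mem_filter.2 ⟨mem_Ioc.2 ⟨(hA p hp).pos, h p hp⟩, hA p hp⟩

theorem transfer_ev (e c : ℕ) : ∀ᶠ N : ℕ in atTop, ∃ p₁ : ℕ, p₁.Prime ∧ ∀ A B : Finset ℕ,
    (∀ p ∈ A, p.Prime) → B ⊆ A → p₁ ∉ A → (∀ p ∈ A, p ≤ N) → (∀ p ∈ B, p ≤ hh N ^ 6) →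
      Transfer A B e (Real.exp (Real.log N / 8)) N (N / (hh N : ℝ) ^ c) := by
  set g := 2 * 2 ^ (2 * e + 1) with hg
  set c' := c + g + 5 with hc'
  have hT : Tendsto (fun N : ℕ => hh N ^ (2 * c')) atTop atTop :=
    (tendsto_pow_atTop (by omega)).comp tendsto_hh
  filter_upwards [hT.eventually (weak_siegel_walfisz 0), ev_hh (Real.exp 73), ev_hh 113,
    ev_hh (7000 * cK (2 * e + 1)), ev_log ((2 * c') ^ 26) 26, ev_log (112 * (18 * c')) 2,
    ev_log (5 * c') 1, eventually_ge_atTop 2] with N hSW h73 h113 hcK hl26 hl2 hl1 hN2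
  obtain ⟨p₁, hp₁, -, hSW⟩ := hSW
  refine ⟨p₁, hp₁, fun A B hA hB hp₁A hAN hBy C Φ h => ?_⟩
  set H : ℝ := ((hh N : ℕ) : ℝ) with hH
  set l : ℝ := Real.log N with hl
  have hN : (2 : ℝ) ≤ N := by exact_mod_cast hN2
  have hlH : l ≤ H := log_le_hh N
  have hHl : H ≤ l + 1 := hh_le N
  have hexp : Real.exp l = N := Real.exp_log (by linarith)
  have hH1 : 1 ≤ Real.log H := by
    rw [Real.le_log_iff_exp_le (by linarith)]
    linarith [Real.exp_one_lt_d9]
  have hC := h.C_nonneg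
  have hE1 := one_le_Eul hA
  have hE : Eul A ≤ H ^ 2 := (Eul_le_log hA hN2 hAN).trans (by nlinarith)
  set E := Eul A ^ (2 ^ (2 * e + 1)) with hEdef
  have hE2 : E ≤ H ^ g := by
    rw [hg, pow_mul]; exact pow_le_pow_left₀ (by linarith) hE _
  have hE0 : 0 ≤ E := by positivity
  set W := H ^ c' with hW
  have hW0 : 0 < W := by positivity
  have hWe : W ≤ Real.exp (l / 5) := by
    rw [← Real.log_le_iff_le_exp hW0, hW, Real.log_pow]; linarith
  obtain ⟨u, hu⟩ : ∃ u, u + 1 = c' * (Nat.log 2 (hh N) + 1) :=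
    ⟨c' * (Nat.log 2 (hh N) + 1) - 1, Nat.sub_add_cancel (Nat.mul_pos (by omega) (by omega))⟩
  have hη : ((2 : ℝ) ^ (u + 1))⁻¹ ≤ W⁻¹ := by
    refine inv_anti₀ hW0 ?_
    rw [hu, mul_comm, pow_mul]
    refine pow_le_pow_left₀ (by linarith) ?_ _
    have := (Nat.lt_pow_succ_log_self (b := 2) (by norm_num) (hh N)).le
    rw [hH]; exact_mod_cast this
  have hY : (((hh N ^ 6 : ℕ) : ℝ)) ^ (u + 1) ≤ Real.exp (l / 112) := by
    rw [← Real.log_le_iff_le_exp (by push_cast; positivity), Real.log_pow]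
    push_cast
    rw [Real.log_pow]
    have a1 : ((u : ℝ) + 1) = c' * (Nat.log 2 (hh N) + 1) := by exact_mod_cast hu
    have a2 : (Nat.log 2 (hh N) : ℝ) ≤ 2 * Real.log H := by
      have b1 : ((2 ^ Nat.log 2 (hh N) : ℕ) : ℝ) ≤ H := by
        rw [hH]
        have : hh N ≠ 0 := by
          rintro h0
          rw [h0] at hH
          simp at hH
          linarith
        exact_mod_cast Nat.pow_log_le_self 2 this
      have b2 := Real.log_le_log (by positivity) b1
      push_cast at b2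
      rw [Real.log_pow] at b2
      have := Real.log_two_gt_d9
      nlinarith [Nat.cast_nonneg (α := ℝ) (Nat.log 2 (hh N))]
    rw [a1]
    have hc0 : (0 : ℝ) ≤ c' := Nat.cast_nonneg _
    have a3 : ((Nat.log 2 (hh N) : ℝ) + 1) * Real.log H ≤ 3 * Real.log H ^ 2 := by nlinarith
    have a4 := mul_le_mul_of_nonneg_left a3 hc0
    push_cast
    nlinarith
  set Y : ℝ := ((hh N ^ 6 : ℕ) : ℝ) ^ (u + 1) with hYdef
  have hY0 : 0 ≤ Y := by positivity
  set F := ⌊Real.exp (l / 7)⌋₊ with hF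
  have hF1 : (F : ℝ) ≤ Real.exp (l / 7) := Nat.floor_le (Real.exp_pos _).le
  have hYF : Y * Real.exp (l / 8) ≤ F := by
    have a1 : Real.exp (l / 7) < F + 1 := Nat.lt_floor_add_one _
    have a2 : Real.exp (l / 7) = Real.exp (l / 112) * (Real.exp (l / 112) * Real.exp (l / 8)) := by
      rw [← Real.exp_add, ← Real.exp_add]; ring_nf
    have a3 : 2 ≤ Real.exp (l / 112) := by linarith [Real.add_one_le_exp (l / 112)]
    have a4 : 1 ≤ Real.exp (l / 8) := Real.one_le_exp (by linarith)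
    have a5 := mul_le_mul_of_nonneg_right hY (Real.exp_pos (l / 8)).le
    nlinarith
  have hF7 : F ^ 7 ≤ N := by
    have : ((F : ℝ)) ^ 7 ≤ N := by
      refine (pow_le_pow_left₀ (Nat.cast_nonneg _) hF1 7).trans (le_of_eq ?_)
      rw [← Real.exp_nat_mul, ← hexp]; congr 1; push_cast; ring
    exact_mod_cast this
  have hsm : ∀ t : ℝ, t ≤ 4 / 5 → Real.exp (t * l) ≤ N / W := fun t ht => by
    rw [le_div_iff₀ hW0]
    refine (mul_le_mul_of_nonneg_left hWe (Real.exp_pos _).le).trans ?_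
    rw [← Real.exp_add, ← hexp]
    exact Real.exp_le_exp.2 (by nlinarith)
  have hYQ : Y * Real.exp (l / 8) ≤ N / W :=
    hYF.trans (hF1.trans ((le_of_eq (by ring_nf)).trans (hsm (1 / 7) (by norm_num))))
  have hW1 : 1 ≤ W := one_le_pow₀ (by linarith)
  have hNW : N / W ≤ N := div_le_self (by linarith) hW1
  have hNW0 : 0 ≤ N / W := by positivity
  have hfin : H ^ 5 * E * (N / W) ≤ N / H ^ c := by
    have : N / H ^ c = H ^ 5 * H ^ g * (N / W) := by
      rw [hW, hc']; field_simp; ring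
    rw [this]; gcongr
  have hy1 : 1 ≤ hh N ^ 6 := Nat.one_le_pow _ _ (by
    have : (0 : ℝ) < hh N := by linarith
    exact_mod_cast this)
  have hQ0 : 0 ≤ Real.exp (l / 8) := (Real.exp_pos _).le
  have hH3 : 1 ≤ H ^ 3 := one_le_pow₀ (by linarith)
  constructor
  · have := h.transfer hA hB hBy hy1 hQ0 u N N (fun _ => 1) (fun _ => 1) (β := N) (αm := 1)
      (ε := Y * Real.exp (l / 8) * E) (fun _ => zero_le_one) (fun _ _ => le_rfl) zero_le_one
      (by linarith) (fun _ => zero_le_one) (fun _ => le_rfl) (fun C' Φ' h' => by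
        simp only [one_mul]
        exact (h'.int_transfer hA (by positivity) N N).trans (le_of_eq (by ring)))
    simp only [one_mul] at this
    refine this.trans (mul_le_mul_of_nonneg_left (le_trans ?_ hfin) hC)
    have a1 : (N + Y * Real.exp (l / 8) + N) * ((2 ^ (u + 1))⁻¹ * E) ≤ (3 * N) * (W⁻¹ * E) := by
      gcongr; linarith
    have a2 : Y * Real.exp (l / 8) * E ≤ N / W * E := by gcongr
    have a3 : (4 : ℝ) ≤ H ^ 5 := by nlinarith
    have a4 : 4 * (E * (N / W)) ≤ H ^ 5 * (E * (N / W)) := by gcongr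
    have a5 : (3 * N) * (W⁻¹ * E) = 3 * (E * (N / W)) := by ring
    nlinarith
  · intro j hj
    have hX : Real.log ((3 * N : ℕ) : ℝ) ≤ l + 2 := by
      push_cast
      rw [Real.log_mul (by norm_num) (by linarith)]
      linarith [Real.log_le_sub_one_of_pos (show (0 : ℝ) < 3 by norm_num)]
    have hX0 : 0 ≤ Real.log ((3 * N : ℕ) : ℝ) := Real.log_natCast_nonneg _
    have hth : ∀ n ∈ Ioc N (N + N), th (n + j) ≤ 2 * H := fun n hn => by
      have a1 := mem_Ioc.1 hn
      have a2 : ((n + j : ℕ) : ℝ) ≤ (3 * N : ℕ) := by exact_mod_cast (by omega)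
      have a3 : (0 : ℝ) < (n + j : ℕ) := by exact_mod_cast (by omega)
      have := Real.log_le_log a3 a2
      unfold th
      split_ifs <;> linarith
    have hΘ : ∑ n ∈ Ioc N (N + N), th (n + j) ≤ N * (2 * H) := by
      simpa using sum_le_card_nsmul _ _ _ hth
    have hΘ0 : 0 ≤ ∑ n ∈ Ioc N (N + N), th (n + j) := sum_nonneg fun _ _ => th_nonneg _
    have hQ₀ : 0 < hh N ^ (2 * c') := Nat.pow_pos (by
      have : (0 : ℝ) < hh N := by linarith
      exact_mod_cast this)
    have hsq : Real.sqrt ((hh N ^ (2 * c') : ℕ) : ℝ) = W := by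
      push_cast
      rw [mul_comm, pow_mul, Real.sqrt_sq hW0.le]
    have := h.transfer hA hB hBy hy1 hQ0 u N N (fun n => th (n + j)) (rho A {j})
      (β := (∑ n ∈ Ioc N (N + N), th (n + j)) * Eul A) (αm := 2 * H)
      (ε := cK (2 * e + 1) * E * (6824 * H ^ 4 * (N / W))) (fun _ => th_nonneg _) hth
      (by linarith) (by positivity) (rho_nonneg _ _) (rho_le_one _ _) (fun C' Φ' h' => by
        have hC' := h'.C_nonneg
        refine (h'.prime_transfer hA hp₁ hp₁A hSW hQ₀ (X := 3 * N) hYF hF7 (by omega) hAN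
          (by omega) ?_ ?_).trans ?_
        · push_cast
          rw [Real.log_pow, mul_pow]
          push_cast
          exact hl26
        · push_cast at hX ⊢
          refine le_trans ?_ (pow_le_pow_right₀ (by linarith) (show 2 ≤ 2 * c' by omega))
          nlinarith
        · rw [hsq, mul_assoc C', mul_assoc C']
          refine mul_le_mul_of_nonneg_left (mul_le_mul_of_nonneg_left ?_
            (mul_nonneg (zero_le_one.trans (one_le_cK _)) hE0)) hC'
          have b1 : (1 + Real.log ((3 * N : ℕ) : ℝ)) ^ 4 ≤ (2 * H) ^ 4 :=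
            pow_le_pow_left₀ (by linarith) (by linarith) 4
          have b2 : 142 * ((3 * N : ℕ) : ℝ) * (1 + Real.log ((3 * N : ℕ) : ℝ)) ^ 4 / W
              ≤ 142 * ((3 * N : ℕ) : ℝ) * (2 * H) ^ 4 / W := by gcongr
          have b3 : Real.sqrt ((3 * N : ℕ) : ℝ) ≤ 2 * Real.exp (l / 2) := by
            rw [Real.sqrt_le_iff]
            refine ⟨by positivity, ?_⟩
            rw [mul_pow, ← Real.exp_nat_mul, show ((2 : ℕ) : ℝ) * (l / 2) = l by push_cast; ring, hexp]
            push_cast; linarith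
          have b4 : (F : ℝ) ^ 2 * (2 * Real.sqrt ((3 * N : ℕ) : ℝ) * Real.log ((3 * N : ℕ) : ℝ))
              ≤ Real.exp (l / 7) ^ 2 * (2 * (2 * Real.exp (l / 2)) * (2 * H)) := by
            gcongr; linarith
          have b5 : Real.exp (l / 7) ^ 2 * Real.exp (l / 2) ≤ N / W := by
            rw [← Real.exp_nat_mul, ← Real.exp_add]
            exact (le_of_eq (by congr 1; push_cast; ring)).trans (hsm (11 / 14) (by norm_num))
          have b6 : 142 * ((3 * N : ℕ) : ℝ) * (2 * H) ^ 4 / W = 6816 * H ^ 4 * (N / W) := by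
            push_cast; ring
          have b7 : 8 * H * (Real.exp (l / 7) ^ 2 * Real.exp (l / 2)) ≤ 8 * H ^ 4 * (N / W) := by
            gcongr; nlinarith
          nlinarith)
    refine this.trans (mul_le_mul_of_nonneg_left (le_trans ?_ hfin) hC)
    have a0 : (∑ n ∈ Ioc N (N + N), th (n + j)) * Eul A ≤ N * (2 * H) * H ^ 2 := by gcongr
    have a1 : (2 * H * (N + Y * Real.exp (l / 8)) + (∑ n ∈ Ioc N (N + N), th (n + j)) * Eul A)
        * ((2 ^ (u + 1))⁻¹ * E) ≤ (6 * H ^ 3 * N) * (W⁻¹ * E) := by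
      refine mul_le_mul ?_ (by gcongr) (by positivity) (by positivity)
      have : 2 * H * (N + Y * Real.exp (l / 8)) ≤ 2 * H ^ 3 * (N + N) := by
        gcongr
        · nlinarith
        · linarith
      nlinarith
    have a5 : (6 * H ^ 3 * N) * (W⁻¹ * E) = 6 * H ^ 3 * (E * (N / W)) := by ring
    have a3 : 6824 * cK (2 * e + 1) * H ^ 4 + 6 * H ^ 3 ≤ H ^ 5 := by
      have := one_le_cK (2 * e + 1)
      have b1 : 7000 * cK (2 * e + 1) * H ^ 4 ≤ H * H ^ 4 := by gcongr
      have b2 : H ^ 3 ≤ H ^ 4 := pow_le_pow_right₀ (by linarith) (by norm_num)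
      have b3 : H ^ 4 ≤ cK (2 * e + 1) * H ^ 4 := le_mul_of_one_le_left (by positivity) this
      nlinarith
    have a4 := mul_le_mul_of_nonneg_right a3 (mul_nonneg hE0 hNW0)
    nlinarith

end Pool.Agent.Work.MP_51e72e_nt.PP
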