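import Pool.Agent.Work.MP_51e72e_nt.PPCore
import Pool.Agent.Work.MP_51e72e_nt.PPTrans

/-!
Counting the integers `n` with a good pattern of primes among `n + 1, …, n + K`.
-/

set_option autoImplicit false

namespace Pool.Agent.Work.MP_51e72e_nt.PP

open Finset Pool.Agent.Lib.ANT

lemma detector {ι κ : Type*} [DecidableEq ι] [Fintype κ] (B : κ → Finset ι) (J : Finset ι)
    (P : ι → Prop) [DecidablePred P] (m : ℕ) (G : Prop) [Decidable G]
    (hG : (∀ j ∈ J, ¬ P j) → (∀ i, ((B i).filter P).card ≤ 1) →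
      m ≤ ∑ i, ((B i).filter P).card → G) :
    (∑ i, ∑ j ∈ B i, if P j then (1 : ℝ) else 0) - m - (Fintype.card κ + 1) *
      ((∑ j ∈ J, if P j then (1 : ℝ) else 0) + ∑ i, ∑ j ∈ B i, ∑ j' ∈ (B i).erase j,
        (if P j then (1 : ℝ) else 0) * if P j' then (1 : ℝ) else 0)
      ≤ Fintype.card κ * if G then 1 else 0 := by
  set c : κ → ℕ := fun i => ((B i).filter P).card with hc
  have e1 : ∀ i, (∑ j ∈ B i, if P j then (1 : ℝ) else 0) = c i := fun i => by rw [sum_boole]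
  have e2 : ∀ i, ∑ j ∈ B i, ∑ j' ∈ (B i).erase j,
      (if P j then (1 : ℝ) else 0) * (if P j' then (1 : ℝ) else 0) = c i * (c i - 1) := by
    intro i
    rw [← e1, sum_mul]
    refine sum_congr rfl fun j hj => ?_
    rw [← mul_sum, sum_erase_eq_sub hj]
    split_ifs <;> simp
  simp_rw [e1, e2]
  rw [sum_boole]
  have p0 : ∀ i, (0 : ℝ) ≤ c i * (c i - 1) := fun i => by
    rcases Nat.eq_zero_or_pos (c i) with h | h
    · simp [h]
    · have : (1 : ℝ) ≤ c i := by exact_mod_cast h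
      nlinarith
  have p1 : ∑ i, (c i : ℝ) ≤ Fintype.card κ + ∑ i, (c i : ℝ) * (c i - 1) := by
    have : ∑ i, (c i : ℝ) ≤ ∑ i, (1 + (c i : ℝ) * (c i - 1)) :=
      sum_le_sum fun i _ => by nlinarith [sq_nonneg ((c i : ℝ) - 1)]
    simpa [sum_add_distrib] using this
  have p2 : 0 ≤ ∑ i, (c i : ℝ) * (c i - 1) := sum_nonneg fun i _ => p0 i
  have k0 : (0 : ℝ) ≤ Fintype.card κ := Nat.cast_nonneg _
  have m0 : (0 : ℝ) ≤ m := Nat.cast_nonneg _
  have b0 : (0 : ℝ) ≤ (J.filter P).card := Nat.cast_nonneg _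
  split_ifs with h
  · nlinarith
  · by_cases h1 : ∀ j ∈ J, ¬ P j
    · by_cases h2 : ∀ i, c i ≤ 1
      · have h3 : ∑ i, c i < m := not_le.1 fun x => h (hG h1 h2 x)
        have h4 : ∑ i, (c i : ℝ) ≤ m := by exact_mod_cast h3.le
        nlinarith
      · push Not at h2
        obtain ⟨i, hi⟩ := h2
        have h3 : (2 : ℝ) ≤ c i := by exact_mod_cast hi
        have h4 := single_le_sum (fun i _ => p0 i) (mem_univ i)
        have h5 : 1 ≤ ∑ i, (c i : ℝ) * (c i - 1) := by nlinarith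
        nlinarith
    · push Not at h1
      obtain ⟨j, hj, h1⟩ := h1
      have h3 : (1 : ℝ) ≤ (J.filter P).card := by
        exact_mod_cast card_pos.2 ⟨j, mem_filter.2 ⟨hj, h1⟩⟩
      nlinarith

namespace Par

variable (π : Par)

/-- no prime outside the blocks, at most one in each block, at least `m` in total -/
def Good (m n : ℕ) : Prop :=
  (∀ j ∈ π.J, ¬ (n + ((j : ℕ) + 1)).Prime) ∧
    (∀ i, ((π.B i).filter fun j : Fin π.K => (n + ((j : ℕ) + 1)).Prime).card ≤ 1) ∧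
      m ≤ ∑ i, ((π.B i).filter fun j : Fin π.K => (n + ((j : ℕ) + 1)).Prime).card

/-- logarithm of the basic level -/
noncomputable def Λ : ℝ := 800 * 16 ^ π.M * Real.log π.y
/-- size of the weight -/
noncomputable def CF : ℝ := (π.mA * (3 * π.K)) ^ π.k * (π.K ^ (2 * 16 ^ π.mB) * Real.exp 3)
/-- degree of the weight -/
def dg : ℕ := π.k + 2 * 16 ^ π.mB

lemma A_prime : ∀ p ∈ π.A, p.Prime := fun _ hp => (mem_Qs.1 hp).2.2.2

lemma Λ_nonneg : 0 ≤ π.Λ := by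
  have := Real.log_natCast_nonneg π.y
  unfold Λ; positivity

variable {π}

lemma Ok.one_le_CF (h : π.Ok) : 1 ≤ π.CF := by
  have h1 : (1 : ℝ) ≤ π.K := by exact_mod_cast h.hK1
  have h2 : (1 : ℝ) ≤ π.mA := by exact_mod_cast h.hA
  exact one_le_mul_of_one_le_of_one_le (one_le_pow₀ (by nlinarith))
    (one_le_mul_of_one_le_of_one_le (one_le_pow₀ h1) (Real.one_le_exp (by norm_num)))

lemma Ok.str_W (h : π.Ok) (E : Finset (Fin π.K)) :
    Str π.A π.P π.dg (Real.exp π.Λ ^ 2) π.CF (π.W E) := by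
  have : Nonempty (Fin π.K) := ⟨⟨0, h.hK1⟩⟩
  have : Nonempty (Fin π.mB) := ⟨⟨0, h.hA.trans h.hAB⟩⟩
  have h1 := str_FA (P := π.P) (R := π.R) (sh := fun j : Fin π.K => (j : ℕ) + 1) (T := π.T)
    π.A_prime (fun j n => rho_eq_ite _ n j) π.Λ_nonneg
    (fun j a => lev_er h.y1 h.blocks (h.hAB.trans h.hBM) E j a) π.B
  have h2 := str_FB (P := π.P) (R := π.R) (sh := fun j : Fin π.K => (j : ℕ) + 1) (T := π.T)
    π.A_prime (fun j n => rho_eq_ite _ n j) π.Λ_nonneg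
    (fun j a => lev_er h.y1 h.blocks h.hBM E j a) (s₀ := 2 * 16 ^ π.mB) (fun a => by
      unfold tau
      rw [mul_one_div, one_le_div (by positivity)]
      push_cast
      exact mul_le_mul_of_nonneg_left (pow_le_pow_right₀ (by norm_num) a.2.le) (by norm_num)) π.J
  simp only [Fintype.card_fin] at h1 h2
  rw [sq]
  exact h1.mul π.A_prime h2

lemma Ok.str_top (h : π.Ok) (j : Fin π.K) : Str π.A π.P 1 (Real.exp π.Λ) 3
    (fun n => (if j ∈ π.R n then 1 else 0) * π.top (π.T n j)) :=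
  (Str.atom {(j : ℕ) + 1} (by simp) (lev_top h.y1 h.blocks j)).congr fun n => by
    rw [rho_eq_ite]; rfl

lemma Ok.strs (h : π.Ok) {Q : ℝ} (hQ : Real.exp π.Λ ^ 8 ≤ Q) :
    Str π.A π.P (4 * π.dg + 2) Q (9 * π.CF ^ 4) (fun n => π.W ∅ n ^ 2) ∧
    Str π.A π.P (4 * π.dg + 2) Q (9 * π.CF ^ 4) (fun n => π.W ∅ n ^ 4) ∧
    (∀ j, Str π.A π.P (4 * π.dg + 2) Q (9 * π.CF ^ 4) (π.ΦB j)) ∧
    ∀ j j', Str π.A π.P (4 * π.dg + 2) Q (9 * π.CF ^ 4) (π.ΦP j j') := by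
  have hA := π.A_prime
  have h1 := h.one_le_CF
  have h2 : 1 ≤ Real.exp π.Λ := Real.one_le_exp π.Λ_nonneg
  have q : ∀ a ≤ 8, Real.exp π.Λ ^ a ≤ Q := fun a ha => (pow_le_pow_right₀ h2 ha).trans hQ
  have c2 : π.CF ^ 2 ≤ π.CF ^ 4 := pow_le_pow_right₀ h1 (by norm_num)
  have c4 : 0 ≤ π.CF ^ 2 := by positivity
  have s2 := fun E => (h.str_W E).mul hA (h.str_W E)
  refine ⟨((s2 ∅).mono (by omega) ((le_of_eq (by ring)).trans (q 4 (by norm_num)))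
      (by nlinarith)).congr fun n => by ring,
    (((s2 ∅).mul hA (s2 ∅)).mono (by omega) ((le_of_eq (by ring)).trans (q 8 (by norm_num)))
      (by nlinarith)).congr fun n => by ring,
    fun j => (((h.str_top j).mul hA (s2 {j})).mono (by omega)
      ((le_of_eq (by ring)).trans (q 5 (by norm_num))) (by nlinarith)).congr fun n => ?_,
    fun j j' => (((h.str_top j).mul hA ((h.str_top j').mul hA (s2 {j, j'}))).mono (by omega)
      ((le_of_eq (by ring)).trans (q 6 (by norm_num))) (by nlinarith)).congr fun n => ?_⟩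
  · unfold ΦB; ring
  · unfold ΦP; ring

lemma Ok.of_prime (h : π.Ok) {n : ℕ} (hn : π.y ^ 16 ^ π.M ≤ n) {j : Fin π.K}
    (hp : (n + ((j : ℕ) + 1)).Prime) : j ∈ π.R n ∧ π.T n j = fun _ => ∅ := by
  have h1 : rho π.A {(j : ℕ) + 1} n = 1 := rho_eq_one fun p hp' i hi hd => by
    rw [mem_singleton.1 hi] at hd
    have := (Nat.prime_dvd_prime_iff_eq (π.A_prime p hp') hp).1 hd
    have := (mem_Qs.1 hp').2.2.1
    omega
  rw [A, rho_all h.y1] at h1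
  by_contra hc
  rcases not_and_or.1 hc with x | x
  · rw [if_neg (c := j ∈ surv π.K (Qs π.p₁ 0 π.y) n) x] at h1; simp at h1
  · rw [if_neg (c := cfg _ _ _ n j = fun _ => ∅) x] at h1; simp at h1

lemma Ok.W_erase (h : π.Ok) {n : ℕ} {E : Finset (Fin π.K)} (hE : ∀ j ∈ E, π.T n j = fun _ => ∅) :
    π.W E n = π.W ∅ n :=
  (FE_erase (fun _ => h.blocks.es_empty _) (fun _ => h.blocks.es_empty _) hE).symm

open Classical in
lemma Ok.pointwise (h : π.Ok) {n : ℕ} (hn : π.y ^ 16 ^ π.M ≤ n) {L : ℝ} (hL0 : 0 < L)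
    (hL : Real.log (n + π.K : ℕ) ≤ L) (m : ℕ) :
    L⁻¹ * (∑ i, ∑ j ∈ π.B i, th (n + ((j : ℕ) + 1)) * π.W ∅ n ^ 2) - m * π.W ∅ n ^ 2
      - (π.k + 1) * (∑ j ∈ π.J, π.ΦB j n + ∑ i, ∑ j ∈ π.B i, ∑ j' ∈ (π.B i).erase j, π.ΦP j j' n)
      ≤ π.k * ((if π.Good m n then 1 else 0) * π.W ∅ n ^ 2) := by
  have h1 := mul_le_mul_of_nonneg_right (detector π.B π.J (fun j => (n + ((j : ℕ) + 1)).Prime) m
    (π.Good m n) fun a b c => ⟨a, b, c⟩) (sq_nonneg (π.W ∅ n))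
  rw [Fintype.card_fin] at h1
  have ht : π.top (fun _ => ∅) = 1 := h.blocks.es_empty _
  have t0 : ∀ x, 0 ≤ π.top x := es_top_nonneg
  have a1 : L⁻¹ * (∑ i, ∑ j ∈ π.B i, th (n + ((j : ℕ) + 1)) * π.W ∅ n ^ 2)
      ≤ (∑ i, ∑ j ∈ π.B i, if (n + ((j : ℕ) + 1)).Prime then (1 : ℝ) else 0) * π.W ∅ n ^ 2 := by
    simp only [mul_sum, sum_mul]
    refine sum_le_sum fun i _ => sum_le_sum fun j _ => ?_
    rw [← mul_assoc]
    refine mul_le_mul_of_nonneg_right ?_ (sq_nonneg _)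
    unfold th
    split_ifs
    · rw [inv_mul_le_iff₀ hL0, mul_one]
      refine le_trans (Real.log_le_log (by positivity) ?_) hL
      have := j.2
      exact_mod_cast (by omega)
    · simp
  have a2 : (∑ j ∈ π.J, if (n + ((j : ℕ) + 1)).Prime then (1 : ℝ) else 0) * π.W ∅ n ^ 2
      ≤ ∑ j ∈ π.J, π.ΦB j n := by
    rw [sum_mul]
    refine sum_le_sum fun j _ => ?_
    unfold ΦB
    by_cases hp : (n + ((j : ℕ) + 1)).Prime
    · obtain ⟨b1, b2⟩ := h.of_prime hn hp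
      rw [if_pos hp, if_pos b1, b2, ht, h.W_erase (E := {j}) (by simpa using b2)]
      simp
    · rw [if_neg hp, zero_mul]
      exact mul_nonneg (by split_ifs <;> norm_num) (mul_nonneg (t0 _) (sq_nonneg _))
  have a3 : (∑ i, ∑ j ∈ π.B i, ∑ j' ∈ (π.B i).erase j,
      (if (n + ((j : ℕ) + 1)).Prime then (1 : ℝ) else 0) *
        if (n + ((j' : ℕ) + 1)).Prime then (1 : ℝ) else 0) * π.W ∅ n ^ 2
      ≤ ∑ i, ∑ j ∈ π.B i, ∑ j' ∈ (π.B i).erase j, π.ΦP j j' n := by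
    simp only [sum_mul]
    refine sum_le_sum fun i _ => sum_le_sum fun j _ => sum_le_sum fun j' _ => ?_
    unfold ΦP
    by_cases hp : (n + ((j : ℕ) + 1)).Prime ∧ (n + ((j' : ℕ) + 1)).Prime
    · obtain ⟨b1, b2⟩ := h.of_prime hn hp.1
      obtain ⟨b3, b4⟩ := h.of_prime hn hp.2
      rw [if_pos hp.1, if_pos hp.2, if_pos b1, if_pos b3, b2, b4, ht,
        h.W_erase (E := {j, j'}) (by simpa using ⟨b2, b4⟩)]
      simp
    · refine le_trans (le_of_eq ?_) (mul_nonneg (by split_ifs <;> norm_num) (mul_nonneg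
        (by split_ifs <;> norm_num) (mul_nonneg (mul_nonneg (t0 _) (t0 _)) (sq_nonneg _))))
      rcases not_and_or.1 hp with x | x <;> simp [x]
  have k0 : (0 : ℝ) ≤ π.k + 1 := by positivity
  have a4 := mul_le_mul_of_nonneg_left (add_le_add a2 a3) k0
  nlinarith

lemma Ok.averages (h : π.Ok) {β₁ β₂ l₀ η m cm : ℝ}
    (hβ₁ : ∀ n i, (π.B i ∩ π.R n).card * (1 / 16 ^ π.M) ≤ β₁)
    (hβ₂ : ∀ n, (π.R n).card * (1 / 16 ^ π.M) ≤ β₂)
    (hβ : 1 ≤ β₂) (hl : 0 ≤ l₀) (hm : 0 ≤ m) (hη0 : 0 ≤ η)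
    (hη : 4 * π.K ^ 2 / π.y * Real.exp (κ₄ π.mB * β₂) ≤ η ^ 2)
    (n1 : 96 * C₀ * π.k * π.mA ≤ 16 ^ π.mA)
    (n2 : 12 * (2 * m + 3) * C₀ * 16 ^ π.mA ≤ l₀ * π.mA ^ 2 * π.k)
    (n3 : 8 * (π.k + 1) * (C₀ * β₂) ^ 2 ≤ π.mB)
    (n4 : (π.k + 1) * π.k * 2 * (C₀ * β₁) * (12 * C₀ * π.mA ^ 2 + 1) ≤ 1)
    (hcm : cm ≤ (1 / 3 * (1 / 16 ^ π.M)) ^ π.k *
      avg (pr π.P) (fun n => ∏ i, ((π.B i ∩ π.R n).card : ℝ))) :
    avg (pr π.A) (fun n => π.W ∅ n ^ 4) ≤ 2 * Real.exp (κ₄ π.mB * β₂) ∧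
    cm - l₀ * (π.k * π.K) * η ≤
      l₀ * (∑ i, ∑ j ∈ π.B i, avg (pr π.A) (fun n => rho π.A {(j : ℕ) + 1} n * π.W ∅ n ^ 2))
        - m * avg (pr π.A) (fun n => π.W ∅ n ^ 2)
        - (π.k + 1) * (∑ j ∈ π.J, avg (pr π.A) (π.ΦB j)
          + ∑ i, ∑ j ∈ π.B i, ∑ j' ∈ (π.B i).erase j, avg (pr π.A) (π.ΦP j j')) := by
  obtain ⟨-, c₀, hc1, hc2, hc⟩ := law h.hK1 h.hK h.hK2 h.hy π.p₁ π.M
  have sp' : ∀ Ψ : Finset (Fin π.K) → (Fin π.K → Fin π.M → Finset ℕ) → ℝ,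
      avg (pr π.A) (fun n => Ψ (π.R n) (π.T n)) = avg (pr π.P) (fun x => c₀ * EI (Fin π.K)
        (sp π.M (Qb π.p₁ π.y)) (sw π.M (Qb π.p₁ π.y) (qq π.K)) (fun τ => nd τ * Ψ (π.R x) τ)) :=
    avg_split h.y1 hc
  have hP : 0 < pr π.P := pr_pos fun _ hp => (mem_Qs.1 hp).2.2.2
  have hp := h.blocks.prob
  have ite : ∀ (c : Prop) [Decidable c] (G : (Fin π.K → Fin π.M → Finset ℕ) → ℝ),
      c₀ * EI (Fin π.K) (sp π.M (Qb π.p₁ π.y)) (sw π.M (Qb π.p₁ π.y) (qq π.K))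
        (fun τ => nd τ * ((if c then 1 else 0) * G τ))
      = if c then c₀ * EI (Fin π.K) (sp π.M (Qb π.p₁ π.y)) (sw π.M (Qb π.p₁ π.y) (qq π.K))
        (fun τ => nd τ * G τ) else 0 := by
    intro c _ G
    split_ifs
    · simp
    · simp [EI, EE, Ex]
  constructor
  · refine (sp' fun R τ => π.F R ∅ τ ^ 4).le.trans ((avg_mono fun n => ?_).trans
      (avg_const hP _).le)
    exact mul_le_mul hc2 ((EI_mono hp fun τ => mul_le_of_le_one_left (by positivity)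
      (nd_le_one τ)).trans (h.fourth (hβ₂ n)))
      (EI_nonneg hp fun τ => mul_nonneg (nd_nonneg τ) (by positivity)) (by norm_num)
  have e1 : ∀ j : Fin π.K, avg (pr π.A) (fun n => rho π.A {(j : ℕ) + 1} n * π.W ∅ n ^ 2) = _ :=
    fun j => Eq.trans (by
      congr 1; funext n; rw [A, rho_all h.y1, mul_assoc]; rfl)
      (sp' fun R τ => (if j ∈ R then 1 else 0) *
        ((if τ j = fun _ => ∅ then 1 else 0) * π.F R ∅ τ ^ 2))
  have e2 : avg (pr π.A) (fun n => π.W ∅ n ^ 2) = _ := sp' fun R τ => π.F R ∅ τ ^ 2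
  have e3 : ∀ j, avg (pr π.A) (π.ΦB j) = _ := fun j =>
    sp' fun R τ => (if j ∈ R then 1 else 0) * (π.top (τ j) * π.F R {j} τ ^ 2)
  have e4 : ∀ j j', avg (pr π.A) (π.ΦP j j') = _ := fun j j' =>
    sp' fun R τ => (if j ∈ R then 1 else 0) * ((if j' ∈ R then 1 else 0) *
      (π.top (τ j) * π.top (τ j') * π.F R {j, j'} τ ^ 2))
  simp_rw [e1, e2, e3, e4, ite, ← avg_sum, ← avg_add, ← avg_smul, ← avg_sub]
  refine le_trans ?_ (avg_mono fun n => le_trans (h.model (R := π.R n) hc1 hc2 (hβ₁ n) (hβ₂ n) hβ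
    hl hm hη0 hη n1 n2 n3 n4) (le_of_eq ?_))
  · rw [avg_sub, avg_smul, avg_const hP]
    linarith
  · simp only [sum_ite_mem, sum_ite_irrel, sum_const_zero, erase_inter]

open Classical in
theorem Ok.count (h : π.Ok) {N m : ℕ} {Q ε L M₄ cm δ : ℝ} (hQ : Real.exp π.Λ ^ 8 ≤ Q)
    (hT : Transfer π.A π.P (4 * π.dg + 2) Q N ε) (hε : 0 ≤ ε) (hKN : π.K ≤ N)
    (hY : π.y ^ 16 ^ π.M ≤ N) (hL1 : 1 ≤ L) (hL : Real.log (3 * N : ℕ) ≤ L)
    (hΘ : ∀ j ≤ π.K, (N : ℝ) / 2 ≤ ∑ n ∈ Ioc N (N + N), th (n + j))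
    (h4 : avg (pr π.A) (fun n => π.W ∅ n ^ 4) ≤ 2 * M₄)
    (hm : cm - δ ≤ Eul π.A / (2 * L) *
      (∑ i, ∑ j ∈ π.B i, avg (pr π.A) (fun n => rho π.A {(j : ℕ) + 1} n * π.W ∅ n ^ 2))
        - m * avg (pr π.A) (fun n => π.W ∅ n ^ 2)
        - (π.k + 1) * (∑ j ∈ π.J, avg (pr π.A) (π.ΦB j)
          + ∑ i, ∑ j ∈ π.B i, ∑ j' ∈ (π.B i).erase j, avg (pr π.A) (π.ΦP j j')))
    (hcm : 0 ≤ cm) (hM : 0 < M₄) (he1 : 9 * π.CF ^ 4 * ε ≤ N * M₄)
    (he2 : N * δ + (π.k * π.K + m + (π.k + 1) * (π.K + π.k * (π.K * π.K))) * (9 * π.CF ^ 4 * ε)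
      ≤ N * cm / 2) :
    cm ^ 2 / (12 * π.k ^ 2 * M₄) * N ≤ ((Ioc N (N + N)).filter (π.Good m)).card := by
  obtain ⟨s1, s4, sB, sP⟩ := h.strs hQ
  have hCF := h.one_le_CF
  set e := 9 * π.CF ^ 4 * ε with he
  have he0 : 0 ≤ e := by positivity
  have hN : (0 : ℝ) < N := by
    have := h.hK1
    exact_mod_cast (by omega : 0 < N)
  have hk : (1 : ℝ) ≤ π.k := by exact_mod_cast h.hk
  have hE := one_le_Eul π.A_prime
  have cB : ∀ S : Finset (Fin π.K), (S.card : ℝ) ≤ π.K := fun S => by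
    exact_mod_cast (card_le_univ S).trans (by simp)
  have bd : ∀ (S : Finset (Fin π.K)) (f g : Fin π.K → ℝ) (c : ℝ), 0 ≤ c →
      (∀ j ∈ S, f j ≤ g j + c) → ∑ j ∈ S, f j ≤ ∑ j ∈ S, g j + π.K * c := fun S f g c hc hfg => by
    refine (sum_le_sum hfg).trans ?_
    rw [sum_add_distrib, sum_const, nsmul_eq_mul]
    exact add_le_add le_rfl (mul_le_mul_of_nonneg_right (cB S) hc)
  have bd' : ∀ (f g : Fin π.k → ℝ) (c : ℝ),
      (∀ i, f i ≤ g i + c) → ∑ i, f i ≤ ∑ i, g i + π.k * c := fun f g c hfg => by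
    refine (sum_le_sum fun i _ => hfg i).trans ?_
    rw [sum_add_distrib, sum_const, nsmul_eq_mul, card_univ, Fintype.card_fin]
  have t1 := (abs_le.1 (hT _ _ s1).1).2
  have t4 := (abs_le.1 (hT _ _ s4).1).2
  have tS : ∑ i, ∑ j ∈ π.B i, N / 2 * Eul π.A *
        avg (pr π.A) (fun n => rho π.A {(j : ℕ) + 1} n * π.W ∅ n ^ 2)
      ≤ ∑ i, ∑ j ∈ π.B i, ∑ n ∈ Ioc N (N + N), th (n + ((j : ℕ) + 1)) * π.W ∅ n ^ 2
        + π.k * (π.K * e) := by
    refine bd' _ _ _ fun i => bd _ _ _ _ he0 fun j _ => ?_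
    have a1 := (abs_le.1 ((hT _ _ s1).2 ((j : ℕ) + 1) (by have := j.2; omega))).1
    have a2 := mul_le_mul_of_nonneg_right (mul_le_mul_of_nonneg_right
      (hΘ ((j : ℕ) + 1) (by have := j.2; omega)) (zero_le_one.trans hE))
      (avg_nonneg (a := pr π.A) fun n => mul_nonneg (rho_nonneg π.A {(j : ℕ) + 1} n)
        (sq_nonneg (π.W ∅ n)))
    linarith
  have tB : ∑ j ∈ π.J, ∑ n ∈ Ioc N (N + N), π.ΦB j n
      ≤ ∑ j ∈ π.J, N * avg (pr π.A) (π.ΦB j) + π.K * e :=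
    bd _ _ _ _ he0 fun j _ => by linarith [(abs_le.1 (hT _ _ (sB j)).1).2]
  have tP : ∑ i, ∑ j ∈ π.B i, ∑ j' ∈ (π.B i).erase j, ∑ n ∈ Ioc N (N + N), π.ΦP j j' n
      ≤ ∑ i, ∑ j ∈ π.B i, ∑ j' ∈ (π.B i).erase j, N * avg (pr π.A) (π.ΦP j j')
        + π.k * (π.K * (π.K * e)) :=
    bd' _ _ _ fun i => bd _ _ _ _ (by positivity) fun j _ => bd _ _ _ _ he0 fun j' _ => by
      linarith [(abs_le.1 (hT _ _ (sP j j')).1).2]
  have pt := sum_le_sum (s := Ioc N (N + N)) fun n hn => h.pointwise (n := n) (L := L)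
    (hY.trans (mem_Ioc.1 hn).1.le) (by linarith) (le_trans (Real.log_le_log
      (by have := h.hK1; exact_mod_cast (by omega))
      (by have := (mem_Ioc.1 hn).2; exact_mod_cast (by omega))) hL) m
  simp only [sum_sub_distrib, sum_add_distrib, ← mul_sum] at pt tS tB tP
  rw [sum_comm, sum_congr rfl fun i _ => sum_comm, sum_comm (t := π.J),
    sum_comm (t := univ), sum_congr rfl fun i _ => sum_comm (t := π.B i),
    sum_congr rfl fun i _ => sum_congr rfl fun j _ => sum_comm (t := (π.B i).erase j)] at pt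
  have hLi : L⁻¹ ≤ 1 := inv_le_one_of_one_le₀ hL1
  have hLi0 : 0 ≤ L⁻¹ := by positivity
  have u1 := mul_le_mul_of_nonneg_left tS hLi0
  have u2 := mul_le_mul_of_nonneg_left hm hN.le
  have u3 := mul_le_mul_of_nonneg_left (add_le_add tB tP) (show (0 : ℝ) ≤ π.k + 1 by linarith)
  have u4 := mul_le_mul_of_nonneg_left t1 (Nat.cast_nonneg (α := ℝ) m)
  have u5 : L⁻¹ * (π.k * (π.K * e)) ≤ π.k * (π.K * e) :=
    mul_le_of_le_one_left (by positivity) hLi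
  have u6 : Eul π.A / (2 * L) = L⁻¹ * Eul π.A / 2 := by ring
  rw [u6] at u2
  have key : N * cm / 2 ≤ π.k * ∑ n ∈ Ioc N (N + N),
      (if π.Good m n then 1 else 0) * π.W ∅ n ^ 2 := by
    linarith
  have cs := sum_mul_sq_le_sq_mul_sq (Ioc N (N + N)) (fun n => if π.Good m n then (1 : ℝ) else 0)
    (fun n => π.W ∅ n ^ 2)
  have c1 : ∑ n ∈ Ioc N (N + N), (if π.Good m n then (1 : ℝ) else 0) ^ 2
      = ((Ioc N (N + N)).filter (π.Good m)).card := by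
    rw [← sum_boole]
    exact sum_congr rfl fun n _ => by split_ifs <;> simp
  have c2 : ∑ n ∈ Ioc N (N + N), (π.W ∅ n ^ 2) ^ 2 ≤ 3 * N * M₄ := by
    simp_rw [← pow_mul]
    nlinarith
  rw [c1] at cs
  have c3 := pow_le_pow_left₀ (by positivity) key 2
  have c4 := cs.trans (mul_le_mul_of_nonneg_left c2 (Nat.cast_nonneg _))
  rw [mul_pow] at c3
  have c5 := c3.trans (mul_le_mul_of_nonneg_left c4 (by positivity))
  rw [div_mul_eq_mul_div, div_le_iff₀ (by positivity)]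
  refine le_of_mul_le_mul_right ?_ hN
  linarith

end Par

end Pool.Agent.Work.MP_51e72e_nt.PP
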