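import Pool.Agent.Lib.ANT.SieveClasses
import Mathlib.Analysis.RCLike.Basic
import Mathlib.Algebra.BigOperators.Field

/-!
Sums of products of periodic functions with pairwise coprime periods over intervals.
-/

set_option autoImplicit false

namespace Pool.Agent.Work.MP_51e72e_nt.PP

open Finset Pool.Agent.Lib.ANT

/-- `f` only depends on the residue modulo `q` -/
def Per {α : Type*} (q : ℕ) (f : ℕ → α) : Prop := ∀ m n, m ≡ n [MOD q] → f m = f n

lemma Per.mod {α : Type*} {q : ℕ} {f : ℕ → α} (h : Per q f) (n : ℕ) : f (n % q) = f n :=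
  h _ _ (Nat.mod_modEq n q)

lemma Per.of_dvd {α : Type*} {q q' : ℕ} {f : ℕ → α} (h : Per q f) (hd : q ∣ q') : Per q' f :=
  fun m n hmn => h m n (hmn.of_dvd hd)

lemma periodic_sum_bound {𝕜 : Type*} [RCLike 𝕜] (Q : ℕ) (hQ : 0 < Q) (G : ℕ → 𝕜) (hG : Per Q G)
    (a L : ℕ) :
    ‖∑ n ∈ Ioc a (a + L), G n - (L : 𝕜) * ((∑ r ∈ range Q, G r) / Q)‖ ≤ ∑ r ∈ range Q, ‖G r‖ := by
  have e1 : ∑ n ∈ Ioc a (a + L), G n
      = ∑ r ∈ range Q, (((Ioc a (a + L)).filter (fun n => n ≡ r [MOD Q])).card : 𝕜) * G r := by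
    rw [← sum_fiberwise_of_maps_to (s := Ioc a (a + L)) (t := range Q) (g := fun n => n % Q)
      (fun n _ => mem_range.2 (Nat.mod_lt _ hQ))]
    refine sum_congr rfl fun r hr => ?_
    have hr' : r % Q = r := Nat.mod_eq_of_lt (mem_range.1 hr)
    have : (Ioc a (a + L)).filter (fun n => n % Q = r)
        = (Ioc a (a + L)).filter (fun n => n ≡ r [MOD Q]) := by
      refine filter_congr fun n _ => ?_
      rw [Nat.ModEq, hr']
    rw [this, sum_congr rfl (g := fun _ => G r) fun n hn => hG _ _ (mem_filter.1 hn).2]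
    simp
  rw [e1, sum_div, mul_sum, ← sum_sub_distrib]
  refine (norm_sum_le _ _).trans (sum_le_sum fun r _ => ?_)
  have h := abs_card_modEq_sub_le a L Q r hQ
  have e2 : (((Ioc a (a + L)).filter (fun n => n ≡ r [MOD Q])).card : 𝕜) * G r - L * (G r / Q)
      = ((((Ioc a (a + L)).filter (fun n => n ≡ r [MOD Q])).card - L / Q : ℝ) : 𝕜) * G r := by
    push_cast; ring
  rw [e2, norm_mul, RCLike.norm_ofReal]
  exact mul_le_of_le_one_left (norm_nonneg _) h

lemma crt_two {R : Type*} [CommSemiring R] {a b : ℕ} (hab : a.Coprime b) (ha : 0 < a) (hb : 0 < b)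
    (f g : ℕ → R) (hf : Per a f) (hg : Per b g) :
    ∑ r ∈ range (a * b), f r * g r = (∑ r ∈ range a, f r) * ∑ r ∈ range b, g r := by
  rw [sum_mul_sum, ← sum_product']
  refine sum_nbij' (fun r => (r % a, r % b)) (fun x => (Nat.chineseRemainder hab x.1 x.2 : ℕ))
    ?_ ?_ ?_ ?_ ?_
  · intro r _
    simp only [mem_product, mem_range]
    exact ⟨Nat.mod_lt _ ha, Nat.mod_lt _ hb⟩
  · intro x _
    exact mem_range.2 (Nat.chineseRemainder_lt_mul hab _ _ ha.ne' hb.ne')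
  · intro r hr
    have h := (Nat.chineseRemainder hab (r % a) (r % b)).2
    have h1 : (Nat.chineseRemainder hab (r % a) (r % b) : ℕ) ≡ r [MOD a * b] :=
      (Nat.modEq_and_modEq_iff_modEq_mul hab).1
        ⟨h.1.trans (Nat.mod_modEq r a), h.2.trans (Nat.mod_modEq r b)⟩
    exact h1.eq_of_lt_of_lt (Nat.chineseRemainder_lt_mul hab _ _ ha.ne' hb.ne') (mem_range.1 hr)
  · intro x hx
    have h := (Nat.chineseRemainder hab x.1 x.2).2
    simp only [mem_product, mem_range] at hx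
    ext
    · exact Eq.trans h.1 (Nat.mod_eq_of_lt hx.1)
    · exact Eq.trans h.2 (Nat.mod_eq_of_lt hx.2)
  · intro r _
    rw [hf.mod, hg.mod]

lemma per_prod {ι R : Type*} [CommMonoid R] (s : Finset ι) (q : ι → ℕ) (f : ι → ℕ → R)
    (hf : ∀ i ∈ s, Per (q i) (f i)) : Per (∏ i ∈ s, q i) (fun n => ∏ i ∈ s, f i n) :=
  fun m n h => prod_congr rfl fun i hi => hf i hi m n (h.of_dvd (dvd_prod_of_mem q hi))

lemma crt_prod {ι R : Type*} [CommSemiring R] (s : Finset ι) (q : ι → ℕ)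
    (hq : ∀ i ∈ s, 0 < q i) (hcop : ∀ i ∈ s, ∀ j ∈ s, i ≠ j → (q i).Coprime (q j))
    (f : ι → ℕ → R) (hf : ∀ i ∈ s, Per (q i) (f i)) :
    ∑ r ∈ range (∏ i ∈ s, q i), ∏ i ∈ s, f i r = ∏ i ∈ s, ∑ r ∈ range (q i), f i r := by
  classical
  induction s using Finset.induction_on with
  | empty => simp
  | insert a s ha ih =>
    simp_rw [prod_insert ha]
    have hc : (q a).Coprime (∏ i ∈ s, q i) := Nat.Coprime.prod_right fun i hi =>
      hcop a (mem_insert_self _ _) i (mem_insert_of_mem hi) (fun h => ha (h ▸ hi))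
    rw [crt_two hc (hq a (mem_insert_self _ _)) (prod_pos fun i hi => hq i (mem_insert_of_mem hi))
      (f a) (fun n => ∏ i ∈ s, f i n) (hf a (mem_insert_self _ _))
      (per_prod s q f fun i hi => hf i (mem_insert_of_mem hi)),
      ih (fun i hi => hq i (mem_insert_of_mem hi))
        (fun i hi j hj => hcop i (mem_insert_of_mem hi) j (mem_insert_of_mem hj))
        (fun i hi => hf i (mem_insert_of_mem hi))]

lemma crt_pair {R α β : Type*} [AddCommMonoid R] {a b : ℕ} (hab : a.Coprime b) (ha : 0 < a)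
    (hb : 0 < b) (f : ℕ → α) (g : ℕ → β) (hf : Per a f) (hg : Per b g) (H : α → β → R) :
    ∑ r ∈ range (a * b), H (f r) (g r) = ∑ x ∈ range a, ∑ z ∈ range b, H (f x) (g z) := by
  rw [← sum_product']
  refine sum_nbij' (fun r => (r % a, r % b)) (fun x => (Nat.chineseRemainder hab x.1 x.2 : ℕ))
    ?_ ?_ ?_ ?_ ?_
  · intro r _
    simp only [mem_product, mem_range]
    exact ⟨Nat.mod_lt _ ha, Nat.mod_lt _ hb⟩
  · intro x _
    exact mem_range.2 (Nat.chineseRemainder_lt_mul hab _ _ ha.ne' hb.ne')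
  · intro r hr
    have h := (Nat.chineseRemainder hab (r % a) (r % b)).2
    have h1 : (Nat.chineseRemainder hab (r % a) (r % b) : ℕ) ≡ r [MOD a * b] :=
      (Nat.modEq_and_modEq_iff_modEq_mul hab).1
        ⟨h.1.trans (Nat.mod_modEq r a), h.2.trans (Nat.mod_modEq r b)⟩
    exact h1.eq_of_lt_of_lt (Nat.chineseRemainder_lt_mul hab _ _ ha.ne' hb.ne') (mem_range.1 hr)
  · intro x hx
    have h := (Nat.chineseRemainder hab x.1 x.2).2
    simp only [mem_product, mem_range] at hx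
    ext
    · exact Eq.trans h.1 (Nat.mod_eq_of_lt hx.1)
    · exact Eq.trans h.2 (Nat.mod_eq_of_lt hx.2)
  · intro r _
    rw [hf.mod, hg.mod]

/-- average over a period -/
noncomputable def avg (Q : ℕ) (f : ℕ → ℝ) : ℝ := (∑ r ∈ range Q, f r) / Q

lemma avg_mul {a b : ℕ} (hab : a.Coprime b) (ha : 0 < a) (hb : 0 < b)
    (f g : ℕ → ℝ) (hf : Per a f) (hg : Per b g) :
    avg (a * b) (fun n => f n * g n) = avg a f * avg b g := by
  unfold avg
  rw [crt_two hab ha hb f g hf hg]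
  push_cast
  ring

lemma avg_one {a : ℕ} (ha : 0 < a) : avg a (fun _ => 1) = 1 := by
  have : (a : ℝ) ≠ 0 := by exact_mod_cast ha.ne'
  simp [avg, this]

lemma avg_const {a : ℕ} (ha : 0 < a) (c : ℝ) : avg a (fun _ => c) = c := by
  have : (a : ℝ) ≠ 0 := by exact_mod_cast ha.ne'
  simp [avg, this]

lemma avg_mono {a : ℕ} {f g : ℕ → ℝ} (h : ∀ n, f n ≤ g n) : avg a f ≤ avg a g :=
  div_le_div_of_nonneg_right (sum_le_sum fun n _ => h n) (Nat.cast_nonneg a)

lemma avg_nonneg {a : ℕ} {f : ℕ → ℝ} (h : ∀ n, 0 ≤ f n) : 0 ≤ avg a f :=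
  div_nonneg (sum_nonneg fun n _ => h n) (Nat.cast_nonneg a)

lemma avg_add (a : ℕ) (f g : ℕ → ℝ) : avg a (fun n => f n + g n) = avg a f + avg a g := by
  unfold avg; rw [sum_add_distrib, add_div]

lemma avg_sub (a : ℕ) (f g : ℕ → ℝ) : avg a (fun n => f n - g n) = avg a f - avg a g := by
  unfold avg; rw [sum_sub_distrib, sub_div]

lemma avg_smul (a : ℕ) (c : ℝ) (f : ℕ → ℝ) : avg a (fun n => c * f n) = c * avg a f := by
  unfold avg; rw [← mul_sum, mul_div_assoc]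

lemma avg_sum {ι : Type*} (a : ℕ) (s : Finset ι) (f : ι → ℕ → ℝ) :
    avg a (fun n => ∑ i ∈ s, f i n) = ∑ i ∈ s, avg a (f i) := by
  unfold avg; rw [sum_comm, sum_div]

lemma abs_avg_le (a : ℕ) (f : ℕ → ℝ) : |avg a f| ≤ avg a (fun n => |f n|) := by
  unfold avg
  rw [abs_div, Nat.abs_cast]
  exact div_le_div_of_nonneg_right (abs_sum_le_sum_abs _ _) (Nat.cast_nonneg a)

lemma avg_pair {α β : Type*} {a b : ℕ} (hab : a.Coprime b) (ha : 0 < a)
    (hb : 0 < b) (f : ℕ → α) (g : ℕ → β) (hf : Per a f) (hg : Per b g) (H : α → β → ℝ) :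
    avg (a * b) (fun n => H (f n) (g n)) = avg a (fun x => avg b (fun z => H (f x) (g z))) := by
  unfold avg
  rw [crt_pair hab ha hb f g hf hg H, ← sum_div]
  push_cast
  rw [div_div, mul_comm]

/-- product of a finite set of naturals -/
def pr (D : Finset ℕ) : ℕ := ∏ p ∈ D, p

lemma pr_pos {D : Finset ℕ} (hD : ∀ p ∈ D, p.Prime) : 0 < pr D :=
  prod_pos fun p hp => (hD p hp).pos

lemma pr_coprime {D D' : Finset ℕ} (hD : ∀ p ∈ D, p.Prime) (hD' : ∀ p ∈ D', p.Prime)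
    (h : Disjoint D D') : (pr D).Coprime (pr D') :=
  Nat.Coprime.prod_left fun p hp => Nat.Coprime.prod_right fun q hq =>
    (Nat.coprime_primes (hD p hp) (hD' q hq)).2 fun e => disjoint_left.1 h hp (e ▸ hq)

lemma pr_union {D D' : Finset ℕ} (h : Disjoint D D') : pr (D ∪ D') = pr D * pr D' :=
  prod_union h

lemma pr_dvd {D D' : Finset ℕ} (h : D ⊆ D') : pr D ∣ pr D' := prod_dvd_prod_of_subset _ _ _ h

lemma pr_sdiff {D A : Finset ℕ} (h : D ⊆ A) : pr A = pr D * pr (A \ D) := by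
  rw [← pr_union disjoint_sdiff, union_sdiff_of_subset h]

lemma avg_of_subset {D A : Finset ℕ} (hA : ∀ p ∈ A, p.Prime) (h : D ⊆ A) (f : ℕ → ℝ)
    (hf : Per (pr D) f) : avg (pr A) f = avg (pr D) f := by
  have h1 : ∀ p ∈ D, p.Prime := fun p hp => hA p (h hp)
  have h2 : ∀ p ∈ A \ D, p.Prime := fun p hp => hA p (mem_sdiff.1 hp).1
  have := avg_mul (pr_coprime h1 h2 disjoint_sdiff) (pr_pos h1) (pr_pos h2) f (fun _ => 1) hf
    (fun _ _ _ => rfl)
  rw [avg_one (pr_pos h2), mul_one, ← pr_sdiff h] at this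
  simpa using this

lemma avg_prod (A : Finset ℕ) (hA : ∀ p ∈ A, p.Prime) (f : ℕ → ℕ → ℝ)
    (hf : ∀ p ∈ A, Per p (f p)) :
    avg (pr A) (fun n => ∏ p ∈ A, f p n) = ∏ p ∈ A, avg p (f p) := by
  unfold avg pr
  rw [crt_prod A (fun p => p) (fun p hp => (hA p hp).pos)
    (fun p hp q hq h => (Nat.coprime_primes (hA p hp) (hA q hq)).2 h) f hf, prod_div_distrib]
  push_cast
  rfl

end Pool.Agent.Work.MP_51e72e_nt.PP
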