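import Pool.Agent.Work.MP_51e72e_nt.PPMertens

/-!
The law of the pattern of large prime factors of `n + 1, …, n + K` over a full period.
-/

set_option autoImplicit false

namespace Pool.Agent.Work.MP_51e72e_nt.PP

open Finset Pool.Agent.Lib.ANT

/-- the pattern of large prime factors -/
def cfg (K M : ℕ) (Q : ℕ → Finset ℕ) (n : ℕ) : Fin K → Fin M → Finset ℕ :=
  fun j i => hit (Q i) {(j : ℕ) + 1} n

lemma mem_cfg {K M : ℕ} {Q : ℕ → Finset ℕ} {n p : ℕ} {j : Fin K} {i : Fin M} :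
    p ∈ cfg K M Q n j i ↔ p ∈ Q i ∧ p ∣ n + (j + 1) := by
  simp [cfg, hit]

/-- no prime occurs at two coordinates -/
noncomputable def nd {K M : ℕ} (τ : Fin K → Fin M → Finset ℕ) : ℝ :=
  if ∀ i j j', j ≠ j' → Disjoint (τ j i) (τ j' i) then 1 else 0

lemma nd_nonneg {K M : ℕ} (τ : Fin K → Fin M → Finset ℕ) : 0 ≤ nd τ := by
  unfold nd; split_ifs <;> norm_num

lemma nd_le_one {K M : ℕ} (τ : Fin K → Fin M → Finset ℕ) : nd τ ≤ 1 := by
  unfold nd; split_ifs <;> norm_num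

lemma dvd_uniq {K p n : ℕ} (hp : K < p) {j j' : Fin K} (h : p ∣ n + (j + 1))
    (h' : p ∣ n + (j' + 1)) : j = j' := by
  have h1 : n + (j + 1) ≡ n + (j' + 1) [MOD p] :=
    (Nat.modEq_zero_iff_dvd.2 h).trans (Nat.modEq_zero_iff_dvd.2 h').symm
  have h2 := Nat.ModEq.add_right_cancel' 1 (Nat.ModEq.add_left_cancel' n h1)
  exact Fin.ext (h2.eq_of_lt_of_lt (by omega) (by omega))

lemma avg_dvd {p : ℕ} (hp : 0 < p) (j : ℕ) :
    avg p (fun n => if p ∣ n + j then 1 else 0) = 1 / p := by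
  unfold avg
  rw [sum_boole]
  have := card_dvd_shift_one hp j
  simp only [mem_singleton, exists_eq_left] at this
  rw [this, Nat.cast_one]

lemma avg_local {K p : ℕ} (hp : K < p) (S : Finset (Fin K)) :
    avg p (fun n => if ∀ j : Fin K, p ∣ n + (j + 1) ↔ j ∈ S then 1 else 0)
      = ((1 - K / p) / (1 - qq K p) ^ K) * ((if S.card ≤ 1 then 1 else 0)
        * ∏ j, if j ∈ S then qq K p else 1 - qq K p) := by
  have hp0 : 0 < p := by omega
  have hp' : (K : ℝ) + 1 ≤ p := by exact_mod_cast hp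
  have hK0 : (0 : ℝ) ≤ K := Nat.cast_nonneg K
  have h1 : 1 - qq K p = (p - K) / (p - K + 1) := by
    unfold qq
    have : (p : ℝ) - K + 1 ≠ 0 := by linarith
    field_simp
    ring
  have h2 : 0 < 1 - qq K p := by rw [h1]; exact div_pos (by linarith) (by linarith)
  rcases S.eq_empty_or_nonempty with rfl | ⟨j₀, hj₀⟩
  · have e : ∀ n, (if ∀ j : Fin K, p ∣ n + (j + 1) ↔ j ∈ (∅ : Finset (Fin K)) then (1 : ℝ) else 0)
        = 1 - ∑ j : Fin K, if p ∣ n + (j + 1) then 1 else 0 := by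
      intro n
      by_cases h : ∃ j : Fin K, p ∣ n + (j + 1)
      · obtain ⟨j, hj⟩ := h
        rw [if_neg fun x => by simpa using (x j).1 hj, sum_eq_single j, if_pos hj, sub_self]
        · exact fun j' _ hne => if_neg fun x => hne (dvd_uniq hp x hj)
        · simp
      · push Not at h
        simp [h]
    simp_rw [e]
    rw [avg_sub, avg_one hp0, avg_sum]
    simp only [avg_dvd hp0, sum_const, card_univ, Fintype.card_fin, nsmul_eq_mul, card_empty,
      zero_le, if_true, notMem_empty, if_false, prod_const, one_mul]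
    field_simp
  · by_cases hS : S.card ≤ 1
    · have hS' : S = {j₀} := eq_singleton_iff_unique_mem.2 ⟨hj₀, fun j hj => card_le_one.1 hS j hj j₀ hj₀⟩
      subst hS'
      have e : ∀ n, (∀ j : Fin K, p ∣ n + (j + 1) ↔ j ∈ ({j₀} : Finset (Fin K)))
          ↔ p ∣ n + (j₀ + 1) := fun n =>
        ⟨fun h => (h j₀).2 hj₀, fun h j => ⟨fun h' => mem_singleton.2 (dvd_uniq hp h' h),
          fun h' => (mem_singleton.1 h') ▸ h⟩⟩
      simp_rw [e]
      rw [avg_dvd hp0, if_pos hS, ← mul_prod_erase _ _ (mem_univ j₀), if_pos hj₀,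
        prod_congr rfl (g := fun _ => 1 - qq K p) fun j hj => if_neg (by simpa using hj),
        prod_const, card_erase_of_mem (mem_univ _), card_univ, Fintype.card_fin]
      obtain ⟨K', rfl⟩ : ∃ K', K = K' + 1 := ⟨K - 1, by have := j₀.2; omega⟩
      rw [Nat.add_sub_cancel, pow_succ]
      generalize (1 - qq (K' + 1) p) ^ K' = z, pow_pos h2 K' = hz
      rw [h1]
      unfold qq
      have a1 : (p : ℝ) - (K' + 1 : ℕ) ≠ 0 := by linarith
      have a2 : (p : ℝ) - (K' + 1 : ℕ) + 1 ≠ 0 := by linarith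
      have a3 : (p : ℝ) ≠ 0 := by linarith
      field_simp
    · rw [if_neg hS, zero_mul, mul_zero]
      refine Eq.trans ?_ (avg_const hp0 0)
      congr 1
      funext n
      refine if_neg fun h => hS (card_le_one.2 fun j hj j' hj' => ?_)
      exact dvd_uniq hp ((h j).2 hj) ((h j').2 hj')

lemma ite_iff {P P' : Prop} {i : Decidable P} {i' : Decidable P'} (h : P ↔ P') (a b : ℝ) :
    @ite ℝ P i a b = @ite ℝ P' i' a b := if_congr h rfl rfl

lemma wt_eq {q : ℕ → ℝ} {Q T : Finset ℕ} (h : T ⊆ Q) :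
    wt q Q T = ∏ p ∈ Q, if p ∈ T then q p else 1 - q p := by
  unfold wt
  rw [prod_ite, filter_mem_eq_inter, inter_eq_right.2 h, ← sdiff_eq_filter]

lemma prod_Qb_fin {R : Type*} [CommMonoid R] (p₁ : ℕ) {y : ℕ} (hy : 1 ≤ y) (f : ℕ → R) (M : ℕ) :
    ∏ p ∈ Qs p₁ y (y ^ 16 ^ M), f p = ∏ i : Fin M, ∏ p ∈ Qb p₁ y i, f p := by
  rw [← prod_Qb p₁ hy, Fin.prod_univ_eq_prod_range (fun i => ∏ p ∈ Qb p₁ y i, f p)]

lemma Qb_uniq {p₁ y : ℕ} (hy : 1 ≤ y) {i i' p : ℕ} (h : p ∈ Qb p₁ y i) (h' : p ∈ Qb p₁ y i') :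
    i = i' := by
  by_contra hne
  rcases lt_or_gt_of_ne hne with x | x
  · exact disjoint_left.1 (Qs_disjoint p₁ (pow_pow_mono hy x)) h h'
  · exact disjoint_left.1 (Qs_disjoint p₁ (pow_pow_mono hy x)) h' h

lemma avg_cfg_eq {K y : ℕ} (hK : K ≤ y) (hy : 1 ≤ y) (p₁ M : ℕ) (τ : Fin K → Fin M → Finset ℕ)
    (hτ : ∀ j i, τ j i ⊆ Qb p₁ y i) :
    avg (pr (Qs p₁ y (y ^ 16 ^ M))) (fun n => if cfg K M (Qb p₁ y) n = τ then 1 else 0)
      = (∏ i : Fin M, ∏ p ∈ Qb p₁ y i, ((1 - K / p) / (1 - qq K p) ^ K))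
        * (pw (fun _ : Fin K => sw M (Qb p₁ y) (qq K)) τ * nd τ) := by
  have hi : ∀ (i : Fin M), ∀ p ∈ Qb p₁ y i, ∀ j, (∃ i', p ∈ τ j i') ↔ p ∈ τ j i :=
    fun i p hp j => ⟨fun ⟨i', h⟩ => (Fin.ext (Qb_uniq hy (hτ j i' h) hp) : i' = i) ▸ h,
      fun h => ⟨i, h⟩⟩
  set S : ℕ → Finset (Fin K) := fun p => univ.filter fun j => ∃ i', p ∈ τ j i' with hS
  have hS' : ∀ (i : Fin M), ∀ p ∈ Qb p₁ y i, ∀ j, j ∈ S p ↔ p ∈ τ j i := fun i p hp j => by
    simp only [hS, mem_filter, mem_univ, true_and, hi i p hp]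
  have e1 : ∀ n, (if cfg K M (Qb p₁ y) n = τ then (1 : ℝ) else 0) = ∏ p ∈ Qs p₁ y (y ^ 16 ^ M),
      if ∀ j : Fin K, p ∣ n + (j + 1) ↔ j ∈ S p then 1 else 0 := by
    intro n
    rw [prod_Qb_fin p₁ hy]
    simp_rw [prod_boole]
    refine ite_iff ⟨fun h i _ p hp j => ?_, fun h => ?_⟩ _ _
    · rw [hS' i p hp, ← h, mem_cfg]; simp [hp]
    · ext j i p
      rw [mem_cfg]
      constructor
      · rintro ⟨h1, h2⟩
        exact (hS' i p h1 j).1 ((h i (mem_univ _) p h1 j).1 h2)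
      · intro h1
        exact ⟨hτ j i h1, (h i (mem_univ _) p (hτ j i h1) j).2 ((hS' i p (hτ j i h1) j).2 h1)⟩
  simp_rw [e1]
  rw [avg_prod _ (fun p hp => (mem_Qs.1 hp).2.2.2) _ fun p _ m n hmn => by
    simp only [dvd_add_congr dvd_rfl hmn],
    prod_congr rfl fun p hp => avg_local (hK.trans_lt (mem_Qs.1 hp).2.1) (S p), prod_Qb_fin p₁ hy]
  simp_rw [prod_mul_distrib]
  congr 1
  rw [mul_comm]
  congr 1
  · simp only [pw]
    simp_rw [fun j i => wt_eq (q := qq K) (hτ j i)]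
    rw [prod_comm]
    refine prod_congr rfl fun i _ => ?_
    rw [prod_comm]
    refine prod_congr rfl fun j _ => prod_congr rfl fun p hp => ?_
    simp only [hS' i p hp]
  · unfold nd
    simp_rw [prod_boole]
    refine ite_iff ⟨fun h i j j' hj => ?_, fun h i _ p hp => ?_⟩ _ _
    · refine disjoint_left.2 fun p h1 h2 => hj ?_
      exact card_le_one.1 (h i (mem_univ _) p (hτ j i h1)) j ((hS' i p (hτ j i h1) j).2 h1) j'
        ((hS' i p (hτ j i h1) j').2 h2)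
    · refine card_le_one.2 fun j hj j' hj' => ?_
      by_contra hne
      exact disjoint_left.1 (h i j j' hne) ((hS' i p hp j).1 hj) ((hS' i p hp j').1 hj')

lemma Ex_mem {q : ℕ → ℝ} {Q : Finset ℕ} (h : IsProb Q.powerset (wt q Q)) {p : ℕ} (hp : p ∈ Q) :
    Ex Q.powerset (wt q Q) (fun T => if p ∈ T then 1 else 0) = q p := by
  have e1 : ∀ T : Finset ℕ, (if p ∈ T then (1 : ℝ) else 0)
      = 1 - ∏ r ∈ T, if r = p then 0 else 1 := fun T => by
    rw [prod_ite_eq']; split_ifs <;> simp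
  simp_rw [e1]
  rw [Ex_sub, h.const]
  have e2 : Ex Q.powerset (wt q Q) (fun T => ∏ r ∈ T, if r = p then 0 else 1)
      = ∏ r ∈ Q, ((if r = p then 0 else 1) * q r + (1 - q r)) := by
    rw [prod_add]
    refine sum_congr rfl fun T _ => ?_
    unfold wt
    rw [prod_mul_distrib]
    ring
  rw [e2, prod_eq_single p (fun r _ hr => by simp [hr]) (fun h => absurd hp h)]
  simp

lemma one_sub_nd_le {K M : ℕ} {Q : ℕ → Finset ℕ} {q : ℕ → ℝ} (h : Blocks M Q q) :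
    EI (Fin K) (sp M Q) (sw M Q q) (fun τ => 1 - nd τ)
      ≤ K ^ 2 * ∑ i : Fin M, ∑ p ∈ Q i, q p ^ 2 := by
  have hp : ∀ _ : Fin K, IsProb (sp M Q) (sw M Q q) := fun _ => h.prob
  have h1 : EI (Fin K) (sp M Q) (sw M Q q) (fun τ => 1 - nd τ)
      ≤ EI (Fin K) (sp M Q) (sw M Q q) (fun τ => ∑ j, ∑ j' ∈ univ.erase j, ∑ i : Fin M, ∑ p ∈ Q i,
        (if p ∈ τ j i then 1 else 0) * if p ∈ τ j' i then 1 else 0) := by
    refine (isProb_pi hp).mono fun τ hτ => ?_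
    have h0 : ∀ j j' i p, (0 : ℝ) ≤ (if p ∈ τ j i then 1 else 0) * if p ∈ τ j' i then 1 else 0 :=
      fun j j' i p => by split_ifs <;> norm_num
    unfold nd
    split_ifs with hd
    · rw [sub_self]
      exact sum_nonneg fun _ _ => sum_nonneg fun _ _ => sum_nonneg fun _ _ =>
        sum_nonneg fun _ _ => h0 _ _ _ _
    · push Not at hd
      obtain ⟨i, j, j', hj, hd⟩ := hd
      obtain ⟨p, h1, h2⟩ := not_disjoint_iff.1 hd
      have hp : p ∈ Q i :=
        mem_powerset.1 (Fintype.mem_piFinset.1 (Fintype.mem_piFinset.1 hτ j) i) h1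
      refine le_trans ?_ (single_le_sum (fun _ _ => sum_nonneg fun _ _ => sum_nonneg fun _ _ =>
        sum_nonneg fun _ _ => h0 _ _ _ _) (mem_univ j))
      refine le_trans ?_ (single_le_sum (fun _ _ => sum_nonneg fun _ _ =>
        sum_nonneg fun _ _ => h0 _ _ _ _) (mem_erase.2 ⟨hj.symm, mem_univ j'⟩))
      refine le_trans ?_ (single_le_sum (fun _ _ => sum_nonneg fun _ _ => h0 _ _ _ _) (mem_univ i))
      refine le_trans ?_ (single_le_sum (fun _ _ => h0 _ _ _ _) hp)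
      simp [h1, h2]
  refine h1.trans ?_
  have h2 : ∀ j j' : Fin K, j' ≠ j → ∀ i : Fin M, ∀ p ∈ Q i,
      Ex (Fintype.piFinset fun _ : Fin K => sp M Q) (pw fun _ => sw M Q q) (fun τ =>
        (if p ∈ τ j i then 1 else 0) * if p ∈ τ j' i then 1 else 0) = q p ^ 2 := by
    intro j j' hj i p hp'
    have a1 := EE_single (fun i : Fin M => h.prob0 i) i (fun T => if p ∈ T then (1 : ℝ) else 0)
    rw [Ex_mem (h.prob0 i) hp'] at a1
    have a2 := EE_indep hp (U := {j}) (V := {j'}) (by simpa using hj.symm)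
      (f := fun τ => if p ∈ τ j i then 1 else 0) (g := fun τ => if p ∈ τ j' i then 1 else 0)
      (fun T T' e => by simp only [e j (mem_singleton_self j)])
      (fun T T' e => by simp only [e j' (mem_singleton_self j')])
    rw [EE_single hp j (fun T => if p ∈ T i then 1 else 0),
      EE_single hp j' (fun T => if p ∈ T i then 1 else 0)] at a2
    unfold EE at a1 a2
    rw [a2, a1, sq]
  unfold EI EE
  simp_rw [Ex_sum]
  have h3 : 0 ≤ ∑ i : Fin M, ∑ p ∈ Q i, q p ^ 2 :=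
    sum_nonneg fun _ _ => sum_nonneg fun _ _ => sq_nonneg _
  refine (sum_le_card_nsmul _ _ (K * ∑ i : Fin M, ∑ p ∈ Q i, q p ^ 2) fun j _ => ?_).trans
    (le_of_eq (by simp [sq, mul_assoc]))
  rw [sum_congr rfl fun j' hj' => sum_congr rfl fun i _ => sum_congr rfl fun p hp =>
    h2 j j' (mem_erase.1 hj').1 i p hp, sum_const, nsmul_eq_mul]
  refine mul_le_mul_of_nonneg_right ?_ h3
  exact_mod_cast card_erase_le.trans (by simp)

theorem law {K y : ℕ} (hK1 : 1 ≤ K) (hK : 100 * K ≤ y) (hK2 : 8 * K ^ 2 ≤ y)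
    (hy : 1000 ≤ Real.log y) (p₁ M : ℕ) :
    EI (Fin K) (sp M (Qb p₁ y)) (sw M (Qb p₁ y) (qq K)) (fun τ => 1 - nd τ) ≤ 4 * K ^ 2 / y ∧
    ∃ c₀ : ℝ, 1 ≤ c₀ ∧ c₀ ≤ 2 ∧ ∀ G : (Fin K → Fin M → Finset ℕ) → ℝ,
      avg (pr (Qs p₁ y (y ^ 16 ^ M))) (fun n => G (cfg K M (Qb p₁ y) n))
        = c₀ * EI (Fin K) (sp M (Qb p₁ y)) (sw M (Qb p₁ y) (qq K)) (fun τ => nd τ * G τ) := by
  have hb := blocks hK1 hK hy p₁ M
  have hy1 : 1 ≤ y := by omega
  have h1 : EI (Fin K) (sp M (Qb p₁ y)) (sw M (Qb p₁ y) (qq K)) (fun τ => 1 - nd τ)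
      ≤ 4 * K ^ 2 / y := by
    refine (one_sub_nd_le hb).trans ?_
    have := prod_Qb_fin (R := Multiplicative ℝ) p₁ hy1 (fun p => Multiplicative.ofAdd (qq K p ^ 2)) M
    have e : ∑ i : Fin M, ∑ p ∈ Qb p₁ y i, qq K p ^ 2 = ∑ p ∈ Qs p₁ y (y ^ 16 ^ M), qq K p ^ 2 :=
      this.symm
    rw [e]
    refine (mul_le_mul_of_nonneg_left (sum_qq_sq hK1 hK p₁ le_rfl (le_pow_pow hy1 M))
      (by positivity)).trans (le_of_eq (by ring))
  refine ⟨h1, ?_⟩
  set c₀ := ∏ i : Fin M, ∏ p ∈ Qb p₁ y i, ((1 - K / p) / (1 - qq K p) ^ K) with hc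
  have key : ∀ G : (Fin K → Fin M → Finset ℕ) → ℝ,
      avg (pr (Qs p₁ y (y ^ 16 ^ M))) (fun n => G (cfg K M (Qb p₁ y) n))
        = c₀ * EI (Fin K) (sp M (Qb p₁ y)) (sw M (Qb p₁ y) (qq K)) (fun τ => nd τ * G τ) := by
    intro G
    have e1 : ∀ n, G (cfg K M (Qb p₁ y) n)
        = ∑ τ ∈ Fintype.piFinset fun _ : Fin K => sp M (Qb p₁ y),
          G τ * if cfg K M (Qb p₁ y) n = τ then 1 else 0 := by
      intro n
      simp only [mul_ite, mul_one, mul_zero, sum_ite_eq]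
      rw [if_pos]
      exact Fintype.mem_piFinset.2 fun j => Fintype.mem_piFinset.2 fun i =>
        mem_powerset.2 (hit_subset _ _ _)
    rw [show (fun n => G (cfg K M (Qb p₁ y) n)) = _ from funext e1, avg_sum]
    unfold EI EE Ex
    rw [mul_sum]
    refine sum_congr rfl fun τ hτ => ?_
    rw [avg_smul, avg_cfg_eq (by omega) hy1 p₁ M τ fun j i =>
      mem_powerset.1 (Fintype.mem_piFinset.1 (Fintype.mem_piFinset.1 hτ j) i)]
    ring
  have h2 := key fun _ => 1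
  rw [avg_one (pr_pos fun p hp => (mem_Qs.1 hp).2.2.2)] at h2
  simp only [mul_one] at h2
  have h3 := EI_nonneg (ι := Fin K) hb.prob (f := fun τ => 1 - nd τ)
    fun τ => by linarith [nd_le_one τ]
  unfold EI EE at h1 h2 h3
  rw [Ex_sub, (isProb_pi fun _ => hb.prob).const] at h1 h3
  have h4 : 4 * (K : ℝ) ^ 2 / y ≤ 1 / 2 := by
    have : (8 : ℝ) * K ^ 2 ≤ y := by exact_mod_cast hK2
    have : (0 : ℝ) < y := by exact_mod_cast hy1
    rw [div_le_iff₀ this]; linarith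
  generalize Ex _ _ (fun τ : Fin K → Fin M → Finset ℕ => nd τ) = z at h1 h2 h3
  have h5 : 0 < c₀ := by nlinarith
  exact ⟨c₀, by nlinarith, by nlinarith, key⟩

end Pool.Agent.Work.MP_51e72e_nt.PP
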