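import Mathlib
import Pool.Agent.Work.MP_51e72e_nt.PPCrt

/-!
Functions that are sums of periodic pieces of small squarefree period, with control on the
`ℓ¹` size of each piece.
-/

set_option autoImplicit false

namespace Pool.Agent.Work.MP_51e72e_nt.PP

open Finset Pool.Agent.Lib.ANT

/-- size weight of a set of primes -/
noncomputable def kap (d : ℕ → ℕ) (D : Finset ℕ) : ℝ := ∏ p ∈ D, ((2 : ℝ) ^ d p - 1)

lemma two_pow_sub_one_nonneg (e : ℕ) : (0 : ℝ) ≤ 2 ^ e - 1 := by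
  have : (1 : ℝ) ≤ 2 ^ e := one_le_pow₀ (by norm_num)
  linarith

lemma kap_nonneg (d : ℕ → ℕ) (D : Finset ℕ) : 0 ≤ kap d D :=
  prod_nonneg fun _ _ => two_pow_sub_one_nonneg _

lemma kap_mono {d d' : ℕ → ℕ} {D : Finset ℕ} (h : ∀ p ∈ D, d p ≤ d' p) : kap d D ≤ kap d' D :=
  prod_le_prod (fun p _ => two_pow_sub_one_nonneg _) fun p hp => by
    have : (2 : ℝ) ^ d p ≤ 2 ^ d' p := pow_le_pow_right₀ (by norm_num) (h p hp)
    linarith

lemma sum_union_prod (f g : ℕ → ℝ) (E : Finset ℕ) :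
    ∑ D ∈ E.powerset, ∑ D' ∈ E.powerset,
      (if D ∪ D' = E then (∏ p ∈ D, f p) * ∏ p ∈ D', g p else 0)
      = ∏ p ∈ E, (f p + g p + f p * g p) := by
  induction E using Finset.induction_on with
  | empty => simp
  | insert q E hq ih =>
    rw [prod_insert hq, ← ih, sum_powerset_insert hq, mul_sum, ← sum_add_distrib]
    refine sum_congr rfl fun D hD => ?_
    have hD' : q ∉ D := fun h => hq (mem_powerset.1 hD h)
    rw [sum_powerset_insert hq, sum_powerset_insert hq, mul_sum, ← sum_add_distrib,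
      ← sum_add_distrib, ← sum_add_distrib]
    refine sum_congr rfl fun D' hD2 => ?_
    have hD2' : q ∉ D' := fun h => hq (mem_powerset.1 hD2 h)
    have hU : q ∉ D ∪ D' := by simp [hD', hD2']
    have key : insert q (D ∪ D') = insert q E ↔ D ∪ D' = E :=
      ⟨fun h => by rw [← erase_insert hU, h, erase_insert hq], fun h => by rw [h]⟩
    have h0 : ¬ D ∪ D' = insert q E := fun h => hU (h ▸ mem_insert_self q E)
    have h1 : D ∪ insert q D' = insert q (D ∪ D') := by ext; simp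
    have h2 : insert q D ∪ D' = insert q (D ∪ D') := by ext; simp
    have h3 : insert q D ∪ insert q D' = insert q (D ∪ D') := by ext; simp
    rw [if_neg h0, h1, h2, h3, prod_insert hD', prod_insert hD2']
    by_cases h : D ∪ D' = E
    · rw [if_pos h, if_pos (key.2 h), if_pos (key.2 h), if_pos (key.2 h)]; ring
    · rw [if_neg h, if_neg (mt key.1 h), if_neg (mt key.1 h), if_neg (mt key.1 h)]; ring

/-- `Φ` is a sum of pieces of period `pr D ≤ Q`, `D ⊆ A`, of `ℓ¹` size at most `C * kap d D` -/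
def Lev (A : Finset ℕ) (d : ℕ → ℕ) (Q C : ℝ) (Φ : ℕ → ℝ) : Prop :=
  ∃ φ : Finset ℕ → ℕ → ℝ, (∀ n, Φ n = ∑ D ∈ A.powerset, φ D n) ∧
    ∀ D ⊆ A, Per (pr D) (φ D) ∧ ∑ a ∈ range (pr D), |φ D a| ≤ C * kap d D ∧
      (Q < pr D → ∀ n, φ D n = 0)

variable {A : Finset ℕ} {d d' : ℕ → ℕ} {Q Q' C C' : ℝ} {Φ Φ' : ℕ → ℝ}

lemma Lev.C_nonneg (h : Lev A d Q C Φ) : 0 ≤ C := by
  obtain ⟨φ, -, h2⟩ := h
  have := (h2 ∅ (empty_subset _)).2.1
  simp only [kap, prod_empty, mul_one] at this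
  exact (sum_nonneg fun _ _ => abs_nonneg _).trans this

lemma Lev.per (h : Lev A d Q C Φ) : Per (pr A) Φ := by
  obtain ⟨φ, h1, h2⟩ := h
  intro m n hmn
  rw [h1, h1]
  exact sum_congr rfl fun D hD =>
    (h2 D (mem_powerset.1 hD)).1 m n (hmn.of_dvd (pr_dvd (mem_powerset.1 hD)))

lemma Lev.congr (h : Lev A d Q C Φ) (e : ∀ n, Φ' n = Φ n) : Lev A d Q C Φ' := by
  rw [show Φ' = Φ from funext e]; exact h

lemma Lev.const (hQ : 1 ≤ Q) (c : ℝ) : Lev A d Q |c| (fun _ => c) := by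
  refine ⟨fun D _ => if D = ∅ then c else 0, fun n => by simp, fun D _ => ⟨fun _ _ _ => rfl, ?_, ?_⟩⟩
  · by_cases h : D = ∅
    · simp [h, pr, kap]
    · simp only [h, if_false, abs_zero, sum_const_zero]
      exact mul_nonneg (abs_nonneg _) (kap_nonneg _ _)
  · intro hD n
    by_cases h : D = ∅
    · simp [h, pr] at hD; linarith
    · simp [h]

lemma Lev.zero : Lev A d Q 0 (fun _ => 0) :=
  ⟨fun _ _ => 0, fun n => by simp, fun D _ => ⟨fun _ _ _ => rfl, by simp, fun _ _ => rfl⟩⟩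

lemma Lev.mono (h : Lev A d Q C Φ) (hd : ∀ p ∈ A, d p ≤ d' p) (hQ : Q ≤ Q') (hC : C ≤ C') :
    Lev A d' Q' C' Φ := by
  have hC0 := h.C_nonneg
  obtain ⟨φ, h1, h2⟩ := h
  refine ⟨φ, h1, fun D hD => ⟨(h2 D hD).1, (h2 D hD).2.1.trans ?_, fun hq => (h2 D hD).2.2 (by linarith)⟩⟩
  exact mul_le_mul hC (kap_mono fun p hp => hd p (hD hp)) (kap_nonneg _ _) (hC0.trans hC)

lemma Lev.add (h : Lev A d Q C Φ) (h' : Lev A d Q C' Φ') :
    Lev A d Q (C + C') (fun n => Φ n + Φ' n) := by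
  obtain ⟨φ, h1, h2⟩ := h
  obtain ⟨φ', h1', h2'⟩ := h'
  refine ⟨fun D n => φ D n + φ' D n, fun n => by simp only [h1, h1', sum_add_distrib],
    fun D hD => ⟨fun m n hmn => ?_, ?_, fun hq n => ?_⟩⟩
  · simp only [(h2 D hD).1 m n hmn, (h2' D hD).1 m n hmn]
  · refine (sum_le_sum fun a _ => abs_add_le _ _).trans ?_
    rw [sum_add_distrib, add_mul]
    exact add_le_add (h2 D hD).2.1 (h2' D hD).2.1
  · simp only [(h2 D hD).2.2 hq n, (h2' D hD).2.2 hq n, add_zero]

lemma Lev.smul (h : Lev A d Q C Φ) (c : ℝ) : Lev A d Q (|c| * C) (fun n => c * Φ n) := by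
  obtain ⟨φ, h1, h2⟩ := h
  refine ⟨fun D n => c * φ D n, fun n => by simp only [h1, mul_sum],
    fun D hD => ⟨fun m n hmn => ?_, ?_, fun hq n => ?_⟩⟩
  · simp only [(h2 D hD).1 m n hmn]
  · simp only [abs_mul]
    rw [← mul_sum, mul_assoc]
    exact mul_le_mul_of_nonneg_left (h2 D hD).2.1 (abs_nonneg _)
  · simp only [(h2 D hD).2.2 hq n, mul_zero]

lemma Lev.abs (h : Lev A d Q C Φ) : ∃ Ψ, Lev A d Q C Ψ ∧ ∀ n, |Φ n| ≤ Ψ n := by
  obtain ⟨φ, h1, h2⟩ := h
  refine ⟨fun n => ∑ D ∈ A.powerset, |φ D n|, ⟨fun D n => |φ D n|, fun n => rfl,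
    fun D hD => ⟨fun m n hmn => ?_, ?_, fun hq n => ?_⟩⟩, fun n => ?_⟩
  · simp only [(h2 D hD).1 m n hmn]
  · simpa only [abs_abs] using (h2 D hD).2.1
  · simp only [(h2 D hD).2.2 hq n, abs_zero]
  · rw [h1]; exact abs_sum_le_sum_abs _ _

lemma sum_abs_mul_le {D D' : Finset ℕ} (hD : ∀ p ∈ D ∪ D', p.Prime) {f g : ℕ → ℝ}
    (hf : Per (pr D) f) (hg : Per (pr D') g) :
    ∑ a ∈ range (pr (D ∪ D')), |f a * g a|
      ≤ (∑ a ∈ range (pr D), |f a|) * ∑ a ∈ range (pr D'), |g a| := by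
  have p1 : ∀ p ∈ D, p.Prime := fun p hp => hD p (mem_union_left _ hp)
  have p2 : ∀ p ∈ D', p.Prime := fun p hp => hD p (mem_union_right _ hp)
  rw [sum_mul_sum, ← sum_product']
  have hinj : Set.InjOn (fun a => (a % pr D, a % pr D')) (range (pr (D ∪ D')) : Finset ℕ) := by
    intro a ha b hb hab
    simp only [Prod.mk.injEq] at hab
    have e : pr (D ∪ D') = pr D * pr (D' \ D) := by
      rw [← pr_union disjoint_sdiff, union_sdiff_self_eq_union]
    have h1 : a ≡ b [MOD pr D] := hab.1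
    have h2 : a ≡ b [MOD pr (D' \ D)] := Nat.ModEq.of_dvd (pr_dvd sdiff_subset) hab.2
    have h3 := (Nat.modEq_and_modEq_iff_modEq_mul
      (pr_coprime p1 (fun p hp => p2 p (mem_sdiff.1 hp).1) disjoint_sdiff)).1 ⟨h1, h2⟩
    rw [← e] at h3
    exact h3.eq_of_lt_of_lt (mem_range.1 ha) (mem_range.1 hb)
  calc ∑ a ∈ range (pr (D ∪ D')), |f a * g a|
      = ∑ a ∈ range (pr (D ∪ D')), (fun x : ℕ × ℕ => |f x.1| * |g x.2|) (a % pr D, a % pr D') := by
        refine sum_congr rfl fun a _ => ?_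
        simp only [hf.mod, hg.mod, abs_mul]
    _ = ∑ x ∈ (range (pr (D ∪ D'))).image (fun a => (a % pr D, a % pr D')), |f x.1| * |g x.2| :=
        (sum_image (f := fun x : ℕ × ℕ => |f x.1| * |g x.2|) hinj).symm
    _ ≤ _ := by
        refine sum_le_sum_of_subset_of_nonneg (fun x hx => ?_) fun _ _ _ => by positivity
        obtain ⟨a, -, rfl⟩ := mem_image.1 hx
        simp only [mem_product, mem_range]
        exact ⟨Nat.mod_lt _ (pr_pos p1), Nat.mod_lt _ (pr_pos p2)⟩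

lemma pr_union_le {D D' : Finset ℕ} (hD : ∀ p ∈ D', p.Prime) : pr (D ∪ D') ≤ pr D * pr D' := by
  rw [← union_sdiff_self_eq_union, pr_union disjoint_sdiff]
  exact Nat.mul_le_mul_left _ (Nat.le_of_dvd (pr_pos hD) (pr_dvd sdiff_subset))

lemma Lev.mul (hA : ∀ p ∈ A, p.Prime) (h : Lev A d Q C Φ) (h' : Lev A d' Q' C' Φ') :
    Lev A (fun p => d p + d' p) (Q * Q') (C * C') (fun n => Φ n * Φ' n) := by
  have hC := h.C_nonneg
  have hC' := h'.C_nonneg
  obtain ⟨φ, h1, h2⟩ := h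
  obtain ⟨φ', h1', h2'⟩ := h'
  refine ⟨fun E n => ∑ D ∈ E.powerset, ∑ D' ∈ E.powerset,
    if D ∪ D' = E then φ D n * φ' D' n else 0, fun n => ?_, fun E hE => ⟨?_, ?_, ?_⟩⟩
  · beta_reduce
    rw [h1, h1', sum_mul_sum]
    have : ∀ E ∈ A.powerset, (∑ D ∈ E.powerset, ∑ D' ∈ E.powerset,
        if D ∪ D' = E then φ D n * φ' D' n else 0) = ∑ D ∈ A.powerset, ∑ D' ∈ A.powerset,
        if D ∪ D' = E then φ D n * φ' D' n else 0 := by
      intro E hE
      have hs : E.powerset ⊆ A.powerset := powerset_mono.2 (mem_powerset.1 hE)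
      rw [← sum_subset hs]
      · refine sum_congr rfl fun D _ => sum_subset hs fun D' _ hD' => if_neg fun e => hD' ?_
        exact mem_powerset.2 (e ▸ subset_union_right)
      · intro D _ hD
        refine sum_eq_zero fun D' _ => if_neg fun e => hD ?_
        exact mem_powerset.2 (e ▸ subset_union_left)
    rw [sum_congr rfl this]
    symm
    rw [sum_comm]
    refine sum_congr rfl fun D hD => ?_
    rw [sum_comm]
    refine sum_congr rfl fun D' hD' => ?_
    rw [sum_ite_eq, if_pos (mem_powerset.2 (union_subset (mem_powerset.1 hD) (mem_powerset.1 hD')))]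
  · intro m n hmn
    refine sum_congr rfl fun D hD => sum_congr rfl fun D' hD' => ?_
    have a1 := mem_powerset.1 hD
    have a2 := mem_powerset.1 hD'
    rw [(h2 D (a1.trans hE)).1 m n (hmn.of_dvd (pr_dvd a1)),
      (h2' D' (a2.trans hE)).1 m n (hmn.of_dvd (pr_dvd a2))]
  · calc _ ≤ ∑ a ∈ range (pr E), ∑ D ∈ E.powerset, ∑ D' ∈ E.powerset,
          if D ∪ D' = E then |φ D a * φ' D' a| else 0 := by
          refine sum_le_sum fun a _ => (abs_sum_le_sum_abs _ _).trans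
            (sum_le_sum fun D _ => (abs_sum_le_sum_abs _ _).trans (sum_le_sum fun D' _ => ?_))
          split_ifs <;> simp
      _ = ∑ D ∈ E.powerset, ∑ D' ∈ E.powerset,
          if D ∪ D' = E then ∑ a ∈ range (pr E), |φ D a * φ' D' a| else 0 := by
          rw [sum_comm]
          refine sum_congr rfl fun D _ => ?_
          rw [sum_comm]
          refine sum_congr rfl fun D' _ => ?_
          split_ifs <;> simp
      _ ≤ ∑ D ∈ E.powerset, ∑ D' ∈ E.powerset, (C * C') *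
          if D ∪ D' = E then (∏ p ∈ D, ((2 : ℝ) ^ d p - 1)) * ∏ p ∈ D', ((2 : ℝ) ^ d' p - 1)
            else 0 := by
          refine sum_le_sum fun D hD => sum_le_sum fun D' hD' => ?_
          have a1 := (mem_powerset.1 hD).trans hE
          have a2 := (mem_powerset.1 hD').trans hE
          split_ifs with e
          · rw [← e]
            refine (sum_abs_mul_le (fun p hp => hA p (union_subset a1 a2 hp)) (h2 D a1).1
              (h2' D' a2).1).trans ?_
            refine (mul_le_mul (h2 D a1).2.1 (h2' D' a2).2.1 (sum_nonneg fun _ _ => abs_nonneg _)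
              (mul_nonneg hC (kap_nonneg _ _))).trans (le_of_eq ?_)
            unfold kap; ring
          · simp
      _ = _ := by
          simp_rw [← mul_sum]
          rw [sum_union_prod]
          unfold kap
          congr 1
          refine prod_congr rfl fun p _ => ?_
          rw [pow_add]; ring
  · intro hq n
    refine sum_eq_zero fun D hD => sum_eq_zero fun D' hD' => ?_
    have a1 := (mem_powerset.1 hD).trans hE
    have a2 := (mem_powerset.1 hD').trans hE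
    split_ifs with e
    · by_cases c1 : Q < pr D
      · rw [(h2 D a1).2.2 c1, zero_mul]
      by_cases c2 : Q' < pr D'
      · rw [(h2' D' a2).2.2 c2, mul_zero]
      exfalso
      push Not at c1 c2
      have : ((pr (D ∪ D') : ℕ) : ℝ) ≤ pr D * pr D' := by
        exact_mod_cast pr_union_le fun p hp => hA p (a2 hp)
      have h3 : ((pr D : ℕ) : ℝ) * pr D' ≤ Q * Q' :=
        mul_le_mul c1 c2 (Nat.cast_nonneg _) ((Nat.cast_nonneg _).trans c1)
      rw [e] at this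
      linarith
    · rfl

lemma Lev.prod {ι : Type*} (hA : ∀ p ∈ A, p.Prime) (s : Finset ι) (d : ι → ℕ → ℕ) (Q C : ι → ℝ)
    (Φ : ι → ℕ → ℝ) (h : ∀ i ∈ s, Lev A (d i) (Q i) (C i) (Φ i)) :
    Lev A (fun p => ∑ i ∈ s, d i p) (∏ i ∈ s, Q i) (∏ i ∈ s, C i) (fun n => ∏ i ∈ s, Φ i n) := by
  classical
  induction s using Finset.induction_on with
  | empty => simpa using Lev.const (A := A) (d := fun _ => 0) le_rfl 1
  | insert a s ha ih =>
    simp_rw [prod_insert ha, sum_insert ha]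
    exact (h a (mem_insert_self _ _)).mul hA (ih fun i hi => h i (mem_insert_of_mem hi))

/-- primes of `B` dividing one of the shifts `n + j`, `j ∈ S` -/
def hit (B S : Finset ℕ) (n : ℕ) : Finset ℕ := B.filter fun p => ∃ j ∈ S, p ∣ n + j

lemma hit_subset (B S : Finset ℕ) (n : ℕ) : hit B S n ⊆ B := filter_subset _ _

lemma card_dvd_shift_le (p : ℕ) (S : Finset ℕ) :
    ((range p).filter fun a => ∃ j ∈ S, p ∣ a + j).card ≤ S.card := by
  have : ((range p).filter fun a => ∃ j ∈ S, p ∣ a + j)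
      ⊆ S.image fun j => (p - j % p) % p := by
    intro a ha
    obtain ⟨h1, j, hj, h2⟩ := mem_filter.1 ha
    have hp : 0 < p := lt_of_le_of_lt (Nat.zero_le _) (mem_range.1 h1)
    refine mem_image.2 ⟨j, hj, ?_⟩
    have h3 : j % p < p := Nat.mod_lt _ hp
    have h4 : (p - j % p) + j ≡ a + j [MOD p] := by
      refine Nat.ModEq.trans ?_ ((Nat.modEq_zero_iff_dvd.2 h2).symm)
      refine Nat.modEq_zero_iff_dvd.2 ⟨1 + j / p, ?_⟩
      have := Nat.mod_add_div j p
      rw [mul_add, mul_one]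
      omega
    have h5 : p - j % p ≡ a [MOD p] := Nat.ModEq.add_right_cancel' j h4
    rw [h5, Nat.mod_eq_of_lt (mem_range.1 h1)]
  exact (card_le_card this).trans card_image_le

lemma dvd_add_congr {p q m n : ℕ} (hp : p ∣ q) (h : m ≡ n [MOD q]) (j : ℕ) :
    p ∣ m + j ↔ p ∣ n + j := by
  have := (h.of_dvd hp).add_right j
  rw [← Nat.modEq_zero_iff_dvd, ← Nat.modEq_zero_iff_dvd]
  exact ⟨fun e => this.symm.trans e, fun e => this.trans e⟩

lemma Lev.hits (hA : ∀ p ∈ A, p.Prime) {B : Finset ℕ} (hB : B ⊆ A) (S : Finset ℕ)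
    (c : Finset ℕ → ℝ) (hC : 0 ≤ C)
    (hc : ∀ D ⊆ B, |c D| * (S.card : ℝ) ^ D.card ≤ C * kap d D)
    (hQ : ∀ D ⊆ B, Q < pr D → c D = 0) :
    Lev A d Q C (fun n => ∑ D ∈ (hit B S n).powerset, c D) := by
  classical
  refine ⟨fun D n => if D ⊆ B ∧ ∀ p ∈ D, ∃ j ∈ S, p ∣ n + j then c D else 0, fun n => ?_,
    fun D hD => ⟨fun m n hmn => ?_, ?_, fun hq n => ?_⟩⟩
  · rw [← sum_filter]
    refine sum_congr ?_ fun _ _ => rfl
    ext D
    simp only [mem_powerset, mem_filter, hit]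
    constructor
    · intro h
      exact ⟨fun p hp => hB (mem_filter.1 (h hp)).1, fun p hp => (mem_filter.1 (h hp)).1,
        fun p hp => (mem_filter.1 (h hp)).2⟩
    · rintro ⟨-, h1, h2⟩ p hp
      exact mem_filter.2 ⟨h1 hp, h2 p hp⟩
  · have : (∀ p ∈ D, ∃ j ∈ S, p ∣ m + j) ↔ ∀ p ∈ D, ∃ j ∈ S, p ∣ n + j := by
      refine forall₂_congr fun p hp => exists_congr fun j => and_congr_right fun _ => ?_
      exact dvd_add_congr (dvd_prod_of_mem _ hp) hmn j
    simp only [this]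
  · by_cases hDB : D ⊆ B
    · refine le_trans ?_ (hc D hDB)
      have e : ∀ a, |if D ⊆ B ∧ ∀ p ∈ D, ∃ j ∈ S, p ∣ a + j then c D else 0|
          = |c D| * ∏ p ∈ D, (if ∃ j ∈ S, p ∣ a + j then (1 : ℝ) else 0) := by
        intro a
        rw [prod_ite_zero]
        by_cases h : ∀ p ∈ D, ∃ j ∈ S, p ∣ a + j
        · rw [if_pos ⟨hDB, h⟩, if_pos h]; simp
        · rw [if_neg (fun x => h x.2), if_neg h]; simp
      simp_rw [e]
      rw [← mul_sum]
      refine mul_le_mul_of_nonneg_left ?_ (abs_nonneg _)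
      have hp : ∀ p ∈ D, p.Prime := fun p hp => hA p (hD hp)
      unfold pr
      rw [crt_prod D (fun p => p) (fun p h => (hp p h).pos)
        (fun p h q h' e => (Nat.coprime_primes (hp p h) (hp q h')).2 e)
        (fun p a => if ∃ j ∈ S, p ∣ a + j then (1 : ℝ) else 0)]
      · rw [← prod_const]
        refine prod_le_prod (fun p _ => sum_nonneg fun a _ => by split_ifs <;> norm_num)
          fun p _ => ?_
        rw [sum_boole]
        exact_mod_cast card_dvd_shift_le p S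
      · intro p _ m n hmn
        simp only [dvd_add_congr dvd_rfl hmn]
    · simp only [hDB, false_and, if_false, abs_zero, sum_const_zero]
      exact mul_nonneg hC (kap_nonneg _ _)
  · by_cases hDB : D ⊆ B
    · simp [hQ D hDB hq]
    · simp [hDB]

/-- the Euler product `∏ (1 - 1/p)⁻¹` -/
noncomputable def Eul (A : Finset ℕ) : ℝ := ∏ p ∈ A, (1 - (p : ℝ)⁻¹)⁻¹

lemma one_le_eul_factor {p : ℕ} (hp : p.Prime) : (1 : ℝ) ≤ (1 - (p : ℝ)⁻¹)⁻¹ := by
  have h1 : (2 : ℝ) ≤ p := by exact_mod_cast hp.two_le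
  have h2 : (p : ℝ)⁻¹ ≤ 2⁻¹ := inv_anti₀ (by norm_num) h1
  have h3 : (0 : ℝ) ≤ (p : ℝ)⁻¹ := by positivity
  exact (one_le_inv₀ (by linarith)).2 (by linarith)

lemma one_le_Eul (hA : ∀ p ∈ A, p.Prime) : 1 ≤ Eul A :=
  Finset.one_le_prod fun p hp => one_le_eul_factor (hA p hp)

lemma Eul_mono {B : Finset ℕ} (hA : ∀ p ∈ A, p.Prime) (h : B ⊆ A) : Eul B ≤ Eul A :=
  prod_le_prod_of_subset_of_one_le h
    (fun p hp => zero_le_one.trans (one_le_eul_factor (hA p (h hp))))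
    fun p hp _ => one_le_eul_factor (hA p hp)

lemma one_add_div_pred_le {p : ℕ} (hp : p.Prime) (e : ℕ) :
    1 + ((2 : ℝ) ^ e - 1) / (p - 1) ≤ ((1 - (p : ℝ)⁻¹)⁻¹) ^ (2 ^ e) := by
  have h1 : (2 : ℝ) ≤ p := by exact_mod_cast hp.two_le
  have e1 : (1 - (p : ℝ)⁻¹)⁻¹ = 1 + ((p : ℝ) - 1)⁻¹ := by
    have : (p : ℝ) - 1 ≠ 0 := by linarith
    field_simp
    ring
  have h2 : (0 : ℝ) ≤ ((p : ℝ) - 1)⁻¹ := inv_nonneg.2 (by linarith)
  rw [e1]
  refine le_trans ?_ (one_add_mul_le_pow (by linarith) _)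
  push_cast
  rw [div_eq_mul_inv]
  nlinarith

lemma prod_one_add_le_Eul (hA : ∀ p ∈ A, p.Prime) (e : ℕ) :
    ∏ p ∈ A, (1 + ((2 : ℝ) ^ e - 1) / (p - 1)) ≤ Eul A ^ (2 ^ e) := by
  unfold Eul
  rw [← prod_pow]
  refine prod_le_prod (fun p hp => ?_) fun p hp => one_add_div_pred_le (hA p hp) e
  have h1 : (2 : ℝ) ≤ p := by exact_mod_cast (hA p hp).two_le
  have := div_nonneg (two_pow_sub_one_nonneg e) (show (0 : ℝ) ≤ p - 1 by linarith)
  linarith

lemma sum_kap_div_le (hA : ∀ p ∈ A, p.Prime) (e : ℕ) :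
    ∑ D ∈ A.powerset, kap (fun _ => e) D / pr D ≤ Eul A ^ (2 ^ e) := by
  refine le_trans ?_ (prod_one_add_le_Eul hA e)
  rw [prod_one_add]
  refine sum_le_sum fun D hD => ?_
  unfold kap pr
  push_cast
  rw [← prod_div_distrib]
  refine prod_le_prod (fun p _ => div_nonneg (two_pow_sub_one_nonneg e) (Nat.cast_nonneg _))
    fun p hp => ?_
  have h1 : (2 : ℝ) ≤ p := by exact_mod_cast (hA p (mem_powerset.1 hD hp)).two_le
  exact div_le_div_of_nonneg_left (two_pow_sub_one_nonneg e) (by linarith) (by linarith)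

lemma Lev.abs_avg_le {e : ℕ} (hA : ∀ p ∈ A, p.Prime) (h : Lev A (fun _ => e) Q C Φ) :
    |avg (pr A) Φ| ≤ C * Eul A ^ (2 ^ e) := by
  have hC := h.C_nonneg
  obtain ⟨φ, h1, h2⟩ := h
  rw [show Φ = fun n => ∑ D ∈ A.powerset, φ D n from funext h1, avg_sum]
  refine (abs_sum_le_sum_abs _ _).trans (le_trans ?_
    (mul_le_mul_of_nonneg_left (sum_kap_div_le hA e) hC))
  rw [mul_sum]
  refine sum_le_sum fun D hD => ?_
  have hD' := mem_powerset.1 hD
  rw [avg_of_subset hA hD' _ (h2 D hD').1]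
  refine (PP.abs_avg_le _ _).trans ?_
  rw [← mul_div_assoc]
  exact div_le_div_of_nonneg_right (h2 D hD').2.1 (Nat.cast_nonneg _)

lemma Lev.int_transfer {e : ℕ} (hA : ∀ p ∈ A, p.Prime) (hQ : 0 ≤ Q)
    (h : Lev A (fun _ => e) Q C Φ) (a L : ℕ) :
    |∑ n ∈ Ioc a (a + L), Φ n - L * avg (pr A) Φ| ≤ C * Q * Eul A ^ (2 ^ e) := by
  have hC := h.C_nonneg
  obtain ⟨φ, h1, h2⟩ := h
  rw [show Φ = fun n => ∑ D ∈ A.powerset, φ D n from funext h1, avg_sum, sum_comm, mul_sum,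
    ← sum_sub_distrib]
  refine (abs_sum_le_sum_abs _ _).trans (le_trans ?_
    (mul_le_mul_of_nonneg_left (sum_kap_div_le hA e) (mul_nonneg hC hQ)))
  rw [mul_sum]
  refine sum_le_sum fun D hD => ?_
  have hD' := mem_powerset.1 hD
  have hp : 0 < pr D := pr_pos fun p hp => hA p (hD' hp)
  have hp' : (0 : ℝ) < pr D := by exact_mod_cast hp
  rw [avg_of_subset hA hD' _ (h2 D hD').1]
  by_cases hq : Q < pr D
  · have : φ D = fun _ => 0 := funext ((h2 D hD').2.2 hq)
    rw [this, avg_const hp]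
    simp only [sum_const_zero, mul_zero, sub_zero, abs_zero]
    exact mul_nonneg (mul_nonneg hC hQ) (div_nonneg (kap_nonneg _ _) hp'.le)
  · have := periodic_sum_bound (𝕜 := ℝ) (pr D) hp (φ D) (h2 D hD').1 a L
    simp only [Real.norm_eq_abs] at this
    refine this.trans ((h2 D hD').2.1.trans ?_)
    push Not at hq
    have h3 : 1 ≤ Q / pr D := (one_le_div hp').2 hq
    calc C * kap (fun _ => e) D = C * kap (fun _ => e) D * 1 := (mul_one _).symm
      _ ≤ C * kap (fun _ => e) D * (Q / pr D) :=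
        mul_le_mul_of_nonneg_left h3 (mul_nonneg hC (kap_nonneg _ _))
      _ = _ := by ring

end Pool.Agent.Work.MP_51e72e_nt.PP
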