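import Pool.Agent.Work.MP_51e72e_nt.PPSlide
import Pool.Agent.Lib.ANT.PNT

/-!
Choice of the parameters and the final estimate.
-/

set_option autoImplicit false

namespace Pool.Agent.Work.MP_51e72e_nt.PP

open Finset Filter Pool.Agent.Lib.ANT

lemma exists_ak {C D : ℝ} (hC : 1 ≤ C) (hD : 1 ≤ D) : ∃ a k : ℕ, 1 ≤ a ∧ 1 ≤ k ∧
    C * k * a ≤ 16 ^ a ∧ D * 16 ^ a ≤ a ^ 2 * k := by
  set a := ⌈2 * C * D⌉₊ with ha
  have a1 : 2 * C * D ≤ a := Nat.le_ceil _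
  have a2 : C ≤ a := by nlinarith
  have a3 : (1 : ℝ) ≤ a := by linarith
  have a4 : (a : ℝ) * a ≤ 16 ^ a := by
    have : a ≤ 4 ^ a := (Nat.lt_pow_self (by norm_num)).le
    have : (a : ℝ) ≤ 4 ^ a := by exact_mod_cast this
    calc (a : ℝ) * a ≤ 4 ^ a * 4 ^ a := by gcongr
      _ = 16 ^ a := by rw [← mul_pow]; norm_num
  have a5 : 1 ≤ 16 ^ a / (C * a) := by
    rw [one_le_div (by positivity)]; nlinarith
  set k := ⌊16 ^ a / (C * a)⌋₊ with hk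
  have k1 : (k : ℝ) ≤ 16 ^ a / (C * a) := Nat.floor_le (by positivity)
  have k2 : 16 ^ a / (C * a) < k + 1 := Nat.lt_floor_add_one _
  have k3 : 1 ≤ k := Nat.le_floor (by exact_mod_cast a5)
  have k4 : (1 : ℝ) ≤ k := by exact_mod_cast k3
  rw [le_div_iff₀ (by positivity)] at k1
  rw [div_lt_iff₀ (by positivity)] at k2
  refine ⟨a, k, by exact_mod_cast a3, k3, by linarith, ?_⟩
  calc D * 16 ^ a ≤ D * (2 * k * (C * a)) := by gcongr; nlinarith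
    _ = (2 * C * D) * (a * k) := by ring
    _ ≤ a * (a * k) := by gcongr
    _ = _ := by ring

lemma sum_th_eq (a : ℕ) : ∑ m ∈ Ioc 0 a, th m = Chebyshev.theta a := by
  rw [Chebyshev.theta, Nat.floor_natCast, sum_filter]
  rfl

lemma ev_theta : ∀ᶠ N : ℕ in atTop, ∀ j ≤ N, (N : ℝ) / 2 ≤ ∑ n ∈ Ioc N (N + N), th (n + j) := by
  obtain ⟨x₀, hx⟩ := eventually_atTop.1
    (tendsto_theta_div.eventually (Ioo_mem_nhds (show (0.95 : ℝ) < 1 by norm_num)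
      (show (1 : ℝ) < 1.05 by norm_num)))
  filter_upwards [tendsto_natCast_atTop_atTop.eventually_ge_atTop x₀, eventually_ge_atTop 1]
    with N hN hN1 j hj
  have e1 : ∑ n ∈ Ioc N (N + N), th (n + j) = ∑ m ∈ Ioc (N + j) (N + N + j), th m := by
    rw [← map_add_right_Ioc, sum_map]
    rfl
  have e2 := sum_Ioc_consecutive th (Nat.zero_le (N + j)) (show N + j ≤ N + N + j by omega)
  rw [sum_th_eq, sum_th_eq] at e2
  have j0 : (0 : ℝ) ≤ j := Nat.cast_nonneg _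
  have j1 : (j : ℝ) ≤ N := by exact_mod_cast hj
  have N1 : (1 : ℝ) ≤ N := by exact_mod_cast hN1
  have h1 := (hx ((N + j : ℕ) : ℝ) (by push_cast; linarith)).2
  have h2 := (hx ((N + N + j : ℕ) : ℝ) (by push_cast; linarith)).1
  rw [div_lt_iff₀ (by push_cast; linarith)] at h1
  rw [lt_div_iff₀ (by push_cast; linarith)] at h2
  rw [e1]
  push_cast at h1 h2 e2
  linarith

lemma exists_M {l ly : ℝ} {m : ℕ} (hly : 0 < ly) (h : 51200 * 16 ^ m * ly ≤ l) :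
    ∃ M : ℕ, m ≤ M ∧ 51200 * 16 ^ M * ly ≤ l ∧ l ≤ 819200 * 16 ^ M * ly := by
  set z := l / (51200 * ly) with hz
  have z1 : (16 : ℝ) ^ m ≤ z := by rw [hz, le_div_iff₀ (by positivity)]; linarith
  have z2 : 16 ^ m ≤ ⌊z⌋₊ := Nat.le_floor (by exact_mod_cast z1)
  have z3 : ⌊z⌋₊ ≠ 0 := by
    have : 0 < 16 ^ m := by positivity
    omega
  have z0 : 0 ≤ z := le_trans (by positivity) z1
  refine ⟨Nat.log 16 ⌊z⌋₊, Nat.le_log_of_pow_le (by norm_num) z2, ?_, ?_⟩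
  · have a1 : ((16 ^ Nat.log 16 ⌊z⌋₊ : ℕ) : ℝ) ≤ ⌊z⌋₊ := by exact_mod_cast Nat.pow_log_le_self 16 z3
    have a2 := a1.trans (Nat.floor_le z0)
    rw [hz, le_div_iff₀ (by positivity)] at a2
    push_cast at a2
    linarith
  · have a1 : ⌊z⌋₊ + 1 ≤ 16 ^ (Nat.log 16 ⌊z⌋₊ + 1) := Nat.lt_pow_succ_log_self (by norm_num) _
    have a2 : (⌊z⌋₊ : ℝ) + 1 ≤ 16 ^ (Nat.log 16 ⌊z⌋₊ + 1) := by exact_mod_cast a1
    have a3 := (Nat.lt_floor_add_one z).le.trans a2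
    rw [pow_succ] at a3
    generalize (16 : ℝ) ^ Nat.log 16 ⌊z⌋₊ = w at a3 ⊢
    rw [hz, div_le_iff₀ (by positivity)] at a3
    linarith

lemma CF_le {π : Par} {H : ℝ} (hK : (π.K : ℝ) ≤ H ^ 2) (h1 : 3 * π.mA ≤ H) (h2 : Real.exp 3 ≤ H) :
    π.CF ≤ H ^ (3 * π.k + 2 * (2 * 16 ^ π.mB) + 1) := by
  have h0 : 0 ≤ H := (Real.exp_pos _).le.trans h2
  have h3 : (π.mA : ℝ) * (3 * π.K) ≤ H ^ 3 := by
    calc (π.mA : ℝ) * (3 * π.K) = (3 * π.mA) * π.K := by ring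
      _ ≤ H * H ^ 2 := by gcongr
      _ = _ := by ring
  unfold Par.CF
  rw [pow_succ, pow_add, pow_mul H 3, pow_mul H 2, mul_assoc]
  gcongr

lemma sqrt_aux {H δ D : ℝ} (hH : 0 < H) (hδ : 0 < δ) (h : 9 / δ ^ 2 * Real.log H ^ 2 ≤ H)
    (hD : δ * H / 2 ≤ D) : Real.sqrt H * (6 * Real.log H) ≤ 4 * D := by
  have a1 : (3 * Real.log H / δ) ^ 2 ≤ H := le_trans (le_of_eq (by ring)) h
  have a2 := Real.le_sqrt_of_sq_le a1
  rw [div_le_iff₀ hδ] at a2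
  have a3 := Real.mul_self_sqrt hH.le
  have a4 := mul_le_mul_of_nonneg_left a2 (Real.sqrt_nonneg H)
  rw [← mul_assoc _ _ δ, a3] at a4
  linarith

lemma K_aux {Λ k Δ h : ℕ} {δ : ℝ} (hk : (1 : ℝ) ≤ k) (hΛ : (1 : ℝ) ≤ Λ) (hδ : 4 * k * δ ≤ Λ)
    (hΔ : (Δ : ℝ) ≤ δ * h) (hh : (2 : ℝ) ≤ h) :
    ((Λ * (h + 2) + Δ + 2 * k * Δ : ℕ) : ℝ) ≤ 4 * Λ * h := by
  have a1 : 4 * k * (Δ : ℝ) ≤ Λ * h := by
    calc 4 * k * (Δ : ℝ) ≤ 4 * k * (δ * h) := by gcongr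
      _ = (4 * k * δ) * h := by ring
      _ ≤ Λ * h := by gcongr
  have a2 : (Δ : ℝ) ≤ k * Δ := le_mul_of_one_le_left (Nat.cast_nonneg _) hk
  have a3 : (Λ : ℝ) * 2 ≤ Λ * h := by gcongr
  push_cast; linarith

lemma err_aux {N H K k m cm Λ M₄ l₀ e : ℝ} (hN : 0 ≤ N) (hH : 10 ≤ H) (hK0 : 0 ≤ K) (hk : 0 ≤ k)
    (hm : 0 ≤ m) (hcm : 0 < cm) (hΛ : 0 ≤ Λ) (hM : 0 ≤ M₄) (K1 : K ≤ 4 * Λ * H) (K2 : K ≤ H ^ 2)
    (l2 : l₀ ≤ Real.exp 73) (e0 : 0 ≤ e) (e1 : e ≤ 9 * N / H ^ 6)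
    (h3 : 128 * Real.exp 73 * k * Λ ^ 2 * M₄ / cm ≤ H) (h4 : 36 / cm ≤ H)
    (h5 : k + m + (k + 1) * (1 + k) ≤ H) :
    N * (l₀ * (k * K) * (8 * Λ * M₄ / H ^ 2)) + (k * K + m + (k + 1) * (K + k * (K * K))) * e
      ≤ N * cm / 2 := by
  have hH0 : 0 < H := by linarith
  have a1 : l₀ * (k * K) * (8 * Λ * M₄ / H ^ 2) ≤ cm / 4 := by
    rw [div_le_iff₀ hcm] at h3
    calc _ ≤ Real.exp 73 * (k * (4 * Λ * H)) * (8 * Λ * M₄ / H ^ 2) := by gcongr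
      _ = 128 * Real.exp 73 * k * Λ ^ 2 * M₄ / (4 * H) := by field_simp; ring
      _ ≤ H * cm / (4 * H) := by gcongr
      _ = _ := by field_simp
  have a2 : k * K + m + (k + 1) * (K + k * (K * K)) ≤ H ^ 5 := by
    have c1 : K * K ≤ H ^ 4 := by
      calc K * K ≤ H ^ 2 * H ^ 2 := by gcongr
        _ = _ := by ring
    have c2 : K ≤ H ^ 4 := K2.trans (pow_le_pow_right₀ (by linarith) (by norm_num))
    have c3 : m ≤ m * H ^ 4 := le_mul_of_one_le_right hm (one_le_pow₀ (by linarith))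
    calc _ ≤ k * H ^ 4 + m * H ^ 4 + (k + 1) * (H ^ 4 + k * H ^ 4) := by gcongr
      _ = (k + m + (k + 1) * (1 + k)) * H ^ 4 := by ring
      _ ≤ H * H ^ 4 := by gcongr
      _ = _ := by ring
  have a3 : H ^ 5 * (9 * N / H ^ 6) ≤ N * (cm / 4) := by
    rw [div_le_iff₀ hcm] at h4
    calc _ = N * (36 / (4 * H)) := by field_simp; ring
      _ ≤ N * (H * cm / (4 * H)) := by gcongr
      _ = _ := by field_simp
  have a4 := mul_le_mul a2 e1 e0 (by positivity)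
  have a5 := mul_le_mul_of_nonneg_left a1 hN
  linarith

lemma Par.Ok.surv_bounds {π : Par} (ok : π.Ok) (hp₁ : π.p₁.Prime) {h : ℕ} (hy : π.y = h ^ 6)
    (h2 : 2 ≤ h) {δ Λ : ℝ} (v1 : (1 : ℝ) / 16 ^ π.M ≤ 1638400 * (Real.log π.y / h))
    (sq1 : Real.sqrt h * Real.log π.y ≤ 4 * π.Δ) (hΔK : π.Δ ≤ π.K) (Δ1 : (π.Δ : ℝ) ≤ δ * h)
    (K1 : (π.K : ℝ) ≤ 4 * Λ * h) :
    (∀ n i, ((π.B i ∩ π.R n).card : ℝ) * (1 / 16 ^ π.M) ≤ 100 * δ * 1638400) ∧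
      ∀ n, ((π.R n).card : ℝ) * (1 / 16 ^ π.M) ≤ 400 * Λ * 1638400 := by
  have hH0 : (0 : ℝ) < h := by exact_mod_cast (by omega : 0 < h)
  have hl : 0 < Real.log π.y := by linarith [ok.hy]
  unfold Par.B Par.R Par.P
  rw [hy] at *
  constructor
  · intro n i
    have := card_blk_surv (K := π.K) (a := π.K₀ + 2 * i * π.Δ) (h := π.Δ) hp₁ h2
      (by have := i.2; have := ok.hKK; nlinarith) sq1 n
    refine (mul_le_mul this v1 (by positivity) (by positivity)).trans ?_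
    calc _ = 100 * 1638400 * ((π.Δ : ℝ) / h) := by field_simp
      _ ≤ 100 * 1638400 * δ := by gcongr; rwa [div_le_iff₀ hH0]
      _ = _ := by ring
  · intro n
    have := card_blk_surv (K := π.K) (a := 0) (h := π.K) hp₁ h2 (by omega)
      (sq1.trans (by gcongr)) n
    rw [show blk π.K 0 π.K = univ from eq_univ_of_forall fun j => mem_blk.2 (by omega),
      univ_inter] at this
    refine (mul_le_mul this v1 (by positivity) (by positivity)).trans ?_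
    calc _ = 100 * 1638400 * ((π.K : ℝ) / h) := by field_simp
      _ ≤ 100 * 1638400 * (4 * Λ) := by gcongr; rwa [div_le_iff₀ hH0]
      _ = _ := by ring

lemma Par.Ok.cm_le {π : Par} (ok : π.Ok) {H δ : ℝ} (hH : 0 < H) (hδ : 0 < δ)
    (v2 : Real.log π.y / H ≤ 1 / 16 ^ π.M) (Δ3 : δ * H / 2 ≤ π.Δ)
    (hW : 2 * (2 * π.k).factorial ≤ π.Δ) :
    (δ / (12 * (2 * π.k).factorial)) ^ π.k * Real.exp (-(72 * π.k + 2 * π.k ^ 2))
      ≤ (1 / 3 * (1 / 16 ^ π.M)) ^ π.k *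
        avg (pr π.P) (fun n => ∏ i, ((π.B i ∩ π.R n).card : ℝ)) := by
  have hl : 0 < Real.log π.y := by linarith [ok.hy]
  have hW0 : (0 : ℝ) < (2 * π.k).factorial := by exact_mod_cast Nat.factorial_pos _
  have := avg_prod_card_ge (p₁ := π.p₁) (y := π.y) (K := π.K) (Δ := π.Δ)
    (by have := ok.hK1; have := ok.hK; omega) ok.hk
    (fun i => π.K₀ + 2 * i * π.Δ) (fun i => by have := i.2; have := ok.hKK; nlinarith) hW
  refine le_trans ?_ (mul_le_mul_of_nonneg_left this (by positivity))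
  rw [← mul_assoc, ← mul_pow, mul_div_assoc', mul_div_right_comm, ← div_pow]
  generalize ((2 * π.k).factorial : ℝ) = W at hW0 ⊢
  have : δ / (12 * W) ≤ 1 / 3 * (1 / 16 ^ π.M) * (π.Δ / (2 * W)) / Real.log π.y := by
    calc δ / (12 * W) = 1 / 3 * (Real.log π.y / H) * (δ * H / 2 / (2 * W)) / Real.log π.y := by
          field_simp; norm_num
      _ ≤ _ := by gcongr
  gcongr

open Classical in
lemma good_fixed {lam δ cm M₄ : ℝ} {m Λ mA k mB N p₁ : ℕ} (hlam : 0 < lam) (hΛ0 : lam ≤ Λ)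
    (hΛ1 : (1 : ℝ) ≤ Λ) (hA : 1 ≤ mA) (hk : 1 ≤ k) (hAB : mA ≤ mB)
    (n1 : 96 * C₀ * k * mA ≤ 16 ^ mA)
    (n2 : 96 * 1638400 * (2 * m + 3) * C₀ * 16 ^ mA ≤ mA ^ 2 * k)
    (n3 : 8 * (k + 1) * (C₀ * (400 * Λ * 1638400)) ^ 2 ≤ mB)
    (n4 : (k + 1) * k * 2 * (C₀ * (100 * δ * 1638400)) * (12 * C₀ * mA ^ 2 + 1) ≤ 1)
    (hδ0 : 0 < δ) (hδ1 : 4 * k * δ ≤ lam) (hM₄ : M₄ = Real.exp (Par.κ₄ mB * (400 * Λ * 1638400)))
    (hcm : cm = (δ / (12 * (2 * k).factorial)) ^ k * Real.exp (-(72 * k + 2 * k ^ 2)))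
    (hp₁ : p₁.Prime) (hT : ∀ A B : Finset ℕ, (∀ p ∈ A, p.Prime) → B ⊆ A → p₁ ∉ A →
      (∀ p ∈ A, p ≤ N) → (∀ p ∈ B, p ≤ hh N ^ 6) →
      Transfer A B (4 * (k + 2 * 16 ^ mB) + 2) (Real.exp (Real.log N / 8)) N
        (N / (hh N : ℝ) ^ (4 * (3 * k + 2 * (2 * 16 ^ mB) + 1) + 6)))
    (hΘ : ∀ j ≤ N, (N : ℝ) / 2 ≤ ∑ n ∈ Ioc N (N + N), th (n + j))
    (h200 : Real.exp 200 ≤ hh N) (hH1 : 4 * (Λ : ℝ) + 3 * mA ≤ hh N)
    (hH2 : (4 * (2 * k).factorial + 8) / δ ≤ hh N)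
    (hH3 : 128 * Real.exp 73 * k * Λ ^ 2 * M₄ / cm ≤ hh N) (hH4 : 36 / cm ≤ hh N)
    (hH5 : (k : ℝ) + m + (k + 1) * (1 + k) ≤ hh N)
    (hl1 : 51200 * 16 ^ mB * 6 * Real.log (hh N) ^ 1 ≤ Real.log N)
    (hl2 : 9 / δ ^ 2 * Real.log (hh N) ^ 2 ≤ Real.log N)
    (hl3 : 3 * Real.log (hh N) ^ 1 ≤ Real.log N) (hN2 : 2 ≤ N) :
    ∃ π : Par, π.Ok ∧ δ / (20 * Λ) * (π.K + 1) ≤ π.Δ - 1 ∧ π.K ≤ N ∧ lam * π.K ≤ N ∧
      lam * Real.log (N + N : ℕ) + π.Δ ≤ π.K₀ ∧ 2 * π.k * π.Δ ≤ lam * Real.log N ∧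
      cm ^ 2 / (12 * k ^ 2 * M₄) * N ≤ ((Ioc N (N + N)).filter (π.Good m)).card := by
  have hlH := log_le_hh N
  have hHl := hh_le N
  generalize hh N = h at *
  have hk' : (1 : ℝ) ≤ k := by exact_mod_cast hk
  have hm0 : (0 : ℝ) ≤ m := Nat.cast_nonneg _
  have hM1 : 1 ≤ M₄ := hM₄ ▸ Real.one_le_exp (mul_nonneg (Par.κ₄_nonneg _) (by positivity))
  have hW0 : (0 : ℝ) < (2 * k).factorial := by exact_mod_cast Nat.factorial_pos _
  have hcm0 : 0 < cm := by rw [hcm]; positivity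
  have hN : (2 : ℝ) ≤ N := by exact_mod_cast hN2
  have hH201 : (201 : ℝ) ≤ h := by linarith only [Real.add_one_le_exp 200, h200]
  have hH0 : (0 : ℝ) < h := by linarith only [hH201]
  have hH2' : 2 ≤ h := by exact_mod_cast (by linarith only [hH201] : (2 : ℝ) ≤ h)
  have hlog : 200 ≤ Real.log h := (Real.le_log_iff_exp_le hH0).2 h200
  have hy : Real.log ((h ^ 6 : ℕ) : ℝ) = 6 * Real.log h := by
    rw [Nat.cast_pow, Real.log_pow]; norm_num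
  obtain ⟨M, hM, M1, M2⟩ := exists_M (l := Real.log N) (m := mB) (ly := Real.log ((h ^ 6 : ℕ) : ℝ))
    (by linarith only [hy, hlog]) (by rw [hy]; linarith only [hl1])
  have hH3N : (h : ℝ) ^ 3 ≤ N := by
    rw [← Real.log_le_log_iff (by positivity) (by positivity), Real.log_pow]
    push_cast; linarith only [hl3]
  obtain ⟨Δ, Δ1, Δ2⟩ : ∃ Δ : ℕ, (Δ : ℝ) ≤ δ * h ∧ δ * h < Δ + 1 :=
    ⟨⌊δ * h⌋₊, Nat.floor_le (by positivity), Nat.lt_floor_add_one _⟩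
  rw [div_le_iff₀ hδ0] at hH2
  have Δ3 : δ * h / 2 ≤ Δ := by linarith only [Δ2, hH2, hW0]
  obtain ⟨K, hK⟩ : ∃ K, K = Λ * (h + 2) + Δ + 2 * k * Δ := ⟨_, rfl⟩
  have K1 : (K : ℝ) ≤ 4 * Λ * h :=
    hK ▸ K_aux hk' hΛ1 (hδ1.trans hΛ0) Δ1 (by linarith only [hH201])
  have hmA : (0 : ℝ) ≤ mA := Nat.cast_nonneg _
  have K2 : (K : ℝ) ≤ h ^ 2 := K1.trans (by
    rw [sq]; exact mul_le_mul_of_nonneg_right (by linarith only [hH1, hmA]) hH0.le)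
  have K3 : 1 ≤ K := by
    have : 1 ≤ Λ := by exact_mod_cast hΛ1
    have : 0 < Λ * (h + 2) := by positivity
    omega
  have K4 : Δ ≤ K := by omega
  have H1 : (1 : ℝ) ≤ h := by linarith only [hH201]
  have H2 : (100 : ℝ) ≤ h ^ 2 := by nlinarith only [hH201]
  have H4 : (h : ℝ) ^ 2 ≤ h ^ 4 := pow_le_pow_right₀ H1 (by norm_num)
  have H3 : (h : ℝ) ^ 2 ≤ h ^ 3 := pow_le_pow_right₀ H1 (by norm_num)
  let π : Par := ⟨K, h ^ 6, p₁, M, k, mA, mB, Λ * (h + 2) + Δ, Δ⟩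
  have ok : π.Ok := by
    refine ⟨K3, ?_, ?_, by show 1000 ≤ Real.log ((h ^ 6 : ℕ) : ℝ); linarith only [hy, hlog],
      hA, hAB, hM, hk, hK.ge⟩
    · have : 100 * (K : ℝ) ≤ h ^ 6 := by
        calc 100 * (K : ℝ) ≤ (h : ℝ) ^ 2 * (h : ℝ) ^ 4 :=
            mul_le_mul H2 (K2.trans H4) (by positivity) (by positivity)
          _ = (h : ℝ) ^ 6 := by ring
      exact_mod_cast this
    · have : 8 * (K : ℝ) ^ 2 ≤ h ^ 6 := by
        calc 8 * (K : ℝ) ^ 2 ≤ (h : ℝ) ^ 2 * ((h : ℝ) ^ 2) ^ 2 := by gcongr; linarith only [H2]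
          _ = (h : ℝ) ^ 6 := by ring
      exact_mod_cast this
  have KN : K ≤ N := by exact_mod_cast (K2.trans H3).trans hH3N
  have ly0 : (0 : ℝ) ≤ 16 ^ M * Real.log ((h ^ 6 : ℕ) : ℝ) :=
    mul_nonneg (by positivity) (Real.log_natCast_nonneg _)
  have hY : (h ^ 6) ^ 16 ^ M ≤ N := by
    have : ((h ^ 6 : ℕ) : ℝ) ^ 16 ^ M ≤ N := by
      rw [← Real.log_le_log_iff (by push_cast; positivity) (by positivity), Real.log_pow,
        Nat.cast_pow 16]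
      norm_num only
      linarith only [ly0, M1]
    exact_mod_cast this
  have hAN : ∀ p ∈ π.A, p ≤ N := fun p hp => (mem_Qs.1 hp).2.2.1.trans hY
  have v1 : (1 : ℝ) / 16 ^ M ≤ 1638400 * (Real.log ((h ^ 6 : ℕ) : ℝ) / h) := by
    rw [mul_div_assoc', div_le_div_iff₀ (by positivity) hH0]
    linarith only [M2, hHl, hH201]
  have v2 : Real.log ((h ^ 6 : ℕ) : ℝ) / h ≤ 1 / 16 ^ M := by
    rw [div_le_div_iff₀ hH0 (by positivity)]
    linarith only [M1, ly0, hlH]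
  obtain ⟨b1, b2⟩ := ok.surv_bounds hp₁ rfl hH2' v1
    (by have := sqrt_aux hH0 hδ0 (hl2.trans hlH) Δ3; rwa [← hy] at this) K4 Δ1 K1
  have E1 : 16 ^ M * Real.log ((h ^ 6 : ℕ) : ℝ) / 2 ≤ Eul π.A := by
    refine le_trans (le_of_eq ?_) (half_log_le_Eul p₁ ((h ^ 6) ^ 16 ^ M))
    rw [Nat.cast_pow (h ^ 6), Real.log_pow, Nat.cast_pow 16]; norm_num
  have E2 := Eul_le_log π.A_prime hN2 hAN
  have l1 : 1 / (8 * 1638400) ≤ Eul π.A / (2 * (2 * h)) := by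
    rw [div_le_div_iff₀ (by norm_num) (by positivity)]; linarith only [E1, M2, hHl, hH201]
  have l2 : Eul π.A / (2 * (2 * h)) ≤ Real.exp 73 := by
    rw [div_le_iff₀ (by positivity)]
    exact E2.trans (mul_le_mul_of_nonneg_left (by linarith only [hlH, hH0]) (Real.exp_pos _).le)
  have l0 : 0 ≤ Eul π.A / (2 * (2 * h)) := le_trans (by norm_num) l1
  obtain ⟨av1, av2⟩ := ok.averages (η := 8 * Λ * M₄ / h ^ 2) (cm := cm) b1 b2
    (by linarith only [hΛ1]) l0 hm0 (by positivity)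
    (by
      show 4 * (K : ℝ) ^ 2 / (h ^ 6 : ℕ) * Real.exp (Par.κ₄ mB * (400 * Λ * 1638400)) ≤ _
      rw [← hM₄, Nat.cast_pow]
      calc _ ≤ 4 * (4 * Λ * h) ^ 2 / h ^ 6 * M₄ ^ 2 := by gcongr; nlinarith only [hM1]
        _ = _ := by field_simp; norm_num) n1
    (by
      show 12 * (2 * m + 3) * C₀ * 16 ^ mA ≤ _ * (mA : ℝ) ^ 2 * k
      rw [mul_assoc _ _ (k : ℝ)]
      refine le_trans ?_ (mul_le_mul_of_nonneg_right l1 (by positivity))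
      linarith only [n2]) n3 n4
    (hcm ▸ ok.cm_le hH0 hδ0 v2 Δ3 (by
      exact_mod_cast (by linarith only [Δ3, hH2] : 2 * ((2 * k).factorial : ℝ) ≤ Δ)))
  have hCF := CF_le (π := π) K2 (by show 3 * (mA : ℝ) ≤ h; linarith only [hH1, hΛ1])
    (le_trans (Real.exp_le_exp.2 (by norm_num)) h200)
  have hCF1 := ok.one_le_CF
  have e1 : 9 * π.CF ^ 4 * (N / h ^ (4 * (3 * k + 2 * (2 * 16 ^ mB) + 1) + 6))
      ≤ 9 * N / h ^ 6 := by
    change π.CF ≤ h ^ (3 * k + 2 * (2 * 16 ^ mB) + 1) at hCF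
    generalize 3 * k + 2 * (2 * 16 ^ mB) + 1 = g at hCF ⊢
    calc _ ≤ 9 * ((h : ℝ) ^ g) ^ 4 * (N / h ^ (4 * g + 6)) := by gcongr
      _ = _ := by field_simp; ring
  have H6 : (9 : ℝ) ≤ h ^ 6 :=
    le_trans (by linarith only [H2]) (pow_le_pow_right₀ H1 (show 2 ≤ 6 by norm_num))
  have hlog3 : Real.log (3 * N : ℕ) ≤ 2 * h := by
    push_cast
    rw [Real.log_mul (by norm_num) (by positivity)]
    linarith only [Real.log_le_sub_one_of_pos (show (0 : ℝ) < 3 by norm_num), hlH, hH201]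
  refine ⟨π, ok, ?_, KN, ?_, ?_, ?_, ?_⟩
  · show δ / (20 * Λ) * (K + 1) ≤ Δ - 1
    calc δ / (20 * Λ) * (K + 1) ≤ δ / (20 * Λ) * (5 * Λ * h) := by
          gcongr; nlinarith only [K1, hΛ1, H1]
      _ = δ * h / 4 := by field_simp; norm_num
      _ ≤ _ := by linarith only [Δ2, hH2, hW0]
  · show lam * K ≤ N
    calc lam * K ≤ h * h ^ 2 := by gcongr; linarith only [hΛ0, hH1, hΛ1, hmA]
      _ ≤ N := by linarith only [hH3N]
  · show _ + (Δ : ℝ) ≤ ((Λ * (h + 2) + Δ : ℕ) : ℝ)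
    push_cast
    rw [← two_mul, Real.log_mul (by norm_num) (by positivity)]
    exact add_le_add (mul_le_mul hΛ0 (by linarith only [Real.log_two_lt_d9, hlH])
      (add_nonneg (Real.log_nonneg (by norm_num)) (Real.log_natCast_nonneg _))
      (Nat.cast_nonneg _)) le_rfl
  · show 2 * (k : ℝ) * Δ ≤ _
    calc 2 * (k : ℝ) * Δ ≤ 2 * k * (δ * h) := by gcongr
      _ = (4 * k * δ) * (h / 2) := by ring
      _ ≤ lam * Real.log N := by gcongr; linarith only [hHl, hH201]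
  · refine ok.count (Q := Real.exp (Real.log N / 8)) ?_ (hT π.A π.P π.A_prime (fun p hp => ?_)
      (notMem_erase _ _) hAN fun p hp => (mem_Qs.1 hp).2.2.1) (by positivity)
      KN hY (by linarith only [H1]) hlog3
      (fun j hj => hΘ j (hj.trans KN)) (hM₄ ▸ av1) av2 hcm0.le (by linarith only [hM1]) ?_ ?_
    · rw [← Real.exp_nat_mul]
      refine Real.exp_le_exp.2 ?_
      show ((8 : ℕ) : ℝ) * (800 * 16 ^ M * Real.log ((h ^ 6 : ℕ) : ℝ)) ≤ _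
      norm_num only
      linarith only [M1]
    · have := mem_Qs.1 hp
      exact mem_Qs.2 ⟨this.1, this.2.1, this.2.2.1.trans (le_pow_pow ok.y1 M), this.2.2.2⟩
    · refine e1.trans ?_
      rw [div_le_iff₀ (by positivity), mul_comm, mul_assoc]
      gcongr
      nlinarith only [H6, hM1]
    · exact err_aux (Nat.cast_nonneg _) (by linarith only [hH201]) (Nat.cast_nonneg _)
        (Nat.cast_nonneg _) hm0 hcm0 (Nat.cast_nonneg _) (by linarith only [hM1]) K1 K2 l2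
        (by positivity) e1 hH3 hH4 hH5

open Classical in
theorem good_count {lam : ℝ} (hlam : 0 < lam) (m : ℕ) : ∃ c δ : ℝ, 0 < c ∧ 0 < δ ∧
    ∀ᶠ N : ℕ in atTop, ∃ π : Par, π.Ok ∧ δ * (π.K + 1) ≤ π.Δ - 1 ∧ π.K ≤ N ∧ lam * π.K ≤ N ∧
      lam * Real.log (N + N : ℕ) + π.Δ ≤ π.K₀ ∧ 2 * π.k * π.Δ ≤ lam * Real.log N ∧
      c * N ≤ ((Ioc N (N + N)).filter (π.Good m)).card := by
  have hC := C₀_ge
  obtain ⟨Λ, hΛ0, hΛ1⟩ : ∃ Λ : ℕ, lam ≤ Λ ∧ (1 : ℝ) ≤ Λ :=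
    ⟨⌈lam⌉₊, Nat.le_ceil _, by exact_mod_cast Nat.ceil_pos.2 hlam⟩
  have hm0 : (0 : ℝ) ≤ m := Nat.cast_nonneg _
  obtain ⟨mA, k, hA, hk, n1, n2⟩ := exists_ak (C := 96 * C₀)
    (D := 96 * 1638400 * (2 * m + 3) * C₀) (by linarith) (by nlinarith)
  have hk' : (1 : ℝ) ≤ k := by exact_mod_cast hk
  obtain ⟨mB, hAB, n3⟩ : ∃ mB : ℕ, mA ≤ mB ∧
      8 * (k + 1) * (C₀ * (400 * Λ * 1638400)) ^ 2 ≤ mB :=
    ⟨max mA ⌈8 * (k + 1) * (C₀ * (400 * Λ * 1638400)) ^ 2⌉₊, le_max_left _ _,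
      (Nat.le_ceil _).trans (Nat.cast_le.2 (le_max_right _ _))⟩
  obtain ⟨δ, hδ0, hδ1, n4⟩ : ∃ δ : ℝ, 0 < δ ∧ 4 * k * δ ≤ lam ∧
      (k + 1) * k * 2 * (C₀ * (100 * δ * 1638400)) * (12 * C₀ * mA ^ 2 + 1) ≤ 1 := by
    refine ⟨min (lam / (4 * k))
      (1 / ((k + 1) * k * 2 * (C₀ * (100 * 1638400)) * (12 * C₀ * mA ^ 2 + 1))),
      lt_min (by positivity) (by positivity), ?_, ?_⟩
    · rw [mul_comm, ← le_div_iff₀ (by positivity)]
      exact min_le_left _ _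
    · have := min_le_right (lam / (4 * k))
        (1 / ((k + 1) * k * 2 * (C₀ * (100 * 1638400)) * (12 * C₀ * mA ^ 2 + 1)))
      rw [le_div_iff₀ (by positivity)] at this
      linarith
  obtain ⟨M₄, hM₄⟩ : ∃ M₄, M₄ = Real.exp (Par.κ₄ mB * (400 * Λ * 1638400)) := ⟨_, rfl⟩
  obtain ⟨cm, hcm⟩ : ∃ cm : ℝ,
      cm = (δ / (12 * (2 * k).factorial)) ^ k * Real.exp (-(72 * k + 2 * k ^ 2)) := ⟨_, rfl⟩
  have hM1 : 0 < M₄ := hM₄ ▸ Real.exp_pos _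
  have hW0 : (0 : ℝ) < (2 * k).factorial := by exact_mod_cast Nat.factorial_pos _
  have hcm0 : 0 < cm := by rw [hcm]; positivity
  refine ⟨cm ^ 2 / (12 * k ^ 2 * M₄), δ / (20 * Λ), by positivity, by positivity, ?_⟩
  filter_upwards [transfer_ev (4 * (k + 2 * 16 ^ mB) + 2)
    (4 * (3 * k + 2 * (2 * 16 ^ mB) + 1) + 6), ev_theta,
    ev_hh (Real.exp 200), ev_hh (4 * Λ + 3 * mA), ev_hh ((4 * (2 * k).factorial + 8) / δ),
    ev_hh (128 * Real.exp 73 * k * Λ ^ 2 * M₄ / cm), ev_hh (36 / cm),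
    ev_hh (k + m + (k + 1) * (1 + k)), ev_log (51200 * 16 ^ mB * 6) 1, ev_log (9 / δ ^ 2) 2,
    ev_log 3 1, eventually_ge_atTop 2]
    with N hT hΘ h200 hH1 hH2 hH3 hH4 hH5 hl1 hl2 hl3 hN2
  obtain ⟨p₁, hp₁, hT⟩ := hT
  exact good_fixed hlam hΛ0 hΛ1 hA hk hAB n1 n2 n3 n4 hδ0 hδ1 hM₄ hcm hp₁ hT hΘ h200 hH1 hH2 hH3
    hH4 hH5 hl1 hl2 hl3 hN2

theorem main (lam : ℝ) (hlam : 0 < lam) (m : ℕ) : ∃ c : ℝ, 0 < c ∧ ∀ᶠ X : ℕ in atTop,
    c * X ≤ ((Icc 1 X).filter fun x : ℕ =>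
      ((Ioc x ⌊(x : ℝ) + lam * Real.log x⌋₊).filter Nat.Prime).card = m).card := by
  classical
  obtain ⟨c, δ, hc, hδ, h⟩ := good_count hlam m
  have hT : Tendsto (fun X : ℕ => X / 3) atTop atTop := map_div_atTop_eq_nat 3 (by norm_num) |>.le
  refine ⟨c * δ / 4, by positivity, ?_⟩
  filter_upwards [hT.eventually h, eventually_ge_atTop 12] with X hX hX12
  obtain ⟨π, ok, h1, h2, h3, h4, h5, h6⟩ := hX
  set N := X / 3 with hN
  have hN1 : (1 : ℝ) ≤ N := by exact_mod_cast (by omega : 1 ≤ N)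
  have hXN : (X : ℝ) ≤ 4 * N := by exact_mod_cast (by omega : X ≤ 4 * N)
  set S := (Icc 1 X).filter fun x : ℕ =>
    ((Ioc x ⌊(x : ℝ) + lam * Real.log x⌋₊).filter Nat.Prime).card = m with hS
  have key := double_count ((Ioc N (N + N)).filter (π.Good m)) S π.K (π.Δ - 1) fun n hn => by
    obtain ⟨hn, hg⟩ := mem_filter.1 hn
    rw [mem_Ioc] at hn
    have a1 : (N : ℝ) ≤ n := by exact_mod_cast hn.1.le
    have a2 : (n : ℝ) ≤ (N + N : ℕ) := by exact_mod_cast hn.2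
    have a3 := mul_le_mul_of_nonneg_left (Real.log_le_log (by linarith) a1) hlam.le
    have a4 := mul_le_mul_of_nonneg_left (Real.log_le_log (by linarith) a2) hlam.le
    refine (hg.slide ok hlam (by omega) (by linarith) (by linarith) (by linarith)).trans
      (card_le_card fun x hx => ?_)
    simp only [hS, mem_filter, mem_Icc] at hx ⊢
    exact ⟨⟨by omega, hx.2⟩, hx.1⟩
  have hK : (0 : ℝ) < π.K + 1 := by positivity
  have hΔ : 1 ≤ π.Δ := by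
    have : (1 : ℝ) ≤ π.Δ := by nlinarith
    exact_mod_cast this
  have key' : (((Ioc N (N + N)).filter (π.Good m)).card : ℝ) * (π.Δ - 1) ≤ S.card * (π.K + 1) := by
    exact_mod_cast key
  have h7 := (mul_le_mul h6 h1 (by positivity) (Nat.cast_nonneg _)).trans key'
  rw [← mul_assoc] at h7
  have h8 := le_of_mul_le_mul_right h7 hK
  nlinarith [mul_pos hc hδ]

end Pool.Agent.Work.MP_51e72e_nt.PP
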