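import Pool.Agent.Work.MP_51e72e_nt.PPMertens
import Pool.Agent.Lib.ANT.SieveSums

/-!
The sieve by small and medium primes.
-/

set_option autoImplicit false

namespace Pool.Agent.Work.MP_51e72e_nt.PP

open Finset Pool.Agent.Lib.ANT

/-- coordinates whose shift lies in `(a, a + h]` -/
def blk (K a h : ℕ) : Finset (Fin K) := univ.filter fun j => (j : ℕ) + 1 ∈ Ioc a (a + h)

lemma mem_blk {K a h : ℕ} {j : Fin K} : j ∈ blk K a h ↔ a ≤ j ∧ (j : ℕ) < a + h := by
  simp only [blk, mem_filter, mem_univ, true_and, mem_Ioc]; omega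

lemma card_blk {K a h : ℕ} (hK : a + h ≤ K) (P : ℕ → Prop) [DecidablePred P] :
    ((blk K a h).filter fun j : Fin K => P ((j : ℕ) + 1)).card = ((Ioc a (a + h)).filter P).card := by
  refine card_bij (fun j _ => (j : ℕ) + 1) (fun j hj => ?_) (fun j _ j' _ e => Fin.ext (by omega))
    fun x hx => ?_
  · simp only [mem_filter, mem_blk, mem_Ioc] at hj ⊢
    exact ⟨by omega, hj.2⟩
  · simp only [mem_filter, mem_Ioc] at hx
    refine ⟨⟨x - 1, by omega⟩, ?_, by simp only; omega⟩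
    simp only [mem_filter, mem_blk]
    rw [Nat.sub_add_cancel (by omega)]
    exact ⟨by omega, hx.2⟩

/-- coordinates surviving the sieve by the primes of `B` -/
noncomputable def surv (K : ℕ) (B : Finset ℕ) (n : ℕ) : Finset (Fin K) :=
  univ.filter fun j => rho B {(j : ℕ) + 1} n = 1

lemma rho_eq_ite {K : ℕ} (B : Finset ℕ) (n : ℕ) (j : Fin K) :
    rho B {(j : ℕ) + 1} n = if j ∈ surv K B n then 1 else 0 := by
  simp only [surv, mem_filter, mem_univ, true_and]
  rcases rho_cases B {(j : ℕ) + 1} n with h | h <;> simp [h]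

lemma surv_per (K : ℕ) (B : Finset ℕ) : Per (pr B) (surv K B) := fun m n h => by
  unfold surv
  simp only [rho_per B _ m n h]

lemma sieve_det {p₁ y : ℕ} (hp₁ : p₁.Prime) {w : ℝ} (hw : 1 < w) (hwy : w ≤ y) (n a h : ℕ) :
    (((Ioc a (a + h)).filter fun j => rho (Qs p₁ 0 y) {j} n = 1).card : ℝ)
      ≤ 2 * h / Real.log w + w ^ 4 := by
  have h1 := sieve_dim ({()} : Finset Unit) (fun _ => p₁) (fun _ _ => hp₁.pos) w hw
    (fun p => if p = p₁ then ∅ else {0}) (fun p hp _ => by split_ifs <;> simp [hp.pos])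
    (fun p hp _ => by split_ifs <;> simp [hp.pos, hp.one_lt]) (fun p hp _ => by
      split_ifs with e
      · simp [e]
      · exact card_filter_le _ _) (n + a) h
  simp only [prod_singleton, card_singleton, pow_one] at h1
  have hl : 0 < Real.log w := Real.log_pos hw
  have h2 : (1 : ℝ) / 2 ≤ (p₁.totient : ℝ) / p₁ := by
    have : (2 : ℝ) ≤ p₁ := by exact_mod_cast hp₁.two_le
    rw [Nat.totient_prime hp₁, Nat.cast_sub hp₁.one_le, div_le_div_iff₀ (by norm_num) (by linarith)]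
    push_cast; linarith
  have h3 : (h : ℝ) / (p₁.totient / p₁ * Real.log w) ≤ 2 * h / Real.log w :=
    (div_le_div_of_nonneg_left (Nat.cast_nonneg _) (by positivity)
      (mul_le_mul_of_nonneg_right h2 hl.le)).trans (le_of_eq (by field_simp))
  refine le_trans ?_ (h1.trans (add_le_add h3 le_rfl))
  norm_cast
  refine card_le_card_of_injOn (fun j => n + j) (fun j hj => ?_) fun j _ j' _ e => by
    simpa using e
  simp only [coe_filter, mem_Ioc, Set.mem_ofPred_eq, mem_filter, mem_range] at hj ⊢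
  refine ⟨by omega, fun p hp => ?_⟩
  split_ifs with e
  · simp
  · rw [mem_singleton, ← Nat.dvd_iff_mod_eq_zero]
    intro hd
    have hpy : p ≤ y := by
      have : (⌊w⌋₊ : ℝ) ≤ y := (Nat.floor_le (by linarith)).trans hwy
      have : ⌊w⌋₊ ≤ y := by exact_mod_cast this
      omega
    have : rho (Qs p₁ 0 y) {j} n = 0 :=
      prod_eq_zero (mem_Qs.2 ⟨e, hp.2.pos, hpy, hp.2⟩) (if_pos ⟨j, mem_singleton_self j, hd⟩)
    rw [this] at hj
    exact zero_ne_one hj.2

lemma card_blk_surv {p₁ H K a h : ℕ} (hp₁ : p₁.Prime) (hH : 2 ≤ H) (hK : a + h ≤ K)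
    (hh : Real.sqrt H * Real.log (H ^ 6 : ℕ) ≤ 4 * h) (n : ℕ) :
    ((blk K a h ∩ surv K (Qs p₁ 0 (H ^ 6)) n).card : ℝ) ≤ 100 * h / Real.log (H ^ 6 : ℕ) := by
  have hH' : (2 : ℝ) ≤ H := by exact_mod_cast hH
  have e : blk K a h ∩ surv K (Qs p₁ 0 (H ^ 6)) n
      = (blk K a h).filter fun j : Fin K => rho (Qs p₁ 0 (H ^ 6)) {(j : ℕ) + 1} n = 1 := by
    ext j; simp [surv]
  have hw : 1 < (H : ℝ) ^ ((1 : ℝ) / 8) := Real.one_lt_rpow (by linarith) (by norm_num)
  have hl : 0 < Real.log H := Real.log_pos (by linarith)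
  rw [e, card_blk hK (fun j => rho (Qs p₁ 0 (H ^ 6)) {j} n = 1)]
  refine (sieve_det hp₁ hw ?_ n a h).trans ?_
  · push_cast
    rw [← Real.rpow_natCast]
    exact Real.rpow_le_rpow_of_exponent_le (by linarith) (by norm_num)
  · have e2 : ((H : ℝ) ^ ((1 : ℝ) / 8)) ^ 4 = Real.sqrt H := by
      rw [← Real.rpow_natCast, ← Real.rpow_mul (by linarith), Real.sqrt_eq_rpow]; norm_num
    rw [e2, Real.log_rpow (by linarith)]
    push_cast at hh ⊢
    rw [Real.log_pow] at hh ⊢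
    push_cast at hh ⊢
    rw [le_div_iff₀ (by positivity), add_mul]
    have : 2 * h / (1 / 8 * Real.log H) * (6 * Real.log H) = 96 * h := by field_simp; ring
    linarith

lemma avg_rho_ge {p₁ y k : ℕ} (hy : 2 ≤ y) (hk : 1 ≤ k) {S : Finset ℕ} (hS : S.card ≤ k)
    (hW : ∀ j ∈ S, (2 * k).factorial ∣ j) :
    Real.exp (-(72 * k + 2 * k ^ 2)) / Real.log y ^ k ≤ avg (pr (Qs p₁ 0 y)) (rho (Qs p₁ 0 y) S) := by
  have hk' : (1 : ℝ) ≤ k := by exact_mod_cast hk
  unfold rho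
  rw [avg_prod _ (fun p hp => (mem_Qs.1 hp).2.2.2) _ fun p _ => per_loc p S]
  have h1 : ∀ p ∈ Qs p₁ 0 y, Real.exp (-(k * (p : ℝ)⁻¹ + 2 * k ^ 2 * ((p : ℝ) ^ 2)⁻¹))
      ≤ avg p (fun n => if ∃ j ∈ S, p ∣ n + j then (0 : ℝ) else 1) := by
    intro p hp
    have hpp := (mem_Qs.1 hp).2.2.2
    have hp2 : (2 : ℝ) ≤ p := by exact_mod_cast hpp.two_le
    rw [avg_loc hpp.pos]
    by_cases h : p ≤ 2 * k
    · have a1 : ((range p).filter fun a => ∃ j ∈ S, p ∣ a + j).card ≤ 1 := by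
        refine (card_le_card (t := {0}) fun a ha => ?_).trans (by simp)
        obtain ⟨h1, j, hj, h2⟩ := mem_filter.1 ha
        have := (Nat.dvd_add_left ((Nat.dvd_factorial hpp.pos h).trans (hW j hj))).1 h2
        exact mem_singleton.2 (Nat.eq_zero_of_dvd_of_lt this (mem_range.1 h1))
      have a2 : (((range p).filter fun a => ∃ j ∈ S, p ∣ a + j).card : ℝ) / p ≤ (p : ℝ)⁻¹ := by
        rw [← one_div]
        exact div_le_div_of_nonneg_right (by exact_mod_cast a1) (by linarith)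
      have a3 := exp_le_one_sub (x := (p : ℝ)⁻¹) (by positivity)
        (by rw [one_div]; exact inv_anti₀ (by norm_num) hp2)
      refine le_trans (Real.exp_le_exp.2 ?_) (a3.trans (by linarith))
      rw [inv_pow]
      have b1 : (0 : ℝ) ≤ (p : ℝ)⁻¹ := by positivity
      have b2 : (0 : ℝ) ≤ ((p : ℝ) ^ 2)⁻¹ := by positivity
      nlinarith [mul_nonneg b2 (show (0 : ℝ) ≤ k ^ 2 - 1 by nlinarith)]
    · have a1 : (((range p).filter fun a => ∃ j ∈ S, p ∣ a + j).card : ℝ) / p ≤ k * (p : ℝ)⁻¹ := by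
        rw [← div_eq_mul_inv]
        exact div_le_div_of_nonneg_right (by exact_mod_cast (card_dvd_shift_le p S).trans hS)
          (by linarith)
      have a2 : (2 : ℝ) * k ≤ p := by exact_mod_cast (not_le.1 h).le
      have a3 := exp_le_one_sub (x := k * (p : ℝ)⁻¹) (by positivity)
        (by rw [← div_eq_mul_inv, div_le_div_iff₀ (by linarith) (by norm_num)]; linarith)
      refine le_trans (le_of_eq ?_) (a3.trans (by linarith))
      congr 1; ring
  refine le_trans ?_ (prod_le_prod (fun _ _ => (Real.exp_pos _).le) h1)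
  rw [← Real.exp_sum, sum_neg_distrib, sum_add_distrib, ← mul_sum, ← mul_sum]
  have hl : 0 < Real.log y := Real.log_pos (by exact_mod_cast hy)
  have a1 : ∑ p ∈ Qs p₁ 0 y, (p : ℝ)⁻¹ ≤ Real.log (Real.log y) + 72 := by
    have := (abs_le.1 (abs_sum_inv_prime_sub_loglog_le y hy)).2
    have := sum_le_sum_of_subset_of_nonneg (f := fun p : ℕ => (p : ℝ)⁻¹)
      (erase_subset p₁ ((Ioc 0 y).filter Nat.Prime)) fun _ _ _ => by positivity
    unfold Qs
    linarith
  have a2 : ∑ p ∈ Qs p₁ 0 y, ((p : ℝ) ^ 2)⁻¹ ≤ 1 := by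
    have h := sum_Ioc_inv_sq_le_sub (α := ℝ) one_ne_zero (show 1 ≤ y by omega)
    have : (0 : ℝ) ≤ (y : ℝ)⁻¹ := by positivity
    refine (sum_le_sum_of_subset_of_nonneg (t := Ioc 1 y) (fun p hp => ?_)
      fun _ _ _ => by positivity).trans (by simp only [Nat.cast_one, inv_one] at h; linarith)
    rw [mem_Qs] at hp
    exact mem_Ioc.2 ⟨hp.2.2.2.one_lt, hp.2.2.1⟩
  rw [← Real.exp_log (pow_pos hl k), ← Real.exp_sub, Real.log_pow]
  exact Real.exp_le_exp.2 (by nlinarith)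

lemma avg_prod_card_ge {p₁ y k K Δ : ℕ} (hy : 2 ≤ y) (hk : 1 ≤ k) (a : Fin k → ℕ)
    (ha : ∀ i, a i + Δ ≤ K) (hΔ : 2 * (2 * k).factorial ≤ Δ) :
    (Δ / (2 * (2 * k).factorial)) ^ k * (Real.exp (-(72 * k + 2 * k ^ 2)) / Real.log y ^ k)
      ≤ avg (pr (Qs p₁ 0 y))
        (fun n => ∏ i, ((blk K (a i) Δ ∩ surv K (Qs p₁ 0 y) n).card : ℝ)) := by
  set W := (2 * k).factorial with hW
  have hW0 : 0 < W := Nat.factorial_pos _
  set B : Fin k → Finset (Fin K) := fun i =>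
    (blk K (a i) Δ).filter fun j : Fin K => W ∣ (j : ℕ) + 1 with hB
  have h1 : ∀ n, ∑ t ∈ Fintype.piFinset B, rho (Qs p₁ 0 y) (univ.image fun i => (t i : ℕ) + 1) n
      ≤ ∏ i, ((blk K (a i) Δ ∩ surv K (Qs p₁ 0 y) n).card : ℝ) := by
    intro n
    have e1 : ∀ t : Fin k → Fin K, rho (Qs p₁ 0 y) (univ.image fun i => (t i : ℕ) + 1) n
        ≤ ∏ i, rho (Qs p₁ 0 y) {(t i : ℕ) + 1} n := by
      intro t
      rcases rho_cases (Qs p₁ 0 y) (univ.image fun i => (t i : ℕ) + 1) n with h | h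
      · rw [h]; exact prod_nonneg fun _ _ => rho_nonneg _ _ _
      · rw [h]
        refine (prod_eq_one fun i _ => rho_eq_one fun p hp j hj hd => ?_).ge
        rw [mem_singleton.1 hj] at hd
        have : rho (Qs p₁ 0 y) (univ.image fun i => (t i : ℕ) + 1) n = 0 :=
          prod_eq_zero hp (if_pos ⟨_, mem_image_of_mem _ (mem_univ i), hd⟩)
        rw [this] at h
        exact zero_ne_one h
    refine (sum_le_sum fun t _ => e1 t).trans ?_
    rw [← prod_univ_sum B fun _ j => rho (Qs p₁ 0 y) {(j : ℕ) + 1} n]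
    refine prod_le_prod (fun _ _ => sum_nonneg fun _ _ => rho_nonneg _ _ _) fun i _ => ?_
    simp_rw [rho_eq_ite]
    rw [sum_ite_mem, sum_const, nsmul_eq_mul, mul_one]
    exact_mod_cast card_le_card (inter_subset_inter_right (filter_subset _ _))
  refine le_trans ?_ (avg_mono h1)
  rw [avg_sum]
  refine le_trans ?_ (card_nsmul_le_sum _ _ _ fun t ht => avg_rho_ge hy hk
    (card_image_le.trans (by simp)) fun j hj => ?_)
  · rw [nsmul_eq_mul, Fintype.card_piFinset]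
    refine mul_le_mul_of_nonneg_right ?_ (div_nonneg (Real.exp_pos _).le
      (pow_nonneg (Real.log_natCast_nonneg _) _))
    push_cast
    rw [← Fin.prod_const]
    refine prod_le_prod (fun _ _ => by positivity) fun i _ => ?_
    simp only [hB]
    rw [card_blk (ha i) (fun j => W ∣ j)]
    have h2 := (abs_le.1 (abs_card_modEq_sub_le (a i) Δ W 0 hW0)).1
    simp only [Nat.modEq_zero_iff_dvd] at h2
    have h3 : (2 : ℝ) * W ≤ Δ := by exact_mod_cast hΔ
    have h4 : (0 : ℝ) < W := by exact_mod_cast hW0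
    have h5 : 2 ≤ (Δ : ℝ) / W := by rw [le_div_iff₀ h4]; linarith
    have h6 : (Δ : ℝ) / (2 * W) = Δ / W / 2 := by field_simp
    linarith
  · obtain ⟨i, -, rfl⟩ := mem_image.1 hj
    exact (mem_filter.1 (Fintype.mem_piFinset.1 ht i)).2

lemma half_log_le_Eul (p₁ Y : ℕ) : Real.log Y / 2 ≤ Eul (Qs p₁ 0 Y) := by
  have h := log_le_prod_one_sub_inv_prime_inv Y
  have h0 : 1 ≤ Eul (Qs p₁ 0 Y) := one_le_Eul fun p hp => (mem_Qs.1 hp).2.2.2
  unfold Eul Qs at *
  by_cases hp : p₁ ∈ (Ioc 0 Y).filter Nat.Prime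
  · rw [← mul_prod_erase _ _ hp] at h
    have h1 : (2 : ℝ) ≤ p₁ := by exact_mod_cast (mem_filter.1 hp).2.two_le
    have h2 : (p₁ : ℝ)⁻¹ ≤ 2⁻¹ := inv_anti₀ (by norm_num) h1
    have h3 : (1 - (p₁ : ℝ)⁻¹)⁻¹ ≤ 2 := by
      rw [inv_le_comm₀ (by linarith) (by norm_num)]; linarith
    nlinarith
  · rw [erase_eq_of_notMem hp] at h0 ⊢
    linarith

end Pool.Agent.Work.MP_51e72e_nt.PP
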