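import Pool.Agent.Work.MP_51e72e_nt.PPSingle
import Pool.Agent.Lib.ANT.Mertens

/-!
The blocks of large primes.
-/

set_option autoImplicit false

namespace Pool.Agent.Work.MP_51e72e_nt.PP

open Finset Pool.Agent.Lib.ANT

/-- primes in `(a, b]` other than `p₁` -/
def Qs (p₁ a b : ℕ) : Finset ℕ := ((Ioc a b).filter Nat.Prime).erase p₁

lemma mem_Qs {p₁ a b p : ℕ} : p ∈ Qs p₁ a b ↔ p ≠ p₁ ∧ a < p ∧ p ≤ b ∧ p.Prime := by
  simp [Qs, and_assoc]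

lemma Qs_union (p₁ : ℕ) {a b c : ℕ} (hab : a ≤ b) (hbc : b ≤ c) :
    Qs p₁ a c = Qs p₁ a b ∪ Qs p₁ b c := by
  ext p
  simp only [mem_union, mem_Qs]
  by_cases h : p.Prime <;> simp only [h, and_true, and_false, or_self]
  omega

lemma Qs_disjoint (p₁ : ℕ) {a b c d : ℕ} (h : b ≤ c) : Disjoint (Qs p₁ a b) (Qs p₁ c d) :=
  disjoint_left.2 fun p h1 h2 => by
    rw [mem_Qs] at h1 h2
    omega

/-- the `i`-th block -/
def Qb (p₁ y i : ℕ) : Finset ℕ := Qs p₁ (y ^ 16 ^ i) (y ^ 16 ^ (i + 1))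

lemma pow_pow_mono {y : ℕ} (hy : 1 ≤ y) {i j : ℕ} (h : i ≤ j) : y ^ 16 ^ i ≤ y ^ 16 ^ j :=
  Nat.pow_le_pow_right hy (Nat.pow_le_pow_right (by norm_num) h)

lemma le_pow_pow {y : ℕ} (hy : 1 ≤ y) (i : ℕ) : y ≤ y ^ 16 ^ i := by
  simpa using pow_pow_mono hy (Nat.zero_le i)

lemma prod_Qb {R : Type*} [CommMonoid R] (p₁ : ℕ) {y : ℕ} (hy : 1 ≤ y) (f : ℕ → R) (t : ℕ) :
    ∏ i ∈ range t, ∏ p ∈ Qb p₁ y i, f p = ∏ p ∈ Qs p₁ y (y ^ 16 ^ t), f p := by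
  induction t with
  | zero => simp [Qs]
  | succ t ih =>
    rw [prod_range_succ, ih, Qs_union p₁ (le_pow_pow hy t) (pow_pow_mono hy (Nat.le_succ t)),
      prod_union (Qs_disjoint p₁ le_rfl)]
    rfl

lemma Qb_subset (p₁ : ℕ) {y : ℕ} (hy : 1 ≤ y) {i M : ℕ} (h : i < M) :
    Qb p₁ y i ⊆ Qs p₁ y (y ^ 16 ^ M) := fun p hp => by
  have h1 := le_pow_pow hy i
  have h2 := pow_pow_mono hy (show i + 1 ≤ M from h)
  rw [Qb, mem_Qs] at hp
  rw [mem_Qs]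
  exact ⟨hp.1, by omega, by omega, hp.2.2.2⟩

/-- inclusion probability -/
noncomputable def qq (K p : ℕ) : ℝ := 1 / ((p : ℝ) - K + 1)

section

variable {K y : ℕ} (hK1 : 1 ≤ K) (hK : 100 * K ≤ y)
include hK1 hK

lemma qq_bounds {p : ℕ} (hp : y < p) : (p : ℝ)⁻¹ ≤ qq K p ∧ qq K p ≤ (p : ℝ)⁻¹ + 2 * K * ((p : ℝ) ^ 2)⁻¹
    ∧ qq K p ^ 2 ≤ 4 * ((p : ℝ) ^ 2)⁻¹ ∧ qq K p ≤ 1 / 2 := by
  have h1 : (1 : ℝ) ≤ K := by exact_mod_cast hK1
  have h2 : 100 * (K : ℝ) < p := by exact_mod_cast (by omega : 100 * K < p)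
  have h3 : (0 : ℝ) < p - K + 1 := by linarith
  have h4 : (0 : ℝ) < p := by linarith
  unfold qq
  refine ⟨?_, ?_, ?_, ?_⟩
  · rw [one_div]; exact inv_anti₀ h3 (by linarith)
  · rw [div_le_iff₀ h3]
    field_simp
    nlinarith
  · rw [div_pow, div_le_iff₀ (by positivity)]
    field_simp
    nlinarith
  · rw [div_le_div_iff₀ h3 (by norm_num)]; linarith

lemma sum_inv_sq_Qs (p₁ : ℕ) {a b : ℕ} (ha : y ≤ a) (hab : a ≤ b) :
    ∑ p ∈ Qs p₁ a b, ((p : ℝ) ^ 2)⁻¹ ≤ (y : ℝ)⁻¹ := by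
  have h := sum_Ioc_inv_sq_le_sub (α := ℝ) (show a ≠ 0 by omega) hab
  have h1 : (y : ℝ) ≤ a := by exact_mod_cast ha
  have h2 : (0 : ℝ) < y := by exact_mod_cast (by omega : 0 < y)
  have h3 : (a : ℝ)⁻¹ ≤ (y : ℝ)⁻¹ := inv_anti₀ h2 h1
  have h4 : (0 : ℝ) ≤ (b : ℝ)⁻¹ := by positivity
  refine (sum_le_sum_of_subset_of_nonneg ((erase_subset _ _).trans (filter_subset _ _))
    fun _ _ _ => by positivity).trans (by linarith)

lemma sum_qq_sq (p₁ : ℕ) {a b : ℕ} (ha : y ≤ a) (hab : a ≤ b) :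
    ∑ p ∈ Qs p₁ a b, qq K p ^ 2 ≤ 4 / y := by
  refine (sum_le_sum fun p hp => (qq_bounds hK1 hK (ha.trans_lt (mem_Qs.1 hp).2.1)).2.2.1).trans ?_
  rw [← mul_sum]
  exact mul_le_mul_of_nonneg_left (sum_inv_sq_Qs hK1 hK p₁ ha hab) (by norm_num)

lemma sum_qq (hy : 1000 ≤ Real.log y) (p₁ : ℕ) {a b : ℕ} (ha : y ≤ a) (hab : a ≤ b) :
    |∑ p ∈ Qs p₁ a b, qq K p - (Real.log (Real.log b) - Real.log (Real.log a))| ≤ 1 / 10 := by
  have h := abs_sum_inv_prime_Ioc_sub_le a b (by omega) hab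
  have h1 : (y : ℝ) ≤ a := by exact_mod_cast ha
  have h2 : (100 : ℝ) ≤ y := by exact_mod_cast (by omega : 100 ≤ y)
  have h3 : 48 / Real.log a ≤ 48 / 1000 :=
    div_le_div_of_nonneg_left (by norm_num) (by norm_num)
      (hy.trans (Real.log_le_log (by linarith) h1))
  have h4 : (y : ℝ)⁻¹ ≤ 1 / 100 := by rw [one_div]; exact inv_anti₀ (by norm_num) h2
  have h5 : 2 * K * (y : ℝ)⁻¹ ≤ 2 / 100 := by
    have : 100 * (K : ℝ) ≤ y := by exact_mod_cast hK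
    rw [← div_eq_mul_inv, div_le_div_iff₀ (by linarith) (by norm_num)]; linarith
  have u1 : ∑ p ∈ Qs p₁ a b, qq K p ≤ ∑ p ∈ Qs p₁ a b, (p : ℝ)⁻¹ + 2 * K * (y : ℝ)⁻¹ := by
    refine (sum_le_sum fun p hp => (qq_bounds hK1 hK (ha.trans_lt (mem_Qs.1 hp).2.1)).2.1).trans ?_
    rw [sum_add_distrib, ← mul_sum]
    exact add_le_add le_rfl (mul_le_mul_of_nonneg_left (sum_inv_sq_Qs hK1 hK p₁ ha hab)
      (by positivity))
  have u2 : ∑ p ∈ Qs p₁ a b, (p : ℝ)⁻¹ ≤ ∑ p ∈ Qs p₁ a b, qq K p :=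
    sum_le_sum fun p hp => (qq_bounds hK1 hK (ha.trans_lt (mem_Qs.1 hp).2.1)).1
  have u3 : ∑ p ∈ Qs p₁ a b, (p : ℝ)⁻¹ ≤ ∑ p ∈ (Ioc a b).filter Nat.Prime, (p : ℝ)⁻¹ :=
    sum_le_sum_of_subset_of_nonneg (erase_subset _ _) fun _ _ _ => by positivity
  have u4 : ∑ p ∈ (Ioc a b).filter Nat.Prime, (p : ℝ)⁻¹ ≤ ∑ p ∈ Qs p₁ a b, (p : ℝ)⁻¹ + (y : ℝ)⁻¹ := by
    unfold Qs
    by_cases hp : p₁ ∈ (Ioc a b).filter Nat.Prime
    · rw [← sum_erase_add _ _ hp]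
      have : (y : ℝ) ≤ p₁ := by exact_mod_cast ha.trans (mem_Ioc.1 (mem_filter.1 hp).1).1.le
      exact add_le_add le_rfl (inv_anti₀ (by linarith) this)
    · rw [erase_eq_of_notMem hp]
      exact le_add_of_nonneg_right (by positivity)
  rw [abs_le] at h ⊢
  constructor <;> linarith [h.1, h.2]

omit hK1 hK in
lemma loglog_pow (hy : 1000 ≤ Real.log y) (t : ℕ) :
    Real.log (Real.log ((y ^ 16 ^ t : ℕ) : ℝ)) = t * Real.log 16 + Real.log (Real.log y) := by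
  push_cast
  rw [Real.log_pow, Real.log_mul (by positivity) (by linarith)]
  push_cast
  rw [Real.log_pow]

theorem blocks (hy : 1000 ≤ Real.log y) (p₁ M : ℕ) : Blocks M (Qb p₁ y) (qq K) := by
  have hy1 : 1 ≤ y := by omega
  have hl : Real.log 16 = 4 * Real.log 2 := by
    rw [show (16 : ℝ) = 2 ^ 4 by norm_num, Real.log_pow]; norm_num
  have l1 := Real.log_two_gt_d9
  have l2 := Real.log_two_lt_d9
  have hb : ∀ i, ∀ p ∈ Qb p₁ y i, y < p := fun i p hp =>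
    (le_pow_pow hy1 i).trans_lt (mem_Qs.1 hp).2.1
  have hs : ∀ i, |∑ p ∈ Qb p₁ y i, qq K p - Real.log 16| ≤ 1 / 10 := fun i => by
    have := sum_qq hK1 hK hy p₁ (le_pow_pow hy1 i) (pow_pow_mono hy1 (Nat.le_succ i))
    rw [loglog_pow hy, loglog_pow hy] at this
    convert this using 3
    · rfl
    · push_cast; ring
  have ht : ∀ t : ℕ, |∑ p ∈ Qs p₁ y (y ^ 16 ^ t), qq K p - t * Real.log 16| ≤ 1 / 10 := fun t => by
    have := sum_qq hK1 hK hy p₁ le_rfl (le_pow_pow hy1 t)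
    rw [loglog_pow hy] at this
    convert this using 3
    ring
  have he : ∀ t : ℕ, Real.exp (t * Real.log 16) = 16 ^ t := fun t => by
    rw [Real.exp_nat_mul, Real.exp_log (by norm_num)]
  have q0 : ∀ p, y < p → 0 ≤ qq K p := fun p hp => le_trans (by positivity) (qq_bounds hK1 hK hp).1
  have q1 : ∀ p, y < p → qq K p ≤ 1 / 2 := fun p hp => (qq_bounds hK1 hK hp).2.2.2
  have e3 : Real.exp 1 ≤ 3 := by linarith [Real.exp_one_lt_d9]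
  refine ⟨fun i p hp => q0 p (hb i p hp), fun i p hp => q1 p (hb i p hp),
    fun i => by linarith [(abs_le.1 (hs i)).1], fun i => by linarith [(abs_le.1 (hs i)).2],
    fun t => ?_, fun t => ?_⟩
  · rw [prod_Qb p₁ hy1]
    refine le_trans ?_ (le_prod_one_sub (fun p hp => q0 p (mem_Qs.1 hp).2.1)
      fun p hp => q1 p (mem_Qs.1 hp).2.1)
    have a1 := sum_qq_sq hK1 hK p₁ le_rfl (le_pow_pow hy1 t)
    have h2 : (100 : ℝ) ≤ y := by exact_mod_cast (by omega : 100 ≤ y)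
    have a2 : (4 : ℝ) / y ≤ 4 / 100 := div_le_div_of_nonneg_left (by norm_num) (by norm_num) h2
    rw [Real.exp_neg, one_div]
    refine inv_anti₀ (Real.exp_pos _) ?_
    calc _ ≤ Real.exp (1 + t * Real.log 16) :=
          Real.exp_le_exp.2 (by linarith [(abs_le.1 (ht t)).2])
      _ ≤ _ := by rw [Real.exp_add, he]; gcongr
  · rw [prod_Qb p₁ hy1]
    refine (prod_one_sub_le fun p hp => q1 p (mem_Qs.1 hp).2.1).trans ?_
    calc _ ≤ Real.exp (1 - t * Real.log 16) :=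
          Real.exp_le_exp.2 (by linarith [(abs_le.1 (ht t)).1])
      _ ≤ _ := by rw [Real.exp_sub, he]; gcongr

end

end Pool.Agent.Work.MP_51e72e_nt.PP
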