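import Pool.Agent.Work.MP_51e72e_nt.PPMom

/-!
The main inequality in the independent model.
-/

set_option autoImplicit false
set_option linter.unusedSectionVars false

namespace Pool.Agent.Work.MP_51e72e_nt.PP

open Finset

variable {ι α κ LA LB : Type*} [Fintype ι] [DecidableEq ι] [Fintype κ] [DecidableEq κ]
  [Fintype LA] [DecidableEq LA] [Fintype LB] [DecidableEq LB] {s : Finset α} {w : α → ℝ}

/-- the full form with the coordinates in `E` erased -/
noncomputable def FE (B : κ → Finset ι) (J : Finset ι) (τA : LA → ℝ) (τB : LB → ℝ)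
    (eA : LA → α → ℝ) (eB : LB → α → ℝ) (E : Finset ι) (T : ι → α) : ℝ :=
  FA B τA (er E eA) T * FB J τB (er E eB) T

variable {B : κ → Finset ι} {J : Finset ι} {τA nA : LA → ℝ} {τB nB : LB → ℝ}
  {eA : LA → α → ℝ} {eB : LB → α → ℝ}

lemma FE_congr {E E' : Finset ι} {T T' : ι → α}
    (hA : ∀ j a, er E eA j a (T j) = er E' eA j a (T' j))
    (hB : ∀ j a, er E eB j a (T j) = er E' eB j a (T' j)) :
    FE B J τA τB eA eB E T = FE B J τA τB eA eB E' T' := by
  unfold FE FA FB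
  simp_rw [hA]
  congr 1
  refine sum_congr rfl fun σ _ => prod_congr rfl fun j _ => ?_
  cases σ j <;> simp only [xb, hB]

lemma dep_FE (E : Finset ι) : Dep Eᶜ (FE B J τA τB eA eB E) := fun T T' h => by
  refine FE_congr (fun j a => ?_) fun j a => ?_ <;>
  · unfold er
    split_ifs with hj
    · rfl
    · rw [h j (mem_compl.2 hj)]

lemma FE_erase {o : α} (hA : ∀ a, eA a o = 1) (hB : ∀ a, eB a o = 1) {E : Finset ι} {T : ι → α}
    (h : ∀ j ∈ E, T j = o) : FE B J τA τB eA eB ∅ T = FE B J τA τB eA eB E T := by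
  refine FE_congr (fun j a => ?_) fun j a => ?_ <;>
  · unfold er
    by_cases hj : j ∈ E <;> simp [hj, h j, hA, hB]

/-- standing assumptions on the two systems and the blocks -/
structure Sys (s : Finset α) (w : α → ℝ) (B : κ → Finset ι) (J : Finset ι) (τA nA : LA → ℝ)
    (τB nB : LB → ℝ) (eA : LA → α → ℝ) (eB : LB → α → ℝ) : Prop where
  oA : Orth s w eA nA
  oB : Orth s w eB nB
  tA0 : ∀ a, 0 ≤ τA a
  tA : ∀ a, τA a ≤ 1 / 2
  tB0 : ∀ a, 0 ≤ τB a
  tB : ∀ a, τB a ≤ 1 / 2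
  dB : ∀ i i', i ≠ i' → Disjoint (B i) (B i')
  dJ : ∀ i, Disjoint (B i) J

lemma Sys.split (h : Sys s w B J τA nA τB nB eA eB) (E : Finset ι) :
    EI ι s w (fun T => FE B J τA τB eA eB E T ^ 2)
      = EI ι s w (fun T => FA B τA (er E eA) T ^ 2) * EI ι s w (fun T => FB J τB (er E eB) T ^ 2) := by
  unfold FE
  simp_rw [mul_pow]
  refine EE_indep (fun _ => h.oA.prob) (U := univ.biUnion B) (V := J) ?_
    ((dep_FA B τA _).comp (· ^ 2)) ((dep_FB J τB _).comp (· ^ 2))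
  rw [disjoint_biUnion_left]
  exact fun i _ => h.dJ i

/-- normalising factor of the cancelling form -/
noncomputable def MB (J : Finset ι) (nB : LB → ℝ) : ℝ :=
  (1 + (∑ a, nB a) / (Fintype.card LB) ^ 2) ^ J.card

/-- normalising factor of the full form -/
noncomputable def mm (B : κ → Finset ι) (J : Finset ι) (nA : LA → ℝ) (nB : LB → ℝ) : ℝ :=
  (∏ i, ((B i).card * ∑ a, nA a)) * MB J nB

lemma Sys.one_le_MB (h : Sys s w B J τA nA τB nB eA eB) : 1 ≤ MB J nB := by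
  have h2 : 0 ≤ ∑ a, nB a := sum_nonneg fun a _ => h.oB.nonneg a
  exact one_le_pow₀ (le_add_of_nonneg_right (by positivity))

lemma EI_nonneg (h : IsProb s w) {f : (ι → α) → ℝ} (hf : ∀ T, 0 ≤ f T) : 0 ≤ EI ι s w f :=
  (isProb_pi fun _ => h).nonneg fun T _ => hf T

lemma EI_mono (h : IsProb s w) {f g : (ι → α) → ℝ} (hf : ∀ T, f T ≤ g T) :
    EI ι s w f ≤ EI ι s w g :=
  (isProb_pi fun _ => h).mono fun T _ => hf T

lemma Sys.sq_le (h : Sys s w B J τA nA τB nB eA eB) {E : Finset ι} (hE : Disjoint J E) :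
    EI ι s w (fun T => FE B J τA τB eA eB E T ^ 2) ≤ (∏ i,
      ((((B i).filter (· ∈ E)).card : ℝ) ^ 2 * (Fintype.card LA) ^ 2 + (B i).card * ∑ a, nA a))
        * MB J nB := by
  rw [h.split]
  have h1 := FA_le (τ := τA) h.oA h.dB E
  exact mul_le_mul h1 (FB_le h.oB hE) (EI_nonneg h.oA.prob fun _ => sq_nonneg _)
    ((EI_nonneg h.oA.prob fun _ => sq_nonneg _).trans h1)

lemma Sys.m1 (h : Sys s w B J τA nA τB nB eA eB) :
    EI ι s w (fun T => FE B J τA τB eA eB ∅ T ^ 2) ≤ mm B J nA nB := by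
  simpa [mm] using h.sq_le (E := ∅) (by simp)

lemma Sys.m2 (h : Sys s w B J τA nA τB nB eA eB) {i₀ : κ} {j₀ : ι} (hj : j₀ ∈ B i₀)
    (ht : 4 * Fintype.card κ * ∑ a, τA a * nA a ≤ ∑ a, nA a)
    (ht' : J.card * ((∑ a, τB a * nB a) / (Fintype.card LB) ^ 2) ≤ 1 / 4) :
    (Fintype.card LA) ^ 2 / 4 * (∏ i ∈ univ.erase i₀, ((B i).card * ∑ a, nA a)) * MB J nB
      ≤ EI ι s w (fun T => FE B J τA τB eA eB {j₀} T ^ 2) := by
  rw [h.split]
  have h1 := FA_ge h.oA h.tA0 h.tA h.dB hj ht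
  have h2 := FB_ge (E := {j₀}) h.oB h.tB0 h.tB
    (disjoint_singleton_right.2 (disjoint_left.1 (h.dJ i₀) hj)) ht'
  have h3 := h.one_le_MB
  refine le_trans (le_of_eq ?_) (mul_le_mul h1 h2 (by unfold MB at h3; linarith)
    (EI_nonneg h.oA.prob fun _ => sq_nonneg _))
  unfold MB; ring

lemma Sys.m3 [Nonempty LB] (h : Sys s w B J τA nA τB nB eA eB) {j₀ : ι} (hj : j₀ ∈ J) :
    EI ι s w (fun T => FE B J τA τB eA eB {j₀} T ^ 2)
      ≤ 8 * (J.card * ((∑ a, τB a * nB a) / (Fintype.card LB) ^ 2)) * mm B J nA nB := by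
  rw [h.split]
  have h1 := FA_le (τ := τA) h.oA h.dB {j₀}
  have e : ∀ i, (B i).filter (· ∈ ({j₀} : Finset ι)) = ∅ := fun i =>
    filter_eq_empty_iff.2 fun j hj' e => disjoint_left.1 (h.dJ i) hj' ((mem_singleton.1 e) ▸ hj)
  simp only [e, card_empty, Nat.cast_zero, ne_eq, OfNat.ofNat_ne_zero, not_false_eq_true,
    zero_pow, zero_mul, zero_add] at h1
  refine (mul_le_mul h1 (FB_era h.oB h.tB0 h.tB hj) (EI_nonneg h.oA.prob fun _ => sq_nonneg _)
    ((EI_nonneg h.oA.prob fun _ => sq_nonneg _).trans h1)).trans (le_of_eq ?_)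
  unfold mm MB; ring

lemma Sys.m4 (h : Sys s w B J τA nA τB nB eA eB) {i₀ : κ} {j j' : ι} (hj : j ∈ B i₀)
    (hj' : j' ∈ B i₀) :
    EI ι s w (fun T => FE B J τA τB eA eB {j, j'} T ^ 2)
      ≤ (4 * (Fintype.card LA) ^ 2 + (B i₀).card * ∑ a, nA a) *
        (∏ i ∈ univ.erase i₀, ((B i).card * ∑ a, nA a)) * MB J nB := by
  have hs : ({j, j'} : Finset ι) ⊆ B i₀ := by simp [insert_subset_iff, hj, hj']
  refine (h.sq_le ((h.dJ i₀).symm.mono_right hs)).trans
    (mul_le_mul_of_nonneg_right ?_ (zero_le_one.trans h.one_le_MB))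
  have h2 : 0 ≤ ∑ a, nA a := sum_nonneg fun a _ => h.oA.nonneg a
  rw [← mul_prod_erase _ _ (mem_univ i₀)]
  refine mul_le_mul ?_ (le_of_eq (prod_congr rfl fun i hi => ?_))
    (prod_nonneg fun _ _ => by positivity) (by positivity)
  · have h3 : ((B i₀).filter (· ∈ ({j, j'} : Finset ι))).card ≤ 2 :=
      (card_le_card fun x hx => (mem_filter.1 hx).2).trans card_le_two
    have h4 : ((((B i₀).filter (· ∈ ({j, j'} : Finset ι))).card : ℕ) : ℝ) ^ 2 ≤ 2 ^ 2 :=
      pow_le_pow_left₀ (Nat.cast_nonneg _) (by exact_mod_cast h3) 2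
    nlinarith [sq_nonneg (Fintype.card LA : ℝ)]
  · have : (B i).filter (· ∈ ({j, j'} : Finset ι)) = ∅ :=
      filter_eq_empty_iff.2 fun x hx e => disjoint_left.1 (h.dB i i₀ (mem_erase.1 hi).1) hx (hs e)
    rw [this]; simp

lemma Sys.m5 (h : Sys s w B J τA nA τB nB eA eB) {Y : α → ℝ} (hA : ∀ x, ∑ a, |eA a x| ≤ Y x)
    (hB : ∀ x, ∑ a, |eB a x| ≤ Y x) {U : Finset ι} (hBU : ∀ i, B i ⊆ U) (hJU : J ⊆ U) :
    EI ι s w (fun T => FE B J τA τB eA eB ∅ T ^ 4) ≤ Ex s w (fun x => (1 + Y x) ^ 4) ^ U.card := by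
  have hY0 : ∀ x, 0 ≤ Y x := fun x => (sum_nonneg fun _ _ => abs_nonneg _).trans (hA x)
  have h1 : ∀ T, FE B J τA τB eA eB ∅ T ^ 4 ≤ ∏ j, if j ∈ U then (1 + Y (T j)) ^ 4 else 1 := by
    intro T
    rw [prod_ite_mem, univ_inter, prod_pow, ← Even.pow_abs (by decide)]
    refine pow_le_pow_left₀ (abs_nonneg _) ?_ 4
    unfold FE
    rw [abs_mul]
    refine (mul_le_mul (abs_FA_le hA T) (abs_FB_le hB T) (abs_nonneg _)
      (prod_nonneg fun _ _ => prod_nonneg fun j _ => by linarith [hY0 (T j)])).trans ?_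
    rw [← prod_biUnion fun i _ i' _ hi => h.dB i i' hi, ← prod_union
      ((disjoint_biUnion_left _ _ _).2 fun i _ => h.dJ i)]
    exact prod_le_prod_of_subset_of_one_le (union_subset (biUnion_subset.2 fun i _ => hBU i) hJU)
      (fun j _ => by linarith [hY0 (T j)]) fun j _ _ => by linarith [hY0 (T j)]
  refine (EI_mono h.oA.prob h1).trans (le_of_eq ?_)
  unfold EI
  rw [EE_prod (fun j x => if j ∈ U then (1 + Y x) ^ 4 else 1), ← prod_const, ← univ_inter U,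
    ← prod_ite_mem, univ_inter]
  refine prod_congr rfl fun j _ => ?_
  by_cases hj : j ∈ U
  · simp [hj]
  · simpa [hj] using h.oA.prob.const 1

lemma EI_era (h : IsProb s w) (j : ι) (g : α → ℝ) :
    EI ι s w (fun T => g (T j) * FE B J τA τB eA eB {j} T ^ 2)
      = Ex s w g * EI ι s w (fun T => FE B J τA τB eA eB {j} T ^ 2) := by
  unfold EI
  rw [EE_indep (fun _ => h) (U := {j}) disjoint_compl_right
    (fun T T' e => by simp only [e j (mem_singleton_self j)]) ((dep_FE {j}).comp (· ^ 2)),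
    EE_single fun _ => h]

lemma EI_era2 (h : IsProb s w) {j j' : ι} (hj : j ≠ j') (g : α → ℝ) :
    EI ι s w (fun T => g (T j) * g (T j') * FE B J τA τB eA eB {j, j'} T ^ 2)
      = Ex s w g ^ 2 * EI ι s w (fun T => FE B J τA τB eA eB {j, j'} T ^ 2) := by
  unfold EI
  rw [EE_indep (fun _ => h) (U := {j, j'}) disjoint_compl_right
    (f := fun T => g (T j) * g (T j'))
    (fun T T' e => by simp only [e j (by simp), e j' (by simp)]) ((dep_FE {j, j'}).comp (· ^ 2)),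
    EE_indep (fun _ => h) (U := {j}) (V := {j'}) (by simpa using hj)
    (fun T T' e => by simp only [e j (mem_singleton_self j)])
    (fun T T' e => by simp only [e j' (mem_singleton_self j')]),
    EE_single fun _ => h, EE_single fun _ => h, sq]

theorem Sys.main [Nonempty LB] [DecidableEq α] (h : Sys s w B J τA nA τB nB eA eB) {o : α}
    (hoA : ∀ a, eA a o = 1) (hoB : ∀ a, eB a o = 1) {χ : (ι → α) → ℝ} (hχ0 : ∀ T, 0 ≤ χ T)
    (hχ1 : ∀ T, χ T ≤ 1) {c₀ : ℝ} (hc1 : 1 ≤ c₀) (hc2 : c₀ ≤ 2) {𝒜 : α → ℝ} (h𝒜 : ∀ x, 0 ≤ 𝒜 x)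
    {a V η l₀ m : ℝ} (ha : Ex s w 𝒜 ≤ a) (hV : V ≤ Ex s w (fun x => if x = o then 1 else 0))
    (hV0 : 0 ≤ V) (hl : 0 ≤ l₀) (hm : 0 ≤ m) (hη0 : 0 ≤ η)
    (hη : EI ι s w (fun T => 1 - χ T) * EI ι s w (fun T => FE B J τA τB eA eB ∅ T ^ 4) ≤ η ^ 2)
    (hG : 0 < ∑ a, nA a) (ht : 4 * Fintype.card κ * ∑ a, τA a * nA a ≤ ∑ a, nA a)
    (ht' : J.card * ((∑ a, τB a * nB a) / (Fintype.card LB) ^ 2) ≤ 1 / 4)
    (hS : (2 * m + 3) * ∑ a, nA a ≤ l₀ * V * (Fintype.card LA) ^ 2 / 4 * Fintype.card κ)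
    (hB0 : (Fintype.card κ + 1) * (J.card * (2 * a) *
      (8 * (J.card * ((∑ a, τB a * nB a) / (Fintype.card LB) ^ 2)))) ≤ 1)
    (hP : ∀ i, (Fintype.card κ + 1) * Fintype.card κ * (2 * a ^ 2) * (B i).card *
      (4 * (Fintype.card LA) ^ 2 + (B i).card * ∑ a, nA a) ≤ ∑ a, nA a) :
    mm B J nA nB - l₀ * (∑ i, (B i).card) * η ≤
      l₀ * (∑ i, ∑ j ∈ B i, c₀ * EI ι s w (fun T => χ T *
          ((if T j = o then 1 else 0) * FE B J τA τB eA eB ∅ T ^ 2)))
        - m * (c₀ * EI ι s w (fun T => χ T * FE B J τA τB eA eB ∅ T ^ 2))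
        - (Fintype.card κ + 1) * ((∑ j ∈ J, c₀ * EI ι s w (fun T => χ T *
            (𝒜 (T j) * FE B J τA τB eA eB {j} T ^ 2)))
          + ∑ i, ∑ j ∈ B i, ∑ j' ∈ (B i).erase j, c₀ * EI ι s w (fun T => χ T *
            (𝒜 (T j) * 𝒜 (T j') * FE B J τA τB eA eB {j, j'} T ^ 2))) := by
  have hp := h.oA.prob
  have hMB := h.one_le_MB
  have hMB0 : 0 ≤ MB J nB := zero_le_one.trans hMB
  set G := ∑ a, nA a with hGdef
  set k : ℝ := ((Fintype.card κ : ℕ) : ℝ) with hk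
  set mA : ℝ := ((Fintype.card LA : ℕ) : ℝ) with hmA
  have hk0 : 0 ≤ k := Nat.cast_nonneg _
  have ha0 : 0 ≤ a := (hp.nonneg fun x _ => h𝒜 x).trans ha
  have hP0 : ∀ i, 0 ≤ ∏ i ∈ univ.erase i, ((B i).card * G) := fun i =>
    prod_nonneg fun _ _ => by positivity
  have hmm : ∀ i, mm B J nA nB
      = (B i).card * G * (∏ i ∈ univ.erase i, ((B i).card * G)) * MB J nB := fun i => by
    unfold mm
    rw [← mul_prod_erase _ _ (mem_univ i)]
  have hmm0 : 0 ≤ mm B J nA nB := mul_nonneg (prod_nonneg fun _ _ => by positivity) (by linarith)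
  have up : ∀ f : (ι → α) → ℝ, (∀ T, 0 ≤ f T) →
      c₀ * EI ι s w (fun T => χ T * f T) ≤ 2 * EI ι s w f := fun f hf =>
    mul_le_mul hc2 (EI_mono hp fun T => mul_le_of_le_one_left (hf T) (hχ1 T))
      (EI_nonneg hp fun T => mul_nonneg (hχ0 T) (hf T)) (by norm_num)
  have s1 : c₀ * EI ι s w (fun T => χ T * FE B J τA τB eA eB ∅ T ^ 2) ≤ 2 * mm B J nA nB :=
    (up _ fun _ => sq_nonneg _).trans (by linarith [h.m1])
  have s2 : ∀ i, ∀ j ∈ B i, V * (mA ^ 2 / 4 * (∏ i ∈ univ.erase i, ((B i).card * G)) * MB J nB) - η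
      ≤ c₀ * EI ι s w (fun T => χ T *
          ((if T j = o then 1 else 0) * FE B J τA τB eA eB ∅ T ^ 2)) := by
    intro i j hj
    refine le_trans ?_ (le_mul_of_one_le_left (EI_nonneg hp fun T => mul_nonneg (hχ0 T)
      (mul_nonneg (by split_ifs <;> norm_num) (sq_nonneg _))) hc1)
    have a1 : EI ι s w (fun T => (if T j = o then 1 else 0) * FE B J τA τB eA eB ∅ T ^ 2)
        = Ex s w (fun x => if x = o then 1 else 0)
          * EI ι s w (fun T => FE B J τA τB eA eB {j} T ^ 2) := by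
      rw [← EI_era hp]
      congr 1
      funext T
      split_ifs with hT
      · rw [FE_erase hoA hoB (E := {j}) fun j' hj' => by rw [mem_singleton.1 hj', hT]]
      · simp
    have a2 := mul_le_mul hV (h.m2 hj ht ht')
      (mul_nonneg (mul_nonneg (by positivity) (hP0 i)) hMB0) (hV0.trans hV)
    have a3 : EI ι s w (fun T => (1 - χ T) * FE B J τA τB eA eB ∅ T ^ 2) ≤ η := by
      refine (pow_le_pow_iff_left₀ (EI_nonneg hp fun T => mul_nonneg (by linarith [hχ1 T])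
        (sq_nonneg _)) hη0 two_ne_zero).1 (le_trans ?_ hη)
      refine ((isProb_pi fun _ => hp).cs _ _).trans (mul_le_mul (EI_mono hp fun T => ?_)
        (le_of_eq (Ex_congr fun T _ => by ring)) (EI_nonneg hp fun T => sq_nonneg _)
        (EI_nonneg hp fun T => by linarith [hχ1 T]))
      nlinarith [hχ0 T, hχ1 T]
    have a4 : EI ι s w (fun T => (if T j = o then 1 else 0) * FE B J τA τB eA eB ∅ T ^ 2)
        - EI ι s w (fun T => (1 - χ T) * FE B J τA τB eA eB ∅ T ^ 2)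
        ≤ EI ι s w (fun T => χ T * ((if T j = o then 1 else 0) * FE B J τA τB eA eB ∅ T ^ 2)) := by
      unfold EI EE
      rw [← Ex_sub]
      refine EI_mono hp fun T => ?_
      have := sq_nonneg (FE B J τA τB eA eB ∅ T)
      have := hχ1 T
      split_ifs <;> nlinarith
    linarith
  have s3 : ∀ j ∈ J, c₀ * EI ι s w (fun T => χ T * (𝒜 (T j) * FE B J τA τB eA eB {j} T ^ 2))
      ≤ 2 * a * (8 * (J.card * ((∑ a, τB a * nB a) / (Fintype.card LB) ^ 2)) * mm B J nA nB) := by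
    intro j hj
    refine (up _ fun T => mul_nonneg (h𝒜 _) (sq_nonneg _)).trans ?_
    rw [EI_era hp, mul_assoc]
    exact mul_le_mul_of_nonneg_left (mul_le_mul ha (h.m3 hj)
      (EI_nonneg hp fun T => sq_nonneg _) ha0) (by norm_num)
  have s4 : ∀ i, ∀ j ∈ B i, ∀ j' ∈ (B i).erase j, c₀ * EI ι s w (fun T => χ T *
      (𝒜 (T j) * 𝒜 (T j') * FE B J τA τB eA eB {j, j'} T ^ 2))
      ≤ 2 * a ^ 2 * ((4 * mA ^ 2 + (B i).card * G) *
        (∏ i ∈ univ.erase i, ((B i).card * G)) * MB J nB) := by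
    intro i j hj j' hj'
    refine (up _ fun T => mul_nonneg (mul_nonneg (h𝒜 _) (h𝒜 _)) (sq_nonneg _)).trans ?_
    rw [EI_era2 hp (mem_erase.1 hj').1.symm, mul_assoc]
    exact mul_le_mul_of_nonneg_left (mul_le_mul
      (pow_le_pow_left₀ (hp.nonneg fun x _ => h𝒜 x) ha 2) (h.m4 hj (mem_erase.1 hj').2)
      (EI_nonneg hp fun T => sq_nonneg _) (sq_nonneg _)) (by norm_num)
  have t2 : (2 * m + 3) * mm B J nA nB - l₀ * (∑ i, (B i).card) * η
      ≤ l₀ * (∑ i, ∑ j ∈ B i, c₀ * EI ι s w (fun T => χ T *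
          ((if T j = o then 1 else 0) * FE B J τA τB eA eB ∅ T ^ 2))) := by
    refine le_trans ?_ (mul_le_mul_of_nonneg_left
      (sum_le_sum fun i _ => sum_le_sum fun j hj => s2 i j hj) hl)
    simp only [sum_const, nsmul_eq_mul, mul_sub, sum_sub_distrib]
    have b1 : ∀ i, (B i).card * (V * (mA ^ 2 / 4 * (∏ i ∈ univ.erase i, ((B i).card * G)) * MB J nB))
        = V * mA ^ 2 / 4 * (mm B J nA nB / G) := fun i => by
      rw [hmm i]
      generalize (∏ i ∈ univ.erase i, (((B i).card : ℝ) * G)) = P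
      field_simp
    simp only [b1, sum_const, card_univ, nsmul_eq_mul, ← sum_mul]
    have b2 := mul_le_mul_of_nonneg_right hS (div_nonneg hmm0 hG.le)
    rw [mul_assoc, mul_div_cancel₀ _ hG.ne'] at b2
    push_cast
    nlinarith
  have t3 : (k + 1) * ∑ j ∈ J, c₀ * EI ι s w (fun T => χ T *
      (𝒜 (T j) * FE B J τA τB eA eB {j} T ^ 2)) ≤ mm B J nA nB := by
    refine (mul_le_mul_of_nonneg_left (sum_le_sum s3) (by linarith)).trans ?_
    rw [sum_const, nsmul_eq_mul]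
    have := mul_le_mul_of_nonneg_right hB0 hmm0
    nlinarith
  have t4 : (k + 1) * ∑ i, ∑ j ∈ B i, ∑ j' ∈ (B i).erase j, c₀ * EI ι s w (fun T => χ T *
      (𝒜 (T j) * 𝒜 (T j') * FE B J τA τB eA eB {j, j'} T ^ 2)) ≤ mm B J nA nB := by
    have b1 : ∀ i, (k + 1) * ∑ j ∈ B i, ∑ j' ∈ (B i).erase j, c₀ * EI ι s w (fun T => χ T *
        (𝒜 (T j) * 𝒜 (T j') * FE B J τA τB eA eB {j, j'} T ^ 2)) ≤ mm B J nA nB / k := by
      intro i
      have hk1 : 0 < k := by
        rw [hk]; exact_mod_cast Fintype.card_pos_iff.2 ⟨i⟩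
      set Z := 2 * a ^ 2 * ((4 * mA ^ 2 + (B i).card * G) *
        (∏ i ∈ univ.erase i, ((B i).card * G)) * MB J nB) with hZ
      have hZ0 : 0 ≤ Z := mul_nonneg (by positivity)
        (mul_nonneg (mul_nonneg (by positivity) (hP0 i)) hMB0)
      have c1 : ∑ j ∈ B i, ∑ j' ∈ (B i).erase j, c₀ * EI ι s w (fun T => χ T *
          (𝒜 (T j) * 𝒜 (T j') * FE B J τA τB eA eB {j, j'} T ^ 2))
          ≤ (B i).card * ((B i).card * Z) := by
        rw [← nsmul_eq_mul]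
        refine sum_le_card_nsmul _ _ _ fun j hj => (sum_le_sum (s4 i j hj)).trans ?_
        rw [sum_const, nsmul_eq_mul]
        exact mul_le_mul_of_nonneg_right (by exact_mod_cast card_erase_le) hZ0
      refine (mul_le_mul_of_nonneg_left c1 (by linarith)).trans ?_
      rw [le_div_iff₀ hk1, hmm i, hZ]
      have c2 := mul_le_mul_of_nonneg_right (hP i) (show 0 ≤ (B i).card *
        ((∏ i ∈ univ.erase i, ((B i).card * G)) * MB J nB) from
          mul_nonneg (Nat.cast_nonneg _) (mul_nonneg (hP0 i) hMB0))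
      nlinarith
    rw [mul_sum]
    refine (sum_le_sum fun i _ => b1 i).trans ?_
    rw [sum_const, card_univ, nsmul_eq_mul, ← hk]
    rcases hk0.eq_or_lt with h0 | h0
    · rw [← h0, zero_mul]; exact hmm0
    · rw [mul_div_cancel₀ _ h0.ne']
  have t1 := mul_le_mul_of_nonneg_left s1 hm
  rw [mul_add]
  linarith

end Pool.Agent.Work.MP_51e72e_nt.PP
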