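import Pool.Agent.Work.MP_51e72e_nt.PPProd

/-!
Second moments of truncated multilinear forms in orthogonal systems.
-/

set_option autoImplicit false
set_option linter.unusedSectionVars false

namespace Pool.Agent.Work.MP_51e72e_nt.PP

open Finset

section kernel

variable {κ L : Type*} [Fintype κ] [DecidableEq κ] [Fintype L] [DecidableEq L]

/-- admissible label vectors -/
noncomputable def adm (κ : Type*) [Fintype κ] [DecidableEq κ] {L : Type*} [Fintype L]
    (τ : L → ℝ) : Finset (κ → L) := univ.filter fun r => ∑ i, τ (r i) ≤ 1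

lemma ker_le (τ : L → ℝ) (K : κ → L → L → ℝ) (hK : ∀ i a a', 0 ≤ K i a a') :
    ∑ r ∈ adm κ τ, ∑ r' ∈ adm κ τ, ∏ i, K i (r i) (r' i) ≤ ∏ i, ∑ a, ∑ a', K i a a' := by
  rw [← sum_sum_prod]
  have h0 : ∀ r r' : κ → L, 0 ≤ ∏ i, K i (r i) (r' i) := fun r r' => prod_nonneg fun i _ => hK _ _ _
  refine (sum_le_sum fun r _ => sum_le_sum_of_subset_of_nonneg (subset_univ _)
    fun r' _ _ => h0 r r').trans
    (sum_le_sum_of_subset_of_nonneg (subset_univ _) fun r _ _ => sum_nonneg fun r' _ => h0 r r')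

lemma markov_sum (τ : L → ℝ) (K : κ → L → L → ℝ) (hK : ∀ i a a', 0 ≤ K i a a') (I : Finset κ)
    (θ : κ → ℝ) (hθ : ∀ i ∈ I, ∑ a, ∑ a', τ a * K i a a' ≤ θ i * ∑ a, ∑ a', K i a a') :
    ∑ r : κ → L, ∑ r' : κ → L, (∑ i ∈ I, τ (r i)) * ∏ i, K i (r i) (r' i)
      ≤ (∑ i ∈ I, θ i) * ∏ i, ∑ a, ∑ a', K i a a' := by
  simp_rw [sum_mul]
  rw [sum_congr rfl fun r _ => sum_comm, sum_comm]
  refine sum_le_sum fun i hi => ?_
  rw [sum_sum_mul_prod, ← mul_prod_erase _ _ (mem_univ i), ← mul_assoc]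
  exact mul_le_mul_of_nonneg_right (hθ i hi)
    (prod_nonneg fun i _ => sum_nonneg fun a _ => sum_nonneg fun a' _ => hK _ _ _)

lemma mem_adm_of {τ : L → ℝ} (hτ : ∀ a, τ a ≤ 1 / 2) {I₀ : Finset κ} (hI : I₀.card ≤ 1)
    {r r' : κ → L} (h : ∑ i ∈ I₀ᶜ, τ (r i) ≤ 1 / 2) (e : ∀ i ∉ I₀, r i = r' i) :
    r' ∈ adm κ τ := by
  refine mem_filter.2 ⟨mem_univ _, ?_⟩
  rw [← sum_add_sum_compl I₀]
  have h1 : ∑ i ∈ I₀, τ (r' i) ≤ I₀.card • (1 / 2 : ℝ) := sum_le_card_nsmul _ _ _ fun i _ => hτ _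
  have h2 : (I₀.card : ℝ) ≤ 1 := by exact_mod_cast hI
  rw [nsmul_eq_mul] at h1
  have h3 : ∑ i ∈ I₀ᶜ, τ (r' i) = ∑ i ∈ I₀ᶜ, τ (r i) :=
    sum_congr rfl fun i hi => by rw [e i (mem_compl.1 hi)]
  linarith

lemma sum_adm_eq (τ : L → ℝ) (f : (κ → L) → (κ → L) → ℝ) :
    ∑ r ∈ adm κ τ, ∑ r' ∈ adm κ τ, f r r'
      = ∑ r, ∑ r', if r ∈ adm κ τ ∧ r' ∈ adm κ τ then f r r' else 0 := by
  classical
  rw [← sum_subset (subset_univ (adm κ τ)) fun r _ hr => by simp [hr]]
  refine sum_congr rfl fun r hr => ?_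
  rw [← sum_subset (subset_univ (adm κ τ)) fun r' _ hr' => by simp [hr']]
  exact sum_congr rfl fun r' hr' => by simp [hr, hr']

lemma ker_ge {τ : L → ℝ} (hτ0 : ∀ a, 0 ≤ τ a) (hτ : ∀ a, τ a ≤ 1 / 2) (K K' : κ → L → L → ℝ)
    (hK' : ∀ i a a', 0 ≤ K' i a a') (hKK : ∀ i a a', K' i a a' ≤ K i a a')
    {I₀ : Finset κ} (hI : I₀.card ≤ 1) (hd : ∀ i ∉ I₀, ∀ a a', a ≠ a' → K' i a a' = 0)
    (θ : κ → ℝ) (hθ : ∀ i ∈ I₀ᶜ, ∑ a, ∑ a', τ a * K' i a a' ≤ θ i * ∑ a, ∑ a', K' i a a')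
    (hθ1 : ∑ i ∈ I₀ᶜ, θ i ≤ 1 / 4) :
    (1 / 2) * ∏ i, ∑ a, ∑ a', K' i a a'
      ≤ ∑ r ∈ adm κ τ, ∑ r' ∈ adm κ τ, ∏ i, K i (r i) (r' i) := by
  classical
  have h1 := markov_sum τ K' hK' I₀ᶜ θ hθ
  have h2 := sum_sum_prod K'
  have h0 : 0 ≤ ∏ i, ∑ a, ∑ a', K' i a a' :=
    prod_nonneg fun i _ => sum_nonneg fun a _ => sum_nonneg fun a' _ => hK' _ _ _
  have h3 : ∑ r : κ → L, ∑ r' : κ → L, (∏ i, K' i (r i) (r' i)
      - 2 * ((∑ i ∈ I₀ᶜ, τ (r i)) * ∏ i, K' i (r i) (r' i)))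
      ≤ ∑ r ∈ adm κ τ, ∑ r' ∈ adm κ τ, ∏ i, K i (r i) (r' i) := by
    rw [sum_adm_eq]
    refine sum_le_sum fun r _ => sum_le_sum fun r' _ => ?_
    have a0 : 0 ≤ ∏ i, K' i (r i) (r' i) := prod_nonneg fun i _ => hK' _ _ _
    have a1 : ∏ i, K' i (r i) (r' i) ≤ ∏ i, K i (r i) (r' i) :=
      prod_le_prod (fun i _ => hK' _ _ _) fun i _ => hKK _ _ _
    have a2 : 0 ≤ ∑ i ∈ I₀ᶜ, τ (r i) := sum_nonneg fun i _ => hτ0 _
    split_ifs with h
    · nlinarith
    · by_cases h4 : ∑ i ∈ I₀ᶜ, τ (r i) ≤ 1 / 2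
      · by_cases h5 : ∀ i ∉ I₀, r i = r' i
        · exact absurd ⟨mem_adm_of hτ hI h4 fun _ _ => rfl, mem_adm_of hτ hI h4 h5⟩ h
        · push Not at h5
          obtain ⟨i, hi, h5⟩ := h5
          rw [prod_eq_zero (mem_univ i) (hd i hi _ _ h5)]
          simp
      · nlinarith
  simp only [sum_sub_distrib] at h3
  rw [sum_congr rfl fun r _ => (mul_sum _ _ (2 : ℝ)).symm, ← mul_sum] at h3
  nlinarith

lemma ker_cancel {τ : L → ℝ} (hτ0 : ∀ a, 0 ≤ τ a) (hτ : ∀ a, τ a ≤ 1 / 2) (K : κ → L → L → ℝ)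
    (i₀ : κ) (h0 : ∀ a, ∑ a', K i₀ a a' = 0) (hd : ∀ i ≠ i₀, ∀ a a', a ≠ a' → K i a a' = 0)
    (θ : κ → ℝ)
    (hθ : ∀ i ∈ ({i₀} : Finset κ)ᶜ, ∑ a, ∑ a', τ a * |K i a a'| ≤ θ i * ∑ a, ∑ a', |K i a a'|) :
    ∑ r ∈ adm κ τ, ∑ r' ∈ adm κ τ, ∏ i, K i (r i) (r' i)
      ≤ 2 * ((∑ i ∈ ({i₀} : Finset κ)ᶜ, θ i) * ∏ i, ∑ a, ∑ a', |K i a a'|) := by
  classical
  have h1 := markov_sum τ (fun i a a' => |K i a a'|) (fun _ _ _ => abs_nonneg _) _ θ hθ
  refine le_trans ?_ (mul_le_mul_of_nonneg_left h1 (by norm_num))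
  rw [sum_adm_eq, mul_sum]
  refine sum_le_sum fun r _ => ?_
  by_cases h4 : ∑ i ∈ ({i₀} : Finset κ)ᶜ, τ (r i) ≤ 1 / 2
  · have e : ∀ r' : κ → L, (if r ∈ adm κ τ ∧ r' ∈ adm κ τ then ∏ i, K i (r i) (r' i) else 0)
        = ∏ i, K i (r i) (r' i) := by
      intro r'
      split_ifs with h
      · rfl
      · by_cases h5 : ∀ i ∉ ({i₀} : Finset κ), r i = r' i
        · exact absurd ⟨mem_adm_of hτ (by simp) h4 fun _ _ => rfl, mem_adm_of hτ (by simp) h4 h5⟩ h
        · push Not at h5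
          obtain ⟨i, hi, h5⟩ := h5
          rw [prod_eq_zero (mem_univ i) (hd i (by simpa using hi) _ _ h5)]
    simp_rw [e]
    rw [← Fintype.prod_sum (fun i a' => K i (r i) a'), prod_eq_zero (mem_univ i₀) (h0 _)]
    exact mul_nonneg (by norm_num) (sum_nonneg fun r' _ => mul_nonneg
      (sum_nonneg fun i _ => hτ0 _) (prod_nonneg fun i _ => abs_nonneg _))
  · rw [mul_sum]
    refine sum_le_sum fun r' _ => ?_
    have a0 : 0 ≤ ∏ i, |K i (r i) (r' i)| := prod_nonneg fun i _ => abs_nonneg _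
    have a1 : ∏ i, K i (r i) (r' i) ≤ ∏ i, |K i (r i) (r' i)| := by
      rw [← abs_prod]; exact le_abs_self _
    split_ifs <;> nlinarith

end kernel

section model

variable {ι α κ L : Type*} [Fintype ι] [DecidableEq ι] [Fintype κ] [DecidableEq κ] [Fintype L]
  [DecidableEq L] {s : Finset α} {w : α → ℝ}

/-- expectation over independent copies -/
noncomputable abbrev EI (ι : Type*) [Fintype ι] [DecidableEq ι] (s : Finset α) (w : α → ℝ)
    (f : (ι → α) → ℝ) : ℝ := EE (fun _ : ι => s) (fun _ => w) f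

lemma gram (h : IsProb s w) (R : Finset (κ → L)) (U : κ → Finset ι)
    (hU : ∀ i i', i ≠ i' → Disjoint (U i) (U i')) (X : κ → L → (ι → α) → ℝ)
    (hX : ∀ i a, Dep (U i) (X i a)) :
    EI ι s w (fun T => (∑ r ∈ R, ∏ i, X i (r i) T) ^ 2)
      = ∑ r ∈ R, ∑ r' ∈ R, ∏ i, EI ι s w (fun T => X i (r i) T * X i (r' i) T) := by
  simp_rw [sq, sum_mul_sum, ← prod_mul_distrib]
  unfold EI EE
  rw [Ex_sum]
  refine sum_congr rfl fun r _ => ?_
  rw [Ex_sum]
  refine sum_congr rfl fun r' _ => ?_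
  exact EE_indep_prod (fun _ => h) univ U (fun i _ i' _ => hU i i') _
    fun i _ => (hX _ _).mul (hX _ _)

/-- an orthogonal system of mean zero functions with squared norms `n` -/
structure Orth (s : Finset α) (w : α → ℝ) (e : L → α → ℝ) (n : L → ℝ) : Prop where
  prob : IsProb s w
  mean : ∀ a, Ex s w (e a) = 0
  gram : ∀ a a', Ex s w (fun x => e a x * e a' x) = if a = a' then n a else 0

variable {e : L → α → ℝ} {n τ : L → ℝ}

lemma Orth.nonneg (h : Orth s w e n) (a : L) : 0 ≤ n a := by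
  have := h.gram a a
  rw [if_pos rfl] at this
  rw [← this]
  exact h.prob.nonneg fun x _ => mul_self_nonneg _

/-- the system with the coordinates in `E` replaced by the constant `1` -/
noncomputable def er (E : Finset ι) (e : L → α → ℝ) (j : ι) (a : L) (x : α) : ℝ :=
  if j ∈ E then 1 else e a x

/-- the form attached to blocks of coordinates -/
noncomputable def FA (B : κ → Finset ι) (τ : L → ℝ) (ε : ι → L → α → ℝ) (T : ι → α) : ℝ :=
  ∑ r ∈ adm κ τ, ∏ i, ∑ j ∈ B i, ε j (r i) (T j)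

/-- the factors of the cancelling form -/
noncomputable def xb (J : Finset ι) (ε : ι → L → α → ℝ) (j : ι) : Option L → α → ℝ
  | none => fun _ => 1
  | some a => fun x => if j ∈ J then -(ε j a x) / Fintype.card L else 0

/-- the cancelling form -/
noncomputable def FB (J : Finset ι) (τ : L → ℝ) (ε : ι → L → α → ℝ) (T : ι → α) : ℝ :=
  ∑ σ ∈ adm ι (fun o : Option L => o.elim 0 τ), ∏ j, xb J ε j (σ j) (T j)

lemma kerA (h : Orth s w e n) (E U : Finset ι) (a a' : L) :
    EI ι s w (fun T => (∑ j ∈ U, er E e j a (T j)) * ∑ j ∈ U, er E e j a' (T j))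
      = ((U.filter (· ∈ E)).card : ℝ) ^ 2
        + if a = a' then (U.filter (· ∉ E)).card * n a else 0 := by
  have key : ∀ j j', EI ι s w (fun T => er E e j a (T j) * er E e j' a' (T j'))
      = (if j ∈ E then 1 else 0) * (if j' ∈ E then 1 else 0)
        + if j = j' then (if j ∉ E then (if a = a' then n a else 0) else 0) else 0 := by
    intro j j'
    have hm : ∀ j a, Ex s w (er E e j a) = if j ∈ E then 1 else 0 := by
      intro j a
      unfold er
      split_ifs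
      exacts [h.prob.const 1, h.mean a]
    by_cases hj : j = j'
    · subst hj
      unfold EI
      rw [EE_single (fun _ => h.prob) j (fun x => er E e j a x * er E e j a' x)]
      unfold er
      by_cases hE : j ∈ E
      · simpa [hE] using h.prob.const 1
      · simpa [hE] using h.gram a a'
    · unfold EI
      rw [EE_indep (fun _ => h.prob) (U := {j}) (V := {j'}) (by simpa using hj)
        (fun T T' e => by simp only [e j (mem_singleton_self j)])
        (fun T T' e => by simp only [e j' (mem_singleton_self j')]),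
        EE_single (fun _ => h.prob), EE_single (fun _ => h.prob), hm, hm]
      simp [hj]
  simp_rw [sum_mul_sum]
  unfold EI EE at key ⊢
  rw [Ex_sum]
  simp_rw [Ex_sum, key, sum_add_distrib]
  congr 1
  · rw [← sum_mul_sum, sum_boole, sq]
  · rw [sum_congr rfl fun j hj => by rw [sum_ite_eq, if_pos hj], ← sum_filter, sum_const,
      nsmul_eq_mul]
    split_ifs <;> simp

lemma dep_FA (B : κ → Finset ι) (τ : L → ℝ) (ε : ι → L → α → ℝ) :
    Dep (univ.biUnion B) (FA B τ ε) := fun T T' h =>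
  sum_congr rfl fun r _ => prod_congr rfl fun i _ => sum_congr rfl fun j hj => by
    rw [h j (mem_biUnion.2 ⟨i, mem_univ _, hj⟩)]

lemma dep_FB (J : Finset ι) (τ : L → ℝ) (ε : ι → L → α → ℝ) : Dep J (FB J τ ε) := fun T T' h =>
  sum_congr rfl fun σ _ => prod_congr rfl fun j _ => by
    cases σ j with
    | none => rfl
    | some a =>
      unfold xb
      by_cases hj : j ∈ J
      · simp only [h j hj]
      · simp only [hj, if_false]

lemma FA_sq (h : Orth s w e n) {B : κ → Finset ι} (hB : ∀ i i', i ≠ i' → Disjoint (B i) (B i'))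
    (E : Finset ι) :
    EI ι s w (fun T => FA B τ (er E e) T ^ 2) = ∑ r ∈ adm κ τ, ∑ r' ∈ adm κ τ, ∏ i,
      ((((B i).filter (· ∈ E)).card : ℝ) ^ 2
        + if r i = r' i then ((B i).filter (· ∉ E)).card * n (r i) else 0) := by
  unfold FA
  rw [gram h.prob _ B hB (fun i a T => ∑ j ∈ B i, er E e j a (T j))
    fun i a T T' e => sum_congr rfl fun j hj => by rw [e j hj]]
  simp_rw [kerA h]

lemma FA_le (h : Orth s w e n) {B : κ → Finset ι} (hB : ∀ i i', i ≠ i' → Disjoint (B i) (B i'))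
    (E : Finset ι) :
    EI ι s w (fun T => FA B τ (er E e) T ^ 2) ≤ ∏ i,
      ((((B i).filter (· ∈ E)).card : ℝ) ^ 2 * (Fintype.card L) ^ 2 + (B i).card * ∑ a, n a) := by
  rw [FA_sq h hB]
  have hn := h.nonneg
  refine (ker_le τ (fun i a a' => (((B i).filter (· ∈ E)).card : ℝ) ^ 2
    + if a = a' then ((B i).filter (· ∉ E)).card * n a else 0) fun i a a' => ?_).trans ?_
  · have := hn a
    split_ifs <;> positivity
  refine prod_le_prod (fun i _ => sum_nonneg fun a _ => sum_nonneg fun a' _ => ?_) fun i _ => ?_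
  · have := hn a
    split_ifs <;> positivity
  simp only [sum_add_distrib, sum_ite_eq, mem_univ, if_true, sum_const, card_univ, nsmul_eq_mul,
    ← mul_sum]
  have : (((B i).filter (· ∉ E)).card : ℝ) ≤ (B i).card := by exact_mod_cast card_filter_le _ _
  have h2 : 0 ≤ ∑ a, n a := sum_nonneg fun a _ => hn a
  nlinarith

lemma FA_ge (h : Orth s w e n) (hτ0 : ∀ a, 0 ≤ τ a) (hτ : ∀ a, τ a ≤ 1 / 2) {B : κ → Finset ι}
    (hB : ∀ i i', i ≠ i' → Disjoint (B i) (B i')) {i₀ : κ} {j₀ : ι} (hj : j₀ ∈ B i₀)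
    (ht : 4 * Fintype.card κ * ∑ a, τ a * n a ≤ ∑ a, n a) :
    (1 / 2) * (Fintype.card L) ^ 2 * ∏ i ∈ univ.erase i₀, ((B i).card * ∑ a, n a)
      ≤ EI ι s w (fun T => FA B τ (er {j₀} e) T ^ 2) := by
  rw [FA_sq h hB]
  have hn := h.nonneg
  have hk : (0 : ℝ) < Fintype.card κ := by exact_mod_cast Fintype.card_pos_iff.2 ⟨i₀⟩
  refine le_trans (le_of_eq ?_) (ker_ge hτ0 hτ
    (fun i a a' => (((B i).filter (· ∈ ({j₀} : Finset ι))).card : ℝ) ^ 2
      + if a = a' then ((B i).filter (· ∉ ({j₀} : Finset ι))).card * n a else 0)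
    (fun i a a' => if i = i₀ then 1 else if a = a' then (B i).card * n a else 0)
    (fun i a a' => ?_) (fun i a a' => ?_) (I₀ := {i₀}) (by simp) (fun i hi a a' ha => ?_)
    (fun _ => 1 / (4 * Fintype.card κ)) (fun i hi => ?_) ?_)
  · rw [← mul_prod_erase _ _ (mem_univ i₀), mul_assoc]
    congr 2
    · simp [sq]
    · refine prod_congr rfl fun i hi => ?_
      simp [(mem_erase.1 hi).1, mul_sum]
  · have := hn a
    split_ifs <;> positivity
  · have := hn a
    by_cases hi : i = i₀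
    · subst hi
      have : (B i).filter (· ∈ ({j₀} : Finset ι)) = {j₀} := by
        ext j; simp only [mem_filter, mem_singleton]
        exact ⟨fun h => h.2, fun h => ⟨h ▸ hj, h⟩⟩
      rw [this]
      simp only [if_true, card_singleton, Nat.cast_one, one_pow, le_add_iff_nonneg_right]
      split_ifs <;> positivity
    · have : (B i).filter (· ∉ ({j₀} : Finset ι)) = B i := filter_true_of_mem fun j hj' e =>
        disjoint_left.1 (hB i i₀ hi) hj' ((mem_singleton.1 e) ▸ hj)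
      rw [this, if_neg hi]
      exact le_add_of_nonneg_left (sq_nonneg _)
  · simp only [mem_singleton] at hi
    simp [hi, ha]
  · simp only [mem_compl, mem_singleton] at hi
    simp only [hi, if_false, mul_ite, mul_zero, sum_ite_eq, mem_univ, if_true, ← mul_sum]
    rw [sum_congr rfl fun a _ => mul_left_comm _ _ _, ← mul_sum, mul_left_comm]
    refine mul_le_mul_of_nonneg_left ?_ (Nat.cast_nonneg _)
    rw [one_div, ← div_eq_inv_mul, le_div_iff₀ (by positivity)]
    linarith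
  · rw [sum_const, nsmul_eq_mul]
    have : ((({i₀} : Finset κ)ᶜ.card : ℕ) : ℝ) ≤ Fintype.card κ := by
      exact_mod_cast card_le_univ _
    rw [mul_one_div, div_le_iff₀ (by positivity)]
    linarith

/-- squared norms of the factors of the cancelling form -/
noncomputable def nb (J : Finset ι) (n : L → ℝ) (j : ι) : Option L → ℝ
  | none => 1
  | some a => if j ∈ J then n a / (Fintype.card L) ^ 2 else 0

lemma FB_sq (h : IsProb s w) (J : Finset ι) (ε : ι → L → α → ℝ) :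
    EI ι s w (fun T => FB J τ ε T ^ 2) = ∑ σ ∈ adm ι (fun o : Option L => o.elim 0 τ),
      ∑ σ' ∈ adm ι (fun o : Option L => o.elim 0 τ), ∏ j,
        Ex s w (fun x => xb J ε j (σ j) x * xb J ε j (σ' j) x) := by
  unfold FB
  rw [gram h _ (fun j => {j}) (fun i i' hi => by simpa using hi)
    (fun j o T => xb J ε j o (T j)) fun j o T T' e => by simp only [e j (mem_singleton_self j)]]
  refine sum_congr rfl fun σ _ => sum_congr rfl fun σ' _ => prod_congr rfl fun j _ => ?_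
  exact EE_single (fun _ => h) j (fun x => xb J ε j (σ j) x * xb J ε j (σ' j) x)

lemma kerB (h : Orth s w e n) (E J : Finset ι) {j : ι} (hj : j ∈ J → j ∉ E) (o o' : Option L) :
    Ex s w (fun x => xb J (er E e) j o x * xb J (er E e) j o' x)
      = if o = o' then nb J n j o else 0 := by
  by_cases hJ : j ∈ J
  · have hE := hj hJ
    have hm : ∀ a, Ex s w (fun x => -e a x / Fintype.card L) = 0 := fun a => by
      rw [Ex_congr (g := fun x => (-1 / Fintype.card L) * e a x) fun x _ => by ring, Ex_smul,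
        h.mean, mul_zero]
    cases o <;> cases o' <;> simp only [xb, nb, er, hJ, hE, if_true, if_false, mul_one, one_mul,
      reduceCtorEq, Option.some.injEq]
    · exact h.prob.const 1
    · exact hm _
    · exact hm _
    · rename_i a a'
      rw [Ex_congr (g := fun x => (1 / (Fintype.card L) ^ 2) * (e a x * e a' x))
        fun x _ => by ring, Ex_smul, h.gram]
      split_ifs <;> ring
  · cases o <;> cases o' <;> simp [xb, nb, hJ, h.prob.const]

lemma nb_nonneg (h : Orth s w e n) (J : Finset ι) (j : ι) (o : Option L) : 0 ≤ nb J n j o := by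
  cases o with
  | none => exact zero_le_one
  | some a =>
    have := h.nonneg a
    unfold nb
    split_ifs <;> positivity

lemma sum_nb (J : Finset ι) (j : ι) :
    ∑ o, nb J n j o = if j ∈ J then 1 + (∑ a, n a) / (Fintype.card L) ^ 2 else 1 := by
  rw [Fintype.sum_option]
  by_cases hj : j ∈ J <;> simp [nb, hj, sum_div]

lemma sum_tau_nb (J : Finset ι) (j : ι) :
    ∑ o : Option L, o.elim 0 τ * nb J n j o
      = if j ∈ J then (∑ a, τ a * n a) / (Fintype.card L) ^ 2 else 0 := by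
  rw [Fintype.sum_option]
  by_cases hj : j ∈ J <;> simp [nb, hj, sum_div, mul_div_assoc]

lemma prod_sum_nb (J : Finset ι) :
    ∏ j, ∑ o, nb J n j o = (1 + (∑ a, n a) / (Fintype.card L) ^ 2) ^ J.card := by
  simp_rw [sum_nb]
  rw [prod_ite_mem, univ_inter, prod_const]

lemma FB_le (h : Orth s w e n) {E J : Finset ι} (hEJ : Disjoint J E) :
    EI ι s w (fun T => FB J τ (er E e) T ^ 2)
      ≤ (1 + (∑ a, n a) / (Fintype.card L) ^ 2) ^ J.card := by
  rw [FB_sq h.prob]
  simp_rw [fun j => kerB h E J (j := j) fun hj => disjoint_left.1 hEJ hj]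
  refine (ker_le _ (fun j o o' => if o = o' then nb J n j o else 0) fun j o o' => ?_).trans ?_
  · split_ifs
    exacts [nb_nonneg h _ _ _, le_rfl]
  · simp only [sum_ite_eq, mem_univ, if_true]
    rw [prod_sum_nb]

lemma elim_nonneg (hτ0 : ∀ a, 0 ≤ τ a) (o : Option L) : 0 ≤ o.elim 0 τ := by
  cases o
  exacts [le_rfl, hτ0 _]

lemma elim_le (hτ : ∀ a, τ a ≤ 1 / 2) (o : Option L) : o.elim 0 τ ≤ 1 / 2 := by
  cases o
  exacts [by norm_num, hτ _]

lemma theta_nb (h : Orth s w e n) (hτ0 : ∀ a, 0 ≤ τ a) (J : Finset ι) (j : ι) :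
    ∑ o : Option L, o.elim 0 τ * nb J n j o
      ≤ (if j ∈ J then (∑ a, τ a * n a) / (Fintype.card L) ^ 2 else 0) * ∑ o, nb J n j o := by
  rw [sum_tau_nb, sum_nb]
  have h1 : 0 ≤ ∑ a, τ a * n a := sum_nonneg fun a _ => mul_nonneg (hτ0 a) (h.nonneg a)
  have h2 : 0 ≤ ∑ a, n a := sum_nonneg fun a _ => h.nonneg a
  split_ifs
  · exact le_mul_of_one_le_right (by positivity) (le_add_of_nonneg_right (by positivity))
  · simp

lemma FB_ge (h : Orth s w e n) (hτ0 : ∀ a, 0 ≤ τ a) (hτ : ∀ a, τ a ≤ 1 / 2) {E J : Finset ι}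
    (hEJ : Disjoint J E) (ht : J.card * ((∑ a, τ a * n a) / (Fintype.card L) ^ 2) ≤ 1 / 4) :
    (1 / 2) * (1 + (∑ a, n a) / (Fintype.card L) ^ 2) ^ J.card
      ≤ EI ι s w (fun T => FB J τ (er E e) T ^ 2) := by
  rw [FB_sq h.prob]
  simp_rw [fun j => kerB h E J (j := j) fun hj => disjoint_left.1 hEJ hj]
  refine le_trans (le_of_eq ?_) (ker_ge (elim_nonneg hτ0) (elim_le hτ)
    (fun j o o' => if o = o' then nb J n j o else 0)
    (fun j o o' => if o = o' then nb J n j o else 0) (fun j o o' => ?_) (fun _ _ _ => le_rfl)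
    (I₀ := ∅) (by simp) (fun _ _ o o' ho => if_neg ho)
    (fun j => if j ∈ J then (∑ a, τ a * n a) / (Fintype.card L) ^ 2 else 0) (fun j _ => ?_) ?_)
  · simp only [sum_ite_eq, mem_univ, if_true]
    rw [prod_sum_nb]
  · split_ifs
    exacts [nb_nonneg h _ _ _, le_rfl]
  · simp only [mul_ite, mul_zero, sum_ite_eq, mem_univ, if_true]
    exact theta_nb h hτ0 J j
  · rw [compl_empty, sum_ite_mem, univ_inter, sum_const, nsmul_eq_mul]
    exact ht

lemma FB_era [Nonempty L] (h : Orth s w e n) (hτ0 : ∀ a, 0 ≤ τ a) (hτ : ∀ a, τ a ≤ 1 / 2)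
    {J : Finset ι} {j₀ : ι} (hj : j₀ ∈ J) :
    EI ι s w (fun T => FB J τ (er {j₀} e) T ^ 2)
      ≤ 8 * (J.card * ((∑ a, τ a * n a) / (Fintype.card L) ^ 2))
        * (1 + (∑ a, n a) / (Fintype.card L) ^ 2) ^ J.card := by
  rw [FB_sq h.prob]
  have hm : (0 : ℝ) < Fintype.card L := by exact_mod_cast Fintype.card_pos
  set γ : Option L → ℝ := fun o => o.elim 1 fun _ => -1 / Fintype.card L with hγ
  have k0 : ∀ o o', Ex s w (fun x => xb J (er {j₀} e) j₀ o x * xb J (er {j₀} e) j₀ o' x)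
      = γ o * γ o' := by
    intro o o'
    have : ∀ o x, xb J (er {j₀} e) j₀ o x = γ o := by
      intro o x
      cases o <;> simp [xb, er, hj, hγ]
    simp_rw [this]
    exact h.prob.const _
  have k1 : ∀ j ≠ j₀, ∀ o o', Ex s w (fun x => xb J (er {j₀} e) j o x * xb J (er {j₀} e) j o' x)
      = if o = o' then nb J n j o else 0 := fun j hj' => kerB h _ _ fun _ => by simpa using hj'
  have k2 : ∀ j ≠ j₀, ∀ o o', |Ex s w (fun x => xb J (er {j₀} e) j o x * xb J (er {j₀} e) j o' x)|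
      = if o = o' then nb J n j o else 0 := fun j hj' o o' => by
    rw [k1 j hj']
    split_ifs
    exacts [abs_of_nonneg (nb_nonneg h _ _ _), abs_zero]
  have g1 : ∑ o, γ o = 0 := by
    rw [Fintype.sum_option]
    simp only [hγ, Option.elim, sum_const, card_univ, nsmul_eq_mul]
    field_simp
    ring
  have g2 : ∑ o, |γ o| = 2 := by
    rw [Fintype.sum_option]
    simp only [hγ, Option.elim, sum_const, card_univ, nsmul_eq_mul, abs_div, abs_neg, abs_one,
      Nat.abs_cast]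
    field_simp
    ring
  have h1 : 0 ≤ ∑ a, τ a * n a := sum_nonneg fun a _ => mul_nonneg (hτ0 a) (h.nonneg a)
  have h2 : 0 ≤ ∑ a, n a := sum_nonneg fun a _ => h.nonneg a
  refine (ker_cancel (elim_nonneg hτ0) (elim_le hτ)
    (fun j o o' => Ex s w (fun x => xb J (er {j₀} e) j o x * xb J (er {j₀} e) j o' x)) j₀
    (fun o => ?_) (fun j hj' o o' ho => ?_)
    (fun j => if j ∈ J then (∑ a, τ a * n a) / (Fintype.card L) ^ 2 else 0)
    (fun j hj' => ?_)).trans ?_
  · simp_rw [k0]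
    rw [← mul_sum, g1, mul_zero]
  · rw [k1 j hj', if_neg ho]
  · simp_rw [k2 j (by simpa using hj')]
    simp only [mul_ite, mul_zero, sum_ite_eq, mem_univ, if_true]
    exact theta_nb h hτ0 J j
  · have a1 : ∑ j ∈ ({j₀} : Finset ι)ᶜ,
        (if j ∈ J then (∑ a, τ a * n a) / (Fintype.card L : ℝ) ^ 2 else 0)
        ≤ J.card * ((∑ a, τ a * n a) / (Fintype.card L) ^ 2) := by
      rw [sum_ite_mem, sum_const, nsmul_eq_mul]
      refine mul_le_mul_of_nonneg_right ?_ (by positivity)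
      exact_mod_cast card_le_card inter_subset_right
    have a2 : ∏ j, ∑ o, ∑ o',
        |Ex s w (fun x => xb J (er {j₀} e) j o x * xb J (er {j₀} e) j o' x)|
        ≤ 4 * (1 + (∑ a, n a) / (Fintype.card L) ^ 2) ^ J.card := by
      rw [← prod_sum_nb, ← mul_prod_erase _ _ (mem_univ j₀), ← mul_prod_erase _ _ (mem_univ j₀),
        ← mul_assoc]
      refine mul_le_mul ?_ (le_of_eq (prod_congr rfl fun j hj' => ?_))
        (prod_nonneg fun _ _ => sum_nonneg fun _ _ => sum_nonneg fun _ _ => abs_nonneg _)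
        (mul_nonneg (by norm_num) (sum_nonneg fun _ _ => nb_nonneg h _ _ _))
      · simp_rw [k0, abs_mul]
        rw [← sum_mul_sum, g2, sum_nb, if_pos hj]
        have : 0 ≤ (∑ a, n a) / (Fintype.card L : ℝ) ^ 2 := by positivity
        linarith
      · simp_rw [k2 j (mem_erase.1 hj').1]
        simp only [sum_ite_eq, mem_univ, if_true]
    have a3 := mul_le_mul a1 a2
      (prod_nonneg fun _ _ => sum_nonneg fun _ _ => sum_nonneg fun _ _ => abs_nonneg _)
      (by positivity)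
    linarith

lemma one_add_sum_le_prod_one_add {β : Type*} {s : Finset β} {f : β → ℝ} (hf : ∀ i ∈ s, 0 ≤ f i) :
    1 + ∑ i ∈ s, f i ≤ ∏ i ∈ s, (1 + f i) := by
  classical
  induction s using Finset.induction_on with
  | empty => simp
  | insert a s ha ih =>
    rw [sum_insert ha, prod_insert ha]
    have h1 := ih fun i hi => hf i (mem_insert_of_mem hi)
    have h2 := hf a (mem_insert_self _ _)
    have h3 : 0 ≤ ∑ i ∈ s, f i := sum_nonneg fun i hi => hf i (mem_insert_of_mem hi)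
    nlinarith

lemma abs_FA_le {B : κ → Finset ι} {Y : α → ℝ} (hY : ∀ x, ∑ a, |e a x| ≤ Y x) (T : ι → α) :
    |FA B τ (er ∅ e) T| ≤ ∏ i, ∏ j ∈ B i, (1 + Y (T j)) := by
  have hY0 : ∀ x, 0 ≤ Y x := fun x => (sum_nonneg fun _ _ => abs_nonneg _).trans (hY x)
  unfold FA
  refine (abs_sum_le_sum_abs _ _).trans ((sum_le_sum_of_subset_of_nonneg (subset_univ _)
    fun _ _ _ => abs_nonneg _).trans ?_)
  simp_rw [abs_prod]
  rw [← Fintype.prod_sum (fun i a => |∑ j ∈ B i, er ∅ e j a (T j)|)]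
  refine prod_le_prod (fun _ _ => sum_nonneg fun _ _ => abs_nonneg _) fun i _ => ?_
  refine (sum_le_sum fun a _ => abs_sum_le_sum_abs _ _).trans ?_
  rw [sum_comm]
  refine (sum_le_sum (g := fun j => Y (T j)) fun j _ => by simpa [er] using hY (T j)).trans ?_
  have := one_add_sum_le_prod_one_add (s := B i) (f := fun j => Y (T j)) fun j _ => hY0 _
  linarith

lemma abs_FB_le {J : Finset ι} {Y : α → ℝ} (hY : ∀ x, ∑ a, |e a x| ≤ Y x) (T : ι → α) :
    |FB J τ (er ∅ e) T| ≤ ∏ j ∈ J, (1 + Y (T j)) := by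
  unfold FB
  refine (abs_sum_le_sum_abs _ _).trans ((sum_le_sum_of_subset_of_nonneg (subset_univ _)
    fun _ _ _ => abs_nonneg _).trans ?_)
  simp_rw [abs_prod]
  rw [← Fintype.prod_sum (fun j o => |xb J (er ∅ e) j o (T j)|), ← univ_inter J, ← prod_ite_mem,
    univ_inter]
  refine prod_le_prod (fun _ _ => sum_nonneg fun _ _ => abs_nonneg _) fun j _ => ?_
  rw [Fintype.sum_option]
  by_cases hj : j ∈ J
  · simp only [xb, hj, if_true, abs_one, er, notMem_empty, if_false]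
    refine add_le_add le_rfl (le_trans (sum_le_sum fun a _ => ?_) (hY (T j)))
    have : (1 : ℝ) ≤ Fintype.card L := by exact_mod_cast Fintype.card_pos_iff.2 ⟨a⟩
    rw [abs_div, abs_neg, Nat.abs_cast]
    exact div_le_self (abs_nonneg _) this
  · simp [xb, hj]

end model

end Pool.Agent.Work.MP_51e72e_nt.PP
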