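import Pool.Agent.Work.MP_51e72e_nt.PPLev
import Pool.Agent.Lib.ANT.SiegelWalfisz
import Pool.Agent.Lib.ANT.MeanValue
import Pool.Agent.Lib.LargeSieve.Bilinear

/-!
Sums of functions of small level over shifted primes.
-/

set_option autoImplicit false

namespace Pool.Agent.Work.MP_51e72e_nt.PP

open Finset Pool.Agent.Lib.ANT Pool.Agent.Lib.LargeSieve ArithmeticFunction

/-- indicator that no prime of `B` divides any `n + j`, `j ∈ S` -/
noncomputable def rho (B S : Finset ℕ) (n : ℕ) : ℝ :=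
  ∏ p ∈ B, if ∃ j ∈ S, p ∣ n + j then (0 : ℝ) else 1

lemma rho_eq (B S : Finset ℕ) (n : ℕ) : rho B S n = if hit B S n = ∅ then 1 else 0 := by
  unfold rho hit
  by_cases h : ∃ p ∈ B, ∃ j ∈ S, p ∣ n + j
  · obtain ⟨p, hp, h⟩ := h
    rw [if_neg (ne_empty_of_mem (mem_filter.2 ⟨hp, h⟩))]
    exact prod_eq_zero hp (if_pos h)
  · push Not at h
    rw [if_pos (filter_eq_empty_iff.2 fun p hp => by simpa using h p hp)]
    exact prod_eq_one fun p hp => if_neg (by simpa using h p hp)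

lemma rho_eq_one {B S : Finset ℕ} {n : ℕ} (h : ∀ p ∈ B, ∀ j ∈ S, ¬ p ∣ n + j) : rho B S n = 1 :=
  prod_eq_one fun p hp => if_neg fun ⟨j, hj, e⟩ => h p hp j hj e

lemma rho_cases (B S : Finset ℕ) (n : ℕ) : rho B S n = 0 ∨ rho B S n = 1 := by
  rw [rho_eq]; split_ifs <;> simp

lemma rho_nonneg (B S : Finset ℕ) (n : ℕ) : 0 ≤ rho B S n := by
  rcases rho_cases B S n with h | h <;> simp [h]

lemma rho_le_one (B S : Finset ℕ) (n : ℕ) : rho B S n ≤ 1 := by
  rcases rho_cases B S n with h | h <;> simp [h]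

lemma rho_mul (B S S' : Finset ℕ) (n : ℕ) : rho B S n * rho B S' n = rho B (S ∪ S') n := by
  unfold rho
  rw [← prod_mul_distrib]
  refine prod_congr rfl fun p _ => ?_
  by_cases h : ∃ j ∈ S, p ∣ n + j
  · obtain ⟨j, hj, e⟩ := h
    rw [if_pos ⟨j, hj, e⟩, zero_mul, if_pos ⟨j, mem_union_left _ hj, e⟩]
  · by_cases h' : ∃ j ∈ S', p ∣ n + j
    · obtain ⟨j, hj, e⟩ := h'
      rw [if_pos (c := ∃ j ∈ S', p ∣ n + j) ⟨j, hj, e⟩, mul_zero,
        if_pos ⟨j, mem_union_right _ hj, e⟩]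
    · rw [if_neg h, if_neg h', if_neg, mul_one]
      rintro ⟨j, hj, e⟩
      rcases mem_union.1 hj with hj | hj
      exacts [h ⟨j, hj, e⟩, h' ⟨j, hj, e⟩]

lemma rho_empty (B : Finset ℕ) (n : ℕ) : rho B ∅ n = 1 := rho_eq_one (by simp)

lemma rho_union {B B' : Finset ℕ} (h : Disjoint B B') (S : Finset ℕ) (n : ℕ) :
    rho (B ∪ B') S n = rho B S n * rho B' S n := prod_union h

lemma per_loc (p : ℕ) (S : Finset ℕ) :
    Per p (fun n => if ∃ j ∈ S, p ∣ n + j then (0 : ℝ) else 1) := by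
  intro m n hmn
  simp only [dvd_add_congr dvd_rfl hmn]

lemma rho_per (B S : Finset ℕ) : Per (pr B) (rho B S) :=
  per_prod B (fun p => p) _ fun p _ => per_loc p S

lemma avg_loc {p : ℕ} (hp : 0 < p) (S : Finset ℕ) :
    avg p (fun n => if ∃ j ∈ S, p ∣ n + j then (0 : ℝ) else 1)
      = 1 - (((range p).filter fun a => ∃ j ∈ S, p ∣ a + j).card : ℝ) / p := by
  have hp' : (0 : ℝ) < p := by exact_mod_cast hp
  have : ∀ n, (if ∃ j ∈ S, p ∣ n + j then (0 : ℝ) else 1)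
      = 1 - if ∃ j ∈ S, p ∣ n + j then 1 else 0 := fun n => by split_ifs <;> simp
  simp_rw [this]
  rw [avg_sub, avg_one hp]
  unfold avg
  rw [sum_boole]

lemma card_dvd_shift_one {p : ℕ} (hp : 0 < p) (j : ℕ) :
    ((range p).filter fun a => ∃ i ∈ ({j} : Finset ℕ), p ∣ a + i).card = 1 := by
  refine le_antisymm (by simpa using card_dvd_shift_le p {j}) (card_pos.2 ⟨(p - j % p) % p, ?_⟩)
  simp only [mem_filter, mem_range, mem_singleton, exists_eq_left]
  refine ⟨Nat.mod_lt _ hp, ?_⟩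
  rw [dvd_add_congr dvd_rfl (Nat.mod_modEq _ p)]
  refine ⟨1 + j / p, ?_⟩
  have := Nat.mod_add_div j p
  have h3 : j % p < p := Nat.mod_lt _ hp
  rw [mul_add, mul_one]
  omega

lemma avg_rho_one {B : Finset ℕ} (hB : ∀ p ∈ B, p.Prime) (j : ℕ) :
    avg (pr B) (rho B {j}) = (Eul B)⁻¹ := by
  unfold rho Eul
  rw [avg_prod B hB _ fun p _ => per_loc p {j}, ← prod_inv_distrib]
  refine prod_congr rfl fun p hp => ?_
  rw [avg_loc (hB p hp).pos, card_dvd_shift_one (hB p hp).pos, inv_inv]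
  simp

lemma totient_pr {D : Finset ℕ} (hD : ∀ p ∈ D, p.Prime) :
    ((pr D).totient : ℝ) = ∏ p ∈ D, ((p : ℝ) - 1) := by
  induction D using Finset.induction_on with
  | empty => simp [pr]
  | insert q D hq ih =>
    have h1 : ∀ p ∈ D, p.Prime := fun p hp => hD p (mem_insert_of_mem hp)
    have h2 := hD q (mem_insert_self _ _)
    have h3 : q.Coprime (pr D) := Nat.Coprime.prod_right fun p hp =>
      (Nat.coprime_primes h2 (h1 p hp)).2 fun e => hq (e ▸ hp)
    rw [prod_insert hq, ← ih h1, show pr (insert q D) = q * pr D from prod_insert hq,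
      Nat.totient_mul h3, Nat.totient_prime h2]
    push_cast [Nat.cast_sub h2.one_le]
    ring

lemma Eul_eq {D : Finset ℕ} (hD : ∀ p ∈ D, p.Prime) : Eul D = pr D / (pr D).totient := by
  rw [totient_pr hD]
  unfold Eul pr
  push_cast
  rw [← prod_div_distrib]
  refine prod_congr rfl fun p hp => ?_
  have h1 : (2 : ℝ) ≤ p := by exact_mod_cast (hD p hp).two_le
  have : (p : ℝ) - 1 ≠ 0 := by linarith
  field_simp

lemma rho_one_eq {D : Finset ℕ} (hD : ∀ p ∈ D, p.Prime) (j n : ℕ) :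
    rho D {j} n = if (n + j).Coprime (pr D) then 1 else 0 := by
  split_ifs with h
  · refine rho_eq_one fun p hp i hi e => ?_
    rw [mem_singleton.1 hi] at e
    exact (hD p hp).one_lt.ne' ((Nat.coprime_self p).1
      ((h.coprime_dvd_left e).coprime_dvd_right (dvd_prod_of_mem _ hp)))
  · by_contra h'
    refine h (Nat.Coprime.prod_right fun p hp => ?_)
    rw [Nat.coprime_comm, Nat.Prime.coprime_iff_not_dvd (hD p hp)]
    intro e
    exact h' (prod_eq_zero hp (if_pos ⟨j, mem_singleton_self j, e⟩))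

lemma main_term_eq {A D : Finset ℕ} (hA : ∀ p ∈ A, p.Prime) (hD : D ⊆ A) (j : ℕ) {φ : ℕ → ℝ}
    (hφ : Per (pr D) φ) :
    Eul A * avg (pr A) (fun n => rho A {j} n * φ n)
      = (∑ r ∈ range (pr D), rho D {j} r * φ r) / (pr D).totient := by
  have h1 : ∀ p ∈ D, p.Prime := fun p hp => hA p (hD hp)
  have h2 : ∀ p ∈ A \ D, p.Prime := fun p hp => hA p (mem_sdiff.1 hp).1
  have e : ∀ n, rho A {j} n * φ n = (rho D {j} n * φ n) * rho (A \ D) {j} n := fun n => by
    conv_lhs => rw [← union_sdiff_of_subset hD, rho_union disjoint_sdiff]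
    ring
  simp_rw [e]
  rw [pr_sdiff hD, avg_mul (pr_coprime h1 h2 disjoint_sdiff) (pr_pos h1) (pr_pos h2) _ _
    (fun m n h => by simp only [rho_per D {j} m n h, hφ m n h]) (rho_per _ _), avg_rho_one h2]
  have e2 : Eul A = Eul D * Eul (A \ D) := by
    unfold Eul
    rw [← prod_union disjoint_sdiff, union_sdiff_of_subset hD]
  have a1 : Eul (A \ D) ≠ 0 := (zero_lt_one.trans_le (one_le_Eul h2)).ne'
  have a2 : ((pr D : ℕ) : ℝ) ≠ 0 := by exact_mod_cast (pr_pos h1).ne'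
  rw [e2, Eul_eq h1]
  unfold avg
  field_simp

open Classical in
lemma char_expand {d : ℕ} (hd : 0 < d) (j : ℕ) (I : Finset ℕ) (α φ : ℕ → ℝ)
    (hα : ∀ n ∈ I, α n ≠ 0 → (n + j).Coprime d) (hφ : Per d φ) :
    |∑ n ∈ I, α n * φ n - (∑ n ∈ I, α n) *
        ((∑ r ∈ range d, (if (r + j).Coprime d then 1 else 0) * φ r) / d.totient)|
      ≤ (∑ r ∈ range d, |φ r|) / d.totient * ∑ χ : DirichletCharacter ℂ d with χ ≠ 1,
        ‖∑ n ∈ I, (α n : ℂ) * χ ((n + j : ℕ) : ZMod d)‖ := by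
  have : NeZero d := ⟨hd.ne'⟩
  have ht : (0 : ℝ) < d.totient := by exact_mod_cast Nat.totient_pos.2 hd
  have htc : (d.totient : ℂ) ≠ 0 := by exact_mod_cast ht.ne'
  set R := (range d).filter fun r => (r + j).Coprime d with hR
  set c : DirichletCharacter ℂ d → ℂ := fun χ =>
    (∑ r ∈ R, (φ r : ℂ) * χ ((r + j : ℕ) : ZMod d)⁻¹) / d.totient with hc
  have key : ∀ n ∈ I, (α n : ℂ) * φ n
      = ∑ χ : DirichletCharacter ℂ d, c χ * ((α n : ℂ) * χ ((n + j : ℕ) : ZMod d)) := by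
    intro n hn
    by_cases h0 : α n = 0
    · simp [h0]
    have hcop := hα n hn h0
    have e1 : ∑ χ : DirichletCharacter ℂ d, c χ * ((α n : ℂ) * χ ((n + j : ℕ) : ZMod d))
        = (α n : ℂ) / d.totient * ∑ r ∈ R, (φ r : ℂ) * ∑ χ : DirichletCharacter ℂ d,
          χ ((r + j : ℕ) : ZMod d)⁻¹ * χ ((n + j : ℕ) : ZMod d) := by
      simp only [hc, sum_div, sum_mul, mul_sum]
      rw [sum_comm]
      refine sum_congr rfl fun r _ => sum_congr rfl fun χ _ => by ring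
    rw [e1, sum_eq_single (n % d)]
    · have hu : ((n % d + j : ℕ) : ZMod d) = ((n + j : ℕ) : ZMod d) := by push_cast; simp
      rw [hu, DirichletCharacter.sum_char_inv_mul_char_eq ℂ ((ZMod.isUnit_iff_coprime _ _).2 hcop),
        if_pos rfl, hφ.mod]
      field_simp
    · intro r hr hne
      rw [DirichletCharacter.sum_char_inv_mul_char_eq ℂ
        ((ZMod.isUnit_iff_coprime _ _).2 (mem_filter.1 hr).2), if_neg, mul_zero]
      intro e
      rw [ZMod.natCast_eq_natCast_iff] at e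
      have e2 : r ≡ n [MOD d] := Nat.ModEq.add_right_cancel' j e
      exact hne (by rw [← e2, Nat.mod_eq_of_lt (mem_range.1 (mem_filter.1 hr).1)])
    · intro h
      exfalso
      refine h (mem_filter.2 ⟨mem_range.2 (Nat.mod_lt _ hd), ?_⟩)
      rw [← ZMod.isUnit_iff_coprime] at hcop ⊢
      have hu : ((n % d + j : ℕ) : ZMod d) = ((n + j : ℕ) : ZMod d) := by push_cast; simp
      rwa [hu]
  have hc1 : c 1 = (((∑ r ∈ range d, (if (r + j).Coprime d then 1 else 0) * φ r) / d.totient : ℝ) : ℂ) := by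
    simp only [hc, ite_mul, one_mul, zero_mul]
    rw [← sum_filter]
    push_cast
    congr 1
    refine sum_congr rfl fun r hr => ?_
    have hu := (ZMod.isUnit_iff_coprime _ _).2 (mem_filter.1 hr).2
    obtain ⟨u, hu⟩ := hu
    push_cast at hu
    rw [← hu, ZMod.inv_coe_unit, MulChar.one_apply_coe, mul_one]
  have hT1 : ∑ n ∈ I, (α n : ℂ) * (1 : DirichletCharacter ℂ d) ((n + j : ℕ) : ZMod d)
      = ((∑ n ∈ I, α n : ℝ) : ℂ) := by
    push_cast
    refine sum_congr rfl fun n hn => ?_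
    by_cases h0 : α n = 0
    · simp [h0]
    have hu := (ZMod.isUnit_iff_coprime _ _).2 (hα n hn h0)
    push_cast at hu
    rw [MulChar.one_apply hu, mul_one]
  have e : ((∑ n ∈ I, α n * φ n - (∑ n ∈ I, α n) *
        ((∑ r ∈ range d, (if (r + j).Coprime d then 1 else 0) * φ r) / d.totient) : ℝ) : ℂ)
      = ∑ χ : DirichletCharacter ℂ d with χ ≠ 1,
        c χ * ∑ n ∈ I, (α n : ℂ) * χ ((n + j : ℕ) : ZMod d) := by
    rw [Complex.ofReal_sub, Complex.ofReal_mul, ← hc1, ← hT1, Complex.ofReal_sum]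
    simp only [Complex.ofReal_mul]
    rw [sum_congr rfl key, sum_comm, filter_ne', ← add_sum_erase _ _ (mem_univ 1)]
    simp only [← mul_sum]
    ring
  rw [← Real.norm_eq_abs, ← Complex.norm_real, e, mul_sum]
  refine (norm_sum_le _ _).trans ?_
  refine le_trans (sum_le_sum fun χ _ => ?_) (le_of_eq (by congr))
  rw [norm_mul]
  refine mul_le_mul_of_nonneg_right ?_ (norm_nonneg _)
  simp only [hc]
  rw [norm_div, Complex.norm_natCast]
  refine div_le_div_of_nonneg_right ((norm_sum_le _ _).trans (le_trans (sum_le_sum fun r _ => ?_)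
    (sum_le_sum_of_subset_of_nonneg (filter_subset _ _) fun _ _ _ => abs_nonneg _))) ht.le
  rw [norm_mul, Complex.norm_real, Real.norm_eq_abs]
  exact mul_le_of_le_one_right (abs_nonneg _) (χ.norm_le_one _)

open Classical in
lemma nonprincipal_le {d : ℕ} (hd : 0 < d) (j : ℕ) (I : Finset ℕ) (α : ℕ → ℝ)
    (hα : ∀ n ∈ I, α n ≠ 0 → (n + j).Coprime d) :
    ∑ χ : DirichletCharacter ℂ d with χ ≠ 1, ‖∑ n ∈ I, (α n : ℂ) * χ ((n + j : ℕ) : ZMod d)‖
      ≤ ∑ f ∈ d.divisors.filter (fun f => 1 < f), ∑ ψ : DirichletCharacter ℂ f with ψ.IsPrimitive,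
        ‖∑ n ∈ I, (α n : ℂ) * ψ ((n + j : ℕ) : ZMod f)‖ := by
  have : NeZero d := ⟨hd.ne'⟩
  rw [sum_sigma']
  refine sum_le_of_injOn _ _ _ _
    (fun χ : DirichletCharacter ℂ d =>
      (⟨χ.conductor, χ.primitiveCharacter⟩ : Σ f : ℕ, DirichletCharacter ℂ f)) ?_ ?_
    (fun _ _ => by positivity) ?_
  · intro χ _ χ' _ h
    apply MulChar.ext
    intro u
    have h1 := congrArg (fun x : (Σ f : ℕ, DirichletCharacter ℂ f) =>
      x.2 (((u : ZMod d).val : ℤ) : ZMod x.1)) h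
    have hc : IsCoprime (((u : ZMod d).val : ℕ) : ℤ) d :=
      Nat.isCoprime_iff_coprime.2 (ZMod.val_coe_unit_coprime u)
    simp only at h1
    rw [χ.primitiveCharacter_apply_of_isCoprime hc,
      χ'.primitiveCharacter_apply_of_isCoprime hc] at h1
    simpa using h1
  · intro χ hχ
    simp only [mem_sigma, mem_filter, Nat.mem_divisors, mem_univ, true_and] at hχ ⊢
    refine ⟨⟨⟨χ.conductor_dvd_level, hd.ne'⟩, ?_⟩, χ.primitiveCharacter_isPrimitive⟩
    have h0 := χ.conductor_ne_zero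
    have h1 : χ.conductor ≠ 1 := fun h => hχ (DirichletCharacter.eq_one_iff_conductor_eq_one.2 h)
    omega
  · intro χ _
    refine le_of_eq (congrArg _ (sum_congr rfl fun n hn => ?_))
    by_cases h0 : α n = 0
    · simp [h0]
    have := χ.primitiveCharacter_apply_of_isCoprime (a := ((n + j : ℕ) : ℤ))
      (Nat.isCoprime_iff_coprime.2 (hα n hn h0))
    simp only [Int.cast_natCast] at this
    rw [this]

/-- constant in the bound `κ^ω(f)/φ(f) ≤ cK / √f` -/
noncomputable def cK (e : ℕ) : ℝ := (2 * 2 ^ e) ^ (4 * (2 ^ e) ^ 2)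

lemma one_le_cK (e : ℕ) : 1 ≤ cK e := by
  have : (1 : ℝ) ≤ 2 ^ e := one_le_pow₀ (by norm_num)
  exact one_le_pow₀ (by linarith)

lemma prod_kap_div_le {T : Finset ℕ} (hT : ∀ p ∈ T, p.Prime) (e : ℕ) :
    ∏ p ∈ T, ((2 : ℝ) ^ e - 1) / (p - 1) ≤ cK e / Real.sqrt (pr T) := by
  have hk : (1 : ℝ) ≤ 2 ^ e := one_le_pow₀ (by norm_num)
  have h1 : ∀ p ∈ T, ((2 : ℝ) ^ e - 1) / (p - 1)
      ≤ (if p < 4 * (2 ^ e) ^ 2 then 2 * (2 : ℝ) ^ e else 1) / Real.sqrt p := by
    intro p hp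
    have hp2 : (2 : ℝ) ≤ p := by exact_mod_cast (hT p hp).two_le
    have hs : 0 < Real.sqrt p := Real.sqrt_pos.2 (by linarith)
    have hs2 : Real.sqrt p * Real.sqrt p = p := Real.mul_self_sqrt (by linarith)
    have hs1 : 1 ≤ Real.sqrt p := by nlinarith
    rw [div_le_div_iff₀ (by linarith) hs]
    split_ifs with h
    · have h3 : Real.sqrt p ≤ 2 * (p - 1) := by nlinarith
      nlinarith
    · have h2 : (4 : ℝ) * (2 ^ e) ^ 2 ≤ p := by exact_mod_cast not_lt.1 h
      have h3 : 2 * (2 : ℝ) ^ e ≤ Real.sqrt p := by nlinarith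
      nlinarith
  refine (prod_le_prod (fun p hp => ?_) h1).trans ?_
  · have hp2 : (2 : ℝ) ≤ p := by exact_mod_cast (hT p hp).two_le
    exact div_nonneg (two_pow_sub_one_nonneg e) (by linarith)
  rw [prod_div_distrib]
  have e2 : ∏ p ∈ T, Real.sqrt p = Real.sqrt (pr T) := by
    unfold pr
    push_cast
    rw [Real.sqrt_prod _ fun p _ => Nat.cast_nonneg p]
  rw [e2]
  refine div_le_div_of_nonneg_right ?_ (Real.sqrt_nonneg _)
  rw [prod_ite, prod_const_one, mul_one, prod_const]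
  refine pow_le_pow_right₀ (by linarith) ?_
  exact (card_le_card (t := range (4 * (2 ^ e) ^ 2)) fun p hp =>
    mem_range.2 (mem_filter.1 hp).2).trans (card_range _).le

lemma sum_kap_dvd_le {A : Finset ℕ} (hA : ∀ p ∈ A, p.Prime) (e : ℕ) {f : ℕ} (hf : f ∣ pr A) :
    ∑ D ∈ A.powerset.filter (fun D => f ∣ pr D), kap (fun _ => e) D / (pr D).totient
      ≤ cK e / Real.sqrt f * Eul A ^ (2 ^ e) := by
  set g : ℕ → ℝ := fun p => ((2 : ℝ) ^ e - 1) / (p - 1) with hg
  have hg0 : ∀ p ∈ A, 0 ≤ g p := fun p hp => by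
    have hp2 : (2 : ℝ) ≤ p := by exact_mod_cast (hA p hp).two_le
    exact div_nonneg (two_pow_sub_one_nonneg e) (by linarith)
  have hsq : Squarefree f := (squarefree_prod_primes A hA).squarefree_of_dvd hf
  set T := f.primeFactors with hT
  have hsub : ∀ D ⊆ A, f ∣ pr D → T ⊆ D := fun D hD h => by
    have := Nat.primeFactors_mono h (pr_pos fun p hp => hA p (hD hp)).ne'
    rwa [pr, Nat.primeFactors_prod fun p hp => hA p (hD hp)] at this
  have hTA : T ⊆ A := hsub A Subset.rfl hf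
  have hfT : pr T = f := Nat.prod_primeFactors_of_squarefree hsq
  calc _ ≤ ∑ D' ∈ A.powerset, (∏ p ∈ T, g p) * ∏ p ∈ D', g p := by
        refine sum_le_of_injOn _ _ _ _ (fun D => D \ T) ?_ ?_ ?_ ?_
        · intro D hD D' hD' h
          simp only [coe_filter, mem_powerset, Set.mem_ofPred_eq] at hD hD' h
          rw [← union_sdiff_of_subset (hsub D hD.1 hD.2), h, union_sdiff_of_subset (hsub D' hD'.1 hD'.2)]
        · intro D hD
          exact mem_powerset.2 (sdiff_subset.trans (mem_powerset.1 (mem_filter.1 hD).1))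
        · intro D hD
          exact mul_nonneg (prod_nonneg fun p hp => hg0 p (hTA hp))
            (prod_nonneg fun p hp => hg0 p (mem_powerset.1 hD hp))
        · intro D hD
          have h1 := mem_powerset.1 (mem_filter.1 hD).1
          rw [← prod_union disjoint_sdiff, union_sdiff_of_subset (hsub D h1 (mem_filter.1 hD).2),
            totient_pr fun p hp => hA p (h1 hp)]
          unfold kap
          rw [← prod_div_distrib]
    _ = (∏ p ∈ T, g p) * ∏ p ∈ A, (1 + g p) := by rw [← mul_sum, prod_one_add]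
    _ ≤ _ := by
        refine mul_le_mul ?_ (prod_one_add_le_Eul hA e)
          (prod_nonneg fun p hp => by linarith [hg0 p hp])
          (div_nonneg (zero_le_one.trans (one_le_cK e)) (Real.sqrt_nonneg _))
        rw [← hfT]
        exact prod_kap_div_le (fun p hp => hA p (hTA hp)) e

open Classical in
lemma Lev.char_transfer {A : Finset ℕ} {e : ℕ} {Q C : ℝ} {Φ : ℕ → ℝ} (hA : ∀ p ∈ A, p.Prime)
    (h : Lev A (fun _ => e) Q C Φ) (F : ℕ) (hQF : Q ≤ F) (j : ℕ) (I : Finset ℕ) (α : ℕ → ℝ)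
    (hα : ∀ n ∈ I, α n ≠ 0 → (n + j).Coprime (pr A)) :
    |∑ n ∈ I, α n * Φ n - (∑ n ∈ I, α n) * Eul A * avg (pr A) (fun n => rho A {j} n * Φ n)|
      ≤ C * cK e * Eul A ^ (2 ^ e) * ∑ f ∈ (Icc 2 F).filter (fun f => f ∣ pr A),
        (Real.sqrt f)⁻¹ * ∑ ψ : DirichletCharacter ℂ f with ψ.IsPrimitive,
          ‖∑ n ∈ I, (α n : ℂ) * ψ ((n + j : ℕ) : ZMod f)‖ := by
  have hC := h.C_nonneg
  obtain ⟨φ, h1, h2⟩ := h
  set G : ℕ → ℝ := fun f => ∑ ψ : DirichletCharacter ℂ f with ψ.IsPrimitive,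
    ‖∑ n ∈ I, (α n : ℂ) * ψ ((n + j : ℕ) : ZMod f)‖ with hG
  have hG0 : ∀ f, 0 ≤ G f := fun f => sum_nonneg fun _ _ => norm_nonneg _
  simp_rw [h1, mul_sum]
  rw [avg_sum, sum_comm, mul_sum, ← sum_sub_distrib]
  calc _ ≤ ∑ D ∈ A.powerset, ∑ f ∈ (Icc 2 F).filter (fun f => f ∣ pr A),
        if f ∣ pr D then C * (kap (fun _ => e) D / (pr D).totient) * G f else 0 := by
        refine (abs_sum_le_sum_abs _ _).trans (sum_le_sum fun D hD => ?_)
        have hD' := mem_powerset.1 hD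
        have hDp : ∀ p ∈ D, p.Prime := fun p hp => hA p (hD' hp)
        have hn : ∀ f, 0 ≤ C * (kap (fun _ => e) D / (pr D).totient) * G f := fun f =>
          mul_nonneg (mul_nonneg hC (div_nonneg (kap_nonneg _ _) (Nat.cast_nonneg _))) (hG0 f)
        by_cases hq : Q < pr D
        · have : φ D = fun _ => 0 := funext ((h2 D hD').2.2 hq)
          simp only [this, mul_zero, sum_const_zero, avg_const (pr_pos hA), sub_zero, abs_zero]
          exact sum_nonneg fun f _ => by split_ifs; exacts [hn f, le_rfl]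
        have hα' : ∀ n ∈ I, α n ≠ 0 → (n + j).Coprime (pr D) := fun n hn h0 =>
          (hα n hn h0).coprime_dvd_right (pr_dvd hD')
        rw [mul_assoc, main_term_eq hA hD' j (h2 D hD').1]
        simp_rw [rho_one_eq hDp]
        refine (char_expand (pr_pos hDp) j I α (φ D) hα' (h2 D hD').1).trans ?_
        refine (mul_le_mul (div_le_div_of_nonneg_right (h2 D hD').2.1 (Nat.cast_nonneg _))
          (nonprincipal_le (pr_pos hDp) j I α hα') (sum_nonneg fun _ _ => norm_nonneg _)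
          (div_nonneg (mul_nonneg hC (kap_nonneg _ _)) (Nat.cast_nonneg _))).trans ?_
        rw [← sum_filter, mul_sum, mul_div_assoc]
        refine sum_le_sum_of_subset_of_nonneg (fun f hf => ?_) fun f _ _ => hn f
        simp only [mem_filter, Nat.mem_divisors, mem_Icc] at hf ⊢
        refine ⟨⟨⟨hf.2, ?_⟩, hf.1.1.trans (pr_dvd hD')⟩, hf.1.1⟩
        have a1 : (f : ℝ) ≤ pr D := by exact_mod_cast Nat.le_of_dvd (pr_pos hDp) hf.1.1
        have a2 : (f : ℝ) ≤ F := by linarith [not_lt.1 hq]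
        exact_mod_cast a2
    _ ≤ _ := by
        rw [sum_comm]
        refine sum_le_sum fun f hf => ?_
        rw [← sum_filter, ← sum_mul, ← mul_sum]
        have := sum_kap_dvd_le hA e (mem_filter.1 hf).2
        calc _ ≤ C * (cK e / Real.sqrt f * Eul A ^ (2 ^ e)) * G f :=
              mul_le_mul_of_nonneg_right (mul_le_mul_of_nonneg_left this hC) (hG0 f)
          _ = _ := by simp only [hG, mul_sum]; exact sum_congr rfl fun _ _ => by ring

/-- `log m` on primes -/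
noncomputable def th (m : ℕ) : ℝ := if m.Prime then Real.log m else 0

lemma th_nonneg (m : ℕ) : 0 ≤ th m := by
  unfold th; split_ifs
  · exact Real.log_natCast_nonneg _
  · exact le_rfl

lemma norm_th_char_le {f : ℕ} (χ : DirichletCharacter ℂ f) (a L j : ℕ) (ha : 1 ≤ a) :
    ‖∑ n ∈ Ioc a (a + L), (th (n + j) : ℂ) * χ ((n + j : ℕ) : ZMod f)‖
      ≤ ‖∑ n ∈ range (a + L + j + 1), χ n * vonMangoldt n‖
        + ‖∑ n ∈ range (a + j + 1), χ n * vonMangoldt n‖
        + 2 * Real.sqrt (a + L + j : ℕ) * Real.log (a + L + j : ℕ) := by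
  have e1 : ∑ n ∈ Ioc a (a + L), (th (n + j) : ℂ) * χ ((n + j : ℕ) : ZMod f)
      = ∑ m ∈ Ioc (a + j) (a + L + j), (th m : ℂ) * χ m := by
    rw [← map_add_right_Ioc, sum_map]
    rfl
  have e2 : ∑ n ∈ range (a + L + j + 1), χ n * vonMangoldt n
      - ∑ n ∈ range (a + j + 1), χ n * vonMangoldt n
      = ∑ m ∈ Ioc (a + j) (a + L + j), χ m * vonMangoldt m := by
    rw [← sum_Ico_eq_sub _ (by omega)]
    refine sum_congr ?_ fun _ _ => rfl
    ext; simp only [mem_Ico, mem_Ioc]; omega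
  have e3 : ∑ m ∈ Ioc (a + j) (a + L + j), (th m : ℂ) * χ m
      = ∑ m ∈ Ioc (a + j) (a + L + j), χ m * vonMangoldt m
        - ∑ m ∈ Ioc (a + j) (a + L + j), χ m * ((vonMangoldt m - th m : ℝ) : ℂ) := by
    rw [← sum_sub_distrib]
    refine sum_congr rfl fun m _ => by push_cast; ring
  rw [e1, e3, ← e2]
  refine (norm_sub_le _ _).trans (add_le_add (norm_sub_le _ _) ?_)
  have h1 : (1 : ℝ) ≤ (a + L + j : ℕ) := by exact_mod_cast (by omega : 1 ≤ a + L + j)
  refine le_trans ?_ (Chebyshev.psi_sub_theta_le h1)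
  rw [Chebyshev.psi_sub_theta_eq_sum_not_prime, Nat.floor_natCast, sum_filter]
  refine (norm_sum_le _ _).trans (le_trans (sum_le_sum fun m _ => ?_)
    (sum_le_sum_of_subset_of_nonneg (Ioc_subset_Ioc_left (Nat.zero_le _)) fun m _ _ => ?_))
  · rw [norm_mul, Complex.norm_real]
    refine (mul_le_of_le_one_left (norm_nonneg _) (χ.norm_le_one _)).trans ?_
    unfold th
    by_cases hm : m.Prime
    · simp [hm, vonMangoldt_apply_prime hm]
    · simp [hm, abs_of_nonneg vonMangoldt_nonneg]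
  · split_ifs
    exacts [le_rfl, vonMangoldt_nonneg]

/-- the conclusion of the Siegel–Walfisz type estimate -/
def SWat (Q₀ p₁ : ℕ) : Prop :=
  ∀ f : ℕ, 1 < f → f ≤ Q₀ → Squarefree f → ¬ p₁ ∣ f → ∀ χ : DirichletCharacter ℂ f,
    χ.IsPrimitive → ∀ X : ℕ, Real.log Q₀ ^ 26 ≤ Real.log X → Real.log X ≤ Q₀ →
      ‖∑ n ∈ range (X + 1), χ n * vonMangoldt n‖ ≤ X / Q₀ ^ 3

open Classical in
lemma char_sum_le {A : Finset ℕ} (hA : ∀ p ∈ A, p.Prime) {Q₀ p₁ : ℕ} (hp₁ : p₁.Prime)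
    (hp₁A : p₁ ∉ A) (hSW : SWat Q₀ p₁) (hQ₀ : 0 < Q₀) {F X : ℕ} (hF : F ^ 7 ≤ X)
    (h1 : Real.log Q₀ ^ 26 ≤ Real.log X) (h2 : Real.log X ≤ Q₀) :
    ∑ f ∈ (Icc 2 F).filter (fun f => f ∣ pr A),
        (Real.sqrt f)⁻¹ * ∑ ψ : DirichletCharacter ℂ f with ψ.IsPrimitive,
          ‖∑ n ∈ range (X + 1), ψ n * vonMangoldt n‖
      ≤ 71 * X * (1 + Real.log X) ^ 4 / Real.sqrt Q₀ := by
  set G : ℕ → ℝ := fun f => ∑ ψ : DirichletCharacter ℂ f with ψ.IsPrimitive,
    ‖∑ n ∈ range (X + 1), ψ n * vonMangoldt n‖ with hG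
  have hG0 : ∀ f, 0 ≤ G f := fun f => sum_nonneg fun _ _ => norm_nonneg _
  have hQ : (1 : ℝ) ≤ Q₀ := by exact_mod_cast hQ₀
  have hs : 1 ≤ Real.sqrt Q₀ := Real.one_le_sqrt.2 hQ
  have hs2 : Real.sqrt Q₀ ≤ Q₀ := Real.sqrt_le_iff.2 ⟨by linarith, by nlinarith⟩
  have hL : 1 ≤ (1 + Real.log X) ^ 4 := one_le_pow₀ (by linarith [Real.log_natCast_nonneg X])
  have hX : (0 : ℝ) ≤ X := Nat.cast_nonneg X
  rw [← sum_filter_add_sum_filter_not _ (fun f => f ≤ Q₀)]
  have s1 : ∑ f ∈ ((Icc 2 F).filter (fun f => f ∣ pr A)).filter (fun f => f ≤ Q₀),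
      (Real.sqrt f)⁻¹ * G f ≤ X / Q₀ := by
    have : ∀ f ∈ ((Icc 2 F).filter (fun f => f ∣ pr A)).filter (fun f => f ≤ Q₀),
        (Real.sqrt f)⁻¹ * G f ≤ X / Q₀ ^ 2 := by
      intro f hf
      simp only [mem_filter, mem_Icc] at hf
      have hf1 : (1 : ℝ) ≤ f := by exact_mod_cast (by omega : 1 ≤ f)
      have hfQ : (f : ℝ) ≤ Q₀ := by exact_mod_cast hf.2
      have hnd : ¬ p₁ ∣ f := fun e => by
        obtain ⟨p, hp, e'⟩ := (Prime.dvd_finsetProd_iff hp₁.prime _).1 (e.trans hf.1.2)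
        exact hp₁A (((Nat.prime_dvd_prime_iff_eq hp₁ (hA p hp)).1 e') ▸ hp)
      refine (mul_le_of_le_one_left (hG0 f) (inv_le_one_of_one_le₀ (Real.one_le_sqrt.2 hf1))).trans ?_
      refine (sum_le_card_nsmul _ _ ((X : ℝ) / Q₀ ^ 3) fun χ hχ => hSW f (by omega) hf.2
        ((squarefree_prod_primes A hA).squarefree_of_dvd hf.1.2) hnd χ (mem_filter.1 hχ).2 X h1 h2).trans ?_
      rw [nsmul_eq_mul]
      have hc : (((univ.filter fun χ : DirichletCharacter ℂ f => χ.IsPrimitive).card : ℕ) : ℝ) ≤ Q₀ :=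
        le_trans (by exact_mod_cast card_primitive_le f (by omega)) hfQ
      refine (mul_le_mul_of_nonneg_right hc (by positivity)).trans (le_of_eq ?_)
      field_simp
    refine (sum_le_card_nsmul _ _ _ this).trans ?_
    rw [nsmul_eq_mul]
    have hc : ((((Icc 2 F).filter (fun f => f ∣ pr A)).filter (fun f => f ≤ Q₀)).card : ℝ) ≤ Q₀ := by
      have : (((Icc 2 F).filter (fun f => f ∣ pr A)).filter (fun f => f ≤ Q₀)).card ≤ (Ioc 0 Q₀).card :=
        card_le_card fun f hf => by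
          simp only [mem_filter, mem_Icc, mem_Ioc] at hf ⊢
          omega
      simpa using this
    refine (mul_le_mul_of_nonneg_right hc (by positivity)).trans (le_of_eq ?_)
    field_simp
  have s2 : ∑ f ∈ ((Icc 2 F).filter (fun f => f ∣ pr A)).filter (fun f => ¬ f ≤ Q₀),
      (Real.sqrt f)⁻¹ * G f ≤ 70 * X * (1 + Real.log X) ^ 4 / Real.sqrt Q₀ := by
    calc _ ≤ ∑ f ∈ ((Icc 2 F).filter (fun f => f ∣ pr A)).filter (fun f => ¬ f ≤ Q₀),
          (Real.sqrt Q₀)⁻¹ * G f := by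
          refine sum_le_sum fun f hf => mul_le_mul_of_nonneg_right ?_ (hG0 f)
          have : (Q₀ : ℝ) ≤ f := by exact_mod_cast (not_le.1 (mem_filter.1 hf).2).le
          exact inv_anti₀ (by linarith) (Real.sqrt_le_sqrt this)
      _ ≤ ∑ f ∈ Icc 2 F, (Real.sqrt Q₀)⁻¹ * G f :=
          sum_le_sum_of_subset_of_nonneg ((filter_subset _ _).trans (filter_subset _ _))
            fun f _ _ => mul_nonneg (by positivity) (hG0 f)
      _ ≤ _ := by
          rw [← mul_sum, div_eq_inv_mul]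
          exact mul_le_mul_of_nonneg_left (mean_value F X hF) (by positivity)
  have s3 : (X : ℝ) / Q₀ ≤ X * (1 + Real.log X) ^ 4 / Real.sqrt Q₀ :=
    div_le_div₀ (by positivity) (le_mul_of_one_le_right hX hL) (by linarith) hs2
  calc _ ≤ X * (1 + Real.log X) ^ 4 / Real.sqrt Q₀
        + 70 * X * (1 + Real.log X) ^ 4 / Real.sqrt Q₀ := add_le_add (s1.trans s3) s2
    _ = _ := by ring

open Classical in
theorem Lev.prime_transfer {A : Finset ℕ} {e : ℕ} {Q C : ℝ} {Φ : ℕ → ℝ} (hA : ∀ p ∈ A, p.Prime)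
    (h : Lev A (fun _ => e) Q C Φ) {Q₀ p₁ : ℕ} (hp₁ : p₁.Prime)
    (hp₁A : p₁ ∉ A) (hSW : SWat Q₀ p₁) (hQ₀ : 0 < Q₀) {F a L j X : ℕ} (hQF : Q ≤ F)
    (hF : F ^ 7 ≤ a) (ha : 1 ≤ a) (hAa : ∀ p ∈ A, p ≤ a) (hX : a + L + j ≤ X)
    (h1 : Real.log Q₀ ^ 26 ≤ Real.log a) (h2 : Real.log X ≤ Q₀) :
    |∑ n ∈ Ioc a (a + L), th (n + j) * Φ n
        - (∑ n ∈ Ioc a (a + L), th (n + j)) * Eul A * avg (pr A) (fun n => rho A {j} n * Φ n)|
      ≤ C * cK e * Eul A ^ (2 ^ e) * (142 * X * (1 + Real.log X) ^ 4 / Real.sqrt Q₀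
        + F ^ 2 * (2 * Real.sqrt X * Real.log X)) := by
  have hC := h.C_nonneg
  refine (h.char_transfer hA F hQF j _ (fun n => th (n + j)) fun n hn h0 => ?_).trans
    (mul_le_mul_of_nonneg_left ?_ (mul_nonneg (mul_nonneg hC (zero_le_one.trans (one_le_cK e)))
      (pow_nonneg (zero_le_one.trans (one_le_Eul hA)) _)))
  · have hp : (n + j).Prime := by
      by_contra hh
      exact h0 (if_neg hh)
    refine Nat.Coprime.prod_right fun p hp' => (Nat.coprime_primes hp (hA p hp')).2 ?_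
    have := hAa p hp'
    have := (mem_Ioc.1 hn).1
    omega
  have ha' : (1 : ℝ) ≤ a := by exact_mod_cast ha
  have mono : ∀ Y : ℕ, a ≤ Y → Y ≤ X → Real.log a ≤ Real.log Y ∧ Real.log Y ≤ Real.log X ∧
      (Y : ℝ) ≤ X ∧ 0 ≤ Real.log Y := fun Y a1 a2 => by
    have b1 : (a : ℝ) ≤ Y := by exact_mod_cast a1
    have b2 : (Y : ℝ) ≤ X := by exact_mod_cast a2
    exact ⟨Real.log_le_log (by linarith) b1, Real.log_le_log (by linarith) b2, b2,
      Real.log_natCast_nonneg _⟩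
  have hb : ∀ Y : ℕ, a ≤ Y → Y ≤ X → ∑ f ∈ (Icc 2 F).filter (fun f => f ∣ pr A),
        (Real.sqrt f)⁻¹ * ∑ ψ : DirichletCharacter ℂ f with ψ.IsPrimitive,
          ‖∑ n ∈ range (Y + 1), ψ n * vonMangoldt n‖
      ≤ 71 * X * (1 + Real.log X) ^ 4 / Real.sqrt Q₀ := fun Y a1 a2 => by
    obtain ⟨b1, b2, b3, b4⟩ := mono Y a1 a2
    refine (char_sum_le hA hp₁ hp₁A hSW hQ₀ (hF.trans a1) (h1.trans b1) (b2.trans h2)).trans ?_
    gcongr
  obtain ⟨-, b2, b3, b4⟩ := mono (a + L + j) (by omega) hX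
  set δ : ℝ := 2 * Real.sqrt X * Real.log X with hδ
  have hδ0 : 0 ≤ δ := by have := Real.log_natCast_nonneg X; positivity
  have hδ1 : 2 * Real.sqrt (a + L + j : ℕ) * Real.log (a + L + j : ℕ) ≤ δ := by
    rw [hδ]; gcongr
  have s3 : ∑ f ∈ (Icc 2 F).filter (fun f => f ∣ pr A),
      (Real.sqrt f)⁻¹ * ∑ _ψ : DirichletCharacter ℂ f with _ψ.IsPrimitive, δ ≤ F ^ 2 * δ := by
    have : ∀ f ∈ (Icc 2 F).filter (fun f => f ∣ pr A),
        (Real.sqrt f)⁻¹ * ∑ _ψ : DirichletCharacter ℂ f with _ψ.IsPrimitive, δ ≤ F * δ := by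
      intro f hf
      simp only [mem_filter, mem_Icc] at hf
      have hf1 : (1 : ℝ) ≤ f := by exact_mod_cast (by omega : 1 ≤ f)
      refine (mul_le_of_le_one_left (sum_nonneg fun _ _ => hδ0)
        (inv_le_one_of_one_le₀ (Real.one_le_sqrt.2 hf1))).trans ?_
      rw [sum_const, nsmul_eq_mul]
      refine mul_le_mul_of_nonneg_right ?_ hδ0
      exact_mod_cast (card_primitive_le f (by omega)).trans hf.1.2
    refine (sum_le_card_nsmul _ _ _ this).trans ?_
    rw [nsmul_eq_mul, sq, mul_assoc]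
    refine mul_le_mul_of_nonneg_right ?_ (by positivity)
    have : ((Icc 2 F).filter (fun f => f ∣ pr A)).card ≤ F :=
      (card_filter_le _ _).trans (by simp)
    exact_mod_cast this
  have s1 := hb (a + L + j) (by omega) hX
  have s2 := hb (a + j) (by omega) (by omega)
  refine le_trans ?_ ((add_le_add (add_le_add s1 s2) s3).trans (le_of_eq (by ring)))
  rw [← sum_add_distrib, ← sum_add_distrib]
  refine sum_le_sum fun f _ => ?_
  rw [← mul_add, ← mul_add, ← sum_add_distrib, ← sum_add_distrib]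
  refine mul_le_mul_of_nonneg_left (sum_le_sum fun χ _ => ?_) (by positivity)
  exact (norm_th_char_le χ a L j ha).trans (by linarith)

end Pool.Agent.Work.MP_51e72e_nt.PP
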