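import Mathlib

/-!
Finite probability spaces and their products.
-/

set_option autoImplicit false

namespace Pool.Agent.Work.MP_51e72e_nt.PP

open Finset

section single

variable {α : Type*} {s : Finset α} {w : α → ℝ}

/-- expectation with respect to the weights `w` on `s` -/
noncomputable def Ex (s : Finset α) (w : α → ℝ) (f : α → ℝ) : ℝ := ∑ a ∈ s, w a * f a

/-- `w` is a probability weight on `s` -/
def IsProb (s : Finset α) (w : α → ℝ) : Prop := (∀ a ∈ s, 0 ≤ w a) ∧ ∑ a ∈ s, w a = 1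

lemma Ex_congr {f g : α → ℝ} (h : ∀ a ∈ s, f a = g a) : Ex s w f = Ex s w g :=
  sum_congr rfl fun a ha => by rw [h a ha]

lemma Ex_add (f g : α → ℝ) : Ex s w (fun a => f a + g a) = Ex s w f + Ex s w g := by
  simp only [Ex, mul_add, sum_add_distrib]

lemma Ex_sub (f g : α → ℝ) : Ex s w (fun a => f a - g a) = Ex s w f - Ex s w g := by
  simp only [Ex, mul_sub, sum_sub_distrib]

lemma Ex_smul (c : ℝ) (f : α → ℝ) : Ex s w (fun a => c * f a) = c * Ex s w f := by
  simp only [Ex, mul_sum]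
  exact sum_congr rfl fun a _ => by ring

lemma Ex_sum {κ : Type*} (I : Finset κ) (f : κ → α → ℝ) :
    Ex s w (fun a => ∑ i ∈ I, f i a) = ∑ i ∈ I, Ex s w (f i) := by
  simp only [Ex, mul_sum]
  exact sum_comm

lemma Ex_zero : Ex s w (fun _ => 0) = 0 := by simp [Ex]

lemma IsProb.mono (h : IsProb s w) {f g : α → ℝ} (hfg : ∀ a ∈ s, f a ≤ g a) :
    Ex s w f ≤ Ex s w g :=
  sum_le_sum fun a ha => mul_le_mul_of_nonneg_left (hfg a ha) (h.1 a ha)

lemma IsProb.nonneg (h : IsProb s w) {f : α → ℝ} (hf : ∀ a ∈ s, 0 ≤ f a) : 0 ≤ Ex s w f :=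
  sum_nonneg fun a ha => mul_nonneg (h.1 a ha) (hf a ha)

lemma IsProb.const (h : IsProb s w) (c : ℝ) : Ex s w (fun _ => c) = c := by
  unfold Ex
  rw [← sum_mul, h.2, one_mul]

lemma IsProb.cs (h : IsProb s w) (f g : α → ℝ) :
    Ex s w (fun a => f a * g a) ^ 2 ≤ Ex s w (fun a => f a ^ 2) * Ex s w (fun a => g a ^ 2) := by
  unfold Ex
  refine sum_sq_le_sum_mul_sum_of_sq_le_mul s (fun a ha => mul_nonneg (h.1 a ha) (sq_nonneg _))
    (fun a ha => mul_nonneg (h.1 a ha) (sq_nonneg _)) fun a _ => le_of_eq (by ring)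

end single

section prod

variable {ι α : Type*} [Fintype ι] [DecidableEq ι] {s : ι → Finset α} {w : ι → α → ℝ}

/-- product weight -/
noncomputable def pw (w : ι → α → ℝ) (T : ι → α) : ℝ := ∏ i, w i (T i)

/-- expectation on the product space -/
noncomputable def EE (s : ι → Finset α) (w : ι → α → ℝ) (f : (ι → α) → ℝ) : ℝ :=
  Ex (Fintype.piFinset s) (pw w) f

lemma EE_prod (f : ι → α → ℝ) :
    EE s w (fun T => ∏ i, f i (T i)) = ∏ i, Ex (s i) (w i) (f i) := by
  unfold EE Ex pw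
  rw [prod_univ_sum]
  exact sum_congr rfl fun T _ => prod_mul_distrib.symm

lemma isProb_pi (h : ∀ i, IsProb (s i) (w i)) : IsProb (Fintype.piFinset s) (pw w) := by
  refine ⟨fun T hT => prod_nonneg fun i _ => (h i).1 _ (Fintype.mem_piFinset.1 hT i), ?_⟩
  unfold pw
  rw [← prod_univ_sum]
  exact prod_eq_one fun i _ => (h i).2

lemma EE_single (h : ∀ i, IsProb (s i) (w i)) (j : ι) (f : α → ℝ) :
    EE s w (fun T => f (T j)) = Ex (s j) (w j) f := by
  have := EE_prod (s := s) (w := w) (fun i x => if i = j then f x else 1)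
  simp only [prod_ite_eq', mem_univ, if_true] at this
  rw [this, prod_eq_single j]
  · simp
  · intro i _ hi
    simp only [hi, if_false]
    exact (h i).const 1
  · simp

/-- `f` only depends on the coordinates in `U` -/
def Dep (U : Finset ι) (f : (ι → α) → ℝ) : Prop :=
  ∀ T T', (∀ j ∈ U, T j = T' j) → f T = f T'

omit [Fintype ι] [DecidableEq ι] in
lemma Dep.mono {U V : Finset ι} {f : (ι → α) → ℝ} (h : Dep U f) (hUV : U ⊆ V) : Dep V f :=
  fun T T' e => h T T' fun j hj => e j (hUV hj)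

omit [Fintype ι] [DecidableEq ι] in
lemma Dep.mul {U : Finset ι} {f g : (ι → α) → ℝ} (h : Dep U f) (h' : Dep U g) :
    Dep U (fun T => f T * g T) :=
  fun T T' e => by simp only [h T T' e, h' T T' e]

omit [Fintype ι] [DecidableEq ι] in
lemma Dep.comp {U : Finset ι} {f : (ι → α) → ℝ} (h : Dep U f) (g : ℝ → ℝ) :
    Dep U (fun T => g (f T)) :=
  fun T T' e => by simp only [h T T' e]

lemma EE_indep (h : ∀ i, IsProb (s i) (w i)) {U V : Finset ι} (hUV : Disjoint U V)
    {f g : (ι → α) → ℝ} (hf : Dep U f) (hg : Dep V g) :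
    EE s w (fun T => f T * g T) = EE s w f * EE s w g := by
  have h1 := (isProb_pi h).2
  set P := Fintype.piFinset s
  have e1 : EE s w (fun T => f T * g T)
      = ∑ x ∈ P ×ˢ P, pw w x.1 * pw w x.2 * (f x.1 * g x.1) := by
    rw [sum_product]
    refine sum_congr rfl fun T _ => ?_
    simp only
    rw [← sum_mul, ← mul_sum, h1, mul_one]
  have e2 : EE s w f * EE s w g = ∑ x ∈ P ×ˢ P, pw w x.1 * pw w x.2 * (f x.1 * g x.2) := by
    unfold EE Ex
    rw [sum_mul_sum, sum_product]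
    exact sum_congr rfl fun T _ => sum_congr rfl fun T' _ => by ring
  rw [e1, e2]
  have hm : ∀ x ∈ P ×ˢ P, (U.piecewise x.1 x.2, U.piecewise x.2 x.1) ∈ P ×ˢ P := by
    intro x hx
    simp only [mem_product, P, Fintype.mem_piFinset] at hx ⊢
    constructor <;> intro j <;> by_cases hj : j ∈ U <;> simp [hj, hx.1 j, hx.2 j]
  have hi : ∀ x : (ι → α) × (ι → α), (U.piecewise (U.piecewise x.1 x.2) (U.piecewise x.2 x.1),
      U.piecewise (U.piecewise x.2 x.1) (U.piecewise x.1 x.2)) = x := by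
    intro x
    ext j <;> by_cases hj : j ∈ U <;> simp [hj]
  symm
  refine sum_nbij' (fun x => (U.piecewise x.1 x.2, U.piecewise x.2 x.1))
    (fun x => (U.piecewise x.1 x.2, U.piecewise x.2 x.1)) hm hm (fun x _ => hi x) (fun x _ => hi x)
    fun x _ => ?_
  have a1 : f (U.piecewise x.1 x.2) = f x.1 := hf _ _ fun j hj => by simp [hj]
  have a2 : g (U.piecewise x.1 x.2) = g x.2 := hg _ _ fun j hj => by
    simp [disjoint_right.1 hUV hj]
  simp only [a1, a2]
  congr 1
  unfold pw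
  rw [← prod_mul_distrib, ← prod_mul_distrib]
  refine prod_congr rfl fun j _ => ?_
  by_cases hj : j ∈ U <;> simp [hj, mul_comm]

lemma EE_indep_prod (h : ∀ i, IsProb (s i) (w i)) {κ : Type*} (I : Finset κ) (U : κ → Finset ι)
    (hU : ∀ i ∈ I, ∀ i' ∈ I, i ≠ i' → Disjoint (U i) (U i')) (f : κ → (ι → α) → ℝ)
    (hf : ∀ i ∈ I, Dep (U i) (f i)) :
    EE s w (fun T => ∏ i ∈ I, f i T) = ∏ i ∈ I, EE s w (f i) := by
  classical
  induction I using Finset.induction_on with
  | empty => simpa [EE] using (isProb_pi h).const 1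
  | insert a I ha ih =>
    simp_rw [prod_insert ha]
    rw [← ih (fun i hi i' hi' => hU i (mem_insert_of_mem hi) i' (mem_insert_of_mem hi'))
      fun i hi => hf i (mem_insert_of_mem hi)]
    refine EE_indep h (V := I.biUnion U) ?_ (hf a (mem_insert_self _ _)) ?_
    · rw [disjoint_biUnion_right]
      exact fun i hi => hU a (mem_insert_self _ _) i (mem_insert_of_mem hi) fun e => ha (e ▸ hi)
    · intro T T' e
      exact prod_congr rfl fun i hi => hf i (mem_insert_of_mem hi) T T' fun j hj =>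
        e j (mem_biUnion.2 ⟨i, hi, hj⟩)

lemma sum_sum_prod {L : Type*} [Fintype L] (K : ι → L → L → ℝ) :
    ∑ r : ι → L, ∑ r' : ι → L, ∏ i, K i (r i) (r' i) = ∏ i, ∑ a, ∑ a', K i a a' := by
  rw [Fintype.prod_sum]
  refine sum_congr rfl fun r _ => ?_
  rw [Fintype.prod_sum]

lemma sum_sum_mul_prod {L : Type*} [Fintype L] (K : ι → L → L → ℝ) (τ : L → ℝ) (i₁ : ι) :
    ∑ r : ι → L, ∑ r' : ι → L, τ (r i₁) * ∏ i, K i (r i) (r' i)
      = (∑ a, ∑ a', τ a * K i₁ a a') * ∏ i ∈ univ.erase i₁, ∑ a, ∑ a', K i a a' := by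
  have := sum_sum_prod (fun i a a' => (if i = i₁ then τ a else 1) * K i a a')
  simp only [prod_mul_distrib, prod_ite_eq', mem_univ, if_true] at this
  rw [this, ← mul_prod_erase _ _ (mem_univ i₁)]
  simp only [if_true]
  congr 1
  refine prod_congr rfl fun i hi => ?_
  simp [(mem_erase.1 hi).1]

end prod

end Pool.Agent.Work.MP_51e72e_nt.PP
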