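import Pool.Agent.Work.MP_51e72e_nt.PPPrime

/-!
Functions built from sieve indicators times functions of small level, and the transfer of their
sums over integers and over shifted primes to averages over a period.
-/

set_option autoImplicit false

namespace Pool.Agent.Work.MP_51e72e_nt.PP

open Finset Pool.Agent.Lib.ANT

/-- truncated inclusion–exclusion -/
noncomputable def bet (k : ℕ) (T : Finset ℕ) : ℝ :=
  ∑ D ∈ T.powerset, if D.card ≤ k then (-1 : ℝ) ^ D.card else 0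

lemma bet_empty (k : ℕ) : bet k ∅ = 1 := by simp [bet]

lemma bet_eq (k : ℕ) {T : Finset ℕ} (hT : T ≠ ∅) :
    bet k T = (-1) ^ k * ((T.card - 1).choose k : ℝ) := by
  obtain ⟨n, hn⟩ : ∃ n, T.card = n + 1 :=
    Nat.exists_eq_succ_of_ne_zero (by rwa [ne_eq, card_eq_zero])
  unfold bet
  rw [sum_powerset_apply_card (fun m => if m ≤ k then (-1 : ℝ) ^ m else 0), hn,
    Nat.add_sub_cancel]
  have h := congrArg (fun z : ℤ => (z : ℝ)) (Int.alternating_sum_range_choose_eq_choose (n := n) (m := k))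
  push_cast at h
  rw [← h]
  have e1 : ∀ m ∈ range (n + 1 + 1), ((n + 1).choose m • if m ≤ k then (-1 : ℝ) ^ m else 0)
      = if m ≤ k then (-1 : ℝ) ^ m * (n + 1).choose m else 0 := fun m _ => by
    split_ifs <;> simp [mul_comm]
  rw [sum_congr rfl e1, ← sum_filter]
  refine sum_subset (fun m hm => ?_) fun m hm hm' => ?_
  · simp only [mem_filter, mem_range] at hm ⊢; omega
  · simp only [mem_filter, mem_range] at hm hm'
    rw [Nat.choose_eq_zero_of_lt (by omega)]; simp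

lemma bet_nonneg {k : ℕ} (hk : Even k) (T : Finset ℕ) : 0 ≤ bet k T := by
  by_cases hT : T = ∅
  · rw [hT, bet_empty]; norm_num
  · rw [bet_eq k hT, hk.neg_one_pow]; positivity

lemma abs_bet_le (k : ℕ) (T : Finset ℕ) :
    |bet k T| ≤ if T = ∅ then 1 else if k < T.card then 2 ^ T.card else 0 := by
  by_cases hT : T = ∅
  · rw [if_pos hT, hT, bet_empty, abs_one]
  · rw [if_neg hT, bet_eq k hT, abs_mul, abs_pow, abs_neg, abs_one, one_pow, one_mul, Nat.abs_cast]
    have : 0 < T.card := card_pos.2 (nonempty_iff_ne_empty.2 hT)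
    split_ifs with h
    · have h1 : (T.card - 1).choose k ≤ 2 ^ T.card :=
        (Nat.choose_le_two_pow _ _).trans (Nat.pow_le_pow_right (by norm_num) (by omega))
      exact_mod_cast h1
    · rw [Nat.choose_eq_zero_of_lt (by omega)]; simp

lemma abs_sub_bet_le (u : ℕ) (T : Finset ℕ) :
    |(if T = ∅ then 1 else 0) - bet u T|
      ≤ ∑ D ∈ T.powerset, if D.card = u + 1 then (1 : ℝ) else 0 := by
  by_cases hT : T = ∅
  · rw [if_pos hT, hT, bet_empty]; simp
  · rw [if_neg hT, zero_sub, abs_neg, bet_eq u hT, abs_mul, abs_pow, abs_neg, abs_one, one_pow,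
      one_mul, Nat.abs_cast, sum_boole, ← powersetCard_eq_filter, card_powersetCard]
    obtain ⟨n, hn⟩ : ∃ n, T.card = n + 1 :=
      Nat.exists_eq_succ_of_ne_zero (by rwa [ne_eq, card_eq_zero])
    rw [hn, Nat.add_sub_cancel, Nat.choose_succ_succ]
    exact_mod_cast Nat.le_add_right _ _

lemma pr_le_pow {D : Finset ℕ} {y : ℕ} (h : ∀ p ∈ D, p ≤ y) : pr D ≤ y ^ D.card :=
  prod_le_pow_card _ _ _ h

lemma le_two_pow_sub_one (e : ℕ) : (e : ℝ) ≤ 2 ^ e - 1 := by
  have : e + 1 ≤ 2 ^ e := Nat.lt_two_pow_self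
  have : (e : ℝ) + 1 ≤ 2 ^ e := by exact_mod_cast this
  linarith

variable {A B : Finset ℕ}

lemma lev_bet (hA : ∀ p ∈ A, p.Prime) (hB : B ⊆ A) {y : ℕ} (hy : ∀ p ∈ B, p ≤ y) (hy1 : 1 ≤ y)
    (S : Finset ℕ) {d : ℕ → ℕ} (hd : ∀ p ∈ B, (S.card : ℝ) ≤ 2 ^ d p - 1) (u : ℕ) :
    Lev A d ((y : ℝ) ^ u) 1 (fun n => bet u (hit B S n)) := by
  refine Lev.hits hA hB S (fun D => if D.card ≤ u then (-1 : ℝ) ^ D.card else 0) zero_le_one
    (fun D hD => ?_) fun D hD hq => if_neg fun h => ?_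
  · have h1 : (S.card : ℝ) ^ D.card ≤ kap d D := by
      unfold kap
      rw [← prod_const]
      exact prod_le_prod (fun _ _ => Nat.cast_nonneg _) fun p hp => hd p (hD hp)
    rw [one_mul]
    refine le_trans (mul_le_of_le_one_left (by positivity) ?_) h1
    split_ifs <;> simp
  · have h1 : pr D ≤ y ^ u :=
      (pr_le_pow fun p hp => hy p (hD hp)).trans (Nat.pow_le_pow_right hy1 h)
    have : ((pr D : ℕ) : ℝ) ≤ (y : ℝ) ^ u := by exact_mod_cast h1
    linarith

lemma lev_err (hA : ∀ p ∈ A, p.Prime) (hB : B ⊆ A) {y : ℕ} (hy : ∀ p ∈ B, p ≤ y)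
    (S : Finset ℕ) {e : ℕ} (hS : S.card ≤ e) (u : ℕ) :
    Lev A (fun _ => e + 1) ((y : ℝ) ^ u) ((2 ^ u)⁻¹)
      (fun n => ∑ D ∈ (hit B S n).powerset, if D.card = u then (1 : ℝ) else 0) := by
  refine Lev.hits hA hB S (fun D => if D.card = u then (1 : ℝ) else 0) (by positivity)
    (fun D hD => ?_) fun D hD hq => if_neg fun h => ?_
  · split_ifs with h
    · unfold kap
      rw [prod_const, h, abs_one, one_mul, ← inv_pow, ← mul_pow]
      refine pow_le_pow_left₀ (Nat.cast_nonneg _) ?_ _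
      have h1 : (S.card : ℝ) ≤ e := by exact_mod_cast hS
      have := le_two_pow_sub_one e
      rw [pow_succ]
      linarith
    · simp only [abs_zero, zero_mul]
      exact mul_nonneg (by positivity) (kap_nonneg _ _)
  · have h1 : pr D ≤ y ^ u := h ▸ pr_le_pow fun p hp => hy p (hD hp)
    have : ((pr D : ℕ) : ℝ) ≤ (y : ℝ) ^ u := by exact_mod_cast h1
    linarith

/-- sums of products of a sieve indicator with a function of small level -/
inductive Str (A B : Finset ℕ) (e : ℕ) (Q : ℝ) : ℝ → (ℕ → ℝ) → Prop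
  | atom (S : Finset ℕ) (hS : S.card ≤ e) {C : ℝ} {ψ : ℕ → ℝ} (h : Lev A (fun _ => e) Q C ψ) :
      Str A B e Q C (fun n => rho B S n * ψ n)
  | add {C C' : ℝ} {Φ Φ' : ℕ → ℝ} : Str A B e Q C Φ → Str A B e Q C' Φ' →
      Str A B e Q (C + C') (fun n => Φ n + Φ' n)

variable {e e' : ℕ} {Q Q' C C' : ℝ} {Φ Φ' : ℕ → ℝ}

lemma Str.congr (h : Str A B e Q C Φ) (h' : ∀ n, Φ' n = Φ n) : Str A B e Q C Φ' := by
  rw [show Φ' = Φ from funext h']; exact h

lemma Str.of_lev (h : Lev A (fun _ => e) Q C Φ) : Str A B e Q C Φ :=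
  (Str.atom ∅ (by simp) h).congr fun n => by rw [rho_empty, one_mul]

lemma Str.C_nonneg (h : Str A B e Q C Φ) : 0 ≤ C := by
  induction h with
  | atom S hS h => exact h.C_nonneg
  | add _ _ h1 h2 => linarith

lemma Str.zero : Str A B e Q 0 (fun _ => 0) := Str.of_lev Lev.zero

lemma Str.mono (h : Str A B e Q C Φ) (he : e ≤ e') (hQ : Q ≤ Q') (hC : C ≤ C') :
    Str A B e' Q' C' Φ := by
  have h1 : Str A B e' Q' C Φ := by
    clear hC
    induction h with
    | atom S hS h => exact Str.atom S (hS.trans he) (h.mono (fun _ _ => he) hQ le_rfl)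
    | add _ _ h1 h2 => exact h1.add h2
  have h2 : Str A B e' Q' (C' - C) (fun _ => 0) :=
    Str.of_lev (Lev.zero.mono (fun _ _ => le_rfl) le_rfl (by linarith))
  simpa using h1.add h2

lemma Str.smul (h : Str A B e Q C Φ) (c : ℝ) : Str A B e Q (|c| * C) (fun n => c * Φ n) := by
  induction h with
  | atom S hS h => exact (Str.atom S hS (h.smul c)).congr fun n => by ring
  | add _ _ h1 h2 => rw [mul_add]; exact (h1.add h2).congr fun n => by ring

lemma Str.mul (hA : ∀ p ∈ A, p.Prime) (h : Str A B e Q C Φ) (h' : Str A B e' Q' C' Φ') :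
    Str A B (e + e') (Q * Q') (C * C') (fun n => Φ n * Φ' n) := by
  induction h with
  | atom S hS h =>
    induction h' with
    | atom S' hS' h' =>
      exact (Str.atom (S ∪ S') ((card_union_le _ _).trans (add_le_add hS hS'))
        (h.mul hA h')).congr fun n => by rw [← rho_mul]; ring
    | add _ _ h1 h2 => rw [mul_add]; exact (h1.add h2).congr fun n => by ring
  | add _ _ h1 h2 => rw [add_mul]; exact (h1.add h2).congr fun n => by ring

lemma Str.sum {ι : Type*} (s : Finset ι) (C : ι → ℝ) (Φ : ι → ℕ → ℝ)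
    (h : ∀ i ∈ s, Str A B e Q (C i) (Φ i)) :
    Str A B e Q (∑ i ∈ s, C i) (fun n => ∑ i ∈ s, Φ i n) := by
  classical
  induction s using Finset.induction_on with
  | empty => simpa using Str.zero
  | insert a s ha ih =>
    simp_rw [sum_insert ha]
    exact (h a (mem_insert_self _ _)).add (ih fun i hi => h i (mem_insert_of_mem hi))

lemma Str.one : Str A B 0 1 1 (fun _ => 1) := by
  simpa using Str.of_lev (B := B) (Lev.const (A := A) (d := fun _ => 0) le_rfl 1)

lemma Str.prod {ι : Type*} (hA : ∀ p ∈ A, p.Prime) (s : Finset ι) (e : ι → ℕ) (Q C : ι → ℝ)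
    (Φ : ι → ℕ → ℝ) (h : ∀ i ∈ s, Str A B (e i) (Q i) (C i) (Φ i)) :
    Str A B (∑ i ∈ s, e i) (∏ i ∈ s, Q i) (∏ i ∈ s, C i) (fun n => ∏ i ∈ s, Φ i n) := by
  classical
  induction s using Finset.induction_on with
  | empty => simpa using Str.one
  | insert a s ha ih =>
    simp_rw [prod_insert ha, sum_insert ha]
    exact (h a (mem_insert_self _ _)).mul hA (ih fun i hi => h i (mem_insert_of_mem hi))

lemma Str.transfer (hA : ∀ p ∈ A, p.Prime) (hB : B ⊆ A) {y : ℕ} (hy : ∀ p ∈ B, p ≤ y)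
    (hy1 : 1 ≤ y) (hQ : 0 ≤ Q) (u a L : ℕ) (α g : ℕ → ℝ) {β αm ε : ℝ} (hα0 : ∀ n, 0 ≤ α n)
    (hα : ∀ n ∈ Ioc a (a + L), α n ≤ αm) (hαm : 0 ≤ αm) (hβ : 0 ≤ β) (hg0 : ∀ n, 0 ≤ g n)
    (hg : ∀ n, g n ≤ 1)
    (hL : ∀ C Φ, Lev A (fun _ => 2 * e + 1) (y ^ (u + 1) * Q) C Φ →
      |∑ n ∈ Ioc a (a + L), α n * Φ n - β * avg (pr A) (fun n => g n * Φ n)| ≤ C * ε)
    (h : Str A B e Q C Φ) :
    |∑ n ∈ Ioc a (a + L), α n * Φ n - β * avg (pr A) (fun n => g n * Φ n)|
      ≤ C * (ε + (αm * (L + y ^ (u + 1) * Q) + β) * ((2 ^ (u + 1))⁻¹ * Eul A ^ (2 ^ (2 * e + 1)))) := by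
  induction h with
  | @atom S hS C ψ h =>
    have hC := h.C_nonneg
    have hy' : (1 : ℝ) ≤ y := by exact_mod_cast hy1
    have hS' : (S.card : ℝ) ≤ 2 ^ e - 1 :=
      le_trans (by exact_mod_cast hS) (le_two_pow_sub_one e)
    have l1 := ((lev_bet hA hB hy hy1 S (d := fun _ => e) (fun _ _ => hS') u).mul hA h).mono
      (d' := fun _ => 2 * e + 1) (Q' := y ^ (u + 1) * Q) (fun _ _ => by omega)
      (mul_le_mul_of_nonneg_right (pow_le_pow_right₀ hy' (by omega)) hQ) (one_mul C).le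
    obtain ⟨Ψ, hΨ, hΨ'⟩ := h.abs
    have l2 := ((lev_err hA hB hy S hS (u + 1)).mul hA hΨ).mono
      (d' := fun _ => 2 * e + 1) (fun _ _ => by omega) le_rfl le_rfl
    set W : ℕ → ℝ := fun n =>
      (∑ D ∈ (hit B S n).powerset, if D.card = u + 1 then (1 : ℝ) else 0) * Ψ n with hW
    have hd : ∀ n, |rho B S n * ψ n - bet u (hit B S n) * ψ n| ≤ W n := fun n => by
      rw [← sub_mul, abs_mul, rho_eq]
      exact mul_le_mul (abs_sub_bet_le u _) (hΨ' n) (abs_nonneg _)
        (sum_nonneg fun _ _ => by split_ifs <;> norm_num)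
    have hW0 : ∀ n, 0 ≤ W n := fun n => (abs_nonneg _).trans (hd n)
    have t1 := hL _ _ l1
    have t2 := (le_abs_self _).trans (l2.abs_avg_le hA)
    have t3 := (le_abs_self _).trans (l2.int_transfer hA (by positivity) a L)
    have s1 : |∑ n ∈ Ioc a (a + L), α n * (rho B S n * ψ n)
        - ∑ n ∈ Ioc a (a + L), α n * (bet u (hit B S n) * ψ n)|
        ≤ αm * ∑ n ∈ Ioc a (a + L), W n := by
      rw [← sum_sub_distrib, mul_sum]
      refine (abs_sum_le_sum_abs _ _).trans (sum_le_sum fun n hn => ?_)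
      rw [← mul_sub, abs_mul, abs_of_nonneg (hα0 n)]
      exact mul_le_mul (hα n hn) (hd n) (abs_nonneg _) hαm
    have s2 : |avg (pr A) (fun n => g n * (rho B S n * ψ n))
        - avg (pr A) (fun n => g n * (bet u (hit B S n) * ψ n))| ≤ avg (pr A) W := by
      rw [← avg_sub]
      refine (abs_avg_le _ _).trans (avg_mono fun n => ?_)
      rw [← mul_sub, abs_mul, abs_of_nonneg (hg0 n)]
      exact (mul_le_of_le_one_left (abs_nonneg _) (hg n)).trans (hd n)
    set E := Eul A ^ (2 ^ (2 * e + 1))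
    set η : ℝ := (2 ^ (u + 1))⁻¹
    have hL0 : (0 : ℝ) ≤ L := Nat.cast_nonneg L
    have s3 : ∑ n ∈ Ioc a (a + L), W n ≤ (L + y ^ (u + 1) * Q) * (η * C * E) := by
      have := mul_le_mul_of_nonneg_left t2 hL0
      nlinarith
    have s4 := mul_le_mul_of_nonneg_left s3 hαm
    have s5 := mul_le_mul_of_nonneg_left (s2.trans t2) hβ
    rw [← abs_of_nonneg hβ, ← abs_mul, abs_of_nonneg hβ, mul_sub] at s5
    rw [abs_le] at s1 s5 t1 ⊢
    constructor <;> nlinarith
  | add _ _ h1 h2 =>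
    simp only [mul_add, sum_add_distrib, avg_add, add_mul] at h1 h2 ⊢
    rw [abs_le] at h1 h2 ⊢
    constructor <;> linarith [h1.1, h1.2, h2.1, h2.2]

end Pool.Agent.Work.MP_51e72e_nt.PP
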