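import Pool.Agent.Work.MP_51e72e_nt.PPModel
import Pool.Agent.Work.MP_51e72e_nt.PPStr

/-!
The orthogonal system on one coordinate: a random set of primes, split into blocks.
-/

set_option autoImplicit false

namespace Pool.Agent.Work.MP_51e72e_nt.PP

open Finset

/-- weight of a random subset of `Q` with independent inclusions -/
noncomputable def wt (q : ℕ → ℝ) (Q T : Finset ℕ) : ℝ := (∏ p ∈ T, q p) * ∏ p ∈ Q \ T, (1 - q p)

section base

variable {q : ℕ → ℝ} {Q : Finset ℕ}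

lemma Ex_pow_card (c : ℝ) :
    Ex Q.powerset (wt q Q) (fun T => c ^ T.card) = ∏ p ∈ Q, (1 + (c - 1) * q p) := by
  rw [prod_congr rfl (g := fun p => c * q p + (1 - q p)) fun p _ => by ring, prod_add]
  refine sum_congr rfl fun T _ => ?_
  unfold wt
  rw [prod_mul_distrib, prod_const]
  ring

lemma isProb_wt (h0 : ∀ p ∈ Q, 0 ≤ q p) (h1 : ∀ p ∈ Q, q p ≤ 1 / 2) :
    IsProb Q.powerset (wt q Q) := by
  refine ⟨fun T hT => mul_nonneg (prod_nonneg fun p hp => h0 p (mem_powerset.1 hT hp))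
    (prod_nonneg fun p hp => by linarith [h1 p (mem_sdiff.1 hp).1]), ?_⟩
  simpa [Ex] using Ex_pow_card (q := q) (Q := Q) 1

lemma Ex_empty :
    Ex Q.powerset (wt q Q) (fun T => if T = ∅ then 1 else 0) = ∏ p ∈ Q, (1 - q p) := by
  simp [Ex, wt]

lemma Ex_pow_card_le (h0 : ∀ p ∈ Q, 0 ≤ q p) (h3 : ∑ p ∈ Q, q p ≤ 3) {c : ℝ} (hc : 1 ≤ c) :
    Ex Q.powerset (wt q Q) (fun T => c ^ T.card) ≤ Real.exp ((c - 1) * 3) := by
  rw [Ex_pow_card]
  refine (prod_le_prod (g := fun p => Real.exp ((c - 1) * q p))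
    (fun p hp => by nlinarith [h0 p hp]) fun p _ => by
      linarith [Real.add_one_le_exp ((c - 1) * q p)]).trans ?_
  rw [← Real.exp_sum, ← mul_sum]
  exact Real.exp_le_exp.2 (by nlinarith)

lemma prod_one_sub_le (h1 : ∀ p ∈ Q, q p ≤ 1 / 2) :
    ∏ p ∈ Q, (1 - q p) ≤ Real.exp (-∑ p ∈ Q, q p) := by
  rw [← sum_neg_distrib, Real.exp_sum]
  exact prod_le_prod (fun p hp => by linarith [h1 p hp]) fun p _ => by
    linarith [Real.add_one_le_exp (-q p)]

lemma exp_le_one_sub {x : ℝ} (h0 : 0 ≤ x) (h1 : x ≤ 1 / 2) : Real.exp (-(x + 2 * x ^ 2)) ≤ 1 - x := by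
  rw [Real.exp_neg, inv_le_comm₀ (Real.exp_pos _) (by linarith)]
  refine le_trans ?_ (Real.add_one_le_exp _)
  rw [inv_le_iff_one_le_mul₀ (by linarith)]
  nlinarith [mul_nonneg h0 (sq_nonneg x), mul_nonneg (sq_nonneg x) (show 0 ≤ 1 - 2 * x by linarith)]

lemma le_prod_one_sub (h0 : ∀ p ∈ Q, 0 ≤ q p) (h1 : ∀ p ∈ Q, q p ≤ 1 / 2) :
    Real.exp (-(∑ p ∈ Q, q p + 2 * ∑ p ∈ Q, q p ^ 2)) ≤ ∏ p ∈ Q, (1 - q p) := by
  rw [mul_sum, ← sum_add_distrib, ← sum_neg_distrib, Real.exp_sum]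
  exact prod_le_prod (fun p _ => (Real.exp_pos _).le) fun p hp => exp_le_one_sub (h0 p hp) (h1 p hp)

/-- majorant of the powers of `bet k` -/
noncomputable def maj (k : ℕ) (T : Finset ℕ) : ℝ :=
  if T = ∅ then 1 else if k < T.card then 16 ^ T.card else 0

lemma abs_bet_pow_le (k : ℕ) (T : Finset ℕ) {a : ℕ} (ha1 : 1 ≤ a) (ha4 : a ≤ 4) :
    |bet k T| ^ a ≤ maj k T := by
  refine (pow_le_pow_left₀ (abs_nonneg _) (abs_bet_le k T) a).trans ?_
  unfold maj
  split_ifs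
  · simp
  · refine (pow_le_pow_right₀ (one_le_pow₀ (by norm_num)) ha4).trans (le_of_eq ?_)
    rw [← pow_mul, mul_comm, pow_mul]; norm_num
  · rw [zero_pow (by omega)]

lemma exp_99_le : Real.exp 99 ≤ 2 ^ 198 := by
  have h : Real.exp 1 ≤ 4 := by linarith [Real.exp_one_lt_d9]
  calc Real.exp 99 = Real.exp 1 ^ 99 := by rw [← Real.exp_nat_mul]; norm_num
    _ ≤ 4 ^ 99 := pow_le_pow_left₀ (Real.exp_pos _).le h _
    _ = 2 ^ 198 := by norm_num

lemma Ex_maj_le (h0 : ∀ p ∈ Q, 0 ≤ q p) (h1 : ∀ p ∈ Q, q p ≤ 1 / 2) (h3 : ∑ p ∈ Q, q p ≤ 3)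
    (k : ℕ) : Ex Q.powerset (wt q Q) (maj (200 + k))
      ≤ (∏ p ∈ Q, (1 - q p)) * (1 + (1 / 4) * (1 / 2) ^ k) := by
  have hp := isProb_wt h0 h1
  have a1 : Ex Q.powerset (wt q Q) (maj (200 + k)) ≤ Ex Q.powerset (wt q Q)
      (fun T => (if T = ∅ then 1 else 0) + (1 / 2) ^ (200 + k) * 32 ^ T.card) := by
    refine hp.mono fun T _ => ?_
    unfold maj
    split_ifs with h h'
    · exact le_add_of_nonneg_right (by positivity)
    · have : (1 / 2 : ℝ) ^ T.card ≤ (1 / 2) ^ (200 + k) :=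
        pow_le_pow_of_le_one (by norm_num) (by norm_num) h'.le
      have e : (16 : ℝ) ^ T.card = (1 / 2) ^ T.card * 32 ^ T.card := by rw [← mul_pow]; norm_num
      rw [e, zero_add]
      gcongr
    · positivity
  rw [Ex_add, Ex_smul, Ex_empty] at a1
  have a2 := Ex_pow_card_le h0 h3 (c := 32) (by norm_num)
  have a3 : ∑ p ∈ Q, q p ^ 2 ≤ ∑ p ∈ Q, q p / 2 := sum_le_sum fun p hp => by
    nlinarith [h0 p hp, h1 p hp]
  rw [← sum_div] at a3
  have a4 : Real.exp (-6) ≤ ∏ p ∈ Q, (1 - q p) :=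
    (Real.exp_le_exp.2 (by linarith)).trans (le_prod_one_sub h0 h1)
  have a5 : Real.exp ((32 - 1) * 3) = Real.exp (-6) * Real.exp 99 := by
    rw [← Real.exp_add]; norm_num
  have a6 : Real.exp ((32 - 1) * 3) ≤ (∏ p ∈ Q, (1 - q p)) * 2 ^ 198 := by
    rw [a5]
    exact mul_le_mul a4 exp_99_le (Real.exp_pos _).le ((Real.exp_pos _).le.trans a4)
  have a7 := mul_le_mul_of_nonneg_left (a2.trans a6) (show (0 : ℝ) ≤ (1 / 2) ^ (200 + k) by positivity)
  refine a1.trans (le_trans (add_le_add le_rfl a7) (le_of_eq ?_))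
  rw [pow_add]
  ring

/-- mean of the truncated inclusion–exclusion function -/
noncomputable def bm (q : ℕ → ℝ) (Q : Finset ℕ) : ℝ := Ex Q.powerset (wt q Q) (bet 200)

lemma bm_nonneg (h0 : ∀ p ∈ Q, 0 ≤ q p) (h1 : ∀ p ∈ Q, q p ≤ 1 / 2) : 0 ≤ bm q Q :=
  (isProb_wt h0 h1).nonneg fun T _ => bet_nonneg (by decide) T

lemma bm_le (h0 : ∀ p ∈ Q, 0 ≤ q p) (h1 : ∀ p ∈ Q, q p ≤ 1 / 2) (h2 : 2 ≤ ∑ p ∈ Q, q p)
    (h3 : ∑ p ∈ Q, q p ≤ 3) : bm q Q ≤ 1 / 2 := by
  have a1 : bm q Q ≤ Ex Q.powerset (wt q Q) (maj (200 + 0)) := (isProb_wt h0 h1).mono fun T _ =>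
    (le_abs_self _).trans (by simpa using abs_bet_pow_le 200 T le_rfl (by norm_num))
  have a2 := Ex_maj_le h0 h1 h3 0
  have a3 : ∏ p ∈ Q, (1 - q p) ≤ Real.exp (-2) :=
    (prod_one_sub_le h1).trans (Real.exp_le_exp.2 (by linarith))
  have a4 : Real.exp (-2) ≤ 1 / 3 := by
    rw [Real.exp_neg, inv_le_comm₀ (Real.exp_pos _) (by norm_num)]
    linarith [Real.add_one_le_exp 2]
  norm_num at a2
  linarith

end base

/-- hypotheses on the blocks of primes and the inclusion probabilities -/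
structure Blocks (M : ℕ) (Q : ℕ → Finset ℕ) (q : ℕ → ℝ) : Prop where
  q0 : ∀ i, ∀ p ∈ Q i, 0 ≤ q p
  q1 : ∀ i, ∀ p ∈ Q i, q p ≤ 1 / 2
  s2 : ∀ i, 2 ≤ ∑ p ∈ Q i, q p
  s3 : ∀ i, ∑ p ∈ Q i, q p ≤ 3
  vlo : ∀ t, 1 / (3 * 16 ^ t) ≤ ∏ i ∈ range t, ∏ p ∈ Q i, (1 - q p)
  vhi : ∀ t, ∏ i ∈ range t, ∏ p ∈ Q i, (1 - q p) ≤ 3 / 16 ^ t

/-- the factor on block `i` of the function of rank `t` -/
noncomputable def fe (q : ℕ → ℝ) (Q : ℕ → Finset ℕ) (t i : ℕ) (T : Finset ℕ) : ℝ :=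
  if i < t then bet (200 + 2 * (t - i)) T
  else if i = t then (bet 200 T - bm q (Q i)) / (1 - bm q (Q i)) else 1

/-- the function of rank `t` -/
noncomputable def es (q : ℕ → ℝ) (Q : ℕ → Finset ℕ) (M t : ℕ) (T : Fin M → Finset ℕ) : ℝ :=
  ∏ i : Fin M, fe q Q t i (T i)

/-- the one-coordinate space -/
noncomputable abbrev sp (M : ℕ) (Q : ℕ → Finset ℕ) : Finset (Fin M → Finset ℕ) :=
  Fintype.piFinset fun i : Fin M => (Q i).powerset

/-- the one-coordinate weight -/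
noncomputable abbrev sw (M : ℕ) (Q : ℕ → Finset ℕ) (q : ℕ → ℝ) : (Fin M → Finset ℕ) → ℝ :=
  pw fun i : Fin M => wt q (Q i)

variable {M : ℕ} {Q : ℕ → Finset ℕ} {q : ℕ → ℝ}

lemma Blocks.prob0 (h : Blocks M Q q) (i : ℕ) : IsProb (Q i).powerset (wt q (Q i)) :=
  isProb_wt (h.q0 i) (h.q1 i)

lemma Blocks.prob (h : Blocks M Q q) : IsProb (sp M Q) (sw M Q q) := isProb_pi fun i => h.prob0 i

lemma Blocks.bm0 (h : Blocks M Q q) (i : ℕ) : 0 ≤ bm q (Q i) := bm_nonneg (h.q0 i) (h.q1 i)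

lemma Blocks.bm1 (h : Blocks M Q q) (i : ℕ) : bm q (Q i) ≤ 1 / 2 :=
  bm_le (h.q0 i) (h.q1 i) (h.s2 i) (h.s3 i)

lemma Blocks.fe_empty (h : Blocks M Q q) (t i : ℕ) : fe q Q t i ∅ = 1 := by
  unfold fe
  split_ifs
  · exact bet_empty _
  · rw [bet_empty, div_self (by linarith [h.bm1 i])]
  · rfl

lemma Blocks.es_empty (h : Blocks M Q q) (t : ℕ) : es q Q M t (fun _ => ∅) = 1 :=
  prod_eq_one fun i _ => h.fe_empty t i

lemma es_top_nonneg (T : Fin M → Finset ℕ) : 0 ≤ es q Q M M T :=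
  prod_nonneg fun i _ => by
    unfold fe
    rw [if_pos i.2]
    exact bet_nonneg (by rw [Nat.even_add]; simp; decide) _

lemma Blocks.Ex_fe (h : Blocks M Q q) (t : ℕ) : Ex (Q t).powerset (wt q (Q t)) (fe q Q t t) = 0 := by
  have : fe q Q t t = fun T => (1 - bm q (Q t))⁻¹ * (bet 200 T - bm q (Q t)) := by
    funext T
    simp [fe, div_eq_inv_mul]
  rw [this, Ex_smul, Ex_sub, (h.prob0 t).const]
  simp [bm]

lemma Ex_sp (f : Fin M → Finset ℕ → ℝ) : Ex (sp M Q) (sw M Q q) (fun T => ∏ i, f i (T i))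
    = ∏ i : Fin M, Ex (Q i).powerset (wt q (Q i)) (f i) :=
  EE_prod (s := fun i : Fin M => (Q i).powerset) (w := fun i : Fin M => wt q (Q i)) f

lemma Blocks.es_mean (h : Blocks M Q q) {t : ℕ} (ht : t < M) :
    Ex (sp M Q) (sw M Q q) (es q Q M t) = 0 := by
  unfold es
  rw [Ex_sp (fun i => fe q Q t i)]
  exact prod_eq_zero (mem_univ ⟨t, ht⟩) (h.Ex_fe t)

lemma Blocks.es_orth (h : Blocks M Q q) {t t' : ℕ} (ht : t < M) (ht' : t' < t) :
    Ex (sp M Q) (sw M Q q) (fun T => es q Q M t T * es q Q M t' T) = 0 := by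
  unfold es
  simp_rw [← prod_mul_distrib]
  rw [Ex_sp (fun i T => fe q Q t i T * fe q Q t' i T)]
  refine prod_eq_zero (mem_univ ⟨t, ht⟩) ?_
  rw [← h.Ex_fe t]
  refine Ex_congr fun T _ => ?_
  have : fe q Q t' t T = 1 := by
    unfold fe
    rw [if_neg (by omega), if_neg (by omega)]
  simp only [this, mul_one]

/-- squared norm of the function of rank `t` -/
noncomputable def nn (q : ℕ → ℝ) (Q : ℕ → Finset ℕ) (M t : ℕ) : ℝ :=
  Ex (sp M Q) (sw M Q q) (fun T => es q Q M t T * es q Q M t T)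

lemma Blocks.orth (h : Blocks M Q q) {m : ℕ} (hm : m ≤ M) :
    Orth (sp M Q) (sw M Q q) (fun a : Fin m => es q Q M (M - 1 - a))
      (fun a => nn q Q M (M - 1 - a)) := by
  refine ⟨h.prob, fun a => h.es_mean (by omega), fun a a' => ?_⟩
  split_ifs with e
  · rw [← e]; rfl
  · have e' : (a : ℕ) ≠ a' := fun x => e (Fin.ext x)
    rcases lt_or_gt_of_ne e' with x | x
    · exact h.es_orth (by omega) (by omega)
    · simp_rw [mul_comm (es q Q M (M - 1 - a) _)]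
      exact h.es_orth (by omega) (by omega)

lemma prod_ite_lt {t : ℕ} (ht : t ≤ M) (f : ℕ → ℝ) :
    ∏ i : Fin M, (if (i : ℕ) < t then f i else 1) = ∏ i ∈ range t, f i := by
  rw [Fin.prod_univ_eq_prod_range (fun i => if i < t then f i else 1), ← prod_filter]
  refine prod_congr ?_ fun _ _ => rfl
  ext i; simp only [mem_filter, mem_range]; omega

lemma Blocks.nn_ge (h : Blocks M Q q) {t : ℕ} (ht : t < M) :
    1 / (3 * 16 ^ (t + 1)) ≤ nn q Q M t := by
  refine (h.vlo (t + 1)).trans ?_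
  unfold nn es
  simp_rw [← prod_mul_distrib]
  rw [Ex_sp (fun i T => fe q Q t i T * fe q Q t i T), ← prod_ite_lt (M := M) ht]
  refine prod_le_prod (fun i _ => ?_) fun i _ => ?_
  · split_ifs
    · exact prod_nonneg fun p hp => by linarith [h.q1 i p hp]
    · norm_num
  · split_ifs with hi
    · rw [← Ex_empty]
      refine (h.prob0 i).mono fun T _ => ?_
      split_ifs with hT
      · rw [hT, h.fe_empty]; norm_num
      · exact mul_self_nonneg _
    · have : ∀ T, fe q Q t i T = 1 := fun T => by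
        unfold fe
        rw [if_neg (by omega), if_neg (by omega)]
      simp only [this, mul_one]
      exact ((h.prob0 i).const 1).ge

lemma sum_half_pow_le (t : ℕ) : ∑ i ∈ range t, (1 / 2 : ℝ) ^ (t - i) ≤ 1 := by
  induction t with
  | zero => simp
  | succ t ih =>
    rw [sum_range_succ, sum_congr rfl (g := fun i => (1 / 2 : ℝ) * (1 / 2) ^ (t - i))
      fun i hi => by rw [Nat.succ_sub (mem_range.1 hi).le, pow_succ, mul_comm], ← mul_sum]
    simp only [Nat.add_sub_cancel_left, pow_one]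
    linarith

/-- an absolute constant -/
noncomputable def C₀ : ℝ := 48 * 256 * Real.exp 46

lemma C₀_ge : 48 ≤ C₀ := by
  have : 1 ≤ Real.exp 46 := Real.one_le_exp (by norm_num)
  unfold C₀; linarith

lemma Blocks.Ex_pow_le (h : Blocks M Q q) {t : ℕ} (ht : t ≤ M) {a : ℕ} (ha1 : 1 ≤ a) (ha4 : a ≤ 4) :
    Ex (sp M Q) (sw M Q q) (fun T => |es q Q M t T| ^ a) ≤ C₀ / 16 ^ (t + 1) := by
  unfold es
  simp_rw [abs_prod, ← prod_pow]
  rw [Ex_sp (fun i T => |fe q Q t i T| ^ a)]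
  have h1 : ∀ i : Fin M, Ex (Q i).powerset (wt q (Q i)) (fun T => |fe q Q t i T| ^ a)
      ≤ (if (i : ℕ) < t then (∏ p ∈ Q i, (1 - q p)) * Real.exp ((1 / 2) ^ (t - i)) else 1)
        * (if (i : ℕ) = t then 256 * Real.exp 45 else 1) := by
    intro i
    unfold fe
    by_cases c1 : (i : ℕ) < t
    · simp only [c1, if_true, c1.ne, if_false, mul_one]
      refine ((h.prob0 i).mono fun T _ => abs_bet_pow_le _ T ha1 ha4).trans
        ((Ex_maj_le (h.q0 i) (h.q1 i) (h.s3 i) _).trans (mul_le_mul_of_nonneg_left ?_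
          (prod_nonneg fun p hp => by linarith [h.q1 i p hp])))
      have a1 : (1 / 2 : ℝ) ^ (2 * (t - i)) ≤ (1 / 2) ^ (t - i) :=
        pow_le_pow_of_le_one (by norm_num) (by norm_num) (by omega)
      have a2 : (0 : ℝ) ≤ (1 / 2) ^ (t - i) := by positivity
      linarith [Real.add_one_le_exp ((1 / 2 : ℝ) ^ (t - i))]
    · by_cases c2 : (i : ℕ) = t
      · simp only [c1, if_false, one_mul]
        rw [if_pos c2]
        simp only [if_pos c2]
        have a1 := Ex_pow_card_le (h.q0 i) (h.s3 i) (c := 16) (by norm_num)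
        norm_num at a1
        refine le_trans ?_ (mul_le_mul_of_nonneg_left a1 (by norm_num))
        rw [← Ex_smul]
        refine (h.prob0 i).mono fun T _ => ?_
        have b0 := h.bm0 i
        have b1 := h.bm1 i
        have b2 : (1 : ℝ) ≤ 2 ^ T.card := one_le_pow₀ (by norm_num)
        have b3 : |bet 200 T| ≤ 2 ^ T.card := (abs_bet_le _ _).trans (by split_ifs <;> linarith)
        have b4 : |(bet 200 T - bm q (Q i)) / (1 - bm q (Q i))| ≤ 4 * 2 ^ T.card := by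
          rw [abs_div, abs_of_pos (show 0 < 1 - bm q (Q i) by linarith), div_le_iff₀ (by linarith)]
          have := abs_sub (bet 200 T) (bm q (Q i))
          rw [abs_of_nonneg b0] at this
          nlinarith
        refine (pow_le_pow_left₀ (abs_nonneg _) b4 a).trans
          ((pow_le_pow_right₀ (by linarith) ha4).trans (le_of_eq ?_))
        rw [mul_pow, ← pow_mul, mul_comm T.card, pow_mul]; norm_num
      · simp only [c1, c2, if_false, abs_one, one_pow, mul_one]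
        exact ((h.prob0 i).const 1).le
  refine (prod_le_prod (fun (i : Fin M) _ => (h.prob0 i).nonneg fun T _ =>
    pow_nonneg (abs_nonneg _) _) fun i _ => h1 i).trans ?_
  rw [prod_mul_distrib, prod_ite_lt ht (fun i => (∏ p ∈ Q i, (1 - q p)) *
    Real.exp ((1 / 2) ^ (t - i))), prod_mul_distrib, ← Real.exp_sum]
  have a1 : ∏ i : Fin M, (if (i : ℕ) = t then 256 * Real.exp 45 else 1) ≤ 256 * Real.exp 45 := by
    have : 1 ≤ Real.exp 45 := Real.one_le_exp (by norm_num)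
    rw [Fin.prod_univ_eq_prod_range (fun i => if i = t then 256 * Real.exp 45 else 1),
      prod_ite_eq']
    split_ifs <;> linarith
  have a2 := Real.exp_le_exp.2 (sum_half_pow_le t)
  have a3 := h.vhi t
  have a4 : 0 ≤ ∏ i : Fin M, (if (i : ℕ) = t then 256 * Real.exp 45 else 1) :=
    prod_nonneg fun i _ => by split_ifs <;> positivity
  refine (mul_le_mul (mul_le_mul a3 a2 (Real.exp_pos _).le (by positivity)) a1 a4
    (by positivity)).trans (le_of_eq ?_)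
  unfold C₀
  rw [show (46 : ℝ) = 1 + 45 by norm_num, Real.exp_add, pow_succ]
  field_simp
  norm_num

lemma Blocks.nn_le (h : Blocks M Q q) {t : ℕ} (ht : t ≤ M) : nn q Q M t ≤ C₀ / 16 ^ (t + 1) := by
  refine le_trans (le_of_eq ?_) (h.Ex_pow_le ht (a := 2) (by norm_num) (by norm_num))
  exact Ex_congr fun T _ => by rw [sq_abs, sq]

lemma Blocks.top_le (h : Blocks M Q q) : Ex (sp M Q) (sw M Q q) (es q Q M M) ≤ C₀ / 16 ^ M := by
  refine le_trans (h.prob.mono fun T _ => ?_) ((h.Ex_pow_le le_rfl (a := 1) le_rfl (by norm_num)).trans ?_)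
  · rw [pow_one]; exact le_abs_self _
  · exact div_le_div_of_nonneg_left (by linarith [C₀_ge]) (by positivity)
      (pow_le_pow_right₀ (by norm_num) (by omega))

lemma Blocks.empty_ge (h : Blocks M Q q) :
    1 / (3 * 16 ^ M) ≤ Ex (sp M Q) (sw M Q q) (fun T => if T = fun _ => ∅ then 1 else 0) := by
  have : ∀ T : Fin M → Finset ℕ, (if T = fun _ => ∅ then (1 : ℝ) else 0)
      = ∏ i, if T i = ∅ then 1 else 0 := fun T => by
    rw [prod_ite_zero]; simp [funext_iff]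
  simp_rw [this]
  rw [Ex_sp (fun _ T => if T = ∅ then 1 else 0)]
  simp_rw [Ex_empty]
  rw [Fin.prod_univ_eq_prod_range (fun i => ∏ p ∈ Q i, (1 - q p))]
  exact h.vlo M

lemma pow_sub_eq {m : ℕ} (hm : m ≤ M) (a : Fin m) :
    (16 : ℝ) ^ M = 16 ^ (M - 1 - a + 1) * 16 ^ (a : ℕ) := by
  rw [← pow_add]; congr 1; omega

lemma Blocks.nn_le' (h : Blocks M Q q) {m : ℕ} (hm : m ≤ M) (a : Fin m) :
    nn q Q M (M - 1 - a) ≤ C₀ * 16 ^ (a : ℕ) / 16 ^ M := by
  refine (h.nn_le (by omega)).trans (le_of_eq ?_)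
  rw [pow_sub_eq hm a]; field_simp

lemma Blocks.nn_ge' (h : Blocks M Q q) {m : ℕ} (hm : m ≤ M) (a : Fin m) :
    16 ^ (a : ℕ) / (3 * 16 ^ M) ≤ nn q Q M (M - 1 - a) := by
  refine le_trans (le_of_eq ?_) (h.nn_ge (by omega))
  rw [pow_sub_eq hm a]; field_simp

lemma Blocks.fourth (h : Blocks M Q q) {m : ℕ} (hm : m ≤ M) :
    Ex (sp M Q) (sw M Q q) (fun T => (1 + ∑ a : Fin m, |es q Q M (M - 1 - a) T|) ^ 4)
      ≤ 1 + 15 * (1 + m ^ 3) * m * (C₀ * 16 ^ m) / 16 ^ M := by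
  have h1 : ∀ T, (1 + ∑ a : Fin m, |es q Q M (M - 1 - a) T|) ^ 4 ≤ 1 + ∑ a : Fin m,
      (15 * |es q Q M (M - 1 - a) T| ^ 1 + 15 * m ^ 3 * |es q Q M (M - 1 - a) T| ^ 4) := by
    intro T
    have a1 := pow_sum_le_card_mul_sum_pow (s := (univ : Finset (Fin m)))
      (f := fun a => |es q Q M (M - 1 - a) T|) (fun _ _ => abs_nonneg _) 3
    rw [card_univ, Fintype.card_fin] at a1
    simp only [sum_add_distrib, ← mul_sum, pow_one]
    have a2 : 0 ≤ ∑ a : Fin m, |es q Q M (M - 1 - a) T| := sum_nonneg fun _ _ => abs_nonneg _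
    generalize ∑ a : Fin m, |es q Q M (M - 1 - a) T| = Y at *
    have a3 : (1 + Y) ^ 4 ≤ 1 + 15 * Y + 15 * Y ^ 4 := by
      nlinarith [mul_nonneg a2 (sq_nonneg (Y - 1)), mul_nonneg (sq_nonneg Y) (sq_nonneg (Y - 1)),
        mul_nonneg a2 (mul_nonneg a2 a2), sq_nonneg (Y ^ 2 - Y), sq_nonneg (Y ^ 2 - 1),
        mul_nonneg a2 (sq_nonneg (2 * Y - 1)), sq_nonneg (2 * Y ^ 2 - Y)]
    norm_num at a1
    linarith
  refine (h.prob.mono fun T _ => h1 T).trans ?_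
  rw [Ex_add, h.prob.const, Ex_sum]
  refine add_le_add le_rfl ((sum_le_card_nsmul _ _
    (15 * (1 + m ^ 3) * (C₀ * 16 ^ m / 16 ^ M)) fun a _ => ?_).trans (le_of_eq ?_))
  · rw [Ex_add, Ex_smul, Ex_smul]
    have a1 : C₀ / 16 ^ (M - 1 - a + 1) ≤ C₀ * 16 ^ m / 16 ^ M := by
      rw [pow_sub_eq hm a, mul_comm (16 ^ _ : ℝ), ← div_div, mul_div_assoc]
      refine div_le_div_of_nonneg_right (le_mul_of_one_le_right (by linarith [C₀_ge]) ?_)
        (by positivity)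
      rw [one_le_div (by positivity)]
      exact pow_le_pow_right₀ (by norm_num) a.2.le
    have a2 := (h.Ex_pow_le (t := M - 1 - a) (by omega) (a := 1) le_rfl (by norm_num)).trans a1
    have a3 := (h.Ex_pow_le (t := M - 1 - a) (by omega) (a := 4) (by norm_num) le_rfl).trans a1
    have a4 := mul_le_mul_of_nonneg_left a3 (show (0 : ℝ) ≤ 15 * m ^ 3 by positivity)
    linarith
  · rw [card_univ, Fintype.card_fin, nsmul_eq_mul]; ring

end Pool.Agent.Work.MP_51e72e_nt.PP
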