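import Pool.Agent.Work.MP_51e72e_nt.PPCount

/-!
From good patterns to intervals with a prescribed number of primes.
-/

set_option autoImplicit false

namespace Pool.Agent.Work.MP_51e72e_nt.PP

open Finset

lemma discrete_ivt (S : ℕ → ℕ) (h0 : S 0 = 0) {k m : ℕ} (h1 : ∀ i < k, S (i + 1) ≤ S i + 1)
    (h2 : m ≤ S k) : ∃ i ≤ k, S i = m := by
  induction k with
  | zero => exact ⟨0, le_rfl, by omega⟩
  | succ k ih =>
    by_cases h : m ≤ S k
    · obtain ⟨i, hi, e⟩ := ih (fun i hi => h1 i (by omega)) h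
      exact ⟨i, by omega, e⟩
    · exact ⟨k + 1, le_rfl, by have := h1 k (by omega); omega⟩

namespace Par

variable {π : Par}

lemma Good.exists_gap (h : π.Ok) {m n : ℕ} (hg : π.Good m n) : ∃ i ≤ π.k, ∀ u w : ℕ, u ≤ π.K₀ →
    π.K₀ + 2 * i * π.Δ ≤ w + π.Δ → w ≤ π.K₀ + 2 * i * π.Δ →
      ((Ioc (n + u) (n + w)).filter Nat.Prime).card = m := by
  obtain ⟨g1, g2, g3⟩ := hg
  have hK := h.hKK
  set c : ℕ → ℕ := fun i => ((Ioc (π.K₀ + 2 * i * π.Δ) (π.K₀ + 2 * i * π.Δ + π.Δ)).filter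
    fun t => (n + t).Prime).card with hc
  have e : ∀ i : Fin π.k, ((π.B i).filter fun j : Fin π.K => (n + ((j : ℕ) + 1)).Prime).card
      = c i := fun i => card_blk (by nlinarith [i.2]) (fun t => (n + t).Prime)
  simp_rw [e] at g2 g3
  rw [Fin.sum_univ_eq_sum_range c] at g3
  obtain ⟨i, hi, hS⟩ := discrete_ivt (fun i => ∑ i' ∈ range i, c i') (by simp) (fun i hi => by
    simp only [sum_range_succ]
    exact add_le_add le_rfl (g2 ⟨i, hi⟩)) g3
  refine ⟨i, hi, fun u w hu hw1 hw2 => ?_⟩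
  have e1 : ((Ioc (n + u) (n + w)).filter Nat.Prime).card
      = ((Ioc u w).filter fun t => (n + t).Prime).card := by
    rw [← map_add_left_Ioc, filter_map, card_map]
    rfl
  rw [e1, ← hS]
  simp only [hc]
  rw [← card_biUnion]
  · congr 1
    ext t
    simp only [mem_filter, mem_Ioc, mem_biUnion, mem_range]
    constructor
    · rintro ⟨⟨h1, h2⟩, h3⟩
      have h4 : 2 * i * π.Δ ≤ 2 * π.k * π.Δ := by gcongr
      by_contra hne
      refine g1 ⟨t - 1, by omega⟩ (mem_compl.2 fun hb => ?_) (by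
        simp only
        rwa [Nat.sub_add_cancel (by omega)])
      obtain ⟨i', -, hb⟩ := mem_biUnion.1 hb
      unfold B at hb
      rw [mem_blk] at hb
      simp only at hb
      refine hne ⟨i', ?_, ⟨by omega, by omega⟩, h3⟩
      by_contra hlt
      have : 2 * i * π.Δ ≤ 2 * i' * π.Δ := by gcongr; omega
      omega
    · rintro ⟨i', h1, ⟨h2, h3⟩, h4⟩
      have : 2 * i' * π.Δ + 2 * π.Δ ≤ 2 * i * π.Δ := by nlinarith
      exact ⟨⟨by omega, by omega⟩, h4⟩
  · have key : ∀ i i' : ℕ, i < i' → Disjoint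
        ((Ioc (π.K₀ + 2 * i * π.Δ) (π.K₀ + 2 * i * π.Δ + π.Δ)).filter fun t => (n + t).Prime)
        ((Ioc (π.K₀ + 2 * i' * π.Δ) (π.K₀ + 2 * i' * π.Δ + π.Δ)).filter fun t => (n + t).Prime) :=
      fun i i' h => disjoint_left.2 fun t h1 h2 => by
        simp only [mem_filter, mem_Ioc] at h1 h2
        have : 2 * i * π.Δ + π.Δ ≤ 2 * i' * π.Δ := by nlinarith
        omega
    intro a _ b _ hab
    rcases lt_or_gt_of_ne hab with x | x
    exacts [key a b x, (key b a x).symm]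

lemma Good.slide (h : π.Ok) {m n : ℕ} (hg : π.Good m n) {lam : ℝ} (hlam : 0 < lam) (hn : 1 ≤ n)
    (h1 : lam * Real.log n + π.Δ ≤ π.K₀) (h2 : 2 * π.k * π.Δ ≤ lam * Real.log n)
    (h3 : lam * π.K ≤ n) :
    π.Δ - 1 ≤ ((Icc n (n + π.K)).filter fun x : ℕ =>
      ((Ioc x ⌊(x : ℝ) + lam * Real.log x⌋₊).filter Nat.Prime).card = m).card := by
  obtain ⟨i, hi, hgap⟩ := hg.exists_gap h
  have hn' : (1 : ℝ) ≤ n := by exact_mod_cast hn
  have hc0 : 0 ≤ lam * Real.log n := mul_nonneg hlam.le (Real.log_nonneg hn')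
  set f := ⌊lam * Real.log n⌋₊ with hf
  have f1 : (f : ℝ) ≤ lam * Real.log n := Nat.floor_le hc0
  have f2 : lam * Real.log n < f + 1 := Nat.lt_floor_add_one _
  have f3 : f + π.Δ ≤ π.K₀ := by exact_mod_cast (by linarith : (f : ℝ) + π.Δ ≤ π.K₀)
  have f4 : 2 * π.k * π.Δ ≤ f := Nat.le_floor (by exact_mod_cast h2)
  have f5 : 2 * i * π.Δ ≤ 2 * π.k * π.Δ := by gcongr
  have hK := h.hKK
  obtain ⟨u₀, hu₀⟩ : ∃ u₀, u₀ + f + π.Δ = π.K₀ + 2 * i * π.Δ :=
    ⟨π.K₀ + 2 * i * π.Δ - (f + π.Δ), by omega⟩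
  rw [← card_range (π.Δ - 1)]
  refine card_le_card_of_injOn (fun t => n + (u₀ + t)) (fun t ht => ?_) fun t _ t' _ e => by
    simpa using e
  simp only [coe_range, Set.mem_Iio, coe_filter, mem_Icc, Set.mem_ofPred_eq] at ht ⊢
  refine ⟨⟨by omega, by omega⟩, ?_⟩
  have hx1 : (n : ℝ) ≤ (n + (u₀ + t) : ℕ) := by exact_mod_cast (by omega)
  have hx2 : ((n + (u₀ + t) : ℕ) : ℝ) ≤ n + π.K := by exact_mod_cast (by omega)
  have l1 : lam * Real.log n ≤ lam * Real.log (n + (u₀ + t) : ℕ) :=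
    mul_le_mul_of_nonneg_left (Real.log_le_log (by linarith) hx1) hlam.le
  have l2 : lam * Real.log (n + (u₀ + t) : ℕ) ≤ lam * Real.log n + 1 := by
    have a1 := Real.log_le_sub_one_of_pos (x := ((n + (u₀ + t) : ℕ) : ℝ) / n) (by positivity)
    rw [Real.log_div (by linarith) (by linarith)] at a1
    have a2 : ((n + (u₀ + t) : ℕ) : ℝ) / n - 1 ≤ π.K / n := by
      rw [div_sub_one (by linarith)]
      exact div_le_div_of_nonneg_right (by linarith) (by linarith)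
    have a3 : lam * (π.K / n) ≤ 1 := by
      rw [← mul_div_assoc, div_le_one (by linarith)]; exact h3
    nlinarith
  set r := ⌊((n + (u₀ + t) : ℕ) : ℝ) + lam * Real.log (n + (u₀ + t) : ℕ)⌋₊ with hr
  have r1 : n + (u₀ + t) + f ≤ r := Nat.le_floor (by push_cast at l1 ⊢; linarith)
  have r2 : r < n + (u₀ + t) + f + 2 := by
    rw [hr, Nat.floor_lt (by positivity)]
    push_cast at l2 ⊢; linarith
  obtain ⟨w, hw⟩ : ∃ w, r = n + w := ⟨r - n, by omega⟩
  rw [hw]
  exact hgap _ _ (by omega) (by omega) (by omega)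

end Par

lemma double_count (G S : Finset ℕ) (K d : ℕ)
    (h : ∀ n ∈ G, d ≤ (S.filter fun x => x ∈ Icc n (n + K)).card) :
    G.card * d ≤ S.card * (K + 1) := by
  refine card_mul_le_card_mul (fun n x => x ∈ Icc n (n + K)) (fun n hn => h n hn) fun x _ => ?_
  refine (card_le_card (t := Icc (x - K) x) fun n hn => ?_).trans (by simp; omega)
  simp only [mem_bipartiteBelow, mem_Icc] at hn ⊢
  omega

end Pool.Agent.Work.MP_51e72e_nt.PP
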