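import Pool.Agent.Work.MP_51e72e_nt.PPLaw
import Pool.Agent.Work.MP_51e72e_nt.PPMedium

/-!
The weight has small level.
-/

set_option autoImplicit false
set_option linter.unusedSectionVars false

namespace Pool.Agent.Work.MP_51e72e_nt.PP

open Finset Pool.Agent.Lib.ANT

section abstract

variable {ι α κ L : Type*} [Fintype ι] [DecidableEq ι] [Fintype κ] [DecidableEq κ] [Fintype L]
  [DecidableEq L] {A P : Finset ℕ} {R : ℕ → Finset ι} {sh : ι → ℕ} {T : ℕ → ι → α}
  {ε : ι → L → α → ℝ} {τ : L → ℝ} {Λ : ℝ}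

lemma str_FA (hA : ∀ p ∈ A, p.Prime) (hR : ∀ j n, rho P {sh j} n = if j ∈ R n then 1 else 0)
    (hΛ : 0 ≤ Λ) (h : ∀ j a, Lev A (fun _ => 1) (Real.exp (Λ * τ a)) 3 (fun n => ε j a (T n j)))
    (B : κ → Finset ι) :
    Str A P (Fintype.card κ) (Real.exp Λ) ((Fintype.card L * (3 * Fintype.card ι)) ^ Fintype.card κ)
      (fun n => FA (fun i => B i ∩ R n) τ ε (T n)) := by
  have h1 : ∀ i a, Str A P 1 (Real.exp (Λ * τ a)) (3 * Fintype.card ι)
      (fun n => ∑ j ∈ B i ∩ R n, ε j a (T n j)) := by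
    intro i a
    refine ((Str.sum (B i) (fun _ => 3) _ fun j _ => Str.atom {sh j} (by simp) (h j a)).mono le_rfl
      le_rfl ?_).congr fun n => ?_
    · rw [sum_const, nsmul_eq_mul, mul_comm]
      have : ((B i).card : ℝ) ≤ Fintype.card ι := by exact_mod_cast card_le_univ _
      linarith
    · simp only [hR, ite_mul, one_mul, zero_mul, sum_ite_mem]
  refine (Str.sum (adm κ τ) (fun _ => (3 * Fintype.card ι) ^ Fintype.card κ) _ fun r hr =>
    (Str.prod hA univ (fun _ => 1) _ _ _ fun i _ => h1 i (r i)).mono (by simp) ?_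
      (by simp)).mono le_rfl le_rfl ?_
  · rw [← Real.exp_sum, ← mul_sum]
    exact Real.exp_le_exp.2 (mul_le_of_le_one_right hΛ (mem_filter.1 hr).2)
  · rw [sum_const, nsmul_eq_mul, mul_pow (Fintype.card L : ℝ)]
    refine mul_le_mul_of_nonneg_right ?_ (by positivity)
    have := card_le_univ (adm κ τ)
    rw [Fintype.card_fun] at this
    exact_mod_cast this

lemma str_FB [Nonempty ι] [Nonempty L] (hA : ∀ p ∈ A, p.Prime)
    (hR : ∀ j n, rho P {sh j} n = if j ∈ R n then 1 else 0)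
    (hΛ : 0 ≤ Λ) (h : ∀ j a, Lev A (fun _ => 1) (Real.exp (Λ * τ a)) 3 (fun n => ε j a (T n j)))
    {s₀ : ℕ} (hs : ∀ a, 1 ≤ s₀ * τ a) (J : Finset ι) :
    Str A P s₀ (Real.exp Λ) (Fintype.card ι ^ s₀ * Real.exp 3)
      (fun n => FB (J ∩ R n) τ ε (T n)) := by
  have hm : (0 : ℝ) < Fintype.card L := by exact_mod_cast Fintype.card_pos
  have hZ : (1 : ℝ) ≤ Fintype.card ι := by exact_mod_cast Fintype.card_pos
  set dg : Option L → ℕ := fun o => o.elim 0 fun _ => 1 with hdg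
  set c : Option L → ℝ := fun o => o.elim 1 fun _ => 3 / Fintype.card L with hc
  have hc0 : ∀ o, 0 ≤ c o := fun o => by cases o <;> simp only [hc, Option.elim] <;> positivity
  have h1 : ∀ j o, Str A P (dg o) (Real.exp (Λ * o.elim 0 τ)) (c o)
      (fun n => xb (J ∩ R n) ε j o (T n j)) := by
    intro j o
    cases o with
    | none => simpa [hdg, hc, xb] using Str.one
    | some a =>
      refine (((Str.atom {sh j} (by simp) (h j a)).smul
        (if j ∈ J then -1 / Fintype.card L else 0)).mono le_rfl le_rfl ?_).congr fun n => ?_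
      · simp only [hc, Option.elim]
        split_ifs
        · rw [abs_div, abs_neg, abs_one, Nat.abs_cast]; exact le_of_eq (by ring)
        · simp only [abs_zero, zero_mul]; positivity
      · simp only [xb, hR, mem_inter]
        by_cases h1 : j ∈ J <;> by_cases h2 : j ∈ R n <;> simp [h1, h2]
        ring
  have h2 : ∀ σ ∈ adm ι (fun o : Option L => o.elim 0 τ), ∑ j, dg (σ j) ≤ s₀ := by
    intro σ hσ
    have a1 : ∀ o, (dg o : ℝ) ≤ s₀ * o.elim 0 τ := fun o => by
      cases o <;> simp [hdg, hs]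
    have a2 : ((∑ j, dg (σ j) : ℕ) : ℝ) ≤ s₀ := by
      push_cast
      refine (sum_le_sum fun j _ => a1 _).trans ?_
      rw [← mul_sum]
      exact mul_le_of_le_one_right (Nat.cast_nonneg _) (mem_filter.1 hσ).2
    exact_mod_cast a2
  refine (Str.sum (adm ι fun o : Option L => o.elim 0 τ) (fun σ => ∏ j, c (σ j)) _ fun σ hσ =>
    (Str.prod hA univ (fun j => dg (σ j)) _ _ _ fun j _ => h1 j (σ j)).mono (h2 σ hσ) ?_
      le_rfl).mono le_rfl le_rfl ?_
  · rw [← Real.exp_sum, ← mul_sum]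
    exact Real.exp_le_exp.2 (mul_le_of_le_one_right hΛ (mem_filter.1 hσ).2)
  · calc _ ≤ ∑ σ ∈ adm ι (fun o : Option L => o.elim 0 τ),
          Fintype.card ι ^ s₀ * ∏ j, c (σ j) / Fintype.card ι ^ dg (σ j) := by
          refine sum_le_sum fun σ hσ => ?_
          rw [prod_div_distrib, prod_pow_eq_pow_sum, mul_div_assoc', le_div_iff₀ (by positivity),
            mul_comm]
          exact mul_le_mul_of_nonneg_right (pow_le_pow_right₀ hZ (h2 σ hσ))
            (prod_nonneg fun _ _ => hc0 _)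
      _ ≤ ∑ σ : ι → Option L, Fintype.card ι ^ s₀ * ∏ j, c (σ j) / Fintype.card ι ^ dg (σ j) :=
          sum_le_sum_of_subset_of_nonneg (subset_univ _) fun σ _ _ => mul_nonneg (by positivity)
            (prod_nonneg fun _ _ => div_nonneg (hc0 _) (by positivity))
      _ ≤ _ := by
          rw [← mul_sum, ← Fintype.prod_sum fun _ o => c o / (Fintype.card ι : ℝ) ^ dg o]
          refine mul_le_mul_of_nonneg_left ?_ (by positivity)
          have e : ∑ o, c o / (Fintype.card ι : ℝ) ^ dg o = 3 / Fintype.card ι + 1 := by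
            rw [Fintype.sum_option]
            simp only [hc, hdg, Option.elim, pow_zero, pow_one, sum_const, card_univ, nsmul_eq_mul]
            field_simp
            ring
          rw [e, prod_const, card_univ]
          refine (pow_le_pow_left₀ (by positivity) (Real.add_one_le_exp _) _).trans (le_of_eq ?_)
          rw [← Real.exp_nat_mul]
          congr 1
          field_simp

end abstract

lemma sum_level_le (t : ℕ) : ∑ i ∈ range t, 16 ^ (i + 1) * (200 + 2 * (t - i)) ≤ 216 * 16 ^ t := by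
  have h : ∀ t, 15 * ∑ i ∈ range t, 16 ^ (i + 1) ≤ 16 ^ (t + 1) := fun t => by
    induction t with
    | zero => simp
    | succ t ih => rw [sum_range_succ, pow_succ 16 (t + 1)]; omega
  induction t with
  | zero => simp
  | succ t ih =>
    have e : ∑ i ∈ range t, 16 ^ (i + 1) * (200 + 2 * (t + 1 - i))
        = ∑ i ∈ range t, 16 ^ (i + 1) * (200 + 2 * (t - i)) + 2 * ∑ i ∈ range t, 16 ^ (i + 1) := by
      rw [mul_sum, ← sum_add_distrib]
      refine sum_congr rfl fun i hi => ?_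
      rw [Nat.succ_sub (mem_range.1 hi).le]
      simp only [Nat.succ_eq_add_one]
      ring
    have := h t
    rw [sum_range_succ, e, Nat.add_sub_cancel_left]
    rw [pow_succ] at this ⊢
    omega

lemma lev_es {K y p₁ M : ℕ} (hy : 1 ≤ y) (hb : Blocks M (Qb p₁ y) (qq K)) (t : ℕ) (j : Fin K) :
    Lev (Qs p₁ 0 (y ^ 16 ^ M)) (fun _ => 1)
      ((y : ℝ) ^ (216 * 16 ^ t + if t < M then 200 * 16 ^ (t + 1) else 0)) 3
      (fun n => es (qq K) (Qb p₁ y) M t (cfg K M (Qb p₁ y) n j)) := by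
  have hA : ∀ p ∈ Qs p₁ 0 (y ^ 16 ^ M), p.Prime := fun p hp => (mem_Qs.1 hp).2.2.2
  have hy' : (1 : ℝ) ≤ y := by exact_mod_cast hy
  have hl : ∀ (i : Fin M) (u : ℕ), Lev (Qs p₁ 0 (y ^ 16 ^ M))
      (fun p => if p ∈ Qb p₁ y i then 1 else 0) ((y : ℝ) ^ (16 ^ ((i : ℕ) + 1) * u)) 1
      (fun n => bet u (hit (Qb p₁ y i) {(j : ℕ) + 1} n)) := by
    intro i u
    have := lev_bet hA (B := Qb p₁ y i) (fun p hp => by
        have := mem_Qs.1 (Qb_subset p₁ hy i.2 hp)
        exact mem_Qs.2 ⟨this.1, this.2.2.2.pos, this.2.2⟩)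
      (y := y ^ 16 ^ ((i : ℕ) + 1)) (fun p hp => (mem_Qs.1 hp).2.2.1) (Nat.one_le_pow _ _ hy)
      {(j : ℕ) + 1} (d := fun p => if p ∈ Qb p₁ y i then 1 else 0)
      (fun p hp => by simp only [hp, if_true]; norm_num) u
    rw [pow_mul]
    exact_mod_cast this
  have h1 : ∀ i : Fin M, Lev (Qs p₁ 0 (y ^ 16 ^ M)) (fun p => if p ∈ Qb p₁ y i then 1 else 0)
      ((y : ℝ) ^ ((if (i : ℕ) < t then 16 ^ ((i : ℕ) + 1) * (200 + 2 * (t - i)) else 0)
        + if (i : ℕ) = t then 16 ^ (t + 1) * 200 else 0)) (if (i : ℕ) = t then 3 else 1)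
      (fun n => fe (qq K) (Qb p₁ y) t i (hit (Qb p₁ y i) {(j : ℕ) + 1} n)) := by
    intro i
    unfold fe
    by_cases c1 : (i : ℕ) < t
    · simpa only [c1, if_true, c1.ne, if_false, add_zero] using hl i _
    · by_cases c2 : (i : ℕ) = t
      · subst c2
        simp only [c1, if_false, if_true, zero_add]
        have b0 := hb.bm0 i
        have b1 := hb.bm1 i
        refine ((((hl i 200).add (Lev.const (one_le_pow₀ hy') (-bm (qq K) (Qb p₁ y i)))).smul
          (1 - bm (qq K) (Qb p₁ y i))⁻¹).mono (fun _ _ => le_rfl) le_rfl ?_).congr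
          fun n => by ring
        rw [abs_neg, abs_of_nonneg b0, abs_of_pos (inv_pos.2 (by linarith)),
          inv_mul_le_iff₀ (by linarith)]
        linarith
      · simpa only [c1, c2, if_false, add_zero, pow_zero, abs_one] using
          Lev.const (A := Qs p₁ 0 (y ^ 16 ^ M)) (d := fun p => if p ∈ Qb p₁ y i then 1 else 0)
            le_rfl 1
  refine (Lev.prod hA univ _ _ _ _ fun i _ => h1 i).mono (fun p _ => ?_) ?_ ?_
  · rw [sum_boole]
    exact card_le_one.2 fun i hi i' hi' =>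
      Fin.ext (Qb_uniq hy (mem_filter.1 hi).2 (mem_filter.1 hi').2)
  · rw [prod_pow_eq_pow_sum]
    refine pow_le_pow_right₀ hy' ?_
    rw [sum_add_distrib]
    refine add_le_add ?_ ?_
    · rw [Fin.sum_univ_eq_sum_range
        (fun i => if i < t then 16 ^ (i + 1) * (200 + 2 * (t - i)) else 0), ← sum_filter]
      refine le_trans (sum_le_sum_of_subset fun i hi => ?_) (sum_level_le t)
      exact mem_range.2 (mem_filter.1 hi).2
    · rw [Fin.sum_univ_eq_sum_range (fun i => if i = t then 16 ^ (t + 1) * 200 else 0),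
        sum_ite_eq']
      simp only [mem_range, mul_comm, le_refl]
  · rw [Fin.prod_univ_eq_prod_range (fun i => if i = t then (3 : ℝ) else 1), prod_ite_eq']
    split_ifs <;> norm_num

/-- share of the level used by the function with label `a` -/
noncomputable def tau (a : ℕ) : ℝ := 1 / (2 * 16 ^ a)

lemma tau_nonneg (a : ℕ) : 0 ≤ tau a := by unfold tau; positivity

lemma tau_le (a : ℕ) : tau a ≤ 1 / 2 := by
  have : (1 : ℝ) ≤ 16 ^ a := one_le_pow₀ (by norm_num)
  exact div_le_div_of_nonneg_left (by norm_num) (by norm_num) (by linarith)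

lemma lev_er {K y p₁ M m : ℕ} (hy : 1 ≤ y) (hb : Blocks M (Qb p₁ y) (qq K)) (hm : m ≤ M)
    (E : Finset (Fin K)) (j : Fin K) (a : Fin m) :
    Lev (Qs p₁ 0 (y ^ 16 ^ M)) (fun _ => 1) (Real.exp (800 * 16 ^ M * Real.log y * tau a)) 3
      (fun n => er E (fun a : Fin m => es (qq K) (Qb p₁ y) M (M - 1 - a)) j a
        (cfg K M (Qb p₁ y) n j)) := by
  have hy' : (1 : ℝ) ≤ y := by exact_mod_cast hy
  have hl := Real.log_nonneg hy'
  have ht := tau_nonneg a
  unfold er
  split_ifs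
  · exact (Lev.const (Real.one_le_exp (by positivity)) 1).mono (fun _ _ => le_rfl) le_rfl
      (by norm_num)
  · refine (lev_es hy hb _ j).mono (fun _ _ => le_rfl) ?_ le_rfl
    rw [← Real.log_le_iff_le_exp (by positivity), Real.log_pow, if_pos (by omega), pow_sub_eq hm a]
    have e : 800 * ((16 : ℝ) ^ (M - 1 - a + 1) * 16 ^ (a : ℕ)) * Real.log y * tau a
        = 400 * 16 ^ (M - 1 - a + 1) * Real.log y := by
      unfold tau; field_simp; ring
    rw [e]
    refine mul_le_mul_of_nonneg_right ?_ hl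
    push_cast
    rw [pow_succ]
    have : (0 : ℝ) ≤ 16 ^ (M - 1 - a) := by positivity
    linarith

lemma lev_top {K y p₁ M : ℕ} (hy : 1 ≤ y) (hb : Blocks M (Qb p₁ y) (qq K)) (j : Fin K) :
    Lev (Qs p₁ 0 (y ^ 16 ^ M)) (fun _ => 1) (Real.exp (800 * 16 ^ M * Real.log y)) 3
      (fun n => es (qq K) (Qb p₁ y) M M (cfg K M (Qb p₁ y) n j)) := by
  have hy' : (1 : ℝ) ≤ y := by exact_mod_cast hy
  have hl := Real.log_nonneg hy'
  refine (lev_es hy hb _ j).mono (fun _ _ => le_rfl) ?_ le_rfl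
  rw [← Real.log_le_iff_le_exp (by positivity), Real.log_pow, if_neg (lt_irrefl _)]
  refine mul_le_mul_of_nonneg_right ?_ hl
  push_cast
  have : (0 : ℝ) ≤ 16 ^ M := by positivity
  linarith

lemma avg_split {K y p₁ M : ℕ} (hy : 1 ≤ y) {c₀ : ℝ}
    (hc : ∀ G : (Fin K → Fin M → Finset ℕ) → ℝ,
      avg (pr (Qs p₁ y (y ^ 16 ^ M))) (fun n => G (cfg K M (Qb p₁ y) n))
        = c₀ * EI (Fin K) (sp M (Qb p₁ y)) (sw M (Qb p₁ y) (qq K)) (fun τ => nd τ * G τ))
    (Ψ : Finset (Fin K) → (Fin K → Fin M → Finset ℕ) → ℝ) :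
    avg (pr (Qs p₁ 0 (y ^ 16 ^ M))) (fun n => Ψ (surv K (Qs p₁ 0 y) n) (cfg K M (Qb p₁ y) n))
      = avg (pr (Qs p₁ 0 y)) (fun x => c₀ * EI (Fin K) (sp M (Qb p₁ y)) (sw M (Qb p₁ y) (qq K))
        (fun τ => nd τ * Ψ (surv K (Qs p₁ 0 y) x) τ)) := by
  have h1 : ∀ a b, ∀ p ∈ Qs p₁ a b, p.Prime := fun a b p hp => (mem_Qs.1 hp).2.2.2
  rw [Qs_union p₁ (Nat.zero_le y) (le_pow_pow hy M), pr_union (Qs_disjoint p₁ le_rfl),
    avg_pair (pr_coprime (h1 _ _) (h1 _ _) (Qs_disjoint p₁ le_rfl)) (pr_pos (h1 _ _))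
      (pr_pos (h1 _ _)) _ (cfg K M (Qb p₁ y)) (surv_per K _) ?_ Ψ]
  · simp_rw [hc]
  · intro m n h
    ext j i p
    rw [mem_cfg, mem_cfg]
    exact and_congr_right fun hp =>
      dvd_add_congr (dvd_prod_of_mem _ (Qb_subset p₁ hy i.2 hp)) h _

lemma rho_all {K y p₁ M : ℕ} (hy : 1 ≤ y) (j : Fin K) (n : ℕ) :
    rho (Qs p₁ 0 (y ^ 16 ^ M)) {(j : ℕ) + 1} n = (if j ∈ surv K (Qs p₁ 0 y) n then 1 else 0)
      * if cfg K M (Qb p₁ y) n j = fun _ => ∅ then 1 else 0 := by
  rw [Qs_union p₁ (Nat.zero_le y) (le_pow_pow hy M), rho_union (Qs_disjoint p₁ le_rfl), rho_eq_ite]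
  congr 1
  unfold rho
  rw [prod_Qb_fin p₁ hy]
  refine (prod_congr rfl fun (i : Fin M) _ => rho_eq (Qb p₁ y i) {(j : ℕ) + 1} n).trans ?_
  rw [prod_boole]
  exact ite_iff (by simp [funext_iff, cfg]) _ _

end Pool.Agent.Work.MP_51e72e_nt.PP
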