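import Pool.Agent.Work.MP_51e72e_nt.QADisp3
import Pool.Agent.Lib.ANT.MeanValue

noncomputable section
open Finset Real
open Pool.Agent.Lib.LargeSieve

namespace Pool.Agent.Work.MP_51e72e_nt.QA

/-- difference of two monotone functions with values in an interval -/
def BV (V : ℝ) (G : ℕ → ℝ) : Prop := ∃ G₁ G₂ : ℕ → ℝ, Monotone G₁ ∧ Monotone G₂ ∧
  (∀ n, 0 ≤ G₁ n ∧ G₁ n ≤ V) ∧ (∀ n, 0 ≤ G₂ n ∧ G₂ n ≤ V) ∧ ∀ n, G n = G₁ n - G₂ n

lemma BV.nonneg {V : ℝ} {G : ℕ → ℝ} (h : BV V G) : 0 ≤ V := by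
  obtain ⟨_, _, -, -, h, -⟩ := h
  exact (h 0).1.trans (h 0).2

lemma BV.abs_le {V : ℝ} {G : ℕ → ℝ} (h : BV V G) (n : ℕ) : |G n| ≤ V := by
  obtain ⟨_, _, -, -, h1, h2, h3⟩ := h
  rw [h3, _root_.abs_le]
  constructor <;> linarith [h1 n, h2 n]

lemma BV.le {V V' : ℝ} {G : ℕ → ℝ} (h : BV V G) (hV : V ≤ V') : BV V' G := by
  obtain ⟨G₁, G₂, m1, m2, h1, h2, h3⟩ := h
  exact ⟨G₁, G₂, m1, m2, fun n => ⟨(h1 n).1, (h1 n).2.trans hV⟩,
    fun n => ⟨(h2 n).1, (h2 n).2.trans hV⟩, h3⟩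

lemma BV.of_mono {V : ℝ} {G : ℕ → ℝ} (h : Monotone G) (h1 : ∀ n, 0 ≤ G n ∧ G n ≤ V) : BV V G :=
  ⟨G, fun _ => 0, h, monotone_const, h1, fun _ => ⟨le_rfl, (h1 0).1.trans (h1 0).2⟩, by simp⟩

lemma BV.of_anti {V : ℝ} {G : ℕ → ℝ} (h : Antitone G) (h1 : ∀ n, 0 ≤ G n ∧ G n ≤ V) : BV V G :=
  ⟨fun _ => V, fun n => V - G n, monotone_const, fun _ _ e => sub_le_sub_left (h e) V,
    fun _ => ⟨(h1 0).1.trans (h1 0).2, le_rfl⟩, fun n => ⟨by linarith [h1 n], by linarith [h1 n]⟩,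
    by simp⟩

lemma BV.comp {V : ℝ} {G : ℕ → ℝ} (h : BV V G) {φ : ℕ → ℕ} (hφ : Monotone φ) :
    BV V fun n => G (φ n) := by
  obtain ⟨G₁, G₂, m1, m2, h1, h2, h3⟩ := h
  exact ⟨_, _, m1.comp hφ, m2.comp hφ, fun n => h1 _, fun n => h2 _, fun n => h3 _⟩

lemma BV.mul {V W : ℝ} {G H : ℕ → ℝ} (h : BV V G) (h' : BV W H) :
    BV (2 * V * W) fun n => G n * H n := by
  have hV := h.nonneg
  obtain ⟨G₁, G₂, m1, m2, h1, h2, h3⟩ := h
  obtain ⟨H₁, H₂, m3, m4, h4, h5, h6⟩ := h'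
  have k : ∀ {a b : ℕ → ℝ}, (∀ n, 0 ≤ a n ∧ a n ≤ V) → (∀ n, 0 ≤ b n ∧ b n ≤ W) → ∀ n,
      0 ≤ a n * b n ∧ a n * b n ≤ V * W := fun ha hb n =>
    ⟨mul_nonneg (ha n).1 (hb n).1, mul_le_mul (ha n).2 (hb n).2 (hb n).1 hV⟩
  refine ⟨fun n => G₁ n * H₁ n + G₂ n * H₂ n, fun n => G₁ n * H₂ n + G₂ n * H₁ n,
    (m1.mul m3 (fun n => (h1 n).1) fun n => (h4 n).1).add
      (m2.mul m4 (fun n => (h2 n).1) fun n => (h5 n).1),
    (m1.mul m4 (fun n => (h1 n).1) fun n => (h5 n).1).add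
      (m2.mul m3 (fun n => (h2 n).1) fun n => (h4 n).1), fun n => ?_, fun n => ?_, fun n => ?_⟩
  · constructor <;> linarith [k h1 h4 n, k h2 h5 n]
  · constructor <;> linarith [k h1 h5 n, k h2 h4 n]
  · simp only [h3, h6]; ring

lemma BV_ind (X Y : ℕ) (h : X ≤ Y) : BV 1 fun n => if n ∈ Ico X Y then 1 else 0 := by
  have m : ∀ Z : ℕ, Monotone fun n => if Z ≤ n then (1 : ℝ) else 0 := fun Z a b e => by
    simp only; split_ifs <;> first | omega | norm_num
  refine ⟨_, _, m X, m Y, fun n => ?_, fun n => ?_, fun n => ?_⟩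
  · split_ifs <;> norm_num
  · split_ifs <;> norm_num
  · simp only [mem_Ico]; split_ifs <;> first | omega | norm_num

lemma BV.abel {V K : ℝ} {G : ℕ → ℝ} (h : BV V G) (a : ℕ → ℂ) (Y : ℕ)
    (hK : ∀ n ≤ Y, ‖∑ k ∈ range n, a k‖ ≤ K) : ‖∑ k ∈ range Y, G k * a k‖ ≤ 4 * K * V := by
  have hK0 : 0 ≤ K := (norm_nonneg _).trans (hK 0 (Nat.zero_le _))
  obtain ⟨G₁, G₂, m1, m2, h1, h2, h3⟩ := h
  have k : ∀ {F : ℕ → ℝ}, Monotone F → (∀ n, 0 ≤ F n ∧ F n ≤ V) →
      ‖∑ k ∈ range Y, F k * a k‖ ≤ 2 * K * V := fun {F} m hF => by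
    have := Pool.Agent.Lib.ANT.norm_sum_mono_mul_le (fun k => if k < Y then a k else 0) (K := K)
      (fun n => by
        rw [← sum_filter, show (range n).filter (· < Y) = range (min n Y) by ext; simp]
        exact hK _ (min_le_right _ _)) F m (fun n => (hF n).1) Y
    rw [sum_range_succ, if_neg (lt_irrefl _), mul_zero, add_zero,
      sum_congr rfl fun k hk => by rw [if_pos (mem_range.1 hk)]] at this
    exact this.trans (mul_le_mul_of_nonneg_left (hF Y).2 (by positivity))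
  simp only [h3, Complex.ofReal_sub, sub_mul, sum_sub_distrib]
  exact (norm_sub_le _ _).trans (by linarith [k m1 h1, k m2 h2])

lemma periodic_partial (h : ℕ → ℂ) {D : ℕ} (hD : 0 < D) (hp : ∀ n, h (n + D) = h n) (n : ℕ) :
    ‖∑ j ∈ range n, (h j - (∑ i ∈ range D, h i) / D)‖ ≤ 2 * ∑ i ∈ range D, ‖h i‖ := by
  have hD' : (D : ℂ) ≠ 0 := by exact_mod_cast hD.ne'
  have hD2 : (0 : ℝ) < D := by exact_mod_cast hD
  have p2 : ∀ t j, h (D * t + j) = h j := fun t j => by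
    induction t with
    | zero => simp
    | succ t ih => rw [Nat.mul_succ, add_right_comm, hp, ih]
  rw [← Nat.div_add_mod n D, sum_range_add, sum_range_mul_periodic _ (fun n => by rw [hp]),
    sum_sub_distrib, sum_const, card_range, nsmul_eq_mul (D : ℕ), mul_div_cancel₀ _ hD', sub_self,
    smul_zero, zero_add, sum_sub_distrib, sum_const, card_range, nsmul_eq_mul]
  simp only [p2]
  have l := (Nat.mod_lt n hD).le
  refine (norm_sub_le _ _).trans ?_
  rw [two_mul, norm_mul, norm_div, Complex.norm_natCast, Complex.norm_natCast]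
  refine add_le_add ((norm_sum_le _ _).trans (sum_le_sum_of_subset_of_nonneg
    (range_subset_range.2 l) fun _ _ _ => norm_nonneg _)) ?_
  calc _ ≤ D * ((∑ i ∈ range D, ‖h i‖) / D) := by gcongr; exact norm_sum_le _ _
    _ = _ := by field_simp

/-- density of squares -/
def ww (m : ℕ) : ℝ := 1 / (2 * (Nat.sqrt m : ℝ) + 1)

lemma ww_pos (m : ℕ) : 0 < ww m := by unfold ww; positivity

lemma ww_anti : Antitone ww := fun a b h => by
  unfold ww; gcongr

lemma sum_sq_blocks {M : Type*} [AddCommMonoid M] (f : ℕ → M) (N : ℕ) :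
    ∑ m ∈ range (N ^ 2), f m = ∑ n ∈ range N, ∑ j ∈ range (2 * n + 1), f (n ^ 2 + j) := by
  induction N with
  | zero => simp
  | succ N ih => rw [sum_range_succ, ← ih, ← sum_range_add]; congr 2; ring

lemma ww_block {n j : ℕ} (hj : j ∈ range (2 * n + 1)) : ww (n ^ 2 + j) = 1 / (2 * n + 1) := by
  rw [ww, Nat.sqrt_add_eq' n (by have := mem_range.1 hj; omega)]

lemma sum_ww (N : ℕ) : ∑ m ∈ range (N ^ 2), ww m = N := by
  rw [sum_sq_blocks, sum_congr rfl fun n _ => (sum_congr rfl fun j hj => ww_block hj).trans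
    (show _ = (1 : ℝ) by simp; field_simp)]
  simp

lemma BV.sqsum {V : ℝ} {G : ℕ → ℝ} (h : BV V G) (N k : ℕ) :
    |∑ n ∈ range N, G (n ^ 2 + k) - ∑ m ∈ range (N ^ 2), G m * ww m| ≤ 2 * (√k + 1) * V := by
  obtain ⟨G₁, G₂, m1, m2, h1, h2, h3⟩ := h
  have key : ∀ {F : ℕ → ℝ}, Monotone F → (∀ n, 0 ≤ F n ∧ F n ≤ V) →
      |∑ n ∈ range N, F (n ^ 2 + k) - ∑ m ∈ range (N ^ 2), F m * ww m| ≤ (√k + 1) * V :=
    fun {F} m hF => by
      set s := Nat.sqrt k + 1 with hs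
      have s1 : k < s * s := Nat.lt_succ_sqrt k
      have s2 : (s : ℝ) ≤ √k + 1 := by rw [hs]; push_cast; gcongr; exact Real.nat_sqrt_le_real_sqrt
      rw [sum_sq_blocks, ← sum_sub_distrib]
      calc _ ≤ ∑ n ∈ range N, (F ((n + s) ^ 2) - F (n ^ 2)) := by
            refine (abs_sum_le_sum_abs _ _).trans (sum_le_sum fun n _ => ?_)
            have e : F (n ^ 2 + k) - ∑ j ∈ range (2 * n + 1), F (n ^ 2 + j) * ww (n ^ 2 + j) =
                ∑ j ∈ range (2 * n + 1), (F (n ^ 2 + k) - F (n ^ 2 + j)) / (2 * n + 1) := by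
              rw [sum_congr rfl fun j hj => by rw [ww_block hj, mul_one_div], ← sum_div, ← sum_div,
                sum_sub_distrib, sum_const, card_range, nsmul_eq_mul]
              push_cast; field_simp
            rw [e]
            refine (abs_sum_le_sum_abs _ _).trans ((sum_le_card_nsmul _ _
              ((F ((n + s) ^ 2) - F (n ^ 2)) / (2 * n + 1)) fun j hj => ?_).trans (le_of_eq ?_))
            · rw [abs_div, abs_of_pos (by positivity : (0 : ℝ) < 2 * n + 1)]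
              have j1 := mem_range.1 hj
              have a1 := m (show n ^ 2 ≤ n ^ 2 + k by omega)
              have a2 := m (show n ^ 2 ≤ n ^ 2 + j by omega)
              have a3 := m (show n ^ 2 + k ≤ (n + s) ^ 2 by nlinarith)
              have a4 := m (show n ^ 2 + j ≤ (n + s) ^ 2 by nlinarith)
              exact div_le_div_of_nonneg_right (_root_.abs_le.2 ⟨by linarith, by linarith⟩)
                (by positivity)
            · rw [card_range, nsmul_eq_mul]; push_cast; field_simp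
        _ = ∑ j ∈ range s, (F ((N + j) ^ 2) - F (j ^ 2)) := by
            have e1 := sum_range_add (fun n => F (n ^ 2)) N s
            have e2 := sum_range_add (fun n => F (n ^ 2)) s N
            rw [add_comm s N] at e2
            simp only [sum_sub_distrib, add_comm _ s]
            linarith
        _ ≤ s * V := (sum_le_card_nsmul _ _ V fun j _ => by linarith [hF ((N + j) ^ 2), hF (j ^ 2)]).trans
            (by simp)
        _ ≤ _ := mul_le_mul_of_nonneg_right s2 ((hF 0).1.trans (hF 0).2)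
  have := abs_sub _ _ |>.trans (add_le_add (key m1 h1) (key m2 h2))
  simp only [h3, sub_mul, sum_sub_distrib]
  refine le_of_eq_of_le ?_ (this.trans (le_of_eq (by ring)))
  congr 1; ring

lemma BV.mul_ww {V W : ℝ} {G : ℕ → ℝ} (h : BV V G) (hW : 0 ≤ W) (hs : ∀ m, G m ≠ 0 → ww m ≤ W) :
    BV (2 * V * W) fun m => G m * ww m := by
  have := h.mul (BV.of_anti (G := fun m => min (ww m) W) (ww_anti.min antitone_const)
    fun m => ⟨le_min (ww_pos m).le hW, min_le_right _ _⟩)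
  refine (congrArg _ (funext fun m => ?_)).mp this
  by_cases h0 : G m = 0
  · simp [h0]
  · rw [min_eq_left (hs m h0)]

lemma sum_crt (f g : ℕ → ℂ) {a b : ℕ} (hab : a.Coprime b) (ha : 0 < a) (hb : 0 < b) :
    ∑ n ∈ range (a * b), f (n % a) * g (n % b) = (∑ u ∈ range a, f u) * ∑ v ∈ range b, g v := by
  rw [sum_mul_sum, ← sum_product']
  have inj : Set.InjOn (fun n => (n % a, n % b)) (range (a * b) : Finset ℕ) := fun n hn m hm h => by
    simp only [coe_range, Set.mem_Iio, Prod.mk.injEq] at hn hm h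
    exact Nat.ModEq.eq_of_lt_of_lt ((Nat.modEq_and_modEq_iff_modEq_mul hab).1 h) hn hm
  have mt : ∀ n ∈ range (a * b), (n % a, n % b) ∈ range a ×ˢ range b := fun n _ =>
    mem_product.2 ⟨mem_range.2 (Nat.mod_lt _ ha), mem_range.2 (Nat.mod_lt _ hb)⟩
  exact sum_nbij _ mt inj (surjOn_of_injOn_of_card_le _ mt inj (by simp)) fun _ _ => rfl

lemma sum_range_ite_dvd {D : ℕ} (hD : 0 < D) (F : ℕ → ℂ) (n : ℕ) :
    ∑ m ∈ range n, (if D ∣ m then F m else 0) = ∑ a ∈ range ((n + D - 1) / D), F (a * D) := by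
  rw [← sum_filter]
  symm
  refine sum_bij (fun a _ => a * D) (fun a ha => ?_)
    (fun _ _ _ _ h => Nat.eq_of_mul_eq_mul_right hD h) (fun m hm => ?_) fun _ _ => rfl
  · have := (Nat.le_div_iff_mul_le hD).1 (mem_range.1 ha)
    rw [Nat.succ_mul] at this
    exact mem_filter.2 ⟨mem_range.2 (by omega), dvd_mul_left _ _⟩
  · obtain ⟨h1, a, rfl⟩ := mem_filter.1 hm
    refine ⟨a, mem_range.2 ((Nat.le_div_iff_mul_le hD).2 ?_), mul_comm _ _⟩
    have := mem_range.1 h1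
    rw [Nat.succ_mul, mul_comm a]; omega

lemma sum_mul_eq (S : Finset ℕ) {D : ℕ} (hD : 0 < D) (φ : ℕ → ℂ) (X : ℕ)
    (h : ∀ m, X ≤ m → φ m = 0) :
    ∑ a ∈ S, φ (a * D) = ∑ m ∈ range X, if D ∣ m then (if m / D ∈ S then φ m else 0) else 0 := by
  rw [sum_range_ite_dvd hD]
  simp only [Nat.mul_div_cancel _ hD]
  refine sum_congr_of_eq_on_inter (fun a _ ha => h _ ?_) (fun a _ ha => if_neg ha)
    fun a ha _ => (if_pos ha).symm
  have := (Nat.div_lt_iff_lt_mul hD).1 (Nat.lt_succ_of_le (not_lt.1 fun h => ha (mem_range.2 h)))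
  rw [Nat.succ_mul] at this; omega

lemma model_int {V : ℝ} {g : ℕ → ℝ} (hg : BV V g) {D : ℕ} (hD : 0 < D) {θ : ℝ} {t : ℤ}
    (h : D * θ = t) (X : ℕ) :
    ‖∑ m ∈ range X, (if D ∣ m then g m * ee (m * θ) else 0) - (∑ m ∈ range X, g m : ℝ) / D‖
      ≤ 8 * V := by
  have e : ∑ i ∈ range D, (if D ∣ i then (1 : ℂ) else 0) = 1 := by
    rw [sum_range_ite_dvd hD, show (D + D - 1) / D = 1 from Nat.div_eq_of_lt_le (by omega) (by omega)]
    simp
  have := hg.abel (fun m => (if D ∣ m then (1 : ℂ) else 0) - 1 / D) X (K := 2) fun n _ => by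
    have := periodic_partial (fun m => if D ∣ m then (1 : ℂ) else 0) hD (fun n => by simp) n
    rw [e] at this
    refine this.trans (le_of_eq ?_)
    have e2 := congrArg Complex.re e
    rw [Complex.re_sum] at e2
    rw [sum_congr rfl fun i _ => show _ = (if D ∣ i then (1 : ℂ) else 0).re by split_ifs <;> simp,
      e2]
    simp
  refine le_of_eq_of_le ?_ (this.trans (le_of_eq (by ring)))
  rw [Complex.ofReal_sum, sum_div, ← sum_sub_distrib]
  congr 1
  refine sum_congr rfl fun m _ => ?_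
  split_ifs with hm
  · obtain ⟨a, rfl⟩ := hm
    rw [show ((D * a : ℕ) : ℝ) * θ = ((a * t : ℤ) : ℝ) by push_cast; rw [← h]; ring, ee_intCast]
    ring
  · ring

lemma model_far {V E : ℝ} {g : ℕ → ℝ} (hg : BV V g) {D : ℕ} (hD : 0 < D) {θ : ℝ} (hE : 0 < E)
    (h : 1 / E ≤ dZ (D * θ)) (X : ℕ) :
    ‖∑ m ∈ range X, (if D ∣ m then g m * ee (m * θ) else 0)‖ ≤ 2 * E * V := by
  have h0 : 0 < dZ (D * θ) := lt_of_lt_of_le (by positivity) h
  have := hg.abel (fun m => if D ∣ m then ee (m * θ) else 0) X (K := E / 2) fun n _ => by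
    rw [sum_range_ite_dvd hD]
    simp only [Nat.cast_mul, mul_assoc]
    refine (norm_sum_ee_le _ _ h0).trans ?_
    rw [div_le_iff₀ hE] at h
    rw [div_le_iff₀ (by positivity)]
    linarith
  simp only [mul_ite, mul_zero] at this
  exact this.trans (le_of_eq (by ring))

/-- indicator of values of the quadratic polynomial -/
def s1 (N : ℕ) (k : ℤ) (m : ℕ) : ℂ := ∑ n ∈ Icc 1 N, if (n : ℤ) ^ 2 + k = m then 1 else 0

lemma sum_s1 (φ : ℕ → ℂ) {N k : ℕ} (hk : k ≤ N) :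
    ∑ m ∈ range ((N + 1) ^ 2), φ m * s1 N k m = ∑ n ∈ Icc 1 N, φ (n ^ 2 + k) := by
  simp only [s1, mul_sum]
  rw [sum_comm]
  refine sum_congr rfl fun n hn => ?_
  have := Nat.pow_le_pow_left (mem_Icc.1 hn).2 2
  rw [sum_eq_single (n ^ 2 + k) (fun m _ h => by
    rw [if_neg fun e => h (by exact_mod_cast e.symm), mul_zero])
    fun h => absurd (mem_range.2 (by nlinarith)) h]
  simp

lemma core_true {V : ℝ} {G : ℕ → ℝ} (hG : BV V G) {N k D : ℕ} (hk : k ≤ N) (hD : 0 < D)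
    {y : ℕ × ℕ} (hy : 0 < y.1) (hc : D.Coprime y.1) :
    ‖∑ m ∈ range ((N + 1) ^ 2), (if D ∣ m then G m * ee (m * th y) else 0) * s1 N k m -
      rho k D / D * (gs y * ee (k * th y)) * (∑ m ∈ range ((N + 1) ^ 2), G m * ww m : ℝ)‖
      ≤ V * rho k D * (9 * y.1 + 2 * (√k + 1) / D) := by
  have hV := hG.nonneg
  have hy' : (y.1 : ℝ) ≠ 0 := by positivity
  set h : ℕ → ℂ := fun n => if D ∣ n ^ 2 + k then ee ((n ^ 2 + k : ℕ) * th y) else 0 with hh
  have e0 : ∀ n, h n = (if (D : ℤ) ∣ ((n % D : ℕ) : ℤ) ^ 2 + k then 1 else 0) *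
      (ee (((n % y.1 : ℕ) : ℝ) ^ 2 * th y) * ee (k * th y)) := fun n => by
    have i1 : D ∣ n ^ 2 + k ↔ (D : ℤ) ∣ ((n % D : ℕ) : ℤ) ^ 2 + k := by
      rw [← Int.natCast_dvd_natCast, Int.dvd_iff_emod_eq_zero, Int.dvd_iff_emod_eq_zero]
      push_cast
      rw [Int.add_emod, sq, Int.mul_emod, Int.add_emod (_ ^ 2), sq, Int.mul_emod (_ % _),
        Int.emod_emod_of_dvd _ dvd_rfl]
    simp only [hh, i1, ite_mul, one_mul, zero_mul]
    refine if_congr Iff.rfl ?_ rfl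
    rw [← ee_add, ← ee_add_int (_ + _) ((n / y.1 : ℕ) * (y.1 * (n / y.1 : ℕ) + 2 * (n % y.1 : ℕ))
      * y.2)]
    congr 1
    have : (n : ℝ) = y.1 * (n / y.1 : ℕ) + (n % y.1 : ℕ) := by
      exact_mod_cast (Nat.div_add_mod n y.1).symm
    simp only [th, Nat.cast_add, Nat.cast_pow, Int.cast_mul, Int.cast_add, Int.cast_natCast,
      Int.cast_ofNat]
    generalize ((n / y.1 : ℕ) : ℝ) = u at *
    generalize ((n % y.1 : ℕ) : ℝ) = v at *
    rw [this]; field_simp; ring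
  have r0 : ∑ u ∈ range D, (if (D : ℤ) ∣ (u : ℤ) ^ 2 + k then (1 : ℂ) else 0) = rho k D := by
    simp [rho]
  have hp : ∀ n, h (n + D * y.1) = h n := fun n => by
    rw [e0, e0, Nat.add_mul_mod_self_left, Nat.add_mul_mod_self_right]
  have m1 : (∑ i ∈ range (D * y.1), h i) / (D * y.1 : ℕ) = rho k D / D * (gs y * ee (k * th y)) := by
    simp only [e0]
    rw [sum_crt (fun u => if (D : ℤ) ∣ (u : ℤ) ^ 2 + k then 1 else 0)
      (fun v => ee ((v : ℝ) ^ 2 * th y) * ee (k * th y)) hc hD hy, r0, ← sum_mul, gs]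
    push_cast; ring
  have m2 : ∑ i ∈ range (D * y.1), ‖h i‖ = rho k D * y.1 := by
    have := sum_crt (fun u => if (D : ℤ) ∣ (u : ℤ) ^ 2 + k then 1 else 0) (fun _ => 1) hc hD hy
    rw [r0, sum_const, card_range, nsmul_eq_mul, mul_one] at this
    refine Complex.ofReal_injective ?_
    rw [Complex.ofReal_sum, Complex.ofReal_mul, Complex.ofReal_natCast, Complex.ofReal_natCast,
      ← this]
    refine sum_congr rfl fun i _ => ?_
    rw [e0]; split_ifs <;> simp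
  have a1 := (hG.comp (φ := fun n => n ^ 2 + k) fun a b e => by simp only; gcongr).abel
    (fun n => h n - rho k D / D * (gs y * ee (k * th y))) (N + 1) fun n _ => by
      have := periodic_partial h (Nat.mul_pos hD hy) hp n
      rwa [m1, m2] at this
  have a2 := hG.sqsum (N + 1) k
  have a3 : ‖(G (0 ^ 2 + k) : ℂ) * h 0‖ ≤ V * (rho k D * y.1) := by
    rw [norm_mul, Complex.norm_real, ← m2]
    exact mul_le_mul (hG.abs_le _) (single_le_sum (fun _ _ => norm_nonneg _)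
      (mem_range.2 (Nat.mul_pos hD hy))) (norm_nonneg _) hV
  have a4 : ‖(rho k D / D * (gs y * ee (k * th y)) : ℂ)‖ ≤ rho k D / D := by
    rw [norm_mul, norm_mul, norm_ee, mul_one, norm_div, Complex.norm_natCast, Complex.norm_natCast]
    exact mul_le_of_le_one_right (by positivity) (norm_gs_le y)
  rw [sum_s1 _ hk]
  have e1 : ∑ n ∈ Icc 1 N, (if D ∣ n ^ 2 + k then G (n ^ 2 + k) * ee ((n ^ 2 + k : ℕ) * th y) else 0)
      = ∑ n ∈ range (N + 1), G (n ^ 2 + k) * h n - G (0 ^ 2 + k) * h 0 := by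
    rw [sum_range_succ', add_sub_cancel_right, sum_Icc_one]
    exact sum_congr rfl fun n _ => by simp only [hh, mul_ite, mul_zero, add_comm n 1]
  rw [← Real.norm_eq_abs, ← Complex.norm_real, Complex.ofReal_sub, Complex.ofReal_sum] at a2
  simp only [mul_sub, sum_sub_distrib, ← sum_mul] at a1
  rw [e1]
  generalize (rho k D / D * (gs y * ee (k * th y)) : ℂ) = μ at *
  generalize ∑ n ∈ range (N + 1), (G (n ^ 2 + k) : ℂ) * h n = S₁ at *
  generalize ∑ n ∈ range (N + 1), (G (n ^ 2 + k) : ℂ) = S₂ at *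
  generalize ((∑ m ∈ range ((N + 1) ^ 2), G m * ww m : ℝ) : ℂ) = S₃ at *
  calc _ = ‖(S₁ - S₂ * μ) - G (0 ^ 2 + k) * h 0 + μ * (S₂ - S₃)‖ := by congr 1; ring
    _ ≤ 4 * (2 * (rho k D * y.1)) * V + V * (rho k D * y.1) + rho k D / D * (2 * (√k + 1) * V) := by
        refine (norm_add_le _ _).trans (add_le_add ((norm_sub_le _ _).trans (add_le_add a1 a3)) ?_)
        rw [norm_mul]; gcongr
    _ = _ := by ring

lemma BV.cells {V α₀ F : ℝ} {g : ℕ → ℝ} (hg : BV V g) {α : ℕ → ℂ} (hα : ∀ a, ‖α a‖ ≤ α₀)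
    (A ℓ R : ℕ) (θ : ℝ) (hF : ∀ r, ‖hat α (A + r * ℓ) ℓ θ‖ ≤ F) :
    ‖∑ a ∈ Ico A (A + R * ℓ), α a * (g a * ee (a * θ))‖ ≤ R * V * F + 2 * α₀ * ℓ * V := by
  have h0 : 0 ≤ α₀ := (norm_nonneg _).trans (hα 0)
  have hV := hg.nonneg
  have hb := hg.abs_le
  obtain ⟨G₁, G₂, m1, m2, h1, h2, h3⟩ := hg
  have tel : ∀ {G : ℕ → ℝ}, (∀ n, 0 ≤ G n ∧ G n ≤ V) →
      ∑ r ∈ range R, (G (A + (r + 1) * ℓ) - G (A + r * ℓ)) ≤ V := fun {G} hG => by
    rw [sum_range_sub (fun r => G (A + r * ℓ))]; linarith [hG (A + R * ℓ), hG (A + 0 * ℓ)]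
  rw [sum_cells]
  calc _ ≤ ∑ r ∈ range R, (V * F + α₀ * ℓ * ((G₁ (A + (r + 1) * ℓ) - G₁ (A + r * ℓ)) +
        (G₂ (A + (r + 1) * ℓ) - G₂ (A + r * ℓ)))) := by
        refine (norm_sum_le _ _).trans (sum_le_sum fun r _ => ?_)
        refine (norm_le_insert' _ (g (A + r * ℓ) * hat α (A + r * ℓ) ℓ θ)).trans (add_le_add ?_ ?_)
        · rw [norm_mul, Complex.norm_real]
          exact mul_le_mul (hb _) (hF r) (norm_nonneg _) hV
        · rw [hat, mul_sum, ← sum_sub_distrib]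
          refine (norm_sum_le _ _).trans ((sum_le_card_nsmul _ _ (α₀ * ((G₁ (A + (r + 1) * ℓ) -
            G₁ (A + r * ℓ)) + (G₂ (A + (r + 1) * ℓ) - G₂ (A + r * ℓ)))) fun a ha => ?_).trans
            (le_of_eq (by simp; ring)))
          obtain ⟨a1, a2⟩ := mem_Ico.1 ha
          have a3 : a ≤ A + (r + 1) * ℓ := by rw [Nat.succ_mul]; omega
          rw [show α a * (g a * ee (a * θ)) - g (A + r * ℓ) * (α a * ee (a * θ)) =
            α a * ((g a - g (A + r * ℓ) : ℝ) * ee (a * θ)) by push_cast; ring, norm_mul, norm_mul,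
            norm_ee, mul_one, Complex.norm_real, Real.norm_eq_abs, h3, h3]
          refine mul_le_mul (hα a) (_root_.abs_le.2 ⟨?_, ?_⟩) (abs_nonneg _) h0 <;>
          linarith [m1 a1, m1 a3, m2 a1, m2 a3]
    _ ≤ _ := by
        rw [sum_add_distrib, sum_const, ← mul_sum, sum_add_distrib, card_range, nsmul_eq_mul]
        have := mul_le_mul_of_nonneg_left (add_le_add (tel h1) (tel h2))
          (by positivity : 0 ≤ α₀ * ℓ)
        linarith

end Pool.Agent.Work.MP_51e72e_nt.QA
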