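import Pool.Agent.Work.MP_51e72e_nt.QACore

noncomputable section
open Finset Real
open Pool.Agent.Lib.LargeSieve

namespace Pool.Agent.Work.MP_51e72e_nt.QA

variable {ψ : ℝ → ℝ} {N K Q : ℕ} {M₀ Λ L : ℝ}

lemma sum_le_mul {ι : Type*} (s : Finset ι) (f : ι → ℝ) {C n : ℝ} (hC : 0 ≤ C)
    (hn : (s.card : ℝ) ≤ n) (h : ∀ i ∈ s, f i ≤ C) : ∑ i ∈ s, f i ≤ n * C :=
  (sum_le_card_nsmul _ _ _ h).trans (by rw [nsmul_eq_mul]; gcongr)

/-- no prime factor up to z -/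
def Rough (z m : ℕ) : Prop := ∀ p, p.Prime → p ∣ m → z < p

lemma Rough.lt {z m f : ℕ} (h : Rough z m) (hm : m ≠ 0) (hf : f ∣ m) (h1 : f ≠ 1) : z < f := by
  obtain ⟨p, hp, hpf⟩ := Nat.exists_prime_and_dvd h1
  exact (h p hp (hpf.trans hf)).trans_le
    (Nat.le_of_dvd (Nat.pos_of_dvd_of_pos hf (Nat.pos_of_ne_zero hm)) hpf)

lemma Rough.cop {z m q : ℕ} (h : Rough z m) (hq : q ∈ Icc 1 z) : m.Coprime q :=
  Nat.coprime_of_dvd fun p hp h1 h2 => by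
    have := h p hp h1
    have := Nat.le_of_dvd (mem_Icc.1 hq).1 h2
    have := (mem_Icc.1 hq).2
    omega

lemma Rough.isCop {z m Q : ℕ} (h : Rough z m) (hQ : Q ≤ z) :
    ∀ q ∈ Icc 1 Q, IsCoprime (m : ℤ) q := fun _ hq =>
  Nat.isCoprime_iff_coprime.2 (h.cop (Icc_subset_Icc_right hQ hq))

lemma Kr.kk_big (h : Kr ψ N K Q M₀ Λ L) (k : ℤ) {m : ℕ} (hm : (N + 1) ^ 2 ≤ m) :
    kk ψ N Q k m = 0 := kk_zero k (h.psi_big
      ((Nat.pow_lt_pow_left (Nat.lt_succ_self N) two_ne_zero).trans_le hm))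

lemma Kr.sharp1 (h : Kr ψ N K Q M₀ Λ L) {z N₁ T : ℕ} (hz : Q ≤ z) (hN₁ : N₁ ≤ N) (s : Finset ℕ)
    (hs : ∀ b ∈ s, Squarefree b ∧ b ≤ N₁ ∧ Rough z b) {c : ℕ → ℂ} {c₀ : ℝ} (hc₀ : 0 ≤ c₀)
    (hc : ∀ b ∈ s, ‖c b‖ ≤ c₀) (hT : 4 ≤ T) (hF : 2 * T ^ 2 ≤ z) (hK : T ^ 2 ≤ K) {y : ℕ × ℕ}
    (hy : y ∈ Far Q) (A₁ ℓ : ℕ) :
    ∑ k ∈ Icc (1 : ℤ) K, ‖∑ b ∈ s, c b * ∑ a ∈ Ico A₁ (A₁ + ℓ),
      ee ((a * b : ℕ) * th y) * kk ψ N Q k (a * b)‖
      ≤ 800 * c₀ * 1 * K * (N * L ^ 4 / √T + Q * N₁) := by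
  have bv : ∀ b : ℕ, BV 1 fun m => if m / b ∈ Ico A₁ (A₁ + ℓ) then 1 else 0 := fun b =>
    (BV_ind A₁ (A₁ + ℓ) (by omega)).comp fun _ _ e => Nat.div_le_div_right e
  refine h.assemble s id (Set.injOn_id _) hN₁ (fun b hb => ⟨(hs b hb).1, (hs b hb).2.1⟩) hc₀
    zero_le_one hc (fun b => mass ψ N _) (fun b _ => h.mass_le (bv b)) hT hF hK
    (fun k => gs y * ee (k * th y)) (fun k => by
      rw [norm_mul, norm_ee, mul_one]; exact norm_gs_le y) _ fun b hb k hk => ?_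
  obtain ⟨sq, -, ro⟩ := hs b hb
  have b0 := Nat.pos_of_ne_zero sq.ne_zero
  have := h.core (bv b) hk b0 hy (ro.cop (mem_Icc.2 ⟨(mem_Far.1 hy).1.1,
    (mem_Far.1 hy).1.2.trans hz⟩)) (· = y) (fun x _ e => ⟨0, by simp [e]⟩) fun x hx e => by
      have := Far_spaced (ro.isCop hz) hy hx (Ne.symm e)
      rw [← mul_sub] at this
      exact_mod_cast this
  refine le_of_eq_of_le ?_ this
  congr 2
  · rw [sum_mul_eq _ b0 (fun m => ee (m * th y) * kk ψ N Q k m) ((N + 1) ^ 2)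
      fun m hm => by rw [h.kk_big k hm, mul_zero]]
    exact sum_congr rfl fun m _ => by split_ifs <;> simp
  · congr 1
    have e1 : (rho k b : ℂ) = ∑ f ∈ b.divisors, (jj k f : ℂ) := by
      exact_mod_cast rho_squarefree k sq
    rw [filter_eq', if_pos hy, sum_singleton, e1,
      ← add_sum_erase _ _ (Nat.one_mem_divisors.2 b0.ne'), jj_one,
      show b.divisors.erase 1 = b.divisors.filter (z < ·) from ?_]
    · simp only [id]; push_cast; ring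
    ext f
    simp only [mem_erase, mem_filter, Nat.mem_divisors]
    have := h.Q0
    exact ⟨fun e => ⟨e.2, ro.lt b0.ne' e.2.1 e.1⟩, fun e => ⟨by omega, e.1⟩⟩

lemma Kr.sharp (h : Kr ψ N K Q M₀ Λ L) {z N₁ T : ℕ} (hz : Q ≤ z) (hN₁ : N₁ ≤ N) (s : Finset ℕ)
    (hs : ∀ b ∈ s, Squarefree b ∧ b ≤ N₁ ∧ Rough z b) {u β : ℕ → ℂ} {u₀ β₀ : ℝ}
    (hu : ∀ a, ‖u a‖ ≤ u₀) (hβ : ∀ b, ‖β b‖ ≤ β₀) (hT : 4 ≤ T) (hF : 2 * T ^ 2 ≤ z)
    (hK : T ^ 2 ≤ K) (A ℓ R : ℕ) :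
    ∑ k ∈ Icc (1 : ℤ) K, ‖∑ b ∈ s, β b * ∑ a ∈ Ico A (A + R * ℓ),
      shp u A ℓ Q a * kk ψ N Q k (a * b)‖
      ≤ R * Q ^ 2 * (800 * (β₀ * u₀) * 1 * K * (N * L ^ 4 / √T + Q * N₁)) := by
  have u0 : 0 ≤ u₀ := (norm_nonneg _).trans (hu 0)
  have β0 : 0 ≤ β₀ := (norm_nonneg _).trans (hβ 0)
  have e : ∀ k, ∑ b ∈ s, β b * ∑ a ∈ Ico A (A + R * ℓ), shp u A ℓ Q a * kk ψ N Q k (a * b) =
      ∑ r ∈ range R, ∑ y ∈ Far Q, ∑ b ∈ s, (β b * (hat u (A + r * ℓ) ℓ ((-b : ℤ) * th y) / ℓ)) *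
        ∑ a ∈ Ico (A + r * ℓ) (A + r * ℓ + ℓ), ee ((a * b : ℕ) * th y) * kk ψ N Q k (a * b) :=
    fun k => by
      simp_rw [sum_comm (t := s)]
      refine sum_congr rfl fun b hb => ?_
      simp only [mul_assoc, ← mul_sum (a := β b)]
      rw [sum_cells]
      congr 1
      refine sum_congr rfl fun r _ => ?_
      simp only [mul_sum]
      rw [sum_comm]
      refine sum_congr rfl fun a ha => ?_
      rw [shp_perm u A ℓ a (b := -b) fun q hq => ((hs b hb).2.2.isCop hz q hq).neg_left,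
        cell_eq ha, sum_mul]
      refine sum_congr rfl fun y _ => ?_
      rw [mul_assoc]
      congr 3
      push_cast; ring
  simp_rw [e]
  refine (sum_le_sum fun k _ => (norm_sum_le _ _).trans (sum_le_sum fun r _ =>
    norm_sum_le _ _)).trans ?_
  rw [sum_comm, mul_assoc (R : ℝ)]
  refine sum_le_mul _ _ (by positivity) (by simp) fun r _ => ?_
  rw [sum_comm]
  refine sum_le_mul _ _ (by positivity) (card_Far_le Q) fun y hy =>
    h.sharp1 hz hN₁ s hs (mul_nonneg β0 u0) (fun b _ => ?_) hT hF hK hy _ ℓ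
  rw [norm_mul]; exact mul_le_mul (hβ b) (norm_hat_le hu _ _ _) (norm_nonneg _) β0

lemma Kr.flat_model (h : Kr ψ N K Q M₀ Λ L) {z : ℕ} (hz : Q ≤ z) (s : Finset ℕ)
    (hs : ∀ b ∈ s, b ≠ 0 ∧ Rough z b) {u β : ℕ → ℂ} {u₀ β₀ : ℝ} (hu : ∀ a, ‖u a‖ ≤ u₀)
    (hβ : ∀ b, ‖β b‖ ≤ β₀) {A ℓ : ℕ} (hA : 0 < A) (hℓ : 0 < ℓ) (R : ℕ) (k : ℤ) :
    ‖∑ b ∈ s, β b * ∑ a ∈ Ico A (A + R * ℓ), flt u A ℓ Q a * k2 ψ Q k (a * b)‖
      ≤ N ^ 2 / A * (β₀ * (Q ^ 2 * (R * (2 * 1 * (Q / N)) * (u₀ * Q ^ 4) +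
        2 * (u₀ * (1 + Q ^ 2)) * ℓ * (2 * 1 * (Q / N))))) := by
  have u0 : 0 ≤ u₀ := (norm_nonneg _).trans (hu 0)
  have β0 : 0 ≤ β₀ := (norm_nonneg _).trans (hβ 0)
  have bv := h.bv.mul_ww (W := Q / N) (by positivity) h.w
  rw [← sum_filter_of_ne (p := fun b => b ≤ N ^ 2 / A) fun b _ hne => by
    by_contra hb
    refine hne (mul_eq_zero_of_right _ (sum_eq_zero fun a ha => ?_))
    have := (Nat.div_lt_iff_lt_mul hA).1 (not_le.1 hb)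
    rw [k2, h.psi_big (this.trans_le (by
      rw [mul_comm]; exact Nat.mul_le_mul_right _ (mem_Ico.1 ha).1))]
    simp]
  refine (norm_sum_le _ _).trans (sum_le_mul _ _ (by positivity) ?_ fun b hb => ?_)
  swap
  · obtain ⟨-, ro⟩ := hs b (mem_filter.1 hb).1
    rw [norm_mul]
    refine mul_le_mul (hβ b) ?_ (norm_nonneg _) β0
    have e : ∑ a ∈ Ico A (A + R * ℓ), flt u A ℓ Q a * k2 ψ Q k (a * b) = ∑ x ∈ Far Q,
        gs x * ee (k * th x) * ∑ a ∈ Ico A (A + R * ℓ), flt u A ℓ Q a *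
          ((ψ (a * b : ℕ) * ww (a * b) : ℝ) * ee (a * ((-b : ℤ) * th x))) := by
      simp only [k2, sqm, mul_sum]
      rw [sum_comm]
      refine sum_congr rfl fun x _ => sum_congr rfl fun a _ => ?_
      rw [show th x * (k - (a * b : ℕ)) = k * th x + a * ((-b : ℤ) * th x) by push_cast; ring,
        ee_add]
      push_cast; ring
    rw [e]
    refine (norm_sum_le _ _).trans (sum_le_mul _ _ (by positivity) (card_Far_le Q) fun x hx => ?_)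
    · rw [norm_mul, norm_mul, norm_ee, mul_one]
      exact (mul_le_of_le_one_left (norm_nonneg _) (norm_gs_le x)).trans
        ((bv.comp (φ := (· * b)) fun _ _ e => Nat.mul_le_mul_right b e).cells
          (norm_flt_le hu A ℓ Q) A ℓ R _ fun r => flat hu A r hℓ
            (fun q hq => (ro.isCop hz q hq).neg_left) hx)
  · have := card_le_card (s := s.filter fun b => b ≤ N ^ 2 / A) (t := Icc 1 (N ^ 2 / A))
      fun b hb => mem_Icc.2 ⟨Nat.pos_of_ne_zero (hs b (mem_filter.1 hb).1).1, (mem_filter.1 hb).2⟩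
    rw [Nat.card_Icc, Nat.add_sub_cancel] at this
    calc _ ≤ ((N ^ 2 / A : ℕ) : ℝ) := by exact_mod_cast this
      _ ≤ _ := Nat.cast_div_le.trans (by push_cast; rfl)

theorem Kr.block (h : Kr ψ N K Q M₀ Λ L) {z N₁ A : ℕ} (S : Sz A N K Q L)
    (hz : 2 * Q ^ 96 ≤ z) (hN₁ : N₁ * Q ^ 21 ≤ N) (s : Finset ℕ)
    (hs : ∀ b ∈ s, Squarefree b ∧ b ≤ N₁ ∧ Rough z b) {u β : ℕ → ℂ} {u₀ β₀ : ℝ}
    (hu : ∀ a, ‖u a‖ ≤ u₀) (hβ : ∀ b, ‖β b‖ ≤ β₀) :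
    ∑ k ∈ Icc (1 : ℤ) K, ‖∑ b ∈ s, β b * ∑ a ∈ Ico A (A + Q ^ 17 * (A / Q ^ 17 + 1)),
      u a * kk ψ N Q k (a * b)‖ ≤ 7000 * β₀ * u₀ * K * N * L / √Q := by
  classical
  have ⟨A0, N0, K0, q0, L0, L10, NL, two, lq, lL0, lL, lK, l1, l2, l3⟩ := S
  have u0 : 0 ≤ u₀ := (norm_nonneg _).trans (hu 0)
  have β0 : 0 ≤ β₀ := (norm_nonneg _).trans (hβ 0)
  have f : (2 : ℝ) ^ 2 ≤ Q ∧ ((Q : ℝ) ^ 48) ^ 2 ≤ K ∧ (Q : ℝ) ^ 17 ≤ A ∧
      2 * (Q : ℝ) ^ 24 / A ≤ 1 / Q ∧ 2 ^ 4 / (Q : ℝ) ^ 12 ≤ 1 / Q := by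
    refine ⟨?_, ?_, ?_, ?_, ?_⟩ <;>
    · refine lg (by positivity) (by positivity) ?_
      try simp (disch := positivity) only [Real.log_mul, Real.log_div, Real.log_pow, Real.log_one]
      push_cast; linarith
  obtain ⟨f1, f2, f3, f4, f5⟩ := f
  have Q4 : 4 ≤ Q := by exact_mod_cast f1
  have Q5 : Q ≤ z := le_trans (by have := Nat.le_self_pow (n := 96) (by norm_num) Q; omega) hz
  have n1 : N₁ ≤ N := le_trans (Nat.le_mul_of_pos_right _ (by positivity)) hN₁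
  have d := disp h.wt hu (β := fun b => if b ∈ s then β b else 0) (β₀ := β₀)
    (fun b => by split_ifs; exacts [hβ b, by simpa using β0]) S h.hM h.hΛ h.τ
  simp only [ite_mul, zero_mul, sum_ite_mem] at d
  rw [inter_eq_right.2 fun b hb => mem_Icc.2 ⟨Nat.pos_of_ne_zero (hs b hb).1.ne_zero,
    (hs b hb).2.1.trans n1⟩] at d
  have sh := h.sharp (T := Q ^ 48) Q5 n1 s hs hu hβ (Q4.trans (Nat.le_self_pow (by norm_num) Q))
    (by rw [← pow_mul]; exact hz) (by exact_mod_cast f2) A (A / Q ^ 17 + 1) (Q ^ 17)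
  have fl := h.flat_model Q5 s (fun b hb => ⟨(hs b hb).1.ne_zero, (hs b hb).2.2⟩) hu hβ
    (A := A) (ℓ := A / Q ^ 17 + 1) (by exact_mod_cast A0) (Nat.succ_pos _) (Q ^ 17)
  have ℓ1 : ((A / Q ^ 17 + 1 : ℕ) : ℝ) ≤ 2 * A / Q ^ 17 := by
    have : (1 : ℝ) ≤ A / Q ^ 17 := (one_le_div (by positivity)).2 f3
    have h2 : ((A / Q ^ 17 : ℕ) : ℝ) ≤ A / Q ^ 17 := Nat.cast_div_le.trans (by push_cast; rfl)
    rw [Nat.cast_add, mul_div_assoc]; push_cast at h2 ⊢; linarith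
  generalize A / Q ^ 17 + 1 = ℓ at *
  have s0 : 0 < √(Q : ℝ) := Real.sqrt_pos.2 q0
  have s1 : 1 / (Q : ℝ) ≤ L / √Q := by
    gcongr
    · linarith
    · exact Real.sqrt_le_iff.2 ⟨q0.le, by nlinarith⟩
  replace d : _ ≤ 4500 * (β₀ * u₀ * K * N) * (L / √Q) :=
    le_of_pow_le_pow_left₀ two_ne_zero (by positivity) (d.trans (by
      rw [mul_pow (4500 * _), div_pow, Real.sq_sqrt q0.le]
      calc _ = 20000000 * (β₀ * u₀ * K * N) ^ 2 * (L ^ 2 / Q) := by ring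
        _ ≤ _ := by rw [mul_pow 4500]; gcongr; norm_num))
  replace sh : _ ≤ 1600 * (β₀ * u₀ * K * N) * (L / √Q) := sh.trans (by
    have e : √((Q ^ 48 : ℕ) : ℝ) = Q ^ 24 := by
      rw [← Real.sqrt_sq (by positivity : (0 : ℝ) ≤ Q ^ 24)]; congr 1; push_cast; ring
    have n2 : (N₁ : ℝ) ≤ N / Q ^ 21 := by rw [le_div_iff₀ (by positivity)]; exact_mod_cast hN₁
    rw [e]
    calc _ ≤ (Q ^ 17 : ℕ) * Q ^ 2 * (800 * (β₀ * u₀) * 1 * K * (N * Q ^ 4 / Q ^ 24 +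
          Q * (N / Q ^ 21))) := by
          gcongr; exact lg L0 q0 lL
      _ = 1600 * (β₀ * u₀ * K * N) * (1 / Q) := by push_cast; field_simp; ring
      _ ≤ _ := by gcongr)
  replace fl : ∀ k, _ ≤ 2 * (β₀ * u₀ * N) * (L / √Q) := fun k => (fl k).trans (by
    calc _ ≤ N ^ 2 / A * (β₀ * (Q ^ 2 * ((Q ^ 17 : ℕ) * (2 * 1 * (Q / N)) * (u₀ * Q ^ 4) +
          2 * (u₀ * (Q ^ 2 + Q ^ 2)) * (2 * A / Q ^ 17) * (2 * 1 * (Q / N))))) := by
          gcongr; nlinarith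
      _ = (β₀ * u₀ * N) * (2 * (Q : ℝ) ^ 24 / A + 2 ^ 4 / (Q : ℝ) ^ 12) := by
          push_cast; field_simp; ring
      _ ≤ (β₀ * u₀ * N) * (L / √Q + L / √Q) := 
          mul_le_mul_of_nonneg_left (add_le_add (f4.trans s1) (f5.trans s1)) (by positivity)
      _ = _ := by ring)
  have e : ∀ k, ∑ b ∈ s, β b * ∑ a ∈ Ico A (A + Q ^ 17 * ℓ), u a * kk ψ N Q k (a * b) =
      ∑ b ∈ s, β b * ∑ a ∈ Ico A (A + Q ^ 17 * ℓ), flt u A ℓ Q a * k1 ψ N k (a * b) -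
      ∑ b ∈ s, β b * ∑ a ∈ Ico A (A + Q ^ 17 * ℓ), flt u A ℓ Q a * k2 ψ Q k (a * b) +
      ∑ b ∈ s, β b * ∑ a ∈ Ico A (A + Q ^ 17 * ℓ), shp u A ℓ Q a * kk ψ N Q k (a * b) := fun k => by
    simp only [← sum_sub_distrib, ← sum_add_distrib, ← mul_sub, ← mul_add]
    refine sum_congr rfl fun b _ => congrArg _ (sum_congr rfl fun a _ => ?_)
    simp only [flt, kk]; ring
  simp_rw [e]
  refine (sum_le_sum fun k _ => (norm_add_le _ _).trans (add_le_add ((norm_sub_le _ _).trans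
    (add_le_add le_rfl (fl k))) le_rfl)).trans ?_
  rw [sum_add_distrib, sum_add_distrib, sum_const, Int.card_Icc, nsmul_eq_mul]
  have : 0 ≤ β₀ * u₀ * K * N * (L / √Q) := by positivity
  simp only [add_sub_cancel_right, Int.toNat_natCast, mul_div_assoc]
  linarith

theorem Kr.long (h : Kr ψ N K Q M₀ Λ L) {z N₁ Am : ℕ} (S : Sz Am N K Q L)
    (hz : 2 * Q ^ 96 ≤ z) (hN₁ : N₁ * Q ^ 21 ≤ N) (s : Finset ℕ)
    (hs : ∀ b ∈ s, Squarefree b ∧ b ≤ N₁ ∧ Rough z b) {u β : ℕ → ℂ} {u₀ β₀ : ℝ}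
    (hu : ∀ a, ‖u a‖ ≤ u₀) (hβ : ∀ b, ‖β b‖ ≤ β₀) :
    ∑ k ∈ Icc (1 : ℤ) K, ‖∑ b ∈ s, β b * ∑ a ∈ Icc 1 Am, u a * kk ψ N Q k (a * b)‖
      ≤ 30000 * β₀ * u₀ * K * N * L ^ 2 / √Q := by
  have ⟨A0, N0, K0, q0, L0, L10, NL, two, lq, lL0, lL, lK, l1, l2, l3⟩ := S
  have u0 : 0 ≤ u₀ := (norm_nonneg _).trans (hu 0)
  have β0 : 0 ≤ β₀ := (norm_nonneg _).trans (hβ 0)
  have A1 : Am ≠ 0 := by exact_mod_cast A0.ne'
  have lg2 : Real.log ((2 ^ Nat.log 2 Am : ℕ) : ℝ) ≤ Real.log Am :=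
    Real.log_le_log (by positivity) (by exact_mod_cast Nat.pow_log_le_self 2 A1)
  have e : ∀ b k, ∑ a ∈ Icc 1 Am, u a * kk ψ N Q k (a * b) = ∑ j ∈ range (Nat.log 2 Am + 1),
      ∑ a ∈ Ico (2 ^ j) (2 ^ j + Q ^ 17 * (2 ^ j / Q ^ 17 + 1)),
        (if a ∈ Icc 1 Am ∧ Nat.log 2 a = j then u a else 0) * kk ψ N Q k (a * b) := fun b k => by
    rw [← sum_fiberwise_of_maps_to (g := Nat.log 2) (t := range (Nat.log 2 Am + 1)) fun a ha =>
      mem_range.2 (Nat.lt_succ_of_le (Nat.log_mono_right (mem_Icc.1 ha).2))]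
    refine sum_congr rfl fun j _ => sum_congr_of_eq_on_inter (fun a ha ha' => absurd ?_ ha')
      (fun a _ ha => by rw [if_neg (by rwa [mem_filter] at ha), zero_mul])
      fun a ha _ => by rw [if_pos (mem_filter.1 ha)]
    obtain ⟨a1, rfl⟩ := mem_filter.1 ha
    have := Nat.lt_pow_succ_log_self one_lt_two a
    have := Nat.lt_div_mul_add (a := 2 ^ Nat.log 2 a) (pow_pos h.Q0 17)
    exact mem_Ico.2 ⟨Nat.pow_log_le_self 2 (by have := mem_Icc.1 a1; omega), by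
      rw [mul_add, mul_comm (Q ^ 17)]; omega⟩
  simp_rw [e, mul_sum (s := range _)]
  simp_rw [sum_comm (s := s)]
  refine (sum_le_sum fun k _ => norm_sum_le _ _).trans ?_
  rw [sum_comm]
  refine (sum_le_card_nsmul _ _ (7000 * β₀ * u₀ * K * N * L / √Q) fun j hj => ?_).trans ?_
  · by_cases hj2 : (N : ℝ) * Q ^ 5 ≤ (2 ^ j : ℕ)
    · have l4 : Real.log ((2 ^ j : ℕ) : ℝ) ≤ Real.log Am := le_trans (Real.log_le_log
        (by positivity) (by exact_mod_cast Nat.pow_le_pow_right two_pos (Nat.lt_succ_iff.1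
          (mem_range.1 hj)))) lg2
      have l5 := Real.log_le_log (by positivity) hj2
      rw [Real.log_mul N0.ne' (by positivity), Real.log_pow] at l5
      exact h.block ⟨by positivity, N0, K0, q0, L0, L10, NL, two, lq, lL0, lL, lK, l5, by linarith,
        by linarith⟩ hz hN₁ s hs (fun a => by split_ifs; exacts [hu a, by simpa using u0]) hβ
    · refine (le_of_eq (sum_eq_zero fun k _ => norm_eq_zero.2 (sum_eq_zero fun b hb =>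
        mul_eq_zero_of_right _ (sum_eq_zero fun a _ => ?_)))).trans (by positivity)
      split_ifs with ha
      swap
      · simp
      refine mul_eq_zero_of_right _ (kk_zero k (by_contra fun hne => ?_))
      have a1 : (a : ℝ) ≤ 2 * (2 ^ j : ℕ) := by
        rw [← ha.2]; exact_mod_cast (pow_succ' 2 _ ▸ Nat.lt_pow_succ_log_self one_lt_two a).le
      have a2 : (b : ℝ) ≤ N / Q ^ 21 := by
        rw [le_div_iff₀ (by positivity)]
        exact_mod_cast (Nat.mul_le_mul_right _ (hs b hb).2.1).trans hN₁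
      have a3 := h.hM.trans (mul_le_mul_of_nonneg_left (h.wt.supp _ hne).1 q0.le)
      have a4 : (Q : ℝ) * (2 * (N * Q ^ 5) * (N / Q ^ 21)) ≤ N ^ 2 / 2 := by
        refine lg (by positivity) (by positivity) ?_
        simp (disch := positivity) only [Real.log_mul, Real.log_div, Real.log_pow]
        push_cast; linarith
      have a5 : (Q : ℝ) * (a * b : ℕ) ≤ Q * (2 * (N * Q ^ 5) * (N / Q ^ 21)) := by
        push_cast; gcongr; linarith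
      nlinarith
  · rw [card_range, nsmul_eq_mul]
    have : ((Nat.log 2 Am + 1 : ℕ) : ℝ) ≤ 4 * L := by
      rw [Nat.cast_pow, Real.log_pow] at lg2
      push_cast at lg2 ⊢
      nlinarith [Real.log_two_gt_d9, Nat.cast_nonneg (α := ℝ) (Nat.log 2 Am)]
    calc _ ≤ 4 * L * (7000 * β₀ * u₀ * K * N * L / √Q) := by gcongr
      _ = 28000 * β₀ * u₀ * K * N * L ^ 2 / √Q := by ring
      _ ≤ _ := by gcongr; norm_num

end Pool.Agent.Work.MP_51e72e_nt.QA
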