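import Pool.Agent.Work.MP_51e72e_nt.QAFlat
import Pool.Agent.Lib.ANT.Moebius

noncomputable section
open Finset Real
open Pool.Agent.Lib.LargeSieve

namespace Pool.Agent.Work.MP_51e72e_nt.QA

lemma norm_jj_le (k : ℤ) (f : ℕ) : ‖(jj k f : ℂ)‖ ≤ 1 := by
  rw [Complex.norm_intCast]; exact_mod_cast abs_jj_le k f

lemma jj_mul_left (e j : ℤ) (h : ℕ) : jj (e * j) h = jacobiSym e h * jj j h := by
  unfold jj; split_ifs
  · rw [← jacobiSym.mul_left, mul_neg]
  · simp

lemma norm_gs_sq_le {q c : ℕ} (hq : 0 < q) (hc : c ∈ RR q) : ‖gs (q, c)‖ ^ 2 ≤ 2 / q := by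
  have h := quad_gauss hq c 0
  have hq' : (0 : ℝ) < q := by exact_mod_cast hq
  have g : ((Int.gcd (2 * c) q : ℕ) : ℝ) ≤ 2 := by
    have : Int.gcd (2 * c) q = Nat.gcd 2 q := by
      rw [show (2 * c : ℤ) = ((2 * c : ℕ) : ℤ) by push_cast; ring, Int.gcd_natCast_natCast]
      exact Nat.Coprime.gcd_mul_right_cancel 2 (mem_filter.1 hc).2
    rw [this]; exact_mod_cast Nat.gcd_le_left _ two_pos
  rw [gs, norm_div, Complex.norm_natCast, div_pow, div_le_div_iff₀ (by positivity) hq']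
  have e : ∑ n ∈ range q, ee ((n : ℝ) ^ 2 * th (q, c)) =
      ∑ x ∈ range q, ee (((c * x ^ 2 + 0 * x : ℤ) : ℝ) / q) :=
    sum_congr rfl fun n _ => by congr 1; simp only [th]; push_cast; ring
  simp only at e ⊢
  rw [e]
  nlinarith [mul_le_mul_of_nonneg_left g hq'.le]

lemma jj_pv {h : ℕ} (hs : Squarefree h) (h1 : 1 < h) (Y : ℕ) :
    ‖∑ j ∈ Icc 1 Y, (jj j h : ℂ)‖ ≤ √(2 * h) * HH h := by
  have h0 : 0 < h := by omega
  have h0' : (0 : ℝ) < h := by exact_mod_cast h0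
  simp_rw [← gq_squarefree _ hs, gq]
  rw [sum_comm]
  have sub : RR h ⊆ (range h).erase 0 := fun c hc => mem_erase.2 ⟨by
    rintro rfl; have := (mem_filter.1 hc).2; simp at this; omega, (mem_filter.1 hc).1⟩
  calc _ ≤ ∑ c ∈ RR h, √(2 / h) * (1 / (2 * dZ ((c : ℝ) / h))) := by
        refine (norm_sum_le _ _).trans (sum_le_sum fun c hc => ?_)
        rw [← mul_sum, norm_mul, sum_Icc_one]
        refine mul_le_mul (Real.le_sqrt_of_sq_le (norm_gs_sq_le h0 hc)) (le_of_eq_of_le ?_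
          (norm_sum_ee_shift_le Y 1 _ (dZ_pos_of_mem (sub hc)))) (norm_nonneg _) (by positivity)
        simp [th]
    _ ≤ √(2 / h) * (h * HH h) := by
        rw [← mul_sum]
        refine mul_le_mul_of_nonneg_left ((sum_le_sum_of_subset_of_nonneg sub fun c _ _ => ?_).trans
          (sum_inv_dZ_range h0)) (by positivity)
        have := dZ_nonneg ((c : ℝ) / h); positivity
    _ = _ := by
        rw [← mul_assoc, ← Real.sqrt_sq h0'.le, ← Real.sqrt_mul (by positivity), Real.sqrt_sq h0'.le]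
        congr 2; field_simp

lemma cop_moebius (m g : ℕ) (hg : g ≠ 0) : (if Nat.gcd m g = 1 then (1 : ℤ) else 0) =
    ∑ e ∈ g.divisors, if e ∣ m then ArithmeticFunction.moebius e else 0 := by
  have := congrArg (fun f : ArithmeticFunction ℤ => f (Nat.gcd m g))
    ArithmeticFunction.moebius_mul_coe_zeta
  simp only [ArithmeticFunction.coe_mul_zeta_apply, ArithmeticFunction.one_apply] at this
  rw [← this, ← sum_filter]
  refine sum_congr ?_ fun _ _ => rfl
  ext e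
  simp only [Nat.mem_divisors, mem_filter, Nat.dvd_gcd_iff, ne_eq, Nat.gcd_eq_zero_iff]
  tauto

lemma jj_offdiag {f₁ f₂ : ℕ} (h1 : Squarefree f₁) (h2 : Squarefree f₂) (hne : f₁ ≠ f₂) (Y : ℕ) :
    ‖∑ m ∈ Icc 1 Y, (jj m f₁ : ℂ) * jj m f₂‖ ≤ √(2 * (f₁ * f₂)) * HH (f₁ * f₂) := by
  obtain ⟨g, a, b, hab, rfl, rfl⟩ : ∃ g a b, Nat.Coprime a b ∧ f₁ = a * g ∧ f₂ = b * g := by
    obtain ⟨a, b, h⟩ := Nat.exists_coprime f₁ f₂
    exact ⟨_, a, b, h⟩
  have g0 : g ≠ 0 := by rintro rfl; simp at h1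
  have a0 : a ≠ 0 := by rintro rfl; simp at h1
  have b0 : b ≠ 0 := by rintro rfl; simp at h2
  have hs : Squarefree (a * b) :=
    (Nat.squarefree_mul hab).2 ⟨h1.of_mul_left, h2.of_mul_left⟩
  have h3 : 1 < a * b := by
    by_contra h
    have : a * b = 1 := by have := Nat.mul_ne_zero a0 b0; omega
    rw [Nat.eq_one_of_mul_eq_one_right this, Nat.eq_one_of_mul_eq_one_left this] at hne
    exact hne rfl
  have hH := HH_nonneg (a * g * (b * g))
  by_cases ho : Odd g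
  swap
  · rw [sum_eq_zero fun m _ => by
      rw [jj_mul _ a0 g0, show jj m g = 0 from if_neg ho]; simp, norm_zero]; positivity
  have e : ∀ m ∈ Icc 1 Y, (jj m (a * g) : ℂ) * jj m (b * g) = ∑ e ∈ g.divisors,
      (ArithmeticFunction.moebius e : ℂ) * if e ∣ m then (jj m (a * b) : ℂ) else 0 := fun m _ => by
    have e1 : jj m g * jj m g = if Nat.gcd m g = 1 then 1 else 0 := by
      have : NeZero g := ⟨g0⟩
      rw [jj, if_pos ho]
      split_ifs with h
      · rw [← sq, jacobiSym.sq_one (by simpa using h)]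
      · rw [jacobiSym.eq_zero_iff_not_coprime.2 (by simpa using h), mul_zero]
    have e2 : jj m (a * g) * jj m (b * g) = ∑ e ∈ g.divisors,
        ArithmeticFunction.moebius e * if e ∣ m then jj m (a * b) else 0 := by
      rw [jj_mul _ a0 g0, jj_mul _ b0 g0, mul_mul_mul_comm, e1, cop_moebius m g g0, mul_sum,
        jj_mul _ a0 b0]
      exact sum_congr rfl fun e _ => by split_ifs <;> ring
    exact_mod_cast e2
  rw [sum_congr rfl e, sum_comm]
  refine (norm_sum_le _ _).trans ((sum_le_card_nsmul _ _ (√(2 * (a * b : ℕ)) * HH (a * b))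
    fun e he => ?_).trans ?_)
  · rw [← mul_sum, Pool.Agent.Lib.ANT.sum_Icc_ite_dvd (Nat.pos_of_mem_divisors he)]
    simp only [Nat.cast_mul e, jj_mul_left, Int.cast_mul, ← mul_sum, norm_mul]
    refine (mul_le_of_le_one_left (by positivity) ?_).trans
      ((mul_le_of_le_one_left (by positivity) ?_).trans (jj_pv hs h3 _))
    · rw [Complex.norm_intCast]; exact_mod_cast ArithmeticFunction.abs_moebius_le_one
    · rcases jacobiSym.trichotomy e (a * b) with h | h | h <;> simp [h]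
  · rw [nsmul_eq_mul, ← mul_assoc]
    refine mul_le_mul ?_ (HH_mono (Nat.mul_le_mul (Nat.le_mul_of_pos_right _ (by omega))
      (Nat.le_mul_of_pos_right _ (by omega)))) (HH_nonneg _) (by positivity)
    calc _ ≤ g * √(2 * (a * b : ℕ)) := by gcongr; exact Nat.card_divisors_le_self g
      _ = _ := by
        rw [← Real.sqrt_sq (g.cast_nonneg (α := ℝ)), ← Real.sqrt_mul (by positivity)]
        congr 1; push_cast; ring

lemma jj_mean_sq (S : Finset ℕ) (hS : ∀ f ∈ S, Squarefree f) (Γ : ℕ → ℂ) (Y : ℕ) {P : ℝ}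
    (hP : ∀ f ∈ S, ∀ g ∈ S, √(2 * (f * g)) * HH (f * g) ≤ P) :
    ∑ m ∈ Icc 1 Y, ‖∑ f ∈ S, Γ f * jj m f‖ ^ 2
      ≤ Y * ∑ f ∈ S, ‖Γ f‖ ^ 2 + (∑ f ∈ S, ‖Γ f‖) ^ 2 * P := by
  have e : ((∑ m ∈ Icc 1 Y, ‖∑ f ∈ S, Γ f * jj m f‖ ^ 2 : ℝ) : ℂ) = ∑ f ∈ S, ∑ g ∈ S,
      Γ f * (starRingEnd ℂ) (Γ g) * ∑ m ∈ Icc 1 Y, (jj m f : ℂ) * jj m g := by
    rw [Complex.ofReal_sum]
    simp_rw [normSq_sum_eq, mul_sum]
    rw [sum_comm]
    refine sum_congr rfl fun f _ => sum_comm.trans (sum_congr rfl fun g _ => sum_congr rfl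
      fun m _ => ?_)
    rw [map_mul, map_intCast]; ring
  rw [← Real.norm_of_nonneg (sum_nonneg fun _ _ => sq_nonneg _), ← Complex.norm_real, e, sq (∑ f ∈ S, _),
    sum_mul_sum, mul_sum, sum_mul, ← sum_add_distrib]
  refine (norm_sum_le _ _).trans (sum_le_sum fun f hf => (norm_sum_le _ _).trans ?_)
  have P0 : 0 ≤ P := le_trans (by have := HH_nonneg (f * f); positivity) (hP f hf f hf)
  calc _ ≤ ∑ g ∈ S, ((if f = g then Y * ‖Γ f‖ ^ 2 else 0) + ‖Γ f‖ * ‖Γ g‖ * P) := by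
        refine sum_le_sum fun g hg => ?_
        rw [norm_mul, norm_mul, Complex.norm_conj]
        split_ifs with h
        · subst h
          refine le_trans ?_ (le_add_of_nonneg_right (by positivity))
          rw [← sq, mul_comm]
          refine mul_le_mul_of_nonneg_right ((norm_sum_le _ _).trans ((sum_le_card_nsmul _ _ 1
            fun m _ => ?_).trans (by simp))) (by positivity)
          rw [norm_mul]; exact mul_le_one₀ (norm_jj_le _ _) (norm_nonneg _) (norm_jj_le _ _)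
        · rw [zero_add]
          exact mul_le_mul_of_nonneg_left ((jj_offdiag (hS f hf) (hS g hg) h Y).trans
            (hP f hf g hg)) (by positivity)
    _ = _ := by rw [sum_add_distrib, sum_ite_eq, if_pos hf, sum_mul]

lemma card_primeFactors_le_log {m : ℕ} (hm : m ≠ 0) :
    (m.primeFactors.card : ℝ) ≤ 2 * Real.log m := by
  have h1 : 2 ^ m.primeFactors.card ≤ m :=
    (pow_card_le_prod _ _ _ fun p hp => (Nat.prime_of_mem_primeFactors hp).two_le).trans
      (Nat.le_of_dvd (Nat.pos_of_ne_zero hm) (Nat.prod_primeFactors_dvd m))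
  have h2 := Real.log_le_log (by positivity) (show (2 : ℝ) ^ m.primeFactors.card ≤ m by
    exact_mod_cast h1)
  rw [Real.log_pow] at h2
  nlinarith [Real.log_two_gt_d9, Nat.cast_nonneg (α := ℝ) m.primeFactors.card]

lemma card_primes_ge {R : ℕ} (hR : 4 ≤ R) :
    R / (4 * Real.log R) ≤ ((Icc 1 R).filter Nat.Prime).card := by
  have h := Chebyshev.pi_ge R
  have hR' : (4 : ℝ) ≤ R := by exact_mod_cast hR
  have e : ((Icc 1 R).filter Nat.Prime).card = R.primeCounting := by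
    rw [Nat.primeCounting, Nat.primeCounting', Nat.count_eq_card_filter_range]
    congr 1; ext p
    simp only [mem_filter, mem_Icc, mem_range]
    exact and_congr_left fun hp => by have := hp.pos; omega
  rw [e, mul_comm, ← div_div, div_right_comm]
  refine le_trans (div_le_div_of_nonneg_right ?_ (Real.log_nonneg (by linarith))) h
  have h1 := Real.log_le_sub_one_of_pos (x := (R + 1) / 4) (by positivity)
  rw [Real.log_div (by positivity) (by norm_num), show (4 : ℝ) = 2 ^ 2 by norm_num, Real.log_pow]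
    at h1
  push_cast at h1
  nlinarith [Real.log_two_gt_d9, Real.log_two_lt_d9]

lemma lemX_block {S : Finset ℕ} {F K T : ℕ} {M Lg : ℝ} (hS : ∀ f ∈ S, Squarefree f ∧ F ≤ f ∧ f < 2 * F)
    {Γ : ℕ → ℂ} (hM : 0 ≤ M) (hΓ : ∀ f ∈ S, ‖Γ f‖ ≤ M / f) (hT : 4 ≤ T) (hF : T ^ 2 ≤ F)
    (hK : T ^ 2 ≤ K) (hL : 1 ≤ Lg) (hFL : Real.log F ≤ Lg) (hKL : Real.log K ≤ Lg) :
    ∑ k ∈ Icc (1 : ℤ) K, ‖∑ f ∈ S, Γ f * jj k f‖ ≤ 60 * K * M * Lg ^ 2 / √T := by
  set R := F / T with hR
  have T0 : (4 : ℝ) ≤ T := by exact_mod_cast hT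
  have F0 : 0 < F := lt_of_lt_of_le (by positivity) hF
  have F1 : (0 : ℝ) < F := by exact_mod_cast F0
  have K1 : (T : ℝ) ^ 2 ≤ K := by exact_mod_cast hK
  have K0 : (0 : ℝ) < K := lt_of_lt_of_le (by positivity) K1
  have R1 : T ≤ R := (Nat.le_div_iff_mul_le (by omega)).2 (by rw [← sq]; exact hF)
  have R2 : (T : ℝ) ≤ R := by exact_mod_cast R1
  have R3 : (R : ℝ) * T ≤ F := by exact_mod_cast Nat.div_mul_le_self F T
  have R4 : (F : ℝ) ≤ 2 * R * T := by
    have := Nat.lt_div_mul_add (a := F) (b := T) (by omega)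
    have h2 : (F : ℝ) ≤ R * T + T := by exact_mod_cast this.le
    nlinarith
  have R5 : R ≤ F := Nat.div_le_self _ _
  have R0 : (0 : ℝ) < R := by linarith
  have RL : Real.log R ≤ Lg := (Real.log_le_log R0 (by exact_mod_cast R5)).trans hFL
  set P := (Icc 1 R).filter Nat.Prime with hP
  have P1 : R / (4 * Lg) ≤ P.card := le_trans (by
    gcongr; exact mul_pos four_pos (Real.log_pos (by linarith))) (card_primes_ge (hT.trans R1))
  have P0 : (0 : ℝ) < P.card := lt_of_lt_of_le (by positivity) P1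
  set X : ℤ → ℂ := fun k => ∑ f ∈ S, Γ f * jj k f with hX
  have G1 : ∀ f ∈ S, ‖Γ f‖ ≤ M / F := fun f hf => (hΓ f hf).trans (by gcongr; exact (hS f hf).2.1)
  have S1 : (S.card : ℝ) ≤ F := by
    have := card_le_card (t := Ico F (2 * F)) fun f hf => mem_Ico.2 (hS f hf).2
    rw [Nat.card_Ico] at this
    exact_mod_cast this.trans (by omega)
  have e1 : ∀ k : ℕ, ∀ p ∈ P, ‖X k‖ ≤ ‖X ((k * p ^ 2 : ℕ) : ℤ)‖ + 4 * M * (1 / p) := fun k p hp => by
    obtain ⟨p1, p2⟩ := mem_filter.1 hp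
    have p0 : (0 : ℝ) < p := by exact_mod_cast p2.pos
    refine (norm_le_insert' _ (X ((k * p ^ 2 : ℕ) : ℤ))).trans (add_le_add le_rfl ?_)
    simp only [hX, ← sum_sub_distrib, ← mul_sub]
    calc _ ≤ ∑ f ∈ S, if p ∣ f then M / F * 2 else 0 := by
          refine (norm_sum_le _ _).trans (sum_le_sum fun f hf => ?_)
          split_ifs with h
          · rw [norm_mul]
            exact mul_le_mul (G1 f hf) ((norm_sub_le _ _).trans (by
              linarith [norm_jj_le k f, norm_jj_le ((k * p ^ 2 : ℕ) : ℤ) f])) (norm_nonneg _)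
              (by positivity)
          · rw [Nat.cast_mul, mul_comm (k : ℤ), jj_mul_left, Nat.cast_pow, jacobiSym.sq_one' (by
              rw [Int.gcd_natCast_natCast]; exact (Nat.Prime.coprime_iff_not_dvd p2).2 h)]
            simp
      _ ≤ (2 * F / p) * (M / F * 2) := by
          rw [← sum_filter, sum_const, nsmul_eq_mul]
          refine mul_le_mul_of_nonneg_right ?_ (by positivity)
          have := card_le_card (s := S.filter (p ∣ ·))
            (t := (Ioc 0 (2 * F)).filter (p ∣ ·)) fun f hf => mem_filter.2 ⟨mem_Ioc.2 (by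
              have := (hS f (mem_filter.1 hf).1).2; omega), (mem_filter.1 hf).2⟩
          rw [Nat.Ioc_filter_dvd_card_eq_div] at this
          calc _ ≤ ((2 * F / p : ℕ) : ℝ) := by exact_mod_cast this
            _ ≤ _ := Nat.cast_div_le.trans (by push_cast; rfl)
      _ = _ := by field_simp; ring
  have e2 : ∑ x ∈ Icc 1 K ×ˢ P, ‖X ((x.1 * x.2 ^ 2 : ℕ) : ℤ)‖ ^ 2
      ≤ 6 * Lg * ∑ m ∈ Icc 1 (K * R ^ 2), ‖X (m : ℕ)‖ ^ 2 := by
    rw [← sum_fiberwise_of_maps_to (g := fun x : ℕ × ℕ => x.1 * x.2 ^ 2) (t := Icc 1 (K * R ^ 2))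
      fun x hx => by
        simp only [hP, mem_product, mem_filter, mem_Icc] at hx ⊢
        exact ⟨Nat.mul_pos hx.1.1 (pow_pos hx.2.1.1 2), by gcongr; exacts [hx.1.2, hx.2.1.2]⟩,
      mul_sum]
    refine sum_le_sum fun m hm => ?_
    obtain ⟨m1, m2⟩ := mem_Icc.1 hm
    rw [sum_congr rfl fun x hx => by rw [(mem_filter.1 hx).2], sum_const, nsmul_eq_mul]
    refine mul_le_mul_of_nonneg_right (le_trans ?_ ((card_primeFactors_le_log (by omega)).trans
      (?_ : 2 * Real.log m ≤ _))) (by positivity)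
    · refine Nat.cast_le.2 (card_le_card_of_injOn (fun x => x.2) (fun x hx => ?_) fun x hx y hy h => ?_)
      · simp only [hP, coe_filter, mem_product, mem_filter, Set.mem_ofPred_eq] at hx
        exact Nat.mem_primeFactors.2 ⟨hx.1.2.2, ⟨x.1 * x.2, by rw [← hx.2]; ring⟩, by omega⟩
      · simp only [hP, coe_filter, mem_product, mem_filter, Set.mem_ofPred_eq] at hx hy h
        refine Prod.ext (Nat.eq_of_mul_eq_mul_right (pow_pos hx.1.2.2.pos 2) ?_) h
        rw [hx.2, h, hy.2]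
    · have := Real.log_le_log (by exact_mod_cast m1) (show (m : ℝ) ≤ K * R ^ 2 by exact_mod_cast m2)
      rw [Real.log_mul K0.ne' (by positivity), Real.log_pow] at this
      push_cast at this; linarith
  have e3 := jj_mean_sq S (fun f hf => (hS f hf).1) Γ (K * R ^ 2) (P := 3 * F * (5 * Lg))
    fun f hf g hg => by
      have f1 : (f : ℝ) ≤ 2 * F := by exact_mod_cast (hS f hf).2.2.le
      have g1 : (g : ℝ) ≤ 2 * F := by exact_mod_cast (hS g hg).2.2.le
      have f0 : 0 < f := F0.trans_le (hS f hf).2.1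
      have g0 : 0 < g := F0.trans_le (hS g hg).2.1
      have fg : (f : ℝ) * g ≤ 2 ^ 2 * F ^ 2 := (mul_le_mul f1 g1 (by positivity)
        (by positivity)).trans (le_of_eq (by ring))
      refine mul_le_mul (Real.sqrt_le_iff.2 ⟨by positivity, by nlinarith⟩) ((HH_le _).trans ?_)
        (HH_nonneg _) (by positivity)
      have := Real.log_le_log (by positivity) fg
      rw [Real.log_mul (by positivity) (by positivity : (F : ℝ) ^ 2 ≠ 0), Real.log_pow,
        Real.log_pow] at this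
      push_cast at this ⊢
      linarith [Real.log_two_lt_d9]
  have e4 : ∑ m ∈ Icc 1 (K * R ^ 2), ‖X (m : ℕ)‖ ^ 2 ≤ 31 * Lg * (K * R / T) * M ^ 2 := by
    refine e3.trans ?_
    have a1 : ∑ f ∈ S, ‖Γ f‖ ^ 2 ≤ F * (M / F) ^ 2 := (sum_le_card_nsmul _ _ _ fun f hf =>
      pow_le_pow_left₀ (norm_nonneg _) (G1 f hf) 2).trans (by rw [nsmul_eq_mul]; gcongr)
    have a2 : ∑ f ∈ S, ‖Γ f‖ ≤ F * (M / F) := (sum_le_card_nsmul _ _ _ G1).trans
      (by rw [nsmul_eq_mul]; gcongr)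
    calc _ ≤ (K * R ^ 2 : ℕ) * (F * (M / F) ^ 2) + (F * (M / F)) ^ 2 * (3 * F * (5 * Lg)) := by
          gcongr
      _ = (1 * (K * R * R / F) + 15 * Lg * F) * M ^ 2 := by push_cast; field_simp; ring
      _ ≤ (Lg * (K * R * R / (R * T)) + 15 * Lg * (2 * (K * R / T))) * M ^ 2 := by
          gcongr
          refine R4.trans ?_
          rw [mul_assoc, mul_le_mul_iff_right₀ two_pos, le_div_iff₀ (by linarith)]
          nlinarith
      _ = _ := by field_simp; ring
  have e5 : ∑ x ∈ Icc 1 K ×ˢ P, ‖X ((x.1 * x.2 ^ 2 : ℕ) : ℤ)‖ ≤ P.card * (28 * K * M * Lg ^ 2 / √T) := by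
    refine le_of_pow_le_pow_left₀ two_ne_zero (by positivity) (sq_sum_le_card_mul_sum_sq.trans ?_)
    rw [card_product, Nat.card_Icc, Nat.add_sub_cancel, mul_pow, div_pow, Real.sq_sqrt (by linarith)]
    have : (R : ℝ) ≤ P.card * (4 * Lg) := by rwa [div_le_iff₀ (by positivity)] at P1
    calc _ ≤ (K * P.card : ℕ) * (6 * Lg * (31 * Lg * (K * (P.card * (4 * Lg)) / T) * M ^ 2)) := by
          refine mul_le_mul_of_nonneg_left (e2.trans ?_) (by positivity)
          refine mul_le_mul_of_nonneg_left (e4.trans ?_) (by positivity)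
          gcongr
      _ = P.card ^ 2 * (744 * 1 * K ^ 2 * M ^ 2 * Lg ^ 3 / T) := by push_cast; ring
      _ ≤ P.card ^ 2 * (784 * Lg * K ^ 2 * M ^ 2 * Lg ^ 3 / T) := by gcongr; norm_num
      _ = _ := by ring
  have e6 : ∑ p ∈ P, (1 / p : ℝ) ≤ 2 * Lg := by
    refine (sum_le_sum_of_subset_of_nonneg (filter_subset _ _) fun _ _ _ => by positivity).trans
      ((HH_le R).trans (by linarith))
  have s0 : 0 < √(T : ℝ) := Real.sqrt_pos.2 (by linarith)
  refine le_of_mul_le_mul_left ?_ P0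
  rw [sum_Icc_int _ (K := K) (by ring)]
  calc _ = ∑ x ∈ Icc 1 K ×ˢ P, ‖X x.1‖ := by
        rw [sum_product, sum_Icc_one]; simp [mul_sum, hX]
    _ ≤ ∑ x ∈ Icc 1 K ×ˢ P, (‖X ((x.1 * x.2 ^ 2 : ℕ) : ℤ)‖ + 4 * M * (1 / x.2)) :=
        sum_le_sum fun x hx => e1 _ _ (mem_product.1 hx).2
    _ ≤ P.card * (28 * K * M * Lg ^ 2 / √T) + K * (4 * M * (2 * Lg)) := by
        rw [sum_add_distrib, sum_product (f := fun x : ℕ × ℕ => 4 * M * (1 / (x.2 : ℝ)))]
        refine add_le_add e5 ?_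
        simp only [← mul_sum, sum_const, Nat.card_Icc, Nat.add_sub_cancel, nsmul_eq_mul]
        rw [mul_left_comm]
        gcongr
    _ ≤ P.card * (28 * K * M * Lg ^ 2 / √T) + R / (4 * Lg) * (32 * K * M * Lg ^ 2 / √T) := by
        refine add_le_add le_rfl ?_
        have : √(T : ℝ) ≤ R := (Real.sqrt_le_iff.2 ⟨by linarith, by nlinarith⟩)
        calc _ = √(T : ℝ) / (4 * Lg) * (32 * K * M * Lg ^ 2 / √T) := by field_simp; ring
          _ ≤ _ := by gcongr
    _ ≤ P.card * (28 * K * M * Lg ^ 2 / √T) + P.card * (32 * K * M * Lg ^ 2 / √T) := by gcongr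
    _ = _ := by ring

theorem lemX {S : Finset ℕ} {K T : ℕ} {M Lg : ℝ}
    (hS : ∀ f ∈ S, Squarefree f ∧ 2 * T ^ 2 ≤ f ∧ Real.log f ≤ Lg)
    {Γ : ℕ → ℂ} (hM : 0 ≤ M) (hΓ : ∀ f ∈ S, ‖Γ f‖ ≤ M / f) (hT : 4 ≤ T)
    (hK : T ^ 2 ≤ K) (hL : 1 ≤ Lg) (hKL : Real.log K ≤ Lg) :
    ∑ k ∈ Icc (1 : ℤ) K, ‖∑ f ∈ S, Γ f * jj k f‖ ≤ 180 * K * M * Lg ^ 3 / √T := by
  have f0 : ∀ f ∈ S, f ≠ 0 := fun f hf => (hS f hf).1.ne_zero
  have lg2 : ∀ f ∈ S, Real.log ((2 ^ Nat.log 2 f : ℕ) : ℝ) ≤ Lg := fun f hf =>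
    (Real.log_le_log (by positivity) (by exact_mod_cast Nat.pow_log_le_self 2 (f0 f hf))).trans
      (hS f hf).2.2
  set J := S.image (Nat.log 2) with hJ
  have hc : (J.card : ℝ) ≤ 3 * Lg := by
    have := card_le_card (s := J) (t := range (⌊2 * Lg⌋₊ + 1)) fun j hj => by
      obtain ⟨f, hf, rfl⟩ := mem_image.1 hj
      have h := lg2 f hf
      rw [Nat.cast_pow, Real.log_pow] at h
      refine mem_range.2 (Nat.lt_succ_of_le (Nat.le_floor ?_))
      push_cast at h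
      nlinarith [Real.log_two_gt_d9, Nat.cast_nonneg (α := ℝ) (Nat.log 2 f)]
    rw [card_range] at this
    have h2 : (J.card : ℝ) ≤ ⌊2 * Lg⌋₊ + 1 := by exact_mod_cast this
    linarith [Nat.floor_le (show 0 ≤ 2 * Lg by linarith)]
  simp_rw [← sum_fiberwise_of_maps_to (s := S) (t := J) (g := Nat.log 2)
    fun f hf => mem_image_of_mem _ hf]
  refine (sum_le_sum fun k _ => norm_sum_le _ _).trans ?_
  rw [sum_comm]
  refine (sum_le_card_nsmul _ _ (60 * K * M * Lg ^ 2 / √T) fun j hj => ?_).trans ?_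
  · obtain ⟨f, hf, rfl⟩ := mem_image.1 hj
    refine lemX_block (F := 2 ^ Nat.log 2 f) (fun g hg => ?_) hM
      (fun g hg => hΓ g (mem_filter.1 hg).1) hT ?_ hK hL (lg2 f hf) hKL
    · obtain ⟨g1, g2⟩ := mem_filter.1 hg
      rw [← g2, ← pow_succ']
      exact ⟨(hS g g1).1, Nat.pow_log_le_self 2 (f0 g g1), Nat.lt_pow_succ_log_self one_lt_two g⟩
    · have := Nat.lt_pow_succ_log_self one_lt_two f
      have := (hS f hf).2.1
      rw [pow_succ'] at *; omega
  · rw [nsmul_eq_mul]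
    calc _ ≤ 3 * Lg * (60 * K * M * Lg ^ 2 / √T) := by gcongr
      _ = _ := by ring

end Pool.Agent.Work.MP_51e72e_nt.QA
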