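import Pool.Agent.Work.MP_51e72e_nt.QABV
import Pool.Agent.Work.MP_51e72e_nt.QAJac

noncomputable section
open Finset Real
open Pool.Agent.Lib.LargeSieve

namespace Pool.Agent.Work.MP_51e72e_nt.QA

/-- major arc model for the squares -/
def sqm (Q : ℕ) (k : ℤ) (m : ℕ) : ℂ := ∑ x ∈ Far Q, gs x * ee (th x * (k - m))

/-- model kernel -/
def k2 (ψ : ℝ → ℝ) (Q : ℕ) (k : ℤ) (m : ℕ) : ℂ := ψ m * (ww m * sqm Q k m)

/-- difference kernel -/
def kk (ψ : ℝ → ℝ) (N Q : ℕ) (k : ℤ) (m : ℕ) : ℂ := k1 ψ N k m - k2 ψ Q k m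

/-- standing hypotheses -/
structure Kr (ψ : ℝ → ℝ) (N K Q : ℕ) (M₀ Λ L : ℝ) : Prop where
  wt : Wt ψ M₀ ((N : ℝ) ^ 2) Λ
  bv : BV 1 fun m => ψ m
  hM : (N : ℝ) ^ 2 ≤ Q * M₀
  hΛ : Λ * N ^ 2 ≤ Q
  KN : K ≤ N
  K0 : 0 < K
  Q0 : 0 < Q
  Q4 : Q ^ 4 ≤ N
  L1 : 1 ≤ L
  NL : Real.log N ≤ L
  τ : ∀ d ∈ Icc 1 N, √(2 * d) * d.divisors.card * HH d * (2 + HH d) ≤ K

variable {ψ : ℝ → ℝ} {N K Q : ℕ} {M₀ Λ L : ℝ}

lemma Kr.N0 (h : Kr ψ N K Q M₀ Λ L) : (0 : ℝ) < N := by exact_mod_cast h.K0.trans_le h.KN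

lemma Kr.M0 (h : Kr ψ N K Q M₀ Λ L) : 0 < M₀ :=
  pos_of_mul_pos_right (lt_of_lt_of_le (pow_pos h.N0 2) h.hM) (by positivity)

lemma Kr.hN (h : Kr ψ N K Q M₀ Λ L) : HH N ≤ 2 * L := (HH_le N).trans (by linarith [h.L1, h.NL])

lemma Kr.w (h : Kr ψ N K Q M₀ Λ L) (m : ℕ) (hm : ψ m ≠ 0) : ww m ≤ Q / N := by
  have h1 := (h.wt.supp _ hm).1
  have h2 : (m : ℝ) ≤ (Nat.sqrt m + 1) ^ 2 := by exact_mod_cast (Nat.lt_succ_sqrt' m).le
  have Q1 : (1 : ℝ) ≤ Q := by exact_mod_cast h.Q0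
  rw [ww, div_le_div_iff₀ (by positivity) h.N0, one_mul]
  refine le_of_pow_le_pow_left₀ two_ne_zero (by positivity) (h.hM.trans ?_)
  rw [mul_pow]
  gcongr
  · exact h.M0.le
  · exact le_self_pow₀ Q1 two_ne_zero
  · refine h1.trans (h2.trans ?_)
    gcongr; linarith [Nat.cast_nonneg (α := ℝ) (Nat.sqrt m)]

lemma kk_zero (k : ℤ) {m : ℕ} (hm : ψ m = 0) : kk ψ N Q k m = 0 := by
  simp [kk, k1, k2, hm]

lemma Kr.psi_big (h : Kr ψ N K Q M₀ Λ L) {m : ℕ} (hm : N ^ 2 < m) : ψ m = 0 := by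
  by_contra hne
  have := (h.wt.supp _ hne).2
  exact absurd hm (not_lt.2 (by exact_mod_cast this))

lemma norm_sqm_le (Q : ℕ) (k : ℤ) (m : ℕ) : ‖sqm Q k m‖ ≤ Q ^ 2 :=
  (norm_sum_le _ _).trans ((sum_le_card_nsmul _ _ 1 fun x _ => by
    rw [norm_mul, norm_ee, mul_one]; exact norm_gs_le x).trans (by simpa using card_Far_le Q))

lemma Kr.count (h : Kr ψ N K Q M₀ Λ L) {D : ℕ} (hD : D ∈ Icc 1 N) (n₀ : ℤ) (Y : ℕ) :
    ∑ k ∈ Icc (1 : ℤ) K, ∑ j ∈ range Y, (if (D : ℤ) ∣ (n₀ + j) ^ 2 + k then (1 : ℝ) else 0)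
      ≤ K * (2 * Y / D + 1) := by
  have := (abs_le.1 (count_le (mem_Icc.1 hD).1 (h.τ D hD) n₀ 1 Y K)).2
  rw [sum_comm]
  simp_rw [sum_Icc_int _ (K := K) (a := 1) (b := K) (by ring)]
  refine (sub_le_iff_le_add.1 this).trans (le_of_eq (by ring))

lemma Kr.sum_rho (h : Kr ψ N K Q M₀ Λ L) {D : ℕ} (hD : D ∈ Icc 1 N) :
    ∑ k ∈ Icc (1 : ℤ) K, (rho k D : ℝ) ≤ 3 * K := by
  have := h.count hD 0 D
  have D0 : (D : ℝ) ≠ 0 := by have := (mem_Icc.1 hD).1; positivity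
  rw [mul_div_assoc, div_self D0] at this
  simp only [rho, card_filter, Nat.cast_sum, Nat.cast_ite, Nat.cast_one, Nat.cast_zero]
  simp only [zero_add] at this
  linarith

lemma Kr.norm_k2 (h : Kr ψ N K Q M₀ Λ L) (k : ℤ) (m : ℕ) :
    ‖k2 ψ Q k m‖ ≤ if m ∈ Icc 1 (N ^ 2) then (Q : ℝ) ^ 3 / N else 0 := by
  by_cases h0 : ψ m = 0
  · simp only [k2, h0, Complex.ofReal_zero, zero_mul, norm_zero]; positivity
  rw [if_pos (mem_Icc.2 ⟨by exact_mod_cast h.M0.trans_le (h.wt.supp _ h0).1,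
    not_lt.1 fun e => h0 (h.psi_big e)⟩), k2, norm_mul, norm_mul, Complex.norm_real,
    Complex.norm_real, Real.norm_of_nonneg (h.wt.nn _), Real.norm_of_nonneg (ww_pos _).le]
  calc _ ≤ 1 * (Q / N * (Q : ℝ) ^ 2) := by
        have := ww_pos m
        gcongr
        exacts [h.wt.le1 _, h.w m h0, norm_sqm_le _ _ _]
    _ = _ := by ring

lemma Kr.norm_k1 (h : Kr ψ N K Q M₀ Λ L) (k : ℤ) (m : ℕ) :
    ‖k1 ψ N k m‖ ≤ ∑ n ∈ Icc 1 N, if (n : ℤ) ^ 2 + k = m then (1 : ℝ) else 0 := by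
  rw [k1, norm_mul, Complex.norm_real, Real.norm_of_nonneg (h.wt.nn _)]
  exact (mul_le_of_le_one_left (norm_nonneg _) (h.wt.le1 _)).trans ((norm_sum_le _ _).trans
    (sum_le_sum fun n _ => by split_ifs <;> simp))

lemma Kr.fm (h : Kr ψ N K Q M₀ Λ L) {D : ℕ} (hD : D ∈ Icc 1 N) (S : Finset ℕ) :
    ∑ k ∈ Icc (1 : ℤ) K, ∑ a ∈ S, ‖kk ψ N Q k (a * D)‖ ≤ 4 * Q ^ 3 * K * N / D := by
  obtain ⟨D1, D2⟩ := mem_Icc.1 hD
  have D0 : (0 : ℝ) < D := by exact_mod_cast D1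
  have N0 := h.N0
  have e1 : ∑ k ∈ Icc (1 : ℤ) K, ∑ a ∈ S, ‖k1 ψ N k (a * D)‖ ≤ K * (2 * N / D + 1) := by
    refine le_trans (sum_le_sum fun k _ => ?_) (h.count hD 1 N)
    refine (sum_le_sum fun a _ => h.norm_k1 k _).trans ?_
    rw [sum_comm, sum_Icc_one]
    exact sum_le_sum fun n _ => by simpa using sum_ind_le S ((1 + n) ^ 2 + k) D1
  have e2 : ∀ k, ∑ a ∈ S, ‖k2 ψ Q k (a * D)‖ ≤ N ^ 2 / D * ((Q : ℝ) ^ 3 / N) := fun k => by
    refine (sum_le_sum fun a _ => h.norm_k2 k _).trans ?_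
    rw [← sum_filter, sum_const, nsmul_eq_mul]
    refine mul_le_mul_of_nonneg_right ?_ (by positivity)
    have := card_le_card (s := S.filter fun a => a * D ∈ Icc 1 (N ^ 2)) (t := Icc 1 (N ^ 2 / D))
      fun a ha => by
        have := mem_Icc.1 (mem_filter.1 ha).2
        exact mem_Icc.2 ⟨Nat.pos_of_mul_pos_right this.1, (Nat.le_div_iff_mul_le D1).2 this.2⟩
    rw [Nat.card_Icc, Nat.add_sub_cancel] at this
    calc _ ≤ ((N ^ 2 / D : ℕ) : ℝ) := by exact_mod_cast this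
      _ ≤ _ := Nat.cast_div_le.trans (by push_cast; rfl)
  refine (sum_le_sum fun k _ => sum_le_sum fun a _ => norm_sub_le _ _).trans ?_
  simp only [sum_add_distrib]
  refine (add_le_add e1 (sum_le_card_nsmul _ _ _ fun k _ => e2 k)).trans ?_
  have q : (1 : ℝ) ≤ Q ^ 3 := one_le_pow₀ (by exact_mod_cast h.Q0)
  have : (1 : ℝ) ≤ N / D := (one_le_div D0).2 (by exact_mod_cast D2)
  calc _ = K * (2 * 1 * (N / D) + 1 * 1) + K * (Q ^ 3 * (N / D) : ℝ) := by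
        simp; field_simp
    _ ≤ K * (2 * Q ^ 3 * (N / D) + Q ^ 3 * (N / D)) + K * (Q ^ 3 * (N / D) : ℝ) := by gcongr
    _ = _ := by ring

lemma core_model {V W : ℝ} {G : ℕ → ℝ} (hG : BV V G) (hW : 0 ≤ W) (hs : ∀ m, G m ≠ 0 → ww m ≤ W)
    {D : ℕ} (hD : 0 < D) (hQ : 0 < Q) (k : ℤ) (θ : ℝ) (P : ℕ × ℕ → Prop) [DecidablePred P]
    (h1 : ∀ x ∈ Far Q, P x → ∃ t : ℤ, D * (θ - th x) = t)
    (h2 : ∀ x ∈ Far Q, ¬P x → 1 / (Q : ℝ) ^ 2 ≤ dZ (D * (θ - th x))) (X : ℕ) :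
    ‖∑ m ∈ range X, (if D ∣ m then G m * ee (m * θ) else 0) * (ww m * sqm Q k m) -
      (∑ x ∈ (Far Q).filter P, gs x * ee (k * th x)) * ((∑ m ∈ range X, G m * ww m : ℝ) / D)‖
      ≤ 16 * V * W * Q ^ 4 := by
  have hg := hG.mul_ww hW hs
  have hV := hG.nonneg
  have q : (1 : ℝ) ≤ Q ^ 2 := one_le_pow₀ (by exact_mod_cast hQ)
  have e : ∑ m ∈ range X, (if D ∣ m then G m * ee (m * θ) else 0) * (ww m * sqm Q k m) =
      ∑ x ∈ Far Q, gs x * ee (k * th x) * ∑ m ∈ range X,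
        if D ∣ m then ((G m * ww m : ℝ) : ℂ) * ee (m * (θ - th x)) else 0 := by
    simp only [sqm, mul_sum]
    rw [sum_comm]
    refine sum_congr rfl fun x _ => sum_congr rfl fun m _ => ?_
    split_ifs
    · rw [show th x * (k - m) = k * th x + -(m * th x) by ring, mul_sub, sub_eq_add_neg, ee_add,
        ee_add]
      push_cast; ring
    · simp
  rw [e, sum_filter, sum_mul, ← sum_sub_distrib]
  refine (norm_sum_le _ _).trans ((sum_le_card_nsmul _ _ (16 * V * W * Q ^ 2) fun x hx => ?_).trans ?_)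
  · have n1 : ‖gs x * ee (k * th x)‖ ≤ 1 := by
      rw [norm_mul, norm_ee, mul_one]; exact norm_gs_le x
    have vw : 0 ≤ V * W := by positivity
    split_ifs with hP
    · obtain ⟨t, ht⟩ := h1 x hx hP
      rw [← mul_sub, norm_mul]
      refine (mul_le_of_le_one_left (norm_nonneg _) n1).trans ((model_int hg hD ht X).trans ?_)
      nlinarith
    · rw [zero_mul, sub_zero, norm_mul]
      refine (mul_le_of_le_one_left (norm_nonneg _) n1).trans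
        ((model_far hg hD (by positivity) (h2 x hx hP) X).trans ?_)
      nlinarith
  · rw [nsmul_eq_mul]
    calc _ ≤ (Q : ℝ) ^ 2 * (16 * V * W * Q ^ 2) := by gcongr; exact card_Far_le Q
      _ = _ := by ring

/-- the mass of a weight -/
def mass (ψ : ℝ → ℝ) (N : ℕ) (H : ℕ → ℝ) : ℝ := ∑ m ∈ range ((N + 1) ^ 2), H m * ψ m * ww m

lemma Kr.mass_le (h : Kr ψ N K Q M₀ Λ L) {V : ℝ} {H : ℕ → ℝ} (hH : BV V H) :
    |mass ψ N H| ≤ 2 * V * N := by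
  have hV := hH.nonneg
  have N1 : (1 : ℝ) ≤ N := by exact_mod_cast h.K0.trans_le h.KN
  refine (abs_sum_le_sum_abs _ _).trans ((sum_le_sum (g := fun m => V * ww m) fun m _ => ?_).trans ?_)
  · rw [abs_mul, abs_mul, abs_of_pos (ww_pos m), abs_of_nonneg (h.wt.nn _)]
    exact mul_le_mul_of_nonneg_right ((mul_le_of_le_one_right (abs_nonneg _) (h.wt.le1 _)).trans
      (hH.abs_le m)) (ww_pos m).le
  · rw [← mul_sum, sum_ww]; push_cast; nlinarith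

/-- error term of the local computation -/
def err (N K Q : ℕ) (k : ℤ) (D : ℕ) : ℝ :=
  rho k D * (18 * Q + 4 * (√K + 1) / D) + 32 * Q ^ 5 / N

lemma Kr.core (h : Kr ψ N K Q M₀ Λ L) {V : ℝ} {H : ℕ → ℝ} (hH : BV V H) {k : ℤ}
    (hk : k ∈ Icc (1 : ℤ) K) {D : ℕ} (hD : 0 < D) {y : ℕ × ℕ} (hy : y ∈ Far Q) (hc : D.Coprime y.1)
    (P : ℕ × ℕ → Prop) [DecidablePred P]
    (h1 : ∀ x ∈ Far Q, P x → ∃ t : ℤ, D * (th y - th x) = t)
    (h2 : ∀ x ∈ Far Q, ¬P x → 1 / (Q : ℝ) ^ 2 ≤ dZ (D * (th y - th x))) :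
    ‖∑ m ∈ range ((N + 1) ^ 2), (if D ∣ m then H m * ee (m * th y) else 0) * kk ψ N Q k m -
      (rho k D * (gs y * ee (k * th y)) - ∑ x ∈ (Far Q).filter P, gs x * ee (k * th x)) *
        (mass ψ N H / D)‖ ≤ V * err N K Q k D := by
  obtain ⟨k1', k2'⟩ := mem_Icc.1 hk
  lift k to ℕ using by omega
  have hV := hH.nonneg
  have hG := hH.mul h.bv
  obtain ⟨⟨y1, y2⟩, -⟩ := mem_Far.1 hy
  have a1 := core_true hG (N := N) (k := k) (le_trans (by exact_mod_cast k2') h.KN) hD y1 hc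
  have a2 := core_model hG (W := Q / N) (by positivity)
    (fun m hm => h.w m (right_ne_zero_of_mul hm)) hD h.Q0 k (th y) P h1 h2 ((N + 1) ^ 2)
  refine le_of_eq_of_le ?_ ((norm_sub_le _ _).trans ((add_le_add a1 a2).trans ?_))
  · congr 1
    rw [sub_sub_sub_comm, ← sum_sub_distrib]
    congr 1
    · refine sum_congr rfl fun m _ => ?_
      simp only [kk, k1, k2, s1]
      split_ifs
      · push_cast; ring
      · simp
    · simp only [mass, Int.cast_natCast]; ring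
  · calc _ ≤ 2 * V * 1 * rho k D * (9 * Q + 2 * (√K + 1) / D) + 16 * (2 * V * 1) * (Q / N) * Q ^ 4 := by
          gcongr; exact_mod_cast k2'
      _ = _ := by rw [err]; ring

lemma Kr.assemble (h : Kr ψ N K Q M₀ Λ L) {ι : Type*} (s : Finset ι) (D : ι → ℕ)
    (hinj : Set.InjOn D s) {D₀ F₀ T : ℕ} (hD₀ : D₀ ≤ N) (hD : ∀ i ∈ s, Squarefree (D i) ∧ D i ≤ D₀)
    {c : ι → ℂ} {c₀ V : ℝ} (hc₀ : 0 ≤ c₀) (hV : 0 ≤ V) (hc : ∀ i ∈ s, ‖c i‖ ≤ c₀) (M : ι → ℝ)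
    (hM : ∀ i ∈ s, |M i| ≤ 2 * V * N) (hT : 4 ≤ T) (hF : 2 * T ^ 2 ≤ F₀) (hK : T ^ 2 ≤ K)
    (φ : ℤ → ℂ) (hφ : ∀ k, ‖φ k‖ ≤ 1) (S : ι → ℤ → ℂ)
    (hS : ∀ i ∈ s, ∀ k ∈ Icc (1 : ℤ) K, ‖S i k - φ k *
      (∑ f ∈ (D i).divisors.filter (F₀ < ·), (jj k f : ℂ)) * (M i / D i)‖ ≤ V * err N K Q k (D i)) :
    ∑ k ∈ Icc (1 : ℤ) K, ‖∑ i ∈ s, c i * S i k‖ ≤ 800 * c₀ * V * K * (N * L ^ 4 / √T + Q * D₀) := by
  classical
  have N0 := h.N0
  have L1 := h.L1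
  have K1 : (1 : ℝ) ≤ K := by exact_mod_cast h.K0
  have m : ∀ i ∈ s, D i ∈ Icc 1 D₀ := fun i hi =>
    mem_Icc.2 ⟨Nat.pos_of_ne_zero (hD i hi).1.ne_zero, (hD i hi).2⟩
  have m' : ∀ i ∈ s, D i ∈ Icc 1 N := fun i hi => Icc_subset_Icc_right hD₀ (m i hi)
  set F := (Icc (F₀ + 1) N).filter Squarefree with hFd
  set Γ : ℕ → ℂ := fun f => ∑ i ∈ s, if f ∣ D i then c i * (M i / D i) else 0 with hΓ
  have e1 : ∀ k, ∑ i ∈ s, c i * (φ k * (∑ f ∈ (D i).divisors.filter (F₀ < ·), (jj k f : ℂ)) *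
      (M i / D i)) = φ k * ∑ f ∈ F, Γ f * jj k f := fun k => by
    simp only [hΓ, sum_mul]
    rw [sum_comm, mul_sum]
    refine sum_congr rfl fun i hi => ?_
    simp only [ite_mul, zero_mul]
    rw [← sum_filter, ← mul_sum, show F.filter (· ∣ D i) = (D i).divisors.filter (F₀ < ·) from ?_]
    · ring
    ext f
    have := mem_Icc.1 (m' i hi)
    simp only [hFd, mem_filter, mem_Icc, Nat.mem_divisors]
    exact ⟨fun e => ⟨⟨e.2, by omega⟩, e.1.1.1⟩, fun e => ⟨⟨⟨e.2, (Nat.le_of_dvd this.1 e.1.1).trans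
      this.2⟩, (hD i hi).1.squarefree_of_dvd e.1.1⟩, e.1.1⟩⟩
  have e2 := lemX (S := F) (K := K) (T := T) (Γ := Γ) (M := c₀ * (2 * V * N) * (2 * L)) (Lg := L)
    (fun f hf => by
      obtain ⟨f1, f2⟩ := mem_filter.1 hf
      rw [mem_Icc] at f1
      exact ⟨f2, by omega, (Real.log_le_log (by exact_mod_cast (by omega))
        (by exact_mod_cast f1.2)).trans h.NL⟩) (by positivity) (fun f hf => by
      have f0 : 0 < f := by have := mem_Icc.1 (mem_filter.1 hf).1; omega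
      calc _ ≤ ∑ i ∈ s.filter (f ∣ D ·), c₀ * (2 * V * N) * (1 / D i) := by
            rw [sum_filter]
            refine (norm_sum_le _ _).trans (sum_le_sum fun i hi => ?_)
            split_ifs
            · rw [norm_mul, norm_div, Complex.norm_real, Complex.norm_natCast, mul_assoc,
                mul_one_div]
              gcongr
              exacts [hc i hi, hM i hi]
            · simp
        _ ≤ c₀ * (2 * V * N) * (HH N / f) := by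
            rw [← mul_sum]
            refine mul_le_mul_of_nonneg_left (le_trans ?_ (sum_dvd_inv_le N f0)) (by positivity)
            exact sum_le_of_injOn _ _ _ _ D (hinj.mono (coe_subset.2 (filter_subset _ _))) (fun i hi => mem_filter.2
              ⟨m' i (mem_filter.1 hi).1, (mem_filter.1 hi).2⟩) (fun _ _ => by positivity)
              fun _ _ => le_rfl
        _ ≤ _ := by rw [mul_div_assoc]; gcongr; exact h.hN) hT hK L1
    ((Real.log_le_log (by linarith) (by exact_mod_cast h.KN)).trans h.NL)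
  have e3 : ∀ i ∈ s, ∑ k ∈ Icc (1 : ℤ) K, err N K Q k (D i) ≤
      K * (86 * Q + 24 * √K * (1 / D i)) := fun i hi => by
    simp only [err]
    rw [sum_add_distrib, ← sum_mul, sum_const, Int.card_Icc, nsmul_eq_mul]
    have q : (Q : ℝ) ^ 5 / N ≤ Q := by
      rw [div_le_iff₀ N0, pow_succ']; gcongr; exact_mod_cast h.Q4
    have k : 1 ≤ √(K : ℝ) := Real.one_le_sqrt.2 K1
    calc _ ≤ 3 * K * (18 * Q + 4 * (√K + √K) / D i) + K * (32 * Q) := by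
          rw [mul_div_assoc 32]
          gcongr
          · exact h.sum_rho (m' i hi)
          · simp
      _ = _ := by ring
  have e4 : ∑ i ∈ s, (86 * Q + 24 * √K * (1 / D i) : ℝ) ≤ 86 * Q * D₀ + 24 * √K * (2 * L) := by
    refine (sum_le_of_injOn _ _ _ (fun d : ℕ => (86 * Q + 24 * √K * (1 / d) : ℝ)) D hinj m
      (fun _ _ => by positivity) fun _ _ => le_rfl).trans ?_
    rw [sum_add_distrib, ← mul_sum (a := 24 * √(K : ℝ)), sum_const, Nat.card_Icc,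
      Nat.add_sub_cancel, nsmul_eq_mul, mul_comm]
    gcongr
    exact (HH_mono hD₀).trans h.hN
  have e5 : √(K : ℝ) * L ≤ N * L ^ 4 / √T := by
    have T0 : (4 : ℝ) ≤ T := by exact_mod_cast hT
    rw [le_div_iff₀ (Real.sqrt_pos.2 (by linarith)), mul_right_comm, ← Real.sqrt_mul (by positivity)]
    refine mul_le_mul (Real.sqrt_le_iff.2 ⟨N0.le, ?_⟩) (le_self_pow₀ L1 (by norm_num))
      (by linarith) N0.le
    have a : (K : ℝ) ≤ N := by exact_mod_cast h.KN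
    have b : (T : ℝ) ^ 2 ≤ K := by exact_mod_cast hK
    rw [sq]
    exact mul_le_mul a (by nlinarith) (by positivity) N0.le
  calc _ ≤ ∑ k ∈ Icc (1 : ℤ) K, (‖∑ f ∈ F, Γ f * jj k f‖ + ∑ i ∈ s, c₀ * (V * err N K Q k (D i))) := by
        refine sum_le_sum fun k hk => (norm_le_insert' _ (φ k * ∑ f ∈ F, Γ f * jj k f)).trans
          (add_le_add ?_ ?_)
        · rw [norm_mul]; exact mul_le_of_le_one_left (norm_nonneg _) (hφ k)
        · rw [← e1, ← sum_sub_distrib]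
          refine (norm_sum_le _ _).trans (sum_le_sum fun i hi => ?_)
          rw [← mul_sub, norm_mul]
          exact mul_le_mul (hc i hi) (hS i hi k hk) (norm_nonneg _) hc₀
    _ ≤ 180 * K * (c₀ * (2 * V * N) * (2 * L)) * L ^ 3 / √T +
          c₀ * (V * (K * (86 * Q * D₀ + 24 * √K * (2 * L)))) := by
        rw [sum_add_distrib, sum_comm]
        simp only [← mul_sum]
        gcongr
        refine (sum_le_sum e3).trans ?_
        rw [← mul_sum]; gcongr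
    _ = c₀ * V * K * (720 * (N * L ^ 4 / √T) + 86 * (Q * D₀) + 48 * (√K * L)) := by ring
    _ ≤ c₀ * V * K * (720 * (N * L ^ 4 / √T) + 800 * (Q * D₀) + 80 * (N * L ^ 4 / √T)) := by
        gcongr <;> norm_num
    _ = _ := by ring

theorem Kr.typeI (h : Kr ψ N K Q M₀ Λ L) {ι : Type*} (s : Finset ι) (D : ι → ℕ)
    (hinj : Set.InjOn D s) {D₀ T : ℕ} (hD₀ : D₀ ≤ N) (hD : ∀ i ∈ s, Squarefree (D i) ∧ D i ≤ D₀)
    {c : ι → ℂ} {c₀ V : ℝ} (hc₀ : 0 ≤ c₀) (hV : 0 ≤ V) (hc : ∀ i ∈ s, ‖c i‖ ≤ c₀) (H : ι → ℕ → ℝ)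
    (hH : ∀ i ∈ s, BV V (H i)) (hT : 4 ≤ T) (hF : 2 * T ^ 2 ≤ Q) (hK : T ^ 2 ≤ K) :
    ∑ k ∈ Icc (1 : ℤ) K, ‖∑ i ∈ s, c i * ∑ m ∈ range ((N + 1) ^ 2),
      if D i ∣ m then H i m * kk ψ N Q k m else 0‖
      ≤ 800 * c₀ * V * K * (N * L ^ 4 / √T + Q * D₀) := by
  refine h.assemble s D hinj hD₀ hD hc₀ hV hc (fun i => mass ψ N (H i))
    (fun i hi => h.mass_le (hH i hi)) hT hF hK (fun _ => 1) (by simp) _ fun i hi k hk => ?_
  have sq := (hD i hi).1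
  have D0 := Nat.pos_of_ne_zero sq.ne_zero
  have := h.core (hH i hi) hk D0 (y := (1, 0)) (mem_Far.2 ⟨⟨le_rfl, h.Q0⟩, by simp⟩) (by simp)
    (fun x => x.1 ∣ D i) (fun x hx ⟨t, ht⟩ => ⟨-(t * x.2), by
      have : (x.1 : ℝ) ≠ 0 := by have := (mem_Far.1 hx).1.1; positivity
      rw [ht]; simp only [th]; push_cast; field_simp; ring⟩) fun x hx hn => by
      obtain ⟨⟨x1, x2⟩, -, x3⟩ := mem_Far.1 hx
      have := inv_le_dZ_div x1 (m := -(D i * x.2)) fun e => hn (x3.symm.dvd_of_dvd_mul_right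
        (by exact_mod_cast (dvd_neg.1 e)))
      refine le_trans ?_ (this.trans (le_of_eq ?_))
      · have a : (x.1 : ℝ) ≤ Q := by exact_mod_cast x2
        have b : (1 : ℝ) ≤ x.1 := by exact_mod_cast x1
        gcongr; nlinarith
      · congr 1; simp only [th]; push_cast; ring
  refine le_of_eq_of_le ?_ this
  congr 2
  · exact sum_congr rfl fun m _ => by simp [th]
  · congr 1
    have e1 : (rho k (D i) : ℂ) = ∑ f ∈ (D i).divisors, (jj k f : ℂ) := by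
      exact_mod_cast rho_squarefree k sq
    have e2 : ∑ x ∈ (Far Q).filter (fun x => x.1 ∣ D i), gs x * ee (k * th x) =
        ∑ f ∈ (D i).divisors.filter (fun f => ¬ Q < f), (jj k f : ℂ) := by
      rw [sum_filter, sum_Far]
      rw [sum_congr rfl (g := fun q => if q ∣ D i then gq k q else 0) fun q _ => by
        simp only [gq]; split_ifs <;> simp, ← sum_filter]
      refine sum_congr ?_ fun q hq => gq_squarefree k (sq.squarefree_of_dvd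
        (Nat.dvd_of_mem_divisors (mem_filter.1 hq).1))
      ext q
      simp only [mem_filter, mem_Icc, Nat.mem_divisors, not_lt]
      exact ⟨fun e => ⟨⟨e.2, D0.ne'⟩, e.1.2⟩, fun e => ⟨⟨Nat.pos_of_dvd_of_pos e.1.1 D0, e.2⟩, e.1.1⟩⟩
    rw [e1, e2, ← sum_filter_add_sum_filter_not (D i).divisors (Q < ·)]
    simp [gs, th]

end Pool.Agent.Work.MP_51e72e_nt.QA
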