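import Pool.Agent.Work.MP_51e72e_nt.QAFar
import Pool.Agent.Work.MP_5d318d_nt.Chars

/-!
# Counting solutions of `n ^ 2 + k ≡ 0` in boxes
-/

noncomputable section

open Finset

namespace Pool.Agent.Work.MP_51e72e_nt.QA

open Pool.Agent.Lib.LargeSieve Pool.Agent.Work.MP_5d318d_nt

lemma norm_natCast_mul (d : ℕ) (z : ℂ) : ‖(d : ℂ) * z‖ = d * ‖z‖ := by
  rw [norm_mul, Complex.norm_natCast]

lemma sum_range_shift (f : ℕ → ℂ) {d : ℕ} (hf : ∀ n, f (n + d) = f n) (y : ℕ) :
    ∑ t ∈ range d, f (y + t) = ∑ t ∈ range d, f t := by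
  induction y with
  | zero => simp
  | succ y ih =>
    have h1 := sum_range_succ (fun t => f (y + t)) d
    have h2 := sum_range_succ' (fun t => f (y + t)) d
    simp only [add_zero, hf] at h1 h2
    rw [← ih]
    have : ∀ t, y + 1 + t = y + (t + 1) := fun t => by ring
    simp only [this]
    exact add_right_cancel (h2.symm.trans h1)

lemma card_dvd_mul_le (a : ℤ) {d : ℕ} (hd : 0 < d) :
    ((range d).filter fun t : ℕ => (d : ℤ) ∣ a * t).card ≤ Int.gcd a d := by
  set g := Int.gcd a d with hg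
  have hg0 : 0 < g := Int.gcd_pos_of_ne_zero_right _ (by exact_mod_cast hd.ne')
  obtain ⟨a', ha'⟩ : (g : ℤ) ∣ a := Int.gcd_dvd_left _ _
  obtain ⟨d', hd'⟩ : g ∣ d := by exact_mod_cast (Int.gcd_dvd_right a d)
  have hd0 : 0 < d' := Nat.pos_of_mul_pos_left (hd' ▸ hd)
  have hc : IsCoprime (d' : ℤ) a' := by
    rw [Int.isCoprime_iff_gcd_eq_one, Int.gcd_comm]
    have : Int.gcd (g * a') (g * d') = g := by rw [← ha', ← Nat.cast_mul, ← hd']
    rw [Int.gcd_mul_left, Int.natAbs_natCast] at this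
    exact (Nat.mul_eq_left hg0.ne').1 this
  conv_rhs => rw [← card_range g]
  refine card_le_card_of_injOn (fun t => t / d') (fun t ht => ?_) ?_
  · simp only [coe_filter, mem_range, Set.mem_ofPred_eq, coe_range, Set.mem_Iio] at ht ⊢
    exact (Nat.div_lt_iff_lt_mul hd0).2 (hd' ▸ ht.1)
  · have key : ∀ t : ℕ, (d : ℤ) ∣ a * t → d' ∣ t := fun t h => by
      rw [ha', hd', Nat.cast_mul, mul_assoc,
        mul_dvd_mul_iff_left (by exact_mod_cast hg0.ne')] at h
      exact_mod_cast hc.dvd_of_dvd_mul_left h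
    intro s hs t ht h
    simp only [coe_filter, Set.mem_ofPred_eq] at hs ht h
    rw [← Nat.div_mul_cancel (key s hs.2), ← Nat.div_mul_cancel (key t ht.2), h]

lemma quad_gauss {d : ℕ} (hd : 0 < d) (h l : ℤ) :
    ‖∑ x ∈ range d, ee (((h * x ^ 2 + l * x : ℤ) : ℝ) / d)‖ ^ 2 ≤ d * Int.gcd (2 * h) d := by
  set f : ℕ → ℂ := fun x => ee (((h * x ^ 2 + l * x : ℤ) : ℝ) / d) with hf
  have hper : ∀ n, f (n + d) = f n := fun n =>
    ee_congr hd ⟨-(h * (2 * n + d) + l), by push_cast; ring⟩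
  have e : ((‖∑ x ∈ range d, f x‖ ^ 2 : ℝ) : ℂ) = ∑ t ∈ range d,
      f t * if (d : ℤ) ∣ 2 * h * t then (d : ℂ) else 0 := by
    rw [normSq_sum_eq, sum_comm]
    have : ∀ y ∈ range d, ∑ x ∈ range d, f x * (starRingEnd ℂ) (f y)
        = ∑ t ∈ range d, f t * ee (((2 * h * t : ℤ) : ℝ) * ((y : ℝ) / d)) := fun y _ => by
      rw [← sum_mul, ← sum_range_shift f hper y, sum_mul]
      refine sum_congr rfl fun t _ => ?_
      simp only [hf, conj_ee, ← ee_add]
      congr 1
      push_cast; ring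
    rw [sum_congr rfl this, sum_comm]
    simp_rw [← mul_sum, sum_ee_dvd hd]
  have e2 : ‖∑ x ∈ range d, f x‖ ^ 2 = ‖((‖∑ x ∈ range d, f x‖ ^ 2 : ℝ) : ℂ)‖ := by
    rw [Complex.norm_real, Real.norm_of_nonneg (by positivity)]
  rw [e2, e]
  refine (norm_sum_le _ _).trans ?_
  calc _ = ∑ t ∈ (range d).filter fun t : ℕ => (d : ℤ) ∣ 2 * h * t, (d : ℝ) := by
        rw [sum_filter]
        refine sum_congr rfl fun t _ => ?_
        split_ifs <;> simp [hf]
    _ ≤ _ := by
        rw [sum_const, nsmul_eq_mul, mul_comm]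
        gcongr
        exact_mod_cast card_dvd_mul_le (2 * h) hd

lemma sum_inv_dZ_range {d : ℕ} (hd : 0 < d) :
    ∑ l ∈ (range d).erase 0, 1 / (2 * dZ ((l : ℝ) / d)) ≤ d * HH d := by
  refine sum_inv_dZ_le ((range d).erase 0) (fun j => (j : ℝ) / d) d hd
    (fun j hj => inv_le_dZ_of_mem hj) fun j hj k hk hjk => ?_
  rw [mem_erase, mem_range] at hj hk
  have := inv_le_dZ_div (p := d) hd (m := (j : ℤ) - k) (by
    intro hd
    have h1 := Int.eq_zero_of_abs_lt_dvd hd (by rw [abs_lt]; constructor <;> omega)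
    omega)
  rw [← sub_div]
  simpa using this

lemma norm_sum_ee_shift_le (Y : ℕ) (n₀ x : ℝ) (hx : 0 < dZ x) :
    ‖∑ j ∈ range Y, ee ((n₀ + j) * x)‖ ≤ 1 / (2 * dZ x) := by
  simp_rw [add_mul, ee_add, ← mul_sum, norm_mul, norm_ee, one_mul]
  exact norm_sum_ee_le Y x hx

lemma dZ_pos_of_mem {d j : ℕ} (hj : j ∈ (range d).erase 0) : 0 < dZ ((j : ℝ) / d) := by
  have : 0 < d := by have := mem_range.1 (mem_erase.1 hj).2; omega
  exact lt_of_lt_of_le (by positivity) (inv_le_dZ_of_mem hj)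

lemma incomplete_gauss {d : ℕ} (hd : 0 < d) (h n₀ : ℤ) (Y : ℕ) :
    ‖∑ j ∈ range Y, ee (((h * (n₀ + j) ^ 2 : ℤ) : ℝ) / d)‖
      ≤ √(d * Int.gcd (2 * h) d) * (Y / d + HH d) := by
  have hd' : (d : ℂ) ≠ 0 := by exact_mod_cast hd.ne'
  have hd0 : (0 : ℝ) < d := by exact_mod_cast hd
  have e1 : ∀ n : ℤ, (d : ℂ) * ee (((h * n ^ 2 : ℤ) : ℝ) / d) = ∑ l ∈ range d,
      (∑ x ∈ range d, ee (((h * x ^ 2 + (-l) * x : ℤ) : ℝ) / d)) * ee (n * ((l : ℝ) / d)) := by
    intro n
    simp_rw [sum_mul]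
    rw [sum_comm]
    have : ∀ x ∈ range d, ∑ l ∈ range d, ee (((h * x ^ 2 + (-l) * x : ℤ) : ℝ) / d) *
        ee (n * ((l : ℝ) / d)) = ee (((h * x ^ 2 : ℤ) : ℝ) / d) *
          if (d : ℤ) ∣ n - x then (d : ℂ) else 0 := fun x _ => by
      rw [← sum_ee_dvd hd, mul_sum]
      refine sum_congr rfl fun l _ => ?_
      simp only [← ee_add]
      congr 1
      push_cast; ring
    have hn0 : 0 ≤ n % d := Int.emod_nonneg _ (by exact_mod_cast hd.ne')
    have hn1 : n % d < d := Int.emod_lt_of_pos _ (by exact_mod_cast hd)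
    have hn2 : (d : ℤ) ∣ n - n % d := Int.dvd_self_sub_emod
    rw [sum_congr rfl this, sum_eq_single (n % d).toNat]
    · rw [Int.toNat_of_nonneg hn0, if_pos hn2, mul_comm]
      congr 1
      refine ee_congr hd ?_
      rw [← mul_sub, sq_sub_sq, ← neg_sub n]
      exact ((hn2.neg_right).mul_left _).mul_left _
    · intro x hx hne
      rw [if_neg, mul_zero]
      intro hdv
      have h3 : (d : ℤ) ∣ x - n % d := by
        have := hn2.sub hdv
        rwa [show n - n % d - (n - x) = x - n % d by ring] at this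
      have := Int.eq_zero_of_abs_lt_dvd h3 (by
        have := mem_range.1 hx
        rw [abs_lt]; constructor <;> omega)
      omega
    · intro h; exact absurd (mem_range.2 (by omega)) h
  have e2 : (d : ℝ) * ‖∑ j ∈ range Y, ee (((h * (n₀ + j) ^ 2 : ℤ) : ℝ) / d)‖
      ≤ √(d * Int.gcd (2 * h) d) * (Y + d * HH d) := by
    rw [← norm_natCast_mul, mul_sum]
    simp_rw [e1]
    rw [sum_comm]
    simp_rw [← mul_sum]
    refine (norm_sum_le _ _).trans ?_
    have b1 : ∀ l ∈ range d, ‖(∑ x ∈ range d, ee (((h * x ^ 2 + (-l) * x : ℤ) : ℝ) / d)) *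
        ∑ j ∈ range Y, ee (((n₀ + j : ℤ) : ℝ) * ((l : ℝ) / d))‖ ≤ √(d * Int.gcd (2 * h) d) *
          ‖∑ j ∈ range Y, ee (((n₀ + j : ℤ) : ℝ) * ((l : ℝ) / d))‖ := fun l _ => by
      rw [norm_mul]
      gcongr
      exact Real.le_sqrt_of_sq_le (quad_gauss hd h (-l))
    refine (sum_le_sum b1).trans ?_
    rw [← mul_sum, ← add_sum_erase _ _ (mem_range.2 hd)]
    gcongr
    · exact (norm_sum_le _ _).trans (by simp)
    · refine le_trans (sum_le_sum fun l hl => ?_) (sum_inv_dZ_range hd)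
      push_cast
      exact norm_sum_ee_shift_le Y _ _ (dZ_pos_of_mem hl)
  refine le_of_mul_le_mul_left (e2.trans (le_of_eq ?_)) hd0
  field_simp

lemma sum_gcd_inv_dZ {d : ℕ} (hd : 0 < d) :
    ∑ h ∈ (range d).erase 0, (Nat.gcd h d : ℝ) * (1 / (2 * dZ ((h : ℝ) / d)))
      ≤ d.divisors.card * (d * HH d) := by
  have h0 : ∀ x, 0 ≤ 1 / (2 * dZ x) := fun x => by have := dZ_nonneg x; positivity
  calc _ ≤ ∑ h ∈ (range d).erase 0, ∑ g ∈ d.divisors,
        if g ∣ h then (g : ℝ) * (1 / (2 * dZ ((h : ℝ) / d))) else 0 := by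
        refine sum_le_sum fun h _ => ?_
        refine le_trans (le_of_eq ?_) (single_le_sum (f := fun g => if g ∣ h then
          (g : ℝ) * (1 / (2 * dZ ((h : ℝ) / d))) else 0) (fun g _ => ?_)
          (Nat.mem_divisors.2 ⟨Nat.gcd_dvd_right h d, hd.ne'⟩))
        · simp only [Nat.gcd_dvd_left, if_true]
        · have := h0 ((h : ℝ) / d)
          split_ifs <;> positivity
    _ ≤ _ := by
        rw [sum_comm, ← nsmul_eq_mul]
        refine sum_le_card_nsmul _ _ _ fun g hg => ?_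
        obtain ⟨e, rfl⟩ := Nat.dvd_of_mem_divisors hg
        have hg0 : 0 < g := Nat.pos_of_mul_pos_right hd
        have he0 : 0 < e := Nat.pos_of_mul_pos_left hd
        rw [← sum_filter, ← mul_sum, Nat.cast_mul, mul_assoc]
        gcongr
        refine le_trans (sum_le_of_injOn _ ((range e).erase 0) _
          (fun j => 1 / (2 * dZ ((j : ℝ) / e))) (fun h => h / g) ?_ ?_ (fun _ _ => h0 _) ?_)
          ((sum_inv_dZ_range he0).trans ?_)
        · intro s hs t ht h
          simp only [coe_filter, Set.mem_ofPred_eq] at hs ht h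
          rw [← Nat.div_mul_cancel hs.2, ← Nat.div_mul_cancel ht.2, h]
        · intro h hh
          simp only [mem_filter, mem_erase, mem_range] at hh ⊢
          obtain ⟨⟨h1, h2⟩, j, rfl⟩ := hh
          rw [Nat.mul_div_cancel_left _ hg0]
          exact ⟨by rintro rfl; simp at h1, Nat.lt_of_mul_lt_mul_left h2⟩
        · intro h hh
          obtain ⟨j, rfl⟩ := (mem_filter.1 hh).2
          rw [Nat.mul_div_cancel_left _ hg0, Nat.cast_mul,
            mul_div_mul_left _ _ (by positivity : (g : ℝ) ≠ 0)]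
        · gcongr
          exact HH_mono (Nat.le_mul_of_pos_left _ hg0)

/-- solutions of the quadratic congruence in a box -/
theorem count_quad {d : ℕ} (hd : 0 < d) (n₀ k₀ : ℤ) (Y K : ℕ) :
    |∑ j ∈ range Y, ∑ i ∈ range K, (if (d : ℤ) ∣ (n₀ + j) ^ 2 + (k₀ + i) then (1 : ℝ) else 0)
      - Y * K / d| ≤ √(2 * d) * d.divisors.card * HH d * (Y / d + HH d) := by
  have hd' : (d : ℂ) ≠ 0 := by exact_mod_cast hd.ne'
  have hd0 : (0 : ℝ) < d := by exact_mod_cast hd
  have hH := HH_nonneg d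
  have e1 : (d : ℂ) * ((∑ j ∈ range Y, ∑ i ∈ range K,
      (if (d : ℤ) ∣ (n₀ + j) ^ 2 + (k₀ + i) then (1 : ℝ) else 0) - Y * K / d : ℝ) : ℂ)
      = ∑ h ∈ (range d).erase 0, (∑ j ∈ range Y, ee (((h * (n₀ + j) ^ 2 : ℤ) : ℝ) / d)) *
        ∑ i ∈ range K, ee ((k₀ + i) * ((h : ℝ) / d)) := by
    have e : ∑ h ∈ range d, (∑ j ∈ range Y, ee (((h * (n₀ + j) ^ 2 : ℤ) : ℝ) / d)) *
        ∑ i ∈ range K, ee ((k₀ + i) * ((h : ℝ) / d)) = ∑ j ∈ range Y, ∑ i ∈ range K,
          if (d : ℤ) ∣ (n₀ + j) ^ 2 + (k₀ + i) then (d : ℂ) else 0 := by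
      simp_rw [sum_mul_sum, ← sum_ee_dvd hd]
      rw [sum_comm]
      refine sum_congr rfl fun j _ => ?_
      rw [sum_comm]
      refine sum_congr rfl fun i _ => sum_congr rfl fun h _ => ?_
      rw [← ee_add]
      congr 1
      push_cast; ring
    rw [← add_sum_erase _ _ (mem_range.2 hd)] at e
    rw [← sub_eq_iff_eq_add'.2 e.symm]
    push_cast
    simp only [mul_sub, mul_sum, apply_ite ((↑) : ℝ → ℂ), Complex.ofReal_one, Complex.ofReal_zero,
      mul_ite, mul_one, mul_zero]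
    simp [mul_div_cancel₀ _ hd', mul_comm]
  refine le_of_mul_le_mul_left ?_ hd0
  rw [← Real.norm_eq_abs, ← Complex.norm_real, ← norm_natCast_mul, e1]
  refine (norm_sum_le _ _).trans ?_
  calc _ ≤ ∑ h ∈ (range d).erase 0, √(2 * d) * (Y / d + HH d) *
        ((Nat.gcd h d : ℝ) * (1 / (2 * dZ ((h : ℝ) / d)))) := by
        refine sum_le_sum fun h hh => ?_
        have b1 : √(d * Int.gcd (2 * h) d) ≤ √(2 * d) * Nat.gcd h d := by
          have hg : 1 ≤ Nat.gcd h d := Nat.gcd_pos_of_pos_right _ hd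
          have h2 : Int.gcd (2 * h) d ≤ 2 * Nat.gcd h d := by
            have : Int.gcd (2 * h) d = Nat.gcd (2 * h) d := by
              rw [← Int.gcd_natCast_natCast]; push_cast; rfl
            rw [this, ← Nat.gcd_mul_left]
            exact Nat.le_of_dvd (Nat.gcd_pos_of_pos_right _ (by omega))
              (Nat.gcd_dvd_gcd_of_dvd_right _ (dvd_mul_left _ _))
          have h2' : (Int.gcd (2 * h) d : ℝ) ≤ 2 * Nat.gcd h d := by exact_mod_cast h2
          have hg' : (1 : ℝ) ≤ Nat.gcd h d := by exact_mod_cast hg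
          rw [Real.sqrt_le_left (by positivity), mul_pow, Real.sq_sqrt (by positivity)]
          nlinarith [mul_le_mul_of_nonneg_left h2' hd0.le,
            mul_le_mul_of_nonneg_left (le_self_pow₀ hg' two_ne_zero) hd0.le]
        rw [norm_mul]
        calc _ ≤ √(2 * d) * Nat.gcd h d * (Y / d + HH d) * (1 / (2 * dZ ((h : ℝ) / d))) := by
              gcongr
              · exact (incomplete_gauss hd h n₀ Y).trans (by gcongr)
              · exact norm_sum_ee_shift_le K _ _ (dZ_pos_of_mem hh)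
          _ = _ := by ring
    _ ≤ √(2 * d) * (Y / d + HH d) * (d.divisors.card * (d * HH d)) := by
        rw [← mul_sum]
        gcongr
        exact sum_gcd_inv_dZ hd
    _ = _ := by ring

end Pool.Agent.Work.MP_51e72e_nt.QA
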