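import Pool.Agent.Work.MP_51e72e_nt.QAPoint

noncomputable section
open Finset Real
open Pool.Agent.Lib.LargeSieve

namespace Pool.Agent.Work.MP_51e72e_nt.QA

lemma sum_Icc_int {M : Type*} [AddCommMonoid M] (f : ℤ → M) {a b : ℤ} {K : ℕ}
    (h : b + 1 = a + K) : ∑ k ∈ Icc a b, f k = ∑ i ∈ range K, f (a + i) := by
  symm
  refine sum_bij (fun i _ => a + i) (fun i hi => ?_) (fun i _ j _ e => by simpa using e)
    (fun k hk => ?_) (fun _ _ => rfl)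
  · rw [mem_range] at hi; rw [mem_Icc]; omega
  · rw [mem_Icc] at hk
    exact ⟨(k - a).toNat, mem_range.2 (by omega), by omega⟩

lemma sum_Icc_one {M : Type*} [AddCommMonoid M] (f : ℕ → M) (N : ℕ) :
    ∑ n ∈ Icc 1 N, f n = ∑ j ∈ range N, f (1 + j) := by
  rw [← Ico_add_one_right_eq_Icc, sum_Ico_eq_sum_range, Nat.add_sub_cancel]

lemma sum_cells {M : Type*} [AddCommMonoid M] (f : ℕ → M) (A ℓ R : ℕ) :
    ∑ a ∈ Ico A (A + R * ℓ), f a = ∑ r ∈ range R, ∑ a ∈ Ico (A + r * ℓ) (A + r * ℓ + ℓ), f a := by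
  induction R with
  | zero => simp
  | succ R ih =>
    rw [sum_range_succ, ← ih, sum_Ico_consecutive _ (by omega) (by omega), Nat.succ_mul, add_assoc]

lemma count_le {d : ℕ} (hd : 0 < d) {K₀ : ℝ}
    (hτ : √(2 * d) * d.divisors.card * HH d * (2 + HH d) ≤ K₀) (n₀ k₀ : ℤ) (Y K : ℕ) :
    |∑ j ∈ range Y, ∑ i ∈ range K, (if (d : ℤ) ∣ (n₀ + j) ^ 2 + (k₀ + i) then (1 : ℝ) else 0)
      - Y * K / d| ≤ K₀ * (Y / d + 1) := by
  refine (count_quad hd n₀ k₀ Y K).trans ?_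
  have h1 := HH_nonneg d
  calc _ ≤ √(2 * d) * d.divisors.card * HH d * ((2 + HH d) * (Y / d + 1)) := by
        refine mul_le_mul_of_nonneg_left ?_ (by positivity)
        have : (0 : ℝ) ≤ Y / d := by positivity
        nlinarith
    _ ≤ _ := by rw [← mul_assoc]; gcongr

lemma classes_sq (f : ℕ → ℂ) {N' d I : ℕ} (hd : 0 < d) (hf : ∀ n, N' < n → f n = 0)
    (hI : ∀ n i, f n ≠ 0 → f (n + d * i) ≠ 0 → i ≤ I) :
    ∑ ν ∈ range d, ‖∑ n ∈ (Icc 1 N').filter (fun n => n % d = ν), f n‖ ^ 2 =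
      ∑ n ∈ Icc 1 N', ‖f n‖ ^ 2 +
        2 * ∑ i ∈ Icc 1 I, ∑ n ∈ Icc 1 N', (f n * (starRingEnd ℂ) (f (n + d * i))).re := by
  set g : ℕ → ℕ → ℝ := fun n m => (f n * (starRingEnd ℂ) (f m)).re with hg
  have gs : ∀ n m, g n m = g m n := fun n m => by simp [hg]; ring
  have e1 : ∀ ν, ‖∑ n ∈ (Icc 1 N').filter (fun n => n % d = ν), f n‖ ^ 2 =
      ∑ n ∈ (Icc 1 N').filter (fun n => n % d = ν), ∑ m ∈ Icc 1 N',
        if m % d = n % d then g n m else 0 := fun ν => by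
    rw [← Complex.ofReal_re (_ ^ 2), normSq_sum_eq, Complex.re_sum]
    refine sum_congr rfl fun n hn => ?_
    rw [Complex.re_sum, (mem_filter.1 hn).2, sum_filter]
  have e2 : ∀ n m, (if m % d = n % d then g n m else 0) = (if n = m then g n m else 0) +
      ((if n < m ∧ m % d = n % d then g n m else 0) +
        (if m < n ∧ n % d = m % d then g m n else 0)) := fun n m => by
    rcases lt_trichotomy n m with h | h | h
    · simp [h, h.ne, h.not_gt]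
    · simp [h]
    · simp [h, h.ne', h.not_gt, eq_comm, gs n m]
  have e3 : ∀ n ∈ Icc 1 N', ∑ m ∈ Icc 1 N', (if n < m ∧ m % d = n % d then g n m else 0)
      = ∑ i ∈ Icc 1 I, g n (n + d * i) := fun n hn => by
    rw [← sum_image (s := Icc 1 I) (g := fun i => n + d * i) (f := fun m => g n m)
      (fun i _ j _ e => Nat.eq_of_mul_eq_mul_left hd (by simpa using e))]
    refine sum_congr_of_eq_on_inter (fun m _ hm => ?_) (fun m hm hm' => ?_) (fun m _ hm => ?_)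
    · split_ifs with h
      · by_contra hne
        obtain ⟨i, hi⟩ := (Nat.modEq_iff_dvd' h.1.le).1 h.2.symm
        have e : m = n + d * i := by omega
        refine hm (mem_image.2 ⟨i, mem_Icc.2 ⟨?_, hI n i ?_ ?_⟩, e.symm⟩)
        · rcases i with _ | i <;> omega
        · intro h0; simp [hg, h0] at hne
        · intro h0; rw [← e] at h0; simp [hg, h0] at hne
      · rfl
    · obtain ⟨i, -, rfl⟩ := mem_image.1 hm
      have := mem_Icc.1 hn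
      simp only [hg]
      rw [hf (n + d * i) (by simp only [mem_Icc] at hm'; omega)]; simp
    · obtain ⟨i, hi, rfl⟩ := mem_image.1 hm
      have := Nat.mul_pos hd (mem_Icc.1 hi).1
      rw [if_pos ⟨by omega, Nat.add_mul_mod_self_left _ _ _⟩]
  simp_rw [e1]
  rw [sum_fiberwise_of_maps_to fun n _ => mem_range.2 (Nat.mod_lt n hd)]
  simp_rw [e2, sum_add_distrib]
  rw [sum_comm (f := fun n m => if m < n ∧ n % d = m % d then g m n else 0), sum_congr rfl e3,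
    ← two_mul, sum_comm (s := Icc 1 I)]
  congr 1
  refine sum_congr rfl fun n hn => ?_
  rw [sum_ite_eq, if_pos hn]
  simp only [hg, Complex.mul_conj, Complex.ofReal_re, Complex.normSq_eq_norm_sq]

/-- the coefficient attached to a triple -/
def zz (α : ℕ → ℂ) (ψ : ℝ → ℝ) (S : Finset ℕ) (k : ℤ) (b n : ℕ) : ℂ :=
  ∑ a ∈ S, if (n : ℤ) ^ 2 + k = a * b then α a * ψ (a * b) else 0

lemma sum_ind_le (S : Finset ℕ) (m : ℤ) {b : ℕ} (hb : 0 < b) :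
    ∑ a ∈ S, (if m = a * b then (1 : ℝ) else 0) ≤ if (b : ℤ) ∣ m then 1 else 0 := by
  split_ifs with h
  · rw [sum_boole, Nat.cast_le_one]
    refine card_le_one.2 fun a ha a' ha' => ?_
    have := (mem_filter.1 ha).2.symm.trans (mem_filter.1 ha').2
    exact_mod_cast mul_right_cancel₀ (by positivity) this
  · exact le_of_eq (sum_eq_zero fun a _ => if_neg fun e => h ⟨a, by rw [e]; ring⟩)

lemma norm_zz_le {ψ : ℝ → ℝ} {M₀ M₁ Λ α₀ : ℝ} (hψ : Wt ψ M₀ M₁ Λ) {α : ℕ → ℂ}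
    (hα : ∀ a, ‖α a‖ ≤ α₀) (S : Finset ℕ) (k : ℤ) {b : ℕ} (hb : 0 < b) (n : ℕ) :
    ‖zz α ψ S k b n‖ ≤ α₀ * if (b : ℤ) ∣ (n : ℤ) ^ 2 + k then 1 else 0 := by
  have h0 : 0 ≤ α₀ := (norm_nonneg _).trans (hα 0)
  refine (norm_sum_le _ _).trans (le_trans ?_ (mul_le_mul_of_nonneg_left (sum_ind_le S _ hb) h0))
  rw [mul_sum]
  refine sum_le_sum fun a _ => ?_
  split_ifs
  · rw [norm_mul, Complex.norm_real, Real.norm_of_nonneg (hψ.nn _)]
    exact mul_le_mul (hα a) (hψ.le1 _) (hψ.nn _) h0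
  · simp

lemma zz_ne {α : ℕ → ℂ} {ψ : ℝ → ℝ} {S : Finset ℕ} {k : ℤ} {b n : ℕ} (h : zz α ψ S k b n ≠ 0) :
    ∃ a ∈ S, (n : ℤ) ^ 2 + k = a * b ∧ ψ (a * b) ≠ 0 := by
  obtain ⟨a, ha, h1⟩ := exists_ne_zero_of_sum_ne_zero h
  refine ⟨a, ha, ?_⟩
  split_ifs at h1 with h2
  · exact ⟨h2, fun h3 => h1 (by simp [h3])⟩
  · exact absurd rfl h1

/-- number of triples -/
def Cnt (K₁ B N' : ℕ) : ℝ := ∑ k ∈ Icc (-(K₁ : ℤ)) K₁, ∑ b ∈ Icc 1 B, ∑ n ∈ Icc 1 N',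
  if (b : ℤ) ∣ (n : ℤ) ^ 2 + k then 1 else 0

/-- off-diagonal sums -/
def OO (α : ℕ → ℂ) (ψ : ℝ → ℝ) (S : Finset ℕ) (K : ℝ) (K₁ B N' i : ℕ) : ℂ :=
  ∑ k ∈ Icc (-(K₁ : ℤ)) K₁, ∑ b ∈ Icc 1 B, ∑ n ∈ Icc 1 N',
    gau K k * (zz α ψ S k b n * (starRingEnd ℂ) (zz α ψ S k b (n + 2 * b * i)))

lemma Cnt_nonneg (K₁ B N' : ℕ) : 0 ≤ Cnt K₁ B N' :=
  sum_nonneg fun _ _ => sum_nonneg fun _ _ => sum_nonneg fun _ _ => by positivity

lemma Cnt_le {K₁ B N' : ℕ} {K₀ : ℝ} (hB : B ≤ N')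
    (hτ : ∀ d ∈ Icc 1 B, √(2 * d) * d.divisors.card * HH d * (2 + HH d) ≤ K₀) :
    Cnt K₁ B N' ≤ N' * (2 * K₁ + 1 + 2 * K₀) * HH B := by
  rw [Cnt, sum_comm, HH, mul_sum]
  refine sum_le_sum fun b hb => ?_
  obtain ⟨b1, b2⟩ := mem_Icc.1 hb
  have hb' : (0 : ℝ) < b := by exact_mod_cast b1
  have h := (abs_le.1 (count_le b1 (hτ b hb) 1 (-K₁) N' (2 * K₁ + 1))).2
  have hK : 0 ≤ K₀ := le_trans (by have := HH_nonneg b; positivity) (hτ b hb)
  rw [sum_comm, sum_Icc_one]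
  simp_rw [sum_Icc_int _ (K := 2 * K₁ + 1) (a := -(K₁ : ℤ)) (b := K₁) (by push_cast; ring)]
  push_cast at h ⊢
  have h2 : (1 : ℝ) ≤ N' / b := by rw [le_div_iff₀ hb', one_mul]; exact_mod_cast b2.trans hB
  calc _ ≤ N' * (2 * K₁ + 1) / b + K₀ * (N' / b + N' / b) := by
        have := mul_le_mul_of_nonneg_left h2 hK
        linarith
    _ = _ := by ring

lemma norm_OO_le {ψ : ℝ → ℝ} {M₀ M₁ Λ α₀ : ℝ} (hψ : Wt ψ M₀ M₁ Λ) {α : ℕ → ℂ}
    (hα : ∀ a, ‖α a‖ ≤ α₀) (S : Finset ℕ) (K : ℝ) (K₁ B N' i : ℕ) :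
    ‖OO α ψ S K K₁ B N' i‖ ≤ α₀ ^ 2 * Cnt K₁ B N' := by
  have h0 : 0 ≤ α₀ := (norm_nonneg _).trans (hα 0)
  simp only [OO, Cnt, mul_sum]
  refine (norm_sum_le _ _).trans (sum_le_sum fun k _ => (norm_sum_le _ _).trans
    (sum_le_sum fun b hb => (norm_sum_le _ _).trans (sum_le_sum fun n _ => ?_)))
  have b1 := (mem_Icc.1 hb).1
  rw [norm_mul, norm_mul, Complex.norm_conj, Complex.norm_real, Real.norm_of_nonneg (gau_pos _ _).le]
  have h1 := norm_zz_le hψ hα S k b1 n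
  have h2 : ‖zz α ψ S k b (n + 2 * b * i)‖ ≤ α₀ := (norm_zz_le hψ hα S k b1 _).trans
    (mul_le_of_le_one_right h0 (by split_ifs <;> norm_num))
  calc _ ≤ 1 * ((α₀ * if (b : ℤ) ∣ (n : ℤ) ^ 2 + k then 1 else 0) * α₀) := by
        gcongr; exact gau_le_one _ _
    _ = _ := by ring

theorem disp_cs {ψ : ℝ → ℝ} {M₀ M₁ Λ α₀ β₀ : ℝ} (hψ : Wt ψ M₀ M₁ Λ) {α β : ℕ → ℂ}
    (hα : ∀ a, ‖α a‖ ≤ α₀) (hβ : ∀ b, ‖β b‖ ≤ β₀) {S : Finset ℕ} {A K K₁ B N' I : ℕ}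
    (hS : ∀ a ∈ S, a ≤ 3 * A) (hK : 0 < K) (hK₁ : K ≤ K₁) (hN : M₁ + K₁ ≤ (N' : ℝ) ^ 2)
    (hI : (3 * A * N' : ℝ) ≤ 2 * M₀ * I) (hM₀ : 0 < M₀)
    (hτ : ∀ d ∈ Icc 1 B, √(2 * d) * d.divisors.card * HH d * (2 + HH d) ≤ K) :
    (∑ k ∈ Icc (1 : ℤ) K, ‖∑ b ∈ Icc 1 B, β b * ∑ n ∈ Icc 1 N', zz α ψ S k b n‖) ^ 2 ≤
      β₀ ^ 2 * (5 * K * B) * (25 * (α₀ ^ 2 * Cnt K₁ B N' +
        2 * ∑ i ∈ Icc 1 I, ‖OO α ψ S K K₁ B N' i‖)) := by
  have h0 : 0 ≤ β₀ := (norm_nonneg _).trans (hβ 0)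
  have hK' : (0 : ℝ) < K := by exact_mod_cast hK
  set Z : ℤ → ℕ → ℕ → ℂ := fun k b ν => ∑ n ∈ (Icc 1 N').filter (fun n => n % (2 * b) = ν),
    zz α ψ S k b n with hZ
  set c : ℤ → ℕ → ℕ → ℝ := fun k b ν => if (b : ℤ) ∣ (ν : ℤ) ^ 2 + k then 1 else 0 with hc
  have e1 : ∀ k : ℤ, ‖∑ b ∈ Icc 1 B, β b * ∑ n ∈ Icc 1 N', zz α ψ S k b n‖ ≤
      β₀ * ∑ b ∈ Icc 1 B, ∑ ν ∈ range (2 * b), c k b ν * ‖Z k b ν‖ := fun k => by
    rw [mul_sum]
    refine (norm_sum_le _ _).trans (sum_le_sum fun b hb => ?_)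
    have b1 := (mem_Icc.1 hb).1
    rw [norm_mul, ← sum_fiberwise_of_maps_to (g := fun n => n % (2 * b)) (t := range (2 * b))
      fun n _ => mem_range.2 (Nat.mod_lt n (by omega))]
    refine mul_le_mul (hβ b) ((norm_sum_le _ _).trans (sum_le_sum fun ν _ => ?_)) (norm_nonneg _) h0
    simp only [hc]
    split_ifs with h
    · rw [one_mul]
    · rw [zero_mul, sum_eq_zero, norm_zero]
      intro n hn
      by_contra hne
      obtain ⟨a, -, h1, -⟩ := zz_ne hne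
      refine h ?_
      have e : (n : ℤ) = 2 * b * (n / (2 * b) : ℕ) + ν := by
        rw [← (mem_filter.1 hn).2]; exact_mod_cast (Nat.div_add_mod n (2 * b)).symm
      exact ⟨a - 4 * b * (n / (2 * b) : ℕ) ^ 2 - 4 * (n / (2 * b) : ℕ) * ν, by
        rw [e] at h1; linear_combination h1⟩
  have e2 : ∑ k ∈ Icc (1 : ℤ) K, ∑ b ∈ Icc 1 B, ∑ ν ∈ range (2 * b), c k b ν ^ 2 ≤ 5 * K * B := by
    rw [sum_comm]
    refine (sum_le_card_nsmul _ _ (5 * K : ℝ) fun b hb => ?_).trans (by simp [mul_comm])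
    have b1 := (mem_Icc.1 hb).1
    have hb' : (0 : ℝ) < b := by exact_mod_cast b1
    have h := (abs_le.1 (count_le b1 (hτ b hb) 0 1 (2 * b) K)).2
    rw [sum_comm]
    simp_rw [sum_Icc_int _ (K := K) (a := 1) (b := K) (by ring)]
    simp only [hc, ite_pow, one_pow, zero_pow two_ne_zero]
    simp only [zero_add] at h
    have : ((2 * b : ℕ) : ℝ) * K / b = 2 * K ∧ ((2 * b : ℕ) : ℝ) / b = 2 := by
      constructor <;> (push_cast; field_simp)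
    rw [this.1, this.2] at h
    linarith
  have e3 : ∀ k ∈ Icc (-(K₁ : ℤ)) K₁, ∀ b ∈ Icc 1 B, ∑ ν ∈ range (2 * b), ‖Z k b ν‖ ^ 2 =
      ∑ n ∈ Icc 1 N', ‖zz α ψ S k b n‖ ^ 2 + 2 * ∑ i ∈ Icc 1 I, ∑ n ∈ Icc 1 N',
        (zz α ψ S k b n * (starRingEnd ℂ) (zz α ψ S k b (n + 2 * b * i))).re := fun k hk b hb => by
    have b1 := (mem_Icc.1 hb).1
    have f1 : ∀ n, zz α ψ S k b n ≠ 0 → n ≤ N' := fun n hn => by
      obtain ⟨a, -, h1, h2⟩ := zz_ne hn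
      have h3 : ((n : ℤ) ^ 2 + k : ℤ) = (a * b : ℝ) := by exact_mod_cast h1
      have h4 : (-(K₁ : ℝ)) ≤ k := by exact_mod_cast (mem_Icc.1 hk).1
      have h5 := (hψ.supp _ h2).2
      push_cast at h3
      have : (n : ℝ) ≤ N' := le_of_pow_le_pow_left₀ two_ne_zero (by positivity) (by linarith)
      exact_mod_cast this
    refine classes_sq _ (by omega) (fun n hn => by_contra fun h => by have := f1 n h; omega)
      fun n i h1 h2 => ?_
    obtain ⟨a, ha, -, h3⟩ := zz_ne h1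
    have h4 : ((2 * b * i : ℕ) : ℝ) ≤ N' := by exact_mod_cast le_of_add_le_right (f1 _ h2)
    have h5 : (a : ℝ) ≤ 3 * A := by exact_mod_cast hS a ha
    have h6 := (hψ.supp _ h3).1
    push_cast at h4
    have : M₀ * i ≤ M₀ * I := by
      calc M₀ * i ≤ (3 * A * b) * i := by
            refine mul_le_mul_of_nonneg_right (h6.trans ?_) (by positivity); gcongr
        _ = 3 * A * (2 * b * i) / 2 := by ring
        _ ≤ 3 * A * N' / 2 := by gcongr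
        _ ≤ _ := by linarith
    exact_mod_cast le_of_mul_le_mul_left this hM₀
  have e4 : ∑ k ∈ Icc (1 : ℤ) K, ∑ b ∈ Icc 1 B, ∑ ν ∈ range (2 * b), ‖Z k b ν‖ ^ 2 ≤
      25 * (α₀ ^ 2 * Cnt K₁ B N' + 2 * ∑ i ∈ Icc 1 I, ‖OO α ψ S K K₁ B N' i‖) := by
    calc _ ≤ ∑ k ∈ Icc (1 : ℤ) K, 25 * (gau K k *
          ∑ b ∈ Icc 1 B, ∑ ν ∈ range (2 * b), ‖Z k b ν‖ ^ 2) := by
          refine sum_le_sum fun k hk => ?_
          rw [← mul_assoc]
          refine le_mul_of_one_le_left (by positivity) (one_le_gau hK' ?_)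
          have := mem_Icc.1 hk
          exact_mod_cast abs_le.2 ⟨by omega, this.2⟩
      _ ≤ ∑ k ∈ Icc (-(K₁ : ℤ)) K₁, 25 * (gau K k *
          ∑ b ∈ Icc 1 B, ∑ ν ∈ range (2 * b), ‖Z k b ν‖ ^ 2) :=
          sum_le_sum_of_subset_of_nonneg (Icc_subset_Icc (by omega) (by omega))
            fun k _ _ => by have := gau_pos K k; positivity
      _ ≤ _ := by
          rw [← mul_sum, sum_congr rfl fun k hk => by rw [sum_congr rfl (e3 k hk)]]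
          refine mul_le_mul_of_nonneg_left ?_ (by norm_num)
          simp only [sum_add_distrib, mul_add]
          refine add_le_add ?_ ?_
          · simp only [Cnt, mul_sum]
            refine sum_le_sum fun k _ => sum_le_sum fun b hb => sum_le_sum fun n _ => ?_
            refine (mul_le_of_le_one_left (by positivity) (gau_le_one _ _)).trans ?_
            refine (pow_le_pow_left₀ (norm_nonneg _) (norm_zz_le hψ hα S k (mem_Icc.1 hb).1 n)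
              2).trans (le_of_eq ?_)
            split_ifs <;> simp
          · refine le_trans (le_of_eq ?_) (mul_le_mul_of_nonneg_left
              (sum_le_sum fun i _ => Complex.re_le_norm (OO α ψ S K K₁ B N' i)) zero_le_two)
            simp only [OO, Complex.re_sum, Complex.re_ofReal_mul, ← mul_sum]
            rw [sum_comm, mul_sum]
            refine sum_congr rfl fun k _ => ?_
            rw [← mul_sum, sum_comm]; ring
  have cs : (∑ k ∈ Icc (1 : ℤ) K, ∑ b ∈ Icc 1 B, ∑ ν ∈ range (2 * b), c k b ν * ‖Z k b ν‖) ^ 2 ≤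
      (∑ k ∈ Icc (1 : ℤ) K, ∑ b ∈ Icc 1 B, ∑ ν ∈ range (2 * b), c k b ν ^ 2) *
      ∑ k ∈ Icc (1 : ℤ) K, ∑ b ∈ Icc 1 B, ∑ ν ∈ range (2 * b), ‖Z k b ν‖ ^ 2 := by
    simp only [sum_sigma']
    exact sum_mul_sq_le_sq_mul_sq _ _ _
  calc _ ≤ (∑ k ∈ Icc (1 : ℤ) K, β₀ *
        ∑ b ∈ Icc 1 B, ∑ ν ∈ range (2 * b), c k b ν * ‖Z k b ν‖) ^ 2 := by
        gcongr with k; exact e1 k
    _ ≤ _ := by
        rw [← mul_sum, mul_pow, mul_assoc]
        refine mul_le_mul_of_nonneg_left (cs.trans ?_) (by positivity)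
        exact mul_le_mul e2 e4 (by positivity) (by positivity)

end Pool.Agent.Work.MP_51e72e_nt.QA
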