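import Pool.Agent.Work.MP_51e72e_nt.QADisp

noncomputable section
open Finset Real
open Pool.Agent.Lib.LargeSieve

namespace Pool.Agent.Work.MP_51e72e_nt.QA

lemma OO_eq (α : ℕ → ℂ) (ψ : ℝ → ℝ) (S : Finset ℕ) (K : ℝ) (K₁ B N' i : ℕ) :
    OO α ψ S K K₁ B N' i = ∑ a ∈ S, ∑ a' ∈ S, α a * (starRingEnd ℂ) (α a') *
      ((∑ b ∈ Icc 1 B, ∑ p ∈ Sol K₁ N' i a a' b, gau K p.1 * (ψ (a * b) * ψ (a' * b)) : ℝ) : ℂ) := by
  have e : ∀ (k : ℤ) (b n : ℕ),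
      gau K k * (zz α ψ S k b n * (starRingEnd ℂ) (zz α ψ S k b (n + 2 * b * i))) =
      ∑ a ∈ S, ∑ a' ∈ S, α a * (starRingEnd ℂ) (α a') *
        ((if (n : ℤ) ^ 2 + k = a * b ∧ ((n + 2 * b * i : ℕ) : ℤ) ^ 2 + k = a' * b then
          gau K k * (ψ (a * b) * ψ (a' * b)) else 0 : ℝ) : ℂ) := fun k b n => by
    rw [zz, zz, map_sum, sum_mul_sum, mul_sum]
    refine sum_congr rfl fun a _ => ?_
    rw [mul_sum]
    refine sum_congr rfl fun a' _ => ?_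
    rw [ite_and]
    split_ifs <;> simp
    ring
  simp only [OO, e, Sol, sum_filter, sum_product, Complex.ofReal_sum, mul_sum]
  rw [sum_comm]
  simp_rw [sum_comm (s := Icc 1 N') (t := S), sum_comm (s := Icc (-(K₁ : ℤ)) K₁) (t := S),
    sum_comm (s := Icc 1 B) (t := S)]

lemma sum_Sol_le (S : Finset ℕ) (K₁ B N' i : ℕ) :
    ∑ a ∈ S, ∑ a' ∈ S, ∑ b ∈ Icc 1 B, ((Sol K₁ N' i a a' b).card : ℝ) ≤ Cnt K₁ B N' := by
  simp only [Sol, card_filter, sum_product, Nat.cast_sum, Nat.cast_ite, Nat.cast_one, Nat.cast_zero]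
  rw [Cnt, sum_comm (s := Icc (-(K₁ : ℤ)) K₁)]
  simp_rw [← sum_comm (s := Icc 1 B) (t := S), ← sum_comm (s := Icc (-(K₁ : ℤ)) K₁) (t := S),
    ← sum_comm (s := Icc 1 N') (t := S)]
  refine sum_le_sum fun b hb => sum_le_sum fun k _ => sum_le_sum fun n _ => ?_
  have b1 := (mem_Icc.1 hb).1
  refine le_trans (sum_le_sum fun a _ => ?_) (sum_ind_le S _ b1)
  simp only [ite_and]
  split_ifs
  · exact (sum_ind_le S _ b1).trans (by split_ifs <;> norm_num)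
  · simp

/-- the zero frequency -/
def ZZ (α : ℕ → ℂ) (i A₁ A₂ ℓ : ℕ) : ℂ :=
  ∑ a ∈ Ico A₁ (A₁ + ℓ), ∑ a' ∈ Ico A₂ (A₂ + ℓ),
    if ((4 * i : ℕ) : ℤ) ∣ (a' : ℤ) - a then α a * (starRingEnd ℂ) (α a') else 0

lemma cell_bound {ψ : ℝ → ℝ} {M₀ M₁ Λ α₀ : ℝ} (hψ : Wt ψ M₀ M₁ Λ) {α : ℕ → ℂ}
    (hα : ∀ a, ‖α a‖ ≤ α₀) {A ℓ A₁ A₂ i K₁ N' B H : ℕ} {K L D Eb : ℝ} (hA : 0 < A) (hi : 0 < i)
    (hℓ : 0 < ℓ) (hK : 0 < K) (hKA : K ≤ A) (hL : 1 ≤ L) (h1 : A ≤ A₁) (h4 : A₁ + ℓ ≤ 3 * A)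
    (h5 : A ≤ A₂) (h8 : A₂ + ℓ ≤ 3 * A) (hc : A₁ = A₂ ∨ A₁ + ℓ ≤ A₂ ∨ A₂ + ℓ ≤ A₁)
    (hiL : (i : ℝ) ^ 2 * L ≤ A) (hK₁ : 4 * K * L ≤ K₁) (hD : 3 * K * L + 4 * A * ℓ / i ^ 2 ≤ D)
    (hM : (i * (K / A * L)) ^ 2 + 4 * K * L + D < M₀) (hN : M₁ + D + 4 * K * L ≤ (N' : ℝ) ^ 2)
    (hB : M₁ + D ≤ A * B) (hH : 3 * A * L ≤ K * H) (hEb0 : 0 ≤ Eb)
    (hEb : 1600000 * ℓ * (H * A / i) *
      (120 * (ℓ * (i * L * HH H + H * L + H ^ 2 / i ^ 2) + L * H ^ 3)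
        + (2 * H * ℓ) ^ 2 * Real.exp (-(2 * L ^ 2))) ≤ Eb ^ 2) :
    ‖∑ a ∈ Ico A₁ (A₁ + ℓ), ∑ a' ∈ Ico A₂ (A₂ + ℓ), α a * (starRingEnd ℂ) (α a') *
      ((∑ b ∈ Icc 1 B, ∑ p ∈ Sol K₁ N' i a a' b, gau K p.1 * (ψ (a * b) * ψ (a' * b)) : ℝ) : ℂ)‖
      ≤ K / A * (‖ZZ α i A₁ A₂ ℓ‖ + α₀ ^ 2 * Eb) + α₀ ^ 2 *
        ((2 * Λ * D + 22 * L ^ 2 * (2 * ℓ + i ^ 2 * (K / A * L)) / A) *
          ∑ a ∈ Ico A₁ (A₁ + ℓ), ∑ a' ∈ Ico A₂ (A₂ + ℓ), ∑ b ∈ Icc 1 B,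
            ((Sol K₁ N' i a a' b).card : ℝ) + 72 * ℓ ^ 2 * Real.exp (-(2 * L ^ 2))) := by
  have h0 : 0 ≤ α₀ := (norm_nonneg _).trans (hα 0)
  have hA' : (0 : ℝ) < A := by exact_mod_cast hA
  have hδ : K / A ≤ 1 := (div_le_one hA').2 hKA
  have hH0 : 0 < H := by
    by_contra h
    rw [show H = 0 by omega, Nat.cast_zero, mul_zero] at hH
    nlinarith
  have hiδ : i ^ 2 * (K / A * L) ≤ A := by
    refine le_trans (mul_le_mul_of_nonneg_left ?_ (sq_nonneg _)) hiL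
    exact mul_le_of_le_one_left (by linarith) hδ
  have hP1 : (A : ℝ) ≤ √(A₁ : ℝ) * √(A₂ : ℝ) := by
    rw [← Real.sqrt_mul (by positivity)]
    refine Real.le_sqrt_of_sq_le ?_
    rw [sq]; gcongr
  have hP2 : √(A₁ : ℝ) * √(A₂ : ℝ) ≤ 3 * A := by
    rw [← Real.sqrt_mul (by positivity)]
    refine Real.sqrt_le_iff.2 ⟨by positivity, ?_⟩
    rw [sq]
    have : ∀ {x : ℕ}, x + ℓ ≤ 3 * A → (x : ℝ) ≤ 3 * A := fun h => by
      exact_mod_cast le_of_add_le_left h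
    exact mul_le_mul (this h4) (this h8) (by positivity) (by positivity)
  have hP0 := hA'.trans_le hP1
  set ε := 2 * Λ * D + 22 * L ^ 2 * (2 * ℓ + i ^ 2 * (K / A * L)) / A with hε
  set δ' := K / (√(A₁ : ℝ) * √(A₂ : ℝ)) with hδ'
  set E := Real.exp (-(2 * L ^ 2)) with hE
  have hE0 : 0 < E := Real.exp_pos _
  have d0 : 0 < δ' := div_pos hK hP0
  have d1 : δ' ≤ K / A := by rw [hδ']; gcongr
  have d2 : L ≤ δ' * H := by
    rw [hδ', div_mul_eq_mul_div, le_div_iff₀ hP0]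
    nlinarith
  have q0 : 0 ≤ psi0 ψ i A₁ A₂ := by
    unfold psi0; split_ifs
    exacts [mul_nonneg (hψ.nn _) (hψ.nn _), le_rfl]
  have q1 : psi0 ψ i A₁ A₂ ≤ 1 := by
    unfold psi0; split_ifs
    exacts [mul_le_one₀ (hψ.le1 _) (hψ.nn _) (hψ.le1 _), zero_le_one]
  have key : ∀ a ∈ Ico A₁ (A₁ + ℓ), ∀ a' ∈ Ico A₂ (A₂ + ℓ),
      ‖((∑ b ∈ Icc 1 B, ∑ p ∈ Sol K₁ N' i a a' b, gau K p.1 * (ψ (a * b) * ψ (a' * b)) : ℝ) : ℂ)
        - (if ((4 * i : ℕ) : ℤ) ∣ (a' : ℤ) - a then ((psi0 ψ i A₁ A₂ * δ' : ℝ) : ℂ) *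
          (1 + ∑ h ∈ HS H, gau δ'⁻¹ h * ee (h * bet i a a')) else 0)‖
        ≤ ε * ∑ b ∈ Icc 1 B, ((Sol K₁ N' i a a' b).card : ℝ) + 72 * E := fun a ha a' ha' => by
    obtain ⟨a1, a2⟩ := mem_Ico.1 ha
    obtain ⟨a3, a4⟩ := mem_Ico.1 ha'
    have p1 : ∀ b ∈ Icc 1 B, _ := fun b hb => pointwise hψ hA hi (mem_Icc.1 hb).1 hK
      (by linarith) h1 a1 a2.le h4 h5 a3 a4.le h8 (by omega) (by omega) hiδ hK₁ hD hM hN
    set s : Finset ℤ := (Icc 1 B).image Nat.cast with hs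
    have es : ∀ {M : Type} [AddCommMonoid M] (f : ℤ → M), ∑ b ∈ s, f b = ∑ b ∈ Icc 1 B, f b :=
      fun f => sum_image fun _ _ _ _ h => by exact_mod_cast h
    have p2 := sum_gau_int s (σ := 2 * (K / A)) (by positivity) (bet i a a')
    rw [es] at p2
    have p3 : |∑ b ∈ Icc 1 B, ∑ p ∈ Sol K₁ N' i a a' b, gau K p.1 * (ψ (a * b) * ψ (a' * b)) -
        if ((4 * i : ℕ) : ℤ) ∣ (a' : ℤ) - a then
          psi0 ψ i A₁ A₂ * ∑ b ∈ Icc 1 B, gau δ' (b - bet i a a') else 0|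
        ≤ ε * ∑ b ∈ Icc 1 B, ((Sol K₁ N' i a a' b).card : ℝ) + 36 * E := by
      have : (if ((4 * i : ℕ) : ℤ) ∣ (a' : ℤ) - a then
          psi0 ψ i A₁ A₂ * ∑ b ∈ Icc 1 B, gau δ' (b - bet i a a') else 0) =
          ∑ b ∈ Icc 1 B, if ((4 * i : ℕ) : ℤ) ∣ (a' : ℤ) - a then
            psi0 ψ i A₁ A₂ * gau δ' (b - bet i a a') else 0 := by
        split_ifs <;> simp [mul_sum]
      rw [this, ← sum_sub_distrib]
      refine (abs_sum_le_sum_abs _ _).trans ((sum_le_sum p1).trans ?_)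
      rw [sum_add_distrib, ← mul_sum, ← mul_sum]
      simp only [Int.cast_natCast] at p2
      nlinarith
    have p4 : ‖((if ((4 * i : ℕ) : ℤ) ∣ (a' : ℤ) - a then
          psi0 ψ i A₁ A₂ * ∑ b ∈ Icc 1 B, gau δ' (b - bet i a a') else 0 : ℝ) : ℂ) -
        (if ((4 * i : ℕ) : ℤ) ∣ (a' : ℤ) - a then ((psi0 ψ i A₁ A₂ * δ' : ℝ) : ℂ) *
          (1 + ∑ h ∈ HS H, gau δ'⁻¹ h * ee (h * bet i a a')) else 0)‖ ≤ 36 * E := by
      split_ifs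
      swap
      · simp; positivity
      by_cases hz : psi0 ψ i A₁ A₂ = 0
      · simp [hz]; positivity
      have p5 := poisson_trunc d0 (d1.trans hδ) (by linarith) (bet i a a') s (fun b hb => by
        obtain ⟨g1, -, -⟩ := geom_close hA hi h1 a1 a2.le h4 h5 a3 a4.le h8
        unfold psi0 at hz
        have k1 : A₁ ≤ A₂ := by by_contra hh; exact hz (if_neg hh)
        rw [if_pos k1] at hz
        obtain ⟨s1, s2⟩ := hψ.supp _ (left_ne_zero_of_mul hz)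
        have k2 : |b - bet i A₁ A₂| ≤ K / A * L + ℓ / i ^ 2 := by
          have := abs_add_le (b - bet i a a') (bet i a a' - bet i A₁ A₂)
          rw [sub_add_sub_cancel] at this
          have := mul_le_mul_of_nonneg_right d1 (by linarith : 0 ≤ L)
          linarith
        have k3 : (A : ℝ) ≤ A₁ := by exact_mod_cast h1
        have k4 : |A₁ * b - A₁ * bet i A₁ A₂| ≤ D := by
          rw [← mul_sub, abs_mul, Nat.abs_cast]
          calc _ ≤ 3 * A * (K / A * L + ℓ / i ^ 2) := by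
                gcongr; exact_mod_cast le_of_add_le_left h4
            _ = 3 * K * L + 3 * (A * ℓ / i ^ 2) := by field_simp
            _ ≤ 3 * K * L + 4 * (A * ℓ / i ^ 2) := by gcongr; norm_num
            _ ≤ D := by rw [← mul_div_assoc, ← mul_assoc]; exact hD
        obtain ⟨k5, k6⟩ := abs_le.1 k4
        have k7 : (0 : ℝ) < b := by
          refine pos_of_mul_pos_right (a := (A₁ : ℝ)) ?_ (by positivity)
          have : 0 ≤ (i * (K / A * L)) ^ 2 + 4 * K * L := by positivity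
          linarith
        have k8 : (b : ℝ) ≤ B := by
          refine le_of_mul_le_mul_left ?_ hA'
          nlinarith
        have k9 : 0 < b := by exact_mod_cast k7
        have k10 : b ≤ B := by exact_mod_cast k8
        exact mem_image.2 ⟨b.toNat, mem_Icc.2 ⟨by omega, by omega⟩, by omega⟩) H d2
      rw [es, ← add_sum_erase _ _ (mem_Icc.2 ⟨by omega, by omega⟩ : (0 : ℤ) ∈ Icc (-(H : ℤ)) H)]
        at p5
      push_cast
      rw [mul_assoc, ← mul_sub, norm_mul, Complex.norm_real, Real.norm_of_nonneg q0]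
      refine (mul_le_of_le_one_left (norm_nonneg _) q1).trans (le_of_eq_of_le ?_ p5)
      simp [HS, gau, ee]
    rw [← Real.norm_eq_abs, ← Complex.norm_real, Complex.ofReal_sub] at p3
    exact (norm_sub_le_norm_sub_add_norm_sub _ _ _).trans ((add_le_add p3 p4).trans (by linarith))
  have eb := E_bound hA hi hL hℓ hH0 h1 h4 h5 h8 hiL α (fun a => (starRingEnd ℂ) (α a)) hα
    (fun a => by rw [Complex.norm_conj]; exact hα a) (fun h => gau δ'⁻¹ h) fun h => by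
      rw [Complex.norm_real, Real.norm_of_nonneg (gau_pos _ _).le]; exact gau_le_one _ _
  set Es := ∑ a ∈ Ico A₁ (A₁ + ℓ), ∑ a' ∈ Ico A₂ (A₂ + ℓ), if ((4 * i : ℕ) : ℤ) ∣ (a' : ℤ) - a then
      α a * (starRingEnd ℂ) (α a') * ∑ h ∈ HS H, (gau δ'⁻¹ h : ℂ) * ee (h * bet i a a') else 0
    with hEs
  have eb2 : ‖Es‖ ≤ α₀ ^ 2 * Eb := by
    refine le_of_pow_le_pow_left₀ two_ne_zero (by positivity) (eb.trans ?_)
    rw [mul_pow (α₀ ^ 2)]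
    refine le_trans (le_of_eq ?_) (mul_le_mul_of_nonneg_left hEb (by positivity))
    ring
  have m1 : ((psi0 ψ i A₁ A₂ * δ' : ℝ) : ℂ) * (ZZ α i A₁ A₂ ℓ + Es) =
      ∑ a ∈ Ico A₁ (A₁ + ℓ), ∑ a' ∈ Ico A₂ (A₂ + ℓ), α a * (starRingEnd ℂ) (α a') *
        (if ((4 * i : ℕ) : ℤ) ∣ (a' : ℤ) - a then ((psi0 ψ i A₁ A₂ * δ' : ℝ) : ℂ) *
          (1 + ∑ h ∈ HS H, gau δ'⁻¹ h * ee (h * bet i a a')) else 0) := by
    simp only [ZZ, hEs, ← sum_add_distrib]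
    rw [mul_sum]
    refine sum_congr rfl fun a _ => ?_
    rw [mul_sum]
    refine sum_congr rfl fun a' _ => ?_
    split_ifs <;> ring
  refine (norm_le_insert' _ (((psi0 ψ i A₁ A₂ * δ' : ℝ) : ℂ) * (ZZ α i A₁ A₂ ℓ + Es))).trans
    (add_le_add ?_ ?_)
  · rw [norm_mul, Complex.norm_real, Real.norm_of_nonneg (by positivity)]
    exact mul_le_mul ((mul_le_of_le_one_left d0.le q1).trans d1)
      ((norm_add_le _ _).trans (by gcongr)) (norm_nonneg _) (by positivity)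
  · rw [m1]
    simp only [← sum_sub_distrib, ← mul_sub]
    calc _ ≤ ∑ a ∈ Ico A₁ (A₁ + ℓ), ∑ a' ∈ Ico A₂ (A₂ + ℓ), α₀ ^ 2 *
          (ε * ∑ b ∈ Icc 1 B, ((Sol K₁ N' i a a' b).card : ℝ) + 72 * E) := by
          refine (norm_sum_le _ _).trans (sum_le_sum fun a ha => (norm_sum_le _ _).trans
            (sum_le_sum fun a' ha' => ?_))
          rw [norm_mul, norm_mul, Complex.norm_conj, sq]
          exact mul_le_mul (mul_le_mul (hα _) (hα _) (norm_nonneg _) h0) (key a ha a' ha')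
            (norm_nonneg _) (by positivity)
      _ = _ := by
          simp only [← mul_sum, sum_add_distrib, sum_const, Nat.card_Ico, Nat.add_sub_cancel_left,
            nsmul_eq_mul]
          ring

theorem OO_bound {ψ : ℝ → ℝ} {M₀ M₁ Λ α₀ : ℝ} (hψ : Wt ψ M₀ M₁ Λ) {α : ℕ → ℂ}
    (hα : ∀ a, ‖α a‖ ≤ α₀) {A ℓ R i K₁ N' B H : ℕ} {K L D Eb : ℝ} (hA : 0 < A) (hi : 0 < i)
    (hℓ : 0 < ℓ) (hK : 0 < K) (hKA : K ≤ A) (hL : 1 ≤ L) (hR : R * ℓ ≤ 2 * A)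
    (hiL : (i : ℝ) ^ 2 * L ≤ A) (hK₁ : 4 * K * L ≤ K₁) (hD : 3 * K * L + 4 * A * ℓ / i ^ 2 ≤ D)
    (hM : (i * (K / A * L)) ^ 2 + 4 * K * L + D < M₀) (hN : M₁ + D + 4 * K * L ≤ (N' : ℝ) ^ 2)
    (hB : M₁ + D ≤ A * B) (hH : 3 * A * L ≤ K * H) (hEb0 : 0 ≤ Eb)
    (hEb : 1600000 * ℓ * (H * A / i) *
      (120 * (ℓ * (i * L * HH H + H * L + H ^ 2 / i ^ 2) + L * H ^ 3)
        + (2 * H * ℓ) ^ 2 * Real.exp (-(2 * L ^ 2))) ≤ Eb ^ 2) :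
    ‖OO α ψ (Ico A (A + R * ℓ)) K K₁ B N' i‖ ≤
      K / A * ∑ r ∈ range R, ∑ r' ∈ range R, ‖ZZ α i (A + r * ℓ) (A + r' * ℓ) ℓ‖ + α₀ ^ 2 *
        (K / A * R ^ 2 * Eb + (2 * Λ * D + 22 * L ^ 2 * (2 * ℓ + i ^ 2 * (K / A * L)) / A) *
          Cnt K₁ B N' + 72 * (R * ℓ) ^ 2 * Real.exp (-(2 * L ^ 2))) := by
  have hD0 : 0 ≤ D := le_trans (by positivity) hD
  have hΛ := hψ.lam_nonneg
  have c := sum_Sol_le (Ico A (A + R * ℓ)) K₁ B N' i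
  rw [OO_eq]
  simp only [sum_cells _ A ℓ R] at c ⊢
  simp_rw [sum_comm (t := range R) (s := Ico _ _)] at c ⊢
  have b : ∀ r ∈ range R, A + r * ℓ + ℓ ≤ 3 * A := fun r hr => by
    have := Nat.mul_le_mul_right ℓ (mem_range.1 hr)
    rw [Nat.succ_mul] at this; omega
  refine (norm_sum_le _ _).trans ((sum_le_sum fun r hr => (norm_sum_le _ _).trans
    (sum_le_sum fun r' hr' => cell_bound hψ hα hA hi hℓ hK hKA hL (by omega) (b r hr) (by omega)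
      (b r' hr') ?_ hiL hK₁ hD hM hN hB hH hEb0 hEb)).trans ?_)
  · rcases lt_trichotomy r r' with h | h | h
    · have := Nat.mul_le_mul_right ℓ h
      rw [Nat.succ_mul] at this; omega
    · simp [h]
    · have := Nat.mul_le_mul_right ℓ h
      rw [Nat.succ_mul] at this; omega
  · simp only [← mul_sum, sum_add_distrib, sum_const, card_range, nsmul_eq_mul]
    have := mul_le_mul_of_nonneg_left c (by positivity :
      0 ≤ α₀ ^ 2 * (2 * Λ * D + 22 * L ^ 2 * (2 * ℓ + i ^ 2 * (K / A * L)) / A))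
    linarith

end Pool.Agent.Work.MP_51e72e_nt.QA
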