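import Pool.Agent.Work.MP_51e72e_nt.QAFlat

noncomputable section
open Finset Real
open Pool.Agent.Lib.LargeSieve

namespace Pool.Agent.Work.MP_51e72e_nt.QA

lemma lg {x y : ℝ} (hx : 0 < x) (hy : 0 < y) (h : Real.log x ≤ Real.log y) : x ≤ y :=
  (Real.log_le_log_iff hx hy).1 h

/-- size hypotheses in logarithmic form -/
structure Sz (A N K q L : ℝ) : Prop where
  A0 : 0 < A
  N0 : 0 < N
  K0 : 0 < K
  q0 : 0 < q
  L0 : 0 < L
  L10 : 10 ≤ L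
  NL : Real.log N ≤ L
  two : 0 < Real.log 2
  lq : 10 * Real.log 2 ≤ Real.log q
  lL0 : 0 ≤ Real.log L
  lL : Real.log L ≤ Real.log q
  lK : Real.log K ≤ Real.log N
  l1 : Real.log N + 5 * Real.log q ≤ Real.log A
  l2 : 2 * Real.log A + 200 * Real.log q ≤ 2 * Real.log K + Real.log N
  l3 : Real.log A + Real.log N + 200 * Real.log q ≤ 3 * Real.log K

lemma HH_le_of {n : ℕ} {N L : ℝ} (k : ℕ) (hL : 1 ≤ L) (hNL : Real.log N ≤ L)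
    (h : n ≤ N ^ k) : HH n ≤ (k + 1) * L := by
  refine (HH_le n).trans ?_
  have : Real.log n ≤ k * L := by
    rcases n.eq_zero_or_pos with rfl | h0
    · simp; positivity
    · refine (Real.log_le_log (by exact_mod_cast h0) h).trans ?_
      rw [Real.log_pow]; gcongr
  linarith

lemma num_E {A N K q L i ℓ H h : ℝ} (S : Sz A N K q L) (i1 : A / (N * q ^ 5) ≤ i)
    (i2 : i ≤ 4 * A * q / N) (l0 : 0 ≤ ℓ) (l1 : ℓ ≤ A) (H0 : 0 ≤ H) (H1 : H ≤ 4 * A * L / K)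
    (h0 : 0 ≤ h) (h1 : h ≤ 4 * L) :
    1600000 * ℓ * (H * A / i) * (120 * (ℓ * (i * L * h + H * L + H ^ 2 / i ^ 2) + L * H ^ 3)
      + (2 * H * ℓ) ^ 2 * Real.exp (-(2 * L ^ 2))) ≤ (A * N / q ^ 40) ^ 2 := by
  obtain ⟨A0, N0, K0, q0, L0, L10, NL, two, lq, lL0, lL, lK, l1', l2, l3⟩ := S
  have i0 : 0 < A / (N * q ^ 5) := by positivity
  have hE : Real.log (Real.exp (-(2 * L ^ 2))) ≤ -20 * Real.log N := by
    rw [Real.log_exp]; nlinarith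
  have hE0 := Real.exp_pos (-(2 * L ^ 2))
  generalize Real.exp (-(2 * L ^ 2)) = E at *
  calc _ ≤ 2 ^ 21 * A * ((4 * A * L / K) * A / (A / (N * q ^ 5))) * (2 ^ 7 * (A *
        ((4 * A * q / N) * L * (4 * L) + (4 * A * L / K) * L + (4 * A * L / K) ^ 2 /
          (A / (N * q ^ 5)) ^ 2) + L * (4 * A * L / K) ^ 3) + (2 * (4 * A * L / K) * A) ^ 2 * E) := by
        have := i0.trans_le i1
        gcongr <;> norm_num
    _ = 2 ^ 34 * A ^ 4 * L ^ 3 * q ^ 6 / K + 2 ^ 32 * A ^ 4 * L ^ 3 * N * q ^ 5 / K ^ 2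
        + 2 ^ 34 * A ^ 3 * L ^ 3 * N ^ 3 * q ^ 15 / K ^ 3 + 2 ^ 36 * A ^ 5 * L ^ 5 * N * q ^ 5 / K ^ 4
        + 2 ^ 29 * A ^ 6 * L ^ 3 * N * q ^ 5 * E / K ^ 3 := by field_simp; ring
    _ ≤ (A * N / q ^ 40) ^ 2 / 2 ^ 3 + (A * N / q ^ 40) ^ 2 / 2 ^ 3 + (A * N / q ^ 40) ^ 2 / 2 ^ 3
        + (A * N / q ^ 40) ^ 2 / 2 ^ 3 + (A * N / q ^ 40) ^ 2 / 2 ^ 3 := by
        refine add_le_add (add_le_add (add_le_add (add_le_add ?_ ?_) ?_) ?_) ?_ <;>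
        · refine lg (by positivity) (by positivity) ?_
          simp (disch := positivity) only [Real.log_mul, Real.log_div, Real.log_pow]
          push_cast; linarith
    _ ≤ _ := by linarith [sq_nonneg (A * N / q ^ 40)]

lemma num_D {A N K q L i ℓ Λ M₀ : ℝ} (S : Sz A N K q L) (i1 : A / (N * q ^ 5) ≤ i)
    (i2 : i ≤ 4 * A * q / N) (l0 : 0 ≤ ℓ) (l1 : ℓ ≤ 2 * A / q ^ 17)
    (hΛ : Λ * N ^ 2 ≤ q) (hM : N ^ 2 ≤ q * M₀) :
    i ^ 2 * L ≤ A ∧ 3 * K * L + 4 * A * ℓ / i ^ 2 ≤ 9 * N ^ 2 / q ^ 7 ∧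
      (i * (K / A * L)) ^ 2 + 4 * K * L + 9 * N ^ 2 / q ^ 7 < M₀ ∧
      9 * N ^ 2 / q ^ 7 + 5 * K * L ≤ N ^ 2 ∧
      2 * Λ * (9 * N ^ 2 / q ^ 7) + 22 * L ^ 2 * (2 * ℓ + i ^ 2 * (K / A * L)) / A ≤ 20 / q ^ 6 := by
  obtain ⟨A0, N0, K0, q0, L0, L10, NL, two, lq, lL0, lL, lK, l1', l2, l3⟩ := S
  have i0 : 0 < A / (N * q ^ 5) := by positivity
  have i3 := i0.trans_le i1
  have f : 2 ^ 4 * A ^ 2 * q ^ 2 * L / N ^ 2 ≤ A ∧ 2 ^ 3 * K * L ≤ N ^ 2 / q ^ 7 ∧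
      2 ^ 4 * q ^ 2 * K ^ 2 * L ^ 2 / N ^ 2 ≤ N ^ 2 / q ^ 7 ∧ 2 ^ 4 * (N ^ 2 / q ^ 7) ≤ N ^ 2 / q ∧
      2 ^ 4 * (N ^ 2 / q ^ 7) ≤ N ^ 2 ∧ 2 ^ 7 * L ^ 2 / q ^ 17 ≤ 1 / q ^ 6 ∧
      2 ^ 9 * L ^ 3 * q ^ 2 * K / N ^ 2 ≤ 1 / q ^ 6 := by
    refine ⟨?_, ?_, ?_, ?_, ?_, ?_, ?_⟩ <;>
    · refine lg (by positivity) (by positivity) ?_
      simp (disch := positivity) only [Real.log_mul, Real.log_div, Real.log_pow, Real.log_one]
      push_cast; linarith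
  obtain ⟨f1, f2, f3, f4, f5, f6, f7⟩ := f
  have kl : 0 < K * L := by positivity
  have n7 : 0 < N ^ 2 / q ^ 7 := by positivity
  have e9 : 9 * N ^ 2 / q ^ 7 = 9 * (N ^ 2 / q ^ 7) := by ring
  refine ⟨?_, ?_, ?_, by linarith, ?_⟩
  · calc _ ≤ (4 * A * q / N) ^ 2 * L := by gcongr
      _ = _ := by ring
      _ ≤ A := f1
  · have : 4 * A * ℓ / i ^ 2 ≤ 8 * (N ^ 2 / q ^ 7) :=
      calc _ ≤ 4 * A * (2 * A / q ^ 17) / (A / (N * q ^ 5)) ^ 2 := by gcongr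
        _ = _ := by field_simp; ring
    linarith
  · have : (i * (K / A * L)) ^ 2 ≤ N ^ 2 / q ^ 7 :=
      calc _ ≤ (4 * A * q / N * (K / A * L)) ^ 2 := by gcongr
        _ = _ := by field_simp; ring
        _ ≤ _ := f3
    have : N ^ 2 / q ≤ M₀ := by rw [div_le_iff₀ q0]; linarith
    linarith
  · have g1 : 2 * Λ * (9 * N ^ 2 / q ^ 7) ≤ 18 * (1 / q ^ 6) :=
      calc _ = 18 * (Λ * N ^ 2) / q ^ 7 := by ring
        _ ≤ 18 * q / q ^ 7 := by gcongr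
        _ = _ := by field_simp
    have g2 : 22 * L ^ 2 * (2 * ℓ + i ^ 2 * (K / A * L)) / A ≤
        2 ^ 7 * L ^ 2 / q ^ 17 + 2 ^ 9 * L ^ 3 * q ^ 2 * K / N ^ 2 :=
      calc _ ≤ 32 * L ^ 2 * (2 * (2 * A / q ^ 17) + (4 * A * q / N) ^ 2 * (K / A * L)) / A := by
            gcongr; norm_num
        _ = _ := by field_simp; ring
    have : 20 / q ^ 6 = 20 * (1 / q ^ 6) := by ring
    linarith

lemma num_Z {A N K q L X ℓ h h' : ℝ} (S : Sz A N K q L) (X0 : 0 ≤ X) (X1 : X ≤ 16 * A * q / N)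
    (l0 : A / q ^ 17 ≤ ℓ) (l1 : ℓ ≤ 2 * A / q ^ 17) (h1 : h ≤ 2 * L) (h0' : 0 ≤ h')
    (h1' : h' ≤ 3 * L) :
    (q ^ 17) ^ 2 * h * (X * q ^ 8 + 2 * (ℓ + X ^ 2 * h') * ℓ / q + 2 * X ^ 5 * q ^ 4)
      ≤ 36 * L * A ^ 2 / q := by
  obtain ⟨A0, N0, K0, q0, L0, L10, NL, two, lq, lL0, lL, lK, l1', l2, l3⟩ := S
  have f : (2 ^ 4 * A * q / N) ^ 2 * (2 ^ 2 * L) ≤ A / q ^ 17 ∧
      2 ^ 4 * A * q / N * q ^ 8 ≤ A ^ 2 / q ^ 35 ∧
      2 * (2 ^ 4 * A * q / N) ^ 5 * q ^ 4 ≤ A ^ 2 / q ^ 35 := by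
    refine ⟨?_, ?_, ?_⟩ <;>
    · refine lg (by positivity) (by positivity) ?_
      simp (disch := positivity) only [Real.log_mul, Real.log_div, Real.log_pow]
      push_cast; linarith
  obtain ⟨f1, f2, f3⟩ := f
  have l2 : 0 ≤ ℓ := le_trans (by positivity) l0
  rw [show (16 : ℝ) = 2 ^ 4 by norm_num] at X1
  have g1 : X ^ 2 * h' ≤ 2 * A / q ^ 17 :=
    calc _ ≤ (2 ^ 4 * A * q / N) ^ 2 * (2 ^ 2 * L) := by gcongr; linarith
      _ ≤ ℓ := f1.trans l0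
      _ ≤ _ := l1
  calc _ ≤ (q ^ 17) ^ 2 * (2 * L) * (A ^ 2 / q ^ 35 + 2 * (2 * A / q ^ 17 + 2 * A / q ^ 17) *
        (2 * A / q ^ 17) / q + A ^ 2 / q ^ 35) := by
        gcongr
        · exact le_trans (by gcongr) f2
        · exact le_trans (by gcongr) f3
    _ = _ := by field_simp; ring

/-- the kernel detecting the values of the quadratic polynomial -/
def k1 (ψ : ℝ → ℝ) (N : ℕ) (k : ℤ) (m : ℕ) : ℂ :=
  ψ m * ∑ n ∈ Icc 1 N, if (n : ℤ) ^ 2 + k = m then 1 else 0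

theorem disp {ψ : ℝ → ℝ} {M₀ Λ u₀ β₀ L : ℝ} {N K A Q : ℕ} (hψ : Wt ψ M₀ ((N : ℝ) ^ 2) Λ)
    {u β : ℕ → ℂ} (hu : ∀ a, ‖u a‖ ≤ u₀) (hβ : ∀ b, ‖β b‖ ≤ β₀) (S : Sz A N K Q L)
    (hM₀ : (N : ℝ) ^ 2 ≤ Q * M₀) (hΛ : Λ * N ^ 2 ≤ Q)
    (hτ : ∀ d ∈ Icc 1 N, √(2 * d) * d.divisors.card * HH d * (2 + HH d) ≤ K) :
    (∑ k ∈ Icc (1 : ℤ) K, ‖∑ b ∈ Icc 1 N, β b * ∑ a ∈ Ico A (A + Q ^ 17 * (A / Q ^ 17 + 1)),
      flt u A (A / Q ^ 17 + 1) Q a * k1 ψ N k (a * b)‖) ^ 2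
      ≤ 20000000 * β₀ ^ 2 * u₀ ^ 2 * (K * N * L) ^ 2 / Q := by
  have ⟨A0, N0, K0, q0, L0, L10, NL, two, lq, lL0, lL, lK, l1', l2, l3⟩ := S
  have h0 : 0 ≤ u₀ := (norm_nonneg _).trans (hu 0)
  have hΛ0 := hψ.lam_nonneg
  have f : (Q : ℝ) ^ 17 ≤ A ∧ (K : ℝ) ≤ A ∧ 2 ^ 2 * (N : ℝ) ^ 2 / A ≤ N ∧ (1 : ℝ) ≤ N ^ 2 / A ∧
      (1 : ℝ) ≤ A * Q / N ∧ (1 : ℝ) ≤ A * L / K ∧ 2 ^ 2 * A * L / K ≤ (N : ℝ) ^ 3 ∧
      2 ^ 4 * (A : ℝ) * Q / N ≤ N ∧ (Q : ℝ) ^ 4 * N ≤ A / Q ∧ (K : ℝ) ≤ N ∧ (1 : ℝ) ≤ Q ^ 2 ∧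
      2 ^ 14 * (Q : ℝ) ^ 5 * A ^ 3 / N * Real.exp (-(2 * L ^ 2)) ≤ K * A / Q := by
    have hE : Real.log (Real.exp (-(2 * L ^ 2))) ≤ -20 * Real.log N := by
      rw [Real.log_exp]; nlinarith
    refine ⟨?_, ?_, ?_, ?_, ?_, ?_, ?_, ?_, ?_, ?_, ?_, ?_⟩ <;>
    · refine lg (by positivity) (by positivity) ?_
      try simp (disch := positivity) only [Real.log_mul, Real.log_div, Real.log_pow, Real.log_one]
      push_cast; linarith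
  obtain ⟨f1, f2, f3, f4, f5, f6, f7, f8, f9, f10, f11, f12⟩ := f
  have A1 : 0 < A := by exact_mod_cast A0
  have K1 : 0 < K := by exact_mod_cast K0
  have Q1 : 0 < Q := by exact_mod_cast q0
  have N1 : (1 : ℝ) ≤ N := by exact_mod_cast (show 0 < N by exact_mod_cast N0)
  have K2 : (1 : ℝ) ≤ K := by exact_mod_cast K1
  have KL : K ≤ K * L := le_mul_of_one_le_right K0.le (by linarith)
  have M0 : 0 < M₀ := pos_of_mul_pos_right (lt_of_lt_of_le (by positivity) hM₀) q0.le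
  set R := Q ^ 17 with hR
  set ℓ := A / R + 1 with hℓ
  have R0 : 0 < R := by positivity
  have R1 : (R : ℝ) = Q ^ 17 := by rw [hR]; push_cast; rfl
  have R2 : R * ℓ ≤ 2 * A := by
    have : R ≤ A := by exact_mod_cast R1.trans_le f1
    have := Nat.mul_div_le A R
    rw [hℓ, mul_add]; omega
  have R3 : (R : ℝ) * ℓ ≤ 2 * A := by exact_mod_cast R2
  have ℓ1 : (ℓ : ℝ) ≤ 2 * A / Q ^ 17 := by rw [le_div_iff₀ (by positivity), ← R1]; linarith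
  have ℓ0 : (A : ℝ) / Q ^ 17 ≤ ℓ := by
    rw [div_le_iff₀ (by positivity), ← R1]
    exact_mod_cast (Nat.lt_div_mul_add R0).le.trans (le_of_eq (by rw [hℓ]; ring))
  have ℓ2 : (ℓ : ℝ) ≤ A := by
    refine ℓ1.trans ?_
    rw [div_le_iff₀ (by positivity), mul_comm]
    gcongr
    refine lg two_pos (by positivity) ?_
    rw [Real.log_pow]; push_cast; linarith
  have ℓ3 : 0 < ℓ := Nat.succ_pos _
  clear_value R ℓ
  obtain ⟨K₁, k1', k2⟩ : ∃ K₁ : ℕ, 4 * K * L ≤ K₁ ∧ K₁ ≤ 5 * K * L :=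
    ⟨⌈4 * K * L⌉₊, Nat.le_ceil _, (Nat.ceil_lt_add_one (by positivity)).le.trans (by linarith)⟩
  obtain ⟨B, b1, b2⟩ : ∃ B : ℕ, 2 * (N : ℝ) ^ 2 / A ≤ B ∧ B ≤ 3 * (N : ℝ) ^ 2 / A :=
    ⟨⌈2 * (N : ℝ) ^ 2 / A⌉₊, Nat.le_ceil _, (Nat.ceil_lt_add_one (by positivity)).le.trans (by
      simp only [mul_div_assoc]; linarith)⟩
  obtain ⟨I, i1, i2⟩ : ∃ I : ℕ, 3 * A * Q / (N : ℝ) ≤ I ∧ I ≤ 4 * A * Q / (N : ℝ) :=
    ⟨⌈3 * A * Q / (N : ℝ)⌉₊, Nat.le_ceil _, (Nat.ceil_lt_add_one (by positivity)).le.trans (by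
      simp only [mul_assoc, mul_div_assoc] at f5 ⊢; linarith)⟩
  obtain ⟨H, H1, H2⟩ : ∃ H : ℕ, 3 * A * L / K ≤ H ∧ H ≤ 4 * A * L / K :=
    ⟨⌈3 * A * L / K⌉₊, Nat.le_ceil _, (Nat.ceil_lt_add_one (by positivity)).le.trans (by
      simp only [mul_assoc, mul_div_assoc] at f6 ⊢; linarith)⟩
  have b3 : (B : ℝ) ≤ N := b2.trans (le_trans (by gcongr; norm_num) f3)
  have b4 : B ≤ N := by exact_mod_cast b3
  have τ' : ∀ d ∈ Icc 1 B, √(2 * d) * d.divisors.card * HH d * (2 + HH d) ≤ K := fun d hd =>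
    hτ d (Icc_subset_Icc_right b4 hd)
  have hα := norm_flt_le hu A ℓ Q
  set α := flt u A ℓ Q with hαd
  have e : ∀ k ∈ Icc (1 : ℤ) K, ∑ b ∈ Icc 1 N, β b * ∑ a ∈ Ico A (A + R * ℓ),
      α a * k1 ψ N k (a * b) = ∑ b ∈ Icc 1 B, β b * ∑ n ∈ Icc 1 (2 * N),
        zz α ψ (Ico A (A + R * ℓ)) k b n := fun k hk => by
    rw [← sum_subset (Icc_subset_Icc_right b4) fun b hb hb' => ?_]
    · refine sum_congr rfl fun b _ => ?_
      congr 1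
      rw [← sum_subset (Icc_subset_Icc_right (by omega : N ≤ 2 * N)) fun n hn hn' => ?_]
      · simp only [zz, k1, mul_sum]
        rw [sum_comm]
        refine sum_congr rfl fun n _ => sum_congr rfl fun a _ => ?_
        push_cast; split_ifs <;> simp
      · by_contra hne
        obtain ⟨a, -, h1, h2⟩ := zz_ne hne
        have h3 : ((n : ℤ) ^ 2 + k : ℤ) = (a * b : ℝ) := by exact_mod_cast h1
        have h4 : (1 : ℝ) ≤ k := by exact_mod_cast (mem_Icc.1 hk).1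
        have h5 := (hψ.supp _ h2).2
        have h6 : (N : ℝ) ≤ n := by simp only [mem_Icc] at hn hn'; exact_mod_cast (by omega)
        push_cast at h3
        linarith [pow_le_pow_left₀ N0.le h6 2]
    · rw [sum_eq_zero, mul_zero]
      intro a ha
      have h1 : (B : ℝ) ≤ b := by simp only [mem_Icc] at hb hb'; exact_mod_cast (by omega)
      have h2 : (A : ℝ) ≤ a := by exact_mod_cast (mem_Ico.1 ha).1
      have : ψ ((a * b : ℕ) : ℝ) = 0 := by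
        by_contra hne
        have h3 := (hψ.supp _ hne).2
        rw [div_le_iff₀ A0] at b1
        push_cast at h3
        linarith [mul_le_mul h2 h1 (by positivity) (by positivity), pow_pos N0 2]
      rw [k1, this, Complex.ofReal_zero, zero_mul, mul_zero]
  rw [sum_congr rfl fun k hk => by rw [e k hk]]
  obtain ⟨-, -, -, d0, -⟩ := num_D S le_rfl (by
    rw [div_le_div_iff₀ (by positivity) N0]
    linarith [mul_pos A0 N0, le_mul_of_one_le_right (mul_pos A0 N0).le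
      (one_le_pow₀ (n := 3) f11)]) (by positivity) ℓ1 hΛ hM₀
  have n7 : 0 ≤ 9 * (N : ℝ) ^ 2 / Q ^ 7 := by positivity
  have kl : 0 ≤ K * L := by positivity
  refine (disp_cs hψ hα hβ (A := A) (K₁ := K₁) (I := I) (fun a ha => by
    have := mem_Ico.1 ha; omega) K1 (by exact_mod_cast (by linarith : (K : ℝ) ≤ K₁))
    (by push_cast; linarith [pow_pos N0 2]) (by
      rw [div_le_iff₀ N0] at i1
      refine le_of_mul_le_mul_left ?_ q0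
      push_cast
      linarith [mul_le_mul_of_nonneg_left hM₀ (Nat.cast_nonneg (α := ℝ) I),
        mul_le_mul_of_nonneg_left i1 N0.le]) M0 τ').trans ?_
  have c1 : Cnt K₁ B (2 * N) ≤ 52 * N * K * L ^ 2 := by
    refine (Cnt_le (by omega) τ').trans ?_
    have := HH_le_of (n := B) 1 (by linarith) NL (by simpa using b3)
    calc _ ≤ (2 * N : ℕ) * (13 * K * L) * (((1 : ℕ) + 1) * L) := by
          have := HH_nonneg B
          gcongr; linarith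
      _ = _ := by push_cast; ring
  have c0 := Cnt_nonneg K₁ B (2 * N)
  have a2 : (u₀ * (1 + Q ^ 2)) ^ 2 ≤ 4 * u₀ ^ 2 * Q ^ 4 :=
    calc _ ≤ (u₀ * (Q ^ 2 + Q ^ 2)) ^ 2 := by gcongr
      _ = _ := by ring
  set I₀ := ⌊(A : ℝ) / (N * Q ^ 5)⌋₊ with hI₀
  have o : ∀ i ∈ Icc 1 I, ‖OO α ψ (Ico A (A + R * ℓ)) K K₁ B (2 * N) i‖ ≤
      (if i ∈ Icc 1 I₀ then (u₀ * (1 + Q ^ 2)) ^ 2 * Cnt K₁ B (2 * N) else 0) +
      (K / A * ∑ r ∈ range R, ∑ r' ∈ range R, ‖ZZ α i (A + r * ℓ) (A + r' * ℓ) ℓ‖ +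
        (u₀ * (1 + Q ^ 2)) ^ 2 * (K / A * R ^ 2 * (A * N / Q ^ 40) + 20 / Q ^ 6 * Cnt K₁ B (2 * N)
          + 72 * (R * ℓ) ^ 2 * Real.exp (-(2 * L ^ 2)))) := fun i hi => by
    obtain ⟨j1, j2⟩ := mem_Icc.1 hi
    split_ifs with h
    · exact (norm_OO_le hψ hα _ _ _ _ _ _).trans (le_add_of_nonneg_right (by positivity))
    have j3 : (A : ℝ) / (N * Q ^ 5) ≤ i := (Nat.lt_of_floor_lt (by
      simp only [mem_Icc] at h; omega)).le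
    have j4 : (i : ℝ) ≤ 4 * A * Q / N := le_trans (by exact_mod_cast j2) i2
    obtain ⟨d1, d2, d3, -, d5⟩ := num_D S j3 j4 (by positivity) ℓ1 hΛ hM₀
    rw [zero_add]
    refine (OO_bound hψ hα A1 j1 ℓ3 K0 f2
      (by linarith) R2 d1 k1' d2 d3 (by push_cast; linarith [pow_pos N0 2]) (by
        rw [div_le_iff₀ A0] at b1; linarith) (by rw [div_le_iff₀ K0] at H1; linarith)
      (by positivity) (num_E S j3 j4 (by positivity) ℓ2 (by positivity) H2 (HH_nonneg H) ?_)).trans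
      (by gcongr)
    refine (HH_le_of 3 (by linarith) NL (H2.trans (le_of_eq_of_le (by norm_num) f7))).trans ?_
    norm_num
  have X1 : ((4 * I : ℕ) : ℝ) ≤ 16 * A * Q / N := by
    push_cast; simp only [mul_assoc, mul_div_assoc] at i2 ⊢; linarith
  have X2 : ((4 * I : ℕ) : ℝ) ≤ N := X1.trans (le_of_eq_of_le (by norm_num) f8)
  have z := zero_freq hu A R I (ℓ := ℓ) ℓ3 Q1
  have z2 := num_Z S (by positivity) X1 ℓ0 ℓ1 (h := HH (4 * I)) (h' := HH ((4 * I) ^ 2))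
    ((HH_le_of 1 (by linarith) NL (by simpa using X2)).trans (by norm_num)) (HH_nonneg _)
    ((HH_le_of 2 (by linarith) NL (by rw [Nat.cast_pow]; gcongr)).trans (by norm_num))
  rw [Nat.cast_pow (4 * I), mul_left_comm, R1] at z
  replace z := z.trans (mul_le_mul_of_nonneg_left z2 (sq_nonneg u₀))
  have s1 : ∑ i ∈ Icc 1 I, ‖OO α ψ (Ico A (A + R * ℓ)) K K₁ B (2 * N) i‖ ≤
      17000 * (u₀ ^ 2 * (K * A * L ^ 2 / Q)) := by
    refine (sum_le_sum o).trans ?_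
    rw [sum_add_distrib, sum_add_distrib, ← mul_sum, sum_const, ← sum_filter, sum_const,
      Nat.card_Icc, Nat.add_sub_cancel, nsmul_eq_mul, nsmul_eq_mul]
    have t0 : (((Icc 1 I).filter fun i => i ∈ Icc 1 I₀).card : ℝ) ≤ A / (N * Q ^ 5) := by
      refine le_trans ?_ (Nat.floor_le (by positivity))
      exact_mod_cast (card_le_card fun i hi => (mem_filter.1 hi).2).trans (by simp [hI₀])
    have L1 : 1 ≤ L := by linarith
    calc _ ≤ A / (N * Q ^ 5) * (4 * u₀ ^ 2 * Q ^ 4 * (52 * N * K * L ^ 2)) +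
          (K / A * (u₀ ^ 2 * (36 * L * A ^ 2 / Q)) + 4 * A * Q / N * (4 * u₀ ^ 2 * Q ^ 4 *
            (K / A * (Q ^ 17) ^ 2 * (A * N / Q ^ 40) + 20 / Q ^ 6 * (52 * N * K * L ^ 2)
              + 256 * (2 * A) ^ 2 * Real.exp (-(2 * L ^ 2))))) := by
          rw [← R1]; gcongr; norm_num
      _ = u₀ ^ 2 * (16848 * (K * A * L ^ 2 / Q) + 36 * (K * A * L / Q) + 16 * (K * A / Q) +
            2 ^ 14 * (Q : ℝ) ^ 5 * A ^ 3 / N * Real.exp (-(2 * L ^ 2))) := by field_simp; ring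
      _ ≤ u₀ ^ 2 * (16848 * (K * A * L ^ 2 / Q) + 36 * (K * A * L ^ 2 / Q) +
            16 * (K * A * L ^ 2 / Q) + K * A * L ^ 2 / Q) := by
          have t1 : (K : ℝ) * A / Q ≤ K * A * L ^ 2 / Q := by
            exact div_le_div_of_nonneg_right
              (le_mul_of_one_le_right (by positivity) (one_le_pow₀ L1)) q0.le
          gcongr
          · exact le_self_pow₀ L1 two_ne_zero
          · exact f12.trans t1
      _ ≤ _ := by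
          have : 0 ≤ u₀ ^ 2 * (K * A * L ^ 2 / Q) := by positivity
          linarith
  have s2 : (u₀ * (1 + Q ^ 2)) ^ 2 * Cnt K₁ B (2 * N) ≤ 208 * (u₀ ^ 2 * (K * A * L ^ 2 / Q)) :=
    calc _ ≤ 4 * u₀ ^ 2 * Q ^ 4 * (52 * N * K * L ^ 2) := by gcongr
      _ = 208 * u₀ ^ 2 * K * L ^ 2 * (Q ^ 4 * N) := by ring
      _ ≤ 208 * u₀ ^ 2 * K * L ^ 2 * (A / Q) := by gcongr
      _ = _ := by ring
  calc _ ≤ β₀ ^ 2 * (5 * K * (3 * (N : ℝ) ^ 2 / A)) * (25 * (208 * (u₀ ^ 2 * (K * A * L ^ 2 / Q)) +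
        2 * (17000 * (u₀ ^ 2 * (K * A * L ^ 2 / Q))))) := by gcongr
    _ = 12828000 * β₀ ^ 2 * u₀ ^ 2 * (K * N * L) ^ 2 / Q := by field_simp; ring
    _ ≤ _ := by gcongr; norm_num

end Pool.Agent.Work.MP_51e72e_nt.QA
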