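import Pool.Agent.Lib.LargeSieve.Vaughan
import Pool.Agent.Lib.ANT.SieveClasses

/-!
# Farey fractions, quadratic Gauss sums and root counts
-/

noncomputable section

open Finset

namespace Pool.Agent.Work.MP_51e72e_nt.QA

open Pool.Agent.Lib.LargeSieve

/-- reduced residues -/
def RR (q : ℕ) : Finset ℕ := (range q).filter (fun c => Nat.Coprime c q)

/-- Farey fractions of order `Q`, as pairs of denominator and numerator -/
def Far (Q : ℕ) : Finset (ℕ × ℕ) :=
  (Icc 1 Q ×ˢ range Q).filter fun x => x.2 < x.1 ∧ Nat.Coprime x.2 x.1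

/-- the value of a fraction -/
def th (x : ℕ × ℕ) : ℝ := (x.2 : ℝ) / x.1

lemma mem_Far {Q : ℕ} {x : ℕ × ℕ} :
    x ∈ Far Q ↔ (1 ≤ x.1 ∧ x.1 ≤ Q) ∧ x.2 < x.1 ∧ Nat.Coprime x.2 x.1 := by
  simp only [Far, mem_filter, mem_product, mem_Icc, mem_range]
  constructor
  · rintro ⟨⟨h1, -⟩, h2⟩; exact ⟨h1, h2⟩
  · rintro ⟨h1, h2⟩; exact ⟨⟨h1, by omega⟩, h2⟩

lemma sum_Far {M : Type*} [AddCommMonoid M] (Q : ℕ) (f : ℕ × ℕ → M) :
    ∑ x ∈ Far Q, f x = ∑ q ∈ Icc 1 Q, ∑ c ∈ RR q, f (q, c) := by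
  rw [Far, sum_filter, sum_product]
  refine sum_congr rfl fun q hq => ?_
  rw [← sum_filter]
  congr 1
  ext c
  simp only [RR, mem_filter, mem_range]
  have := (mem_Icc.1 hq).2
  constructor
  · rintro ⟨-, h⟩; exact h
  · rintro ⟨h1, h2⟩; exact ⟨by omega, h1, h2⟩

lemma card_Far_le (Q : ℕ) : ((Far Q).card : ℝ) ≤ Q ^ 2 := by
  have : (Far Q).card ≤ Q ^ 2 := (card_filter_le _ _).trans (by simp [sq])
  exact_mod_cast this

lemma ee_congr {q : ℕ} (hq : 0 < q) {m n : ℤ} (h : (q : ℤ) ∣ n - m) :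
    ee ((m : ℝ) / q) = ee ((n : ℝ) / q) := by
  obtain ⟨c, hc⟩ := h
  have hq' : (q : ℝ) ≠ 0 := by positivity
  have : (n : ℝ) / q = (m : ℝ) / q + (c : ℝ) := by
    have : (n : ℝ) = m + q * c := by exact_mod_cast (by linarith : n = m + q * c)
    rw [this]; field_simp
  rw [this, ee_add_int]

lemma sum_RR_perm {M : Type*} [AddCommMonoid M] {q : ℕ} (hq : 0 < q) {b : ℤ} (hb : IsCoprime b q)
    (g : ℝ → M) (hg : ∀ (x : ℝ) (m : ℤ), g (x + m) = g x) :
    ∑ c ∈ RR q, g (b * ((c : ℝ) / q)) = ∑ c ∈ RR q, g ((c : ℝ) / q) := by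
  classical
  have : NeZero q := ⟨hq.ne'⟩
  set F : ZMod q → M := fun x => if IsUnit x then g ((x.val : ℝ) / q) else 0 with hF
  have hu : IsUnit (b : ZMod q) := (ZMod.coe_int_isUnit_iff_isCoprime b q).2 hb.symm
  have e1 : ∑ c ∈ RR q, g ((c : ℝ) / q) = ∑ x, F x := by
    rw [sum_zmod_eq_sum_range, RR, sum_filter]
    refine sum_congr rfl fun c hc => ?_
    simp only [hF, ZMod.isUnit_iff_coprime, ZMod.val_cast_of_lt (mem_range.1 hc)]
  have e2 : ∑ c ∈ RR q, g (b * ((c : ℝ) / q)) = ∑ x, F (b * x) := by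
    rw [sum_zmod_eq_sum_range, RR, sum_filter]
    refine sum_congr rfl fun c _ => ?_
    simp only [hF, IsUnit.mul_iff, hu, true_and, ZMod.isUnit_iff_coprime]
    split_ifs
    · have h : (q : ℤ) ∣ b * c - (((b : ZMod q) * c).val : ℕ) := by
        rw [← ZMod.intCast_zmod_eq_zero_iff_dvd]; simp
      obtain ⟨m, hm⟩ := h
      have hq' : (q : ℝ) ≠ 0 := by positivity
      rw [← hg (_ / _) m]
      congr 1
      have : (b : ℝ) * c = (((b : ZMod q) * c).val : ℕ) + q * m := by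
        exact_mod_cast (by linarith : b * c = (((b : ZMod q) * c).val : ℕ) + q * m)
      field_simp
      linarith
    · rfl
  rw [e1, e2]
  exact Equiv.sum_comp hu.unit.mulLeft F

lemma sum_Far_perm {M : Type*} [AddCommMonoid M] {Q : ℕ} {b : ℤ}
    (hb : ∀ q ∈ Icc 1 Q, IsCoprime b q) (g : ℝ → M) (hg : ∀ (x : ℝ) (m : ℤ), g (x + m) = g x) :
    ∑ x ∈ Far Q, g (b * th x) = ∑ x ∈ Far Q, g (th x) := by
  rw [sum_Far, sum_Far]
  exact sum_congr rfl fun q hq => sum_RR_perm (mem_Icc.1 hq).1 (hb q hq) g hg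

lemma Far_spaced {Q : ℕ} {b : ℤ} (hb : ∀ q ∈ Icc 1 Q, IsCoprime b q) {x y : ℕ × ℕ}
    (hx : x ∈ Far Q) (hy : y ∈ Far Q) (hne : x ≠ y) :
    1 / ((Q ^ 2 : ℕ) : ℝ) ≤ dZ (b * th x - b * th y) := by
  obtain ⟨h1, h2, h3⟩ := mem_Far.1 hx
  obtain ⟨h4, h5, h6⟩ := mem_Far.1 hy
  have hs := farey_spaced (mem_Icc.2 h1) (mem_Icc.2 h4) h2 h5 h3 h6 hne
  have hx0 : (0 : ℝ) < x.1 := by exact_mod_cast h1.1
  have hy0 : (0 : ℝ) < y.1 := by exact_mod_cast h4.1
  have hQ : 0 < Q ^ 2 := pow_pos (by omega) 2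
  set u : ℤ := x.2 * y.1 - y.2 * x.1 with hu
  have e : (x.2 : ℝ) / x.1 - (y.2 : ℝ) / y.1 = (u : ℝ) / (x.1 * y.1 : ℕ) := by
    simp only [hu]; push_cast; field_simp
  have hnd : ¬ ((x.1 * y.1 : ℕ) : ℤ) ∣ u := by
    rintro ⟨m, hm⟩
    have : (u : ℝ) / (x.1 * y.1 : ℕ) = m := by
      rw [hm]; push_cast; field_simp
    rw [e, this] at hs
    have h0 := dZ_le (m : ℝ) m
    simp only [sub_self, abs_zero] at h0
    have : (0 : ℝ) < 1 / ((Q ^ 2 : ℕ) : ℝ) := by positivity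
    linarith
  have hc : IsCoprime ((x.1 * y.1 : ℕ) : ℤ) b := by
    push_cast
    exact ((hb _ (mem_Icc.2 h1)).mul_right (hb _ (mem_Icc.2 h4))).symm
  have := inv_le_dZ_div (p := x.1 * y.1) (Nat.mul_pos h1.1 h4.1) (m := b * u)
    (fun h => hnd (hc.dvd_of_dvd_mul_left h))
  rw [← mul_sub, th, th, e, ← mul_div_assoc, ← Int.cast_mul]
  refine le_trans ?_ this
  refine one_div_le_one_div_of_le (by push_cast; positivity) ?_
  rw [sq]; exact_mod_cast Nat.mul_le_mul h1.2 h4.2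

lemma sum_range_eq_sum_divisors {M : Type*} [AddCommMonoid M] {d : ℕ} (hd : 0 < d) (g : ℝ → M) :
    ∑ x ∈ range d, g ((x : ℝ) / d) = ∑ q ∈ d.divisors, ∑ c ∈ RR q, g ((c : ℝ) / q) := by
  rw [sum_sigma']
  refine sum_nbij' (fun x => ⟨d / Nat.gcd x d, x / Nat.gcd x d⟩) (fun y => y.2 * (d / y.1))
    ?_ ?_ ?_ ?_ ?_
  · intro x hx
    have hg : 0 < Nat.gcd x d := Nat.gcd_pos_of_pos_right _ hd
    simp only [mem_sigma, Nat.mem_divisors, RR, mem_filter, mem_range]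
    refine ⟨⟨Nat.div_dvd_of_dvd (Nat.gcd_dvd_right _ _), hd.ne'⟩, ?_,
      Nat.coprime_div_gcd_div_gcd hg⟩
    exact Nat.div_lt_div_of_lt_of_dvd (Nat.gcd_dvd_right _ _) (mem_range.1 hx)
  · rintro ⟨q, c⟩ h
    simp only [mem_sigma, Nat.mem_divisors, RR, mem_filter, mem_range] at h ⊢
    obtain ⟨⟨⟨t, rfl⟩, -⟩, h2, -⟩ := h
    have hq : 0 < q := by omega
    rw [Nat.mul_div_cancel_left _ hq]
    exact Nat.mul_lt_mul_of_pos_right h2 (Nat.pos_of_mul_pos_left hd)
  · intro x _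
    simp only
    rw [Nat.div_div_self (Nat.gcd_dvd_right _ _) hd.ne', Nat.div_mul_cancel (Nat.gcd_dvd_left _ _)]
  · rintro ⟨q, c⟩ h
    simp only [mem_sigma, Nat.mem_divisors, RR, mem_filter, mem_range] at h ⊢
    obtain ⟨⟨⟨t, rfl⟩, -⟩, h2, h3⟩ := h
    have hq : 0 < q := by omega
    have ht : 0 < t := Nat.pos_of_mul_pos_left hd
    rw [Nat.mul_div_cancel_left _ hq, Nat.gcd_mul_right, h3, one_mul, Nat.mul_div_cancel _ ht,
      Nat.mul_div_cancel _ ht]
  · intro x _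
    have hg : 0 < Nat.gcd x d := Nat.gcd_pos_of_pos_right _ hd
    simp only
    rw [Nat.cast_div (Nat.gcd_dvd_left _ _) (by positivity),
      Nat.cast_div (Nat.gcd_dvd_right _ _) (by positivity)]
    congr 1
    field_simp

lemma sum_ee_dvd {d : ℕ} (hd : 0 < d) (m : ℤ) :
    ∑ c ∈ range d, ee (m * ((c : ℝ) / d)) = if (d : ℤ) ∣ m then (d : ℂ) else 0 := by
  have hd' : (d : ℝ) ≠ 0 := by positivity
  have e : ∀ c : ℕ, ee (m * ((c : ℝ) / d)) = ee ((m : ℝ) / d) ^ c := fun c => by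
    rw [← ee_nat_mul]; congr 1; ring
  simp_rw [e]
  split_ifs with h
  · obtain ⟨t, rfl⟩ := h
    have : (((d : ℤ) * t : ℤ) : ℝ) / d = (t : ℝ) := by push_cast; field_simp
    rw [this, ee_intCast]; simp
  · have h1 : ee ((m : ℝ) / d) ≠ 1 := fun h1 => by
      have h2 := four_dZ_le ((m : ℝ) / d)
      have h3 := inv_le_dZ_div hd h
      rw [h1, sub_self, norm_zero] at h2
      have : (0 : ℝ) < 1 / d := by positivity
      linarith
    rw [geom_sum_eq h1, ← ee_nat_mul, mul_div_cancel₀ _ hd', ee_intCast, sub_self, zero_div]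

lemma sum_range_mul_periodic {M : Type*} [AddCommMonoid M] (f : ℕ → M) {q : ℕ}
    (hf : ∀ n, f (n + q) = f n) (t : ℕ) :
    ∑ n ∈ range (q * t), f n = t • ∑ n ∈ range q, f n := by
  have h : ∀ t n, f (q * t + n) = f n := fun t n => by
    induction t with
    | zero => simp
    | succ t ih => rw [show q * (t + 1) + n = q * t + n + q by ring, hf, ih]
  induction t with
  | zero => simp
  | succ t ih => rw [Nat.mul_succ, sum_range_add, ih, succ_nsmul]; simp only [h]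

/-- Ramanujan sums -/
lemma sum_RR_ee {q : ℕ} (hq : 0 < q) :
    ∑ c ∈ RR q, ee ((c : ℝ) / q) = (ArithmeticFunction.moebius q : ℂ) := by
  have h := (ArithmeticFunction.sum_eq_iff_sum_smul_moebius_eq (R := ℂ)
    (f := fun q => ∑ c ∈ RR q, ee ((c : ℝ) / q)) (g := fun n => if n = 1 then 1 else 0)).1
    (fun n hn => by
      rw [← sum_range_eq_sum_divisors hn ee]
      have := sum_ee_dvd hn 1
      simp only [Int.cast_one, one_mul] at this
      rw [this]
      by_cases h : n = 1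
      · simp [h]
      · rw [if_neg h, if_neg]
        exact fun h' => h (by exact_mod_cast Int.eq_one_of_dvd_one (by positivity) h')) q hq
  rw [← h, Nat.sum_divisorsAntidiagonal' (f := fun a b => ArithmeticFunction.moebius a •
    (if b = 1 then (1 : ℂ) else 0)), sum_eq_single 1]
  · simp
  · intro b _ hb; simp [hb]
  · intro h; exact absurd (Nat.one_mem_divisors.2 hq.ne') h

/-- normalised quadratic Gauss sum -/
def gs (x : ℕ × ℕ) : ℂ := (∑ n ∈ range x.1, ee ((n : ℝ) ^ 2 * th x)) / x.1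

lemma norm_gs_le (x : ℕ × ℕ) : ‖gs x‖ ≤ 1 := by
  rw [gs, norm_div, Complex.norm_natCast]
  refine div_le_one_of_le₀ ((norm_sum_le _ _).trans (by simp)) (by positivity)

/-- number of roots of `n ^ 2 + k` modulo `d` -/
def rho (k : ℤ) (d : ℕ) : ℕ := ((range d).filter fun n : ℕ => (d : ℤ) ∣ (n : ℤ) ^ 2 + k).card

/-- the contribution of the fractions with denominator `q` -/
def gq (k : ℤ) (q : ℕ) : ℂ := ∑ c ∈ RR q, gs (q, c) * ee (k * th (q, c))

lemma sum_gq (k : ℤ) {d : ℕ} (hd : 0 < d) : ∑ q ∈ d.divisors, gq k q = rho k d := by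
  have hd' : (d : ℂ) ≠ 0 := by exact_mod_cast hd.ne'
  have e1 : ∀ q ∈ d.divisors, gq k q
      = ∑ c ∈ RR q, (∑ n ∈ range d, ee ((((n : ℤ) ^ 2 + k : ℤ) : ℝ) * ((c : ℝ) / q))) / d := by
    intro q hq
    obtain ⟨t, rfl⟩ := Nat.dvd_of_mem_divisors hq
    have hq0 : 0 < q := Nat.pos_of_mul_pos_right hd
    have ht : (t : ℂ) ≠ 0 := by exact_mod_cast (Nat.pos_of_mul_pos_left hd).ne'
    have hq' : (q : ℂ) ≠ 0 := by exact_mod_cast hq0.ne'
    refine sum_congr rfl fun c _ => ?_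
    rw [sum_range_mul_periodic _ (fun n => ?_), gs, div_mul_eq_mul_div, sum_mul]
    · simp only [← ee_add, th, nsmul_eq_mul]
      push_cast
      simp only [add_mul]
      field_simp
    · have hq'' : (q : ℝ) ≠ 0 := by positivity
      rw [← ee_add_int (((n : ℤ) ^ 2 + k : ℤ) * _) ((2 * n + q) * c)]
      congr 1
      push_cast; field_simp; ring
  rw [sum_congr rfl e1, ← sum_range_eq_sum_divisors hd
    (fun x => (∑ n ∈ range d, ee ((((n : ℤ) ^ 2 + k : ℤ) : ℝ) * x)) / d), ← sum_div, sum_comm]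
  simp_rw [sum_ee_dvd hd]
  rw [← sum_filter, rho]
  simp [hd']

lemma rho_mul (k : ℤ) {a b : ℕ} (hab : a.Coprime b) (ha : 0 < a) (hb : 0 < b) :
    rho k (a * b) = rho k a * rho k b := by
  rw [rho, rho, rho, ← Pool.Agent.Lib.ANT.card_range_mul_coprime hab ha hb]
  congr 1
  refine filter_congr fun n _ => ?_
  have h : ∀ c : ℕ, ((c : ℤ) ∣ ((n % c : ℕ) : ℤ) ^ 2 + k) ↔ (c : ℤ) ∣ (n : ℤ) ^ 2 + k := fun c => by
    refine Int.ModEq.dvd_iff ?_
    push_cast
    exact ((Int.mod_modEq _ _).pow 2).add_right k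
  rw [h, h, Nat.cast_mul]
  exact ⟨fun h => ⟨(dvd_mul_right _ _).trans h, (dvd_mul_left _ _).trans h⟩,
    fun h => (Nat.isCoprime_iff_coprime.2 hab).mul_dvd h.1 h.2⟩

/-- the Jacobi symbol of `-k` modulo odd `f` -/
def jj (k : ℤ) (f : ℕ) : ℤ := if Odd f then jacobiSym (-k) f else 0

lemma abs_jj_le (k : ℤ) (f : ℕ) : |jj k f| ≤ 1 := by
  unfold jj
  split_ifs
  · rcases jacobiSym.trichotomy (-k) f with h | h | h <;> simp [h]
  · simp

lemma jj_one (k : ℤ) : jj k 1 = 1 := by simp [jj]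

lemma jj_mul (k : ℤ) {a b : ℕ} (ha : a ≠ 0) (hb : b ≠ 0) : jj k (a * b) = jj k a * jj k b := by
  unfold jj
  by_cases h1 : Odd a <;> by_cases h2 : Odd b <;>
    simp [Nat.odd_mul, h1, h2, jacobiSym.mul_right' _ ha hb]

lemma card_sq_two (y : ZMod 2) : (univ.filter fun x : ZMod 2 => x ^ 2 = y).card = 1 := by
  revert y; decide

lemma rho_prime (k : ℤ) {p : ℕ} (hp : p.Prime) : (rho k p : ℤ) = 1 + jj k p := by
  have : Fact p.Prime := ⟨hp⟩
  have e : rho k p = (univ.filter fun x : ZMod p => x ^ 2 = ((-k : ℤ) : ZMod p)).card := by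
    rw [rho, card_filter, card_filter, sum_zmod_eq_sum_range]
    refine sum_congr rfl fun n _ => if_congr ?_ rfl rfl
    rw [← ZMod.intCast_zmod_eq_zero_iff_dvd]
    push_cast
    exact add_eq_zero_iff_eq_neg
  rw [e]
  rcases hp.eq_two_or_odd' with rfl | ho
  · rw [card_sq_two]; simp [jj]
  · have h2 : p ≠ 2 := by rintro rfl; exact absurd ho (by decide)
    have := legendreSym.card_sqrts p h2 (-k)
    rw [jj, if_pos ho, ← jacobiSym.legendreSym.to_jacobiSym, add_comm, ← this]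
    simp

lemma rho_squarefree (k : ℤ) {d : ℕ} (hd : Squarefree d) :
    (rho k d : ℤ) = ∑ f ∈ d.divisors, jj k f := by
  induction d using Nat.recOnPosPrimePosCoprime with
  | prime_pow p n hp hn =>
    obtain rfl : n = 1 := ((Nat.squarefree_pow_iff hp.ne_one hn.ne').1 hd).2
    rw [pow_one, rho_prime k hp, hp.sum_divisors, jj_one, add_comm]
  | zero => exact absurd hd not_squarefree_zero
  | one => simp [rho, jj]
  | coprime a b ha hb hab iha ihb =>
    rw [rho_mul k hab (by omega) (by omega), Nat.cast_mul, iha hd.of_mul_left, ihb hd.of_mul_right,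
      Nat.divisors_mul, mul_def, sum_image hab.mul_injOn_divisors, sum_product, sum_mul_sum]
    exact sum_congr rfl fun x hx => sum_congr rfl fun y hy =>
      (jj_mul k (Nat.pos_of_mem_divisors hx).ne' (Nat.pos_of_mem_divisors hy).ne').symm

lemma gq_squarefree (k : ℤ) {q : ℕ} (hq : Squarefree q) : gq k q = jj k q := by
  induction q using Nat.strong_induction_on with
  | _ q ih =>
    have hq0 : 0 < q := Nat.pos_of_ne_zero hq.ne_zero
    have h1 := sum_gq k hq0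
    have h2 : (rho k q : ℂ) = ∑ f ∈ q.divisors, (jj k f : ℂ) := by
      exact_mod_cast congrArg (Int.cast : ℤ → ℂ) (rho_squarefree k hq)
    rw [h2, ← Nat.cons_self_properDivisors hq0.ne', sum_cons, sum_cons,
      sum_congr rfl fun f hf => ih f (Nat.mem_properDivisors.1 hf).2
        (hq.squarefree_of_dvd (Nat.mem_properDivisors.1 hf).1)] at h1
    exact add_right_cancel h1

end Pool.Agent.Work.MP_51e72e_nt.QA
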