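import Pool.Agent.Work.MP_51e72e_nt.QADisp2

noncomputable section
open Finset Real
open Pool.Agent.Lib.LargeSieve

namespace Pool.Agent.Work.MP_51e72e_nt.QA

/-- exponential sum over one cell -/
def hat (u : ℕ → ℂ) (A₁ ℓ : ℕ) (θ : ℝ) : ℂ := ∑ a ∈ Ico A₁ (A₁ + ℓ), u a * ee (a * θ)

/-- left end of the cell of a -/
def cell (A ℓ a : ℕ) : ℕ := A + (a - A) / ℓ * ℓ

/-- major arc part -/
def shp (u : ℕ → ℂ) (A ℓ Q a : ℕ) : ℂ :=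
  ∑ y ∈ Far Q, hat u (cell A ℓ a) ℓ (th y) / ℓ * ee (-(a * th y))

/-- minor arc part -/
def flt (u : ℕ → ℂ) (A ℓ Q a : ℕ) : ℂ := u a - shp u A ℓ Q a

lemma cell_eq {A ℓ r a : ℕ} (ha : a ∈ Ico (A + r * ℓ) (A + r * ℓ + ℓ)) :
    cell A ℓ a = A + r * ℓ := by
  obtain ⟨h1, h2⟩ := mem_Ico.1 ha
  rw [cell, Nat.div_eq_of_lt_le (k := r) (by omega) (by rw [Nat.succ_mul]; omega)]

lemma norm_hat_le {u : ℕ → ℂ} {u₀ : ℝ} (hu : ∀ a, ‖u a‖ ≤ u₀) (A₁ ℓ : ℕ) (θ : ℝ) :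
    ‖hat u A₁ ℓ θ / ℓ‖ ≤ u₀ := by
  have h0 : 0 ≤ u₀ := (norm_nonneg _).trans (hu 0)
  rw [norm_div, Complex.norm_natCast]
  refine div_le_of_le_mul₀ (by positivity) h0 ((norm_sum_le _ _).trans ?_)
  refine (sum_le_card_nsmul _ _ u₀ fun a _ => ?_).trans (by simp [mul_comm])
  rw [norm_mul, norm_ee, mul_one]; exact hu a

lemma norm_shp_le {u : ℕ → ℂ} {u₀ : ℝ} (hu : ∀ a, ‖u a‖ ≤ u₀) (A ℓ Q a : ℕ) :
    ‖shp u A ℓ Q a‖ ≤ u₀ * Q ^ 2 := by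
  have h0 : 0 ≤ u₀ := (norm_nonneg _).trans (hu 0)
  refine (norm_sum_le _ _).trans ((sum_le_card_nsmul _ _ u₀ fun y _ => ?_).trans ?_)
  · rw [norm_mul, norm_ee, mul_one]; exact norm_hat_le hu _ _ _
  · rw [nsmul_eq_mul, mul_comm]; gcongr; exact card_Far_le Q

lemma norm_flt_le {u : ℕ → ℂ} {u₀ : ℝ} (hu : ∀ a, ‖u a‖ ≤ u₀) (A ℓ Q a : ℕ) :
    ‖flt u A ℓ Q a‖ ≤ u₀ * (1 + Q ^ 2) :=
  (norm_sub_le _ _).trans (by linarith [hu a, norm_shp_le hu A ℓ Q a])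

lemma hat_add_int (u : ℕ → ℂ) (A₁ ℓ : ℕ) (θ : ℝ) (m : ℤ) : hat u A₁ ℓ (θ + m) = hat u A₁ ℓ θ :=
  sum_congr rfl fun a _ => by
    rw [mul_add, show (a : ℝ) * m = ((a * m : ℤ) : ℝ) by push_cast; ring, ee_add_int]

lemma shp_perm (u : ℕ → ℂ) (A ℓ a : ℕ) {Q : ℕ} {b : ℤ} (hb : ∀ q ∈ Icc 1 Q, IsCoprime b q) :
    shp u A ℓ Q a = ∑ y ∈ Far Q, hat u (cell A ℓ a) ℓ (b * th y) / ℓ * ee (-(a * (b * th y))) :=
  (sum_Far_perm hb (fun θ => hat u (cell A ℓ a) ℓ θ / ℓ * ee (-(a * θ))) fun x m => by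
    rw [hat_add_int, show -((a : ℝ) * (x + m)) = -(a * x) + ((-(a * m) : ℤ) : ℝ) by
      push_cast; ring, ee_add_int]).symm

lemma hat_shp (u : ℕ → ℂ) (A ℓ r : ℕ) {Q : ℕ} {b : ℤ} (hb : ∀ q ∈ Icc 1 Q, IsCoprime b q)
    (θ : ℝ) : hat (shp u A ℓ Q) (A + r * ℓ) ℓ θ = ∑ y ∈ Far Q, hat u (A + r * ℓ) ℓ (b * th y) / ℓ *
      ∑ j ∈ range ℓ, ee ((((A + r * ℓ : ℕ) : ℝ) + j) * (θ - b * th y)) := by
  rw [hat, sum_congr rfl fun a ha => by rw [shp_perm u A ℓ a hb, cell_eq ha, sum_mul], sum_comm]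
  refine sum_congr rfl fun y _ => ?_
  rw [mul_sum, sum_Ico_eq_sum_range, Nat.add_sub_cancel_left]
  refine sum_congr rfl fun j _ => ?_
  rw [mul_assoc, ← ee_add]
  congr 2
  push_cast; ring

lemma hat_flt (u : ℕ → ℂ) (A ℓ Q A₁ : ℕ) (θ : ℝ) :
    hat (flt u A ℓ Q) A₁ ℓ θ = hat u A₁ ℓ θ - hat (shp u A ℓ Q) A₁ ℓ θ := by
  simp only [hat, flt, sub_mul, sum_sub_distrib]

lemma sum_kernel_le {u : ℕ → ℂ} {u₀ : ℝ} (hu : ∀ a, ‖u a‖ ≤ u₀) (A₁ ℓ : ℕ) {Q : ℕ}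
    (s : Finset (ℕ × ℕ)) (hs : s ⊆ Far Q) (φ : ℕ × ℕ → ℝ) (θ : ℝ) {D : ℕ} (hD : 0 < D)
    (h : ∀ y ∈ s, 1 / (D : ℝ) ≤ dZ (θ - φ y)) :
    ‖∑ y ∈ s, hat u A₁ ℓ (φ y) / ℓ * ∑ j ∈ range ℓ, ee (((A₁ : ℝ) + j) * (θ - φ y))‖
      ≤ u₀ * Q ^ 2 * D := by
  have h0 : 0 ≤ u₀ := (norm_nonneg _).trans (hu 0)
  have hD' : (0 : ℝ) < D := by exact_mod_cast hD
  refine (norm_sum_le _ _).trans ((sum_le_card_nsmul _ _ (u₀ * D) fun y hy => ?_).trans ?_)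
  · have h1 := h y hy
    have h2 : 0 < dZ (θ - φ y) := lt_of_lt_of_le (by positivity) h1
    rw [norm_mul]
    refine mul_le_mul (norm_hat_le hu _ _ _) ((norm_sum_ee_shift_le _ _ _ h2).trans ?_)
      (norm_nonneg _) h0
    rw [div_le_iff₀ hD'] at h1
    rw [div_le_iff₀ (by positivity)]
    nlinarith
  · have := (Nat.cast_le (α := ℝ).2 (card_le_card hs)).trans (card_Far_le Q)
    rw [nsmul_eq_mul]
    calc _ ≤ (Q : ℝ) ^ 2 * (u₀ * D) := by gcongr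
      _ = _ := by ring

lemma flat {u : ℕ → ℂ} {u₀ : ℝ} (hu : ∀ a, ‖u a‖ ≤ u₀) (A r : ℕ) {ℓ Q : ℕ} (hℓ : 0 < ℓ) {b : ℤ}
    (hb : ∀ q ∈ Icc 1 Q, IsCoprime b q) {x : ℕ × ℕ} (hx : x ∈ Far Q) :
    ‖hat (flt u A ℓ Q) (A + r * ℓ) ℓ (b * th x)‖ ≤ u₀ * Q ^ 4 := by
  have hQ : 0 < Q := by have := (mem_Far.1 hx).1; omega
  rw [hat_flt, hat_shp u A ℓ r hb, ← add_sum_erase _ _ hx]
  have : (ℓ : ℂ) ≠ 0 := by exact_mod_cast hℓ.ne'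
  simp only [sub_self, mul_zero, ee_zero, sum_const, card_range, nsmul_eq_mul, mul_one]
  rw [div_mul_cancel₀ _ this, sub_add_cancel_left, norm_neg]
  refine (sum_kernel_le hu _ ℓ _ (erase_subset _ _) (fun y => b * th y) _ (D := Q ^ 2)
    (by positivity) fun y hy => Far_spaced hb hx (mem_erase.1 hy).2 (mem_erase.1 hy).1.symm).trans
    (le_of_eq (by push_cast; ring))

lemma sum_dvd_inv_le (X : ℕ) {q : ℕ} (hq : 0 < q) :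
    ∑ m ∈ (Icc 1 X).filter (q ∣ ·), (1 : ℝ) / m ≤ HH X / q := by
  rw [HH, sum_div]
  refine sum_le_of_injOn _ _ _ _ (fun m => m / q) (fun m hm m' hm' h => ?_) (fun m hm => ?_)
    (fun _ _ => by positivity) fun m hm => ?_
  · simp only [coe_filter, Set.mem_ofPred_eq] at hm hm' h
    rw [← Nat.mul_div_cancel' hm.2, h, Nat.mul_div_cancel' hm'.2]
  · obtain ⟨h1, h2⟩ := mem_filter.1 hm
    rw [mem_Icc] at h1 ⊢
    exact ⟨Nat.div_pos (Nat.le_of_dvd h1.1 h2) hq, (Nat.div_le_self _ _).trans h1.2⟩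
  · obtain ⟨-, j, rfl⟩ := mem_filter.1 hm
    rw [Nat.mul_div_cancel_left _ hq, div_div, Nat.cast_mul, mul_comm]

lemma ZZ_le (α : ℕ → ℂ) {i : ℕ} (hi : 0 < i) (A₁ A₂ ℓ : ℕ) :
    ‖ZZ α i A₁ A₂ ℓ‖ ≤ (1 / ((4 * i : ℕ) : ℝ) *
      ∑ c ∈ range (4 * i), ‖hat α A₁ ℓ ((c : ℝ) / (4 * i : ℕ))‖ ^ 2 + 1 / ((4 * i : ℕ) : ℝ) *
      ∑ c ∈ range (4 * i), ‖hat α A₂ ℓ ((c : ℝ) / (4 * i : ℕ))‖ ^ 2) / 2 := by
  have h4 : 0 < 4 * i := by omega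
  have e : ((4 * i : ℕ) : ℂ) * ZZ α i A₁ A₂ ℓ = ∑ c ∈ range (4 * i),
      hat α A₁ ℓ ((c : ℝ) / (4 * i : ℕ)) * (starRingEnd ℂ) (hat α A₂ ℓ ((c : ℝ) / (4 * i : ℕ))) := by
    simp only [ZZ, hat, map_sum, sum_mul_sum]
    rw [sum_comm (s := range _), mul_sum]
    refine sum_congr rfl fun a _ => ?_
    rw [sum_comm (s := range _), mul_sum]
    refine sum_congr rfl fun a' _ => ?_
    have := sum_ee_dvd h4 ((a : ℤ) - a')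
    rw [if_congr dvd_sub_comm rfl rfl] at this
    calc _ = α a * (starRingEnd ℂ) (α a') * if ((4 * i : ℕ) : ℤ) ∣ (a' : ℤ) - a
          then ((4 * i : ℕ) : ℂ) else 0 := by split_ifs <;> ring
      _ = _ := by
        rw [← this, mul_sum]
        refine sum_congr rfl fun c _ => ?_
        rw [map_mul, conj_ee, Int.cast_sub, sub_mul, sub_eq_add_neg, ee_add]
        simp only [Int.cast_natCast]; ring
  have h5 : (0 : ℝ) < (4 * i : ℕ) := by exact_mod_cast h4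
  refine le_of_mul_le_mul_left ?_ h5
  rw [← norm_natCast_mul, e, ← mul_add, ← sum_add_distrib, ← mul_div_assoc, ← mul_assoc,
    mul_one_div_cancel h5.ne', one_mul, sum_div]
  refine (norm_sum_le _ _).trans (sum_le_sum fun c _ => ?_)
  rw [norm_mul, Complex.norm_conj]
  nlinarith [sq_nonneg (‖hat α A₁ ℓ ((c : ℝ) / (4 * i : ℕ))‖ - ‖hat α A₂ ℓ ((c : ℝ) / (4 * i : ℕ))‖)]

lemma sum_G_le (g : ℝ → ℝ) (hg : ∀ x, 0 ≤ g x) (I : ℕ) :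
    ∑ i ∈ Icc 1 I, 1 / ((4 * i : ℕ) : ℝ) * ∑ c ∈ range (4 * i), g ((c : ℝ) / (4 * i : ℕ))
      ≤ HH (4 * I) * ∑ q ∈ Icc 1 (4 * I), 1 / (q : ℝ) * ∑ c ∈ RR q, g ((c : ℝ) / q) := by
  have h0 : ∀ q, 0 ≤ ∑ c ∈ RR q, g ((c : ℝ) / q) := fun q => sum_nonneg fun _ _ => hg _
  calc _ ≤ ∑ m ∈ Icc 1 (4 * I), 1 / (m : ℝ) * ∑ c ∈ range m, g ((c : ℝ) / m) :=
        sum_le_of_injOn _ _ _ _ (fun i => 4 * i) (fun _ _ _ _ h => by simpa using h)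
          (fun i hi => by rw [mem_Icc] at hi ⊢; omega)
          (fun _ _ => mul_nonneg (by positivity) (sum_nonneg fun _ _ => hg _)) fun _ _ => le_rfl
    _ = ∑ m ∈ Icc 1 (4 * I), ∑ q ∈ Icc 1 (4 * I),
          if q ∣ m then 1 / (m : ℝ) * ∑ c ∈ RR q, g ((c : ℝ) / q) else 0 := by
        refine sum_congr rfl fun m hm => ?_
        obtain ⟨m1, m2⟩ := mem_Icc.1 hm
        rw [sum_range_eq_sum_divisors m1, mul_sum, ← sum_filter]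
        refine sum_congr ?_ fun _ _ => rfl
        ext q
        simp only [Nat.mem_divisors, mem_filter, mem_Icc]
        exact ⟨fun h => ⟨⟨Nat.pos_of_dvd_of_pos h.1 m1, (Nat.le_of_dvd m1 h.1).trans m2⟩, h.1⟩,
          fun h => ⟨h.2, by omega⟩⟩
    _ ≤ _ := by
        rw [sum_comm, mul_sum]
        refine sum_le_sum fun q hq => ?_
        rw [← sum_filter, ← sum_mul, ← mul_assoc, mul_one_div]
        exact mul_le_mul_of_nonneg_right (sum_dvd_inv_le _ (mem_Icc.1 hq).1) (h0 q)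

lemma ls_hat {u : ℕ → ℂ} {u₀ : ℝ} (hu : ∀ a, ‖u a‖ ≤ u₀) (A₁ ℓ X : ℕ) :
    ∑ q ∈ Icc 1 X, ∑ c ∈ RR q, ‖hat u A₁ ℓ ((c : ℝ) / q)‖ ^ 2
      ≤ (ℓ + (X ^ 2 : ℕ) * HH (X ^ 2)) * (ℓ * u₀ ^ 2) := by
  have e : ∀ θ, ‖hat u A₁ ℓ θ‖ = ‖∑ n ∈ range ℓ, u (A₁ + n) * ee (n * θ)‖ := fun θ => by
    rw [hat, sum_Ico_eq_sum_range, Nat.add_sub_cancel_left, ← one_mul ‖∑ n ∈ range ℓ, _ * ee (n * θ)‖,
      ← norm_ee (A₁ * θ), ← norm_mul, mul_sum]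
    congr 1
    refine sum_congr rfl fun n _ => ?_
    rw [Nat.cast_add, add_mul, ee_add]; ring
  simp_rw [e]
  refine (largeSieve_farey X ℓ _).trans (mul_le_mul_of_nonneg_left ?_
    (by have := HH_nonneg (X ^ 2); positivity))
  refine (sum_le_card_nsmul _ _ (u₀ ^ 2) fun n _ => ?_).trans (by simp)
  exact pow_le_pow_left₀ (norm_nonneg _) (hu _) 2

lemma card_RR_le (q : ℕ) : ((RR q).card : ℝ) ≤ q := by
  exact_mod_cast (card_filter_le _ _).trans (card_range q).le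

lemma flt_mean {u : ℕ → ℂ} {u₀ : ℝ} (hu : ∀ a, ‖u a‖ ≤ u₀) (A r X : ℕ) {ℓ Q : ℕ} (hℓ : 0 < ℓ)
    (hQ : 0 < Q) :
    ∑ q ∈ Icc 1 X, 1 / (q : ℝ) * ∑ c ∈ RR q, ‖hat (flt u A ℓ Q) (A + r * ℓ) ℓ ((c : ℝ) / q)‖ ^ 2
      ≤ u₀ ^ 2 * (X * Q ^ 8 + 2 * (ℓ + (X ^ 2 : ℕ) * HH (X ^ 2)) * ℓ / Q + 2 * X ^ 5 * Q ^ 4) := by
  have h0 : 0 ≤ u₀ := (norm_nonneg _).trans (hu 0)
  have hQ' : (0 : ℝ) < Q := by exact_mod_cast hQ
  have one : ∀ q ∈ Icc 1 Q, IsCoprime (1 : ℤ) q := fun _ _ => isCoprime_one_left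
  have key : ∀ q ∈ Icc 1 X, 1 / (q : ℝ) *
      ∑ c ∈ RR q, ‖hat (flt u A ℓ Q) (A + r * ℓ) ℓ ((c : ℝ) / q)‖ ^ 2 ≤
      (u₀ * Q ^ 4) ^ 2 + 2 * (u₀ * Q ^ 2 * X ^ 2) ^ 2 +
        2 / Q * ∑ c ∈ RR q, ‖hat u (A + r * ℓ) ℓ ((c : ℝ) / q)‖ ^ 2 := fun q hq => by
    obtain ⟨q1, q2⟩ := mem_Icc.1 hq
    have hq' : (0 : ℝ) < q := by exact_mod_cast q1
    have av : ∀ (f : ℕ → ℝ) (C : ℝ), 0 ≤ C → (∀ c ∈ RR q, f c ≤ C) →
        1 / (q : ℝ) * ∑ c ∈ RR q, f c ≤ C := fun f C hC h => by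
      rw [one_div_mul_eq_div, div_le_iff₀ hq']
      refine (sum_le_card_nsmul _ _ C h).trans ?_
      rw [nsmul_eq_mul, mul_comm]; exact mul_le_mul_of_nonneg_left (card_RR_le q) hC
    rcases le_or_gt q Q with h | h
    · refine (av _ ((u₀ * Q ^ 4) ^ 2) (by positivity) fun c hc => ?_).trans
        (by rw [add_assoc]; exact le_add_of_nonneg_right (by positivity))
      have := flat hu A r hℓ one (x := (q, c)) (mem_Far.2 ⟨⟨q1, h⟩, mem_range.1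
        (mem_filter.1 hc).1, (mem_filter.1 hc).2⟩)
      rw [Int.cast_one, one_mul] at this
      exact pow_le_pow_left₀ (norm_nonneg _) this 2
    · have b : ∀ c ∈ RR q, ‖hat (shp u A ℓ Q) (A + r * ℓ) ℓ ((c : ℝ) / q)‖ ≤ u₀ * Q ^ 2 * X ^ 2 :=
        fun c hc => by
          rw [hat_shp u A ℓ r one]
          simp only [Int.cast_one, one_mul]
          refine (sum_kernel_le hu _ ℓ _ subset_rfl th _ (D := X ^ 2) (pow_pos (by omega) 2)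
            fun y hy => ?_).trans (le_of_eq (by push_cast; ring))
          obtain ⟨y1, y2, y3⟩ := mem_Far.1 hy
          exact farey_spaced hq (mem_Icc.2 ⟨y1.1, by omega⟩) (mem_range.1 (mem_filter.1 hc).1) y2
            (mem_filter.1 hc).2 y3 fun e => by have := congrArg Prod.fst e; simp at this; omega
      calc _ ≤ 1 / (q : ℝ) * ∑ c ∈ RR q, (2 * (u₀ * Q ^ 2 * X ^ 2) ^ 2 +
            2 * ‖hat u (A + r * ℓ) ℓ ((c : ℝ) / q)‖ ^ 2) := by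
            gcongr with c hc
            rw [hat_flt]
            refine (pow_le_pow_left₀ (norm_nonneg _) ((norm_sub_le _ _).trans
              (add_le_add le_rfl (b c hc))) 2).trans ?_
            nlinarith [sq_nonneg (‖hat u (A + r * ℓ) ℓ ((c : ℝ) / q)‖ - u₀ * Q ^ 2 * X ^ 2)]
        _ ≤ _ := by
            rw [sum_add_distrib, mul_add]
            refine add_le_add ((av _ _ (by positivity) fun _ _ => le_rfl).trans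
              (le_add_of_nonneg_left (by positivity))) ?_
            rw [← mul_sum, ← mul_assoc]
            refine mul_le_mul_of_nonneg_right ?_ (by positivity)
            rw [one_div_mul_eq_div]; gcongr
  refine (sum_le_sum key).trans ?_
  rw [sum_add_distrib, ← mul_sum, sum_const, Nat.card_Icc, Nat.add_sub_cancel, nsmul_eq_mul]
  refine (add_le_add le_rfl (mul_le_mul_of_nonneg_left (ls_hat hu _ ℓ X) (by positivity))).trans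
    (le_of_eq (by ring))

theorem zero_freq {u : ℕ → ℂ} {u₀ : ℝ} (hu : ∀ a, ‖u a‖ ≤ u₀) (A R I : ℕ) {ℓ Q : ℕ} (hℓ : 0 < ℓ)
    (hQ : 0 < Q) :
    ∑ i ∈ Icc 1 I, ∑ r ∈ range R, ∑ r' ∈ range R,
      ‖ZZ (flt u A ℓ Q) i (A + r * ℓ) (A + r' * ℓ) ℓ‖ ≤ R ^ 2 * HH (4 * I) *
      (u₀ ^ 2 * ((4 * I : ℕ) * Q ^ 8 + 2 * (ℓ + ((4 * I) ^ 2 : ℕ) * HH ((4 * I) ^ 2)) * ℓ / Q +
        2 * (4 * I : ℕ) ^ 5 * Q ^ 4)) := by
  refine (sum_le_sum fun i hi => sum_le_sum fun r _ => sum_le_sum fun r' _ =>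
    ZZ_le _ (mem_Icc.1 hi).1 _ _ _).trans ?_
  simp only [← sum_div, sum_add_distrib, sum_const, card_range, nsmul_eq_mul, ← mul_sum (a := (R : ℝ))]
  rw [add_self_div_two, sum_comm, sq, mul_assoc, mul_assoc]
  refine mul_le_mul_of_nonneg_left ((sum_le_card_nsmul _ _ _ fun r _ => (sum_G_le
    (fun θ => ‖hat (flt u A ℓ Q) (A + r * ℓ) ℓ θ‖ ^ 2) (fun _ => by positivity) I).trans
    (mul_le_mul_of_nonneg_left (flt_mean hu A r (4 * I) hℓ hQ) (HH_nonneg _))).trans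
    (by simp)) (by positivity)

end Pool.Agent.Work.MP_51e72e_nt.QA
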