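import Pool.Agent.Work.MP_51e72e_nt.QAFar

/-!
# Gaussian sums, Poisson summation and a grouped double large sieve
-/

noncomputable section

open Finset Real MeasureTheory

namespace Pool.Agent.Work.MP_51e72e_nt.QA

open Pool.Agent.Lib.LargeSieve

/-- Gaussian of width `σ` -/
def gau (σ x : ℝ) : ℝ := Real.exp (-(π * x ^ 2 / σ ^ 2))

lemma gau_pos (σ x : ℝ) : 0 < gau σ x := Real.exp_pos _

lemma gau_le_one (σ x : ℝ) : gau σ x ≤ 1 := Real.exp_le_one_iff.2 (by
  have : 0 ≤ π * x ^ 2 / σ ^ 2 := by positivity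
  linarith)

lemma gau_neg (σ x : ℝ) : gau σ (-x) = gau σ x := by simp [gau]

lemma gau_le_exp (σ x : ℝ) : gau σ x ≤ 3 * Real.exp (-(2 * (|x| / σ))) := by
  have h : π * x ^ 2 / σ ^ 2 = π * (|x| / σ) ^ 2 := by rw [div_pow, sq_abs]; ring
  calc gau σ x ≤ Real.exp (1 + -(2 * (|x| / σ))) := by
        rw [gau, h]
        refine Real.exp_le_exp.2 ?_
        nlinarith [Real.pi_gt_three, sq_nonneg (|x| / σ - 1), sq_nonneg (|x| / σ)]
    _ ≤ _ := by
        rw [Real.exp_add]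
        gcongr
        linarith [Real.exp_one_lt_d9]

/-- beyond `L` widths the Gaussian is tiny compared with the Gaussian of double width -/
lemma gau_far {σ x L : ℝ} (hσ : 0 < σ) (hL : 0 ≤ L) (h : σ * L ≤ |x|) :
    gau σ x ≤ Real.exp (-(2 * L ^ 2)) * gau (2 * σ) x := by
  rw [gau, gau, ← Real.exp_add]
  refine Real.exp_le_exp.2 ?_
  have h1 : L ^ 2 ≤ x ^ 2 / σ ^ 2 := by
    rw [le_div_iff₀ (by positivity), ← mul_pow, ← sq_abs x, mul_comm]
    gcongr
  have e1 : π * x ^ 2 / σ ^ 2 = π * (x ^ 2 / σ ^ 2) := by ring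
  have e2 : π * x ^ 2 / (2 * σ) ^ 2 = π * (x ^ 2 / σ ^ 2) / 4 := by ring
  rw [e1, e2]
  nlinarith [Real.pi_gt_three, sq_nonneg L]

lemma gau_mono {σ σ' x x' : ℝ} (hσ' : 0 < σ') (h : |x'| / σ' ≤ |x| / σ) :
    gau σ x ≤ gau σ' x' := by
  refine Real.exp_le_exp.2 (neg_le_neg ?_)
  rw [mul_div_assoc, mul_div_assoc, ← sq_abs x, ← sq_abs x', ← div_pow, ← div_pow]
  gcongr

lemma sum_gau_half {ι : Type*} (s : Finset ι) (y : ι → ℝ) {σ σ' : ℝ} (hσ : 0 < σ) (hσ' : 0 < σ')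
    (h0 : ∀ j ∈ s, 0 ≤ y j) (hs : ∀ j ∈ s, ∀ k ∈ s, j ≠ k → σ' ≤ |y j - y k|) :
    ∑ j ∈ s, gau σ (y j) ≤ 3 * (1 + σ / σ') := by
  classical
  set r := Real.exp (-(2 * (σ' / σ))) with hr
  have hr0 : 0 < r := Real.exp_pos _
  have hu : 0 < σ' / σ := by positivity
  have hr1 : r * (1 + 2 * (σ' / σ)) ≤ 1 := by
    rw [hr, Real.exp_neg, inv_mul_le_iff₀ (Real.exp_pos _)]
    linarith [Real.add_one_le_exp (2 * (σ' / σ))]
  have hr2 : r < 1 := by nlinarith
  refine (sum_le_of_injOn s (s.image fun j => ⌊y j / σ'⌋₊) _ (fun m => 3 * r ^ m)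
    (fun j => ⌊y j / σ'⌋₊) ?_ (fun j hj => mem_image_of_mem _ hj) (fun _ _ => by positivity)
    ?_).trans ?_
  · intro j hj k hk h
    by_contra hne
    have h1 := hs j hj k hk hne
    have a1 := Nat.floor_le (div_nonneg (h0 j hj) hσ'.le)
    have a2 := Nat.lt_floor_add_one (y j / σ')
    have a3 := Nat.floor_le (div_nonneg (h0 k hk) hσ'.le)
    have a4 := Nat.lt_floor_add_one (y k / σ')
    simp only at h
    rw [h] at a1 a2
    have : |y j / σ' - y k / σ'| < 1 := by rw [abs_lt]; constructor <;> linarith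
    rw [← sub_div, abs_div, abs_of_pos hσ', div_lt_one hσ'] at this
    linarith
  · intro j hj
    refine (gau_le_exp _ _).trans ?_
    rw [hr, ← Real.exp_nat_mul, abs_of_nonneg (h0 j hj)]
    gcongr
    have a1 := Nat.floor_le (div_nonneg (h0 j hj) hσ'.le)
    have : y j / σ = y j / σ' * (σ' / σ) := by field_simp
    rw [this]
    nlinarith
  · rw [← mul_sum]
    gcongr
    refine ((summable_geometric_of_lt_one hr0.le hr2).sum_le_tsum _
      (fun _ _ => by positivity)).trans ?_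
    rw [tsum_geometric_of_lt_one hr0.le hr2, inv_le_iff_one_le_mul₀ (by linarith)]
    have e : σ / σ' * (σ' / σ) = 1 := by field_simp
    have : 0 < σ / σ' := by positivity
    nlinarith

lemma sum_gau_le {ι : Type*} (s : Finset ι) (y : ι → ℝ) {σ σ' : ℝ} (hσ : 0 < σ) (hσ' : 0 < σ')
    (hs : ∀ j ∈ s, ∀ k ∈ s, j ≠ k → σ' ≤ |y j - y k|) :
    ∑ j ∈ s, gau σ (y j) ≤ 6 * (1 + σ / σ') := by
  rw [← sum_filter_add_sum_filter_not s (fun j => 0 ≤ y j)]
  have h1 := sum_gau_half (s.filter fun j => 0 ≤ y j) y hσ hσ' (fun j hj => (mem_filter.1 hj).2)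
    (fun j hj k hk => hs j (mem_filter.1 hj).1 k (mem_filter.1 hk).1)
  have h2 := sum_gau_half (s.filter fun j => ¬ 0 ≤ y j) (fun j => - y j) hσ hσ'
    (fun j hj => by have := (mem_filter.1 hj).2; linarith)
    (fun j hj k hk h => by
      rw [neg_sub_neg, abs_sub_comm]; exact hs j (mem_filter.1 hj).1 k (mem_filter.1 hk).1 h)
  simp only [gau_neg] at h2
  linarith

lemma sum_gau_int (s : Finset ℤ) {σ : ℝ} (hσ : 0 < σ) (β : ℝ) :
    ∑ b ∈ s, gau σ (b - β) ≤ 6 * (1 + σ) := by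
  have := sum_gau_le s (fun b => (b : ℝ) - β) hσ one_pos fun j _ k _ h => by
    rw [sub_sub_sub_cancel_right, ← Int.cast_sub, ← Int.cast_abs]
    exact_mod_cast Int.one_le_abs (sub_ne_zero.2 h)
  simpa using this

lemma summable_gau_int {σ : ℝ} (hσ : 0 < σ) (β : ℝ) : Summable fun b : ℤ => gau σ (b - β) :=
  summable_of_sum_le (fun _ => (gau_pos _ _).le) fun s => sum_gau_int s hσ β

lemma tail_bound (F : ℤ → ℂ) (s : Finset ℤ) {σ β E : ℝ} (hσ : 0 < σ) (hE : 0 ≤ E)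
    (hF : Summable F) (h : ∀ b ∉ s, ‖F b‖ ≤ E * gau σ (b - β)) :
    ‖∑' b, F b - ∑ b ∈ s, F b‖ ≤ E * (6 * (1 + σ)) := by
  rw [← hF.sum_add_tsum_compl (s := s), add_sub_cancel_left]
  have h1 : Summable fun b : ↑((s : Set ℤ)ᶜ) => E * gau σ ((b : ℤ) - β) :=
    ((summable_gau_int hσ β).mul_left E).subtype _
  refine (tsum_of_norm_bounded h1.hasSum fun b => h b b.2).trans ?_
  refine (Summable.tsum_subtype_le (fun b : ℤ => E * gau σ (b - β)) _
    (fun b => mul_nonneg hE (gau_pos _ _).le) ((summable_gau_int hσ β).mul_left E)).trans ?_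
  rw [tsum_mul_left]
  gcongr
  exact (summable_gau_int hσ β).tsum_le_of_sum_le fun s => sum_gau_int s hσ β

lemma poisson_gau {δ : ℝ} (hδ : 0 < δ) (β : ℝ) :
    ∑' b : ℤ, (gau δ (b - β) : ℂ) = δ * ∑' h : ℤ, gau δ⁻¹ h * ee (h * β) := by
  have h := Complex.tsum_exp_neg_quadratic (a := (δ : ℂ) ^ 2)
    (by rw [← Complex.ofReal_pow, Complex.ofReal_re]; positivity) (Complex.I * β)
  have hδ' : (δ : ℂ) ≠ 0 := by exact_mod_cast hδ.ne'
  have e : ((δ : ℂ) ^ 2) ^ (1 / 2 : ℂ) = δ := by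
    have : (1 / 2 : ℂ) = ((1 / 2 : ℝ) : ℂ) := by norm_num
    rw [this, ← Complex.ofReal_pow, ← Complex.ofReal_cpow (by positivity), ← Real.sqrt_eq_rpow,
      Real.sqrt_sq hδ.le]
  have e1 : ∀ n : ℤ, (gau δ⁻¹ n : ℂ) * ee (n * β) = Complex.exp (-π * (δ : ℂ) ^ 2 * n ^ 2 +
      2 * π * (Complex.I * β) * n) := fun n => by
    rw [gau, ee, Complex.ofReal_exp, ← Complex.exp_add]
    congr 1
    push_cast; field_simp
  have e2 : ∀ n : ℤ, (gau δ (n - β) : ℂ) = Complex.exp (-π / (δ : ℂ) ^ 2 *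
      (n + Complex.I * (Complex.I * β)) ^ 2) := fun n => by
    rw [gau, Complex.ofReal_exp, ← mul_assoc, Complex.I_mul_I]
    congr 1
    push_cast; ring
  simp_rw [e1, e2]
  rw [h, e]
  field_simp

/-- truncated Poisson summation for a narrow Gaussian -/
lemma poisson_trunc {δ L : ℝ} (hδ : 0 < δ) (hδ1 : δ ≤ 1) (hL : 0 ≤ L) (β : ℝ) (s : Finset ℤ)
    (hs : ∀ b : ℤ, |b - β| ≤ δ * L → b ∈ s) (H : ℕ) (hH : L ≤ δ * H) :
    ‖∑ b ∈ s, (gau δ (b - β) : ℂ) - δ * ∑ h ∈ Icc (-(H : ℤ)) H, gau δ⁻¹ h * ee (h * β)‖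
      ≤ 36 * Real.exp (-(2 * L ^ 2)) := by
  have h1 := tail_bound (fun b => (gau δ (b - β) : ℂ)) s (σ := 2 * δ) (β := β)
    (E := Real.exp (-(2 * L ^ 2))) (by positivity) (by positivity)
    (Complex.summable_ofReal.2 (summable_gau_int hδ β)) fun b hb => by
      rw [Complex.norm_real, Real.norm_of_nonneg (gau_pos _ _).le]
      exact gau_far hδ hL (not_le.1 fun h => hb (hs b h)).le
  have h2 := tail_bound (fun h => (gau δ⁻¹ h : ℂ) * ee (h * β)) (Icc (-(H : ℤ)) H) (σ := 2 * δ⁻¹)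
    (β := 0) (E := Real.exp (-(2 * L ^ 2))) (by positivity) (by positivity)
    (Summable.of_norm (by
      simpa [abs_of_pos (gau_pos _ _)] using summable_gau_int (inv_pos.2 hδ) 0)) fun b hb => by
      rw [norm_mul, norm_ee, mul_one, Complex.norm_real, Real.norm_of_nonneg (gau_pos _ _).le,
        sub_zero]
      refine gau_far (inv_pos.2 hδ) hL ?_
      rw [inv_mul_le_iff₀ hδ]
      refine hH.trans (mul_le_mul_of_nonneg_left ?_ hδ.le)
      rw [mem_Icc, ← abs_le, not_le] at hb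
      exact_mod_cast hb.le
  rw [poisson_gau hδ] at h1
  have h3 : ‖(δ : ℂ) * ∑' h : ℤ, gau δ⁻¹ h * ee (h * β) -
      δ * ∑ h ∈ Icc (-(H : ℤ)) H, gau δ⁻¹ h * ee (h * β)‖ ≤ 18 * Real.exp (-(2 * L ^ 2)) := by
    rw [← mul_sub, norm_mul, Complex.norm_real, Real.norm_of_nonneg hδ.le]
    calc _ ≤ δ * (Real.exp (-(2 * L ^ 2)) * (6 * (1 + 2 * δ⁻¹))) := by gcongr
      _ = Real.exp (-(2 * L ^ 2)) * (6 * (δ + 2)) := by field_simp
      _ ≤ Real.exp (-(2 * L ^ 2)) * (6 * (1 + 2)) := by gcongr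
      _ = _ := by ring
  have h4 : Real.exp (-(2 * L ^ 2)) * (6 * (1 + 2 * δ)) ≤ 18 * Real.exp (-(2 * L ^ 2)) := by
    nlinarith [Real.exp_pos (-(2 * L ^ 2))]
  rw [norm_sub_rev] at h1
  linarith [norm_sub_le_norm_sub_add_norm_sub (∑ b ∈ s, (gau δ (b - β) : ℂ))
    ((δ : ℂ) * ∑' h : ℤ, gau δ⁻¹ h * ee (h * β))
    (δ * ∑ h ∈ Icc (-(H : ℤ)) H, gau δ⁻¹ h * ee (h * β))]

lemma continuous_ee : Continuous ee := by unfold ee; fun_prop

lemma continuous_gau (σ : ℝ) : Continuous (gau σ) := by unfold gau; fun_prop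

lemma integrable_gau {σ : ℝ} (hσ : 0 < σ) (s : ℝ) : Integrable fun t => gau σ (t - s) := by
  refine Integrable.comp_sub_right (f := gau σ) ?_ s
  have := integrable_exp_neg_mul_sq (b := π / σ ^ 2) (by positivity)
  refine this.congr (Filter.Eventually.of_forall fun x => ?_)
  simp only [gau]; congr 1; ring

lemma integrable_gau_ee {σ : ℝ} (hσ : 0 < σ) (s y : ℝ) :
    Integrable fun t => (gau σ (t - s) : ℂ) * ee (t * y) :=
  (integrable_gau hσ s).ofReal.mul_bdd (c := 1)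
    (continuous_ee.comp (by fun_prop)).aestronglyMeasurable
    (Filter.Eventually.of_forall fun t => (norm_ee _).le)

lemma integral_gau_ee {σ : ℝ} (hσ : 0 < σ) (s y : ℝ) :
    ∫ t, (gau σ (t - s) : ℂ) * ee (t * y) = σ * gau σ⁻¹ y * ee (s * y) := by
  have hσ' : (σ : ℂ) ≠ 0 := by exact_mod_cast hσ.ne'
  have hπ : (π : ℂ) ≠ 0 := by exact_mod_cast Real.pi_ne_zero
  have h := integral_cexp_quadratic (b := -(π / σ ^ 2 : ℝ)) (by
    rw [Complex.neg_re, Complex.ofReal_re, neg_lt_zero]; positivity)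
    (2 * π * s / σ ^ 2 + 2 * π * y * Complex.I) (-(π * s ^ 2 / σ ^ 2))
  have e : ((π : ℂ) / - -((π / σ ^ 2 : ℝ) : ℂ)) ^ (1 / 2 : ℂ) = σ := by
    have : (1 / 2 : ℂ) = ((1 / 2 : ℝ) : ℂ) := by norm_num
    have e0 : (π : ℂ) / - -((π / σ ^ 2 : ℝ) : ℂ) = ((σ ^ 2 : ℝ) : ℂ) := by
      push_cast; field_simp
    rw [this, e0, ← Complex.ofReal_cpow (by positivity), ← Real.sqrt_eq_rpow, Real.sqrt_sq hσ.le]
  rw [e] at h
  refine Eq.trans (integral_congr_ae (Filter.Eventually.of_forall fun t => ?_)) (h.trans ?_)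
  · simp only
    rw [gau, ee, Complex.ofReal_exp, ← Complex.exp_add]
    congr 1
    push_cast; ring
  · rw [gau, ee, Complex.ofReal_exp, mul_assoc (σ : ℂ), ← Complex.exp_add]
    congr 2
    push_cast; field_simp
    linear_combination (4 * σ ^ 4 * y ^ 2 : ℂ) * Complex.I_sq

lemma exp_pi_le : Real.exp π ≤ 25 := by
  have h1 : Real.exp π ≤ Real.exp 1 ^ 3 * Real.exp (1 / 5) := by
    rw [← Real.exp_nat_mul, ← Real.exp_add]
    exact Real.exp_le_exp.2 (by linarith [Real.pi_lt_d2])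
  have h2 : Real.exp (1 / 5) ≤ 1.24 := by
    have := Real.exp_bound_div_one_sub_of_interval' (x := 1 / 5) (by norm_num) (by norm_num)
    have h3 := Real.exp_bound (x := 1 / 5) (by rw [abs_of_pos] <;> norm_num) (n := 3) (by norm_num)
    simp [Finset.sum_range_succ, Nat.factorial] at h3
    have := (abs_le.1 h3).2
    norm_num at this ⊢
    linarith
  have h3 : Real.exp 1 ^ 3 ≤ 2.72 ^ 3 := by
    gcongr; linarith [Real.exp_one_lt_d9]
  calc _ ≤ _ := h1
    _ ≤ 2.72 ^ 3 * 1.24 := by gcongr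
    _ ≤ _ := by norm_num

lemma one_le_gau {σ x : ℝ} (hσ : 0 < σ) (h : |x| ≤ σ) : 1 ≤ 25 * gau σ x := by
  have h1 : x ^ 2 / σ ^ 2 ≤ 1 := by
    rw [div_le_one (by positivity), ← sq_abs x]; gcongr
  calc 1 ≤ Real.exp (π + -(π * x ^ 2 / σ ^ 2)) := by
        refine Real.one_le_exp ?_
        rw [mul_div_assoc]
        nlinarith [Real.pi_pos]
    _ ≤ _ := by
        rw [Real.exp_add, gau]
        gcongr
        exact exp_pi_le

lemma jensen_gau {Y : ℝ} (hY : 0 < Y) (s : ℝ) {F : ℝ → ℂ} (hF : Continuous F) {B : ℝ}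
    (hB : ∀ t, ‖F t‖ ≤ B) :
    ‖∫ t, (Y * gau Y⁻¹ (t - s) : ℝ) * F t‖ ^ 2 ≤ ∫ t, Y * gau Y⁻¹ (t - s) * ‖F t‖ ^ 2 := by
  have hφ : Integrable fun t => Y * gau Y⁻¹ (t - s) := (integrable_gau (inv_pos.2 hY) s).const_mul Y
  have hφ0 : ∀ t, 0 ≤ Y * gau Y⁻¹ (t - s) := fun t => mul_nonneg hY.le (gau_pos _ _).le
  have h1 : ∫ t, Y * gau Y⁻¹ (t - s) = 1 := by
    have := integral_gau_ee (inv_pos.2 hY) s 0
    simp only [mul_zero, ee_zero, mul_one, integral_complex_ofReal] at this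
    rw [integral_const_mul]
    have h2 : ∫ t, gau Y⁻¹ (t - s) = Y⁻¹ := by
      have h3 : gau Y⁻¹⁻¹ 0 = 1 := by simp [gau]
      rw [h3] at this
      exact_mod_cast (by simpa using this : ((∫ t, gau Y⁻¹ (t - s) : ℝ) : ℂ) = (Y⁻¹ : ℝ))
    rw [h2, mul_inv_cancel₀ hY.ne']
  have i1 : Integrable fun t => Y * gau Y⁻¹ (t - s) * ‖F t‖ :=
    hφ.mul_bdd (c := B) hF.norm.aestronglyMeasurable
      (Filter.Eventually.of_forall fun t => by simpa using hB t)
  have i2 : Integrable fun t => Y * gau Y⁻¹ (t - s) * ‖F t‖ ^ 2 :=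
    hφ.mul_bdd (c := B ^ 2) (hF.norm.pow 2).aestronglyMeasurable
      (Filter.Eventually.of_forall fun t => by
        rw [Real.norm_of_nonneg (by positivity)]; gcongr; exact hB t)
  set l := ‖∫ t, (Y * gau Y⁻¹ (t - s) : ℝ) * F t‖ with hl
  have h2 : l ≤ ∫ t, Y * gau Y⁻¹ (t - s) * ‖F t‖ := by
    refine (norm_integral_le_integral_norm _).trans (le_of_eq ?_)
    refine integral_congr_ae (Filter.Eventually.of_forall fun t => ?_)
    simp only [norm_mul, Complex.norm_real, Real.norm_of_nonneg (hφ0 t)]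
  have h3 : ∫ t, 2 * l * (Y * gau Y⁻¹ (t - s) * ‖F t‖)
      ≤ ∫ t, (l ^ 2 * (Y * gau Y⁻¹ (t - s)) + Y * gau Y⁻¹ (t - s) * ‖F t‖ ^ 2) :=
    integral_mono (i1.const_mul _) ((hφ.const_mul _).add i2) fun t => by
      nlinarith [mul_nonneg (hφ0 t) (sq_nonneg (l - ‖F t‖))]
  rw [integral_const_mul, integral_add (hφ.const_mul _) i2, integral_const_mul, h1] at h3
  have h4 : 0 ≤ l := norm_nonneg _
  nlinarith [mul_le_mul_of_nonneg_left h2 h4]

/-- grouped Gaussian double large sieve -/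
theorem gls {γ ι κ : Type*} (G : Finset γ) (S : γ → Finset ι) (p : ι → ℝ) (M : Finset κ)
    (y : κ → ℝ) (c : κ → γ → ℂ) {S₀ Y σ : ℝ} (hS₀ : 0 < S₀) (hY : 0 < Y) (hσ : 0 < σ)
    (hSY : 2 ≤ S₀ * Y) (hp : ∀ g ∈ G, ∀ a ∈ S g, |p a| ≤ S₀)
    (hsp : ∀ g ∈ G, ∀ a ∈ S g, ∀ a' ∈ S g, a ≠ a' → σ ≤ |p a - p a'|) (hy : ∀ m ∈ M, |y m| ≤ Y) :
    ∑ g ∈ G, ∑ a ∈ S g, ‖∑ m ∈ M, c m g * ee (p a * y m)‖ ^ 2
      ≤ 400000 * (Y + 1 / σ) * S₀ * ∑ m ∈ M, ∑ m' ∈ M,
        ‖∑ g ∈ G, c m g * (starRingEnd ℂ) (c m' g)‖ * gau (2 * S₀)⁻¹ (y m - y m') := by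
  set F : γ → ℝ → ℂ := fun g t => ∑ m ∈ M, (c m g / gau Y (y m)) * ee (t * y m) with hF
  have hFc : ∀ g, Continuous (F g) := fun g =>
    continuous_finsetSum _ fun m _ => continuous_const.mul (continuous_ee.comp (by fun_prop))
  have hFb : ∀ g t, ‖F g t‖ ≤ ∑ m ∈ M, ‖c m g / gau Y (y m)‖ := fun g t =>
    (norm_sum_le _ _).trans (by simp)
  have hint : ∀ g σ', 0 < σ' → ∀ s, Integrable fun t => gau σ' (t - s) * ‖F g t‖ ^ 2 :=
    fun g σ' h s => (integrable_gau h s).mul_bdd (c := (∑ m ∈ M, ‖c m g / gau Y (y m)‖) ^ 2)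
      ((hFc g).norm.pow 2).aestronglyMeasurable (Filter.Eventually.of_forall fun t => by
        rw [Real.norm_of_nonneg (by positivity)]; gcongr; exact hFb g t)
  have h1 : ∀ g s, ∑ m ∈ M, c m g * ee (s * y m) = ∫ t, (Y * gau Y⁻¹ (t - s) : ℝ) * F g t := by
    intro g s
    have : ∀ t, ((Y * gau Y⁻¹ (t - s) : ℝ) : ℂ) * F g t = ∑ m ∈ M,
        (Y * (c m g / gau Y (y m))) * (gau Y⁻¹ (t - s) * ee (t * y m)) := fun t => by
      simp only [hF, mul_sum]
      exact sum_congr rfl fun m _ => by push_cast; ring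
    simp_rw [this]
    rw [integral_finsetSum _ fun m _ => (integrable_gau_ee (inv_pos.2 hY) s _).const_mul _]
    refine sum_congr rfl fun m _ => ?_
    rw [integral_const_mul, integral_gau_ee (inv_pos.2 hY), inv_inv]
    have : (gau Y (y m) : ℂ) ≠ 0 := by exact_mod_cast (gau_pos _ _).ne'
    have : (Y : ℂ) ≠ 0 := by exact_mod_cast hY.ne'
    push_cast; field_simp
  have h2 : ∀ g ∈ G, ∑ a ∈ S g, ‖∑ m ∈ M, c m g * ee (p a * y m)‖ ^ 2
      ≤ 300 * (Y + 1 / σ) * ∫ t, gau (2 * S₀) (t - 0) * ‖F g t‖ ^ 2 := by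
    intro g hg
    calc _ ≤ ∑ a ∈ S g, ∫ t, Y * gau Y⁻¹ (t - p a) * ‖F g t‖ ^ 2 :=
          sum_le_sum fun a _ => by rw [h1]; exact jensen_gau hY _ (hFc g) (hFb g)
      _ = ∫ t, ∑ a ∈ S g, Y * gau Y⁻¹ (t - p a) * ‖F g t‖ ^ 2 :=
          (integral_finsetSum _ fun a _ => by
            simpa only [mul_assoc] using (hint g _ (inv_pos.2 hY) (p a)).const_mul Y).symm
      _ ≤ ∫ t, 300 * (Y + 1 / σ) * (gau (2 * S₀) (t - 0) * ‖F g t‖ ^ 2) := by
          refine integral_mono (integrable_finsetSum _ fun a _ => by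
            simpa only [mul_assoc] using (hint g _ (inv_pos.2 hY) (p a)).const_mul Y)
            ((hint g _ (by positivity) 0).const_mul _) fun t => ?_
          simp only [← sum_mul, ← mul_sum, ← mul_assoc]
          refine mul_le_mul_of_nonneg_right ?_ (by positivity)
          have b1 : ∀ a ∈ S g, gau Y⁻¹ (t - p a)
              ≤ 25 * gau (2 * S₀) (t - 0) * gau (2 * Y⁻¹) (t - p a) := fun a ha => by
            refine le_trans ?_ (mul_le_mul_of_nonneg_right (mul_le_mul_of_nonneg_right exp_pi_le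
              (gau_pos _ _).le) (gau_pos _ _).le)
            simp only [gau, ← Real.exp_add]
            refine Real.exp_le_exp.2 ?_
            have c1 : p a ^ 2 ≤ S₀ ^ 2 := by rw [← sq_abs]; gcongr; exact hp g hg a ha
            have c2 : 4 ≤ S₀ ^ 2 * Y ^ 2 := by nlinarith
            have c3 : (t - 0) ^ 2 / (2 * S₀) ^ 2 ≤ (t - p a) ^ 2 * Y ^ 2 / 2 + 1 := by
              rw [div_le_iff₀ (by positivity)]
              nlinarith [sq_nonneg (t - 2 * p a), mul_le_mul_of_nonneg_left c2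
                (sq_nonneg (t - p a))]
            have e1 : π * (t - p a) ^ 2 / Y⁻¹ ^ 2 = π * ((t - p a) ^ 2 * Y ^ 2) := by field_simp
            have e2 : π * (t - p a) ^ 2 / (2 * Y⁻¹) ^ 2 = π * ((t - p a) ^ 2 * Y ^ 2) / 4 := by
              field_simp; norm_num
            rw [e1, e2, mul_div_assoc π]
            nlinarith [mul_le_mul_of_nonneg_left c3 Real.pi_pos.le,
              mul_nonneg Real.pi_pos.le (mul_nonneg (sq_nonneg (t - p a)) (sq_nonneg Y))]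
          have b2 := sum_gau_le (S g) (fun a => t - p a) (σ := 2 * Y⁻¹) (by positivity) hσ
            fun a ha a' ha' h => by
              rw [sub_sub_sub_cancel_left, abs_sub_comm]; exact hsp g hg a ha a' ha' h
          calc _ ≤ Y * (25 * gau (2 * S₀) (t - 0) * (6 * (1 + 2 * Y⁻¹ / σ))) := by
                gcongr
                refine (sum_le_sum b1).trans ?_
                rw [← mul_sum]
                gcongr
                exact mul_nonneg (by norm_num) (gau_pos _ _).le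
            _ = 150 * (Y + 2 * (1 / σ)) * gau (2 * S₀) (t - 0) := by field_simp; ring
            _ ≤ _ := by
                have : 0 < 1 / σ := by positivity
                gcongr ?_ * _
                · exact (gau_pos _ _).le
                · linarith
      _ = _ := integral_const_mul _ _
  have h3 : ∑ g ∈ G, ∫ t, gau (2 * S₀) (t - 0) * ‖F g t‖ ^ 2 ≤ 1250 * S₀ * ∑ m ∈ M, ∑ m' ∈ M,
      ‖∑ g ∈ G, c m g * (starRingEnd ℂ) (c m' g)‖ * gau (2 * S₀)⁻¹ (y m - y m') := by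
    have e : ((∑ g ∈ G, ∫ t, gau (2 * S₀) (t - 0) * ‖F g t‖ ^ 2 : ℝ) : ℂ) = ∑ m ∈ M, ∑ m' ∈ M,
        (∑ g ∈ G, c m g * (starRingEnd ℂ) (c m' g)) / (gau Y (y m) * gau Y (y m')) *
          ((2 * S₀ : ℝ) * gau (2 * S₀)⁻¹ (y m - y m')) := by
      have : ∀ g, ((∫ t, gau (2 * S₀) (t - 0) * ‖F g t‖ ^ 2 : ℝ) : ℂ) = ∑ m ∈ M, ∑ m' ∈ M,
          (c m g * (starRingEnd ℂ) (c m' g)) / (gau Y (y m) * gau Y (y m')) *
            ((2 * S₀ : ℝ) * gau (2 * S₀)⁻¹ (y m - y m')) := fun g => by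
        have e1 : ∀ t, ((gau (2 * S₀) (t - 0) * ‖F g t‖ ^ 2 : ℝ) : ℂ) = ∑ m ∈ M, ∑ m' ∈ M,
            (c m g * (starRingEnd ℂ) (c m' g)) / (gau Y (y m) * gau Y (y m')) *
              (gau (2 * S₀) (t - 0) * ee (t * (y m - y m'))) := fun t => by
          rw [Complex.ofReal_mul, hF, normSq_sum_eq, mul_sum]
          refine sum_congr rfl fun m _ => ?_
          rw [mul_sum]
          refine sum_congr rfl fun m' _ => ?_
          rw [map_mul, map_div₀, Complex.conj_ofReal, conj_ee, mul_sub, sub_eq_add_neg (t * y m),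
            ee_add]
          ring
        rw [← integral_complex_ofReal]
        simp_rw [e1]
        rw [integral_finsetSum _ fun m _ => integrable_finsetSum _ fun m' _ =>
          (integrable_gau_ee (by positivity) 0 _).const_mul _]
        refine sum_congr rfl fun m _ => ?_
        rw [integral_finsetSum _ fun m' _ => (integrable_gau_ee (by positivity) 0 _).const_mul _]
        refine sum_congr rfl fun m' _ => ?_
        rw [integral_const_mul, integral_gau_ee (by positivity)]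
        simp
      rw [Complex.ofReal_sum]
      simp_rw [this]
      rw [sum_comm]
      refine sum_congr rfl fun m _ => ?_
      rw [sum_comm]
      refine sum_congr rfl fun m' _ => ?_
      rw [← sum_mul, ← sum_div]
    refine (le_abs_self _).trans ?_
    rw [← Real.norm_eq_abs, ← Complex.norm_real, e, mul_sum]
    refine (norm_sum_le _ _).trans (sum_le_sum fun m hm => ?_)
    rw [mul_sum]
    refine (norm_sum_le _ _).trans (sum_le_sum fun m' hm' => ?_)
    have a1 := one_le_gau hY (hy m hm)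
    have a2 := one_le_gau hY (hy m' hm')
    have a3 := gau_pos Y (y m)
    have a4 := gau_pos Y (y m')
    have a5 := gau_pos (2 * S₀)⁻¹ (y m - y m')
    simp only [norm_mul, norm_div, Complex.norm_real, Real.norm_of_nonneg a3.le,
      Real.norm_of_nonneg a4.le, Real.norm_of_nonneg a5.le,
      Real.norm_of_nonneg (show 0 ≤ 2 * S₀ by positivity)]
    rw [div_mul_eq_mul_div, div_le_iff₀ (by positivity)]
    have a6 : 1 ≤ 625 * (gau Y (y m) * gau Y (y m')) := by nlinarith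
    calc _ ≤ ‖∑ g ∈ G, c m g * (starRingEnd ℂ) (c m' g)‖ * (2 * S₀ * gau (2 * S₀)⁻¹ (y m - y m'))
          * (625 * (gau Y (y m) * gau Y (y m'))) := le_mul_of_one_le_right (by positivity) a6
      _ = _ := by ring
  have h4 : 0 ≤ ∑ m ∈ M, ∑ m' ∈ M,
      ‖∑ g ∈ G, c m g * (starRingEnd ℂ) (c m' g)‖ * gau (2 * S₀)⁻¹ (y m - y m') :=
    sum_nonneg fun _ _ => sum_nonneg fun _ _ => mul_nonneg (norm_nonneg _) (gau_pos _ _).le
  calc _ ≤ _ := sum_le_sum h2
    _ ≤ 300 * (Y + 1 / σ) * (1250 * S₀ * _) := by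
        rw [← mul_sum]; gcongr
    _ ≤ 320 * (Y + 1 / σ) * (1250 * S₀ * _) := by gcongr; norm_num
    _ = _ := by ring

end Pool.Agent.Work.MP_51e72e_nt.QA
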