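import Pool.Agent.Work.MP_51e72e_nt.QAPar

noncomputable section
open Finset Real Filter Topology
open Pool.Agent.Lib.LargeSieve

namespace Pool.Agent.Work.MP_51e72e_nt.QA

variable {t L : ℝ} {N K ℓ Q z r U W a N₁ : ℕ}

lemma Pm.mj (p : Pm t L N K ℓ Q z r U W a N₁) (hτ : ∀ d ∈ Icc 1 (z ^ (2 * r) * N),
      √(2 * d) * d.divisors.card * HH d * (2 + HH d) ≤ Real.exp (3 / 5 * L))
    (sw : ∀ q : ℕ, 0 < q → (q : ℝ) ≤ Real.log ((N + 1) ^ 2 : ℕ) ^ 200 → SWH ((N + 1) ^ 2) q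
      (2 * ((N + 1) ^ 2 : ℕ) / Real.log ((N + 1) ^ 2 : ℕ) ^ 200))
    {δ C C₁ : ℝ} (hδ : 0 ≤ δ) (Ct : C ≤ t)
    (hS : ∀ n : ℕ, |∑ m ∈ range n, (tp m - 1)| ≤ δ * n + C)
    (hC : ∑ k ∈ Icc 1 K, |Sg Q (k : ℕ)| ≤ C₁ * K) :
    ∑ k ∈ Icc 1 K, |Th (wt N a) N k - Sg Q k * N| ≤
      13 * (K * N / t) + C₁ * K * (8 * δ * N + 2 * (N / t)) := by
  have kr := p.kr hτ
  have vb := p.vb hτ
  obtain ⟨t0, L0, l0, Q0, a0, n0, two, lc, lt1, lt2, lL, ll, lQ, p1, p2, p3, rz, lK', a1, a2, n1,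
    n2, y1⟩ := p.fc
  obtain ⟨t6, hL, NL, N0, K0, KN, lK, l1, l2, hQ, B, z0, z1, z2, -⟩ := p
  have lu : Real.log ℓ ≤ Real.log 2 + Real.log L := by
    rw [← Real.log_mul (by positivity) (by positivity)]; exact Real.log_le_log (by positivity) l2
  have lX : L ≤ Real.log ((N + 1) ^ 2 : ℕ) := NL ▸ log_nat_mono (by nlinarith)
  have N1 : (1 : ℝ) ≤ N := by exact_mod_cast N0
  have hX : (((N + 1) ^ 2 : ℕ) : ℝ) ≤ 4 * N ^ 2 := by push_cast; nlinarith
  have QL : (Q : ℝ) ≤ L ^ 200 := lg (by positivity) (by positivity) (by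
    rw [Real.log_pow]; push_cast; linarith)
  have l4 := lc 4 (by norm_num) (by norm_num)
  have l8 := lc 8 (by norm_num) (by norm_num)
  have l7 := lc 7 (by norm_num) (by norm_num)
  have l3 := lc 3 (by norm_num) (by norm_num)
  have m := kr.major (z := z) (E := 2 * (4 * N ^ 2) / L ^ 200) (D := 8 * δ * N + 2 * (N / t))
    (lg' (by positivity) (by positivity) ?_) (lg' (by positivity) (by positivity) ?_)
    (by positivity) (fun q hq χ hχ x hx => (sw q (mem_Icc.1 hq).1 (le_trans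
      (by exact_mod_cast (mem_Icc.1 hq).2) (QL.trans (by gcongr))) χ hχ x hx).trans (by gcongr))
    ((kr.mass_tp (wt_One a0) hδ hS).trans ?_)
  · refine m.trans (add_le_add ?_ (mul_le_mul_of_nonneg_right hC (by positivity)))
    have sK : Real.log √(K : ℝ) = Real.log K / 2 := Real.log_sqrt (by positivity)
    calc _ ≤ 9 * (K * N / t) + (4 * N * L * √K + 4 * N * L + 4 * L * K * Q ^ 3) +
          K * 8 * Q ^ 4 * 8 * N / L ^ 200 :=
          add_le_add (add_le_add vb (le_of_eq (by field_simp))) (le_of_eq (by field_simp; norm_num))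
      _ ≤ 9 * (K * N / t) + (K * N / t + K * N / t + K * N / t) + K * N / t := by
          refine add_le_add (add_le_add le_rfl (add_le_add (add_le_add ?_ ?_) ?_)) ?_ <;>
          · refine lg (by positivity) (by positivity) ?_
            simp (disch := positivity) only [Real.log_mul, Real.log_pow, Real.log_div,
              Nat.cast_ofNat]
            linarith
      _ = _ := by ring
  · rw [Real.log_pow]; push_cast; linarith
  · rw [Real.log_pow]; push_cast; linarith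
  have b1 : 7 * t ≤ N / t := lg (by positivity) (by positivity) (by
    simp (disch := positivity) only [Real.log_mul, Real.log_div]; linarith)
  have b2 : 3 * (a : ℝ) ≤ N / t := lg (by positivity) (by positivity) (by
    simp (disch := positivity) only [Real.log_mul, Real.log_div]; linarith)
  nlinarith

lemma Pm.sing (p : Pm t L N K ℓ Q z r U W a N₁) : 2 * Q ^ 5 ≤ K ∧ Q ≤ N ∧ N + 1 ≤ 2 ^ W ∧
    (4 * N : ℝ) ≤ (W / 2) ^ 21 ∧ t ≤ W ∧ Real.log Q / L ≤ 1 / t ∧ 9 * a * L ≤ N / t ∧ 2 ≤ N ∧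
    N ≤ a ^ 2 ∧ ∑ k ∈ Icc 1 K, |EP Q (k : ℕ) - Sg Q (k : ℕ)| ≤ 2 * (K / t) ∧
    ∑ k ∈ Icc 1 K, sk Q N W (k : ℕ) ≤ 4 * (K / t) := by
  obtain ⟨t0, L0, l0, Q0, a0, n0, two, lc, lt1, lt2, lL, ll, lQ, p1, p2, p3, rz, lK', a1, a2, n1,
    n2, y1⟩ := p.fc
  obtain ⟨t6, hL, NL, N0, K0, KN, lK, l1, l2, hQ, B, z0, z1, z2, -, -, -, -, -, W0, W1, W2, -⟩ := p
  have l4 := lc 4 (by norm_num) (by norm_num)
  have l9 := lc 9 (by norm_num) (by norm_num)
  have l3 := lc 3 (by norm_num) (by norm_num)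
  have l5 := lc 180 (by norm_num) (by norm_num)
  have l6 := lc 256 (by norm_num) (by norm_num)
  have l7 := lc 24 (by norm_num) (by norm_num)
  have QN : Q ≤ N := lgN Q0 N0 (by linarith)
  have WL : 3 * L ≤ W := lg (by positivity) (by positivity) (by
    rw [Real.log_mul (by positivity) (by positivity)]; linarith)
  have N1 : Real.log (N + 1 : ℕ) ≤ 2 * L := (log_nat_mono (show N + 1 ≤ 2 * N by omega)).trans (by
    push_cast; rw [Real.log_mul (by positivity) (by positivity)]; linarith)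
  have T4 : 4 ≤ ℓ ^ (2 * 10) := lgN (by positivity) (by positivity) (by
    rw [Nat.cast_pow, Real.log_pow]; push_cast; linarith)
  have TK : (ℓ ^ (2 * 10)) ^ 2 ≤ K := lgN (by positivity) (by positivity) (by
    simp only [Nat.cast_pow, Real.log_pow]; push_cast; linarith)
  have TQ : 2 * (ℓ ^ (2 * 10)) ^ 2 ≤ Q := by rw [hQ, ← pow_mul]
  have lQ0 : 0 < Real.log Q := by linarith
  have tL : t * t ≤ L := by
    rw [hL, ← sq]; exact pow_le_pow_right₀ (by linarith) (by norm_num)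
  refine ⟨lgN (by positivity) K0 ?_, QN, lgN (by positivity) (by positivity) (N1.trans ?_),
    lg (by positivity) (by positivity) ?_, by linarith, ?_, lg (by positivity) (by positivity) ?_,
    lgN (by positivity) N0 ?_, lgN N0 (by positivity) ?_,
    (EP_Sg TQ QN T4 TK (by linarith) lK' NL.le).trans ?_, ?_⟩
  any_goals
    simp (disch := positivity) only [Nat.cast_mul, Nat.cast_pow, Real.log_mul, Real.log_pow,
      Real.log_div, Nat.cast_ofNat]
    linarith
  · rw [Nat.cast_pow, Real.log_pow]; push_cast; nlinarith [Real.log_two_gt_d9]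
  · rw [div_le_div_iff₀ L0 t0]; nlinarith
  · rw [sqrt_pow, two_mul]
    have : t ≤ Real.log N / Real.log Q := by rw [le_div_iff₀ lQ0]; nlinarith
    refine add_le_add (lg (by positivity) (by positivity) ?_) (lg (by positivity) (by positivity) ?_) <;>
    · simp (disch := positivity) only [Real.log_mul, Real.log_pow, Real.log_div, Real.log_exp,
        Nat.cast_ofNat]
      linarith [Real.log_le_self lQ0.le]
  · have s1 := sum_pj (u := Q + 1) (TQ.trans (Nat.le_succ _)) N1 T4 TK (by linarith) (by linarith)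
    have s2 := sum_pj (u := N + 1) (v := 2 ^ W) (K := K) (T := W ^ (2 * 4)) (Lg := W)
      (le_trans (lgN (by positivity) N0 ?_) (Nat.le_succ _)) ?_
      (lgN (by positivity) (by positivity) ?_) (lgN (by positivity) K0 ?_) (by linarith) (by linarith)
    · rw [sqrt_pow] at s1 s2
      simp only [sk, sum_add_distrib, sum_const, Nat.card_Icc, Nat.add_sub_cancel, nsmul_eq_mul]
      rw [show 4 * (K / t) = K / t + K / t + K / t + K / t by ring]
      refine add_le_add (add_le_add (add_le_add (s1.trans ?_) (s2.trans ?_)) ?_) ?_ <;>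
      · refine lg (by positivity) (by positivity) ?_
        simp (disch := positivity) only [Real.log_mul, Real.log_pow, Real.log_div, Nat.cast_ofNat]
        linarith
    any_goals
      simp (disch := positivity) only [Nat.cast_mul, Nat.cast_pow, Real.log_mul, Real.log_pow,
        Nat.cast_ofNat]
    any_goals linarith
    exact mul_le_of_le_one_right (by positivity) (by linarith [Real.log_two_lt_d9])

lemma exists_pm {ε : ℝ} (hε : 0 < ε) (C : ℝ) : ∀ᶠ N : ℕ in atTop, ∃ (t : ℝ) (ℓ Q z r U W a N₁ : ℕ),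
    C ≤ t ∧ ∀ K : ℕ, (N : ℝ) ^ (5 / 6 + ε) ≤ K → K ≤ N → Pm t (Real.log N) N K ℓ Q z r U W a N₁ := by
  have ht : Tendsto (fun N : ℕ => Real.log N ^ (1 / 20 : ℝ)) atTop atTop :=
    (tendsto_rpow_atTop (by norm_num)).comp Pool.Agent.Lib.ANT.tendsto_log_nat
  filter_upwards [ht.eventually_ge_atTop C, ht.eventually_ge_atTop (10 ^ 6),
    ht.eventually_ge_atTop (1 / ε), eventually_gt_atTop 0,
    ht.eventually (Real.isLittleO_log_id_atTop.bound (c := 1 / 10 ^ 6) (by norm_num))]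
    with N h1 h2 h3 N0 h4
  have hL : Real.log N = (Real.log N ^ (1 / 20 : ℝ)) ^ 20 := by
    rw [← Real.rpow_natCast, ← Real.rpow_mul (by positivity)]; norm_num
  generalize Real.log N ^ (1 / 20 : ℝ) = t at *
  have t1 : 1 ≤ t := by linarith
  have L1 : 1 ≤ Real.log N := hL ▸ one_le_pow₀ t1
  obtain ⟨z, z0, z1, z2⟩ := ceil_exp (x := t ^ 18) (by positivity)
  obtain ⟨U, U0, U1, U2⟩ := ceil_exp (x := 2 / 3 * Real.log N) (by positivity)
  obtain ⟨W, W0, W1, W2⟩ := ceil_exp (x := Real.log N / 20) (by positivity)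
  have l1 := Nat.le_ceil (Real.log N)
  have l2 : (⌈Real.log N⌉₊ : ℝ) ≤ 2 * Real.log N := by
    linarith [Nat.ceil_lt_add_one (show 0 ≤ Real.log N by positivity)]
  generalize ⌈Real.log N⌉₊ = ℓ at *
  refine ⟨t, ℓ, _, z, ⌈t⌉₊, U, W, _, _, h1, fun K hK KN => ⟨h2, hL, rfl, N0, ?_, KN, ?_, l1, l2, rfl,
    ?_, z0, z1, z2, Nat.le_ceil _, (Nat.ceil_lt_add_one (by positivity)).le, U0, U1, U2, W0, W1, W2,
    rfl, rfl⟩⟩
  · exact_mod_cast (show (0 : ℝ) < K from lt_of_lt_of_le (by positivity) hK)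
  · have := Real.log_le_log (by positivity) hK
    rw [Real.log_rpow (by positivity)] at this
    have a : t * t ≤ Real.log N := by
      rw [hL, ← sq]; exact pow_le_pow_right₀ t1 (by norm_num)
    rw [div_le_iff₀ hε] at h3
    nlinarith
  · have : Real.log ℓ ≤ Real.log 2 + 20 * Real.log t := by
      refine (Real.log_le_log (by linarith) l2).trans (le_of_eq ?_)
      rw [hL, Real.log_mul (by positivity) (by positivity), Real.log_pow]; norm_num
    have l0 : (0 : ℝ) < ℓ := by linarith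
    rw [Real.norm_of_nonneg (Real.log_nonneg t1), id, Real.norm_of_nonneg (by linarith)] at h4
    push_cast
    rw [Real.log_mul (by positivity) (by positivity), Real.log_pow]
    push_cast
    linarith [Real.log_two_lt_d9]

theorem main {ε η : ℝ} (hε : 0 < ε) (hη : 0 < η) : ∀ᶠ N : ℕ in atTop, ∀ K : ℕ,
    (N : ℝ) ^ (5 / 6 + ε) ≤ K → K ≤ N → (((Icc 1 K).filter fun k : ℕ => η <
      |(((Icc 1 N).filter fun n => (n ^ 2 + k).Prime).card : ℝ) * Real.log ((N : ℝ) ^ 2 + k) / N -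
        CC k|).card : ℝ) ≤ η * K := by
  obtain ⟨C₁, C1, hC₁⟩ := Sg_tight
  obtain ⟨C₂, C2, hC₂⟩ := Pool.Agent.Lib.ANT.exists_card_divisors_le (1 / 100) (by norm_num)
  obtain ⟨δ, δ0, δ1, δ2⟩ : ∃ δ : ℝ, 0 < δ ∧ δ ≤ 1 ∧ δ * (10 * C₁ + 4) ≤ η ^ 2 / 3 :=
    ⟨min 1 (η ^ 2 / 3 / (10 * C₁ + 4)), by positivity, min_le_left _ _,
      (le_div_iff₀ (by positivity)).1 (min_le_right _ _)⟩
  obtain ⟨C₃, C3, hC₃⟩ := pnt_tp δ0
  obtain ⟨j₀, hj⟩ := eventually_atTop.1 tail
  have hX : Tendsto (fun N : ℕ => (N + 1) ^ 2) atTop atTop :=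
    (tendsto_pow_atTop two_ne_zero).comp (tendsto_add_atTop_nat 1)
  filter_upwards [exists_pm hε (C₂ + C₃ + j₀ + 12 / (δ * η) + 3 * (29 + 13 * C₁) / η ^ 2),
    hX.eventually (sw_tp2 200)] with N ⟨t, ℓ, Q, z, r, U, W, a, N₁, ht, hp⟩ sw K h1 h2
  have p := hp K h1 h2
  have x1 : 0 ≤ 12 / (δ * η) := by positivity
  have x2 : 0 ≤ 3 * (29 + 13 * C₁) / η ^ 2 := by positivity
  have x3 : (0 : ℝ) ≤ j₀ := by positivity
  have hτ := p.tau C2 (by linarith) hC₂
  obtain ⟨s1, s2, s3, s4, s5, s6, s7, s8, s9, s10, s11⟩ := p.sing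
  have sg := hC₁ Q K s1
  have mj := p.mj hτ sw δ0.le (by linarith) hC₃ sg
  have kr := p.kr hτ
  have t1 : 1 ≤ t := by linarith [p.t6]
  have t0 : 0 < t := by linarith
  have N0 := kr.N0
  have K0 : (0 : ℝ) < K := by exact_mod_cast p.K0
  refine (markov _ _ _ (fun k : ℕ => EP Q k) (fun k : ℕ => sk Q N W k) hη δ0
    (fun k _ => sk_nonneg _ _ _ _) (fun k _ => EP_nonneg _ _) fun k hk hs => CC_close (mem_Icc.1 hk).1
      (hj W (by exact_mod_cast (by linarith : (j₀ : ℝ) ≤ W)) k (mem_Icc.1 hk).1 (le_trans (by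
        gcongr; exact (mem_Icc.1 hk).2.trans h2) s4)) kr.Q0 s2 s3 hs δ1).trans ?_
  have e1 : ∑ k ∈ Icc 1 K, EP Q (k : ℕ) ≤ C₁ * K + 2 * (K / t) := by
    refine le_trans (sum_le_sum fun k _ => ?_) ((sum_add_distrib).le.trans (add_le_add sg s10))
    linarith [le_abs_self (Sg Q k), le_abs_self (EP Q k - Sg Q k)]
  have e2 : ∑ k ∈ Icc 1 K, |(((Icc 1 N).filter fun n => (n ^ 2 + k).Prime).card : ℝ) *
      Real.log ((N : ℝ) ^ 2 + k) / N - EP Q k| ≤ ∑ k ∈ Icc 1 K, ((1 + 1 / t) / N *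
        |Th (wt N a) N k - Sg Q k * N| + 1 / t * |Sg Q k| + 1 / t + |EP Q k - Sg Q k|) := by
    refine sum_le_sum fun k hk => ?_
    have b := pi_Th kr (wt_One p.fc.a0) rfl s8 s9 ((mem_Icc.1 hk).2.trans h2)
    have b0 : 0 ≤ Th (wt N a) N k :=
      sum_nonneg fun _ _ => mul_nonneg (tp_nonneg _) (kr.wt.nn _)
    have b1 := mul_le_mul_of_nonneg_right s6 b0
    generalize (((Icc 1 N).filter fun n => (n ^ 2 + k).Prime).card : ℝ) *
      Real.log ((N : ℝ) ^ 2 + k) = x at *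
    generalize Th (wt N a) N k = y at *
    have b2 : y ≤ |y - Sg Q k * N| + |Sg Q k| * N := by
      linarith [le_abs_self (y - Sg Q k * N), mul_le_mul_of_nonneg_right (le_abs_self (Sg Q k)) N0.le]
    have b3 := mul_le_mul_of_nonneg_left b2 (by positivity : 0 ≤ 1 / t)
    have b4 : |x / N - EP Q k| ≤ (|x - y| + |y - Sg Q k * N|) / N + |EP Q k - Sg Q k| := by
      rw [show x / N - EP Q k = (x - y + (y - Sg Q k * N)) / N - (EP Q k - Sg Q k) by
        field_simp; ring]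
      refine (abs_sub _ _).trans (add_le_add ?_ le_rfl)
      rw [abs_div, abs_of_pos N0]
      gcongr
      exact abs_add_le _ _
    refine b4.trans (add_le_add ?_ le_rfl)
    rw [div_le_iff₀ N0]
    calc _ ≤ 1 / t * (|y - Sg Q k * N| + |Sg Q k| * N) + N / t + |y - Sg Q k * N| := by linarith
      _ = _ := by field_simp; ring
  simp only [sum_add_distrib, ← mul_sum, sum_const, Nat.card_Icc, Nat.add_sub_cancel,
    nsmul_eq_mul] at e2
  have g1 : 1 / t ≤ 1 := (div_le_one t0).2 t1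
  have g0 : 0 < 1 / t := by positivity
  have e3 := mul_le_mul_of_nonneg_left mj (by positivity : 0 ≤ (1 + 1 / t) / N)
  have e4 := mul_le_mul_of_nonneg_left sg g0.le
  have e5 := mul_le_mul_of_nonneg_left e1 (by positivity : 0 ≤ 2 * δ)
  have f1 : 4 * (1 / t) / δ ≤ η / 3 := by
    have : 12 / (δ * η) ≤ t := by linarith
    rw [div_le_iff₀ (by positivity)] at this
    rw [mul_one_div, div_div, div_le_iff₀ (by positivity)]
    linarith
  have f2 : (29 + 13 * C₁) * (1 / t) ≤ η ^ 2 / 3 := by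
    have : 3 * (29 + 13 * C₁) / η ^ 2 ≤ t := by linarith
    rw [div_le_iff₀ (by positivity)] at this
    rw [mul_one_div, div_le_iff₀ t0]
    linarith
  rw [show (1 + 1 / t) / N * (13 * (K * N / t) + C₁ * K * (8 * δ * N + 2 * (N / t))) =
    K * ((1 + 1 / t) * (13 * (1 / t) + C₁ * (8 * δ + 2 * (1 / t)))) by field_simp] at e3
  rw [div_eq_mul_one_div (K : ℝ) t] at s10 s11 e5
  generalize 1 / t = g at *
  have f3 : (1 + g) * (13 * g + C₁ * (8 * δ + 2 * g)) + g * C₁ + 3 * g + 2 * δ * (C₁ + 2 * g) ≤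
      2 * η ^ 2 / 3 := by
    nlinarith [mul_le_of_le_one_right g0.le g1, mul_le_of_le_one_right δ0.le g1,
      mul_le_of_le_one_right (mul_nonneg C1 g0.le) g1, mul_le_of_le_one_right (mul_nonneg C1 g0.le) δ1]
  have f4 := mul_le_mul_of_nonneg_left f3 K0.le
  rw [show η * K = K * (η / 3) + K * (2 * η ^ 2 / 3) / η by field_simp; ring]
  refine add_le_add (le_trans ?_ (mul_le_mul_of_nonneg_left f1 K0.le)) ?_
  · rw [← mul_div_assoc]; gcongr; linarith
  · gcongr; linarith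

end Pool.Agent.Work.MP_51e72e_nt.QA
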