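import Pool.Agent.Work.MP_51e72e_nt.QAVaughan2
import Pool.Agent.Lib.ANT.Siegel
import Pool.Agent.Lib.ANT.PNT

noncomputable section
open Finset Real ArithmeticFunction
open Pool.Agent.Lib.LargeSieve

namespace Pool.Agent.Work.MP_51e72e_nt.QA

variable {ψ : ℝ → ℝ} {N K Q : ℕ} {M₀ Lam L : ℝ}

/-- logarithmic weight on the primes -/
def tp (m : ℕ) : ℝ := if m.Prime then Real.log m else 0

lemma tp_nonneg (m : ℕ) : 0 ≤ tp m := by
  unfold tp; split_ifs <;> positivity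

lemma tp_le (m : ℕ) : tp m ≤ vonMangoldt m := by
  unfold tp; split_ifs with h
  · exact (vonMangoldt_apply_prime h).ge
  · exact vonMangoldt_nonneg

lemma sum_sub_tp {X x : ℕ} (hX : 1 ≤ X) (hx : x ≤ X + 1) :
    ∑ m ∈ range x, (vonMangoldt m - tp m) ≤ 2 * √X * Real.log X := by
  refine (sum_le_sum_of_subset_of_nonneg (range_subset_range.2 hx)
    fun m _ _ => sub_nonneg.2 (tp_le m)).trans ?_
  refine le_trans (le_of_eq ?_) (Chebyshev.psi_sub_theta_le (x := X) (by exact_mod_cast hX))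
  rw [Chebyshev.psi_sub_theta_eq_sum_not_prime, Nat.floor_natCast, sum_filter,
    range_eq_Ico, sum_eq_sum_Ico_succ_bot (by omega)]
  rw [show Ioc 0 X = Ico (0 + 1) (X + 1) from by ext; simp only [mem_Ioc, mem_Ico]; omega]
  simp only [tp, Nat.not_prime_zero, if_false, ArithmeticFunction.map_zero, sub_zero, zero_add]
  refine sum_congr rfl fun m _ => ?_
  split_ifs with h
  · simp [vonMangoldt_apply_prime h]
  · simp

/-- cancellation in character sums over primes -/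
def SWH (X q : ℕ) (E : ℝ) : Prop := ∀ χ : DirichletCharacter ℂ q, χ ≠ 1 → ∀ x ≤ X + 1,
  ‖∑ n ∈ range x, χ n * tp n‖ ≤ E

lemma sw_tp (A : ℕ) : ∀ᶠ X : ℕ in Filter.atTop, ∀ q : ℕ, 0 < q → (q : ℝ) ≤ Real.log X ^ A →
    SWH X q (X / Real.log X ^ A + 2 * √X * Real.log X) := by
  filter_upwards [Pool.Agent.Lib.ANT.siegel_walfisz A, Filter.eventually_ge_atTop 1]
    with X h hX q hq hA χ hχ x hx
  have : NeZero q := ⟨hq.ne'⟩
  have e : ∑ n ∈ range x, χ n * tp n = ∑ n ∈ range x, χ n * vonMangoldt n -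
      ∑ n ∈ range x, χ n * (vonMangoldt n - tp n : ℝ) := by
    rw [← sum_sub_distrib]; exact sum_congr rfl fun n _ => by push_cast; ring
  rw [e]
  refine (norm_sub_le _ _).trans (add_le_add (h q χ hχ hA x hx)
    ((norm_sum_le _ _).trans (le_trans (sum_le_sum fun n _ => ?_) (sum_sub_tp hX hx))))
  rw [norm_mul, Complex.norm_real, Real.norm_of_nonneg (sub_nonneg.2 (tp_le n))]
  exact mul_le_of_le_one_left (sub_nonneg.2 (tp_le n)) (χ.norm_le_one _)

open Classical in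
lemma SWH.kp {X q a : ℕ} {E : ℝ} (h : SWH X q E) (hE : 0 ≤ E) (hq : 0 < q) (ha : a.Coprime q)
    {x : ℕ} (hx : x ≤ X + 1) : ‖∑ n ∈ range x, (kap q a n : ℂ) * tp n‖ ≤ E := by
  have hφ : (0 : ℝ) < q.totient := by exact_mod_cast Nat.totient_pos.2 hq
  have e : ∑ n ∈ range x, (kap q a n : ℂ) * tp n = (1 / (q.totient : ℂ)) *
      ∑ χ : DirichletCharacter ℂ q with χ ≠ 1,
        (starRingEnd ℂ) (χ a) * ∑ n ∈ range x, χ n * tp n := by
    simp_rw [kap_eq hq ha, mul_sum, sum_mul]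
    rw [sum_comm]
    exact sum_congr rfl fun _ _ => sum_congr rfl fun _ _ => by ring
  have : NeZero q := ⟨hq.ne'⟩
  rw [e, norm_mul, norm_div, norm_one, Complex.norm_natCast, one_div, inv_mul_le_iff₀ hφ]
  refine (norm_sum_le _ _).trans (sum_le_mul _ _ hE ?_ fun χ hχ => ?_)
  · rw [← DirichletCharacter.card_eq_totient_of_hasEnoughRootsOfUnity ℂ q, Nat.card_eq_fintype_card]
    exact_mod_cast card_le_univ _
  · rw [norm_mul, Complex.norm_conj]
    exact (mul_le_of_le_one_left (norm_nonneg _) (χ.norm_le_one _)).trans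
      (h χ (by simpa using hχ) x hx)

lemma ee_kap {q c m : ℕ} (hq : 0 < q) (hc : c.Coprime q) (hm : m.Coprime q) :
    ∑ a ∈ RR q, ee (-c * ((a : ℝ) / q)) * kap q a m =
      ee (-(m * th (q, c))) - (moebius q : ℂ) / q.totient := by
  have e := sum_RR_perm (M := ℂ) hq (b := -c) (Nat.isCoprime_iff_coprime.2 hc).neg_left ee
    ee_add_int
  rw [sum_RR_ee hq] at e
  simp only [kap, if_pos hm, Complex.ofReal_sub, mul_sub, sum_sub_distrib, ← sum_mul]
  push_cast at e ⊢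
  rw [e, mul_one_div]
  congr 1
  have hm' : m % q ∈ RR q :=
    mem_filter.2 ⟨mem_range.2 (Nat.mod_lt _ hq), (ZMod.coprime_mod_iff_coprime m q).2 hm⟩
  rw [sum_eq_single_of_mem (m % q) hm' (fun a ha h => by
    rw [if_neg fun e : m ≡ a [MOD q] => h (by
      rw [e, Nat.mod_eq_of_lt (mem_range.1 (mem_filter.1 ha).1)])]; simp),
    if_pos (Nat.mod_modEq m q).symm]
  have := ee_congr hq (m := -c * (m % q : ℕ)) (n := -(m * c)) ⟨-c * (m / q : ℕ), by
    have : ((m % q : ℕ) : ℤ) + q * (m / q : ℕ) = m := by exact_mod_cast Nat.mod_add_div m q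
    linear_combination c * this⟩
  simp only [th, Complex.ofReal_one, mul_one]
  simp only [Int.cast_mul, Int.cast_neg, Int.cast_natCast] at this
  convert this using 2 <;> ring

/-- truncated singular series -/
def Sg (Q : ℕ) (k : ℤ) : ℝ := ∑ q ∈ Icc 1 Q, (moebius q : ℝ) / q.totient * jj k q

lemma Kr.model (h : Kr ψ N K Q M₀ Lam L) (hQ : Q < M₀) {E : ℝ} (hE : 0 ≤ E)
    (sw : ∀ q ∈ Icc 1 Q, SWH ((N + 1) ^ 2) q E) (k : ℤ) :
    ‖∑ m ∈ range ((N + 1) ^ 2), tp m * k2 ψ Q k m - (Sg Q k * mass ψ N tp : ℝ)‖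
      ≤ 8 * Q ^ 4 * E / N := by
  have N0 := h.N0
  have bv := h.bv.mul_ww (by positivity) h.w
  have e1 : (Sg Q k : ℂ) = ∑ x ∈ Far Q, gs x * ee (k * th x) * ((moebius x.1 : ℂ) / x.1.totient) := by
    rw [sum_Far, Sg]
    push_cast
    refine sum_congr rfl fun q _ => ?_
    rw [← sum_mul, ← gq]
    by_cases hs : Squarefree q
    · rw [gq_squarefree k hs, mul_comm]
    · simp [moebius_eq_zero_of_not_squarefree hs]
  have e2 : ∑ m ∈ range ((N + 1) ^ 2), tp m * k2 ψ Q k m - (Sg Q k * mass ψ N tp : ℝ) =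
      ∑ x ∈ Far Q, gs x * ee (k * th x) * ∑ m ∈ range ((N + 1) ^ 2), (ψ m * ww m : ℝ) *
        ∑ a ∈ RR x.1, ee (-x.2 * ((a : ℝ) / x.1)) * ((kap x.1 a m : ℂ) * tp m) := by
    rw [Complex.ofReal_mul, e1, mass, Complex.ofReal_sum, mul_sum, ← sum_sub_distrib]
    simp only [mul_sum (s := range _)]
    rw [sum_comm]
    refine sum_congr rfl fun m _ => ?_
    rw [k2, sqm, mul_sum, mul_sum, mul_sum, sum_mul, ← sum_sub_distrib]
    refine sum_congr rfl fun x hx => ?_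
    obtain ⟨⟨q1, q2⟩, -, c⟩ := mem_Far.1 hx
    by_cases hp : m.Prime
    swap
    · simp [tp, hp]
    by_cases h0 : ψ m = 0
    · simp [h0]
    have hm : x.1 < m := by
      have := hQ.trans_le (h.wt.supp _ h0).1
      exact q2.trans_lt (by exact_mod_cast this)
    simp only [← mul_assoc]
    rw [← sum_mul, ee_kap q1 c (Nat.coprime_of_lt_prime (by omega) hm hp),
      show th x * (k - m) = k * th x + -(m * th x) by ring, ee_add]
    push_cast; ring
  rw [e2]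
  refine (norm_sum_le _ _).trans ((sum_le_mul _ _ (C := 4 * (Q * E) * (2 * 1 * (Q / N)))
    (by positivity) (card_Far_le Q) fun x hx => ?_).trans (le_of_eq (by ring)))
  obtain ⟨⟨q1, q2⟩, -, c⟩ := mem_Far.1 hx
  rw [norm_mul, norm_mul, norm_ee, mul_one]
  refine (mul_le_of_le_one_left (norm_nonneg _) (norm_gs_le x)).trans (bv.abel _ _ fun n hn => ?_)
  rw [sum_comm]
  refine (norm_sum_le _ _).trans (sum_le_mul _ _ hE ?_ fun a ha => ?_)
  · exact_mod_cast ((card_filter_le _ _).trans (card_range _).le).trans q2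
  · rw [← mul_sum, norm_mul, norm_ee, one_mul]
    exact (sw _ (mem_Icc.2 ⟨q1, q2⟩)).kp hE q1 (mem_filter.1 ha).2 (by omega)

lemma abel_anti {w : ℕ → ℝ} (hw : Antitone w) (h0 : ∀ n, 0 ≤ w n) (a : ℕ → ℝ) {δ C : ℝ}
    (hS : ∀ n, |∑ m ∈ range n, a m| ≤ δ * n + C) (n : ℕ) :
    |∑ m ∈ range n, a m * w m| ≤ δ * ∑ m ∈ range n, w m + C * w 0 := by
  have key : ∀ n, |∑ m ∈ range n, a m * w m - (∑ m ∈ range n, a m) * w n| ≤
      δ * (∑ m ∈ range n, w m - n * w n) + C * (w 0 - w n) := fun n => by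
    induction n with
    | zero => simp
    | succ n ih =>
      have h1 := mul_le_mul_of_nonneg_right (hS (n + 1)) (sub_nonneg.2 (hw n.le_succ))
      rw [← abs_of_nonneg (sub_nonneg.2 (hw n.le_succ)), ← abs_mul,
        abs_of_nonneg (sub_nonneg.2 (hw n.le_succ))] at h1
      simp only [sum_range_succ, Nat.succ_eq_add_one] at h1 ⊢
      push_cast at h1 ⊢
      refine le_trans (le_of_eq ?_) ((abs_add_le _ _).trans ((add_le_add ih h1).trans (le_of_eq ?_)))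
      · congr 1; ring
      · ring
  have h1 := mul_le_mul_of_nonneg_right (hS n) (h0 n)
  rw [← abs_of_nonneg (h0 n), ← abs_mul, abs_of_nonneg (h0 n)] at h1
  refine le_trans (le_of_eq ?_) ((abs_add_le _ _).trans ((add_le_add (key n) h1).trans (le_of_eq ?_)))
  · congr 1; ring
  · ring

lemma pnt_tp {δ : ℝ} (hδ : 0 < δ) : ∃ C, 0 ≤ C ∧ ∀ n : ℕ, |∑ m ∈ range n, (tp m - 1)| ≤ δ * n + C := by
  obtain ⟨x₀, hx⟩ := Filter.eventually_atTop.1 ((Metric.tendsto_nhds.1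
    (Pool.Agent.Lib.ANT.tendsto_theta_div.comp tendsto_natCast_atTop_atTop)) δ hδ)
  refine ⟨1 + ∑ i ∈ range (x₀ + 2), |∑ m ∈ range i, (tp m - 1)|, by positivity, fun n => ?_⟩
  have p : 0 ≤ ∑ i ∈ range (x₀ + 2), |∑ m ∈ range i, (tp m - 1)| := by positivity
  rcases lt_or_ge n (x₀ + 2) with h | h
  · have := single_le_sum (f := fun i => |∑ m ∈ range i, (tp m - 1)|) (fun _ _ => abs_nonneg _)
      (mem_range.2 h)
    have : 0 ≤ δ * n := by positivity
    linarith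
  obtain ⟨y, rfl⟩ : ∃ y, n = y + 1 := ⟨n - 1, by omega⟩
  have y0 : (0 : ℝ) < y := by exact_mod_cast (by omega : 0 < y)
  have h1 := hx y (by omega)
  rw [Function.comp, Real.dist_eq, ← div_self y0.ne', ← sub_div, abs_div, abs_of_pos y0,
    div_lt_iff₀ y0] at h1
  have e : ∑ m ∈ range (y + 1), tp m = Chebyshev.theta y := by
    rw [Chebyshev.theta_eq_sum_Icc, Nat.floor_natCast, sum_filter, Nat.range_succ_eq_Icc_zero]; rfl
  rw [sum_sub_distrib, e]
  simp only [sum_const, card_range, nsmul_eq_mul, mul_one]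
  push_cast
  rw [abs_le]
  obtain ⟨h2, h3⟩ := abs_lt.1 h1
  constructor <;> nlinarith

lemma sparse (N K m : ℕ) : ∑ k ∈ Icc (1 : ℤ) K, ∑ n ∈ Icc 1 N,
    (if (n : ℤ) ^ 2 + k = m then (1 : ℝ) else 0) ≤ √K + 1 := by
  rw [sum_comm]
  have e : ∀ n : ℕ, ∑ k ∈ Icc (1 : ℤ) K, (if (n : ℤ) ^ 2 + k = m then (1 : ℝ) else 0) =
      if m - (n : ℤ) ^ 2 ∈ Icc (1 : ℤ) K then 1 else 0 := fun n => by
    rw [← sum_ite_eq (Icc (1 : ℤ) K) (m - (n : ℤ) ^ 2) fun _ => (1 : ℝ)]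
    exact sum_congr rfl fun k _ => if_congr (by constructor <;> intro <;> linarith) rfl rfl
  simp_rw [e]
  rw [sum_boole]
  set S := (Icc 1 N).filter fun n : ℕ => m - (n : ℤ) ^ 2 ∈ Icc (1 : ℤ) K
  rcases S.eq_empty_or_nonempty with h | h
  · rw [h]; simp; positivity
  have hs : S ⊆ Icc (S.min' h) (S.min' h + Nat.sqrt K) := fun n hn => by
    have h1 := S.min'_le n hn
    have h2 := mem_Icc.1 (mem_filter.1 (S.min'_mem h)).2
    have h3 := mem_Icc.1 (mem_filter.1 hn).2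
    refine mem_Icc.2 ⟨h1, ?_⟩
    generalize S.min' h = u at *
    obtain ⟨d, rfl⟩ := Nat.exists_eq_add_of_le h1
    have : d * d ≤ K := by zify at *; nlinarith [Int.natCast_nonneg u, Int.natCast_nonneg d]
    have := Nat.le_sqrt.2 this
    omega
  have := card_le_card hs
  rw [Nat.card_Icc] at this
  have h2 : (S.card : ℝ) ≤ Nat.sqrt K + 1 := by exact_mod_cast (by omega : S.card ≤ Nat.sqrt K + 1)
  linarith [Real.nat_sqrt_le_real_sqrt (a := K)]

lemma BV.abelR {V K : ℝ} {G : ℕ → ℝ} (h : BV V G) (a : ℕ → ℝ) (Y : ℕ)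
    (hK : ∀ n ≤ Y, |∑ k ∈ range n, a k| ≤ K) : |∑ k ∈ range Y, G k * a k| ≤ 4 * K * V := by
  have := h.abel (fun n => (a n : ℂ)) Y (K := K) fun n hn => by
    rw [← Complex.ofReal_sum, Complex.norm_real]; exact hK n hn
  simp only [← Complex.ofReal_mul] at this
  rwa [← Complex.ofReal_sum, Complex.norm_real] at this

/-- the weight equals one in the bulk -/
def One (ψ : ℝ → ℝ) (N a : ℕ) : Prop :=
  ∀ n k : ℕ, 2 * a ≤ n → n + a ≤ N → k ≤ N → ψ ((n ^ 2 + k : ℕ) : ℝ) = 1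

lemma Kr.mass_tp (h : Kr ψ N K Q M₀ Lam L) {a : ℕ} (one : One ψ N a) {δ C : ℝ} (hδ : 0 ≤ δ)
    (hS : ∀ n : ℕ, |∑ m ∈ range n, (tp m - 1)| ≤ δ * n + C) :
    |mass ψ N tp - N| ≤ 4 * (δ * (N + 1) + C) + 3 * a + 3 := by
  have a1 := h.bv.abelR (fun m => (tp m - 1) * ww m) ((N + 1) ^ 2) (K := δ * (N + 1) + C)
    fun n hn => by
      refine (abel_anti ww_anti (fun m => (ww_pos m).le) _ hS n).trans (add_le_add ?_ (by simp [ww]))
      refine mul_le_mul_of_nonneg_left ((sum_le_sum_of_subset_of_nonneg (range_subset_range.2 hn)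
        fun m _ _ => (ww_pos m).le).trans ?_) hδ
      rw [sum_ww]; push_cast; rfl
  have a2 := h.bv.sqsum (N + 1) 0
  have a3 : ∑ n ∈ range (N + 1), ψ ((n ^ 2 + 0 : ℕ) : ℝ) ≤ N + 1 := by
    have := sum_le_mul (range (N + 1)) (fun n => ψ ((n ^ 2 + 0 : ℕ) : ℝ)) zero_le_one
      (n := N + 1) (by simp) fun _ _ => h.wt.le1 _
    linarith
  have a4 : (N : ℝ) - 3 * a ≤ ∑ n ∈ range (N + 1), ψ ((n ^ 2 + 0 : ℕ) : ℝ) := by
    refine le_trans ?_ (sum_le_sum_of_subset_of_nonneg (s := Ico (2 * a) (N - a))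
      (fun n hn => mem_range.2 (by have := mem_Ico.1 hn; omega)) fun _ _ _ => h.wt.nn _)
    rw [sum_congr rfl fun n hn => one n 0 (mem_Ico.1 hn).1 (by have := mem_Ico.1 hn; omega)
      (Nat.zero_le _), sum_const, Nat.card_Ico, nsmul_eq_mul, mul_one, sub_le_iff_le_add]
    exact_mod_cast (by omega : N ≤ N - a - 2 * a + 3 * a)
  have e : mass ψ N tp = ∑ m ∈ range ((N + 1) ^ 2), ψ m * ((tp m - 1) * ww m) +
      ∑ m ∈ range ((N + 1) ^ 2), ψ m * ww m := by
    rw [mass, ← sum_add_distrib]; exact sum_congr rfl fun m _ => by ring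
  rw [Nat.cast_zero, Real.sqrt_zero] at a2
  rw [e, abs_le] at *
  constructor <;> linarith [a1.1, a1.2, a2.1, a2.2, Nat.cast_nonneg (α := ℝ) a]

lemma sum_Icc_cast {M : Type*} [AddCommMonoid M] (f : ℤ → M) (K : ℕ) :
    ∑ k ∈ Icc (1 : ℤ) K, f k = ∑ k ∈ Icc 1 K, f (k : ℕ) := by
  rw [sum_Icc_int f (K := K) (by ring), sum_Icc_one]
  exact sum_congr rfl fun _ _ => by push_cast; rfl

/-- smoothed logarithmic count of prime values -/
def Th (ψ : ℝ → ℝ) (N k : ℕ) : ℝ := ∑ n ∈ Icc 1 N, tp (n ^ 2 + k) * ψ ((n ^ 2 + k : ℕ) : ℝ)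

theorem Kr.major (h : Kr ψ N K Q M₀ Lam L) {z : ℕ} (hz : z < M₀) (hQ : Q < M₀) {E D : ℝ}
    (hE : 0 ≤ E) (sw : ∀ q ∈ Icc 1 Q, SWH ((N + 1) ^ 2) q E) (hD : |mass ψ N tp - N| ≤ D) :
    ∑ k ∈ Icc 1 K, |Th ψ N k - Sg Q k * N| ≤ ∑ k ∈ Icc (1 : ℤ) K,
      ‖∑ m ∈ Icc 1 (N ^ 2), (vonMangoldt m : ℂ) * (rf z m * kk ψ N Q k m)‖ +
      4 * N * L * (√K + 1 + K * (Q ^ 3 / N)) + K * (8 * Q ^ 4 * E / N) +
      (∑ k ∈ Icc 1 K, |Sg Q k|) * D := by
  have N0 := h.N0
  have N1 : 1 ≤ N := by exact_mod_cast N0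
  have pt : ∀ k ∈ Icc 1 K, |Th ψ N k - Sg Q k * N| ≤
      ‖∑ m ∈ Icc 1 (N ^ 2), (vonMangoldt m : ℂ) * (rf z m * kk ψ N Q (k : ℕ) m)‖ +
      ∑ m ∈ Icc 1 (N ^ 2), (vonMangoldt m - tp m) * ‖kk ψ N Q (k : ℕ) m‖ + 8 * Q ^ 4 * E / N +
      |Sg Q k| * D := fun k hk => by
    have e1 : (Th ψ N k : ℂ) = ∑ m ∈ range ((N + 1) ^ 2), tp m * k1 ψ N k m := by
      have := sum_s1 (fun m => tp m * ψ m) ((mem_Icc.1 hk).2.trans h.KN)
      rw [Th, Complex.ofReal_sum]
      simp only [Complex.ofReal_mul]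
      rw [← this]
      exact sum_congr rfl fun m _ => mul_assoc _ _ _
    have e2 : ∑ m ∈ range ((N + 1) ^ 2), tp m * kk ψ N Q k m =
        ∑ m ∈ Icc 1 (N ^ 2), tp m * kk ψ N Q k m := by
      refine (sum_subset (fun m hm => mem_range.2 ((mem_Icc.1 hm).2.trans_lt
        (Nat.pow_lt_pow_left (Nat.lt_succ_self N) two_ne_zero))) fun m _ hm => ?_).symm
      rcases m.eq_zero_or_pos with rfl | m0
      · simp [tp]
      · rw [kk_zero _ (h.psi_big (not_le.1 fun e => hm (mem_Icc.2 ⟨m0, e⟩))), mul_zero]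
    have e3 : ‖∑ m ∈ Icc 1 (N ^ 2), tp m * kk ψ N Q k m -
        ∑ m ∈ Icc 1 (N ^ 2), (vonMangoldt m : ℂ) * (rf z m * kk ψ N Q (k : ℕ) m)‖ ≤
        ∑ m ∈ Icc 1 (N ^ 2), (vonMangoldt m - tp m) * ‖kk ψ N Q (k : ℕ) m‖ := by
      rw [← sum_sub_distrib]
      refine (norm_sum_le _ _).trans (sum_le_sum fun m _ => ?_)
      by_cases h0 : ψ m = 0
      · simp [kk_zero _ h0]
      rw [← mul_assoc, ← sub_mul, norm_mul, ← Complex.ofReal_mul, ← Complex.ofReal_sub,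
        Complex.norm_real, Real.norm_eq_abs, abs_sub_comm]
      refine mul_le_mul_of_nonneg_right ?_ (norm_nonneg _)
      by_cases hp : m.Prime
      · have : Rough z m := fun p pp e => by
          rw [(Nat.prime_dvd_prime_iff_eq pp hp).1 e]
          exact_mod_cast hz.trans_le (h.wt.supp _ h0).1
        rw [rf, if_pos this, mul_one, abs_of_nonneg (sub_nonneg.2 (tp_le m))]
      · simp only [tp, if_neg hp, sub_zero]
        rw [abs_of_nonneg (mul_nonneg vonMangoldt_nonneg (rf_nonneg _ _))]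
        exact mul_le_of_le_one_right vonMangoldt_nonneg (rf_le_one _ _)
    have e4 := h.model hQ hE sw k
    have e5 : ‖((Sg Q k * (mass ψ N tp - N) : ℝ) : ℂ)‖ ≤ |Sg Q k| * D := by
      rw [Complex.norm_real, Real.norm_eq_abs, abs_mul]
      exact mul_le_mul_of_nonneg_left hD (abs_nonneg _)
    rw [← e2] at e3
    simp only [kk, mul_sub, sum_sub_distrib] at e3
    rw [← e1] at e3
    rw [← Real.norm_eq_abs, ← Complex.norm_real]
    refine le_trans (le_of_eq ?_) ((norm_add₃_le).trans (add_le_add_three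
      ((norm_add_le _ _).trans (add_le_add le_rfl e3)) e4 e5))
    simp only [kk, mul_sub, sum_sub_distrib]
    congr 1; push_cast; ring
  refine (sum_le_sum pt).trans ?_
  simp only [sum_add_distrib, ← sum_mul]
  rw [sum_Icc_cast]
  refine add_le_add (add_le_add (add_le_add le_rfl ?_) (by simp)) le_rfl
  rw [sum_comm]
  simp only [← mul_sum]
  have b : ∀ m, ∑ k ∈ Icc 1 K, ‖kk ψ N Q (k : ℕ) m‖ ≤ √K + 1 + K * (Q ^ 3 / N) := fun m => by
    rw [← sum_Icc_cast fun k => ‖kk ψ N Q k m‖]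
    refine (sum_le_sum fun k _ => norm_sub_le _ _).trans ?_
    rw [sum_add_distrib]
    refine add_le_add ((sum_le_sum fun k _ => h.norm_k1 k m).trans (sparse N K m))
      (sum_le_mul _ _ (by positivity) (by simp) fun k _ => (h.norm_k2 k m).trans ?_)
    split_ifs
    · rfl
    · positivity
  refine (sum_le_sum fun m _ => mul_le_mul_of_nonneg_left (b m) (sub_nonneg.2 (tp_le m))).trans ?_
  rw [← sum_mul]
  refine mul_le_mul_of_nonneg_right ((sum_le_sum_of_subset_of_nonneg (t := range (N ^ 2 + 1))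
    (fun m hm => mem_range.2 (Nat.lt_succ_of_le (mem_Icc.1 hm).2))
    fun m _ _ => sub_nonneg.2 (tp_le m)).trans ((sum_sub_tp (Nat.one_le_pow _ _ N1) le_rfl).trans ?_))
    (by positivity)
  rw [Nat.cast_pow, Real.sqrt_sq N0.le, Real.log_pow]
  push_cast
  nlinarith [h.NL]

end Pool.Agent.Work.MP_51e72e_nt.QA
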