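import Pool.Agent.Work.MP_51e72e_nt.QAGauss

/-!
# The nonzero frequencies of the dispersion sum
-/

noncomputable section

open Finset Real

namespace Pool.Agent.Work.MP_51e72e_nt.QA

open Pool.Agent.Lib.LargeSieve

lemma card_lin {τ : Type*} (T : Finset τ) (fa : τ → ℕ) (fj : τ → ℤ)
    (hinj : ∀ s ∈ T, ∀ t ∈ T, fa s = fa t → fj s = fj t → s = t) (u : ℤ) {D : ℕ} (hD : 0 < D)
    {Δ : ℝ} (hΔ : 0 ≤ Δ) {A ℓ : ℕ} (ha : ∀ t ∈ T, fa t ∈ Ico A (A + ℓ))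
    (h : ∀ t ∈ T, |((u * fa t - D * fj t : ℤ) : ℝ)| ≤ Δ) :
    (T.card : ℝ) ≤ (2 * Δ / Int.gcd u D + 1) * (ℓ * Int.gcd u D / D + 1) := by
  set g := Int.gcd u D with hg
  have hg0 : 0 < g := Int.gcd_pos_of_ne_zero_right _ (by exact_mod_cast hD.ne')
  obtain ⟨u', hu'⟩ : (g : ℤ) ∣ u := Int.gcd_dvd_left _ _
  obtain ⟨D', hD'⟩ : g ∣ D := by exact_mod_cast (Int.gcd_dvd_right u D)
  have hD0 : 0 < D' := Nat.pos_of_mul_pos_left (hD' ▸ hD)
  have hc : IsCoprime (D' : ℤ) u' := by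
    rw [Int.isCoprime_iff_gcd_eq_one, Int.gcd_comm]
    have : Int.gcd (g * u') (g * D') = g := by rw [← hu', ← Nat.cast_mul, ← hD']
    rw [Int.gcd_mul_left, Int.natAbs_natCast] at this
    exact (Nat.mul_eq_left hg0.ne').1 this
  have hg' : (0 : ℝ) < g := by exact_mod_cast hg0
  have hD0' : (0 : ℝ) < D' := by exact_mod_cast hD0
  set m := ⌊Δ / g⌋₊ with hm
  have key : T.card ≤ (Icc (-(m : ℤ)) m ×ˢ range (ℓ / D' + 1)).card := by
    refine card_le_card_of_injOn (fun t => (u' * fa t - D' * fj t, (fa t - A) / D')) ?_ ?_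
    · intro t ht
      have h1 := h t ht
      have h2 := mem_Ico.1 (ha t ht)
      simp only [coe_product, coe_Icc, coe_range, Set.mem_prod, Set.mem_Icc, Set.mem_Iio]
      refine ⟨abs_le.1 ?_, Nat.lt_succ_of_le (Nat.div_le_div_right (by omega))⟩
      have e : u * fa t - D * fj t = g * (u' * fa t - D' * fj t) := by
        rw [hu', hD']; push_cast; ring
      rw [e, Int.cast_mul, abs_mul, Int.cast_natCast, abs_of_pos hg', ← le_div_iff₀' hg',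
        ← Int.cast_abs, ← Int.natCast_natAbs, Int.cast_natCast] at h1
      rw [← Int.natCast_natAbs]
      exact_mod_cast Nat.le_floor h1
    · intro s hs t ht hst
      simp only [Prod.mk.injEq] at hst
      have h1 := mem_Ico.1 (ha s hs)
      have h2 := mem_Ico.1 (ha t ht)
      have h3 : (D' : ℤ) ∣ (fa s : ℤ) - fa t :=
        hc.dvd_of_dvd_mul_left ⟨fj s - fj t, by linear_combination hst.1⟩
      have h4 : fa s = fa t := by
        have a1 := Nat.div_add_mod (fa s - A) D'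
        have a2 := Nat.div_add_mod (fa t - A) D'
        have a3 := Nat.mod_lt (fa s - A) hD0
        have a4 := Nat.mod_lt (fa t - A) hD0
        rw [hst.2] at a1
        have := Int.eq_zero_of_abs_lt_dvd h3 (by rw [abs_lt]; constructor <;> omega)
        omega
      refine hinj s hs t ht h4 (mul_left_cancel₀ (a := (D' : ℤ)) (by exact_mod_cast hD0.ne') ?_)
      have := hst.1
      rw [h4] at this
      linarith
  rw [card_product, Int.card_Icc, card_range] at key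
  have e : ((m : ℤ) + 1 - -(m : ℤ)).toNat = 2 * m + 1 := by omega
  rw [e] at key
  have b1 : (m : ℝ) ≤ Δ / g := Nat.floor_le (by positivity)
  have b2 : ((ℓ / D' : ℕ) : ℝ) ≤ ℓ * g / D := by
    rw [hD', Nat.cast_mul, mul_comm (ℓ : ℝ), mul_div_mul_left _ _ hg'.ne']
    exact Nat.cast_div_le
  calc (T.card : ℝ) ≤ (2 * m + 1) * ((ℓ / D' : ℕ) + 1) := by exact_mod_cast key
    _ ≤ _ := by rw [mul_div_assoc 2]; gcongr

lemma sqrt_bounds {A a : ℕ} (h1 : A ≤ a) (h2 : a ≤ 3 * A) :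
    √(A : ℝ) ≤ √(a : ℝ) ∧ √(a : ℝ) ≤ 2 * √(A : ℝ) := by
  refine ⟨Real.sqrt_le_sqrt (by exact_mod_cast h1), ?_⟩
  rw [Real.sqrt_le_left (by positivity), mul_pow, Real.sq_sqrt (by positivity)]
  have : (a : ℝ) ≤ 3 * A := by exact_mod_cast h2
  have : (0 : ℝ) ≤ A := by positivity
  linarith

/-- nonzero integers of size at most `H` -/
def HS (H : ℕ) : Finset ℤ := (Icc (-(H : ℤ)) H).erase 0

lemma card_HS (H : ℕ) : (HS H).card = 2 * H := by
  rw [HS, card_erase_of_mem (by simp), Int.card_Icc]; omega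

lemma sum_HS_inv (H : ℕ) : ∑ h ∈ HS H, 1 / |(h : ℝ)| ≤ 2 * HH H := by
  induction H with
  | zero => simp [HS, HH]
  | succ H ih =>
    have : HS (H + 1) = insert ((H : ℤ) + 1) (insert (-((H : ℤ) + 1)) (HS H)) := by
      ext h; simp only [HS, mem_erase, mem_Icc, mem_insert]; push_cast; omega
    rw [this, sum_insert (by simp only [HS, mem_erase, mem_Icc, mem_insert]; omega),
      sum_insert (by simp only [HS, mem_erase, mem_Icc]; omega), HH, sum_Icc_succ_top (by omega)]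
    rw [HH] at ih
    have h0 : (0 : ℝ) < H + 1 := by positivity
    push_cast
    rw [abs_neg, abs_of_pos h0]
    linarith

lemma pair_facts {A a₁ a₂ i : ℕ} {L : ℝ} {h₁ h₂ : ℤ} (hA : 0 < A) (h0 : h₂ ≠ 0)
    (ha₁ : A ≤ a₁ ∧ a₁ ≤ 3 * A) (ha₂ : A ≤ a₂ ∧ a₂ ≤ 3 * A) (hi : (i : ℝ) ^ 2 * L ≤ A)
    (h : |h₁ * √(a₁ : ℝ) - h₂ * √(a₂ : ℝ)| ≤ i ^ 2 * L / (2 * √(A : ℝ))) :
    |(h₁ : ℝ) ^ 2 * a₁ - h₂ ^ 2 * a₂| ≤ 3 * i ^ 2 * L * |(h₂ : ℝ)| ∧ |h₁| ≤ 3 * |h₂| ∧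
      h₁ + h₂ ≠ 0 := by
  obtain ⟨b1, b2⟩ := sqrt_bounds ha₁.1 ha₁.2
  obtain ⟨b3, b4⟩ := sqrt_bounds ha₂.1 ha₂.2
  have hA' : (0 : ℝ) < A := by exact_mod_cast hA
  have hs : 0 < √(A : ℝ) := Real.sqrt_pos.2 hA'
  have hss : √(A : ℝ) * √(A : ℝ) = A := Real.mul_self_sqrt hA'.le
  have hh : (1 : ℝ) ≤ |(h₂ : ℝ)| := by exact_mod_cast Int.one_le_abs h0
  set Δ := i ^ 2 * L / (2 * √(A : ℝ)) with hΔ
  have hΔ0 : 0 ≤ Δ := (abs_nonneg _).trans h
  have hΔ1 : Δ ≤ √(A : ℝ) / 2 := by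
    rw [hΔ, div_le_iff₀ (by positivity)]; nlinarith
  have hΔ2 : Δ * √(A : ℝ) = i ^ 2 * L / 2 := by rw [hΔ]; field_simp
  have c1 : |h₂ * √(a₂ : ℝ)| ≤ |(h₂ : ℝ)| * (2 * √(A : ℝ)) := by
    rw [abs_mul, abs_of_nonneg (Real.sqrt_nonneg _)]; gcongr
  have c2 : |h₁ * √(a₁ : ℝ)| ≤ Δ + |(h₂ : ℝ)| * (2 * √(A : ℝ)) := by
    linarith [abs_sub_abs_le_abs_sub (h₁ * √(a₁ : ℝ)) (h₂ * √(a₂ : ℝ))]
  refine ⟨?_, ?_, fun h3 => ?_⟩
  · have e : (h₁ : ℝ) ^ 2 * a₁ - h₂ ^ 2 * a₂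
        = (h₁ * √(a₁ : ℝ) - h₂ * √(a₂ : ℝ)) * (h₁ * √(a₁ : ℝ) + h₂ * √(a₂ : ℝ)) := by
      have e1 := Real.mul_self_sqrt (x := (a₁ : ℝ)) (by positivity)
      have e2 := Real.mul_self_sqrt (x := (a₂ : ℝ)) (by positivity)
      linear_combination (-(h₁ : ℝ) ^ 2) * e1 + (h₂ : ℝ) ^ 2 * e2
    rw [e, abs_mul]
    calc _ ≤ Δ * (6 * |(h₂ : ℝ)| * √(A : ℝ)) := by
          gcongr
          refine (abs_add_le _ _).trans ?_
          nlinarith
      _ = 6 * |(h₂ : ℝ)| * (Δ * √(A : ℝ)) := by ring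
      _ = _ := by rw [hΔ2]; ring
  · have c3 : |(h₁ : ℝ)| * √(A : ℝ) ≤ (3 * |(h₂ : ℝ)|) * √(A : ℝ) := by
      rw [abs_mul, abs_of_nonneg (Real.sqrt_nonneg _)] at c2
      nlinarith [mul_le_mul_of_nonneg_left b1 (abs_nonneg (h₁ : ℝ))]
    exact_mod_cast le_of_mul_le_mul_right c3 hs
  · have : (h₁ : ℝ) = -h₂ := by exact_mod_cast eq_neg_of_add_eq_zero_left h3
    rw [this, neg_mul, ← neg_add', abs_neg, ← mul_add, abs_mul,
      abs_of_nonneg (a := √(a₁ : ℝ) + _) (by positivity)] at h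
    nlinarith

/-- the close pairs of frequencies -/
def closeP (A i : ℕ) (L : ℝ) (m m' : ℤ × ℕ) : Prop :=
  ((4 * i : ℕ) : ℤ) ∣ (m'.2 : ℤ) - m.2 ∧ (i : ℤ) ∣ m.1 - m'.1 ∧
    |m.1 * √(m.2 : ℝ) - m'.1 * √(m'.2 : ℝ)| ≤ i ^ 2 * L / (2 * √(A : ℝ))

open Classical in
lemma count_fixed {A A' ℓ i : ℕ} {L : ℝ} {h₁ h₂ : ℤ} (hA : 0 < A) (hi0 : 0 < i) (hL : 0 ≤ L)
    (h0 : h₂ ≠ 0) (hA1 : A ≤ A') (hA2 : A' + ℓ ≤ 3 * A) (hi : (i : ℝ) ^ 2 * L ≤ A) :
    (((Ico A' (A' + ℓ) ×ˢ Ico A' (A' + ℓ)).filter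
      fun a => closeP A i L (h₁, a.1) (h₂, a.2)).card : ℝ) ≤
      if h₁ = h₂ then (2 * i * L / |(h₂ : ℝ)| + 1) * (ℓ + 1) else
        if (i : ℤ) ∣ h₁ - h₂ ∧ |h₁| ≤ 3 * |h₂| then
          2 * i * L * ℓ / |(h₂ : ℝ)| + 6 * i * L * |(h₂ : ℝ)| + 4 * ℓ / i + 1 else 0 := by
  set T := (Ico A' (A' + ℓ) ×ˢ Ico A' (A' + ℓ)).filter
    fun a => closeP A i L (h₁, a.1) (h₂, a.2) with hT
  have hh : (1 : ℝ) ≤ |(h₂ : ℝ)| := by exact_mod_cast Int.one_le_abs h0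
  have hi' : (0 : ℝ) < i := by exact_mod_cast hi0
  rcases T.eq_empty_or_nonempty with he | ⟨t₀, ht₀⟩
  · rw [he, card_empty, Nat.cast_zero]
    split_ifs <;> positivity
  have hF : ∀ t ∈ T, |(h₁ : ℝ) ^ 2 * t.1 - h₂ ^ 2 * t.2| ≤ 3 * i ^ 2 * L * |(h₂ : ℝ)| ∧
      |h₁| ≤ 3 * |h₂| ∧ h₁ + h₂ ≠ 0 := fun t ht => by
    simp only [hT, mem_filter, mem_product, mem_Ico] at ht
    exact pair_facts hA h0 ⟨by omega, by omega⟩ ⟨by omega, by omega⟩ hi ht.2.2.2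
  obtain ⟨m, hm⟩ : (i : ℤ) ∣ h₁ - h₂ := (mem_filter.1 ht₀).2.2.1
  have hD : 0 < 4 * h₂.natAbs ^ 2 := by have := Int.natAbs_pos.2 h0; positivity
  have hD' : ((4 * h₂.natAbs ^ 2 : ℕ) : ℝ) = 4 * |(h₂ : ℝ)| ^ 2 := by
    push_cast; rw [Nat.cast_natAbs, Int.cast_abs]
  have key := card_lin T (fun t => t.1) (fun t => ((t.2 : ℤ) - t.1) / (4 * i : ℕ))
    (fun s hs t ht e1 e2 => by
      have a1 := Int.mul_ediv_cancel' (mem_filter.1 hs).2.1
      have a2 := Int.mul_ediv_cancel' (mem_filter.1 ht).2.1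
      simp only at e1 e2 a1 a2
      rw [e2, a2, e1] at a1
      exact Prod.ext e1 (by omega))
    (m * (h₁ + h₂)) hD (Δ := 3 * i * L * |(h₂ : ℝ)|) (by positivity) (A := A') (ℓ := ℓ)
    (fun t ht => (mem_product.1 (mem_filter.1 ht).1).1)
    (fun t ht => by
      have a1 := Int.mul_ediv_cancel' (mem_filter.1 ht).2.1
      simp only at a1
      refine le_of_mul_le_mul_left ?_ hi'
      have e : (i : ℤ) * (m * (h₁ + h₂) * t.1 - (4 * h₂.natAbs ^ 2 : ℕ) *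
          (((t.2 : ℤ) - t.1) / (4 * i : ℕ))) = h₁ ^ 2 * t.1 - h₂ ^ 2 * t.2 := by
        push_cast at a1 ⊢
        rw [sq_abs]
        linear_combination (-(h₁ + h₂) * t.1) * hm - h₂ ^ 2 * a1
      rw [← abs_of_pos hi', ← abs_mul, abs_of_pos hi', ← Int.cast_natCast i, ← Int.cast_mul, e]
      push_cast
      exact (hF t ht).1.trans (le_of_eq (by ring)))
  rw [hD'] at key
  obtain ⟨-, f2, f3⟩ := hF t₀ ht₀
  split_ifs with c1 c2
  · have hm0 : m = 0 := by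
      rw [c1, sub_self] at hm
      exact (mul_eq_zero.1 hm.symm).resolve_left (by exact_mod_cast hi0.ne')
    rw [hm0, zero_mul, Int.gcd_zero_left, Int.natAbs_natCast, hD'] at key
    refine key.trans ?_
    rw [mul_div_assoc (ℓ : ℝ), div_self (by positivity), mul_one]
    gcongr ?_ * _
    have : 2 * (3 * i * L * |(h₂ : ℝ)|) / (4 * |(h₂ : ℝ)| ^ 2) = 3 / 2 * i * L / |(h₂ : ℝ)| := by
      field_simp; ring
    rw [this]; gcongr; norm_num
  · refine key.trans ?_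
    set g : ℝ := ((Int.gcd (m * (h₁ + h₂)) (4 * h₂.natAbs ^ 2 : ℕ) : ℕ) : ℝ) with hg
    have g1 : 1 ≤ g := by
      rw [hg]; exact_mod_cast Int.gcd_pos_of_ne_zero_right _ (by exact_mod_cast hD.ne')
    have hm0 : m ≠ 0 := by rintro rfl; exact c1 (by linarith)
    have g2 : g * i ≤ 16 * |(h₂ : ℝ)| ^ 2 := by
      have a1 : (Int.gcd (m * (h₁ + h₂)) (4 * h₂.natAbs ^ 2 : ℕ) : ℤ) ≤ |m * (h₁ + h₂)| :=
        Int.le_of_dvd (abs_pos.2 (mul_ne_zero hm0 f3)) ((dvd_abs _ _).2 (Int.gcd_dvd_left _ _))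
      have a2 : |m * (h₁ + h₂)| * i ≤ 16 * |h₂| ^ 2 := by
        have : |m * (h₁ + h₂)| * i = |h₁ - h₂| * |h₁ + h₂| := by
          rw [hm, abs_mul, abs_mul, Nat.abs_cast]; ring
        rw [this]
        calc _ ≤ (4 * |h₂|) * (4 * |h₂|) := by
              gcongr
              · linarith [abs_sub h₁ h₂]
              · linarith [abs_add_le h₁ h₂]
          _ = _ := by ring
      rw [hg]
      exact_mod_cast (mul_le_mul_of_nonneg_right a1 (by positivity)).trans a2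
    have e : (2 * (3 * i * L * |(h₂ : ℝ)|) / g + 1) * (ℓ * g / (4 * |(h₂ : ℝ)| ^ 2) + 1)
        = 3 / 2 * i * L * ℓ / |(h₂ : ℝ)| + 6 * i * L * |(h₂ : ℝ)| / g
          + ℓ * (g / (4 * |(h₂ : ℝ)| ^ 2)) + 1 := by field_simp; ring
    rw [e]
    gcongr
    · norm_num
    · exact div_le_self (by positivity) g1
    · rw [mul_comm 4 (ℓ : ℝ), mul_div_assoc]
      refine mul_le_mul_of_nonneg_left ?_ (by positivity)
      rw [div_le_div_iff₀ (by positivity) hi']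
      linarith
  · exact absurd ⟨⟨m, hm⟩, f2⟩ c2

open Classical in
lemma count_close {A A' ℓ i H : ℕ} {L : ℝ} (hA : 0 < A) (hi0 : 0 < i) (hL : 1 ≤ L) (hℓ : 0 < ℓ)
    (hA1 : A ≤ A') (hA2 : A' + ℓ ≤ 3 * A) (hi : (i : ℝ) ^ 2 * L ≤ A) :
    ∑ m ∈ HS H ×ˢ Ico A' (A' + ℓ), ∑ m' ∈ HS H ×ˢ Ico A' (A' + ℓ),
      (if closeP A i L m m' then (1 : ℝ) else 0) ≤
        120 * (ℓ * (i * L * HH H + H * L + H ^ 2 / i ^ 2) + L * H ^ 3) := by
  have hi' : (1 : ℝ) ≤ i := by exact_mod_cast hi0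
  have hℓ' : (1 : ℝ) ≤ ℓ := by exact_mod_cast hℓ
  have e : ∑ m ∈ HS H ×ˢ Ico A' (A' + ℓ), ∑ m' ∈ HS H ×ˢ Ico A' (A' + ℓ),
      (if closeP A i L m m' then (1 : ℝ) else 0) = ∑ h₂ ∈ HS H, ∑ h₁ ∈ HS H,
        (((Ico A' (A' + ℓ) ×ˢ Ico A' (A' + ℓ)).filter
          fun a => closeP A i L (h₁, a.1) (h₂, a.2)).card : ℝ) := by
    simp_rw [card_filter, sum_product]
    push_cast
    rw [sum_comm (s := HS H) (t := HS H)]
    exact sum_congr rfl fun h₁ _ => sum_comm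
  rw [e]
  have b : ∀ h₂ ∈ HS H, ∑ h₁ ∈ HS H, (((Ico A' (A' + ℓ) ×ˢ Ico A' (A' + ℓ)).filter
      fun a => closeP A i L (h₁, a.1) (h₂, a.2)).card : ℝ) ≤ 4 * i * L * ℓ * (1 / |(h₂ : ℝ)|) +
        (18 * L * ℓ + 56 * L * H ^ 2 + 32 * ℓ * H / i ^ 2) := fun h₂ hh => by
    have h0 : h₂ ≠ 0 := (mem_erase.1 hh).1
    have h1 : (1 : ℝ) ≤ |(h₂ : ℝ)| := by exact_mod_cast Int.one_le_abs h0
    have h2 : |(h₂ : ℝ)| ≤ H := by exact_mod_cast abs_le.2 (mem_Icc.1 (mem_erase.1 hh).2)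
    refine (sum_le_sum fun h₁ _ => count_fixed hA hi0 (by linarith) h0 hA1 hA2 hi).trans ?_
    rw [← add_sum_erase _ _ hh, if_pos rfl, sum_congr rfl fun h₁ h => if_neg (mem_erase.1 h).1,
      ← sum_filter, sum_const, nsmul_eq_mul]
    have c : ((((HS H).erase h₂).filter fun h₁ => (i : ℤ) ∣ h₁ - h₂ ∧ |h₁| ≤ 3 * |h₂|).card : ℝ)
        ≤ 8 * |(h₂ : ℝ)| / i := by
      have c1 : (((HS H).erase h₂).filter fun h₁ => (i : ℤ) ∣ h₁ - h₂ ∧ |h₁| ≤ 3 * |h₂|).card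
          ≤ (HS (4 * h₂.natAbs / i)).card := by
        refine card_le_card_of_injOn (fun h₁ => (h₁ - h₂) / i) ?_ ?_
        · intro h₁ h
          simp only [coe_filter, mem_erase, Set.mem_ofPred_eq] at h
          obtain ⟨⟨a1, -⟩, ⟨m, hm⟩, a3⟩ := h
          simp only [HS, coe_erase, coe_Icc, Set.mem_sdiff, Set.mem_Icc, Set.mem_singleton_iff]
          rw [hm, Int.mul_ediv_cancel_left _ (by exact_mod_cast hi0.ne'), ← abs_le]
          refine ⟨?_, by rintro rfl; exact a1 (by linarith)⟩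
          rw [← Int.natCast_natAbs m, Nat.cast_le, Nat.le_div_iff_mul_le hi0]
          have : |m| * i ≤ 4 * |h₂| := by
            have := abs_sub h₁ h₂
            rw [hm, abs_mul, Nat.abs_cast] at this
            linarith
          zify; exact this
        · intro s hs t ht h
          simp only [coe_filter, Set.mem_ofPred_eq] at hs ht h
          have a1 := Int.mul_ediv_cancel' hs.2.1
          have a2 := Int.mul_ediv_cancel' ht.2.1
          rw [h] at a1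
          linarith
      rw [card_HS] at c1
      calc _ ≤ 2 * ((4 * h₂.natAbs / i : ℕ) : ℝ) := by exact_mod_cast c1
        _ ≤ 2 * (((4 * h₂.natAbs : ℕ) : ℝ) / i) := by gcongr; exact Nat.cast_div_le
        _ = _ := by push_cast; rw [Nat.cast_natAbs, Int.cast_abs]; ring
    calc _ ≤ (2 * i * L / |(h₂ : ℝ)| + 1) * (2 * ℓ) + 8 * |(h₂ : ℝ)| / i *
          (2 * i * L * ℓ / |(h₂ : ℝ)| + 6 * i * L * |(h₂ : ℝ)| + 4 * ℓ / i + 1) := by
          gcongr; linarith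
      _ = 4 * i * L * ℓ * (1 / |(h₂ : ℝ)|) + (2 * 1 * ℓ + 16 * L * ℓ + 48 * L * |(h₂ : ℝ)| ^ 2
          + 8 * 1 * (|(h₂ : ℝ)| / i) + 32 * ℓ * |(h₂ : ℝ)| / i ^ 2) := by field_simp; ring
      _ ≤ 4 * i * L * ℓ * (1 / |(h₂ : ℝ)|) + (2 * L * ℓ + 16 * L * ℓ + 48 * L * H ^ 2
          + 8 * L * H ^ 2 + 32 * ℓ * H / i ^ 2) := by
          gcongr
          exact (div_le_self (by positivity) hi').trans (h2.trans (le_self_pow₀ (by linarith)
            two_ne_zero))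
      _ = _ := by ring
  refine (sum_le_sum b).trans ?_
  rw [sum_add_distrib, ← mul_sum, sum_const, card_HS, nsmul_eq_mul]
  have h1 := sum_HS_inv H
  have h2 := HH_nonneg H
  have h3 : 0 ≤ ℓ * (i * L * HH H) := by positivity
  have h4 : 0 ≤ ℓ * (H * L) := by positivity
  have h5 : 0 ≤ (ℓ : ℝ) * (H ^ 2 / i ^ 2) := by positivity
  have h6 : 0 ≤ L * H ^ 3 := by positivity
  calc _ ≤ 4 * i * L * ℓ * (2 * HH H) + (2 * H : ℕ) *
        (18 * L * ℓ + 56 * L * H ^ 2 + 32 * ℓ * H / i ^ 2) := by gcongr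
    _ = 8 * (ℓ * (i * L * HH H)) + 36 * (ℓ * (H * L)) + 64 * (ℓ * (H ^ 2 / i ^ 2))
        + 112 * (L * H ^ 3) := by push_cast; ring
    _ ≤ _ := by linarith

lemma sum_split {M : Type*} [AddCommMonoid M] (f : ℕ → M) (q D : ℕ) :
    ∑ x ∈ range (q * D), f x = ∑ z ∈ range D, ∑ y ∈ range q, f (q * z + y) := by
  induction D with
  | zero => simp
  | succ D ih => rw [Nat.mul_succ, sum_range_add, ih, sum_range_succ]

lemma orth_group {i : ℕ} (hi : 0 < i) (a₁ a₂ h : ℤ) :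
    ‖∑ g ∈ range (4 * i * i), if ((4 * i : ℕ) : ℤ) ∣ a₁ - g ∧ ((4 * i : ℕ) : ℤ) ∣ a₂ - g then
      ee (h * ((g : ℝ) / (4 * i ^ 2))) else 0‖
      ≤ if ((4 * i : ℕ) : ℤ) ∣ a₂ - a₁ ∧ (i : ℤ) ∣ h then (i : ℝ) else 0 := by
  have hi' : (i : ℝ) ≠ 0 := by positivity
  have e : ∀ z ∈ range i, ∀ y ∈ range (4 * i), (if ((4 * i : ℕ) : ℤ) ∣ a₁ - (4 * i * z + y : ℕ) ∧
      ((4 * i : ℕ) : ℤ) ∣ a₂ - (4 * i * z + y : ℕ) then
        ee (h * (((4 * i * z + y : ℕ) : ℝ) / (4 * i ^ 2))) else 0) =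
      (if ((4 * i : ℕ) : ℤ) ∣ a₁ - y ∧ ((4 * i : ℕ) : ℤ) ∣ a₂ - y then
        ee (h * ((y : ℝ) / (4 * i ^ 2))) else 0) * ee (h * ((z : ℝ) / i)) := by
    intro z _ y _
    have k : ∀ a : ℤ, ((4 * i : ℕ) : ℤ) ∣ a - (4 * i * z + y : ℕ) ↔ ((4 * i : ℕ) : ℤ) ∣ a - y := by
      intro a
      rw [show a - (4 * i * z + y : ℕ) = a - y - (4 * i : ℕ) * z by push_cast; ring]
      exact dvd_sub_left (dvd_mul_right _ _)
    rw [ite_mul, zero_mul, ← ee_add]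
    refine if_congr (by rw [k, k]) ?_ rfl
    congr 1
    push_cast; field_simp; ring
  rw [sum_split, sum_congr rfl fun z hz => sum_congr rfl (e z hz), sum_comm]
  simp_rw [← mul_sum]
  rw [← sum_mul, sum_ee_dvd hi, norm_mul]
  by_cases h2 : (i : ℤ) ∣ h
  swap
  · simp [h2]
  by_cases h1 : ((4 * i : ℕ) : ℤ) ∣ a₂ - a₁
  · rw [if_pos h2, if_pos ⟨h1, h2⟩, Complex.norm_natCast]
    refine mul_le_of_le_one_left (by positivity) ?_
    rw [← sum_filter]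
    refine (norm_sum_le _ _).trans ?_
    simp only [norm_ee, sum_const, nsmul_eq_mul, mul_one, Nat.cast_le_one]
    refine card_le_one.2 fun y hy y' hy' => ?_
    simp only [mem_filter, mem_range] at hy hy'
    have h3 := hy.2.1.sub hy'.2.1
    have := Int.eq_zero_of_abs_lt_dvd h3 (by rw [abs_lt]; constructor <;> omega)
    omega
  · rw [sum_eq_zero fun y _ => if_neg fun h => h1 (by simpa using h.2.sub h.1), norm_zero, zero_mul]
    split_ifs <;> positivity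

/-- the stationary point -/
def bet (i : ℕ) (a a' : ℝ) : ℝ := (√a' - √a) ^ 2 / (4 * i ^ 2)

theorem E_bound {A A₁ A₂ ℓ i H : ℕ} {L α₀ : ℝ} (hA : 0 < A) (hi0 : 0 < i) (hL : 1 ≤ L) (hℓ : 0 < ℓ)
    (hH : 0 < H) (h1 : A ≤ A₁) (h2 : A₁ + ℓ ≤ 3 * A) (h3 : A ≤ A₂) (h4 : A₂ + ℓ ≤ 3 * A)
    (hi : (i : ℝ) ^ 2 * L ≤ A) (α α' : ℕ → ℂ) (hα : ∀ a, ‖α a‖ ≤ α₀) (hα' : ∀ a, ‖α' a‖ ≤ α₀)
    (γ : ℤ → ℂ) (hγ : ∀ h, ‖γ h‖ ≤ 1) :
    ‖∑ a ∈ Ico A₁ (A₁ + ℓ), ∑ a' ∈ Ico A₂ (A₂ + ℓ), if ((4 * i : ℕ) : ℤ) ∣ (a' : ℤ) - a then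
      α a * α' a' * ∑ h ∈ HS H, γ h * ee (h * bet i a a') else 0‖ ^ 2
      ≤ 1600000 * ℓ * α₀ ^ 4 * (H * A / i) *
        (120 * (ℓ * (i * L * HH H + H * L + H ^ 2 / i ^ 2) + L * H ^ 3)
          + (2 * H * ℓ) ^ 2 * Real.exp (-(2 * L ^ 2))) := by
  classical
  have hA' : (0 : ℝ) < A := by exact_mod_cast hA
  have hi' : (1 : ℝ) ≤ i := by exact_mod_cast hi0
  have hH' : (1 : ℝ) ≤ H := by exact_mod_cast hH
  have hs : 0 < √(A : ℝ) := Real.sqrt_pos.2 hA'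
  have hss : √(A : ℝ) * √(A : ℝ) = A := Real.mul_self_sqrt hA'.le
  have hα0 : 0 ≤ α₀ := (norm_nonneg _).trans (hα 0)
  set M := HS H ×ˢ Ico A₂ (A₂ + ℓ) with hM
  set y : ℤ × ℕ → ℝ := fun m => -(m.1 * √(m.2 : ℝ) / (2 * i ^ 2)) with hy
  set c : ℤ × ℕ → ℕ → ℂ := fun m g => if ((4 * i : ℕ) : ℤ) ∣ (m.2 : ℤ) - g then
    α' m.2 * γ m.1 * ee (m.1 * ((m.2 : ℝ) / (4 * i ^ 2))) * ee (m.1 * ((g : ℝ) / (4 * i ^ 2)))
    else 0 with hc
  have hD : 0 < 4 * i * i := by positivity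
  have e1 : ∀ a : ℕ, ∑ a' ∈ Ico A₂ (A₂ + ℓ), (if ((4 * i : ℕ) : ℤ) ∣ (a' : ℤ) - a then
      α a * α' a' * ∑ h ∈ HS H, γ h * ee (h * bet i a a') else 0)
      = α a * ∑ m ∈ M, c m (a % (4 * i * i)) * ee (√(a : ℝ) * y m) := fun a => by
    rw [hM, sum_product_right, mul_sum]
    refine sum_congr rfl fun a' _ => ?_
    have k : ((4 * i : ℕ) : ℤ) ∣ (a' : ℤ) - (a % (4 * i * i) : ℕ) ↔
        ((4 * i : ℕ) : ℤ) ∣ (a' : ℤ) - a := by
      conv_rhs => rw [← Nat.div_add_mod a (4 * i * i)]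
      rw [show (a' : ℤ) - ((4 * i * i * (a / (4 * i * i)) + a % (4 * i * i) : ℕ) : ℤ)
        = a' - (a % (4 * i * i) : ℕ) - (4 * i : ℕ) * (i * (a / (4 * i * i) : ℕ)) by
          simp only [Nat.cast_add, Nat.cast_mul]; ring]
      exact (dvd_sub_left (dvd_mul_right _ _)).symm
    simp only [hc, k]
    split_ifs
    · rw [mul_assoc, mul_sum]
      congr 1
      refine sum_congr rfl fun h _ => ?_
      rw [mul_assoc (α' a' * γ h), mul_assoc (α' a' * γ h), mul_assoc (α' a'), ← ee_add, ← ee_add]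
      congr 2
      rw [eq_comm, ← ee_add_int _ (h * (a / (4 * i * i) : ℕ))]
      congr 1
      simp only [hy]
      have f1 := Real.mul_self_sqrt (x := (a : ℝ)) (by positivity)
      have f2 := Real.mul_self_sqrt (x := (a' : ℝ)) (by positivity)
      have f3 : (a : ℝ) = 4 * i * i * (a / (4 * i * i) : ℕ) + (a % (4 * i * i) : ℕ) := by
        exact_mod_cast (Nat.div_add_mod a (4 * i * i)).symm
      rw [bet]
      simp only [Int.cast_mul, Int.cast_natCast]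
      field_simp
      linear_combination (-2 * h : ℝ) * (f1 + f2 + f3)
    · simp
  have e2 := gls (range (4 * i * i))
    (fun g => (Ico A₁ (A₁ + ℓ)).filter fun a => a % (4 * i * i) = g) (fun a : ℕ => √(a : ℝ)) M y c
    (S₀ := 2 * √(A : ℝ)) (Y := H * √(A : ℝ) / i ^ 2) (σ := i ^ 2 / √(A : ℝ)) (by positivity)
    (by positivity) (by positivity)
    (by
      rw [← mul_div_assoc, le_div_iff₀ (by positivity)]
      nlinarith [mul_le_mul_of_nonneg_left hL (sq_nonneg (i : ℝ))])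
    (fun g _ a ha => by
      have := mem_Ico.1 (mem_filter.1 ha).1
      rw [abs_of_nonneg (Real.sqrt_nonneg _)]
      exact (sqrt_bounds (by omega) (by omega)).2)
    (fun g _ a ha a' ha' hne => by
      have b1 := mem_Ico.1 (mem_filter.1 ha).1
      have b2 := mem_Ico.1 (mem_filter.1 ha').1
      have b3 := (sqrt_bounds (A := A) (a := a) (by omega) (by omega)).2
      have b4 := (sqrt_bounds (A := A) (a := a') (by omega) (by omega)).2
      have b5 : ((4 * i * i : ℕ) : ℤ) ∣ (a : ℤ) - a' :=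
        (Nat.modEq_iff_dvd.1 ((mem_filter.1 ha').2.trans (mem_filter.1 ha).2.symm))
      have b6 : ((4 * i * i : ℕ) : ℝ) ≤ |(a : ℝ) - a'| := by
        exact_mod_cast Int.le_of_dvd (abs_pos.2 (by omega)) ((dvd_abs _ _).2 b5)
      have b7 : |(a : ℝ) - a'| = |√(a : ℝ) - √(a' : ℝ)| * (√(a : ℝ) + √(a' : ℝ)) := by
        rw [← abs_of_nonneg (a := √(a : ℝ) + √(a' : ℝ)) (by positivity), ← abs_mul]
        congr 1
        linear_combination (-1) * Real.mul_self_sqrt (x := (a : ℝ)) (by positivity)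
          + Real.mul_self_sqrt (x := (a' : ℝ)) (by positivity)
      rw [div_le_iff₀ hs]
      push_cast at b6
      nlinarith [abs_nonneg (√(a : ℝ) - √(a' : ℝ))])
    (fun m hm => by
      obtain ⟨b1, b2⟩ := mem_product.1 hm
      have b3 := mem_Ico.1 b2
      have b4 := (sqrt_bounds (A := A) (a := m.2) (by omega) (by omega)).2
      have b5 : |(m.1 : ℝ)| ≤ H := by exact_mod_cast abs_le.2 (mem_Icc.1 (mem_erase.1 b1).2)
      simp only [hy, abs_neg, abs_div, abs_mul, abs_of_nonneg (Real.sqrt_nonneg _)]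
      rw [abs_of_pos (by positivity : (0 : ℝ) < (i : ℝ) ^ 2), abs_two]
      calc _ ≤ H * (2 * √(A : ℝ)) / (2 * i ^ 2) := by gcongr
        _ = _ := by field_simp)
  rw [sum_fiberwise_of_maps_to (f := fun a : ℕ => ‖∑ m ∈ M, c m (a % (4 * i * i)) *
    ee (√(a : ℝ) * y m)‖ ^ 2) (fun a _ => mem_range.2 (Nat.mod_lt a hD)) |>.symm.trans
      (sum_congr rfl fun g _ => sum_congr rfl fun a ha => by rw [(mem_filter.1 ha).2]) |>.symm]
    at e2
  have e3 : ∀ m ∈ M, ∀ m' ∈ M, ‖∑ g ∈ range (4 * i * i), c m g * (starRingEnd ℂ) (c m' g)‖ *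
      gau (2 * (2 * √(A : ℝ)))⁻¹ (y m - y m') ≤ α₀ ^ 2 * i *
        ((if closeP A i L m m' then 1 else 0) + Real.exp (-(2 * L ^ 2))) := by
    intro m _ m' _
    have f1 : ∑ g ∈ range (4 * i * i), c m g * (starRingEnd ℂ) (c m' g) =
        α' m.2 * γ m.1 * ee (m.1 * ((m.2 : ℝ) / (4 * i ^ 2))) *
        (starRingEnd ℂ) (α' m'.2 * γ m'.1 * ee (m'.1 * ((m'.2 : ℝ) / (4 * i ^ 2)))) *
        ∑ g ∈ range (4 * i * i), if ((4 * i : ℕ) : ℤ) ∣ (m.2 : ℤ) - g ∧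
          ((4 * i : ℕ) : ℤ) ∣ (m'.2 : ℤ) - g then
          ee ((m.1 - m'.1 : ℤ) * ((g : ℝ) / (4 * i ^ 2))) else 0 := by
      rw [mul_sum]
      refine sum_congr rfl fun g _ => ?_
      simp only [hc, ite_and]
      split_ifs
      · rw [map_mul, conj_ee, Int.cast_sub, sub_mul, sub_eq_add_neg, ee_add]; ring
      · simp
      · simp
      · simp
    have f2 := orth_group hi0 m.2 m'.2 (m.1 - m'.1)
    have f3 : ∀ m : ℤ × ℕ, ‖α' m.2 * γ m.1 * ee (m.1 * ((m.2 : ℝ) / (4 * i ^ 2)))‖ ≤ α₀ :=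
      fun m => by
        rw [norm_mul, norm_mul, norm_ee, mul_one]
        exact (mul_le_of_le_one_right (norm_nonneg _) (hγ _)).trans (hα' _)
    rw [f1, norm_mul, norm_mul, Complex.norm_conj]
    have g1 := gau_pos (2 * (2 * √(A : ℝ)))⁻¹ (y m - y m')
    have g2 := Real.exp_pos (-(2 * L ^ 2))
    calc _ ≤ α₀ * α₀ * (if ((4 * i : ℕ) : ℤ) ∣ (m'.2 : ℤ) - m.2 ∧ (i : ℤ) ∣ m.1 - m'.1 then (i : ℝ)
          else 0) * gau (2 * (2 * √(A : ℝ)))⁻¹ (y m - y m') := by gcongr <;> exact f3 _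
      _ ≤ _ := by
          rw [← sq, mul_assoc, mul_assoc]
          refine mul_le_mul_of_nonneg_left ?_ (by positivity)
          split_ifs with c1 c2
          · refine mul_le_mul_of_nonneg_left ?_ (by positivity)
            linarith [gau_le_one (2 * (2 * √(A : ℝ)))⁻¹ (y m - y m')]
          · refine mul_le_mul_of_nonneg_left ?_ (by positivity)
            rw [zero_add]
            refine (gau_far (by positivity) (by linarith) ?_).trans
              (mul_le_of_le_one_right g2.le (gau_le_one _ _))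
            have c3 := not_le.1 fun h => c2 ⟨c1.1, c1.2, h⟩
            have : y m - y m' = -(m.1 * √(m.2 : ℝ) - m'.1 * √(m'.2 : ℝ)) / (2 * i ^ 2) := by
              simp only [hy]; ring
            rw [this, abs_div, abs_neg, abs_of_pos (by positivity : (0 : ℝ) < 2 * (i : ℝ) ^ 2),
              le_div_iff₀ (by positivity)]
            refine le_trans (le_of_eq ?_) c3.le
            field_simp
          · rw [zero_mul]; positivity
          · rw [zero_mul]; positivity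
  have e4 : ∑ m ∈ M, ∑ m' ∈ M, ‖∑ g ∈ range (4 * i * i), c m g * (starRingEnd ℂ) (c m' g)‖ *
      gau (2 * (2 * √(A : ℝ)))⁻¹ (y m - y m') ≤ α₀ ^ 2 * i *
        (120 * (ℓ * (i * L * HH H + H * L + H ^ 2 / i ^ 2) + L * H ^ 3)
          + (2 * H * ℓ) ^ 2 * Real.exp (-(2 * L ^ 2))) := by
    refine (sum_le_sum fun m hm => sum_le_sum (e3 m hm)).trans ?_
    simp only [← mul_sum, sum_add_distrib, sum_const, nsmul_eq_mul]
    refine mul_le_mul_of_nonneg_left (add_le_add (count_close hA hi0 hL hℓ h3 h4 hi) ?_)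
      (by positivity)
    rw [hM, card_product, card_HS, Nat.card_Ico, Nat.add_sub_cancel_left]
    push_cast; exact le_of_eq (by ring)
  simp_rw [e1]
  have h5 := HH_nonneg H
  set W := 120 * (ℓ * (i * L * HH H + H * L + H ^ 2 / i ^ 2) + L * H ^ 3)
    + (2 * H * ℓ) ^ 2 * Real.exp (-(2 * L ^ 2)) with hW
  have hW0 : 0 ≤ W := by rw [hW]; positivity
  clear_value W
  calc _ ≤ (∑ a ∈ Ico A₁ (A₁ + ℓ), α₀ * ‖∑ m ∈ M, c m (a % (4 * i * i)) *
        ee (√(a : ℝ) * y m)‖) ^ 2 := by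
        gcongr
        refine (norm_sum_le _ _).trans (sum_le_sum fun a _ => ?_)
        rw [norm_mul]; gcongr; exact hα a
    _ ≤ (∑ a ∈ Ico A₁ (A₁ + ℓ), α₀ ^ 2) * _ := sum_mul_sq_le_sq_mul_sq _ _ _
    _ ≤ (ℓ * α₀ ^ 2) * (400000 * (H * √(A : ℝ) / i ^ 2 + H * √(A : ℝ) / i ^ 2) * (2 * √(A : ℝ)) *
        (α₀ ^ 2 * i * W)) := by
        refine mul_le_mul (by simp) (e2.trans ?_) (sum_nonneg fun _ _ => by positivity)
          (by positivity)
        refine mul_le_mul ?_ e4 (sum_nonneg fun _ _ => sum_nonneg fun _ _ =>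
          mul_nonneg (norm_nonneg _) (gau_pos _ _).le) (by positivity)
        rw [one_div_div]
        gcongr
        exact le_mul_of_one_le_left hs.le hH'
    _ = 1600000 * ℓ * α₀ ^ 4 * (H * (√(A : ℝ) * √(A : ℝ)) / i) * W := by field_simp; ring
    _ = _ := by rw [hss]

end Pool.Agent.Work.MP_51e72e_nt.QA
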