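import Pool.Agent.Work.MP_51e72e_nt.QAWt

noncomputable section
open Finset Real Filter Topology
open Pool.Agent.Lib.LargeSieve

namespace Pool.Agent.Work.MP_51e72e_nt.QA

lemma lgN {a b : ℕ} (ha : 0 < a) (hb : 0 < b) (h : Real.log a ≤ Real.log b) : a ≤ b := by
  exact_mod_cast lg (by exact_mod_cast ha) (by exact_mod_cast hb) h

lemma lg' {x y : ℝ} (hx : 0 < x) (hy : 0 < y) (h : Real.log x < Real.log y) : x < y :=
  (Real.log_lt_log_iff hx hy).1 h

/-- the choice of parameters -/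
structure Pm (t L : ℝ) (N K ℓ Q z r U W a N₁ : ℕ) : Prop where
  t6 : 10 ^ 6 ≤ t
  hL : L = t ^ 20
  NL : Real.log N = L
  N0 : 0 < N
  K0 : 0 < K
  KN : K ≤ N
  lK : 5 / 6 * L + t ≤ Real.log K
  l1 : L ≤ ℓ
  l2 : ℓ ≤ 2 * L
  hQ : Q = 2 * ℓ ^ 40
  B : 1000 * Real.log Q ≤ t
  z0 : 0 < z
  z1 : t ^ 18 ≤ Real.log z
  z2 : Real.log z ≤ t ^ 18 + 1
  r1 : t ≤ r
  r2 : r ≤ t + 1
  U0 : 0 < U
  U1 : 2 / 3 * L ≤ Real.log U
  U2 : Real.log U ≤ 2 / 3 * L + 1
  W0 : 0 < W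
  W1 : L / 20 ≤ Real.log W
  W2 : Real.log W ≤ L / 20 + 1
  ha : a = N / ℓ ^ 2
  hN₁ : N₁ = N / Q ^ 21

/-- consequences in logarithmic form -/
structure Fc (t L : ℝ) (N K ℓ Q z r a N₁ : ℕ) : Prop where
  t0 : 0 < t
  L0 : 0 < L
  l0 : 0 < ℓ
  Q0 : 0 < Q
  a0 : 0 < a
  n0 : 0 < N₁
  two : 0 < Real.log 2
  lc : ∀ c : ℝ, 0 < c → c ≤ 10 ^ 6 → Real.log c ≤ Real.log t
  lt1 : 1 ≤ Real.log t
  lt2 : Real.log 2 ≤ Real.log t
  lL : Real.log L = 20 * Real.log t
  ll : 20 * Real.log t ≤ Real.log ℓ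
  lQ : Real.log Q = Real.log 2 + 40 * Real.log ℓ
  p1 : 1000 * t ≤ t ^ 18
  p2 : t ^ 18 ≤ t ^ 19
  p3 : 1000 * t ^ 19 ≤ L
  rz : r * Real.log z ≤ 4 * t ^ 19
  lK : Real.log K ≤ L
  a1 : L - 2 * Real.log ℓ - 1 ≤ Real.log a
  a2 : Real.log a ≤ L - 2 * Real.log ℓ
  n1 : L - 21 * Real.log Q - 1 ≤ Real.log N₁
  n2 : Real.log N₁ ≤ L - 21 * Real.log Q
  y1 : Real.log (N ^ 2 / N₁ + 1 : ℕ) ≤ 2 * L - Real.log N₁ + 1

variable {t L : ℝ} {N K ℓ Q z r U W a N₁ : ℕ}

lemma Pm.fc (p : Pm t L N K ℓ Q z r U W a N₁) : Fc t L N K ℓ Q z r a N₁ := by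
  obtain ⟨t6, hL, NL, N0, K0, KN, lK, l1, l2, hQ, B, z0, z1, z2, r1, r2, -, -, -, -, -, -, ha, hN₁⟩ := p
  have t1 : 1 ≤ t := by linarith
  have t0 : 0 < t := by linarith
  have L0 : 0 < L := by rw [hL]; positivity
  have l0 : 0 < ℓ := by exact_mod_cast L0.trans_le l1
  have Q0 : 0 < Q := by rw [hQ]; positivity
  have two := Real.log_pos one_lt_two
  have lc : ∀ c : ℝ, 0 < c → c ≤ 10 ^ 6 → Real.log c ≤ Real.log t := fun c h1 h2 =>
    Real.log_le_log h1 (h2.trans t6)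
  have lt1 : 1 ≤ Real.log t := (Real.le_log_iff_exp_le t0).2 (by linarith [Real.exp_one_lt_d9])
  have lL : Real.log L = 20 * Real.log t := by rw [hL, Real.log_pow]; norm_num
  have ll : 20 * Real.log t ≤ Real.log ℓ := lL ▸ Real.log_le_log L0 l1
  have lQ : Real.log Q = Real.log 2 + 40 * Real.log ℓ := by
    rw [hQ]; push_cast; rw [Real.log_mul (by positivity) (by positivity), Real.log_pow]; norm_num
  have p0 : t ^ 2 ≤ t ^ 18 := pow_le_pow_right₀ t1 (by norm_num)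
  have p1 : 1000 * t ≤ t ^ 18 := by nlinarith
  have p2 : t ^ 18 ≤ t ^ 19 := pow_le_pow_right₀ t1 (by norm_num)
  have p3 : 1000 * t ^ 19 ≤ L := by
    rw [hL, pow_succ' t 19]; exact mul_le_mul_of_nonneg_right (by linarith) (by positivity)
  have rz : r * Real.log z ≤ 4 * t ^ 19 :=
    (mul_le_mul (show (r : ℝ) ≤ 2 * t by linarith) (show _ ≤ 2 * t ^ 18 by linarith)
      (by positivity) (by positivity)).trans (le_of_eq (by ring))
  have d1 := div_log (n := N) (m := ℓ ^ 2) (by positivity) (lgN (by positivity) N0 (by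
    rw [Nat.cast_pow, Real.log_pow]; push_cast; linarith))
  have d2 := div_log (n := N) (m := Q ^ 21) (by positivity) (lgN (by positivity) N0 (by
    rw [Nat.cast_pow, Real.log_pow]; push_cast; linarith))
  rw [← ha] at d1
  rw [← hN₁] at d2
  have d3 := div_log (n := N ^ 2) d2.1 ((hN₁ ▸ Nat.div_le_self _ _).trans (Nat.le_self_pow two_ne_zero N))
  simp only [Nat.cast_pow, Real.log_pow, NL, Nat.cast_ofNat] at d1 d2 d3
  exact ⟨t0, L0, l0, Q0, d1.1, d2.1, two, lc, lt1, lc 2 (by norm_num) (by norm_num), lL, ll, lQ,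
    p1, p2, p3, rz, NL ▸ log_nat_mono KN, d1.2.1, d1.2.2.1, d2.2.1, d2.2.2.1, d3.2.2.2⟩

lemma Pm.tau (p : Pm t L N K ℓ Q z r U W a N₁) {C : ℝ} (C1 : 1 ≤ C) (Ct : C ≤ t)
    (hC : ∀ n : ℕ, (n.divisors.card : ℝ) ≤ C * (n : ℝ) ^ (1 / 100 : ℝ)) :
    ∀ d ∈ Icc 1 (z ^ (2 * r) * N),
      √(2 * d) * d.divisors.card * HH d * (2 + HH d) ≤ Real.exp (3 / 5 * L) := fun d hd => by
  obtain ⟨t0, L0, l0, Q0, a0, n0, two, lc, lt1, lt2, lL, ll, lQ, p1, p2, p3, rz, lK', a1, a2, n1,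
    n2, y1⟩ := p.fc
  obtain ⟨t6, hL, NL, N0, K0, KN, lK, l1, l2, hQ, B, z0, z1, z2, -⟩ := p
  obtain ⟨d1, d2⟩ := mem_Icc.1 hd
  have ld : Real.log d ≤ 2 * (r * Real.log z) + L := by
    refine (log_nat_mono d2).trans (le_of_eq ?_)
    simp (disch := positivity) only [Nat.cast_mul, Nat.cast_pow, Real.log_mul, Real.log_pow, NL]
    push_cast; ring
  have h1 : HH d ≤ 3 * L := (HH_le d).trans (by linarith)
  have lC : Real.log C ≤ Real.log t := Real.log_le_log (by linarith) Ct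
  have := HH_nonneg d
  have C0 : 0 < C := by linarith
  calc _ ≤ √(2 * d) * (C * (d : ℝ) ^ (1 / 100 : ℝ)) * (3 * L) * (5 * L) := by
        gcongr
        · exact hC d
        · linarith
    _ ≤ _ := by
        refine lg (by positivity) (by positivity) ?_
        simp (disch := positivity) only [Real.log_mul, Real.log_sqrt, Real.log_rpow, Real.log_exp]
        linarith [lc 3 (by norm_num) (by norm_num), lc 5 (by norm_num) (by norm_num)]

lemma Pm.kr (p : Pm t L N K ℓ Q z r U W a N₁) (hτ : ∀ d ∈ Icc 1 (z ^ (2 * r) * N),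
      √(2 * d) * d.divisors.card * HH d * (2 + HH d) ≤ Real.exp (3 / 5 * L)) :
    Kr (wt N a) N K Q ((a : ℝ) ^ 2) (2 / a ^ 2) L := by
  obtain ⟨t0, L0, l0, Q0, a0, n0, two, lc, lt1, lt2, lL, ll, lQ, p1, p2, p3, rz, lK', a1, a2, n1,
    n2, y1⟩ := p.fc
  obtain ⟨t6, hL, NL, N0, K0, KN, lK, l1, l2, hQ, B, z0, z1, z2, -⟩ := p
  refine ⟨wt_Wt a0 (lgN (by positivity) N0 ?_), wt_BV N a, lg (by positivity) (by positivity) ?_,
    lg (by positivity) (by positivity) ?_, KN, K0, Q0, lgN (by positivity) N0 ?_, by linarith, NL.le,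
    fun d hd => (hτ d (Icc_subset_Icc_right (Nat.le_mul_of_pos_left _ (by positivity)) hd)).trans
      (lg (by positivity) (by positivity) ?_)⟩ <;>
  · simp (disch := positivity) only [Nat.cast_mul, Nat.cast_pow, Real.log_mul, Real.log_pow,
      Real.log_div, Real.log_exp, Nat.cast_ofNat]
    linarith

lemma Pm.sz (p : Pm t L N K ℓ Q z r U W a N₁) : Sz (U ^ 2 : ℕ) N K Q L := by
  obtain ⟨t0, L0, l0, Q0, a0, n0, two, lc, lt1, lt2, lL, ll, lQ, p1, p2, p3, rz, lK', a1, a2, n1,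
    n2, y1⟩ := p.fc
  obtain ⟨t6, hL, NL, N0, K0, KN, lK, l1, l2, hQ, B, z0, z1, z2, r1, r2, U0, U1, U2, -⟩ := p
  refine ⟨by positivity, by positivity, by positivity, by positivity, L0, by linarith, NL.le, two,
    by linarith, by linarith, by linarith, by linarith, ?_, ?_, ?_⟩ <;>
  · simp only [Nat.cast_pow, Real.log_pow, Nat.cast_ofNat]
    linarith

lemma Pm.eta (p : Pm t L N K ℓ Q z r U W a N₁) : 2 * Q ^ 96 ≤ z ∧ 2 ≤ z ∧
    eta z r ≤ 1 / (t * Q ^ 10) ∧ 1 / (z : ℝ) ≤ 1 / (t * Q ^ 10) ∧ Vp z r ≤ 2 / t ^ 18 ∧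
    ∑ b ∈ Ioc N₁ (N ^ 2 / N₁ + 1), rf z b / b ≤ 3 / t ^ 17 := by
  obtain ⟨t0, L0, l0, Q0, a0, n0, two, lc, lt1, lt2, lL, ll, lQ, p1, p2, p3, rz, lK', a1, a2, n1,
    n2, y1⟩ := p.fc
  obtain ⟨t6, hL, NL, N0, K0, KN, lK, l1, l2, hQ, B, z0, z1, z2, r1, r2, -, -, -, -, -, -, -, hN₁⟩ := p
  have h1 : 2 * Q ^ 96 ≤ z := lgN (by positivity) z0 (by
    simp (disch := positivity) only [Nat.cast_mul, Nat.cast_pow, Real.log_mul, Real.log_pow,
      Nat.cast_ofNat]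
    linarith)
  have h2 : 2 ≤ z := le_trans (Nat.le_mul_of_pos_right _ (by positivity)) h1
  have lz : Real.log (Real.log z) ≤ Real.log 2 + 18 * Real.log t := by
    refine (Real.log_le_log (by linarith) (show _ ≤ 2 * t ^ 18 by linarith)).trans (le_of_eq ?_)
    rw [Real.log_mul (by positivity) (by positivity), Real.log_pow]; norm_num
  have h3 : QA.eta z r ≤ 1 / (t * Q ^ 10) := (eta_le h2 r).trans (lg (by positivity) (by positivity) (by
    simp (disch := positivity) only [Real.log_mul, Real.log_pow, Real.log_div, Real.log_exp,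
      Real.log_one, Nat.cast_ofNat]
    linarith))
  have h4 : 1 / (t * Q ^ 10) ≤ 1 / t ^ 18 := lg (by positivity) (by positivity) (by
    simp (disch := positivity) only [Real.log_mul, Real.log_pow, Real.log_div, Nat.cast_ofNat]
    linarith)
  have h5 : Vp z r ≤ 2 / t ^ 18 := (Vp_le h2 r).2.trans (by
    rw [show 2 / t ^ 18 = 1 / t ^ 18 + 1 / t ^ 18 by ring]
    exact add_le_add (by gcongr) (h3.trans h4))
  refine ⟨h1, h2, h3, lg (by positivity) (by positivity) ?_, h5, (harm_rough h2 r n0 ?_).trans ?_⟩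
  · simp (disch := positivity) only [Real.log_mul, Real.log_pow, Real.log_div, Nat.cast_ofNat]
    linarith
  · have : N₁ ≤ N := hN₁ ▸ Nat.div_le_self _ _
    exact ((Nat.le_div_iff_mul_le n0).2 (by nlinarith)).trans (Nat.le_succ _)
  · rw [show 3 / t ^ 17 = 2 / t ^ 18 * t + 1 / t ^ 17 by field_simp; norm_num]
    refine add_le_add ((mul_le_mul_of_nonneg_left (show _ ≤ t by linarith) (Vp_le h2 r).1).trans
      (by gcongr)) (lg (by positivity) (by positivity) ?_)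
    simp (disch := positivity) only [Nat.cast_mul, Nat.cast_pow, Real.log_mul, Real.log_pow,
      Real.log_div, Real.log_one, Nat.cast_ofNat]
    linarith [lc 16 (by norm_num) (by norm_num)]

lemma sqrt_pow (x : ℕ) (n : ℕ) : √((x ^ (2 * n) : ℕ) : ℝ) = x ^ n := by
  rw [Nat.cast_pow, pow_mul', Real.sqrt_sq (by positivity)]

lemma Pm.vb (p : Pm t L N K ℓ Q z r U W a N₁) (hτ : ∀ d ∈ Icc 1 (z ^ (2 * r) * N),
      √(2 * d) * d.divisors.card * HH d * (2 + HH d) ≤ Real.exp (3 / 5 * L)) :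
    ∑ k ∈ Icc (1 : ℤ) K, ‖∑ m ∈ Icc 1 (N ^ 2), (ArithmeticFunction.vonMangoldt m : ℂ) *
      (rf z m * kk (wt N a) N Q k m)‖ ≤ 9 * (K * N / t) := by
  obtain ⟨e1, e2, e3, e4, e5, e6⟩ := p.eta
  have kr := p.kr hτ
  have sz := p.sz
  obtain ⟨t0, L0, l0, Q0, a0, n0, two, lc, lt1, lt2, lL, ll, lQ, p1, p2, p3, rz, lK', a1, a2, n1,
    n2, y1⟩ := p.fc
  obtain ⟨t6, hL, NL, N0, K0, KN, lK, l1, l2, hQ, B, z0, z1, z2, r1, r2, U0, U1, U2, -, -, -, -,
    hN₁⟩ := p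
  have hH : (Q ^ 2 : ℕ) * HH (Q ^ 2) ≤ Q ^ 4 := by
    have := Real.log_le_sub_one_of_pos (x := (Q ^ 2 : ℕ)) (by positivity)
    calc _ ≤ ((Q ^ 2 : ℕ) : ℝ) * (Q ^ 2 : ℕ) := by gcongr; linarith [HH_le (Q ^ 2)]
      _ = _ := by push_cast; ring
  have Q4 : (1 : ℝ) ≤ Q ^ 4 := one_le_pow₀ (by exact_mod_cast Q0)
  have l4 := lc 4 (by norm_num) (by norm_num)
  have := kr.vaughan_bd (T := ℓ ^ (2 * 10)) (U := U) (N₁ := N₁) (Y₂ := N ^ 2 / N₁ + 1)
    (δ := 6 / t ^ 25) sz e1 (hN₁ ▸ Nat.div_mul_le_self _ _) hτ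
    (by rw [mul_add, mul_one, mul_comm]; exact (Nat.lt_div_mul_add n0).le)
    (lgN n0 (by positivity) ?_) (lgN (by positivity) (by positivity) ?_)
    ((mul_le_mul_of_nonneg_left (show _ ≤ 2 * (Q : ℝ) ^ 4 by linarith) (by positivity)).trans
      (lg (by positivity) (by positivity) ?_)) (hH.trans (lg (by positivity) (by positivity) ?_))
    e6 (by positivity) ?_ (lgN (by positivity) N0 ?_) (lgN (by positivity) (by positivity) ?_)
    (by rw [hQ, ← pow_mul]) (lgN (by positivity) K0 ?_) (sq U).ge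
    (lgN (by positivity) (by positivity) ?_) (lgN (by positivity) (by positivity) ?_)
    (lg' (by positivity) (by positivity) ?_)
  · rw [sqrt_pow] at this
    refine this.trans ?_
    have V0 := (Vp_le e2 r).1
    have sQ : Real.log √(Q : ℝ) = Real.log Q / 2 := Real.log_sqrt (by positivity)
    have l8 := lc 800 (by norm_num) (by norm_num)
    have l9 := lc 30000 (by norm_num) (by norm_num)
    have l3 := lc 3 (by norm_num) (by norm_num)
    have l6 := lc 6 (by norm_num) (by norm_num)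
    have l7 := lc 8 (by norm_num) (by norm_num)
    calc _ ≤ 4 * L * (800 * K * (N * L ^ 4 / ℓ ^ 10 + Q * (U * z ^ (2 * r) : ℕ)) +
        8 * Q ^ 3 * K * N * L * (1 / (t * Q ^ 10) + 1 / (t * Q ^ 10))) +
        4 * L * (2 * (30000 * K * N * L ^ 2 / √Q + 8 * Q ^ 3 * K * N * L * (1 / (t * Q ^ 10))) +
          2 * ((K * (2 / t ^ 18) + 2 * (z ^ (2 * r) : ℕ) * Real.exp (3 / 5 * L)) * N * (3 / t ^ 17)) +
          3 * K * N * (6 / t ^ 25)) := by
          rw [div_eq_mul_one_div (8 * Q ^ 3 * K * N * L) (z : ℝ)]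
          gcongr
      _ = 4 * L * 800 * K * N * L ^ 4 / ℓ ^ 10 + 4 * L * 800 * K * Q * (U * z ^ (2 * r)) +
        2 * (4 * L * 8 * Q ^ 3 * K * N * L / (t * Q ^ 10)) +
        4 * L * 2 * 30000 * K * N * L ^ 2 / √Q + 2 * (4 * L * 8 * Q ^ 3 * K * N * L / (t * Q ^ 10)) +
        4 * L * 4 * K * N * 3 / t ^ 35 + 4 * L * 4 * z ^ (2 * r) * Real.exp (3 / 5 * L) * N * 3 / t ^ 17 +
        4 * L * 3 * K * N * 6 / t ^ 25 := by push_cast; ring
      _ ≤ K * N / t + K * N / t + K * N / t + K * N / t + K * N / t + K * N / t + K * N / t +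
          K * N / t := by
          refine add_le_add (add_le_add (add_le_add (add_le_add (add_le_add (add_le_add
            (add_le_add ?_ ?_) ?_) ?_) ?_) ?_) ?_) ?_ <;>
          · refine lg (by positivity) (by positivity) ?_
            simp (disch := positivity) only [Nat.cast_mul, Real.log_mul, Real.log_pow,
              Real.log_div, Real.log_exp, Nat.cast_ofNat]
            linarith
      _ ≤ _ := by linarith [(by positivity : 0 ≤ K * N / t)]
  any_goals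
    simp (disch := positivity) only [Nat.cast_mul, Nat.cast_pow, Real.log_mul, Real.log_pow,
      Nat.cast_ofNat, Nat.cast_add (2 * r), Nat.cast_one]
    linarith
  rw [div_pow, div_pow, ← pow_mul, ← pow_mul]
  exact div_le_div₀ (by norm_num) (by norm_num) (by positivity)
    (pow_le_pow_right₀ (by linarith) (by norm_num))

end Pool.Agent.Work.MP_51e72e_nt.QA
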