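import Pool.Agent.Work.MP_51e72e_nt.QAPair
import Pool.Agent.Work.MP_51e72e_nt.QACount

noncomputable section
open Finset Real
open Pool.Agent.Lib.LargeSieve

namespace Pool.Agent.Work.MP_51e72e_nt.QA

/-- hypotheses on the weight -/
structure Wt (ψ : ℝ → ℝ) (M₀ M₁ Λ : ℝ) : Prop where
  nn : ∀ x, 0 ≤ ψ x
  le1 : ∀ x, ψ x ≤ 1
  supp : ∀ x, ψ x ≠ 0 → M₀ ≤ x ∧ x ≤ M₁
  lip : ∀ x y, |ψ x - ψ y| ≤ Λ * |x - y|

lemma Wt.lam_nonneg {ψ : ℝ → ℝ} {M₀ M₁ Λ : ℝ} (h : Wt ψ M₀ M₁ Λ) : 0 ≤ Λ := by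
  have := (abs_nonneg _).trans (h.lip 1 0)
  simpa using this

lemma sqrt_close {A ℓ A₁ a : ℕ} (h1 : A ≤ A₁) (h2 : A₁ ≤ a) (h3 : a ≤ A₁ + ℓ) :
    0 ≤ √(a : ℝ) - √(A₁ : ℝ) ∧ (√(a : ℝ) - √(A₁ : ℝ)) * (2 * √(A : ℝ)) ≤ ℓ := by
  have e1 : √(A₁ : ℝ) ≤ √(a : ℝ) := Real.sqrt_le_sqrt (by exact_mod_cast h2)
  have e2 : √(A : ℝ) ≤ √(A₁ : ℝ) := Real.sqrt_le_sqrt (by exact_mod_cast h1)
  have e3 := Real.mul_self_sqrt (x := (a : ℝ)) (by positivity)
  have e4 := Real.mul_self_sqrt (x := (A₁ : ℝ)) (by positivity)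
  have e5 : (a : ℝ) ≤ A₁ + ℓ := by exact_mod_cast h3
  exact ⟨by linarith, by nlinarith⟩

lemma geom_close {A ℓ A₁ A₂ a a' i : ℕ} (hA : 0 < A) (hi : 0 < i)
    (h1 : A ≤ A₁) (h2 : A₁ ≤ a) (h3 : a ≤ A₁ + ℓ) (h4 : A₁ + ℓ ≤ 3 * A)
    (h5 : A ≤ A₂) (h6 : A₂ ≤ a') (h7 : a' ≤ A₂ + ℓ) (h8 : A₂ + ℓ ≤ 3 * A) :
    |bet i a a' - bet i A₁ A₂| ≤ ℓ / i ^ 2 ∧ bet i A₁ A₂ ≤ A / i ^ 2 ∧
      |√(a : ℝ) * √(a' : ℝ) - √(A₁ : ℝ) * √(A₂ : ℝ)| ≤ 2 * ℓ := by
  obtain ⟨u1, u2⟩ := sqrt_close h1 h2 h3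
  obtain ⟨v1, v2⟩ := sqrt_close h5 h6 h7
  obtain ⟨a1, a2⟩ := sqrt_bounds (A := A) (a := a) (by omega) (by omega)
  obtain ⟨b1, b2⟩ := sqrt_bounds (A := A) (a := a') (by omega) (by omega)
  obtain ⟨c1, c2⟩ := sqrt_bounds (A := A) (a := A₁) (by omega) (by omega)
  obtain ⟨d1, d2⟩ := sqrt_bounds (A := A) (a := A₂) (by omega) (by omega)
  have hs : 0 < √(A : ℝ) := Real.sqrt_pos.2 (by exact_mod_cast hA)
  have hss := Real.mul_self_sqrt (x := (A : ℝ)) (by positivity)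
  have hi' : (0 : ℝ) < i := by exact_mod_cast hi
  generalize √(A : ℝ) = s at *
  generalize hx : √(a : ℝ) = x at *
  generalize hy : √(a' : ℝ) = y at *
  generalize hu : √(A₁ : ℝ) = u at *
  generalize hv : √(A₂ : ℝ) = v at *
  refine ⟨?_, ?_, ?_⟩
  · rw [bet, bet, hx, hy, hu, hv, ← sub_div, abs_div, abs_of_pos (by positivity : (0 : ℝ) < 4 * i ^ 2)]
    have e : (y - x) ^ 2 - (v - u) ^ 2 = ((y - v) - (x - u)) * ((y - x) + (v - u)) := by ring
    have f1 : |(y - x) + (v - u)| ≤ 2 * s := abs_le.2 ⟨by linarith, by linarith⟩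
    have f2 : |(y - v) - (x - u)| * (2 * s) ≤ ℓ := by
      rcases abs_cases ((y - v) - (x - u)) with h | h <;> rw [h.1] <;> nlinarith
    rw [e, abs_mul]
    calc _ ≤ ℓ / (4 * (i : ℝ) ^ 2) := by
          gcongr
          exact (mul_le_mul_of_nonneg_left f1 (abs_nonneg _)).trans f2
      _ ≤ _ := by gcongr; nlinarith [sq_nonneg (i : ℝ)]
  · rw [bet, hu, hv]
    calc _ ≤ A / (4 * (i : ℝ) ^ 2) := by gcongr; nlinarith
      _ ≤ _ := by gcongr; nlinarith [sq_nonneg (i : ℝ)]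
  · rw [abs_of_nonneg (by nlinarith)]
    nlinarith

lemma phase_id {i s s' b n : ℝ} (hi : 0 < i) (h : 4 * i * n + 4 * i ^ 2 * b = s' * s' - s * s) :
    s * s * b - n ^ 2 = (b - (s' - s) ^ 2 / (4 * i ^ 2)) *
        (s * s' - i ^ 2 * (b - (s' - s) ^ 2 / (4 * i ^ 2))) ∧
      n = s * (s' - s) / (2 * i) - i * (b - (s' - s) ^ 2 / (4 * i ^ 2)) := by
  have e : n = (s' * s' - s * s) / (4 * i) - i * b := by field_simp; linarith
  subst e
  constructor <;> field_simp <;> ring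

lemma abs_exp_neg_sub {x y : ℝ} (hx : 0 ≤ x) (hy : 0 ≤ y) :
    |Real.exp (-x) - Real.exp (-y)| ≤ |x - y| := by
  wlog h : x ≤ y generalizing x y
  · rw [abs_sub_comm, abs_sub_comm x]; exact this hy hx (by linarith)
  rw [abs_of_nonneg (sub_nonneg.2 (Real.exp_le_exp.2 (by linarith))), abs_of_nonpos (by linarith)]
  have e : Real.exp (-y) = Real.exp (-x) * Real.exp (-(y - x)) := by rw [← Real.exp_add]; ring_nf
  have h1 := Real.add_one_le_exp (-(y - x))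
  have h2 : Real.exp (-x) ≤ 1 := Real.exp_le_one_iff.2 (by linarith)
  have h3 := Real.exp_pos (-x)
  rw [e]; nlinarith

/-- solutions of the two quadratic equations -/
def Sol (K₁ N' i a a' b : ℕ) : Finset (ℤ × ℕ) :=
  (Icc (-(K₁ : ℤ)) K₁ ×ˢ Icc 1 N').filter fun p =>
    (p.2 : ℤ) ^ 2 + p.1 = a * b ∧ ((p.2 + 2 * b * i : ℕ) : ℤ) ^ 2 + p.1 = a' * b

/-- the frozen weight -/
def psi0 (ψ : ℝ → ℝ) (i A₁ A₂ : ℕ) : ℝ :=
  if A₁ ≤ A₂ then ψ (A₁ * bet i A₁ A₂) * ψ (A₂ * bet i A₁ A₂) else 0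

lemma pointwise {ψ : ℝ → ℝ} {M₀ M₁ Λ : ℝ} (hψ : Wt ψ M₀ M₁ Λ) {A ℓ A₁ A₂ a a' i b K₁ N' : ℕ}
    {K L D : ℝ} (hA : 0 < A) (hi : 0 < i) (hb : 0 < b) (hK : 0 < K) (hL : 0 ≤ L)
    (h1 : A ≤ A₁) (h2 : A₁ ≤ a) (h3 : a ≤ A₁ + ℓ) (h4 : A₁ + ℓ ≤ 3 * A)
    (h5 : A ≤ A₂) (h6 : A₂ ≤ a') (h7 : a' ≤ A₂ + ℓ) (h8 : A₂ + ℓ ≤ 3 * A)
    (hc1 : a < a' → A₁ ≤ A₂) (hc2 : A₁ < A₂ → a < a')
    (hiδ : i ^ 2 * (K / A * L) ≤ A) (hK₁ : 4 * K * L ≤ K₁) (hD : 3 * K * L + 4 * A * ℓ / i ^ 2 ≤ D)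
    (hM : (i * (K / A * L)) ^ 2 + 4 * K * L + D < M₀) (hN : M₁ + D + 4 * K * L ≤ (N' : ℝ) ^ 2) :
    |∑ p ∈ Sol K₁ N' i a a' b, gau K p.1 * (ψ (a * b) * ψ (a' * b)) -
      (if ((4 * i : ℕ) : ℤ) ∣ (a' : ℤ) - a then
        psi0 ψ i A₁ A₂ * gau (K / (√(A₁ : ℝ) * √(A₂ : ℝ))) (b - bet i a a') else 0)|
      ≤ (2 * Λ * D + 22 * L ^ 2 * (2 * ℓ + i ^ 2 * (K / A * L)) / A) * (Sol K₁ N' i a a' b).card
        + 2 * Real.exp (-(2 * L ^ 2)) * gau (2 * (K / A)) (b - bet i a a') := by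
  obtain ⟨g1, g2, g3⟩ := geom_close hA hi h1 h2 h3 h4 h5 h6 h7 h8
  obtain ⟨a1, a2⟩ := sqrt_bounds (A := A) (a := a) (by omega) (by omega)
  obtain ⟨b1, b2⟩ := sqrt_bounds (A := A) (a := a') (by omega) (by omega)
  obtain ⟨c1, c2⟩ := sqrt_bounds (A := A) (a := A₁) (by omega) (by omega)
  obtain ⟨d1, d2⟩ := sqrt_bounds (A := A) (a := A₂) (by omega) (by omega)
  have hA' : (0 : ℝ) < A := by exact_mod_cast hA
  have hs : 0 < √(A : ℝ) := Real.sqrt_pos.2 hA'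
  have hss := Real.mul_self_sqrt (x := (A : ℝ)) (by positivity)
  have hxx := Real.mul_self_sqrt (x := (a : ℝ)) (by positivity)
  have hyy := Real.mul_self_sqrt (x := (a' : ℝ)) (by positivity)
  have hi' : (0 : ℝ) < i := by exact_mod_cast hi
  have hΛ := hψ.lam_nonneg
  have hD0 : 0 ≤ D := le_trans (by positivity) hD
  have r3 : ∀ {x : ℕ}, x ≤ 3 * A → (x : ℝ) ≤ 3 * A := fun h => by exact_mod_cast h
  have p3 : ∀ {x y : ℕ}, x ≤ 3 * A → y ≤ 3 * A → √(x : ℝ) * √(y : ℝ) ≤ 3 * A := fun hx hy => by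
    rw [← Real.sqrt_mul (by positivity)]
    exact Real.sqrt_le_iff.2 ⟨by positivity, by
      rw [sq]; exact mul_le_mul (r3 hx) (r3 hy) (by positivity) (by positivity)⟩
  set t := (b : ℝ) - bet i a a' with ht
  set P := √(a : ℝ) * √(a' : ℝ) with hP
  set P' := √(A₁ : ℝ) * √(A₂ : ℝ) with hP'
  have hP1 : (A : ℝ) ≤ P' := hss.symm.le.trans (mul_le_mul c1 d1 hs.le (hs.le.trans c1))
  have hP2 : P' ≤ 3 * A := p3 (by omega) (by omega)
  have hP3 : P ≤ 3 * A := p3 (by omega) (by omega)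
  have hP4 : (A : ℝ) ≤ P := hss.symm.le.trans (mul_le_mul a1 b1 hs.le (hs.le.trans a1))
  have hP5 : a < a' → (a : ℝ) ≤ P := fun h => hxx.symm.le.trans
    (mul_le_mul_of_nonneg_left (Real.sqrt_le_sqrt (by exact_mod_cast h.le)) (by positivity))
  have ph : ∀ n : ℝ, 4 * i * (n + i * b) = a' - a →
      a * b - n ^ 2 = t * (P - i ^ 2 * t) ∧ i * n = (P - a) / 2 - i ^ 2 * t := fun n hn => by
    obtain ⟨f1, f2⟩ := phase_id (s := √(a : ℝ)) (s' := √(a' : ℝ)) (b := b) (n := n) hi'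
      (by rw [hxx, hyy, ← hn]; ring)
    rw [hxx] at f1
    change _ = _ - i * t at f2
    refine ⟨f1, ?_⟩
    rw [f2, hP]; field_simp; linear_combination (-1) * hxx
  replace g1 : |b - bet i A₁ A₂ - t| ≤ ℓ / i ^ 2 := by
    rw [ht, sub_sub_sub_cancel_left]; exact g1
  clear_value t P P'
  clear ht hP hP' hxx hyy a1 a2 b1 b2 c1 c2 d1 d2 hss hs p3
  have q0 : 0 ≤ psi0 ψ i A₁ A₂ := by
    unfold psi0; split_ifs
    exacts [mul_nonneg (hψ.nn _) (hψ.nn _), le_rfl]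
  have q1 : psi0 ψ i A₁ A₂ ≤ 1 := by
    unfold psi0; split_ifs
    exacts [mul_le_one₀ (hψ.le1 _) (hψ.nn _) (hψ.le1 _), zero_le_one]
  have w0 : 0 ≤ ψ (a * b) * ψ (a' * b) := mul_nonneg (hψ.nn _) (hψ.nn _)
  have w1 : ψ (a * b) * ψ (a' * b) ≤ 1 := mul_le_one₀ (hψ.le1 _) (hψ.nn _) (hψ.le1 _)
  have hE := Real.exp_pos (-(2 * L ^ 2))
  have hg := gau_pos (2 * (K / A)) t
  have far : K / A * L ≤ |t| → ∀ σ x : ℝ, |t| / (K / A) ≤ |x| / σ →
      gau σ x ≤ Real.exp (-(2 * L ^ 2)) * gau (2 * (K / A)) t := fun h σ x hx =>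
    (gau_mono (by positivity) hx).trans (gau_far (by positivity) hL h)
  have far1 : K / A * L ≤ |t| → psi0 ψ i A₁ A₂ * gau (K / P') t
      ≤ Real.exp (-(2 * L ^ 2)) * gau (2 * (K / A)) t := fun h =>
    (mul_le_of_le_one_left (gau_pos _ _).le q1).trans (far h _ _ (by
      gcongr
      exact div_pos hK (hA'.trans_le hP1)))
  have near : |t| ≤ K / A * L → |(a : ℝ) * b - A₁ * bet i A₁ A₂| ≤ D ∧
      |(a' : ℝ) * b - A₂ * bet i A₁ A₂| ≤ D ∧ |t * (P - i ^ 2 * t)| ≤ 4 * K * L := fun h => by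
    have k0 : 0 ≤ bet i A₁ A₂ := by unfold bet; positivity
    have k1 : |b - bet i A₁ A₂| ≤ K / A * L + ℓ / i ^ 2 := by
      have := abs_add_le t (b - bet i A₁ A₂ - t)
      rw [add_sub_cancel] at this
      linarith
    have k2 : ∀ {x X : ℕ}, X ≤ x → x ≤ X + ℓ → X + ℓ ≤ 3 * A →
        |(x : ℝ) * b - X * bet i A₁ A₂| ≤ D := fun {x X} e1 e2 e3 => by
      have e1' : (X : ℝ) ≤ x := by exact_mod_cast e1
      have e2' : (x : ℝ) ≤ X + ℓ := by exact_mod_cast e2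
      calc _ = |x * (b - bet i A₁ A₂) + (x - X) * bet i A₁ A₂| := by congr 1; ring
        _ ≤ x * |b - bet i A₁ A₂| + (x - X) * bet i A₁ A₂ := by
          refine (abs_add_le _ _).trans (le_of_eq ?_)
          rw [abs_mul, Nat.abs_cast, abs_of_nonneg (mul_nonneg (by linarith) k0)]
        _ ≤ 3 * A * (K / A * L + ℓ / i ^ 2) + ℓ * (A / i ^ 2) := by
          gcongr
          · exact r3 (by omega)
          · linarith
        _ = 3 * K * L + 4 * A * ℓ / i ^ 2 := by field_simp; ring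
        _ ≤ D := hD
    refine ⟨k2 h2 h3 h4, k2 h6 h7 h8, ?_⟩
    have k3 : |P - i ^ 2 * t| ≤ 4 * A := by
      refine (abs_sub _ _).trans ?_
      rw [abs_of_nonneg (hA'.le.trans hP4), abs_mul, abs_of_nonneg (sq_nonneg _)]
      linarith [mul_le_mul_of_nonneg_left h (sq_nonneg (i : ℝ))]
    rw [abs_mul]
    calc _ ≤ K / A * L * (4 * A) := by gcongr
      _ = _ := by field_simp
  rcases (Sol K₁ N' i a a' b).eq_empty_or_nonempty with he | ⟨⟨k, n⟩, hp⟩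
  · rw [he, sum_empty, card_empty, zero_sub, abs_neg, Nat.cast_zero, mul_zero, zero_add]
    split_ifs with hd
    swap
    · rw [abs_zero]; positivity
    rw [abs_of_nonneg (mul_nonneg q0 (gau_pos _ _).le)]
    rcases le_total |t| (K / A * L) with h | h
    swap
    · exact (far1 h).trans (by linarith [mul_pos hE hg])
    suffices psi0 ψ i A₁ A₂ = 0 by rw [this, zero_mul]; positivity
    by_contra hne
    obtain ⟨n1, -, n3⟩ := near h
    unfold psi0 at hne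
    have k1 : A₁ ≤ A₂ := by by_contra hh; exact hne (if_neg hh)
    rw [if_pos k1] at hne
    obtain ⟨s1, s2⟩ := hψ.supp _ (left_ne_zero_of_mul hne)
    have k2 : a < a' := hc2 (k1.lt_of_ne fun hh => by
      rw [hh, bet, sub_self] at s1
      have : 0 ≤ (i * (K / A * L)) ^ 2 + 4 * K * L + D := by positivity
      simp at s1; linarith)
    obtain ⟨j, hj⟩ := hd
    have hj' : (a' : ℝ) - a = 4 * i * j := by exact_mod_cast hj
    obtain ⟨f1, f2⟩ := ph (j - i * b) (by rw [hj']; ring)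
    rw [← f1] at n3
    obtain ⟨n3, n4⟩ := abs_le.1 n3
    obtain ⟨n1, n2⟩ := abs_le.1 n1
    have k3 : 0 < (j : ℝ) - i * b := by
      by_contra hh
      have e2 : -(i * (K / A * L)) ≤ j - i * b := by
        have := mul_le_mul_of_nonneg_left ((le_abs_self t).trans h) (sq_nonneg (i : ℝ))
        refine le_of_mul_le_mul_left ?_ hi'
        linarith [hP5 k2]
      have e3 : ((j : ℝ) - i * b) ^ 2 ≤ (i * (K / A * L)) ^ 2 :=
        sq_le_sq' e2 (le_trans (not_lt.1 hh) (by positivity))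
      linarith
    have k4 : (j : ℝ) - i * b ≤ N' := by
      refine le_of_pow_le_pow_left₀ (n := 2) two_ne_zero (by positivity) ?_
      linarith
    have k5 : (0 : ℤ) < j - i * b := by exact_mod_cast k3
    have k6 : j - i * b ≤ (N' : ℤ) := by exact_mod_cast k4
    have k7 : |((a * b - (j - i * b) ^ 2 : ℤ) : ℝ)| ≤ K₁ := by
      push_cast; exact abs_le.2 ⟨by linarith, by linarith⟩
    have k8 : |a * b - (j - i * b) ^ 2| ≤ (K₁ : ℤ) := by exact_mod_cast k7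
    have : (a * b - (j - i * b) ^ 2, (j - i * b).toNat) ∈ Sol K₁ N' i a a' b := by
      simp only [Sol, mem_filter, mem_product, mem_Icc, ← abs_le]
      push_cast at hj ⊢
      rw [Int.toNat_of_nonneg k5.le]
      refine ⟨⟨k8, by omega, by omega⟩, by ring, ?_⟩
      linear_combination (-b : ℤ) * hj
    rw [he] at this
    exact absurd this (notMem_empty _)
  · have key : ∀ p ∈ Sol K₁ N' i a a' b, (4 * i : ℤ) * (p.2 + i * b) = a' - a ∧
        p.1 = a * b - p.2 ^ 2 ∧ 1 ≤ p.2 := fun p hp => by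
      simp only [Sol, mem_filter, mem_product, mem_Icc] at hp
      obtain ⟨⟨-, e0, -⟩, e1, e2⟩ := hp
      push_cast at e2
      refine ⟨mul_left_cancel₀ (a := (b : ℤ)) (by positivity) ?_, by linarith, e0⟩
      linear_combination e2 - e1
    obtain ⟨e1, e2, e3⟩ := key _ hp
    simp only at e1 e2 e3
    have hS : Sol K₁ N' i a a' b = {(k, n)} := by
      refine eq_singleton_iff_unique_mem.2 ⟨hp, fun p hp' => ?_⟩
      obtain ⟨f1, f2, -⟩ := key _ hp'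
      have : (p.2 : ℤ) = n := by
        have := mul_left_cancel₀ (by positivity) (f1.trans e1.symm)
        linarith
      exact Prod.ext (by rw [f2, e2, this]) (by exact_mod_cast this)
    have k2 : a < a' := by
      have : (0 : ℤ) < 4 * i * (n + i * b) := by positivity
      omega
    rw [hS, sum_singleton, card_singleton, Nat.cast_one, mul_one,
      if_pos ⟨n + i * b, by push_cast; exact e1.symm⟩]
    have e1' : (4 * i : ℝ) * (n + i * b) = a' - a := by exact_mod_cast e1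
    obtain ⟨f1, f2⟩ := ph n e1'
    have hk : (k : ℝ) = t * (P - i ^ 2 * t) := by rw [← f1, e2]; push_cast; ring
    simp only
    rw [hk]
    have hε : 0 ≤ 2 * Λ * D + 22 * L ^ 2 * (2 * ℓ + i ^ 2 * (K / A * L)) / A := by positivity
    rcases le_total |t| (K / A * L) with h | h
    · obtain ⟨n1, n2, -⟩ := near h
      have m1 : |ψ (a * b) * ψ (a' * b) - psi0 ψ i A₁ A₂| ≤ 2 * Λ * D := by
        rw [psi0, if_pos (hc1 k2)]
        have l1 := (hψ.lip _ _).trans (mul_le_mul_of_nonneg_left n1 hΛ)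
        have l2 := (hψ.lip _ _).trans (mul_le_mul_of_nonneg_left n2 hΛ)
        calc _ = |(ψ (a * b) - ψ (A₁ * bet i A₁ A₂)) * ψ (a' * b) +
              ψ (A₁ * bet i A₁ A₂) * (ψ (a' * b) - ψ (A₂ * bet i A₁ A₂))| := by congr 1; ring
          _ ≤ Λ * D * 1 + 1 * (Λ * D) := by
            refine (abs_add_le _ _).trans ?_
            rw [abs_mul, abs_mul, abs_of_nonneg (hψ.nn _), abs_of_nonneg (hψ.nn _)]
            gcongr
            exacts [hψ.nn _, hψ.le1 _, hψ.le1 _]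
          _ = _ := by ring
      have m2 : |gau K (t * (P - i ^ 2 * t)) - gau (K / P') t|
          ≤ 22 * L ^ 2 * (2 * ℓ + i ^ 2 * (K / A * L)) / A := by
        refine (abs_exp_neg_sub (by positivity) (by positivity)).trans ?_
        have hP0 : 0 < P' := hA'.trans_le hP1
        have e : π * (t * (P - i ^ 2 * t)) ^ 2 / K ^ 2 - π * t ^ 2 / (K / P') ^ 2
            = π * (t / K) ^ 2 * ((P - P' - i ^ 2 * t) * (P + P' - i ^ 2 * t)) := by
          field_simp; ring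
        have l0 : |(i : ℝ) ^ 2 * t| ≤ i ^ 2 * (K / A * L) := by
          rw [abs_mul, abs_of_nonneg (sq_nonneg _)]; gcongr
        have l1 : |P - P' - i ^ 2 * t| ≤ 2 * ℓ + i ^ 2 * (K / A * L) :=
          (abs_sub _ _).trans (add_le_add g3 l0)
        have l2 : |P + P' - i ^ 2 * t| ≤ 7 * A := by
          refine (abs_sub _ _).trans ?_
          rw [abs_of_nonneg (by linarith : 0 ≤ P + P')]; linarith
        have l3 : (t / K) ^ 2 ≤ (L / A) ^ 2 := by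
          rw [← sq_abs, abs_div, abs_of_pos hK]
          refine pow_le_pow_left₀ (by positivity) ?_ 2
          rw [div_le_iff₀ hK]
          exact h.trans (le_of_eq (by ring))
        rw [e, abs_mul, abs_mul _ (_ - _), abs_of_nonneg (by positivity : 0 ≤ π * (t / K) ^ 2)]
        calc _ ≤ (22 / 7) * (L / A) ^ 2 * ((2 * ℓ + i ^ 2 * (K / A * L)) * (7 * A)) := by
              gcongr; linarith [Real.pi_lt_d4]
          _ = _ := by field_simp
      calc _ = |gau K (t * (P - i ^ 2 * t)) * (ψ (a * b) * ψ (a' * b) - psi0 ψ i A₁ A₂) +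
            psi0 ψ i A₁ A₂ * (gau K (t * (P - i ^ 2 * t)) - gau (K / P') t)| := by congr 1; ring
        _ ≤ 1 * (2 * Λ * D) + 1 * (22 * L ^ 2 * (2 * ℓ + i ^ 2 * (K / A * L)) / A) := by
          refine (abs_add_le _ _).trans ?_
          rw [abs_mul, abs_mul, abs_of_pos (gau_pos _ _), abs_of_nonneg q0]
          gcongr
          exact gau_le_one _ _
        _ ≤ _ := by linarith [mul_pos hE hg]
    · have l1 : (A : ℝ) ≤ P - i ^ 2 * t := by
        have e4 : (0 : ℝ) ≤ i * n := by positivity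
        have e7 : (A : ℝ) ≤ a := by exact_mod_cast h1.trans h2
        linarith
      have l2 := far h K (t * (P - i ^ 2 * t)) (by
        rw [abs_mul, abs_of_pos (hA'.trans_le l1), div_div_eq_mul_div]; gcongr)
      have l3 := far1 h
      have l4 := (mul_le_of_le_one_right (gau_pos K (t * (P - i ^ 2 * t))).le w1).trans l2
      have l5 := mul_nonneg (gau_pos K (t * (P - i ^ 2 * t))).le w0
      have l6 := mul_nonneg q0 (gau_pos (K / P') t).le
      exact abs_le.2 ⟨by linarith, by linarith⟩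

end Pool.Agent.Work.MP_51e72e_nt.QA
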