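import Pool.Agent.Work.MP_51e72e_nt.QABlock
import Pool.Agent.Lib.ANT.Mertens

noncomputable section
open Finset Real
open Pool.Agent.Lib.LargeSieve

namespace Pool.Agent.Work.MP_51e72e_nt.QA

lemma bonf (x : ℕ → ℝ) (h0 : ∀ p, 0 ≤ x p) (h1 : ∀ p, x p ≤ 1) (S : Finset ℕ) (j : ℕ) :
    0 ≤ (-1) ^ j * (∑ T ∈ S.powerset, (if T.card ≤ j then (-1) ^ T.card * ∏ p ∈ T, x p else 0) -
      ∏ p ∈ S, (1 - x p)) := by
  induction S using Finset.induction_on generalizing j with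
  | empty => simp
  | insert a S ha ih =>
    have e : ∀ T ∈ S.powerset, (insert a T).card = T.card + 1 ∧
        ∏ p ∈ insert a T, x p = x a * ∏ p ∈ T, x p := fun T hT =>
      have : a ∉ T := fun h => ha (mem_powerset.1 hT h)
      ⟨card_insert_of_notMem this, prod_insert this⟩
    rw [sum_powerset_insert ha, prod_insert ha, add_comm (∑ T ∈ S.powerset, _),
      sum_congr rfl fun T hT => by rw [(e T hT).1, (e T hT).2]]
    have p0 : 0 ≤ ∏ p ∈ S, (1 - x p) := prod_nonneg fun p _ => by linarith [h1 p]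
    rcases j with _ | j
    · have := ih 0
      simp only [pow_zero, one_mul, Nat.add_one_le_iff, Nat.not_lt_zero, if_false, sum_const_zero,
        zero_add] at this ⊢
      nlinarith [h0 a]
    · have e2 : ∑ T ∈ S.powerset, (if T.card + 1 ≤ j + 1 then (-1) ^ (T.card + 1) *
          (x a * ∏ p ∈ T, x p) else 0) = -x a * ∑ T ∈ S.powerset,
          (if T.card ≤ j then (-1) ^ T.card * ∏ p ∈ T, x p else 0) := by
        rw [mul_sum]
        refine sum_congr rfl fun T _ => ?_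
        simp only [Nat.add_le_add_iff_right]
        split_ifs <;> ring
      rw [e2]
      have i1 := ih (j + 1)
      have i2 := mul_nonneg (h0 a) (ih j)
      rw [pow_succ] at i1 ⊢
      linarith

/-- primes up to z -/
def Ps (z : ℕ) : Finset ℕ := (Ioc 0 z).filter Nat.Prime

/-- small subsets -/
def Lo (z r : ℕ) : Finset (Finset ℕ) := (Ps z).powerset.filter fun T => T.card ≤ 2 * r

/-- subsets of the critical size -/
def Hi (z r : ℕ) : Finset (Finset ℕ) := (Ps z).powerset.filter fun T => T.card = 2 * r + 1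

/-- product of a set of primes -/
def pr (T : Finset ℕ) : ℕ := ∏ p ∈ T, p

lemma bonf2 (x : ℕ → ℝ) (h0 : ∀ p, 0 ≤ x p) (h1 : ∀ p, x p ≤ 1) (z r : ℕ) :
    ∏ p ∈ Ps z, (1 - x p) ≤ ∑ T ∈ Lo z r, (-1) ^ T.card * ∏ p ∈ T, x p ∧
    ∑ T ∈ Lo z r, (-1) ^ T.card * ∏ p ∈ T, x p ≤
      ∏ p ∈ Ps z, (1 - x p) + ∑ T ∈ Hi z r, ∏ p ∈ T, x p := by
  have a := bonf x h0 h1 (Ps z) (2 * r)
  have b := bonf x h0 h1 (Ps z) (2 * r + 1)
  have e : ∑ T ∈ (Ps z).powerset, (if T.card ≤ 2 * r + 1 then (-1) ^ T.card * ∏ p ∈ T, x p else 0)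
      = ∑ T ∈ Lo z r, (-1) ^ T.card * ∏ p ∈ T, x p - ∑ T ∈ Hi z r, ∏ p ∈ T, x p := by
    rw [Lo, Hi, sum_filter, sum_filter, ← sum_sub_distrib]
    refine sum_congr rfl fun T _ => ?_
    split_ifs with h1 h2 h3 h4 <;> first | omega | simp [*, pow_succ]
  rw [e, pow_succ, pow_mul] at b
  rw [← sum_filter, pow_mul] at a
  simp only [even_two, Even.neg_pow, one_pow, one_mul] at a b
  exact ⟨by rw [Lo]; linarith, by linarith⟩

lemma mem_Ps {z p : ℕ} : p ∈ Ps z ↔ p.Prime ∧ p ≤ z := by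
  simp only [Ps, mem_filter, mem_Ioc]
  exact ⟨fun h => ⟨h.2, h.1.2⟩, fun h => ⟨⟨h.1.pos, h.2⟩, h.1⟩⟩

lemma pr_sqf {z : ℕ} {T : Finset ℕ} (h : T ⊆ Ps z) : Squarefree (pr T) :=
  Pool.Agent.Lib.ANT.squarefree_prod_primes T fun _ hp => (mem_Ps.1 (h hp)).1

lemma pr_pos {z : ℕ} {T : Finset ℕ} (h : T ⊆ Ps z) : 0 < pr T :=
  Nat.pos_of_ne_zero (pr_sqf h).ne_zero

lemma pr_le {z : ℕ} {T : Finset ℕ} (h : T ⊆ Ps z) : pr T ≤ z ^ T.card :=
  prod_le_pow_card _ _ _ fun _ hp => (mem_Ps.1 (h hp)).2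

lemma pr_inj {z : ℕ} {T T' : Finset ℕ} (h : T ⊆ Ps z) (h' : T' ⊆ Ps z) (e : pr T = pr T') :
    T = T' := by
  rw [← Nat.primeFactors_prod fun _ hp => (mem_Ps.1 (h hp)).1,
    ← Nat.primeFactors_prod fun _ hp => (mem_Ps.1 (h' hp)).1]
  exact congrArg _ e

lemma Rough.cop_pr {z m : ℕ} (hm : Rough z m) {T : Finset ℕ} (h : T ⊆ Ps z) : m.Coprime (pr T) :=
  Nat.Coprime.prod_right fun _ hp =>
    hm.cop (mem_Icc.2 ⟨(mem_Ps.1 (h hp)).1.pos, (mem_Ps.1 (h hp)).2⟩)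

lemma prod_ind {z : ℕ} {T : Finset ℕ} (h : T ⊆ Ps z) (m : ℕ) :
    ∏ p ∈ T, (if p ∣ m then (1 : ℝ) else 0) = if pr T ∣ m then 1 else 0 := by
  rw [prod_boole]
  refine if_congr ⟨fun e => prod_primes_dvd m (fun p hp => (mem_Ps.1 (h hp)).1.prime) e,
    fun e p hp => (dvd_prod_of_mem _ hp).trans e⟩ rfl rfl

open Classical in
/-- indicator of rough numbers -/
def rf (z m : ℕ) : ℝ := if Rough z m then 1 else 0

/-- sieve majorant -/
def nu (z r m : ℕ) : ℝ := ∑ T ∈ Lo z r, (-1) ^ T.card * if pr T ∣ m then 1 else 0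

lemma rf_nonneg (z m : ℕ) : 0 ≤ rf z m := by unfold rf; split_ifs <;> norm_num

lemma rf_le_one (z m : ℕ) : rf z m ≤ 1 := by unfold rf; split_ifs <;> norm_num

lemma rf_mul (z a b : ℕ) : rf z (a * b) = rf z a * rf z b := by
  classical
  have : Rough z (a * b) ↔ Rough z a ∧ Rough z b :=
    ⟨fun h => ⟨fun p hp e => h p hp (e.mul_right _), fun p hp e => h p hp (e.mul_left _)⟩,
      fun h p hp e => ((Nat.Prime.dvd_mul hp).1 e).elim (h.1 p hp) (h.2 p hp)⟩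
  simp only [rf, this, ite_and]
  split_ifs <;> simp

lemma rough_of_rf {z m : ℕ} (h : rf z m ≠ 0) : Rough z m := by
  by_contra e; exact h (if_neg e)

lemma brun (z r m : ℕ) : rf z m ≤ nu z r m ∧
    nu z r m ≤ rf z m + ∑ T ∈ Hi z r, if pr T ∣ m then 1 else 0 := by
  have := bonf2 (fun p => if p ∣ m then 1 else 0) (fun p => by positivity)
    (fun p => by split_ifs <;> norm_num) z r
  have e : ∏ p ∈ Ps z, (1 - if p ∣ m then (1 : ℝ) else 0) = rf z m := by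
    unfold rf
    split_ifs with h
    · exact prod_eq_one fun p hp => by
        rw [if_neg fun e => (h p (mem_Ps.1 hp).1 e).not_ge (mem_Ps.1 hp).2, sub_zero]
    · simp only [Rough, not_forall, not_lt] at h
      obtain ⟨p, h1, h2, h3⟩ := h
      exact prod_eq_zero (mem_Ps.2 ⟨h1, h3⟩) (by simp [h2])
  rwa [e, sum_congr rfl fun T hT => by rw [prod_ind (mem_powerset.1 (mem_filter.1 hT).1)],
    sum_congr (s₁ := Hi z r) rfl fun T hT => prod_ind (mem_powerset.1 (mem_filter.1 hT).1) m] at this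

/-- the error of the sieve -/
def eta (z r : ℕ) : ℝ := ∑ T ∈ Hi z r, 1 / (pr T : ℝ)

/-- the mean of the majorant -/
def Vp (z r : ℕ) : ℝ := ∑ T ∈ Lo z r, (-1) ^ T.card * (1 / (pr T : ℝ))

lemma eta_nonneg (z r : ℕ) : 0 ≤ eta z r := sum_nonneg fun _ _ => by positivity

lemma prod_one_add_le {z : ℕ} (hz : 2 ≤ z) {c : ℝ} (hc : 0 ≤ c) :
    ∏ p ∈ Ps z, (1 + c * (p : ℝ)⁻¹) ≤ Real.exp (c * (Real.log (Real.log z) + 72)) := by
  refine (prod_le_prod (fun _ _ => by positivity) fun p _ => (add_comm _ _).trans_le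
    (Real.add_one_le_exp _)).trans ?_
  rw [← Real.exp_sum, ← mul_sum]
  have := (abs_le.1 (Pool.Agent.Lib.ANT.abs_sum_inv_prime_sub_loglog_le z hz)).2
  exact Real.exp_le_exp.2 (mul_le_mul_of_nonneg_left (by rw [Ps]; linarith) hc)

lemma eta_le {z : ℕ} (hz : 2 ≤ z) (r : ℕ) :
    eta z r ≤ Real.exp (3 * (Real.log (Real.log z) + 72) - 2 * r) := by
  have h := prod_one_add_le hz (c := 3) (by norm_num)
  rw [prod_one_add] at h
  rw [Real.exp_sub, le_div_iff₀ (Real.exp_pos _), eta, sum_mul]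
  refine le_trans ?_ ((sum_le_sum_of_subset_of_nonneg (filter_subset (fun T => T.card = 2 * r + 1) _)
    fun _ _ _ => by positivity).trans h)
  refine sum_le_sum fun T hT => ?_
  rw [prod_mul_distrib, prod_const, (mem_filter.1 hT).2, prod_inv_distrib, pr, Nat.cast_prod,
    one_div, mul_comm, show (2 * r : ℝ) = (2 * r : ℕ) * 1 by simp, Real.exp_nat_mul, pow_succ]
  refine mul_le_mul_of_nonneg_right ((pow_le_pow_left₀ (Real.exp_pos 1).le
    (Real.exp_one_lt_d9.le.trans (by norm_num : _ ≤ (3 : ℝ))) _).trans ?_) (by positivity)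
  exact le_mul_of_one_le_right (by positivity) (by norm_num)

lemma Vp_le {z : ℕ} (hz : 2 ≤ z) (r : ℕ) : 0 ≤ Vp z r ∧ Vp z r ≤ 1 / Real.log z + eta z r := by
  have h1 : ∀ p : ℕ, (p : ℝ)⁻¹ ≤ 1 := fun p => Nat.cast_inv_le_one p
  have := bonf2 (fun p => (p : ℝ)⁻¹) (fun p => by positivity) h1 z r
  simp only [prod_inv_distrib] at this
  have l := Pool.Agent.Lib.ANT.log_le_prod_one_sub_inv_prime_inv z
  have l0 : 0 < Real.log z := Real.log_pos (by exact_mod_cast hz)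
  rw [prod_inv_distrib] at l
  simp only [Vp, eta, one_div, pr, Nat.cast_prod]
  exact ⟨(prod_nonneg fun p _ => by linarith [h1 p]).trans this.1,
    this.2.trans (add_le_add (le_inv_of_le_inv₀ l0 l) le_rfl)⟩

lemma pr_Lo {z r : ℕ} (hz : 1 ≤ z) {T : Finset ℕ} (hT : T ∈ Lo z r) : pr T ∈ Icc 1 (z ^ (2 * r)) :=
  have h := mem_powerset.1 (mem_filter.1 hT).1
  mem_Icc.2 ⟨pr_pos h, (pr_le h).trans (Nat.pow_le_pow_right hz (mem_filter.1 hT).2)⟩

lemma card_Lo {z : ℕ} (hz : 1 ≤ z) (r : ℕ) : ((Lo z r).card : ℝ) ≤ (z ^ (2 * r) : ℕ) := by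
  have := card_le_card_of_injOn (s := Lo z r) pr (fun T hT => pr_Lo hz hT) fun T hT T' hT' =>
    pr_inj (mem_powerset.1 (mem_filter.1 hT).1) (mem_powerset.1 (mem_filter.1 hT').1)
  rw [Nat.card_Icc, Nat.add_sub_cancel] at this
  exact_mod_cast this

lemma harm_rough {z : ℕ} (hz : 2 ≤ z) (r : ℕ) {Y₁ Y₂ : ℕ} (h1 : 0 < Y₁) (h2 : Y₁ ≤ Y₂) :
    ∑ a ∈ Ioc Y₁ Y₂, rf z a / a
      ≤ Vp z r * (1 + Real.log Y₂ - Real.log Y₁) + (z ^ (2 * r) : ℕ) * (16 / Y₁) := by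
  have Y0 : (0 : ℝ) < Y₁ := by exact_mod_cast h1
  have bv := (BV_ind (Y₁ + 1) (Y₂ + 1) (by omega)).mul (BV.of_anti (V := 1 / Y₁)
    (G := fun m => 1 / (max m Y₁ : ℕ)) (fun a b e => by
      simp only; gcongr) fun m =>
      ⟨by positivity, by gcongr; exact le_max_right _ _⟩)
  set g : ℕ → ℝ := fun n => (if n ∈ Ico (Y₁ + 1) (Y₂ + 1) then 1 else 0) * (1 / (max n Y₁ : ℕ))
    with hg
  have e : ∀ φ : ℕ → ℝ, ∑ a ∈ Ioc Y₁ Y₂, φ a / a = ∑ m ∈ range (Y₂ + 1), φ m * g m := fun φ => by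
    refine sum_congr_of_eq_on_inter (fun a ha ha' => absurd (mem_range.2 (by
      have := mem_Ioc.1 ha; omega)) ha') (fun a ha ha' => ?_) fun a ha _ => ?_
    · simp only [hg]; rw [if_neg (by simp only [mem_Ioc, mem_Ico] at *; omega)]; simp
    · have := mem_Ioc.1 ha
      simp only [hg]; rw [if_pos (mem_Ico.2 (by omega)), max_eq_left this.1.le]; ring
  have s : ∑ m ∈ range (Y₂ + 1), g m ≤ 1 + Real.log Y₂ - Real.log Y₁ := by
    have e1 := e fun _ => 1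
    have e2 : ∀ Y, HH Y = ∑ a ∈ Ioc 0 Y, 1 / (a : ℝ) := fun Y => rfl
    have e3 := sum_Ioc_consecutive (fun a : ℕ => 1 / (a : ℝ)) h1.le h2
    simp only [one_mul] at e1
    linarith [HH_le Y₂, log_le_HH Y₁, e2 Y₁, e2 Y₂]
  calc _ ≤ ∑ a ∈ Ioc Y₁ Y₂, nu z r a / a := by gcongr with a; exact (brun z r a).1
    _ = ∑ T ∈ Lo z r, (-1) ^ T.card * ∑ m ∈ range (Y₂ + 1), if pr T ∣ m then g m else 0 := by
        simp only [e, nu, sum_mul, mul_sum]
        exact sum_comm.trans (sum_congr rfl fun T _ => sum_congr rfl fun m _ => by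
          split_ifs <;> simp)
    _ ≤ ∑ T ∈ Lo z r, ((-1) ^ T.card * (1 / (pr T : ℝ)) * ∑ m ∈ range (Y₂ + 1), g m + 16 / Y₁) := by
        refine sum_le_sum fun T hT => ?_
        have := model_int bv (mem_Icc.1 (pr_Lo (by omega) hT)).1 (θ := 0) (t := 0) (by simp)
          (Y₂ + 1)
        simp only [mul_zero, ee_zero, mul_one] at this
        rw [show (∑ m ∈ range (Y₂ + 1), if pr T ∣ m then (g m : ℂ) else 0) =
          ((∑ m ∈ range (Y₂ + 1), if pr T ∣ m then g m else 0 : ℝ) : ℂ) by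
            push_cast; exact sum_congr rfl fun _ _ => by split_ifs <;> simp,
          ← Complex.ofReal_natCast, ← Complex.ofReal_div, ← Complex.ofReal_sub, Complex.norm_real,
          Real.norm_eq_abs, abs_le] at this
        have e1 : 8 * (2 * (1 / (Y₁ : ℝ))) = 16 / Y₁ := by ring
        rcases neg_one_pow_eq_or ℝ T.card with h | h <;> rw [h, mul_assoc, one_div_mul_eq_div] <;>
        linarith
    _ ≤ _ := by
        rw [sum_add_distrib, ← sum_mul]
        exact add_le_add (mul_le_mul_of_nonneg_left s (Vp_le hz r).1)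
          (sum_le_mul _ _ (by positivity) (card_Lo (by omega) r) fun _ _ => le_rfl)

end Pool.Agent.Work.MP_51e72e_nt.QA
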