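import Pool.Agent.Work.MP_51e72e_nt.QATail
import Pool.Agent.Lib.ANT.DivisorBound

noncomputable section
open Finset Real Filter Topology ArithmeticFunction
open Pool.Agent.Lib.LargeSieve

namespace Pool.Agent.Work.MP_51e72e_nt.QA

/-- the singular series -/
def CC (k : ℕ) : ℝ := Real.exp (limUnder atTop fun y => ∑ n ∈ range (y + 1), lf k n)

lemma EP_tendsto {k : ℕ} (hk : 1 ≤ k) : Tendsto (fun y => EP y k) atTop (𝓝 (CC k)) := by
  simp_rw [EP_eq]
  exact (Real.continuous_exp.tendsto _).comp (tendsto_nhds_limUnder (EP_conv k hk))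

/-- oscillation of the Euler product beyond `Q` -/
def sk (Q N W : ℕ) (k : ℤ) : ℝ := |∑ n ∈ Ico (Q + 1) (N + 1), pj k n| +
  |∑ n ∈ Ico (N + 1) (2 ^ W), pj k n| + 256 / W + 24 / Q

lemma sk_nonneg (Q N W : ℕ) (k : ℤ) : 0 ≤ sk Q N W k := by unfold sk; positivity

lemma CC_close {k Q N W : ℕ} (hk : 1 ≤ k)
    (ht : ∀ u v : ℕ, 2 ^ W ≤ u → |∑ n ∈ Ico u v, pj k n| ≤ 256 / W) (h1 : 1 ≤ Q) (h2 : Q ≤ N)
    (h3 : N + 1 ≤ 2 ^ W) {δ : ℝ} (hs : sk Q N W k ≤ δ) (hδ : δ ≤ 1) :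
    |CC k - EP Q k| ≤ 2 * δ * EP Q k := by
  have t := ((tendsto_nhds_limUnder (EP_conv k hk)).sub_const
    (∑ n ∈ range (Q + 1), lf k n)).abs
  have b := le_of_tendsto t (b := δ) (by
    filter_upwards [eventually_ge_atTop (2 ^ W)] with y hy
    rw [← sum_Ico_eq_sub _ (by omega)]
    refine (sum_lf k h1 _).trans (le_trans ?_ hs)
    rw [← sum_Ico_consecutive _ (by omega : Q + 1 ≤ 2 ^ W) (by omega : 2 ^ W ≤ y + 1),
      ← sum_Ico_consecutive _ (by omega : Q + 1 ≤ N + 1) h3, sk]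
    linarith [ht _ (y + 1) le_rfl, abs_add_three (∑ n ∈ Ico (Q + 1) (N + 1), pj k n)
      (∑ n ∈ Ico (N + 1) (2 ^ W), pj k n) (∑ n ∈ Ico (2 ^ W) (y + 1), pj k n)])
  have c := Real.abs_exp_sub_one_le (b.trans hδ)
  rw [EP_eq, CC]
  generalize (limUnder atTop fun y => ∑ n ∈ range (y + 1), lf k n) = x at *
  generalize ∑ n ∈ range (Q + 1), lf k n = y at *
  rw [show Real.exp x - Real.exp y = (Real.exp (x - y) - 1) * Real.exp y by
    rw [sub_mul, ← Real.exp_add]; simp, abs_mul, abs_of_pos (Real.exp_pos y)]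
  exact mul_le_mul_of_nonneg_right (by linarith) (Real.exp_pos y).le

lemma lemXR {S : Finset ℕ} {K T : ℕ} {M Lg : ℝ}
    (hS : ∀ f ∈ S, Squarefree f ∧ 2 * T ^ 2 ≤ f ∧ Real.log f ≤ Lg)
    {Γ : ℕ → ℝ} (hM : 0 ≤ M) (hΓ : ∀ f ∈ S, |Γ f| ≤ M / f) (hT : 4 ≤ T)
    (hK : T ^ 2 ≤ K) (hL : 1 ≤ Lg) (hKL : Real.log K ≤ Lg) :
    ∑ k ∈ Icc 1 K, |∑ f ∈ S, Γ f * jj (k : ℕ) f| ≤ 180 * K * M * Lg ^ 3 / √T := by
  have := lemX hS (Γ := fun f => Γ f) hM (fun f hf => by rw [Complex.norm_real]; exact hΓ f hf)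
    hT hK hL hKL
  rw [sum_Icc_cast] at this
  refine le_trans (le_of_eq (sum_congr rfl fun k _ => ?_)) this
  rw [← Real.norm_eq_abs, ← Complex.norm_real]
  push_cast; rfl

lemma sum_pj {u v K T : ℕ} {Lg : ℝ} (hu : 2 * T ^ 2 ≤ u) (hv : Real.log v ≤ Lg) (hT : 4 ≤ T)
    (hK : T ^ 2 ≤ K) (hL : 1 ≤ Lg) (hKL : Real.log K ≤ Lg) :
    ∑ k ∈ Icc 1 K, |∑ n ∈ Ico u v, pj (k : ℕ) n| ≤ 180 * K * Lg ^ 3 / √T := by
  have := lemXR (S := (Ico u v).filter Nat.Prime) (Γ := fun f => 1 / f) (M := 1) (fun f hf => by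
    obtain ⟨h1, h2⟩ := mem_filter.1 hf
    exact ⟨h2.squarefree, hu.trans (mem_Ico.1 h1).1,
      (log_nat_mono (mem_Ico.1 h1).2.le).trans hv⟩)
    zero_le_one (fun f _ => (abs_of_nonneg (by positivity)).le) hT hK hL hKL
  rw [mul_one] at this
  refine le_trans (le_of_eq (sum_congr rfl fun k _ => ?_)) this
  rw [sum_filter]
  exact congrArg _ (sum_congr rfl fun n _ => if_congr Iff.rfl (by ring) rfl)

lemma mu_le (q : ℕ) : |(moebius q : ℝ) / q.totient| ≤ 1 / q.totient := by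
  rw [abs_div, Nat.abs_cast]
  gcongr
  exact_mod_cast abs_moebius_le_one

lemma Sg_tight : ∃ C : ℝ, 0 ≤ C ∧ ∀ Q K : ℕ, 2 * Q ^ 5 ≤ K → ∑ k ∈ Icc 1 K, |Sg Q k| ≤ C * K := by
  obtain ⟨C, C1, hC⟩ := Pool.Agent.Lib.ANT.exists_card_divisors_le (1 / 4) (by norm_num)
  have sm : Summable fun n : ℕ => (n : ℝ) ^ (-3 / 2 : ℝ) := Real.summable_nat_rpow.2 (by norm_num)
  have t0 : 0 ≤ ∑' n : ℕ, (n : ℝ) ^ (-3 / 2 : ℝ) := tsum_nonneg fun _ => by positivity
  refine ⟨C ^ 2 * (∑' n : ℕ, (n : ℝ) ^ (-3 / 2 : ℝ)) + 2, by positivity, fun Q K h => ?_⟩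
  set S := (Icc 1 Q).filter Squarefree
  have nΓ : ∀ q : ℕ, ‖((moebius q : ℝ) / q.totient : ℝ)‖ = ‖(((moebius q : ℝ) / q.totient : ℝ) : ℂ)‖ :=
    fun q => (Complex.norm_real _).symm
  have := jj_mean_sq S (fun f hf => (mem_filter.1 hf).2)
    (fun q => ((moebius q : ℝ) / q.totient : ℝ)) K (P := 2 * Q * Q ^ 2) fun f hf g hg => by
      obtain ⟨f1, f2⟩ := mem_Icc.1 (mem_filter.1 hf).1
      obtain ⟨g1, g2⟩ := mem_Icc.1 (mem_filter.1 hg).1
      have a : (f * g : ℝ) ≤ Q ^ 2 := by rw [sq]; gcongr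
      refine mul_le_mul (Real.sqrt_le_iff.2 ⟨by positivity, by nlinarith [sq_nonneg (Q : ℝ)]⟩)
        ((HH_le _).trans ?_) (HH_nonneg _) (by positivity)
      have := Real.log_le_sub_one_of_pos (x := (f * g : ℕ)) (by positivity)
      push_cast at this ⊢
      linarith
  have b1 : ∑ f ∈ S, ‖(((moebius f : ℝ) / f.totient : ℝ) : ℂ)‖ ≤ Q := by
    have := sum_le_mul S (fun f => ‖(((moebius f : ℝ) / f.totient : ℝ) : ℂ)‖) zero_le_one (n := Q)
      (by exact_mod_cast (card_filter_le _ _).trans (by simp)) fun f _ => by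
        rw [← nΓ]; exact (mu_le f).trans (by rw [one_div]; exact Nat.cast_inv_le_one _)
    rwa [mul_one] at this
  have b2 : ∑ f ∈ S, ‖(((moebius f : ℝ) / f.totient : ℝ) : ℂ)‖ ^ 2 ≤
      C ^ 2 * ∑' n : ℕ, (n : ℝ) ^ (-3 / 2 : ℝ) := by
    refine le_trans ?_ (mul_le_mul_of_nonneg_left (sm.sum_le_tsum S fun _ _ => by positivity)
      (by positivity))
    rw [mul_sum]
    refine sum_le_sum fun f hf => ?_
    have f0 : (0 : ℝ) < f := by exact_mod_cast (mem_Icc.1 (mem_filter.1 hf).1).1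
    have e : (f : ℝ) ^ (-3 / 2 : ℝ) = ((f : ℝ) ^ (1 / 4 : ℝ) / f) ^ 2 := by
      rw [← Real.rpow_sub_one f0.ne', ← Real.rpow_natCast, ← Real.rpow_mul f0.le]; norm_num
    rw [e, ← mul_pow, ← nΓ]
    refine pow_le_pow_left₀ (norm_nonneg _) ((mu_le f).trans ?_) 2
    rw [← mul_div_assoc, le_div_iff₀ f0, one_div_mul_eq_div]
    exact (Pool.Agent.Lib.ANT.div_totient_le_card_divisors f).trans (hC f)
  have e : ∀ k : ℕ, |Sg Q k| = ‖∑ f ∈ S, (((moebius f : ℝ) / f.totient : ℝ) : ℂ) * jj k f‖ := fun k => by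
    rw [Sg, ← sum_subset (filter_subset Squarefree _) fun q hq h => by
      simp [moebius_eq_zero_of_not_squarefree fun e => h (mem_filter.2 ⟨hq, e⟩)],
      ← Real.norm_eq_abs, ← Complex.norm_real]
    push_cast; rfl
  have hK : 2 * (Q : ℝ) ^ 5 ≤ K := by exact_mod_cast h
  have b3 := pow_le_pow_left₀ (sum_nonneg fun _ _ => norm_nonneg _) b1 2
  have b4 := mul_le_mul_of_nonneg_right b3 (by positivity : (0 : ℝ) ≤ 2 * Q * Q ^ 2)
  have b5 := mul_le_mul_of_nonneg_left b2 (Nat.cast_nonneg K)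
  refine (sum_le_sum (g := fun k => 1 + |Sg Q (k : ℕ)| ^ 2) fun k _ => by
    nlinarith [sq_nonneg (|Sg Q k| - 1)]).trans ?_
  simp only [sum_add_distrib, e, sum_const, Nat.card_Icc, Nat.add_sub_cancel, nsmul_eq_mul]
  linarith

lemma prod_divisors (g : ℕ → ℝ) (h1 : g 1 = 1) (hm : ∀ a b, a ≠ 0 → b ≠ 0 → g (a * b) = g a * g b) :
    ∃ f : ArithmeticFunction ℝ, f.IsMultiplicative ∧ ∀ d, f d = g d / d.totient :=
  ⟨⟨fun d => g d / d.totient, by simp⟩, IsMultiplicative.iff_ne_zero.2 ⟨by simp [h1],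
    fun {m n} h0 h0' hc => by
      simp only [coe_mk, hm m n h0 h0', Nat.totient_mul hc, Nat.cast_mul, mul_div_mul_comm]⟩,
    fun _ => rfl⟩

lemma pf_pr (Q : ℕ) : (pr (Ps Q)).primeFactors = Ps Q :=
  Nat.primeFactors_prod fun _ hp => (mem_Ps.1 hp).1

lemma tot_prime {p : ℕ} (hp : p.Prime) : (p.totient : ℝ) = p - 1 := by
  rw [Nat.totient_prime hp, Nat.cast_sub hp.one_le, Nat.cast_one]

lemma EP_sum (Q : ℕ) (k : ℤ) :
    EP Q k = ∑ d ∈ (pr (Ps Q)).divisors, (moebius d : ℝ) / d.totient * jj k d := by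
  obtain ⟨f, hf, e⟩ := prod_divisors (fun d => jj k d) (by simp [jj_one])
    fun a b _ _ => by simp [jj_mul']
  have := hf.prodPrimeFactors_one_sub_of_squarefree f (pr_sqf (Subset.refl (Ps Q)))
  simp only [e, pf_pr] at this
  refine (prod_congr rfl fun p hp => by rw [tot_prime (mem_Ps.1 hp).1]).trans (this.trans ?_)
  exact sum_congr rfl fun d _ => by ring

lemma rankin {Q N : ℕ} (hQ : 2 ≤ Q) (hN : 0 < N) :
    ∑ d ∈ (pr (Ps Q)).divisors with N < d, (1 : ℝ) / d.totient ≤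
      Real.exp (6 * (Real.log (Real.log Q) + 72) - Real.log N / Real.log Q) := by
  have lQ : 0 < Real.log Q := Real.log_pos (by exact_mod_cast hQ)
  obtain ⟨f, hf, e⟩ := prod_divisors (fun d => Real.exp (Real.log d / Real.log Q)) (by simp)
    fun a b ha hb => by
      rw [← Real.exp_add, Nat.cast_mul, Real.log_mul (by positivity) (by positivity), add_div]
  have := hf.prodPrimeFactors_one_add_of_squarefree (pr_sqf (Subset.refl (Ps Q)))
  simp only [e, pf_pr] at this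
  rw [Real.exp_sub, le_div_iff₀ (Real.exp_pos _), sum_mul]
  refine le_trans ?_ (prod_one_add_le hQ (by norm_num))
  refine le_trans (((sum_le_sum fun d hd => ?_).trans (sum_le_sum_of_subset_of_nonneg
    (filter_subset (N < ·) _) fun _ _ _ => by positivity)).trans this.ge)
    (prod_le_prod (fun _ _ => by positivity) fun p hp => ?_)
  · rw [one_div_mul_eq_div]
    gcongr
    exact (mem_filter.1 hd).2.le
  · obtain ⟨p1, p2⟩ := mem_Ps.1 hp
    have P : (2 : ℝ) ≤ p := by exact_mod_cast p1.two_le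
    have : Real.exp (Real.log p / Real.log Q) ≤ 3 :=
      (Real.exp_le_exp.2 ((div_le_one lQ).2 (log_nat_mono p2))).trans
        (Real.exp_one_lt_d9.le.trans (by norm_num))
    rw [tot_prime p1, add_le_add_iff_left, ← div_eq_mul_inv,
      div_le_div_iff₀ (by linarith) (by linarith)]
    nlinarith

lemma EP_Sg {Q N K T : ℕ} {L : ℝ} (hF : 2 * T ^ 2 ≤ Q) (hQ : Q ≤ N) (hT : 4 ≤ T)
    (hK : T ^ 2 ≤ K) (hL : 1 ≤ L) (hKL : Real.log K ≤ L) (hNL : Real.log N ≤ L) :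
    ∑ k ∈ Icc 1 K, |EP Q (k : ℕ) - Sg Q (k : ℕ)| ≤ 180 * K * (Real.exp 76 * L) * L ^ 3 / √T +
      K * Real.exp (6 * (Real.log (Real.log Q) + 72) - Real.log N / Real.log Q) := by
  have Q16 : 16 ≤ Q := by nlinarith
  set D := (pr (Ps Q)).divisors with hD
  have e : ∀ k : ℤ, EP Q k - Sg Q k =
      ∑ d ∈ D with Q < d ∧ d ≤ N, (moebius d : ℝ) / d.totient * jj k d +
      ∑ d ∈ D with N < d, (moebius d : ℝ) / d.totient * jj k d := fun k => by
    have e1 : Sg Q k = ∑ d ∈ D with d ≤ Q, (moebius d : ℝ) / d.totient * jj k d := by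
      refine (sum_subset (fun d hd => mem_Icc.2 ⟨Nat.pos_of_mem_divisors (mem_filter.1 hd).1,
        (mem_filter.1 hd).2⟩) fun q hq h => ?_).symm
      rw [moebius_eq_zero_of_not_squarefree fun e => h (mem_filter.2 ⟨Nat.mem_divisors.2
        ⟨?_, (pr_pos (Subset.refl _)).ne'⟩, (mem_Icc.1 hq).2⟩)]
      · simp
      · rw [← Nat.prod_primeFactors_of_squarefree e]
        exact prod_dvd_prod_of_subset _ _ _ fun p hp => mem_Ps.2 ⟨Nat.prime_of_mem_primeFactors hp,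
          (Nat.le_of_mem_primeFactors hp).trans (mem_Icc.1 hq).2⟩
    rw [EP_sum, e1, sum_filter, sum_filter, sum_filter, ← sum_sub_distrib, ← sum_add_distrib]
    refine sum_congr rfl fun d _ => ?_
    split_ifs <;> first | omega | simp
  simp_rw [e]
  refine (sum_le_sum fun k _ => abs_add_le _ _).trans ?_
  rw [sum_add_distrib]
  refine add_le_add (lemXR (fun d hd => ?_) (by positivity) (fun d hd => ?_) hT hK hL hKL)
    (sum_le_mul _ _ (by positivity) (by simp) fun k _ => (abs_sum_le_sum_abs _ _).trans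
      ((sum_le_sum fun d _ => ?_).trans (rankin (by omega) (by omega))))
  · obtain ⟨h1, h2, h3⟩ := mem_filter.1 hd
    exact ⟨(pr_sqf (Subset.refl _)).squarefree_of_dvd (Nat.dvd_of_mem_divisors h1), by omega,
      (log_nat_mono h3).trans hNL⟩
  · obtain ⟨h1, h2, h3⟩ := mem_filter.1 hd
    have d0 : (0 : ℝ) < d := by exact_mod_cast (by omega : 0 < d)
    refine (mu_le d).trans ?_
    rw [le_div_iff₀ d0, one_div_mul_eq_div]
    refine (Pool.Agent.Lib.ANT.div_totient_le_loglog d (by omega)).trans ?_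
    gcongr
    exact (Real.log_le_self (by positivity)).trans ((log_nat_mono h3).trans hNL)
  · rw [abs_mul]
    exact (mul_le_of_le_one_right (abs_nonneg _) (by exact_mod_cast abs_jj_le _ d)).trans (mu_le d)

end Pool.Agent.Work.MP_51e72e_nt.QA
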