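import Pool.Agent.Work.MP_51e72e_nt.QAMajor

noncomputable section
open Finset Real Filter Topology
open Pool.Agent.Lib.LargeSieve

namespace Pool.Agent.Work.MP_51e72e_nt.QA

lemma sw_tp2 (A : ℕ) : ∀ᶠ X : ℕ in atTop, ∀ q : ℕ, 0 < q → (q : ℝ) ≤ Real.log X ^ A →
    SWH X q (2 * X / Real.log X ^ A) := by
  have := (isLittleO_log_rpow_rpow_atTop ((A + 1 : ℕ) : ℝ) (s := 1 / 2) (by norm_num)).bound
    (c := 1 / 2) (by norm_num)
  filter_upwards [sw_tp A, tendsto_natCast_atTop_atTop.eventually this,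
    Pool.Agent.Lib.ANT.tendsto_log_nat.eventually_gt_atTop 0] with X h h1 h0 q hq hA χ hχ x hx
  rw [Real.norm_of_nonneg (by positivity), Real.norm_of_nonneg (by positivity),
    Real.rpow_natCast, ← Real.sqrt_eq_rpow] at h1
  refine (h q hq hA χ hχ x hx).trans ?_
  rw [two_mul (X : ℝ), add_div, add_le_add_iff_left, le_div_iff₀ (by positivity)]
  calc _ = 2 * √(X : ℝ) * Real.log X ^ (A + 1) := by ring
    _ ≤ 2 * √(X : ℝ) * (1 / 2 * √(X : ℝ)) := by gcongr
    _ = √(X : ℝ) * √(X : ℝ) := by ring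
    _ = _ := Real.mul_self_sqrt (by positivity)

lemma jj_mod (k n : ℕ) : jj k (n % (4 * k)) = jj k n := by
  have e : Odd (n % (4 * k)) ↔ Odd n := by
    rw [Nat.odd_iff, Nat.odd_iff, Nat.mod_mod_of_dvd _ (by omega)]
  unfold jj
  by_cases h : Odd n
  · rw [if_pos h, if_pos (e.2 h), jacobiSym.mod_right _ h]; simp
  · rw [if_neg h, if_neg (mt e.1 h)]

lemma jj_mul' (k : ℤ) (a b : ℕ) : jj k (a * b) = jj k a * jj k b := by
  rcases eq_or_ne a 0 with rfl | ha
  · simp [jj]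
  rcases eq_or_ne b 0 with rfl | hb
  · simp [jj]
  exact jj_mul k ha hb

/-- the quadratic character attached to `k` -/
def chi (k : ℕ) [NeZero (4 * k)] : DirichletCharacter ℂ (4 * k) where
  toFun x := jj k x.val
  map_one' := by rw [ZMod.val_one_eq_one_mod, jj_mod, jj_one, Int.cast_one]
  map_mul' x y := by rw [ZMod.val_mul, jj_mod, jj_mul', Int.cast_mul]
  map_nonunit' x hx := by
    rw [← ZMod.natCast_zmod_val x, ZMod.isUnit_iff_coprime] at hx
    show ((jj k x.val : ℤ) : ℂ) = 0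
    unfold jj
    split_ifs with h
    · have : NeZero x.val := ⟨h.pos.ne'⟩
      rw [jacobiSym.eq_zero_iff_not_coprime.2 fun e => hx ?_, Int.cast_zero]
      rw [Int.neg_gcd, Int.gcd_natCast_natCast] at e
      exact Nat.Coprime.mul_right ((Nat.Coprime.pow_right 2 (Nat.coprime_two_right.2 h)))
        (Nat.Coprime.symm e)
    · simp

lemma chi_apply (k : ℕ) [NeZero (4 * k)] (n : ℕ) : chi k n = jj k n := by
  show ((jj k (n : ZMod (4 * k)).val : ℤ) : ℂ) = _
  rw [ZMod.val_natCast, jj_mod]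

lemma chi_ne (k : ℕ) [h : NeZero (4 * k)] : chi k ≠ 1 := fun e => by
  obtain ⟨j, rfl⟩ : ∃ j, k = j + 1 := ⟨k - 1, by have := h.out; omega⟩
  have o : Odd (4 * j + 3) := Nat.odd_iff.2 (by omega)
  have h1 : jj (j + 1 : ℕ) (4 * j + 3) = -1 := by
    have a := jacobiSym.mul_left 4 (-((j + 1 : ℕ) : ℤ)) (4 * j + 3)
    have b : jacobiSym (4 * -((j + 1 : ℕ) : ℤ)) (4 * j + 3) = jacobiSym (-1) (4 * j + 3) :=
      jacobiSym.mod_left' (Int.modEq_iff_dvd.2 ⟨1, by push_cast; ring⟩)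
    rw [b, jacobiSym.at_four o, one_mul, jacobiSym.at_neg_one o,
      ZMod.χ₄_nat_three_mod_four (by omega)] at a
    rw [jj, if_pos o, ← a]
  have h2 := chi_apply (j + 1) (4 * j + 3)
  rw [e, h1] at h2
  by_cases hu : IsUnit ((4 * j + 3 : ℕ) : ZMod (4 * (j + 1)))
  · rw [MulChar.one_apply hu] at h2; norm_num at h2
  · rw [MulChar.map_nonunit _ hu] at h2; norm_num at h2

/-- the character divided by the prime -/
def pj (k : ℤ) (n : ℕ) : ℝ := if n.Prime then jj k n / n else 0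

lemma tail_block : ∀ᶠ t : ℕ in atTop, ∀ k : ℕ, 1 ≤ k → (4 * k : ℝ) ≤ (t / 2) ^ 21 → ∀ u v : ℕ,
    2 ^ t ≤ u → v ≤ 2 ^ (t + 1) → |∑ n ∈ Ico u v, pj k n| ≤ 128 * ((t : ℝ) ^ 2)⁻¹ := by
  have ht : Tendsto (fun t : ℕ => 2 ^ (t + 1)) atTop atTop :=
    (tendsto_pow_atTop_atTop_of_one_lt one_lt_two).comp (tendsto_add_atTop_nat 1)
  filter_upwards [ht.eventually (sw_tp2 21), eventually_ge_atTop 2] with t h t2 k hk hA u v hu hv
  rcases lt_or_ge v u with huv | huv
  · rw [Ico_eq_empty_of_le huv.le]; simp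
  have : NeZero (4 * k) := ⟨by omega⟩
  have T2 : (2 : ℝ) ≤ t := by exact_mod_cast t2
  have l2 := Real.log_two_gt_d9
  have lX : (t : ℝ) / 2 ≤ Real.log ((2 ^ (t + 1) : ℕ) : ℝ) := by
    rw [Nat.cast_pow, Real.log_pow]; push_cast; nlinarith
  have U : (2 : ℝ) ^ t ≤ u := by exact_mod_cast hu
  have U1 : (1 : ℝ) < u := (one_lt_pow₀ one_lt_two (by omega)).trans_le U
  have lu : (t : ℝ) / 2 ≤ Real.log u := by
    refine le_trans ?_ (Real.log_le_log (by positivity) U)
    rw [Real.log_pow]; nlinarith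
  have sw := h (4 * k) (by omega) (by
    rw [Nat.cast_mul, Nat.cast_ofNat]; exact hA.trans (by gcongr)) (chi k) (chi_ne k)
  have mx : ∀ m : ℕ, (u : ℝ) ≤ (max m u : ℕ) := fun m => by exact_mod_cast le_max_right _ _
  have bv := (BV_ind u v huv).mul (BV.of_anti (V := 1 / (2 ^ t * (t / 2)))
    (G := fun m => 1 / ((max m u : ℕ) * Real.log (max m u : ℕ))) (fun a b e => by
      have := Real.log_pos (U1.trans_le (mx a))
      have := U1.trans_le (mx a)
      simp only; gcongr) fun m => by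
      have := Real.log_pos (U1.trans_le (mx m))
      refine ⟨by positivity, ?_⟩
      gcongr
      exacts [U.trans (mx m), lu.trans (Real.log_le_log (by positivity) (mx m))])
  have := bv.abelR (fun n => jj k n * tp n) v (K := 4 * 2 ^ (t + 1) / t) fun n hn => by
    have := sw n (by omega)
    simp only [chi_apply] at this
    rw [← Real.norm_eq_abs, ← Complex.norm_real]
    push_cast
    refine this.trans ?_
    have l1 : 1 ≤ Real.log ((2 ^ (t + 1) : ℕ) : ℝ) := by linarith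
    calc _ ≤ 2 * ((2 ^ (t + 1) : ℕ) : ℝ) / (t / 2) := by
          gcongr; exact lX.trans (le_self_pow₀ l1 (by norm_num))
      _ = _ := by push_cast; field_simp; norm_num
  refine le_trans (le_of_eq ?_) (this.trans (le_of_eq (by field_simp; ring)))
  congr 1
  simp only [ite_mul, one_mul, zero_mul]
  rw [← sum_filter, filter_mem_eq_inter, inter_eq_right.2 fun n hn => mem_range.2 (mem_Ico.1 hn).2]
  refine sum_congr rfl fun n hn => ?_
  have := mx n
  rw [max_eq_left (mem_Ico.1 hn).1] at *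
  have := (Real.log_pos (U1.trans_le this)).ne'
  simp only [pj, tp]
  split_ifs
  · field_simp
  · simp

lemma tail : ∀ᶠ j : ℕ in atTop, ∀ k : ℕ, 1 ≤ k → (4 * k : ℝ) ≤ (j / 2) ^ 21 → ∀ u v : ℕ,
    2 ^ j ≤ u → |∑ n ∈ Ico u v, pj k n| ≤ 256 / j := by
  obtain ⟨j₀, h⟩ := eventually_atTop.1 tail_block
  filter_upwards [eventually_ge_atTop j₀, eventually_ge_atTop 1] with j hj j1 k hk hA u v hu
  have key : ∀ i, j ≤ i → |∑ n ∈ Ico (2 ^ j) (2 ^ i) ∩ Ico u v, pj k n| ≤
      ∑ t ∈ Ico j i, 128 * ((t : ℝ) ^ 2)⁻¹ := fun i hi => by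
    induction i, hi using Nat.le_induction with
    | base => simp
    | succ i hi ih =>
      rw [sum_Ico_succ_top hi, ← Ico_union_Ico_eq_Ico (Nat.pow_le_pow_right two_pos hi)
        (Nat.pow_le_pow_right two_pos i.le_succ), union_inter_distrib_right,
        sum_union ((Ico_disjoint_Ico_consecutive _ _ _).mono inter_subset_left inter_subset_left)]
      refine (abs_add_le _ _).trans (add_le_add ih ?_)
      rw [Ico_inter_Ico]
      exact h i (hj.trans hi) k hk (hA.trans (by gcongr)) _ _ le_sup_left inf_le_left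
  have := key (max j v) (le_max_left _ _)
  rw [inter_eq_right.2 (Ico_subset_Ico hu ((le_max_right j v).trans Nat.lt_two_pow_self.le)),
    ← mul_sum] at this
  obtain ⟨i, rfl⟩ : ∃ i, j = i + 1 := ⟨j - 1, by omega⟩
  have b := sum_Ioo_inv_sq_le (α := ℝ) i (max (i + 1) v)
  rw [← Ico_succ_left_eq_Ioo] at b
  refine this.trans ((mul_le_mul_of_nonneg_left b (by norm_num)).trans (le_of_eq ?_))
  push_cast; ring

/-- logarithm of the local factor -/
def lf (k : ℤ) (n : ℕ) : ℝ := if n.Prime then Real.log (1 - jj k n / (n - 1)) else 0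

lemma fac_bd (k : ℤ) {p : ℕ} (hp : p.Prime) : |(jj k p : ℝ) / (p - 1)| ≤ 1 / 2 := by
  rcases hp.eq_two_or_odd' with rfl | h
  · rw [jj, if_neg (by decide)]; simp
  have h3 : (3 : ℝ) ≤ p := by
    have := hp.two_le
    exact_mod_cast (by rcases h with ⟨m, rfl⟩; omega : 3 ≤ p)
  rw [abs_div, abs_of_pos (by linarith : (0 : ℝ) < p - 1)]
  gcongr
  · exact_mod_cast abs_jj_le k p
  · linarith

lemma lf_pj (k : ℤ) {n : ℕ} (hn : 2 ≤ n) : |lf k n + pj k n| ≤ 12 * ((n : ℝ) ^ 2)⁻¹ := by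
  unfold lf pj
  split_ifs with hp
  swap
  · simp
  have h1 := fac_bd k hp
  have h2 := Real.abs_log_sub_add_sum_range_le (h1.trans_lt (by norm_num)) 1
  have N2 : (2 : ℝ) ≤ n := by exact_mod_cast hn
  have j1 : |(jj k n : ℝ)| ≤ 1 := by exact_mod_cast abs_jj_le k n
  have h3 : |(jj k n : ℝ) / (n - 1)| ≤ 2 / n := by
    rw [abs_div, abs_of_pos (by linarith : (0 : ℝ) < n - 1), div_le_div_iff₀ (by linarith) (by linarith)]
    nlinarith
  have h4 : |(jj k n : ℝ) / n - jj k n / (n - 1)| ≤ 2 / n * (1 / n) := by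
    have : n - 1 ≠ (0 : ℝ) := by linarith
    rw [show (jj k n : ℝ) / n - jj k n / (n - 1) = -(jj k n / (n - 1) * (1 / n)) by field_simp; ring,
      abs_neg, abs_mul, abs_of_pos (by positivity : (0 : ℝ) < 1 / n)]
    gcongr
  simp only [range_one, sum_singleton, zero_add, pow_one, Nat.cast_zero, div_one] at h2
  have h5 : |(jj k n : ℝ) / (n - 1)| ^ (1 + 1) / (1 - |(jj k n : ℝ) / (n - 1)|) ≤
      (2 / n) ^ (1 + 1) / (1 / 2) := by gcongr; linarith
  refine le_trans (le_of_eq (by congr 1; ring)) ((abs_add_le _ _).trans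
    ((add_le_add (h2.trans h5) h4).trans ?_))
  rw [show (2 / n : ℝ) ^ (1 + 1) / (1 / 2) + 2 / n * (1 / n) = 10 * ((n : ℝ) ^ 2)⁻¹ by
    ring]
  gcongr; norm_num

lemma sum_lf (k : ℤ) {u : ℕ} (hu : 1 ≤ u) (v : ℕ) :
    |∑ n ∈ Ico (u + 1) v, lf k n| ≤ |∑ n ∈ Ico (u + 1) v, pj k n| + 24 / u := by
  have b := sum_Ioo_inv_sq_le (α := ℝ) u v
  rw [← Ico_succ_left_eq_Ioo] at b
  have U : (0 : ℝ) < u := by exact_mod_cast hu
  have : |∑ n ∈ Ico (u + 1) v, (lf k n + pj k n)| ≤ 24 / u := by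
    refine (abs_sum_le_sum_abs _ _).trans ((sum_le_sum fun n hn =>
      lf_pj k (by have := mem_Ico.1 hn; omega)).trans ?_)
    rw [← mul_sum]
    refine (mul_le_mul_of_nonneg_left b (by norm_num)).trans ?_
    calc _ = 24 / ((u : ℝ) + 1) := by ring
      _ ≤ _ := by gcongr; linarith
  rw [sum_add_distrib, abs_le] at this
  rw [abs_le]
  constructor <;> linarith [le_abs_self (∑ n ∈ Ico (u + 1) v, pj k n),
    neg_abs_le (∑ n ∈ Ico (u + 1) v, pj k n)]

/-- partial Euler product -/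
def EP (y : ℕ) (k : ℤ) : ℝ := ∏ p ∈ Ps y, (1 - (jj k p : ℝ) / (p - 1))

lemma EP_eq (y : ℕ) (k : ℤ) : EP y k = Real.exp (∑ n ∈ range (y + 1), lf k n) := by
  rw [EP, Real.exp_sum, show Ps y = (range (y + 1)).filter Nat.Prime from by
    ext p; simp only [mem_Ps, mem_filter, mem_range, Nat.lt_succ_iff, and_comm], prod_filter]
  refine prod_congr rfl fun n _ => ?_
  unfold lf
  split_ifs with hp
  · rw [Real.exp_log (by linarith [(abs_le.1 (fac_bd k hp)).2])]
  · simp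

lemma EP_conv (k : ℕ) (hk : 1 ≤ k) : ∃ c, Tendsto (fun y => ∑ n ∈ range (y + 1), lf k n) atTop (𝓝 c) := by
  refine cauchySeq_tendsto_of_complete (Metric.cauchySeq_iff'.2 fun ε hε => ?_)
  have t1 : Tendsto (fun j : ℕ => (j : ℝ)) atTop atTop := tendsto_natCast_atTop_atTop
  obtain ⟨j, h1, h2, h3, h4⟩ := (tail.and ((t1.eventually_ge_atTop (8 * k)).and
    ((t1.eventually_gt_atTop (280 / ε)).and (eventually_ge_atTop 2)))).exists
  have J : (2 : ℝ) ≤ j := by exact_mod_cast h4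
  refine ⟨2 ^ j, fun n hn => ?_⟩
  rw [Real.dist_eq, ← sum_Ico_eq_sub _ (by omega)]
  refine ((sum_lf k Nat.one_le_two_pow _).trans (add_le_add (h1 k hk (le_trans (by linarith)
    (le_self_pow₀ (by linarith) (by norm_num))) _ _ (by omega)) (?_ : _ ≤ 24 / (j : ℝ)))).trans_lt ?_
  · gcongr; exact Nat.lt_two_pow_self.le
  · rw [← add_div, div_lt_iff₀ (by linarith)]
    rw [div_lt_iff₀ hε] at h3
    linarith

end Pool.Agent.Work.MP_51e72e_nt.QA
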