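import Pool.Agent.Work.MP_51e72e_nt.QAWindow

noncomputable section
open Finset Real
open Pool.Agent.Lib.LargeSieve

namespace Pool.Agent.Work.MP_51e72e_nt.QA

variable {ψ : ℝ → ℝ} {N K Q : ℕ} {M₀ Λ L : ℝ}

lemma sum_nonsq {z : ℕ} (hz : 0 < z) (N : ℕ) (s : Finset ℕ)
    (hs : ∀ b ∈ s, b ∈ Icc 1 N ∧ Rough z b ∧ ¬Squarefree b) :
    ∑ b ∈ s, (1 : ℝ) / b ≤ HH N / z := by
  have H0 := HH_nonneg N
  calc _ ≤ ∑ b ∈ s, ∑ p ∈ Ioc z (max z N), if p ^ 2 ∣ b then (1 : ℝ) / b else 0 := by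
        refine sum_le_sum fun b hb => ?_
        obtain ⟨h1, h2, h3⟩ := hs b hb
        rw [Nat.squarefree_iff_prime_squarefree] at h3
        push Not at h3
        obtain ⟨p, hp, hd⟩ := h3
        have d1 : p ∣ b := (dvd_mul_right p p).trans hd
        have := Nat.le_of_dvd (mem_Icc.1 h1).1 d1
        refine le_of_eq_of_le ?_ (single_le_sum (f := fun p => if p ^ 2 ∣ b then (1 : ℝ) / b else 0)
          (fun _ _ => by positivity) (mem_Ioc.2 ⟨h2 p hp d1, le_max_of_le_right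
            (this.trans (mem_Icc.1 h1).2)⟩))
        rw [if_pos (by rwa [sq])]
    _ ≤ ∑ p ∈ Ioc z (max z N), HH N * ((p : ℝ) ^ 2)⁻¹ := by
        rw [sum_comm]
        refine sum_le_sum fun p hp => ?_
        have := sum_dvd_inv_le N (q := p ^ 2) (pow_pos (hz.trans (mem_Ioc.1 hp).1) 2)
        rw [sum_filter, Nat.cast_pow] at this
        exact (sum_le_sum_of_subset_of_nonneg (fun b hb => (hs b hb).1)
          fun _ _ _ => by positivity).trans this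
    _ ≤ _ := by
        rw [← mul_sum]
        exact mul_le_mul_of_nonneg_left ((sum_Ioc_inv_sq_le_sub hz.ne' (le_max_left _ _)).trans
          (sub_le_self _ (by positivity))) H0

lemma Kr.nonsq (h : Kr ψ N K Q M₀ Λ L) {z : ℕ} (hz : 0 < z) {Y : ℕ} (hY : Y ≤ N) (S : Finset ℕ)
    {u β : ℕ → ℂ} {u₀ β₀ : ℝ} (hu : ∀ a, ‖u a‖ ≤ u₀) (hβ₀ : 0 ≤ β₀)
    (hβ : ∀ b ∈ Icc 1 Y, ‖β b‖ ≤ β₀ * rf z b) :
    ∃ E : ℤ → ℂ, (∀ k, ∑ b ∈ Icc 1 Y, β b * ∑ a ∈ S, u a * kk ψ N Q k (a * b) =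
      ∑ b ∈ (Icc 1 Y).filter (fun b => Squarefree b ∧ rf z b ≠ 0),
        β b * ∑ a ∈ S, u a * kk ψ N Q k (a * b) + E k) ∧
      ∑ k ∈ Icc (1 : ℤ) K, ‖E k‖ ≤ β₀ * u₀ * (8 * Q ^ 3 * K * N * L / z) := by
  have u0 : 0 ≤ u₀ := (norm_nonneg _).trans (hu 0)
  set s := (Icc 1 Y).filter (fun b => ¬Squarefree b ∧ rf z b ≠ 0) with hs
  refine ⟨fun k => ∑ b ∈ s, β b * ∑ a ∈ S, u a * kk ψ N Q k (a * b), fun k => ?_, ?_⟩
  · simp only [hs]
    rw [sum_filter, sum_filter, ← sum_add_distrib]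
    refine sum_congr rfl fun b hb => ?_
    by_cases h1 : rf z b = 0
    · have := hβ b hb
      rw [h1, mul_zero, norm_le_zero_iff] at this
      simp [this]
    · by_cases h2 : Squarefree b <;> simp [h1, h2]
  · calc _ ≤ ∑ k ∈ Icc (1 : ℤ) K, ∑ b ∈ s, β₀ * (u₀ * ∑ a ∈ S, ‖kk ψ N Q k (a * b)‖) := by
          refine sum_le_sum fun k _ => (norm_sum_le _ _).trans (sum_le_sum fun b hb => ?_)
          rw [norm_mul, mul_sum]
          refine mul_le_mul ((hβ b (mem_filter.1 hb).1).trans (mul_le_of_le_one_right hβ₀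
            (rf_le_one _ _))) ((norm_sum_le _ _).trans (sum_le_sum fun a _ => ?_)) (norm_nonneg _) hβ₀
          rw [norm_mul]; gcongr; exact hu a
      _ ≤ ∑ b ∈ s, β₀ * u₀ * (4 * Q ^ 3 * K * N) * (1 / b) := by
          rw [sum_comm]
          refine sum_le_sum fun b hb => ?_
          rw [← mul_sum, ← mul_sum, mul_assoc, mul_assoc, mul_one_div]
          gcongr
          exact h.fm (Icc_subset_Icc_right hY (mem_filter.1 hb).1) S
      _ ≤ β₀ * u₀ * (4 * Q ^ 3 * K * N) * (2 * L / z) := by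
          rw [← mul_sum]
          refine mul_le_mul_of_nonneg_left ((sum_nonsq hz N s fun b hb => ?_).trans
            (by gcongr; exact h.hN)) (by positivity)
          obtain ⟨h1, h2, h3⟩ := mem_filter.1 hb
          exact ⟨Icc_subset_Icc_right hY h1, rough_of_rf h3, h2⟩
      _ = _ := by ring

lemma Kr.short (h : Kr ψ N K Q M₀ Λ L) {z N₁ Am : ℕ} (S : Sz Am N K Q L)
    (hz : 2 * Q ^ 96 ≤ z) (hN₁ : N₁ * Q ^ 21 ≤ N) {u β : ℕ → ℂ} {u₀ β₀ : ℝ}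
    (hu : ∀ a, ‖u a‖ ≤ u₀) (hβ₀ : 0 ≤ β₀) (hβ : ∀ b, ‖β b‖ ≤ β₀ * rf z b) :
    ∑ k ∈ Icc (1 : ℤ) K, ‖∑ b ∈ Icc 1 N₁, β b * ∑ a ∈ Icc 1 Am, u a * kk ψ N Q k (a * b)‖
      ≤ β₀ * u₀ * (30000 * K * N * L ^ 2 / √Q + 8 * Q ^ 3 * K * N * L / z) := by
  have Q0 := h.Q0
  obtain ⟨E, e1, e2⟩ := h.nonsq (z := z) (lt_of_lt_of_le (by positivity) hz)
    (le_trans (Nat.le_mul_of_pos_right _ (by positivity)) hN₁) (Icc 1 Am) hu hβ₀
    (fun b _ => hβ b)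
  simp_rw [e1]
  refine (sum_le_sum fun k _ => norm_add_le _ _).trans ?_
  rw [sum_add_distrib]
  refine (add_le_add (h.long S hz hN₁ _ (fun b hb => ?_) hu fun b => (hβ b).trans
    (mul_le_of_le_one_right hβ₀ (rf_le_one _ _))) e2).trans (le_of_eq (by ring))
  obtain ⟨h1, h2, h3⟩ := mem_filter.1 hb
  exact ⟨h2, (mem_Icc.1 h1).2, rough_of_rf h3⟩

theorem Kr.bil (h : Kr ψ N K Q M₀ Λ L) {z r N₁ Y₂ Am : ℕ} (S : Sz Am N K Q L)
    (hz : 2 * Q ^ 96 ≤ z) (hN₁ : N₁ * Q ^ 21 ≤ N) {K₀ H δ : ℝ}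
    (hτ : ∀ d ∈ Icc 1 (z ^ (2 * r) * N), √(2 * d) * d.divisors.card * HH d * (2 + HH d) ≤ K₀)
    (hY : N ^ 2 ≤ N₁ * Y₂) (hY₁ : N₁ ≤ Am) (hY₂ : Y₂ ≤ Am)
    (hY₃ : Y₂ * (1 + (Q ^ 2 : ℕ) * HH (Q ^ 2)) ≤ 2 * N ^ 2) (hQ : (Q ^ 2 : ℕ) * HH (Q ^ 2) ≤ K)
    (hH : ∑ a ∈ Ioc N₁ Y₂, rf z a / a ≤ H) (hδ0 : 0 ≤ δ) (hδ : H ^ 3 ≤ δ ^ 2) {f g : ℕ → ℝ}
    {f₀ g₀ : ℝ} (hf₀ : 0 ≤ f₀) (hg₀ : 0 ≤ g₀) (hf : ∀ a ≤ Am, |f a| ≤ f₀) (hg : ∀ a ≤ Am, |g a| ≤ g₀) :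
    ∑ k ∈ Icc (1 : ℤ) K, ‖∑ a ∈ Icc 1 Am, ∑ b ∈ Icc 1 Am,
      (f a * rf z a : ℝ) * (g b * rf z b : ℝ) * kk ψ N Q k (a * b)‖
      ≤ f₀ * g₀ * (2 * (30000 * K * N * L ^ 2 / √Q + 8 * Q ^ 3 * K * N * L / z) +
        2 * ((K * Vp z r + 2 * (z ^ (2 * r) : ℕ) * K₀) * N * H) + 3 * K * N * δ) := by
  have Q0 := h.Q0
  have Q5 : Q ≤ z := le_trans (by have := Nat.le_self_pow (n := 96) (by norm_num) Q; omega) hz
  have z2 : 2 ≤ z := le_trans (by have := Nat.one_le_pow 96 Q Q0; omega) hz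
  have tr : ∀ {f : ℕ → ℝ} {f₀ : ℝ}, 0 ≤ f₀ → (∀ a ≤ Am, |f a| ≤ f₀) → ∃ F : ℕ → ℂ,
      (∀ a, ‖F a‖ ≤ f₀ * rf z a) ∧ ∀ a ∈ Icc 1 Am, ((f a * rf z a : ℝ) : ℂ) = F a :=
    fun {f f₀} h0 hf => ⟨fun a => if a ≤ Am then (f a * rf z a : ℝ) else 0, fun a => by
      have := rf_nonneg z a
      simp only
      split_ifs with ha
      · rw [Complex.norm_real, Real.norm_eq_abs, abs_mul, abs_of_nonneg this]
        gcongr; exact hf a ha
      · simp only [norm_zero]; positivity, fun a ha => (if_pos (mem_Icc.1 ha).2).symm⟩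
  obtain ⟨F, F1, F2⟩ := tr hf₀ hf
  obtain ⟨G, G1, G2⟩ := tr hg₀ hg
  have F3 : ∀ a, ‖F a‖ ≤ f₀ := fun a => (F1 a).trans (mul_le_of_le_one_right hf₀ (rf_le_one _ _))
  have G3 : ∀ a, ‖if N₁ < a then G a else 0‖ ≤ g₀ := fun a => by
    split_ifs
    exacts [(G1 a).trans (mul_le_of_le_one_right hg₀ (rf_le_one _ _)), by simpa using hg₀]
  have sp : ∀ φ : ℕ → ℂ, ∑ a ∈ Icc 1 Am, φ a = ∑ a ∈ Icc 1 N₁, φ a + ∑ a ∈ Ioc N₁ Am, φ a :=
    fun φ => (sum_Ioc_consecutive φ (Nat.zero_le N₁) hY₁).symm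
  have sq : ∀ (k : ℤ) (φ : ℕ → ℕ → ℂ), ∑ a ∈ Ioc N₁ Am, ∑ b ∈ Ioc N₁ Am, φ a b * kk ψ N Q k (a * b) =
      ∑ a ∈ Ioc N₁ Y₂, ∑ b ∈ Ioc N₁ Y₂, φ a b * kk ψ N Q k (a * b) := fun k φ => by
    have z0 : ∀ {a b : ℕ}, N₁ < a → Y₂ < b → kk ψ N Q k (a * b) = 0 := fun ha hb =>
      kk_zero k (h.psi_big (hY.trans_lt (Nat.mul_lt_mul'' ha hb)))
    rw [← sum_subset (Ioc_subset_Ioc_right hY₂) fun a ha ha' => sum_eq_zero fun b hb => by
      rw [mul_comm a, z0 (mem_Ioc.1 hb).1 (by simp only [mem_Ioc] at ha ha'; omega), mul_zero]]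
    refine sum_congr rfl fun a ha => (sum_subset (Ioc_subset_Ioc_right hY₂) fun b hb hb' => ?_).symm
    rw [z0 (mem_Ioc.1 ha).1 (by simp only [mem_Ioc] at hb hb'; omega), mul_zero]
  have e : ∀ k, ∑ a ∈ Icc 1 Am, ∑ b ∈ Icc 1 Am,
      (f a * rf z a : ℝ) * (g b * rf z b : ℝ) * kk ψ N Q k (a * b) =
      ∑ b ∈ Icc 1 N₁, G b * ∑ a ∈ Icc 1 Am, F a * kk ψ N Q k (a * b) +
      ∑ a ∈ Icc 1 N₁, F a * ∑ b ∈ Icc 1 Am, (if N₁ < b then G b else 0) * kk ψ N Q k (b * a) +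
      (∑ a ∈ Ioc N₁ Y₂, ∑ b ∈ Ioc N₁ Y₂, F a * G b * k1 ψ N k (a * b) -
        ∑ a ∈ Ioc N₁ Y₂, ∑ b ∈ Ioc N₁ Y₂, F a * G b * k2 ψ Q k (a * b)) := fun k => by
    rw [sum_congr rfl fun a ha => sum_congr rfl fun b hb => by rw [F2 a ha, G2 b hb]]
    simp only [← sum_sub_distrib, ← mul_sub]
    rw [show ∑ a ∈ Ioc N₁ Y₂, ∑ b ∈ Ioc N₁ Y₂, F a * G b * (k1 ψ N k (a * b) - k2 ψ Q k (a * b)) = _
      from (sq k fun a b => F a * G b).symm, add_assoc, sum_congr rfl fun a _ => sp _,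
      sum_add_distrib, sp fun a => ∑ b ∈ Ioc N₁ Am, _]
    congr 1
    · rw [sum_comm]
      exact sum_congr rfl fun b _ => by rw [mul_sum]; exact sum_congr rfl fun a _ => by ring
    · congr 1
      refine sum_congr rfl fun a _ => ?_
      rw [sp, sum_eq_zero (s := Icc 1 N₁) fun b hb => by
        rw [if_neg (not_lt.2 (mem_Icc.1 hb).2), zero_mul], zero_add, mul_sum]
      exact sum_congr rfl fun b hb => by rw [if_pos (mem_Ioc.1 hb).1, mul_comm b, mul_assoc]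
  have b1 := h.short S hz hN₁ F3 hg₀ G1
  have b2 := h.short S hz hN₁ G3 hf₀ F1
  have b3 := h.win_true z2 r hτ (Ioc N₁ Y₂) (fun a ha => by have := mem_Ioc.1 ha; omega) hH
  have b4 := h.win_model Q5 (Ioc N₁ Y₂) (fun a ha => ⟨by have := mem_Ioc.1 ha; omega, le_trans (by
    have := HH_nonneg (Q ^ 2)
    gcongr; exact (mem_Ioc.1 ha).2) hY₃⟩) hH hQ F1 G1
  replace b4 : _ ≤ 3 * (f₀ * g₀ * K * N) * δ := le_of_pow_le_pow_left₀ two_ne_zero (by positivity)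
    (b4.trans ((mul_le_mul_of_nonneg_left hδ (by positivity)).trans (le_of_eq (by ring))))
  have b5 : ∀ k, ‖∑ a ∈ Ioc N₁ Y₂, ∑ b ∈ Ioc N₁ Y₂, F a * G b * k1 ψ N k (a * b)‖ ≤ f₀ * g₀ *
      ∑ a ∈ Ioc N₁ Y₂, ∑ b ∈ Ioc N₁ Y₂, rf z a * rf z b * ‖k1 ψ N k (a * b)‖ := fun k => by
    simp only [mul_sum]
    refine (norm_sum_le _ _).trans (sum_le_sum fun a _ => (norm_sum_le _ _).trans
      (sum_le_sum fun b _ => ?_))
    rw [norm_mul, norm_mul, ← mul_assoc, mul_mul_mul_comm]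
    exact mul_le_mul_of_nonneg_right (mul_le_mul (F1 a) (G1 b) (norm_nonneg _)
      ((norm_nonneg _).trans (F1 a))) (norm_nonneg _)
  simp_rw [e]
  refine (sum_le_sum fun k _ => (norm_add_le _ _).trans (add_le_add (norm_add_le _ _)
    ((norm_sub_le _ _).trans (add_le_add (b5 k) le_rfl)))).trans ?_
  simp only [sum_add_distrib, ← mul_sum (a := f₀ * g₀)]
  linarith [mul_le_mul_of_nonneg_left b3 (mul_nonneg hf₀ hg₀)]

theorem Kr.typeB (h : Kr ψ N K Q M₀ Λ L) {z r U T : ℕ} (hz : 1 ≤ z) (hU : U * z ^ (2 * r + 1) ≤ N)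
    (hT : 4 ≤ T) (hF : 2 * T ^ 2 ≤ Q) (hK : T ^ 2 ≤ K) {c G : ℕ → ℝ} {c₀ V : ℝ} (hc₀ : 0 ≤ c₀)
    (hc : ∀ d ≤ U, |c d| ≤ c₀) (hG : BV V G) :
    ∑ k ∈ Icc (1 : ℤ) K, ‖∑ d ∈ Icc 1 U, (c d * rf z d : ℝ) * ∑ a ∈ Icc 1 (N ^ 2),
      (G a * rf z a : ℝ) * kk ψ N Q k (a * d)‖ ≤ c₀ * V * (800 * K * (N * L ^ 4 / √T +
        Q * (U * z ^ (2 * r) : ℕ)) + 8 * Q ^ 3 * K * N * L * (eta z r + 1 / z)) := by
  have hV := hG.nonneg
  have U1 : U * z ^ (2 * r) ≤ N := le_trans (by gcongr; omega) hU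
  have U2 : U ≤ N := le_trans (Nat.le_mul_of_pos_right _ (by positivity)) hU
  have c1 : ∀ d ∈ Icc 1 U, ‖((c d * rf z d : ℝ) : ℂ)‖ ≤ c₀ * rf z d := fun d hd => by
    rw [Complex.norm_real, Real.norm_eq_abs, abs_mul, abs_of_nonneg (rf_nonneg _ _)]
    exact mul_le_mul_of_nonneg_right (hc d (mem_Icc.1 hd).2) (rf_nonneg _ _)
  have c2 : ∀ d ∈ Icc 1 U, ‖((c d * rf z d : ℝ) : ℂ)‖ ≤ c₀ := fun d hd =>
    (c1 d hd).trans (mul_le_of_le_one_right hc₀ (rf_le_one _ _))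
  obtain ⟨E, e1, e2⟩ := h.nonsq (z := z) hz U2 (Icc 1 (N ^ 2)) (u := fun a => (G a * rf z a : ℝ))
    (u₀ := V) (fun a => by
      rw [Complex.norm_real, Real.norm_eq_abs, abs_mul, abs_of_nonneg (rf_nonneg _ _)]
      exact (mul_le_of_le_one_right (abs_nonneg _) (rf_le_one _ _)).trans (hG.abs_le a)) hc₀ c1
  set s := (Icc 1 U).filter (fun b => Squarefree b ∧ rf z b ≠ 0) with hs
  have sub : ∀ {T}, T ∈ Lo z r → T ⊆ Ps z := fun hT => mem_powerset.1 (mem_filter.1 hT).1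
  have t1 := h.typeI (s ×ˢ Lo z r) (fun x => x.1 * pr x.2) (fun x hx y hy e => by
      simp only [coe_product, Set.mem_prod, mem_coe, hs, mem_filter] at hx hy e
      have r1 := rough_of_rf hx.1.2.2
      have r2 := rough_of_rf hy.1.2.2
      have e2 : pr x.2 = pr y.2 := Nat.dvd_antisymm
        ((r2.cop_pr (sub hx.2)).symm.dvd_of_dvd_mul_left (e ▸ dvd_mul_left _ _))
        ((r1.cop_pr (sub hy.2)).symm.dvd_of_dvd_mul_left (e ▸ dvd_mul_left _ _))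
      rw [e2] at e
      exact Prod.ext (Nat.eq_of_mul_eq_mul_right (pr_pos (sub hy.2)) e)
        (pr_inj (sub hx.2) (sub hy.2) e2)) U1 (fun x hx => by
      simp only [mem_product, hs, mem_filter] at hx
      exact ⟨(Nat.squarefree_mul ((rough_of_rf hx.1.2.2).cop_pr (sub hx.2))).2
        ⟨hx.1.2.1, pr_sqf (sub hx.2)⟩, Nat.mul_le_mul (mem_Icc.1 hx.1.1).2
          (mem_Icc.1 (pr_Lo hz hx.2)).2⟩)
    (c := fun x => (c x.1 * rf z x.1 : ℝ) * (-1) ^ x.2.card) hc₀ hV (fun x hx => by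
      simpa using c2 _ (mem_filter.1 (mem_product.1 hx).1).1) (fun x m => G (m / x.1))
    (fun x _ => hG.comp fun _ _ e => Nat.div_le_div_right e) hT hF hK
  have t2 : ∀ k, ∑ d ∈ s, (c d * rf z d : ℝ) * ∑ a ∈ Icc 1 (N ^ 2),
      (G a * nu z r a : ℝ) * kk ψ N Q k (a * d) = ∑ x ∈ s ×ˢ Lo z r, (c x.1 * rf z x.1 : ℝ) *
        (-1) ^ x.2.card * ∑ m ∈ range ((N + 1) ^ 2),
          if x.1 * pr x.2 ∣ m then G (m / x.1) * kk ψ N Q k m else 0 := fun k => by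
    rw [sum_product]
    refine sum_congr rfl fun d hd => ?_
    have d0 : 0 < d := (mem_Icc.1 (mem_filter.1 hd).1).1
    simp only [mul_assoc, ← mul_sum]
    congr 1
    have := sum_mul_eq (Icc 1 (N ^ 2)) d0 (fun m => (G (m / d) * nu z r (m / d) : ℝ) * kk ψ N Q k m)
      ((N + 1) ^ 2) fun m hm => by rw [h.kk_big k hm, mul_zero]
    simp only [Nat.mul_div_cancel _ d0] at this
    rw [this]
    simp only [mul_sum]
    rw [sum_comm]
    refine sum_congr rfl fun m _ => ?_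
    by_cases hm : d ∣ m
    · obtain ⟨a, rfl⟩ := hm
      simp only [Nat.mul_div_cancel_left _ d0, dvd_mul_right, if_true, Nat.mul_dvd_mul_iff_left d0]
      split_ifs with ha
      · simp only [nu, Complex.ofReal_mul, Complex.ofReal_sum, mul_sum, sum_mul]
        exact sum_congr rfl fun T _ => by split_ifs <;> simp; ring
      · rw [kk_zero k (by_contra fun hne => ha (mem_Icc.2 ⟨Nat.pos_of_ne_zero ?_,
          (Nat.le_mul_of_pos_left _ d0).trans (not_lt.1 fun e => hne (h.psi_big e))⟩))]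
        · simp
        · rintro rfl
          have := (h.wt.supp _ hne).1
          simp only [mul_zero, Nat.cast_zero] at this
          exact this.not_gt h.M0
    · rw [if_neg hm, sum_eq_zero fun T _ => by
        rw [if_neg fun e => hm ((dvd_mul_right _ _).trans e), mul_zero]]
  have t3 : ∑ k ∈ Icc (1 : ℤ) K, ‖∑ d ∈ s, (c d * rf z d : ℝ) * ∑ a ∈ Icc 1 (N ^ 2),
      (G a * (nu z r a - rf z a) : ℝ) * kk ψ N Q k (a * d)‖
      ≤ c₀ * V * (8 * Q ^ 3 * K * N * L * eta z r) :=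
    calc _ ≤ ∑ k ∈ Icc (1 : ℤ) K, ∑ d ∈ s, c₀ * (V * ∑ T ∈ Hi z r, ∑ a ∈ Icc 1 (N ^ 2 / pr T),
          ‖kk ψ N Q k (a * (pr T * d))‖) := by
          refine sum_le_sum fun k _ => (norm_sum_le _ _).trans (sum_le_sum fun d hd => ?_)
          rw [norm_mul]
          refine mul_le_mul (c2 d (mem_filter.1 hd).1) ((norm_sum_le _ _).trans ?_) (norm_nonneg _) hc₀
          calc _ ≤ ∑ a ∈ Icc 1 (N ^ 2), V * (∑ T ∈ Hi z r, if pr T ∣ a then 1 else 0) *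
                ‖kk ψ N Q k (a * d)‖ := by
                refine sum_le_sum fun a _ => ?_
                have := brun z r a
                rw [norm_mul, Complex.norm_real, Real.norm_eq_abs, abs_mul,
                  abs_of_nonneg (sub_nonneg.2 this.1)]
                exact mul_le_mul_of_nonneg_right (mul_le_mul (hG.abs_le a) (by linarith)
                  (sub_nonneg.2 this.1) hV) (norm_nonneg _)
            _ = _ := by
                simp only [mul_assoc, ← mul_sum, sum_mul, ite_mul, one_mul, zero_mul]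
                rw [sum_comm]
                refine congrArg _ (sum_congr rfl fun T hT => Complex.ofReal_injective ?_)
                have := Pool.Agent.Lib.ANT.sum_Icc_ite_dvd (pr_pos (mem_powerset.1
                  (mem_filter.1 hT).1)) (N ^ 2) fun a => (‖kk ψ N Q k (a * d)‖ : ℂ)
                simp only [mul_comm (pr T), mul_assoc] at this
                simpa only [Complex.ofReal_sum, apply_ite Complex.ofReal, Complex.ofReal_zero,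
                  mul_comm (pr T)] using this
      _ ≤ ∑ d ∈ s, ∑ T ∈ Hi z r, c₀ * V * (4 * Q ^ 3 * K * N) * (1 / d * (1 / pr T)) := by
          rw [sum_comm]
          refine sum_le_sum fun d hd => ?_
          rw [← mul_sum, ← mul_sum, sum_comm, mul_sum, mul_sum]
          refine sum_le_sum fun T hT => ?_
          obtain ⟨T1, T2⟩ := mem_filter.1 hT
          have d1 := mem_Icc.1 (mem_filter.1 hd).1
          have := h.fm (D := pr T * d) (mem_Icc.2 ⟨Nat.mul_pos (pr_pos (mem_powerset.1 T1)) d1.1,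
            le_trans (by rw [mul_comm, ← T2]; exact Nat.mul_le_mul d1.2 (pr_le (mem_powerset.1 T1)))
              hU⟩) (Icc 1 (N ^ 2 / pr T))
          rw [← mul_assoc]
          exact (mul_le_mul_of_nonneg_left this (by positivity)).trans
            (le_of_eq (by push_cast; ring))
      _ ≤ c₀ * V * (4 * Q ^ 3 * K * N) * (2 * L * eta z r) := by
          simp only [← mul_sum, ← sum_mul]
          refine mul_le_mul_of_nonneg_left (mul_le_mul_of_nonneg_right ?_ (eta_nonneg _ _))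
            (by positivity)
          exact (sum_le_sum_of_subset_of_nonneg ((filter_subset _ _).trans
            (Icc_subset_Icc_right U2)) fun _ _ _ => by positivity).trans h.hN
      _ = _ := by ring
  simp_rw [← t2] at t1
  simp_rw [e1]
  refine (sum_le_sum fun k _ => (norm_add_le _ _).trans (add_le_add (le_of_eq_of_le ?_
    (norm_sub_le (∑ d ∈ s, (c d * rf z d : ℝ) * ∑ a ∈ Icc 1 (N ^ 2),
      (G a * nu z r a : ℝ) * kk ψ N Q k (a * d)) (∑ d ∈ s, (c d * rf z d : ℝ) *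
        ∑ a ∈ Icc 1 (N ^ 2), (G a * (nu z r a - rf z a) : ℝ) * kk ψ N Q k (a * d)))) le_rfl)).trans ?_
  · simp only [← sum_sub_distrib, ← mul_sub, ← sub_mul, ← Complex.ofReal_sub, sub_sub_cancel]
  · simp only [sum_add_distrib]
    exact (add_le_add (add_le_add t1 t3) e2).trans (le_of_eq (by ring))

end Pool.Agent.Work.MP_51e72e_nt.QA
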