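import Pool.Agent.Work.MP_51e72e_nt.QAVaughan

noncomputable section
open Finset Real ArithmeticFunction
open Pool.Agent.Lib.LargeSieve

namespace Pool.Agent.Work.MP_51e72e_nt.QA

variable {ψ : ℝ → ℝ} {N K Q : ℕ} {M₀ Lam L : ℝ}

lemma Kr.conv (h : Kr ψ N K Q M₀ Lam L) (f g : ArithmeticFunction ℝ) (z : ℕ) (k : ℤ) :
    ∑ n ∈ Icc 1 (N ^ 2), ((f * g) n : ℂ) * (rf z n * kk ψ N Q k n) = ∑ d ∈ Icc 1 (N ^ 2),
      ∑ m ∈ Icc 1 (N ^ 2), (f d * rf z d : ℝ) * (g m * rf z m : ℝ) * kk ψ N Q k (d * m) := by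
  rw [Pool.Agent.Lib.ANT.sum_mul_weight_complex]
  refine sum_congr rfl fun d hd => ?_
  rw [← sum_subset (Icc_subset_Icc_right (Nat.div_le_self (N ^ 2) d)) fun m hm hm' => ?_]
  · exact sum_congr rfl fun m _ => by rw [rf_mul]; push_cast; ring
  · rw [kk_zero k (h.psi_big ?_), mul_zero]
    simp only [mem_Icc] at hd hm hm'
    rw [mul_comm]
    exact (Nat.div_lt_iff_lt_mul hd.1).1 (by omega)

lemma Kr.toI (h : Kr ψ N K Q M₀ Lam L) (f g : ArithmeticFunction ℝ) (z : ℕ) {U : ℕ} (hU : U ≤ N ^ 2)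
    {G : ℕ → ℝ} (hG : ∀ m ∈ Icc 1 (N ^ 2), g m = G m) (k : ℤ) :
    ∑ n ∈ Icc 1 (N ^ 2), ((lowPart f U * g) n : ℂ) * (rf z n * kk ψ N Q k n) =
      ∑ d ∈ Icc 1 U, (f d * rf z d : ℝ) * ∑ a ∈ Icc 1 (N ^ 2),
        (G a * rf z a : ℝ) * kk ψ N Q k (a * d) := by
  rw [h.conv, ← sum_subset (Icc_subset_Icc_right hU) fun d hd hd' => ?_]
  · refine sum_congr rfl fun d hd => ?_
    rw [mul_sum, lowPart_apply, if_pos (mem_Icc.1 hd).2]
    exact sum_congr rfl fun m hm => by rw [hG m hm, mul_comm d, mul_assoc]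
  · rw [lowPart_apply, if_neg (by simp only [mem_Icc] at hd hd'; omega)]; simp

lemma Kr.toII (h : Kr ψ N K Q M₀ Lam L) (f g : ArithmeticFunction ℝ) (z : ℕ) {Am : ℕ}
    (hA : Am ≤ N ^ 2) (hfg : ∀ d m, f d ≠ 0 → g m ≠ 0 → d * m ≤ N ^ 2 → d ≤ Am ∧ m ≤ Am) (k : ℤ) :
    ∑ n ∈ Icc 1 (N ^ 2), ((f * g) n : ℂ) * (rf z n * kk ψ N Q k n) = ∑ d ∈ Icc 1 Am,
      ∑ m ∈ Icc 1 Am, (f d * rf z d : ℝ) * (g m * rf z m : ℝ) * kk ψ N Q k (d * m) := by
  have z0 : ∀ d m, ¬(d ≤ Am ∧ m ≤ Am) →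
      ((f d * rf z d : ℝ) : ℂ) * (g m * rf z m : ℝ) * kk ψ N Q k (d * m) = 0 := fun d m e => by
    by_cases h1 : f d = 0
    · simp [h1]
    by_cases h2 : g m = 0
    · simp [h2]
    rw [kk_zero k (h.psi_big (not_le.1 fun h3 => e (hfg d m h1 h2 h3))), mul_zero]
  rw [h.conv, ← sum_subset (Icc_subset_Icc_right hA) fun d hd hd' => sum_eq_zero fun m _ =>
    z0 d m (by simp only [mem_Icc] at hd hd'; omega)]
  exact sum_congr rfl fun d _ => (sum_subset (Icc_subset_Icc_right hA) fun m hm hm' =>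
    z0 d m (by simp only [mem_Icc] at hm hm'; omega)).symm

lemma low_conv_le (U n : ℕ) : |(lowPart muR U * lowPart vonMangoldt U) n| ≤ Real.log n := by
  rw [mul_apply, ← vonMangoldt_sum, ← Nat.sum_divisorsAntidiagonal' (f := fun _ b => vonMangoldt b)]
  refine (abs_sum_le_sum_abs _ _).trans (sum_le_sum fun x _ => ?_)
  rw [abs_mul, lowPart_apply, lowPart_apply]
  split_ifs
  · rw [abs_of_nonneg vonMangoldt_nonneg]
    exact mul_le_of_le_one_left vonMangoldt_nonneg (abs_muR_le _)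
  all_goals simp

lemma low_conv_ne {U n : ℕ} (h : (lowPart muR U * lowPart vonMangoldt U) n ≠ 0) : n ≤ U * U := by
  rw [mul_apply] at h
  obtain ⟨x, hx, h1⟩ := exists_ne_zero_of_sum_ne_zero h
  rw [lowPart_apply, lowPart_apply] at h1
  rw [← (Nat.mem_divisorsAntidiagonal.1 hx).1]
  split_ifs at h1 with h2 h3
  · exact Nat.mul_le_mul h2 h3
  all_goals simp at h1

theorem Kr.vaughan_bd (h : Kr ψ N K Q M₀ Lam L) {z r N₁ Y₂ Am U T : ℕ} (S : Sz Am N K Q L)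
    (hz : 2 * Q ^ 96 ≤ z) (hN₁ : N₁ * Q ^ 21 ≤ N) {K₀ H δ : ℝ}
    (hτ : ∀ d ∈ Icc 1 (z ^ (2 * r) * N), √(2 * d) * d.divisors.card * HH d * (2 + HH d) ≤ K₀)
    (hY : N ^ 2 ≤ N₁ * Y₂) (hY₁ : N₁ ≤ Am) (hY₂ : Y₂ ≤ Am)
    (hY₃ : Y₂ * (1 + (Q ^ 2 : ℕ) * HH (Q ^ 2)) ≤ 2 * N ^ 2) (hQ : (Q ^ 2 : ℕ) * HH (Q ^ 2) ≤ K)
    (hH : ∑ a ∈ Ioc N₁ Y₂, rf z a / a ≤ H) (hδ0 : 0 ≤ δ) (hδ : H ^ 3 ≤ δ ^ 2)
    (hU : U * z ^ (2 * r + 1) ≤ N) (hT : 4 ≤ T) (hF : 2 * T ^ 2 ≤ Q) (hK : T ^ 2 ≤ K)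
    (hU₁ : U * U ≤ Am) (hU₂ : N ^ 2 ≤ U * Am) (hA : Am ≤ N ^ 2) (hU₃ : U < M₀) :
    ∑ k ∈ Icc (1 : ℤ) K, ‖∑ m ∈ Icc 1 (N ^ 2), (vonMangoldt m : ℂ) * (rf z m * kk ψ N Q k m)‖
      ≤ 4 * L * (800 * K * (N * L ^ 4 / √T + Q * (U * z ^ (2 * r) : ℕ)) +
        8 * Q ^ 3 * K * N * L * (eta z r + 1 / z)) +
        4 * L * (2 * (30000 * K * N * L ^ 2 / √Q + 8 * Q ^ 3 * K * N * L / z) +
          2 * ((K * Vp z r + 2 * (z ^ (2 * r) : ℕ) * K₀) * N * H) + 3 * K * N * δ) := by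
  have Q0 := h.Q0
  have L1 := h.L1
  have z1 : 1 ≤ z := le_trans (by have := Nat.one_le_pow 96 Q Q0; omega) hz
  have U2 : U ≤ N ^ 2 := (le_trans (Nat.le_mul_of_pos_right _ (by positivity)) hU).trans
    (Nat.le_self_pow two_ne_zero N)
  have lg2 : ∀ {a : ℕ}, a ≤ N ^ 2 → Real.log a ≤ 2 * L := fun {a} ha => by
    refine (log_nat_mono ha).trans ?_
    simp only [Nat.cast_pow, Real.log_pow]
    push_cast; linarith [h.NL]
  have big : ∀ {d m : ℕ}, U < d → d * m ≤ N ^ 2 → m ≤ Am := fun {d m} h1 h2 => by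
    by_contra h3
    exact absurd (h2.trans hU₂) (not_le.2 (Nat.mul_lt_mul'' h1 (not_le.1 h3)))
  set c := lowPart muR U * lowPart vonMangoldt U with hc
  have v : vonMangoldt = lowPart vonMangoldt U + lowPart muR U * ArithmeticFunction.log +
      highPart muR U * (highPart vonMangoldt U * zetaR) - lowPart c U * zetaR -
        highPart c U * zetaR := by
    rw [← vaughan, sub_sub, ← add_mul, low_add_high, hc, mul_assoc, add_sub_cancel_right]
  have p1 := h.typeB z1 hU hT hF hK (c := muR) (G := fun a => Real.log (min a (N ^ 2) : ℕ))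
    zero_le_one (fun d _ => abs_muR_le d) (BV.of_mono (V := 2 * L)
      (log_nat_mono.comp fun _ _ e => min_le_min_right _ e)
      fun a => ⟨Real.log_natCast_nonneg _, lg2 (min_le_right _ _)⟩)
  have p2 := h.typeB z1 hU hT hF hK (c := c) (G := fun _ => 1) (c₀ := 2 * L) (by linarith)
    (fun d hd => (low_conv_le U d).trans (lg2 (hd.trans U2)))
    (BV.of_mono (V := 1) monotone_const fun _ => ⟨zero_le_one, le_rfl⟩)
  have p3 := h.bil S hz hN₁ hτ hY hY₁ hY₂ hY₃ hQ hH hδ0 hδ (f := highPart c U) (g := zetaR)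
    (f₀ := 2 * L) (g₀ := 1) (by linarith) zero_le_one (fun a ha => by
      rw [highPart_apply]
      split_ifs
      · simp; linarith
      · exact (low_conv_le U a).trans (lg2 (ha.trans hA))) fun a _ => by
      rcases eq_or_ne a 0 with rfl | e
      · simp
      · simp [zetaR_apply e]
  have p4 := h.bil S hz hN₁ hτ hY hY₁ hY₂ hY₃ hQ hH hδ0 hδ (f := highPart muR U)
    (g := (highPart vonMangoldt U * zetaR : ArithmeticFunction ℝ)) (f₀ := 1) (g₀ := 2 * L) zero_le_one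
    (by linarith) (fun a _ => by
      rw [highPart_apply]
      split_ifs
      · simp
      · exact abs_muR_le a) fun a ha => by
      rw [abs_of_nonneg (high_zeta_nonneg U a)]
      exact (high_zeta_le U a).trans (lg2 (ha.trans hA))
  simp_rw [← h.toI muR ArithmeticFunction.log z U2
    (G := fun a => Real.log (min a (N ^ 2) : ℕ)) fun m hm => by
    rw [log_apply, min_eq_left (mem_Icc.1 hm).2]] at p1
  simp_rw [← h.toI c zetaR z U2 fun m hm => zetaR_apply (by have := mem_Icc.1 hm; omega)] at p2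
  simp_rw [← h.toII (highPart c U) zetaR z hA fun d m h1 _ h3 => by
    rw [highPart_apply] at h1
    split_ifs at h1 with h4
    · exact absurd rfl h1
    · exact ⟨(low_conv_ne h1).trans hU₁, big (not_le.1 h4) h3⟩] at p3
  simp_rw [← h.toII (highPart muR U) (highPart vonMangoldt U * zetaR) z hA fun d m h1 h2 h3 => by
    rw [highPart_apply] at h1
    split_ifs at h1 with h4
    · exact absurd rfl h1
    · exact ⟨big (not_le.1 fun e => h2 (high_zeta_eq_zero e)) (by rwa [mul_comm]),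
        big (not_le.1 h4) h3⟩] at p4
  have e : ∀ k, ∑ m ∈ Icc 1 (N ^ 2), (vonMangoldt m : ℂ) * (rf z m * kk ψ N Q k m) =
      ∑ m ∈ Icc 1 (N ^ 2), ((lowPart muR U * ArithmeticFunction.log) m : ℂ) * (rf z m * kk ψ N Q k m)
      + ∑ m ∈ Icc 1 (N ^ 2), ((highPart muR U * (highPart vonMangoldt U * zetaR)) m : ℂ) *
        (rf z m * kk ψ N Q k m) - ∑ m ∈ Icc 1 (N ^ 2), ((lowPart c U * zetaR) m : ℂ) *
        (rf z m * kk ψ N Q k m) - ∑ m ∈ Icc 1 (N ^ 2), ((highPart c U * zetaR) m : ℂ) *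
        (rf z m * kk ψ N Q k m) := fun k => by
    simp only [← sum_add_distrib, ← sum_sub_distrib]
    refine sum_congr rfl fun m _ => ?_
    by_cases hm : m ≤ U
    · rw [kk_zero k (by_contra fun hne => (h.wt.supp _ hne).1.not_gt
        (lt_of_le_of_lt (by exact_mod_cast hm) hU₃))]
      simp
    · have := congrArg (fun f : ArithmeticFunction ℝ => f m) v
      simp only [sub_eq_add_neg, ArithmeticFunction.add_apply, ArithmeticFunction.neg_apply,
        lowPart_apply vonMangoldt, if_neg hm] at this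
      rw [this]; push_cast; ring
  simp_rw [e]
  refine (sum_le_sum fun k _ => (norm_sub_le _ _).trans (add_le_add ((norm_sub_le _ _).trans
    (add_le_add (norm_add_le _ _) le_rfl)) le_rfl)).trans ?_
  simp only [sum_add_distrib]
  linarith

end Pool.Agent.Work.MP_51e72e_nt.QA
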