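import Pool.Agent.Work.MP_51e72e_nt.QASieve

noncomputable section
open Finset Real
open Pool.Agent.Lib.LargeSieve

namespace Pool.Agent.Work.MP_51e72e_nt.QA

variable {ψ : ℝ → ℝ} {N K Q : ℕ} {M₀ Λ L : ℝ}

lemma ind_sieve (z r : ℕ) (S : Finset ℕ) {b : ℕ} (hb : 0 < b) (m : ℕ) :
    ∑ a ∈ S, rf z a * (if (m : ℤ) = (a * b : ℕ) then 1 else 0) ≤
      ∑ T ∈ Lo z r, (-1) ^ T.card * if ((pr T * b : ℕ) : ℤ) ∣ m then (1 : ℝ) else 0 := by
  simp only [Nat.cast_inj, Int.natCast_dvd_natCast]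
  by_cases h : b ∣ m
  · obtain ⟨a₀, rfl⟩ := h
    simp only [mul_comm b, Nat.mul_dvd_mul_iff_right hb, Nat.mul_left_inj hb.ne', mul_ite, mul_one,
      mul_zero, sum_ite_eq]
    refine le_trans ?_ ((brun z r a₀).1.trans (le_of_eq ?_))
    · split_ifs
      exacts [le_rfl, rf_nonneg _ _]
    · simp [nu]
  · rw [sum_eq_zero fun a _ => by rw [if_neg fun e => h ⟨a, by rw [e, mul_comm]⟩, mul_zero],
      sum_eq_zero fun T _ => by rw [if_neg fun e => h ((dvd_mul_left _ _).trans e), mul_zero]]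

lemma Kr.win1 (h : Kr ψ N K Q M₀ Λ L) {z : ℕ} (hz : 2 ≤ z) (r : ℕ) {K₀ : ℝ}
    (hτ : ∀ d ∈ Icc 1 (z ^ (2 * r) * N), √(2 * d) * d.divisors.card * HH d * (2 + HH d) ≤ K₀)
    {b : ℕ} (hb : b ∈ Icc 1 N) (S : Finset ℕ) :
    ∑ k ∈ Icc (1 : ℤ) K, ∑ a ∈ S, rf z a * ‖k1 ψ N k (a * b)‖
      ≤ (K * Vp z r + 2 * (z ^ (2 * r) : ℕ) * K₀) * N / b := by
  obtain ⟨b1, b2⟩ := mem_Icc.1 hb
  have b0 : (0 : ℝ) < b := by exact_mod_cast b1
  have b3 : (1 : ℝ) ≤ N / b := (one_le_div b0).2 (by exact_mod_cast b2)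
  have m : ∀ T ∈ Lo z r, pr T * b ∈ Icc 1 (z ^ (2 * r) * N) := fun T hT => by
    have := mem_Icc.1 (pr_Lo (by omega) hT)
    exact mem_Icc.2 ⟨Nat.mul_pos this.1 b1, Nat.mul_le_mul this.2 b2⟩
  have K0 : 0 ≤ K₀ := le_trans (by have := HH_nonneg 1; positivity)
    (hτ 1 (mem_Icc.2 ⟨le_rfl, Nat.mul_pos (by positivity) (b1.trans b2)⟩))
  calc _ ≤ ∑ k ∈ Icc (1 : ℤ) K, ∑ n ∈ Icc 1 N, ∑ T ∈ Lo z r,
        (-1) ^ T.card * if ((pr T * b : ℕ) : ℤ) ∣ (n : ℤ) ^ 2 + k then (1 : ℝ) else 0 := by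
        refine sum_le_sum fun k hk => (sum_le_sum fun a _ => mul_le_mul_of_nonneg_left
          (h.norm_k1 k _) (rf_nonneg _ _)).trans ?_
        simp only [mul_sum]
        rw [sum_comm]
        refine sum_le_sum fun n _ => ?_
        have := mem_Icc.1 hk
        lift k to ℕ using by omega
        exact_mod_cast ind_sieve z r S b1 (n ^ 2 + k)
    _ = ∑ T ∈ Lo z r, (-1) ^ T.card * ∑ j ∈ range N, ∑ i ∈ range K,
        if ((pr T * b : ℕ) : ℤ) ∣ (1 + j) ^ 2 + (1 + i) then (1 : ℝ) else 0 := by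
        simp_rw [sum_comm (t := Lo z r), ← mul_sum]
        refine sum_congr rfl fun T _ => ?_
        rw [sum_comm, sum_Icc_one]
        simp_rw [sum_Icc_int _ (K := K) (a := 1) (b := K) (by ring)]
        push_cast; rfl
    _ ≤ ∑ T ∈ Lo z r, ((-1) ^ T.card * (1 / (pr T : ℝ)) * (K * (N / b)) + K₀ * (2 * (N / b))) := by
        refine sum_le_sum fun T hT => ?_
        have := abs_le.1 (count_le (mem_Icc.1 (m T hT)).1 (hτ _ (m T hT)) 1 1 N K)
        have p1 : (1 : ℝ) ≤ pr T := by exact_mod_cast (mem_Icc.1 (pr_Lo (by omega) hT)).1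
        have e1 : K₀ * (N / (pr T * b : ℕ) + 1) ≤ K₀ * (2 * (N / b)) := by
          refine mul_le_mul_of_nonneg_left ?_ K0
          have : (N : ℝ) / (pr T * b : ℕ) ≤ N / b := by
            push_cast; gcongr; exact le_mul_of_one_le_left b0.le p1
          linarith
        have e2 : (N : ℝ) * K / (pr T * b : ℕ) = 1 / (pr T : ℝ) * (K * (N / b)) := by
          push_cast; field_simp
        rcases neg_one_pow_eq_or ℝ T.card with h | h <;> rw [h, mul_assoc] <;> linarith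
    _ ≤ Vp z r * (K * (N / b)) + (z ^ (2 * r) : ℕ) * (K₀ * (2 * (N / b))) := by
        rw [sum_add_distrib, ← sum_mul]
        exact add_le_add le_rfl (sum_le_mul _ _ (by positivity) (card_Lo (by omega) r)
          fun _ _ => le_rfl)
    _ = _ := by ring

lemma Kr.win_true (h : Kr ψ N K Q M₀ Λ L) {z : ℕ} (hz : 2 ≤ z) (r : ℕ) {K₀ H : ℝ}
    (hτ : ∀ d ∈ Icc 1 (z ^ (2 * r) * N), √(2 * d) * d.divisors.card * HH d * (2 + HH d) ≤ K₀)
    (W : Finset ℕ) (hW : ∀ a ∈ W, 0 < a) (hH : ∑ a ∈ W, rf z a / a ≤ H) :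
    ∑ k ∈ Icc (1 : ℤ) K, ∑ a ∈ W, ∑ b ∈ W, rf z a * rf z b * ‖k1 ψ N k (a * b)‖
      ≤ 2 * ((K * Vp z r + 2 * (z ^ (2 * r) : ℕ) * K₀) * N * H) := by
  have K0 : 0 ≤ K₀ := le_trans (by have := HH_nonneg 1; positivity)
    (hτ 1 (mem_Icc.2 ⟨le_rfl, Nat.mul_pos (by positivity) (h.K0.trans_le h.KN)⟩))
  have V0 := (Vp_le hz r).1
  have e : ∑ k ∈ Icc (1 : ℤ) K, ∑ b ∈ W, ∑ a ∈ W, (if b ≤ N then
      rf z b * (rf z a * ‖k1 ψ N k (a * b)‖) else 0)
      ≤ (K * Vp z r + 2 * (z ^ (2 * r) : ℕ) * K₀) * N * H := by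
    rw [sum_comm]
    refine le_trans (sum_le_sum fun b hb => ?_) ((mul_sum _ _ _).symm.trans_le
      (mul_le_mul_of_nonneg_left hH (by positivity)))
    have := rf_nonneg z b
    split_ifs with hb'
    · simp only [← mul_sum]
      exact (mul_le_mul_of_nonneg_left (h.win1 hz r hτ (mem_Icc.2 ⟨hW b hb, hb'⟩) W) this).trans
        (le_of_eq (by ring))
    · simp only [sum_const_zero]; positivity
  rw [two_mul]
  refine le_trans ?_ (add_le_add e e)
  rw [← sum_add_distrib]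
  refine sum_le_sum fun k _ => ?_
  conv_rhs => enter [1]; rw [sum_comm]
  simp only [← sum_add_distrib]
  refine sum_le_sum fun a _ => sum_le_sum fun b _ => ?_
  have : 0 ≤ rf z a * rf z b * ‖k1 ψ N k (a * b)‖ :=
    mul_nonneg (mul_nonneg (rf_nonneg _ _) (rf_nonneg _ _)) (norm_nonneg _)
  rw [mul_comm b a]
  split_ifs with h1 h2 h2
  · linarith
  · linarith
  · linarith
  · rw [k1, h.psi_big (by nlinarith)]; simp

lemma ww_sq_le {m : ℕ} (hm : 0 < m) : ww m ^ 2 ≤ 1 / m := by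
  have h2 : (m : ℝ) ≤ (Nat.sqrt m + 1) ^ 2 := by exact_mod_cast (Nat.lt_succ_sqrt' m).le
  rw [ww, div_pow, one_pow]
  refine one_div_le_one_div_of_le (by exact_mod_cast hm) (h2.trans ?_)
  gcongr; linarith [Nat.cast_nonneg (α := ℝ) (Nat.sqrt m)]

lemma ls_Far (Q Y : ℕ) (γ : ℕ → ℂ) {a : ℤ} (ha : ∀ q ∈ Icc 1 Q, IsCoprime a q) :
    ∑ x ∈ Far Q, ‖∑ b ∈ range Y, γ b * ee (b * (a * th x))‖ ^ 2
      ≤ (Y + (Q ^ 2 : ℕ) * HH (Q ^ 2)) * ∑ b ∈ range Y, ‖γ b‖ ^ 2 := by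
  rw [sum_Far_perm ha (fun θ => ‖∑ b ∈ range Y, γ b * ee (b * θ)‖ ^ 2) fun x m => by
    refine congrArg (‖·‖ ^ 2) (sum_congr rfl fun b _ => ?_)
    rw [mul_add, show (b : ℝ) * m = ((b * m : ℤ) : ℝ) by push_cast; ring, ee_add_int], sum_Far]
  exact largeSieve_farey Q Y γ

lemma Kr.win_model (h : Kr ψ N K Q M₀ Λ L) {z : ℕ} (hz : Q ≤ z) {H f₀ g₀ : ℝ} (W : Finset ℕ)
    (hW : ∀ a ∈ W, 0 < a ∧ a * (1 + (Q ^ 2 : ℕ) * HH (Q ^ 2)) ≤ 2 * N ^ 2)
    (hH : ∑ a ∈ W, rf z a / a ≤ H) (hQ : (Q ^ 2 : ℕ) * HH (Q ^ 2) ≤ K) {f g : ℕ → ℂ}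
    (hf : ∀ a, ‖f a‖ ≤ f₀ * rf z a) (hg : ∀ a, ‖g a‖ ≤ g₀ * rf z a) :
    (∑ k ∈ Icc (1 : ℤ) K, ‖∑ a ∈ W, ∑ b ∈ W, f a * g b * k2 ψ Q k (a * b)‖) ^ 2
      ≤ 9 * (f₀ * g₀ * K * N) ^ 2 * H ^ 3 := by
  classical
  have H0 : 0 ≤ H := le_trans (sum_nonneg fun a _ => by have := rf_nonneg z a; positivity) hH
  have K1 : (1 : ℝ) ≤ K := by exact_mod_cast h.K0
  have rsq : ∀ a, rf z a ^ 2 = rf z a := fun a => by unfold rf; split_ifs <;> simp
  set γ : ℕ → ℕ → ℂ := fun a b => if b ∈ W then g b * (ψ (a * b : ℕ) * ww (a * b) : ℝ) else 0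
    with hγ
  set Z : ℕ → ℕ × ℕ → ℂ := fun a x => ∑ b ∈ range (N ^ 2 / a + 1),
    γ a b * ee (b * ((-a : ℤ) * th x)) with hZ
  have e1 : ∀ k : ℤ, ∑ a ∈ W, ∑ b ∈ W, f a * g b * k2 ψ Q k (a * b) =
      ∑ x ∈ Far Q, (gs x * ∑ a ∈ W, f a * Z a x) * ee (k * th x) := fun k => by
    simp only [k2, sqm, mul_sum, sum_mul]
    rw [sum_comm (s := Far Q)]
    refine sum_congr rfl fun a ha => sum_comm.trans (sum_congr rfl fun x _ => ?_)
    simp only [hZ, mul_sum, sum_mul]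
    refine sum_congr_of_eq_on_inter (fun b _ hb => ?_) (fun b _ hb => by simp [hγ, hb])
      fun b hb _ => ?_
    · have := (Nat.div_lt_iff_lt_mul (hW a ha).1).1 (Nat.lt_of_succ_le (not_lt.1 fun e =>
        hb (mem_range.2 e)))
      rw [h.psi_big (by rwa [mul_comm a])]; simp
    · rw [show th x * (k - (a * b : ℕ)) = b * ((-a : ℤ) * th x) + k * th x by push_cast; ring,
        ee_add]
      simp only [hγ, if_pos hb]; push_cast; ring
  have e2 : ∀ a ∈ W, Rough z a → ∑ x ∈ Far Q, ‖Z a x‖ ^ 2 ≤ 3 * N ^ 2 / a * (g₀ ^ 2 * H / a) :=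
    fun a ha ro => by
      obtain ⟨a1, a2⟩ := hW a ha
      have a0 : (0 : ℝ) < a := by exact_mod_cast a1
      refine (ls_Far Q _ _ fun q hq => (ro.isCop hz q hq).neg_left).trans (mul_le_mul ?_ ?_
        (by positivity) (by positivity))
      · have : ((N ^ 2 / a : ℕ) : ℝ) ≤ N ^ 2 / a := Nat.cast_div_le.trans (by push_cast; rfl)
        rw [← le_div_iff₀' a0] at a2
        rw [Nat.cast_add]
        simp only [mul_div_assoc, Nat.cast_one] at *
        linarith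
      · calc _ ≤ ∑ b ∈ range (N ^ 2 / a + 1), if b ∈ W then g₀ ^ 2 / a * (rf z b / b) else 0 := by
              refine sum_le_sum fun b _ => ?_
              simp only [hγ]
              split_ifs with hb
              · rw [norm_mul, Complex.norm_real, mul_pow, Real.norm_eq_abs, sq_abs, mul_pow]
                calc _ ≤ (g₀ * rf z b) ^ 2 * (1 ^ 2 * (1 / (a * b : ℕ))) := by
                      gcongr
                      exacts [hg b, h.wt.nn _, h.wt.le1 _, ww_sq_le (Nat.mul_pos a1 (hW b hb).1)]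
                  _ = _ := by rw [mul_pow, rsq]; push_cast; ring
              · simp
          _ ≤ g₀ ^ 2 / a * ∑ b ∈ W, rf z b / b := by
              rw [sum_ite_mem, mul_sum]
              exact sum_le_sum_of_subset_of_nonneg inter_subset_right fun b _ _ => by
                have := rf_nonneg z b; positivity
          _ ≤ _ := by rw [mul_div_right_comm]; gcongr
  have e3 : ∑ x ∈ Far Q, ‖gs x * ∑ a ∈ W, f a * Z a x‖ ^ 2 ≤ 3 * (f₀ * g₀ * N) ^ 2 * H ^ 3 :=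
    calc _ ≤ ∑ x ∈ Far Q, f₀ ^ 2 * H * ∑ a ∈ W, rf z a * a * ‖Z a x‖ ^ 2 := by
          refine sum_le_sum fun x _ => ?_
          have c := sum_sq_le_sum_mul_sum_of_sq_le_mul W (r := fun a => f₀ * rf z a * ‖Z a x‖)
            (f := fun a => f₀ ^ 2 * (rf z a / a)) (g := fun a => rf z a * a * ‖Z a x‖ ^ 2)
            (fun a _ => by have := rf_nonneg z a; positivity)
            (fun a _ => by have := rf_nonneg z a; positivity) fun a ha => by
              have : (a : ℝ) ≠ 0 := by have := (hW a ha).1; positivity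
              exact le_of_eq (by field_simp)
          rw [← mul_sum] at c
          refine (pow_le_pow_left₀ (norm_nonneg _) ?_ 2).trans (c.trans ?_)
          · rw [norm_mul]
            refine (mul_le_of_le_one_left (norm_nonneg _) (norm_gs_le x)).trans
              ((norm_sum_le _ _).trans (sum_le_sum fun a _ => ?_))
            rw [norm_mul]; gcongr; exact hf a
          · refine mul_le_mul_of_nonneg_right (by gcongr) (sum_nonneg fun a _ => ?_)
            have := rf_nonneg z a; positivity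
      _ ≤ f₀ ^ 2 * H * ∑ a ∈ W, 3 * N ^ 2 * g₀ ^ 2 * H * (rf z a / a) := by
          rw [← mul_sum, sum_comm]
          refine mul_le_mul_of_nonneg_left (sum_le_sum fun a ha => ?_) (by positivity)
          rw [← mul_sum]
          by_cases h0 : rf z a = 0
          · simp [h0]
          have : (a : ℝ) ≠ 0 := by have := (hW a ha).1; positivity
          exact (mul_le_mul_of_nonneg_left (e2 a ha (rough_of_rf h0)) (by
            have := rf_nonneg z a; positivity)).trans (le_of_eq (by field_simp))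
      _ ≤ f₀ ^ 2 * H * (3 * N ^ 2 * g₀ ^ 2 * H * H) := by rw [← mul_sum]; gcongr
      _ = _ := by ring
  have e4 := largeSieve_dual (Far Q) th (Q ^ 2) (pow_pos h.Q0 2) (fun x hx y hy hne => by
    simpa using Far_spaced (b := 1) (fun _ _ => isCoprime_one_left) hx hy hne) (K + 1)
    fun x => gs x * ∑ a ∈ W, f a * Z a x
  simp_rw [e1]
  refine sq_sum_le_card_mul_sum_sq.trans ?_
  rw [sum_Icc_int _ (K := K) (by ring)]
  rw [sum_range_succ'] at e4
  calc _ ≤ (K : ℝ) * ((K + K + K) * (3 * (f₀ * g₀ * N) ^ 2 * H ^ 3)) := by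
        refine mul_le_mul (by simp) (le_trans (le_of_eq ?_) ((le_add_of_nonneg_right
          (sq_nonneg _)).trans (e4.trans (mul_le_mul ?_ e3 (by positivity) (by positivity)))))
          (by positivity) (by positivity)
        · simp only [add_comm _ 1]; push_cast; rfl
        · push_cast at hQ ⊢; linarith
    _ = _ := by ring

end Pool.Agent.Work.MP_51e72e_nt.QA
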