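import Pool.Agent.Work.MP_51e72e_nt.QASing

noncomputable section
open Finset Real Filter Topology
open Pool.Agent.Lib.LargeSieve

namespace Pool.Agent.Work.MP_51e72e_nt.QA

/-- clamp to the unit interval -/
def cl (x : ℝ) : ℝ := max 0 (min x 1)

lemma cl_mono : Monotone cl := fun _ _ h => max_le_max le_rfl (min_le_min_right _ h)

lemma cl_mem (x : ℝ) : 0 ≤ cl x ∧ cl x ≤ 1 :=
  ⟨le_max_left _ _, max_le zero_le_one (min_le_right _ _)⟩

lemma cl_zero {x : ℝ} (h : x ≤ 0) : cl x = 0 := max_eq_left ((min_le_left _ _).trans h)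

lemma cl_one {x : ℝ} (h : 1 ≤ x) : cl x = 1 := by rw [cl, min_eq_right h, max_eq_right zero_le_one]

lemma cl_lip (x y : ℝ) : |cl x - cl y| ≤ |x - y| := by
  refine (abs_max_sub_max_le_max _ _ _ _).trans (max_le (by simp) ?_)
  exact (abs_min_sub_min_le_max _ _ _ _).trans (max_le le_rfl (by simp))

/-- trapezoidal weight -/
def wt (N a : ℕ) (x : ℝ) : ℝ := cl (x / a ^ 2 - 1) - cl ((x - N ^ 2) / a ^ 2 + 1)

lemma wt_Wt {N a : ℕ} (ha : 0 < a) (h : 2 * a ≤ N) :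
    Wt (wt N a) ((a : ℝ) ^ 2) ((N : ℝ) ^ 2) (2 / a ^ 2) := by
  have A : (0 : ℝ) < a ^ 2 := by positivity
  have h' : (2 * a : ℝ) ≤ N := by exact_mod_cast h
  have k : ∀ x : ℝ, (x - N ^ 2) / a ^ 2 + 1 ≤ x / a ^ 2 - 1 := fun x => by
    have : (2 : ℝ) ≤ N ^ 2 / a ^ 2 := by
      rw [le_div_iff₀ A]; nlinarith [Nat.cast_nonneg (α := ℝ) a]
    rw [sub_div]; linarith
  refine ⟨fun x => sub_nonneg.2 (cl_mono (k x)), fun x => ?_, fun x hx => ?_, fun x y => ?_⟩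
  · unfold wt; linarith [cl_mem (x / a ^ 2 - 1), cl_mem ((x - N ^ 2) / a ^ 2 + 1)]
  · constructor <;> by_contra! e <;> apply hx
    · have : x / a ^ 2 - 1 ≤ 0 := by rw [sub_nonpos, div_le_one A]; exact e.le
      rw [wt, cl_zero this, cl_zero ((k x).trans this), sub_zero]
    · have : 1 ≤ (x - N ^ 2) / a ^ 2 + 1 := le_add_of_nonneg_left (div_nonneg (by linarith) A.le)
      rw [wt, cl_one this, cl_one (this.trans (k x)), sub_self]
  · have h1 := cl_lip (x / a ^ 2 - 1) (y / a ^ 2 - 1)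
    have h2 := cl_lip ((y - N ^ 2) / a ^ 2 + 1) ((x - N ^ 2) / a ^ 2 + 1)
    rw [show x / a ^ 2 - 1 - (y / a ^ 2 - 1) = (x - y) / a ^ 2 by ring, abs_div, abs_of_pos A] at h1
    rw [show (y - N ^ 2) / a ^ 2 + 1 - ((x - N ^ 2) / a ^ 2 + 1) = (y - x) / a ^ 2 by ring, abs_div,
      abs_of_pos A, abs_sub_comm y] at h2
    refine le_trans (le_of_eq (by unfold wt; congr 1; ring)) ((abs_add_le _ _).trans
      ((add_le_add h1 h2).trans (le_of_eq (by ring))))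

lemma wt_BV (N a : ℕ) : BV 1 fun m : ℕ => wt N a m :=
  ⟨fun m => cl (m / a ^ 2 - 1), fun m => cl ((m - N ^ 2) / a ^ 2 + 1),
    fun _ _ e => cl_mono (by gcongr), fun _ _ e => cl_mono (by gcongr),
    fun _ => cl_mem _, fun _ => cl_mem _, fun _ => rfl⟩

lemma wt_One {N a : ℕ} (ha : 0 < a) : One (wt N a) N a := fun n k h1 h2 h3 => by
  have A : (0 : ℝ) < a ^ 2 := by positivity
  have e1 : 2 * a ^ 2 ≤ n ^ 2 + k := by nlinarith
  have e2 : n ^ 2 + k + a ^ 2 ≤ N ^ 2 := by nlinarith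
  have e3 : (2 * a ^ 2 : ℝ) ≤ (n ^ 2 + k : ℕ) := by exact_mod_cast e1
  have e4 : ((n ^ 2 + k : ℕ) + a ^ 2 : ℝ) ≤ N ^ 2 := by exact_mod_cast e2
  rw [wt, cl_one, cl_zero, sub_zero]
  · rw [← le_neg_iff_add_nonpos_right, div_le_iff₀ A]; linarith
  · rw [le_sub_iff_add_le, le_div_iff₀ A]; linarith

lemma pi_Th {ψ : ℝ → ℝ} {N K Q a : ℕ} {Lam L : ℝ} (h : Kr ψ N K Q ((a : ℝ) ^ 2) Lam L)
    (one : One ψ N a) (hL : L = Real.log N) (hN : 2 ≤ N) (ha : N ≤ a ^ 2) {k : ℕ} (hk : k ≤ N) :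
    |(((Icc 1 N).filter fun n => (n ^ 2 + k).Prime).card : ℝ) * Real.log ((N : ℝ) ^ 2 + k) -
      Th ψ N k| ≤ Real.log Q / L * Th ψ N k + 9 * a * L := by
  have N0 := h.N0
  have L1 := h.L1
  have Q1 : (1 : ℝ) ≤ Q := by exact_mod_cast h.Q0
  have lQ := Real.log_nonneg Q1
  have c : (((Icc 1 N).filter fun n => ¬(2 * a ≤ n ∧ n + a ≤ N)).card : ℝ) ≤ 3 * a := by
    have := card_le_card (s := (Icc 1 N).filter fun n => ¬(2 * a ≤ n ∧ n + a ≤ N))
      (t := range (2 * a) ∪ Ioc (N - a) N) fun n hn => by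
        simp only [mem_filter, mem_union, mem_range, mem_Ioc, mem_Icc] at hn ⊢; omega
    have h2 := card_union_le (range (2 * a)) (Ioc (N - a) N)
    rw [card_range, Nat.card_Ioc] at h2
    exact_mod_cast (by omega : _ ≤ 3 * a)
  have c2 := mul_le_mul_of_nonneg_right c (by positivity : 0 ≤ 3 * L)
  rw [← nsmul_eq_mul, ← sum_const, sum_filter] at c2
  rw [← nsmul_eq_mul, ← sum_const, sum_filter, Th, ← sum_sub_distrib, mul_sum]
  refine (abs_sum_le_sum_abs _ _).trans (le_trans ((sum_le_sum fun n hn => ?_).trans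
    (sum_add_distrib).le) (add_le_add le_rfl (c2.trans (le_of_eq (by ring)))))
  obtain ⟨n1, n2⟩ := mem_Icc.1 hn
  by_cases hp : (n ^ 2 + k).Prime
  swap
  · simp only [tp, if_neg hp, zero_mul, sub_zero, abs_zero, mul_zero, zero_add]; positivity
  have m0 : (1 : ℝ) ≤ (n ^ 2 + k : ℕ) := by exact_mod_cast hp.one_le
  have l0 := Real.log_nonneg m0
  have l1 : Real.log (n ^ 2 + k : ℕ) ≤ Real.log ((N : ℝ) ^ 2 + k) :=
    Real.log_le_log (by positivity) (by push_cast; gcongr)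
  have p1 := mul_le_of_le_one_right l0 (h.wt.le1 (n ^ 2 + k : ℕ))
  have p0 := mul_nonneg l0 (h.wt.nn (n ^ 2 + k : ℕ))
  simp only [tp, if_pos hp]
  rw [abs_of_nonneg (by linarith)]
  split_ifs with hn
  · rw [one n k hn.1 hn.2 hk, mul_one, add_zero, div_mul_eq_mul_div, le_div_iff₀ (by linarith)]
    have an : (a : ℝ) ^ 2 ≤ n ^ 2 := by gcongr; omega
    have l2 : Real.log ((N : ℝ) ^ 2 + k) ≤ Real.log Q + Real.log (n ^ 2 + k : ℕ) := by
      rw [← Real.log_mul (by positivity) (by positivity)]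
      refine Real.log_le_log (by positivity) ?_
      push_cast
      nlinarith [h.hM, Nat.cast_nonneg (α := ℝ) k]
    have l3 : L ≤ Real.log (n ^ 2 + k : ℕ) := by
      rw [hL]
      refine Real.log_le_log N0 ?_
      have : (N : ℝ) ≤ a ^ 2 := by exact_mod_cast ha
      push_cast; linarith [Nat.cast_nonneg (α := ℝ) k]
    nlinarith
  · have l2 : Real.log ((N : ℝ) ^ 2 + k) ≤ 3 * L := by
      rw [hL, ← Nat.cast_ofNat (n := 3), ← Real.log_pow]
      refine Real.log_le_log (by positivity) ?_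
      exact_mod_cast (by nlinarith : N ^ 2 + k ≤ N ^ 3)
    have : 0 ≤ Real.log Q / L * (Real.log (n ^ 2 + k : ℕ) * ψ (n ^ 2 + k : ℕ)) := by positivity
    linarith

lemma markov {ι : Type*} (s : Finset ι) (A C P S : ι → ℝ) {η δ : ℝ} (hη : 0 < η) (hδ : 0 < δ)
    (hS : ∀ k ∈ s, 0 ≤ S k) (hP : ∀ k ∈ s, 0 ≤ P k)
    (h : ∀ k ∈ s, S k ≤ δ → |C k - P k| ≤ 2 * δ * P k) :
    ((s.filter fun k => η < |A k - C k|).card : ℝ) ≤
      (∑ k ∈ s, S k) / δ + (∑ k ∈ s, |A k - P k| + 2 * δ * ∑ k ∈ s, P k) / η := by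
  rw [card_filter, mul_sum, ← sum_add_distrib, sum_div, sum_div, ← sum_add_distrib]
  push_cast
  refine sum_le_sum fun k hk => ?_
  have h1 := hS k hk
  have h2 := hP k hk
  split_ifs with e
  swap
  · positivity
  rcases le_or_gt (S k) δ with e' | e'
  · refine le_add_of_nonneg_of_le (by positivity) ((one_le_div hη).2 ?_)
    linarith [h k hk e', abs_sub_le (A k) (P k) (C k), abs_sub_comm (P k) (C k)]
  · exact le_add_of_le_of_nonneg ((one_le_div hδ).2 e'.le) (by positivity)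

lemma EP_nonneg (y : ℕ) (k : ℤ) : 0 ≤ EP y k := EP_eq y k ▸ (Real.exp_pos _).le

lemma ceil_exp {x : ℝ} (hx : 0 ≤ x) :
    ∃ c : ℕ, 0 < c ∧ x ≤ Real.log c ∧ Real.log c ≤ x + 1 := by
  have h1 := Real.one_le_exp hx
  have h2 := Nat.le_ceil (Real.exp x)
  have h3 := Nat.ceil_lt_add_one (Real.exp_pos x).le
  refine ⟨⌈Real.exp x⌉₊, Nat.ceil_pos.2 (Real.exp_pos x),
    (Real.le_log_iff_exp_le (by linarith)).2 h2, (Real.log_le_iff_le_exp (by linarith)).2 ?_⟩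
  rw [Real.exp_add]
  nlinarith [Real.add_one_le_exp 1]

lemma div_log {n m : ℕ} (hm : 0 < m) (h : m ≤ n) : 0 < n / m ∧
    Real.log n - Real.log m - 1 ≤ Real.log (n / m : ℕ) ∧
    Real.log (n / m : ℕ) ≤ Real.log n - Real.log m ∧
    Real.log (n / m + 1 : ℕ) ≤ Real.log n - Real.log m + 1 := by
  have h0 := Nat.div_pos h hm
  have h1 := Nat.div_mul_le_self n m
  have h2 := Nat.lt_div_mul_add (a := n) hm
  generalize n / m = d at *
  have a1 : Real.log (d * m : ℕ) ≤ Real.log n := log_nat_mono h1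
  have a2 : Real.log n ≤ Real.log (2 * d * m : ℕ) := log_nat_mono (by nlinarith)
  have a3 : Real.log (d + 1 : ℕ) ≤ Real.log (2 * d : ℕ) := log_nat_mono (by omega)
  have := Real.log_two_lt_d9
  simp (disch := positivity) only [Nat.cast_mul, Real.log_mul, Nat.cast_ofNat] at a1 a2 a3
  exact ⟨h0, by linarith, by linarith, by linarith⟩

end Pool.Agent.Work.MP_51e72e_nt.QA
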