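import Pool.Agent.Work.MP_51e72e_nt.Bil2
import Pool.Agent.Work.MP_51e72e_nt.Core
import Pool.Agent.Work.MP_51e72e_nt.NFRoots

/-!
The sieve inequality: main term and remainder terms.
-/

set_option autoImplicit false
set_option maxHeartbeats 400000

namespace Pool.Agent.Work.MP_51e72e_nt

open Finset Polynomial Pool.Agent.Lib.ANT

lemma dvd_eval_mod (G : ℤ[X]) (b n : ℕ) :
    (b : ℤ) ∣ G.eval ((n % b : ℕ) : ℤ) ↔ (b : ℤ) ∣ G.eval (n : ℤ) := by
  have h : (b : ℤ) ∣ G.eval (n : ℤ) - G.eval ((n % b : ℕ) : ℤ) := by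
    refine dvd_trans ?_ (Polynomial.sub_dvd_eval_sub _ _ G)
    exact (Nat.modEq_iff_dvd.mp (Nat.mod_modEq n b))
  constructor
  · intro h1; simpa using dvd_add h h1
  · intro h1; simpa using dvd_sub h1 h

lemma sqf_dvd_iff {b : ℕ} (hb : Squarefree b) (x : ℤ) :
    (b : ℤ) ∣ x ↔ ∀ p ∈ b.primeFactors, (p : ℤ) ∣ x := by
  constructor
  · intro h p hp
    exact (Int.natCast_dvd_natCast.mpr (Nat.dvd_of_mem_primeFactors hp)).trans h
  · intro h
    rw [← Nat.prod_primeFactors_of_squarefree hb, Int.natCast_dvd]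
    exact Finset.prod_primes_dvd _ (fun p hp => (Nat.prime_of_mem_primeFactors hp).prime)
      fun p hp => Int.natCast_dvd.mp (h p hp)

lemma omega_sqf (G : ℤ[X]) {b : ℕ} (hb : Squarefree b) :
    omega G b = ∏ p ∈ b.primeFactors, omega G p := by
  have := card_range_prod_primes b.primeFactors (fun p hp => Nat.prime_of_mem_primeFactors hp)
    (fun p => (range p).filter fun n : ℕ => (p : ℤ) ∣ G.eval (n : ℤ)) (fun p _ => filter_subset _ _)
  rw [Nat.prod_primeFactors_of_squarefree hb] at this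
  unfold omega
  rw [← this]
  congr 1
  refine filter_congr fun n _ => ?_
  rw [sqf_dvd_iff hb]
  refine forall₂_congr fun p hp => ?_
  rw [mem_filter, dvd_eval_mod, mem_range]
  exact (and_iff_right (Nat.mod_lt _ (Nat.prime_of_mem_primeFactors hp).pos)).symm

/-- admissible residues modulo `W b` that are roots of `G` modulo `b` -/
def res (G : ℤ[X]) (W : ℕ) (A : Finset ℕ) (b : ℕ) : Finset ℕ :=
  (range (W * b)).filter (fun ν : ℕ => ν % W ∈ A ∧ (b : ℤ) ∣ G.eval (ν : ℤ))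

lemma card_res (G : ℤ[X]) {W b : ℕ} (A : Finset ℕ) (hA : A ⊆ range W) (hW : 0 < W) (hb : 0 < b)
    (hc : Nat.Coprime W b) : (res G W A b).card = A.card * omega G b := by
  have := card_range_mul_coprime hc hW hb (fun c => c ∈ A) (fun n => (b : ℤ) ∣ G.eval (n : ℤ))
  simp only [dvd_eval_mod] at this
  rw [res, this, filter_mem_eq_inter, inter_eq_right.mpr hA]
  rfl

lemma card_class (a M N Y0 m ν A : ℕ) (b0 : ℤ) (ha : 0 < a) (hν : ν < m)
    (hY : (Y0 : ℤ) = a * M + b0) :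
    (((Ioc M (M + N)).filter (fun n : ℕ => n % m = ν ∧ (A : ℤ) ∣ a * n + b0)).card : ℝ)
      = remU (Y0 + a * N) A ((a * ν + b0 : ℤ) : ZMod (a * m))
        - remU Y0 A ((a * ν + b0 : ℤ) : ZMod (a * m)) + N / (A * m) := by
  set c : ZMod (a * m) := ((a * ν + b0 : ℤ) : ZMod (a * m)) with hc
  have h1 : ((Ioc M (M + N)).filter (fun n : ℕ => n % m = ν ∧ (A : ℤ) ∣ a * n + b0)).card
      = ((Ioc Y0 (Y0 + a * N)).filter (fun u : ℕ => A ∣ u ∧ (u : ZMod (a * m)) = c)).card := by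
    have cast : ∀ n, M < n → ((Y0 + a * (n - M) : ℕ) : ℤ) = a * n + b0 := by
      intro n hn
      push_cast [Nat.cast_sub hn.le]
      rw [hY]; ring
    refine card_bij (fun n _ => Y0 + a * (n - M)) ?_ ?_ ?_
    · intro n hn
      rw [mem_filter, mem_Ioc] at hn ⊢
      obtain ⟨⟨n1, n2⟩, n3, n4⟩ := hn
      refine ⟨⟨?_, ?_⟩, ?_, ?_⟩
      · have := Nat.mul_pos ha (Nat.sub_pos_of_lt n1); omega
      · have := Nat.mul_le_mul_left a (show n - M ≤ N by omega); omega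
      · rw [← Int.natCast_dvd_natCast, cast n n1]; exact n4
      · rw [← Int.cast_natCast, cast n n1, hc, ZMod.intCast_eq_intCast_iff_dvd_sub]
        have : (m : ℤ) ∣ ν - n := by
          rw [← n3]; exact (Nat.modEq_iff_dvd.mp (Nat.mod_modEq n m).symm)
        have := mul_dvd_mul_left (a : ℤ) this
        push_cast
        rwa [show (a : ℤ) * ν + b0 - (a * n + b0) = a * (ν - n) by ring]
    · intro n hn n' hn' h
      have := (mem_Ioc.mp (mem_filter.mp hn).1).1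
      have := (mem_Ioc.mp (mem_filter.mp hn').1).1
      have := Nat.eq_of_mul_eq_mul_left ha (Nat.add_left_cancel h)
      omega
    · intro u hu
      rw [mem_filter, mem_Ioc] at hu
      obtain ⟨⟨u1, u2⟩, u3, u4⟩ := hu
      rw [← Int.cast_natCast, hc, eq_comm, ZMod.intCast_eq_intCast_iff_dvd_sub] at u4
      obtain ⟨k, hk⟩ := u4
      push_cast at hk
      have ha' : (0 : ℤ) < a := by exact_mod_cast ha
      have v1 : (Y0 : ℤ) < u := by exact_mod_cast u1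
      have v2 : (u : ℤ) ≤ Y0 + a * N := by exact_mod_cast u2
      have w1 : (M : ℤ) < ν + m * k := by
        refine lt_of_mul_lt_mul_left ?_ ha'.le; linarith
      have w2 : (ν : ℤ) + m * k ≤ M + N := by
        refine le_of_mul_le_mul_left ?_ ha'; linarith
      obtain ⟨n, hn⟩ := Int.eq_ofNat_of_zero_le (show (0 : ℤ) ≤ ν + m * k by omega)
      have x1 : M < n := by omega
      have x2 : (u : ℤ) = a * n + b0 := by rw [← hn]; linarith
      refine ⟨n, mem_filter.mpr ⟨mem_Ioc.mpr ⟨x1, by omega⟩, ?_, ?_⟩, ?_⟩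
      · have : ν ≡ n [MOD m] := Nat.modEq_iff_dvd.mpr ⟨k, by rw [← hn]; ring⟩
        rw [← Nat.mod_eq_of_lt hν]; exact this.symm
      · rw [← x2]; exact Int.natCast_dvd_natCast.mpr u3
      · have := cast n x1
        omega
  have h2 : ((Icc 1 (Y0 + a * N)).filter (fun u : ℕ => A ∣ u ∧ (u : ZMod (a * m)) = c)).card
      = ((Icc 1 Y0).filter (fun u : ℕ => A ∣ u ∧ (u : ZMod (a * m)) = c)).card
        + ((Ioc Y0 (Y0 + a * N)).filter (fun u : ℕ => A ∣ u ∧ (u : ZMod (a * m)) = c)).card := by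
    rw [← card_union_of_disjoint, ← filter_union]
    · congr 2
      ext u; simp only [mem_Icc, mem_union, mem_Ioc]; omega
    · refine disjoint_filter_filter (disjoint_left.mpr fun u h1 h2 => ?_)
      rw [mem_Icc] at h1; rw [mem_Ioc] at h2; omega
  unfold remU
  rw [h1, h2]
  have ha' : (a : ℝ) ≠ 0 := by exact_mod_cast ha.ne'
  push_cast
  by_cases hA : (A : ℝ) * m = 0
  · have : (A : ℝ) * (a * m) = 0 := by linear_combination a * hA
    rw [hA, this]; simp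
  · have h3 : (A : ℝ) ≠ 0 := left_ne_zero_of_mul hA
    have h4 : (m : ℝ) ≠ 0 := right_ne_zero_of_mul hA
    field_simp; ring

lemma card_cong (G : ℤ[X]) (a M N Y0 W A b : ℕ) (𝒜 : Finset ℕ) (b0 : ℤ) (ha : 0 < a)
    (hW : 0 < W) (hb : 0 < b) (hY : (Y0 : ℤ) = a * M + b0) :
    (((Ioc M (M + N)).filter (fun n : ℕ => n % W ∈ 𝒜 ∧ (A : ℤ) ∣ a * n + b0 ∧
        (b : ℤ) ∣ G.eval (n : ℤ))).card : ℝ)
      = ∑ ν ∈ res G W 𝒜 b, (remU (Y0 + a * N) A ((a * ν + b0 : ℤ) : ZMod (a * (W * b)))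
        - remU Y0 A ((a * ν + b0 : ℤ) : ZMod (a * (W * b))) + N / (A * (W * b : ℕ))) := by
  have hm : 0 < W * b := Nat.mul_pos hW hb
  have key : ∀ n : ℕ, (n % (W * b)) % W = n % W ∧
      ((b : ℤ) ∣ G.eval ((n % (W * b) : ℕ) : ℤ) ↔ (b : ℤ) ∣ G.eval (n : ℤ)) := by
    intro n
    refine ⟨Nat.mod_mul_right_mod _ _ _, ?_⟩
    rw [← dvd_eval_mod, Nat.mod_mul_left_mod, dvd_eval_mod]
  rw [card_eq_sum_card_fiberwise (f := fun n => n % (W * b)) (t := res G W 𝒜 b)]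
  · push_cast
    refine sum_congr rfl fun ν hν => ?_
    rw [res, mem_filter, mem_range] at hν
    have := card_class a M N Y0 (W * b) ν A b0 ha hν.1 hY
    push_cast at this
    rw [← this, filter_filter]
    congr 2
    refine filter_congr fun n _ => ?_
    constructor
    · rintro ⟨⟨-, h2, -⟩, h4⟩; exact ⟨h4, h2⟩
    · rintro ⟨h1, h2⟩
      refine ⟨⟨?_, h2, ?_⟩, h1⟩
      · rw [← (key n).1, h1]; exact hν.2.1
      · rw [← (key n).2, h1]; exact hν.2.2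
  · intro n hn
    simp only [coe_filter, Set.mem_ofPred_eq] at hn
    simp only [res, coe_filter, Set.mem_ofPred_eq, mem_range]
    exact ⟨Nat.mod_lt _ hm, by rw [(key n).1]; exact hn.2.1, (key n).2.mpr hn.2.2.2⟩

/-- remainder attached to two pairs of divisors -/
noncomputable def errT (G : ℤ[X]) (a W : ℕ) (𝒜 : Finset ℕ) (b0 : ℤ) (Y d1 d2 e1 e2 : ℕ) : ℝ :=
  if Nat.Coprime (d1 * e1) (d2 * e2) then ∑ ν ∈ res G W 𝒜 (Nat.lcm d2 e2),
    remU Y (Nat.lcm d1 e1) ((a * ν + b0 : ℤ) : ZMod (a * (W * Nat.lcm d2 e2))) else 0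

lemma squarefree_lcm {d e : ℕ} (hd : Squarefree d) (he : Squarefree e) :
    Squarefree (Nat.lcm d e) := by
  rw [Nat.squarefree_iff_factorization_le_one (Nat.lcm_ne_zero hd.ne_zero he.ne_zero)]
  intro p
  rw [Nat.factorization_lcm hd.ne_zero he.ne_zero, Finsupp.sup_apply]
  exact sup_le (hd.natFactorization_le_one p) (he.natFactorization_le_one p)

lemma primeFactors_lcm' {d e : ℕ} (hd : d ≠ 0) (he : e ≠ 0) :
    (Nat.lcm d e).primeFactors = (d * e).primeFactors := by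
  ext p
  rw [Nat.mem_primeFactors_of_ne_zero (Nat.lcm_ne_zero hd he),
    Nat.mem_primeFactors_of_ne_zero (mul_ne_zero hd he)]
  refine and_congr_right fun hp => ?_
  rw [Nat.Prime.dvd_mul hp, Nat.Prime.dvd_lcm hp]

lemma coprime_of_primes {Ps : Finset ℕ} {W d : ℕ} (hW : ∀ p ∈ Ps, ¬ p ∣ W)
    (hd : ∀ p, p.Prime → p ∣ d → p ∈ Ps) : Nat.Coprime d W :=
  Nat.coprime_of_dvd fun p hp h1 h2 => hW p (hd p hp h1) h2

/-- The sieve inequality. -/
theorem sieve_ineq (G : ℤ[X]) (a M N Y0 W X : ℕ) (𝒜 Ps : Finset ℕ) (b0 : ℤ) (ha : 0 < a)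
    (hW : 0 < W) (hX : 1 ≤ X) (hA : 𝒜 ⊆ range W) (hY : (Y0 : ℤ) = a * M + b0)
    (hPW : ∀ p ∈ Ps, ¬ p ∣ W) (hom : ∀ p ∈ Ps, omega G p < p)
    (hcr : ∀ p ∈ Ps, ∀ n : ℤ, ¬ ((p : ℤ) ∣ a * n + b0 ∧ (p : ℤ) ∣ G.eval n))
    (lam : ℕ → ℕ → ℝ) (hs : ∀ a b, lam a b ≠ 0 → Squarefree a ∧ Squarefree b ∧
      ∀ p, p.Prime → p ∣ a * b → p ∈ Ps) :
    (((Ioc M (M + N)).filter (fun n : ℕ => n % W ∈ 𝒜 ∧ ∀ p ∈ Ps,
        ¬ (p : ℤ) ∣ a * n + b0 ∧ ¬ (p : ℤ) ∣ G.eval (n : ℤ))).card : ℝ) * lam 1 1 ^ 2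
      ≤ N * 𝒜.card / W * ∑ d1 ∈ Icc 1 X, ∑ d2 ∈ Icc 1 X, ∑ e1 ∈ Icc 1 X, ∑ e2 ∈ Icc 1 X,
          lam d1 d2 * lam e1 e2 * gg (fun p => ((p : ℝ) - 1)⁻¹)
            (fun p => (omega G p : ℝ) / (p - omega G p)) d1 d2 e1 e2
        + ∑ d1 ∈ Icc 1 X, ∑ d2 ∈ Icc 1 X, ∑ e1 ∈ Icc 1 X, ∑ e2 ∈ Icc 1 X,
          lam d1 d2 * lam e1 e2 * errT G a W 𝒜 b0 (Y0 + a * N) d1 d2 e1 e2
        - ∑ d1 ∈ Icc 1 X, ∑ d2 ∈ Icc 1 X, ∑ e1 ∈ Icc 1 X, ∑ e2 ∈ Icc 1 X,
          lam d1 d2 * lam e1 e2 * errT G a W 𝒜 b0 Y0 d1 d2 e1 e2 := by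
  set I := (Ioc M (M + N)).filter (fun n : ℕ => n % W ∈ 𝒜) with hI
  set χ : ℕ → ℕ → ℕ → ℝ := fun n d1 d2 =>
    if (d1 : ℤ) ∣ a * n + b0 ∧ (d2 : ℤ) ∣ G.eval (n : ℤ) then 1 else 0 with hχ
  set ρ : ℕ → ℝ := fun n => ∑ d1 ∈ Icc 1 X, ∑ d2 ∈ Icc 1 X, lam d1 d2 * χ n d1 d2 with hρ
  have s1 : (((Ioc M (M + N)).filter (fun n : ℕ => n % W ∈ 𝒜 ∧ ∀ p ∈ Ps,
        ¬ (p : ℤ) ∣ a * n + b0 ∧ ¬ (p : ℤ) ∣ G.eval (n : ℤ))).card : ℝ) * lam 1 1 ^ 2
      ≤ ∑ n ∈ I, ρ n ^ 2 := by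
    rw [← filter_filter, ← hI, ← nsmul_eq_mul, ← sum_const]
    refine le_trans (le_of_eq (sum_congr rfl fun n hn => ?_))
      (sum_le_sum_of_subset_of_nonneg (filter_subset _ _) fun _ _ _ => sq_nonneg _)
    have hn := (mem_filter.mp hn).2
    have z : ∀ d1 d2, ¬ (d1 = 1 ∧ d2 = 1) → lam d1 d2 * χ n d1 d2 = 0 := by
      intro d1 d2 h
      by_contra h0
      have h1 := hs d1 d2 (left_ne_zero_of_mul h0)
      have h2 : (d1 : ℤ) ∣ a * n + b0 ∧ (d2 : ℤ) ∣ G.eval (n : ℤ) := by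
        by_contra h2
        exact right_ne_zero_of_mul h0 (if_neg h2)
      refine h ⟨?_, ?_⟩
      · by_contra h3
        obtain ⟨p, hp, hd⟩ := Nat.exists_prime_and_dvd h3
        exact (hn p (h1.2.2 p hp (hd.mul_right _))).1
          ((Int.natCast_dvd_natCast.mpr hd).trans h2.1)
      · by_contra h3
        obtain ⟨p, hp, hd⟩ := Nat.exists_prime_and_dvd h3
        exact (hn p (h1.2.2 p hp (hd.mul_left _))).2
          ((Int.natCast_dvd_natCast.mpr hd).trans h2.2)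
    have : ρ n = lam 1 1 := by
      simp only [hρ]
      rw [sum_eq_single_of_mem 1 (mem_Icc.mpr ⟨le_rfl, hX⟩),
        sum_eq_single_of_mem 1 (mem_Icc.mpr ⟨le_rfl, hX⟩)]
      · simp [hχ]
      · intro d2 _ h; exact z 1 d2 fun h' => h h'.2
      · intro d1 _ h; exact sum_eq_zero fun d2 _ => z d1 d2 fun h' => h h'.1
    rw [this]
  have s2 : ∑ n ∈ I, ρ n ^ 2 = ∑ d1 ∈ Icc 1 X, ∑ d2 ∈ Icc 1 X, ∑ e1 ∈ Icc 1 X, ∑ e2 ∈ Icc 1 X,
      lam d1 d2 * lam e1 e2 * ∑ n ∈ I, χ n d1 d2 * χ n e1 e2 := by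
    simp only [hρ, sq, sum_mul, mul_sum]
    simp_rw [sum_comm (s := I) (t := Icc 1 X)]
    refine sum_congr rfl fun d1 _ => sum_congr rfl fun d2 _ => sum_congr rfl fun e1 _ =>
      sum_congr rfl fun e2 _ => sum_congr rfl fun n _ => by ring
  refine s1.trans (le_of_eq ?_)
  rw [s2]
  simp only [mul_sum, ← sum_add_distrib, ← sum_sub_distrib]
  refine sum_congr rfl fun d1 _ => sum_congr rfl fun d2 _ => sum_congr rfl fun e1 _ =>
    sum_congr rfl fun e2 _ => ?_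
  rw [← mul_sum]
  by_cases hd : lam d1 d2 = 0
  · simp [hd]
  by_cases he : lam e1 e2 = 0
  · simp [he]
  obtain ⟨sd1, sd2, pd⟩ := hs _ _ hd
  obtain ⟨se1, se2, pe⟩ := hs _ _ he
  have cnt_eq : ∑ n ∈ I, χ n d1 d2 * χ n e1 e2 = (((Ioc M (M + N)).filter (fun n : ℕ =>
      n % W ∈ 𝒜 ∧ ((Nat.lcm d1 e1 : ℕ) : ℤ) ∣ a * n + b0 ∧
        ((Nat.lcm d2 e2 : ℕ) : ℤ) ∣ G.eval (n : ℤ))).card : ℝ) := by
    rw [← filter_filter, ← hI, card_filter]
    push_cast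
    refine sum_congr rfl fun n _ => ?_
    simp only [hχ, Int.natCast_dvd, Nat.lcm_dvd_iff, ite_zero_mul_ite_zero, mul_one]
    exact if_congr (by tauto) rfl rfl
  suffices h : ∑ n ∈ I, χ n d1 d2 * χ n e1 e2 = N * 𝒜.card / W * gg (fun p => ((p : ℝ) - 1)⁻¹)
      (fun p => (omega G p : ℝ) / (p - omega G p)) d1 d2 e1 e2
      + errT G a W 𝒜 b0 (Y0 + a * N) d1 d2 e1 e2 - errT G a W 𝒜 b0 Y0 d1 d2 e1 e2 by
    rw [h]; ring
  rw [cnt_eq]
  unfold gg errT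
  split_ifs with hc
  · have sA := squarefree_lcm sd1 se1
    have sb := squarefree_lcm sd2 se2
    have hb0 := Nat.pos_of_ne_zero sb.ne_zero
    have pb : ∀ p, p.Prime → p ∣ Nat.lcm d2 e2 → p ∈ Ps := fun p hp h => by
      rcases (Nat.Prime.dvd_lcm hp).mp h with h | h
      exacts [pd p hp (h.mul_left _), pe p hp (h.mul_left _)]
    rw [card_cong G a M N Y0 W _ _ 𝒜 b0 ha hW hb0 hY, sum_add_distrib, sum_sub_distrib, sum_const,
      card_res G 𝒜 hA hW hb0 (coprime_of_primes hPW pb).symm, omega_sqf G sb,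
      ← primeFactors_lcm' sd1.ne_zero se1.ne_zero, ← primeFactors_lcm' sd2.ne_zero se2.ne_zero]
    have e1 : ∏ p ∈ (Nat.lcm d1 e1).primeFactors, ((p : ℝ) - 1)⁻¹ / (1 + ((p : ℝ) - 1)⁻¹)
        = 1 / (Nat.lcm d1 e1 : ℕ) := by
      conv_rhs => rw [← Nat.prod_primeFactors_of_squarefree sA]
      push_cast
      rw [one_div, ← prod_inv_distrib]
      refine prod_congr rfl fun p hp => ?_
      have : (1 : ℝ) < p := by exact_mod_cast (Nat.prime_of_mem_primeFactors hp).one_lt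
      have h1 : (p : ℝ) - 1 ≠ 0 := by linarith
      have h2 : (p : ℝ) ≠ 0 := by linarith
      rw [show 1 + ((p : ℝ) - 1)⁻¹ = p * ((p : ℝ) - 1)⁻¹ by field_simp; ring]
      field_simp
    have e2 : ∏ p ∈ (Nat.lcm d2 e2).primeFactors, (omega G p : ℝ) / (p - omega G p) /
          (1 + (omega G p : ℝ) / (p - omega G p))
        = (∏ p ∈ (Nat.lcm d2 e2).primeFactors, (omega G p : ℝ)) / (Nat.lcm d2 e2 : ℕ) := by
      conv_rhs => rw [← Nat.prod_primeFactors_of_squarefree sb]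
      rw [Nat.primeFactors_prod fun p hp => Nat.prime_of_mem_primeFactors hp]
      push_cast
      rw [← prod_div_distrib]
      refine prod_congr rfl fun p hp => ?_
      have hpp := Nat.prime_of_mem_primeFactors hp
      have : (omega G p : ℝ) < p := by
        exact_mod_cast hom p (pb p hpp (Nat.dvd_of_mem_primeFactors hp))
      have h1 : (p : ℝ) - omega G p ≠ 0 := by linarith
      have h2 : (p : ℝ) ≠ 0 := by exact_mod_cast hpp.ne_zero
      rw [show 1 + (omega G p : ℝ) / (p - omega G p) = p / (p - omega G p) by field_simp; ring]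
      field_simp
    rw [e1, e2, nsmul_eq_mul]
    push_cast
    ring
  · rw [card_eq_zero.mpr]
    · simp
    refine filter_eq_empty_iff.mpr fun n _ hn => hc (Nat.coprime_of_dvd fun p hp h1 h2 => ?_)
    have h3 : p ∣ Nat.lcm d1 e1 := (Nat.Prime.dvd_lcm hp).mpr ((Nat.Prime.dvd_mul hp).mp h1)
    have h4 : p ∣ Nat.lcm d2 e2 := (Nat.Prime.dvd_lcm hp).mpr ((Nat.Prime.dvd_mul hp).mp h2)
    have h5 : p ∈ Ps := by
      rcases (Nat.Prime.dvd_mul hp).mp h1 with h | h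
      exacts [pd p hp (h.mul_right _), pe p hp (h.mul_right _)]
    exact hcr p h5 n ⟨(Int.natCast_dvd_natCast.mpr h3).trans hn.2.1,
      (Int.natCast_dvd_natCast.mpr h4).trans hn.2.2⟩

end Pool.Agent.Work.MP_51e72e_nt
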