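import Pool.Agent.Work.MP_51e72e_nt.Rem1

/-!
The remainder term of the sieve beyond the square-root level.
-/

set_option autoImplicit false
set_option maxHeartbeats 400000

namespace Pool.Agent.Work.MP_51e72e_nt

open Finset Polynomial Pool.Agent.Lib.LargeSieve

lemma two_pow_le_card_divisors {b : ℕ} (hb : b ≠ 0) :
    2 ^ b.primeFactors.card ≤ b.divisors.card := by
  rw [Nat.card_divisors hb, ← prod_const]
  refine prod_le_prod' fun p hp => ?_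
  have := (Nat.prime_of_mem_primeFactors hp).factorization_pos_of_dvd hb
    (Nat.dvd_of_mem_primeFactors hp)
  omega

lemma card_res_le (G : ℤ[X]) {W b K : ℕ} {𝒜 Ps : Finset ℕ} {D : ℝ} (hA : 𝒜 ⊆ range W)
    (hW : 0 < W) (hPW : ∀ p ∈ Ps, ¬ p ∣ W) (hK : ∀ p ∈ Ps, omega G p ≤ K) (hb : Squarefree b)
    (pb : ∀ p, p.Prime → p ∣ b → p ∈ Ps) (hD : (b.divisors.card : ℝ) ≤ D) :
    ((res G W 𝒜 b).card : ℝ) ≤ W * D ^ K := by
  rw [card_res G 𝒜 hA hW (Nat.pos_of_ne_zero hb.ne_zero) (coprime_of_primes hPW pb).symm,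
    omega_sqf G hb]
  have h1 : 𝒜.card ≤ W := by simpa using card_le_card hA
  have h2 : ∏ p ∈ b.primeFactors, omega G p ≤ b.divisors.card ^ K := by
    calc _ ≤ ∏ _p ∈ b.primeFactors, 2 ^ K := prod_le_prod' fun p hp =>
          (hK p (pb p (Nat.prime_of_mem_primeFactors hp) (Nat.dvd_of_mem_primeFactors hp))).trans
            Nat.lt_two_pow_self.le
      _ = (2 ^ b.primeFactors.card) ^ K := by rw [prod_const, ← pow_mul, ← pow_mul, mul_comm]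
      _ ≤ _ := Nat.pow_le_pow_left (two_pow_le_card_divisors hb.ne_zero) K
  calc _ ≤ ((W * b.divisors.card ^ K : ℕ) : ℝ) := by exact_mod_cast Nat.mul_le_mul h1 h2
    _ ≤ _ := by push_cast; gcongr

lemma sum_abs_le_of_supp (f : ℕ → ℕ → ℝ) (X : ℕ) {Λ R : ℝ} (hΛ : ∀ a b, |f a b| ≤ Λ)
    (hR : 0 ≤ R) (h : ∀ a b, f a b ≠ 0 → (a : ℝ) * b ≤ R) :
    ∑ a ∈ Icc 1 X, ∑ b ∈ Icc 1 X, |f a b| ≤ Λ * R * HH X := by
  have hΛ0 : 0 ≤ Λ := (abs_nonneg _).trans (hΛ 0 0)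
  rw [HH, mul_sum]
  refine sum_le_sum fun a ha => ?_
  have ha' : (0 : ℝ) < a := Nat.cast_pos.mpr (mem_Icc.mp ha).1
  have h1 : ∑ b ∈ Icc 1 X, |f a b| = ∑ b ∈ (Icc 1 X).filter (fun b => f a b ≠ 0), |f a b| := by
    rw [sum_filter]
    refine sum_congr rfl fun b _ => ?_
    split_ifs with h
    · rfl
    · rw [not_not.mp h, abs_zero]
  have h2 : (Icc 1 X).filter (fun b => f a b ≠ 0) ⊆ Icc 1 ⌊R / a⌋₊ := by
    intro b hb
    rw [mem_filter, mem_Icc] at hb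
    refine mem_Icc.mpr ⟨hb.1.1, Nat.le_floor ?_⟩
    rw [le_div_iff₀ ha', mul_comm]; exact h a b hb.2
  have h3 : (((Icc 1 X).filter (fun b => f a b ≠ 0)).card : ℝ) ≤ R / a := by
    have : ((Icc 1 X).filter (fun b => f a b ≠ 0)).card ≤ ⌊R / a⌋₊ := by
      simpa using card_le_card h2
    exact le_trans (by exact_mod_cast this) (Nat.floor_le (by positivity))
  rw [h1]
  refine (sum_le_card_nsmul _ _ Λ fun b _ => hΛ a b).trans ?_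
  rw [nsmul_eq_mul]
  calc _ ≤ R / a * Λ := by gcongr
    _ = _ := by ring

lemma quad_triv (f g : ℕ → ℕ → ℝ) (E : ℕ → ℕ → ℕ → ℕ → ℝ) (X : ℕ) {Λ R1 R2 C : ℝ}
    (hf : ∀ a b, |f a b| ≤ Λ) (hg : ∀ a b, |g a b| ≤ Λ) (hR1 : 0 ≤ R1) (hR2 : 0 ≤ R2)
    (h1 : ∀ a b, f a b ≠ 0 → (a : ℝ) * b ≤ R1) (h2 : ∀ a b, g a b ≠ 0 → (a : ℝ) * b ≤ R2)
    (hC0 : 0 ≤ C) (hC : ∀ d1 d2 e1 e2, d2 ∈ Icc 1 X → e2 ∈ Icc 1 X → f d1 d2 ≠ 0 → g e1 e2 ≠ 0 →
      |E d1 d2 e1 e2| ≤ C) :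
    |∑ d1 ∈ Icc 1 X, ∑ d2 ∈ Icc 1 X, ∑ e1 ∈ Icc 1 X, ∑ e2 ∈ Icc 1 X,
        f d1 d2 * g e1 e2 * E d1 d2 e1 e2| ≤ Λ * R1 * HH X * (Λ * R2 * HH X) * C := by
  have a1 := sum_abs_le_of_supp f X hf hR1 h1
  have a2 := sum_abs_le_of_supp g X hg hR2 h2
  have b1 : 0 ≤ ∑ a ∈ Icc 1 X, ∑ b ∈ Icc 1 X, |f a b| :=
    sum_nonneg fun _ _ => sum_nonneg fun _ _ => abs_nonneg _
  have b2 : 0 ≤ ∑ a ∈ Icc 1 X, ∑ b ∈ Icc 1 X, |g a b| :=
    sum_nonneg fun _ _ => sum_nonneg fun _ _ => abs_nonneg _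
  calc _ ≤ (∑ a ∈ Icc 1 X, ∑ b ∈ Icc 1 X, |f a b|) * (∑ a ∈ Icc 1 X, ∑ b ∈ Icc 1 X, |g a b|)
        * C := by
        rw [sum_mul, sum_mul]
        refine (abs_sum_le_sum_abs _ _).trans (sum_le_sum fun d1 _ => ?_)
        rw [sum_mul, sum_mul]
        refine (abs_sum_le_sum_abs _ _).trans (sum_le_sum fun d2 hd2 => ?_)
        rw [mul_sum, sum_mul]
        refine (abs_sum_le_sum_abs _ _).trans (sum_le_sum fun e1 _ => ?_)
        rw [mul_sum, sum_mul]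
        refine (abs_sum_le_sum_abs _ _).trans (sum_le_sum fun e2 he2 => ?_)
        rw [abs_mul, abs_mul]
        by_cases hd : f d1 d2 = 0
        · simp [hd]
        by_cases he : g e1 e2 = 0
        · simp [he]
        exact mul_le_mul_of_nonneg_left (hC _ _ _ _ hd2 he2 hd he) (by positivity)
    _ ≤ _ := mul_le_mul_of_nonneg_right (mul_le_mul a1 a2 b2 (b1.trans a1)) hC0

lemma sum_le_mul_of_fiber {α β : Type*} [DecidableEq β] (s : Finset α) (t : Finset β) (φ : α → β)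
    (F : β → ℝ) {m : ℝ} (hm : ∀ a ∈ s, φ a ∈ t) (hF : ∀ y ∈ t, 0 ≤ F y)
    (hc : ∀ y ∈ t, ((s.filter (fun a => φ a = y)).card : ℝ) ≤ m) :
    ∑ a ∈ s, F (φ a) ≤ m * ∑ y ∈ t, F y := by
  rw [← sum_fiberwise_of_maps_to hm, mul_sum]
  refine sum_le_sum fun y hy => ?_
  rw [sum_congr rfl (g := fun _ => F y) (fun a ha => by rw [(mem_filter.mp ha).2]), sum_const,
    nsmul_eq_mul]
  exact mul_le_mul_of_nonneg_right (hc y hy) (hF y hy)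

lemma isUnit_res (G : ℤ[X]) {a W b ν : ℕ} {𝒜 Ps : Finset ℕ} {b0 : ℤ}
    (haW : ∀ p, p.Prime → p ∣ a → p ∣ W)
    (hAc : ∀ c ∈ 𝒜, ∀ p, p.Prime → p ∣ W → ¬ (p : ℤ) ∣ a * c + b0)
    (hcr : ∀ p ∈ Ps, ∀ n : ℤ, ¬ ((p : ℤ) ∣ a * n + b0 ∧ (p : ℤ) ∣ G.eval n))
    (pb : ∀ p, p.Prime → p ∣ b → p ∈ Ps) (hν : ν ∈ res G W 𝒜 b) :
    IsUnit ((a * ν + b0 : ℤ) : ZMod (a * (W * b))) := by
  rw [res, mem_filter] at hν
  rw [ZMod.coe_int_isUnit_iff_isCoprime, Int.isCoprime_iff_gcd_eq_one]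
  refine Nat.coprime_of_dvd fun p hp h1 h2 => ?_
  rw [Int.natAbs_natCast] at h1
  have h2 : (p : ℤ) ∣ a * ν + b0 := Int.natCast_dvd.mpr h2
  have hW : p ∣ W → False := by
    intro h
    refine hAc _ hν.2.1 p hp h ?_
    have h3 : (p : ℤ) ∣ ν - (ν % W : ℕ) :=
      (Int.natCast_dvd_natCast.mpr h).trans (Nat.modEq_iff_dvd.mp (Nat.mod_modEq ν W))
    have := dvd_sub h2 (h3.mul_left a)
    rwa [show (a : ℤ) * ν + b0 - a * (ν - (ν % W : ℕ)) = a * (ν % W : ℕ) + b0 by ring] at this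
  rcases (Nat.Prime.dvd_mul hp).mp h1 with h | h
  · exact hW (haW p hp h)
  · rcases (Nat.Prime.dvd_mul hp).mp h with h | h
    · exact hW h
    · exact hcr p (pb p hp h) ν ⟨h2, (Int.natCast_dvd_natCast.mpr h).trans hν.2.2⟩

lemma coprime_mod_iff {a W d1 d2 e1 e2 : ℕ} {Ps : Finset ℕ} (haW : ∀ p, p.Prime → p ∣ a → p ∣ W)
    (hPW : ∀ p ∈ Ps, ¬ p ∣ W) (pd : ∀ p, p.Prime → p ∣ d1 → p ∈ Ps)
    (pe : ∀ p, p.Prime → p ∣ e1 → p ∈ Ps) :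
    Nat.Coprime (d1 * e1) (d2 * e2) ↔ Nat.Coprime d1 (a * (W * Nat.lcm d2 e2)) ∧
      Nat.Coprime e1 (a * (W * Nat.lcm d2 e2)) := by
  have hPa : ∀ {d : ℕ}, (∀ p, p.Prime → p ∣ d → p ∈ Ps) → Nat.Coprime d a := fun pd =>
    Nat.coprime_of_dvd fun p hp h1 h2 => hPW p (pd p hp h1) (haW p hp h2)
  constructor
  · intro h
    have h' := h.coprime_dvd_right (Nat.lcm_dvd_mul d2 e2)
    exact ⟨(hPa pd).mul_right ((coprime_of_primes hPW pd).mul_right h'.coprime_mul_right),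
      (hPa pe).mul_right ((coprime_of_primes hPW pe).mul_right h'.coprime_mul_left)⟩
  · rintro ⟨h1, h2⟩
    have h := (Nat.Coprime.mul_left h1 h2).coprime_mul_left_right.coprime_mul_left_right
    exact (h.coprime_dvd_right (Nat.dvd_lcm_left _ _)).mul_right
      (h.coprime_dvd_right (Nat.dvd_lcm_right _ _))

/-- The shell part of the remainder. -/
theorem shell_le (G : ℤ[X]) (a W X Y n nB Nm K : ℕ) (𝒜 Ps : Finset ℕ) (b0 : ℤ) (ha : 0 < a)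
    (hW : 0 < W) (hA : 𝒜 ⊆ range W) (haW : ∀ p, p.Prime → p ∣ a → p ∣ W)
    (hPW : ∀ p ∈ Ps, ¬ p ∣ W) (hAc : ∀ c ∈ 𝒜, ∀ p, p.Prime → p ∣ W → ¬ (p : ℤ) ∣ a * c + b0)
    (hcr : ∀ p ∈ Ps, ∀ n : ℤ, ¬ ((p : ℤ) ∣ a * n + b0 ∧ (p : ℤ) ∣ G.eval n))
    (hK : ∀ p ∈ Ps, omega G p ≤ K) {V R U Λ ρ σ D L : ℝ} (ls : ℕ → ℕ → ℝ)
    (hs : ∀ a b, ls a b ≠ 0 → Squarefree a ∧ Squarefree b ∧
      (∀ p, p.Prime → p ∣ a * b → p ∈ Ps) ∧ (a : ℝ) * b ≤ R ∧ V < b ∧ (b : ℝ) ≤ U)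
    (hΛ : ∀ a b, |ls a b| ≤ Λ) (hΛ0 : 0 < Λ) (hV : 0 < V) (hR : 0 ≤ R) (hXN : X ≤ Nm)
    (hRN : R ≤ Nm) (hQN : 4 * a * W * U ^ 2 ≤ Nm) (hQX : 4 * a * W * U ^ 2 ≤ ⌊R / U⌋₊ ^ (n + 1))
    (hσ0 : 0 ≤ σ) (hσ : 1 ≤ V ^ 2 * σ ^ (2 * (n + 1) ^ 2)) (hρ : 1 < ρ) (hB : R < ρ ^ nB)
    (hD0 : 0 ≤ D) (hD : ∀ m : ℕ, 1 ≤ m → m ≤ Nm * ((n + 1) * Nm ^ (2 * (n + 1))) →
      (m.divisors.card : ℝ) ≤ D)
    (hL : HH Nm ≤ L) (hL' : ((Nat.log 2 Nm + 1 : ℕ) : ℝ) ≤ L) :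
    |∑ d1 ∈ Icc 1 X, ∑ d2 ∈ Icc 1 X, ∑ e1 ∈ Icc 1 X, ∑ e2 ∈ Icc 1 X,
        ls d1 d2 * ls e1 e2 * errT G a W 𝒜 b0 Y d1 d2 e1 e2|
      ≤ W * D ^ K * Λ ^ 2 * (D ^ 2 * (L ^ 2 * (D * L ^ 2 * (6 * (nB : ℝ) ^ 2 *
        (4 * a * W * R ^ 2 * σ) * (1 + 2 * (D ^ (2 * (n + 1)) + D))
          + 2 * ((ρ ^ 2 - 1) * Y * L ^ 2 + 4 * R ^ 2 / V ^ 2))))) := by
  classical
  set Btot := D * L ^ 2 * (6 * (nB : ℝ) ^ 2 *
        (4 * a * W * R ^ 2 * σ) * (1 + 2 * (D ^ (2 * (n + 1)) + D))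
          + 2 * ((ρ ^ 2 - 1) * Y * L ^ 2 + 4 * R ^ 2 / V ^ 2)) with hBtot
  have hρ2 : 0 ≤ ρ ^ 2 - 1 := by nlinarith only [hρ]
  have hL0 : 0 ≤ L := (HH_nonneg _).trans hL
  have hBtot0 : 0 ≤ Btot := by rw [hBtot]; positivity
  let good : ℕ → Prop := fun i => (2 : ℝ) ^ i ≤ U ∧ V < 2 ^ (i + 1)
  let QQ : ℕ → ℕ → ℕ := fun i j => a * W * 2 ^ (i + 1) * 2 ^ (j + 1)
  let XX : ℕ → ℕ := fun i => ⌊R / 2 ^ i⌋₊
  have hQ : ∀ i j, good i → good j → (QQ i j : ℝ) ≤ 4 * a * W * U ^ 2 := by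
    intro i j hi hj
    have : (2 : ℝ) ^ i * 2 ^ j ≤ U * U := mul_le_mul hi.1 hj.1 (by positivity)
      (le_trans (by positivity) hi.1)
    simp only [QQ]
    push_cast
    calc _ = 4 * a * W * ((2 : ℝ) ^ i * 2 ^ j) := by ring
      _ ≤ 4 * a * W * (U * U) := by gcongr
      _ = _ := by ring
  have hQN' : ∀ i j, good i → good j → QQ i j ≤ Nm := fun i j hi hj => by
    exact_mod_cast (hQ i j hi hj).trans hQN
  have hXX : ∀ i, (XX i : ℝ) ≤ R / 2 ^ i := fun i => Nat.floor_le (by positivity)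
  have hXR : ∀ i, (XX i : ℝ) ≤ R := fun i =>
    (hXX i).trans (div_le_self hR (one_le_pow₀ one_le_two))
  have hXN' : ∀ i, XX i ≤ Nm := fun i => by exact_mod_cast (hXR i).trans hRN
  have hBf : ∀ i j, ∃ B : ℕ → ℝ, (∀ q, 0 ≤ B q) ∧ ∑ q ∈ Icc 1 Nm, B q ≤ Btot ∧
      (good i → good j → ∀ q ∈ Icc 1 (QQ i j), ∀ c : ZMod q, IsUnit c → ∀ S1 S2 : Finset ℕ,
        S1 ⊆ sqf (XX i) → S2 ⊆ sqf (XX j) → (∀ x ∈ S1, Nat.Coprime x q) →
        (∀ x ∈ S2, Nat.Coprime x q) → ∀ α β : ℕ → ℝ,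
        (∀ x ∈ S1, |α x| ≤ 1) → (∀ x ∈ S2, |β x| ≤ 1) →
        |∑ d ∈ S1, ∑ e ∈ S2, α d * β e * remU Y (Nat.lcm d e) c| ≤ B q) := by
    intro i j
    by_cases hij : good i ∧ good j
    swap
    · exact ⟨fun _ => 0, fun _ => le_rfl, by simpa using hBtot0, fun hi hj => absurd ⟨hi, hj⟩ hij⟩
    obtain ⟨hi, hj⟩ := hij
    have hQ1 : 1 ≤ QQ i j := by simp only [QQ]; exact Nat.succ_le_of_lt (by positivity)
    have hXQ : ∀ k, good k → QQ i j ≤ XX k ^ (n + 1) := by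
      intro k hk
      have h1 : ⌊R / U⌋₊ ≤ XX k :=
        Nat.floor_mono (div_le_div_of_nonneg_left hR (by positivity) hk.1)
      have h2 : QQ i j ≤ ⌊R / U⌋₊ ^ (n + 1) := by exact_mod_cast (hQ i j hi hj).trans hQX
      exact h2.trans (Nat.pow_le_pow_left h1 _)
    have hVQ : V ^ 2 ≤ QQ i j := by
      have h1 : V * V ≤ 2 ^ (i + 1) * 2 ^ (j + 1) :=
        mul_le_mul hi.2.le hj.2.le hV.le (by positivity)
      have h2 : (1 : ℝ) ≤ a * W := by exact_mod_cast Nat.mul_pos ha hW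
      simp only [QQ]
      push_cast
      calc V ^ 2 = 1 * (V * V) := by ring
        _ ≤ a * W * (2 ^ (i + 1) * 2 ^ (j + 1)) := by gcongr
        _ = _ := by ring
    obtain ⟨B, B0, B1, B2⟩ := bil_main (XX i) (XX j) n (QQ i j) Y nB hQ1 (D := D) (L := L) hσ0
      (hσ.trans (mul_le_mul_of_nonneg_right hVQ (pow_nonneg hσ0 _))) hρ
      ((hXR i).trans_lt hB) ((hXR j).trans_lt hB) (hXQ i hi) (hXQ j hj) hD0
      (fun m h1 h2 => hD m h1 (h2.trans (Nat.mul_le_mul (hQN' i j hi hj) (Nat.mul_le_mul_left _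
        (Nat.pow_le_pow_left (max_le (hXN' i) (hXN' j)) _)))))
      ((HH_mono (hXN' i)).trans hL) ((HH_mono (hXN' j)).trans hL)
      ((HH_mono (hQN' i j hi hj)).trans hL)
    refine ⟨fun q => if q ∈ Icc 1 (QQ i j) then B q else 0, fun q => ?_, ?_,
      fun _ _ q hq => by simpa only [if_pos hq] using B2 q hq⟩
    · dsimp only
      split_ifs; exacts [B0 q, le_rfl]
    · rw [sum_ite_mem, inter_eq_right.mpr (Icc_subset_Icc_right (hQN' i j hi hj))]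
      refine B1.trans ?_
      have a1 : (XX i : ℝ) * XX j ≤ R / 2 ^ i * (R / 2 ^ j) :=
        mul_le_mul (hXX i) (hXX j) (Nat.cast_nonneg _) (by positivity)
      have a2 : (XX i : ℝ) * XX j * QQ i j ≤ 4 * a * W * R ^ 2 := by
        calc _ ≤ R / 2 ^ i * (R / 2 ^ j) * QQ i j :=
              mul_le_mul_of_nonneg_right a1 (Nat.cast_nonneg _)
          _ = _ := by simp only [QQ]; push_cast; field_simp; ring
      have a3 : (XX i : ℝ) * XX j ≤ 4 * R ^ 2 / V ^ 2 := by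
        refine a1.trans ?_
        have h1 : V * V ≤ 2 ^ (i + 1) * 2 ^ (j + 1) :=
          mul_le_mul hi.2.le hj.2.le hV.le (by positivity)
        calc R / 2 ^ i * (R / 2 ^ j) = 4 * R ^ 2 / (2 ^ (i + 1) * 2 ^ (j + 1)) := by
              field_simp; ring
          _ ≤ _ := div_le_div_of_nonneg_left (by positivity) (by positivity) (by nlinarith only [h1])
      rw [hBtot]
      gcongr
  choose Bf Bf0 Bf1 Bf2 using hBf
  let Gd : Finset ℕ := (Icc 1 X).filter (fun d => ∃ d1, ls d1 d ≠ 0)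
  have hGd : ∀ d ∈ Gd, 1 ≤ d ∧ d ≤ Nm ∧ Squarefree d ∧ (∀ p, p.Prime → p ∣ d → p ∈ Ps) ∧
      good (Nat.log 2 d) ∧ (2 : ℝ) ^ Nat.log 2 d ≤ d ∧ d < 2 ^ (Nat.log 2 d + 1) := by
    intro d hd
    obtain ⟨h1, d1, h2⟩ := mem_filter.mp hd
    rw [mem_Icc] at h1
    obtain ⟨-, s2, s3, -, s5, s6⟩ := hs _ _ h2
    have l1 : (2 : ℝ) ^ Nat.log 2 d ≤ d := by
      exact_mod_cast Nat.pow_log_le_self 2 (show d ≠ 0 by omega)
    have l2 : d < 2 ^ (Nat.log 2 d + 1) := Nat.lt_pow_succ_log_self one_lt_two d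
    have l3 : (d : ℝ) < 2 ^ (Nat.log 2 d + 1) := by exact_mod_cast l2
    exact ⟨h1.1, h1.2.trans hXN, s2, fun p hp h => s3 p hp (h.mul_left _),
      ⟨l1.trans s6, s5.trans l3⟩, l1, l2⟩
  have hbig : ∀ m, 1 ≤ Nm → m ≤ Nm * Nm → m ≤ Nm * ((n + 1) * Nm ^ (2 * (n + 1))) := by
    intro m h1 h2
    refine h2.trans (Nat.mul_le_mul_left _ ?_)
    calc Nm ≤ Nm ^ (2 * (n + 1)) := Nat.le_self_pow (by omega) _
      _ ≤ _ := Nat.le_mul_of_pos_left _ (by omega)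
  have e1 : ∑ d1 ∈ Icc 1 X, ∑ d2 ∈ Icc 1 X, ∑ e1 ∈ Icc 1 X, ∑ e2 ∈ Icc 1 X,
        ls d1 d2 * ls e1 e2 * errT G a W 𝒜 b0 Y d1 d2 e1 e2
      = ∑ d2 ∈ Gd, ∑ e2 ∈ Gd, ∑ d1 ∈ Icc 1 X, ∑ e1 ∈ Icc 1 X,
        ls d1 d2 * ls e1 e2 * errT G a W 𝒜 b0 Y d1 d2 e1 e2 := by
    rw [sum_comm]
    symm
    refine (sum_congr rfl fun d2 _ => ?_).trans (sum_subset (filter_subset _ _) fun d2 h1 h2 => ?_)
    · simp_rw [sum_comm (s := Icc 1 X) (t := Icc 1 X)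
        (f := fun e1 e2 => ls _ d2 * ls e1 e2 * errT G a W 𝒜 b0 Y _ d2 e1 e2)]
      rw [sum_comm (s := Icc 1 X) (t := Icc 1 X)]
      refine sum_subset (filter_subset _ _) fun e2 h1 h2 => ?_
      have : ∀ e1, ls e1 e2 = 0 := fun e1 => by
        by_contra h; exact h2 (mem_filter.mpr ⟨h1, e1, h⟩)
      simp [this]
    · have : ∀ d1, ls d1 d2 = 0 := fun d1 => by
        by_contra h; exact h2 (mem_filter.mpr ⟨h1, d1, h⟩)
      simp [this]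
  have inner : ∀ d2 ∈ Gd, ∀ e2 ∈ Gd, |∑ d1 ∈ Icc 1 X, ∑ e1 ∈ Icc 1 X,
        ls d1 d2 * ls e1 e2 * errT G a W 𝒜 b0 Y d1 d2 e1 e2|
      ≤ W * D ^ K * Λ ^ 2 * Bf (Nat.log 2 d2) (Nat.log 2 e2) (a * (W * Nat.lcm d2 e2)) := by
    intro d2 hd2 e2 he2
    obtain ⟨d0, dN, sd, pd, gd, ld, ld'⟩ := hGd d2 hd2
    obtain ⟨e0, eN, se, pe, ge, le, le'⟩ := hGd e2 he2
    set q := a * (W * Nat.lcm d2 e2) with hq
    have sb := squarefree_lcm sd se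
    have pb : ∀ p, p.Prime → p ∣ Nat.lcm d2 e2 → p ∈ Ps := fun p hp h => by
      rcases (Nat.Prime.dvd_lcm hp).mp h with h | h
      exacts [pd p hp h, pe p hp h]
    have hb : Nat.lcm d2 e2 ≤ d2 * e2 := Nat.le_of_dvd (Nat.mul_pos d0 e0) (Nat.lcm_dvd_mul _ _)
    have hqQ : q ∈ Icc 1 (QQ (Nat.log 2 d2) (Nat.log 2 e2)) := by
      refine mem_Icc.mpr ⟨Nat.mul_pos ha (Nat.mul_pos hW (Nat.pos_of_ne_zero sb.ne_zero)), ?_⟩
      simp only [QQ]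
      rw [hq, ← mul_assoc, mul_assoc (a * W)]
      exact Nat.mul_le_mul_left _ (hb.trans (Nat.mul_le_mul ld'.le le'.le))
    let S : ℕ → Finset ℕ := fun d => (Icc 1 X).filter (fun x => ls x d ≠ 0 ∧ Nat.Coprime x q)
    have hS : ∀ d : ℕ, (2 : ℝ) ^ Nat.log 2 d ≤ d → S d ⊆ sqf (XX (Nat.log 2 d)) := by
      intro d hd x hx
      obtain ⟨h1, h2, -⟩ := mem_filter.mp hx
      obtain ⟨s1, -, -, s4, -⟩ := hs _ _ h2
      refine mem_sqf.mpr ⟨⟨(mem_Icc.mp h1).1, Nat.le_floor ?_⟩, s1⟩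
      rw [le_div_iff₀ (by positivity)]
      exact (mul_le_mul_of_nonneg_left hd (Nat.cast_nonneg _)).trans s4
    have hα : ∀ x d, |ls x d / Λ| ≤ 1 := fun x d => by
      rw [abs_div, abs_of_pos hΛ0]; exact div_le_one_of_le₀ (hΛ x d) hΛ0.le
    have e : ∑ d1 ∈ Icc 1 X, ∑ e1 ∈ Icc 1 X, ls d1 d2 * ls e1 e2 * errT G a W 𝒜 b0 Y d1 d2 e1 e2
        = ∑ ν ∈ res G W 𝒜 (Nat.lcm d2 e2), Λ ^ 2 * ∑ d1 ∈ S d2, ∑ e1 ∈ S e2,
          ls d1 d2 / Λ * (ls e1 e2 / Λ) * remU Y (Nat.lcm d1 e1) ((a * ν + b0 : ℤ) : ZMod q) := by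
      simp only [S, sum_filter, mul_sum]
      rw [sum_comm (s := res G W 𝒜 (Nat.lcm d2 e2))]
      refine sum_congr rfl fun d1 _ => ?_
      by_cases h1 : ls d1 d2 = 0
      · simp [h1]
      by_cases c1 : Nat.Coprime d1 q
      swap
      · simp only [c1, and_false, if_false, mul_zero, sum_const_zero]
        refine sum_eq_zero fun e1 _ => ?_
        by_cases h2 : ls e1 e2 = 0
        · simp [h2]
        rw [errT, if_neg, mul_zero]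
        rw [coprime_mod_iff haW hPW (fun p hp h => (hs _ _ h1).2.2.1 p hp (h.mul_right _))
          (fun p hp h => (hs _ _ h2).2.2.1 p hp (h.mul_right _))]
        exact fun h => c1 h.1
      simp only [if_pos (show ls d1 d2 ≠ 0 ∧ Nat.Coprime d1 q from ⟨h1, c1⟩), mul_sum]
      rw [sum_comm (s := res G W 𝒜 (Nat.lcm d2 e2))]
      refine sum_congr rfl fun e1 _ => ?_
      by_cases h2 : ls e1 e2 = 0
      · simp [h2]
      rw [errT, if_congr (coprime_mod_iff haW hPW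
        (fun p hp h => (hs _ _ h1).2.2.1 p hp (h.mul_right _))
        (fun p hp h => (hs _ _ h2).2.2.1 p hp (h.mul_right _))) rfl rfl]
      by_cases c2 : Nat.Coprime e1 q
      · rw [if_pos ⟨c1, c2⟩, mul_sum]
        refine sum_congr rfl fun ν _ => ?_
        rw [if_pos ⟨h2, c2⟩]
        field_simp
      · rw [if_neg fun h => c2 h.2]
        simp [c2]
    rw [e]
    refine (abs_sum_le_sum_abs _ _).trans ((sum_le_card_nsmul _ _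
      (Λ ^ 2 * Bf (Nat.log 2 d2) (Nat.log 2 e2) q) fun ν hν => ?_).trans ?_)
    · rw [abs_mul, abs_of_pos (pow_pos hΛ0 2)]
      refine mul_le_mul_of_nonneg_left ?_ (pow_pos hΛ0 2).le
      exact Bf2 _ _ gd ge q hqQ _ (isUnit_res G haW hAc hcr pb hν) _ _ (hS d2 ld) (hS e2 le)
        (fun x hx => (mem_filter.mp hx).2.2) (fun x hx => (mem_filter.mp hx).2.2) _ _
        (fun x _ => hα x d2) (fun x _ => hα x e2)
    · rw [nsmul_eq_mul, mul_assoc]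
      refine mul_le_mul_of_nonneg_right (card_res_le G hA hW hPW hK sb pb (hD _
        (Nat.pos_of_ne_zero sb.ne_zero) (hbig _ (d0.trans dN)
          (hb.trans (Nat.mul_le_mul dN eN))))) (mul_nonneg (pow_pos hΛ0 2).le (Bf0 _ _ _))
  rw [e1]
  have fin := sum_le_mul_of_fiber (Gd ×ˢ Gd)
    (range (Nat.log 2 Nm + 1) ×ˢ range (Nat.log 2 Nm + 1) ×ˢ Icc 1 Nm)
    (fun x => (Nat.log 2 x.1, Nat.log 2 x.2, a * (W * Nat.lcm x.1 x.2)))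
    (fun y => Bf y.1 y.2.1 y.2.2) (m := D ^ 2) ?_ (fun _ _ => Bf0 _ _ _) ?_
  · calc _ ≤ ∑ d2 ∈ Gd, ∑ e2 ∈ Gd, W * D ^ K * Λ ^ 2 *
          Bf (Nat.log 2 d2) (Nat.log 2 e2) (a * (W * Nat.lcm d2 e2)) :=
          (abs_sum_le_sum_abs _ _).trans (sum_le_sum fun d2 hd2 =>
            (abs_sum_le_sum_abs _ _).trans (sum_le_sum fun e2 he2 => inner d2 hd2 e2 he2))
      _ = W * D ^ K * Λ ^ 2 * ∑ x ∈ Gd ×ˢ Gd,
          Bf (Nat.log 2 x.1) (Nat.log 2 x.2) (a * (W * Nat.lcm x.1 x.2)) := by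
          rw [sum_product, mul_sum]
          exact sum_congr rfl fun _ _ => by rw [mul_sum]
      _ ≤ _ := by
          refine mul_le_mul_of_nonneg_left (fin.trans (mul_le_mul_of_nonneg_left ?_
            (pow_nonneg hD0 2))) (mul_nonneg (mul_nonneg (Nat.cast_nonneg _) (pow_nonneg hD0 K))
              (pow_pos hΛ0 2).le)
          rw [sum_product]
          simp_rw [sum_product]
          calc _ ≤ ∑ _i ∈ range (Nat.log 2 Nm + 1), ∑ _j ∈ range (Nat.log 2 Nm + 1), Btot :=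
                sum_le_sum fun i _ => sum_le_sum fun j _ => Bf1 i j
            _ = ((Nat.log 2 Nm + 1 : ℕ) : ℝ) ^ 2 * Btot := by
                simp only [sum_const, card_range, nsmul_eq_mul]; ring
            _ ≤ _ := mul_le_mul_of_nonneg_right
                (pow_le_pow_left₀ (Nat.cast_nonneg _) hL' 2) hBtot0
  · intro x hx
    rw [mem_product] at hx
    obtain ⟨d0, dN, sd, -, gd, -, ld'⟩ := hGd _ hx.1
    obtain ⟨e0, eN, se, -, ge, -, le'⟩ := hGd _ hx.2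
    have hb : Nat.lcm x.1 x.2 ≤ x.1 * x.2 :=
      Nat.le_of_dvd (Nat.mul_pos d0 e0) (Nat.lcm_dvd_mul _ _)
    simp only [mem_product, mem_range, mem_Icc]
    refine ⟨Nat.lt_succ_of_le (Nat.log_mono_right dN), Nat.lt_succ_of_le (Nat.log_mono_right eN),
      Nat.mul_pos ha (Nat.mul_pos hW (Nat.lcm_pos d0 e0)), le_trans ?_ (hQN' _ _ gd ge)⟩
    simp only [QQ]
    rw [← mul_assoc, mul_assoc (a * W)]
    exact Nat.mul_le_mul_left _ (hb.trans (Nat.mul_le_mul ld'.le le'.le))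
  · intro y hy
    simp only [mem_product, mem_range, mem_Icc] at hy
    have h1 : (Gd ×ˢ Gd).filter (fun x =>
        (Nat.log 2 x.1, Nat.log 2 x.2, a * (W * Nat.lcm x.1 x.2)) = y)
        ⊆ y.2.2.divisors ×ˢ y.2.2.divisors := by
      intro x hx
      have h2 : a * (W * Nat.lcm x.1 x.2) = y.2.2 := by rw [← (mem_filter.mp hx).2]
      have h3 : y.2.2 ≠ 0 := by omega
      rw [mem_product, Nat.mem_divisors, Nat.mem_divisors, ← h2]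
      exact ⟨⟨((Nat.dvd_lcm_left _ _).mul_left _).mul_left _, h2 ▸ h3⟩,
        ⟨((Nat.dvd_lcm_right _ _).mul_left _).mul_left _, h2 ▸ h3⟩⟩
    have h2 := hD y.2.2 hy.2.2.1 (hbig _ (hy.2.2.1.trans hy.2.2.2)
      (hy.2.2.2.trans (Nat.le_mul_self _)))
    calc _ ≤ ((y.2.2.divisors ×ˢ y.2.2.divisors).card : ℝ) := by exact_mod_cast card_le_card h1
      _ = (y.2.2.divisors.card : ℝ) ^ 2 := by rw [card_product]; push_cast; ring
      _ ≤ _ := pow_le_pow_left₀ (Nat.cast_nonneg _) h2 2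

end Pool.Agent.Work.MP_51e72e_nt
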