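import Pool.Agent.Work.MP_51e72e_nt.Rem2

/-!
The remainder term with explicit exponents.
-/

set_option autoImplicit false
set_option maxHeartbeats 400000

namespace Pool.Agent.Work.MP_51e72e_nt

open Finset Polynomial Pool.Agent.Lib.LargeSieve

lemma shell_num {Z N W a Λ D L Y nB ρ : ℝ} (K r H t : ℕ) (hZ : 4 ≤ Z) (hN : N = Z ^ (2 * H))
    (hW0 : 0 ≤ W) (hW : W ≤ Z) (ha0 : 0 ≤ a) (ha : a ≤ Z) (hΛ0 : 0 ≤ Λ) (hΛ : Λ ≤ Z)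
    (hD1 : 1 ≤ D) (hD : D ^ (K + 3 + 2 * r) ≤ Z) (hL1 : 1 ≤ L) (hL : 480 * L ^ 6 ≤ Z)
    (hY0 : 0 ≤ Y) (hY : Y ≤ Z * N) (hn0 : 0 ≤ nB) (hn : nB ≤ 2 * Z ^ 7 * L)
    (hρ : ρ ^ 2 - 1 ≤ 3 / Z ^ 7) (hr : 1 ≤ r) (ht : 203 ≤ t) :
    W * D ^ K * Λ ^ 2 * (D ^ 2 * (L ^ 2 * (D * L ^ 2 * (6 * nB ^ 2 *
        (4 * a * W * (Z ^ (H + 200)) ^ 2 * (Z ^ 422)⁻¹) * (1 + 2 * (D ^ (2 * r) + D))
          + 2 * ((ρ ^ 2 - 1) * Y * L ^ 2 + 4 * (Z ^ (H + 200)) ^ 2 / (Z ^ t) ^ 2)))))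
      ≤ 3 * (N / Z) := by
  have hZ0 : 0 < Z := by linarith only [hZ]
  have hZ1 : 1 ≤ Z := by linarith only [hZ]
  have hN0 : 0 < N := hN ▸ pow_pos hZ0 _
  have hD0 : 0 ≤ D := by linarith
  have hL0 : 0 ≤ L := by linarith
  have d1 : 1 + 2 * (D ^ (2 * r) + D) ≤ 5 * D ^ (2 * r) := by
    have := one_le_pow₀ hD1 (n := 2 * r)
    have := le_self_pow₀ hD1 (show 2 * r ≠ 0 by omega)
    linarith
  have d2 : D ^ (K + 3) ≤ Z := (pow_le_pow_right₀ hD1 (by omega)).trans hD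
  have eR : (Z ^ (H + 200)) ^ 2 = N * Z ^ 400 := by rw [hN]; ring
  have l1 : 6 * L ^ 6 ≤ Z := by clear * - L Z hZ hL hL0; nlinarith only [hZ, hL, pow_nonneg hL0 6]
  have l2 : 8 * L ^ 4 ≤ Z := by
    clear * - L Z hZ hL hL1 hL0
    nlinarith only [hZ, hL, hL1, pow_le_pow_right₀ hL1 (show 4 ≤ 6 by norm_num), pow_nonneg hL0 4]
  have t1 : (Z ^ 203) ^ 2 ≤ (Z ^ t) ^ 2 :=
    pow_le_pow_left₀ (by positivity) (pow_le_pow_right₀ hZ1 ht) 2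
  rw [eR]
  calc _ ≤ W * D ^ K * Λ ^ 2 * (D ^ 2 * (L ^ 2 * (D * L ^ 2 * (6 * (2 * Z ^ 7 * L) ^ 2 *
        (4 * a * W * (N * Z ^ 400) * (Z ^ 422)⁻¹) * (5 * D ^ (2 * r))
          + 2 * (3 / Z ^ 7 * (Z * N) * L ^ 2 + 4 * (N * Z ^ 400) / (Z ^ 203) ^ 2))))) := by
        clear * - W D K Λ L nB a N Z r ρ Y t hn0 hn ha0 hW0 hN0 hZ d1 hD1 hL1 hρ hY hY0 t1
        gcongr
    _ = (480 * L ^ 6) * D ^ (K + 3 + 2 * r) * W * W * a * Λ * Λ * (N / Z ^ 8)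
        + (6 * L ^ 6) * D ^ (K + 3) * W * Λ * Λ * (N / Z ^ 6)
        + (8 * L ^ 4) * D ^ (K + 3) * W * Λ * Λ * (N / Z ^ 6) := by
        rw [pow_add D (K + 3), pow_add D K 3]
        field_simp
        ring
    _ ≤ Z * Z * Z * Z * Z * Z * Z * (N / Z ^ 8) + Z * Z * Z * Z * Z * (N / Z ^ 6)
        + Z * Z * Z * Z * Z * (N / Z ^ 6) := by clear * - L D K r W a Λ N Z hL hD hD1 hZ hW hW0 ha ha0 hΛ hΛ0 hN0 l1 d2 l2; gcongr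
    _ = _ := by field_simp; ring

theorem err_pow_le (G : ℤ[X]) (a W Y N n K H c u t v e' : ℕ) (𝒜 Ps : Finset ℕ) (b0 : ℤ)
    (ha : 0 < a) (hW : 0 < W) (hA : 𝒜 ⊆ range W) (haW : ∀ p, p.Prime → p ∣ a → p ∣ W)
    (hPW : ∀ p ∈ Ps, ¬ p ∣ W) (hAc : ∀ c ∈ 𝒜, ∀ p, p.Prime → p ∣ W → ¬ (p : ℤ) ∣ a * c + b0)
    (hcr : ∀ p ∈ Ps, ∀ n : ℤ, ¬ ((p : ℤ) ∣ a * n + b0 ∧ (p : ℤ) ∣ G.eval n))
    (hK : ∀ p ∈ Ps, omega G p ≤ K) {Z Λ D L : ℝ} (lam : ℕ → ℕ → ℝ)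
    (hs : ∀ a b, lam a b ≠ 0 → Squarefree a ∧ Squarefree b ∧
      (∀ p, p.Prime → p ∣ a * b → p ∈ Ps) ∧ ((a : ℝ) * b ≤ Z ^ c ∨
        ((a : ℝ) * b ≤ Z ^ (H + 200) ∧ (a : ℝ) ≤ Z ^ u ∧ (b : ℝ) ≤ Z ^ v)))
    (hΛ : ∀ a b, |lam a b| ≤ Λ) (hΛ0 : 0 < Λ) (h1 : c + 206 = H) (h2 : u + t = c)
    (h3 : v + e' = H) (h4 : 2 * H ≤ e' * (n + 1)) (h5 : 422 * (n + 1) ^ 2 ≤ t) (h6 : 2 ≤ e')
    (hZ : 4 ≤ Z) (hN : (N : ℝ) = Z ^ (2 * H)) (haZ : (a : ℝ) ≤ Z) (hWZ : (W : ℝ) ≤ Z)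
    (hΛZ : Λ ≤ Z) (hY : (Y : ℝ) ≤ Z * N) (hD1 : 1 ≤ D) (hDZ : D ^ (K + 3 + 2 * (n + 1)) ≤ Z)
    (hD : ∀ m : ℕ, 1 ≤ m → m ≤ N * ((n + 1) * N ^ (2 * (n + 1))) → (m.divisors.card : ℝ) ≤ D)
    (hL1 : 1 ≤ L) (hLZ : 480 * L ^ 6 ≤ Z) (hL : HH N ≤ L)
    (hL' : ((Nat.log 2 N + 1 : ℕ) : ℝ) ≤ L) :
    |∑ d1 ∈ Icc 1 N, ∑ d2 ∈ Icc 1 N, ∑ e1 ∈ Icc 1 N, ∑ e2 ∈ Icc 1 N,
        lam d1 d2 * lam e1 e2 * errT G a W 𝒜 b0 Y d1 d2 e1 e2| ≤ 5 * (N / Z) := by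
  have hZ0 : 0 < Z := by linarith only [hZ]
  have hZ1 : 1 ≤ Z := by linarith only [hZ]
  have ht : 203 ≤ t := by nlinarith
  let lc : ℕ → ℕ → ℝ := fun a b => if (a : ℝ) * b ≤ Z ^ c then lam a b else 0
  let ls : ℕ → ℕ → ℝ := fun a b => if (a : ℝ) * b ≤ Z ^ c then 0 else lam a b
  have split : ∀ a b, lam a b = lc a b + ls a b := fun a b => by
    simp only [lc, ls]; split_ifs <;> simp
  have lc1 : ∀ a b, lc a b ≠ 0 → lam a b ≠ 0 ∧ (a : ℝ) * b ≤ Z ^ c := fun a b h => by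
    simp only [lc] at h
    split_ifs at h with h'
    exacts [⟨h, h'⟩, absurd rfl h]
  have ls1 : ∀ a b, ls a b ≠ 0 → lam a b ≠ 0 ∧ ¬ (a : ℝ) * b ≤ Z ^ c := fun a b h => by
    simp only [ls] at h
    split_ifs at h with h'
    exacts [absurd rfl h, ⟨h, h'⟩]
  have lc2 : ∀ a b, |lc a b| ≤ Λ := fun a b => by
    simp only [lc]; split_ifs
    exacts [hΛ a b, by simpa using hΛ0.le]
  have ls2 : ∀ a b, |ls a b| ≤ Λ := fun a b => by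
    simp only [ls]; split_ifs
    exacts [by simpa using hΛ0.le, hΛ a b]
  have hcR : Z ^ c ≤ Z ^ (H + 200) := pow_le_pow_right₀ hZ1 (by omega)
  have lamR : ∀ a b, lam a b ≠ 0 → (a : ℝ) * b ≤ Z ^ (H + 200) := fun a b h =>
    (hs a b h).2.2.2.elim (fun h => h.trans hcR) fun h => h.1
  have hRN : Z ^ (H + 200) ≤ N := hN ▸ pow_le_pow_right₀ hZ1 (by omega)
  have triv : ∀ d1 d2 e1 e2, d2 ∈ Icc 1 N → e2 ∈ Icc 1 N → lam d1 d2 ≠ 0 → lam e1 e2 ≠ 0 →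
      |errT G a W 𝒜 b0 Y d1 d2 e1 e2| ≤ 2 * (W * D ^ K) := by
    clear * - N lam Ps Z c H u v G a W 𝒜 b0 Y D K hs haW hPW ha hW hA hK hD n t e' hD1
    intro d1 d2 e1 e2 hd2 he2 hd he
    obtain ⟨sd1, sd2, pd, -⟩ := hs _ _ hd
    obtain ⟨se1, se2, pe, -⟩ := hs _ _ he
    rw [mem_Icc] at hd2 he2
    unfold errT
    split_ifs with hc
    swap
    · rw [abs_zero]; positivity
    have sb := squarefree_lcm sd2 se2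
    have hb0 := Nat.pos_of_ne_zero sb.ne_zero
    have pb : ∀ p, p.Prime → p ∣ Nat.lcm d2 e2 → p ∈ Ps := fun p hp h => by
      rcases (Nat.Prime.dvd_lcm hp).mp h with h | h
      exacts [pd p hp (h.mul_left _), pe p hp (h.mul_left _)]
    have hc' := (coprime_mod_iff haW hPW (fun p hp h => pd p hp (h.mul_right _))
      (fun p hp h => pe p hp (h.mul_right _))).mp hc
    have : NeZero (a * (W * Nat.lcm d2 e2)) := ⟨(Nat.mul_pos ha (Nat.mul_pos hW hb0)).ne'⟩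
    refine (abs_sum_le_sum_abs _ _).trans ((sum_le_card_nsmul _ _ 2 fun ν _ =>
      abs_remU_le Y _ (Nat.lcm_pos (Nat.pos_of_ne_zero sd1.ne_zero)
        (Nat.pos_of_ne_zero se1.ne_zero))
        ((Nat.Coprime.mul_left hc'.1 hc'.2).coprime_dvd_left (Nat.lcm_dvd_mul _ _)) _).trans ?_)
    rw [nsmul_eq_mul, mul_comm]
    refine mul_le_mul_of_nonneg_left (card_res_le G hA hW hPW hK sb pb (hD _ hb0 ?_)) zero_le_two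
    refine (Nat.le_of_dvd (Nat.mul_pos hd2.1 he2.1) (Nat.lcm_dvd_mul _ _)).trans
      (Nat.mul_le_mul hd2.2 (he2.2.trans ?_))
    calc N ≤ N ^ (2 * (n + 1)) := Nat.le_self_pow (by omega) _
      _ ≤ _ := Nat.le_mul_of_pos_left _ (by omega)
  have hC0 : 0 ≤ 2 * (W * D ^ K) := by positivity
  have q1 := quad_triv lc lam (errT G a W 𝒜 b0 Y) N lc2 hΛ (pow_pos hZ0 c).le
    (pow_pos hZ0 (H + 200)).le (fun a b h => (lc1 a b h).2) lamR hC0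
    (fun d1 d2 e1 e2 a b c d => triv d1 d2 e1 e2 a b (lc1 _ _ c).1 d)
  have q2 := quad_triv ls lc (errT G a W 𝒜 b0 Y) N ls2 lc2 (pow_pos hZ0 (H + 200)).le
    (pow_pos hZ0 c).le (fun a b h => lamR a b (ls1 a b h).1) (fun a b h => (lc1 a b h).2) hC0
    (fun d1 d2 e1 e2 a b c d => triv d1 d2 e1 e2 a b (ls1 _ _ c).1 (lc1 _ _ d).1)
  have hZ7 : 1 ≤ Z ^ 7 := one_le_pow₀ hZ1
  have hi7 : 0 < (Z ^ 7)⁻¹ := by positivity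
  have hi7' : (Z ^ 7)⁻¹ ≤ 1 := inv_le_one_of_one_le₀ hZ7
  have hQN : 4 * (a : ℝ) * W * (Z ^ v) ^ 2 ≤ N := by
    clear * - a W Z v N hZ haZ ha hWZ hW H hZ1 n c u t e' h1 h2 h3 h6 hN
    calc 4 * (a : ℝ) * W * (Z ^ v) ^ 2 ≤ Z * Z * Z * (Z ^ v) ^ 2 := by gcongr
      _ = Z ^ (2 * v + 3) := by ring
      _ ≤ _ := hN ▸ pow_le_pow_right₀ hZ1 (by omega)
  have q3 := shell_le G a W N Y n (⌈Z ^ 7⌉₊ * (Nat.log 2 N + 1)) N K 𝒜 Ps b0 ha hW hA haW hPW hAc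
    hcr hK (V := Z ^ t) (R := Z ^ (H + 200)) (U := Z ^ v) (Λ := Λ) (ρ := 1 + (Z ^ 7)⁻¹)
    (σ := (Z ^ 422)⁻¹) (D := D) (L := L) ls ?_ ls2 hΛ0 (pow_pos hZ0 t) (pow_pos hZ0 _).le le_rfl
    hRN hQN ?_ (by positivity) ?_ (by linarith only [hi7]) ?_ (by linarith only [hD1]) hD hL hL'
  rotate_left
  · intro x y h
    obtain ⟨g1, g2⟩ := ls1 x y h
    obtain ⟨s1, s2, s3, s4⟩ := hs x y g1
    obtain ⟨s4, s5, s6⟩ := s4.resolve_left g2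
    refine ⟨s1, s2, s3, s4, ?_, s6⟩
    by_contra h'
    refine g2 ((mul_le_mul s5 (not_lt.mp h') (Nat.cast_nonneg _) (pow_pos hZ0 u).le).trans ?_)
    rw [← pow_add, h2]
  · refine hQN.trans ?_
    have a1 : Z ^ (H + 200) / Z ^ v = Z ^ 200 * Z ^ e' := by
      rw [← h3]; field_simp; ring
    have a2 : Z ^ e' ≤ (⌊Z ^ (H + 200) / Z ^ v⌋₊ : ℝ) := by
      clear * - Z H v e' hZ1 hZ a1
      have b1 := Nat.lt_floor_add_one (Z ^ (H + 200) / Z ^ v)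
      have b2 : 1 ≤ Z ^ e' := one_le_pow₀ hZ1
      have b3 : Z ≤ Z ^ 200 := le_self_pow₀ hZ1 (by norm_num)
      have b4 : 4 * Z ^ e' ≤ Z ^ 200 * Z ^ e' := by gcongr; linarith only [hZ, b3]
      rw [a1] at b1 ⊢
      linarith only [b1, b2, b4]
    calc (N : ℝ) ≤ (Z ^ e') ^ (n + 1) := by
          rw [hN, ← pow_mul]; exact pow_le_pow_right₀ hZ1 h4
      _ ≤ _ := pow_le_pow_left₀ (pow_pos hZ0 _).le a2 _
  · rw [inv_pow, ← pow_mul, ← pow_mul, ← div_eq_mul_inv, le_div_iff₀ (pow_pos hZ0 _), one_mul]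
    exact pow_le_pow_right₀ hZ1 (by omega)
  · have a1 : (2 : ℝ) ≤ (1 + (Z ^ 7)⁻¹) ^ ⌈Z ^ 7⌉₊ := by
      clear * - Z hi7 hZ
      refine le_trans ?_ (one_add_mul_le_pow (by linarith) _)
      have : Z ^ 7 * (Z ^ 7)⁻¹ ≤ (⌈Z ^ 7⌉₊ : ℝ) * (Z ^ 7)⁻¹ :=
        mul_le_mul_of_nonneg_right (Nat.le_ceil _) hi7.le
      rw [mul_inv_cancel₀ (by positivity)] at this
      linarith only [this]
    have a2 : (N : ℝ) < 2 ^ (Nat.log 2 N + 1) := by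
      exact_mod_cast Nat.lt_pow_succ_log_self one_lt_two N
    rw [pow_mul]
    exact (hRN.trans_lt a2).trans_le (pow_le_pow_left₀ zero_le_two a1 _)
  have hN0 : (0 : ℝ) < N := hN ▸ pow_pos hZ0 _
  have q3' := q3.trans (shell_num K (n + 1) H t hZ hN (Nat.cast_nonneg _) hWZ (Nat.cast_nonneg _)
    haZ hΛ0.le hΛZ hD1 hDZ hL1 hLZ (Nat.cast_nonneg _) hY (Nat.cast_nonneg _) ?_ ?_
    (by omega) ht)
  rotate_left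
  · have a1 : (⌈Z ^ 7⌉₊ : ℝ) ≤ 2 * Z ^ 7 := by
      clear * - Z hZ7
      have := Nat.ceil_lt_add_one (show 0 ≤ Z ^ 7 by linarith)
      linarith
    rw [Nat.cast_mul]
    exact mul_le_mul a1 hL' (Nat.cast_nonneg _) (by clear * - Z hZ7 a1 hL'; linarith)
  · rw [div_eq_mul_inv]; nlinarith only [hi7, hi7']
  have q4 : Λ * Z ^ c * HH N * (Λ * Z ^ (H + 200) * HH N) * (2 * (W * D ^ K)) ≤ N / Z := by
    clear * - D K Z n hD1 a W H c u t v e' hDZ L hZ hLZ hL1 N Λ hL hΛ0 hW hΛZ hWZ hN h1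
    have a1 : D ^ K ≤ Z := (pow_le_pow_right₀ hD1 (by omega)).trans hDZ
    have a2 : 2 * L ^ 2 ≤ Z := by
      nlinarith only [hZ, hLZ, hL1, pow_le_pow_right₀ hL1 (show 2 ≤ 6 by norm_num), pow_nonneg (show 0 ≤ L by linarith only [hL1]) 2]
    have a3 := HH_nonneg N
    have a4 : 0 ≤ L := by linarith
    calc _ ≤ Λ * Z ^ c * L * (Λ * Z ^ (H + 200) * L) * (2 * (W * D ^ K)) := by gcongr
      _ = (2 * L ^ 2) * Λ * Λ * W * D ^ K * (Z ^ c * Z ^ (H + 200)) := by ring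
      _ ≤ Z * Z * Z * Z * Z * (Z ^ c * Z ^ (H + 200)) := by gcongr
      _ = _ := by rw [hN, ← h1]; field_simp; ring
  have e : ∑ d1 ∈ Icc 1 N, ∑ d2 ∈ Icc 1 N, ∑ e1 ∈ Icc 1 N, ∑ e2 ∈ Icc 1 N,
        lam d1 d2 * lam e1 e2 * errT G a W 𝒜 b0 Y d1 d2 e1 e2
      = ∑ d1 ∈ Icc 1 N, ∑ d2 ∈ Icc 1 N, ∑ e1 ∈ Icc 1 N, ∑ e2 ∈ Icc 1 N,
          lc d1 d2 * lam e1 e2 * errT G a W 𝒜 b0 Y d1 d2 e1 e2
        + ∑ d1 ∈ Icc 1 N, ∑ d2 ∈ Icc 1 N, ∑ e1 ∈ Icc 1 N, ∑ e2 ∈ Icc 1 N,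
          ls d1 d2 * lc e1 e2 * errT G a W 𝒜 b0 Y d1 d2 e1 e2
        + ∑ d1 ∈ Icc 1 N, ∑ d2 ∈ Icc 1 N, ∑ e1 ∈ Icc 1 N, ∑ e2 ∈ Icc 1 N,
          ls d1 d2 * ls e1 e2 * errT G a W 𝒜 b0 Y d1 d2 e1 e2 := by
    simp only [← sum_add_distrib]
    refine sum_congr rfl fun d1 _ => sum_congr rfl fun d2 _ => sum_congr rfl fun e1 _ =>
      sum_congr rfl fun e2 _ => ?_
    rw [split d1 d2, split e1 e2]; ring
  rw [e]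
  have q2' : Λ * Z ^ (H + 200) * HH N * (Λ * Z ^ c * HH N) * (2 * (W * D ^ K)) ≤ N / Z := by
    rw [mul_comm (Λ * Z ^ (H + 200) * HH N)]; exact q4
  refine (abs_add_three _ _ _).trans ?_
  clear * - N lc lam G a W 𝒜 b0 Y ls Z Λ c H D K q1 q2 q3' q4 q2'
  linarith only [q1, q2, q3', q4, q1.trans q4, q2.trans q2']

end Pool.Agent.Work.MP_51e72e_nt
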