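import Pool.Agent.Work.MP_51e72e_nt.SysMain

/-!
Removal of the sign condition on the leading coefficients.
-/

set_option autoImplicit false

namespace Pool.Agent.Work.MP_51e72e_nt.Sys

open Finset Filter Topology Polynomial

/-- the upper bound with the saving `δ` -/
def Bound (F : Finset ℤ[X]) (δ C : ℝ) : Prop :=
  open Classical in ∀ ε : ℝ, 0 < ε → ∀ᶠ N : ℕ in atTop,
    (((Icc 1 N).filter (fun n : ℕ => ∀ f ∈ F, (f.eval (n : ℤ)).natAbs.Prime)).card : ℝ) *
        (∏ f ∈ F, Real.log |((f.eval (N : ℤ) : ℤ) : ℝ)|) / (N : ℝ)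
      ≤ (1 - δ) * (2 ^ F.card * F.card.factorial * ∏ f ∈ F, (f.natDegree : ℝ)) * C + ε

theorem sys_all (D : ℕ) (hD : 2 ≤ D) : ∃ δ : ℝ, 0 < δ ∧
    ∀ F : Finset ℤ[X], (∀ f ∈ F, Irreducible f ∧ 0 < f.natDegree ∧ -f ∉ F) →
    ∑ f ∈ F, f.natDegree = D → ∃ C : ℝ,
    Tendsto (fun y : ℕ => ∏ p ∈ (range (y + 1)).filter Nat.Prime,
        (1 - (omegaF F p : ℝ) / (p : ℝ)) / (1 - 1 / (p : ℝ)) ^ F.card) atTop (𝓝 C) ∧
      Bound F δ C ∧ (2 ≤ F.card → (∃ f ∈ F, f.natDegree = 1) →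
        Bound F (1 / (10000 * (F.card : ℝ))) C) := by
  classical
  obtain ⟨δ, δ0, h⟩ := sys_upper D hD
  refine ⟨δ, δ0, fun F hF hD' => ?_⟩
  obtain ⟨σ, hσ, h1⟩ : ∃ σ : ℤ[X] → ℤ[X], (∀ f, σ f = f ∨ σ f = -f) ∧
      ∀ f, f ≠ 0 → 0 < (σ f).leadingCoeff := by
    refine ⟨fun f => if 0 < f.leadingCoeff then f else -f, fun f => ?_, fun f hf => ?_⟩
    · dsimp only
      split_ifs <;> simp
    · dsimp only
      split_ifs with k
      · exact k
      · rw [leadingCoeff_neg, neg_pos]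
        exact lt_of_le_of_ne (not_lt.1 k) (leadingCoeff_ne_zero.2 hf)
  have hi : Set.InjOn σ F := fun f hf g hg e => by
    rcases hσ f with a | a <;> rcases hσ g with b | b <;> rw [a, b] at e
    · exact e
    · exact absurd (e ▸ hf) (hF g hg).2.2
    · exact absurd (e ▸ hg) (hF f hf).2.2
    · exact neg_injective e
  have e1 : ∀ f, (σ f).natDegree = f.natDegree := fun f => by
    rcases hσ f with a | a <;> simp [a]
  have e2 : ∀ f (n : ℤ), ((σ f).eval n).natAbs = (f.eval n).natAbs := fun f n => by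
    rcases hσ f with a | a <;> simp [a]
  have e3 : ∀ f (n : ℤ), |(((σ f).eval n : ℤ) : ℝ)| = |((f.eval n : ℤ) : ℝ)| := fun f n => by
    rcases hσ f with a | a <;> simp [a]
  have hF' : ∀ f ∈ F.image σ, Irreducible f ∧ 0 < f.natDegree ∧ 0 < f.leadingCoeff := by
    simp only [forall_mem_image]
    refine fun f hf => ⟨?_, e1 f ▸ (hF f hf).2.1, h1 f (hF f hf).1.ne_zero⟩
    rcases hσ f with a | a <;> rw [a]
    exacts [(hF f hf).1, (Associated.refl f).neg_right.irreducible (hF f hf).1]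
  have e4 : (F.image σ).card = F.card := card_image_of_injOn hi
  have e5 : ∀ p, omegaF (F.image σ) p = omegaF F p := fun p => by
    refine congrArg _ (filter_congr fun n _ => ?_)
    rw [prod_image hi, Int.natCast_dvd, Int.natCast_dvd, ← Int.natAbsHom_apply,
      ← Int.natAbsHom_apply, map_prod, map_prod]
    simp only [Int.natAbsHom_apply, e2]
  have e6 : ∀ δ C, Bound (F.image σ) δ C → Bound F δ C := fun δ C k ε hε => by
    simpa only [forall_mem_image, prod_image hi, e1, e2, e3, e4] using k ε hε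
  obtain ⟨C, hC, -⟩ := tendsto_prod_omegaF _ hF'
  refine ⟨C, by simpa only [e4, e5] using hC, e6 _ _ fun ε hε => ?_,
    fun k1 ⟨f, hf, k2⟩ => e6 _ _ fun ε hε => ?_⟩
  · convert h _ hF' (by rw [sum_image hi]; simpa only [e1] using hD') C hC ε hε
  · rw [← e4] at k1 ⊢
    convert bh_upper _ hF' k1 ⟨σ f, mem_image_of_mem _ hf, (e1 f).trans k2⟩ hC hε

end Pool.Agent.Work.MP_51e72e_nt.Sys
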