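import Pool.Agent.Work.MP_51e72e_nt.Final

/-!
Asymptotics of the Selberg sum of a system of polynomials.
-/

set_option autoImplicit false

namespace Pool.Agent.Work.MP_51e72e_nt.Sys

open Finset Filter Topology Polynomial Pool.Agent.Lib.ANT

namespace Kar

open MeasureTheory

/-- The functional attached to the Gamma distribution. -/
noncomputable def Lam (n : ℕ) (φ : ℝ → ℝ) : ℝ :=
  ∫ t in Set.Ioi (0 : ℝ), t ^ n * (Real.exp (-t) * φ (Real.exp (-t)))

lemma exp_mem' {t : ℝ} (ht : t ∈ Set.Ioi (0 : ℝ)) : Real.exp (-t) ∈ Set.Icc (0 : ℝ) 1 :=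
  ⟨(Real.exp_pos _).le, Real.exp_le_one_iff.mpr (neg_nonpos.mpr (le_of_lt ht))⟩

lemma integrable {n : ℕ} {φ : ℝ → ℝ} (hφ : Continuous φ) :
    IntegrableOn (fun t : ℝ => t ^ n * (Real.exp (-t) * φ (Real.exp (-t)))) (Set.Ioi 0) := by
  obtain ⟨B, hB⟩ := isCompact_Icc.exists_bound_of_continuousOn
    (hφ.continuousOn (s := Set.Icc (0 : ℝ) 1))
  have h := Real.GammaIntegral_convergent (s := (n : ℝ) + 1) (by positivity)
  simp only [add_sub_cancel_right, Real.rpow_natCast] at h
  refine Integrable.mono' (h.mul_const B) (Continuous.aestronglyMeasurable (by fun_prop)) ?_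
  filter_upwards [ae_restrict_mem measurableSet_Ioi] with t ht
  have h0 : 0 < t := ht
  rw [norm_mul, norm_mul, Real.norm_of_nonneg (by positivity), Real.norm_of_nonneg (by positivity),
    ← mul_assoc, mul_comm (t ^ n)]
  exact mul_le_mul_of_nonneg_left (hB _ (exp_mem' ht)) (by positivity)

lemma Lam_mono {n : ℕ} {φ ψ : ℝ → ℝ} (hφ : Continuous φ) (hψ : Continuous ψ)
    (h : ∀ x ∈ Set.Icc (0 : ℝ) 1, φ x ≤ ψ x) : Lam n φ ≤ Lam n ψ := by
  refine setIntegral_mono_on (integrable hφ) (integrable hψ) measurableSet_Ioi fun t ht => ?_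
  have h0 : 0 < t := ht
  have := h _ (exp_mem' ht)
  gcongr

lemma Lam_add {n : ℕ} {φ ψ : ℝ → ℝ} (hφ : Continuous φ) (hψ : Continuous ψ) :
    Lam n (fun x => φ x + ψ x) = Lam n φ + Lam n ψ := by
  simp only [Lam, mul_add]
  exact integral_add (integrable hφ) (integrable hψ)

lemma Lam_monomial (n j : ℕ) (a : ℝ) :
    Lam n (fun x => a * x ^ j) = a * (n.factorial / ((j : ℝ) + 1) ^ (n + 1)) := by
  have h := Real.integral_rpow_mul_exp_neg_mul_Ioi (a := (n : ℝ) + 1) (r := (j : ℝ) + 1)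
    (by positivity) (by positivity)
  rw [Real.Gamma_nat_eq_factorial, ← Nat.cast_succ n, Real.rpow_natCast, one_div, inv_pow,
    ← div_eq_inv_mul] at h
  rw [← h, ← integral_const_mul]
  refine setIntegral_congr_fun measurableSet_Ioi fun t _ => ?_
  have : Real.exp (-(((j : ℝ) + 1) * t)) = Real.exp (-t) ^ (j + 1) := by
    rw [← Real.exp_nat_mul]; congr 1; push_cast; ring
  simp only [this, Nat.cast_succ, add_sub_cancel_right, Real.rpow_natCast]
  ring

lemma Lam_add_const {n : ℕ} {φ : ℝ → ℝ} (hφ : Continuous φ) (a : ℝ) :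
    Lam n (fun x => φ x + a) = Lam n φ + a * n.factorial := by
  have := Lam_monomial n 0 a
  simp only [pow_zero, mul_one, Nat.cast_zero, zero_add, one_pow, div_one] at this
  rw [Lam_add hφ continuous_const, this]

lemma integral_pow' (n : ℕ) {s : ℝ} (hs : 0 ≤ s) :
    ∫ t in Set.Ioc 0 s, t ^ n = s ^ (n + 1) / (n + 1) := by
  rw [← intervalIntegral.integral_of_le hs, integral_pow]
  simp

lemma Lam_ramp_ge (n : ℕ) {a s : ℝ} (ha : 0 < a) (hab : a < Real.exp (-s)) (hs : 0 ≤ s) :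
    s ^ (n + 1) / (n + 1) ≤ Lam n (ramp a (Real.exp (-s))) := by
  rw [← integral_pow' n hs]
  refine le_trans (le_of_eq ?_) (setIntegral_mono_set (integrable (continuous_ramp ha)) ?_
    (Set.Ioc_subset_Ioi_self (a := s)).eventuallyLE)
  · refine setIntegral_congr_fun measurableSet_Ioc fun t ht => ?_
    rw [ramp_of_ge hab (Real.exp_le_exp.mpr (neg_le_neg ht.2)),
      mul_inv_cancel₀ (Real.exp_pos _).ne', mul_one]
  · filter_upwards [ae_restrict_mem measurableSet_Ioi] with t ht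
    have h0 : 0 < t := ht
    have := ramp_nonneg (b := Real.exp (-s)) ha (Real.exp (-t))
    change 0 ≤ _ * _
    positivity

lemma Lam_ramp_le (n : ℕ) {b s : ℝ} (hab : Real.exp (-s) < b) (hs : 0 ≤ s) :
    Lam n (ramp (Real.exp (-s)) b) ≤ s ^ (n + 1) / (n + 1) := by
  have hc := continuous_ramp (b := b) (Real.exp_pos (-s))
  rw [← integral_pow' n hs, Lam, setIntegral_eq_of_subset_of_forall_sdiff_eq_zero
    measurableSet_Ioi (Set.Ioc_subset_Ioi_self (a := s))]
  · refine setIntegral_mono_on ((integrable hc).mono_set Set.Ioc_subset_Ioi_self)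
      ((continuous_pow n).integrableOn_Icc.mono_set Set.Ioc_subset_Icc_self) measurableSet_Ioc
      fun t ht => ?_
    refine mul_le_of_le_one_right (pow_nonneg ht.1.le _) ?_
    refine (mul_le_mul_of_nonneg_left (ramp_le_inv (Real.exp_pos _)) (Real.exp_pos _).le).trans ?_
    rw [mul_inv_cancel₀ (Real.exp_pos _).ne']
  · intro t ht
    have h : s < t := by
      by_contra h
      exact ht.2 ⟨ht.1, not_lt.mp h⟩
    rw [ramp_of_le hab (Real.exp_le_exp.mpr (neg_le_neg h.le)), mul_zero, mul_zero]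

lemma tendsto_poly {ι : Type*} {b t : ι → ℝ} {c : ℝ} {n : ℕ} (hb : ∀ i, 0 ≤ b i)
    (ht : ∀ i, 0 ≤ t i) (hs : ∀ ε, 0 < ε → Summable fun i => b i * Real.exp (-(ε * t i)))
    (hc : Tendsto (fun ε : ℝ => ε ^ (n + 1) * ∑' i, b i * Real.exp (-(ε * t i))) (𝓝[>] 0) (𝓝 c))
    (P : Polynomial ℝ) :
    Tendsto (fun ε : ℝ => ε ^ (n + 1) *
      ∑' i, b i * (Real.exp (-(ε * t i)) * P.eval (Real.exp (-(ε * t i)))))
      (𝓝[>] 0) (𝓝 (c / n.factorial * Lam n fun x => P.eval x)) := by
  induction P using Polynomial.induction_on' with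
  | add P Q hP hQ =>
    have := hP.add hQ
    simp only [Polynomial.eval_add]
    rw [Lam_add P.continuous Q.continuous, mul_add]
    refine this.congr' ?_
    filter_upwards [self_mem_nhdsWithin] with ε hε
    obtain ⟨B, hB⟩ := poly_bound P
    obtain ⟨B', hB'⟩ := poly_bound Q
    rw [← mul_add, ← Summable.tsum_add (summable_kar hb hs hε fun i => hB _ (exp_mem ht hε i))
      (summable_kar hb hs hε fun i => hB' _ (exp_mem ht hε i))]
    congr 1
    exact tsum_congr fun i => by ring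
  | monomial j a =>
    have h1 := (hc.comp (tendsto_mul_nhdsGT (a := (j : ℝ) + 1) (by positivity))).const_mul
      (a / (j + 1) ^ (n + 1))
    simp only [Polynomial.eval_monomial]
    rw [Lam_monomial]
    convert h1 using 2 with ε
    · simp only [Function.comp]
      have : ∀ i, b i * (Real.exp (-(ε * t i)) * (a * Real.exp (-(ε * t i)) ^ j)) =
          a * (b i * Real.exp (-(((j : ℝ) + 1) * ε * t i))) := by
        intro i
        have : Real.exp (-(((j : ℝ) + 1) * ε * t i)) = Real.exp (-(ε * t i)) ^ (j + 1) := by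
          rw [← Real.exp_nat_mul]; congr 1; push_cast; ring
        rw [this]; ring
      simp only [this, tsum_mul_left, mul_pow]
      field_simp
    · field_simp

end Kar

/-- Karamata's theorem of index `k` -/
theorem karamata_pow {ι : Type*} {b t : ι → ℝ} {c : ℝ} {k : ℕ} (hk : 1 ≤ k) (hb : ∀ i, 0 ≤ b i)
    (ht : ∀ i, 0 ≤ t i) (hs : ∀ ε, 0 < ε → Summable fun i => b i * Real.exp (-(ε * t i)))
    (hc : Tendsto (fun ε : ℝ => ε ^ k * ∑' i, b i * Real.exp (-(ε * t i))) (𝓝[>] 0) (𝓝 c)) :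
    Tendsto (fun u : ℝ => (∑' i, if t i ≤ u then b i else 0) / u ^ k) atTop
      (𝓝 (c / k.factorial)) := by
  obtain ⟨n, rfl⟩ : ∃ n, k = n + 1 := ⟨k - 1, by omega⟩
  have hc0 : 0 ≤ c := ge_of_tendsto hc (by
    filter_upwards [self_mem_nhdsWithin] with ε hε
    exact mul_nonneg (pow_nonneg (le_of_lt hε) _)
      (tsum_nonneg fun i => mul_nonneg (hb i) (Real.exp_pos _).le))
  have hcn : 0 ≤ c / n.factorial := by positivity
  have hval : c / n.factorial * (1 / (n + 1)) = c / (n + 1).factorial := by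
    rw [Nat.factorial_succ]; push_cast; field_simp
  rw [Metric.tendsto_nhds]
  intro η hη
  obtain ⟨δ, hδ0, hδ1, hδ2, hδ3⟩ : ∃ δ : ℝ, 0 < δ ∧ δ < 1 ∧
      c / (n + 1).factorial - η <
        c / n.factorial * ((1 - δ) ^ (n + 1) / (n + 1) + -(2 * δ) * n.factorial) ∧
      c / n.factorial * ((1 + δ) ^ (n + 1) / (n + 1) + 2 * δ * n.factorial) <
        c / (n + 1).factorial + η := by
    have a1 : Continuous fun δ : ℝ =>
      c / n.factorial * ((1 - δ) ^ (n + 1) / (n + 1) + -(2 * δ) * n.factorial) := by fun_prop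
    have a2 : Continuous fun δ : ℝ =>
      c / n.factorial * ((1 + δ) ^ (n + 1) / (n + 1) + 2 * δ * n.factorial) := by fun_prop
    have b1 := (a1.tendsto 0).eventually (lt_mem_nhds (a := c / (n + 1).factorial - η) (by
      rw [← hval]; simp [hη]))
    have b2 := (a2.tendsto 0).eventually (gt_mem_nhds (a := c / (n + 1).factorial + η) (by
      rw [← hval]; simp [hη]))
    obtain ⟨δ, ⟨x1, x2, x3⟩, x4⟩ := (((b1.and (b2.and (gt_mem_nhds one_pos))).filter_mono
      (nhdsWithin_le_nhds (s := Set.Ioi 0))).and self_mem_nhdsWithin).exists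
    exact ⟨δ, x4, x3, x1, x2⟩
  have e1 : Real.exp (-1) < Real.exp (-(1 - δ)) := Real.exp_lt_exp.mpr (by linarith)
  have e2 : Real.exp (-(1 + δ)) < Real.exp (-1) := Real.exp_lt_exp.mpr (by linarith)
  have c1 := continuous_ramp (b := Real.exp (-(1 - δ))) (Real.exp_pos (-1))
  have c2 := continuous_ramp (b := Real.exp (-1)) (Real.exp_pos (-(1 + δ)))
  obtain ⟨P, hP⟩ := exists_polynomial_near_of_continuousOn 0 1 _ c1.continuousOn δ hδ0
  obtain ⟨Q, hQ⟩ := exists_polynomial_near_of_continuousOn 0 1 _ c2.continuousOn δ hδ0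
  have hPi : (1 - δ) ^ (n + 1) / (n + 1) + -(2 * δ) * n.factorial ≤
      Kar.Lam n fun x => (P - Polynomial.C δ).eval x := by
    refine le_trans ?_ (Kar.Lam_mono (c1.add_const (-(2 * δ)))
      (P - Polynomial.C δ).continuous fun x hx => ?_)
    · have := Kar.Lam_ramp_ge n (Real.exp_pos (-1)) e1 (by linarith)
      have e := Kar.Lam_add_const (n := n) c1 (-(2 * δ))
      linarith
    · have := abs_lt.mp (hP x hx)
      rw [Polynomial.eval_sub, Polynomial.eval_C]
      linarith [this.1]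
  have hQi : (Kar.Lam n fun x => (Q + Polynomial.C δ).eval x) ≤
      (1 + δ) ^ (n + 1) / (n + 1) + 2 * δ * n.factorial := by
    refine le_trans (Kar.Lam_mono (Q + Polynomial.C δ).continuous
      (c2.add_const (2 * δ)) fun x hx => ?_) ?_
    · have := abs_lt.mp (hQ x hx)
      rw [Polynomial.eval_add, Polynomial.eval_C]
      linarith [this.2]
    · have := Kar.Lam_ramp_le n e2 (by linarith)
      have e := Kar.Lam_add_const (n := n) c2 (2 * δ)
      linarith
  have t1 := (Kar.tendsto_poly hb ht hs hc (P - Polynomial.C δ)).comp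
    tendsto_inv_atTop_nhdsGT_zero
  have t2 := (Kar.tendsto_poly hb ht hs hc (Q + Polynomial.C δ)).comp
    tendsto_inv_atTop_nhdsGT_zero
  have l1 := hδ2.trans_le (mul_le_mul_of_nonneg_left hPi hcn)
  have l2 := (mul_le_mul_of_nonneg_left hQi hcn).trans_lt hδ3
  filter_upwards [t1.eventually (lt_mem_nhds l1), t2.eventually (gt_mem_nhds l2),
    eventually_gt_atTop 0] with u h1 h2 hu
  simp only [Function.comp] at h1 h2
  have hε : 0 < u⁻¹ := inv_pos.mpr hu
  obtain ⟨B, hB⟩ := poly_bound (P - Polynomial.C δ)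
  obtain ⟨B', hB'⟩ := poly_bound (Q + Polynomial.C δ)
  have s1 := summable_kar hb hs hε fun i => hB _ (exp_mem ht hε i)
  have s2 := summable_kar hb hs hε fun i => hB' _ (exp_mem ht hε i)
  have hiff : ∀ i, t i ≤ u ↔ Real.exp (-1) ≤ Real.exp (-(u⁻¹ * t i)) := by
    intro i
    rw [Real.exp_le_exp, neg_le_neg_iff, inv_mul_le_iff₀ hu, mul_one]
  have p1 : ∀ i, b i * (Real.exp (-(u⁻¹ * t i)) *
      (P - Polynomial.C δ).eval (Real.exp (-(u⁻¹ * t i)))) ≤ if t i ≤ u then b i else 0 := by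
    intro i
    have hx := exp_mem ht hε i
    have hx0 := Real.exp_pos (-(u⁻¹ * t i))
    have := abs_lt.mp (hP _ hx)
    have h3 : (P - Polynomial.C δ).eval (Real.exp (-(u⁻¹ * t i))) ≤
        ramp (Real.exp (-1)) (Real.exp (-(1 - δ))) (Real.exp (-(u⁻¹ * t i))) := by
      rw [Polynomial.eval_sub, Polynomial.eval_C]; linarith [this.2]
    have hbi := hb i
    split_ifs with h
    · calc _ ≤ b i * (Real.exp (-(u⁻¹ * t i)) * (Real.exp (-(u⁻¹ * t i)))⁻¹) := by
            gcongr; exact h3.trans (ramp_le_inv hx0)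
        _ = _ := by rw [mul_inv_cancel₀ hx0.ne', mul_one]
    · rw [ramp_of_le e1 (by rw [hiff] at h; linarith)] at h3
      exact mul_nonpos_of_nonneg_of_nonpos hbi (mul_nonpos_of_nonneg_of_nonpos hx0.le h3)
  have p2 : ∀ i, (if t i ≤ u then b i else 0) ≤ b i * (Real.exp (-(u⁻¹ * t i)) *
      (Q + Polynomial.C δ).eval (Real.exp (-(u⁻¹ * t i)))) := by
    intro i
    have hx := exp_mem ht hε i
    have hx0 := Real.exp_pos (-(u⁻¹ * t i))
    have := abs_lt.mp (hQ _ hx)
    have h3 : ramp (Real.exp (-(1 + δ))) (Real.exp (-1)) (Real.exp (-(u⁻¹ * t i))) ≤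
        (Q + Polynomial.C δ).eval (Real.exp (-(u⁻¹ * t i))) := by
      rw [Polynomial.eval_add, Polynomial.eval_C]; linarith [this.1]
    have hbi := hb i
    split_ifs with h
    · rw [ramp_of_ge e2 ((hiff i).mp h)] at h3
      calc b i = b i * (Real.exp (-(u⁻¹ * t i)) * (Real.exp (-(u⁻¹ * t i)))⁻¹) := by
            rw [mul_inv_cancel₀ hx0.ne', mul_one]
        _ ≤ _ := by gcongr
    · exact mul_nonneg hbi (mul_nonneg hx0.le ((ramp_nonneg (Real.exp_pos _) _).trans h3))
  have s3 : Summable fun i => if t i ≤ u then b i else 0 :=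
    Summable.of_nonneg_of_le (fun i => by split_ifs; exacts [hb i, le_rfl]) p2 s2
  have q1 := mul_le_mul_of_nonneg_left (s1.tsum_le_tsum p1 s3) (pow_pos hε (n + 1)).le
  have q2 := mul_le_mul_of_nonneg_left (s3.tsum_le_tsum p2 s2) (pow_pos hε (n + 1)).le
  rw [Real.dist_eq, abs_lt, div_eq_inv_mul, ← inv_pow]
  constructor <;> linarith

theorem tendsto_selSum_pow {om : ℕ → ℕ} {d w k : ℕ} (hk : 1 ≤ k)
    (hom : ∀ p : ℕ, p.Prime → om p ≤ d) (hw : 2 * d ≤ w) {L : ℝ}
    (hL : Tendsto (fun ε : ℝ => ∑' n : ℕ, (om n * pw n) * (n : ℝ) ^ (-ε) + k * Real.log ε)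
      (𝓝[>] 0) (𝓝 L)) :
    ∃ c : ℝ, Tendsto (fun u : ℝ => selSum om w u / u ^ k) atTop (𝓝 c) := by
  have hbasic : ∀ p : ℕ, p.Prime → w < p → (0 : ℝ) < p ∧ (om p : ℝ) ≤ d ∧ 2 * (om p : ℝ) ≤ p := by
    intro p hp hwp
    have := hom p hp
    exact ⟨by exact_mod_cast hp.pos, by exact_mod_cast this,
      by exact_mod_cast (by omega : 2 * om p ≤ p)⟩
  have hg0 : ∀ p, 0 ≤ selW om w p := by
    intro p
    unfold selW
    split_ifs with h
    · obtain ⟨h1, h2, h3⟩ := hbasic p h.1 h.2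
      exact div_nonneg (Nat.cast_nonneg _) (by linarith)
    · exact le_rfl
  have hg1 : ∀ p, |selW om w p| ≤ 2 * d * pw p := by
    intro p
    rw [abs_of_nonneg (hg0 p)]
    unfold selW
    split_ifs with h
    · obtain ⟨h1, h2, h3⟩ := hbasic p h.1 h.2
      rw [pw, if_pos h.1, ← div_eq_mul_inv, div_le_div_iff₀ (by linarith) h1]
      have : (0 : ℝ) ≤ om p := Nat.cast_nonneg _
      nlinarith
    · have := pw_nonneg p
      positivity
  set r : ℝ → ℕ → ℝ := fun x p => Real.log (1 + selW om w p * x) -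
    (if w < p then om p * pw p * x else 0) with hr
  have hrb : ∀ x ∈ Set.Icc (0 : ℝ) 1, ∀ p, ‖r x p‖ ≤
      4 * (d : ℝ) ^ 2 * (if w < p then ((p : ℝ) ^ 2)⁻¹ else 0) := by
    intro x hx p
    rw [Real.norm_eq_abs]
    by_cases h : p.Prime ∧ w < p
    · obtain ⟨h1, h2, h3⟩ := hbasic p h.1 h.2
      have ho : (0 : ℝ) ≤ om p := Nat.cast_nonneg _
      have hh0 : 0 ≤ selW om w p * x := mul_nonneg (hg0 p) hx.1
      have hh1 : selW om w p * x ≤ 2 * d * (p : ℝ)⁻¹ := by
        have := hg1 p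
        rw [abs_of_nonneg (hg0 p), pw, if_pos h.1] at this
        calc _ ≤ selW om w p * 1 := mul_le_mul_of_nonneg_left hx.2 (hg0 p)
          _ ≤ _ := by rwa [mul_one]
      have hl1 := Real.log_le_sub_one_of_pos (show 0 < 1 + selW om w p * x by linarith)
      have hl2 := Real.one_sub_inv_le_log_of_pos (show 0 < 1 + selW om w p * x by linarith)
      have hl3 : (1 + selW om w p * x)⁻¹ ≤ 1 - selW om w p * x + (selW om w p * x) ^ 2 := by
        rw [inv_le_iff_one_le_mul₀ (by linarith)]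
        nlinarith [pow_nonneg hh0 3]
      have hsq : (selW om w p * x) ^ 2 ≤ 4 * (d : ℝ) ^ 2 * ((p : ℝ) ^ 2)⁻¹ := by
        calc _ ≤ (2 * d * (p : ℝ)⁻¹) ^ 2 := pow_le_pow_left₀ hh0 hh1 2
          _ = _ := by rw [mul_pow, mul_pow, inv_pow]; norm_num
      have hdiff : selW om w p - om p * (p : ℝ)⁻¹ = selW om w p * (om p * (p : ℝ)⁻¹) := by
        rw [selW, if_pos h]
        have : (p : ℝ) - om p ≠ 0 := by linarith
        field_simp
        ring
      have hd0 : 0 ≤ (selW om w p - om p * (p : ℝ)⁻¹) * x := by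
        rw [hdiff]; have := hg0 p; have := hx.1; positivity
      have hd1 : (selW om w p - om p * (p : ℝ)⁻¹) * x ≤ 4 * (d : ℝ) ^ 2 * ((p : ℝ) ^ 2)⁻¹ := by
        rw [hdiff]
        calc _ = (selW om w p * x) * (om p * (p : ℝ)⁻¹) := by ring
          _ ≤ (2 * d * (p : ℝ)⁻¹) * (2 * d * (p : ℝ)⁻¹) := by
              gcongr; linarith
          _ = _ := by rw [← inv_pow]; ring
      simp only [hr, if_pos h.2, pw, if_pos h.1]
      rw [abs_le]
      constructor <;> nlinarith
    · simp only [hr, selW, if_neg h, zero_mul, add_zero, Real.log_one, zero_sub, abs_neg]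
      split_ifs with h2
      · have : ¬ p.Prime := fun h3 => h ⟨h3, h2⟩
        simp only [pw, if_neg this, mul_zero, zero_mul, abs_zero]
        positivity
      · simp
  have hsb := (summable_sqTail w).mul_left (4 * (d : ℝ) ^ 2)
  refine ⟨Real.exp (L - ∑ n ∈ range (w + 1), om n * pw n + ∑' p, r 1 p) / k.factorial, ?_⟩
  have hprod : ∀ (ε : ℝ) (T : Finset ℕ), 0 < ε →
      (∏ p ∈ T, selW om w p) * Real.exp (-(ε * ∑ p ∈ T, Real.log p)) =
        ∏ p ∈ T, selW om w p * (p : ℝ) ^ (-ε) := by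
    intro ε T _
    rw [Finset.mul_sum, ← Finset.sum_neg_distrib, Real.exp_sum, ← Finset.prod_mul_distrib]
    refine Finset.prod_congr rfl fun p _ => ?_
    rcases Nat.eq_zero_or_pos p with rfl | hp
    · simp [selW, Nat.not_prime_zero]
    · rw [Real.rpow_def_of_pos (by exact_mod_cast hp)]
      congr 2; ring
  have hsum : ∀ ε : ℝ, 0 < ε → Summable fun p : ℕ => selW om w p * (p : ℝ) ^ (-ε) := by
    intro ε hε
    simpa using summable_of_le_pw hg1 hε (g := fun _ => 1) (B := 1) (by simp)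
  have hnn : ∀ (ε : ℝ) (p : ℕ), 0 ≤ selW om w p * (p : ℝ) ^ (-ε) := fun ε p =>
    mul_nonneg (hg0 p) (by positivity)
  refine karamata_pow (b := fun T : Finset ℕ => ∏ p ∈ T, selW om w p)
    (t := fun T => ∑ p ∈ T, Real.log p) hk (fun T => Finset.prod_nonneg fun p _ => hg0 p)
    (fun T => Finset.sum_nonneg fun p _ => Real.log_natCast_nonneg p) (fun ε hε => ?_) ?_
  · simp only [hprod ε _ hε]
    exact summable_finsetProd_of_summable_nonneg (hnn ε) (hsum ε hε)
  have h1 : Tendsto (fun ε : ℝ => ∑' p : ℕ, r ((p : ℝ) ^ (-ε)) p) (𝓝[>] 0) (𝓝 (∑' p, r 1 p)) := by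
    refine tendsto_tsum_of_dominated_convergence hsb (fun p => ?_) ?_
    · rcases Nat.eq_zero_or_pos p with rfl | hp
      · simp [hr, selW, Nat.not_prime_zero]
      have hp' : (p : ℝ) ≠ 0 := by positivity
      have h1 : Tendsto (fun ε : ℝ => -ε) (𝓝[>] 0) (𝓝 0) := by
        have : Tendsto (fun ε : ℝ => -ε) (𝓝 0) (𝓝 (-0)) := tendsto_id.neg
        rw [neg_zero] at this
        exact this.mono_left nhdsWithin_le_nhds
      have h2 := (Real.continuousAt_const_rpow hp').tendsto.comp h1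
      rw [Real.rpow_zero] at h2
      refine (((h2.const_mul _).const_add 1).log ?_).sub ?_
      · have := hg0 p
        positivity
      · split_ifs
        · exact h2.const_mul _
        · exact tendsto_const_nhds
    · filter_upwards [self_mem_nhdsWithin] with ε hε p
      exact hrb _ (rpow_neg_mem hε p) p
  refine (((hL.sub (tendsto_finite_abel (range (w + 1)) fun n => (om n : ℝ))).add h1).rexp).congr'
    ?_
  filter_upwards [self_mem_nhdsWithin] with ε hε
  have hε' : 0 < ε := hε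
  simp only [hprod ε _ hε']
  rw [← tprod_one_add (summable_finsetProd_of_summable_nonneg (hnn ε) (hsum ε hε')),
    ← Real.rexp_tsum_eq_tprod (fun p => by have := hnn ε p; positivity)
      (Real.summable_log_one_add_of_summable (hsum ε hε'))]
  rw [show ε ^ k = Real.exp (k * Real.log ε) by rw [Real.exp_nat_mul, Real.exp_log hε'],
    ← Real.exp_add]
  congr 1
  have s1 := summable_mul_pw (a := fun n => (om n : ℝ)) (D := d) (fun p hp => by
    rw [abs_of_nonneg (Nat.cast_nonneg _)]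
    exact_mod_cast hom p hp) hε'
  have s2 : HasSum (fun n : ℕ => if n ∈ range (w + 1) then om n * pw n * (n : ℝ) ^ (-ε) else 0)
      (∑ n ∈ range (w + 1), om n * pw n * (n : ℝ) ^ (-ε)) := by
    have : HasSum (fun n : ℕ => if n ∈ range (w + 1) then om n * pw n * (n : ℝ) ^ (-ε) else 0) _ :=
      hasSum_sum_of_ne_finset_zero (s := range (w + 1)) (fun n hn => if_neg hn)
    rwa [Finset.sum_congr rfl fun n hn => if_pos hn] at this
  have s3 : Summable fun p : ℕ => r ((p : ℝ) ^ (-ε)) p :=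
    Summable.of_norm_bounded hsb fun p => hrb _ (rpow_neg_mem hε' p) p
  have h4 := ((s1.hasSum.sub s2).add s3.hasSum).tsum_eq
  have h5 : ∑' p : ℕ, Real.log (1 + selW om w p * (p : ℝ) ^ (-ε)) =
      ∑' n : ℕ, ((om n * pw n * (n : ℝ) ^ (-ε) -
        if n ∈ range (w + 1) then om n * pw n * (n : ℝ) ^ (-ε) else 0) + r ((n : ℝ) ^ (-ε)) n) := by
    refine tsum_congr fun n => ?_
    simp only [hr, mem_range]
    by_cases h : w < n
    · rw [if_pos h, if_neg (by omega)]; ring
    · rw [if_neg h, if_pos (by omega)]; ring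
  rw [h5, h4]; ring

theorem tendsto_sys (F : Finset ℤ[X])
    (hF : ∀ f ∈ F, Irreducible f ∧ 0 < f.natDegree ∧ 0 < f.leadingCoeff) (hk : 1 ≤ F.card)
    {ε : ℝ} (hε : 0 < ε) : ∀ᶠ w : ℕ in atTop, ∀ W : ℕ, 0 < W →
      (∀ p : ℕ, p.Prime → (p ∣ W ↔ p ≤ w)) → ∃ c : ℝ,
        (1 - ε) * ((W.totient : ℝ) / W) ^ F.card / F.card.factorial ≤ c ∧
        Tendsto (fun u : ℝ => selSum (omega (∏ f ∈ F, f)) w u / u ^ F.card) atTop (𝓝 c) := by
  classical
  have hk' : (1 : ℝ) ≤ F.card := by exact_mod_cast hk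
  obtain ⟨δ, δ0, δ1, δ2⟩ : ∃ δ : ℝ, 0 < δ ∧ δ ≤ 1 ∧ F.card * δ ≤ ε :=
    ⟨min 1 (ε / F.card), lt_min one_pos (by positivity), min_le_left _ _, by
      rw [← le_div_iff₀' (by linarith)]; exact min_le_right _ _⟩
  obtain ⟨p₀, hp₀⟩ := exists_no_common_root F hF
  choose! w₀ hw₀ using fun f hf => selberg_sum_lower (hF f hf).1 (hF f hf).2.1 δ0
  choose! L hL using fun f hf => tendsto_omega_abel (hF f hf).1 (hF f hf).2.1
  have hle : ∀ f ∈ F, ∀ p : ℕ, p.Prime → omega f p ≤ f.natDegree := fun f hf p hp =>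
    omega_le_natDegree ((hF f hf).1.isPrimitive (hF f hf).2.1.ne') hp
  have hom : ∀ p : ℕ, p.Prime → ∑ f ∈ F, omega f p ≤ ∑ f ∈ F, f.natDegree := fun p hp =>
    sum_le_sum fun f hf => hle f hf p hp
  have hLs : Tendsto (fun ε : ℝ => ∑' n : ℕ, (((∑ f ∈ F, omega f n : ℕ) : ℝ) * pw n) *
      (n : ℝ) ^ (-ε) + F.card * Real.log ε) (𝓝[>] 0) (𝓝 (∑ f ∈ F, L f)) := by
    refine (tendsto_finsetSum F hL).congr' ?_
    filter_upwards [self_mem_nhdsWithin] with ε hε
    rw [sum_add_distrib, sum_const, nsmul_eq_mul, ← Summable.tsum_finsetSum fun f hf =>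
      summable_mul_pw (a := fun n => (omega f n : ℝ)) (D := f.natDegree) (fun p hp => by
        rw [abs_of_nonneg (Nat.cast_nonneg _)]
        exact_mod_cast hle f hf p hp) hε]
    simp only [Nat.cast_sum, sum_mul]
  filter_upwards [eventually_ge_atTop (F.sup w₀ + p₀ + 2 * ∑ f ∈ F, f.natDegree)] with w hw W hW0 hW
  have hsel : selSum (omega (∏ f ∈ F, f)) w = selSum (fun p => ∑ f ∈ F, omega f p) w := by
    have : selW (omega (∏ f ∈ F, f)) w = selW (fun p => ∑ f ∈ F, omega f p) w := by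
      funext p
      unfold selW
      split_ifs with h
      · rw [omega_prod F (fun f => f) h.1 (hp₀ p (by omega))]
      · rfl
    funext u
    rw [selSum, selSum, this]
  rw [hsel]
  obtain ⟨c, hc⟩ := tendsto_selSum_pow (w := w) hk hom (by omega) hLs
  refine ⟨c, ?_, hc⟩
  choose! E hE0 hE using fun f hf => hw₀ f hf w ((le_sup hf).trans (by omega)) W hW0 hW
  have hφ : (0 : ℝ) ≤ (W.totient : ℝ) / W := by positivity
  have hc0 : 0 ≤ (1 - δ) * ((W.totient : ℝ) / W) := mul_nonneg (by linarith) hφ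
  have hE1 : 0 ≤ ∑ f ∈ F, E f := sum_nonneg hE0
  have t1 : Tendsto (fun u : ℝ => ((1 - δ) * ((W.totient : ℝ) / W)) ^ F.card *
      (1 - F.card * (∑ f ∈ F, E f) / u) ^ F.card / F.card.factorial) atTop
      (𝓝 (((1 - δ) * ((W.totient : ℝ) / W)) ^ F.card * (1 - 0) ^ F.card / F.card.factorial)) :=
    ((((tendsto_const_nhds.div_atTop tendsto_id).const_sub 1).pow _).const_mul _).div_const _
  refine le_trans ?_ (le_of_tendsto_of_tendsto t1 hc ?_)
  · rw [sub_zero, one_pow, mul_one, mul_pow]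
    have := one_add_mul_le_pow (a := -δ) (by linarith) F.card
    rw [← sub_eq_add_neg] at this
    gcongr
    linarith
  filter_upwards [eventually_gt_atTop 0, eventually_ge_atTop (F.card * ∑ f ∈ F, E f)] with u hu hu'
  set Ps := (range (⌊Real.exp u⌋₊ + 1)).filter Nat.Prime with hPs
  have hP1 : ∀ p ∈ Ps, p.Prime := fun p hp => (mem_filter.mp hp).2
  have hP2 : ∀ p : ℕ, p.Prime → (p : ℝ) ≤ Real.exp u → p ∈ Ps := fun p hp h =>
    mem_filter.mpr ⟨mem_range.mpr (Nat.lt_succ_of_le (Nat.le_floor h)), hp⟩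
  have e1 := selSum_eq (fun p => ∑ f ∈ F, omega f p) hW (Real.exp_pos u) Ps hP1 hP2
  have hlt : ∀ p, p.Prime → ¬ p ∣ W → ∑ f ∈ F, omega f p < p := fun p hp h => by
    have := hom p hp
    have := mt (hW p hp).mpr h
    omega
  have hg0 : ∀ f ∈ F, ∀ p ∈ Ps, 0 ≤ (if p ∣ W then 0 else
      (omega f p : ℝ) / (p - omega f p)) := by
    intro f hf p hp
    split_ifs with h
    · exact le_rfl
    · have : (omega f p : ℝ) < p := by
        exact_mod_cast (single_le_sum (f := fun f => omega f p)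
          (fun _ _ => Nat.zero_le _) hf).trans_lt (hlt p (hP1 p hp) h)
      exact div_nonneg (Nat.cast_nonneg _) (by linarith)
  have e2 := sqfSum_pow_lower Ps hP1 F
    (fun f p => if p ∣ W then 0 else (omega f p : ℝ) / (p - omega f p)) hg0 hc0 hE1
    (z := Real.exp u) (fun f hf y y1 y2 => le_trans (mul_le_mul_of_nonneg_left
      (by linarith [single_le_sum hE0 hf]) hc0)
      (hE f hf y y1 Ps hP1 fun p hp h => hP2 p hp (h.trans y2))) _
    (Real.one_le_exp hu.le) le_rfl
  rw [Real.log_exp] at e1 e2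
  rw [max_eq_left (sub_nonneg.mpr hu')] at e2
  rw [e1, le_div_iff₀ (pow_pos hu _)]
  refine le_trans (le_of_eq ?_) (e2.trans (sqfSum_mono (fun p hp => ?_) (fun p hp => ?_) le_rfl))
  · rw [div_mul_eq_mul_div, mul_assoc, ← mul_pow, sub_mul _ _ u, one_mul, div_mul_cancel₀ _ hu.ne']
  · exact sub_nonneg.mpr (one_le_prod fun f hf => by linarith [hg0 f hf p hp])
  · by_cases h : p ∣ W
    · simp [h]
    · simp only [if_neg h]
      exact prod_one_add_le _ _ (hlt p (hP1 p hp) h)

end Pool.Agent.Work.MP_51e72e_nt.Sys
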