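import Pool.Agent.Work.MP_51e72e_nt.SysMain1
import Pool.Agent.Work.MP_51e72e_nt.SysKar
import Pool.Agent.Work.MP_51e72e_nt.CubMain
import Mathlib.RingTheory.Polynomial.GaussLemma

/-!
The upper bound in the Bateman-Horn problem for every system of total degree at least two.
-/

set_option autoImplicit false

namespace Pool.Agent.Work.MP_51e72e_nt.Sys

open Finset Filter Topology Polynomial Pool.Agent.Lib.ANT Pool.Agent.Work.MP_51e72e_nt.Cub
open Pool.Agent.Work.MP_51e72e_nt.Deg (LevelAll adm)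

open Classical in
lemma count_le_sys (F : Finset ℤ[X]) {W N n0 : ℕ} {z : ℝ} (hz : 0 ≤ z)
    (hW : ∀ p : ℕ, p.Prime → p ∣ W → (p : ℝ) ≤ z)
    (h0 : ∀ n : ℕ, n0 ≤ n → ∀ f ∈ F, (n : ℝ) / 2 ≤ |((f.eval (n : ℤ) : ℤ) : ℝ)|) :
    (((Icc 1 N).filter (fun n : ℕ => ∀ f ∈ F, (f.eval (n : ℤ)).natAbs.Prime)).card : ℝ)
      ≤ ((Icc 1 N).filter (fun n : ℕ => Nat.Coprime ((∏ f ∈ F, f).eval (n : ℤ)).natAbs W ∧
        ∀ p ∈ psOf W z, ¬ (p : ℤ) ∣ (∏ f ∈ F, f).eval (n : ℤ))).card + (n0 + 2 * z) := by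
  have h1 : (Icc 1 N).filter (fun n : ℕ => ∀ f ∈ F, (f.eval (n : ℤ)).natAbs.Prime) ⊆
      (Icc 1 N).filter (fun n : ℕ => Nat.Coprime ((∏ f ∈ F, f).eval (n : ℤ)).natAbs W ∧
        ∀ p ∈ psOf W z, ¬ (p : ℤ) ∣ (∏ f ∈ F, f).eval (n : ℤ)) ∪ Icc 1 (n0 + ⌊2 * z⌋₊) := by
    intro n hn
    rw [mem_filter] at hn
    rw [mem_union, mem_filter]
    by_cases h : n ≤ n0 + ⌊2 * z⌋₊
    · exact Or.inr (mem_Icc.mpr ⟨(mem_Icc.mp hn.1).1, h⟩)
    have key : ∀ p : ℕ, p.Prime → (p : ℝ) ≤ z → ¬ (p : ℤ) ∣ (∏ f ∈ F, f).eval (n : ℤ) := by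
      intro p hp h1 h2
      rw [eval_prod, (Nat.prime_iff_prime_int.mp hp).dvd_finsetProd_iff] at h2
      obtain ⟨f, hf, h2⟩ := h2
      have e3 := h0 n (by omega) f hf
      rw [(Nat.prime_dvd_prime_iff_eq hp (hn.2 f hf)).mp (Int.natCast_dvd.mp h2), Nat.cast_natAbs,
        Int.cast_abs] at h1
      exact h ((Nat.le_floor (by linarith only [h1, e3])).trans (Nat.le_add_left _ _))
    exact Or.inl ⟨hn.1, Nat.coprime_of_dvd fun p hp h1 h2 =>
      key p hp (hW p hp h2) (Int.natCast_dvd.mpr h1), fun p hp =>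
      key p ((mem_psOf hz).mp hp).1 ((mem_psOf hz).mp hp).2.1⟩
  have h2 := (card_le_card h1).trans (card_union_le _ _)
  rw [Nat.card_Icc, Nat.add_sub_cancel] at h2
  have h3 : (⌊2 * z⌋₊ : ℝ) ≤ 2 * z := Nat.floor_le (by positivity)
  have h4 := (Nat.cast_le (α := ℝ)).mpr h2
  push_cast at h4
  linarith only [h3, h4]

lemma exists_param (k : ℕ) {J δ : ℝ} (hJ : 1 ≤ J) (δ0 : 0 < δ) : ∃ t : ℝ,
    (1 + t) * (1 - δ) / ((1 - t) ^ 2 * (2 * (J - t)) ^ k) * ((1 + t) * (2 * J + t)) ^ k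
      < 1 - δ / 2 ∧ t < 1 / 2 ∧ 0 < t := by
  have J0 : 0 < J := by linarith
  have hc : ContinuousAt (fun t : ℝ => (1 + t) * (1 - δ) / ((1 - t) ^ 2 * (2 * (J - t)) ^ k) *
      ((1 + t) * (2 * J + t)) ^ k) 0 :=
    (ContinuousAt.div (by fun_prop) (by fun_prop)
      (by simp only [sub_zero]; positivity)).mul (by fun_prop)
  have h1 := (hc.eventually (gt_mem_nhds (show (1 + 0) * (1 - δ) /
    ((1 - 0) ^ 2 * (2 * (J - 0)) ^ k) * ((1 + 0) * (2 * J + 0)) ^ k < 1 - δ / 2 by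
      simp only [add_zero, sub_zero, one_mul, one_pow]
      rw [div_mul_cancel₀ _ (by positivity)]
      linarith only [δ0]))).filter_mono (nhdsWithin_le_nhds (s := Set.Ioi 0))
  have h2 : ∀ᶠ t : ℝ in 𝓝[>] 0, t < 1 / 2 :=
    (gt_mem_nhds (by norm_num) : ∀ᶠ t : ℝ in 𝓝 0, t < 1 / 2).filter_mono nhdsWithin_le_nhds
  exact (h1.and (h2.and self_mem_nhdsWithin)).exists

lemma adm_eq (f : ℤ[X]) (T : Finset ℕ) (hT : ∀ p ∈ T, p.Prime) :
    ((adm f (∏ p ∈ T, p)).card : ℝ) / (∏ p ∈ T, p : ℕ) = ∏ p ∈ T, (1 - (omega f p : ℝ) / p) := by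
  rw [← card_adm f T hT]
  congr 3
  refine filter_congr fun n _ => ?_
  rw [Nat.coprime_prod_right_iff]
  refine forall₂_congr fun p hp => ?_
  rw [Nat.coprime_comm, Nat.Prime.coprime_iff_not_dvd (hT p hp), Int.natCast_dvd]

open Classical in
theorem sys_of_level (k D n e0 : ℕ) (e : ℕ → ℕ) (hn : 1 ≤ n) (he : 1 ≤ e0) : ∃ δ : ℝ, 0 < δ ∧
    ∀ F : Finset ℤ[X], (∀ f ∈ F, Irreducible f ∧ 0 < f.natDegree ∧ 0 < f.leadingCoeff) →
    F.card = k → ∑ f ∈ F, f.natDegree ≤ D → ∀ f0 ∈ F, LevelAll f0 n e0 e → ∀ C : ℝ,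
    Tendsto (fun y : ℕ => ∏ p ∈ (range (y + 1)).filter Nat.Prime,
        (1 - (omegaF F p : ℝ) / (p : ℝ)) / (1 - 1 / (p : ℝ)) ^ F.card) atTop (𝓝 C) →
    ∀ ε : ℝ, 0 < ε → ∀ᶠ N : ℕ in atTop,
      (((Icc 1 N).filter (fun n : ℕ => ∀ f ∈ F, (f.eval (n : ℤ)).natAbs.Prime)).card : ℝ) *
          (∏ f ∈ F, Real.log |((f.eval (N : ℤ) : ℤ) : ℝ)|) / (N : ℝ)
        ≤ (1 - δ) * (2 ^ F.card * F.card.factorial * ∏ f ∈ F, (f.natDegree : ℝ)) * C + ε := by
  obtain ⟨J, δ, J1, δ0, δ1, hs⟩ := sieve_B k D n e0 e hn he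
  have J2 : (1 : ℝ) ≤ J := Nat.one_le_cast.2 J1
  obtain ⟨t, ht, t1, t0⟩ := exists_param k J2 δ0
  refine ⟨δ / 2, by positivity, fun F hF hk hD f0 hf0 hLev C hC ε hε => ?_⟩
  have hprim : (∏ f ∈ F, f).IsPrimitive := prod_induction _ _ (fun _ _ => IsPrimitive.mul)
    isPrimitive_one fun f hf => (hF f hf).1.isPrimitive (hF f hf).2.1.ne'
  have hdeg : (∏ f ∈ F, f).natDegree ≤ D := (natDegree_prod_le _ _).trans hD
  have ho : ∀ p, omegaF F p = omega (∏ f ∈ F, f) p := fun p => by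
    simp only [omega, omegaF, eval_prod]
  set Dg := ∏ f ∈ F, (f.natDegree : ℝ) with hDg
  set A : ℝ := 2 ^ k * k.factorial with hA
  have D0 : 0 < Dg := prod_pos fun f hf => Nat.cast_pos.mpr (hF f hf).2.1
  have A0 : 0 < A := by positivity
  have η0 : 0 < ε / 2 / (A * Dg) := by positivity
  simp only [ho, hk] at hC ⊢
  obtain ⟨w, w1, w2, w3⟩ := ((tendsto_sys F hF (card_pos.2 ⟨f0, hf0⟩) t0).and
    ((hC.eventually (gt_mem_nhds (lt_add_of_pos_right C η0))).and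
      (eventually_ge_atTop (2 * D + 2 + f0.leadingCoeff.natAbs)))).exists
  set T := (range (w + 1)).filter Nat.Prime with hT
  have hT1 : ∀ p ∈ T, p.Prime := fun p hp => (mem_filter.mp hp).2
  have hW : ∀ p : ℕ, p.Prime → (p ∣ ∏ p ∈ T, p ↔ p ≤ w) := fun p hp => by
    rw [prime_dvd_prod_iff hT1 hp, hT, mem_filter, mem_range, Nat.lt_succ_iff, and_iff_left hp]
  have hW0 : 0 < ∏ p ∈ T, p := prod_pos fun p hp => (hT1 p hp).pos
  obtain ⟨c, c1, c2⟩ := w1 _ hW0 hW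
  have P0 := euler_nonneg (∏ f ∈ F, f) T hT1 k
  rw [prod_div_distrib, prod_pow, ← adm_eq _ T hT1, ← totient_prod_primes T hT1] at w2 P0
  rw [hk] at c1 c2
  generalize ∏ p ∈ T, p = W at *
  have φ0 : (0 : ℝ) < (W.totient : ℝ) / W :=
    div_pos (Nat.cast_pos.2 (Nat.totient_pos.2 hW0)) (Nat.cast_pos.2 hW0)
  generalize (W.totient : ℝ) / W = φ at *
  have t2 : 0 < 1 - t := by linarith only [t1, t0]
  have t3 : 0 < J - t := by linarith only [J2, t1, t0]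
  have c0 : 0 < c := lt_of_lt_of_le (by positivity) c1
  have hg := (eventually_all_finset F).mpr fun f hf => growth f (hF f hf).2.1 t0
  obtain ⟨n0, hn0⟩ := eventually_atTop.mp hg
  refine eventually_root (J := 2 * J) (by omega) ?_
  filter_upwards [hs f0 (∏ f ∈ F, f) w W c t (hF f0 hf0).1 (hF f0 hf0).2.1 (dvd_prod_of_mem _ hf0) hdeg
      (fun p hp _ => (omega_le_natDegree hprim hp).trans hdeg) (by omega) hW0 hW
      (fun p hp h => (hW p hp).2 (by have := Int.le_of_dvd (hF f0 hf0).2.2 h; omega)) hLev c0 c2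
      t0 t1.le,
    (c2.comp (tendsto_logB.const_mul_atTop t3)).eventually
      (lt_mem_nhds (show (1 - t) * c < c by linarith only [t0, c0, mul_pos_of_neg_of_neg (Mathlib.Tactic.Linarith.sub_neg_of_lt t0) (Mathlib.Tactic.Linarith.sub_neg_of_lt c0)])),
    eventually_log_pow_le ((2 * W + 3) * (((1 + t) * (2 * J + t)) ^ k * Dg) / (ε / 2)) k t0,
    tendsto_logB.eventually_ge_atTop (1 / t),
    tendsto_natCast_atTop_atTop.eventually_ge_atTop (2 / t),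
    eventually_ge_atTop (n0 + w * w + 2)] with B h1 h2 h3 h4 h5 h6 N hN1 hN2
  have B1 : 1 ≤ B := by omega
  have b1 : (1 : ℝ) ≤ B := by exact_mod_cast B1
  have b0 : (0 : ℝ) < B := by linarith only [t1, t0, b1]
  have u0 : 0 < Real.log B := lt_of_lt_of_le (by positivity) h4
  have hBN : B * B ≤ N := le_trans (by rw [← sq]; exact Nat.pow_le_pow_right B1 (by omega)) hN1
  have hBN' : B ≤ N := (Nat.le_mul_self B).trans hBN
  have N0 : (0 : ℝ) < N := by exact_mod_cast B1.trans hBN'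
  have sv := h1 N hN1 hN2
  have v1 : 1 ≤ (B : ℝ) ^ t := Real.one_le_rpow b1 t0.le
  have v2 : (B : ℝ) ^ t * (B : ℝ) ^ t ≤ B := by
    rw [← Real.rpow_add b0]
    exact (Real.rpow_le_rpow_of_exponent_le b1 (by linarith only [t1])).trans_eq (Real.rpow_one _)
  generalize (B : ℝ) ^ t = v at *
  have v0 : 0 < v := by linarith only [t1, t0, v1]
  have vB : v ≤ B := (le_mul_of_one_le_left v0.le v1).trans v2
  have x1 : (B : ℝ) ≤ B ^ J := le_self_pow₀ b1 (by omega)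
  have x2 : (w : ℝ) ≤ B ^ J / v := by
    rw [le_div_iff₀ v0]
    have : (w : ℝ) * w ≤ B := by exact_mod_cast (by omega : w * w ≤ B)
    linarith only [this, v2, x1, sq_nonneg (w - v)]
  have cnt := count_le_sys F (W := W) (N := N) (z := (B : ℝ) ^ J / v) (by positivity)
    (fun p hp hh => (Nat.cast_le.2 ((hW p hp).mp hh)).trans x2) fun n hn f hf => (hn0 n hn f hf).1
  have x3 : (B : ℝ) ^ J / v ≤ N / v := by
    gcongr
    exact_mod_cast (Nat.pow_le_pow_right B1 (by omega)).trans hN1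
  have x4 : (n0 : ℝ) ≤ N / v := by
    rw [le_div_iff₀ v0]
    refine le_trans (mul_le_mul (Nat.cast_le.2 (by omega)) vB v0.le b0.le) ?_
    exact_mod_cast hBN
  have hL : (N : ℝ) + (N / B + 1 : ℕ) ≤ (1 + t) * N := by
    have a1 : ((N / B : ℕ) : ℝ) ≤ N / B := Nat.cast_div_le
    have a2 : (1 : ℝ) ≤ N / B := (one_le_div b0).2 (Nat.cast_le.2 hBN')
    have a3 : 2 / (B : ℝ) * N ≤ t * N := by
      gcongr
      rwa [div_le_comm₀ b0 t0]
    have a4 : 2 / (B : ℝ) * N = 2 * (N / B) := by ring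
    push_cast
    linarith only [a1, a2, a3, a4]
  have lN : Real.log N ≤ (2 * J + t) * Real.log B := by
    have a1 := Real.log_le_log N0 (show (N : ℝ) ≤ 2 * (B : ℝ) ^ (2 * J) by exact_mod_cast hN2)
    rw [Real.log_mul (by norm_num) (by positivity), Real.log_pow] at a1
    rw [div_le_iff₀ t0] at h4
    push_cast at a1
    linarith only [t1, t0, h4, a1, Real.log_two_lt_d9]
  simp only [Function.comp] at h2
  rw [lt_div_iff₀ (by positivity)] at h2
  have ρ0 : (0 : ℝ) ≤ (adm (∏ f ∈ F, f) W).card / W := by positivity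
  generalize ((adm (∏ f ∈ F, f) W).card : ℝ) / W = ρ at *
  generalize selSum _ _ _ = G at *
  have δ2 : 0 ≤ 1 - δ := by linarith only [δ1]
  refine final_arith (R := (2 * W + 3) / v) (θ := ((1 + t) * (2 * J + t)) ^ k) (k := k)
    (A := (1 + t) * (1 - δ) / ((1 - t) ^ 2 * (2 * (J - t)) ^ k)) N0 u0
    (cnt.trans ((add_le_add_left sv _).trans ?_)) (Nat.cast_nonneg _) ?_ (by positivity) D0.le A0.le
    P0 ht.le (by linarith only [δ1, t1, t0]) (by linarith only [δ0]) η0.le w2.le (mul_div_cancel₀ _ (mul_pos A0 D0).ne').le ?_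
  · rw [add_assoc]
    refine add_le_add ?_ ?_
    · calc _ ≤ (1 + t) * N * ρ * ((1 - δ) / ((1 - t) * ((1 - t) * φ ^ k / k.factorial) *
            ((J - t) * Real.log B) ^ k)) :=
            mul_le_mul (mul_le_mul_of_nonneg_right hL ρ0) (div_le_div_of_nonneg_left δ2
              (by positivity) (le_trans (by gcongr) h2.le))
              (div_nonneg δ2 (le_trans (by positivity) h2.le)) (by positivity)
        _ = _ := by
            simp only [mul_pow]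
            field_simp
    · rw [div_mul_comm, mul_add, mul_comm (_ / v)]
      linarith only [x3, x4]
  · rw [hDg, ← hk, ← prod_const, ← prod_const, ← prod_mul_distrib, ← prod_mul_distrib]
    refine prod_le_prod (fun f hf => Real.log_nonneg ?_) fun f hf =>
      (hn0 N (by omega) f hf).2.trans ?_
    · have : (2 : ℝ) ≤ N := by exact_mod_cast (by omega : 2 ≤ N)
      linarith only [this, hn0, h6, hBN', hf, (hn0 N (by omega) f hf).1]
    · exact (mul_le_mul_of_nonneg_left lN (by positivity)).trans_eq (by ring)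
  · have a1 : Real.log B ^ k ≤ (2 + 2 * Real.log B) ^ k := pow_le_pow_left₀ u0.le (by linarith only [t1, t0, u0]) _
    have a2 := (mul_le_mul_of_nonneg_left a1 (by positivity)).trans h3
    rw [div_mul_eq_mul_div, div_le_iff₀ (half_pos hε)] at a2
    rw [div_mul_eq_mul_div, div_le_iff₀ v0]
    linarith only [a2]

open Classical in
theorem sys_upper (D : ℕ) (hD : 2 ≤ D) : ∃ δ : ℝ, 0 < δ ∧
    ∀ F : Finset ℤ[X], (∀ f ∈ F, Irreducible f ∧ 0 < f.natDegree ∧ 0 < f.leadingCoeff) →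
    ∑ f ∈ F, f.natDegree = D → ∀ C : ℝ,
    Tendsto (fun y : ℕ => ∏ p ∈ (range (y + 1)).filter Nat.Prime,
        (1 - (omegaF F p : ℝ) / (p : ℝ)) / (1 - 1 / (p : ℝ)) ^ F.card) atTop (𝓝 C) →
    ∀ ε : ℝ, 0 < ε → ∀ᶠ N : ℕ in atTop,
      (((Icc 1 N).filter (fun n : ℕ => ∀ f ∈ F, (f.eval (n : ℤ)).natAbs.Prime)).card : ℝ) *
          (∏ f ∈ F, Real.log |((f.eval (N : ℤ) : ℤ) : ℝ)|) / (N : ℝ)
        ≤ (1 - δ) * (2 ^ F.card * F.card.factorial * ∏ f ∈ F, (f.natDegree : ℝ)) * C + ε := by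
  have h1 : ∀ k d : ℕ, ∃ δ : ℝ, 0 < δ ∧ (2 ≤ d → ∀ F : Finset ℤ[X],
      (∀ f ∈ F, Irreducible f ∧ 0 < f.natDegree ∧ 0 < f.leadingCoeff) → F.card = k →
      ∑ f ∈ F, f.natDegree ≤ D → ∀ f0 ∈ F, f0.natDegree = d → ∀ C : ℝ,
      Tendsto (fun y : ℕ => ∏ p ∈ (range (y + 1)).filter Nat.Prime,
        (1 - (omegaF F p : ℝ) / (p : ℝ)) / (1 - 1 / (p : ℝ)) ^ F.card) atTop (𝓝 C) →
      ∀ ε : ℝ, 0 < ε → ∀ᶠ N : ℕ in atTop,
      (((Icc 1 N).filter (fun n : ℕ => ∀ f ∈ F, (f.eval (n : ℤ)).natAbs.Prime)).card : ℝ) *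
          (∏ f ∈ F, Real.log |((f.eval (N : ℤ) : ℤ) : ℝ)|) / (N : ℝ)
        ≤ (1 - δ) * (2 ^ F.card * F.card.factorial * ∏ f ∈ F, (f.natDegree : ℝ)) * C + ε) := by
    intro k d
    by_cases hd : 2 ≤ d
    · obtain ⟨n, e0, e, a1, a2, -, a3⟩ := Deg.level_all' d hd
      obtain ⟨δ, δ0, h⟩ := sys_of_level k D n e0 e a1 a2
      exact ⟨δ, δ0, fun _ F hF hk hD f0 hf0 e =>
        h F hF hk hD f0 hf0 (a3 f0 (hF f0 hf0).1 e (hF f0 hf0).2.2)⟩
    · exact ⟨1, one_pos, fun h => absurd h hd⟩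
  choose δ δ0 hδ using h1
  obtain ⟨x, -, hx⟩ := exists_min_image (range (D + 1) ×ˢ range (D + 1)) (fun x => δ x.1 x.2)
    ⟨(0, 0), by simp⟩
  have D0 : (0 : ℝ) < D := Nat.cast_pos.2 (by omega)
  refine ⟨min (δ x.1 x.2) (1 / (10000 * D)), lt_min (δ0 _ _) (by positivity),
    fun F hF hD' C hC ε hε => ?_⟩
  have C0 : 0 ≤ C := ge_of_tendsto' hC fun y => by
    simpa only [omega, omegaF, eval_prod] using euler_nonneg (∏ f ∈ F, f) _
      (fun p hp => (mem_filter.1 hp).2) F.card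
  have hk : F.card ≤ D := by
    rw [← hD', card_eq_sum_ones]
    exact sum_le_sum fun f hf => (hF f hf).2.1
  by_cases h : ∃ f0 ∈ F, 2 ≤ f0.natDegree
  · obtain ⟨f0, hf0, hd⟩ := h
    have a1 : f0.natDegree ≤ D :=
      hD' ▸ single_le_sum (f := fun f : ℤ[X] => f.natDegree) (fun _ _ => Nat.zero_le _) hf0
    have a2 := (min_le_left _ (1 / (10000 * (D : ℝ)))).trans (hx (F.card, f0.natDegree)
      (mem_product.2 ⟨mem_range.2 (by omega), mem_range.2 (by omega)⟩))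
    filter_upwards [hδ _ _ hd F hF rfl hD'.le f0 hf0 rfl C hC ε hε] with N hN
    exact hN.trans (by gcongr)
  · have a1 : ∀ f ∈ F, f.natDegree = 1 := fun f hf => by
      have := (hF f hf).2.1
      have := not_le.1 fun k => h ⟨f, hf, k⟩
      omega
    have a2 : F.card = D := by rw [← hD', sum_congr rfl a1, card_eq_sum_ones]
    obtain ⟨f0, hf0⟩ := card_pos.1 (show 0 < F.card by omega)
    filter_upwards [bh_upper F hF (by omega) ⟨f0, hf0, a1 f0 hf0⟩ hC hε] with N hN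
    refine hN.trans ?_
    gcongr
    rw [a2]
    exact min_le_right _ _

end Pool.Agent.Work.MP_51e72e_nt.Sys
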