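import Pool.Agent.Work.MP_51e72e_nt.DegMain2
import Pool.Agent.Work.MP_51e72e_nt.CubMain1
import Pool.Agent.Lib.ANT.LinSieveConst

-- merged part: Pool.Agent.Work.MP_51e72e_nt.DegMain3
section
/-!
Analytic input for the improved linear sieve.
-/

set_option autoImplicit false

namespace Pool.Agent.Work.MP_51e72e_nt.Deg

open Finset Filter Topology Pool.Agent.Lib.ANT Pool.Agent.Work.MP_51e72e_nt.Cub
  Pool.Agent.Work.MP_51e72e_nt.Cub.Sv

variable {f : Polynomial ℤ}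

lemma omega_tail (hf : Irreducible f) (hd : 0 < f.natDegree) {η : ℝ} (hη : 0 < η) :
    ∀ᶠ w : ℕ in atTop, ∀ a c : ℕ, w ≤ a → a ≤ c →
      |∑ p ∈ (Ioc a c).filter Nat.Prime, (omega f p : ℝ) / p -
        (Real.log (Real.log c) - Real.log (Real.log a))| ≤ η := by
  obtain ⟨L, hL⟩ := tendsto_sum_omega hf hd
  filter_upwards [eventually_forall_ge_atTop.2
    (Metric.tendsto_nhds.1 hL (η / 4) (by positivity)),
    eventually_forall_ge_atTop.2 (tendsto_logB.eventually_ge_atTop (96 / η)),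
    eventually_ge_atTop 2] with w h1 h2 h3 a c ha hc
  have a1 := h1 a ha
  have a2 := h1 c (ha.trans hc)
  have a3 := h2 a ha
  have a4 := abs_le.1 (abs_sum_inv_prime_Ioc_sub_le a c (h3.trans ha) hc)
  have a5 : 48 / Real.log a ≤ η / 2 := by
    rw [div_le_iff₀ hη] at a3
    rw [div_le_iff₀ (Real.log_pos (by exact_mod_cast h3.trans ha))]
    linarith only [a3]
  have e := sum_Ico_eq_sub (fun n => ((omega f n : ℝ) - 1) * pw n) (Nat.add_le_add_right hc 1)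
  rw [Ico_add_one_add_one_eq_Ioc] at e
  have e2 : ∑ n ∈ Ioc a c, ((omega f n : ℝ) - 1) * pw n =
      ∑ p ∈ (Ioc a c).filter Nat.Prime, (omega f p : ℝ) / p -
        ∑ p ∈ (Ioc a c).filter Nat.Prime, (p : ℝ)⁻¹ := by
    rw [← sum_sub_distrib, sum_filter]
    refine sum_congr rfl fun n _ => ?_
    unfold pw
    split_ifs <;> ring
  rw [Real.dist_eq, abs_lt] at a1 a2
  rw [abs_le]
  constructor <;> linarith only [a1, a2, a4, a5, e, e2, a1.1, a1.2, a2.1, a2.2, a4.1, a4.2]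

lemma inv_le_exp {x : ℝ} (h1 : x ≤ 1 / 2) : (1 - x)⁻¹ ≤ Real.exp (x + 2 * x ^ 2) := by
  refine le_trans ?_ (Real.add_one_le_exp _)
  rw [inv_le_iff_one_le_mul₀ (by linarith only [h1])]
  linarith only [h1, mul_nonneg (sq_nonneg x) (sub_nonneg.2 h1), sq_nonneg x]

lemma linHyp (hf : Irreducible f) (hd : 0 < f.natDegree) {ε : ℝ} (hε : 0 < ε) :
    ∀ᶠ w : ℕ in atTop, ∀ Ps : Finset ℕ, (∀ p ∈ Ps, p.Prime ∧ w < p) →
      LinHyp Ps (fun p => (omega f p : ℝ) / p) ε := by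
  have hprim := hf.isPrimitive hd.ne'
  obtain ⟨η, η0, hη⟩ : ∃ η : ℝ, 0 < η ∧ Real.exp (3 * η) = 1 + ε :=
    ⟨Real.log (1 + ε) / 3, div_pos (Real.log_pos (by linarith only [hε])) (by norm_num), by
      rw [mul_div_cancel₀ _ (by norm_num), Real.exp_log (by linarith)]⟩
  obtain ⟨d, hdd, d1⟩ : ∃ d : ℝ, (∀ p : ℕ, p.Prime → (omega f p : ℝ) ≤ d) ∧ 1 ≤ d :=
    ⟨f.natDegree, fun p hp => Nat.cast_le.2 (omega_le_natDegree hprim hp), Nat.one_le_cast.2 hd⟩
  filter_upwards [omega_tail hf hd η0,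
    tendsto_natCast_atTop_atTop.eventually_ge_atTop (2 * d ^ 2 / η),
    tendsto_natCast_atTop_atTop.eventually_ge_atTop (2 * d)] with w h1 h2 h3 Ps hPs
  have w0 : (0 : ℝ) < w := by linarith only [d1, h3]
  rw [div_le_comm₀ η0 w0] at h2
  have g0 : ∀ p : ℕ, 0 ≤ (omega f p : ℝ) / p := fun p => by positivity
  have g1 : ∀ p ∈ Ps, (omega f p : ℝ) / p ≤ d / w := fun p hp =>
    div_le_div₀ (by linarith only [d1]) (hdd p (hPs p hp).1) w0 (Nat.cast_le.2 (hPs p hp).2.le)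
  have g2 : d / w ≤ 1 / 2 := by
    rw [div_le_iff₀ w0]
    linarith only [h3]
  refine ⟨fun p hp => (hPs p hp).1.two_le, fun p _ => g0 p,
    fun p hp => by linarith only [g2, g1, hp, g1 p hp], fun u v hu huv => ?_⟩
  have lu := Real.log_pos hu
  have luv := Real.log_le_log (by linarith only [hu]) huv
  set Q := Ps.filter fun p : ℕ => u ≤ p ∧ (p : ℝ) < v with hQ
  rcases Q.eq_empty_or_nonempty with h | h
  · rw [h, prod_empty, inv_one, le_div_iff₀ lu]
    linarith only [luv, hε, lu, mul_pos_of_neg_of_neg (Mathlib.Tactic.Linarith.sub_neg_of_lt hε) (Mathlib.Tactic.Linarith.sub_neg_of_lt lu), mul_nonneg_of_nonpos_of_nonpos (le_of_lt (Mathlib.Tactic.Linarith.sub_neg_of_lt hε)) (Mathlib.Tactic.Linarith.sub_nonpos_of_le luv)]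
  obtain ⟨a1, a2, -⟩ : Q.min' h ∈ Ps ∧ u ≤ Q.min' h ∧ (Q.min' h : ℝ) < v := by
    simpa [hQ] using Q.min'_mem h
  obtain ⟨c1, -, c2⟩ : Q.max' h ∈ Ps ∧ u ≤ Q.max' h ∧ (Q.max' h : ℝ) < v := by
    simpa [hQ] using Q.max'_mem h
  have s1 : Q ⊆ insert (Q.min' h) ((Ioc (Q.min' h) (Q.max' h)).filter Nat.Prime) := fun p hp => by
    rcases (Q.min'_le p hp).eq_or_lt with k | k
    · exact k ▸ mem_insert_self _ _
    · exact mem_insert_of_mem (mem_filter.2 ⟨mem_Ioc.2 ⟨k, Q.le_max' p hp⟩,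
        (hPs p (mem_filter.1 hp).1).1⟩)
  have ac := Q.min'_le_max' h
  generalize Q.min' h = a at *
  generalize Q.max' h = c at *
  have wa := (hPs a a1).2
  have t1 := (abs_le.1 (h1 a c wa.le ac)).2
  have t2 : ∑ p ∈ (Ioc a c).filter Nat.Prime, 2 * ((omega f p : ℝ) / p) ^ 2 ≤ η := by
    have k1 := sum_Ioc_inv_sq_le_sub (α := ℝ) (show a ≠ 0 by omega) ac
    have k2 : (a : ℝ)⁻¹ ≤ (w : ℝ)⁻¹ := inv_anti₀ w0 (Nat.cast_le.2 wa.le)
    have k3 : (0 : ℝ) ≤ (c : ℝ)⁻¹ := by positivity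
    calc _ ≤ ∑ p ∈ (Ioc a c).filter Nat.Prime, 2 * d ^ 2 * ((p : ℝ) ^ 2)⁻¹ :=
          sum_le_sum fun p hp => by
            rw [div_pow, div_eq_mul_inv, ← mul_assoc]
            gcongr
            exact hdd p (mem_filter.1 hp).2
      _ ≤ ∑ p ∈ Ioc a c, 2 * d ^ 2 * ((p : ℝ) ^ 2)⁻¹ :=
          sum_le_sum_of_subset_of_nonneg (filter_subset _ _) fun _ _ _ => by positivity
      _ ≤ 2 * d ^ 2 * (w : ℝ)⁻¹ := by
          rw [← mul_sum]
          gcongr
          linarith only [k1, k2, k3]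
      _ ≤ η := h2
  have t3 : (omega f a : ℝ) / a + 2 * ((omega f a : ℝ) / a) ^ 2 ≤ η := by
    have k1 := g1 a a1
    have k2 : d / w ≤ d ^ 2 / w := by
      gcongr
      linarith only [d1, mul_nonneg_of_nonpos_of_nonpos (Mathlib.Tactic.Linarith.sub_nonpos_of_le d1) (Mathlib.Tactic.Linarith.sub_nonpos_of_le d1)]
    rw [mul_div_assoc] at h2
    linarith only [h2, k1, k2, g2, g0, g0 a, mul_nonneg_of_nonpos_of_nonpos (Mathlib.Tactic.Linarith.sub_nonpos_of_le g2) (Mathlib.Tactic.Linarith.sub_nonpos_of_le (g0 a)), mul_nonneg_of_nonpos_of_nonpos (Mathlib.Tactic.Linarith.sub_nonpos_of_le k1) (Mathlib.Tactic.Linarith.sub_nonpos_of_le (g0 a))]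
  have t4 := sum_le_sum_of_subset_of_nonneg
    (f := fun p : ℕ => (omega f p : ℝ) / p + 2 * ((omega f p : ℝ) / p) ^ 2) s1
    fun p _ _ => by positivity
  rw [sum_insert (by simp), sum_add_distrib (s := (Ioc a c).filter Nat.Prime)] at t4
  have la : Real.log u ≤ Real.log a := Real.log_le_log (by linarith only [hu]) a2
  have lc : Real.log c ≤ Real.log v :=
    Real.log_le_log (by exact_mod_cast (hPs c c1).1.pos) c2.le
  have lac : Real.log a ≤ Real.log c := Real.log_le_log (by linarith only [hu, a2]) (Nat.cast_le.2 ac)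
  calc _ ≤ ∏ p ∈ Q, Real.exp ((omega f p : ℝ) / p + 2 * ((omega f p : ℝ) / p) ^ 2) := by
        rw [← prod_inv_distrib]
        refine prod_le_prod (fun p hp => inv_nonneg.2 ?_) fun p hp => inv_le_exp ?_
        all_goals linarith only [g2, g1, hp, g1 p (mem_filter.1 hp).1]
    _ ≤ Real.exp (3 * η + Real.log (Real.log v) - Real.log (Real.log u)) := by
        rw [← Real.exp_sum, Real.exp_le_exp]
        linarith only [t1, t2, t3, t4, lu, la, lac, lc, Real.log_le_log lu la, Real.log_le_log (by linarith) lc]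
    _ = _ := by
        rw [Real.exp_sub, Real.exp_add, hη, Real.exp_log lu, Real.exp_log (by linarith only [lu, luv])]

lemma win_sum (hf : Irreducible f) (hd : 0 < f.natDegree) (m : ℕ) :
    ∀ᶠ B : ℕ in atTop, ∀ k : ℕ, 1 ≤ k → k ≤ m → 1 / (2 * ((m : ℝ) + 1)) ≤
      ∑ p ∈ (Ioc (B ^ k) (B ^ (k + 1))).filter Nat.Prime, (omega f p : ℝ) / p := by
  filter_upwards [omega_tail hf hd (η := 1 / (2 * ((m : ℝ) + 1))) (by positivity),
    eventually_ge_atTop 2] with B h hB k h1 h2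
  have a1 := (abs_le.1 (h (B ^ k) (B ^ (k + 1)) (Nat.le_self_pow (by omega) _)
    (Nat.pow_le_pow_right (by omega) (Nat.le_succ _)))).1
  have u0 : 0 < Real.log B := Real.log_pos (by exact_mod_cast hB)
  have k0 : (0 : ℝ) < k := Nat.cast_pos.2 h1
  simp only [Nat.cast_pow, Real.log_pow] at a1
  rw [← Real.log_div (by positivity) (by positivity), mul_div_mul_right _ _ u0.ne'] at a1
  have a2 := Real.one_sub_inv_le_log_of_pos (show (0 : ℝ) < ((k + 1 : ℕ) : ℝ) / k by positivity)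
  have a3 : 1 - (((k + 1 : ℕ) : ℝ) / k)⁻¹ = 1 / ((k : ℝ) + 1) := by
    push_cast
    field_simp
    ring
  have a4 : 1 / ((m : ℝ) + 1) ≤ 1 / ((k : ℝ) + 1) := by gcongr
  have a5 : 1 / ((m : ℝ) + 1) = 2 * (1 / (2 * ((m : ℝ) + 1))) := by field_simp
  linarith only [a1, a2, a3, a4, a5]

lemma card_Rt_le (hf : Irreducible f) (hd : 0 < f.natDegree) (J : ℕ) {κ : ℝ} (hκ : 0 < κ) :
    ∀ᶠ B : ℕ in atTop, ∀ T : Finset ℕ, (∀ p ∈ T, p.Prime) → pr T ≤ B ^ J →
      (Rt f (pr T)).card ≤ ⌊(B : ℝ) ^ κ⌋₊ := by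
  have d0 : (0 : ℝ) < f.natDegree := Nat.cast_pos.2 hd
  filter_upwards [eventually_divisors_le J (div_pos hκ d0)] with B h T hT h1
  have a1 : (Rt f (pr T)).card ≤ (pr T).divisors.card ^ f.natDegree := by
    rw [Rt, pr, card_roots_prod f T hT]
    refine (prod_le_pow_card _ _ (2 ^ f.natDegree) fun p hp =>
      (omega_le_natDegree (hf.isPrimitive hd.ne') (hT p hp)).trans Nat.lt_two_pow_self.le).trans ?_
    rw [← pow_mul, mul_comm, pow_mul]
    exact Nat.pow_le_pow_left (two_pow_le hT) _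
  refine Nat.le_floor ((Nat.cast_le.2 a1).trans ?_)
  rw [Nat.cast_pow]
  refine (pow_le_pow_left₀ (Nat.cast_nonneg _) (h _ h1) _).trans (le_of_eq ?_)
  rw [← Real.rpow_natCast, ← Real.rpow_mul (Nat.cast_nonneg _), div_mul_cancel₀ _ d0.ne']

lemma exists_const : ∃ A : ℝ, 3 ≤ A ∧ A ≤ 63 ∧
    (∀ (Ps : Finset ℕ) (g : ℕ → ℝ) (ε z : ℝ), LinHyp Ps g ε → 0 ≤ ε → ε ≤ 1 / 1000 → 1 < z →
      rSum 0 (z ^ 3) (below Ps z) g ≤ VV Ps g z * ((A + ε * 200000) / 3)) ∧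
    ∀ δ : ℝ, 0 < δ → ∀ᶠ N : ℕ in atTop,
      A * (Real.log N * ∏ p ∈ (Ioc 0 N).filter Nat.Prime, (1 - (p : ℝ)⁻¹)) ≤ 2 + δ := by
  obtain ⟨a, ha, ha1, ha2⟩ := exists_sieve_fn
  have hb := stepB_adm ha (by norm_num) ha1
  have hb1 := stepB_le ha (by norm_num) ha1
  have a3 := ha1 3
  rw [maj_of_le (by norm_num) le_rfl] at a3
  refine ⟨a 3 + 3, by linarith [ha.nonneg 3], by linarith,
    fun Ps g ε z H h0 h1 hz => rosser_upper H h0 h1 ha ha1 ha2 hz,
    linsieve_const a (stepB a) 1620 ha.nonneg hb.nonneg ha.anti hb.anti (fun s hs => ?_)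
      (fun s hs => ?_) (fun s hs => ?_) (fun s hs => ?_) fun s h1 h2 => ?_⟩
  · have := maj_le (c := 3) (s := s) (by norm_num) (by linarith)
    have e : (1620 : ℝ) / s ^ 3 = 60 * (3 ^ 3 / s ^ 3) := by ring
    linarith only [this, e, ha1, ha1 s]
  · have := maj_le (c := 2) (s := s) (by norm_num) (by linarith)
    have e : (1620 : ℝ) / s ^ 3 = 202.5 * (2 ^ 3 / s ^ 3) := by ring
    linarith only [this, e, hb1, hb1 s, maj_pos (c := 2) (by norm_num) s]
  · rw [stepB, max_eq_left hs, II]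
  · rw [ha2 s, stepA, max_eq_left hs, min_eq_right (le_max_of_le_left hs), sub_self, zero_add, II]
  · rw [ha2 s, ha2 3, stepA, stepA, max_eq_left h1, min_eq_left h2, max_eq_right h2]
    norm_num
    ring

theorem sieve_B (n e0 : ℕ) (e : ℕ → ℕ) : ∃ (μ : ℕ) (c : ℝ), 3 ≤ μ ∧ 0 < c ∧ c ≤ 1 ∧
    ∀ f : Polynomial ℤ, Irreducible f → 0 < f.natDegree → LevelAll f n e0 e →
    ∀ (t κ : ℝ) (w W : ℕ), 0 ≤ t → t ≤ 1 / 1000 → 0 < κ → κ ≤ 1 → 0 < W →
    (∀ p : ℕ, p.Prime → (p ∣ W ↔ p ≤ w)) →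
    (∀ p : ℕ, p.Prime → (p : ℤ) ∣ f.leadingCoeff → p ∣ W) →
    (∀ y : ℕ, LinHyp (psOf W y) (fun p => (omega f p : ℝ) / p) t) →
    ∀ᶠ B : ℕ in atTop, ∀ N y : ℕ, B ^ (3 * μ) ≤ N → N ≤ 2 * B ^ (3 * μ) → B ^ (μ - 1) ≤ y →
      y + 1 ≤ B ^ μ →
      (((Icc 1 N).filter (fun n : ℕ => Nat.Coprime (f.eval (n : ℤ)).natAbs W ∧
        ∀ p ∈ psOf W y, ¬ (p : ℤ) ∣ f.eval (n : ℤ))).card : ℝ) ≤
        ((N : ℝ) + (N / B + 1 : ℕ)) * ((adm f W).card / W) *
          (rSum 0 (((y : ℝ) + 1) ^ 3) (psOf W y) (fun p => (omega f p : ℝ) / p) -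
            c * ∏ p ∈ psOf W y, (1 - (omega f p : ℝ) / p)) +
        (((y : ℝ) + 1) ^ 3 * ((B : ℝ) ^ κ * W) + W * (N / B)) := by
  obtain ⟨S, hS⟩ : ∃ S, S = e0 + ∑ k ∈ range n, e k := ⟨_, rfl⟩
  obtain ⟨q, hq⟩ : ∃ q, (n + 2) * (16 * S + 4) + 32 * S + 17 ≤ q := ⟨_, le_rfl⟩
  obtain ⟨σ, hσ⟩ : ∃ σ : ℝ, σ = 1 / (4 * (((3 * q + n + 1 : ℕ) : ℝ) + 1)) := ⟨_, rfl⟩
  have σ0 : 0 < σ := by
    rw [hσ]
    positivity
  have s0 : e0 ≤ S := by omega
  have s1 : ∀ k < n, e k ≤ S := fun k hk => by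
    have := single_le_sum (f := e) (fun _ _ => Nat.zero_le _) (mem_range.2 hk)
    omega
  have q1 : n + 17 ≤ q := by linarith only [hq, mul_nonneg_of_nonpos_of_nonpos (Mathlib.Tactic.Linarith.sub_nonpos_of_le (Mathlib.Tactic.Linarith.natCast_nonneg ℤ S)) (Mathlib.Tactic.Linarith.sub_nonpos_of_le (Mathlib.Tactic.Linarith.natCast_nonneg ℤ n))]
  obtain ⟨μ, hμ⟩ : ∃ μ, μ + 1 = q * (16 * S + 5) := ⟨q * (16 * S + 5) - 1, by
    have : 0 < q * (16 * S + 5) := Nat.mul_pos (by omega) (by omega)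
    omega⟩
  refine ⟨μ + 1, min (σ * (σ ^ (16 * e0 + 2) / (16 * e0 + 2).factorial) *
    ∏ k : Fin n, σ ^ (16 * e k) / (16 * e k).factorial) 1, by linarith only [hq, hμ, mul_nonneg_of_nonpos_of_nonpos (Mathlib.Tactic.Linarith.sub_nonpos_of_le (Mathlib.Tactic.Linarith.natCast_nonneg ℤ S)) (Mathlib.Tactic.Linarith.sub_nonpos_of_le (Mathlib.Tactic.Linarith.natCast_nonneg ℤ n)), mul_nonneg_of_nonpos_of_nonpos (Mathlib.Tactic.Linarith.sub_nonpos_of_le (Mathlib.Tactic.Linarith.natCast_nonneg ℤ S)) (Mathlib.Tactic.Linarith.sub_nonpos_of_le (Mathlib.Tactic.Linarith.natCast_nonneg ℤ q))],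
    lt_min (by positivity) one_pos, min_le_right _ _,
    fun f hf hd hLev t κ w W t0 t1 κ0 κ1 hW0 hW hl H => ?_⟩
  filter_upwards [(tendsto_pow_nat (k := 48 * q) (by omega)).eventually (hLev W hW0 hl),
    win_sum hf hd (3 * q + n + 1), card_Rt_le hf hd (48 * q * (S + 1)) κ0,
    tendsto_natCast_atTop_atTop.eventually_ge_atTop ((16 * S + 2 : ℕ) * (f.natDegree / σ)),
    eventually_ge_atTop (w + 2)] with B h1 h2 h3 h4 h5 N y hN1 hN2 hy1 hy2
  rw [Nat.add_sub_cancel] at hy1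
  have B1 : 1 < B := by omega
  have b1 : (1 : ℝ) < B := by exact_mod_cast B1
  have hp : ∀ {u v : ℕ}, u ≤ v → B ^ u ≤ B ^ v := fun h => Nat.pow_le_pow_right B1.le h
  have hB : ∀ {u : ℕ}, 1 ≤ u → B ≤ B ^ u := fun h => Nat.le_self_pow (by omega) _
  have N0 : 0 < N := (pow_pos (by omega) _).trans_le hN1
  have y0 : (0 : ℝ) ≤ y := Nat.cast_nonneg _
  have y1 : 1 ≤ y := (Nat.one_le_pow _ _ (by omega)).trans hy1
  have hD : ((y : ℝ) + 1) ^ 3 ≤ (B ^ (3 * (μ + 1)) : ℕ) := by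
    rw [mul_comm, pow_mul]
    exact_mod_cast Nat.pow_le_pow_left hy2 3
  have hm : ∀ p ∈ psOf W y, p.Prime ∧ p ≤ y ∧ ¬ p ∣ W := fun p hp => by
    simpa only [Nat.cast_le] using (mem_psOf y0).1 hp
  have hwin : ∀ i ≤ n + 1, win (psOf W y) (fun i => B ^ (3 * q + i)) i =
      (Ioc (B ^ (3 * q + i)) (B ^ (3 * q + i + 1))).filter Nat.Prime := fun i hi => by
    ext p
    rw [mem_win, mem_filter, mem_Ioc]
    refine ⟨fun h => ⟨h.2, (hm p h.1).1⟩, fun h => ⟨(mem_psOf y0).2 ⟨h.2, Nat.cast_le.2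
      (h.1.2.trans ((hp (by linarith only [hq, hμ, hi, mul_nonneg_of_nonpos_of_nonpos (Mathlib.Tactic.Linarith.sub_nonpos_of_le (Mathlib.Tactic.Linarith.natCast_nonneg ℤ S)) (Mathlib.Tactic.Linarith.sub_nonpos_of_le (Mathlib.Tactic.Linarith.natCast_nonneg ℤ n)), mul_nonneg_of_nonpos_of_nonpos (Mathlib.Tactic.Linarith.sub_nonpos_of_le (Mathlib.Tactic.Linarith.natCast_nonneg ℤ S)) (Mathlib.Tactic.Linarith.sub_nonpos_of_le (Mathlib.Tactic.Linarith.natCast_nonneg ℤ q))])).trans hy1)), fun k => ?_⟩, h.1⟩⟩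
    have a1 := (hW p h.2).1 k
    have a2 := hB (show 1 ≤ 3 * q + i by omega)
    omega
  rw [← hS] at h1
  have main := sieve_win (f := f) (W := W) (N := N) (L := N / B + 1) (n := n) (Ps := psOf W y)
    (b := fun i => B ^ (3 * q + i)) (fun i j h => hp (by omega)) (16 * e0 + 2)
    (fun k => 16 * e k) (K := 16 * S + 2) (by rw [← mul_sum]; omega)
    (D := ((y : ℝ) + 1) ^ 3) (D' := (B ^ (12 * (3 * q + 1)) : ℕ)) (Ω := B ^ (48 * q * (S + 1)))
    (fun p hp => ⟨(hm p hp).1, (Nat.Prime.coprime_iff_not_dvd (hm p hp).1).2 (hm p hp).2.2, ?_⟩)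
    hW0 (Nat.succ_pos _) (by omega) ?_ ?_ (one_lt_pow₀ (by exact_mod_cast Nat.lt_succ_of_le y1)
      (by norm_num)) (Nat.cast_le.2 (hp (by omega)))
    (Nat.one_lt_cast.2 (B1.trans_le (hB (by omega)))) ?_ ?_ (fun k _ => ?_) (fun k hk => ?_)
    (fun T hT => h3 T fun p hp => (hm p (hT hp)).1) ?_ ?_ (fun k hk => ?_)
    (hD.trans (Nat.cast_le.2 (hp (by linarith only [q1, hμ]))))
    (h1 N (N / B + 1) (le_trans (by rw [← pow_mul]; exact hp (by linarith only [q1, hμ])) hN1) ?_ ?_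
      (Nat.div_lt_self N0 B1)) rfl
  rotate_left
  · have : (p : ℝ) ≤ y := Nat.cast_le.2 (hm p hp).2.1
    exact lt_of_lt_of_le (by linarith only [this]) (le_self_pow₀ (by linarith only []) (by norm_num))
  · have : (B ^ (3 * q + (n + 2))) ^ (16 * S + 2 + 2) < (y + 1) ^ 3 := by
      refine lt_of_le_of_lt ?_ ((Nat.pow_le_pow_left hy1 3).trans_lt
        (Nat.pow_lt_pow_left (Nat.lt_succ_self _) (by norm_num)))
      rw [← pow_mul, ← pow_mul]
      exact hp (by linarith only [hq, q1, hμ])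
    exact_mod_cast this
  · refine hD.trans (Nat.cast_le.2 ?_)
    rw [← pow_mul]
    exact hp (by linarith only [hμ])
  · rw [← pow_mul, ← pow_mul]
    exact hp (by linarith only [q1])
  · rw [← Nat.cast_mul, Nat.cast_le, ← pow_mul, ← pow_mul, ← pow_add, ← pow_add]
    exact hp (by linarith only [hq, s0, q1, mul_nonneg_of_nonpos_of_nonpos (Mathlib.Tactic.Linarith.sub_nonpos_of_le (Mathlib.Tactic.Linarith.natCast_nonneg ℤ S)) (Mathlib.Tactic.Linarith.sub_nonpos_of_le (Mathlib.Tactic.Linarith.natCast_nonneg ℤ n))])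
  · rw [← pow_mul, ← pow_mul]
    exact hp (by linarith only [])
  · rw [← pow_mul, ← pow_mul]
    have := Nat.mul_le_mul (show k + 3 ≤ n + 2 by omega) (s1 k hk)
    exact hp (by linarith only [hq, q1, hk, this])
  · refine le_trans (Nat.floor_le_of_le ?_) (hB (by omega))
    exact (Real.rpow_le_rpow_of_exponent_le b1.le κ1).trans_eq (Real.rpow_one _)
  · rw [← pow_mul]
    exact hp (Nat.mul_le_mul_left _ (by omega))
  · rw [← pow_mul]
    exact hp (Nat.mul_le_mul_left _ (Nat.succ_le_succ (s1 k hk)))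
  · refine hN2.trans ((Nat.mul_le_mul_right _ B1).trans ?_)
    rw [← pow_succ', ← pow_mul]
    exact hp (by linarith only [q1, hμ])
  · exact (Nat.lt_div_mul_add (by omega)).le.trans (((add_one_mul _ _).symm.le).trans
      (Nat.mul_le_mul_left _ (hB (by omega))))
  have hs : ∀ i ≤ n + 1, 2 * σ ≤
      ∑ p ∈ win (psOf W y) (fun i => B ^ (3 * q + i)) i, (omega f p : ℝ) / p := fun i hi => by
    rw [hwin i hi]
    refine le_trans (le_of_eq ?_) (h2 _ (by omega) (by omega))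
    rw [hσ]
    field_simp
    ring
  have he : ∀ i ≤ n + 1, ∀ j ≤ 16 * S + 2, σ ^ j / j.factorial ≤
      es (fun p => (omega f p : ℝ) / p) (win (psOf W y) (fun i => B ^ (3 * q + i)) i) j := by
    intro i hi j hj
    refine es_lower (γ := f.natDegree / B) (fun p hp => ⟨by positivity, ?_⟩) (by positivity)
      σ0.le j (le_trans ?_ (hs i hi))
    · obtain ⟨a1, a2, -⟩ := mem_win.1 hp
      exact div_le_div₀ (Nat.cast_nonneg _) (Nat.cast_le.2 (omega_le_natDegree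
        (hf.isPrimitive hd.ne') (hm p a1).1)) (by linarith only [b1])
        (Nat.cast_le.2 ((hB (by omega)).trans a2.le))
    · have a1 : (j : ℝ) * (f.natDegree / σ) ≤ B := le_trans (by gcongr) h4
      rw [← mul_div_assoc, div_le_comm₀ σ0 (by linarith only [b1]), mul_div_assoc] at a1
      linarith only [a1]
  have e0' : below (psOf W y) ((y : ℝ) + 1) = psOf W y := filter_true_of_mem fun p hp => by
    have : (p : ℝ) ≤ y := Nat.cast_le.2 (hm p hp).2.1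
    linarith only [this]
  have V0 := (H y).VV_pos ((y : ℝ) + 1)
  have h0 : σ * VV (psOf W y) (fun p => (omega f p : ℝ) / p) ((y : ℝ) + 1) ≤
      ∑ p ∈ win (psOf W y) (fun i => B ^ (3 * q + i)) 0, (omega f p : ℝ) / p *
        rSum 1 (B ^ (12 * (3 * q + 1)) : ℕ) ((psOf W y).filter (· < p))
          fun p => (omega f p : ℝ) / p := by
    have a1 := mul_le_mul_of_nonneg_right (hs 0 (Nat.zero_le _)) (half_pos V0).le
    refine le_trans (le_of_eq (by ring)) (a1.trans ?_)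
    rw [sum_mul]
    refine sum_le_sum fun p hp => mul_le_mul_of_nonneg_left ?_ (by positivity)
    obtain ⟨a2, -, a3⟩ := mem_win.1 hp
    have a4 : (psOf W y).filter (· < p) = below (psOf W y) p :=
      filter_congr fun r _ => Nat.cast_lt.symm
    have a5 : (p : ℝ) ≤ y := Nat.cast_le.2 (hm p a2).2.1
    rw [a4]
    refine le_trans ?_ (rosser_lower (H y) t0 t1 (Nat.one_lt_cast.2 (hm p a2).1.one_lt) ?_)
    · linarith only [H, a5, (H y).VV_anti (show (p : ℝ) ≤ y + 1 by linarith)]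
    · rw [mul_comm, pow_mul]
      exact_mod_cast Nat.pow_le_pow_left a3 12
  rw [VV, e0'] at V0 h0
  refine main.trans (add_le_add (mul_le_mul_of_nonneg_left (sub_le_sub_left ?_ _)
    (by positivity)) ?_)
  · refine (mul_le_mul_of_nonneg_right (min_le_left _ _) V0.le).trans ?_
    rw [mul_right_comm, mul_right_comm σ]
    refine mul_le_mul (mul_le_mul h0 (he 1 (by omega) _ (by omega)) (by positivity)
      (le_trans (by positivity) h0)) (prod_le_prod (fun _ _ => by positivity) fun k _ =>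
        he _ (by omega) _ (by have := s1 k k.2; omega)) (by positivity)
      (mul_nonneg (le_trans (by positivity) h0) (es_nonneg (fun _ _ => by positivity) _))
  · gcongr
    · exact Nat.floor_le (by positivity)
    · exact hB (by omega)

end Pool.Agent.Work.MP_51e72e_nt.Deg
end

-- merged part: Pool.Agent.Work.MP_51e72e_nt.SysDefs
section
/-!
Definitions for the improved Selberg sieve for systems of polynomials.
-/

set_option autoImplicit false

namespace Pool.Agent.Work.MP_51e72e_nt.Sys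

open Finset Pool.Agent.Lib.ANT Pool.Agent.Work.MP_51e72e_nt.Cub
  Pool.Agent.Work.MP_51e72e_nt.Cub.Sv

noncomputable section

/-- Selberg's weight -/
def Sel (h : ℕ → ℝ) (Ps : Finset ℕ) (z : ℝ) : Finset ℕ → ℝ := ∑ l ∈ D0 Ps z, ph h l

/-- the smoothed weight on the small primes -/
def Psi (h : ℕ → ℝ) (Q : Finset ℕ) (ξ : ℝ) : Finset ℕ → ℝ :=
  ∑ l ∈ Q.powerset, max (1 - Real.log (pr l) / Real.log ξ) 0 • ph h l

/-- the lower bound weight on the small primes -/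
def Xi (h : ℕ → ℝ) (Q : Finset ℕ) (ξ : ℝ) : Finset ℕ → ℝ :=
  Psi h Q ξ * Psi h Q ξ * (1 - ∑ p ∈ Q, ind {p})

/-- the alternating sum of the profile of Selberg's weight -/
def EE (k K j q a : ℕ) : ℝ :=
  ∑ i ∈ range (j + 1), (-1) ^ i * (K.choose i : ℝ) * ((q * (j - i) + a : ℕ) : ℝ) ^ k

/-- combinations of indicators with bounded coefficients and moduli in a range -/
def Rep2 (Q : Finset ℕ) (X : Finset ℕ → ℝ) (Y0 Y1 : ℕ) : Prop :=
  ∃ c : Finset ℕ → ℝ, (∀ T, |c T| ≤ 1) ∧ (∀ T, c T ≠ 0 → Y0 ≤ pr T ∧ pr T ≤ Y1) ∧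
    X = ∑ T ∈ Q.powerset, c T • ind T

/-- the smoothed count attached to two polynomials -/
def AY (f0 f : Polynomial ℤ) (W N L : ℕ) (Ps : Finset ℕ) (X0 X : Finset ℕ → ℝ) : ℝ :=
  (∑ z ∈ Icc 1 (N + L) ×ˢ range L,
    (if Nat.Coprime (f.eval ((z.1 : ℤ) - z.2)).natAbs W then 1 else 0) *
      (X0 (Ps.filter fun p : ℕ => (p : ℤ) ∣ f0.eval ((z.1 : ℤ) - z.2)) *
        X (Ps.filter fun p : ℕ => (p : ℤ) ∣ f.eval ((z.1 : ℤ) - z.2)))) / L

end

end Pool.Agent.Work.MP_51e72e_nt.Sys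
end

-- merged part: Pool.Agent.Work.MP_51e72e_nt.SysPsi
section
/-!
A lower bound sieve of arbitrary dimension.
-/

set_option autoImplicit false

namespace Pool.Agent.Work.MP_51e72e_nt.Sys

open Finset Pool.Agent.Lib.ANT Pool.Agent.Work.MP_51e72e_nt.Cub
  Pool.Agent.Work.MP_51e72e_nt.Cub.Sv

variable {g h : ℕ → ℝ} {Ps Q : Finset ℕ} {ξ : ℝ}

/-- the coefficients of the smoothed weight -/
noncomputable def psiA (ξ : ℝ) (l : Finset ℕ) : ℝ := max (1 - Real.log (pr l) / Real.log ξ) 0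

lemma psi_eq : Psi h Q ξ = ∑ l ∈ Q.powerset, psiA ξ l • ph h l := rfl

lemma psiA_nonneg (l : Finset ℕ) : 0 ≤ psiA ξ l := le_max_right _ _

lemma psiA_le_one (hξ : 0 < Real.log ξ) (l : Finset ℕ) : psiA ξ l ≤ 1 := by
  refine max_le ?_ zero_le_one
  have : 0 ≤ Real.log (pr l) / Real.log ξ := div_nonneg (Real.log_natCast_nonneg _) hξ.le
  linarith only [this]

lemma psiA_ne (hξ : 0 < Real.log ξ) (ξ0 : 0 < ξ) {l : Finset ℕ} (hl : psiA ξ l ≠ 0) :
    (pr l : ℝ) ≤ ξ := by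
  by_contra hc
  have h1 : Real.log ξ ≤ Real.log (pr l) := Real.log_le_log ξ0 (not_le.1 hc).le
  have h2 : 1 ≤ Real.log (pr l) / Real.log ξ := (one_le_div hξ).2 h1
  exact hl (max_eq_right (by linarith only [h2]))

lemma psiA_sq (hξ : 0 < Real.log ξ) (l : Finset ℕ) :
    1 - 2 * (Real.log (pr l) / Real.log ξ) ≤ psiA ξ l ^ 2 := by
  have : 0 ≤ Real.log (pr l) / Real.log ξ := div_nonneg (Real.log_natCast_nonneg _) hξ.le
  unfold psiA
  generalize Real.log (pr l) / Real.log ξ = x at *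
  rcases le_total (1 - x) 0 with c | c
  · rw [max_eq_right c]; linarith only [c]
  · rw [max_eq_left c]; nlinarith [sq_nonneg x]

lemma psi_log_insert {p : ℕ} {l : Finset ℕ} (hp : p.Prime) (hl : ∀ q ∈ l, q.Prime) (hn : p ∉ l) :
    Real.log (pr (insert p l)) = Real.log p + Real.log (pr l) := by
  have : pr (insert p l) = p * pr l := prod_insert hn
  rw [this, Nat.cast_mul, Real.log_mul (Nat.cast_ne_zero.2 hp.ne_zero)
    (Nat.cast_ne_zero.2 (pr_pos hl).ne')]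

lemma psiA_diff {p : ℕ} {l : Finset ℕ} (hp : p.Prime) (hl : ∀ q ∈ l, q.Prime) (hn : p ∉ l) :
    (psiA ξ l - psiA ξ (insert p l)) ^ 2 ≤ (Real.log p / Real.log ξ) ^ 2 := by
  rw [sq_le_sq]
  refine (abs_max_sub_max_le_abs _ _ _).trans (le_of_eq ?_)
  rw [psi_log_insert hp hl hn]
  congr 1; ring

lemma psi_sum_log (hQ : ∀ p ∈ Q, p.Prime) (hg : ∀ p ∈ Q, (1 - g p) * h p = g p) :
    ∑ l ∈ Q.powerset, (∏ p ∈ l, h p) * Real.log (pr l) =
      (∏ p ∈ Q, (1 + h p)) * ∑ p ∈ Q, g p * Real.log p := by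
  induction Q using Finset.induction_on with
  | empty => simp [pr]
  | insert p Q hp ih =>
    have hQ' : ∀ q ∈ Q, q.Prime := fun q hq => hQ q (mem_insert_of_mem hq)
    have ih' := ih hQ' fun q hq => hg q (mem_insert_of_mem hq)
    have e : ∑ l ∈ Q.powerset, (∏ q ∈ insert p l, h q) * Real.log (pr (insert p l)) =
        h p * Real.log p * ∑ l ∈ Q.powerset, (∏ q ∈ l, h q) +
          h p * ∑ l ∈ Q.powerset, (∏ p ∈ l, h p) * Real.log (pr l) := by
      rw [mul_sum, mul_sum, ← sum_add_distrib]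
      refine sum_congr rfl fun l hl => ?_
      have hn : p ∉ l := fun c => hp (mem_powerset.1 hl c)
      rw [prod_insert hn, psi_log_insert (hQ p (mem_insert_self _ _))
        (fun q hq => hQ' q (mem_powerset.1 hl hq)) hn]
      ring
    rw [sum_powerset_insert hp, e, ← prod_one_add, ih', prod_insert hp, sum_insert hp]
    linear_combination (∏ q ∈ Q, (1 + h q)) * Real.log p * hg p (mem_insert_self _ _)

lemma psi_EX_sq (W : Finset ℕ → ℝ) (I : Finset (Finset ℕ)) (c : Finset ℕ → ℝ) (κ : ℝ)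
    (hW : ∀ l ∈ I, ∀ l' ∈ I, EX g Ps (W * (ph h l * ph h l')) =
      if l = l' then κ * ∏ p ∈ l, h p else 0) :
    EX g Ps (W * ((∑ l ∈ I, c l • ph h l) * ∑ l ∈ I, c l • ph h l)) =
      κ * ∑ l ∈ I, c l ^ 2 * ∏ p ∈ l, h p := by
  rw [sum_mul_sum, mul_sum, map_sum, mul_sum]
  refine sum_congr rfl fun l hl => ?_
  rw [mul_sum, map_sum, sum_eq_single_of_mem l hl fun l' hl' ne => ?_]
  · rw [smul_mul_smul_comm, mul_smul_comm, map_smul, hW l hl l hl, if_pos rfl, smul_eq_mul]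
    ring
  · rw [smul_mul_smul_comm, mul_smul_comm, map_smul, hW l hl l' hl', if_neg ne.symm, smul_zero]

lemma psi_EX_ind (h0 : ∀ p ∈ Ps, 0 ≤ h p) (hg : ∀ p ∈ Ps, (1 - g p) * h p = g p) {p : ℕ}
    (hp : p ∈ Ps) {l l' : Finset ℕ} (hl : l ⊆ Ps) (hl' : l' ⊆ Ps) (n : p ∉ l) (n' : p ∉ l') :
    EX g Ps (ind {p} * (ph h l * ph h l')) = if l = l' then g p * ∏ p ∈ l, h p else 0 := by
  have pos : 0 < 1 + h p := by linarith [h0 p hp]
  have e : (1 + h p) • (ind {p} * (ph h l * ph h l')) =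
      h p • (ph h l * ph h l') - ph h (insert p l) * ph h l' := by
    funext S
    simp only [Pi.smul_apply, Pi.mul_apply, Pi.sub_apply, smul_eq_mul, ind, ph, prod_insert n,
      singleton_subset_iff]
    split_ifs <;> ring
  have e2 := congrArg (EX g Ps) e
  rw [map_smul, map_sub, map_smul, EX_ph hg hl hl', EX_ph hg (insert_subset hp hl) hl',
    if_neg (show insert p l ≠ l' from fun c => n' (c ▸ mem_insert_self p l)), sub_zero,
    smul_eq_mul, smul_eq_mul] at e2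
  apply mul_left_cancel₀ pos.ne'
  rw [e2]
  split_ifs
  · linear_combination (∏ q ∈ l, h q) * hg p hp
  · simp

lemma psi_ind_mul {p : ℕ} (hp : p ∈ Q) : ind {p} * (Psi h Q ξ * Psi h Q ξ) = ind {p} *
    ((∑ l ∈ (Q.erase p).powerset, (psiA ξ l - psiA ξ (insert p l)) • ph h l) *
      ∑ l ∈ (Q.erase p).powerset, (psiA ξ l - psiA ξ (insert p l)) • ph h l) := by
  funext S
  simp only [Pi.mul_apply]
  by_cases hS : p ∈ S
  · have : Psi h Q ξ S =
        (∑ l ∈ (Q.erase p).powerset, (psiA ξ l - psiA ξ (insert p l)) • ph h l) S := by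
      rw [psi_eq]
      conv_lhs => rw [← insert_erase hp, sum_powerset_insert (notMem_erase p Q)]
      rw [← sum_add_distrib, Finset.sum_apply, Finset.sum_apply]
      refine sum_congr rfl fun l hl => ?_
      have hn : p ∉ l := fun c => notMem_erase p Q (mem_powerset.1 hl c)
      simp only [Pi.add_apply, Pi.smul_apply, smul_eq_mul, ph, prod_insert hn, if_pos hS]
      ring
    rw [this]
  · simp [ind, hS]

theorem Xi_le (hQ : ∀ p ∈ Q, p.Prime) (h0 : ∀ p ∈ Q, 0 ≤ h p) (hξ : 1 < ξ) (T : Finset ℕ) :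
    Xi h Q ξ T ≤ if Disjoint Q T then (∏ p ∈ Q, (1 + h p)) ^ 2 else 0 := by
  have L0 := Real.log_pos hξ
  simp only [Xi, Pi.mul_apply, Pi.sub_apply, Pi.one_apply, Finset.sum_apply]
  split_ifs with hd
  · have e1 : ∑ p ∈ Q, ind {p} T = 0 := sum_eq_zero fun p hp => by
      simp [ind, disjoint_left.1 hd hp]
    have e2 : ∀ l ∈ Q.powerset, ph h l T = ∏ p ∈ l, h p := fun l hl =>
      prod_congr rfl fun p hp => if_neg (disjoint_left.1 hd (mem_powerset.1 hl hp))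
    have e3 : ∀ l ∈ Q.powerset, 0 ≤ ∏ p ∈ l, h p := fun l hl =>
      prod_nonneg fun p hp => h0 p (mem_powerset.1 hl hp)
    have e4 : Psi h Q ξ T = ∑ l ∈ Q.powerset, psiA ξ l * ∏ p ∈ l, h p := by
      rw [psi_eq, Finset.sum_apply]
      exact sum_congr rfl fun l hl => by rw [Pi.smul_apply, e2 l hl, smul_eq_mul]
    have e5 : 0 ≤ Psi h Q ξ T := e4 ▸ sum_nonneg fun l hl => mul_nonneg (psiA_nonneg l) (e3 l hl)
    have e6 : Psi h Q ξ T ≤ ∏ p ∈ Q, (1 + h p) := by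
      rw [e4, prod_one_add]
      exact sum_le_sum fun l hl => mul_le_of_le_one_left (e3 l hl) (psiA_le_one L0 l)
    rw [e1, sub_zero, mul_one, sq]
    exact mul_self_le_mul_self e5 e6
  · obtain ⟨p, hp, hT⟩ := not_disjoint_iff.1 hd
    have e1 : ind {p} T ≤ ∑ p ∈ Q, ind {p} T :=
      single_le_sum (f := fun p => ind {p} T) (fun q _ => by unfold ind; split_ifs <;> simp) hp
    have e2 : ind {p} T = 1 := by simp [ind, hT]
    exact mul_nonpos_of_nonneg_of_nonpos (mul_self_nonneg _) (by linarith)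

theorem EX_Xi (hQ : ∀ p ∈ Q, p.Prime) (hsub : Q ⊆ Ps) (h0 : ∀ p ∈ Ps, 0 ≤ h p)
    (hg : ∀ p ∈ Ps, (1 - g p) * h p = g p) {A s lam : ℝ} (hlam : 0 < lam) (s1 : 1 ≤ s)
    (hs : 6 * A ≤ s) (hξ : Real.log ξ = s * lam) (ξ0 : 0 < ξ) (h1 : ∀ p ∈ Q, Real.log p ≤ lam)
    (h2 : ∑ p ∈ Q, g p * Real.log p ≤ A * lam) :
    (∏ p ∈ Q, (1 + h p)) / 2 ≤ EX g Ps (Xi h Q ξ) ∧
      (∏ p ∈ Q, (1 + h p)) / 2 ≤ sqfSum Q h ξ := by
  have s0 : 0 < s := by linarith
  have L0 : 0 < Real.log ξ := by rw [hξ]; positivity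
  have g0 : ∀ p ∈ Q, 0 ≤ g p := fun p hp => by
    have a1 := h0 p (hsub hp)
    have a2 := hg p (hsub hp)
    by_contra c
    linarith only [a1, a2, c, mul_nonneg_of_nonpos_of_nonpos (Mathlib.Tactic.Linarith.sub_nonpos_of_le a1) (le_of_lt (Mathlib.Tactic.Linarith.sub_neg_of_lt (lt_of_not_ge c)))]
  set Γ := ∏ p ∈ Q, (1 + h p) with hΓ
  have Γ0 : 0 ≤ Γ := prod_nonneg fun p hp => by linarith [h0 p (hsub hp)]
  set σ := ∑ p ∈ Q, g p * Real.log p with hσ
  have σ0 : 0 ≤ σ := sum_nonneg fun p hp => mul_nonneg (g0 p hp) (Real.log_natCast_nonneg _)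
  have σ1 : σ / Real.log ξ ≤ 1 / 6 := by
    rw [div_le_iff₀ L0, hξ]; linarith only [h2, hlam, hs, mul_nonneg_of_nonpos_of_nonpos (le_of_lt (Mathlib.Tactic.Linarith.sub_neg_of_lt hlam)) (Mathlib.Tactic.Linarith.sub_nonpos_of_le hs)]
  have H0 : ∀ l ∈ Q.powerset, 0 ≤ ∏ p ∈ l, h p := fun l hl =>
    prod_nonneg fun p hp => h0 p (hsub (mem_powerset.1 hl hp))
  have k1 : Γ * (1 - 2 * (σ / Real.log ξ)) ≤ ∑ l ∈ Q.powerset, psiA ξ l ^ 2 * ∏ p ∈ l, h p := by
    have e : Γ * (1 - 2 * (σ / Real.log ξ)) = ∑ l ∈ Q.powerset,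
        (1 - 2 * (Real.log (pr l) / Real.log ξ)) * ∏ p ∈ l, h p := by
      have e1 := psi_sum_log hQ fun p hp => hg p (hsub hp)
      calc _ = Γ - 2 / Real.log ξ * (Γ * σ) := by ring
        _ = _ := by
          rw [hΓ, hσ, ← e1, prod_one_add, mul_sum, ← sum_sub_distrib]
          exact sum_congr rfl fun l _ => by ring
    rw [e]
    exact sum_le_sum fun l hl => mul_le_mul_of_nonneg_right (psiA_sq L0 l) (H0 l hl)
  have k2 : EX g Ps (Psi h Q ξ * Psi h Q ξ) = ∑ l ∈ Q.powerset, psiA ξ l ^ 2 * ∏ p ∈ l, h p := by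
    have := psi_EX_sq (g := g) (h := h) (Ps := Ps) 1 Q.powerset (psiA ξ) 1 fun l hl l' hl' => by
      rw [one_mul, one_mul, EX_ph hg ((mem_powerset.1 hl).trans hsub)
        ((mem_powerset.1 hl').trans hsub)]
    rwa [one_mul, one_mul] at this
  have k3 : ∀ p ∈ Q, EX g Ps (ind {p} * (Psi h Q ξ * Psi h Q ξ)) ≤
      Γ / Real.log ξ * (g p * Real.log p) := by
    intro p hp
    have sub : ∀ l ∈ (Q.erase p).powerset, l ⊆ Q := fun l hl =>
      (mem_powerset.1 hl).trans (erase_subset _ _)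
    have nm : ∀ l ∈ (Q.erase p).powerset, p ∉ l := fun l hl c =>
      notMem_erase p Q (mem_powerset.1 hl c)
    rw [psi_ind_mul hp, psi_EX_sq _ _ _ (g p) fun l hl l' hl' =>
      psi_EX_ind h0 hg (hsub hp) ((sub l hl).trans hsub) ((sub l' hl').trans hsub) (nm l hl)
        (nm l' hl')]
    have c1 : ∑ l ∈ (Q.erase p).powerset, (psiA ξ l - psiA ξ (insert p l)) ^ 2 * ∏ p ∈ l, h p ≤
        (Real.log p / Real.log ξ) ^ 2 * Γ := by
      rw [hΓ, prod_one_add, mul_sum]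
      refine (sum_le_sum fun l hl => mul_le_mul_of_nonneg_right
        (psiA_diff (hQ p hp) (fun q hq => hQ q (sub l hl hq)) (nm l hl))
        (H0 l (mem_powerset.2 (sub l hl)))).trans ?_
      exact sum_le_sum_of_subset_of_nonneg (powerset_mono.2 (erase_subset _ _))
        fun l hl _ => mul_nonneg (sq_nonneg _) (H0 l hl)
    have c2 : Real.log p / Real.log ξ ≤ 1 := by
      rw [div_le_one L0, hξ]
      linarith only [h1, hp, hlam, s1, h1 p hp, mul_nonneg_of_nonpos_of_nonpos (le_of_lt (Mathlib.Tactic.Linarith.sub_neg_of_lt hlam)) (Mathlib.Tactic.Linarith.sub_nonpos_of_le s1)]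
    have c3 : 0 ≤ Real.log p / Real.log ξ := div_nonneg (Real.log_natCast_nonneg _) L0.le
    have c4 : (Real.log p / Real.log ξ) ^ 2 ≤ Real.log p / Real.log ξ := by linarith only [c2, c3, mul_nonneg_of_nonpos_of_nonpos (Mathlib.Tactic.Linarith.sub_nonpos_of_le c2) (Mathlib.Tactic.Linarith.sub_nonpos_of_le c3)]
    calc _ ≤ g p * (Real.log p / Real.log ξ * Γ) :=
          mul_le_mul_of_nonneg_left (c1.trans (mul_le_mul_of_nonneg_right c4 Γ0)) (g0 p hp)
      _ = _ := by ring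
  have k4 : EX g Ps (Xi h Q ξ) = EX g Ps (Psi h Q ξ * Psi h Q ξ) -
      ∑ p ∈ Q, EX g Ps (ind {p} * (Psi h Q ξ * Psi h Q ξ)) := by
    rw [Xi, mul_sub, mul_one, map_sub, mul_sum, map_sum]
    simp only [mul_comm]
  have k5 : ∑ p ∈ Q, EX g Ps (ind {p} * (Psi h Q ξ * Psi h Q ξ)) ≤ Γ * (σ / Real.log ξ) := by
    refine (sum_le_sum k3).trans (le_of_eq ?_)
    rw [← mul_sum]; ring
  have k6 : ∑ l ∈ Q.powerset, psiA ξ l ^ 2 * ∏ p ∈ l, h p ≤ sqfSum Q h ξ := by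
    refine sum_le_sum fun l hl => ?_
    by_cases c : psiA ξ l = 0
    · rw [c]
      split_ifs
      · simpa using H0 l hl
      · simp
    · rw [if_pos (show ((∏ p ∈ l, p : ℕ) : ℝ) ≤ ξ from psiA_ne L0 ξ0 c)]
      exact mul_le_of_le_one_left (H0 l hl) (pow_le_one₀ (psiA_nonneg l) (psiA_le_one L0 l))
  have k7 : Γ * (σ / Real.log ξ) ≤ Γ * (1 / 6) := mul_le_mul_of_nonneg_left σ1 Γ0
  constructor
  · rw [k4, k2]; linarith only [k1, k5, k7]
  · linarith only [Γ0, k1, k6, k7]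

lemma rep_Psi (hQ : ∀ p ∈ Q, p.Prime) (hh : ∀ p ∈ Q, 0 ≤ h p) (hξ : 1 < ξ) :
    Rep Q (Psi h Q ξ) (∏ p ∈ Q, (1 + h p)) ξ := by
  have L0 := Real.log_pos hξ
  refine ⟨fun T => ∑ l ∈ Q.powerset with T ⊆ l,
    psiA ξ l * ((∏ p ∈ T, -(1 + h p)) * ∏ p ∈ l \ T, h p), fun T => ?_, fun T hT => ?_, ?_⟩
  · beta_reduce
    by_cases hT : T ⊆ Q
    · have a1 : |∏ p ∈ T, -(1 + h p)| = ∏ p ∈ T, (1 + h p) := by
        rw [abs_prod]
        exact prod_congr rfl fun p hp => by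
          rw [abs_neg, abs_of_nonneg (by linarith [hh p (hT hp)])]
      have a0 : ∀ V ⊆ Q \ T, 0 ≤ ∏ p ∈ V, h p := fun V hV =>
        prod_nonneg fun p hp => hh p (mem_sdiff.1 (hV hp)).1
      have a2 : ∀ l ∈ Q.powerset.filter (T ⊆ ·), l \ T ⊆ Q \ T := fun l hl =>
        sdiff_subset_sdiff (mem_powerset.1 (mem_filter.1 hl).1) (subset_refl _)
      have a3 : 0 ≤ ∏ p ∈ T, (1 + h p) := prod_nonneg fun p hp => by linarith [hh p (hT hp)]
      refine (abs_sum_le_sum_abs _ _).trans ((sum_le_sum (g := fun l =>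
        (∏ p ∈ T, (1 + h p)) * ∏ p ∈ l \ T, h p) fun l hl => ?_).trans ?_)
      · rw [abs_mul, abs_mul, a1, abs_of_nonneg (a0 _ (a2 l hl)), abs_of_nonneg (psiA_nonneg l)]
        exact mul_le_of_le_one_left (mul_nonneg a3 (a0 _ (a2 l hl))) (psiA_le_one L0 l)
      rw [← mul_sum, ← prod_sdiff hT, mul_comm]
      refine mul_le_mul_of_nonneg_right ?_ a3
      rw [prod_one_add, ← sum_image (g := fun l => l \ T) (f := fun V => ∏ p ∈ V, h p)]
      · refine sum_le_sum_of_subset_of_nonneg (fun V hV => ?_)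
          fun V hV _ => a0 V (mem_powerset.1 hV)
        obtain ⟨l, hl, rfl⟩ := mem_image.1 hV
        exact mem_powerset.2 (a2 l hl)
      · intro l hl l' hl' e
        rw [← sdiff_union_of_subset (mem_filter.1 (mem_coe.1 hl)).2,
          ← sdiff_union_of_subset (mem_filter.1 (mem_coe.1 hl')).2]
        exact congrArg (· ∪ T) e
    · rw [filter_eq_empty_iff.2 fun l hl (h1 : T ⊆ l) => hT (h1.trans (mem_powerset.1 hl)),
        sum_empty, abs_zero]
      exact prod_nonneg fun p hp => by linarith [hh p hp]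
  · obtain ⟨l, hl, hne⟩ := exists_ne_zero_of_sum_ne_zero hT
    obtain ⟨h1, h2⟩ := mem_filter.1 hl
    exact (Nat.cast_le.2 (pr_mono (fun p hp => hQ p (mem_powerset.1 h1 hp)) h2)).trans
      (psiA_ne L0 (by linarith) (left_ne_zero_of_mul hne))
  · simp only [psi_eq, ph_expand, sum_smul, smul_sum, smul_smul]
    refine sum_comm' fun l T => ?_
    simp only [mem_powerset, mem_filter]
    exact ⟨fun h1 => ⟨h1, h1.2.trans h1.1⟩, fun h1 => h1.1⟩

theorem rep_Xi (hQ : ∀ p ∈ Q, p.Prime) (h0 : ∀ p ∈ Q, 0 ≤ h p) (hξ : 1 < ξ) {y : ℝ} (y1 : 1 ≤ y)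
    (hy : ∀ p ∈ Q, (p : ℝ) ≤ y) {D : ℕ} (hD : ∀ U ⊆ Q, (pr U : ℝ) ≤ ξ * ξ * y → 2 ^ U.card ≤ D) :
    Rep Q (Xi h Q ξ) (2 * (∏ p ∈ Q, (1 + h p)) ^ 2 * (D : ℝ) ^ 4) (ξ * ξ * y) := by
  have r1 := Rep.mul hQ (rep_Psi hQ h0 hξ) (rep_Psi hQ h0 hξ) (D := D) fun U hU hM =>
    hD U hU (hM.trans (le_mul_of_one_le_right (by positivity) y1))
  have r2 := rep_of (Q := Q) ({()} : Finset Unit) (fun _ => ∅) (fun _ => (1 : ℝ)) (C := 1) (M := y)
    (K := 1) zero_le_one (by simp) (by simp) (by simpa [pr] using y1)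
    (fun U _ _ => (card_filter_le _ _).trans (by simp))
  have r3 := rep_of (Q := Q) Q (fun p => {p}) (fun _ => (1 : ℝ)) (C := 1) (M := y)
    (K := 1) zero_le_one (by simp) (by simp) (by simpa [pr] using hy)
    (fun U _ _ => card_le_one.2 fun a ha b hb =>
      singleton_injective ((mem_filter.1 ha).2.trans (mem_filter.1 hb).2.symm))
  have r4 := Rep.add_smul r2 r3 (a := -1) (A := 1) (by simp)
  have e : (∑ i ∈ ({()} : Finset Unit), (1 : ℝ) • ind ∅) + (-1 : ℝ) • ∑ p ∈ Q, (1 : ℝ) • ind {p} =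
      1 - ∑ p ∈ Q, ind {p} := by
    funext S
    simp [ind, sub_eq_add_neg]
  rw [e] at r4
  refine (Rep.mul hQ r1 r4 hD).mono (subset_refl _) (le_of_eq ?_) le_rfl
  push_cast; ring

end Pool.Agent.Work.MP_51e72e_nt.Sys
end
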