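import Pool.Agent.Work.MP_51e72e_nt.SysPsi
import Pool.Agent.Work.MP_51e72e_nt.LPSmooth2

-- merged part: Pool.Agent.Work.MP_51e72e_nt.SysLev
section
/-!
The multilinear level of distribution applied to products of sieve weights.
-/

set_option autoImplicit false

namespace Pool.Agent.Work.MP_51e72e_nt.Sys

open Finset Pool.Agent.Lib.ANT Pool.Agent.Work.MP_51e72e_nt.Cub
  Pool.Agent.Work.MP_51e72e_nt.Cub.Sv
open Pool.Agent.Work.MP_51e72e_nt.Deg (LevelN adm)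

lemma rep2_apply {Q : Finset ℕ} (c : Finset ℕ → ℝ) (S : Finset ℕ) :
    (∑ T ∈ Q.powerset, c T • ind T) S =
      ∑ T ∈ Q.powerset.filter (fun T => c T ≠ 0), c T * ind T S := by
  rw [Finset.sum_apply, sum_filter]
  refine sum_congr rfl fun T _ => ?_
  by_cases h : c T = 0 <;> simp [h]

lemma rep2_EX {Q Ps : Finset ℕ} (hQ : Q ⊆ Ps) (c : Finset ℕ → ℝ) (g : ℕ → ℝ) :
    EX g Ps (∑ T ∈ Q.powerset, c T • ind T) =
      ∑ T ∈ Q.powerset.filter (fun T => c T ≠ 0), c T * ∏ p ∈ T, g p := by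
  rw [map_sum, sum_filter]
  refine sum_congr rfl fun T hT => ?_
  rw [map_smul, EX_ind g ((mem_powerset.1 hT).trans hQ)]
  by_cases h : c T = 0 <;> simp [h]

theorem AY_multi {f0 f : Polynomial ℤ} {W N L n M0 M1 Dm : ℕ} {Y0 Y1 : ℕ → ℕ} {E : ℝ}
    {Ps Q0 : Finset ℕ} {Q : ℕ → Finset ℕ} {X0 : Finset ℕ → ℝ} {X : ℕ → Finset ℕ → ℝ}
    (hPs : ∀ p ∈ Ps, p.Prime ∧ Nat.Coprime p W) (hW : 0 < W) (s0 : Q0 ⊆ Ps)
    (s1 : ∀ k < n, Q k ⊆ Ps) (d0 : ∀ k < n, Disjoint Q0 (Q k))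
    (d1 : ∀ k < n, ∀ k' < n, k ≠ k' → Disjoint (Q k) (Q k'))
    (hX0 : Rep2 Q0 X0 M0 M1) (hX : ∀ k < n, Rep2 (Q k) (X k) (Y0 k) (Y1 k))
    (r0 : ∀ T ⊆ Q0, pr T ≤ M1 → (Rt f0 (pr T)).card ≤ Dm)
    (r1 : ∀ k < n, ∀ T ⊆ Q k, pr T ≤ Y1 k → (Rt f (pr T)).card ≤ Dm)
    (hLev : LevelN f0 n W N L M0 M1 Dm Y0 Y1 E) :
    |AY f0 f W N L Ps X0 (fun T => ∏ k : Fin n, X k T) -
      ((N : ℝ) + L) * ((adm f W).card / W) * (EX (fun p => (omega f0 p : ℝ) / p) Ps X0 *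
        ∏ k : Fin n, EX (fun p => (omega f p : ℝ) / p) Ps (X k))| ≤ W * E := by
  classical
  obtain ⟨c0, b0, m0, rfl⟩ := hX0
  choose! c b1 m1 hc using hX
  have hP : ∀ p ∈ Ps, p.Prime := fun p hp => (hPs p hp).1
  have cW : ∀ T ⊆ Ps, Nat.Coprime (pr T) W := fun T hT =>
    Nat.Coprime.prod_left fun p hp => (hPs p (hT hp)).2
  set A0 := Q0.powerset.filter (fun T => c0 T ≠ 0) with hA0
  set A : ℕ → Finset (Finset ℕ) := fun k => (Q k).powerset.filter (fun T => c k T ≠ 0) with hA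
  have a0 : ∀ T ∈ A0, T ⊆ Q0 ∧ M0 ≤ pr T ∧ pr T ≤ M1 := fun T hT =>
    ⟨mem_powerset.1 (mem_filter.1 hT).1, m0 T (mem_filter.1 hT).2⟩
  have a1 : ∀ k < n, ∀ T ∈ A k, T ⊆ Q k ∧ Y0 k ≤ pr T ∧ pr T ≤ Y1 k := fun k hk T hT =>
    ⟨mem_powerset.1 (mem_filter.1 hT).1, m1 k hk T (mem_filter.1 hT).2⟩
  set I : Finset (Σ _ : Finset ℕ, ℕ) := A0.sigma fun T => Rt f0 (pr T) with hI
  set J : ℕ → Finset (Σ _ : Finset ℕ, ℕ) := fun k => (A k).sigma fun S => Rt f (pr S) with hJ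
  have mI : ∀ i ∈ I, i.1 ∈ A0 := fun i hi => (mem_sigma.1 hi).1
  have mJ : ∀ k, ∀ j ∈ J k, j.1 ∈ A k := fun k j hj => (mem_sigma.1 hj).1
  have lev := LP.level_classes hLev hW I J (fun i => pr i.1) (fun i => i.2) (fun j => pr j.1)
    (fun j => j.2) (fun i hi => ?_)
    (Deg.card_fibre_le (tt := id) hP (Set.injOn_id _) fun T hT =>
      ⟨(a0 T hT).1.trans s0, r0 T (a0 T hT).1 (a0 T hT).2.2⟩)
    (fun k hk j hj => ⟨(a1 k hk _ (mJ k j hj)).2.1, (a1 k hk _ (mJ k j hj)).2.2,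
      cW _ ((a1 k hk _ (mJ k j hj)).1.trans (s1 k hk))⟩)
    (fun k hk => Deg.card_fibre_le (tt := id) hP (Set.injOn_id _) fun T hT =>
      ⟨(a1 k hk T hT).1.trans (s1 k hk), r1 k hk T (a1 k hk T hT).1 (a1 k hk T hT).2.2⟩)
    (fun k hk k' hk' h j hj j' hj' => Deg.cop_pr hP ((a1 k hk _ (mJ k j hj)).1.trans (s1 k hk))
      ((a1 k' hk' _ (mJ k' j' hj')).1.trans (s1 k' hk'))
      ((d1 k hk k' hk' h).mono (a1 k hk _ (mJ k j hj)).1 (a1 k' hk' _ (mJ k' j' hj')).1))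
    (fun i hi k hk j hj => Deg.cop_pr hP ((a0 _ (mI i hi)).1.trans s0)
      ((a1 k hk _ (mJ k j hj)).1.trans (s1 k hk))
      ((d0 k hk).mono (a0 _ (mI i hi)).1 (a1 k hk _ (mJ k j hj)).1))
    (fun i => c0 i.1) (fun j => ∏ k : Fin n, c k (j k).1) (fun i _ => b0 _) (fun j _ => ?_)
    (fun u => Nat.Coprime (f.eval u).natAbs W) (fun a b => adm_congr)
  rotate_left
  · have h1 := (a0 _ (mI i hi)).1.trans s0
    exact ⟨squarefree_prod_primes _ fun p hp => hP p (h1 hp), cW _ h1, (a0 _ (mI i hi)).2.1,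
      (a0 _ (mI i hi)).2.2, (mem_filter.1 (mem_sigma.1 hi).2).2⟩
  · rw [abs_prod]
    exact prod_le_one (fun k _ => abs_nonneg _) fun k _ => b1 k k.2 _
  refine le_trans (le_of_eq (congrArg _ ?_)) lev
  simp only [mul_sub, sum_sub_distrib]
  congr 1
  · simp only [AY, card_filter, ← mul_div_assoc, ← sum_div]
    refine congrArg (· / (L : ℝ)) ?_
    simp only [Nat.cast_sum, mul_sum]
    simp only [sum_comm (t := Icc 1 (N + L) ×ˢ range L)]
    refine sum_congr rfl fun z _ => ?_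
    generalize (z.1 : ℤ) - z.2 = u
    have f2 : (∑ T ∈ Q0.powerset, c0 T • ind T) (Ps.filter fun p : ℕ => (p : ℤ) ∣ f0.eval u) =
        ∑ i ∈ I, c0 i.1 * if (pr i.1 : ℤ) ∣ u - i.2 then 1 else 0 := by
      rw [rep2_apply, hI, sum_sigma]
      exact sum_congr rfl fun T hT => by
        rw [← Deg.sum_Rt hP ((a0 T hT).1.trans s0), mul_sum]
    have f3 : ∏ k : Fin n, X k (Ps.filter fun p : ℕ => (p : ℤ) ∣ f.eval u) =
        ∑ j ∈ Deg.tup J n, ∏ k : Fin n,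
          (c k (j k).1 * if (pr (j k).1 : ℤ) ∣ u - (j k).2 then 1 else 0) := by
      rw [Deg.tup, ← prod_univ_sum (fun k : Fin n => J k)
        fun k j => c k j.1 * if (pr j.1 : ℤ) ∣ u - j.2 then (1 : ℝ) else 0]
      refine prod_congr rfl fun k _ => ?_
      rw [hc k k.2, rep2_apply, hJ, sum_sigma]
      exact sum_congr rfl fun S hS => by
        rw [← Deg.sum_Rt hP ((a1 k k.2 S hS).1.trans (s1 k k.2)), mul_sum]
    rw [f2, f3, sum_mul_sum, mul_sum]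
    refine sum_congr rfl fun i hi => ?_
    rw [mul_sum]
    refine sum_congr rfl fun j hj => ?_
    simp only [prod_mul_distrib, prod_boole]
    by_cases h1 : (pr i.1 : ℤ) ∣ u - i.2 <;>
      by_cases h2 : Nat.Coprime (f.eval u).natAbs W <;>
      by_cases h3 : ∀ k, (pr (j k).1 : ℤ) ∣ u - (j k).2 <;> simp [h1, h2, h3]
  · have f2 : EX (fun p => (omega f0 p : ℝ) / p) Ps (∑ T ∈ Q0.powerset, c0 T • ind T) =
        ∑ i ∈ I, c0 i.1 * (pr i.1 : ℝ)⁻¹ := by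
      rw [rep2_EX s0, hI, sum_sigma]
      exact sum_congr rfl fun T hT => by
        rw [← Deg.sum_Rt_inv fun p hp => hP p (s0 ((a0 T hT).1 hp)), mul_sum]
    have f3 : ∏ k : Fin n, EX (fun p => (omega f p : ℝ) / p) Ps (X k) =
        ∑ j ∈ Deg.tup J n, ∏ k : Fin n, (c k (j k).1 * (pr (j k).1 : ℝ)⁻¹) := by
      rw [Deg.tup, ← prod_univ_sum (fun k : Fin n => J k) fun k j => c k j.1 * (pr j.1 : ℝ)⁻¹]
      refine prod_congr rfl fun k _ => ?_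
      rw [hc k k.2, rep2_EX (s1 k k.2), hJ, sum_sigma]
      exact sum_congr rfl fun S hS => by
        rw [← Deg.sum_Rt_inv fun p hp => hP p (s1 k k.2 ((a1 k k.2 S hS).1 hp)), mul_sum]
    rw [f2, f3, sum_mul_sum, mul_sum]
    refine sum_congr rfl fun i _ => ?_
    rw [mul_sum]
    refine sum_congr rfl fun j _ => ?_
    rw [prod_mul_distrib, prod_inv_distrib, adm]
    push_cast
    ring

end Pool.Agent.Work.MP_51e72e_nt.Sys
end

-- merged part: Pool.Agent.Work.MP_51e72e_nt.SysSieve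
section
/-!
Selberg's sieve improved by the slack on products of window primes.
-/

set_option autoImplicit false

namespace Pool.Agent.Work.MP_51e72e_nt.Sys

open Finset Pool.Agent.Lib.ANT Pool.Agent.Work.MP_51e72e_nt.Cub
  Pool.Agent.Work.MP_51e72e_nt.Cub.Sv
open Pool.Agent.Work.MP_51e72e_nt.Deg (LevelN adm win es)

/-- the number of subsets of given size -/
noncomputable def cnt (Q : Finset ℕ) (j : ℕ) : Finset ℕ → ℝ := ∑ S ∈ Q.powersetCard j, ind S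

lemma cnt_eq (Q : Finset ℕ) (j : ℕ) (T : Finset ℕ) : cnt Q j T = ((Q ∩ T).card.choose j : ℕ) := by
  rw [cnt, Finset.sum_apply, ← card_powersetCard]
  simp only [ind]
  rw [sum_boole]
  congr 2
  ext S
  simp only [mem_filter, mem_powersetCard, subset_inter_iff]
  tauto

lemma rep2_of {ι : Type} {Q : Finset ℕ} (I : Finset ι) (t : ι → Finset ℕ) (c : ι → ℝ) {Y0 Y1 : ℕ}
    (hinj : Set.InjOn t I) (ht : ∀ i ∈ I, t i ⊆ Q) (hc : ∀ i ∈ I, |c i| ≤ 1)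
    (hM : ∀ i ∈ I, c i ≠ 0 → Y0 ≤ pr (t i) ∧ pr (t i) ≤ Y1) :
    Rep2 Q (∑ i ∈ I, c i • ind (t i)) Y0 Y1 := by
  refine ⟨fun U => ∑ i ∈ I with t i = U, c i, fun U => ?_, fun U hU => ?_, ?_⟩
  · have h1 : (I.filter fun i => t i = U).card ≤ 1 := card_le_one.2 fun a ha b hb =>
      hinj (mem_filter.1 ha).1 (mem_filter.1 hb).1 ((mem_filter.1 ha).2.trans (mem_filter.1 hb).2.symm)
    refine (abs_sum_le_sum_abs _ _).trans ((sum_le_card_nsmul _ _ 1 fun i hi =>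
      hc i (mem_filter.1 hi).1).trans ?_)
    rw [nsmul_eq_mul, mul_one]
    exact_mod_cast h1
  · obtain ⟨i, hi, h⟩ := exists_ne_zero_of_sum_ne_zero hU
    obtain ⟨h1, rfl⟩ := mem_filter.1 hi
    exact hM i h1 h
  · rw [← sum_fiberwise_of_maps_to (g := t) (t := Q.powerset) fun i hi => mem_powerset.2 (ht i hi)]
    refine sum_congr rfl fun U _ => ?_
    rw [sum_smul]
    exact sum_congr rfl fun i hi => by rw [(mem_filter.1 hi).2]

lemma rep2_mul {A Q Ps : Finset ℕ} {X : Finset ℕ → ℝ} {j lo hi Mx Y0 Y1 : ℕ} (g : ℕ → ℝ)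
    (hPs : ∀ p ∈ Ps, p.Prime) (hA : A ⊆ Ps) (hQ : Q ⊆ Ps) (hd : Disjoint A Q)
    (hX : Rep Q X 1 Mx) (h : ∀ p ∈ A, lo ≤ p ∧ p ≤ hi) (h0 : Y0 ≤ lo ^ j)
    (h1 : hi ^ j * Mx ≤ Y1) :
    Rep2 (A ∪ Q) (cnt A j * X) Y0 Y1 ∧ EX g Ps (cnt A j * X) = es g A j * EX g Ps X := by
  obtain ⟨c, c1, c2, rfl⟩ := hX
  have e : cnt A j * ∑ T ∈ Q.powerset, c T • ind T =
      ∑ x ∈ A.powersetCard j ×ˢ Q.powerset, c x.2 • ind (x.1 ∪ x.2) := by
    rw [cnt, sum_mul_sum, sum_product]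
    exact sum_congr rfl fun S _ => sum_congr rfl fun T _ => by rw [mul_smul_comm, ind_mul]
  have hm : ∀ x ∈ A.powersetCard j ×ˢ Q.powerset, x.1 ⊆ A ∧ x.1.card = j ∧ x.2 ⊆ Q ∧
      Disjoint x.1 x.2 := fun x hx => by
    have a1 := mem_powersetCard.1 (mem_product.1 hx).1
    have a2 := mem_powerset.1 (mem_product.1 hx).2
    exact ⟨a1.1, a1.2, a2, hd.mono a1.1 a2⟩
  rw [e]
  refine ⟨rep2_of _ _ _ (fun x hx y hy e => ?_) (fun x hx => union_subset_union (hm x hx).1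
    (hm x hx).2.2.1) (fun x _ => c1 _) fun x hx h2 => ?_, ?_⟩
  · obtain ⟨a1, -, a2, -⟩ := hm x hx
    obtain ⟨b1, -, b2, -⟩ := hm y hy
    have e' : ∀ q, q ∈ x.1 ∨ q ∈ x.2 ↔ q ∈ y.1 ∨ q ∈ y.2 := fun q => by
      rw [← mem_union, ← mem_union]
      exact Finset.ext_iff.1 e q
    refine Prod.ext (Finset.ext fun q => ?_) (Finset.ext fun q => ?_)
    all_goals
      have u1 := e' q
      have u2 := @a1 q
      have u3 := @a2 q
      have u4 := @b1 q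
      have u5 := @b2 q
      have u6 : q ∈ A → q ∉ Q := fun k => disjoint_left.1 hd k
      tauto
  · obtain ⟨a1, a2, a3, a4⟩ := hm x hx
    have e1 : pr (x.1 ∪ x.2) = pr x.1 * pr x.2 := prod_union a4
    have e2 : pr x.2 ≤ Mx := Nat.cast_le.1 (c2 _ h2)
    rw [e1]
    refine ⟨h0.trans ((a2 ▸ Deg.pow_le_pr fun q hq => (h q (a1 hq)).1).trans
      (Nat.le_mul_of_pos_right _ (pr_pos fun q hq => hPs q (hQ (a3 hq))))),
      le_trans (Nat.mul_le_mul (a2 ▸ Deg.pr_le_pow fun q hq => (h q (a1 hq)).2) e2) h1⟩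
  · rw [map_sum, map_sum, es, sum_mul_sum, sum_product]
    refine sum_congr rfl fun S hS => sum_congr rfl fun T hT => ?_
    obtain ⟨a1, -, a3, a4⟩ := hm (S, T) (mem_product.2 ⟨hS, hT⟩)
    rw [map_smul, map_smul, EX_ind _ (union_subset (a1.trans hA) (a3.trans hQ)),
      EX_ind _ (a3.trans hQ), prod_union a4, smul_eq_mul, smul_eq_mul]
    ring

lemma rep_one {M : ℝ} (hM : 1 ≤ M) : Rep ∅ 1 1 M :=
  ⟨fun T => if T = ∅ then 1 else 0, fun T => by dsimp only; split_ifs <;> simp,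
    fun T h => by
      have : T = ∅ := by
        by_contra k
        exact h (if_neg k)
      simpa [this, pr] using hM,
    by funext S; simp [ind]⟩

lemma rep_smul {Q : Finset ℕ} {X : Finset ℕ → ℝ} {C M : ℝ} (hC : 0 < C) (h : Rep Q X C M) :
    Rep Q (C⁻¹ • X) 1 M := by
  obtain ⟨c, c1, c2, rfl⟩ := h
  refine ⟨fun T => C⁻¹ * c T, fun T => ?_, fun T h => c2 T (right_ne_zero_of_mul h), ?_⟩
  · rw [abs_mul, abs_of_pos (inv_pos.2 hC), inv_mul_le_iff₀ hC, mul_one]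
    exact c1 T
  · rw [smul_sum]
    exact sum_congr rfl fun T _ => smul_smul _ _ _

lemma AX_AY {f0 f : Polynomial ℤ} {W N L : ℕ} {Ps : Finset ℕ} {U V X0 X : Finset ℕ → ℝ} {c : ℝ}
    (h : ∀ t : ℤ, t.natAbs ≤ N + L → Nat.Coprime (f.eval t).natAbs W →
      U (Ps.filter fun p : ℕ => (p : ℤ) ∣ f.eval t) +
        c * (X0 (Ps.filter fun p : ℕ => (p : ℤ) ∣ f0.eval t) *
          X (Ps.filter fun p : ℕ => (p : ℤ) ∣ f.eval t)) ≤
        V (Ps.filter fun p : ℕ => (p : ℤ) ∣ f.eval t)) :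
    AX f W N L Ps U + c * AY f0 f W N L Ps X0 X ≤ AX f W N L Ps V := by
  rw [AY, ← mul_div_assoc, mul_sum]
  refine le_trans (le_of_eq (add_div _ _ _).symm) (div_le_div_of_nonneg_right ?_ (Nat.cast_nonneg _))
  rw [← sum_add_distrib]
  refine sum_le_sum fun z hz => ?_
  have h1 := mem_Icc.1 (mem_product.1 hz).1
  have h2 := mem_range.1 (mem_product.1 hz).2
  split_ifs with k
  · simpa using h _ (by omega) k
  · simp

lemma sum_win_le {Ps T : Finset ℕ} {b : ℕ → ℕ} (hb : Monotone b) (m : ℕ) :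
    ∑ i ∈ range m, (win Ps b i ∩ T).card ≤ (T.filter fun p => b 0 < p ∧ p ≤ b m).card := by
  rw [← card_biUnion fun i _ i' _ h =>
    (Deg.win_disj hb h).mono inter_subset_left inter_subset_left]
  refine card_le_card fun p hp => ?_
  obtain ⟨i, h1, h2⟩ := mem_biUnion.1 hp
  obtain ⟨-, h3, h4⟩ := Deg.mem_win.1 (mem_inter.1 h2).1
  exact mem_filter.2 ⟨(mem_inter.1 h2).2, (hb (Nat.zero_le _)).trans_lt h3,
    h4.trans (hb (mem_range.1 h1))⟩

lemma point {Ps T T' : Finset ℕ} {b j : ℕ → ℕ} {n j0 M : ℕ} (hb : Monotone b) (hT : T' ⊆ T)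
    (hM : (T.filter fun p => b 0 < p ∧ p ≤ b (n + 1)).card ≤ M) :
    0 ≤ cnt (win Ps b 0) j0 T' * ∏ k : Fin n, cnt (win Ps b (k + 1)) (j k) T ∧
    cnt (win Ps b 0) j0 T' * ∏ k : Fin n, cnt (win Ps b (k + 1)) (j k) T ≤ 2 ^ M ∧
    (cnt (win Ps b 0) j0 T' * ∏ k : Fin n, cnt (win Ps b (k + 1)) (j k) T ≠ 0 →
      j0 + ∑ k ∈ range n, j k ≤ (T.filter fun p => b 0 < p ∧ p ≤ b (n + 1)).card) := by
  have h1 := sum_win_le (Ps := Ps) (T := T) hb (n + 1)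
  have h2 : (win Ps b 0 ∩ T').card ≤ (win Ps b 0 ∩ T).card :=
    card_le_card (inter_subset_inter_left hT)
  rw [sum_range_succ', ← Fin.sum_univ_eq_sum_range fun i => (win Ps b (i + 1) ∩ T).card] at h1
  simp only [cnt_eq]
  rw [← Nat.cast_prod, ← Nat.cast_mul]
  refine ⟨Nat.cast_nonneg _, ?_, fun h => ?_⟩
  · have : (win Ps b 0 ∩ T').card.choose j0 * ∏ k : Fin n, (win Ps b (k + 1) ∩ T).card.choose (j k)
        ≤ 2 ^ M := by
      refine (Nat.mul_le_mul (Nat.choose_le_two_pow _ _)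
        (prod_le_prod' fun k _ => Nat.choose_le_two_pow _ _)).trans ?_
      rw [prod_pow_eq_pow_sum, ← pow_add]
      exact Nat.pow_le_pow_right (by norm_num) (by omega)
    exact_mod_cast this
  · have h3 := Nat.cast_ne_zero.1 h
    have h4 : j0 ≤ (win Ps b 0 ∩ T').card := by
      by_contra k
      exact left_ne_zero_of_mul h3 (Nat.choose_eq_zero_of_lt (not_le.1 k))
    have h5 : ∑ k : Fin n, j k ≤ ∑ k : Fin n, (win Ps b (k + 1) ∩ T).card := by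
      refine sum_le_sum fun k hk => ?_
      by_contra k'
      exact right_ne_zero_of_mul h3 (prod_eq_zero hk (Nat.choose_eq_zero_of_lt (not_le.1 k')))
    rw [← Fin.sum_univ_eq_sum_range]
    omega

theorem sieve_sys {f0 f : Polynomial ℤ} {W N L n M0 M1 Dm Ω Ω' R Dv M j0 Mx : ℕ}
    {Y0 Y1 b j : ℕ → ℕ} {E z c1 Γ Cx Λ : ℝ} {Ps Q : Finset ℕ} {X : Finset ℕ → ℝ}
    (hPs : ∀ p ∈ Ps, p.Prime ∧ Nat.Coprime p W ∧ omega f p < p) (hW : 1 < W) (hL : 0 < L)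
    (hf : f0 ∣ f) (hn : 1 ≤ n) (hb : Monotone b) (hj0 : 1 ≤ j0) (hQ : Q ⊆ Ps)
    (hQw : ∀ p ∈ Q, p ≤ b 0 ∨ b (n + 1) < p) (z1 : 1 ≤ z) (c0 : 0 ≤ c1) (c2 : c1 ≤ 1)
    (hsize : ∀ t : ℤ, t.natAbs ≤ N + L → (f.eval t).natAbs ≤ Ω')
    (hM : ∀ T ⊆ Ps, pr T ≤ Ω' → (T.filter fun p => b 0 < p ∧ p ≤ b (n + 1)).card ≤ M)
    (hrob : ∀ T ⊆ Ps, pr T ≤ Ω' → Disjoint Q T →
      j0 + ∑ k ∈ range n, j k ≤ (T.filter fun p => b 0 < p ∧ p ≤ b (n + 1)).card →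
      c1 * sqfSum Ps (hh f) z ≤ |Sel (hh f) Ps z T|)
    (x1 : Rep Q X Cx Mx) (x2 : ∀ T, X T ≤ if Disjoint Q T then Γ ^ 2 else 0)
    (x3 : Γ / 2 ≤ EX (fun p => (omega f p : ℝ) / p) Ps X) (x4 : Γ / 2 ≤ sqfSum Ps (hh f) z)
    (Γ1 : 1 ≤ Γ) (Cx0 : 0 < Cx)
    (hM0 : M0 ≤ b 0 ^ j0) (hM1 : b 1 ^ j0 ≤ M1) (hY0 : ∀ k < n, Y0 k ≤ b 0 ^ j k)
    (hY1 : ∀ k < n, b (k + 2) ^ j k * Mx ≤ Y1 k) (Mx1 : 1 ≤ Mx)
    (hR : ∀ T ⊆ Ps, pr T ≤ Ω → (Rt f (pr T)).card ≤ R) (hDm : R ≤ Dm) (hΩ : M1 ≤ Ω)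
    (hΩ1 : ∀ k < n, Y1 k ≤ Ω) (hΩ2 : z * z ≤ Ω) (hDv : ∀ U ⊆ Ps, pr U ≤ Ω → 2 ^ U.card ≤ Dv)
    (hΛ : ∏ p ∈ Ps, (1 + hh f p) ≤ Λ) (hLev : LevelN f0 n W N L M0 M1 Dm Y0 Y1 E) :
    (((Icc 1 N).filter (fun n : ℕ => Nat.Coprime (f.eval (n : ℤ)).natAbs W ∧
        ∀ p ∈ Ps, ¬ (p : ℤ) ∣ f.eval (n : ℤ))).card : ℝ)
      ≤ ((N : ℝ) + L) * ((adm f W).card / W) *
          ((1 - c1 ^ 2 / 2 ^ (M + 2) * (es (fun p => (omega f0 p : ℝ) / p) (win Ps b 0) j0 *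
            ∏ k : Fin n, es (fun p => (omega f p : ℝ) / p) (win Ps b (k + 1)) (j k))) /
            sqfSum Ps (hh f) z) + (z * z * (Λ ^ 2 * Dv ^ 2 * (R * W)) + Cx * (W * E)) := by
  have hP : ∀ p ∈ Ps, p.Prime := fun p hp => (hPs p hp).1
  have hP' : ∀ p ∈ Ps, p.Prime ∧ Nat.Coprime p W := fun p hp => ⟨hP p hp, (hPs p hp).2.1⟩
  have W0 : 0 < W := by omega
  have hω : ∀ p ∈ Ps, (0 : ℝ) < p - omega f p := fun p hp =>
    sub_pos.2 (Nat.cast_lt.2 (hPs p hp).2.2)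
  have h0 : ∀ p ∈ Ps, 0 ≤ hh f p := fun p hp => div_nonneg (Nat.cast_nonneg _) (hω p hp).le
  have hg : ∀ p ∈ Ps, (1 - (omega f p : ℝ) / p) * hh f p = (omega f p : ℝ) / p := fun p hp => by
    have a1 := (hω p hp).ne'
    have a2 : (p : ℝ) ≠ 0 := Nat.cast_ne_zero.2 (hP p hp).ne_zero
    unfold hh
    field_simp
  have ws : ∀ i, win Ps b i ⊆ Ps := fun i => filter_subset _ _
  have wQ : ∀ i ≤ n, Disjoint (win Ps b i) Q := fun i hi => disjoint_left.2 fun p h1 h2 => by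
    obtain ⟨-, a1, a2⟩ := Deg.mem_win.1 h1
    have a3 := hb (Nat.zero_le i)
    have a4 := hb (show i + 1 ≤ n + 1 by omega)
    have := hQw p h2
    omega
  have wb : ∀ i, ∀ p ∈ win Ps b i, b 0 ≤ p ∧ p ≤ b (i + 1) := fun i p hp =>
    ⟨(hb (Nat.zero_le i)).trans (Deg.mem_win.1 hp).2.1.le, (Deg.mem_win.1 hp).2.2⟩
  have M1' : (1 : ℝ) ≤ Mx := Nat.one_le_cast.2 Mx1
  set g : ℕ → ℝ := fun p => (omega f p : ℝ) / p with hgd
  set g0 : ℕ → ℝ := fun p => (omega f0 p : ℝ) / p with hg0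
  obtain ⟨QQ, hQQ⟩ : ∃ QQ : ℕ → Finset ℕ, QQ = fun k => if k = 0 then Q else ∅ := ⟨_, rfl⟩
  obtain ⟨XX, hXX⟩ : ∃ XX : ℕ → Finset ℕ → ℝ, XX = fun k => if k = 0 then Cx⁻¹ • X else 1 :=
    ⟨_, rfl⟩
  have q1 : ∀ k, QQ k ⊆ Q := fun k => by
    simp only [hQQ]
    split_ifs
    exacts [subset_refl _, empty_subset _]
  have q2 : ∀ k, Rep (QQ k) (XX k) 1 Mx := fun k => by
    simp only [hQQ, hXX]
    split_ifs
    exacts [rep_smul Cx0 x1, rep_one M1']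
  have q3 := fun k (hk : k < n) => rep2_mul g hP (ws (k + 1)) ((q1 k).trans hQ)
    ((wQ (k + 1) hk).mono_right (q1 k)) (q2 k) (wb (k + 1)) (hY0 k hk) (hY1 k hk)
  have q4 := rep2_mul (Mx := 1) g0 hP (ws 0) (empty_subset _) (disjoint_empty_right _)
    (rep_one Nat.cast_one.ge) (wb 0) hM0 ((mul_one _).trans_le hM1)
  have e1 : ∀ g' : ℕ → ℝ, EX g' Ps 1 = 1 := fun g' => by
    have := EX_ind g' (empty_subset Ps)
    rwa [prod_empty, show ind ∅ = 1 by funext S; simp [ind]] at this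
  rw [union_empty, mul_one, e1, mul_one] at q4
  have lev := AY_multi (f := f) (Q := fun k => win Ps b (k + 1) ∪ QQ k) hP' W0 (ws 0)
    (fun k _ => union_subset (ws _) ((q1 k).trans hQ))
    (fun k hk => disjoint_union_right.2 ⟨Deg.win_disj hb (by omega),
      (wQ 0 (Nat.zero_le _)).mono_right (q1 k)⟩)
    (fun k hk k' hk' h => ?_) q4.1 (fun k hk => (q3 k hk).1) (fun T hT h => ?_)
    (fun k hk T hT h => (hR T (hT.trans (union_subset (ws _) ((q1 k).trans hQ)))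
      (h.trans (hΩ1 k hk))).trans hDm) hLev
  rotate_left
  · refine disjoint_union_left.2 ⟨disjoint_union_right.2 ⟨Deg.win_disj hb (by omega),
      (wQ _ hk).mono_right (q1 k')⟩, disjoint_union_right.2
      ⟨((wQ _ hk').mono_right (q1 k)).symm, ?_⟩⟩
    simp only [hQQ]
    split_ifs <;> first | omega | simp
  · refine le_trans (card_le_card fun r hr => ?_) ((hR T (hT.trans (ws 0)) (h.trans hΩ)).trans hDm)
    exact mem_filter.2 ⟨(mem_filter.1 hr).1, (mem_filter.1 hr).2.trans (Polynomial.eval_dvd hf)⟩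
  have e2 : ∀ a : ℝ, ∏ k : Fin n, (if (k : ℕ) = 0 then a else 1) = a := fun a => by
    obtain ⟨m, rfl⟩ := Nat.exists_eq_add_of_le' hn
    simp
  have e3 : ∏ k : Fin n, EX g Ps (cnt (win Ps b (k + 1)) (j k) * XX k) =
      (∏ k : Fin n, es g (win Ps b (k + 1)) (j k)) * (Cx⁻¹ * EX g Ps X) := by
    rw [prod_congr (M := ℝ) rfl fun (k : Fin n) _ => (q3 k k.2).2, prod_mul_distrib,
      ← e2 (Cx⁻¹ * _)]
    refine congrArg _ (prod_congr rfl fun k _ => ?_)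
    simp only [hXX]
    split_ifs
    exacts [map_smul _ _ _, e1 _]
  have e4 : ∀ T, ∏ k : Fin n, (cnt (win Ps b (k + 1)) (j k) * XX k) T =
      (∏ k : Fin n, cnt (win Ps b (k + 1)) (j k) T) * (Cx⁻¹ * X T) := fun T => by
    simp only [Pi.mul_apply]
    rw [prod_mul_distrib, ← e2 (Cx⁻¹ * _)]
    refine congrArg _ (prod_congr rfl fun k _ => ?_)
    simp only [hXX]
    split_ifs <;> rfl
  have e5 : Sel (hh f) Ps z ∅ = sqfSum Ps (hh f) z := by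
    rw [Sel, Finset.sum_apply, D0, sum_filter, sqfSum]
    simp only [ph_empty, pr]
  have e6 : EX g Ps (Sel (hh f) Ps z * Sel (hh f) Ps z) = sqfSum Ps (hh f) z := by
    rw [← e5]
    exact EX_sq hg _ id (fun l hl => mem_powerset.1 (mem_filter.1 hl).1) fun _ _ _ _ h => h
  have G1 : 1 ≤ sqfSum Ps (hh f) z := by
    refine le_trans ?_ (sqfSum_subset (empty_subset Ps) h0 z)
    rw [sqfSum_empty, if_pos z1]
  have r1 : Rep Ps (Sel (hh f) Ps z) Λ z :=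
    (rep_ph hP h0 fun l hl => ⟨mem_powerset.1 (mem_filter.1 hl).1, (mem_filter.1 hl).2⟩).mono
      (subset_refl _) hΛ le_rfl
  have k1 : |RM f W N L Ps (Sel (hh f) Ps z * Sel (hh f) Ps z)| ≤
      z * z * (Λ ^ 2 * Dv ^ 2 * (R * W)) := by
    clear * - Ps f z Λ Dv hP r1 hDv Ω hΩ2 W N L R hW z1 hP' W0 hL hR
    have r2 := r1.mul hP r1 (D := Dv) fun U hU h => hDv U hU (Nat.cast_le.1 (h.trans hΩ2))
    have C0 := r2.nonneg
    obtain ⟨c, a1, a2, e⟩ := r2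
    rw [e, map_sum]
    refine sum_le_of_level hP (by clear * - Λ Dv R W hW; positivity) (by positivity) fun T hT h3 => ?_
    rw [map_smul, smul_eq_mul] at h3 ⊢
    have h4 := a2 T (left_ne_zero_of_mul h3)
    have t2 := abs_RM_le (f := f) (N := N) hP' W0 hL hT (empty_subset _) (disjoint_empty_right _)
    rw [union_empty, prod_empty, mul_one] at t2
    rw [abs_mul]
    refine ⟨h4, mul_le_mul ((a1 T).trans_eq (by push_cast; ring)) (t2.trans ?_) (abs_nonneg _)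
      (by clear * - Λ Dv; positivity)⟩
    gcongr
    exact hR T hT (Nat.cast_le.1 (h4.trans hΩ2))
  have k0 := count_le_AX (f := f) (W := W) (N := N) (Ps := Ps) hL
    fun T => if T = ∅ then (1 : ℝ) else 0
  rw [RM, LinearMap.sub_apply, LinearMap.smul_apply, smul_eq_mul, ← hgd, e6] at k1
  rw [q4.2, e3] at lev
  generalize sqfSum Ps (hh f) z = G at *
  have G0 : 0 < G := by clear * - G G1; linarith
  have k2 := AX_AY (f0 := f0) (f := f) (W := W) (N := N) (L := L) (Ps := Ps)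
    (U := (fun T => if T = ∅ then (1 : ℝ) else 0) * fun T => if T = ∅ then (1 : ℝ) else 0)
    (V := (G ^ 2)⁻¹ • (Sel (hh f) Ps z * Sel (hh f) Ps z)) (X0 := cnt (win Ps b 0) j0)
    (X := fun T => ∏ k : Fin n, (cnt (win Ps b (k + 1)) (j k) * XX k) T)
    (c := c1 ^ 2 * Cx / (2 ^ M * Γ ^ 2)) fun t ht hc => by
      clear * - t f W N L n M0 M1 Dm Ω R j0 Mx b hW hc f0 Ps hf Ω' hP hsize ht c1 Cx M Γ j XX G z X
        e4 e5 hj0 G1 hb hM Q x2 c0 G0 hrob Cx0 Γ1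
      have a0 : f.eval t ≠ 0 := fun h => by
        rw [h, Int.natAbs_zero, Nat.coprime_zero_left] at hc
        omega
      have a1 : (Ps.filter fun p : ℕ => (p : ℤ) ∣ f0.eval t) ⊆
          Ps.filter fun p : ℕ => (p : ℤ) ∣ f.eval t := fun p hp =>
        mem_filter.2 ⟨(mem_filter.1 hp).1, (mem_filter.1 hp).2.trans (Polynomial.eval_dvd hf)⟩
      have a2 : pr (Ps.filter fun p : ℕ => (p : ℤ) ∣ f.eval t) ≤ Ω' :=
        (Nat.le_of_dvd (Int.natAbs_pos.2 a0) (Int.natCast_dvd.1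
          ((sub_filter_iff hP (filter_subset _ _) _).1 (subset_refl _)))).trans (hsize t ht)
      have a3 : (Ps.filter fun p : ℕ => (p : ℤ) ∣ f.eval t) ⊆ Ps := filter_subset _ _
      rw [e4]
      generalize (Ps.filter fun p : ℕ => (p : ℤ) ∣ f0.eval t) = T' at *
      generalize (Ps.filter fun p : ℕ => (p : ℤ) ∣ f.eval t) = T at *
      simp only [Pi.mul_apply, Pi.smul_apply, smul_eq_mul]
      by_cases hT : T = ∅
      · subst hT
        rw [subset_empty.1 a1, e5, cnt_eq, inter_empty, card_empty,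
          Nat.choose_eq_zero_of_lt hj0, ← sq G, inv_mul_cancel₀ (by positivity)]
        simp
      obtain ⟨b1, b2, b3⟩ := point (Ps := Ps) (j := j) (j0 := j0) hb a1 (hM T a3 a2)
      rw [if_neg hT, zero_mul, zero_add, ← mul_assoc (cnt _ _ _)]
      generalize cnt (win Ps b 0) j0 T' * ∏ k : Fin n, cnt (win Ps b (k + 1)) (j k) T = Y at *
      have b4 := x2 T
      have b5 : 0 ≤ (G ^ 2)⁻¹ * (Sel (hh f) Ps z T * Sel (hh f) Ps z T) :=
        mul_nonneg (by positivity) (mul_self_nonneg _)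
      split_ifs at b4 with hd
      · by_cases hY : Y = 0
        · simpa [hY] using b5
        have b6 := mul_self_le_mul_self (mul_nonneg c0 G0.le) (hrob T a3 a2 hd (b3 hY))
        rw [abs_mul_abs_self] at b6
        calc _ ≤ c1 ^ 2 * Cx / (2 ^ M * Γ ^ 2) * (2 ^ M * (Cx⁻¹ * Γ ^ 2)) := by
              clear * - c1 Cx M Γ Y X T b4 Cx0 b1 b2 Γ1
              refine mul_le_mul_of_nonneg_left ?_ (by positivity)
              exact (mul_le_mul_of_nonneg_left (mul_le_mul_of_nonneg_left b4 (by positivity))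
                b1).trans (mul_le_mul_of_nonneg_right b2 (by positivity))
          _ = (G ^ 2)⁻¹ * (c1 * G * (c1 * G)) := by field_simp
          _ ≤ _ := mul_le_mul_of_nonneg_left b6 (by positivity)
      · exact le_trans (mul_nonpos_of_nonneg_of_nonpos (by clear * - c1 Cx M Γ Cx0 Γ1 b1 b4 b5; positivity)
          (mul_nonpos_of_nonneg_of_nonpos b1
            (mul_nonpos_of_nonneg_of_nonpos (by positivity) b4))) b5
  have s0 : 0 ≤ es g0 (win Ps b 0) j0 * ∏ k : Fin n, es g (win Ps b (k + 1)) (j k) :=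
    mul_nonneg (Deg.es_nonneg (fun _ _ => by clear * - f0; positivity) _)
      (prod_nonneg fun k _ => Deg.es_nonneg (fun _ _ => by clear * - f; positivity) _)
  rw [map_smul, smul_eq_mul] at k2
  rw [← mul_assoc (es _ _ _)] at lev
  simp only [if_true, mul_one] at k0
  have E0 : 0 ≤ W * E := (abs_nonneg _).trans lev
  have R0 := (abs_nonneg _).trans k1
  have k4 := (abs_le.1 k1).2
  have k5 := (abs_le.1 lev).1
  have ρ0 : 0 ≤ ((N : ℝ) + L) * ((adm f W).card / W) := by clear * - N L f W hL hW; positivity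
  unfold adm at *
  generalize ((N : ℝ) + L) * _ = ρ at *
  generalize es g0 (win Ps b 0) j0 * ∏ k : Fin n, es g (win Ps b (k + 1)) (j k) = σ at *
  generalize z * z * (Λ ^ 2 * Dv ^ 2 * (R * W)) = R1 at *
  generalize (W : ℝ) * E = E1 at *
  generalize EX g Ps X = x at *
  generalize AY _ _ _ _ _ _ _ _ = y at *
  generalize AX f W N L Ps (Sel _ _ _ * _) = a at *
  have m1 : (G ^ 2)⁻¹ * a ≤ ρ / G + R1 := by
    clear * - G R1 R0 G1 a ρ k4
    have : (G ^ 2)⁻¹ * R1 ≤ R1 :=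
      mul_le_of_le_one_left R0 (inv_le_one_of_one_le₀ (one_le_pow₀ G1))
    calc _ ≤ (G ^ 2)⁻¹ * (ρ * G + R1) := by gcongr; linarith
      _ = ρ / G + (G ^ 2)⁻¹ * R1 := by field_simp
      _ ≤ _ := by linarith
  have m2 : c1 ^ 2 * Cx / (2 ^ M * Γ ^ 2) * E1 ≤ Cx * E1 := by
    clear * - E1 c1 Cx M Γ Cx0 Γ1 c0 c2 E0
    refine mul_le_mul_of_nonneg_right ?_ E0
    refine (div_le_self (by positivity) (one_le_mul_of_one_le_of_one_le (one_le_pow₀ one_le_two)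
      (one_le_pow₀ Γ1))).trans (mul_le_of_le_one_left Cx0.le (pow_le_one₀ c0 c2))
  have m3 : ρ * (c1 ^ 2 / 2 ^ (M + 2) * σ / G) ≤
      c1 ^ 2 * Cx / (2 ^ M * Γ ^ 2) * (ρ * (σ * (Cx⁻¹ * x))) :=
    calc _ ≤ ρ * (c1 ^ 2 / 2 ^ (M + 2) * σ / (Γ / 2)) := by clear * - ρ c1 M σ G Γ s0 Γ1 x4 ρ0 Cx; gcongr
      _ = c1 ^ 2 * Cx / (2 ^ M * Γ ^ 2) * (ρ * (σ * (Cx⁻¹ * (Γ / 2)))) := by
          clear * - ρ c1 M σ Γ Cx Cx0 Γ1
          field_simp
          ring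
      _ ≤ _ := by clear * - c1 Cx M Γ ρ σ x x3 Cx0 s0 ρ0 Γ1; gcongr
  have m4 := mul_le_mul_of_nonneg_left (show ρ * (σ * (Cx⁻¹ * x)) - E1 ≤ y by clear * - ρ σ Cx x E1 y k5 M c1 Γ; linarith)
    (show 0 ≤ c1 ^ 2 * Cx / (2 ^ M * Γ ^ 2) by clear * - c1 Cx M Γ Cx0 Γ1; positivity)
  rw [sub_div, mul_sub, mul_one_div]
  clear * - f W Ps N ρ G c1 M σ R1 Cx E1 L Γ y a x k0 k2 m1 m2 m3 m4; linarith

end Pool.Agent.Work.MP_51e72e_nt.Sys
end
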