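import Pool.Agent.Work.MP_51e72e_nt.SysRob
import Pool.Agent.Work.MP_51e72e_nt.SysPsi
import Pool.Agent.Work.MP_51e72e_nt.SysSieve
import Pool.Agent.Work.MP_51e72e_nt.LPSmooth2

/-!
The choice of the parameters in the improved Selberg sieve.
-/

set_option autoImplicit false

namespace Pool.Agent.Work.MP_51e72e_nt.Sys

open Finset Filter Topology Pool.Agent.Lib.ANT Pool.Agent.Work.MP_51e72e_nt.Cub
  Pool.Agent.Work.MP_51e72e_nt.Cub.Sv
open Pool.Agent.Work.MP_51e72e_nt.Deg (LevelAll adm win es)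

lemma prod_hh_le' {f : Polynomial ℤ} {D Z : ℕ} {Ps : Finset ℕ} (hZ : 2 ≤ Z)
    (h : ∀ p ∈ Ps, p.Prime ∧ p ≤ Z ∧ omega f p ≤ D ∧ 2 * D ≤ p) :
    ∏ p ∈ Ps, (1 + hh f p) ≤ Real.exp (144 * D) * Real.log Z ^ (2 * D) := by
  have h1 := (abs_le.mp (abs_sum_inv_prime_sub_loglog_le Z hZ)).2
  have h2 : ∑ p ∈ Ps, (p : ℝ)⁻¹ ≤ ∑ p ∈ (Ioc 0 Z).filter Nat.Prime, (p : ℝ)⁻¹ :=
    sum_le_sum_of_subset_of_nonneg (fun p hp => mem_filter.mpr
      ⟨mem_Ioc.mpr ⟨(h p hp).1.pos, (h p hp).2.1⟩, (h p hp).1⟩) fun _ _ _ => by positivity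
  have hl : 0 < Real.log Z := Real.log_pos (by exact_mod_cast hZ)
  have h3 : ∀ p ∈ Ps, 0 ≤ hh f p ∧ hh f p ≤ 2 * D * (p : ℝ)⁻¹ := fun p hp => by
    obtain ⟨a1, -, a2, a3⟩ := h p hp
    have b0 : (0 : ℝ) < p := Nat.cast_pos.2 a1.pos
    have b1 : (omega f p : ℝ) ≤ D := Nat.cast_le.2 a2
    have b2 : 2 * (D : ℝ) ≤ p := by exact_mod_cast a3
    have b3 : (0 : ℝ) ≤ omega f p := Nat.cast_nonneg _
    refine ⟨div_nonneg b3 (by linarith only [b0, b1, b2]), ?_⟩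
    rw [hh, ← div_eq_mul_inv, div_le_div_iff₀ (by linarith only [b0, b1, b2]) b0]
    linarith only [b2, b1, mul_nonneg_of_nonpos_of_nonpos (Mathlib.Tactic.Linarith.sub_nonpos_of_le (Mathlib.Tactic.Linarith.natCast_nonneg ℝ (omega f p))) (Mathlib.Tactic.Linarith.sub_nonpos_of_le b2), mul_nonneg_of_nonpos_of_nonpos (Mathlib.Tactic.Linarith.sub_nonpos_of_le (Mathlib.Tactic.Linarith.natCast_nonneg ℝ p)) (Mathlib.Tactic.Linarith.sub_nonpos_of_le b1)]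
  calc _ ≤ ∏ p ∈ Ps, Real.exp (2 * D * (p : ℝ)⁻¹) :=
        prod_le_prod (fun p hp => by linarith [(h3 p hp).1]) fun p hp => by
          linarith only [h3, hp, (h3 p hp).2, Real.add_one_le_exp (2 * D * (p : ℝ)⁻¹)]
    _ ≤ Real.exp (144 * D + (2 * D : ℕ) * Real.log (Real.log Z)) := by
        rw [← Real.exp_sum, ← mul_sum, Real.exp_le_exp]
        push_cast
        linarith only [h1, h2, (Nat.cast_nonneg D : (0 : ℝ) ≤ D), mul_nonneg_of_nonpos_of_nonpos (Mathlib.Tactic.Linarith.sub_nonpos_of_le (Mathlib.Tactic.Linarith.natCast_nonneg ℝ D)) (Mathlib.Tactic.Linarith.sub_nonpos_of_le h1), mul_nonneg_of_nonpos_of_nonpos (Mathlib.Tactic.Linarith.sub_nonpos_of_le (Mathlib.Tactic.Linarith.natCast_nonneg ℝ D)) (Mathlib.Tactic.Linarith.sub_nonpos_of_le h2)]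
    _ = _ := by rw [Real.exp_add, Real.exp_nat_mul, Real.exp_log hl]

lemma sum_log_le' {f : Polynomial ℤ} {D Z : ℕ} {Q : Finset ℕ} (hZ : 14 ≤ Real.log Z)
    (h : ∀ p ∈ Q, p.Prime ∧ p ≤ Z ∧ omega f p ≤ D) :
    ∑ p ∈ Q, (omega f p : ℝ) / p * Real.log p ≤ 2 * D * Real.log Z := by
  have Z0 : 0 < Z := Nat.pos_of_ne_zero fun e => by
    rw [e] at hZ
    norm_num at hZ
  have h1 := (abs_le.mp (abs_sum_log_div_prime_sub_log_le Z Z0)).2
  calc _ ≤ ∑ p ∈ Q, D * (Real.log p / p) := sum_le_sum fun p hp => by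
        rw [div_mul_eq_mul_div, mul_div_assoc]
        exact mul_le_mul_of_nonneg_right (Nat.cast_le.2 (h p hp).2.2)
          (div_nonneg (Real.log_natCast_nonneg _) (Nat.cast_nonneg _))
    _ ≤ ∑ p ∈ (Ioc 0 Z).filter Nat.Prime, D * (Real.log p / p) :=
        sum_le_sum_of_subset_of_nonneg (fun p hp => mem_filter.mpr
          ⟨mem_Ioc.mpr ⟨(h p hp).1.pos, (h p hp).2.1⟩, (h p hp).1⟩) fun _ _ _ =>
          mul_nonneg (Nat.cast_nonneg _)
            (div_nonneg (Real.log_natCast_nonneg _) (Nat.cast_nonneg _))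
    _ ≤ _ := by
        rw [← mul_sum]
        linarith only [hZ, h1, (Nat.cast_nonneg D : (0 : ℝ) ≤ D), mul_nonneg_of_nonpos_of_nonpos (Mathlib.Tactic.Linarith.sub_nonpos_of_le (Mathlib.Tactic.Linarith.natCast_nonneg ℝ D)) (Mathlib.Tactic.Linarith.sub_nonpos_of_le hZ), mul_nonneg_of_nonpos_of_nonpos (Mathlib.Tactic.Linarith.sub_nonpos_of_le (Mathlib.Tactic.Linarith.natCast_nonneg ℝ D)) (Mathlib.Tactic.Linarith.sub_nonpos_of_le h1)]

lemma exps {n S D s0 κ q a r : ℕ} (hS : 1 ≤ S) (hκ : 2 ≤ κ) (ha : a < q)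
    (hr : 2 * (n + 1) * S + 2 * ((2 * s0 + 1) * κ) * (S + 1) + n + 2 ≤ r) {v J : ℕ}
    (hv : v = (2 * s0 + 1) * κ) (hJ : J = r * (q * (v * S) + a)) :
    q * r * (2 * v) * S ≤ 2 * J ∧ 2 * J + 1 ≤ q * r * (2 * v) * (S + 1) ∧
    q * r + (n + 1) + 1 ≤ J ∧ q * r * κ * s0 + 1 ≤ J ∧
    2 * J * D + 1 ≤ q * r * (2 * D * (v * S + 1) + 1) ∧ r ≤ q * r ∧ 2 ≤ v := by
  have v2 : 2 ≤ v := by linarith only [hκ, hv, mul_nonneg_of_nonpos_of_nonpos (Mathlib.Tactic.Linarith.sub_nonpos_of_le (Mathlib.Tactic.Linarith.natCast_nonneg ℤ κ)) (Mathlib.Tactic.Linarith.sub_nonpos_of_le (Mathlib.Tactic.Linarith.natCast_nonneg ℤ s0))]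
  have r1 : r ≤ q * r := Nat.le_mul_of_pos_left _ (by omega)
  have r2 : r * (a + 1) ≤ q * r := by rw [mul_comm q]; exact Nat.mul_le_mul_left _ ha
  have r3 : q * r * 2 ≤ q * r * v := Nat.mul_le_mul_left _ v2
  have r4 : q * r * v ≤ q * r * v * S := Nat.le_mul_of_pos_right _ hS
  have r5 : J = q * r * v * S + r * a := by rw [hJ]; ring
  have r6 : q * r * v = 2 * (q * r * κ * s0) + q * r * κ := by rw [hv]; ring
  have r7 : q * r * 2 ≤ q * r * κ := Nat.mul_le_mul_left _ hκ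
  have r8 : J * D ≤ (q * r * v * S + q * r) * D := Nat.mul_le_mul_right _ (by linarith only [hJ, r2])
  refine ⟨by clear * - q r v S J a hJ r1 v2; linarith only [hJ, mul_nonneg_of_nonpos_of_nonpos (Mathlib.Tactic.Linarith.sub_nonpos_of_le (Mathlib.Tactic.Linarith.natCast_nonneg ℤ r)) (Mathlib.Tactic.Linarith.sub_nonpos_of_le (Mathlib.Tactic.Linarith.natCast_nonneg ℤ a))], by nlinarith only [hS, hr, hv, hJ, v2, r1, r2, r3], by omega, by omega, by nlinarith only [hS, hr, hv, v2, r1, r8], r1, v2⟩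

theorem sieve_B (k D n e0 : ℕ) (e : ℕ → ℕ) (hn : 1 ≤ n) (he : 1 ≤ e0) : ∃ (J : ℕ) (δ : ℝ),
    1 ≤ J ∧ 0 < δ ∧ δ ≤ 1 ∧ ∀ (f0 f : Polynomial ℤ) (w W : ℕ) (c t : ℝ), Irreducible f0 →
    0 < f0.natDegree → f0 ∣ f → f.natDegree ≤ D → (∀ p : ℕ, p.Prime → w < p → omega f p ≤ D) →
    2 * D + 2 ≤ w → 0 < W → (∀ p : ℕ, p.Prime → (p ∣ W ↔ p ≤ w)) →
    (∀ p : ℕ, p.Prime → (p : ℤ) ∣ f0.leadingCoeff → p ∣ W) → LevelAll f0 n e0 e → 0 < c →
    Tendsto (fun u => selSum (omega f) w u / u ^ k) atTop (𝓝 c) → 0 < t → t ≤ 1 / 2 →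
    ∀ᶠ B : ℕ in atTop, ∀ N : ℕ, B ^ (2 * J) ≤ N → N ≤ 2 * B ^ (2 * J) →
      (((Icc 1 N).filter (fun n : ℕ => Nat.Coprime (f.eval (n : ℤ)).natAbs W ∧
        ∀ p ∈ psOf W ((B : ℝ) ^ J / (B : ℝ) ^ t), ¬ (p : ℤ) ∣ f.eval (n : ℤ))).card : ℝ) ≤
        ((N : ℝ) + (N / B + 1 : ℕ)) * ((adm f W).card / W) *
          ((1 - δ) / selSum (omega f) w ((J - t) * Real.log B)) + 2 * W * (N / (B : ℝ) ^ t) := by
  obtain ⟨S, hS⟩ : ∃ S, S = e0 + ∑ i ∈ range n, e i := ⟨_, rfl⟩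
  obtain ⟨s0, hs0⟩ : ∃ s0, s0 = 12 * D + 1 := ⟨_, rfl⟩
  have S1 : 1 ≤ S := by omega
  have s1 : ∀ i < n, e i ≤ S := fun i hi => by
    have := single_le_sum (f := e) (fun _ _ => Nat.zero_le _) (mem_range.2 hi)
    omega
  obtain ⟨κ, q, a, c1, κ2, -, aq, c0, c2, hr⟩ := robust_B k D n S (2 * s0 + 1) S1 (by omega)
  obtain ⟨r, hr, r0⟩ := (hr.and (eventually_ge_atTop
    (2 * (n + 1) * S + 2 * ((2 * s0 + 1) * κ) * (S + 1) + n + 2))).exists
  obtain ⟨v, hv⟩ : ∃ v, v = (2 * s0 + 1) * κ := ⟨_, rfl⟩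
  obtain ⟨J, hJ⟩ : ∃ J, J = r * (q * (v * S) + a) := ⟨_, rfl⟩
  obtain ⟨E1, E2, E3, E4, E5, E6, v2⟩ := exps (D := D) S1 κ2 aq r0 hv hJ
  rw [mul_assoc 2 (2 * s0 + 1), ← hv, ← hJ] at hr
  rw [← hv] at r0
  generalize q * r = π at *
  obtain ⟨j0, hj0⟩ : ∃ j0, j0 + 1 = 2 * v * (e0 + 1) := ⟨2 * v * (e0 + 1) - 1, by
    have : 0 < 2 * v * (e0 + 1) := by positivity
    omega⟩
  obtain ⟨M, hM⟩ : ∃ M, M = 2 * D * (v * S + 1) + 1 := ⟨_, rfl⟩
  rw [← hM] at hr E5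
  obtain ⟨σ, hσ⟩ : ∃ σ : ℝ, σ = 1 / (4 * (((π + n : ℕ) : ℝ) + 1)) := ⟨_, rfl⟩
  have σ0 : 0 < σ := by
    rw [hσ]
    positivity
  have j1 : j0 ≤ 2 * v * (S + 1) := by
    have := Nat.mul_le_mul_left (2 * v) (show e0 + 1 ≤ S + 1 by omega)
    omega
  have π1 : 1 ≤ π := by omega
  refine ⟨J, min (c1 ^ 2 / 2 ^ (M + 2) * (σ ^ j0 / j0.factorial *
    ∏ i : Fin n, σ ^ (2 * v * e i) / (2 * v * e i).factorial)) 1, by omega,
    lt_min (by positivity) one_pos, min_le_right _ _,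
    fun f0 f w W c t hf hd hff hD hω hw W0 hW hl hLev hc hlim t0 t1 => ?_⟩
  obtain ⟨C, hC⟩ := LP.eval_le f
  have τ0 : 0 < t / (D + 7 : ℕ) := by positivity
  filter_upwards [(tendsto_pow_nat (k := π * (2 * v)) (by positivity)).eventually (hLev W W0 hl),
    Deg.win_sum hf hd (π + n), hr f w W c hω (by omega) hW hc hlim,
    eventually_divisors_le (π * (2 * v) * (S + 1)) τ0,
    eventually_log_pow_le (Real.exp (144 * D) * J ^ (2 * D)) (2 * D) τ0,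
    eventually_log_pow_le 2 0 τ0, eventually_ge_atTop (C * 4 ^ D + w + 2),
    tendsto_natCast_atTop_atTop.eventually_ge_atTop ((2 * v * (S + 1) : ℕ) * (D / σ)),
    tendsto_logB.eventually_ge_atTop 14] with B h1 h2 h3 h4 h5 h6 h7 h8 h9 N hN1 hN2
  have B1 : 1 < B := by omega
  have b1 : (1 : ℝ) < B := by exact_mod_cast B1
  have b0 : (0 : ℝ) < B := by clear * - B t t0 t1 b1; linarith only [t0, t1, b1]
  have hp : ∀ {u v : ℕ}, u ≤ v → B ^ u ≤ B ^ v := fun h => Nat.pow_le_pow_right B1.le h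
  have hB : ∀ {u : ℕ}, 1 ≤ u → B ≤ B ^ u := fun h => Nat.le_self_pow (by omega) _
  have N0 : 0 < N := (pow_pos (by omega) _).trans_le hN1
  have e1 : ((B : ℝ) ^ (t / (D + 7 : ℕ))) ^ (D + 7) = (B : ℝ) ^ t := by
    rw [← Real.rpow_natCast, ← Real.rpow_mul b0.le, div_mul_cancel₀ _ (by positivity)]
  have e2 : (B : ℝ) ^ t * (B : ℝ) ^ t ≤ B := by
    clear * - B t b0 b1 t1
    rw [← Real.rpow_add b0]
    exact (Real.rpow_le_rpow_of_exponent_le b1.le (by linarith only [t1])).trans_eq (Real.rpow_one _)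
  have e3 : Real.log ((B : ℝ) ^ J / (B : ℝ) ^ t) = (J - t) * Real.log B := by
    rw [Real.log_div (by positivity) (by positivity), Real.log_pow, Real.log_rpow b0]
    ring
  rw [pow_zero, mul_one] at h6
  generalize (B : ℝ) ^ (t / (D + 7 : ℕ)) = x at *
  generalize (B : ℝ) ^ t = y at *
  have x1 : 1 ≤ x := by clear * - x t t0 t1 h6; linarith
  have xy : ∀ {i : ℕ}, i ≤ D + 7 → x ^ i ≤ y := fun h => e1 ▸ pow_le_pow_right₀ x1 h
  have y1 : 1 ≤ y := by simpa using xy (Nat.zero_le _)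
  have y0 : 0 < y := by clear * - y t t0 t1 y1; linarith only [t0, t1, y1]
  have yB : y ≤ B := (le_mul_of_one_le_left y0.le y1).trans e2
  obtain ⟨z, hz⟩ : ∃ z, z = (B : ℝ) ^ J / y := ⟨_, rfl⟩
  rw [← hz] at e3 ⊢
  have z0 : 0 < z := by rw [hz]; positivity
  have z1 : z ≤ (B : ℝ) ^ J := hz ▸ div_le_self (by positivity) y1
  have z2 : (B : ℝ) ^ J ≤ z * B := by
    rw [hz, div_mul_eq_mul_div, le_div_iff₀ y0]
    gcongr
  have z3 : ∀ {i : ℕ}, i + 1 ≤ J → ((B ^ i : ℕ) : ℝ) ≤ z := fun {i} h => by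
    refine le_of_mul_le_mul_right (le_trans ?_ z2) b0
    rw [Nat.cast_pow, ← pow_succ]
    exact pow_le_pow_right₀ b1.le h
  have hm : ∀ p ∈ psOf W z, p.Prime ∧ p ≤ B ^ J ∧ w < p ∧ omega f p ≤ D := fun p hp => by
    obtain ⟨a1, a2, a3⟩ := (mem_psOf z0.le).1 hp
    have a4 : w < p := not_le.1 (mt (hW p a1).2 a3)
    exact ⟨a1, by exact_mod_cast a2.trans z1, a4, hω p a1 a4⟩
  have hP : ∀ p ∈ psOf W z, p.Prime := fun p hp => (hm p hp).1
  have h0 : ∀ p ∈ psOf W z, 0 ≤ hh f p := fun p hp => div_nonneg (Nat.cast_nonneg _)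
    (sub_nonneg.2 (Nat.cast_le.2 (by have := hm p hp; omega)))
  have hΛ : ∏ p ∈ psOf W z, (1 + hh f p) ≤ x := by
    clear * - W z f D B J x B1 hB n e0 e S s0 κ q a r v hJ π E4 j0 M f0 w C N hm hw h9 t t0 t1 h5
      hp
    refine (prod_hh_le' (D := D) (B1.trans_le (hB (show 1 ≤ J by omega))) fun p hp => ?_).trans
      (le_trans ?_ h5)
    · have := hm p hp
      exact ⟨this.1, this.2.1, this.2.2.2, by omega⟩
    · rw [Nat.cast_pow, Real.log_pow, mul_pow, ← mul_assoc]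
      gcongr
      linarith only [t0, t1, h9]
  have hDv : ∀ U ⊆ psOf W z, pr U ≤ B ^ (π * (2 * v) * (S + 1)) → 2 ^ U.card ≤ ⌊x⌋₊ :=
    fun U hU h => Nat.le_floor ((Nat.cast_le.2 (two_pow_le fun p hp => hP p (hU hp))).trans (h4 _ h))
  have D1 : (⌊x⌋₊ : ℝ) ≤ x := Nat.floor_le (by clear * - x t t0 t1 h6; linarith only [t0, t1, h6])
  have D2 : (1 : ℝ) ≤ ⌊x⌋₊ := Nat.one_le_cast.2 (Nat.le_floor (by simpa using x1))
  obtain ⟨Q, hQ⟩ : ∃ Q, Q = (psOf W z).filter fun p => p ≤ B ^ (π * κ) ∧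
    (p ≤ B ^ (π + 0) ∨ B ^ (π + (n + 1)) < p) := ⟨_, rfl⟩
  have q1 : Q ⊆ psOf W z := hQ ▸ filter_subset _ _
  have q2 : ∀ p ∈ Q, p ≤ B ^ (π * κ) ∧ (p ≤ B ^ (π + 0) ∨ B ^ (π + (n + 1)) < p) :=
    fun p hp => by
      rw [hQ, mem_filter] at hp
      exact hp.2
  have πκ : 1 ≤ π * κ := Nat.mul_pos π1 (by omega)
  have l1 : 14 ≤ Real.log (B ^ (π * κ) : ℕ) :=
    h9.trans (Real.log_le_log b0 (Nat.cast_le.2 (hB πκ)))
  have ξ1 : (1 : ℝ) < (B ^ (π * κ * s0) : ℕ) :=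
    Nat.one_lt_cast.2 (B1.trans_le (hB (Nat.mul_pos πκ (by omega))))
  have e4 : ((B ^ (π * κ * s0) : ℕ) : ℝ) * (B ^ (π * κ * s0) : ℕ) * (B ^ (π * κ) : ℕ) =
      (B ^ (π * v) : ℕ) := by
    rw [← Nat.cast_mul, ← Nat.cast_mul, ← pow_add, ← pow_add, hv]
    congr 2
    ring
  obtain ⟨x3, x4⟩ := EX_Xi (g := fun p => (omega f p : ℝ) / p) (h := hh f)
    (ξ := (B ^ (π * κ * s0) : ℕ)) (A := 2 * D) (s := s0) (lam := Real.log (B ^ (π * κ) : ℕ))
    (fun p hp => hP p (q1 hp)) q1 h0 (fun p hp => by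
      clear * - p f B J w D hm hp n e0 e S s0 κ q a r v π j0 M f0 W hw C N hP hs0 l1 t t0 t1
      have a1 : (p : ℝ) - omega f p ≠ 0 :=
        (sub_pos.2 (Nat.cast_lt.2 (by have := hm p hp; omega))).ne'
      have a2 : (p : ℝ) ≠ 0 := Nat.cast_ne_zero.2 (hP p hp).ne_zero
      unfold hh
      field_simp) (by clear * - B π κ t t0 t1 l1 hs0; linarith only [t0, t1, l1]) (Nat.one_le_cast.2 (by omega)) (by clear * - D s0 hs0 t t0 t1; rw [hs0]; push_cast; linarith only [t0, t1])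
    (by rw [pow_mul, Nat.cast_pow, Real.log_pow]) (by clear * - B π κ s0 t t0 t1 ξ1; linarith only [t0, t1, ξ1])
    (fun p hp => Real.log_le_log (Nat.cast_pos.2 (hP p (q1 hp)).pos) (Nat.cast_le.2 (q2 p hp).1))
    (sum_log_le' l1 fun p hp => ⟨hP p (q1 hp), (q2 p hp).1, (hm p (q1 hp)).2.2.2⟩)
  have x1' := rep_Xi (h := hh f) (fun p hp => hP p (q1 hp)) (fun p hp => h0 p (q1 hp)) ξ1
    (y := (B ^ (π * κ) : ℕ)) (Nat.one_le_cast.2 (Nat.one_le_pow _ _ (by omega)))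
    (fun p hp => Nat.cast_le.2 (q2 p hp).1) (D := ⌊x⌋₊) fun U hU h => hDv U (hU.trans q1)
      ((Nat.cast_le.1 (h.trans_eq e4)).trans (hp (by clear * - π v S n r J S1 r0 v2 E2 E3 E6 E1 e4 h hp; nlinarith only [S1, r0, v2, E2, E3, E6, E1])))
  have Γ1 : 1 ≤ ∏ p ∈ Q, (1 + hh f p) := one_le_prod fun p hp => by clear * - f p h0 q1 hp Q; linarith [h0 p (q1 hp)]
  have Γ2 := prod_le_of_sub h0 hΛ q1
  rw [e4] at x1'
  rw [← hS] at h1
  have LN : N / B + 1 ≤ N := Nat.div_lt_self N0 B1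
  have main := sieve_sys (f0 := f0) (f := f) (W := W) (N := N) (L := N / B + 1) (n := n)
    (b := fun i => B ^ (π + i)) (j := fun i => 2 * v * e i) (j0 := j0) (M := M)
    (Ω := B ^ (π * (2 * v) * (S + 1))) (Ω' := B ^ (π * M)) (R := ⌊x⌋₊ ^ D) (z := z)
    (fun p hp => ⟨hP p hp, (Nat.Prime.coprime_iff_not_dvd (hP p hp)).2
      ((mem_psOf z0.le).1 hp).2.2, by have := hm p hp; omega⟩)
    (lt_of_lt_of_le one_lt_two (Nat.le_of_dvd W0 ((hW 2 Nat.prime_two).2 (by omega))))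
    (Nat.succ_pos _) hff hn (fun i j h => hp (by omega)) (by clear * - j0 v e0 v2 hj0 hff hn hp q1; linarith only [v2, hj0, mul_nonneg_of_nonpos_of_nonpos (Mathlib.Tactic.Linarith.sub_nonpos_of_le (Mathlib.Tactic.Linarith.natCast_nonneg ℤ v)) (Mathlib.Tactic.Linarith.sub_nonpos_of_le (Mathlib.Tactic.Linarith.natCast_nonneg ℤ e0))]) q1
    (fun p hp => (q2 p hp).2) (by simpa using z3 (i := 0) (by omega)) c0.le c2
    (fun u hu => ?_) (fun T hT h => ?_) (fun T hT h hd h' => ?_) x1'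
    (Xi_le (fun p hp => hP p (q1 hp)) (fun p hp => h0 p (q1 hp)) ξ1) x3
    (x4.trans ((sqfSum_subset q1 h0 _).trans (sqfSum_mono h0 (fun _ _ => le_rfl) (z3 E4)))) Γ1
    (by clear * - Q f x Γ1 D2; positivity) ?_ ?_ (fun i _ => ?_) (fun i hi => ?_) (Nat.one_le_pow _ _ (by omega))
    (fun T hT h => ?_) ?_ ?_ (fun i hi => ?_) ?_ hDv hΛ
    (h1 N (N / B + 1) (le_trans (by rw [← pow_mul]; exact hp E1) hN1) ?_ ?_ LN)
  rotate_left
  · refine (hC (4 * B ^ (2 * J)) u (by omega) (by omega)).trans ?_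
    refine (Nat.mul_le_mul_left _ (Nat.pow_le_pow_right (by omega) hD)).trans (le_trans ?_ (hp E5))
    rw [mul_pow, ← pow_mul, ← mul_assoc, pow_succ']
    exact Nat.mul_le_mul_right _ (by omega)
  · have a1 := (Deg.pow_le_pr (T := T.filter fun p => B ^ (π + 0) < p ∧ p ≤ B ^ (π + (n + 1)))
      fun p hp => (mem_filter.1 hp).2.1.le).trans
      ((pr_mono (fun p hp => hP p (hT hp)) (filter_subset _ _)).trans h)
    rw [← pow_mul, Nat.pow_le_pow_iff_right B1, add_zero] at a1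
    exact Nat.le_of_mul_le_mul_left a1 π1
  · refine h3 z z2 z1 T hT h (fun p hp => ?_) ?_
    · have a1 := disjoint_right.1 hd hp
      rw [hQ, mem_filter, add_zero] at a1
      have a2 := hT hp
      by_contra k
      exact a1 ⟨a2, by omega⟩
    · have a1 : (T.filter fun p => B ^ (π + 0) < p ∧ p ≤ B ^ (π + (n + 1))).card ≤
          (T.filter fun p => p ≤ B ^ (π + (n + 1))).card :=
        card_le_card (monotone_filter_right _ fun p _ hp => hp.2)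
      rw [← mul_sum] at h'
      have a2 : 2 * (v * S) + 2 * v = j0 + 2 * v * ∑ i ∈ range n, e i + 1 := by
        rw [add_right_comm, hj0, hS]
        ring
      omega
  · rw [← pow_mul, ← pow_mul]
    exact hp (by clear * - π v e0 j0 D n s0 S κ r hn hs0 S1 κ2 r0 hv πκ E6 hj0 hp; nlinarith only [hn, hs0, S1, κ2, r0, hv, πκ, E6, hj0])
  · rw [← pow_mul, ← pow_mul, mul_assoc π, ← hj0]
    exact hp (by clear * - π j0 n S v r hn S1 r0 E6 j1 hp; linarith only [hn, S1, r0, E6, j1, mul_nonneg_of_nonpos_of_nonpos (Mathlib.Tactic.Linarith.sub_nonpos_of_le (Mathlib.Tactic.Linarith.natCast_nonneg ℤ n)) (Mathlib.Tactic.Linarith.sub_nonpos_of_le (Mathlib.Tactic.Linarith.natCast_nonneg ℤ S))])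
  · rw [← pow_mul, ← pow_mul, add_zero, mul_assoc]
  · rw [← pow_mul, ← pow_mul, ← pow_add]
    have a1 := Nat.mul_le_mul (show i + 2 ≤ n + 1 by omega) (s1 i hi)
    have a2 : 2 * ((i + 2) * e i) * v ≤ π * v := Nat.mul_le_mul_right _ (by clear * - i e π j0 n S v r hn r0 E6 j1 a1; linarith only [hn, r0, E6, j1, a1])
    exact hp (by clear * - π i v e a2 hp; linarith only [a2])
  · rw [Rt, pr, card_roots_prod f T fun p hp => hP p (hT hp)]
    refine (prod_le_pow_card _ _ (2 ^ D) fun p hp =>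
      (hm p (hT hp)).2.2.2.trans Nat.lt_two_pow_self.le).trans ?_
    rw [← pow_mul, mul_comm, pow_mul]
    exact Nat.pow_le_pow_left (hDv T hT h) _
  · refine le_trans (Nat.cast_le (α := ℝ).1 ?_) (hB (Nat.mul_pos π1 (by omega)))
    rw [Nat.cast_pow]
    exact (pow_le_pow_left₀ (Nat.cast_nonneg _) D1 _).trans ((xy (by omega)).trans yB)
  · rw [← pow_mul]
    exact hp (Nat.mul_le_mul_left _ (by omega))
  · rw [← pow_mul]
    exact hp (Nat.mul_le_mul_left _ (Nat.succ_le_succ (s1 i hi)))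
  · refine (mul_self_le_mul_self z0.le z1).trans ?_
    rw [← pow_add, Nat.cast_pow]
    exact pow_le_pow_right₀ b1.le (by omega)
  · refine hN2.trans ((Nat.mul_le_mul_right _ B1).trans ?_)
    rw [← pow_succ', ← pow_mul]
    exact hp E2
  · exact (Nat.lt_div_mul_add (by omega)).le.trans (((add_one_mul _ _).symm.le).trans
      (Nat.mul_le_mul_left _ (hB (Nat.mul_pos π1 (by omega)))))
  have g0 : ∀ p : ℕ, (omega f0 p : ℝ) / p ≤ (omega f p : ℝ) / p := fun p =>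
    div_le_div_of_nonneg_right (Nat.cast_le.2 (card_le_card (monotone_filter_right _
      fun r _ hr => hr.trans (Polynomial.eval_dvd hff)))) (Nat.cast_nonneg _)
  have he' : ∀ g : ℕ → ℝ, (∀ p : ℕ, (omega f0 p : ℝ) / p ≤ g p ∧ g p ≤ (omega f p : ℝ) / p) →
      ∀ i ≤ n, ∀ j ≤ 2 * v * (S + 1),
      σ ^ j / j.factorial ≤ es g (win (psOf W z) (fun i => B ^ (π + i)) i) j := by
    clear * - f0 f n v S D B σ W z π w J hm b0 hB e0 e s0 κ q a r j0 M π1 C N B1 σ0 h8 h2 hσ hn z0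
      z3 hJ E3 hW h7 hp k
    intro g hg i hi j hj
    refine Deg.es_lower (γ := D / B) (fun p hp => ⟨le_trans (by positivity) (hg p).1,
      (hg p).2.trans ?_⟩) (by positivity) σ0.le j ?_
    · obtain ⟨a1, a2, -⟩ := Deg.mem_win.1 hp
      exact div_le_div₀ (Nat.cast_nonneg _) (Nat.cast_le.2 (hm p a1).2.2.2) b0
        (Nat.cast_le.2 ((hB (by omega)).trans a2.le))
    · have a1 : (j : ℝ) * (D / σ) ≤ B := le_trans (by gcongr) h8
      rw [← mul_div_assoc, div_le_comm₀ σ0 b0, mul_div_assoc] at a1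
      have a2 := h2 (π + i) (by omega) (by omega)
      have a3 : 1 / (2 * (((π + n : ℕ) : ℝ) + 1)) = 2 * σ := by
        rw [hσ]
        field_simp
        ring
      refine le_trans (by linarith only [a1, a3]) (a2.trans ((sum_le_sum fun p _ => (hg p).1).trans
        (sum_le_sum_of_subset_of_nonneg (fun p hp' => ?_)
          fun p _ _ => le_trans (by positivity) (hg p).1)))
      obtain ⟨a4, a5⟩ := mem_filter.1 hp'
      obtain ⟨a6, a7⟩ := mem_Ioc.1 a4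
      refine Deg.mem_win.2 ⟨(mem_psOf z0.le).2 ⟨a5, (Nat.cast_le.2 a7).trans (z3 (by omega)),
        fun k => ?_⟩, a6, a7⟩
      have a8 := (hW p a5).1 k
      have a9 := hB (show 1 ≤ π + i by omega)
      omega
  have G0 := sqfSum_nonneg h0 z
  rw [← e3, ← sqfSum_psOf f hW z0 le_rfl]
  refine main.trans (add_le_add (mul_le_mul_of_nonneg_left (div_le_div_of_nonneg_right
    (sub_le_sub_left ((min_le_left _ _).trans ?_) _) G0) (by clear * - N B f W N0 W0 G0; positivity)) ?_)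
  · refine mul_le_mul_of_nonneg_left (mul_le_mul (he' _ (fun p => ⟨le_rfl, g0 p⟩) 0 (by omega) _ j1)
      (prod_le_prod (fun _ _ => by positivity) fun i _ => he' _ (fun p => ⟨g0 p, le_rfl⟩) _
        i.2 _ (Nat.mul_le_mul_left _ ((s1 i i.2).trans (Nat.le_succ _)))) (by positivity)
      (Deg.es_nonneg (fun _ _ => by clear * - f0; positivity) _)) (by positivity)
  · have W0' : (0 : ℝ) ≤ W := Nat.cast_nonneg _
    have a1 : z * z * y ≤ N / y := by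
      clear * - z y N B J hz y0 y1 B1 hN1
      rw [hz, le_div_iff₀ y0]
      calc _ = (B : ℝ) ^ (2 * J) := by rw [two_mul, pow_add]; field_simp
        _ ≤ _ := by exact_mod_cast hN1
    have a2 : x ^ 2 * (⌊x⌋₊ : ℝ) ^ 2 * ((⌊x⌋₊ ^ D : ℕ) * W) ≤ y * W := by
      clear * - x D W y D2 D1 h6 xy n e0 e S s0 κ q a r v J π j0 M f0 f w C B N W0'
      rw [← mul_assoc, Nat.cast_pow]
      refine mul_le_mul_of_nonneg_right (le_trans ?_ (xy (show 2 + 2 + D ≤ _ by omega))) W0'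
      rw [pow_add, pow_add]
      gcongr
    have a3 : 2 * (∏ p ∈ Q, (1 + hh f p)) ^ 2 * (⌊x⌋₊ : ℝ) ^ 4 ≤ y := by
      clear * - Q f x y h6 Γ1 Γ2 D2 D1 xy D n e0 e S s0 hs0 κ q a r v J π j0 M f0 w W C B N
      refine le_trans ?_ (xy (show 1 + 2 + 4 ≤ _ by omega))
      rw [pow_add, pow_add, pow_one]
      gcongr
    have a4 : y * ((N : ℝ) / (B ^ (π * (2 * v)) : ℕ)) ≤ N / y := by
      clear * - y N B π v y0 B1 e2 hB π1 D n e0 e S s0 κ q a r hv J v2 j0 M f0 f w W C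
      rw [le_div_iff₀ y0, mul_right_comm, ← mul_div_assoc, div_le_iff₀ (by positivity), mul_comm]
      exact mul_le_mul_of_nonneg_left (e2.trans (Nat.cast_le.2 (hB (Nat.mul_pos π1 (by omega)))))
        (Nat.cast_nonneg _)
    have a5 := mul_le_mul_of_nonneg_left a2 (mul_self_nonneg z)
    have a6 := mul_le_mul_of_nonneg_right a3
      (show 0 ≤ W * ((N : ℝ) / (B ^ (π * (2 * v)) : ℕ)) by positivity)
    linarith only [a5, a6, a1, W0', a4, mul_le_mul_of_nonneg_left a1 W0', mul_le_mul_of_nonneg_left a4 W0']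

end Pool.Agent.Work.MP_51e72e_nt.Sys
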