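import Pool.Agent.Work.MP_51e72e_nt.SysPsi
import Mathlib.LinearAlgebra.Lagrange

-- merged part: Pool.Agent.Work.MP_51e72e_nt.SysComb
section
/-!
Alternating binomial sums.
-/

set_option autoImplicit false

namespace Pool.Agent.Work.MP_51e72e_nt.Sys

open Finset Filter Topology

namespace Comb

open Polynomial

/-- the polynomial whose values are the alternating sums -/
noncomputable def pE (k K j q : ℕ) : ℝ[X] :=
  ∑ i ∈ range (j + 1), C ((-1) ^ i * (K.choose i : ℝ)) * (X + C ((q * (j - i) : ℕ) : ℝ)) ^ k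

lemma pE_eval (k K j q a : ℕ) : (pE k K j q).eval (a : ℝ) = EE k K j q a := by
  unfold pE EE
  rw [eval_finsetSum]
  refine Finset.sum_congr rfl fun i _ => ?_
  rw [eval_mul, eval_C, eval_pow, eval_add, eval_X, eval_C, Nat.cast_add, add_comm]

lemma pE_natDegree (k K j q : ℕ) : (pE k K j q).natDegree ≤ k := by
  unfold pE
  refine natDegree_sum_le_of_forall_le _ _ fun i _ => (natDegree_C_mul_le _ _).trans ?_
  rw [(monic_X_add_C _).natDegree_pow, natDegree_X_add_C, mul_one]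

lemma pE_coeff (k K j q : ℕ) : (pE k (K + 1) j q).coeff k = (-1) ^ j * (K.choose j : ℝ) := by
  unfold pE
  rw [finsetSum_coeff]
  have h : ∀ c : ℝ, ((X + C c) ^ k).coeff k = 1 := fun c => by
    have h1 : ((X + C c) ^ k).natDegree = k := by
      rw [(monic_X_add_C _).natDegree_pow, natDegree_X_add_C, mul_one]
    have h2 := ((monic_X_add_C c).pow k).coeff_natDegree
    rwa [h1] at h2
  simp only [coeff_C_mul, h, mul_one]
  exact_mod_cast Int.alternating_sum_range_choose_eq_choose (n := K) (m := j)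

lemma bad_card (k K j q : ℕ) (t : Finset ℕ)
    (ht : ∀ a ∈ t, (k + 1) * |EE k (K + 1) j q a| < (K.choose j : ℝ)) : t.card ≤ k := by
  by_contra hc
  obtain ⟨u, hut, hu⟩ := Finset.exists_subset_card_eq (show k + 1 ≤ t.card by omega)
  have hdeg : (pE k (K + 1) j q).degree < (u.card : WithBot ℕ) := by
    refine lt_of_le_of_lt (degree_le_of_natDegree_le (pE_natDegree k (K + 1) j q)) ?_
    rw [hu]
    exact_mod_cast Nat.lt_succ_self k
  have h1 := Lagrange.coeff_eq_sum (s := u) (v := fun a : ℕ => (a : ℝ))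
    (Nat.cast_injective.injOn) hdeg
  rw [hu, Nat.add_sub_cancel, pE_coeff] at h1
  have h2 : (K.choose j : ℝ) ≤ ∑ a ∈ u, |EE k (K + 1) j q a| := by
    have h3 : (K.choose j : ℝ) = |(-1) ^ j * (K.choose j : ℝ)| := by
      rw [abs_mul, abs_pow, abs_neg, abs_one, one_pow, one_mul, Nat.abs_cast]
    rw [h3, h1]
    refine (Finset.abs_sum_le_sum_abs _ _).trans (Finset.sum_le_sum fun a _ => ?_)
    rw [abs_div, pE_eval]
    refine div_le_self (abs_nonneg _) ?_
    rw [Finset.abs_prod]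
    refine Finset.one_le_prod fun b hb => ?_
    have h4 : (a : ℤ) - b ≠ 0 := by
      have := Finset.ne_of_mem_erase hb
      omega
    exact_mod_cast Int.one_le_abs h4
  have hne : u.Nonempty := by rw [← Finset.card_pos]; omega
  have h5 := Finset.sum_lt_sum_of_nonempty hne fun a ha => ht a (hut ha)
  rw [← Finset.mul_sum, Finset.sum_const, hu, nsmul_eq_mul] at h5
  push_cast at h5
  have h6 : (0 : ℝ) < k + 1 := by positivity
  linarith only [h2, h5, mul_nonneg_of_nonpos_of_nonpos (Mathlib.Tactic.Linarith.sub_nonpos_of_le (Mathlib.Tactic.Linarith.natCast_nonneg ℝ k)) (Mathlib.Tactic.Linarith.sub_nonpos_of_le h2)]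

lemma choose_step {S K n i : ℕ} (hK : 2 * (n * S) + 2 * n ≤ K + 1) (hi : i + 1 ≤ n * S) :
    (K.choose i : ℝ) ≤ (S : ℝ) / (S + 2) * K.choose (i + 1) := by
  have h1 := Nat.choose_succ_right_eq K i
  obtain ⟨d, hd⟩ : ∃ d, K = i + d := ⟨K - i, by omega⟩
  have h2 : K - i = d := by omega
  rw [h2] at h1
  have h3 : n * S + 2 * n ≤ d := by omega
  have h4 : (i + 1) * (S + 2) ≤ S * d := by
    calc (i + 1) * (S + 2) ≤ n * S * (S + 2) := Nat.mul_le_mul_right _ hi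
      _ = S * (n * S + 2 * n) := by ring
      _ ≤ S * d := Nat.mul_le_mul_left _ h3
  have h5 : K.choose i * (S + 2) * (i + 1) ≤ S * K.choose (i + 1) * (i + 1) := by
    calc K.choose i * (S + 2) * (i + 1) = K.choose i * ((i + 1) * (S + 2)) := by ring
      _ ≤ K.choose i * (S * d) := Nat.mul_le_mul_left _ h4
      _ = S * (K.choose i * d) := by ring
      _ = _ := by rw [← h1]; ring
  have h6 := Nat.le_of_mul_le_mul_right h5 (Nat.succ_pos i)
  rw [div_mul_eq_mul_div, le_div_iff₀ (by positivity)]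
  exact_mod_cast h6

lemma choose_decay {S K n : ℕ} (hK : 2 * (n * S) + 2 * n ≤ K + 1) (t : ℕ) :
    ∀ i, i + t ≤ n * S → (K.choose i : ℝ) ≤ ((S : ℝ) / (S + 2)) ^ t * K.choose (i + t) := by
  induction t with
  | zero => intro i _; simp
  | succ t ih =>
    intro i hi
    calc (K.choose i : ℝ) ≤ ((S : ℝ) / (S + 2)) ^ t * K.choose (i + t) := ih i (by omega)
      _ ≤ ((S : ℝ) / (S + 2)) ^ t * ((S : ℝ) / (S + 2) * K.choose (i + t + 1)) :=
          mul_le_mul_of_nonneg_left (choose_step hK (by omega)) (by positivity)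
      _ = _ := by rw [pow_succ, mul_assoc, add_assoc]

lemma choose_le_two {K j : ℕ} (h : 2 * j + 1 ≤ K) : K.choose j ≤ 2 * (K - 1).choose j := by
  obtain ⟨n, rfl⟩ : ∃ n, K = n + 1 := ⟨K - 1, by omega⟩
  have h1 := Nat.choose_mul_succ_eq n j
  obtain ⟨d, hd⟩ : ∃ d, n + 1 - j = d := ⟨_, rfl⟩
  rw [hd] at h1
  rw [Nat.add_sub_cancel]
  refine Nat.le_of_mul_le_mul_right (c := d) ?_ (by omega)
  rw [← h1]
  calc n.choose j * (n + 1) ≤ n.choose j * (2 * d) := Nat.mul_le_mul_left _ (by omega)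
    _ = _ := by ring

end Comb

theorem exists_shift (k j q M : ℕ) : ∃ a : ℕ, 1 ≤ a ∧ a ≤ k * M + 1 ∧ ∀ K : ℕ, 1 ≤ K → K ≤ M →
    ((K - 1).choose j : ℝ) ≤ (k + 1) * |EE k K j q a| := by
  classical
  by_contra hc
  have hsub : Icc 1 (k * M + 1) ⊆ (range M).biUnion fun K => (Icc 1 (k * M + 1)).filter
      fun a => (k + 1) * |EE k (K + 1) j q a| < (K.choose j : ℝ) := by
    intro a ha
    by_contra hn
    refine hc ⟨a, (mem_Icc.1 ha).1, (mem_Icc.1 ha).2, fun K h1 h2 => ?_⟩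
    obtain ⟨K', rfl⟩ : ∃ K', K = K' + 1 := ⟨K - 1, by omega⟩
    rw [Nat.add_sub_cancel]
    by_contra h3
    exact hn (mem_biUnion.2 ⟨K', mem_range.2 (by omega), mem_filter.2 ⟨ha, not_le.1 h3⟩⟩)
  have h1 := (card_le_card hsub).trans (card_biUnion_le_card_mul _ _ k fun K _ =>
    Comb.bad_card k K j q _ fun a ha => (mem_filter.1 ha).2)
  rw [Nat.card_Icc, card_range, mul_comm M k] at h1
  omega

theorem exists_kappa (S s : ℕ) (hS : 1 ≤ S) (hs : 1 ≤ s) (A : ℝ) (A' : ℕ) : ∃ κ : ℕ, 2 ≤ κ ∧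
    ∀ K : ℕ, 2 * (s * κ * S) + 2 * s * κ ≤ K + 1 →
      A * (κ : ℝ) ^ A' * ∑ i ∈ range (s * κ * S - κ + 1), (K.choose i : ℝ) ≤
        (K - 1).choose (s * κ * S) := by
  have hρ0 : 0 ≤ (S : ℝ) / (S + 2) := by positivity
  have hρ1 : (S : ℝ) / (S + 2) < 1 := by rw [div_lt_one (by positivity)]; linarith only []
  have ht := (tendsto_pow_const_mul_const_pow_of_abs_lt_one (A' + 1)
    (r := (S : ℝ) / (S + 2)) (by rwa [abs_of_nonneg hρ0])).const_mul (2 * |A| * (s * S + 1))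
  rw [mul_zero] at ht
  obtain ⟨κ, h1, h2⟩ := ((ht.eventually (ge_mem_nhds one_pos)).and (eventually_ge_atTop 2)).exists
  refine ⟨κ, h2, fun K hK => ?_⟩
  have hsκ : κ ≤ s * κ := Nat.le_mul_of_pos_left _ hs
  have hj : s * κ ≤ s * κ * S := Nat.le_mul_of_pos_right _ hS
  have hK' : 2 * (s * κ * S) + 2 * (s * κ) ≤ K + 1 := by rwa [mul_assoc 2 s κ] at hK
  have h3 : ∑ i ∈ range (s * κ * S - κ + 1), (K.choose i : ℝ) ≤
      (s * S + 1) * κ * (((S : ℝ) / (S + 2)) ^ κ * K.choose (s * κ * S)) := by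
    refine (Finset.sum_le_card_nsmul _ _ (((S : ℝ) / (S + 2)) ^ κ * K.choose (s * κ * S))
      fun i hi => ?_).trans ?_
    · have hi' := mem_range.1 hi
      have h4 := Comb.choose_decay hK' (s * κ * S - i) i (by omega)
      rw [show i + (s * κ * S - i) = s * κ * S by omega] at h4
      exact h4.trans (mul_le_mul_of_nonneg_right
        (pow_le_pow_of_le_one hρ0 hρ1.le (by omega)) (by positivity))
    · rw [card_range, nsmul_eq_mul]
      refine mul_le_mul_of_nonneg_right ?_ (by positivity)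
      have h5 : s * κ * S - κ + 1 ≤ (s * S + 1) * κ := by
        have : (s * S + 1) * κ = s * κ * S + κ := by ring
        omega
      exact_mod_cast h5
  have h4 : (K.choose (s * κ * S) : ℝ) ≤ 2 * (K - 1).choose (s * κ * S) := by
    exact_mod_cast Comb.choose_le_two (K := K) (j := s * κ * S) (by omega)
  calc _ ≤ |A| * (κ : ℝ) ^ A' * ∑ i ∈ range (s * κ * S - κ + 1), (K.choose i : ℝ) :=
        mul_le_mul_of_nonneg_right
          (mul_le_mul_of_nonneg_right (le_abs_self A) (by positivity)) (by positivity)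
    _ ≤ |A| * (κ : ℝ) ^ A' * ((s * S + 1) * κ *
          (((S : ℝ) / (S + 2)) ^ κ * (2 * (K - 1).choose (s * κ * S)))) := by
        refine mul_le_mul_of_nonneg_left (h3.trans ?_) (by positivity)
        gcongr
    _ = 2 * |A| * (s * S + 1) * ((κ : ℝ) ^ (A' + 1) * ((S : ℝ) / (S + 2)) ^ κ) *
          (K - 1).choose (s * κ * S) := by ring
    _ ≤ 1 * (K - 1).choose (s * κ * S) := mul_le_mul_of_nonneg_right h1 (by positivity)
    _ = _ := one_mul _

theorem profile (k M A : ℕ) {η : ℝ} (hη : 0 < η) : ∀ᶠ r : ℕ in atTop, ∀ (H : ℝ → ℝ) (c : ℝ),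
    0 < c → Tendsto (fun u => H u / u ^ k) atTop (𝓝 c) → ∀ᶠ B : ℕ in atTop, ∀ m : ℕ, 1 ≤ m →
      m ≤ M → ∀ u : ℝ, ((r : ℝ) * m - A) * Real.log B ≤ u → u ≤ r * m * Real.log B →
        |H u - c * (r * Real.log B) ^ k * (m : ℝ) ^ k| ≤ η * (c * (r * Real.log B) ^ k) := by
  filter_upwards [eventually_ge_atTop (A + 1), tendsto_natCast_atTop_atTop.eventually_ge_atTop
    (2 * (A * k * (M : ℝ) ^ (k - 1)) / η)] with r hr1 hr2 H c hc hH
  have hr1' : (A : ℝ) + 1 ≤ r := by exact_mod_cast hr1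
  have hA : (0 : ℝ) ≤ A := by positivity
  have hr0 : (0 : ℝ) < r := by linarith only [hr1']
  have hε : 0 < η / (2 * ((M : ℝ) ^ k + 1)) * c := by positivity
  obtain ⟨u0, hu0⟩ := eventually_atTop.1 ((Metric.tendsto_nhds.1 hH) _ hε)
  have hlog : Tendsto (fun B : ℕ => Real.log B) atTop atTop :=
    Real.tendsto_log_atTop.comp tendsto_natCast_atTop_atTop
  filter_upwards [hlog.eventually_ge_atTop u0, hlog.eventually_ge_atTop 1] with B hB0 hB1 m hm1 hm2
    u hu1 hu2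
  have hm1' : (1 : ℝ) ≤ m := by exact_mod_cast hm1
  have hm2' : (m : ℝ) ≤ M := by exact_mod_cast hm2
  obtain ⟨l, hl⟩ : ∃ l, l = Real.log B := ⟨_, rfl⟩
  rw [← hl] at hB0 hB1 hu1 hu2 ⊢
  have h1 : 1 ≤ (r : ℝ) * m - A := by linarith only [hr1', hm1', mul_nonneg_of_nonpos_of_nonpos (Mathlib.Tactic.Linarith.sub_nonpos_of_le (Mathlib.Tactic.Linarith.natCast_nonneg ℝ r)) (Mathlib.Tactic.Linarith.sub_nonpos_of_le hm1')]
  have h2 : l ≤ u := by linarith only [hu1, h1, hB1, mul_nonneg_of_nonpos_of_nonpos (Mathlib.Tactic.Linarith.sub_nonpos_of_le hB1) (Mathlib.Tactic.Linarith.sub_nonpos_of_le h1)]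
  have hu : 0 < u := by linarith only [hB1, h2]
  have hL : 0 < r * l := by positivity
  have h3 := (hu0 u (by linarith only [hB0, h2])).le
  rw [Real.dist_eq] at h3
  obtain ⟨x, hx⟩ : ∃ x, u = x * (r * l) := ⟨u / (r * l), by field_simp⟩
  have hx0 : 0 < x := by
    rw [hx] at hu
    exact (mul_pos_iff_of_pos_right hL).1 hu
  have hx1 : x ≤ m := by
    refine le_of_mul_le_mul_right ?_ hL
    rw [← hx]; linarith only [hu2]
  have hx2 : m - x ≤ A / r := by
    rw [le_div_iff₀ hr0]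
    refine le_of_mul_le_mul_right ?_ (by linarith only [hB1] : 0 < l)
    have : (m - x) * r * l = r * m * l - u := by rw [hx]; ring
    rw [this]; linarith only [hu1]
  have h4 : |x ^ k - (m : ℝ) ^ k| ≤ η / 2 := by
    refine (abs_pow_sub_pow_le x m k).trans ?_
    rw [abs_sub_comm, abs_of_nonneg (by linarith only [hx1]), abs_of_pos hx0, Nat.abs_cast, max_eq_right hx1]
    calc (m - x) * k * (m : ℝ) ^ (k - 1) ≤ A / r * k * (M : ℝ) ^ (k - 1) := by gcongr
      _ = A * k * (M : ℝ) ^ (k - 1) / r := by ring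
      _ ≤ η / 2 := by
          rw [div_le_iff₀ hη] at hr2
          rw [div_le_iff₀ hr0]
          linarith only [hr2]
  have h5 : |H u / u ^ k - c| * x ^ k ≤ η / 2 * c := by
    have h6 : x ^ k ≤ (M : ℝ) ^ k + 1 := by
      have := pow_le_pow_left₀ hx0.le (hx1.trans hm2') k
      linarith only [this]
    calc _ ≤ η / (2 * ((M : ℝ) ^ k + 1)) * c * ((M : ℝ) ^ k + 1) :=
          mul_le_mul h3 h6 (by positivity) hε.le
      _ = _ := by field_simp
  have e : H u - c * (r * l) ^ k * (m : ℝ) ^ k =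
      ((H u / u ^ k - c) * x ^ k + c * (x ^ k - (m : ℝ) ^ k)) * (r * l) ^ k := by
    have e1 : H u = H u / u ^ k * (x ^ k * (r * l) ^ k) := by
      rw [← mul_pow, ← hx]; field_simp
    conv_lhs => rw [e1]
    ring
  rw [e, abs_mul, abs_of_pos (pow_pos hL k), ← mul_assoc]
  refine mul_le_mul_of_nonneg_right ((abs_add_le _ _).trans ?_) (by positivity)
  rw [abs_mul, abs_mul, abs_of_pos (pow_pos hx0 k), abs_of_pos hc]
  have h7 := mul_le_mul_of_nonneg_left h4 hc.le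
  linarith only [h5, h7]

end Pool.Agent.Work.MP_51e72e_nt.Sys
end

-- merged part: Pool.Agent.Work.MP_51e72e_nt.SysRob
section
/-!
Selberg's weight is large on configurations of many primes of the same size.
-/

set_option autoImplicit false

namespace Pool.Agent.Work.MP_51e72e_nt.Sys

open Finset Filter Topology Pool.Agent.Lib.ANT Pool.Agent.Work.MP_51e72e_nt.Cub
  Pool.Agent.Work.MP_51e72e_nt.Cub.Sv

variable {h : ℕ → ℝ} {Ps : Finset ℕ} {z : ℝ}

lemma rob_sqfSum_union (g : ℕ → ℝ) (Q T : Finset ℕ) (hT : ∀ p ∈ T, 0 < p) (hd : Disjoint T Q)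
    (z : ℝ) :
    sqfSum (T ∪ Q) g z = ∑ S ∈ T.powerset, (∏ p ∈ S, g p) * sqfSum Q g (z / pr S) := by
  induction T using Finset.induction_on generalizing z with
  | empty => simp [pr]
  | insert p T hp ih =>
    have hpQ : p ∉ Q := disjoint_left.1 hd (mem_insert_self _ _)
    have ih' := ih (fun q hq => hT q (mem_insert_of_mem hq))
      (hd.mono_left (subset_insert _ _))
    rw [insert_union, sqfSum_insert (by simp [hp, hpQ]) (hT p (mem_insert_self _ _)), ih', ih',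
      sum_powerset_insert hp, mul_sum]
    congr 1
    refine sum_congr rfl fun S hS => ?_
    have hpS : p ∉ S := fun h => hp (mem_powerset.1 hS h)
    rw [prod_insert hpS, pr, pr, prod_insert hpS, Nat.cast_mul, div_div, mul_assoc]

lemma Sel_eq (hPs : ∀ p ∈ Ps, p.Prime) {T : Finset ℕ} (hT : T ⊆ Ps) :
    Sel h Ps z T = ∑ S ∈ T.powerset, (-1) ^ S.card * sqfSum (Ps \ T) h (z / pr S) := by
  have e1 : Sel h Ps z T = sqfSum Ps (fun p => if p ∈ T then -1 else h p) z := by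
    rw [Sel, Finset.sum_apply, D0, sum_filter]
    rfl
  rw [e1]
  conv_lhs => rw [← union_sdiff_of_subset hT]
  rw [rob_sqfSum_union _ _ _ (fun p hp => (hPs p (hT hp)).pos) disjoint_sdiff]
  refine sum_congr rfl fun S hS => ?_
  congr 1
  · rw [← prod_const]
    exact prod_congr rfl fun p hp => if_pos (mem_powerset.1 hS hp)
  · refine sum_congr rfl fun U hU => ?_
    congr 1
    exact prod_congr rfl fun p hp => if_neg (mem_sdiff.1 (mem_powerset.1 hU hp)).2

lemma rob_sum_union (T0 T1 : Finset ℕ) (hd : Disjoint T0 T1) (F : Finset ℕ → ℝ) :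
    ∑ S ∈ (T0 ∪ T1).powerset, F S = ∑ U ∈ T1.powerset, ∑ S ∈ T0.powerset, F (S ∪ U) := by
  induction T1 using Finset.induction_on generalizing F with
  | empty => simp
  | insert p T hp ih =>
    have hp0 : p ∉ T0 := disjoint_right.1 hd (mem_insert_self _ _)
    have ih' := ih (hd.mono_right (subset_insert _ _))
    rw [union_insert, sum_powerset_insert (by simp [hp, hp0]), ih', ih' fun S => F (insert p S),
      sum_powerset_insert hp]
    simp only [union_insert]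

lemma rob_sum_card (T : Finset ℕ) (j : ℕ) (φ : ℕ → ℝ) :
    ∑ S ∈ T.powerset, (if S.card ≤ j then φ S.card else 0) =
      ∑ i ∈ range (j + 1), (T.card.choose i : ℝ) * φ i := by
  rw [sum_powerset_apply_card fun i => if i ≤ j then φ i else 0]
  have e1 : ∑ i ∈ range (T.card + 1), T.card.choose i • (if i ≤ j then φ i else 0) =
      ∑ i ∈ range (T.card + j + 1), T.card.choose i • (if i ≤ j then φ i else 0) := by
    refine sum_subset (range_subset_range.2 (by omega)) fun i _ hi => ?_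
    rw [Nat.choose_eq_zero_of_lt (by simpa using hi), zero_smul]
  have e2 : ∑ i ∈ range (j + 1), T.card.choose i • (if i ≤ j then φ i else 0) =
      ∑ i ∈ range (T.card + j + 1), T.card.choose i • (if i ≤ j then φ i else 0) := by
    refine sum_subset (range_subset_range.2 (by omega)) fun i _ hi => ?_
    rw [if_neg (by simpa using hi), smul_zero]
  rw [e1, ← e2]
  refine sum_congr rfl fun i hi => ?_
  rw [if_pos (by simpa [Nat.lt_succ_iff] using hi), nsmul_eq_mul]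

lemma rob_zero {Q S : Finset ℕ} (hQ : ∀ p ∈ Q, p.Prime) (hS : ∀ p ∈ S, p.Prime) (hz : z < pr S) :
    sqfSum Q h (z / pr S) = 0 := by
  refine sum_eq_zero fun U hU => if_neg (not_le.2 ?_)
  have h1 : (0 : ℝ) < pr S := by exact_mod_cast pr_pos hS
  have h2 : (1 : ℝ) ≤ pr U := by exact_mod_cast pr_pos fun p hp => hQ p (mem_powerset.1 hU hp)
  exact ((div_lt_one h1).2 hz).trans_le h2

theorem robust (hPs : ∀ p ∈ Ps, p.Prime) (h0 : ∀ p ∈ Ps, 0 ≤ h p) {T0 T1 : Finset ℕ}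
    (hd : Disjoint T0 T1) (hT : T0 ∪ T1 ⊆ Ps) {k j q a κ : ℕ} {Λ η : ℝ} (hΛ : 0 ≤ Λ)
    (ha : ∀ S ⊆ T0, S.card ≤ j →
      |sqfSum (Ps \ (T0 ∪ T1)) h (z / pr S) - Λ * ((q * (j - S.card) + a : ℕ) : ℝ) ^ k| ≤ η)
    (hb : ∀ S ⊆ T0, j < S.card → z < pr S)
    (hc : ∀ S ⊆ T0, ∀ U ⊆ T1, U.Nonempty → (pr (S ∪ U) : ℝ) ≤ z → S.card ≤ j - κ) :
    Λ * |EE k T0.card j q a| - 2 ^ T0.card * η -
      2 ^ T1.card * (∑ i ∈ range (j - κ + 1), (T0.card.choose i : ℝ)) * sqfSum Ps h z ≤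
      |Sel h Ps z (T0 ∪ T1)| := by
  have hη : 0 ≤ η := (abs_nonneg _).trans (ha ∅ (empty_subset _) (Nat.zero_le _))
  have hQ : ∀ p ∈ Ps \ (T0 ∪ T1), p.Prime := fun p hp => hPs p (mem_sdiff.1 hp).1
  have hG : 0 ≤ sqfSum Ps h z := sqfSum_nonneg h0 z
  set F : Finset ℕ → ℝ := fun S => (-1) ^ S.card * sqfSum (Ps \ (T0 ∪ T1)) h (z / pr S) with hF
  set C : ℝ := ∑ i ∈ range (j - κ + 1), (T0.card.choose i : ℝ) with hC
  have hC0 : 0 ≤ C := sum_nonneg fun _ _ => Nat.cast_nonneg _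
  have e1 : Sel h Ps z (T0 ∪ T1) = ∑ S ∈ T0.powerset, F S +
      ∑ U ∈ T1.powerset.erase ∅, ∑ S ∈ T0.powerset, F (S ∪ U) := by
    rw [Sel_eq hPs hT, rob_sum_union T0 T1 hd F, ← add_sum_erase _ _ (empty_mem_powerset T1)]
    simp only [union_empty]
  have e2 : Λ * EE k T0.card j q a = ∑ S ∈ T0.powerset, (if S.card ≤ j then
      (-1) ^ S.card * (Λ * ((q * (j - S.card) + a : ℕ) : ℝ) ^ k) else 0) := by
    rw [rob_sum_card T0 j fun i => (-1) ^ i * (Λ * ((q * (j - i) + a : ℕ) : ℝ) ^ k), EE, mul_sum]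
    exact sum_congr rfl fun i _ => by ring
  have b1 : |∑ S ∈ T0.powerset, F S - Λ * EE k T0.card j q a| ≤ 2 ^ T0.card * η := by
    rw [e2, ← sum_sub_distrib]
    refine (abs_sum_le_sum_abs _ _).trans ((sum_le_card_nsmul _ _ η fun S hS => ?_).trans ?_)
    · have hS' := mem_powerset.1 hS
      simp only [hF]
      split_ifs with h1
      · rw [← mul_sub, abs_mul, abs_neg_one_pow, one_mul]
        exact ha S hS' h1
      · rw [rob_zero hQ (fun p hp => hPs p (hT (mem_union_left _ (hS' hp))))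
          (hb S hS' (not_le.1 h1))]
        simpa using hη
    · rw [card_powerset, nsmul_eq_mul]
      push_cast
      exact le_rfl
  have b2 : |∑ U ∈ T1.powerset.erase ∅, ∑ S ∈ T0.powerset, F (S ∪ U)| ≤
      2 ^ T1.card * C * sqfSum Ps h z := by
    refine (abs_sum_le_sum_abs _ _).trans ((sum_le_card_nsmul _ _ (C * sqfSum Ps h z)
      fun U hU => ?_).trans ?_)
    · have hU1 := mem_powerset.1 (mem_erase.1 hU).2
      have hU2 := nonempty_iff_ne_empty.2 (mem_erase.1 hU).1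
      rw [hC, sum_mul, ← rob_sum_card T0 (j - κ) fun _ => sqfSum Ps h z]
      refine (abs_sum_le_sum_abs _ _).trans (sum_le_sum fun S hS => ?_)
      have hS' := mem_powerset.1 hS
      have hSU : ∀ p ∈ S ∪ U, p.Prime := fun p hp => hPs p (hT (union_subset_union hS' hU1 hp))
      simp only [hF]
      rw [abs_mul, abs_neg_one_pow, one_mul]
      by_cases h1 : (pr (S ∪ U) : ℝ) ≤ z
      · rw [if_pos (hc S hS' U hU1 hU2 h1),
          abs_of_nonneg (sqfSum_nonneg (fun p hp => h0 p (mem_sdiff.1 hp).1) _)]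
        have h2 : (1 : ℝ) ≤ pr (S ∪ U) := by exact_mod_cast pr_pos hSU
        exact (sqfSum_subset sdiff_subset h0 _).trans
          (sqfSum_mono h0 (fun _ _ => le_rfl) (div_le_self (by linarith only [h1, h2]) h2))
      · rw [rob_zero hQ hSU (not_le.1 h1), abs_zero]
        split_ifs
        · exact hG
        · exact le_rfl
    · rw [nsmul_eq_mul, mul_assoc]
      refine mul_le_mul_of_nonneg_right ?_ (mul_nonneg hC0 hG)
      have : (T1.powerset.erase ∅).card ≤ 2 ^ T1.card := card_erase_le.trans (card_powerset _).le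
      exact_mod_cast this
  rw [e1, ← abs_of_nonneg hΛ, ← abs_mul]
  generalize ∑ S ∈ T0.powerset, F S = x at *
  generalize ∑ U ∈ T1.powerset.erase ∅, ∑ S ∈ T0.powerset, F (S ∪ U) = y at *
  generalize Λ * EE k T0.card j q a = e at *
  have t1 := abs_add_le (x + y) (-y)
  have t2 := abs_add_le x (-(x - e))
  rw [abs_neg] at t1 t2
  rw [show x + y + -y = x by ring] at t1
  rw [show x + -(x - e) = e by ring] at t2
  linarith only [b2, b1, t1, t2]

lemma rob_core {f : Polynomial ℤ} {w W k D n j κ q a r B M0 M1 : ℕ} {Λ η : ℝ} {T : Finset ℕ}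
    (hD : ∀ p : ℕ, p.Prime → w < p → omega f p ≤ D) (hw : 2 * D ≤ w)
    (hW : ∀ p : ℕ, p.Prime → (p ∣ W ↔ p ≤ w)) (hκ : 1 ≤ κ) (a1 : 1 ≤ a) (aq : a < q) (r1 : 1 ≤ r)
    (B2 : 2 ≤ B) (hΛ : 0 ≤ Λ) (η1 : η ≤ 1) (hM : M0 < κ * (M1 + 1))
    (hprof : ∀ m : ℕ, 1 ≤ m → m ≤ q * (j + 1) → ∀ u : ℝ,
      ((r : ℝ) * m - (1 + j * (n + 1) : ℕ)) * Real.log B ≤ u → u ≤ r * m * Real.log B →
      |selSum (omega f) w u - Λ * (m : ℝ) ^ k| ≤ η * Λ)
    (hB : 2 * D * M0 * (((q * (j + 1) : ℕ) : ℝ) ^ k + 1) ≤ η * B)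
    (z1 : (B : ℝ) ^ (r * (q * j + a)) ≤ z * B) (z2 : z ≤ (B : ℝ) ^ (r * (q * j + a)))
    (hT : T ⊆ psOf W z) (hp : pr T ≤ B ^ (q * r * M0))
    (hwin : ∀ p ∈ T, (B ^ (q * r) < p ∧ p ≤ B ^ (q * r + (n + 1))) ∨ B ^ (q * r * κ) < p)
    {K : ℕ} (hK : K = (T.filter fun p => p ≤ B ^ (q * r + (n + 1))).card) :
    K ≤ M0 ∧ sqfSum (psOf W z) (hh f) z ≤ Λ * (((q * (j + 1) : ℕ) : ℝ) ^ k + 1) ∧
      Λ * |EE k K j q a| - 2 ^ M0 * (2 * η * Λ) -
        2 ^ M1 * (∑ i ∈ range (j - κ + 1), (K.choose i : ℝ)) *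
          (Λ * (((q * (j + 1) : ℕ) : ℝ) ^ k + 1)) ≤ |Sel (hh f) (psOf W z) z T| := by
  have B1 : 1 < B := B2
  have B0 : (0 : ℝ) < B := by exact_mod_cast B1.le
  have B1' : (1 : ℝ) < B := by exact_mod_cast B1
  have hl : 0 < Real.log B := Real.log_pos B1'
  have z0 : 0 < z := (mul_pos_iff_of_pos_right B0).1 ((pow_pos B0 _).trans_le z1)
  have qr : 1 ≤ q * r := Nat.mul_pos (by omega) r1
  have hPs : ∀ p ∈ psOf W z, p.Prime ∧ w < p := fun p hp => by
    obtain ⟨p1, -, p3⟩ := (mem_psOf z0.le).1 hp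
    exact ⟨p1, not_le.1 (mt (hW p p1).2 p3)⟩
  have hh2 : ∀ p ∈ psOf W z, 0 ≤ hh f p ∧ hh f p ≤ 2 * D / p := fun p hp => by
    obtain ⟨p1, p2⟩ := hPs p hp
    have e1 : (omega f p : ℝ) ≤ D := by exact_mod_cast hD p p1 p2
    have e2 : (2 * D : ℝ) < p := by exact_mod_cast hw.trans_lt p2
    have e0 : (0 : ℝ) ≤ omega f p := Nat.cast_nonneg _
    unfold hh
    refine ⟨div_nonneg e0 (by linarith only [e1, e2]), ?_⟩
    rw [div_le_div_iff₀ (by linarith only [e1, e2]) (by linarith only [e2])]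
    linarith only [e1, e2, mul_nonneg_of_nonpos_of_nonpos (Mathlib.Tactic.Linarith.sub_nonpos_of_le (Mathlib.Tactic.Linarith.natCast_nonneg ℝ D)) (Mathlib.Tactic.Linarith.sub_nonpos_of_le e1), mul_nonneg_of_nonpos_of_nonpos (Mathlib.Tactic.Linarith.sub_nonpos_of_le (Mathlib.Tactic.Linarith.natCast_nonneg ℝ D)) (le_of_lt (Mathlib.Tactic.Linarith.sub_neg_of_lt e2)), mul_nonneg_of_nonpos_of_nonpos (Mathlib.Tactic.Linarith.sub_nonpos_of_le (Mathlib.Tactic.Linarith.natCast_nonneg ℝ p)) (Mathlib.Tactic.Linarith.sub_nonpos_of_le e1)]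
  have hg : ∀ p ∈ psOf W z, 0 ≤ hh f p := fun p hp => (hh2 p hp).1
  have hTp : ∀ p ∈ T, p.Prime := fun p hp => (hPs p (hT hp)).1
  have hlow : ∀ p ∈ T, B ^ (q * r) ≤ p := fun p hp => by
    rcases hwin p hp with h1 | h1
    · exact h1.1.le
    · exact (Nat.pow_le_pow_right B1.le (Nat.le_mul_of_pos_right _ hκ)).trans h1.le
  have hlowS : ∀ S ⊆ T, B ^ (q * r * S.card) ≤ pr S := fun S hS => by
    rw [pow_mul]
    exact Finset.pow_card_le_prod S (fun p => p) _ fun p hp => hlow p (hS hp)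
  have hcard : T.card ≤ M0 :=
    Nat.le_of_mul_le_mul_left ((Nat.pow_le_pow_iff_right B1).1 ((hlowS T le_rfl).trans hp)) qr
  set T0 := T.filter fun p => p ≤ B ^ (q * r + (n + 1)) with hT0
  set T1 := T.filter fun p => ¬ p ≤ B ^ (q * r + (n + 1)) with hT1
  have hu : T0 ∪ T1 = T := filter_union_filter_not_eq _ _
  have hd : Disjoint T0 T1 := disjoint_filter_filter_not _ _ _
  have s0 : T0 ⊆ T := filter_subset _ _
  have s1 : T1 ⊆ T := filter_subset _ _
  have hbig : ∀ U ⊆ T1, B ^ (q * r * κ * U.card) ≤ pr U := fun U hU => by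
    rw [pow_mul]
    refine Finset.pow_card_le_prod U (fun p => p) _ fun p hp => ?_
    obtain ⟨h1, h2⟩ := mem_filter.1 (hU hp)
    rcases hwin p h1 with h3 | h3
    · exact absurd h3.2 h2
    · exact h3.le
  have hcard1 : T1.card ≤ M1 := by
    have h1 := (Nat.pow_le_pow_iff_right B1).1
      ((hbig T1 le_rfl).trans ((pr_mono hTp s1).trans hp))
    rw [mul_assoc (q * r)] at h1
    have h2 := (Nat.le_of_mul_le_mul_left h1 qr).trans_lt hM
    exact Nat.lt_succ_iff.1 (Nat.lt_of_mul_lt_mul_left h2)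
  have hK0 : K ≤ M0 := hK ▸ (card_le_card s0).trans hcard
  have hzlt : r * (q * j + a) < q * r * (j + 1) := by nlinarith only [r1, aq]
  have hprof2 : ∀ S ⊆ T0, S.card ≤ j → |sqfSum (psOf W z) (hh f) (z / pr S) -
      Λ * ((q * (j - S.card) + a : ℕ) : ℝ) ^ k| ≤ η * Λ := fun S hS hj => by
    clear * - S hTp s0 hS B q r hlowS T0 T n B2 j a z z1 z0 z2 hj W f Λ k η w hW hprof D κ M0 M1 a1
      K aq hl B0 hp
    have p1 : (1 : ℝ) ≤ pr S := by exact_mod_cast pr_pos fun p hp => hTp p (s0 (hS hp))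
    have l1 : (B : ℝ) ^ (q * r * S.card) ≤ pr S := by exact_mod_cast hlowS S (hS.trans s0)
    have l2 : (pr S : ℝ) ≤ (B : ℝ) ^ ((q * r + (n + 1)) * S.card) := by
      have : pr S ≤ B ^ ((q * r + (n + 1)) * S.card) := by
        rw [pow_mul]
        exact Finset.prod_le_pow_card S (fun p => p) _ fun p hp => (mem_filter.1 (hS hp)).2
      exact_mod_cast this
    have l3 := Real.log_le_log (by positivity) l1
    have l4 := Real.log_le_log (by linarith only [p1]) l2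
    have l5 := Real.log_le_log (by positivity) z1
    have l6 := Real.log_le_log z0 z2
    rw [Real.log_mul z0.ne' B0.ne'] at l5
    rw [Real.log_pow] at l3 l4 l5 l6
    have hj' : (S.card : ℝ) ≤ j := by exact_mod_cast hj
    rw [sqfSum_psOf f hW (by positivity) (div_le_self z0.le p1),
      Real.log_div z0.ne' (by linarith only [p1])]
    refine hprof _ (by omega) ?_ _ ?_ ?_
    · have : q * (j - S.card) ≤ q * j := Nat.mul_le_mul_left _ (Nat.sub_le _ _)
      rw [mul_add, mul_one]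
      omega
    · push_cast [Nat.cast_sub hj] at l3 l4 l5 l6 ⊢
      have := mul_le_mul_of_nonneg_right hj' (show 0 ≤ ((n : ℝ) + 1) * Real.log B by positivity)
      linarith only [l4, l5, this]
    · push_cast [Nat.cast_sub hj] at l3 l4 l5 l6 ⊢
      linarith only [l3, l6]
  have hG : sqfSum (psOf W z) (hh f) z ≤ Λ * (((q * (j + 1) : ℕ) : ℝ) ^ k + 1) := by
    have h1 := (abs_le.1 (hprof2 ∅ (empty_subset _) (Nat.zero_le _))).2
    have h2 : ((q * (j - (∅ : Finset ℕ).card) + a : ℕ) : ℝ) ^ k ≤ ((q * (j + 1) : ℕ) : ℝ) ^ k := by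
      refine pow_le_pow_left₀ (Nat.cast_nonneg _) (Nat.cast_le.2 ?_) k
      rw [card_empty, Nat.sub_zero, mul_add, mul_one]
      omega
    rw [pr, prod_empty, Nat.cast_one, div_one] at h1
    linarith only [h1, h2, hΛ, η1, mul_le_mul_of_nonneg_left h2 hΛ, mul_le_mul_of_nonneg_right η1 hΛ]
  have hG0 : 0 ≤ sqfSum (psOf W z) (hh f) z := sqfSum_nonneg hg z
  have hsum : (∑ p ∈ T, hh f p) * sqfSum (psOf W z) (hh f) z ≤ η * Λ := by
    clear * - T f M0 D B hh2 hT B0 q r w n j κ a M1 K qr hlow hcard B2 W z Λ k η hG hG0 hB hΛ hp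
    have h1 : ∑ p ∈ T, hh f p ≤ M0 * (2 * D / B) := by
      refine (sum_le_card_nsmul _ _ (2 * D / B : ℝ) fun p hp => (hh2 p (hT hp)).2.trans ?_).trans ?_
      · refine div_le_div_of_nonneg_left (by clear * - D B B0 hlow hp p; positivity) B0 ?_
        exact_mod_cast (Nat.le_self_pow (by omega) B).trans (hlow p hp)
      · rw [nsmul_eq_mul]
        exact mul_le_mul_of_nonneg_right (Nat.cast_le.2 hcard) (by clear * - D B B2; positivity)
    refine (mul_le_mul h1 hG hG0 (by clear * - M0 D B B2; positivity)).trans ?_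
    rw [mul_left_comm, mul_comm η]
    refine mul_le_mul_of_nonneg_left ?_ hΛ
    rw [← mul_div_assoc, div_mul_eq_mul_div, div_le_iff₀ B0]
    linarith only [hB]
  have hη : 0 ≤ η * Λ := (abs_nonneg _).trans (hprof2 ∅ (empty_subset _) (Nat.zero_le _))
  have main := robust (h := hh f) (z := z) (fun p hp => (hPs p hp).1) hg hd (hu ▸ hT) (k := k)
    (j := j) (q := q) (a := a) (κ := κ) (η := 2 * η * Λ) hΛ (fun S hS hj => ?_)
    (fun S hS hj => ?_) fun S hS U hU hne hz => ?_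
  · refine ⟨hK0, hG, le_trans ?_ (hu ▸ main)⟩
    rw [← hK]
    have e1 : (2 : ℝ) ^ K * (2 * η * Λ) ≤ 2 ^ M0 * (2 * η * Λ) :=
      mul_le_mul_of_nonneg_right (pow_le_pow_right₀ one_le_two hK0) (by linarith only [hη])
    have e2 : (2 : ℝ) ^ T1.card * (∑ i ∈ range (j - κ + 1), (K.choose i : ℝ)) *
        sqfSum (psOf W z) (hh f) z ≤ 2 ^ M1 * (∑ i ∈ range (j - κ + 1), (K.choose i : ℝ)) *
          (Λ * (((q * (j + 1) : ℕ) : ℝ) ^ k + 1)) := by
      clear * - j κ K T1 M1 W z f Λ q k hcard1 hG hG0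
      have : 0 ≤ ∑ i ∈ range (j - κ + 1), (K.choose i : ℝ) :=
        sum_nonneg fun _ _ => Nat.cast_nonneg _
      exact mul_le_mul (mul_le_mul_of_nonneg_right (pow_le_pow_right₀ one_le_two hcard1) this)
        hG hG0 (by positivity)
    linarith only [e1, e2]
  · rw [hu]
    have p1 : (1 : ℝ) ≤ pr S := by exact_mod_cast pr_pos fun p hp => hTp p (s0 (hS hp))
    have h1 := abs_le.1 (hprof2 S hS hj)
    have h2 := sqfSum_subset (sdiff_subset (t := T)) hg (z / pr S)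
    have h3 := sqfSum_le_sdiff hg (x := z / pr S) (x' := z) T hT fun p hp => by
      clear * - p hTp hp z S z0 p1
      have p2 : (1 : ℝ) ≤ p := by exact_mod_cast (hTp p hp).pos
      exact ⟨(hTp p hp).pos, (div_le_self (by positivity) p2).trans (div_le_self z0.le p1)⟩
    rw [abs_le]
    constructor <;> linarith only [hsum, h1, h3, hη, h2, h1.1, h1.2]
  · have h1 : B ^ (r * (q * j + a)) < pr S :=
      (Nat.pow_lt_pow_right B1 (hzlt.trans_le (Nat.mul_le_mul_left _ hj))).trans_le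
        (hlowS S (hS.trans s0))
    exact z2.trans_lt (by exact_mod_cast h1)
  · have h1 : pr (S ∪ U) = pr S * pr U := prod_union (hd.mono hS hU)
    have h2 : pr (S ∪ U) ≤ B ^ (r * (q * j + a)) := by exact_mod_cast hz.trans z2
    have h3 : B ^ (q * r * κ) ≤ pr U := (Nat.pow_le_pow_right B1.le
      (Nat.le_mul_of_pos_right _ hne.card_pos)).trans (hbig U hU)
    have h4 := (Nat.mul_le_mul (hlowS S (hS.trans s0)) h3).trans (h1 ▸ h2)
    rw [← pow_add, Nat.pow_le_pow_iff_right B1, ← mul_add] at h4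
    have h5 := Nat.lt_of_mul_lt_mul_left (h4.trans_lt hzlt)
    omega

theorem robust_B (k D n S s : ℕ) (hS : 1 ≤ S) (hs : 1 ≤ s) : ∃ (κ q a : ℕ) (c1 : ℝ),
    2 ≤ κ ∧ 1 ≤ a ∧ a < q ∧ 0 < c1 ∧ c1 ≤ 1 ∧ ∀ᶠ r : ℕ in atTop,
    ∀ (f : Polynomial ℤ) (w W : ℕ) (c : ℝ), (∀ p : ℕ, p.Prime → w < p → omega f p ≤ D) →
      2 * D ≤ w → (∀ p : ℕ, p.Prime → (p ∣ W ↔ p ≤ w)) → 0 < c →
      Tendsto (fun u => selSum (omega f) w u / u ^ k) atTop (𝓝 c) →
      ∀ᶠ B : ℕ in atTop, ∀ z : ℝ, (B : ℝ) ^ (r * (q * (s * κ * S) + a)) ≤ z * B →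
        z ≤ (B : ℝ) ^ (r * (q * (s * κ * S) + a)) → ∀ T ⊆ psOf W z,
        pr T ≤ B ^ (q * r * (2 * D * (s * κ * S + 1) + 1)) →
        (∀ p ∈ T, (B ^ (q * r) < p ∧ p ≤ B ^ (q * r + (n + 1))) ∨ B ^ (q * r * κ) < p) →
        2 * (s * κ * S) + 2 * s * κ ≤ (T.filter fun p => p ≤ B ^ (q * r + (n + 1))).card + 1 →
        c1 * sqfSum (psOf W z) (hh f) z ≤ |Sel (hh f) (psOf W z) z T| := by
  obtain ⟨κ, hκ, hκ2⟩ := exists_kappa S s hS hs
    (4 * (k + 1) * 2 ^ (2 * D * s * S + 2 * D + 1) *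
      ((((k * (2 * D * (s * S + 1) + 1) + 2) * (s * S + 1) : ℕ) : ℝ) ^ k + 1)) (2 * k)
  obtain ⟨j, hj⟩ : ∃ j, j = s * κ * S := ⟨_, rfl⟩
  obtain ⟨M0, hM0⟩ : ∃ M0, M0 = 2 * D * (j + 1) + 1 := ⟨_, rfl⟩
  obtain ⟨q, hq⟩ : ∃ q, q = k * M0 + 2 := ⟨_, rfl⟩
  obtain ⟨a, a1, a2, ha⟩ := exists_shift k j q M0
  obtain ⟨Γ, hΓ⟩ : ∃ Γ : ℝ, Γ = ((q * (j + 1) : ℕ) : ℝ) ^ k + 1 := ⟨_, rfl⟩
  have Γ1 : 1 ≤ Γ := by rw [hΓ]; exact le_add_of_nonneg_left (by positivity)
  have k1 : (1 : ℝ) ≤ k + 1 := le_add_of_nonneg_left (Nat.cast_nonneg _)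
  obtain ⟨η, hη⟩ : ∃ η : ℝ, η = 1 / (8 * (k + 1) * 2 ^ M0) := ⟨_, rfl⟩
  have η0 : 0 < η := by rw [hη]; positivity
  have η1 : η ≤ 1 := by
    rw [hη, div_le_one (by positivity)]
    nlinarith only [one_le_pow₀ (n := M0) (one_le_two (α := ℝ))]
  have hΓ2 : Γ ≤ (κ : ℝ) ^ (2 * k) *
      ((((k * (2 * D * (s * S + 1) + 1) + 2) * (s * S + 1) : ℕ) : ℝ) ^ k + 1) := by
    have e1 : j + 1 ≤ κ * (s * S + 1) := by rw [hj]; linarith only [hκ]
    have e2 : M0 ≤ κ * (2 * D * (s * S + 1) + 1) := by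
      rw [hM0]; linarith only [hκ, e1, Nat.mul_le_mul_left (2 * D) e1]
    have e3 : q ≤ κ * (k * (2 * D * (s * S + 1) + 1) + 2) := by
      rw [hq]; linarith only [hκ, e2, Nat.mul_le_mul_left k e2]
    have e4 : q * (j + 1) ≤ κ ^ 2 * ((k * (2 * D * (s * S + 1) + 1) + 2) * (s * S + 1)) :=
      (Nat.mul_le_mul e3 e1).trans (le_of_eq (by ring))
    have e5 : ((q * (j + 1) : ℕ) : ℝ) ^ k ≤
        ((κ ^ 2 * ((k * (2 * D * (s * S + 1) + 1) + 2) * (s * S + 1)) : ℕ) : ℝ) ^ k :=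
      pow_le_pow_left₀ (Nat.cast_nonneg _) (Nat.cast_le.2 e4) k
    rw [Nat.cast_mul (κ ^ 2), Nat.cast_pow, mul_pow, ← pow_mul] at e5
    have e6 : (1 : ℝ) ≤ (κ : ℝ) ^ (2 * k) := one_le_pow₀ (by exact_mod_cast (by omega : 1 ≤ κ))
    rw [hΓ, mul_add ((κ : ℝ) ^ (2 * k))]
    linarith only [e5, e6]
  refine ⟨κ, q, a, 1 / (2 * (k + 1) * Γ), hκ, a1, by omega, by positivity, ?_, ?_⟩
  · rw [div_le_one (by positivity)]
    linarith only [Γ1, mul_nonneg_of_nonpos_of_nonpos (Mathlib.Tactic.Linarith.sub_nonpos_of_le (Mathlib.Tactic.Linarith.natCast_nonneg ℝ k)) (Mathlib.Tactic.Linarith.sub_nonpos_of_le Γ1)]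
  filter_upwards [profile k (q * (j + 1)) (1 + j * (n + 1)) η0, eventually_ge_atTop 1]
    with r hr r1 f w W c hD hw hW hc hten
  filter_upwards [hr _ c hc hten, eventually_ge_atTop 2,
    (tendsto_natCast_atTop_atTop (R := ℝ)).eventually_ge_atTop (2 * D * M0 * Γ / η)]
    with B hB B2 hB3 z z1 z2 T hT hp hwin hK
  rw [← hj] at z1 z2 hp hK hκ2
  rw [← hM0] at hp
  have hΛ : 0 ≤ c * (r * Real.log B) ^ k := by positivity
  rw [div_le_iff₀ η0, mul_comm (B : ℝ), hΓ] at hB3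
  obtain ⟨c1, c2, c3⟩ := rob_core (M1 := 2 * D * s * S + 2 * D + 1) hD hw hW (by omega) a1
    (by omega) r1 B2 hΛ η1 (by rw [hM0, hj]; nlinarith only [hκ, hM0]) hB hB3 z1 z2 hT hp hwin rfl
  rw [← hΓ] at c2 c3
  generalize (T.filter fun p => p ≤ B ^ (q * r + (n + 1))).card = K at *
  generalize c * (r * Real.log B) ^ k = Λ at *
  have sκ : 2 ≤ s * κ := hκ.trans (Nat.le_mul_of_pos_left _ hs)
  have hK' : 2 * j + 2 * (s * κ) ≤ K + 1 := by rwa [← mul_assoc]
  have d1 := ha K (by omega) c1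
  have d2 := hκ2 K hK
  have d3 : (1 : ℝ) ≤ (K - 1).choose j := by exact_mod_cast Nat.choose_pos (by omega)
  have d4 : 0 ≤ ∑ i ∈ range (j - κ + 1), (K.choose i : ℝ) := sum_nonneg fun _ _ => Nat.cast_nonneg _
  generalize ∑ i ∈ range (j - κ + 1), (K.choose i : ℝ) = σ at *
  generalize (((K - 1).choose j : ℕ) : ℝ) = C at *
  generalize |EE k K j q a| = E at *
  have d5 : (k + 1) * (2 ^ M0 * (2 * η * Λ)) = Λ / 4 := by
    rw [hη]
    field_simp
    ring
  have d6 : 4 * (k + 1) * 2 ^ (2 * D * s * S + 2 * D + 1) * Γ * σ ≤ C := by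
    refine le_trans (mul_le_mul_of_nonneg_right ?_ d4) d2
    rw [mul_assoc _ _ ((κ : ℝ) ^ (2 * k)), mul_comm _ ((κ : ℝ) ^ (2 * k))]
    exact mul_le_mul_of_nonneg_left hΓ2 (by positivity)
  refine le_trans ?_ c3
  refine (mul_le_mul_of_nonneg_left c2 (by positivity)).trans ?_
  refine le_of_mul_le_mul_left ?_ (show (0 : ℝ) < k + 1 by linarith only [])
  have d7 : (k + 1) * (1 / (2 * (k + 1) * Γ) * (Λ * Γ)) = Λ / 2 := by field_simp
  rw [d7, mul_sub, mul_sub, d5]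
  linarith only [d1, hΛ, d6, d3, mul_le_mul_of_nonneg_left d1 hΛ, mul_le_mul_of_nonneg_left d6 hΛ,
    mul_le_mul_of_nonneg_left d3 hΛ]

end Pool.Agent.Work.MP_51e72e_nt.Sys
end
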