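import Pool.Agent.Work.MP_51e72e_nt.Main

/-!
The sieve bound for a system of polynomials one of which is linear.
-/

set_option autoImplicit false
set_option maxHeartbeats 400000

namespace Pool.Agent.Work.MP_51e72e_nt

open Finset Filter Topology Polynomial Pool.Agent.Lib.ANT

lemma omega_prod {ι : Type*} (s : Finset ι) (f : ι → ℤ[X]) {p : ℕ} (hp : p.Prime)
    (h : ∀ i ∈ s, ∀ j ∈ s, i ≠ j → ∀ n : ℤ, ¬ ((p : ℤ) ∣ (f i).eval n ∧ (p : ℤ) ∣ (f j).eval n)) :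
    omega (∏ i ∈ s, f i) p = ∑ i ∈ s, omega (f i) p := by
  classical
  unfold omega
  rw [← card_biUnion]
  · congr 1
    ext n
    simp only [mem_filter, mem_biUnion, eval_prod,
      Prime.dvd_finsetProd_iff (Nat.prime_iff_prime_int.mp hp)]
    constructor
    · rintro ⟨h1, i, hi, h2⟩; exact ⟨i, hi, h1, h2⟩
    · rintro ⟨i, hi, h1, h2⟩; exact ⟨h1, i, hi, h2⟩
  · intro i hi j hj hij
    exact disjoint_left.mpr fun n h1 h2 =>
      h i hi j hj hij n ⟨(mem_filter.mp h1).2, (mem_filter.mp h2).2⟩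

lemma one_sub_sum_le_prod {ι : Type*} (s : Finset ι) (x : ι → ℝ) (h0 : ∀ i ∈ s, 0 ≤ x i)
    (h1 : ∀ i ∈ s, x i ≤ 1) : 1 - ∑ i ∈ s, x i ≤ ∏ i ∈ s, (1 - x i) := by
  classical
  induction s using Finset.induction_on with
  | empty => simp
  | insert a s ha ih =>
    rw [sum_insert ha, prod_insert ha]
    have a1 := ih (fun i hi => h0 i (mem_insert_of_mem hi)) fun i hi => h1 i (mem_insert_of_mem hi)
    have a2 := h0 a (mem_insert_self _ _)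
    have a3 := h1 a (mem_insert_self _ _)
    have a4 : 0 ≤ ∑ i ∈ s, x i := sum_nonneg fun i hi => h0 i (mem_insert_of_mem hi)
    nlinarith [mul_le_mul_of_nonneg_left a1 (sub_nonneg.mpr a3), mul_nonneg a2 a4]

lemma prod_one_add_le {ι : Type*} (s : Finset ι) (o : ι → ℕ) {p : ℕ} (h : ∑ i ∈ s, o i < p) :
    (∏ i ∈ s, (1 + (o i : ℝ) / (p - o i))) - 1
      ≤ ((∑ i ∈ s, o i : ℕ) : ℝ) / (p - (∑ i ∈ s, o i : ℕ)) := by
  have h' : ((∑ i ∈ s, o i : ℕ) : ℝ) < p := by exact_mod_cast h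
  have hp : (0 : ℝ) < p := lt_of_le_of_lt (Nat.cast_nonneg _) h'
  have hi : ∀ i ∈ s, (o i : ℝ) < p := fun i hi => by
    exact_mod_cast (single_le_sum (fun _ _ => Nat.zero_le _) hi).trans_lt h
  have a1 := one_sub_sum_le_prod s (fun i => (o i : ℝ) / p) (fun i _ => by positivity)
    fun i hh => div_le_one_of_le₀ (hi i hh).le hp.le
  rw [← sum_div, ← Nat.cast_sum] at a1
  have a2 : ∏ i ∈ s, (1 + (o i : ℝ) / (p - o i)) = (∏ i ∈ s, (1 - (o i : ℝ) / p))⁻¹ := by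
    rw [← prod_inv_distrib]
    refine prod_congr rfl fun i hh => ?_
    have := sub_pos.mpr (hi i hh)
    field_simp; ring
  generalize ((∑ i ∈ s, o i : ℕ) : ℝ) = S at h' a1 ⊢
  have a3 : 0 < 1 - S / p := sub_pos.mpr ((div_lt_one hp).mpr h')
  have a4 := inv_anti₀ a3 a1
  have a5 : (1 - S / p)⁻¹ = 1 + S / (p - S) := by
    have := sub_pos.mpr h'
    field_simp; ring
  rw [a2]; linarith

lemma card_adm (P : ℤ[X]) (T : Finset ℕ) (hT : ∀ p ∈ T, p.Prime) :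
    (((range (∏ p ∈ T, p)).filter (fun c : ℕ => ∀ p ∈ T, ¬ (p : ℤ) ∣ P.eval (c : ℤ))).card : ℝ)
      / (∏ p ∈ T, p : ℕ) = ∏ p ∈ T, (1 - (omega P p : ℝ) / p) := by
  have := card_range_prod_primes T hT
    (fun p => (range p).filter fun n : ℕ => ¬ (p : ℤ) ∣ P.eval (n : ℤ)) (fun p _ => filter_subset _ _)
  have e : (range (∏ p ∈ T, p)).filter (fun c : ℕ => ∀ p ∈ T, ¬ (p : ℤ) ∣ P.eval (c : ℤ))
      = (range (∏ p ∈ T, p)).filter (fun n : ℕ => ∀ p ∈ T,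
        n % p ∈ (range p).filter fun n : ℕ => ¬ (p : ℤ) ∣ P.eval (n : ℤ)) := by
    refine filter_congr fun n _ => forall₂_congr fun p hp => ?_
    rw [mem_filter, dvd_eval_mod, mem_range]
    exact (and_iff_right (Nat.mod_lt _ (hT p hp).pos)).symm
  rw [e, this]
  push_cast
  rw [← prod_div_distrib]
  refine prod_congr rfl fun p hp => ?_
  have h1 := card_filter_add_card_filter_not (s := range p)
    (fun n : ℕ => (p : ℤ) ∣ P.eval (n : ℤ))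
  rw [card_range] at h1
  have h2 : (omega P p : ℝ) + (((range p).filter
      fun n : ℕ => ¬ (p : ℤ) ∣ P.eval (n : ℤ)).card : ℝ) = p := by exact_mod_cast h1
  have h3 : (p : ℝ) ≠ 0 := by exact_mod_cast (hT p hp).ne_zero
  field_simp
  linarith

lemma totient_prod_primes (T : Finset ℕ) (hT : ∀ p ∈ T, p.Prime) :
    ((∏ p ∈ T, p).totient : ℝ) / (∏ p ∈ T, p : ℕ) = ∏ p ∈ T, (1 - 1 / (p : ℝ)) := by
  have h := Nat.totient_eq_mul_prod_factors (∏ p ∈ T, p)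
  rw [Nat.primeFactors_prod hT] at h
  have h' := congrArg (fun x : ℚ => (x : ℝ)) h
  have h0 : ((∏ p ∈ T, p : ℕ) : ℝ) ≠ 0 := by
    exact_mod_cast (prod_pos fun p hp => (hT p hp).pos).ne'
  simp only [Rat.cast_natCast, Rat.cast_mul, Rat.cast_prod, Rat.cast_sub, Rat.cast_one,
    Rat.cast_inv] at h'
  rw [h', mul_div_cancel_left₀ _ h0]
  simp

lemma prime_dvd_prod_iff {T : Finset ℕ} (hT : ∀ p ∈ T, p.Prime) {p : ℕ} (hp : p.Prime) :
    p ∣ ∏ q ∈ T, q ↔ p ∈ T := by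
  rw [Prime.dvd_finsetProd_iff hp.prime]
  exact ⟨fun ⟨q, hq, h⟩ => (Nat.prime_dvd_prime_iff_eq hp (hT q hq)).mp h ▸ hq,
    fun h => ⟨p, h, dvd_rfl⟩⟩

open Classical in
theorem system_bound (ι : Type*) [DecidableEq ι] (m K : ℕ) (hm : 1 ≤ m) :
    ∃ η : ℝ, 0 < η ∧ ∀ᶠ N : ℕ in atTop,
    ∀ (s : Finset ι) (f : ι → ℤ[X]) (i0 : ι) (a : ℕ) (b0 : ℤ) (T : Finset ℕ) (M Y0 w : ℕ) (c E : ℝ),
    s.card = m + 1 → i0 ∈ s → (∀ n : ℤ, (f i0).eval n = a * n + b0) → 0 < a →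
    (∀ p ∈ T, p.Prime) → (∀ p, p.Prime → p ∣ a → p ∈ T) → (Y0 : ℤ) = a * M + b0 →
    (a : ℝ) ≤ (N : ℝ) ^ η → ((∏ p ∈ T, p : ℕ) : ℝ) ≤ (N : ℝ) ^ η →
    ((Y0 + a * N : ℕ) : ℝ) ≤ (N : ℝ) ^ η * N → 0 < w → 2 * K ≤ w →
    (∀ p : ℕ, p.Prime → p ∉ T → w < p ∧ ∑ i ∈ s.erase i0, omega (f i) p ≤ K ∧
      ∀ i ∈ s, ∀ j ∈ s, i ≠ j → ∀ n : ℤ, ¬ ((p : ℤ) ∣ (f i).eval n ∧ (p : ℤ) ∣ (f j).eval n)) →
    0 < c → 0 ≤ E → m * E ≤ η * Real.log N →
    (∀ i ∈ s.erase i0, ∀ y : ℝ, 1 ≤ y → ∀ Ps : Finset ℕ, (∀ p ∈ Ps, p.Prime) →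
      (∀ p : ℕ, p.Prime → (p : ℝ) ≤ y → p ∈ Ps) →
      c * (((∏ p ∈ T, p).totient : ℝ) / (∏ p ∈ T, p : ℕ)) * (Real.log y - E) ≤
        sqfSum Ps (fun p => if p ∣ ∏ p ∈ T, p then 0 else
          (omega (f i) p : ℝ) / (p - omega (f i) p)) y) →
    (((Ioc M (M + N)).filter (fun n : ℕ => ∀ p : ℕ, p.Prime → (p ∈ T ∨ (p : ℝ) ≤ √N) →
        ∀ i ∈ s, ¬ (p : ℤ) ∣ (f i).eval (n : ℤ))).card : ℝ)
      ≤ N * (∏ p ∈ T, (1 - (omega (∏ i ∈ s, f i) p : ℝ) / p) / (1 - 1 / (p : ℝ)) ^ (m + 1)) *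
          (Real.exp (16 * K / w) / ((1 + 1 / (9400 * ((m : ℝ) + 1))) * c ^ m)) *
          (2 ^ (m + 1) * (m + 1).factorial) / Real.log N ^ (m + 1)
        + 10 * (N / (N : ℝ) ^ η) := by
  classical
  obtain ⟨η, hη, hev⟩ := sieve_main m K hm
  refine ⟨η, hη, ?_⟩
  filter_upwards [hev, eventually_ge_atTop 2] with N hN hN2
  intro s f i0 a b0 T M Y0 w c E hs hi0 hf ha hT haT hY haZ hWZ hYZ hw hKw hgood hc hE0 hE H
  set W := ∏ p ∈ T, p with hW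
  have hW0 : 0 < W := prod_pos fun p hp => (hT p hp).pos
  have hWT : ∀ p, p.Prime → (p ∣ W ↔ p ∈ T) := fun p hp => prime_dvd_prod_iff hT hp
  have hN1 : (1 : ℝ) < N := by exact_mod_cast hN2
  have hsq : √(N : ℝ) ≤ N := Real.sqrt_le_iff.mpr ⟨by linarith, by nlinarith⟩
  set P0 := (range (N + 1)).filter (fun p : ℕ => p.Prime ∧ (p : ℝ) ≤ √N) with hP0
  have hP01 : ∀ p ∈ P0, p.Prime ∧ p ≤ N := fun p hp =>
    ⟨(mem_filter.mp hp).2.1, Nat.lt_succ_iff.mp (mem_range.mp (mem_filter.mp hp).1)⟩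
  have hP02 : ∀ p : ℕ, p.Prime → (p : ℝ) ≤ √N → p ∈ P0 := fun p hp h =>
    mem_filter.mpr ⟨mem_range.mpr (Nat.lt_succ_iff.mpr (by exact_mod_cast h.trans hsq)), hp, h⟩
  set G := ∏ i ∈ s.erase i0, f i with hG
  have hφ : (0 : ℝ) < (W.totient : ℝ) / W := by
    have h1 : (0 : ℝ) < W.totient := by exact_mod_cast Nat.totient_pos.mpr hW0
    exact div_pos h1 (Nat.cast_pos.mpr hW0)
  have hom : ∀ p, p.Prime → ¬ p ∣ W → omega G p = ∑ i ∈ s.erase i0, omega (f i) p :=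
    fun p hp h => omega_prod _ f hp fun i hi j hj => (hgood p hp (mt (hWT p hp).mpr h)).2.2 i
      (mem_of_mem_erase hi) j (mem_of_mem_erase hj)
  have hcard : (s.erase i0).card = m := by rw [card_erase_of_mem hi0, hs]; rfl
  have hlt : ∀ p, p.Prime → ¬ p ∣ W → ∑ i ∈ s.erase i0, omega (f i) p < p := fun p hp h => by
    have := hgood p hp (mt (hWT p hp).mpr h); omega
  have hg0 : ∀ i ∈ s.erase i0, ∀ p ∈ P0, 0 ≤ (if p ∣ W then 0 else
      (omega (f i) p : ℝ) / (p - omega (f i) p)) := by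
    intro i hi p hp
    split_ifs with h
    · exact le_rfl
    · have : (omega (f i) p : ℝ) < p := by
        exact_mod_cast (single_le_sum (f := fun i => omega (f i) p)
          (fun _ _ => Nat.zero_le _) hi).trans_lt (hlt p (hP01 p hp).1 h)
      exact div_nonneg (Nat.cast_nonneg _) (by linarith)
  have main := hN G a W M Y0 w ((range W).filter (fun c : ℕ => ∀ p ∈ T,
      ¬ (p : ℤ) ∣ (∏ i ∈ s, f i).eval (c : ℤ))) P0 b0 ((c * (W.totient / W)) ^ m) (m * E)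
    ha hW0 (filter_subset _ _) (fun p hp h => (hWT p hp).mpr (haT p hp h)) ?_ hY haZ hWZ hYZ hw hKw
    hP01 hP02 ?_ (pow_pos (mul_pos hc hφ) m) (mul_nonneg (Nat.cast_nonneg _) hE0) hE ?_
  rotate_left
  · intro x hx p hp h1 h2
    refine (mem_filter.mp hx).2 p ((hWT p hp).mp h1) ?_
    rw [eval_prod]
    exact (hf x ▸ h2).trans (dvd_prod_of_mem _ hi0)
  · intro p hp h
    have hg := hgood p hp (mt (hWT p hp).mpr h)
    refine ⟨hg.1, hom p hp h ▸ hg.2.1, fun n hn => ?_⟩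
    rw [hG, eval_prod, Prime.dvd_finsetProd_iff (Nat.prime_iff_prime_int.mp hp)] at hn
    obtain ⟨h1, i, hi, h2⟩ := hn
    exact hg.2.2 i0 hi0 i (mem_of_mem_erase hi) (ne_of_mem_erase hi).symm n ⟨hf n ▸ h1, h2⟩
  · intro y y1 y2
    have := sqfSum_pow_lower P0 (fun p hp => (hP01 p hp).1) (s.erase i0)
      (fun i p => if p ∣ W then 0 else (omega (f i) p : ℝ) / (p - omega (f i) p)) hg0
      (mul_pos hc hφ).le hE0 (z := √N) (fun i hi y y1 y2 => H i hi y y1 P0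
        (fun p hp => (hP01 p hp).1) fun p hp h => hP02 p hp (h.trans y2)) y y1 y2
    rw [hcard] at this
    refine this.trans (sqfSum_mono (fun p hp => ?_) (fun p hp => ?_) le_rfl)
    · exact sub_nonneg.mpr (one_le_prod fun i hi => by linarith [hg0 i hi p hp])
    · by_cases h : p ∣ W
      · simp [h]
      · simp only [if_neg h]
        rw [hom p (hP01 p hp).1 h]
        exact prod_one_add_le _ _ (hlt p (hP01 p hp).1 h)
  refine le_trans ?_ (main.trans (le_of_eq ?_))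
  · refine Nat.cast_le.mpr (card_le_card fun n hn => ?_)
    rw [mem_filter] at hn ⊢
    refine ⟨hn.1, mem_filter.mpr ⟨mem_range.mpr (Nat.mod_lt _ hW0), fun p hp h => ?_⟩,
      fun p hp _ => ⟨?_, ?_⟩⟩
    · have h1 : (p : ℤ) ∣ (∏ i ∈ s, f i).eval (n : ℤ) := by
        rw [← dvd_eval_mod, ← Nat.mod_mod_of_dvd n ((hWT p (hT p hp)).mpr hp), dvd_eval_mod]
        exact h
      rw [eval_prod, Prime.dvd_finsetProd_iff (Nat.prime_iff_prime_int.mp (hT p hp))] at h1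
      obtain ⟨i, hi, h2⟩ := h1
      exact hn.2 p (hT p hp) (Or.inl hp) i hi h2
    · rw [← hf]; exact hn.2 p (hP01 p hp).1 (Or.inr (mem_filter.mp hp).2.2) i0 hi0
    · rw [hG, eval_prod, Prime.dvd_finsetProd_iff (Nat.prime_iff_prime_int.mp (hP01 p hp).1)]
      rintro ⟨i, hi, h2⟩
      exact hn.2 p (hP01 p hp).1 (Or.inr (mem_filter.mp hp).2.2) i (mem_of_mem_erase hi) h2
  · rw [prod_div_distrib, prod_pow, ← card_adm _ T hT, ← totient_prod_primes T hT, ← hW,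
      mul_div_assoc (N : ℝ)]
    have h1 := hφ.ne'
    have h2 := hc.ne'
    have h3 := (Real.log_pos hN1).ne'
    have h4 : (1 + 1 / (9400 * ((m : ℝ) + 1))) ≠ 0 := by positivity
    generalize (W.totient : ℝ) / W = φ at h1 ⊢
    generalize (1 + 1 / (9400 * ((m : ℝ) + 1))) = γ at h4 ⊢
    congr 1
    field_simp
    ring

lemma exists_delta (m : ℕ) : ∃ δ : ℝ, 0 < δ ∧ δ < 1 ∧
    Real.exp δ / ((1 + 1 / (9400 * ((m : ℝ) + 1))) * (1 - δ) ^ m) * (1 + δ) ^ (m + 1)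
      ≤ 1 - 1 / (10000 * ((m : ℝ) + 1)) := by
  have hγ : 0 < 1 + 1 / (9400 * ((m : ℝ) + 1)) := by positivity
  have hc : ContinuousAt (fun δ : ℝ => Real.exp δ /
      ((1 + 1 / (9400 * ((m : ℝ) + 1))) * (1 - δ) ^ m) * (1 + δ) ^ (m + 1)) 0 := by
    refine ContinuousAt.mul (ContinuousAt.div (by fun_prop) (by fun_prop) ?_) (by fun_prop)
    simpa using hγ.ne'
  have hlt : Real.exp 0 / ((1 + 1 / (9400 * ((m : ℝ) + 1))) * (1 - 0) ^ m) * (1 + 0) ^ (m + 1)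
      < 1 - 1 / (10000 * ((m : ℝ) + 1)) := by
    simp only [Real.exp_zero, sub_zero, add_zero, one_pow, mul_one]
    rw [div_lt_iff₀ hγ]
    have h1 : (1 : ℝ) ≤ (m : ℝ) + 1 := by linarith [(Nat.cast_nonneg m : (0 : ℝ) ≤ m)]
    generalize (m : ℝ) + 1 = k at h1
    field_simp
    nlinarith
  have h1 := (hc.eventually (gt_mem_nhds hlt)).filter_mono (nhdsWithin_le_nhds (s := Set.Ioi 0))
  have h2 : ∀ᶠ δ : ℝ in 𝓝[>] 0, δ < 1 :=
    (gt_mem_nhds one_pos : ∀ᶠ δ : ℝ in 𝓝 0, δ < 1).filter_mono nhdsWithin_le_nhds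
  obtain ⟨δ, a, b, c⟩ := (h1.and (h2.and self_mem_nhdsWithin)).exists
  exact ⟨δ, c, b, a.le⟩

end Pool.Agent.Work.MP_51e72e_nt
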