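import Pool.Agent.Work.MP_51e72e_nt.TENum

/-! The weights on typical integers. -/

set_option autoImplicit false
open Finset Filter Topology
open Pool.Agent.Work.MP_678620_nt

namespace Pool.Agent.Work.MP_51e72e_nt.TE

lemma teb_om_mul {a b : ℕ} (h : Nat.Coprime a b) : om (a * b) = om a + om b := by
  unfold om
  rw [h.primeFactors_mul, card_union_of_disjoint h.disjoint_primeFactors]

lemma primeFactors_sp (z : ℝ) {r : ℕ} (hr : r ≠ 0) : (sp z r).primeFactors = ZZ z r := by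
  have h0 : sp z r ≠ 0 := fun h => hr (by rw [← sp_mul_rp z r, h, zero_mul])
  ext p
  rw [Nat.mem_primeFactors, mem_ZZ]
  constructor
  · rintro ⟨h1, h2, _⟩
    exact ⟨h1, smo_sp z r p h1 h2, h2.trans ⟨_, (sp_mul_rp z r).symm⟩⟩
  · rintro ⟨h1, h2, h3⟩
    refine ⟨h1, ?_, h0⟩
    rw [← sp_mul_rp z r] at h3
    exact (h1.dvd_mul.1 h3).resolve_right fun h' => (rou_rp z hr p h1 h').not_ge h2

lemma om_split (z : ℝ) {r : ℕ} (hr : r ≠ 0) : om r = (ZZ z r).card + om (rp z r) := by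
  have h := teb_om_mul ((smo_sp z r).spc_cop (rou_rp z hr))
  rw [sp_mul_rp] at h
  rw [h, ← primeFactors_sp z hr]
  rfl

lemma gam_sqf {z : ℝ} {m : ℕ} (hm : Rou z m) (hs : Squarefree m) (i : ℕ) :
    gam z 1 (ww z i) m = if om m = i + 1 then Real.log m else 0 := by
  have key : ∀ p ∈ m.primeFactors,
      (if z < p ∧ p ≡ 1 [MOD 1] then ww z i (m / p) * Real.log p else 0)
        = if om m = i + 1 then Real.log p else 0 := by
    intro p hp
    have h1 := Nat.prime_of_mem_primeFactors hp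
    obtain ⟨c, rfl⟩ := Nat.dvd_of_mem_primeFactors hp
    rw [if_pos ⟨hm p h1 (dvd_mul_right _ _), Nat.modEq_one⟩, Nat.mul_div_cancel_left _ h1.pos]
    have h2 : Rou z c := fun q hq h => hm q hq (h.mul_left _)
    have h3 : Squarefree c := hs.of_mul_right
    have h4 : om (p * c) = om c + 1 := by
      rw [teb_om_mul (Nat.coprime_of_squarefree_mul hs), add_comm]
      congr 1
      unfold om
      rw [h1.primeFactors, card_singleton]
    unfold ww
    by_cases h5 : om c = i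
    · rw [if_pos ⟨h2, h3, h5⟩, if_pos (by omega), one_mul]
    · rw [if_neg (fun h => h5 h.2.2), if_neg (by omega), zero_mul]
  unfold gam
  rw [sum_congr rfl key]
  split_ifs
  · conv_rhs => rw [← Nat.prod_primeFactors_of_squarefree hs]
    rw [Nat.cast_prod, Real.log_prod]
    intro p hp
    exact_mod_cast (Nat.prime_of_mem_primeFactors hp).ne_zero
  · simp

lemma dat_ww {z : ℝ} {β : ℕ → ℂ} (h1 : ∀ n, ‖β n‖ ≤ 1) (h2 : ∀ n, β n ≠ 0 → Smo z n) (i : ℕ) :
    Dat z 1 β (ww z i) := by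
  refine ⟨h1, h2, fun n => ?_, fun n => ?_, fun n hn => ⟨?_, Nat.modEq_one⟩⟩
  · unfold ww
    split_ifs <;> norm_num
  · unfold ww
    split_ifs <;> norm_num
  · by_contra h
    exact hn (if_neg fun h' => h h'.1)

lemma teb_dat (z : ℝ) (i : ℕ) : Dat z 1 (fun _ => 0) (ww z i) :=
  dat_ww (fun _ => by simp) (fun _ h => absurd rfl h) i

lemma F_bound : ∀ᶠ X : ℕ in atTop, ∀ k0 k r : ℕ, r ≤ X ^ 3 →
    0 ≤ Fg X k0 k r ∧ Fg X k0 k r ≤ 4 * Real.log X ^ 2 ∧
      0 ≤ Ff X k0 k r ∧ Ff X k0 k r ≤ 4 * Real.log X ^ 2 := by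
  filter_upwards [rhoF_bound, scales] with X h1 h2 k0 k r hr
  have h3 : rp (zz X) r ≤ X ^ 3 := (Nat.div_le_self _ _).trans hr
  have h4 := spc_log_three h3
  have h5 := h2.2.1
  have h0 : 0 ≤ 4 * Real.log X ^ 2 := by positivity
  unfold Fg Ff gz
  split_ifs
  · obtain ⟨g0, g1⟩ := gam_bound (teb_dat (zz X) (k - 1 - (ZZ (zz X) r).card)) (rp (zz X) r)
    obtain ⟨f0, f1⟩ := h1 _ (teb_dat (zz X) (k - 1 - (ZZ (zz X) r).card)).w_nonneg
      (teb_dat (zz X) (k - 1 - (ZZ (zz X) r).card)).w_le _ h3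
    exact ⟨g0, by nlinarith only [h2, h4, g1], f0, f1⟩
  · exact ⟨le_rfl, h0, le_rfl, h0⟩

lemma val_le (a b : ℤ) : ∀ᶠ X : ℕ in atTop, ∀ n ∈ Icc 1 X, val a b n ≤ X ^ 3 := by
  filter_upwards [eventually_ge_atTop (a.natAbs + b.natAbs + 1)] with X hX n hn
  obtain ⟨h1, h2⟩ := mem_Icc.1 hn
  have h3 : val a b n ≤ a.natAbs * n + b.natAbs := by
    unfold val
    refine (Int.natAbs_add_le _ _).trans ?_
    rw [Int.natAbs_mul, Int.natAbs_natCast]
  have h4 : a.natAbs * n ≤ a.natAbs * X := Nat.mul_le_mul_left _ h2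
  have h5 : b.natAbs ≤ b.natAbs * X := Nat.le_mul_of_pos_right _ (by omega)
  have h6 : (a.natAbs + b.natAbs) * X ≤ X * X := Nat.mul_le_mul_right _ (by omega)
  have h7 : X * X ≤ X ^ 3 := by
    rw [pow_succ, pow_two]
    exact Nat.le_mul_of_pos_right _ (by omega)
  nlinarith only [h3, h4, h5, h6, h7]

/-- The size of the rough part of a typical integer. -/
lemma teb_typ {X r : ℕ} (hX : 0 < X) (h : Typ X r) :
    r ≠ 0 ∧ (X : ℝ) / YY X ^ 2 ≤ rp (zz X) r ∧ (rp (zz X) r : ℝ) ≤ X * Real.log X := by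
  obtain ⟨_, h2, h3, h4⟩ := h
  have hY : 0 < YY X := Real.exp_pos _
  have hX' : (0 : ℝ) < X := by exact_mod_cast hX
  have h5 : (0 : ℝ) < r := (div_pos hX' hY).trans_le h3
  refine ⟨by exact_mod_cast h5.ne', ?_, le_trans ?_ h4⟩
  · have h6 : (r : ℝ) = sp (zz X) r * rp (zz X) r := by exact_mod_cast (sp_mul_rp _ _).symm
    have h7 : (r : ℝ) ≤ YY X * rp (zz X) r :=
      h6.trans_le (mul_le_mul_of_nonneg_right h2 (Nat.cast_nonneg _))
    rw [div_le_iff₀ hY] at h3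
    rw [div_le_iff₀ (pow_pos hY 2)]
    nlinarith only [h3, h7, h2]
  · exact_mod_cast Nat.div_le_self _ _

lemma teb_YY {X : ℕ} (h1 : 2 ≤ zz X) (h2 : zz X < YY X) (h3 : YY X ^ 100 ≤ X) :
    0 < X ∧ 2 ≤ (X : ℝ) / YY X ^ 2 := by
  have hY : 0 < YY X := Real.exp_pos _
  have h4 : (0 : ℝ) < X := (pow_pos hY 100).trans_le h3
  refine ⟨by exact_mod_cast h4, ?_⟩
  rw [le_div_iff₀ (pow_pos hY 2)]
  have h5 : YY X ^ 3 ≤ YY X ^ 100 := pow_le_pow_right₀ (by linarith) (by norm_num)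
  have h6 : 2 * YY X ^ 2 ≤ YY X ^ 3 := by
    rw [pow_succ (YY X) 2, mul_comm]
    exact mul_le_mul_of_nonneg_left (by linarith) (by positivity)
  linarith

lemma Fg_typ {ε : ℝ} (hε : 0 < ε) : ∀ᶠ X : ℕ in atTop, ∀ k0 k r : ℕ, Typ X r →
    if om r = k ∧ k0 ≤ (ZZ (zz X) r ∩ EE X).card then |Fg X k0 k r - Real.log X| ≤ ε * Real.log X
    else Fg X k0 k r = 0 := by
  filter_upwards [scales, LL_le_rpow 1 (c := 99 / 100) (by norm_num),
    rpow_le_rpow_log (2 / ε) (c := 99 / 100) (c' := 1) (by norm_num)] with X h1 h2 h3 k0 k r hr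
  obtain ⟨_, s1, s2, s3, s4, _⟩ := h1
  obtain ⟨hX, y2⟩ := teb_YY s2 s3 s4
  obtain ⟨r0, t1, t2⟩ := teb_typ hX hr
  have hY : 0 < YY X := Real.exp_pos _
  have hX' : (0 : ℝ) < X := by exact_mod_cast hX
  have m2 : 2 ≤ rp (zz X) r := by exact_mod_cast y2.trans t1
  have m3 : 0 < om (rp (zz X) r) := card_pos.2 (Nat.nonempty_primeFactors.2 m2)
  have hs := om_split (zz X) r0
  have hg := fun i => gam_sqf (rou_rp (zz X) r0) hr.1 i
  unfold Fg gz
  simp only [hg]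
  by_cases hc : om r = k ∧ k0 ≤ (ZZ (zz X) r ∩ EE X).card
  · rw [if_pos hc, if_pos ⟨hc.2, by omega⟩, if_pos (by omega)]
    rw [Real.rpow_one, div_mul_eq_mul_div, div_le_iff₀ hε] at h3
    rw [one_mul] at h2
    have l1 : Real.log X - 2 * Real.log X ^ (99 / 100 : ℝ) ≤ Real.log (rp (zz X) r) := by
      have := Real.log_le_log (div_pos hX' (pow_pos hY 2)) t1
      rw [Real.log_div hX'.ne' (pow_pos hY 2).ne', Real.log_pow, YY, Real.log_exp] at this
      exact_mod_cast this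
    have l2 : Real.log (rp (zz X) r) ≤ Real.log X + LL X := by
      have := Real.log_le_log (by exact_mod_cast (by omega : 0 < rp (zz X) r)) t2
      rwa [Real.log_mul hX'.ne' (by linarith only [s1])] at this
    have l3 : 0 ≤ Real.log X ^ (99 / 100 : ℝ) := Real.rpow_nonneg (by linarith only [s1]) _
    rw [abs_le]
    constructor <;> nlinarith
  · rw [if_neg hc]
    split_ifs with h4 h5
    · exact absurd ⟨by omega, h4.1⟩ hc
    · rfl
    · rfl

lemma teb_upper {X i : ℕ} {A : Finset ℕ} (hA : ∀ m ∈ A, m ≤ X) :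
    ∑ m ∈ A, ww (zz X) i m / m ≤ TT X X i := by
  classical
  have h1 : ∑ m ∈ A, ww (zz X) i m / m
      = ∑ m ∈ A.filter (fun m => Rou (zz X) m ∧ Squarefree m ∧ om m = i),
          ∏ p ∈ m.primeFactors, (p : ℝ)⁻¹ := by
    rw [sum_filter]
    refine sum_congr rfl fun m _ => ?_
    unfold ww
    split_ifs with h
    · rw [prod_inv_distrib, ← Nat.cast_prod, Nat.prod_primeFactors_of_squarefree h.2.1, one_div]
    · rw [zero_div]
  rw [h1, ← sum_image (f := fun S : Finset ℕ => ∏ p ∈ S, (p : ℝ)⁻¹) (g := Nat.primeFactors)]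
  · refine sum_le_sum_of_subset_of_nonneg (fun S hS => ?_)
      fun S _ _ => prod_nonneg fun p _ => by positivity
    obtain ⟨m, hm, rfl⟩ := mem_image.1 hS
    obtain ⟨h2, h3, h4, h5⟩ := mem_filter.1 hm
    refine mem_filter.2 ⟨mem_powersetCard.2 ⟨fun p hp => ?_, h5⟩, ?_⟩
    · have h6 := Nat.prime_of_mem_primeFactors hp
      refine mem_PS.2 ⟨h6, h3 p h6 (Nat.dvd_of_mem_primeFactors hp), ?_⟩
      exact_mod_cast (Nat.le_of_mem_primeFactors hp).trans (hA m h2)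
    · rw [Nat.prod_primeFactors_of_squarefree h4]
      exact_mod_cast hA m h2
  · intro m hm m' hm' h
    rw [← Nat.prod_primeFactors_of_squarefree (mem_filter.1 hm).2.2.1, h,
      Nat.prod_primeFactors_of_squarefree (mem_filter.1 hm').2.2.1]

lemma teb_lower {X i : ℕ} {y : ℝ} {A : Finset ℕ} (hA : ∀ m : ℕ, 1 ≤ m → (m : ℝ) ≤ y → m ∈ A) :
    TT X y i ≤ ∑ m ∈ A, ww (zz X) i m / m := by
  have hp : ∀ S ∈ ((PS (zz X) X).powersetCard i).filter (fun S => ((∏ p ∈ S, p : ℕ) : ℝ) ≤ y),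
      ∀ p ∈ S, p.Prime ∧ zz X < p := fun S hS p h => by
    have := mem_PS.1 ((mem_powersetCard.1 (mem_filter.1 hS).1).1 h)
    exact ⟨this.1, this.2.1⟩
  have h1 : TT X y i = ∑ S ∈ ((PS (zz X) X).powersetCard i).filter
      (fun S => ((∏ p ∈ S, p : ℕ) : ℝ) ≤ y),
        ww (zz X) i (∏ p ∈ S, p) / ((∏ p ∈ S, p : ℕ) : ℝ) := by
    refine sum_congr rfl fun S hS => ?_
    have h2 : Rou (zz X) (∏ p ∈ S, p) := fun q hq h => by
      obtain ⟨p, h3, h4⟩ := (Prime.dvd_finsetProd_iff hq.prime _).1 h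
      rw [(Nat.prime_dvd_prime_iff_eq hq (hp S hS p h3).1).1 h4]
      exact (hp S hS p h3).2
    have h3 : Squarefree (∏ p ∈ S, p) := by
      refine Finset.squarefree_prod_of_pairwise_isCoprime (fun p h3 q h4 h5 => ?_)
        fun p h => (hp S hS p h).1.squarefree
      exact Nat.coprime_iff_isRelPrime.1
        ((Nat.coprime_primes (hp S hS p h3).1 (hp S hS q h4).1).2 h5)
    have h4 : om (∏ p ∈ S, p) = i := by
      unfold om
      rw [Nat.primeFactors_prod fun p h => (hp S hS p h).1]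
      exact (mem_powersetCard.1 (mem_filter.1 hS).1).2
    unfold ww
    rw [if_pos ⟨h2, h3, h4⟩, prod_inv_distrib, ← Nat.cast_prod, one_div]
  rw [h1, ← sum_image (f := fun m : ℕ => ww (zz X) i m / (m : ℝ))
    (g := fun S : Finset ℕ => ∏ p ∈ S, p)]
  · refine sum_le_sum_of_subset_of_nonneg (fun m hm => ?_) fun m _ _ =>
      div_nonneg ((teb_dat (zz X) i).w_nonneg m) (Nat.cast_nonneg m)
    obtain ⟨S, hS, rfl⟩ := mem_image.1 hm
    exact hA _ (prod_pos fun p h => (hp S hS p h).1.pos) (mem_filter.1 hS).2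
  · intro S hS S' hS' h
    rw [← Nat.primeFactors_prod fun p h => (hp S hS p h).1, ← Nat.primeFactors_prod
      fun p h => (hp S' hS' p h).1]
    exact congrArg Nat.primeFactors h

lemma Ff_typ : ∀ᶠ X : ℕ in atTop, ∀ k0 k r : ℕ, Typ X r →
    gz X k0 (TT X (X / YY X ^ 3)) k (ZZ (zz X) r) ≤ Vz (zz X) * Ff X k0 k r ∧
      Vz (zz X) * Ff X k0 k r ≤ gz X k0 (TT X X) k (ZZ (zz X) r) := by
  filter_upwards [scales] with X h1 k0 k r hr
  obtain ⟨_, s1, s2, s3, s4, s5, _⟩ := h1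
  obtain ⟨hX, y2⟩ := teb_YY s2 s3 s4
  obtain ⟨r0, t1, t2⟩ := teb_typ hX hr
  have hY : 0 < YY X := Real.exp_pos _
  have hX' : (0 : ℝ) < X := by exact_mod_cast hX
  unfold Ff gz
  split_ifs
  · unfold rhoF
    rw [mul_div_cancel₀ _ (Vz_pos _).ne']
    refine ⟨teb_lower fun m m1 m2 => ?_, teb_upper fun m hm => ?_⟩
    · have m3 : (1 : ℝ) ≤ m := by exact_mod_cast m1
      have m4 : (m : ℝ) * YY X ≤ X / YY X ^ 2 := by
        rw [le_div_iff₀ (pow_pos hY 3)] at m2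
        rw [le_div_iff₀ (pow_pos hY 2)]
        linarith only [m2]
      have m5 : (m : ℝ) * zz X < rp (zz X) r := by nlinarith only [s3, t1, m4, m3]
      refine mem_filter.2 ⟨mem_Icc.2 ⟨m1, ?_⟩, m5⟩
      have m6 : (m : ℝ) ≤ rp (zz X) r := by nlinarith only [y2, t1, m5, s2]
      exact_mod_cast m6
    · have m1 := (mem_filter.1 hm).2
      have m2 : (m : ℝ) * zz X ≤ X * zz X :=
        (m1.le.trans t2).trans (mul_le_mul_of_nonneg_left s5 hX'.le)
      exact_mod_cast le_of_mul_le_mul_right m2 (by linarith only [s2])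
  · simp


end Pool.Agent.Work.MP_51e72e_nt.TE
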