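import Pool.Agent.Work.MP_678620_nt.SPConv
import Pool.Agent.Work.MP_678620_nt.Bonf

/-! Definitions for the joint local law of the number of prime factors of two linear forms. -/

set_option autoImplicit false
open Finset
open Pool.Agent.Work.MP_678620_nt

namespace Pool.Agent.Work.MP_51e72e_nt.TE

noncomputable section

/-- Number of distinct prime factors. -/
def om (r : ℕ) : ℕ := r.primeFactors.card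

/-- Absolute value of a linear form. -/
def val (a b : ℤ) (n : ℕ) : ℕ := (a * n + b).natAbs

def LL (X : ℕ) : ℝ := Real.log (Real.log X)

def uu (X j : ℕ) : ℝ := LL X ^ j / j.factorial

/-- The primes in `(y, y']`. -/
def PS (y y' : ℝ) : Finset ℕ := (Icc 1 ⌊y'⌋₊).filter fun p : ℕ => p.Prime ∧ y < p

/-- The set of primes that carries the expansion. -/
def EE (X : ℕ) : Finset ℕ :=
  PS (Real.exp (Real.log X ^ (1 / 8 : ℝ))) (Real.exp (Real.log X ^ (1 / 4 : ℝ)))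

/-- The primes up to `z` that divide `r`. -/
def ZZ (z : ℝ) (r : ℕ) : Finset ℕ := (PS 0 z).filter fun p => p ∣ r

/-- Indicator of the rough squarefree numbers with `i` prime factors. -/
def ww (z : ℝ) (i m : ℕ) : ℝ := if Rou z m ∧ Squarefree m ∧ om m = i then 1 else 0

/-- Cut-off and shift: `τ (k - 1 - |Z|)` if `Z` has at least `k0` primes of `EE X`. -/
def gz (X k0 : ℕ) (τ : ℕ → ℝ) (k : ℕ) (Z : Finset ℕ) : ℝ :=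
  if k0 ≤ (Z ∩ EE X).card ∧ Z.card < k then τ (k - 1 - Z.card) else 0

/-- The true weight. -/
def Fg (X k0 k r : ℕ) : ℝ :=
  gz X k0 (fun i => gam (zz X) 1 (ww (zz X) i) (rp (zz X) r)) k (ZZ (zz X) r)

/-- The model weight. -/
def Ff (X k0 k r : ℕ) : ℝ :=
  gz X k0 (fun i => rhoF (zz X) (ww (zz X) i) (rp (zz X) r)) k (ZZ (zz X) r)

def YY (X : ℕ) : ℝ := Real.exp (Real.log X ^ (99 / 100 : ℝ))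

/-- Typical integers. -/
def Typ (X r : ℕ) : Prop :=
  Squarefree (rp (zz X) r) ∧ (sp (zz X) r : ℝ) ≤ YY X ∧ (X : ℝ) / YY X ≤ r ∧
    (r : ℝ) ≤ X * Real.log X

instance (X r : ℕ) : Decidable (Typ X r) := Classical.propDecidable _

/-- Reciprocal sum over the rough squarefree numbers up to `y` with `i` prime factors. -/
def TT (X : ℕ) (y : ℝ) (i : ℕ) : ℝ :=
  ∑ S ∈ ((PS (zz X) X).powersetCard i).filter (fun S => ((∏ p ∈ S, p : ℕ) : ℝ) ≤ y),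
    ∏ p ∈ S, (p : ℝ)⁻¹

def e3 (X i : ℕ) : ℝ := esym (PS (zz X) X) (fun p => (p : ℝ)⁻¹) i

open Classical in
/-- Density of a divisibility pattern modulo `p`. -/
def pl (a₁ b₁ a₂ b₂ : ℤ) (p : ℕ) (s₁ s₂ : Prop) : ℝ :=
  (((range p).filter fun n : ℕ => ((p : ℤ) ∣ a₁ * n + b₁ ↔ s₁) ∧ ((p : ℤ) ∣ a₂ * n + b₂ ↔ s₂)).card
    : ℝ) / p

/-- The model probability of a pair of sets of prime divisors. -/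
def PZ (a₁ b₁ a₂ b₂ : ℤ) (I Z₁ Z₂ : Finset ℕ) : ℝ := ∏ p ∈ I, pl a₁ b₁ a₂ b₂ p (p ∈ Z₁) (p ∈ Z₂)

def P1 (I Z : Finset ℕ) : ℝ := ∏ p ∈ I, if p ∈ Z then (p : ℝ)⁻¹ else 1 - (p : ℝ)⁻¹

def Ex2 (a₁ b₁ a₂ b₂ : ℤ) (X k0 : ℕ) (τ : ℕ → ℝ) (k₁ k₂ : ℕ) : ℝ :=
  ∑ Z₁ ∈ (PS 0 (zz X)).powerset, ∑ Z₂ ∈ (PS 0 (zz X)).powerset,
    PZ a₁ b₁ a₂ b₂ (PS 0 (zz X)) Z₁ Z₂ * (gz X k0 τ k₁ Z₁ * gz X k0 τ k₂ Z₂)

def Ex1 (X : ℕ) (τ : ℕ → ℝ) (k : ℕ) : ℝ :=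
  ∑ Z ∈ (PS 0 (zz X)).powerset, P1 (PS 0 (zz X)) Z * gz X 0 τ k Z

/-- Convolution of an elementary symmetric sum with a sequence. -/
def cv (I : Finset ℕ) (ν τ : ℕ → ℝ) (j : ℕ) : ℝ := ∑ x ∈ antidiagonal j, esym I ν x.1 * τ x.2

def cs (I : Finset ℕ) (ν τ : ℕ → ℝ) (k i : ℕ) : ℝ := if i < k then cv I ν τ (k - 1 - i) else 0

def n1 (p : ℕ) : ℝ := ((p : ℝ) - 1)⁻¹

def n2 (p : ℕ) : ℝ := ((p : ℝ) - 2)⁻¹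

/-- Halve the weight on `E`. -/
def hf (E : Finset ℕ) (ν : ℕ → ℝ) (p : ℕ) : ℝ := if p ∈ E then ν p / 2 else ν p

def gm (E : Finset ℕ) (k0 : ℕ) (τ : ℕ → ℝ) (k i : ℕ) (Z : Finset ℕ) : ℝ :=
  if k0 ≤ (Z ∩ E).card ∧ i + Z.card < k then τ (k - 1 - i - Z.card) else 0

/-- The contribution of the middle primes. -/
def Mid (I E : Finset ℕ) (ν : ℕ → ℝ) (k0 : ℕ) (τ : ℕ → ℝ) (k₁ k₂ i₁ i₂ : ℕ) : ℝ :=
  ∑ Z₁ ∈ I.powerset, ∑ Z₂ ∈ I.powerset, if Disjoint Z₁ Z₂ then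
    ((∏ p ∈ Z₁, ν p) * gm E k0 τ k₁ i₁ Z₁) * ((∏ p ∈ Z₂, ν p) * gm E k0 τ k₂ i₂ Z₂) else 0

def ph (X P₀ j : ℕ) : ℝ := cv (PS P₀ (zz X)) n1 (TT X X) j

/-- The local mean. -/
def loc (a₁ b₁ a₂ b₂ : ℤ) (p : ℕ) (x₁ x₂ : ℝ) : ℝ :=
  (∑ n ∈ range p, (if (p : ℤ) ∣ a₁ * n + b₁ then x₁ else 1) *
    (if (p : ℤ) ∣ a₂ * n + b₂ then x₂ else 1)) / p

def fac (a₁ b₁ a₂ b₂ : ℤ) (p : ℕ) (x₁ x₂ : ℝ) : ℝ :=
  loc a₁ b₁ a₂ b₂ p x₁ x₂ / ((1 + (x₁ - 1) / p) * (1 + (x₂ - 1) / p))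

def G2 (a₁ b₁ a₂ b₂ : ℤ) (P₀ : ℕ) (x₁ x₂ : ℝ) : ℝ := ∏ p ∈ PS 0 P₀, loc a₁ b₁ a₂ b₂ p x₁ x₂

def G1 (P₀ : ℕ) (x : ℝ) : ℝ := ∏ p ∈ PS 0 P₀, (1 + (x - 1) / p)

def cnt1 (X k : ℕ) : ℕ := ((Icc 1 X).filter fun n => om n = k).card

def cnt2 (a₁ b₁ a₂ b₂ : ℤ) (X k₁ k₂ : ℕ) : ℕ :=
  ((Icc 1 X).filter fun n => om (val a₁ b₁ n) = k₁ ∧ om (val a₂ b₂ n) = k₂).card

def cntG (a₁ b₁ a₂ b₂ : ℤ) (X k0 k₁ k₂ : ℕ) : ℕ :=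
  ((Icc 1 X).filter fun n => om (val a₁ b₁ n) = k₁ ∧ om (val a₂ b₂ n) = k₂ ∧
    k0 ≤ (ZZ (zz X) (val a₁ b₁ n) ∩ EE X).card ∧ k0 ≤ (ZZ (zz X) (val a₂ b₂ n) ∩ EE X).card).card

def cntB (a₁ b₁ a₂ b₂ : ℤ) (X k0 k₁ k₂ : ℕ) : ℕ :=
  ((Icc 1 X).filter fun n => om (val a₁ b₁ n) = k₁ ∧ om (val a₂ b₂ n) = k₂ ∧
    (ZZ (zz X) (val a₁ b₁ n) ∩ EE X).card < k0).card

def rt (d : ℕ) : ℝ := ((d : ℝ) / d.totient) ^ 2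

open Classical in
/-- The small parts in the class `u` of the sieve argument. -/
def DD (X u k : ℕ) : Finset ℕ :=
  (Icc 1 ⌊(X : ℝ) ^ (1 / 10 : ℝ)⌋₊).filter fun d =>
    (∀ p ∈ d.primeFactors, u * Real.log p ≤ Real.log X) ∧
    u * Real.log X / 10 ≤ u * Real.log d + Real.log X ∧ k ≤ om d + u + 2 ∧ om d < k

/-- Standing assumptions on the two forms. -/
structure Frm (a₁ b₁ a₂ b₂ : ℤ) : Prop where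
  pos₁ : 0 < a₁
  pos₂ : 0 < a₂
  cop₁ : IsCoprime a₁ b₁
  cop₂ : IsCoprime a₂ b₂
  det : a₁ * b₂ ≠ a₂ * b₁

end

lemma Frm.symm {a₁ b₁ a₂ b₂ : ℤ} (h : Frm a₁ b₁ a₂ b₂) : Frm a₂ b₂ a₁ b₁ :=
  ⟨h.pos₂, h.pos₁, h.cop₂, h.cop₁, h.det.symm⟩

lemma mem_PS {y y' : ℝ} {p : ℕ} : p ∈ PS y y' ↔ p.Prime ∧ y < p ∧ (p : ℝ) ≤ y' := by
  unfold PS
  rw [mem_filter, mem_Icc]
  constructor
  · rintro ⟨⟨h1, h2⟩, h3, h4⟩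
    refine ⟨h3, h4, ?_⟩
    have h0 : 0 ≤ y' := by
      by_contra h
      rw [Nat.floor_of_nonpos (le_of_lt (not_le.1 h))] at h2
      omega
    exact (Nat.le_floor_iff h0).1 h2
  · rintro ⟨h1, h2, h3⟩
    exact ⟨⟨h1.one_le, Nat.le_floor h3⟩, h1, h2⟩

lemma PS_zero (z : ℝ) : PS 0 z = (Icc 1 ⌊z⌋₊).filter Nat.Prime := by
  unfold PS
  refine filter_congr fun p _ => ⟨fun h => h.1, fun h => ⟨h, by exact_mod_cast h.pos⟩⟩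

lemma PS_union {y₁ y₂ y₃ : ℝ} (h₁ : y₁ ≤ y₂) (h₂ : y₂ ≤ y₃) :
    PS y₁ y₃ = PS y₁ y₂ ∪ PS y₂ y₃ := by
  ext p
  simp only [mem_union, mem_PS]
  constructor
  · rintro ⟨h1, h2, h3⟩
    rcases le_or_gt (p : ℝ) y₂ with h | h
    · exact Or.inl ⟨h1, h2, h⟩
    · exact Or.inr ⟨h1, h, h3⟩
  · rintro (⟨h1, h2, h3⟩ | ⟨h1, h2, h3⟩)
    · exact ⟨h1, h2, h3.trans h₂⟩
    · exact ⟨h1, h₁.trans_lt h2, h3⟩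

lemma PS_disj (y₁ y₂ y₃ : ℝ) : Disjoint (PS y₁ y₂) (PS y₂ y₃) := by
  rw [disjoint_left]
  intro p h1 h2
  rw [mem_PS] at h1 h2
  exact absurd h2.2.1 (not_lt.2 h1.2.2)

lemma PS_mono {y₁ y₂ y₃ y₄ : ℝ} (h₁ : y₁ ≤ y₂) (h₂ : y₃ ≤ y₄) : PS y₂ y₃ ⊆ PS y₁ y₄ := by
  intro p hp
  rw [mem_PS] at hp ⊢
  exact ⟨hp.1, h₁.trans_lt hp.2.1, hp.2.2.trans h₂⟩

lemma mem_ZZ {z : ℝ} {r p : ℕ} : p ∈ ZZ z r ↔ p.Prime ∧ (p : ℝ) ≤ z ∧ p ∣ r := by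
  unfold ZZ
  rw [mem_filter, mem_PS]
  constructor
  · rintro ⟨⟨h1, _, h3⟩, h4⟩
    exact ⟨h1, h3, h4⟩
  · rintro ⟨h1, h2, h3⟩
    exact ⟨⟨h1, by exact_mod_cast h1.pos, h2⟩, h3⟩

lemma Vz_eq (z : ℝ) : Vz z = ∏ p ∈ PS 0 z, (1 - (p : ℝ)⁻¹) := by rw [PS_zero]; rfl

lemma dvd_val {a b : ℤ} {n d : ℕ} : d ∣ val a b n ↔ (d : ℤ) ∣ a * n + b := by
  unfold val
  exact Int.natCast_dvd.symm

lemma val_one (n : ℕ) : val 1 0 n = n := by simp [val]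

end Pool.Agent.Work.MP_51e72e_nt.TE
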