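import Pool.Agent.Work.MP_51e72e_nt.TEDefs
import Pool.Agent.Lib.ANT.SieveClasses

/-! Local densities. -/

set_option autoImplicit false
open Finset Filter Topology
open Pool.Agent.Work.MP_678620_nt

namespace Pool.Agent.Work.MP_51e72e_nt.TE

lemma sum_p1 (I : Finset ℕ) (f : ℕ → Prop → ℝ) :
    ∑ Z ∈ I.powerset, ∏ p ∈ I, f p (p ∈ Z) = ∏ p ∈ I, (f p True + f p False) := by
  rw [prod_add]
  refine sum_congr rfl fun Z hZ => ?_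
  have hZ' := mem_powerset.1 hZ
  rw [← prod_sdiff hZ', mul_comm]
  congr 1
  · exact prod_congr rfl fun p hp => by rw [eq_true hp]
  · exact prod_congr rfl fun p hp => by rw [eq_false (mem_sdiff.1 hp).2]

lemma sum_p2 (I : Finset ℕ) (f : ℕ → Prop → Prop → ℝ) :
    ∑ Z₁ ∈ I.powerset, ∑ Z₂ ∈ I.powerset, ∏ p ∈ I, f p (p ∈ Z₁) (p ∈ Z₂)
      = ∏ p ∈ I, (f p True True + f p True False + f p False True + f p False False) := by
  rw [sum_congr rfl fun Z₁ _ => sum_p1 I (fun p s => f p (p ∈ Z₁) s),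
    sum_p1 I (fun p s => f p s True + f p s False)]
  exact prod_congr rfl fun p _ => by ring

lemma sum_powerset_union {s t : Finset ℕ} (h : Disjoint s t) (F : Finset ℕ → ℝ) :
    ∑ Z ∈ (s ∪ t).powerset, F Z = ∑ A ∈ s.powerset, ∑ B ∈ t.powerset, F (A ∪ B) := by
  rw [← sum_product']
  symm
  refine sum_nbij' (fun x => x.1 ∪ x.2) (fun Z => (Z ∩ s, Z ∩ t)) ?_ ?_ ?_ ?_ (fun _ _ => rfl)
  · intro x hx
    rw [mem_product, mem_powerset, mem_powerset] at hx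
    exact mem_powerset.2 (union_subset_union hx.1 hx.2)
  · intro Z _
    exact mem_product.2 ⟨mem_powerset.2 inter_subset_right, mem_powerset.2 inter_subset_right⟩
  · intro x hx
    rw [mem_product, mem_powerset, mem_powerset] at hx
    have h' := disjoint_left.1 h
    ext p
    · simp only [mem_inter, mem_union]
      constructor
      · rintro ⟨h1 | h1, h2⟩
        · exact h1
        · exact absurd (hx.2 h1) (h' h2)
      · exact fun h1 => ⟨Or.inl h1, hx.1 h1⟩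
    · simp only [mem_inter, mem_union]
      constructor
      · rintro ⟨h1 | h1, h2⟩
        · exact absurd h2 (h' (hx.1 h1))
        · exact h1
      · exact fun h1 => ⟨Or.inr h1, hx.2 h1⟩
  · intro Z hZ
    rw [mem_powerset] at hZ
    simp only
    rw [← inter_union_distrib_left, inter_eq_left.2 hZ]

lemma pl_nonneg (a₁ b₁ a₂ b₂ : ℤ) (p : ℕ) (s₁ s₂ : Prop) : 0 ≤ pl a₁ b₁ a₂ b₂ p s₁ s₂ := by
  unfold pl; positivity

open Classical in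
lemma pl_eq (a₁ b₁ a₂ b₂ : ℤ) (p : ℕ) (s₁ s₂ : Prop) : pl a₁ b₁ a₂ b₂ p s₁ s₂ =
    (∑ n ∈ range p, if ((p : ℤ) ∣ a₁ * n + b₁ ↔ s₁) ∧ ((p : ℤ) ∣ a₂ * n + b₂ ↔ s₂) then (1 : ℝ)
      else 0) / p := by
  unfold pl
  rw [card_filter]
  push_cast
  rfl

lemma loc_eq (a₁ b₁ a₂ b₂ : ℤ) (p : ℕ) (x₁ x₂ : ℝ) : loc a₁ b₁ a₂ b₂ p x₁ x₂ =
    pl a₁ b₁ a₂ b₂ p True True * (x₁ * x₂) + pl a₁ b₁ a₂ b₂ p True False * x₁
      + pl a₁ b₁ a₂ b₂ p False True * x₂ + pl a₁ b₁ a₂ b₂ p False False := by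
  simp only [pl_eq, loc, div_mul_eq_mul_div, ← add_div, sum_mul, ← sum_add_distrib]
  congr 1
  refine sum_congr rfl fun n _ => ?_
  by_cases h1 : (p : ℤ) ∣ a₁ * n + b₁ <;> by_cases h2 : (p : ℤ) ∣ a₂ * n + b₂ <;> simp [h1, h2]

lemma pl_sum (a₁ b₁ a₂ b₂ : ℤ) {p : ℕ} (hp : 0 < p) :
    pl a₁ b₁ a₂ b₂ p True True + pl a₁ b₁ a₂ b₂ p True False + pl a₁ b₁ a₂ b₂ p False True
      + pl a₁ b₁ a₂ b₂ p False False = 1 := by
  have h := loc_eq a₁ b₁ a₂ b₂ p 1 1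
  have hp' : (p : ℝ) ≠ 0 := by positivity
  simp only [mul_one] at h
  rw [← h]
  simp [loc, hp']

lemma pl_symm (a₁ b₁ a₂ b₂ : ℤ) (p : ℕ) (s₁ s₂ : Prop) :
    pl a₁ b₁ a₂ b₂ p s₁ s₂ = pl a₂ b₂ a₁ b₁ p s₂ s₁ := by
  unfold pl
  congr 3
  ext n
  simp only [mem_filter]
  exact and_congr_right fun _ => and_comm

lemma pl_add (a₁ b₁ a₂ b₂ : ℤ) (p : ℕ) :
    pl a₁ b₁ a₂ b₂ p True True + pl a₁ b₁ a₂ b₂ p True False
      = (((range p).filter fun n : ℕ => (p : ℤ) ∣ a₁ * n + b₁).card : ℝ) / p := by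
  simp only [pl_eq, ← add_div, ← sum_add_distrib]
  rw [card_filter]
  push_cast
  congr 1
  refine sum_congr rfl fun n _ => ?_
  by_cases h1 : (p : ℤ) ∣ a₁ * n + b₁ <;> by_cases h2 : (p : ℤ) ∣ a₂ * n + b₂ <;> simp [h1, h2]

lemma root_modEq {a b : ℤ} (h : IsCoprime a b) {d m n : ℕ} (hm : (d : ℤ) ∣ a * m + b)
    (hn : (d : ℤ) ∣ a * n + b) : m ≡ n [MOD d] := by
  have h1 : IsCoprime (d : ℤ) a := by
    obtain ⟨c, hc⟩ := hm
    obtain ⟨u, v, huv⟩ := h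
    exact ⟨v * c, u - v * m, by linear_combination huv - v * hc⟩
  have h2 : (d : ℤ) ∣ a * (n - m) := by
    have := dvd_sub hn hm
    rwa [show a * n + b - (a * m + b) = a * (n - m) by ring] at this
  exact Nat.modEq_iff_dvd.2 (h1.dvd_of_dvd_mul_left h2)

lemma card_root_le {a b : ℤ} (h : IsCoprime a b) (d : ℕ) :
    ((range d).filter fun n : ℕ => (d : ℤ) ∣ a * n + b).card ≤ 1 := by
  rw [card_le_one]
  intro m hm n hn
  rw [mem_filter, mem_range] at hm hn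
  exact Nat.ModEq.eq_of_lt_of_lt (root_modEq h hm.2 hn.2) hm.1 hn.1

lemma card_root_eq {a : ℤ} (b : ℤ) {p : ℕ} (hp : p.Prime) (h : ¬ (p : ℤ) ∣ a) :
    ((range p).filter fun n : ℕ => (p : ℤ) ∣ a * n + b).card = 1 := by
  have hc : IsCoprime (p : ℤ) a :=
    (Prime.coprime_iff_not_dvd (Nat.prime_iff_prime_int.1 hp)).2 h
  have hp0 : (0 : ℤ) < p := by exact_mod_cast hp.pos
  rw [card_eq_one]
  obtain ⟨u, v, huv⟩ := hc
  have h0 := Int.emod_nonneg (-(v * b)) hp0.ne'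
  have h1 := Int.emod_lt_of_pos (-(v * b)) hp0
  have h2 : (p : ℤ) ∣ a * (-(v * b) % p) + b := by
    refine ⟨u * b - a * (-(v * b) / p), ?_⟩
    have := Int.emod_add_mul_ediv (-(v * b)) p
    linear_combination a * this - b * huv
  refine ⟨(-(v * b) % p).toNat, ?_⟩
  ext n
  rw [mem_filter, mem_range, mem_singleton]
  constructor
  · rintro ⟨h3, h4⟩
    have h5 : (p : ℤ) ∣ a * (n - (-(v * b) % p)) := by
      have := dvd_sub h4 h2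
      rwa [show a * n + b - (a * (-(v * b) % p) + b) = a * (n - (-(v * b) % p)) by ring] at this
    have h6 := (IsCoprime.dvd_of_dvd_mul_left ⟨u, v, huv⟩ h5)
    have h7 : (n : ℤ) - (-(v * b) % p) = 0 :=
      Int.eq_zero_of_abs_lt_dvd h6 (abs_lt.2 ⟨by omega, by omega⟩)
    omega
  · rintro rfl
    rw [Int.toNat_of_nonneg h0]
    exact ⟨by omega, h2⟩

lemma pl_fst {a₁ b₁ : ℤ} (h : IsCoprime a₁ b₁) (a₂ b₂ : ℤ) {p : ℕ} (hp : p.Prime) :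
    pl a₁ b₁ a₂ b₂ p True True + pl a₁ b₁ a₂ b₂ p True False ≤ (p : ℝ)⁻¹ := by
  rw [pl_add, inv_eq_one_div]
  gcongr
  exact_mod_cast card_root_le h p

lemma pl_snd (a₁ b₁ : ℤ) {a₂ b₂ : ℤ} (h : IsCoprime a₂ b₂) {p : ℕ} (hp : p.Prime) :
    pl a₁ b₁ a₂ b₂ p True True + pl a₁ b₁ a₂ b₂ p False True ≤ (p : ℝ)⁻¹ := by
  rw [pl_symm a₁ b₁ a₂ b₂ p True, pl_symm a₁ b₁ a₂ b₂ p False]
  exact pl_fst h a₁ b₁ hp

lemma pl_fst_eq {a₁ : ℤ} (b₁ a₂ b₂ : ℤ) {p : ℕ} (hp : p.Prime) (h : ¬ (p : ℤ) ∣ a₁) :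
    pl a₁ b₁ a₂ b₂ p True True + pl a₁ b₁ a₂ b₂ p True False = (p : ℝ)⁻¹ := by
  rw [pl_add, card_root_eq b₁ hp h]; simp

lemma pl_good {a₁ b₁ a₂ b₂ : ℤ} {p : ℕ} (hp : p.Prime)
    (h : ¬ (p : ℤ) ∣ a₁ * a₂ * (a₁ * b₂ - a₂ * b₁)) :
    pl a₁ b₁ a₂ b₂ p True True = 0 ∧ pl a₁ b₁ a₂ b₂ p True False = (p : ℝ)⁻¹ ∧
      pl a₁ b₁ a₂ b₂ p False True = (p : ℝ)⁻¹ ∧ pl a₁ b₁ a₂ b₂ p False False = 1 - 2 * (p : ℝ)⁻¹ := by
  have h1 : ¬ (p : ℤ) ∣ a₁ := fun h' => h ((h'.mul_right _).mul_right _)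
  have h2 : ¬ (p : ℤ) ∣ a₂ := fun h' => h ((h'.mul_left _).mul_right _)
  have h3 : pl a₁ b₁ a₂ b₂ p True True = 0 := by
    rw [pl_eq, sum_eq_zero, zero_div]
    intro n _
    rw [if_neg]
    rintro ⟨h4, h5⟩
    refine h (Dvd.dvd.mul_left ?_ _)
    have := dvd_sub ((h5.2 trivial).mul_left a₁) ((h4.2 trivial).mul_left a₂)
    convert this using 1; ring
  have h4 := pl_fst_eq b₁ a₂ b₂ hp h1
  have h5 := pl_fst_eq b₂ a₁ b₁ hp h2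
  rw [← pl_symm a₁ b₁ a₂ b₂, ← pl_symm a₁ b₁ a₂ b₂] at h5
  have h6 := pl_sum a₁ b₁ a₂ b₂ hp.pos
  refine ⟨h3, by linarith, by linarith, by linarith⟩

lemma PZ_nonneg (a₁ b₁ a₂ b₂ : ℤ) (I Z₁ Z₂ : Finset ℕ) : 0 ≤ PZ a₁ b₁ a₂ b₂ I Z₁ Z₂ :=
  prod_nonneg fun _ _ => pl_nonneg _ _ _ _ _ _ _

lemma P1_nonneg (y y' : ℝ) (Z : Finset ℕ) : 0 ≤ P1 (PS y y') Z := by
  refine prod_nonneg fun p hp => ?_
  have : (1 : ℝ) ≤ p := by exact_mod_cast (mem_PS.1 hp).1.one_le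
  split_ifs
  · positivity
  · exact sub_nonneg.2 (inv_le_one_of_one_le₀ this)

lemma PZ_sum (a₁ b₁ a₂ b₂ : ℤ) (y y' : ℝ) :
    ∑ Z₁ ∈ (PS y y').powerset, ∑ Z₂ ∈ (PS y y').powerset, PZ a₁ b₁ a₂ b₂ (PS y y') Z₁ Z₂ = 1 := by
  unfold PZ
  rw [sum_p2 _ (pl a₁ b₁ a₂ b₂)]
  exact prod_eq_one fun p hp => pl_sum _ _ _ _ (mem_PS.1 hp).1.pos

lemma PZ_marg (y y' : ℝ) (Z₁ : Finset ℕ) :
    ∑ Z₂ ∈ (PS y y').powerset, PZ 1 0 1 0 (PS y y') Z₁ Z₂ = P1 (PS y y') Z₁ := by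
  unfold PZ P1
  rw [sum_p1 _ (fun p s => pl 1 0 1 0 p (p ∈ Z₁) s)]
  refine prod_congr rfl fun p hp => ?_
  have hp' := (mem_PS.1 hp).1
  have h1 := pl_fst_eq (a₁ := 1) 0 1 0 hp' (fun h => hp'.one_lt.ne' (by exact_mod_cast Int.eq_one_of_dvd_one (by positivity) h))
  have h2 := pl_sum 1 0 1 0 hp'.pos
  split_ifs with h
  · rw [eq_true h]; exact h1
  · rw [eq_false h]; linarith

open Classical in
lemma pow_card_eq {I Z : Finset ℕ} (h : Z ⊆ I) (x : ℝ) :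
    x ^ Z.card = ∏ p ∈ I, if p ∈ Z then x else 1 := by
  rw [prod_ite_mem, inter_eq_right.2 h, prod_const]

lemma G2_eq (a₁ b₁ a₂ b₂ : ℤ) (P₀ : ℕ) (x₁ x₂ : ℝ) : G2 a₁ b₁ a₂ b₂ P₀ x₁ x₂ =
    ∑ Z₁ ∈ (PS 0 P₀).powerset, ∑ Z₂ ∈ (PS 0 P₀).powerset,
      PZ a₁ b₁ a₂ b₂ (PS 0 P₀) Z₁ Z₂ * (x₁ ^ Z₁.card * x₂ ^ Z₂.card) := by
  classical
  have h := sum_p2 (PS 0 P₀) (fun p s t => pl a₁ b₁ a₂ b₂ p s t *
    ((if s then x₁ else 1) * (if t then x₂ else 1)))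
  unfold G2
  rw [prod_congr rfl fun p _ => loc_eq a₁ b₁ a₂ b₂ p x₁ x₂]
  simp only [if_true, if_false, mul_one, one_mul] at h
  rw [← h]
  refine sum_congr rfl fun Z₁ h₁ => sum_congr rfl fun Z₂ h₂ => ?_
  rw [pow_card_eq (mem_powerset.1 h₁), pow_card_eq (mem_powerset.1 h₂), PZ, ← prod_mul_distrib,
    ← prod_mul_distrib]
  refine prod_congr rfl fun p _ => ?_
  congr

lemma G1_eq (P₀ : ℕ) (x : ℝ) :
    G1 P₀ x = ∑ Z ∈ (PS 0 P₀).powerset, P1 (PS 0 P₀) Z * x ^ Z.card := by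
  classical
  have h := sum_p1 (PS 0 P₀) (fun p s => if s then (p : ℝ)⁻¹ * x else 1 - (p : ℝ)⁻¹)
  simp only [if_true, if_false] at h
  have h2 : G1 P₀ x = ∏ p ∈ PS 0 P₀, ((p : ℝ)⁻¹ * x + (1 - (p : ℝ)⁻¹)) :=
    prod_congr rfl fun p _ => by ring
  rw [h2, ← h]
  refine sum_congr rfl fun Z h₁ => ?_
  rw [pow_card_eq (mem_powerset.1 h₁), P1, ← prod_mul_distrib]
  refine prod_congr rfl fun p _ => ?_
  by_cases hp : p ∈ Z <;> simp [hp]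

lemma card_PS_le (P₀ : ℕ) : (PS 0 P₀).card ≤ P₀ := by
  unfold PS
  refine (card_filter_le _ _).trans ?_
  simp

lemma card_class {a b : ℤ} (h : IsCoprime a b) {d : ℕ} (hd : 0 < d) (N : ℕ) :
    (((Icc 1 N).filter fun n => d ∣ val a b n).card : ℝ) ≤ N / d + 1 := by
  rcases ((Icc 1 N).filter fun n => d ∣ val a b n).eq_empty_or_nonempty with h0 | ⟨m, hm⟩
  · rw [h0]; simp; positivity
  have h1 := (abs_le.1 (Lib.ANT.abs_card_modEq_sub_le 0 N d m hd)).2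
  have h2 : ((Icc 1 N).filter fun n => d ∣ val a b n) ⊆
      (Ioc 0 (0 + N)).filter (fun n => n ≡ m [MOD d]) := by
    intro n hn
    rw [mem_filter, mem_Icc] at hn hm
    rw [mem_filter, mem_Ioc]
    exact ⟨⟨hn.1.1, by omega⟩, root_modEq h (dvd_val.1 hn.2) (dvd_val.1 hm.2)⟩
  have h3 : (((Icc 1 N).filter fun n => d ∣ val a b n).card : ℝ) ≤
      ((Ioc 0 (0 + N)).filter (fun n => n ≡ m [MOD d])).card := by exact_mod_cast card_le_card h2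
  linarith

end Pool.Agent.Work.MP_51e72e_nt.TE
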