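import Pool.Agent.Work.MP_51e72e_nt.TENum
import Pool.Agent.Work.MP_51e72e_nt.TEPl

/-! Almost all values are typical. -/

set_option autoImplicit false
open Finset Filter Topology
open Pool.Agent.Work.MP_678620_nt

namespace Pool.Agent.Work.MP_51e72e_nt.TE

open Real in
lemma TEExc_rankin {z Y : ℝ} (hz : 1 ≤ log z) (z2 : 2 ≤ z) (hY : 0 < Y) (T : Finset ℕ)
    (hT : ∀ s ∈ T, Smo z s ∧ Y < s) : ∑ s ∈ T, (s : ℝ)⁻¹ ≤
      exp (4 * (log (log z) + 73) - log Y / (4 * log z)) := by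
  have z0 : 0 < z := by linarith
  set δ := 1 / (4 * log z) with hδ
  have δ0 : 0 < δ := by positivity
  have δ1 : δ ≤ 1 / 4 := by rw [hδ]; gcongr; linarith
  let f : ℕ →* ℝ :=
    { toFun := fun n => (n : ℝ) ^ (δ - 1), map_one' := by simp
      map_mul' := fun a b => by push_cast; exact mul_rpow a.cast_nonneg b.cast_nonneg }
  have hs := (EulerProduct.summable_and_hasSum_factoredNumbers_prod_filter_prime_geometric (f := f)
    (fun {p} hp => by
      change ‖(p : ℝ) ^ (δ - 1)‖ < 1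
      rw [norm_of_nonneg (by positivity)]
      exact rpow_lt_one_of_one_lt_of_neg (by exact_mod_cast hp.one_lt) (by linarith only [δ0, δ1]))
    (Icc 1 ⌊z⌋₊)).2
  have h1 := sum_le_hasSum (T.subtype _) (fun m _ => show 0 ≤ ((m : ℕ) : ℝ) ^ (δ - 1) by
    positivity) hs
  rw [sum_subtype_of_mem (p := fun m => m ∈ Nat.factoredNumbers (Icc 1 ⌊z⌋₊)) (fun m => f m)
    fun s hs => Nat.mem_factoredNumbers'.2 fun p hp d =>
      mem_Icc.2 ⟨hp.pos, Nat.le_floor ((hT s hs).1 p hp d)⟩, ← PS_zero] at h1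
  have h2 : ∏ p ∈ PS 0 z, (1 - f p)⁻¹ ≤ exp (4 * ∑ p ∈ PS 0 z, (p : ℝ)⁻¹) := by
    have key : ∀ p ∈ PS 0 z, 0 ≤ f p ∧ f p ≤ 4 / 3 * (p : ℝ)⁻¹ ∧ f p ≤ 2 / 3 := by
      intro p hp
      obtain ⟨b, -, pz⟩ := mem_PS.1 hp
      have p2 : (2 : ℝ) ≤ p := by exact_mod_cast b.two_le
      have e : f p = (p : ℝ) ^ δ * (p : ℝ)⁻¹ := by
        change (p : ℝ) ^ (δ - 1) = _
        rw [rpow_sub_one (by positivity), div_eq_mul_inv]
      have : (p : ℝ) ^ δ ≤ 4 / 3 := by
        refine (rpow_le_rpow (by positivity) pz δ0.le).trans ?_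
        rw [rpow_def_of_pos z0, show log z * δ = 1 / 4 by rw [hδ]; field_simp]
        have := one_sub_le_exp_neg (1 / 4 : ℝ)
        rw [exp_neg, le_inv_comm₀ (by norm_num) (exp_pos _)] at this
        linarith only [this]
      have i2 : (p : ℝ)⁻¹ ≤ 1 / 2 := by rw [← one_div]; gcongr
      have : f p ≤ 4 / 3 * (p : ℝ)⁻¹ := by rw [e]; gcongr
      exact ⟨by rw [e]; positivity, this, by linarith only [i2, this]⟩
    rw [mul_sum, exp_sum]
    refine prod_le_prod (fun p hp => inv_nonneg.2 (by linarith only [δ0, δ1, (key p hp).2.2])) fun p hp => ?_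
    obtain ⟨a, b, c⟩ := key p hp
    refine le_trans ?_ (add_one_le_exp _)
    rw [inv_le_iff_one_le_mul₀ (by linarith only [δ0, δ1, c])]
    nlinarith only [b, δ0, δ1, a, c]
  have h3 := (abs_le.1 (sum_PS0 z2)).2
  rw [exp_sub, le_div_iff₀ (exp_pos _), sum_mul]
  refine le_trans (sum_le_sum fun s hs => ?_) (h1.trans (h2.trans (exp_le_exp.2 (by linarith only [h3]))))
  have s0 : (0 : ℝ) < s := hY.trans (hT s hs).2
  change _ ≤ (s : ℝ) ^ (δ - 1)
  rw [rpow_sub_one s0.ne', div_eq_mul_inv _ (s : ℝ), mul_comm, div_eq_mul_one_div, ← hδ,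
    ← rpow_def_of_pos hY]
  gcongr
  exact (hT s hs).2.le

lemma TEExc_cover {a b : ℤ} (hab : IsCoprime a b) (N : ℕ) (s : Finset ℕ) (g : ℕ → ℕ)
    (hg : ∀ i ∈ s, 0 < g i) :
    ((s.biUnion fun i => (Icc 1 N).filter fun n => g i ∣ val a b n).card : ℝ) ≤
      ∑ i ∈ s, ((N : ℝ) / g i + 1) := by
  refine (Nat.cast_le.2 card_biUnion_le).trans ?_
  rw [Nat.cast_sum]
  exact sum_le_sum fun i hi => card_class hab (hg i hi) N

lemma TEExc_val {a : ℤ} (ha : 0 < a) (b : ℤ) (n : ℕ) :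
    (n : ℝ) ≤ val a b n + |(b : ℝ)| ∧ (val a b n : ℝ) ≤ a * n + |(b : ℝ)| := by
  have e : (val a b n : ℝ) = |(a : ℝ) * n + b| := by
    rw [val, Nat.cast_natAbs]
    push_cast
    rfl
  have a1 : (1 : ℝ) ≤ a := by exact_mod_cast ha
  have n0 : (0 : ℝ) ≤ n := n.cast_nonneg
  have h1 : (n : ℝ) ≤ a * n := le_mul_of_one_le_left n0 a1
  rw [e]
  refine ⟨?_, ?_⟩
  · linarith [le_abs_self ((a : ℝ) * n + b), neg_le_abs (b : ℝ)]
  · refine (abs_add_le _ _).trans ?_
    rw [abs_of_nonneg (n0.trans h1)]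

lemma TEExc_split {a b : ℤ} (ha : 0 < a) (hab : IsCoprime a b) {X : ℕ} (hX : 0 < X)
    (hl : (a : ℝ) + |(b : ℝ)| ≤ Real.log X) (z0 : 0 < zz X) :
    (((Icc 1 X).filter fun n => ¬ Typ X (val a b n)).card : ℝ) ≤
      (X / YY X + |(b : ℝ)|) + (X * (2 / zz X) + √(X * Real.log X)) +
        2 * X * Real.log X * ∑ d ∈ (Icc 1 ⌊X * Real.log X⌋₊).filter
          (fun d : ℕ => Smo (zz X) d ∧ YY X < d), (d : ℝ)⁻¹ := by
  have X1 : (1 : ℝ) ≤ X := by exact_mod_cast hX
  have a1 : (1 : ℝ) ≤ a := by exact_mod_cast ha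
  have b0 := abs_nonneg (b : ℝ)
  have Y0 : 0 < YY X := Real.exp_pos _
  have l1 : 1 ≤ Real.log X := by linarith
  set T := (Icc 1 ⌊X * Real.log X⌋₊).filter (fun d : ℕ => Smo (zz X) d ∧ YY X < d) with hT
  set M := ⌊√(X * Real.log X)⌋₊ with hM
  have sub : ((Icc 1 X).filter fun n => ¬ Typ X (val a b n)) ⊆
      (Icc 1 ⌊X / YY X + |(b : ℝ)|⌋₊ ∪
        (Ioo ⌊zz X⌋₊ (M + 1)).biUnion fun i => (Icc 1 X).filter fun n => i ^ 2 ∣ val a b n) ∪
          T.biUnion fun i => (Icc 1 X).filter fun n => i ∣ val a b n := by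
    intro n hn
    obtain ⟨hn, nt⟩ := mem_filter.1 hn
    obtain ⟨v1, v2⟩ := TEExc_val ha b n
    have nX : (n : ℝ) ≤ X := by exact_mod_cast (mem_Icc.1 hn).2
    have v3 : (val a b n : ℝ) ≤ X * Real.log X := by nlinarith only [v2, nX, hl, X1, b0, a1]
    by_cases c1 : (X : ℝ) / YY X ≤ val a b n
    swap
    · exact mem_union_left _ (mem_union_left _
        (mem_Icc.2 ⟨(mem_Icc.1 hn).1, Nat.le_floor (by linarith only [v1, c1])⟩))
    have v0 : val a b n ≠ 0 := by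
      intro e
      rw [e, Nat.cast_zero] at c1
      exact c1.not_gt (by positivity)
    have dv := sp_mul_rp (zz X) (val a b n)
    by_cases c2 : Squarefree (rp (zz X) (val a b n))
    · have c3 : YY X < sp (zz X) (val a b n) := not_le.1 fun c => nt ⟨c2, c, c1, v3⟩
      refine mem_union_right _ (mem_biUnion.2 ⟨sp (zz X) (val a b n), mem_filter.2
        ⟨mem_Icc.2 ⟨?_, Nat.le_floor (le_trans ?_ v3)⟩, smo_sp _ _, c3⟩,
        mem_filter.2 ⟨hn, _, dv.symm⟩⟩)
      · exact_mod_cast Y0.trans c3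
      · exact_mod_cast Nat.le_of_dvd (Nat.pos_of_ne_zero v0) ⟨_, dv.symm⟩
    · rw [Nat.squarefree_iff_prime_squarefree] at c2
      push Not at c2
      obtain ⟨p, hp, d⟩ := c2
      have d2 : p ^ 2 ∣ val a b n := by
        rw [sq]
        exact d.trans (Dvd.intro_left _ dv)
      refine mem_union_left _ (mem_union_right _ (mem_biUnion.2 ⟨p, mem_Ioo.2
        ⟨(Nat.floor_lt z0.le).2 (rou_rp _ v0 p hp ((dvd_mul_right p p).trans d)),
          Nat.lt_succ_of_le (Nat.le_floor (Real.le_sqrt_of_sq_le (le_trans ?_ v3)))⟩,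
        mem_filter.2 ⟨hn, d2⟩⟩))
      exact_mod_cast Nat.le_of_dvd (Nat.pos_of_ne_zero v0) d2
  refine (Nat.cast_le.2 ((card_le_card sub).trans ((card_union_le _ _).trans
    (Nat.add_le_add_right (card_union_le _ _) _)))).trans ?_
  rw [Nat.cast_add, Nat.cast_add]
  refine add_le_add (add_le_add ?_ ?_) ?_
  · rw [Nat.card_Icc, Nat.add_sub_cancel]
    exact Nat.floor_le (by positivity)
  · refine (TEExc_cover hab X _ (fun i => i ^ 2) fun i hi =>
      pow_pos ((Nat.zero_le _).trans_lt (mem_Ioo.1 hi).1) 2).trans ?_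
    rw [sum_add_distrib, sum_const, nsmul_eq_mul, mul_one]
    refine add_le_add ?_ ?_
    · simp only [div_eq_mul_inv (X : ℝ), Nat.cast_pow]
      rw [← mul_sum]
      refine mul_le_mul_of_nonneg_left ((sum_Ioo_inv_sq_le _ _).trans ?_) (by positivity)
      gcongr
      exact (Nat.lt_floor_add_one _).le
    · refine le_trans ?_ (Nat.floor_le (Real.sqrt_nonneg _))
      rw [Nat.card_Ioo, ← hM]
      exact_mod_cast (by omega : M + 1 - ⌊zz X⌋₊ - 1 ≤ M)
  · refine (TEExc_cover hab X T (fun i => i) fun i hi =>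
      (mem_Icc.1 (mem_filter.1 hi).1).1).trans ?_
    rw [mul_sum]
    refine sum_le_sum fun d hd => ?_
    obtain ⟨d1, d2⟩ := mem_Icc.1 (mem_filter.1 hd).1
    have d0 : (0 : ℝ) < d := by exact_mod_cast d1
    have d3 : (d : ℝ) ≤ X * Real.log X := (Nat.le_floor_iff (by positivity)).1 d2
    rw [← div_eq_mul_inv, div_add_one d0.ne']
    gcongr
    nlinarith only [d3, hl, a1, b0]

theorem exc_card {a b : ℤ} (ha : 0 < a) (hab : IsCoprime a b) (B : ℕ) : ∀ᶠ X : ℕ in atTop,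
    (((Icc 1 X).filter fun n => ¬ Typ X (val a b n)).card : ℝ) ≤ X / Real.log X ^ B := by
  filter_upwards [scales, eventually_gt_atTop 0,
    (Real.tendsto_log_atTop.comp tendsto_natCast_atTop_atTop).eventually_ge_atTop
      ((a : ℝ) + |(b : ℝ)|),
    log_pow_le 5 B (show (0 : ℝ) < 99 / 100 by norm_num),
    log_pow_le (5 * |(b : ℝ)|) B one_pos,
    log_pow_le 10 B (show (0 : ℝ) < 24 / 25 by norm_num),
    log_pow_le 25 (2 * B + 1) one_pos,
    log_pow_le (10 * Real.exp 292) (B + 5) (show (0 : ℝ) < 2 / 100 by norm_num),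
    rpow_le_rpow_log 4 (show (2 / 100 : ℝ) < 3 / 100 by norm_num)]
    with X hs hX hl h1 h2 h3 h4 h5 h6
  obtain ⟨-, l2, z2, -⟩ := hs
  have X0 : (0 : ℝ) < X := by exact_mod_cast hX
  have z0 : 0 < zz X := by linarith only [z2]
  have Y0 : 0 < YY X := Real.exp_pos _
  refine (TEExc_split ha hab hX hl z0).trans ?_
  rw [Real.rpow_one, Real.exp_log X0] at h2 h4
  change _ ≤ YY X at h1
  change _ ≤ zz X at h3
  have lz : Real.log (zz X) = Real.log X ^ (24 / 25 : ℝ) := Real.log_exp _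
  have lY : Real.log (YY X) = Real.log X ^ (99 / 100 : ℝ) := Real.log_exp _
  generalize Real.log X = l at *
  have l0 : 0 < l := by linarith only [l2]
  have P0 : 0 < l ^ B := pow_pos l0 B
  have L1 : 1 ≤ l ^ (24 / 25 : ℝ) := Real.one_le_rpow (by linarith only [l2]) (by norm_num)
  have Ll : l ^ (24 / 25 : ℝ) ≤ l := by
    simpa using Real.rpow_le_rpow_of_exponent_le (show 1 ≤ l by linarith only [l2])
      (show (24 / 25 : ℝ) ≤ 1 by norm_num)
  have e1 : X / YY X ≤ X / (5 * l ^ B) := by gcongr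
  have e2 : |(b : ℝ)| ≤ X / (5 * l ^ B) := by
    rw [le_div_iff₀ (by positivity)]
    linarith only [h2]
  have e3 : X * (2 / zz X) ≤ X / (5 * l ^ B) := by
    rw [show (X : ℝ) / (5 * l ^ B) = X * (2 / (10 * l ^ B)) by field_simp; norm_num]
    gcongr
  have e4 : √(X * l) ≤ X / (5 * l ^ B) := by
    refine Real.sqrt_le_iff.2 ⟨by positivity, ?_⟩
    rw [div_pow, le_div_iff₀ (by positivity)]
    calc X * l * (5 * l ^ B) ^ 2 = X * (25 * l ^ (2 * B + 1)) := by ring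
      _ ≤ X * X := by gcongr
      _ = X ^ 2 := (sq _).symm
  have e5 := TEExc_rankin (lz ▸ L1) z2 Y0 ((Icc 1 ⌊X * l⌋₊).filter
    (fun d : ℕ => Smo (zz X) d ∧ YY X < d)) fun s hs => (mem_filter.1 hs).2
  have e6 : l ^ (99 / 100 : ℝ) / (4 * l ^ (24 / 25 : ℝ)) = l ^ (3 / 100 : ℝ) / 4 := by
    rw [show (99 / 100 : ℝ) = 3 / 100 + 24 / 25 by norm_num, Real.rpow_add l0]
    field_simp
  have e7 : Real.exp (4 * (Real.log (l ^ (24 / 25 : ℝ)) + 73) - l ^ (3 / 100 : ℝ) / 4) ≤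
      1 / (10 * l ^ (B + 1)) := by
    have := Real.log_le_log (by linarith only [L1]) Ll
    refine (Real.exp_le_exp.2 (show _ ≤ (4 : ℕ) * Real.log l + 292 - l ^ (2 / 100 : ℝ) by
      push_cast; linarith only [h6, this])).trans ?_
    rw [Real.exp_sub, Real.exp_add, ← Real.log_pow, Real.exp_log (pow_pos l0 4),
      div_le_div_iff₀ (Real.exp_pos _) (by positivity), one_mul]
    refine le_trans (le_of_eq ?_) h5
    ring
  rw [lz, lY, e6] at e5
  have e8 := mul_le_mul_of_nonneg_left (e5.trans e7) (show 0 ≤ 2 * X * l by positivity)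
  have e9 : 2 * X * l * (1 / (10 * l ^ (B + 1))) = X / (5 * l ^ B) := by
    field_simp
    ring
  have e10 : (X : ℝ) / l ^ B = 5 * (X / (5 * l ^ B)) := by field_simp
  linarith only [e1, e2, e3, e4, e8, e9, e10]


end Pool.Agent.Work.MP_51e72e_nt.TE
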