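import Pool.Agent.Work.MP_51e72e_nt.TENum
import Pool.Agent.Work.MP_51e72e_nt.TEPl
import Pool.Agent.Work.MP_678620_nt.SPTrans
import Pool.Agent.Work.MP_51e72e_nt.TEBasic
import Pool.Agent.Work.MP_51e72e_nt.TEExc

-- merged part: Pool.Agent.Work.MP_51e72e_nt.TEKub
section
/-! The Kubilius model in total variation. -/

set_option autoImplicit false
open Finset Filter Topology
open Pool.Agent.Work.MP_678620_nt

namespace Pool.Agent.Work.MP_51e72e_nt.TE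

/-- The number of `n ≤ X` with a given pair of sets of small prime divisors. -/
noncomputable def kubD (a₁ b₁ a₂ b₂ : ℤ) (z : ℝ) (X : ℕ) (Z : Finset ℕ × Finset ℕ) : ℝ :=
  (((Icc 1 X).filter fun n => (ZZ z (val a₁ b₁ n), ZZ z (val a₂ b₂ n)) = Z).card : ℝ)

lemma kub_ZZ_sub (z : ℝ) (r : ℕ) : ZZ z r ⊆ PS 0 z := filter_subset _ _

lemma kub_fiber (a₁ b₁ a₂ b₂ : ℤ) (z : ℝ) (X : ℕ) (G : Finset ℕ → Finset ℕ → ℝ) :
    ∑ n ∈ Icc 1 X, G (ZZ z (val a₁ b₁ n)) (ZZ z (val a₂ b₂ n))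
      = ∑ Z ∈ (PS 0 z).powerset ×ˢ (PS 0 z).powerset, kubD a₁ b₁ a₂ b₂ z X Z * G Z.1 Z.2 := by
  have hm : ∀ n ∈ Icc 1 X, (ZZ z (val a₁ b₁ n), ZZ z (val a₂ b₂ n))
      ∈ (PS 0 z).powerset ×ˢ (PS 0 z).powerset := by
    intro n _
    rw [mem_product, mem_powerset, mem_powerset]
    exact ⟨kub_ZZ_sub _ _, kub_ZZ_sub _ _⟩
  rw [← sum_fiberwise_of_maps_to hm]
  refine sum_congr rfl fun Z _ => ?_
  rw [sum_congr rfl (g := fun _ => G Z.1 Z.2)]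
  · rw [sum_const, nsmul_eq_mul, kubD]
  · intro n hn
    rw [mem_filter] at hn
    rw [← hn.2]

lemma kub_tv {ι : Type*} (P : Finset ι) (M : ι → Prop) [DecidablePred M] (D q : ι → ℝ) (X e₁ e₂ : ℝ)
    (hX : 0 ≤ X) (hD : ∀ i, 0 ≤ D i) (hq : ∀ i, 0 ≤ q i) (sD : ∑ i ∈ P, D i = X)
    (sq : ∑ i ∈ P, q i = 1) (h₁ : ∑ i ∈ P.filter M, |D i - X * q i| ≤ e₁)
    (h₂ : ∑ i ∈ P.filter (fun i => ¬ M i), q i ≤ e₂) :
    ∑ i ∈ P, |D i - X * q i| ≤ 2 * e₁ + 2 * X * e₂ := by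
  rw [← sum_filter_add_sum_filter_not P M] at sD sq ⊢
  have h3 : ∑ i ∈ P.filter (fun i => ¬ M i), |D i - X * q i|
      ≤ ∑ i ∈ P.filter (fun i => ¬ M i), D i + X * ∑ i ∈ P.filter (fun i => ¬ M i), q i := by
    rw [mul_sum, ← sum_add_distrib]
    refine sum_le_sum fun i _ => ?_
    have := mul_nonneg hX (hq i)
    have := hD i
    rw [abs_le]; constructor <;> linarith
  have h4 : X * ∑ i ∈ P.filter M, q i - ∑ i ∈ P.filter M, D i ≤ e₁ := by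
    refine le_trans ?_ h₁
    rw [mul_sum, ← sum_sub_distrib]
    refine sum_le_sum fun i _ => ?_
    rw [abs_sub_comm]; exact le_abs_self _
  have h5 : X * ∑ i ∈ P.filter M, q i + X * ∑ i ∈ P.filter (fun i => ¬ M i), q i = X := by
    rw [← mul_add, sq, mul_one]
  have h6 := mul_le_mul_of_nonneg_left h₂ hX
  linarith only [sD, h₁, h3, h4, h5, h6]

open Classical in
/-- The residues with a given divisibility pattern. -/
noncomputable def kubA (a₁ b₁ a₂ b₂ : ℤ) (m : ℕ) [NeZero m] (s₁ s₂ : Prop) : Finset (ZMod m) :=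
  univ.filter fun r : ZMod m =>
    ((m : ℤ) ∣ a₁ * (r.val : ℕ) + b₁ ↔ s₁) ∧ ((m : ℤ) ∣ a₂ * (r.val : ℕ) + b₂ ↔ s₂)

lemma kubA_card (a₁ b₁ a₂ b₂ : ℤ) (m : ℕ) [NeZero m] (s₁ s₂ : Prop) :
    ((kubA a₁ b₁ a₂ b₂ m s₁ s₂).card : ℝ) / m = pl a₁ b₁ a₂ b₂ m s₁ s₂ := by
  classical
  unfold pl kubA
  congr 2
  refine card_bij (fun r _ => r.val) ?_ ?_ ?_
  · intro r hr
    rw [mem_filter] at hr ⊢
    exact ⟨mem_range.2 (ZMod.val_lt r), hr.2⟩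
  · intro r _ r' _ h
    exact ZMod.val_injective m h
  · intro n hn
    rw [mem_filter, mem_range] at hn
    refine ⟨(n : ZMod m), ?_, ZMod.val_cast_of_lt hn.1⟩
    rw [mem_filter, ZMod.val_cast_of_lt hn.1]
    exact ⟨mem_univ _, hn.2⟩

lemma kub_dvd (a b : ℤ) (m : ℕ) [NeZero m] (y : ℤ) :
    (m : ℤ) ∣ a * (((y : ZMod m).val : ℕ) : ℤ) + b ↔ (m : ℤ) ∣ a * y + b := by
  rw [← ZMod.intCast_zmod_eq_zero_iff_dvd, ← ZMod.intCast_zmod_eq_zero_iff_dvd]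
  push_cast
  rw [ZMod.natCast_zmod_val]

lemma mem_kubA (a₁ b₁ a₂ b₂ : ℤ) (m : ℕ) [NeZero m] (s₁ s₂ : Prop) (y : ℤ) :
    (y : ZMod m) ∈ kubA a₁ b₁ a₂ b₂ m s₁ s₂ ↔
      ((m : ℤ) ∣ a₁ * y + b₁ ↔ s₁) ∧ ((m : ℤ) ∣ a₂ * y + b₂ ↔ s₂) := by
  classical
  unfold kubA
  rw [mem_filter, kub_dvd, kub_dvd]
  simp

lemma kubA_compl (a₁ b₁ a₂ b₂ : ℤ) (m : ℕ) [NeZero m] (s₁ s₂ : Prop) :
    ((kubA a₁ b₁ a₂ b₂ m s₁ s₂)ᶜ.card : ℝ) / m = 1 - pl a₁ b₁ a₂ b₂ m s₁ s₂ := by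
  have hm : (m : ℝ) ≠ 0 := by exact_mod_cast NeZero.ne m
  rw [← kubA_card, card_compl, ZMod.card, Nat.cast_sub (by
    simpa [ZMod.card] using card_le_univ (kubA a₁ b₁ a₂ b₂ m s₁ s₂))]
  field_simp

lemma kub_ff {a₁ b₁ a₂ b₂ : ℤ} (h₁ : IsCoprime a₁ b₁) (h₂ : IsCoprime a₂ b₂) {p : ℕ}
    (hp : p.Prime) : 1 - pl a₁ b₁ a₂ b₂ p False False ≤ 2 * (p : ℝ)⁻¹ := by
  have e1 := pl_sum a₁ b₁ a₂ b₂ hp.pos
  have e2 := pl_fst h₁ a₂ b₂ hp
  have e3 := pl_snd a₁ b₁ h₂ hp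
  have e4 := pl_nonneg a₁ b₁ a₂ b₂ p True True
  linarith only [e1, e2, e3, e4]

lemma kub_ZZ_eq {z : ℝ} {Z : Finset ℕ} (hZ : Z ⊆ PS 0 z) (r : ℕ) :
    ZZ z r = Z ↔ ∀ p ∈ PS 0 z, (p ∣ r ↔ p ∈ Z) := by
  unfold ZZ
  constructor
  · intro h p hp
    rw [← h, mem_filter]
    exact ⟨fun h' => ⟨hp, h'⟩, fun h' => h'.2⟩
  · intro h
    ext p
    rw [mem_filter]
    exact ⟨fun h' => (h p h'.1).1 h'.2, fun h' => ⟨hZ h', (h p (hZ h')).2 h'⟩⟩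

lemma kub_card_PS {z : ℝ} (hz : 0 ≤ z) : ((PS 0 z).card : ℝ) ≤ z := by
  have : (PS 0 z).card ≤ ⌊z⌋₊ := by
    refine (card_le_card (filter_subset _ _)).trans ?_
    simp
  exact le_trans (by exact_mod_cast this) (Nat.floor_le hz)

lemma kub_local {a₁ b₁ a₂ b₂ : ℤ} (h₁ : IsCoprime a₁ b₁) (h₂ : IsCoprime a₂ b₂) {z : ℝ}
    (hz : 0 ≤ z) (X J : ℕ) {Z₁ Z₂ : Finset ℕ} (hZ₁ : Z₁ ⊆ PS 0 z) (hZ₂ : Z₂ ⊆ PS 0 z) :
    |kubD a₁ b₁ a₂ b₂ z X (Z₁, Z₂) - X * PZ a₁ b₁ a₂ b₂ (PS 0 z) Z₁ Z₂|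
      ≤ 2 * X * PZ a₁ b₁ a₂ b₂ (Z₁ ∪ Z₂) Z₁ Z₂ *
          ((2 * ∑ p ∈ PS 0 z, (p : ℝ)⁻¹) ^ (J + 1) / (J + 1).factorial)
        + (∏ p ∈ Z₁ ∪ Z₂, (p : ℝ)) * (1 + 2 * z) ^ (J + 1) := by
  classical
  let m : ℕ → ℕ := fun i => max i 1
  have : ∀ i, NeZero (m i) := fun i => ⟨by simp [m]⟩
  have hpr : ∀ p ∈ PS 0 z, p.Prime := fun p hp => (mem_PS.1 hp).1
  have hm : ∀ p ∈ PS 0 z, m p = p := fun p hp => max_eq_left (hpr p hp).one_le
  have hU : Z₁ ∪ Z₂ ⊆ PS 0 z := union_subset hZ₁ hZ₂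
  have cop : ∀ i ∈ PS 0 z, ∀ j ∈ PS 0 z, i ≠ j → Nat.Coprime (m i) (m j) := by
    intro i hi j hj hij
    rw [hm i hi, hm j hj]
    exact (Nat.coprime_primes (hpr i hi) (hpr j hj)).2 hij
  have key := box_count (PS 0 z) m cop
    (fun i => kubA a₁ b₁ a₂ b₂ (m i) (i ∈ Z₁) (i ∈ Z₂)) hU J 0 X
  have e1 : (((Ioc (0 : ℤ) (0 + X)).filter fun y : ℤ => ∀ i ∈ PS 0 z,
      (y : ZMod (m i)) ∈ kubA a₁ b₁ a₂ b₂ (m i) (i ∈ Z₁) (i ∈ Z₂)).card : ℝ)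
      = kubD a₁ b₁ a₂ b₂ z X (Z₁, Z₂) := by
    unfold kubD
    congr 1
    symm
    have hiff : ∀ n : ℕ, ((ZZ z (val a₁ b₁ n), ZZ z (val a₂ b₂ n)) = (Z₁, Z₂)) ↔
        ∀ i ∈ PS 0 z, (((n : ℤ) : ZMod (m i)) ∈ kubA a₁ b₁ a₂ b₂ (m i) (i ∈ Z₁) (i ∈ Z₂)) := by
      intro n
      rw [Prod.mk.injEq, kub_ZZ_eq hZ₁, kub_ZZ_eq hZ₂]
      constructor
      · intro h i hi
        rw [mem_kubA, hm i hi, ← dvd_val, ← dvd_val]
        exact ⟨h.1 i hi, h.2 i hi⟩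
      · intro h
        constructor
        · intro i hi
          have := h i hi
          rw [mem_kubA, hm i hi, ← dvd_val, ← dvd_val] at this
          exact this.1
        · intro i hi
          have := h i hi
          rw [mem_kubA, hm i hi, ← dvd_val, ← dvd_val] at this
          exact this.2
    refine card_bij (fun n _ => (n : ℤ)) ?_ ?_ ?_
    · intro n hn
      rw [mem_filter, mem_Icc] at hn
      rw [mem_filter, mem_Ioc]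
      exact ⟨⟨by omega, by omega⟩, (hiff n).1 hn.2⟩
    · intro n _ n' _ h
      exact_mod_cast h
    · intro y hy
      rw [mem_filter, mem_Ioc] at hy
      obtain ⟨n, rfl⟩ := Int.eq_ofNat_of_zero_le hy.1.1.le
      refine ⟨n, ?_, rfl⟩
      rw [mem_filter, mem_Icc]
      exact ⟨⟨by omega, by omega⟩, (hiff n).2 hy.2⟩
  have e2 : ∀ U ⊆ PS 0 z, ∏ i ∈ U, ((kubA a₁ b₁ a₂ b₂ (m i) (i ∈ Z₁) (i ∈ Z₂)).card : ℝ) / m i
      = PZ a₁ b₁ a₂ b₂ U Z₁ Z₂ := by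
    intro U hU'
    unfold PZ
    refine prod_congr rfl fun i hi => ?_
    rw [kubA_card, hm i (hU' hi)]
  have e3 : ∀ i ∈ PS 0 z \ (Z₁ ∪ Z₂),
      ((kubA a₁ b₁ a₂ b₂ (m i) (i ∈ Z₁) (i ∈ Z₂))ᶜ.card : ℝ) / m i ≤ 2 * (i : ℝ)⁻¹ := by
    intro i hi
    rw [Finset.mem_sdiff, Finset.mem_union, not_or] at hi
    rw [kubA_compl, hm i hi.1, eq_false hi.2.1, eq_false hi.2.2]
    exact kub_ff h₁ h₂ (hpr i hi.1)
  have e4 : ∑ i ∈ PS 0 z \ (Z₁ ∪ Z₂),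
      ((kubA a₁ b₁ a₂ b₂ (m i) (i ∈ Z₁) (i ∈ Z₂))ᶜ.card : ℝ) / m i
      ≤ 2 * ∑ p ∈ PS 0 z, (p : ℝ)⁻¹ := by
    refine (sum_le_sum e3).trans ?_
    rw [mul_sum]
    exact sum_le_sum_of_subset_of_nonneg sdiff_subset fun i _ _ => by positivity
  have e5 : ∑ i ∈ PS 0 z \ (Z₁ ∪ Z₂),
      ((kubA a₁ b₁ a₂ b₂ (m i) (i ∈ Z₁) (i ∈ Z₂))ᶜ.card : ℝ) ≤ 2 * z := by
    have : ∀ i ∈ PS 0 z \ (Z₁ ∪ Z₂),
        ((kubA a₁ b₁ a₂ b₂ (m i) (i ∈ Z₁) (i ∈ Z₂))ᶜ.card : ℝ) ≤ 2 := by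
      intro i hi
      have h3 := e3 i hi
      have hi' := (Finset.mem_sdiff.1 hi).1
      have hpos : (0 : ℝ) < i := by exact_mod_cast (hpr i hi').pos
      have hmi : ((m i : ℕ) : ℝ) = i := by rw [hm i hi']
      rw [hmi, div_le_iff₀ hpos, mul_assoc, inv_mul_cancel₀ hpos.ne', mul_one] at h3
      exact h3
    refine (sum_le_sum this).trans ?_
    rw [sum_const, nsmul_eq_mul]
    have h4 : ((PS 0 z \ (Z₁ ∪ Z₂)).card : ℝ) ≤ (PS 0 z).card := by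
      exact_mod_cast card_le_card sdiff_subset
    have := kub_card_PS hz
    linarith only [h4, this]
  have e6 : ∏ i ∈ Z₁ ∪ Z₂, ((m i : ℕ) : ℝ) = ∏ p ∈ Z₁ ∪ Z₂, (p : ℝ) :=
    prod_congr rfl fun i hi => by rw [hm i (hU hi)]
  rw [e1, e2 _ subset_rfl, e2 _ hU, e6] at key
  refine key.trans (add_le_add ?_ ?_)
  · refine mul_le_mul_of_nonneg_left ?_
      (mul_nonneg (by positivity) (PZ_nonneg _ _ _ _ _ _ _))
    refine div_le_div_of_nonneg_right ?_ (by positivity)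
    exact pow_le_pow_left₀ (sum_nonneg fun i _ => by positivity) e4 _
  · refine mul_le_mul_of_nonneg_left ?_ (prod_nonneg fun i _ => by positivity)
    refine pow_le_pow_left₀ (add_nonneg zero_le_one (sum_nonneg fun i _ => by positivity)) ?_ _
    linarith only [this, e5]

lemma kub_prod_exp (I : Finset ℕ) (f : ℕ → ℝ) (c : ℝ) (h0 : ∀ p ∈ I, 0 ≤ f p)
    (h : ∀ p ∈ I, f p ≤ 1 + c * (p : ℝ)⁻¹) :
    ∏ p ∈ I, f p ≤ Real.exp (c * ∑ p ∈ I, (p : ℝ)⁻¹) := by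
  rw [mul_sum, Real.exp_sum]
  refine prod_le_prod h0 fun p hp => (h p hp).trans ?_
  rw [add_comm]
  exact Real.add_one_le_exp _

lemma kub_sumU {a₁ b₁ a₂ b₂ : ℤ} (h₁ : IsCoprime a₁ b₁) (h₂ : IsCoprime a₂ b₂) (z : ℝ) :
    ∑ Z ∈ (PS 0 z).powerset ×ˢ (PS 0 z).powerset, PZ a₁ b₁ a₂ b₂ (Z.1 ∪ Z.2) Z.1 Z.2
      ≤ Real.exp (2 * ∑ p ∈ PS 0 z, (p : ℝ)⁻¹) := by
  classical
  have key := sum_p2 (PS 0 z) (fun p s₁ s₂ => if s₁ ∨ s₂ then pl a₁ b₁ a₂ b₂ p s₁ s₂ else 1)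
  rw [sum_product]
  have e : ∀ Z₁ ∈ (PS 0 z).powerset, ∀ Z₂ ∈ (PS 0 z).powerset,
      PZ a₁ b₁ a₂ b₂ (Z₁ ∪ Z₂) Z₁ Z₂ = ∏ p ∈ PS 0 z,
        (if p ∈ Z₁ ∨ p ∈ Z₂ then pl a₁ b₁ a₂ b₂ p (p ∈ Z₁) (p ∈ Z₂) else 1) := by
    intro Z₁ hZ₁ Z₂ hZ₂
    rw [← prod_filter]
    unfold PZ
    refine prod_congr ?_ fun _ _ => rfl
    ext p
    rw [mem_filter, mem_union]
    refine ⟨fun h => ⟨?_, h⟩, fun h => h.2⟩
    rcases h with h | h
    · exact mem_powerset.1 hZ₁ h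
    · exact mem_powerset.1 hZ₂ h
  rw [sum_congr rfl fun Z₁ hZ₁ => sum_congr rfl fun Z₂ hZ₂ => e Z₁ hZ₁ Z₂ hZ₂]
  refine le_trans (le_of_eq ?_) (key.le.trans ?_)
  · refine sum_congr rfl fun _ _ => sum_congr rfl fun _ _ => prod_congr rfl fun _ _ => ?_
    congr
  · refine kub_prod_exp _ _ 2 ?_ ?_
    · intro p _
      have := pl_nonneg a₁ b₁ a₂ b₂ p True True
      have := pl_nonneg a₁ b₁ a₂ b₂ p True False
      have := pl_nonneg a₁ b₁ a₂ b₂ p False True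
      simp only [true_or, or_true, or_self, if_true, if_false]
      linarith
    · intro p hp
      have hpr := (mem_PS.1 hp).1
      have := pl_nonneg a₁ b₁ a₂ b₂ p True True
      have := pl_fst h₁ a₂ b₂ hpr
      have := pl_snd a₁ b₁ h₂ hpr
      simp only [true_or, or_true, or_self, if_true, if_false]
      linarith

lemma kub_rankin {a₁ b₁ : ℤ} (h₁ : IsCoprime a₁ b₁) (a₂ b₂ : ℤ) {z : ℝ} (hz : 1 < z) {Y : ℝ}
    (hY : 0 < Y) :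
    ∑ Z ∈ (PS 0 z).powerset ×ˢ (PS 0 z).powerset,
        (if Y < ∏ p ∈ Z.1, (p : ℝ) then PZ a₁ b₁ a₂ b₂ (PS 0 z) Z.1 Z.2 else 0)
      ≤ Real.exp (-(Real.log Y / Real.log z)) * Real.exp (3 * ∑ p ∈ PS 0 z, (p : ℝ)⁻¹) := by
  classical
  have hl : 0 < Real.log z := Real.log_pos hz
  have key := sum_p2 (PS 0 z) (fun p s₁ s₂ =>
    (if s₁ then Real.exp (Real.log p / Real.log z) else 1) * pl a₁ b₁ a₂ b₂ p s₁ s₂)
  have e : ∀ Z₁ ∈ (PS 0 z).powerset, ∀ Z₂ ∈ (PS 0 z).powerset,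
      (if Y < ∏ p ∈ Z₁, (p : ℝ) then PZ a₁ b₁ a₂ b₂ (PS 0 z) Z₁ Z₂ else 0)
        ≤ Real.exp (-(Real.log Y / Real.log z)) * ∏ p ∈ PS 0 z,
          ((if p ∈ Z₁ then Real.exp (Real.log p / Real.log z) else 1) *
            pl a₁ b₁ a₂ b₂ p (p ∈ Z₁) (p ∈ Z₂)) := by
    intro Z₁ hZ₁ Z₂ _
    have hsub := mem_powerset.1 hZ₁
    have hP := PZ_nonneg a₁ b₁ a₂ b₂ (PS 0 z) Z₁ Z₂
    have e1 : ∏ p ∈ PS 0 z, (if p ∈ Z₁ then Real.exp (Real.log p / Real.log z) else 1)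
        = Real.exp (Real.log (∏ p ∈ Z₁, (p : ℝ)) / Real.log z) := by
      rw [← prod_filter, filter_mem_eq_inter, inter_eq_right.2 hsub, ← Real.exp_sum, ← sum_div,
        Real.log_prod]
      intro p hp
      exact_mod_cast (mem_PS.1 (hsub hp)).1.ne_zero
    rw [prod_mul_distrib, e1, ← mul_assoc, ← Real.exp_add]
    change _ ≤ _ * PZ a₁ b₁ a₂ b₂ (PS 0 z) Z₁ Z₂
    split_ifs with h
    · refine le_mul_of_one_le_left hP (Real.one_le_exp ?_)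
      have := div_le_div_of_nonneg_right (Real.log_le_log hY h.le) hl.le
      linarith only [this]
    · exact mul_nonneg (Real.exp_pos _).le hP
  rw [sum_product]
  refine (sum_le_sum fun Z₁ hZ₁ => sum_le_sum fun Z₂ hZ₂ => e Z₁ hZ₁ Z₂ hZ₂).trans ?_
  simp only [← mul_sum]
  refine mul_le_mul_of_nonneg_left ?_ (Real.exp_pos _).le
  refine le_trans (le_of_eq ?_) (key.le.trans ?_)
  · refine sum_congr rfl fun _ _ => sum_congr rfl fun _ _ => prod_congr rfl fun _ _ => ?_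
    congr
  · refine kub_prod_exp _ _ 3 ?_ ?_
    · intro p _
      have := pl_nonneg a₁ b₁ a₂ b₂ p True True
      have := pl_nonneg a₁ b₁ a₂ b₂ p True False
      have := pl_nonneg a₁ b₁ a₂ b₂ p False True
      have := pl_nonneg a₁ b₁ a₂ b₂ p False False
      simp only [if_true, if_false]
      positivity
    · intro p hp
      obtain ⟨hpr, _, hpz⟩ := mem_PS.1 hp
      have t1 := pl_nonneg a₁ b₁ a₂ b₂ p True True
      have t2 := pl_nonneg a₁ b₁ a₂ b₂ p True False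
      have t3 := pl_fst h₁ a₂ b₂ hpr
      have t4 := pl_sum a₁ b₁ a₂ b₂ hpr.pos
      have hp0 : (0 : ℝ) < p := by exact_mod_cast hpr.pos
      have t5 : Real.exp (Real.log p / Real.log z) ≤ 3 := by
        refine le_trans (Real.exp_le_exp.2 ((div_le_one hl).2 (Real.log_le_log hp0 hpz))) ?_
        have := Real.exp_one_lt_d9
        linarith only [this]
      have t6 : Real.exp (Real.log p / Real.log z) *
          (pl a₁ b₁ a₂ b₂ p True True + pl a₁ b₁ a₂ b₂ p True False) ≤ 3 * (p : ℝ)⁻¹ :=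
        mul_le_mul t5 t3 (by linarith only [t1, t2]) (by norm_num)
      simp only [if_true, if_false]
      linarith only [t1, t2, t4, t6]

lemma kub_rankin' (a₁ b₁ : ℤ) {a₂ b₂ : ℤ} (h₂ : IsCoprime a₂ b₂) {z : ℝ} (hz : 1 < z) {Y : ℝ}
    (hY : 0 < Y) :
    ∑ Z ∈ (PS 0 z).powerset ×ˢ (PS 0 z).powerset,
        (if Y < ∏ p ∈ Z.2, (p : ℝ) then PZ a₁ b₁ a₂ b₂ (PS 0 z) Z.1 Z.2 else 0)
      ≤ Real.exp (-(Real.log Y / Real.log z)) * Real.exp (3 * ∑ p ∈ PS 0 z, (p : ℝ)⁻¹) := by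
  refine le_trans (le_of_eq ?_) (kub_rankin h₂ a₁ b₁ hz hY)
  rw [sum_product, sum_product, sum_comm]
  refine sum_congr rfl fun Z₁ _ => sum_congr rfl fun Z₂ _ => ?_
  have : PZ a₁ b₁ a₂ b₂ (PS 0 z) Z₂ Z₁ = PZ a₂ b₂ a₁ b₁ (PS 0 z) Z₁ Z₂ :=
    prod_congr rfl fun p _ => pl_symm _ _ _ _ _ _ _
  simp only [this]

lemma kub_card (z : ℝ) {Y : ℝ} (hY : 0 ≤ Y) :
    (((PS 0 z).powerset.filter fun Z : Finset ℕ => ∏ p ∈ Z, (p : ℝ) ≤ Y).card : ℝ) ≤ Y := by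
  have : ((PS 0 z).powerset.filter fun Z : Finset ℕ => ∏ p ∈ Z, (p : ℝ) ≤ Y).card
      ≤ (Icc 1 ⌊Y⌋₊).card := by
    refine card_le_card_of_injOn (fun Z => ∏ p ∈ Z, p) ?_ ?_
    · intro Z hZ
      rw [mem_coe, mem_filter, mem_powerset] at hZ
      rw [mem_coe, mem_Icc]
      refine ⟨?_, Nat.le_floor ?_⟩
      · exact Nat.one_le_iff_ne_zero.2 (prod_ne_zero_iff.2 fun p hp =>
          (mem_PS.1 (hZ.1 hp)).1.ne_zero)
      · push_cast; exact hZ.2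
    · intro Z hZ Z' hZ' h
      rw [mem_coe, mem_filter, mem_powerset] at hZ hZ'
      have e1 := Nat.primeFactors_prod (s := Z) fun p hp => (mem_PS.1 (hZ.1 hp)).1
      have e2 := Nat.primeFactors_prod (s := Z') fun p hp => (mem_PS.1 (hZ'.1 hp)).1
      rw [← e1, ← e2]
      exact congrArg _ h
  rw [Nat.card_Icc, Nat.add_sub_cancel] at this
  exact le_trans (by exact_mod_cast this) (Nat.floor_le hY)

lemma kub_prodU {z : ℝ} {Z₁ Z₂ : Finset ℕ} (hZ₂ : Z₂ ⊆ PS 0 z) :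
    ∏ p ∈ Z₁ ∪ Z₂, (p : ℝ) ≤ (∏ p ∈ Z₁, (p : ℝ)) * ∏ p ∈ Z₂, (p : ℝ) := by
  rw [← prod_union_inter]
  refine le_mul_of_one_le_right (prod_nonneg fun _ _ => by positivity) ?_
  refine Finset.one_le_prod fun p hp => ?_
  exact_mod_cast (mem_PS.1 (hZ₂ (mem_inter.1 hp).2)).1.one_le

/-- The total variation bound with explicit parameters. -/
lemma kub_total {a₁ b₁ a₂ b₂ : ℤ} (h₁ : IsCoprime a₁ b₁) (h₂ : IsCoprime a₂ b₂) {z : ℝ}
    (hz : 1 < z) {Y : ℝ} (hY : 0 < Y) (X J : ℕ) :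
    ∑ Z ∈ (PS 0 z).powerset ×ˢ (PS 0 z).powerset,
        |kubD a₁ b₁ a₂ b₂ z X Z - X * PZ a₁ b₁ a₂ b₂ (PS 0 z) Z.1 Z.2|
      ≤ 2 * (2 * X * Real.exp (2 * ∑ p ∈ PS 0 z, (p : ℝ)⁻¹) *
            ((2 * ∑ p ∈ PS 0 z, (p : ℝ)⁻¹) ^ (J + 1) / (J + 1).factorial)
          + Y ^ 4 * (1 + 2 * z) ^ (J + 1))
        + 2 * X * (2 * (Real.exp (-(Real.log Y / Real.log z)) *
            Real.exp (3 * ∑ p ∈ PS 0 z, (p : ℝ)⁻¹))) := by
  classical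
  have hz0 : 0 ≤ z := by linarith
  refine kub_tv _ (fun Z : Finset ℕ × Finset ℕ => ∏ p ∈ Z.1, (p : ℝ) ≤ Y ∧ ∏ p ∈ Z.2, (p : ℝ) ≤ Y)
    _ (fun Z => PZ a₁ b₁ a₂ b₂ (PS 0 z) Z.1 Z.2) _ _ _ (by positivity)
    (fun Z => by unfold kubD; positivity) (fun Z => PZ_nonneg _ _ _ _ _ _ _) ?_ ?_ ?_ ?_
  · have := kub_fiber a₁ b₁ a₂ b₂ z X (fun _ _ => 1)
    simp only [mul_one, sum_const, Nat.card_Icc, Nat.add_sub_cancel, nsmul_eq_mul] at this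
    exact this.symm
  · rw [sum_product]
    exact PZ_sum a₁ b₁ a₂ b₂ 0 z
  · set t : ℝ := (2 * ∑ p ∈ PS 0 z, (p : ℝ)⁻¹) ^ (J + 1) / (J + 1).factorial with ht
    have ht0 : 0 ≤ t := by
      have : 0 ≤ ∑ p ∈ PS 0 z, (p : ℝ)⁻¹ := sum_nonneg fun _ _ => by positivity
      positivity
    have hloc : ∀ Z ∈ ((PS 0 z).powerset ×ˢ (PS 0 z).powerset).filter
        (fun Z : Finset ℕ × Finset ℕ => ∏ p ∈ Z.1, (p : ℝ) ≤ Y ∧ ∏ p ∈ Z.2, (p : ℝ) ≤ Y),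
        |kubD a₁ b₁ a₂ b₂ z X Z - X * PZ a₁ b₁ a₂ b₂ (PS 0 z) Z.1 Z.2|
          ≤ 2 * X * t * PZ a₁ b₁ a₂ b₂ (Z.1 ∪ Z.2) Z.1 Z.2 + Y ^ 2 * (1 + 2 * z) ^ (J + 1) := by
      intro Z hZ
      rw [mem_filter, mem_product, mem_powerset, mem_powerset] at hZ
      refine (kub_local h₁ h₂ hz0 X J hZ.1.1 hZ.1.2).trans (add_le_add (le_of_eq (by ring)) ?_)
      refine mul_le_mul_of_nonneg_right ?_ (by positivity)
      refine (kub_prodU hZ.1.2).trans ?_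
      rw [sq]
      exact mul_le_mul hZ.2.1 hZ.2.2 (prod_nonneg fun _ _ => by positivity) hY.le
    refine (sum_le_sum hloc).trans ?_
    rw [sum_add_distrib, ← mul_sum, sum_const, nsmul_eq_mul]
    refine add_le_add ?_ ?_
    · have e1 := (sum_le_sum_of_subset_of_nonneg (filter_subset
        (fun Z : Finset ℕ × Finset ℕ => ∏ p ∈ Z.1, (p : ℝ) ≤ Y ∧ ∏ p ∈ Z.2, (p : ℝ) ≤ Y) _)
        (fun Z _ _ => PZ_nonneg a₁ b₁ a₂ b₂ (Z.1 ∪ Z.2) Z.1 Z.2)).trans (kub_sumU h₁ h₂ z)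
      have := mul_le_mul_of_nonneg_left e1 (show 0 ≤ 2 * (X : ℝ) * t by positivity)
      linarith only [this]
    · have e1 := kub_card z hY.le
      rw [filter_product (fun Z : Finset ℕ => ∏ p ∈ Z, (p : ℝ) ≤ Y)
        (fun Z : Finset ℕ => ∏ p ∈ Z, (p : ℝ) ≤ Y), card_product]
      push_cast
      have e2 := mul_le_mul e1 e1 (by positivity) hY.le
      have e3 : 0 ≤ Y ^ 2 * (1 + 2 * z) ^ (J + 1) := by positivity
      have := mul_le_mul_of_nonneg_right e2 e3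
      refine this.trans (le_of_eq (by ring))
  · rw [two_mul, sum_filter]
    refine le_trans ?_ (add_le_add (kub_rankin h₁ a₂ b₂ hz hY) (kub_rankin' a₁ b₁ h₂ hz hY))
    rw [← sum_add_distrib]
    refine sum_le_sum fun Z _ => ?_
    have hP := PZ_nonneg a₁ b₁ a₂ b₂ (PS 0 z) Z.1 Z.2
    by_cases c1 : Y < ∏ p ∈ Z.1, (p : ℝ) <;> by_cases c2 : Y < ∏ p ∈ Z.2, (p : ℝ)
    · rw [if_pos c1, if_pos c2]; split_ifs <;> linarith
    · rw [if_pos c1, if_neg c2]; split_ifs <;> linarith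
    · rw [if_neg c1, if_pos c2]; split_ifs <;> linarith
    · rw [if_neg c1, if_neg c2, if_neg (not_not.2 ⟨not_lt.1 c1, not_lt.1 c2⟩)]; simp

lemma kub_num (B : ℕ) : ∀ᶠ X : ℕ in atTop, 1 < zz X ∧ ∃ J : ℕ,
    2 * (2 * X * Real.exp (2 * ∑ p ∈ PS 0 (zz X), (p : ℝ)⁻¹) *
            ((2 * ∑ p ∈ PS 0 (zz X), (p : ℝ)⁻¹) ^ (J + 1) / (J + 1).factorial)
          + YY X ^ 4 * (1 + 2 * zz X) ^ (J + 1))
        + 2 * X * (2 * (Real.exp (-(Real.log (YY X) / Real.log (zz X))) *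
            Real.exp (3 * ∑ p ∈ PS 0 (zz X), (p : ℝ)⁻¹))) ≤ X / Real.log X ^ B := by
  filter_upwards [scales, LL_tendsto.eventually_ge_atTop 600,
    LL_le_rpow (3 * (B + 11)) (show (0 : ℝ) < 3 / 100 by norm_num),
    log_pow_le 6 B (show (0 : ℝ) < 99 / 100 by norm_num),
    log_pow_le (12 * Real.exp 219) (B + 3) (show (0 : ℝ) < 3 / 100 by norm_num)]
    with X hs h600 hJ hY hT
  obtain ⟨hL1, hl2, hz2, -, hY100, -, -⟩ := hs
  refine ⟨by linarith only [hz2], ⌈((B : ℝ) + 9) * LL X⌉₊, ?_⟩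
  set J := ⌈((B : ℝ) + 9) * LL X⌉₊ with hJdef
  set l := Real.log X with hl
  set S := ∑ p ∈ PS 0 (zz X), (p : ℝ)⁻¹ with hS
  have hl0 : 0 < l := by linarith only [hl2]
  have hlB : 0 < l ^ B := by positivity
  have hX0 : (0 : ℝ) ≤ X := by positivity
  have hS0 : 0 ≤ S := sum_nonneg fun _ _ => by positivity
  have hlz : Real.log (zz X) = l ^ (24 / 25 : ℝ) := by unfold zz; rw [Real.log_exp]
  have hlY : Real.log (YY X) = l ^ (99 / 100 : ℝ) := by unfold YY; rw [Real.log_exp]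
  have hLL : LL X = Real.log l := rfl
  have hS1 : S ≤ LL X + 73 := by
    have := (abs_le.1 (sum_PS0 hz2)).2
    rw [hlz, Real.log_rpow hl0, ← hLL] at this
    linarith only [h600, this]
  have hJ1 : ((B : ℝ) + 9) * LL X ≤ J := Nat.le_ceil _
  have hJ2 : (J : ℝ) < ((B : ℝ) + 9) * LL X + 1 := Nat.ceil_lt_add_one (by positivity)
  have hexpB : Real.exp (B * LL X) = l ^ B := by
    rw [hLL, Real.exp_nat_mul, Real.exp_log hl0]
  -- first term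
  have t1 : (2 * S) ^ (J + 1) / (J + 1).factorial ≤ Real.exp (6 * S - (J + 1)) := by
    have h := Real.pow_div_factorial_le_exp (Real.exp 1 * (2 * S)) (by positivity) (J + 1)
    rw [mul_pow, ← Real.exp_nat_mul, mul_one, mul_div_assoc] at h
    have h3 : Real.exp 1 ≤ 3 := by have := Real.exp_one_lt_d9; linarith only [this]
    have h4 : Real.exp (Real.exp 1 * (2 * S)) ≤ Real.exp (6 * S) :=
      Real.exp_le_exp.2 (by linarith only [hS0, h3, mul_nonneg_of_nonpos_of_nonpos (Mathlib.Tactic.Linarith.sub_nonpos_of_le hS0) (Mathlib.Tactic.Linarith.sub_nonpos_of_le h3)])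
    rw [Real.exp_sub, le_div_iff₀ (Real.exp_pos _)]
    push_cast at h
    linarith only [h4, h]
  have t2 : 4 * Real.exp (2 * S) * ((2 * S) ^ (J + 1) / (J + 1).factorial) ≤ 1 / (3 * l ^ B) := by
    have h1 : Real.exp (2 * S) * Real.exp (6 * S - (J + 1)) * Real.exp (B * LL X)
        ≤ Real.exp (-16) := by
      rw [← Real.exp_add, ← Real.exp_add]
      refine Real.exp_le_exp.2 ?_
      linarith only [h600, hS1, hJ1]
    have h2 : Real.exp (-16) ≤ 1 / 12 := by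
      rw [Real.exp_neg, one_div]
      refine inv_anti₀ (by norm_num) ?_
      have := Real.add_one_le_exp (16 : ℝ)
      linarith only [this]
    rw [hexpB] at h1
    rw [le_div_iff₀ (by positivity)]
    have h3 := mul_le_mul_of_nonneg_left t1 (Real.exp_pos (2 * S)).le
    have h4 := mul_le_mul_of_nonneg_right h3 hlB.le
    linarith only [h1, h2, h4]
  -- second term
  have hY1 : 1 ≤ YY X := Real.one_le_exp (by positivity)
  have t3 : (1 + 2 * zz X) ^ (J + 1) ≤ YY X := by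
    have h1 : 1 + 2 * zz X ≤ zz X ^ 3 := by linarith only [hz2, mul_le_mul hz2 hz2 (by norm_num) (by linarith), mul_nonneg_of_nonpos_of_nonpos (Mathlib.Tactic.Linarith.sub_nonpos_of_le (mul_self_nonneg (zz X))) (Mathlib.Tactic.Linarith.sub_nonpos_of_le hz2), mul_nonneg_of_nonpos_of_nonpos (Mathlib.Tactic.Linarith.sub_nonpos_of_le hz2) (Mathlib.Tactic.Linarith.sub_nonpos_of_le hz2)]
    refine (pow_le_pow_left₀ (by linarith only [hz2]) h1 _).trans ?_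
    rw [← pow_mul]
    unfold zz YY
    rw [← Real.exp_nat_mul]
    refine Real.exp_le_exp.2 ?_
    have h2 : l ^ (99 / 100 : ℝ) = l ^ (3 / 100 : ℝ) * l ^ (24 / 25 : ℝ) := by
      rw [← Real.rpow_add hl0]; norm_num
    rw [← hl, h2]
    refine mul_le_mul_of_nonneg_right ?_ (by positivity)
    push_cast
    linarith only [h600, hJ, hJ2]
  have t4 : 2 * (YY X ^ 4 * (1 + 2 * zz X) ^ (J + 1)) ≤ X / (3 * l ^ B) := by
    rw [le_div_iff₀ (by positivity)]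
    have h1 : 6 * l ^ B ≤ YY X := hY
    have h2 : YY X ^ 6 ≤ YY X ^ 100 := pow_le_pow_right₀ hY1 (by norm_num)
    have h3 : YY X ^ 4 * (1 + 2 * zz X) ^ (J + 1) ≤ YY X ^ 4 * YY X :=
      mul_le_mul_of_nonneg_left t3 (by positivity)
    have h4 := mul_le_mul h3 h1 (by positivity) (by positivity)
    have h5 : YY X ^ 4 * YY X * YY X = YY X ^ 6 := by ring
    linarith only [hY100, h2, h4]
  -- third term
  have t5 : 4 * (Real.exp (-(Real.log (YY X) / Real.log (zz X))) * Real.exp (3 * S))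
      ≤ 1 / (3 * l ^ B) := by
    have h1 : Real.log (YY X) / Real.log (zz X) = l ^ (3 / 100 : ℝ) := by
      rw [hlY, hlz, ← Real.rpow_sub hl0]; norm_num
    have h2 : Real.exp (3 * S) ≤ Real.exp 219 * l ^ 3 := by
      have : l ^ 3 = Real.exp (3 * LL X) := by
        rw [hLL, show (3 : ℝ) = ((3 : ℕ) : ℝ) by norm_num, Real.exp_nat_mul, Real.exp_log hl0]
      rw [this, ← Real.exp_add]
      exact Real.exp_le_exp.2 (by linarith only [hS1])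
    rw [h1, Real.exp_neg, le_div_iff₀ (by positivity)]
    have h3 := Real.exp_pos (l ^ (3 / 100 : ℝ))
    have h4 : 4 * ((Real.exp (l ^ (3 / 100 : ℝ)))⁻¹ * Real.exp (3 * S)) * (3 * l ^ B)
        = (12 * Real.exp (3 * S) * l ^ B) / Real.exp (l ^ (3 / 100 : ℝ)) := by
      field_simp; norm_num
    rw [h4, div_le_one h3]
    refine le_trans ?_ hT
    have h5 := mul_le_mul_of_nonneg_right h2 hlB.le
    rw [pow_add]
    linarith only [h5]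
  have u1 := mul_le_mul_of_nonneg_left t2 hX0
  have u2 := mul_le_mul_of_nonneg_left t5 hX0
  have u3 : (X : ℝ) * (1 / (3 * l ^ B)) = X / (3 * l ^ B) := by ring
  have u4 : (X : ℝ) / l ^ B = 3 * (X / (3 * l ^ B)) := by field_simp
  rw [u3] at u1 u2
  rw [u4]
  linarith only [t4, u1, u2]

theorem kub2 {a₁ b₁ a₂ b₂ : ℤ} (h₁ : IsCoprime a₁ b₁) (h₂ : IsCoprime a₂ b₂) (B : ℕ) :
    ∀ᶠ X : ℕ in atTop, ∀ G : Finset ℕ → Finset ℕ → ℝ, (∀ Z₁ Z₂, |G Z₁ Z₂| ≤ 1) →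
    |∑ n ∈ Icc 1 X, G (ZZ (zz X) (val a₁ b₁ n)) (ZZ (zz X) (val a₂ b₂ n))
      - X * ∑ Z₁ ∈ (PS 0 (zz X)).powerset, ∑ Z₂ ∈ (PS 0 (zz X)).powerset,
          PZ a₁ b₁ a₂ b₂ (PS 0 (zz X)) Z₁ Z₂ * G Z₁ Z₂| ≤ X / Real.log X ^ B := by
  filter_upwards [kub_num B] with X hX G hG
  obtain ⟨hz, J, hJ⟩ := hX
  have hY : 0 < YY X := Real.exp_pos _
  refine le_trans ?_ ((kub_total h₁ h₂ hz hY X J).trans hJ)
  rw [kub_fiber, ← sum_product' (f := fun Z₁ Z₂ => PZ a₁ b₁ a₂ b₂ (PS 0 (zz X)) Z₁ Z₂ * G Z₁ Z₂),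
    mul_sum, ← sum_sub_distrib]
  refine (abs_sum_le_sum_abs _ _).trans (sum_le_sum fun Z _ => ?_)
  rw [← mul_assoc, ← sub_mul, abs_mul]
  exact mul_le_of_le_one_right (abs_nonneg _) (hG _ _)

theorem kub1 (B : ℕ) : ∀ᶠ X : ℕ in atTop, ∀ G : Finset ℕ → ℝ, (∀ Z, |G Z| ≤ 1) →
    |∑ n ∈ Icc 1 X, G (ZZ (zz X) n)
      - X * ∑ Z ∈ (PS 0 (zz X)).powerset, P1 (PS 0 (zz X)) Z * G Z| ≤ X / Real.log X ^ B := by
  have h : IsCoprime (1 : ℤ) 0 := isCoprime_one_left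
  filter_upwards [kub2 h h B] with X hX G hG
  have := hX (fun Z₁ _ => G Z₁) fun Z₁ _ => hG Z₁
  simp only [val_one, ← sum_mul, PZ_marg] at this
  exact this


end Pool.Agent.Work.MP_51e72e_nt.TE
end

-- merged part: Pool.Agent.Work.MP_51e72e_nt.TESymA
section
/-! Recurrences for symmetric sums. -/

set_option autoImplicit false
open Finset Filter Topology
open Pool.Agent.Work.MP_678620_nt

namespace Pool.Agent.Work.MP_51e72e_nt.TE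

/-- Double counting of the pairs of a set and one of its elements. -/
lemma symA_dc (I : Finset ℕ) (i : ℕ) (G : Finset ℕ → ℕ → ℝ) :
    ∑ S ∈ I.powersetCard (i + 1), ∑ q ∈ S, G S q =
      ∑ T ∈ I.powersetCard i, ∑ q ∈ I \ T, G (insert q T) q := by
  rw [sum_sigma', sum_sigma']
  refine sum_bij' (fun x _ => ⟨x.1.erase x.2, x.2⟩) (fun x _ => ⟨insert x.2 x.1, x.2⟩)
    ?_ ?_ ?_ ?_ ?_
  · rintro ⟨T, i⟩ h
    obtain ⟨h1, h2⟩ := mem_sigma.1 h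
    obtain ⟨h3, h4⟩ := mem_powersetCard.1 h1
    refine mem_sigma.2 ⟨mem_powersetCard.2 ⟨(erase_subset _ _).trans h3, ?_⟩,
      mem_sdiff.2 ⟨h3 h2, notMem_erase _ _⟩⟩
    rw [card_erase_of_mem h2, h4]; rfl
  · rintro ⟨T, i⟩ h
    obtain ⟨h1, h2⟩ := mem_sigma.1 h
    obtain ⟨h3, h4⟩ := mem_powersetCard.1 h1
    obtain ⟨h5, h6⟩ := mem_sdiff.1 h2
    exact mem_sigma.2 ⟨mem_powersetCard.2 ⟨insert_subset h5 h3,
      by rw [card_insert_of_notMem h6, h4]⟩, mem_insert_self _ _⟩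
  · rintro ⟨T, i⟩ h
    simp only [insert_erase (mem_sigma.1 h).2]
  · rintro ⟨T, i⟩ h
    simp only [erase_insert (mem_sdiff.1 (mem_sigma.1 h).2).2]
  · rintro ⟨T, i⟩ h
    simp only [insert_erase (mem_sigma.1 h).2]

/-- A weighted form of the recursion. -/
lemma symA_wt {I : Finset ℕ} {ν w : ℕ → ℝ} (h0 : ∀ p ∈ I, 0 ≤ ν p) (hw : ∀ p ∈ I, 0 ≤ w p)
    (j : ℕ) : ∑ S ∈ I.powersetCard (j + 1), (∏ p ∈ S, ν p) * ∑ q ∈ S, w q
      ≤ (∑ p ∈ I, ν p * w p) * esym I ν j := by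
  simp_rw [mul_sum]
  rw [symA_dc I j fun S q => (∏ p ∈ S, ν p) * w q, esym, mul_sum]
  refine sum_le_sum fun T hT => ?_
  have hT0 : 0 ≤ ∏ p ∈ T, ν p := prod_nonneg fun p hp => h0 p ((mem_powersetCard.1 hT).1 hp)
  rw [sum_mul]
  refine le_trans (le_of_eq (sum_congr rfl fun q hq => ?_))
    (sum_le_sum_of_subset_of_nonneg (sdiff_subset (t := T))
      fun q hq _ => mul_nonneg (mul_nonneg (h0 q hq) (hw q hq)) hT0)
  rw [prod_insert (mem_sdiff.1 hq).2]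
  ring

lemma esym_le_esym {I : Finset ℕ} {ν μ : ℕ → ℝ} (h0 : ∀ p ∈ I, 0 ≤ ν p) (h : ∀ p ∈ I, ν p ≤ μ p)
    (j : ℕ) : esym I ν j ≤ esym I μ j :=
  sum_le_sum fun _ hT => prod_le_prod (fun p hp => h0 p ((mem_powersetCard.1 hT).1 hp))
    fun p hp => h p ((mem_powersetCard.1 hT).1 hp)

lemma symA_empty (ν : ℕ → ℝ) (j : ℕ) : esym ∅ ν (j + 1) = 0 := by
  rw [esym, powersetCard_eq_empty.2 (by simp), sum_empty]

lemma esym_union {I J : Finset ℕ} (h : Disjoint I J) (ν : ℕ → ℝ) (j : ℕ) :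
    esym (I ∪ J) ν j = ∑ x ∈ antidiagonal j, esym I ν x.1 * esym J ν x.2 := by
  induction J using Finset.induction_on generalizing j with
  | empty =>
    rcases j with _ | j
    · simp [esym_zero]
    · simp [Nat.sum_antidiagonal_succ', esym_zero, symA_empty]
  | insert a J ha ih =>
    rw [disjoint_insert_right] at h
    rcases j with _ | j
    · simp [esym_zero]
    · rw [union_insert, esym_insert (by simp [ha, h.1]), ih h.2, ih h.2,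
        Nat.sum_antidiagonal_succ', Nat.sum_antidiagonal_succ']
      simp only [esym_zero, esym_insert ha, mul_add, sum_add_distrib, mul_sum, add_assoc]
      congr 2
      exact sum_congr rfl fun x _ => by ring

lemma esym_one (I : Finset ℕ) (ν : ℕ → ℝ) : esym I ν 1 = ∑ p ∈ I, ν p := by
  simpa using succ_mul_esym I ν 0

lemma esym_rec {I : Finset ℕ} {ν : ℕ → ℝ} (h0 : ∀ p ∈ I, 0 ≤ ν p) (j : ℕ) :
    (∑ p ∈ I, ν p) * esym I ν (j + 1) - (∑ p ∈ I, ν p ^ 2) * esym I ν j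
      ≤ (j + 2 : ℝ) * esym I ν (j + 2) := by
  have h1 := succ_mul_esym I ν (j + 1)
  have h2 := symA_wt h0 h0 j
  have h3 : (∑ p ∈ I, ν p) * esym I ν (j + 1) =
      ∑ T ∈ I.powersetCard (j + 1), (∏ i ∈ T, ν i) * ∑ i ∈ I \ T, ν i +
        ∑ S ∈ I.powersetCard (j + 1), (∏ p ∈ S, ν p) * ∑ q ∈ S, ν q := by
    rw [← sum_add_distrib, esym, mul_sum]
    refine sum_congr rfl fun T hT => ?_
    rw [← mul_add, sum_sdiff (mem_powersetCard.1 hT).1, mul_comm]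
  simp only [← sq] at h2
  push_cast at h1
  rw [add_assoc, one_add_one_eq_two] at h1
  rw [h3, h1]
  linarith

lemma esym_sub_le {I : Finset ℕ} {ν μ : ℕ → ℝ} (h0 : ∀ p ∈ I, 0 ≤ ν p) (h : ∀ p ∈ I, ν p ≤ μ p)
    (j : ℕ) : esym I μ (j + 1) - esym I ν (j + 1) ≤ (∑ p ∈ I, (μ p - ν p)) * esym I μ j := by
  induction I using Finset.induction_on generalizing j with
  | empty => simp [symA_empty]
  | insert a I ha ih =>
    have h0' : ∀ p ∈ I, 0 ≤ ν p := fun p hp => h0 p (mem_insert_of_mem hp)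
    have h' : ∀ p ∈ I, ν p ≤ μ p := fun p hp => h p (mem_insert_of_mem hp)
    have a0 := h0 a (mem_insert_self _ _)
    have a1 := h a (mem_insert_self _ _)
    have hD : 0 ≤ ∑ p ∈ I, (μ p - ν p) := sum_nonneg fun p hp => sub_nonneg.2 (h' p hp)
    have i1 := ih h0' h' j
    rw [esym_insert ha, esym_insert ha, sum_insert ha]
    rcases j with _ | j
    · simp only [esym_zero] at i1 ⊢
      linarith
    · have i2 := mul_le_mul_of_nonneg_left (ih h0' h' j) a0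
      have e0 := esym_nonneg (fun p hp => (h0' p hp).trans (h' p hp)) j
      rw [esym_insert ha]
      linarith only [i1, i2, a1, hD, e0, a0, mul_nonneg (mul_nonneg (sub_nonneg.2 a1) hD) e0,
        mul_nonneg (mul_nonneg (sub_nonneg.2 a1) (a0.trans a1)) e0]

lemma cv_mono {I : Finset ℕ} {ν μ τ σ : ℕ → ℝ} (h0 : ∀ p ∈ I, 0 ≤ ν p) (h : ∀ p ∈ I, ν p ≤ μ p)
    (t0 : ∀ i, 0 ≤ τ i) (t : ∀ i, τ i ≤ σ i) (j : ℕ) : 0 ≤ cv I ν τ j ∧ cv I ν τ j ≤ cv I μ σ j :=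
  ⟨sum_nonneg fun x _ => mul_nonneg (esym_nonneg h0 _) (t0 x.2),
    sum_le_sum fun x _ => mul_le_mul (esym_le_esym h0 h _) (t x.2) (t0 _)
      (esym_nonneg (fun p hp => (h0 p hp).trans (h p hp)) _)⟩

lemma cv_esym_le {I J : Finset ℕ} {ν μ : ℕ → ℝ} (h0 : ∀ p ∈ I, 0 ≤ ν p) (h1 : ∀ p ∈ J, 0 ≤ μ p)
    (j : ℕ) : cv I ν (esym J μ) j ≤ (∑ p ∈ I, ν p + ∑ p ∈ J, μ p) ^ j / j.factorial := by
  rw [(Commute.all _ _).add_pow', sum_div, cv]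
  refine sum_le_sum fun x hx => ?_
  have a0 : 0 ≤ ∑ p ∈ I, ν p := sum_nonneg h0
  refine (mul_le_mul (esym_le_pow h0 _) (esym_le_pow h1 _) (esym_nonneg h1 _)
    (by positivity)).trans (le_of_eq ?_)
  rw [← mem_antidiagonal.1 hx, nsmul_eq_mul, Nat.cast_add_choose]
  field_simp

lemma cv_succ (I : Finset ℕ) (ν τ : ℕ → ℝ) (j : ℕ) : (j + 1 : ℝ) * cv I ν τ (j + 1) =
    ∑ x ∈ antidiagonal j, ((x.1 + 1 : ℝ) * esym I ν (x.1 + 1)) * τ x.2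
      + ∑ x ∈ antidiagonal j, esym I ν x.1 * ((x.2 + 1 : ℝ) * τ (x.2 + 1)) := by
  have e : (j + 1 : ℝ) * cv I ν τ (j + 1) =
      ∑ x ∈ antidiagonal (j + 1), ((x.1 : ℝ) * esym I ν x.1) * τ x.2
        + ∑ x ∈ antidiagonal (j + 1), esym I ν x.1 * ((x.2 : ℝ) * τ x.2) := by
    rw [cv, mul_sum, ← sum_add_distrib]
    refine sum_congr rfl fun x hx => ?_
    have : (j + 1 : ℝ) = x.1 + x.2 := by exact_mod_cast (mem_antidiagonal.1 hx).symm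
    rw [this]
    ring
  rw [e, Nat.sum_antidiagonal_succ, Nat.sum_antidiagonal_succ' (n := j)
    (f := fun x => esym I ν x.1 * ((x.2 : ℝ) * τ x.2))]
  simp

lemma symA_inv (S : Finset ℕ) : 0 ≤ ∏ p ∈ S, (p : ℝ)⁻¹ := prod_nonneg fun _ _ => by positivity

lemma TT_nonneg (X : ℕ) (y : ℝ) (i : ℕ) : 0 ≤ TT X y i := sum_nonneg fun S _ => symA_inv S

lemma TT_le_e3 (X : ℕ) (y : ℝ) (i : ℕ) : TT X y i ≤ e3 X i :=
  sum_le_sum_of_subset_of_nonneg (filter_subset _ _) fun S _ _ => symA_inv S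

lemma TT_mono (X : ℕ) {y y' : ℝ} (h : y ≤ y') (i : ℕ) : TT X y i ≤ TT X y' i :=
  sum_le_sum_of_subset_of_nonneg (monotone_filter_right _ fun _ _ hS => hS.trans h)
    fun S _ _ => symA_inv S

lemma TT_zero (X : ℕ) {y : ℝ} (h : 1 ≤ y) : TT X y 0 = 1 := by
  simp [TT, filter_singleton, h]

lemma symA_TT (X : ℕ) (y : ℝ) (i : ℕ) : (i + 1 : ℝ) * TT X y (i + 1) =
    ∑ T ∈ (PS (zz X) X).powersetCard i, ∑ q ∈ PS (zz X) X \ T,
      if (q : ℝ) * ((∏ p ∈ T, p : ℕ) : ℝ) ≤ y then (q : ℝ)⁻¹ * ∏ p ∈ T, (p : ℝ)⁻¹ else 0 := by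
  have e := symA_dc (PS (zz X) X) i fun S _ =>
    if ((∏ p ∈ S, p : ℕ) : ℝ) ≤ y then ∏ p ∈ S, (p : ℝ)⁻¹ else 0
  rw [TT, sum_filter, mul_sum]
  refine (sum_congr rfl fun S hS => ?_).trans (e.trans (sum_congr rfl fun T _ =>
    sum_congr rfl fun q hq => ?_))
  · rw [sum_const, (mem_powersetCard.1 hS).2, nsmul_eq_mul, Nat.cast_succ]
  · rw [prod_insert (mem_sdiff.1 hq).2, prod_insert (mem_sdiff.1 hq).2, Nat.cast_mul]

lemma TT_succ_le (X : ℕ) (y : ℝ) (i : ℕ) :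
    (i + 1 : ℝ) * TT X y (i + 1) ≤ (∑ p ∈ PS (zz X) X, (p : ℝ)⁻¹) * TT X y i := by
  rw [symA_TT, TT, sum_filter, mul_sum]
  refine sum_le_sum fun T _ => ?_
  have hT := symA_inv T
  rw [sum_mul]
  refine le_trans (sum_le_sum fun q hq => ?_) (sum_le_sum_of_subset_of_nonneg
    (sdiff_subset (t := T)) fun q _ _ => by split_ifs <;> positivity)
  have hq1 : (1 : ℝ) ≤ q := by exact_mod_cast (mem_PS.1 (mem_sdiff.1 hq).1).1.one_le
  split_ifs with h1 h2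
  · exact le_rfl
  · exact absurd ((le_mul_of_one_le_left (Nat.cast_nonneg _) hq1).trans h1) h2
  · positivity
  · rw [mul_zero]

lemma TT_succ_ge (X : ℕ) {y : ℝ} (h0 : 0 < y) (h : y ≤ X) (i : ℕ) :
    (∑ p ∈ PS (zz X) y, (p : ℝ)⁻¹ - i / zz X) * TT X (X / y) i ≤ (i + 1 : ℝ) * TT X X (i + 1) := by
  have hz : 0 < zz X := Real.exp_pos _
  rw [symA_TT, TT, sum_filter, mul_sum]
  refine sum_le_sum fun T hT => ?_
  have hT0 := symA_inv T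
  split_ifs with h1
  · have a1 := sum_inter_add_sum_sdiff (PS (zz X) y) T fun p => (p : ℝ)⁻¹
    have a2 := sum_le_card_nsmul (PS (zz X) y ∩ T) (fun p => (p : ℝ)⁻¹) (zz X)⁻¹ fun p hp =>
      inv_anti₀ hz (mem_PS.1 (mem_inter.1 hp).1).2.1.le
    have a3 : (#(PS (zz X) y ∩ T) : ℝ) ≤ i := by
      rw [← (mem_powersetCard.1 hT).2]
      exact_mod_cast card_le_card inter_subset_right
    have a4 := mul_le_mul_of_nonneg_right a3 (inv_pos.2 hz).le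
    rw [nsmul_eq_mul] at a2
    refine (mul_le_mul_of_nonneg_right (show _ ≤ ∑ p ∈ PS (zz X) y \ T, (p : ℝ)⁻¹ by
      rw [div_eq_mul_inv]; linarith only [a1, a2, a4]) hT0).trans ?_
    rw [sum_mul]
    refine le_trans (le_of_eq (sum_congr rfl fun q hq => ?_)) (sum_le_sum_of_subset_of_nonneg
      (sdiff_subset_sdiff (PS_mono le_rfl h) subset_rfl) fun q _ _ => by split_ifs <;> positivity)
    rw [if_pos]
    rw [le_div_iff₀' h0] at h1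
    exact (mul_le_mul_of_nonneg_right (mem_PS.1 (mem_sdiff.1 hq).1).2.2
      (Nat.cast_nonneg _)).trans h1
  · rw [mul_zero]
    exact sum_nonneg fun q _ => by split_ifs <;> positivity

lemma symA_log {y y' : ℝ} {S : Finset ℕ} (hS : S ⊆ PS y y') :
    0 < ((∏ p ∈ S, p : ℕ) : ℝ) ∧ Real.log ((∏ p ∈ S, p : ℕ) : ℝ) = ∑ q ∈ S, Real.log q := by
  have h : ∀ p ∈ S, 0 < p := fun p hp => (mem_PS.1 (hS hp)).1.pos
  refine ⟨by exact_mod_cast prod_pos h, ?_⟩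
  rw [Nat.cast_prod, Real.log_prod fun p hp => by exact_mod_cast (h p hp).ne']

lemma TT_win {X : ℕ} (hX : 2 ≤ X) {y : ℝ} (h0 : 0 < y) (h1 : (X : ℝ) ≤ y ^ 2) (h2 : y ≤ X) (i : ℕ) :
    TT X X (i + 1) - TT X y (i + 1)
      ≤ (2 * (Real.log X - Real.log y) + 60) / Real.log X * e3 X i := by
  have hX1 : (1 : ℝ) < X := by exact_mod_cast hX
  have hl := Real.log_pos hX1
  have hy : Real.log X ≤ 2 * Real.log y := by
    simpa using Real.log_le_log (by linarith only [hX1]) h1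
  have e := symA_dc (PS (zz X) X) i fun S q =>
    if y < ((∏ p ∈ S, p : ℕ) : ℝ) ∧ ((∏ p ∈ S, p : ℕ) : ℝ) ≤ X then
      (∏ p ∈ S, (p : ℝ)⁻¹) * Real.log q else 0
  have a1 : Real.log X * (TT X X (i + 1) - TT X y (i + 1)) ≤ 2 *
      ∑ S ∈ (PS (zz X) X).powersetCard (i + 1), ∑ q ∈ S,
        if y < ((∏ p ∈ S, p : ℕ) : ℝ) ∧ ((∏ p ∈ S, p : ℕ) : ℝ) ≤ X then
          (∏ p ∈ S, (p : ℝ)⁻¹) * Real.log q else 0 := by
    rw [TT, TT, sum_filter, sum_filter, ← sum_sub_distrib, mul_sum, mul_sum]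
    refine sum_le_sum fun S hS => ?_
    have hS0 := symA_inv S
    obtain ⟨-, b2⟩ := symA_log (mem_powersetCard.1 hS).1
    by_cases c : y < ((∏ p ∈ S, p : ℕ) : ℝ) ∧ ((∏ p ∈ S, p : ℕ) : ℝ) ≤ X
    · simp only [if_pos c, if_pos c.2, if_neg (not_le.2 c.1), sub_zero, ← mul_sum, ← b2]
      linarith only [hy, h0, c, hS0, mul_le_mul_of_nonneg_left (hy.trans (mul_le_mul_of_nonneg_left
        (Real.log_le_log h0 c.1.le) zero_le_two)) hS0]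
    · simp only [if_neg c, sum_const_zero, mul_zero]
      refine mul_nonpos_of_nonneg_of_nonpos hl.le ?_
      split_ifs with c1 c2
      · rw [sub_self]
      · exact absurd ⟨not_le.1 c2, c1⟩ c
      · linarith
      · rw [sub_self]
  have a2 : ∑ T ∈ (PS (zz X) X).powersetCard i, ∑ q ∈ PS (zz X) X \ T,
      (if y < ((∏ p ∈ insert q T, p : ℕ) : ℝ) ∧ ((∏ p ∈ insert q T, p : ℕ) : ℝ) ≤ X then
        (∏ p ∈ insert q T, (p : ℝ)⁻¹) * Real.log q else 0) ≤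
      (Real.log X - Real.log y + 30) * e3 X i := by
    rw [e3, esym, mul_sum]
    refine sum_le_sum fun T hT => ?_
    have hT0 := symA_inv T
    obtain ⟨b1, -⟩ := symA_log (mem_powersetCard.1 hT).1
    have b3 := sum_log_PS (div_pos h0 b1) (div_le_div_of_nonneg_right h2 b1.le)
    rw [Real.log_div (by linarith only [hX1]) b1.ne', Real.log_div h0.ne' b1.ne', sub_sub_sub_cancel_right]
      at b3
    refine le_trans ?_ (mul_le_mul_of_nonneg_right b3 hT0)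
    rw [← sum_filter, sum_mul]
    refine le_trans (le_of_eq (sum_congr rfl fun q hq => ?_)) (sum_le_sum_of_subset_of_nonneg
      (fun q hq => ?_) fun q _ _ => mul_nonneg (div_nonneg (Real.log_natCast_nonneg q)
        (Nat.cast_nonneg _)) hT0)
    · rw [prod_insert (mem_sdiff.1 (mem_filter.1 hq).1).2]
      ring
    · obtain ⟨q1, q2⟩ := mem_filter.1 hq
      rw [prod_insert (mem_sdiff.1 q1).2, Nat.cast_mul] at q2
      exact mem_PS.2 ⟨(mem_PS.1 (mem_sdiff.1 q1).1).1, (div_lt_iff₀ b1).2 q2.1,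
        (le_div_iff₀ b1).2 q2.2⟩
  rw [e] at a1
  rw [div_mul_eq_mul_div, le_div_iff₀ hl]
  linarith only [a1, a2]

lemma TT_low {X : ℕ} (hX : 2 ≤ X) {y : ℝ} (h0 : 1 ≤ y) (h : y ≤ X) (i : ℕ) :
    esym (PS (zz X) y) (fun p => (p : ℝ)⁻¹) (i + 1)
        - (Real.log y + 30) / Real.log X * esym (PS (zz X) y) (fun p => (p : ℝ)⁻¹) i
      ≤ TT X X (i + 1) := by
  have hX1 : (1 : ℝ) < X := by exact_mod_cast hX
  have hl := Real.log_pos hX1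
  have hz : 1 ≤ zz X := Real.one_le_exp (Real.rpow_nonneg hl.le _)
  have a1 := symA_wt (I := PS (zz X) y) (ν := fun p => (p : ℝ)⁻¹) (w := fun p => Real.log p)
    (fun p _ => by positivity) (fun p _ => Real.log_natCast_nonneg p) i
  have a2 : ∑ p ∈ PS (zz X) y, (p : ℝ)⁻¹ * Real.log p ≤ Real.log y + 30 := by
    have := sum_log_PS one_pos h0
    rw [Real.log_one, sub_zero] at this
    simp only [inv_mul_eq_div]
    exact (sum_le_sum_of_subset_of_nonneg (PS_mono hz le_rfl) fun q _ _ =>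
      div_nonneg (Real.log_natCast_nonneg q) (Nat.cast_nonneg _)).trans this
  have a3 := a1.trans (mul_le_mul_of_nonneg_right a2
    (esym_nonneg (fun p _ => by positivity) i))
  have a4 : ∑ S ∈ (PS (zz X) y).powersetCard (i + 1),
      (if ((∏ p ∈ S, p : ℕ) : ℝ) ≤ X then ∏ p ∈ S, (p : ℝ)⁻¹ else 0) ≤ TT X X (i + 1) := by
    rw [TT, sum_filter]
    exact sum_le_sum_of_subset_of_nonneg (powersetCard_mono (PS_mono le_rfl h)) fun S _ _ => by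
      split_ifs
      · exact symA_inv S
      · exact le_rfl
  have a5 : Real.log X * esym (PS (zz X) y) (fun p => (p : ℝ)⁻¹) (i + 1) ≤
      Real.log X * ∑ S ∈ (PS (zz X) y).powersetCard (i + 1),
        (if ((∏ p ∈ S, p : ℕ) : ℝ) ≤ X then ∏ p ∈ S, (p : ℝ)⁻¹ else 0) +
      ∑ S ∈ (PS (zz X) y).powersetCard (i + 1), (∏ p ∈ S, (p : ℝ)⁻¹) * ∑ q ∈ S, Real.log q := by
    rw [esym, mul_sum, mul_sum, ← sum_add_distrib]
    refine sum_le_sum fun S hS => ?_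
    have hS0 := symA_inv S
    obtain ⟨-, b2⟩ := symA_log (mem_powersetCard.1 hS).1
    rw [← b2]
    split_ifs with c
    · exact le_add_of_nonneg_right (mul_nonneg hS0 (Real.log_natCast_nonneg _))
    · rw [mul_zero, zero_add, mul_comm]
      exact mul_le_mul_of_nonneg_left (Real.log_le_log (by linarith only [hX1]) (not_le.1 c).le) hS0
  rw [sub_le_comm, div_mul_eq_mul_div, le_div_iff₀ hl]
  linarith only [a3, a5, a4, hl, mul_le_mul_of_nonneg_left a4 hl.le]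


end Pool.Agent.Work.MP_51e72e_nt.TE
end

-- merged part: Pool.Agent.Work.MP_51e72e_nt.TEModA
section
/-! The model sums are expectations. -/

set_option autoImplicit false
open Finset Filter Topology
open Pool.Agent.Work.MP_678620_nt

namespace Pool.Agent.Work.MP_51e72e_nt.TE

lemma modA_abs {s : Finset ℕ} (bad : ℕ → Prop) [DecidablePred bad] {F lo hi : ℕ → ℝ} {M : ℝ}
    (h0 : ∀ n ∈ s, 0 ≤ F n) (hM : ∀ n ∈ s, F n ≤ M) (hlo : ∀ n ∈ s, lo n ≤ M)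
    (hhi : ∀ n ∈ s, 0 ≤ hi n) (hg : ∀ n ∈ s, ¬ bad n → lo n ≤ F n ∧ F n ≤ hi n) :
    ∑ n ∈ s, lo n - M * ((s.filter bad).card : ℝ) ≤ ∑ n ∈ s, F n ∧
      ∑ n ∈ s, F n ≤ ∑ n ∈ s, hi n + M * ((s.filter bad).card : ℝ) := by
  have e : M * ((s.filter bad).card : ℝ) = ∑ n ∈ s, if bad n then M else 0 := by
    rw [← sum_filter, sum_const, nsmul_eq_mul, mul_comm]
  rw [e, ← sum_sub_distrib, ← sum_add_distrib]
  refine ⟨sum_le_sum fun n hn => ?_, sum_le_sum fun n hn => ?_⟩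
  · by_cases hb : bad n
    · rw [if_pos hb]
      have := h0 n hn
      have := hlo n hn
      linarith
    · rw [if_neg hb, sub_zero]
      exact (hg n hn hb).1
  · by_cases hb : bad n
    · rw [if_pos hb]
      have := hM n hn
      have := hhi n hn
      linarith
    · rw [if_neg hb, add_zero]
      exact (hg n hn hb).2

lemma modA_gz {X : ℕ} (hl : 0 ≤ Real.log X) (he : ∀ i, e3 X i ≤ Real.log X) (k0 : ℕ) (y : ℝ)
    (k : ℕ) (Z : Finset ℕ) :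
    0 ≤ gz X k0 (TT X y) k Z ∧ gz X k0 (TT X y) k Z ≤ Real.log X := by
  unfold gz
  split_ifs
  · exact ⟨TT_nonneg _ _ _, (TT_le_e3 _ _ _).trans (he _)⟩
  · exact ⟨le_rfl, hl⟩

lemma modA_log : ∀ᶠ X : ℕ in atTop, 6 ≤ Real.log X :=
  (Real.tendsto_log_atTop.comp tendsto_natCast_atTop_atTop).eventually_ge_atTop 6

lemma modA_kub2 {a₁ b₁ a₂ b₂ : ℤ} (hF : Frm a₁ b₁ a₂ b₂) (B : ℕ) : ∀ᶠ X : ℕ in atTop,
    ∀ (k0 k₁ k₂ : ℕ) (y : ℝ),
    |∑ n ∈ Icc 1 X, (Vz (zz X))⁻¹ ^ 2 * (gz X k0 (TT X y) k₁ (ZZ (zz X) (val a₁ b₁ n)) *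
        gz X k0 (TT X y) k₂ (ZZ (zz X) (val a₂ b₂ n)))
      - X * ((Vz (zz X))⁻¹ ^ 2 * Ex2 a₁ b₁ a₂ b₂ X k0 (TT X y) k₁ k₂)|
      ≤ Real.log X ^ 4 * (X / Real.log X ^ B) := by
  filter_upwards [kub2 hF.cop₁ hF.cop₂ B, modA_log, e3_le, Vz_inv_le] with X hk hl he hV k0 k₁ k₂ y
  have hl0 : 0 < Real.log X := by linarith only [hl]
  have hl2 : 0 < Real.log X ^ 2 := pow_pos hl0 2
  have hV0 : 0 ≤ (Vz (zz X))⁻¹ := (inv_pos.2 (Vz_pos _)).le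
  have h := hk (fun Z₁ Z₂ => gz X k0 (TT X y) k₁ Z₁ * gz X k0 (TT X y) k₂ Z₂ / Real.log X ^ 2)
    (fun Z₁ Z₂ => by
      obtain ⟨p1, p2⟩ := modA_gz hl0.le he k0 y k₁ Z₁
      obtain ⟨q1, q2⟩ := modA_gz hl0.le he k0 y k₂ Z₂
      rw [abs_of_nonneg (div_nonneg (mul_nonneg p1 q1) hl2.le), div_le_one hl2, sq]
      exact mul_le_mul p2 q2 q1 hl0.le)
  have e : ∑ n ∈ Icc 1 X, (Vz (zz X))⁻¹ ^ 2 * (gz X k0 (TT X y) k₁ (ZZ (zz X) (val a₁ b₁ n)) *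
        gz X k0 (TT X y) k₂ (ZZ (zz X) (val a₂ b₂ n)))
      - X * ((Vz (zz X))⁻¹ ^ 2 * Ex2 a₁ b₁ a₂ b₂ X k0 (TT X y) k₁ k₂) =
      ((Vz (zz X))⁻¹ ^ 2 * Real.log X ^ 2) *
      (∑ n ∈ Icc 1 X, gz X k0 (TT X y) k₁ (ZZ (zz X) (val a₁ b₁ n)) *
          gz X k0 (TT X y) k₂ (ZZ (zz X) (val a₂ b₂ n)) / Real.log X ^ 2
        - X * ∑ Z₁ ∈ (PS 0 (zz X)).powerset, ∑ Z₂ ∈ (PS 0 (zz X)).powerset,
          PZ a₁ b₁ a₂ b₂ (PS 0 (zz X)) Z₁ Z₂ *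
            (gz X k0 (TT X y) k₁ Z₁ * gz X k0 (TT X y) k₂ Z₂ / Real.log X ^ 2)) := by
    simp only [← mul_div_assoc, ← sum_div, ← mul_sum]
    unfold Ex2
    field_simp
  rw [e, abs_mul, abs_of_nonneg (mul_nonneg (pow_nonneg hV0 2) hl2.le)]
  refine mul_le_mul ?_ h (abs_nonneg _) (pow_nonneg hl0.le 4)
  have := mul_le_mul_of_nonneg_right (pow_le_pow_left₀ hV0 hV 2) hl2.le
  linarith only [this, show Real.log X ^ 2 * Real.log X ^ 2 = Real.log X ^ 4 by ring]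

lemma modA_kub1 (B : ℕ) : ∀ᶠ X : ℕ in atTop, ∀ (k : ℕ) (y : ℝ),
    |∑ n ∈ Icc 1 X, (Vz (zz X))⁻¹ * gz X 0 (TT X y) k (ZZ (zz X) n)
      - X * ((Vz (zz X))⁻¹ * Ex1 X (TT X y) k)| ≤ Real.log X ^ 2 * (X / Real.log X ^ B) := by
  filter_upwards [kub1 B, modA_log, e3_le, Vz_inv_le] with X hk hl he hV k y
  have hl0 : 0 < Real.log X := by linarith only [hl]
  have hV0 : 0 ≤ (Vz (zz X))⁻¹ := (inv_pos.2 (Vz_pos _)).le
  have h := hk (fun Z => gz X 0 (TT X y) k Z / Real.log X)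
    (fun Z => by
      obtain ⟨p1, p2⟩ := modA_gz hl0.le he 0 y k Z
      rw [abs_of_nonneg (div_nonneg p1 hl0.le), div_le_one hl0]
      exact p2)
  have e : ∑ n ∈ Icc 1 X, (Vz (zz X))⁻¹ * gz X 0 (TT X y) k (ZZ (zz X) n)
      - X * ((Vz (zz X))⁻¹ * Ex1 X (TT X y) k) =
      ((Vz (zz X))⁻¹ * Real.log X) *
      (∑ n ∈ Icc 1 X, gz X 0 (TT X y) k (ZZ (zz X) n) / Real.log X
        - X * ∑ Z ∈ (PS 0 (zz X)).powerset,
          P1 (PS 0 (zz X)) Z * (gz X 0 (TT X y) k Z / Real.log X)) := by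
    simp only [← mul_div_assoc, ← sum_div, ← mul_sum]
    unfold Ex1
    field_simp
  rw [e, abs_mul, abs_of_nonneg (mul_nonneg hV0 hl0.le)]
  refine mul_le_mul ?_ h (abs_nonneg _) (pow_nonneg hl0.le 2)
  rw [sq]
  exact mul_le_mul_of_nonneg_right hV hl0.le

lemma modA_num {l x : ℝ} (hl : 6 ≤ l) (hx : 0 ≤ x) (B : ℕ) :
    33 * l ^ 4 * (x / l ^ (B + 6)) ≤ x / l ^ B := by
  have hl0 : 0 < l := by linarith
  have e : 33 * l ^ 4 * (x / l ^ (B + 6)) = (33 / l ^ 2) * (x / l ^ B) := by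
    field_simp
    ring
  rw [e]
  refine mul_le_of_le_one_left (div_nonneg hx (pow_pos hl0 B).le) ?_
  rw [div_le_one (pow_pos hl0 2)]
  linarith only [hl, mul_nonneg_of_nonpos_of_nonpos (Mathlib.Tactic.Linarith.sub_nonpos_of_le hl) (Mathlib.Tactic.Linarith.sub_nonpos_of_le hl)]

lemma modA_typ {V g g' F : ℝ} (hV : 0 < V) (h : g ≤ V * F ∧ V * F ≤ g') :
    V⁻¹ * g ≤ F ∧ F ≤ V⁻¹ * g' :=
  ⟨(inv_mul_le_iff₀ hV).2 h.1, (le_inv_mul_iff₀ hV).2 h.2⟩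

theorem modA2 {a₁ b₁ a₂ b₂ : ℤ} (hF : Frm a₁ b₁ a₂ b₂) (B : ℕ) : ∀ᶠ X : ℕ in atTop,
    ∀ k0 k₁ k₂ : ℕ,
    X * ((Vz (zz X))⁻¹ ^ 2 * Ex2 a₁ b₁ a₂ b₂ X k0 (TT X (X / YY X ^ 3)) k₁ k₂) - X / Real.log X ^ B
        ≤ ∑ n ∈ Icc 1 X, Ff X k0 k₁ (val a₁ b₁ n) * Ff X k0 k₂ (val a₂ b₂ n) ∧
      ∑ n ∈ Icc 1 X, Ff X k0 k₁ (val a₁ b₁ n) * Ff X k0 k₂ (val a₂ b₂ n)
        ≤ X * ((Vz (zz X))⁻¹ ^ 2 * Ex2 a₁ b₁ a₂ b₂ X k0 (TT X X) k₁ k₂) + X / Real.log X ^ B := by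
  filter_upwards [modA_kub2 hF (B + 6), modA_log, e3_le, Vz_inv_le, F_bound, val_le a₁ b₁,
    val_le a₂ b₂, Ff_typ, exc_card hF.pos₁ hF.cop₁ (B + 6), exc_card hF.pos₂ hF.cop₂ (B + 6)]
    with X hk hl he hV hFb hv₁ hv₂ hT hx₁ hx₂ k0 k₁ k₂
  have hl0 : 0 < Real.log X := by linarith only [hl]
  have hVp := Vz_pos (zz X)
  have hV0 : 0 ≤ (Vz (zz X))⁻¹ := (inv_pos.2 hVp).le
  have hl4 : 0 < Real.log X ^ 4 := pow_pos hl0 4
  have hg := modA_gz hl0.le he k0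
  have key := modA_abs (s := Icc 1 X)
    (fun n => ¬ Typ X (val a₁ b₁ n) ∨ ¬ Typ X (val a₂ b₂ n))
    (F := fun n => Ff X k0 k₁ (val a₁ b₁ n) * Ff X k0 k₂ (val a₂ b₂ n))
    (lo := fun n => (Vz (zz X))⁻¹ ^ 2 *
      (gz X k0 (TT X (X / YY X ^ 3)) k₁ (ZZ (zz X) (val a₁ b₁ n)) *
        gz X k0 (TT X (X / YY X ^ 3)) k₂ (ZZ (zz X) (val a₂ b₂ n))))
    (hi := fun n => (Vz (zz X))⁻¹ ^ 2 * (gz X k0 (TT X X) k₁ (ZZ (zz X) (val a₁ b₁ n)) *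
        gz X k0 (TT X X) k₂ (ZZ (zz X) (val a₂ b₂ n))))
    (M := 16 * Real.log X ^ 4)
    (fun n hn => mul_nonneg (hFb k0 k₁ _ (hv₁ n hn)).2.2.1 (hFb k0 k₂ _ (hv₂ n hn)).2.2.1)
    (fun n hn => by
      have := mul_le_mul (hFb k0 k₁ _ (hv₁ n hn)).2.2.2 (hFb k0 k₂ _ (hv₂ n hn)).2.2.2
        (hFb k0 k₂ _ (hv₂ n hn)).2.2.1 (by positivity)
      linarith only [this, show 4 * Real.log X ^ 2 * (4 * Real.log X ^ 2) = 16 * Real.log X ^ 4 by ring])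
    (fun n _ => by
      obtain ⟨p1, p2⟩ := hg (X / YY X ^ 3) k₁ (ZZ (zz X) (val a₁ b₁ n))
      obtain ⟨q1, q2⟩ := hg (X / YY X ^ 3) k₂ (ZZ (zz X) (val a₂ b₂ n))
      have := mul_le_mul (pow_le_pow_left₀ hV0 hV 2) (mul_le_mul p2 q2 q1 hl0.le)
        (mul_nonneg p1 q1) (pow_nonneg hl0.le 2)
      linarith only [hl4, this, show Real.log X ^ 2 * (Real.log X * Real.log X) = Real.log X ^ 4 by ring])
    (fun n _ => mul_nonneg (pow_nonneg hV0 2) (mul_nonneg (hg _ _ _).1 (hg _ _ _).1))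
    (fun n hn hb => by
      rw [not_or, not_not, not_not] at hb
      obtain ⟨p1, p2⟩ := modA_typ hVp (hT k0 k₁ _ hb.1)
      obtain ⟨q1, q2⟩ := modA_typ hVp (hT k0 k₂ _ hb.2)
      have f1 := (hFb k0 k₁ _ (hv₁ n hn)).2.2.1
      have f2 := (hFb k0 k₂ _ (hv₂ n hn)).2.2.1
      have r1 := mul_le_mul p1 q1 (mul_nonneg hV0 (hg _ _ _).1) f1
      have r2 := mul_le_mul p2 q2 f2 (f1.trans p2)
      constructor
      · refine le_of_eq_of_le ?_ r1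
        ring
      · refine r2.trans_eq ?_
        ring)
  have hc : (((Icc 1 X).filter fun n => ¬ Typ X (val a₁ b₁ n) ∨ ¬ Typ X (val a₂ b₂ n)).card : ℝ)
      ≤ 2 * (X / Real.log X ^ (B + 6)) := by
    rw [filter_or]
    have : ((((Icc 1 X).filter fun n => ¬ Typ X (val a₁ b₁ n)) ∪
        ((Icc 1 X).filter fun n => ¬ Typ X (val a₂ b₂ n))).card : ℝ) ≤
        (((Icc 1 X).filter fun n => ¬ Typ X (val a₁ b₁ n)).card : ℝ) +
        (((Icc 1 X).filter fun n => ¬ Typ X (val a₂ b₂ n)).card : ℝ) := by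
      exact_mod_cast card_union_le _ _
    linarith only [hx₁, hx₂, this]
  have hc' := mul_le_mul_of_nonneg_left hc (show 0 ≤ 16 * Real.log X ^ 4 by positivity)
  have hn := modA_num hl (Nat.cast_nonneg X) B
  have k1 := abs_le.1 (hk k0 k₁ k₂ (X / YY X ^ 3))
  have k2 := abs_le.1 (hk k0 k₁ k₂ X)
  constructor
  · linarith only [key, hc', hn, k1, key.1, k1.1]
  · linarith only [key, hc', hn, k2, key.2, k2.2]

theorem modA1 (B : ℕ) : ∀ᶠ X : ℕ in atTop, ∀ k : ℕ,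
    X * ((Vz (zz X))⁻¹ * Ex1 X (TT X (X / YY X ^ 3)) k) - X / Real.log X ^ B
        ≤ ∑ n ∈ Icc 1 X, Ff X 0 k n ∧
      ∑ n ∈ Icc 1 X, Ff X 0 k n ≤ X * ((Vz (zz X))⁻¹ * Ex1 X (TT X X) k) + X / Real.log X ^ B := by
  filter_upwards [modA_kub1 (B + 6), modA_log, e3_le, Vz_inv_le, F_bound, val_le 1 0,
    Ff_typ, exc_card (a := 1) (b := 0) one_pos isCoprime_one_left (B + 6)]
    with X hk hl he hV hFb hv hT hx k
  simp only [val_one] at hv hx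
  have hl0 : 0 < Real.log X := by linarith only [hl]
  have hVp := Vz_pos (zz X)
  have hV0 : 0 ≤ (Vz (zz X))⁻¹ := (inv_pos.2 hVp).le
  have hl2 : 0 < Real.log X ^ 2 := pow_pos hl0 2
  have hg := modA_gz hl0.le he 0
  have key := modA_abs (s := Icc 1 X) (fun n => ¬ Typ X n) (F := fun n => Ff X 0 k n)
    (lo := fun n => (Vz (zz X))⁻¹ * gz X 0 (TT X (X / YY X ^ 3)) k (ZZ (zz X) n))
    (hi := fun n => (Vz (zz X))⁻¹ * gz X 0 (TT X X) k (ZZ (zz X) n))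
    (M := 4 * Real.log X ^ 2)
    (fun n hn => (hFb 0 k _ (hv n hn)).2.2.1)
    (fun n hn => (hFb 0 k _ (hv n hn)).2.2.2)
    (fun n _ => by
      obtain ⟨p1, p2⟩ := hg (X / YY X ^ 3) k (ZZ (zz X) n)
      have := mul_le_mul hV p2 p1 hl0.le
      linarith only [hl2, this, show Real.log X * Real.log X = Real.log X ^ 2 by ring])
    (fun n _ => mul_nonneg hV0 (hg _ _ _).1)
    (fun n _ hb => modA_typ hVp (hT 0 k _ (not_not.1 hb)))
  have hc' := mul_le_mul_of_nonneg_left hx (show 0 ≤ 4 * Real.log X ^ 2 by positivity)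
  have hn := modA_num hl (Nat.cast_nonneg X) B
  have k1 := abs_le.1 (hk k (X / YY X ^ 3))
  have k2 := abs_le.1 (hk k X)
  have h24 : Real.log X ^ 2 ≤ Real.log X ^ 4 :=
    pow_le_pow_right₀ (by linarith only [hl]) (by norm_num)
  have hd : 0 ≤ (X : ℝ) / Real.log X ^ (B + 6) :=
    div_nonneg (Nat.cast_nonneg X) (pow_pos hl0 _).le
  have h5 := mul_le_mul_of_nonneg_right h24 hd
  have h6 := mul_nonneg hl2.le hd
  constructor
  · linarith only [key, hc', hn, k1, h5, key.1, k1.1]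
  · linarith only [key, hc', hn, k1, k2, h5, key.2, k2.2]

end Pool.Agent.Work.MP_51e72e_nt.TE
end
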