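import Pool.Agent.Work.MP_51e72e_nt.TEDefs

/-! Numerical lemmas. -/

set_option autoImplicit false
open Finset Filter Topology
open Pool.Agent.Work.MP_678620_nt

namespace Pool.Agent.Work.MP_51e72e_nt.TE

lemma log_tendsto : Tendsto (fun X : ℕ => Real.log X) atTop atTop :=
  Real.tendsto_log_atTop.comp tendsto_natCast_atTop_atTop

lemma LL_tendsto : Tendsto LL atTop atTop :=
  Real.tendsto_log_atTop.comp log_tendsto

lemma uu_pos {X : ℕ} (h : 0 < LL X) (j : ℕ) : 0 < uu X j := by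
  unfold uu; positivity

lemma uu_succ (X j : ℕ) : (j + 1 : ℝ) * uu X (j + 1) = LL X * uu X j := by
  unfold uu
  rw [Nat.factorial_succ, pow_succ]
  push_cast
  have : (j.factorial : ℝ) ≠ 0 := by positivity
  field_simp

lemma uu_shift {X : ℕ} {A : ℝ} (h : 0 < LL X) {j i : ℕ} (hj : ((j + i : ℕ) : ℝ) ≤ A * LL X) :
    uu X j ≤ A ^ i * uu X (j + i) := by
  induction i with
  | zero => simp
  | succ i ih =>
    have h1 : ((j + i : ℕ) : ℝ) + 1 ≤ A * LL X := by push_cast at hj ⊢; linarith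
    have h0 : (0 : ℝ) ≤ ((j + i : ℕ) : ℝ) := Nat.cast_nonneg _
    have hA : 0 ≤ A := by
      by_contra hA
      nlinarith only [h1, h, hA, not_le.1 hA]
    have h2 := ih (by linarith)
    have h3 := uu_succ X (j + i)
    have h4 := uu_pos h (j + i + 1)
    have h5 : uu X (j + i) ≤ A * uu X (j + i + 1) := by
      refine le_of_mul_le_mul_left ?_ h
      rw [← h3]
      nlinarith only [h1, h4]
    calc uu X j ≤ A ^ i * uu X (j + i) := h2
      _ ≤ A ^ i * (A * uu X (j + i + 1)) := by gcongr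
      _ = _ := by rw [pow_succ, mul_assoc]; rfl

lemma uu_lower (A : ℕ) : ∀ᶠ X : ℕ in atTop, ∀ j : ℕ, (j : ℝ) ≤ A * LL X →
    1 / Real.log X ^ (A ^ 2) ≤ uu X j := by
  filter_upwards [LL_tendsto.eventually_ge_atTop 1, log_tendsto.eventually_ge_atTop 1] with
    X h1 h2 j hj
  have h0 : 0 < LL X := by linarith
  have h3 := uu_shift (A := A) h0 (j := 0) (i := j) (by simpa using hj)
  have h4 : uu X 0 = 1 := by simp [uu]
  rw [h4, zero_add] at h3
  have h5 : (A : ℝ) ^ j ≤ Real.log X ^ (A ^ 2) := by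
    calc (A : ℝ) ^ j ≤ Real.exp A ^ j := by
          gcongr; linarith [Real.add_one_le_exp (A : ℝ)]
      _ = Real.exp (j * A) := by rw [← Real.exp_nat_mul]
      _ ≤ Real.exp (((A ^ 2 : ℕ) : ℝ) * LL X) := by
          apply Real.exp_le_exp.2
          push_cast
          nlinarith only [hj, (Nat.cast_nonneg A : (0 : ℝ) ≤ A)]
      _ = _ := by rw [Real.exp_nat_mul, LL, Real.exp_log (by linarith)]
  rw [div_le_iff₀ (by positivity)]
  have := uu_pos h0 j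
  nlinarith only [h3, h5, this]

lemma pow_le_uu {X : ℕ} {c A s : ℝ} (h : 0 < LL X) (hc : 0 ≤ c) {j : ℕ} (hj : (j : ℝ) ≤ A * LL X)
    (hs0 : 0 ≤ s) (hs : s ≤ LL X + c) : s ^ j / j.factorial ≤ Real.exp (c * A) * uu X j := by
  unfold uu
  rw [← mul_div_assoc]
  gcongr
  have h1 : s ≤ Real.exp (c / LL X) * LL X := by
    have := Real.add_one_le_exp (c / LL X)
    calc s ≤ (c / LL X + 1) * LL X := by field_simp; linarith
      _ ≤ _ := by gcongr
  calc s ^ j ≤ (Real.exp (c / LL X) * LL X) ^ j := by gcongr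
    _ = Real.exp (j * (c / LL X)) * LL X ^ j := by rw [mul_pow, ← Real.exp_nat_mul]
    _ ≤ _ := by
      refine mul_le_mul_of_nonneg_right (Real.exp_le_exp.2 ?_) (by positivity)
      rw [← mul_div_assoc, div_le_iff₀ h]
      nlinarith only [hc, hj]

lemma le_pow_uu {X : ℕ} {c A s : ℝ} (h : 0 < LL X) (hc : 0 ≤ c) (hc' : 2 * c ≤ LL X) {j : ℕ}
    (hj : (j : ℝ) ≤ A * LL X) (hs : LL X - c ≤ s) :
    Real.exp (-(2 * c * A)) * uu X j ≤ s ^ j / j.factorial := by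
  unfold uu
  rw [← mul_div_assoc]
  gcongr
  have ht0 : 0 ≤ c / LL X := by positivity
  have ht : c / LL X ≤ 1 / 2 := by rw [div_le_iff₀ h]; linarith only [hc']
  have h1 : Real.exp (-(2 * (c / LL X))) * LL X ≤ s := by
    have h2 := Real.add_one_le_exp (2 * (c / LL X))
    have h3 : Real.exp (-(2 * (c / LL X))) ≤ 1 - c / LL X := by
      rw [Real.exp_neg, inv_le_comm₀ (Real.exp_pos _) (by linarith only [ht])]
      refine le_trans ?_ h2
      rw [inv_le_iff_one_le_mul₀ (by linarith only [ht])]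
      nlinarith only [ht0, ht]
    calc _ ≤ (1 - c / LL X) * LL X := by gcongr
      _ = LL X - c := by field_simp
      _ ≤ s := hs
  calc _ ≤ Real.exp (j * (-(2 * (c / LL X)))) * LL X ^ j := by
        gcongr
        have : (j : ℝ) * (c / LL X) ≤ c * A := by
          rw [← mul_div_assoc, div_le_iff₀ h]; nlinarith only [hc, hj]
        linarith only [this]
    _ = (Real.exp (-(2 * (c / LL X))) * LL X) ^ j := by rw [mul_pow, ← Real.exp_nat_mul]
    _ ≤ _ := by gcongr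

lemma PS_eq_Ioc {y : ℝ} (hy : 0 ≤ y) (y' : ℝ) : PS y y' = (Ioc ⌊y⌋₊ ⌊y'⌋₊).filter Nat.Prime := by
  ext p
  unfold PS
  simp only [mem_filter, mem_Icc, mem_Ioc, Nat.floor_lt hy]
  constructor
  · rintro ⟨⟨_, h2⟩, h3, h4⟩
    exact ⟨⟨h4, h2⟩, h3⟩
  · rintro ⟨⟨h1, h2⟩, h3⟩
    exact ⟨⟨h3.one_le, h2⟩, h3, h1⟩

lemma log_floor_ge {y : ℝ} (hy : 1 ≤ y) : Real.log y - Real.log 2 ≤ Real.log ⌊y⌋₊ := by
  have h1 : (1 : ℝ) ≤ ⌊y⌋₊ := by exact_mod_cast Nat.le_floor (by simpa using hy)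
  have h2 := Nat.lt_floor_add_one y
  rw [← Real.log_div (by linarith) (by norm_num)]
  exact Real.log_le_log (by linarith) (by linarith)

lemma loglog_floor {y : ℝ} (hy : 2 ≤ y) : Real.log y ≤ 2 * Real.log ⌊y⌋₊ ∧
    0 ≤ Real.log (Real.log y) - Real.log (Real.log ⌊y⌋₊) ∧
    Real.log (Real.log y) - Real.log (Real.log ⌊y⌋₊) ≤ Real.log 2 / Real.log ⌊y⌋₊ := by
  have h1 : (2 : ℝ) ≤ ⌊y⌋₊ := by exact_mod_cast Nat.le_floor (by simpa using hy)
  have h2 : (⌊y⌋₊ : ℝ) ≤ y := Nat.floor_le (by linarith)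
  have h3 := log_floor_ge (y := y) (by linarith)
  have h4 : Real.log 2 ≤ Real.log ⌊y⌋₊ := Real.log_le_log (by norm_num) h1
  have h5 : 0 < Real.log 2 := Real.log_pos (by norm_num)
  have h6 : Real.log ⌊y⌋₊ ≤ Real.log y := Real.log_le_log (by linarith) h2
  refine ⟨by linarith, sub_nonneg.2 (Real.log_le_log (by linarith) h6), ?_⟩
  rw [← Real.log_div (by linarith) (by linarith)]
  refine (Real.log_le_sub_one_of_pos (by apply div_pos <;> linarith)).trans ?_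
  rw [div_sub_one (by linarith)]
  exact div_le_div_of_nonneg_right (by linarith) (by linarith)

lemma sum_PS {y y' : ℝ} (hy : 2 ≤ y) (h : y ≤ y') :
    |∑ p ∈ PS y y', (p : ℝ)⁻¹ - (Real.log (Real.log y') - Real.log (Real.log y))|
      ≤ 100 / Real.log y := by
  rw [PS_eq_Ioc (by linarith)]
  have h1 : 2 ≤ ⌊y⌋₊ := Nat.le_floor (by simpa using hy)
  have h1' : (2 : ℝ) ≤ ⌊y⌋₊ := by exact_mod_cast h1
  have h2 := Lib.ANT.abs_sum_inv_prime_Ioc_sub_le ⌊y⌋₊ ⌊y'⌋₊ h1 (Nat.floor_le_floor h)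
  obtain ⟨a1, a2, a3⟩ := loglog_floor hy
  obtain ⟨-, b2, b3⟩ := loglog_floor (hy.trans h)
  have h4 : 0 < Real.log ⌊y⌋₊ := Real.log_pos (by linarith only [h1'])
  have h5 : Real.log 2 / Real.log ⌊y'⌋₊ ≤ Real.log 2 / Real.log ⌊y⌋₊ := by
    gcongr
  have h6 : Real.log 2 / Real.log ⌊y⌋₊ ≤ 1 / Real.log ⌊y⌋₊ := by
    gcongr; linarith only [Real.log_two_lt_d9]
  have h7 : 50 / Real.log ⌊y⌋₊ ≤ 100 / Real.log y := by
    rw [div_le_div_iff₀ h4 (Real.log_pos (by linarith only [hy]))]; linarith only [a1]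
  have h8 : 50 / Real.log ⌊y⌋₊ = 48 / Real.log ⌊y⌋₊ + 1 / Real.log ⌊y⌋₊ + 1 / Real.log ⌊y⌋₊ := by
    ring
  have h9 : 0 ≤ 1 / Real.log ⌊y⌋₊ := by positivity
  rw [abs_le] at h2 ⊢
  constructor <;> linarith only [h2, a2, a3, b3, h5, h6, h7, h8, b2, h2.1, h2.2]

lemma sum_PS0 {y : ℝ} (hy : 2 ≤ y) :
    |∑ p ∈ PS 0 y, (p : ℝ)⁻¹ - Real.log (Real.log y)| ≤ 73 := by
  rw [PS_eq_Ioc le_rfl, Nat.floor_zero]
  have h1 : 2 ≤ ⌊y⌋₊ := Nat.le_floor (by simpa using hy)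
  have h1' : (2 : ℝ) ≤ ⌊y⌋₊ := by exact_mod_cast h1
  have h2 := Lib.ANT.abs_sum_inv_prime_sub_loglog_le ⌊y⌋₊ h1
  obtain ⟨-, a2, a3⟩ := loglog_floor hy
  have h4 : Real.log 2 / Real.log ⌊y⌋₊ ≤ 1 := by
    rw [div_le_one (Real.log_pos (by linarith only [h1']))]
    exact Real.log_le_log (by norm_num) h1'
  rw [abs_le] at h2 ⊢
  constructor <;> linarith only [h2, a3, h4, a2, h2.1, h2.2]

lemma sum_log_PS0 {y : ℝ} (hy : 1 ≤ y) : Real.log y - 15 ≤ ∑ p ∈ PS 0 y, Real.log p / p ∧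
    ∑ p ∈ PS 0 y, Real.log p / p ≤ Real.log y + 14 := by
  rw [PS_eq_Ioc le_rfl, Nat.floor_zero]
  have h1 : 1 ≤ ⌊y⌋₊ := Nat.le_floor (by simpa using hy)
  have h2 := Lib.ANT.abs_sum_log_div_prime_sub_log_le ⌊y⌋₊ h1
  have h3 := log_floor_ge hy
  have h4 : Real.log ⌊y⌋₊ ≤ Real.log y :=
    Real.log_le_log (by exact_mod_cast h1) (Nat.floor_le (by linarith only [hy]))
  rw [abs_le] at h2
  constructor <;> linarith only [h2, h3, h4, h2.1, h2.2, Real.log_two_lt_d9]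

lemma sum_log_PS {y y' : ℝ} (hy : 0 < y) (h : y ≤ y') :
    ∑ p ∈ PS y y', Real.log p / p ≤ Real.log y' - Real.log y + 30 := by
  have h0 : Real.log y ≤ Real.log y' := Real.log_le_log hy h
  have hU : ∑ p ∈ PS 0 y', Real.log p / p
      = ∑ p ∈ PS 0 y, Real.log p / p + ∑ p ∈ PS y y', Real.log p / p := by
    rw [PS_union hy.le h, sum_union (PS_disj _ _ _)]
  rcases lt_or_ge y' 1 with h1 | h1
  · have : PS y y' = ∅ := by
      ext p
      simp only [mem_PS, notMem_empty, iff_false]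
      rintro ⟨h2, -, h3⟩
      have : (1 : ℝ) ≤ p := by exact_mod_cast h2.one_le
      linarith
    rw [this, sum_empty]; linarith
  have h2 := (sum_log_PS0 h1).2
  rcases lt_or_ge y 1 with h3 | h3
  · have h4 : 0 ≤ ∑ p ∈ PS 0 y, Real.log p / p :=
      sum_nonneg fun p _ => div_nonneg (Real.log_natCast_nonneg p) (Nat.cast_nonneg p)
    have h5 : Real.log y ≤ 0 := Real.log_nonpos hy.le h3.le
    linarith only [hy, hU, h2, h3, h4, h5]
  · have h4 := (sum_log_PS0 h3).1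
    linarith only [hU, h2, h4]

lemma sum_n2_sq {P₀ : ℕ} (h : 3 ≤ P₀) (y : ℝ) : ∑ p ∈ PS P₀ y, n2 p ^ 2 ≤ 4 / P₀ := by
  have h3 : (3 : ℝ) ≤ P₀ := by exact_mod_cast h
  have key : ∀ M : ℕ, ∑ p ∈ Ioc P₀ (P₀ + M), n2 p ^ 2 ≤ 1 / (P₀ - 2 : ℝ) - 1 / (P₀ + M - 2 : ℝ) := by
    intro M
    induction M with
    | zero => simp
    | succ M ih =>
      rw [← add_assoc, sum_Ioc_succ_top (by omega)]
      have hM : (0 : ℝ) ≤ M := Nat.cast_nonneg M
      have : n2 (P₀ + M + 1) ^ 2 ≤ 1 / (P₀ + M - 2 : ℝ) - 1 / (P₀ + (M + 1 : ℕ) - 2 : ℝ) := by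
        unfold n2
        push_cast
        rw [div_sub_div _ _ (by linarith only [h3]) (by linarith), inv_pow, inv_eq_one_div,
          div_le_div_iff₀ (by nlinarith) (by apply mul_pos <;> linarith)]
        nlinarith only [h3]
      linarith only [ih, this]
  calc _ ≤ ∑ p ∈ Ioc P₀ (P₀ + ⌊y⌋₊), n2 p ^ 2 := by
        refine sum_le_sum_of_subset_of_nonneg ?_ fun _ _ _ => sq_nonneg _
        intro p hp
        rw [PS_eq_Ioc (by linarith), Nat.floor_natCast, mem_filter, mem_Ioc] at hp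
        rw [mem_Ioc]; omega
    _ ≤ 1 / (P₀ - 2 : ℝ) := by
        have h1 := key ⌊y⌋₊
        have h2 : (0 : ℝ) ≤ 1 / (P₀ + ⌊y⌋₊ - 2 : ℝ) := by
          apply div_nonneg zero_le_one
          linarith only [h3, (Nat.cast_nonneg ⌊y⌋₊ : (0 : ℝ) ≤ _)]
        linarith only [h1, h2]
    _ ≤ _ := by
        rw [div_le_div_iff₀ (by linarith) (by linarith)]; linarith

lemma n_le {P₀ : ℕ} (h : 2 ≤ P₀) {y : ℝ} {p : ℕ} (hp : p ∈ PS P₀ y) :
    0 ≤ (p : ℝ)⁻¹ ∧ (p : ℝ)⁻¹ ≤ n1 p ∧ n1 p ≤ n2 p ∧ n1 p ≤ (P₀ : ℝ)⁻¹ ∧ n2 p - n1 p ≤ n2 p ^ 2 ∧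
      n2 p - (p : ℝ)⁻¹ ≤ 2 * n2 p ^ 2 := by
  have h1 : P₀ < p := by exact_mod_cast (mem_PS.1 hp).2.1
  have h2 : (P₀ : ℝ) + 1 ≤ p := by exact_mod_cast h1
  have h3 : (2 : ℝ) ≤ P₀ := by exact_mod_cast h
  unfold n1 n2
  have e0 : (0 : ℝ) < p := by linarith only [h2, h3]
  have e1 : (0 : ℝ) < p - 1 := by linarith
  have e2 : (0 : ℝ) < p - 2 := by linarith
  refine ⟨by positivity, inv_anti₀ e1 (by linarith), inv_anti₀ e2 (by linarith),
    inv_anti₀ (by linarith) (by linarith), ?_, ?_⟩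
  · have : ((p : ℝ) - 2)⁻¹ - ((p : ℝ) - 1)⁻¹ = ((p : ℝ) - 2)⁻¹ * ((p : ℝ) - 1)⁻¹ := by
      field_simp; ring
    rw [this, sq]
    gcongr
    linarith only []
  · have : ((p : ℝ) - 2)⁻¹ - (p : ℝ)⁻¹ = 2 * (((p : ℝ) - 2)⁻¹ * (p : ℝ)⁻¹) := by
      field_simp; ring
    rw [this, sq]
    gcongr
    linarith only []

lemma Vz_inv {y : ℝ} (hy : 2 ≤ y) : (Vz y)⁻¹ ≤ Real.exp 73 * Real.log y := by
  have h1 : 2 ≤ ⌊y⌋₊ := Nat.le_floor (by simpa using hy)
  have h1' : (2 : ℝ) ≤ ⌊y⌋₊ := by exact_mod_cast h1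
  have h2 := Lib.ANT.prod_one_sub_inv_prime_inv_le ⌊y⌋₊ h1
  rw [Vz_eq, PS_eq_Ioc le_rfl, Nat.floor_zero, ← prod_inv_distrib]
  refine h2.trans ?_
  gcongr
  exact Nat.floor_le (by linarith only [hy])

lemma rpow_le_rpow_log (C : ℝ) {c c' : ℝ} (h : c < c') : ∀ᶠ X : ℕ in atTop,
    C * Real.log X ^ c ≤ Real.log X ^ c' := by
  have h1 := ((tendsto_rpow_atTop (sub_pos.2 h)).comp log_tendsto).eventually_ge_atTop C
  filter_upwards [h1, log_tendsto.eventually_gt_atTop 0] with X h1 h2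
  have : Real.log X ^ c' = Real.log X ^ (c' - c) * Real.log X ^ c := by
    rw [← Real.rpow_add h2]; ring_nf
  rw [this]
  exact mul_le_mul_of_nonneg_right h1 (Real.rpow_nonneg h2.le _)

lemma LL_le_rpow (C : ℝ) {c : ℝ} (hc : 0 < c) : ∀ᶠ X : ℕ in atTop,
    C * LL X ≤ Real.log X ^ c := by
  filter_upwards [rpow_le_rpow_log (|C| / (c / 2)) (half_lt_self hc),
    log_tendsto.eventually_ge_atTop 1] with X h1 h2
  have h3 : LL X ≤ Real.log X ^ (c / 2) / (c / 2) :=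
    Real.log_le_rpow_div (by linarith) (half_pos hc)
  have h4 : 0 ≤ LL X := Real.log_nonneg h2
  calc C * LL X ≤ |C| * LL X := by gcongr; exact le_abs_self C
    _ ≤ |C| * (Real.log X ^ (c / 2) / (c / 2)) := by gcongr
    _ = |C| / (c / 2) * Real.log X ^ (c / 2) := by ring
    _ ≤ _ := h1

lemma log_pow_le (C : ℝ) (B : ℕ) {c : ℝ} (hc : 0 < c) : ∀ᶠ X : ℕ in atTop,
    C * Real.log X ^ B ≤ Real.exp (Real.log X ^ c) := by
  filter_upwards [LL_le_rpow (B + 1) hc, log_tendsto.eventually_ge_atTop (max C 1)] with X h1 h2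
  have h3 : 1 ≤ Real.log X := (le_max_right _ _).trans h2
  calc C * Real.log X ^ B ≤ Real.log X * Real.log X ^ B := by
        gcongr; exact (le_max_left _ _).trans h2
    _ = Real.exp (((B + 1 : ℕ) : ℝ) * LL X) := by
        rw [Real.exp_nat_mul, LL, Real.exp_log (by linarith), pow_succ']
    _ ≤ _ := by apply Real.exp_le_exp.2; push_cast; exact h1

lemma scales : ∀ᶠ X : ℕ in atTop, 1 ≤ LL X ∧ 2 ≤ Real.log X ∧ 2 ≤ zz X ∧ zz X < YY X ∧
    YY X ^ 100 ≤ X ∧ Real.log X ≤ zz X ∧ Real.exp (Real.log X ^ (1 / 4 : ℝ)) ≤ zz X := by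
  filter_upwards [LL_tendsto.eventually_ge_atTop 1, log_tendsto.eventually_ge_atTop 2,
    log_pow_le 1 1 (show (0 : ℝ) < 24 / 25 by norm_num),
    rpow_le_rpow_log 100 (show (99 / 100 : ℝ) < 1 by norm_num), eventually_gt_atTop 0] with
    X h1 h2 h3 h4 h5
  have h6 : Real.log X ≤ zz X := by simpa [zz] using h3
  refine ⟨h1, h2, h2.trans h6, ?_, ?_, h6, ?_⟩
  · exact Real.exp_lt_exp.2 (Real.rpow_lt_rpow_of_exponent_lt (by linarith only [h2]) (by norm_num))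
  · rw [YY, ← Real.exp_nat_mul]
    rw [Real.rpow_one] at h4
    calc _ ≤ Real.exp (Real.log X) := Real.exp_le_exp.2 (by exact_mod_cast h4)
      _ = X := Real.exp_log (by exact_mod_cast h5)
  · exact Real.exp_le_exp.2 (Real.rpow_le_rpow_of_exponent_le (by linarith only [h2]) (by norm_num))

lemma loglog_exp {X : ℕ} (h : 0 < Real.log X) (c : ℝ) :
    Real.log (Real.log (Real.exp (Real.log X ^ c))) = c * LL X := by
  rw [Real.log_exp, Real.log_rpow h, LL]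

lemma EE_ok : ∀ᶠ X : ℕ in atTop, Eok X (1 / 8) (EE X) ∧ LL X / 10 ≤ ∑ p ∈ EE X, (p : ℝ)⁻¹ := by
  filter_upwards [LL_tendsto.eventually_ge_atTop 4000, log_tendsto.eventually_ge_atTop 1] with
    X h1 h2
  have h3 : 1 ≤ Real.log X ^ (1 / 8 : ℝ) := Real.one_le_rpow h2 (by norm_num)
  have h4 : 2 ≤ Real.exp (Real.log X ^ (1 / 8 : ℝ)) := by
    linarith only [h3, Real.add_one_le_exp (Real.log X ^ (1 / 8 : ℝ))]
  have h5 := sum_PS h4 (y' := Real.exp (Real.log X ^ (1 / 4 : ℝ)))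
    (Real.exp_le_exp.2 (Real.rpow_le_rpow_of_exponent_le h2 (by norm_num)))
  rw [loglog_exp (by linarith only [h2]), loglog_exp (by linarith only [h2]), Real.log_exp] at h5
  have h6 : 100 / Real.log X ^ (1 / 8 : ℝ) ≤ 100 := div_le_self (by norm_num) h3
  have h7 : LL X / 10 ≤ ∑ p ∈ EE X, (p : ℝ)⁻¹ := by
    have := (abs_le.1 h5).1
    unfold EE
    linarith only [h1, h6, this]
  exact ⟨⟨fun p hp => (mem_PS.1 hp).1, fun p hp => (mem_PS.1 hp).2.1.le,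
    fun p hp => (mem_PS.1 hp).2.2, by linarith only [h1, h7]⟩, h7⟩

lemma EE_sub (P₀ : ℕ) : ∀ᶠ X : ℕ in atTop, EE X ⊆ PS P₀ (zz X) ∧ (P₀ : ℝ) ≤ zz X := by
  filter_upwards [scales, log_pow_le P₀ 0 (show (0 : ℝ) < 1 / 8 by norm_num),
    log_tendsto.eventually_ge_atTop P₀] with X h1 h2 h3
  exact ⟨PS_mono (by simpa using h2) h1.2.2.2.2.2.2, h3.trans h1.2.2.2.2.2.1⟩

lemma e3_le : ∀ᶠ X : ℕ in atTop, ∀ i, e3 X i ≤ Real.log X := by
  filter_upwards [scales, LL_tendsto.eventually_ge_atTop 200] with X ⟨h1, h2, h3, h4, h5, h6, _⟩ h8 i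
  have hY : 1 ≤ YY X := by linarith
  have h9 : zz X ≤ X := h4.le.trans ((le_self_pow₀ hY (by norm_num)).trans h5)
  have h10 := sum_PS h3 h9
  have h11 : Real.log (Real.log (zz X)) = 24 / 25 * LL X := loglog_exp (by linarith only [h2]) _
  have h12 : 1 ≤ Real.log (zz X) := by
    rw [zz, Real.log_exp]; exact Real.one_le_rpow (by linarith only [h2]) (by norm_num)
  have h13 : 100 / Real.log (zz X) ≤ 100 := div_le_self (by norm_num) h12
  refine (esym_le_exp (fun p _ => by positivity) i).trans ?_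
  calc _ ≤ Real.exp (LL X) := by
        apply Real.exp_le_exp.2
        have := (abs_le.1 h10).2
        rw [h11] at this
        unfold LL at *
        linarith only [h8, h13, this]
    _ = _ := Real.exp_log (by linarith only [h2])

end Pool.Agent.Work.MP_51e72e_nt.TE
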