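import Pool.Agent.Work.MP_51e72e_nt.TEBasic
import Pool.Agent.Work.MP_51e72e_nt.TEExc
import Pool.Agent.Work.MP_678620_nt.MRSW2
import Pool.Agent.Work.MP_51e72e_nt.TEDefs
import Pool.Agent.Work.MP_51e72e_nt.TENum
import Pool.Agent.Work.MP_51e72e_nt.TEPl
import Pool.Agent.Work.MP_51e72e_nt.TEModA

-- merged part: Pool.Agent.Work.MP_51e72e_nt.TETrue
section
/-! The true weights count integers. -/

set_option autoImplicit false
open Finset Filter Topology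
open Pool.Agent.Work.MP_678620_nt

namespace Pool.Agent.Work.MP_51e72e_nt.TE

/-- Indicator of the smooth numbers with `i` prime factors. -/
noncomputable def trB (z : ℝ) (i b : ℕ) : ℂ := if Smo z b ∧ om b = i then 1 else 0

lemma trB_norm (z : ℝ) (i b : ℕ) : ‖trB z i b‖ ≤ 1 := by
  unfold trB
  split_ifs <;> simp

lemma trB_supp (z : ℝ) (i b : ℕ) (h : trB z i b ≠ 0) : Smo z b := by
  by_contra h1
  exact h (if_neg fun h2 => h1 h2.1)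

lemma tr_split (X k : ℕ) {n : ℕ} (hn : n ≠ 0) :
    ((Fg X 0 k n - Ff X 0 k n : ℝ) : ℂ) = ∑ i ∈ range k,
      (conv (trB (zz X) i) (gam (zz X) 1 (ww (zz X) (k - 1 - i))) n -
        conv (trB (zz X) i) (flat (zz X) 1 (ww (zz X) (k - 1 - i))) n) := by
  have hc : om (sp (zz X) n) = (ZZ (zz X) n).card := by rw [om, primeFactors_sp _ hn]
  have h1 : ∀ i ∈ range k,
      (conv (trB (zz X) i) (gam (zz X) 1 (ww (zz X) (k - 1 - i))) n -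
        conv (trB (zz X) i) (flat (zz X) 1 (ww (zz X) (k - 1 - i))) n) =
      if (ZZ (zz X) n).card = i then
        ((gam (zz X) 1 (ww (zz X) (k - 1 - i)) (rp (zz X) n) -
          rhoF (zz X) (ww (zz X) (k - 1 - i)) (rp (zz X) n) : ℝ) : ℂ) else 0 := by
    intro i _
    have hD := dat_ww (trB_norm (zz X) i) (trB_supp (zz X) i) (k - 1 - i)
    rw [conv_eq (trB_supp (zz X) i) (fun m hm => (gam_supp hD m hm).1) hn,
      conv_eq (trB_supp (zz X) i) (fun m hm => (flat_supp m hm).1) hn]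
    have h2 : flat (zz X) 1 (ww (zz X) (k - 1 - i)) (rp (zz X) n) =
        rhoF (zz X) (ww (zz X) (k - 1 - i)) (rp (zz X) n) :=
      if_pos ⟨rou_rp _ hn, Nat.modEq_one⟩
    rw [h2, trB, hc]
    by_cases h : (ZZ (zz X) n).card = i
    · rw [if_pos ⟨smo_sp _ _, h⟩, if_pos h]
      push_cast
      ring
    · rw [if_neg fun h3 => h h3.2, if_neg h]
      ring
  rw [sum_congr rfl h1, sum_ite_eq]
  unfold Fg Ff gz
  by_cases h : (ZZ (zz X) n).card < k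
  · rw [if_pos (mem_range.2 h), if_pos ⟨Nat.zero_le _, h⟩, if_pos ⟨Nat.zero_le _, h⟩]
  · rw [if_neg fun h1 => h (mem_range.1 h1), if_neg fun h1 => h h1.2, if_neg fun h1 => h h1.2]
    simp

theorem op_sum (A B : ℕ) : ∀ᶠ X : ℕ in atTop, ∀ k : ℕ, (k : ℝ) ≤ A * LL X →
    |∑ n ∈ Icc 1 X, (Fg X 0 k n - Ff X 0 k n)| ≤ X / Real.log X ^ B := by
  filter_upwards [sw_dif (B + 1) 1 le_rfl, LL_le_rpow (A : ℝ) (c := 1) one_pos, scales]
    with X hsw hLL hsc k hk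
  obtain ⟨-, hl, -⟩ := hsc
  rw [Real.rpow_one] at hLL
  have hkl : (k : ℝ) ≤ Real.log X := hk.trans hLL
  have l0 : 0 < Real.log X := by linarith only [hl]
  have hXX : X ≤ X ^ 2 := Nat.le_self_pow (by norm_num) X
  have h1 : ∀ i ∈ range k, ‖∑ n ∈ Icc 1 X,
      (conv (trB (zz X) i) (gam (zz X) 1 (ww (zz X) (k - 1 - i))) n -
        conv (trB (zz X) i) (flat (zz X) 1 (ww (zz X) (k - 1 - i))) n)‖
        ≤ X / Real.log X ^ (B + 1) := by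
    intro i _
    have := hsw X hXX hXX _ _ (dat_ww (trB_norm (zz X) i) (trB_supp (zz X) i) (k - 1 - i)) 1 0 X
      le_rfl (by rw [Nat.cast_one]; exact one_le_pow₀ (by linarith only [hl])) (by omega)
    rwa [filter_true_of_mem fun _ _ => Nat.modEq_one] at this
  have h2 : ((∑ n ∈ Icc 1 X, (Fg X 0 k n - Ff X 0 k n) : ℝ) : ℂ) = ∑ i ∈ range k, ∑ n ∈ Icc 1 X,
      (conv (trB (zz X) i) (gam (zz X) 1 (ww (zz X) (k - 1 - i))) n -
        conv (trB (zz X) i) (flat (zz X) 1 (ww (zz X) (k - 1 - i))) n) := by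
    rw [Complex.ofReal_sum, sum_comm]
    exact sum_congr rfl fun n hn => tr_split X k (by have := (mem_Icc.1 hn).1; omega)
  rw [← Real.norm_eq_abs, ← Complex.norm_real, h2]
  refine (norm_sum_le _ _).trans ((sum_le_sum h1).trans ?_)
  rw [sum_const, card_range, nsmul_eq_mul]
  calc (k : ℝ) * (X / Real.log X ^ (B + 1)) ≤ Real.log X * (X / Real.log X ^ (B + 1)) := by
        gcongr
    _ = X / Real.log X ^ B := by
        field_simp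
        ring

lemma tr_aux (s : Finset ℕ) (f : ℕ → ℝ) (p bad : ℕ → Prop) [DecidablePred p] [DecidablePred bad]
    {L ε M : ℝ} (hL : 0 ≤ L) (hε : 0 ≤ ε)
    (h1 : ∀ n ∈ s, ¬ bad n → if p n then |f n - L| ≤ ε * L else f n = 0)
    (h2 : ∀ n ∈ s, |f n| ≤ M) :
    |∑ n ∈ s, f n - L * (s.filter p).card|
      ≤ ε * (L * (s.filter p).card) + (M + L) * (s.filter bad).card := by
  rw [card_filter, card_filter]
  push_cast
  rw [mul_sum, mul_sum, mul_sum, ← sum_sub_distrib, ← sum_add_distrib]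
  refine (abs_sum_le_sum_abs _ _).trans (sum_le_sum fun n hn => ?_)
  have h3 := h2 n hn
  have h4 := mul_nonneg hε hL
  by_cases hb : bad n
  · rw [if_pos hb]
    by_cases hp : p n
    · rw [if_pos hp, mul_one, mul_one]
      have := abs_sub (f n) L
      rw [abs_of_nonneg hL] at this
      linarith
    · rw [if_neg hp]
      simp only [mul_zero, sub_zero, mul_one, zero_add]
      linarith
  · have h5 := h1 n hn hb
    rw [if_neg hb]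
    by_cases hp : p n
    · rw [if_pos hp] at h5 ⊢
      simpa using h5
    · rw [if_neg hp] at h5 ⊢
      simp [h5]

theorem true1 (B : ℕ) {ε : ℝ} (hε : 0 < ε) : ∀ᶠ X : ℕ in atTop, ∀ k : ℕ,
    |∑ n ∈ Icc 1 X, Fg X 0 k n - Real.log X * cnt1 X k|
      ≤ ε * (Real.log X * cnt1 X k) + X / Real.log X ^ B := by
  filter_upwards [exc_card (a := 1) (b := 0) one_pos isCoprime_one_left (B + 5), Fg_typ hε,
    F_bound, scales] with X hE hT hF hsc k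
  obtain ⟨-, hl, -⟩ := hsc
  simp only [val_one] at hE
  have l0 : 0 < Real.log X := by linarith only [hl]
  have h := tr_aux (Icc 1 X) (fun n => Fg X 0 k n) (fun n => om n = k) (fun n => ¬ Typ X n)
    (M := 4 * Real.log X ^ 2) l0.le hε.le (fun n _ hn => by
      have := hT 0 k n (not_not.1 hn)
      simpa using this) (fun n hn => by
      have := hF 0 k n ((mem_Icc.1 hn).2.trans (Nat.le_self_pow (by norm_num) X))
      rw [abs_of_nonneg this.1]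
      exact this.2.1)
  refine h.trans (add_le_add le_rfl ?_)
  have h5 : 4 * Real.log X ^ 2 + Real.log X ≤ Real.log X ^ 5 := by
    have h3 : (2 : ℝ) ^ 3 ≤ Real.log X ^ 3 := pow_le_pow_left₀ (by norm_num) hl 3
    have h4 : Real.log X ≤ Real.log X ^ 2 := by linarith only [hl, mul_nonneg_of_nonpos_of_nonpos (Mathlib.Tactic.Linarith.sub_nonpos_of_le hl) (Mathlib.Tactic.Linarith.sub_nonpos_of_le hl)]
    have h6 : Real.log X ^ 5 = Real.log X ^ 3 * Real.log X ^ 2 := by ring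
    linarith only [hl, h4, h3, sq_nonneg (Real.log X), mul_nonneg_of_nonpos_of_nonpos (Mathlib.Tactic.Linarith.sub_nonpos_of_le (sq_nonneg (Real.log ↑X))) (Mathlib.Tactic.Linarith.sub_nonpos_of_le h3)]
  calc _ ≤ Real.log X ^ 5 * (X / Real.log X ^ (B + 5)) := by gcongr
    _ = X / Real.log X ^ B := by field_simp; ring

lemma tr_mul {x y l ε : ℝ} (hl : 0 ≤ l) (hε : 0 < ε) (hx : |x - l| ≤ min ε 1 / 3 * l)
    (hy : |y - l| ≤ min ε 1 / 3 * l) : |x * y - l ^ 2| ≤ ε * l ^ 2 := by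
  obtain ⟨e, he⟩ : ∃ e, e = min ε 1 / 3 := ⟨_, rfl⟩
  have e0 : 0 < e := by rw [he]; positivity
  have e1 : 3 * e ≤ 1 := by have := min_le_right ε 1; linarith only [he, this]
  have e2 : 3 * e ≤ ε := by have := min_le_left ε 1; linarith only [he, this]
  rw [← he] at hx hy
  have h1 : x * y - l ^ 2 = (x - l) * (y - l) + l * (x - l) + l * (y - l) := by ring
  have h2 : |(x - l) * (y - l)| ≤ (e * l) * (e * l) := by
    rw [abs_mul]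
    gcongr
  have h3 : |l * (x - l)| ≤ l * (e * l) := by
    rw [abs_mul, abs_of_nonneg hl]
    gcongr
  have h4 : |l * (y - l)| ≤ l * (e * l) := by
    rw [abs_mul, abs_of_nonneg hl]
    gcongr
  have h5 := abs_add_three ((x - l) * (y - l)) (l * (x - l)) (l * (y - l))
  have h6 : (e * l) * (e * l) ≤ e * l ^ 2 := by
    have : e * e ≤ e := by linarith only [e0, e1, mul_nonneg_of_nonpos_of_nonpos (le_of_lt (Mathlib.Tactic.Linarith.sub_neg_of_lt e0)) (Mathlib.Tactic.Linarith.sub_nonpos_of_le e1)]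
    linarith only [this, sq_nonneg l, mul_nonneg_of_nonpos_of_nonpos (Mathlib.Tactic.Linarith.sub_nonpos_of_le (sq_nonneg l)) (Mathlib.Tactic.Linarith.sub_nonpos_of_le this)]
  have h7 : 3 * e * l ^ 2 ≤ ε * l ^ 2 := by gcongr
  rw [h1]
  linarith only [h2, h3, h4, h5, h6, h7]

theorem true2 {a₁ b₁ a₂ b₂ : ℤ} (hF : Frm a₁ b₁ a₂ b₂) (B : ℕ) {ε : ℝ} (hε : 0 < ε) :
    ∀ᶠ X : ℕ in atTop, ∀ k0 k₁ k₂ : ℕ,
    |∑ n ∈ Icc 1 X, Fg X k0 k₁ (val a₁ b₁ n) * Fg X k0 k₂ (val a₂ b₂ n)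
        - Real.log X ^ 2 * cntG a₁ b₁ a₂ b₂ X k0 k₁ k₂|
      ≤ ε * (Real.log X ^ 2 * cntG a₁ b₁ a₂ b₂ X k0 k₁ k₂) + X / Real.log X ^ B := by
  filter_upwards [exc_card hF.pos₁ hF.cop₁ (B + 10), exc_card hF.pos₂ hF.cop₂ (B + 10),
    Fg_typ (ε := min ε 1 / 3) (by positivity), F_bound, val_le a₁ b₁, val_le a₂ b₂, scales]
    with X hE1 hE2 hT hB hv1 hv2 hsc k0 k₁ k₂
  obtain ⟨-, hl, -⟩ := hsc
  have l0 : 0 < Real.log X := by linarith only [hl]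
  have h := tr_aux (Icc 1 X) (fun n => Fg X k0 k₁ (val a₁ b₁ n) * Fg X k0 k₂ (val a₂ b₂ n))
    (fun n => om (val a₁ b₁ n) = k₁ ∧ om (val a₂ b₂ n) = k₂ ∧
      k0 ≤ (ZZ (zz X) (val a₁ b₁ n) ∩ EE X).card ∧ k0 ≤ (ZZ (zz X) (val a₂ b₂ n) ∩ EE X).card)
    (fun n => ¬ Typ X (val a₁ b₁ n) ∨ ¬ Typ X (val a₂ b₂ n)) (L := Real.log X ^ 2)
    (M := 16 * Real.log X ^ 4) (by positivity) hε.le (fun n _ hn => by
      rw [not_or, not_not, not_not] at hn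
      have t1 := hT k0 k₁ _ hn.1
      have t2 := hT k0 k₂ _ hn.2
      split_ifs with hc
      · rw [if_pos ⟨hc.1, hc.2.2.1⟩] at t1
        rw [if_pos ⟨hc.2.1, hc.2.2.2⟩] at t2
        exact tr_mul l0.le hε t1 t2
      · by_cases c1 : om (val a₁ b₁ n) = k₁ ∧ k0 ≤ (ZZ (zz X) (val a₁ b₁ n) ∩ EE X).card
        · rw [if_neg fun c2 => hc ⟨c1.1, c2.1, c1.2, c2.2⟩] at t2
          rw [t2, mul_zero]
        · rw [if_neg c1] at t1
          rw [t1, zero_mul]) (fun n hn => by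
      have t1 := hB k0 k₁ _ (hv1 n hn)
      have t2 := hB k0 k₂ _ (hv2 n hn)
      rw [abs_of_nonneg (mul_nonneg t1.1 t2.1)]
      calc _ ≤ (4 * Real.log X ^ 2) * (4 * Real.log X ^ 2) :=
            mul_le_mul t1.2.1 t2.2.1 t2.1 (by positivity)
        _ = _ := by ring)
  refine h.trans (add_le_add le_rfl ?_)
  have hc : (((Icc 1 X).filter fun n => ¬ Typ X (val a₁ b₁ n) ∨ ¬ Typ X (val a₂ b₂ n)).card : ℝ)
      ≤ 2 * (X / Real.log X ^ (B + 10)) := by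
    rw [filter_or]
    have := card_union_le ((Icc 1 X).filter fun n => ¬ Typ X (val a₁ b₁ n))
      ((Icc 1 X).filter fun n => ¬ Typ X (val a₂ b₂ n))
    have h2 : ((((Icc 1 X).filter fun n => ¬ Typ X (val a₁ b₁ n)) ∪
      ((Icc 1 X).filter fun n => ¬ Typ X (val a₂ b₂ n))).card : ℝ) ≤
      (((Icc 1 X).filter fun n => ¬ Typ X (val a₁ b₁ n)).card : ℝ) +
      (((Icc 1 X).filter fun n => ¬ Typ X (val a₂ b₂ n)).card : ℝ) := by exact_mod_cast this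
    linarith only [hE1, hE2, h2]
  have h5 : (16 * Real.log X ^ 4 + Real.log X ^ 2) * 2 ≤ Real.log X ^ 10 := by
    have h3 : (2 : ℝ) ^ 6 ≤ Real.log X ^ 6 := pow_le_pow_left₀ (by norm_num) hl 6
    have h4 : Real.log X ^ 2 ≤ Real.log X ^ 4 :=
      pow_le_pow_right₀ (by linarith only [hl]) (by norm_num)
    have h6 : Real.log X ^ 10 = Real.log X ^ 6 * Real.log X ^ 4 := by ring
    have h7 : 0 ≤ Real.log X ^ 4 := by positivity
    (refine le_of_not_gt fun h_nl => ?_; linarith only [h_nl, h3, h4, mul_nonneg_of_nonpos_of_nonpos (Mathlib.Tactic.Linarith.sub_nonpos_of_le (sq_nonneg (Real.log ↑X))) (Mathlib.Tactic.Linarith.sub_nonpos_of_le h4), mul_nonneg_of_nonpos_of_nonpos (Mathlib.Tactic.Linarith.sub_nonpos_of_le (sq_nonneg (Real.log ↑X))) (le_of_lt (Mathlib.Tactic.Linarith.sub_neg_of_lt h_nl)), mul_nonneg_of_nonpos_of_nonpos (Mathlib.Tactic.Linarith.sub_nonpos_of_le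 h3) (Mathlib.Tactic.Linarith.sub_nonpos_of_le h3)])
  calc _ ≤ (16 * Real.log X ^ 4 + Real.log X ^ 2) * (2 * (X / Real.log X ^ (B + 10))) := by gcongr
    _ = (16 * Real.log X ^ 4 + Real.log X ^ 2) * 2 * (X / Real.log X ^ (B + 10)) := by ring
    _ ≤ Real.log X ^ 10 * (X / Real.log X ^ (B + 10)) := by gcongr
    _ = X / Real.log X ^ B := by field_simp; ring


end Pool.Agent.Work.MP_51e72e_nt.TE
end

-- merged part: Pool.Agent.Work.MP_51e72e_nt.TEMid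
section
/-! The middle primes: removing the side conditions. -/

set_option autoImplicit false
open Finset Filter Topology
open Pool.Agent.Work.MP_678620_nt

namespace Pool.Agent.Work.MP_51e72e_nt.TE

lemma mid_antidiag (τ : ℕ → ℝ) (j a : ℕ) :
    ∑ x ∈ antidiagonal j, (if a = x.1 then τ x.2 else 0) = if a ≤ j then τ (j - a) else 0 := by
  rw [Finset.Nat.sum_antidiagonal_eq_sum_range_succ (fun x y => if a = x then τ y else 0),
    sum_ite_eq]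
  simp only [mem_range, Nat.lt_succ_iff]

lemma cs_eq (I : Finset ℕ) (ν τ : ℕ → ℝ) (k i : ℕ) :
    cs I ν τ k i = ∑ Z ∈ I.powerset, (∏ p ∈ Z, ν p) * gm ∅ 0 τ k i Z := by
  unfold cs gm
  split_ifs with h
  · unfold cv esym
    simp only [powersetCard_eq_filter, sum_filter, sum_mul]
    rw [sum_comm]
    refine sum_congr rfl fun Z _ => ?_
    have h1 : ∀ x : ℕ × ℕ, (if #Z = x.1 then ∏ p ∈ Z, ν p else 0) * τ x.2
        = (∏ p ∈ Z, ν p) * (if #Z = x.1 then τ x.2 else 0) := by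
      intro x
      split_ifs <;> simp
    simp only [h1]
    rw [← mul_sum, mid_antidiag]
    congr 1
    refine if_congr ?_ rfl rfl
    simp only [zero_le, true_and]
    omega
  · refine (sum_eq_zero fun Z _ => ?_).symm
    rw [if_neg (by omega), mul_zero]

lemma mid_gm_nonneg {τ : ℕ → ℝ} (t0 : ∀ i, 0 ≤ τ i) (E : Finset ℕ) (k0 k i : ℕ)
    (Z : Finset ℕ) : 0 ≤ gm E k0 τ k i Z := by
  unfold gm
  split_ifs
  · exact t0 _
  · exact le_rfl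

lemma mid_gm_le {τ : ℕ → ℝ} (t0 : ∀ i, 0 ≤ τ i) (E : Finset ℕ) (k0 k i : ℕ)
    (Z : Finset ℕ) : gm E k0 τ k i Z ≤ gm ∅ 0 τ k i Z := by
  unfold gm
  by_cases h : k0 ≤ (Z ∩ E).card ∧ i + Z.card < k
  · rw [if_pos h, if_pos ⟨Nat.zero_le _, h.2⟩]
  · rw [if_neg h]
    split_ifs
    · exact t0 _
    · exact le_rfl

lemma mid_gm_eq (τ : ℕ → ℝ) {E : Finset ℕ} {k0 : ℕ} (k i : ℕ) {Z : Finset ℕ}
    (h : k0 ≤ (Z ∩ E).card) : gm E k0 τ k i Z = gm ∅ 0 τ k i Z := by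
  unfold gm
  simp only [h, zero_le, true_and]

lemma mid_prod_nonneg {I Z : Finset ℕ} {ν : ℕ → ℝ} (h0 : ∀ p ∈ I, 0 ≤ ν p)
    (hZ : Z ∈ I.powerset) : 0 ≤ ∏ p ∈ Z, ν p :=
  prod_nonneg fun p hp => h0 p (mem_powerset.1 hZ hp)

lemma cs_nonneg {I : Finset ℕ} {ν τ : ℕ → ℝ} (h0 : ∀ p ∈ I, 0 ≤ ν p) (t0 : ∀ i, 0 ≤ τ i)
    (k i : ℕ) : 0 ≤ cs I ν τ k i := by
  rw [cs_eq]
  exact sum_nonneg fun Z hZ => mul_nonneg (mid_prod_nonneg h0 hZ) (mid_gm_nonneg t0 _ _ _ _ _)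

theorem Mid_le {I : Finset ℕ} (E : Finset ℕ) {ν τ : ℕ → ℝ} (h0 : ∀ p ∈ I, 0 ≤ ν p)
    (t0 : ∀ i, 0 ≤ τ i) (k0 k₁ k₂ i₁ i₂ : ℕ) :
    Mid I E ν k0 τ k₁ k₂ i₁ i₂ ≤ cs I ν τ k₁ i₁ * cs I ν τ k₂ i₂ := by
  rw [cs_eq, cs_eq, sum_mul_sum]
  unfold Mid
  refine sum_le_sum fun Z₁ h₁ => sum_le_sum fun Z₂ h₂ => ?_
  have a₁ := mid_prod_nonneg h0 h₁
  have a₂ := mid_prod_nonneg h0 h₂
  have b₁ := mid_gm_nonneg t0 ∅ 0 k₁ i₁ Z₁
  have b₂ := mid_gm_nonneg t0 ∅ 0 k₂ i₂ Z₂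
  split_ifs
  · exact mul_le_mul (mul_le_mul_of_nonneg_left (mid_gm_le t0 _ _ _ _ _) a₁)
      (mul_le_mul_of_nonneg_left (mid_gm_le t0 _ _ _ _ _) a₂)
      (mul_nonneg a₂ (mid_gm_nonneg t0 _ _ _ _ _)) (mul_nonneg a₁ b₁)
  · positivity

lemma mid_prod_hf (E Z : Finset ℕ) (ν : ℕ → ℝ) :
    2 ^ (Z ∩ E).card * ∏ p ∈ Z, hf E ν p = ∏ p ∈ Z, ν p := by
  have h1 : (2 : ℝ) ^ (Z ∩ E).card = ∏ p ∈ Z, if p ∈ E then (2 : ℝ) else 1 := by
    rw [prod_ite_mem, prod_const]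
  rw [h1, ← prod_mul_distrib]
  refine prod_congr rfl fun p _ => ?_
  unfold hf
  split_ifs <;> ring

lemma mid_hf_nonneg {I : Finset ℕ} (E : Finset ℕ) {ν : ℕ → ℝ} (h0 : ∀ p ∈ I, 0 ≤ ν p) :
    ∀ p ∈ I, 0 ≤ hf E ν p := by
  intro p hp
  have := h0 p hp
  unfold hf
  split_ifs <;> linarith only [this]

lemma mid_le_hf {I Z : Finset ℕ} {E : Finset ℕ} {ν : ℕ → ℝ} (h0 : ∀ p ∈ I, 0 ≤ ν p)
    (hZ : Z ∈ I.powerset) {k0 : ℕ} (h : (Z ∩ E).card < k0) :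
    ∏ p ∈ Z, ν p ≤ 2 ^ k0 * ∏ p ∈ Z, hf E ν p := by
  rw [← mid_prod_hf E Z ν]
  exact mul_le_mul_of_nonneg_right (pow_le_pow_right₀ one_le_two h.le)
    (mid_prod_nonneg (mid_hf_nonneg E h0) hZ)

lemma mid_mem_le {I : Finset ℕ} {ν τ : ℕ → ℝ} (h0 : ∀ p ∈ I, 0 ≤ ν p) (t0 : ∀ i, 0 ≤ τ i)
    (k i : ℕ) {p : ℕ} (hp : p ∈ I) :
    ∑ Z ∈ I.powerset, (if p ∈ Z then (∏ q ∈ Z, ν q) * gm ∅ 0 τ k i Z else 0)
      ≤ ν p * cs I ν τ k (i + 1) := by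
  have hI : I = insert p (I.erase p) := (insert_erase hp).symm
  have hn : p ∉ I.erase p := notMem_erase p I
  have h1 : ∑ Z ∈ I.powerset, (if p ∈ Z then (∏ q ∈ Z, ν q) * gm ∅ 0 τ k i Z else 0)
      = ν p * ∑ Z ∈ (I.erase p).powerset, (∏ q ∈ Z, ν q) * gm ∅ 0 τ k (i + 1) Z := by
    conv_lhs => rw [hI]
    rw [sum_powerset_insert hn, sum_eq_zero, zero_add, mul_sum]
    · refine sum_congr rfl fun Z hZ => ?_
      have hZ' : p ∉ Z := fun h => hn (mem_powerset.1 hZ h)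
      rw [if_pos (mem_insert_self p Z), prod_insert hZ', mul_assoc]
      congr 2
      unfold gm
      rw [card_insert_of_notMem hZ']
      simp only [zero_le, true_and]
      refine if_congr (by omega) (congrArg τ (by omega)) rfl
    · intro Z hZ
      exact if_neg fun h => hn (mem_powerset.1 hZ h)
  rw [h1, cs_eq]
  refine mul_le_mul_of_nonneg_left ?_ (h0 p hp)
  exact sum_le_sum_of_subset_of_nonneg (powerset_mono.2 (erase_subset p I)) fun Z hZ _ =>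
    mul_nonneg (mid_prod_nonneg h0 hZ) (mid_gm_nonneg t0 _ _ _ _ _)

theorem le_Mid {I : Finset ℕ} (E : Finset ℕ) {ν τ : ℕ → ℝ} (h0 : ∀ p ∈ I, 0 ≤ ν p)
    (t0 : ∀ i, 0 ≤ τ i) (k0 k₁ k₂ i₁ i₂ : ℕ) :
    cs I ν τ k₁ i₁ * cs I ν τ k₂ i₂
        - (∑ p ∈ I, ν p ^ 2) * (cs I ν τ k₁ (i₁ + 1) * cs I ν τ k₂ (i₂ + 1))
        - 2 ^ k0 * (cs I (hf E ν) τ k₁ i₁ * cs I ν τ k₂ i₂ + cs I ν τ k₁ i₁ * cs I (hf E ν) τ k₂ i₂)
      ≤ Mid I E ν k0 τ k₁ k₂ i₁ i₂ := by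
  set F₁ : Finset ℕ → ℝ := fun Z => (∏ q ∈ Z, ν q) * gm ∅ 0 τ k₁ i₁ Z with hF₁
  set F₂ : Finset ℕ → ℝ := fun Z => (∏ q ∈ Z, ν q) * gm ∅ 0 τ k₂ i₂ Z with hF₂
  set G₁ : Finset ℕ → ℝ := fun Z => (∏ q ∈ Z, hf E ν q) * gm ∅ 0 τ k₁ i₁ Z with hG₁
  set G₂ : Finset ℕ → ℝ := fun Z => (∏ q ∈ Z, hf E ν q) * gm ∅ 0 τ k₂ i₂ Z with hG₂
  have f₁ : ∀ Z ∈ I.powerset, 0 ≤ F₁ Z := fun Z hZ =>
    mul_nonneg (mid_prod_nonneg h0 hZ) (mid_gm_nonneg t0 _ _ _ _ _)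
  have f₂ : ∀ Z ∈ I.powerset, 0 ≤ F₂ Z := fun Z hZ =>
    mul_nonneg (mid_prod_nonneg h0 hZ) (mid_gm_nonneg t0 _ _ _ _ _)
  have g₁ : ∀ Z ∈ I.powerset, 0 ≤ G₁ Z := fun Z hZ =>
    mul_nonneg (mid_prod_nonneg (mid_hf_nonneg E h0) hZ) (mid_gm_nonneg t0 _ _ _ _ _)
  have g₂ : ∀ Z ∈ I.powerset, 0 ≤ G₂ Z := fun Z hZ =>
    mul_nonneg (mid_prod_nonneg (mid_hf_nonneg E h0) hZ) (mid_gm_nonneg t0 _ _ _ _ _)
  have hA : ∑ Z₁ ∈ I.powerset, ∑ Z₂ ∈ I.powerset, ∑ p ∈ I,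
      (if p ∈ Z₁ then F₁ Z₁ else 0) * (if p ∈ Z₂ then F₂ Z₂ else 0)
      ≤ (∑ p ∈ I, ν p ^ 2) * (cs I ν τ k₁ (i₁ + 1) * cs I ν τ k₂ (i₂ + 1)) := by
    have e : ∑ Z₁ ∈ I.powerset, ∑ Z₂ ∈ I.powerset, ∑ p ∈ I,
        (if p ∈ Z₁ then F₁ Z₁ else 0) * (if p ∈ Z₂ then F₂ Z₂ else 0)
        = ∑ p ∈ I, (∑ Z₁ ∈ I.powerset, if p ∈ Z₁ then F₁ Z₁ else 0) *
          (∑ Z₂ ∈ I.powerset, if p ∈ Z₂ then F₂ Z₂ else 0) := by
      simp only [sum_mul_sum]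
      rw [sum_comm (s := I)]
      refine sum_congr rfl fun Z₁ _ => ?_
      rw [sum_comm]
    rw [e, sum_mul]
    refine sum_le_sum fun p hp => ?_
    have b₁ := mid_mem_le h0 t0 k₁ i₁ hp
    have b₂ := mid_mem_le h0 t0 k₂ i₂ hp
    calc _ ≤ (ν p * cs I ν τ k₁ (i₁ + 1)) * (ν p * cs I ν τ k₂ (i₂ + 1)) :=
          mul_le_mul b₁ b₂ (sum_nonneg fun Z hZ => by
            split_ifs
            · exact f₂ Z hZ
            · exact le_rfl) (mul_nonneg (h0 p hp) (cs_nonneg h0 t0 _ _))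
      _ = _ := by ring
  have hB : ∑ Z₁ ∈ I.powerset, ∑ Z₂ ∈ I.powerset, 2 ^ k0 * (G₁ Z₁ * F₂ Z₂ + F₁ Z₁ * G₂ Z₂)
      = 2 ^ k0 * (cs I (hf E ν) τ k₁ i₁ * cs I ν τ k₂ i₂
        + cs I ν τ k₁ i₁ * cs I (hf E ν) τ k₂ i₂) := by
    rw [cs_eq I (hf E ν), cs_eq I (hf E ν), cs_eq I ν τ k₁, cs_eq I ν τ k₂, sum_mul_sum,
      sum_mul_sum, ← sum_add_distrib, mul_sum]
    refine sum_congr rfl fun Z₁ _ => ?_
    rw [← sum_add_distrib, mul_sum]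
  have hC : cs I ν τ k₁ i₁ * cs I ν τ k₂ i₂
      = ∑ Z₁ ∈ I.powerset, ∑ Z₂ ∈ I.powerset, F₁ Z₁ * F₂ Z₂ := by
    rw [cs_eq I ν τ k₁, cs_eq I ν τ k₂, sum_mul_sum]
  have hD : ∑ Z₁ ∈ I.powerset, ∑ Z₂ ∈ I.powerset, F₁ Z₁ * F₂ Z₂
      ≤ Mid I E ν k0 τ k₁ k₂ i₁ i₂ + (∑ Z₁ ∈ I.powerset, ∑ Z₂ ∈ I.powerset, ∑ p ∈ I,
        (if p ∈ Z₁ then F₁ Z₁ else 0) * (if p ∈ Z₂ then F₂ Z₂ else 0))
        + ∑ Z₁ ∈ I.powerset, ∑ Z₂ ∈ I.powerset, 2 ^ k0 * (G₁ Z₁ * F₂ Z₂ + F₁ Z₁ * G₂ Z₂) := by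
    unfold Mid
    rw [← sum_add_distrib, ← sum_add_distrib]
    refine sum_le_sum fun Z₁ h₁ => ?_
    rw [← sum_add_distrib, ← sum_add_distrib]
    refine sum_le_sum fun Z₂ h₂ => ?_
    have a₁ := f₁ Z₁ h₁
    have a₂ := f₂ Z₂ h₂
    have c₁ := g₁ Z₁ h₁
    have c₂ := g₂ Z₂ h₂
    have tn : ∀ p ∈ I, 0 ≤ (if p ∈ Z₁ then F₁ Z₁ else 0) * (if p ∈ Z₂ then F₂ Z₂ else 0) := by
      intro p _
      refine mul_nonneg ?_ ?_ <;> split_ifs <;> first | assumption | exact le_rfl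
    have m0 : 0 ≤ (if Disjoint Z₁ Z₂ then ((∏ p ∈ Z₁, ν p) * gm E k0 τ k₁ i₁ Z₁) *
        ((∏ p ∈ Z₂, ν p) * gm E k0 τ k₂ i₂ Z₂) else 0) := by
      split_ifs
      · exact mul_nonneg (mul_nonneg (mid_prod_nonneg h0 h₁) (mid_gm_nonneg t0 _ _ _ _ _))
          (mul_nonneg (mid_prod_nonneg h0 h₂) (mid_gm_nonneg t0 _ _ _ _ _))
      · exact le_rfl
    have s0 := sum_nonneg tn
    have r₁ : 0 ≤ (2 : ℝ) ^ k0 * (G₁ Z₁ * F₂ Z₂) := by positivity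
    have r₂ : 0 ≤ (2 : ℝ) ^ k0 * (F₁ Z₁ * G₂ Z₂) := by positivity
    rw [mul_add]
    by_cases hd : Disjoint Z₁ Z₂
    · by_cases e₁ : k0 ≤ (Z₁ ∩ E).card
      · by_cases e₂ : k0 ≤ (Z₂ ∩ E).card
        · rw [if_pos hd, mid_gm_eq τ k₁ i₁ e₁, mid_gm_eq τ k₂ i₂ e₂]
          change F₁ Z₁ * F₂ Z₂ ≤ F₁ Z₁ * F₂ Z₂ + _ + _
          linarith only [s0, r₁, r₂]
        · have : F₂ Z₂ ≤ 2 ^ k0 * G₂ Z₂ := by
            simp only [hF₂, hG₂]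
            rw [← mul_assoc]
            exact mul_le_mul_of_nonneg_right (mid_le_hf h0 h₂ (not_le.1 e₂))
              (mid_gm_nonneg t0 _ _ _ _ _)
          have := mul_le_mul_of_nonneg_left this a₁
          linarith only [m0, s0, r₁, this]
      · have : F₁ Z₁ ≤ 2 ^ k0 * G₁ Z₁ := by
          simp only [hF₁, hG₁]
          rw [← mul_assoc]
          exact mul_le_mul_of_nonneg_right (mid_le_hf h0 h₁ (not_le.1 e₁))
            (mid_gm_nonneg t0 _ _ _ _ _)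
        have := mul_le_mul_of_nonneg_right this a₂
        linarith only [m0, s0, r₂, this]
    · obtain ⟨p, p₁, p₂⟩ := not_disjoint_iff.1 hd
      have := single_le_sum tn (mem_powerset.1 h₁ p₁)
      rw [if_pos p₁, if_pos p₂] at this
      linarith only [m0, r₁, r₂, this]
  rw [hC]
  linarith


end Pool.Agent.Work.MP_51e72e_nt.TE
end

-- merged part: Pool.Agent.Work.MP_51e72e_nt.TEModB
section
/-! Factorising the expectations. -/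

set_option autoImplicit false
open Finset Filter Topology
open Pool.Agent.Work.MP_678620_nt

namespace Pool.Agent.Work.MP_51e72e_nt.TE

lemma modB_prod_ge (s : Finset ℕ) (f : ℕ → ℝ) (h : ∀ i ∈ s, 0 ≤ f i ∧ f i ≤ 1) :
    1 - ∑ i ∈ s, f i ≤ ∏ i ∈ s, (1 - f i) := by
  induction s using Finset.induction_on with
  | empty => simp
  | insert a s ha ih =>
    rw [sum_insert ha, prod_insert ha]
    have h1 := h a (mem_insert_self _ _)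
    have h2 := ih fun i hi => h i (mem_insert_of_mem hi)
    have h3 : 0 ≤ ∑ i ∈ s, f i := sum_nonneg fun i hi => (h i (mem_insert_of_mem hi)).1
    have h4 := mul_le_mul_of_nonneg_left h2 (sub_nonneg.2 h1.2)
    have h5 := mul_nonneg h1.1 h3
    linarith only [h4, h5]

lemma modB_left {S M A B : Finset ℕ} (hd : Disjoint S M) (hB : B ⊆ M) {p : ℕ} (hp : p ∈ S) :
    (p ∈ A ∪ B) = (p ∈ A) := by
  have : p ∉ B := fun h => disjoint_left.1 hd hp (hB h)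
  simp [this]

lemma modB_right {S M A B : Finset ℕ} (hd : Disjoint S M) (hA : A ⊆ S) {p : ℕ} (hp : p ∈ M) :
    (p ∈ A ∪ B) = (p ∈ B) := by
  have : p ∉ A := fun h => disjoint_left.1 hd (hA h) hp
  simp [this]

lemma modB_gz {S M A B : Finset ℕ} (hd : Disjoint S M) (hA : A ⊆ S) (hB : B ⊆ M) {X : ℕ}
    (hE : EE X ⊆ M) (k0 : ℕ) (τ : ℕ → ℝ) (k : ℕ) :
    gz X k0 τ k (A ∪ B) = gm (EE X) k0 τ k A.card B := by
  have h1 : (A ∪ B) ∩ EE X = B ∩ EE X := by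
    ext p
    rw [mem_inter, mem_inter]
    exact and_congr_left fun hp => by rw [modB_right hd hA (hE hp)]
  unfold gz gm
  rw [h1, card_union_of_disjoint (hd.mono hA hB), Nat.sub_add_eq]

lemma modB_gz0 {S M A B : Finset ℕ} (hd : Disjoint S M) (hA : A ⊆ S) (hB : B ⊆ M) (X : ℕ)
    (τ : ℕ → ℝ) (k : ℕ) : gz X 0 τ k (A ∪ B) = gm ∅ 0 τ k A.card B := by
  unfold gz gm
  rw [card_union_of_disjoint (hd.mono hA hB), Nat.sub_add_eq]
  simp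

lemma modB_PZ (a₁ b₁ a₂ b₂ : ℤ) {S M A₁ B₁ A₂ B₂ : Finset ℕ} (hd : Disjoint S M) (hA₁ : A₁ ⊆ S)
    (hB₁ : B₁ ⊆ M) (hA₂ : A₂ ⊆ S) (hB₂ : B₂ ⊆ M) :
    PZ a₁ b₁ a₂ b₂ (S ∪ M) (A₁ ∪ B₁) (A₂ ∪ B₂) =
      PZ a₁ b₁ a₂ b₂ S A₁ A₂ * PZ a₁ b₁ a₂ b₂ M B₁ B₂ := by
  unfold PZ
  rw [prod_union hd]
  congr 1
  · exact prod_congr rfl fun p hp => by rw [modB_left hd hB₁ hp, modB_left hd hB₂ hp]
  · exact prod_congr rfl fun p hp => by rw [modB_right hd hA₁ hp, modB_right hd hA₂ hp]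

lemma modB_P1 {S M A B : Finset ℕ} (hd : Disjoint S M) (hA : A ⊆ S) (hB : B ⊆ M) :
    P1 (S ∪ M) (A ∪ B) = P1 S A * P1 M B := by
  unfold P1
  rw [prod_union hd]
  congr 1
  · exact prod_congr rfl fun p hp => by simp only [modB_left hd hB hp]
  · exact prod_congr rfl fun p hp => by simp only [modB_right hd hA hp]

lemma modB_ite {M B : Finset ℕ} (hB : B ⊆ M) (ν : ℕ → ℝ) :
    ∏ p ∈ B, ν p = ∏ p ∈ M, if p ∈ B then ν p else 1 := by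
  rw [prod_ite_mem, inter_eq_right.2 hB]

lemma modB_P1_mid {M B : Finset ℕ} (hM : ∀ p ∈ M, p.Prime) (hB : B ⊆ M) :
    P1 M B = (∏ p ∈ M, (1 - (p : ℝ)⁻¹)) * ∏ p ∈ B, n1 p := by
  rw [modB_ite hB, ← prod_mul_distrib]
  refine prod_congr rfl fun p hp => ?_
  have h2 : (2 : ℝ) ≤ p := by exact_mod_cast (hM p hp).two_le
  split_ifs
  · have h3 : (p : ℝ) - 1 ≠ 0 := (show (0 : ℝ) < p - 1 by linarith).ne'
    have h4 : (p : ℝ) ≠ 0 := by positivity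
    unfold n1
    field_simp
  · rw [mul_one]

lemma modB_PZ_mid {a₁ b₁ a₂ b₂ : ℤ} {M B₁ B₂ : Finset ℕ} (hM : ∀ p ∈ M, p.Prime ∧ 3 ≤ p ∧
      ¬ (p : ℤ) ∣ a₁ * a₂ * (a₁ * b₂ - a₂ * b₁)) (hB₁ : B₁ ⊆ M) (hB₂ : B₂ ⊆ M) :
    PZ a₁ b₁ a₂ b₂ M B₁ B₂ = if Disjoint B₁ B₂ then
      (∏ p ∈ M, (1 - 2 * (p : ℝ)⁻¹)) * ((∏ p ∈ B₁, n2 p) * ∏ p ∈ B₂, n2 p) else 0 := by
  unfold PZ
  split_ifs with hd
  · rw [modB_ite hB₁, modB_ite hB₂, ← prod_mul_distrib, ← prod_mul_distrib]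
    refine prod_congr rfl fun p hp => ?_
    obtain ⟨h1, h2, h3⟩ := hM p hp
    obtain ⟨-, e2, e3, e4⟩ := pl_good h1 h3
    have h5 : (3 : ℝ) ≤ p := by exact_mod_cast h2
    have h6 : (p : ℝ) - 2 ≠ 0 := (show (0 : ℝ) < p - 2 by linarith only [h5]).ne'
    have h7 : (p : ℝ) ≠ 0 := by positivity
    have h8 : (p : ℝ)⁻¹ = (1 - 2 * (p : ℝ)⁻¹) * n2 p := by
      unfold n2
      field_simp
    by_cases p1 : p ∈ B₁
    · have p2 : p ∉ B₂ := disjoint_left.1 hd p1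
      rw [if_pos p1, if_neg p2, eq_true p1, eq_false p2, e2, mul_one]
      exact h8
    · by_cases p2 : p ∈ B₂
      · rw [if_neg p1, if_pos p2, eq_false p1, eq_true p2, e3, one_mul]
        exact h8
      · rw [if_neg p1, if_neg p2, eq_false p1, eq_false p2, e4, mul_one, mul_one]
  · obtain ⟨p, p1, p2⟩ := not_disjoint_iff.1 hd
    obtain ⟨h1, -, h3⟩ := hM p (hB₁ p1)
    refine prod_eq_zero (hB₁ p1) ?_
    rw [eq_true p1, eq_true p2]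
    exact (pl_good h1 h3).1

lemma modB_Vz {P₀ : ℕ} {z : ℝ} (hz : (P₀ : ℝ) ≤ z) :
    Vz z = Vz P₀ * ∏ p ∈ PS P₀ z, (1 - (p : ℝ)⁻¹) := by
  rw [Vz_eq, Vz_eq, PS_union (Nat.cast_nonneg P₀) hz, prod_union (PS_disj _ _ _)]

lemma modB_W_ne (y z : ℝ) : ∏ p ∈ PS y z, (1 - (p : ℝ)⁻¹) ≠ 0 := by
  refine prod_ne_zero_iff.2 fun p hp => ?_
  have h2 : (1 : ℝ) < p := by exact_mod_cast (mem_PS.1 hp).1.one_lt
  exact (sub_pos.2 (inv_lt_one_of_one_lt₀ h2)).ne'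

theorem modB2 {a₁ b₁ a₂ b₂ : ℤ} (hF : Frm a₁ b₁ a₂ b₂) {P₀ X : ℕ} (h3 : 3 ≤ P₀)
    (hP : (a₁ * a₂ * (a₁ * b₂ - a₂ * b₁)).natAbs ≤ P₀) (hz : (P₀ : ℝ) ≤ zz X)
    (hE : EE X ⊆ PS P₀ (zz X)) : ∃ R : ℝ, 1 - 4 / (P₀ : ℝ) ≤ R ∧ R ≤ 1 ∧
    ∀ (k0 : ℕ) (τ : ℕ → ℝ) (k₁ k₂ : ℕ),
    (Vz (zz X))⁻¹ ^ 2 * Ex2 a₁ b₁ a₂ b₂ X k0 τ k₁ k₂ = R * ((Vz P₀)⁻¹ ^ 2 *
      ∑ Z₁ ∈ (PS 0 P₀).powerset, ∑ Z₂ ∈ (PS 0 P₀).powerset, PZ a₁ b₁ a₂ b₂ (PS 0 P₀) Z₁ Z₂ *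
        Mid (PS P₀ (zz X)) (EE X) n2 k0 τ k₁ k₂ Z₁.card Z₂.card) := by
  have hd := PS_disj 0 P₀ (zz X)
  have hP3 : (3 : ℝ) ≤ P₀ := by exact_mod_cast h3
  have hn : ∀ p ∈ PS P₀ (zz X), (0 ≤ n1 p ^ 2 ∧ n1 p ^ 2 ≤ 1) ∧ n1 p ^ 2 ≤ n2 p ^ 2 := by
    intro p hp
    obtain ⟨c1, c2, c3, c4, -⟩ := n_le (by omega) hp
    have c5 : (P₀ : ℝ)⁻¹ ≤ 1 := inv_le_one_of_one_le₀ (by linarith only [hP3])
    have c6 : 0 ≤ n1 p := c1.trans c2
    exact ⟨⟨sq_nonneg _, pow_le_one₀ c6 (c4.trans c5)⟩, pow_le_pow_left₀ c6 c3 2⟩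
  have hM : ∀ p ∈ PS P₀ (zz X), p.Prime ∧ 3 ≤ p ∧
      ¬ (p : ℤ) ∣ a₁ * a₂ * (a₁ * b₂ - a₂ * b₁) := by
    intro p hp
    obtain ⟨c1, c2, -⟩ := mem_PS.1 hp
    have c3 : P₀ < p := by exact_mod_cast c2
    refine ⟨c1, by omega, fun h => ?_⟩
    have c4 : a₁ * a₂ * (a₁ * b₂ - a₂ * b₁) ≠ 0 :=
      mul_ne_zero (mul_ne_zero hF.pos₁.ne' hF.pos₂.ne') (sub_ne_zero.2 hF.det)
    have c5 := Nat.le_of_dvd (Int.natAbs_pos.2 c4) (Int.natCast_dvd.1 h)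
    omega
  have hW : ∏ p ∈ PS P₀ (zz X), (1 - 2 * (p : ℝ)⁻¹) =
      (∏ p ∈ PS P₀ (zz X), (1 - n1 p ^ 2)) * (∏ p ∈ PS P₀ (zz X), (1 - (p : ℝ)⁻¹)) ^ 2 := by
    rw [← prod_pow, ← prod_mul_distrib]
    refine prod_congr rfl fun p hp => ?_
    have h5 : (3 : ℝ) ≤ p := by exact_mod_cast (hM p hp).2.1
    have h6 : (p : ℝ) - 1 ≠ 0 := (show (0 : ℝ) < p - 1 by linarith only [h5]).ne'
    have h7 : (p : ℝ) ≠ 0 := by positivity
    unfold n1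
    field_simp
    ring
  refine ⟨∏ p ∈ PS P₀ (zz X), (1 - n1 p ^ 2), ?_, ?_, fun k0 τ k₁ k₂ => ?_⟩
  · refine le_trans ?_ (modB_prod_ge _ _ fun p hp => (hn p hp).1)
    have h1 := sum_le_sum fun p hp => (hn p hp).2
    have h2 := sum_n2_sq h3 (zz X)
    linarith only [h1, h2]
  · exact prod_le_one (fun p hp => sub_nonneg.2 (hn p hp).1.2)
      fun p hp => sub_le_self _ (hn p hp).1.1
  · have key : Ex2 a₁ b₁ a₂ b₂ X k0 τ k₁ k₂ = (∏ p ∈ PS P₀ (zz X), (1 - 2 * (p : ℝ)⁻¹)) *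
        ∑ Z₁ ∈ (PS 0 P₀).powerset, ∑ Z₂ ∈ (PS 0 P₀).powerset, PZ a₁ b₁ a₂ b₂ (PS 0 P₀) Z₁ Z₂ *
          Mid (PS P₀ (zz X)) (EE X) n2 k0 τ k₁ k₂ Z₁.card Z₂.card := by
      unfold Ex2 Mid
      rw [PS_union (Nat.cast_nonneg P₀) hz, sum_powerset_union hd, mul_sum]
      refine sum_congr rfl fun A₁ hA₁ => ?_
      simp only [sum_powerset_union hd]
      rw [sum_comm, mul_sum]
      refine sum_congr rfl fun A₂ hA₂ => ?_
      rw [mul_sum, mul_sum]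
      refine sum_congr rfl fun B₁ hB₁ => ?_
      rw [mul_sum, mul_sum]
      refine sum_congr rfl fun B₂ hB₂ => ?_
      rw [mem_powerset] at hA₁ hA₂ hB₁ hB₂
      rw [modB_PZ _ _ _ _ hd hA₁ hB₁ hA₂ hB₂, modB_PZ_mid hM hB₁ hB₂, modB_gz hd hA₁ hB₁ hE,
        modB_gz hd hA₂ hB₂ hE]
      split_ifs
      · ring
      · ring
    have hne := modB_W_ne P₀ (zz X)
    rw [key, hW, modB_Vz hz, mul_inv, mul_pow]
    generalize ∏ p ∈ PS P₀ (zz X), (1 - (p : ℝ)⁻¹) = W at hne ⊢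
    have h1 : W⁻¹ ^ 2 * W ^ 2 = 1 := by rw [← mul_pow, inv_mul_cancel₀ hne, one_pow]
    linear_combination ((∏ p ∈ PS P₀ (zz X), (1 - n1 p ^ 2)) * ((Vz P₀)⁻¹ ^ 2 *
      ∑ Z₁ ∈ (PS 0 P₀).powerset, ∑ Z₂ ∈ (PS 0 P₀).powerset, PZ a₁ b₁ a₂ b₂ (PS 0 P₀) Z₁ Z₂ *
        Mid (PS P₀ (zz X)) (EE X) n2 k0 τ k₁ k₂ Z₁.card Z₂.card)) * h1

theorem modB1 {P₀ X : ℕ} (hz : (P₀ : ℝ) ≤ zz X) (τ : ℕ → ℝ) (k : ℕ) :
    (Vz (zz X))⁻¹ * Ex1 X τ k = (Vz P₀)⁻¹ *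
      ∑ Z ∈ (PS 0 P₀).powerset, P1 (PS 0 P₀) Z * cs (PS P₀ (zz X)) n1 τ k Z.card := by
  have hd := PS_disj 0 P₀ (zz X)
  have key : Ex1 X τ k = (∏ p ∈ PS P₀ (zz X), (1 - (p : ℝ)⁻¹)) *
      ∑ Z ∈ (PS 0 P₀).powerset, P1 (PS 0 P₀) Z * cs (PS P₀ (zz X)) n1 τ k Z.card := by
    unfold Ex1
    rw [PS_union (Nat.cast_nonneg P₀) hz, sum_powerset_union hd, mul_sum]
    refine sum_congr rfl fun A hA => ?_
    rw [cs_eq, mul_sum, mul_sum]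
    refine sum_congr rfl fun B hB => ?_
    rw [mem_powerset] at hA hB
    rw [modB_P1 hd hA hB, modB_P1_mid (fun p hp => (mem_PS.1 hp).1) hB, modB_gz0 hd hA hB]
    ring
  have hne := modB_W_ne P₀ (zz X)
  rw [key, modB_Vz hz, mul_inv, mul_assoc, inv_mul_cancel_left₀ hne]


end Pool.Agent.Work.MP_51e72e_nt.TE
end

-- merged part: Pool.Agent.Work.MP_51e72e_nt.TESymB
section
/-! Order of magnitude of the symmetric sums. -/

set_option autoImplicit false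
open Finset Filter Topology
open Pool.Agent.Work.MP_678620_nt

namespace Pool.Agent.Work.MP_51e72e_nt.TE

lemma symB_zz_le : ∀ᶠ X : ℕ in atTop, zz X ≤ X := by
  filter_upwards [scales] with X hX
  obtain ⟨-, -, h1, h2, h3, -⟩ := hX
  have h4 : YY X ≤ YY X ^ 100 := le_self_pow₀ (by linarith) (by norm_num)
  linarith

lemma symB_total {P₀ : ℕ} (hP : 3 ≤ P₀) : ∀ᶠ X : ℕ in atTop,
    ∑ p ∈ PS P₀ (zz X), n2 p + ∑ p ∈ PS (zz X) X, (p : ℝ)⁻¹ ≤ LL X + 76 := by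
  filter_upwards [symB_zz_le, EE_sub P₀, eventually_ge_atTop 2] with X h1 h2 h3
  have hP' : (3 : ℝ) ≤ P₀ := by exact_mod_cast hP
  have a1 : ∑ p ∈ PS P₀ (zz X), n2 p ≤
      ∑ p ∈ PS P₀ (zz X), (p : ℝ)⁻¹ + 2 * ∑ p ∈ PS P₀ (zz X), n2 p ^ 2 := by
    rw [mul_sum, ← sum_add_distrib]
    refine sum_le_sum fun p hp => ?_
    have := (n_le (by omega) hp).2.2.2.2.2
    linarith only [this]
  have a2 := sum_n2_sq hP (zz X)
  have a3 : (4 : ℝ) / P₀ ≤ 4 / 3 := by gcongr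
  have a4 : ∑ p ∈ PS P₀ (zz X), (p : ℝ)⁻¹ + ∑ p ∈ PS (zz X) X, (p : ℝ)⁻¹ ≤
      ∑ p ∈ PS 0 X, (p : ℝ)⁻¹ := by
    rw [← sum_union (PS_disj _ _ _), ← PS_union h2.2 h1]
    exact sum_le_sum_of_subset_of_nonneg (PS_mono (by linarith only [hP']) le_rfl)
      fun p _ _ => by positivity
  have a5 := (abs_le.1 (sum_PS0 (y := X) (by exact_mod_cast h3))).2
  unfold LL
  linarith only [a1, a2, a3, a4, a5]

lemma symB_cv_le {X : ℕ} {I : Finset ℕ} {ν τ : ℕ → ℝ} (h0 : ∀ p ∈ I, 0 ≤ ν p) (t0 : ∀ i, 0 ≤ τ i)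
    (t : ∀ i, τ i ≤ e3 X i) (j : ℕ) :
    cv I ν τ j ≤ (∑ p ∈ I, ν p + ∑ p ∈ PS (zz X) X, (p : ℝ)⁻¹) ^ j / j.factorial :=
  (cv_mono h0 (fun _ _ => le_rfl) t0 t j).2.trans
    (cv_esym_le (J := PS (zz X) X) (μ := fun p => (p : ℝ)⁻¹) h0 (fun p _ => by positivity) j)

lemma symB_hf {E I : Finset ℕ} (h : E ⊆ I) (ν : ℕ → ℝ) :
    ∑ p ∈ I, hf E ν p = ∑ p ∈ I, ν p - (∑ p ∈ E, ν p) / 2 := by
  have h1 : ∑ p ∈ E, ν p = ∑ p ∈ I, if p ∈ E then ν p else 0 := by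
    rw [← sum_filter, filter_mem_eq_inter, inter_eq_right.2 h]
  rw [h1, sum_div, ← sum_sub_distrib]
  refine sum_congr rfl fun p _ => ?_
  unfold hf
  split_ifs <;> ring

theorem sym_le (A : ℕ) (hA : 1 ≤ A) : ∃ C : ℝ, 1 ≤ C ∧ ∀ P₀ : ℕ, 3 ≤ P₀ → ∀ᶠ X : ℕ in atTop,
    ∀ τ : ℕ → ℝ, (∀ i, 0 ≤ τ i) → (∀ i, τ i ≤ e3 X i) →
    (∀ j : ℕ, (j : ℝ) ≤ A * LL X → cv (PS P₀ (zz X)) n1 τ j ≤ C * uu X j ∧
      cv (PS P₀ (zz X)) n2 τ j ≤ C * uu X j) ∧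
    ∀ k i : ℕ, (k : ℝ) ≤ A * LL X → cs (PS P₀ (zz X)) n2 τ k i ≤ C * A ^ i * uu X (k - 1) ∧
      cs (PS P₀ (zz X)) (hf (EE X) n2) τ k i
        ≤ 2 * (24 / 25 : ℝ) ^ k * (2 * A) ^ i * uu X (k - 1) := by
  refine ⟨Real.exp (76 * A), Real.one_le_exp (by positivity), fun P₀ hP => ?_⟩
  filter_upwards [symB_total hP, EE_sub P₀, EE_ok, LL_tendsto.eventually_ge_atTop 7600]
    with X h1 h2 h3 h4 τ t0 t
  have hL : 0 < LL X := by linarith only [h4]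
  have hA0 : (0 : ℝ) ≤ A := Nat.cast_nonneg A
  have n1pos : ∀ p ∈ PS P₀ (zz X), 0 ≤ n1 p := fun p hp =>
    (n_le (by omega) hp).1.trans (n_le (by omega) hp).2.1
  have n12 : ∀ p ∈ PS P₀ (zz X), n1 p ≤ n2 p := fun p hp => (n_le (by omega) hp).2.2.1
  have n2pos : ∀ p ∈ PS P₀ (zz X), 0 ≤ n2 p := fun p hp => (n1pos p hp).trans (n12 p hp)
  have hinv : 0 ≤ ∑ p ∈ PS (zz X) X, (p : ℝ)⁻¹ := sum_nonneg fun p _ => by positivity
  have key : ∀ j : ℕ, (j : ℝ) ≤ A * LL X →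
      cv (PS P₀ (zz X)) n2 τ j ≤ Real.exp (76 * A) * uu X j := fun j hj =>
    (symB_cv_le n2pos t0 t j).trans
      (pow_le_uu hL (by norm_num) hj (add_nonneg (sum_nonneg n2pos) hinv) h1)
  refine ⟨fun j hj => ⟨(cv_mono n1pos n12 t0 (fun _ => le_rfl) j).2.trans (key j hj), key j hj⟩,
    fun k i hk => ?_⟩
  have hu := uu_pos hL (k - 1)
  unfold cs
  split_ifs with hik
  swap
  · exact ⟨by positivity, by positivity⟩
  obtain ⟨j, rfl⟩ : ∃ j, k = j + i + 1 := ⟨k - 1 - i, by omega⟩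
  have e1 : j + i + 1 - 1 - i = j := by omega
  have e2 : j + i + 1 - 1 = j + i := by omega
  rw [e1, e2]
  have hji : ((j + i : ℕ) : ℝ) ≤ A * LL X := le_trans (by exact_mod_cast Nat.le_succ _) hk
  have hj : (j : ℝ) ≤ A * LL X := le_trans (by exact_mod_cast Nat.le_add_right j i) hji
  have hs := uu_shift hL hji
  constructor
  · calc _ ≤ _ := key j hj
      _ ≤ Real.exp (76 * A) * (A ^ i * uu X (j + i)) := by gcongr
      _ = _ := by ring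
  · have hfpos : ∀ p ∈ PS P₀ (zz X), 0 ≤ hf (EE X) n2 p := fun p hp => by
      have := n2pos p hp
      unfold hf
      split_ifs
      · positivity
      · exact this
    have b1 : LL X / 10 ≤ ∑ p ∈ EE X, n2 p :=
      h3.2.trans (sum_le_sum fun p hp =>
        (n_le (by omega) (h2.1 hp)).2.1.trans (n12 p (h2.1 hp)))
    have b2 : ∑ p ∈ PS P₀ (zz X), hf (EE X) n2 p + ∑ p ∈ PS (zz X) X, (p : ℝ)⁻¹
        ≤ 24 / 25 * LL X := by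
      rw [symB_hf h2.1]
      linarith only [h1, h4, b1]
    have b3 : (1 : ℝ) ≤ 2 * (24 / 25 : ℝ) ^ (i + 1) * 2 ^ i := by
      have : (1 : ℝ) ≤ (24 / 25 * 2 : ℝ) ^ (i + 1) := one_le_pow₀ (by norm_num)
      calc (1 : ℝ) ≤ _ := this
        _ = _ := by rw [mul_pow]; ring
    have hu' := (uu_pos hL (j + i)).le
    calc _ ≤ _ := symB_cv_le hfpos t0 t j
      _ ≤ (24 / 25 * LL X) ^ j / j.factorial := by
          have := add_nonneg (sum_nonneg hfpos) hinv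
          gcongr
      _ = (24 / 25 : ℝ) ^ j * uu X j := by unfold uu; rw [mul_pow]; ring
      _ ≤ (24 / 25 : ℝ) ^ j * (A ^ i * uu X (j + i)) * 1 := by rw [mul_one]; gcongr
      _ ≤ (24 / 25 : ℝ) ^ j * (A ^ i * uu X (j + i)) * (2 * (24 / 25 : ℝ) ^ (i + 1) * 2 ^ i) := by
          gcongr
      _ = _ := by rw [mul_pow]; ring

/-- peel off the first term of a convolution -/
lemma symB_cv_succ (I : Finset ℕ) (ν τ : ℕ → ℝ) (j : ℕ) : cv I ν τ (j + 1) =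
    esym I ν (j + 1) * τ 0 + ∑ x ∈ antidiagonal j, esym I ν x.1 * τ (x.2 + 1) := by
  unfold cv
  rw [Finset.Nat.sum_antidiagonal_succ']

lemma symB_cv_ge {I : Finset ℕ} {ν τ f : ℕ → ℝ} {δ : ℝ} (h0 : ∀ p ∈ I, 0 ≤ ν p) (hz : τ 0 = f 0)
    (h : ∀ i, f (i + 1) - δ * f i ≤ τ (i + 1)) (j : ℕ) :
    cv I ν f (j + 1) - δ * cv I ν f j ≤ cv I ν τ (j + 1) := by
  rw [symB_cv_succ, symB_cv_succ, hz, cv, mul_sum, add_sub_assoc, ← sum_sub_distrib]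
  refine add_le_add le_rfl (sum_le_sum fun x _ => ?_)
  calc _ = esym I ν x.1 * (f (x.2 + 1) - δ * f x.2) := by ring
    _ ≤ _ := mul_le_mul_of_nonneg_left (h x.2) (esym_nonneg h0 _)

lemma symB_pow_le {g : ℕ → ℝ} {s B : ℝ} (hs : 0 ≤ s) (h0 : g 0 = 1)
    (h : ∀ j : ℕ, (j : ℝ) ≤ B → s * g j ≤ (j + 1 : ℝ) * g (j + 1)) (j : ℕ) (hj : (j : ℝ) ≤ B) :
    s ^ j / j.factorial ≤ g j := by
  induction j with
  | zero => simp [h0]
  | succ j ih =>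
    have hj' : (j : ℝ) ≤ B := le_trans (by exact_mod_cast Nat.le_succ j) hj
    have h1 := h j hj'
    have h2 := ih hj'
    have h3 : (0 : ℝ) < j.factorial := by positivity
    rw [Nat.factorial_succ, div_le_iff₀ (by positivity)]
    rw [div_le_iff₀ h3] at h2
    push_cast
    calc s ^ (j + 1) = s * s ^ j := by ring
      _ ≤ s * (g j * j.factorial) := by gcongr
      _ = (s * g j) * j.factorial := by ring
      _ ≤ ((j + 1 : ℝ) * g (j + 1)) * j.factorial := by gcongr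
      _ = _ := by ring

theorem ph_ge (A : ℕ) : ∃ P₀ : ℕ, 3 ≤ P₀ ∧ ∃ c : ℝ, 0 < c ∧ ∀ᶠ X : ℕ in atTop,
    ∀ j : ℕ, (j : ℝ) ≤ A * LL X → c * uu X j ≤ ph X P₀ j := by
  refine ⟨4 * A + 4, by omega, ?_⟩
  set P₀ : ℕ := 4 * A + 4 with hP₀
  have hA0 : (0 : ℝ) ≤ A := Nat.cast_nonneg A
  have hPc : (P₀ : ℝ) = 4 * A + 4 := by rw [hP₀]; push_cast; ring
  set K : ℝ := 8 * A + 8 with hK
  have hK0 : 0 < K := by positivity
  set c : ℝ := |Real.log K + Real.log (Real.log P₀) + 100 / Real.log P₀| with hc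
  have hc0 : 0 ≤ c := abs_nonneg _
  refine ⟨Real.exp (-(2 * (c + 2 * A) * A)) / 2, by positivity, ?_⟩
  filter_upwards [scales, EE_sub P₀, LL_tendsto.eventually_ge_atTop (4 * (c + 2 * A) + 1),
    rpow_le_rpow_log K (by norm_num : (24 / 25 : ℝ) < 1),
    (Real.tendsto_log_atTop.comp tendsto_natCast_atTop_atTop).eventually_ge_atTop (30 * K),
    eventually_ge_atTop 2] with X h1 h2 h3 h4 h5 hX j hj
  have hL : 0 < LL X := by linarith only [h1]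
  have hl : 0 < Real.log X := by linarith only [h1, h1.2.1]
  have hX0 : (0 : ℝ) < X := by exact_mod_cast (by omega : 0 < X)
  have h5' : 30 * K ≤ Real.log X := h5
  rw [Real.rpow_one] at h4
  set y : ℝ := Real.exp (Real.log X / K) with hy
  have hzy : zz X ≤ y := Real.exp_le_exp.2 (by rw [le_div_iff₀ hK0]; linarith only [h4])
  have hy1 : 1 ≤ y := Real.one_le_exp (by positivity)
  have hyX : y ≤ X := by
    rw [hy, ← Real.le_log_iff_exp_le hX0, div_le_iff₀ hK0]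
    linarith only [h5', h1, mul_nonneg_of_nonpos_of_nonpos (Mathlib.Tactic.Linarith.sub_nonpos_of_le (Mathlib.Tactic.Linarith.natCast_nonneg ℝ A)) (Mathlib.Tactic.Linarith.sub_nonpos_of_le h1.right.left)]
  set ν : ℕ → ℝ := fun p => (p : ℝ)⁻¹ with hν
  have ν0 : ∀ p, 0 ≤ ν p := fun p => by positivity
  set g : ℕ → ℝ := esym (PS P₀ y) ν with hg
  have g0 : ∀ i, 0 ≤ g i := esym_nonneg fun p _ => ν0 p
  have hgc : ∀ i, g i = cv (PS P₀ (zz X)) ν (esym (PS (zz X) y) ν) i := fun i => by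
    rw [hg, PS_union h2.2 hzy, esym_union (PS_disj _ _ _)]
    rfl
  have hlam : LL X - c ≤ ∑ p ∈ PS P₀ y, ν p := by
    have a1 := (abs_le.1 (sum_PS (y := P₀) (y' := y) (by linarith only [hPc]) (h2.2.trans hzy))).1
    have a2 : Real.log (Real.log y) = LL X - Real.log K := by
      rw [hy, Real.log_exp, Real.log_div hl.ne' hK0.ne']; rfl
    have a3 := le_abs_self (Real.log K + Real.log (Real.log P₀) + 100 / Real.log P₀)
    rw [a2] at a1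
    linarith only [a1, a3]
  have hstep : ∀ i : ℕ, ((i + 1 : ℕ) : ℝ) ≤ A * LL X → g i ≤ 2 * A * g (i + 1) := by
    intro i hi
    push_cast at hi
    have a1 := le_esym_succ (I := PS P₀ y) (ν := ν) (b := (P₀ : ℝ)⁻¹) (fun p _ => ν0 p)
      (fun p hp => (n_le (by omega) hp).2.1.trans (n_le (by omega) hp).2.2.2.1) i
    have a2 : (i : ℝ) * (P₀ : ℝ)⁻¹ ≤ LL X / 4 := by
      rw [← div_eq_mul_inv, div_le_div_iff₀ (by linarith only [hPc]) (by norm_num), hPc]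
      linarith only [h1, hi]
    have a3 : LL X / 2 * g i ≤ (∑ p ∈ PS P₀ y, ν p - i * (P₀ : ℝ)⁻¹) * g i :=
      mul_le_mul_of_nonneg_right (by linarith only [h3, hlam, a2]) (g0 i)
    have a4 : (i + 1 : ℝ) * g (i + 1) ≤ A * LL X * g (i + 1) :=
      mul_le_mul_of_nonneg_right hi (g0 _)
    have a5 : LL X / 2 * g i ≤ LL X / 2 * (2 * A * g (i + 1)) := by
      have a6 : (∑ p ∈ PS P₀ y, ν p - i * (P₀ : ℝ)⁻¹) * g i ≤ (i + 1 : ℝ) * g (i + 1) := a1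
      linarith only [a1, a3, a4]
    exact le_of_mul_le_mul_left a5 (by linarith only [h1])
  have hsig : ∑ p ∈ PS P₀ y, ν p ^ 2 ≤ 1 := by
    have a1 : ∑ p ∈ PS P₀ y, ν p ^ 2 ≤ ∑ p ∈ PS P₀ y, n2 p ^ 2 := sum_le_sum fun p hp =>
      pow_le_pow_left₀ (ν0 p) ((n_le (by omega) hp).2.1.trans (n_le (by omega) hp).2.2.1) 2
    have a2 := sum_n2_sq (P₀ := P₀) (by omega) y
    have a3 : (4 : ℝ) / P₀ ≤ 1 := by rw [div_le_one (by linarith only [hPc])]; linarith only [hPc]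
    linarith only [a1, a2, a3]
  have hrec : ∀ i : ℕ, (i : ℝ) ≤ A * LL X →
      (LL X - (c + 2 * A)) * g i ≤ (i + 1 : ℝ) * g (i + 1) := by
    intro i hi
    cases i with
    | zero =>
      have a1 : g 0 = 1 := esym_zero _ _
      have a2 : g 1 = ∑ p ∈ PS P₀ y, ν p := esym_one _ _
      rw [a1, zero_add, a2]
      push_cast
      linarith only [hlam]
    | succ i =>
      have a1 : (∑ p ∈ PS P₀ y, ν p) * g (i + 1) - (∑ p ∈ PS P₀ y, ν p ^ 2) * g i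
          ≤ (i + 2 : ℝ) * g (i + 2) := esym_rec (fun p _ => ν0 p) i
      have a2 := hstep i hi
      have a3 : (∑ p ∈ PS P₀ y, ν p ^ 2) * g i ≤ 1 * g i := mul_le_mul_of_nonneg_right hsig (g0 i)
      have a4 : (LL X - c) * g (i + 1) ≤ (∑ p ∈ PS P₀ y, ν p) * g (i + 1) :=
        mul_le_mul_of_nonneg_right hlam (g0 _)
      have a5 : (((i + 1 : ℕ) : ℝ) + 1) * g (i + 1 + 1) = (i + 2 : ℝ) * g (i + 2) := by
        push_cast; ring
      rw [a5]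
      linarith only [a1, a2, a3, a4]
  have hlow : Real.exp (-(2 * (c + 2 * A) * A)) * uu X j ≤ g j :=
    (le_pow_uu hL (by positivity) (by linarith only [h1, h3]) hj le_rfl).trans
      (symB_pow_le (by linarith only [h1, h3]) (esym_zero _ _) hrec j hj)
  have hph : g j / 2 ≤ ph X P₀ j := by
    have hX1 : (1 : ℝ) ≤ X := by exact_mod_cast (by omega : 1 ≤ X)
    cases j with
    | zero =>
      have a1 : g 0 = 1 := esym_zero _ _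
      have a2 : ph X P₀ 0 = 1 := by simp [ph, cv, esym_zero, TT_zero X hX1]
      rw [a1, a2]; norm_num
    | succ j =>
      have a1 := (cv_mono (I := PS P₀ (zz X)) (ν := ν) (μ := n1) (τ := TT X X) (σ := TT X X)
        (fun p _ => ν0 p) (fun p hp => (n_le (by omega) hp).2.1) (TT_nonneg X X)
        (fun _ => le_rfl) (j + 1)).2
      have a2 := symB_cv_ge (I := PS P₀ (zz X)) (ν := ν) (τ := TT X X)
        (f := esym (PS (zz X) y) ν) (δ := (Real.log y + 30) / Real.log X) (fun p _ => ν0 p)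
        (by rw [TT_zero X hX1, esym_zero]) (fun i => TT_low hX hy1 hyX i) j
      rw [← hgc, ← hgc] at a2
      have a3 : (Real.log y + 30) / Real.log X ≤ 2 / K := by
        have : 30 ≤ Real.log X / K := by rw [le_div_iff₀ hK0]; linarith only [h5']
        rw [hy, Real.log_exp, div_le_iff₀ hl]
        calc Real.log X / K + 30 ≤ Real.log X / K + Real.log X / K := by linarith only [this]
          _ = _ := by ring
      have a4 : (Real.log y + 30) / Real.log X * g j ≤ 2 / K * (2 * A * g (j + 1)) :=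
        mul_le_mul a3 (hstep j hj) (g0 j) (by positivity)
      have a5 : 2 / K * (2 * A) ≤ 1 / 2 := by
        rw [div_mul_eq_mul_div, div_le_div_iff₀ hK0 (by norm_num)]; linarith only []
      have a6 : 2 / K * (2 * A) * g (j + 1) ≤ 1 / 2 * g (j + 1) :=
        mul_le_mul_of_nonneg_right a5 (g0 _)
      unfold ph
      linarith only [a1, a2, a4, a6]
  linarith only [hlow, hph]


end Pool.Agent.Work.MP_51e72e_nt.TE
end

-- merged part: Pool.Agent.Work.MP_51e72e_nt.TESymD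
section
/-! Ratios of consecutive symmetric sums. -/

set_option autoImplicit false
open Finset Filter Topology
open Pool.Agent.Work.MP_678620_nt

namespace Pool.Agent.Work.MP_51e72e_nt.TE

/-- Shift a sequence by one place. -/
def sdPre (f : ℕ → ℝ) : ℕ → ℝ
  | 0 => 0
  | n + 1 => f n

lemma sd_left (I : Finset ℕ) (ν τ : ℕ → ℝ) (j : ℕ) :
    ∑ x ∈ antidiagonal j, sdPre (esym I ν) x.1 * τ x.2 = sdPre (cv I ν τ) j := by
  cases j with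
  | zero => simp [sdPre]
  | succ j => rw [Finset.Nat.sum_antidiagonal_succ]; simp [sdPre, cv]

lemma sd_right (I : Finset ℕ) (ν τ : ℕ → ℝ) (j : ℕ) :
    ∑ x ∈ antidiagonal j, esym I ν x.1 * sdPre τ x.2 = sdPre (cv I ν τ) j := by
  cases j with
  | zero => simp [sdPre]
  | succ j => rw [Finset.Nat.sum_antidiagonal_succ']; simp [sdPre, cv]

lemma sd_pre_le {X : ℕ} {A C : ℝ} (hA : 1 ≤ A) (hC : 0 ≤ C) (h : 0 < LL X) {f : ℕ → ℝ}
    (hf : ∀ j : ℕ, (j : ℝ) ≤ A * LL X → f j ≤ C * uu X j) {j : ℕ} (hj : (j : ℝ) ≤ A * LL X) :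
    sdPre f j ≤ C * A * uu X j := by
  cases j with
  | zero => have := uu_pos h 0; simp only [sdPre]; positivity
  | succ j =>
    simp only [sdPre]
    have h1 := hf j (by push_cast at hj; linarith)
    have h2 := uu_shift (A := A) h (j := j) (i := 1) hj
    rw [pow_one] at h2
    calc _ ≤ C * uu X j := h1
      _ ≤ C * (A * uu X (j + 1)) := by gcongr
      _ = _ := by ring

lemma sd_pre_nonneg {f : ℕ → ℝ} (hf : ∀ j, 0 ≤ f j) (j : ℕ) : 0 ≤ sdPre f j := by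
  cases j with
  | zero => exact le_rfl
  | succ j => exact hf j

lemma sd_esym_low {I : Finset ℕ} {ν : ℕ → ℝ} (h0 : ∀ p ∈ I, 0 ≤ ν p) (a : ℕ) :
    (∑ p ∈ I, ν p) * esym I ν a - (∑ p ∈ I, ν p ^ 2) * sdPre (esym I ν) a
      ≤ (a + 1 : ℝ) * esym I ν (a + 1) := by
  cases a with
  | zero => simp [sdPre, esym_zero, esym_one]
  | succ a =>
    have := esym_rec h0 a
    simp only [sdPre]
    push_cast
    have e : (a : ℝ) + 1 + 1 = a + 2 := by ring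
    rw [e]; exact this

lemma sd_win {X : ℕ} (hX : 2 ≤ X) {y : ℝ} (h0 : 0 < y) (h1 : (X : ℝ) ≤ y ^ 2) (h2 : y ≤ X) (b : ℕ) :
    TT X X b - TT X y b
      ≤ (2 * (Real.log X - Real.log y) + 60) / Real.log X * sdPre (e3 X) b := by
  cases b with
  | zero =>
    have hX1 : (1 : ℝ) ≤ X := by exact_mod_cast (by omega : 1 ≤ X)
    have hy : 1 ≤ y := by (refine le_of_not_gt fun h_nl => ?_; linarith only [h_nl, h1, hX1, h0, mul_pos_of_neg_of_neg (Mathlib.Tactic.Linarith.sub_neg_of_lt h0) (Mathlib.Tactic.Linarith.sub_neg_of_lt h_nl)])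
    rw [TT_zero X hX1, TT_zero X hy]; simp [sdPre]
  | succ b => exact TT_win hX h0 h1 h2 b

lemma sd_e3_nonneg (X i : ℕ) : 0 ≤ e3 X i := esym_nonneg (fun p _ => by positivity) i

lemma sd_n1 {P₀ : ℕ} (hP : 3 ≤ P₀) (y : ℝ) : ∀ p ∈ PS P₀ y, 0 ≤ n1 p := fun p hp => by
  obtain ⟨a, b, -⟩ := n_le (by omega : 2 ≤ P₀) hp
  exact a.trans b

lemma sd_cv_win {X : ℕ} (hX : 2 ≤ X) {y : ℝ} (h0 : 0 < y) (h1 : (X : ℝ) ≤ y ^ 2) (h2 : y ≤ X)
    {I : Finset ℕ} {ν : ℕ → ℝ} (hν : ∀ p ∈ I, 0 ≤ ν p) (j : ℕ) :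
    cv I ν (TT X X) j - cv I ν (TT X y) j
      ≤ (2 * (Real.log X - Real.log y) + 60) / Real.log X * sdPre (cv I ν (e3 X)) j := by
  rw [← sd_right, mul_sum]
  unfold cv
  rw [← sum_sub_distrib]
  refine sum_le_sum fun x _ => ?_
  have := mul_le_mul_of_nonneg_left (sd_win hX h0 h1 h2 x.2) (esym_nonneg hν x.1)
  linarith only [this]

lemma sd_up {P₀ : ℕ} (hP : 3 ≤ P₀) (X j : ℕ) : (j + 1 : ℝ) * ph X P₀ (j + 1) ≤
    (∑ p ∈ PS P₀ (zz X), n1 p + ∑ p ∈ PS (zz X) X, (p : ℝ)⁻¹) * ph X P₀ j := by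
  unfold ph
  rw [cv_succ, add_mul]
  unfold cv
  rw [mul_sum, mul_sum]
  refine add_le_add (sum_le_sum fun x _ => ?_) (sum_le_sum fun x _ => ?_)
  · have := mul_le_mul_of_nonneg_right (esym_succ_le (sd_n1 hP (zz X)) x.1) (TT_nonneg X X x.2)
    linarith only [this]
  · have := mul_le_mul_of_nonneg_left (TT_succ_le X X x.2) (esym_nonneg (sd_n1 hP (zz X)) x.1)
    linarith only [this]

lemma sd_low {P₀ : ℕ} (hP : 3 ≤ P₀) {X : ℕ} (hX : 2 ≤ X) (hz : 0 < zz X) {y : ℝ} (h1 : 1 ≤ y)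
    (h2 : y ^ 2 ≤ X) (j : ℕ) :
    (∑ p ∈ PS P₀ (zz X), n1 p + ∑ p ∈ PS (zz X) y, (p : ℝ)⁻¹ - j / zz X) * ph X P₀ j
      - (∑ p ∈ PS P₀ (zz X), n1 p ^ 2) * sdPre (ph X P₀) j
      - (∑ p ∈ PS (zz X) y, (p : ℝ)⁻¹) * ((2 * Real.log y + 60) / Real.log X) *
        sdPre (cv (PS P₀ (zz X)) n1 (e3 X)) j ≤ (j + 1 : ℝ) * ph X P₀ (j + 1) := by
  have hX0 : (0 : ℝ) < X := by exact_mod_cast (by omega : 0 < X)
  have hy0 : 0 < y := by linarith only [h1]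
  have hyX : y ≤ X := by linarith only [h1, h2, mul_nonneg_of_nonpos_of_nonpos (Mathlib.Tactic.Linarith.sub_nonpos_of_le h1) (Mathlib.Tactic.Linarith.sub_nonpos_of_le h1)]
  have a1 : (X : ℝ) ≤ (X / y) ^ 2 := by
    rw [div_pow, le_div_iff₀ (by positivity)]; linarith only [h2, mul_nonneg_of_nonpos_of_nonpos (Mathlib.Tactic.Linarith.sub_nonpos_of_le (Mathlib.Tactic.Linarith.natCast_nonneg ℝ X)) (Mathlib.Tactic.Linarith.sub_nonpos_of_le h2)]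
  have a2 : (X : ℝ) / y ≤ X := div_le_self hX0.le h1
  have a3 : Real.log X - Real.log (X / y) = Real.log y := by
    rw [Real.log_div hX0.ne' hy0.ne']; ring
  set l1 := ∑ p ∈ PS P₀ (zz X), n1 p with hl1
  set l3 := ∑ p ∈ PS (zz X) y, (p : ℝ)⁻¹ with hl3
  set s := ∑ p ∈ PS P₀ (zz X), n1 p ^ 2 with hs
  set d := (2 * Real.log y + 60) / Real.log X with hd
  have hl30 : 0 ≤ l3 := sum_nonneg fun p _ => by positivity
  have e : ph X P₀ = cv (PS P₀ (zz X)) n1 (TT X X) := rfl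
  rw [e, cv_succ, ← sd_left (PS P₀ (zz X)) n1 (TT X X), ← sd_right (PS P₀ (zz X)) n1 (e3 X)]
  unfold cv
  rw [mul_sum, mul_sum, mul_sum, ← sum_sub_distrib, ← sum_sub_distrib, ← sum_add_distrib]
  refine sum_le_sum fun x hx => ?_
  have hb : (x.2 : ℝ) ≤ j := by
    have := mem_antidiagonal.1 hx
    exact_mod_cast (by omega : x.2 ≤ j)
  have b1 := mul_le_mul_of_nonneg_right (sd_esym_low (sd_n1 hP (zz X)) x.1) (TT_nonneg X X x.2)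
  have b2 := TT_succ_ge X hy0 hyX x.2
  have b3 := sd_win hX (by positivity) a1 a2 x.2
  rw [a3, ← hd] at b3
  have b4 := TT_mono X a2 x.2
  have b5 := TT_nonneg X (X / y) x.2
  have b6 : (x.2 : ℝ) / zz X * TT X (X / y) x.2 ≤ j / zz X * TT X X x.2 := by gcongr
  have b7 := mul_le_mul_of_nonneg_left b3 hl30
  have b8 : (l3 - j / zz X) * TT X X x.2 - l3 * d * sdPre (e3 X) x.2 ≤
      (x.2 + 1 : ℝ) * TT X X (x.2 + 1) := by
    rw [← hl3] at b2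
    linarith only [b2, b6, b7]
  have b9 := mul_le_mul_of_nonneg_left b8 (esym_nonneg (sd_n1 hP (zz X)) x.1)
  rw [← hl1, ← hs] at b1
  linarith only [b1, b9]

lemma sd_lam_up {P₀ : ℕ} (hP : 3 ≤ P₀) {X : ℕ} (hX : 2 ≤ X) (h1 : (P₀ : ℝ) ≤ zz X)
    (h2 : zz X ≤ X) :
    ∑ p ∈ PS P₀ (zz X), n1 p + ∑ p ∈ PS (zz X) X, (p : ℝ)⁻¹ ≤ LL X + 76 := by
  have hP' : (3 : ℝ) ≤ P₀ := by exact_mod_cast hP
  have a1 : ∑ p ∈ PS P₀ (zz X), n1 p ≤ ∑ p ∈ PS P₀ (zz X), ((p : ℝ)⁻¹ + 2 * n2 p ^ 2) :=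
    sum_le_sum fun p hp => by
      obtain ⟨-, -, a, -, -, b⟩ := n_le (by omega : 2 ≤ P₀) hp
      linarith only [a, b]
  rw [sum_add_distrib, ← mul_sum] at a1
  have a2 := sum_n2_sq hP (zz X)
  have a3 : (4 : ℝ) / P₀ ≤ 4 / 3 := by gcongr
  have a4 : ∑ p ∈ PS P₀ (zz X), (p : ℝ)⁻¹ + ∑ p ∈ PS (zz X) X, (p : ℝ)⁻¹ ≤
      ∑ p ∈ PS 0 X, (p : ℝ)⁻¹ := by
    rw [← sum_union (PS_disj _ _ _), ← PS_union h1 h2]
    exact sum_le_sum_of_subset_of_nonneg (PS_mono (by positivity) le_rfl)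
      fun p _ _ => by positivity
  have a5 := (abs_le.1 (sum_PS0 (y := X) (by exact_mod_cast hX))).2
  unfold LL
  linarith only [a1, a2, a3, a4, a5]

lemma sd_lam_low {P₀ : ℕ} (hP : 3 ≤ P₀) {z y : ℝ} (h1 : (P₀ : ℝ) ≤ z) (h2 : z ≤ y) :
    Real.log (Real.log y) - Real.log (Real.log P₀) - 146 ≤
      ∑ p ∈ PS P₀ z, n1 p + ∑ p ∈ PS z y, (p : ℝ)⁻¹ := by
  have hP' : (3 : ℝ) ≤ P₀ := by exact_mod_cast hP
  have a1 : ∑ p ∈ PS P₀ z, (p : ℝ)⁻¹ ≤ ∑ p ∈ PS P₀ z, n1 p :=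
    sum_le_sum fun p hp => (n_le (by omega : 2 ≤ P₀) hp).2.1
  have a4 : ∑ p ∈ PS 0 y, (p : ℝ)⁻¹ = ∑ p ∈ PS 0 P₀, (p : ℝ)⁻¹ +
      (∑ p ∈ PS P₀ z, (p : ℝ)⁻¹ + ∑ p ∈ PS z y, (p : ℝ)⁻¹) := by
    rw [← sum_union (PS_disj _ _ _), ← PS_union h1 h2, ← sum_union (PS_disj _ _ _),
      ← PS_union (by linarith only [hP']) (h1.trans h2)]
  have a5 := (abs_le.1 (sum_PS0 (y := y) (by linarith only [h1, h2, hP']))).1
  have a6 := (abs_le.1 (sum_PS0 (y := P₀) (by linarith only [hP']))).2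
  linarith only [a1, a4, a5, a6]

lemma sd_basic : ∀ᶠ X : ℕ in atTop, 2 ≤ X ∧ 1 ≤ LL X ∧ 2 ≤ Real.log X ∧ LL X ≤ zz X ∧
    2 ≤ zz X ∧ zz X ≤ X ∧ 1 ≤ YY X ∧ YY X ^ 6 ≤ X := by
  filter_upwards [scales, eventually_ge_atTop 2] with X h hX
  obtain ⟨a1, a2, a3, a4, a5, a6, -⟩ := h
  have b1 : 1 ≤ YY X := by linarith only [a3, a4]
  have b2 : LL X ≤ Real.log X := by
    unfold LL; linarith only [a2, Real.log_le_sub_one_of_pos (x := Real.log X) (by linarith)]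
  have b3 : YY X ^ 1 ≤ YY X ^ 100 := pow_le_pow_right₀ b1 (by norm_num)
  have b4 : YY X ^ 6 ≤ YY X ^ 100 := pow_le_pow_right₀ b1 (by norm_num)
  rw [pow_one] at b3
  exact ⟨hX, a1, a2, b2.trans a6, a3, by linarith, b1, b4.trans a5⟩

theorem ph_rec (A : ℕ) (hA : 1 ≤ A) {P₀ : ℕ} (hP : 3 ≤ P₀) {ε : ℝ} (hε : 0 < ε) :
    ∀ᶠ X : ℕ in atTop, ∀ j : ℕ, ((j + 1 : ℕ) : ℝ) ≤ A * LL X →
    |ph X P₀ j - (j + 1 : ℝ) / LL X * ph X P₀ (j + 1)| ≤ ε * uu X (j + 1) := by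
  obtain ⟨C, hC, hs⟩ := sym_le A hA
  have hA' : (1 : ℝ) ≤ A := by exact_mod_cast hA
  have hP' : (3 : ℝ) ≤ P₀ := by exact_mod_cast hP
  set K : ℝ := C * A ^ 2 with hK
  have hK0 : 0 < K := by positivity
  set η : ℝ := min (1 / 2) (ε / (444 * K)) with hη
  have hη0 : 0 < η := lt_min (by norm_num) (by positivity)
  have hη1 : η ≤ 1 / 2 := min_le_left _ _
  have hη2 : η ≤ ε / (444 * K) := min_le_right _ _
  set c : ℝ := |Real.log η| + |Real.log (Real.log P₀)| + 146 + A with hc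
  have hc0 : 76 ≤ c := by
    have := abs_nonneg (Real.log η); have := abs_nonneg (Real.log (Real.log P₀)); linarith
  filter_upwards [hs P₀ hP, sd_basic, EE_sub P₀,
    rpow_le_rpow_log (1 / η) (show (24 / 25 : ℝ) < 1 by norm_num),
    LL_tendsto.eventually_ge_atTop (3 * (c + 2) * K / ε),
    (Real.tendsto_log_atTop.comp tendsto_natCast_atTop_atTop).eventually_ge_atTop
      (13320 * K / ε)] with X hs hb hE hr hL1 hL2 j hj
  obtain ⟨hX, b1, b2, b3, b4, b5, -, -⟩ := hb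
  have hL0 : 0 < LL X := by linarith only [hη0, hη1, b1]
  have hl0 : 0 < Real.log X := by linarith only [hη0, hη1, b2]
  have hX0 : (0 : ℝ) < X := by exact_mod_cast (by omega : 0 < X)
  simp only [Function.comp] at hL2
  set y := Real.exp (η * Real.log X) with hy
  have hzy : zz X ≤ y := by
    unfold zz
    rw [hy, Real.exp_le_exp]
    rw [Real.rpow_one, one_div, inv_mul_le_iff₀ hη0] at hr
    exact hr
  have hy2 : y ^ 2 ≤ X := by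
    rw [hy, ← Real.exp_nat_mul]
    calc _ ≤ Real.exp (Real.log X) := by rw [Real.exp_le_exp]; push_cast; linarith only [hη1, b2, mul_nonneg_of_nonpos_of_nonpos (Mathlib.Tactic.Linarith.sub_nonpos_of_le hη1) (Mathlib.Tactic.Linarith.sub_nonpos_of_le b2)]
      _ = X := Real.exp_log hX0
  have hy1 : 1 ≤ y := by linarith only [hP', hη0, hη1, hE, hzy]
  have hyX : y ≤ X := by (refine le_of_not_gt fun h_nl => ?_; linarith only [h_nl, hP', hη1, hy2, hE, hzy, hη0, b5, mul_nonneg_of_nonpos_of_nonpos (Mathlib.Tactic.Linarith.sub_nonpos_of_le (Mathlib.Tactic.Linarith.natCast_nonneg ℝ P₀)) (Mathlib.Tactic.Linarith.sub_nonpos_of_le hP'), mul_nonneg_of_nonpos_of_nonpos (Mathlib.Tactic.Linarith.sub_nonpos_of_le (Mathlib.Tactic.Linarith.natCast_nonneg ℝ P₀)) (Mathlib.Tactic.Linarith.sub_nonpos_of_le hE.right), mul_nonneg_of_nonpos_of_nonpos (Mathlib.Tactic.Linarith.sub_nonpos_of_le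 (Mathlib.Tactic.Linarith.natCast_nonneg ℝ P₀)) (le_of_lt (Mathlib.Tactic.Linarith.sub_neg_of_lt h_nl)), mul_nonneg_of_nonpos_of_nonpos (Mathlib.Tactic.Linarith.sub_nonpos_of_le (Mathlib.Tactic.Linarith.natCast_nonneg ℝ X)) (Mathlib.Tactic.Linarith.sub_nonpos_of_le hP'), mul_nonneg_of_nonpos_of_nonpos (Mathlib.Tactic.Linarith.sub_nonpos_of_le hP') (Mathlib.Tactic.Linarith.sub_nonpos_of_le hzy), mul_pos_of_neg_of_neg (Mathlib.Tactic.Linarith.sub_neg_of_lt hη0) (Mathlib.Tactic.Linarith.sub_neg_of_lt hη0), mul_nonneg_of_nonpos_of_nonpos (le_of_lt (Mathlib.Tactic.Linarith.sub_neg_of_lt hη0)) (Mathlib.Tactic.Linarith.sub_nonpos_of_le hη1), mul_nonneg_of_nonpos_of_nonpos (le_of_lt (Mathlib.Tactic.Linarith.sub_neg_of_lt hη0)) (Mathlib.Tactic.Linarith.sub_nonpos_of_le b5), mul_pos_of_neg_of_neg (Mathlib.Tactic.Linarith.sub_neg_of_lt hη0) (Mathlib.Tactic.Linarith.sub_neg_of_lt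 h_nl), mul_nonneg_of_nonpos_of_nonpos (Mathlib.Tactic.Linarith.sub_nonpos_of_le hη1) (Mathlib.Tactic.Linarith.sub_nonpos_of_le hzy), mul_nonneg_of_nonpos_of_nonpos (Mathlib.Tactic.Linarith.sub_nonpos_of_le hE.right) (Mathlib.Tactic.Linarith.sub_nonpos_of_le hE.right), mul_nonneg_of_nonpos_of_nonpos (Mathlib.Tactic.Linarith.sub_nonpos_of_le hE.right) (Mathlib.Tactic.Linarith.sub_nonpos_of_le hzy), mul_nonneg_of_nonpos_of_nonpos (Mathlib.Tactic.Linarith.sub_nonpos_of_le hzy) (Mathlib.Tactic.Linarith.sub_nonpos_of_le hzy)])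
  have hly : Real.log y = η * Real.log X := Real.log_exp _
  have hj' : (j : ℝ) ≤ A * LL X := by push_cast at hj; linarith only [hη0, hη1, hj]
  have hu := uu_pos hL0 (j + 1)
  have hsh := uu_shift (A := A) hL0 (j := j) (i := 1) hj
  rw [pow_one] at hsh
  have s1 := (hs (TT X X) (TT_nonneg X X) (TT_le_e3 X X)).1
  have s2 := (hs (e3 X) (sd_e3_nonneg X) (fun _ => le_rfl)).1
  have hAu : C * A * uu X j ≤ K * uu X (j + 1) := by
    calc _ ≤ C * A * (A * uu X (j + 1)) := by gcongr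
      _ = _ := by rw [hK]; ring
  have p0 : 0 ≤ ph X P₀ j :=
    (cv_mono (sd_n1 hP (zz X)) (fun _ _ => le_rfl) (TT_nonneg X X) (fun _ => le_rfl) j).1
  have p1 : ph X P₀ j ≤ K * uu X (j + 1) := by
    have h1 := (s1 j hj').1
    have h2 := (uu_pos hL0 j).le
    have h3 : C * 1 * uu X j ≤ C * A * uu X j := by gcongr
    unfold ph
    linarith only [hAu, h1, h3]
  have p2 : sdPre (ph X P₀) j ≤ K * uu X (j + 1) :=
    (sd_pre_le hA' (by linarith only [hC, hη0, hη1]) hL0 (fun j hj => (s1 j hj).1) hj').trans hAu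
  have p3 : sdPre (cv (PS P₀ (zz X)) n1 (e3 X)) j ≤ K * uu X (j + 1) :=
    (sd_pre_le hA' (by linarith only [hC, hη0, hη1]) hL0 (fun j hj => (s2 j hj).1) hj').trans hAu
  have up := sd_up hP X j
  have lo := sd_low hP hX (by linarith only [hP', hη0, hη1, hE]) hy1 hy2 j
  have q1 := sd_lam_up hP hX hE.2 b5
  have q2 := sd_lam_low hP hE.2 hzy
  rw [hly, Real.log_mul hη0.ne' hl0.ne'] at q2
  have q3 : (j : ℝ) / zz X ≤ A := by
    rw [div_le_iff₀ (by linarith only [hP', hη0, hη1, hE])]; linarith only [hj', b3, mul_nonneg_of_nonpos_of_nonpos (Mathlib.Tactic.Linarith.sub_nonpos_of_le (Mathlib.Tactic.Linarith.natCast_nonneg ℝ A)) (Mathlib.Tactic.Linarith.sub_nonpos_of_le b3)]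
  have q4 : ∑ p ∈ PS P₀ (zz X), n1 p ^ 2 ≤ 2 := by
    have h1 : ∑ p ∈ PS P₀ (zz X), n1 p ^ 2 ≤ ∑ p ∈ PS P₀ (zz X), n2 p ^ 2 :=
      sum_le_sum fun p hp => by
        have := sd_n1 hP (zz X) p hp
        have := (n_le (by omega : 2 ≤ P₀) hp).2.2.1
        gcongr
    have h2 := sum_n2_sq hP (zz X)
    have h3 : (4 : ℝ) / P₀ ≤ 4 / 3 := by gcongr
    linarith only [hη0, hη1, h1, h2, h3]
  have q5 : ∑ p ∈ PS (zz X) y, (p : ℝ)⁻¹ ≤ 74 * LL X := by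
    have h1 : ∑ p ∈ PS (zz X) y, (p : ℝ)⁻¹ ≤ ∑ p ∈ PS 0 X, (p : ℝ)⁻¹ :=
      sum_le_sum_of_subset_of_nonneg (PS_mono (by linarith only [hP', hη0, hη1, hE]) hyX) fun p _ _ => by positivity
    have a5 := (abs_le.1 (sum_PS0 (y := X) (by exact_mod_cast hX))).2
    have e : Real.log (Real.log X) = LL X := rfl
    rw [e] at a5
    linarith only [b1, h1, a5]
  have q6 : 74 * ((2 * Real.log y + 60) / Real.log X) * K ≤ 2 * ε / 3 := by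
    have e : (2 * Real.log y + 60) / Real.log X = 2 * η + 60 / Real.log X := by
      rw [hly]; field_simp
    rw [le_div_iff₀ (by positivity)] at hη2
    have h1 : 13320 * K / Real.log X ≤ ε := by
      rw [div_le_iff₀ hε] at hL2
      rw [div_le_iff₀ hl0]; linarith only [hL2]
    have e2 : 74 * (2 * η + 60 / Real.log X) * K =
        η * (444 * K) / 3 + 13320 * K / Real.log X / 3 := by ring
    rw [e, e2]; linarith only [hη2, h1]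
  have q7 : 0 ≤ (2 * Real.log y + 60) / Real.log X := by rw [hly]; positivity
  have q8 : (c + 2) * K ≤ ε / 3 * LL X := by
    rw [div_le_iff₀ hε] at hL1; linarith only [hL1]
  have q9 : 0 ≤ sdPre (cv (PS P₀ (zz X)) n1 (e3 X)) j := sd_pre_nonneg (fun j =>
    (cv_mono (sd_n1 hP (zz X)) (fun _ _ => le_rfl) (sd_e3_nonneg X) (fun _ => le_rfl) j).1) j
  have q10 : 0 ≤ sdPre (ph X P₀) j := sd_pre_nonneg (fun j =>
    (cv_mono (sd_n1 hP (zz X)) (fun _ _ => le_rfl) (TT_nonneg X X) (fun _ => le_rfl) j).1) j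
  have r1 : (∑ p ∈ PS P₀ (zz X), n1 p ^ 2) * sdPre (ph X P₀) j ≤ 2 * (K * uu X (j + 1)) := by
    gcongr
  have r2 : (∑ p ∈ PS (zz X) y, (p : ℝ)⁻¹) * ((2 * Real.log y + 60) / Real.log X) *
      sdPre (cv (PS P₀ (zz X)) n1 (e3 X)) j ≤ 2 * ε / 3 * (LL X * uu X (j + 1)) := by
    calc _ ≤ 74 * LL X * ((2 * Real.log y + 60) / Real.log X) * (K * uu X (j + 1)) := by gcongr
      _ = 74 * ((2 * Real.log y + 60) / Real.log X) * K * (LL X * uu X (j + 1)) := by ring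
      _ ≤ _ := by gcongr
  have r3 : (LL X - c) * ph X P₀ j ≤ (∑ p ∈ PS P₀ (zz X), n1 p +
      ∑ p ∈ PS (zz X) y, (p : ℝ)⁻¹ - j / zz X) * ph X P₀ j := by
    refine mul_le_mul_of_nonneg_right ?_ p0
    have e : Real.log (Real.log X) = LL X := rfl
    rw [e] at q2
    have := neg_abs_le (Real.log η)
    have := le_abs_self (Real.log (Real.log P₀))
    linarith
  have r4 : (∑ p ∈ PS P₀ (zz X), n1 p + ∑ p ∈ PS (zz X) X, (p : ℝ)⁻¹) * ph X P₀ j ≤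
      (LL X + c) * ph X P₀ j := mul_le_mul_of_nonneg_right (by linarith only [hc0, q1]) p0
  have r5 : c * ph X P₀ j ≤ c * (K * uu X (j + 1)) := by gcongr
  have r6 : (c + 2) * K * uu X (j + 1) ≤ ε / 3 * LL X * uu X (j + 1) := by gcongr
  have r7 : 0 ≤ K * uu X (j + 1) := by positivity
  have r8 : 0 ≤ ε * (LL X * uu X (j + 1)) := by positivity
  have e : ph X P₀ j - (j + 1 : ℝ) / LL X * ph X P₀ (j + 1) =
      (LL X * ph X P₀ j - (j + 1 : ℝ) * ph X P₀ (j + 1)) / LL X := by field_simp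
  rw [e, abs_div, abs_of_pos hL0, div_le_iff₀ hL0, abs_le]
  constructor <;> linarith only [p0, p1, up, lo, r1, r2, r3, r4, r5, r6]

theorem ph_ratio (A : ℕ) (hA : 1 ≤ A) {P₀ : ℕ} (hP : 3 ≤ P₀) (I : ℕ) {ε : ℝ} (hε : 0 < ε) :
    ∀ᶠ X : ℕ in atTop, ∀ k i : ℕ, (k : ℝ) ≤ A * LL X → i ≤ I → i < k →
    |ph X P₀ (k - 1 - i) - (k / LL X) ^ i * ph X P₀ (k - 1)| ≤ ε * uu X (k - 1) := by
  obtain ⟨C, hC, hs⟩ := sym_le A hA
  have hA' : (1 : ℝ) ≤ A := by exact_mod_cast hA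
  induction I generalizing ε with
  | zero =>
    filter_upwards [sd_basic] with X hb k i _ hi _
    obtain rfl : i = 0 := by omega
    have := uu_pos (X := X) (by linarith only [hb, hb.2.1]) (k - 1)
    simp only [Nat.sub_zero, pow_zero, one_mul, sub_self, abs_zero]
    positivity
  | succ I ih =>
    filter_upwards [ih hε, ih (ε := ε / (3 * A)) (by positivity),
      ph_rec A hA hP (ε := ε / (3 * A ^ I)) (by positivity), hs P₀ hP, sd_basic,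
      LL_tendsto.eventually_ge_atTop (3 * (I + 1) * C * A ^ I / ε)]
      with X h1 h2 h3 hs hb hL k i hk hi hik
    rcases Nat.lt_or_ge i (I + 1) with h | h
    · exact h1 k i hk (by omega) hik
    obtain rfl : i = I + 1 := by omega
    obtain ⟨j, rfl⟩ : ∃ j, k = j + I + 2 := ⟨k - I - 2, by omega⟩
    have hL0 : 0 < LL X := by linarith only [hb, hb.2.1]
    have g2 := h2 (j + I + 2) I hk le_rfl (by omega)
    have e1 : j + I + 2 - 1 - I = j + 1 := by omega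
    have e2 : j + I + 2 - 1 - (I + 1) = j := by omega
    have e3 : j + I + 2 - 1 = j + 1 + I := by omega
    rw [e1, e3] at g2
    rw [e2, e3]
    have hI0 : (0 : ℝ) ≤ I := Nat.cast_nonneg _
    have hj1 : ((j + 1 : ℕ) : ℝ) ≤ A * LL X := by push_cast at hk ⊢; linarith only [hk]
    have g3 := h3 j hj1
    have g4 := uu_shift (A := A) hL0 (j := j + 1) (i := I) (by push_cast at hk ⊢; linarith only [hk])
    have g5 : ph X P₀ (j + 1) ≤ C * uu X (j + 1) :=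
      ((hs (TT X X) (TT_nonneg X X) (TT_le_e3 X X)).1 (j + 1) hj1).1
    have g6 : 0 ≤ ph X P₀ (j + 1) :=
      (cv_mono (sd_n1 hP (zz X)) (fun _ _ => le_rfl) (TT_nonneg X X) (fun _ => le_rfl) _).1
    set r : ℝ := ((j + I + 2 : ℕ) : ℝ) / LL X with hr
    have r0 : 0 ≤ r := by positivity
    have r1 : r ≤ A := by rw [hr, div_le_iff₀ hL0]; exact hk
    have r2 : (j + 1 : ℝ) / LL X = r - (I + 1) / LL X := by rw [hr]; push_cast; ring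
    set U := uu X (j + 1 + I) with hU
    have hU0 : 0 < U := uu_pos hL0 _
    have t1 : ε / (3 * A ^ I) * uu X (j + 1) ≤ ε / 3 * U := by
      calc _ ≤ ε / (3 * A ^ I) * (A ^ I * U) := by gcongr
        _ = _ := by field_simp
    have t2 : |r * (ph X P₀ (j + 1) - r ^ I * ph X P₀ (j + 1 + I))| ≤ ε / 3 * U := by
      rw [abs_mul, abs_of_nonneg r0]
      calc _ ≤ A * (ε / (3 * A) * U) := by gcongr
        _ = _ := by field_simp
    have t3 : (I + 1) / LL X * ph X P₀ (j + 1) ≤ ε / 3 * U := by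
      have h4 : (I + 1) * C * A ^ I / LL X ≤ ε / 3 := by
        rw [div_le_iff₀ hε] at hL
        rw [div_le_iff₀ hL0]; linarith only [hL]
      calc _ ≤ (I + 1) / LL X * (C * (A ^ I * U)) := by
            gcongr
            exact g5.trans (by gcongr)
        _ = (I + 1) * C * A ^ I / LL X * U := by ring
        _ ≤ _ := by gcongr
    have t4 : 0 ≤ (I + 1) / LL X * ph X P₀ (j + 1) := by positivity
    rw [r2] at g3
    have e : ph X P₀ j - r ^ (I + 1) * ph X P₀ (j + 1 + I) =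
        (ph X P₀ j - (r - (I + 1) / LL X) * ph X P₀ (j + 1)) +
          r * (ph X P₀ (j + 1) - r ^ I * ph X P₀ (j + 1 + I)) -
          (I + 1) / LL X * ph X P₀ (j + 1) := by ring
    rw [e]
    rw [abs_le] at g3 t2 ⊢
    constructor <;> linarith only [g3, t1, t2, t3, t4, g3.1, g3.2, t2.1, t2.2]

lemma sd_n2 {P₀ : ℕ} (hP : 3 ≤ P₀) (z : ℝ) {τ : ℕ → ℝ} (t0 : ∀ i, 0 ≤ τ i) (j : ℕ) :
    cv (PS P₀ z) n2 τ j - cv (PS P₀ z) n1 τ j ≤ 4 / P₀ * sdPre (cv (PS P₀ z) n2 τ) j := by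
  have h12 : ∀ p ∈ PS P₀ z, n1 p ≤ n2 p := fun p hp => (n_le (by omega : 2 ≤ P₀) hp).2.2.1
  have h1 : ∑ p ∈ PS P₀ z, (n2 p - n1 p) ≤ 4 / P₀ :=
    (sum_le_sum fun p hp => (n_le (by omega : 2 ≤ P₀) hp).2.2.2.2.1).trans (sum_n2_sq hP z)
  have h2 : ∀ a, esym (PS P₀ z) n2 a - esym (PS P₀ z) n1 a ≤
      4 / P₀ * sdPre (esym (PS P₀ z) n2) a := by
    intro a
    cases a with
    | zero => simp [sdPre, esym_zero]
    | succ a =>
      refine (esym_sub_le (sd_n1 hP z) h12 a).trans ?_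
      simp only [sdPre]
      have := esym_nonneg (fun p hp => (sd_n1 hP z p hp).trans (h12 p hp)) a
      gcongr
  rw [← sd_left, mul_sum]
  unfold cv
  rw [← sum_sub_distrib]
  refine sum_le_sum fun x _ => ?_
  have := mul_le_mul_of_nonneg_right (h2 x.1) (t0 x.2)
  linarith only [this]

theorem sym_cmp (A : ℕ) (hA : 1 ≤ A) : ∃ C : ℝ, 1 ≤ C ∧ ∀ P₀ : ℕ, 3 ≤ P₀ → ∀ ε : ℝ, 0 < ε →
    ∀ᶠ X : ℕ in atTop, ∀ y : ℝ, (X : ℝ) / YY X ^ 3 ≤ y → y ≤ X → ∀ k i : ℕ, (k : ℝ) ≤ A * LL X →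
    i ≤ P₀ → i < k →
    |cs (PS P₀ (zz X)) n1 (TT X y) k i - (k / LL X) ^ i * ph X P₀ (k - 1)| ≤ ε * uu X (k - 1) ∧
    |cs (PS P₀ (zz X)) n2 (TT X y) k i - (k / LL X) ^ i * ph X P₀ (k - 1)|
      ≤ (C / P₀ + ε) * A ^ i * uu X (k - 1) := by
  obtain ⟨C, hC, hs⟩ := sym_le A hA
  have hA' : (1 : ℝ) ≤ A := by exact_mod_cast hA
  refine ⟨4 * C * A, by linarith only [hA', hC, mul_nonneg_of_nonpos_of_nonpos (Mathlib.Tactic.Linarith.sub_nonpos_of_le (Mathlib.Tactic.Linarith.natCast_nonneg ℝ A)) (Mathlib.Tactic.Linarith.sub_nonpos_of_le hC)], fun P₀ hP ε hε => ?_⟩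
  have hP' : (3 : ℝ) ≤ P₀ := by exact_mod_cast hP
  set K : ℝ := C * A * A ^ P₀ with hK
  have hK0 : 0 < K := by positivity
  filter_upwards [hs P₀ hP, sd_basic, ph_ratio A hA hP P₀ (half_pos hε),
    rpow_le_rpow_log (24 * K / ε) (show (99 / 100 : ℝ) < 1 by norm_num),
    (Real.tendsto_log_atTop.comp tendsto_natCast_atTop_atTop).eventually_ge_atTop
      (240 * K / ε)] with X hs hb hr h1 h2 y hy1 hy2 k i hk hi hik
  obtain ⟨hX, b1, b2, b3, b4, b5, b6, b7⟩ := hb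
  simp only [Function.comp] at h2
  have hL0 : 0 < LL X := by linarith only [b1]
  have hl0 : 0 < Real.log X := by linarith only [b2]
  have hX0 : (0 : ℝ) < X := by exact_mod_cast (by omega : 0 < X)
  have hq : 0 < (X : ℝ) / YY X ^ 3 := by positivity
  have hy0 : 0 < y := hq.trans_le hy1
  have hy3 : (X : ℝ) ≤ y ^ 2 := by
    have h3 : (X : ℝ) ≤ (X / YY X ^ 3) ^ 2 := by
      rw [div_pow, le_div_iff₀ (by positivity), ← pow_mul, sq]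
      exact mul_le_mul_of_nonneg_left b7 hX0.le
    exact h3.trans (by gcongr)
  have hlog : Real.log X - Real.log y ≤ 3 * Real.log X ^ (99 / 100 : ℝ) := by
    have h3 := Real.log_le_log hq hy1
    rw [Real.log_div hX0.ne' (by positivity), Real.log_pow] at h3
    unfold YY at h3
    rw [Real.log_exp] at h3
    push_cast at h3
    linarith only [h3]
  have hlog0 : 0 ≤ Real.log X - Real.log y := by linarith only [hy0, hy2, Real.log_le_log hy0 hy2]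
  have hd : (2 * (Real.log X - Real.log y) + 60) / Real.log X * K ≤ ε / 2 := by
    rw [Real.rpow_one, div_mul_eq_mul_div, div_le_iff₀ hε] at h1
    rw [div_le_iff₀ hε] at h2
    rw [div_mul_eq_mul_div, div_le_iff₀ hl0]
    have := mul_le_mul_of_nonneg_right hlog hK0.le
    linarith only [h1, h2, this]
  obtain ⟨j, rfl⟩ : ∃ j, k = j + i + 1 := ⟨k - i - 1, by omega⟩
  have g := hr (j + i + 1) i hk hi hik
  have e1 : j + i + 1 - 1 - i = j := by omega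
  have e3' : j + i + 1 - 1 = j + i := by omega
  unfold cs
  rw [if_pos hik, if_pos hik]
  rw [e1, e3'] at g ⊢
  have hi0 : (0 : ℝ) ≤ i := Nat.cast_nonneg _
  have hj : (j : ℝ) ≤ A * LL X := by push_cast at hk; linarith only [hk]
  have g4 := uu_shift (A := A) hL0 (j := j) (i := i) (by push_cast at hk ⊢; linarith only [hk])
  set U := uu X (j + i) with hU
  have hU0 : 0 < U := uu_pos hL0 _
  have hAi : (A : ℝ) ^ i ≤ A ^ P₀ := pow_le_pow_right₀ hA' hi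
  have hAi1 : (1 : ℝ) ≤ A ^ i := one_le_pow₀ hA'
  have s1 := (hs (TT X y) (TT_nonneg X y) (TT_le_e3 X y)).1
  have s2 := (hs (e3 X) (sd_e3_nonneg X) (fun _ => le_rfl)).1
  have p1 := sd_pre_le hA' (by linarith only [hC]) hL0 (fun j hj => (s1 j hj).2) hj
  have p2 := sd_pre_le hA' (by linarith only [hC]) hL0 (fun j hj => (s2 j hj).1) hj
  have w1 := sd_cv_win hX hy0 hy3 hy2 (sd_n1 hP (zz X)) j
  have w2 := (cv_mono (sd_n1 hP (zz X)) (fun _ _ => le_rfl) (TT_nonneg X y)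
    (TT_mono X hy2) j).2
  have w3 := sd_n2 hP (zz X) (TT_nonneg X y) j
  have w4 := (cv_mono (sd_n1 hP (zz X)) (fun p hp => (n_le (by omega : 2 ≤ P₀) hp).2.2.1)
    (TT_nonneg X y) (fun _ => le_rfl) j).2
  have t1 : (2 * (Real.log X - Real.log y) + 60) / Real.log X *
      sdPre (cv (PS P₀ (zz X)) n1 (e3 X)) j ≤ ε / 2 * U := by
    calc _ ≤ (2 * (Real.log X - Real.log y) + 60) / Real.log X * (C * A * (A ^ P₀ * U)) := by
          gcongr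
          refine p2.trans ?_
          gcongr
          exact g4.trans (by gcongr)
      _ = (2 * (Real.log X - Real.log y) + 60) / Real.log X * K * U := by rw [hK]; ring
      _ ≤ _ := by gcongr
  have t2 : 4 / P₀ * sdPre (cv (PS P₀ (zz X)) n2 (TT X y)) j ≤ 4 * C * A / P₀ * A ^ i * U := by
    calc _ ≤ 4 / P₀ * (C * A * (A ^ i * U)) := by
          gcongr
          exact p1.trans (by gcongr)
      _ = _ := by ring
  have t3 : ε * 1 * U ≤ ε * A ^ i * U := by gcongr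
  have t4 : 0 ≤ 4 * C * A / P₀ * A ^ i * U := by positivity
  have e : ph X P₀ j = cv (PS P₀ (zz X)) n1 (TT X X) j := rfl
  rw [e, abs_le] at g
  rw [abs_le, abs_le]
  refine ⟨⟨?_, ?_⟩, ?_, ?_⟩ <;> linarith only [g, w1, t1, w2, w3, w4, t2, t3, g.1, g.2]

end Pool.Agent.Work.MP_51e72e_nt.TE
end

-- merged part: Pool.Agent.Work.MP_51e72e_nt.TEConst
section
/-! The singular series. -/

set_option autoImplicit false
open Finset Filter Topology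
open Pool.Agent.Work.MP_678620_nt

namespace Pool.Agent.Work.MP_51e72e_nt.TE

lemma cst_den {p : ℕ} (hp : p.Prime) {x : ℝ} (hx : 0 ≤ x) : 1 / 2 ≤ 1 + (x - 1) / p := by
  have h2 : (2 : ℝ) ≤ p := by exact_mod_cast hp.two_le
  have h0 : (0 : ℝ) < p := by linarith
  have : -(1 / 2 : ℝ) ≤ (x - 1) / p := by
    rw [le_div_iff₀ h0]
    linarith only [hx, h2]
  linarith only [this]

lemma cst_loc_nonneg (a₁ b₁ a₂ b₂ : ℤ) (p : ℕ) {x₁ x₂ : ℝ} (h₁ : 0 ≤ x₁) (h₂ : 0 ≤ x₂) :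
    0 ≤ loc a₁ b₁ a₂ b₂ p x₁ x₂ := by
  rw [loc_eq]
  have t1 := pl_nonneg a₁ b₁ a₂ b₂ p True True
  have t2 := pl_nonneg a₁ b₁ a₂ b₂ p True False
  have t3 := pl_nonneg a₁ b₁ a₂ b₂ p False True
  have t4 := pl_nonneg a₁ b₁ a₂ b₂ p False False
  positivity

lemma cst_loc_le (a₁ b₁ a₂ b₂ : ℤ) {p : ℕ} (hp : p.Prime) {B x₁ x₂ : ℝ} (hB : 1 ≤ B)
    (h₁ : x₁ ∈ Set.Icc 0 B) (h₂ : x₂ ∈ Set.Icc 0 B) : loc a₁ b₁ a₂ b₂ p x₁ x₂ ≤ B ^ 2 := by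
  rw [loc_eq]
  have t1 := pl_nonneg a₁ b₁ a₂ b₂ p True True
  have t2 := pl_nonneg a₁ b₁ a₂ b₂ p True False
  have t3 := pl_nonneg a₁ b₁ a₂ b₂ p False True
  have t4 := pl_nonneg a₁ b₁ a₂ b₂ p False False
  have hs := pl_sum a₁ b₁ a₂ b₂ hp.pos
  have e1 : x₁ * x₂ ≤ B ^ 2 := by
    rw [sq]; exact mul_le_mul h₁.2 h₂.2 h₂.1 (by linarith)
  have e0 : B ≤ B ^ 2 := by linarith only [hB, mul_nonneg_of_nonpos_of_nonpos (Mathlib.Tactic.Linarith.sub_nonpos_of_le hB) (Mathlib.Tactic.Linarith.sub_nonpos_of_le hB)]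
  have e2 : x₁ ≤ B ^ 2 := h₁.2.trans e0
  have e3 : x₂ ≤ B ^ 2 := h₂.2.trans e0
  have e4 : (1 : ℝ) ≤ B ^ 2 := hB.trans e0
  have f1 := mul_le_mul_of_nonneg_left e1 t1
  have f2 := mul_le_mul_of_nonneg_left e2 t2
  have f3 := mul_le_mul_of_nonneg_left e3 t3
  have f4 := mul_le_mul_of_nonneg_left e4 t4
  have : (pl a₁ b₁ a₂ b₂ p True True + pl a₁ b₁ a₂ b₂ p True False + pl a₁ b₁ a₂ b₂ p False True
      + pl a₁ b₁ a₂ b₂ p False False) * B ^ 2 = B ^ 2 := by rw [hs, one_mul]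
  linarith only [f1, f2, f3, f4, this]

lemma cst_fac_abs (a₁ b₁ a₂ b₂ : ℤ) {p : ℕ} (hp : p.Prime) {B x₁ x₂ : ℝ} (hB : 1 ≤ B)
    (h₁ : x₁ ∈ Set.Icc 0 B) (h₂ : x₂ ∈ Set.Icc 0 B) : |fac a₁ b₁ a₂ b₂ p x₁ x₂| ≤ 4 * B ^ 2 := by
  have d1 := cst_den hp h₁.1
  have d2 := cst_den hp h₂.1
  have d3 : 1 / 4 ≤ (1 + (x₁ - 1) / p) * (1 + (x₂ - 1) / p) := by linarith only [d1, d2, mul_nonneg_of_nonpos_of_nonpos (Mathlib.Tactic.Linarith.sub_nonpos_of_le d1) (Mathlib.Tactic.Linarith.sub_nonpos_of_le d2)]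
  have l0 := cst_loc_nonneg a₁ b₁ a₂ b₂ p h₁.1 h₂.1
  have l1 := cst_loc_le a₁ b₁ a₂ b₂ hp hB h₁ h₂
  unfold fac
  rw [abs_of_nonneg (div_nonneg l0 (by linarith only [d3])), div_le_iff₀ (by linarith only [d3])]
  linarith only [l1, d3, sq_nonneg B, mul_nonneg_of_nonpos_of_nonpos (Mathlib.Tactic.Linarith.sub_nonpos_of_le (sq_nonneg B)) (Mathlib.Tactic.Linarith.sub_nonpos_of_le d3)]

lemma cst_fac_good {a₁ b₁ a₂ b₂ : ℤ} {p : ℕ} (hp : p.Prime)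
    (h : ¬ (p : ℤ) ∣ a₁ * a₂ * (a₁ * b₂ - a₂ * b₁)) {B x₁ x₂ : ℝ} (hB : 1 ≤ B)
    (h₁ : x₁ ∈ Set.Icc 0 B) (h₂ : x₂ ∈ Set.Icc 0 B) :
    |fac a₁ b₁ a₂ b₂ p x₁ x₂ - 1| ≤ 4 * B ^ 2 * (p : ℝ)⁻¹ ^ 2 := by
  have d1 := cst_den hp h₁.1
  have d2 := cst_den hp h₂.1
  have d3 : 1 / 4 ≤ (1 + (x₁ - 1) / p) * (1 + (x₂ - 1) / p) := by linarith only [d1, d2, mul_nonneg_of_nonpos_of_nonpos (Mathlib.Tactic.Linarith.sub_nonpos_of_le d1) (Mathlib.Tactic.Linarith.sub_nonpos_of_le d2)]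
  obtain ⟨g1, g2, g3, g4⟩ := pl_good hp h
  have hl : loc a₁ b₁ a₂ b₂ p x₁ x₂ - (1 + (x₁ - 1) / p) * (1 + (x₂ - 1) / p)
      = -((x₁ - 1) * (x₂ - 1) * (p : ℝ)⁻¹ ^ 2) := by
    rw [loc_eq, g1, g2, g3, g4, div_eq_mul_inv, div_eq_mul_inv]
    ring
  have hd : (0 : ℝ) < (1 + (x₁ - 1) / p) * (1 + (x₂ - 1) / p) := by linarith only [d3]
  have he : fac a₁ b₁ a₂ b₂ p x₁ x₂ - 1 = -((x₁ - 1) * (x₂ - 1) * (p : ℝ)⁻¹ ^ 2) /
      ((1 + (x₁ - 1) / p) * (1 + (x₂ - 1) / p)) := by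
    unfold fac
    rw [← hl, div_sub_one hd.ne']
  have a1 : |x₁ - 1| ≤ B := abs_le.2 ⟨by linarith only [hB, h₁, h₁.1], by linarith only [h₁, h₁.2]⟩
  have a2 : |x₂ - 1| ≤ B := abs_le.2 ⟨by linarith only [hB, h₂, h₂.1], by linarith only [h₂, h₂.2]⟩
  have a3 : |x₁ - 1| * |x₂ - 1| ≤ B ^ 2 := by
    rw [sq]; exact mul_le_mul a1 a2 (abs_nonneg _) (by linarith only [hB])
  have hq : (0 : ℝ) ≤ (p : ℝ)⁻¹ ^ 2 := by positivity
  rw [he, abs_div, abs_neg, abs_mul, abs_mul, abs_of_pos hd, abs_of_nonneg hq, div_le_iff₀ hd]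
  have a4 := mul_le_mul_of_nonneg_right a3 hq
  have a5 : 0 ≤ B ^ 2 * (p : ℝ)⁻¹ ^ 2 := by positivity
  linarith only [a4, d3, a5, mul_nonneg_of_nonpos_of_nonpos (Mathlib.Tactic.Linarith.sub_nonpos_of_le d3) (Mathlib.Tactic.Linarith.sub_nonpos_of_le a5)]

/-- The threshold beyond which all primes are good. -/
def cstP (a₁ b₁ a₂ b₂ : ℤ) : ℕ := (a₁ * a₂ * (a₁ * b₂ - a₂ * b₁)).natAbs + 3

lemma cst_tail {a₁ b₁ a₂ b₂ : ℤ} (hF : Frm a₁ b₁ a₂ b₂) {B x₁ x₂ : ℝ} (hB : 1 ≤ B)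
    (h₁ : x₁ ∈ Set.Icc 0 B) (h₂ : x₂ ∈ Set.Icc 0 B) {y : ℕ} (hy : cstP a₁ b₁ a₂ b₂ ≤ y) (y' : ℝ) :
    |∏ p ∈ PS y y', fac a₁ b₁ a₂ b₂ p x₁ x₂ - 1| ≤ Real.exp (16 * B ^ 2 / y) - 1 := by
  have hy3 : 3 ≤ y := le_trans (by unfold cstP; omega) hy
  have h0 := Finset.norm_prod_one_add_sub_one_le (PS y y')
    (fun p => fac a₁ b₁ a₂ b₂ p x₁ x₂ - 1)
  simp only [add_sub_cancel, Real.norm_eq_abs] at h0
  refine h0.trans (sub_le_sub_right (Real.exp_le_exp.2 ?_) _)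
  have hne : a₁ * a₂ * (a₁ * b₂ - a₂ * b₁) ≠ 0 :=
    mul_ne_zero (mul_ne_zero hF.pos₁.ne' hF.pos₂.ne') (sub_ne_zero.2 hF.det)
  calc ∑ p ∈ PS y y', |fac a₁ b₁ a₂ b₂ p x₁ x₂ - 1|
      ≤ ∑ p ∈ PS y y', 4 * B ^ 2 * n2 p ^ 2 := by
        refine sum_le_sum fun p hp => ?_
        have hn := n_le (by omega : 2 ≤ y) hp
        rw [mem_PS] at hp
        have hlt : y < p := by exact_mod_cast hp.2.1
        have hg : ¬ (p : ℤ) ∣ a₁ * a₂ * (a₁ * b₂ - a₂ * b₁) := by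
          intro hd
          have := Nat.le_of_dvd (Int.natAbs_pos.2 hne) (Int.natCast_dvd.1 hd)
          unfold cstP at hy
          omega
        refine (cst_fac_good hp.1 hg hB h₁ h₂).trans ?_
        refine mul_le_mul_of_nonneg_left ?_ (by positivity)
        exact pow_le_pow_left₀ hn.1 (hn.2.1.trans hn.2.2.1) 2
    _ = 4 * B ^ 2 * ∑ p ∈ PS y y', n2 p ^ 2 := by rw [mul_sum]
    _ ≤ 4 * B ^ 2 * (4 / y) := mul_le_mul_of_nonneg_left (sum_n2_sq hy3 y') (by positivity)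
    _ = 16 * B ^ 2 / y := by ring

/-- Uniform bound for the partial products. -/
noncomputable def cstC (a₁ b₁ a₂ b₂ : ℤ) (B : ℝ) : ℝ :=
  (4 * B ^ 2) ^ cstP a₁ b₁ a₂ b₂ * Real.exp (16 * B ^ 2)

lemma cst_split (f : ℕ → ℝ) {y y' : ℕ} (h : y ≤ y') :
    ∏ p ∈ PS 0 y', f p = (∏ p ∈ PS 0 y, f p) * ∏ p ∈ PS y y', f p := by
  rw [PS_union (y₂ := (y : ℝ)) (by positivity) (by exact_mod_cast h), prod_union (PS_disj _ _ _)]

lemma cst_bound {a₁ b₁ a₂ b₂ : ℤ} (hF : Frm a₁ b₁ a₂ b₂) {B x₁ x₂ : ℝ} (hB : 1 ≤ B)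
    (h₁ : x₁ ∈ Set.Icc 0 B) (h₂ : x₂ ∈ Set.Icc 0 B) {y : ℕ} (hy : cstP a₁ b₁ a₂ b₂ ≤ y) :
    |∏ p ∈ PS 0 y, fac a₁ b₁ a₂ b₂ p x₁ x₂| ≤ cstC a₁ b₁ a₂ b₂ B := by
  rw [cst_split _ hy, abs_mul]
  have h4 : (1 : ℝ) ≤ 4 * B ^ 2 := by linarith only [hB, mul_nonneg_of_nonpos_of_nonpos (Mathlib.Tactic.Linarith.sub_nonpos_of_le hB) (Mathlib.Tactic.Linarith.sub_nonpos_of_le hB)]
  unfold cstC
  refine mul_le_mul ?_ ?_ (abs_nonneg _) (by positivity)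
  · rw [Finset.abs_prod]
    calc ∏ p ∈ PS 0 (cstP a₁ b₁ a₂ b₂ : ℕ), |fac a₁ b₁ a₂ b₂ p x₁ x₂|
        ≤ ∏ p ∈ PS 0 (cstP a₁ b₁ a₂ b₂ : ℕ), (4 * B ^ 2) :=
          prod_le_prod (fun _ _ => abs_nonneg _) fun p hp =>
            cst_fac_abs _ _ _ _ (mem_PS.1 hp).1 hB h₁ h₂
      _ = (4 * B ^ 2) ^ (PS 0 (cstP a₁ b₁ a₂ b₂ : ℕ)).card := prod_const _
      _ ≤ (4 * B ^ 2) ^ cstP a₁ b₁ a₂ b₂ := pow_le_pow_right₀ h4 (card_PS_le _)
  · have ht := cst_tail hF hB h₁ h₂ (le_refl (cstP a₁ b₁ a₂ b₂)) y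
    have h1 : (1 : ℝ) ≤ (cstP a₁ b₁ a₂ b₂ : ℕ) := by
      have : 1 ≤ cstP a₁ b₁ a₂ b₂ := by unfold cstP; omega
      exact_mod_cast this
    have h2 : Real.exp (16 * B ^ 2 / (cstP a₁ b₁ a₂ b₂ : ℕ)) ≤ Real.exp (16 * B ^ 2) :=
      Real.exp_le_exp.2 (div_le_self (by positivity) h1)
    have h3 := abs_add_le (∏ p ∈ PS (cstP a₁ b₁ a₂ b₂ : ℕ) y, fac a₁ b₁ a₂ b₂ p x₁ x₂ - 1) 1
    rw [sub_add_cancel, abs_one] at h3
    linarith only [ht, h2, h3]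

lemma cst_diff {a₁ b₁ a₂ b₂ : ℤ} (hF : Frm a₁ b₁ a₂ b₂) {B x₁ x₂ : ℝ} (hB : 1 ≤ B)
    (h₁ : x₁ ∈ Set.Icc 0 B) (h₂ : x₂ ∈ Set.Icc 0 B) {y y' : ℕ} (hy : cstP a₁ b₁ a₂ b₂ ≤ y)
    (hy' : y ≤ y') :
    |∏ p ∈ PS 0 y, fac a₁ b₁ a₂ b₂ p x₁ x₂ - ∏ p ∈ PS 0 y', fac a₁ b₁ a₂ b₂ p x₁ x₂|
      ≤ cstC a₁ b₁ a₂ b₂ B * (Real.exp (16 * B ^ 2 / y) - 1) := by
  rw [cst_split _ hy', abs_sub_comm, ← mul_sub_one, abs_mul]
  exact mul_le_mul (cst_bound hF hB h₁ h₂ hy) (cst_tail hF hB h₁ h₂ hy y') (abs_nonneg _)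
    ((abs_nonneg _).trans (cst_bound hF hB h₁ h₂ hy))

lemma cst_err (C B : ℝ) :
    Tendsto (fun y : ℕ => C * (Real.exp (16 * B ^ 2 / y) - 1)) atTop (𝓝 0) := by
  have h1 : Tendsto (fun y : ℕ => 16 * B ^ 2 / (y : ℝ)) atTop (𝓝 0) :=
    tendsto_const_div_atTop_nhds_zero_nat _
  have h2 := ((Real.continuous_exp.tendsto 0).comp h1).sub_const 1
  have h3 := h2.const_mul C
  simpa using h3

lemma cst_cauchy {a₁ b₁ a₂ b₂ : ℤ} (hF : Frm a₁ b₁ a₂ b₂) {x₁ x₂ : ℝ} (h₁ : 0 ≤ x₁) (h₂ : 0 ≤ x₂) :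
    CauchySeq (fun y : ℕ => ∏ p ∈ PS 0 y, fac a₁ b₁ a₂ b₂ p x₁ x₂) := by
  rw [Metric.cauchySeq_iff']
  intro ε hε
  have hB : 1 ≤ x₁ + x₂ + 1 := by linarith
  have := (cst_err (cstC a₁ b₁ a₂ b₂ (x₁ + x₂ + 1)) (x₁ + x₂ + 1)).eventually (gt_mem_nhds hε)
  obtain ⟨N, hN1, hN2⟩ := (this.and (eventually_ge_atTop (cstP a₁ b₁ a₂ b₂))).exists
  refine ⟨N, fun n hn => ?_⟩
  rw [dist_comm, Real.dist_eq]
  exact (cst_diff hF hB ⟨h₁, by linarith only [h₂]⟩ ⟨h₂, by linarith only [h₁]⟩ hN2 hn).trans_lt hN1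

lemma cst_cont (a₁ b₁ a₂ b₂ : ℤ) (y : ℝ) (B : ℝ) :
    ContinuousOn (fun x : ℝ × ℝ => ∏ p ∈ PS 0 y, fac a₁ b₁ a₂ b₂ p x.1 x.2)
      (Set.Icc 0 B ×ˢ Set.Icc 0 B) := by
  refine continuousOn_finsetProd _ fun p hp => ?_
  have hp' := (mem_PS.1 hp).1
  unfold fac
  simp only [loc_eq]
  refine ContinuousOn.div (by fun_prop) (by fun_prop) fun x hx => ?_
  have d1 := cst_den hp' hx.1.1
  have d2 := cst_den hp' hx.2.1
  exact mul_ne_zero (by linarith only [d1]) (by linarith only [d2])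

theorem const_lim {a₁ b₁ a₂ b₂ : ℤ} (hF : Frm a₁ b₁ a₂ b₂) : ∃ S : ℝ → ℝ → ℝ,
    (∀ x₁ x₂ : ℝ, 0 ≤ x₁ → 0 ≤ x₂ →
      Tendsto (fun y : ℕ => ∏ p ∈ PS 0 y, fac a₁ b₁ a₂ b₂ p x₁ x₂) atTop (𝓝 (S x₁ x₂))) ∧
    ContinuousOn (fun x : ℝ × ℝ => S x.1 x.2) (Set.Ici 0 ×ˢ Set.Ici 0) ∧
    ∀ A : ℝ, (∃ C : ℝ, 0 < C ∧ ∀ x₁ ∈ Set.Icc 0 A, ∀ x₂ ∈ Set.Icc 0 A, |S x₁ x₂| ≤ C) ∧
      ∀ ε : ℝ, 0 < ε → ∀ᶠ P₀ : ℕ in atTop, ∀ x₁ ∈ Set.Icc 0 A, ∀ x₂ ∈ Set.Icc 0 A,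
        |∏ p ∈ PS 0 P₀, fac a₁ b₁ a₂ b₂ p x₁ x₂ - S x₁ x₂| ≤ ε := by
  obtain ⟨S, hS⟩ : ∃ S : ℝ → ℝ → ℝ, ∀ x₁ x₂ : ℝ, 0 ≤ x₁ → 0 ≤ x₂ →
      Tendsto (fun y : ℕ => ∏ p ∈ PS 0 y, fac a₁ b₁ a₂ b₂ p x₁ x₂) atTop (𝓝 (S x₁ x₂)) :=
    ⟨fun x₁ x₂ => limUnder atTop fun y : ℕ => ∏ p ∈ PS 0 y, fac a₁ b₁ a₂ b₂ p x₁ x₂,
      fun x₁ x₂ h₁ h₂ => (cst_cauchy hF h₁ h₂).tendsto_limUnder⟩
  have hU : ∀ A ε : ℝ, 0 < ε → ∀ᶠ P₀ : ℕ in atTop, ∀ x₁ ∈ Set.Icc 0 A, ∀ x₂ ∈ Set.Icc 0 A,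
      |∏ p ∈ PS 0 P₀, fac a₁ b₁ a₂ b₂ p x₁ x₂ - S x₁ x₂| ≤ ε := by
    intro A ε hε
    have hB : 1 ≤ max A 1 := le_max_right _ _
    have := (cst_err (cstC a₁ b₁ a₂ b₂ (max A 1)) (max A 1)).eventually (gt_mem_nhds hε)
    filter_upwards [this, eventually_ge_atTop (cstP a₁ b₁ a₂ b₂)] with y hy1 hy2 x₁ h₁ x₂ h₂
    have h₁' : x₁ ∈ Set.Icc 0 (max A 1) := ⟨h₁.1, h₁.2.trans (le_max_left _ _)⟩
    have h₂' : x₂ ∈ Set.Icc 0 (max A 1) := ⟨h₂.1, h₂.2.trans (le_max_left _ _)⟩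
    refine le_trans ?_ hy1.le
    refine le_of_tendsto ((hS x₁ x₂ h₁.1 h₂.1).const_sub _).abs ?_
    filter_upwards [eventually_ge_atTop y] with y' hy'
    exact cst_diff hF hB h₁' h₂' hy2 hy'
  refine ⟨S, hS, ?_, fun A => ⟨?_, hU A⟩⟩
  · have hbox : ∀ A : ℝ, ContinuousOn (fun x : ℝ × ℝ => S x.1 x.2)
        (Set.Icc 0 A ×ˢ Set.Icc 0 A) := by
      intro A
      have hT : TendstoUniformlyOn
          (fun (y : ℕ) (x : ℝ × ℝ) => ∏ p ∈ PS 0 y, fac a₁ b₁ a₂ b₂ p x.1 x.2)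
          (fun x : ℝ × ℝ => S x.1 x.2) atTop (Set.Icc 0 A ×ˢ Set.Icc 0 A) := by
        rw [Metric.tendstoUniformlyOn_iff]
        intro ε hε
        filter_upwards [hU A (ε / 2) (half_pos hε)] with y hy x hx
        rw [dist_comm, Real.dist_eq]
        exact (hy _ hx.1 _ hx.2).trans_lt (half_lt_self hε)
      exact hT.continuousOn (Frequently.of_forall fun y => cst_cont _ _ _ _ _ _)
    intro x hx
    have hx1 : 0 ≤ x.1 := hx.1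
    have hx2 : 0 ≤ x.2 := hx.2
    refine (hbox (x.1 + x.2 + 1) x ⟨⟨hx1, by linarith⟩, ⟨hx2, by linarith⟩⟩).mono_of_mem_nhdsWithin ?_
    have hO : {z : ℝ × ℝ | z.1 < x.1 + x.2 + 1 ∧ z.2 < x.1 + x.2 + 1} ∈ 𝓝 x := by
      refine IsOpen.mem_nhds ?_ ⟨by linarith, by linarith⟩
      exact (isOpen_lt continuous_fst continuous_const).inter
        (isOpen_lt continuous_snd continuous_const)
    filter_upwards [self_mem_nhdsWithin, mem_nhdsWithin_of_mem_nhds hO] with z hz1 hz2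
    exact ⟨⟨hz1.1, hz2.1.le⟩, ⟨hz1.2, hz2.2.le⟩⟩
  · have hB : 1 ≤ max A 1 := le_max_right _ _
    refine ⟨cstC a₁ b₁ a₂ b₂ (max A 1), by unfold cstC; positivity, fun x₁ h₁ x₂ h₂ => ?_⟩
    have h₁' : x₁ ∈ Set.Icc 0 (max A 1) := ⟨h₁.1, h₁.2.trans (le_max_left _ _)⟩
    have h₂' : x₂ ∈ Set.Icc 0 (max A 1) := ⟨h₂.1, h₂.2.trans (le_max_left _ _)⟩
    refine le_of_tendsto (hS x₁ x₂ h₁.1 h₂.1).abs ?_
    filter_upwards [eventually_ge_atTop (cstP a₁ b₁ a₂ b₂)] with y hy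
    exact cst_bound hF hB h₁' h₂' hy

lemma cst_loc_exp {a₁ b₁ a₂ b₂ : ℤ} (hF : Frm a₁ b₁ a₂ b₂) {A : ℝ} (hA : 1 ≤ A) {p : ℕ}
    (hp : p.Prime) : loc a₁ b₁ a₂ b₂ p A A ≤ Real.exp (2 * A ^ 2 * (p : ℝ)⁻¹) := by
  refine le_trans ?_ (Real.add_one_le_exp _)
  rw [loc_eq]
  have t1 := pl_nonneg a₁ b₁ a₂ b₂ p True True
  have t2 := pl_nonneg a₁ b₁ a₂ b₂ p True False
  have t3 := pl_nonneg a₁ b₁ a₂ b₂ p False True
  have hs := pl_sum a₁ b₁ a₂ b₂ hp.pos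
  have s1 := pl_fst hF.cop₁ a₂ b₂ hp
  have s2 := pl_snd a₁ b₁ hF.cop₂ hp
  have e0 : A ≤ A ^ 2 := by linarith only [hA, mul_nonneg_of_nonpos_of_nonpos (Mathlib.Tactic.Linarith.sub_nonpos_of_le hA) (Mathlib.Tactic.Linarith.sub_nonpos_of_le hA)]
  have f2 := mul_le_mul_of_nonneg_left e0 t2
  have f3 := mul_le_mul_of_nonneg_left e0 t3
  have hA2 : 0 ≤ A ^ 2 := by positivity
  have g1 := mul_le_mul_of_nonneg_right s1 hA2
  have g2 := mul_le_mul_of_nonneg_right s2 hA2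
  have g3 := mul_nonneg t1 hA2
  linarith only [t1, t2, t3, hs, f2, f3, g1, g2, g3]

theorem const_small {a₁ b₁ a₂ b₂ : ℤ} (hF : Frm a₁ b₁ a₂ b₂) {A : ℝ} (hA : 1 ≤ A) :
    Tendsto (fun P₀ : ℕ => (Vz P₀)⁻¹ ^ 2 * G2 a₁ b₁ a₂ b₂ P₀ A A / P₀) atTop (𝓝 0) := by
  obtain ⟨N, hN⟩ := exists_nat_ge (2 * A ^ 2)
  have h0 := (Real.tendsto_pow_log_div_mul_add_atTop 1 0 (N + 2) one_ne_zero).comp
    tendsto_natCast_atTop_atTop
  have h1 := h0.const_mul (Real.exp 73 ^ 2 * Real.exp (N * 73))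
  rw [mul_zero] at h1
  have hG0 : ∀ P₀ : ℕ, 0 ≤ G2 a₁ b₁ a₂ b₂ P₀ A A := fun P₀ =>
    prod_nonneg fun p _ => cst_loc_nonneg _ _ _ _ _ (by linarith) (by linarith)
  refine squeeze_zero' (Eventually.of_forall fun P₀ => ?_) ?_ h1
  · have := hG0 P₀
    positivity
  filter_upwards [eventually_ge_atTop 2] with P₀ hP
  have hP2 : (2 : ℝ) ≤ P₀ := by exact_mod_cast hP
  have hlog : 0 < Real.log P₀ := Real.log_pos (by linarith)
  have hV0 : 0 ≤ (Vz P₀)⁻¹ := by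
    rw [Vz_eq]
    refine inv_nonneg.2 (prod_nonneg fun p hp => ?_)
    have : (1 : ℝ) ≤ p := by exact_mod_cast (mem_PS.1 hp).1.one_le
    exact sub_nonneg.2 (inv_le_one_of_one_le₀ this)
  have hV := pow_le_pow_left₀ hV0 (Vz_inv hP2) 2
  have hs := (abs_le.1 (sum_PS0 hP2)).2
  have hs0 : 0 ≤ ∑ p ∈ PS 0 P₀, (p : ℝ)⁻¹ := sum_nonneg fun p _ => by positivity
  have hG : G2 a₁ b₁ a₂ b₂ P₀ A A ≤ Real.exp (N * 73) * Real.log P₀ ^ N := by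
    calc G2 a₁ b₁ a₂ b₂ P₀ A A ≤ ∏ p ∈ PS 0 P₀, Real.exp (2 * A ^ 2 * (p : ℝ)⁻¹) :=
          prod_le_prod (fun p _ => cst_loc_nonneg _ _ _ _ _ (by linarith only [hA]) (by linarith only [hA]))
            fun p hp => cst_loc_exp hF hA (mem_PS.1 hp).1
      _ = Real.exp (2 * A ^ 2 * ∑ p ∈ PS 0 P₀, (p : ℝ)⁻¹) := by rw [mul_sum, Real.exp_sum]
      _ ≤ Real.exp (N * 73 + N * Real.log (Real.log P₀)) := by
          refine Real.exp_le_exp.2 ?_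
          have hN0 : (0 : ℝ) ≤ N := by positivity
          have e1 := mul_le_mul_of_nonneg_right hN hs0
          have e2 := mul_le_mul_of_nonneg_left hs hN0
          linarith only [e1, e2]
      _ = Real.exp (N * 73) * Real.log P₀ ^ N := by
          rw [Real.exp_add, Real.exp_nat_mul (Real.log (Real.log P₀)), Real.exp_log hlog]
  simp only [Function.comp, one_mul, add_zero]
  rw [← mul_div_assoc]
  refine div_le_div_of_nonneg_right ?_ (by positivity)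
  calc (Vz P₀)⁻¹ ^ 2 * G2 a₁ b₁ a₂ b₂ P₀ A A
      ≤ (Real.exp 73 * Real.log P₀) ^ 2 * (Real.exp (N * 73) * Real.log P₀ ^ N) :=
        mul_le_mul hV hG (hG0 P₀) (by positivity)
    _ = Real.exp 73 ^ 2 * Real.exp (N * 73) * Real.log P₀ ^ (N + 2) := by ring

lemma G2_fac (a₁ b₁ a₂ b₂ : ℤ) (P₀ : ℕ) {x₁ x₂ : ℝ} (h₁ : 0 ≤ x₁) (h₂ : 0 ≤ x₂) :
    G2 a₁ b₁ a₂ b₂ P₀ x₁ x₂ = (∏ p ∈ PS 0 P₀, fac a₁ b₁ a₂ b₂ p x₁ x₂) * (G1 P₀ x₁ * G1 P₀ x₂) := by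
  unfold G2 G1
  rw [← prod_mul_distrib, ← prod_mul_distrib]
  refine prod_congr rfl fun p hp => ?_
  have hp' := (mem_PS.1 hp).1
  have d1 := cst_den hp' h₁
  have d2 := cst_den hp' h₂
  unfold fac
  rw [div_mul_cancel₀ _ (mul_ne_zero (by linarith only [d1]) (by linarith only [d2]))]

lemma one_le_G1 (P₀ : ℕ) {x : ℝ} (h : 0 ≤ x) : 1 ≤ (Vz P₀)⁻¹ * G1 P₀ x := by
  have hpos : ∀ p ∈ PS 0 P₀, 0 < 1 - (p : ℝ)⁻¹ := fun p hp => by
    have : (1 : ℝ) < p := by exact_mod_cast (mem_PS.1 hp).1.one_lt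
    exact sub_pos.2 (inv_lt_one_of_one_lt₀ this)
  rw [Vz_eq, ← div_eq_inv_mul, one_le_div (prod_pos hpos)]
  unfold G1
  refine prod_le_prod (fun p hp => (hpos p hp).le) fun p hp => ?_
  have h0 : (0 : ℝ) ≤ (p : ℝ)⁻¹ := by positivity
  rw [div_eq_mul_inv]
  linarith only [h, h0, mul_nonneg_of_nonpos_of_nonpos (Mathlib.Tactic.Linarith.sub_nonpos_of_le h) (Mathlib.Tactic.Linarith.sub_nonpos_of_le h0)]

end Pool.Agent.Work.MP_51e72e_nt.TE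
end

-- merged part: Pool.Agent.Work.MP_51e72e_nt.TEM1
section
/-! The one-point asymptotic. -/

set_option autoImplicit false
open Finset Filter Topology
open Pool.Agent.Work.MP_678620_nt

namespace Pool.Agent.Work.MP_51e72e_nt.TE

lemma tem1_solve {a m u D δ ε r : ℝ} (hm : m ≤ D * u) (hu : 0 ≤ u) (hδ0 : 0 ≤ δ)
    (hδ : δ ≤ 1 / 2) (hδD : 2 * δ * D ≤ ε / 2) (hr0 : 0 ≤ r) (hr : r ≤ ε / 4 * u) (ha : 0 ≤ a)
    (h : |a - m| ≤ δ * a + r) : |a - m| ≤ ε * u := by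
  have h1 : a - m ≤ δ * a + r := (abs_le.1 h).2
  have h2 : δ * a ≤ 1 / 2 * a := mul_le_mul_of_nonneg_right hδ ha
  have h3 : a ≤ 2 * (D * u + r) := by linarith only [hm, h1, h2]
  have h4 : δ * a ≤ δ * (2 * (D * u + r)) := mul_le_mul_of_nonneg_left h3 hδ0
  have h5 : 2 * δ * D * u ≤ ε / 2 * u := mul_le_mul_of_nonneg_right hδD hu
  have h6 : δ * r ≤ 1 / 2 * r := mul_le_mul_of_nonneg_right hδ hr0
  have h7 : δ * (2 * (D * u + r)) = 2 * δ * D * u + 2 * (δ * r) := by ring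
  linarith only [hr, h, h4, h5, h6]

lemma tem1_comb {X l N Sf Sg E₁ E₂ m t δ s : ℝ} (hX : 0 < X) (h1 : X * E₁ - X * t ≤ Sf)
    (h2 : Sf ≤ X * E₂ + X * t) (h3 : |Sg - Sf| ≤ X * t) (h4 : |Sg - l * N| ≤ δ * (l * N) + X * t)
    (h5 : |E₁ - m| ≤ s) (h6 : |E₂ - m| ≤ s) :
    |N * l / X - m| ≤ δ * (N * l / X) + (3 * t + s) := by
  have e : l * N = X * (N * l / X) := by field_simp
  rw [e] at h4
  generalize N * l / X = a at h4 ⊢
  rw [abs_le] at h3 h4 h5 h6 ⊢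
  have h7 : X * (m - s) ≤ X * E₁ := mul_le_mul_of_nonneg_left (by linarith only [h5, h5.1]) hX.le
  have h8 : X * E₂ ≤ X * (m + s) := mul_le_mul_of_nonneg_left (by linarith only [h6, h6.2]) hX.le
  constructor
  · refine le_of_mul_le_mul_left ?_ hX
    nlinarith only [h1, h3.1, h4.2, h7]
  · refine le_of_mul_le_mul_left ?_ hX
    nlinarith only [h2, h3.2, h4.1, h8]

lemma tem1_P1_sum (P₀ : ℕ) : ∑ Z ∈ (PS 0 P₀).powerset, P1 (PS 0 P₀) Z = 1 := by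
  have h := G1_eq P₀ 1
  simp only [one_pow, mul_one] at h
  rw [← h]
  simp [G1]

lemma tem1_G1_mono (P₀ : ℕ) {x y : ℝ} (h0 : 0 ≤ x) (h : x ≤ y) :
    0 ≤ G1 P₀ x ∧ G1 P₀ x ≤ G1 P₀ y := by
  rw [G1_eq, G1_eq]
  exact ⟨sum_nonneg fun Z _ => mul_nonneg (P1_nonneg _ _ Z) (pow_nonneg h0 _),
    sum_le_sum fun Z _ => mul_le_mul_of_nonneg_left (pow_le_pow_left₀ h0 h _) (P1_nonneg _ _ Z)⟩

lemma tem1_exp {P₀ X k : ℕ} (hz : (P₀ : ℝ) ≤ zz X) (τ : ℕ → ℝ) {x φ s : ℝ}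
    (h : ∀ i : ℕ, i ≤ P₀ → |cs (PS P₀ (zz X)) n1 τ k i - x ^ i * φ| ≤ s) :
    |(Vz (zz X))⁻¹ * Ex1 X τ k - (Vz P₀)⁻¹ * G1 P₀ x * φ| ≤ (Vz P₀)⁻¹ * s := by
  have hV : 0 ≤ (Vz (P₀ : ℝ))⁻¹ := (inv_pos.2 (Vz_pos _)).le
  rw [modB1 hz, G1_eq, mul_assoc, ← mul_sub, abs_mul, abs_of_nonneg hV, sum_mul, ← sum_sub_distrib]
  refine mul_le_mul_of_nonneg_left ((abs_sum_le_sum_abs _ _).trans ?_) hV
  calc _ ≤ ∑ Z ∈ (PS 0 P₀).powerset, P1 (PS 0 P₀) Z * s := by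
        refine sum_le_sum fun Z hZ => ?_
        rw [mul_assoc, ← mul_sub, abs_mul, abs_of_nonneg (P1_nonneg _ _ Z)]
        exact mul_le_mul_of_nonneg_left
          (h _ ((card_le_card (mem_powerset.1 hZ)).trans (card_PS_le P₀))) (P1_nonneg _ _ Z)
    _ = s := by rw [← sum_mul, tem1_P1_sum, one_mul]

theorem M1 (A : ℕ) (hA : 1 ≤ A) {P₀ : ℕ} (hP : 3 ≤ P₀) {ε : ℝ} (hε : 0 < ε) :
    ∀ᶠ X : ℕ in atTop, ∀ k : ℕ, P₀ < k → (k : ℝ) ≤ A * LL X →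
    |cnt1 X k * Real.log X / X - (Vz P₀)⁻¹ * G1 P₀ (k / LL X) * ph X P₀ (k - 1)|
      ≤ ε * uu X (k - 1) := by
  obtain ⟨C, hC, hle⟩ := sym_le A hA
  obtain ⟨C', -, hcmp⟩ := sym_cmp A hA
  have hV : 0 < (Vz (P₀ : ℝ))⁻¹ := inv_pos.2 (Vz_pos _)
  have hA0 : (0 : ℝ) ≤ A := Nat.cast_nonneg A
  obtain ⟨D, hD⟩ : ∃ D : ℝ, D = (Vz (P₀ : ℝ))⁻¹ * G1 P₀ A * C := ⟨_, rfl⟩
  have hD0 : 0 ≤ D := by
    rw [hD]
    exact mul_nonneg (mul_nonneg hV.le (tem1_G1_mono P₀ hA0 le_rfl).1) (by linarith only [hC])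
  obtain ⟨δ, hδ0, hδ1, hδ2⟩ : ∃ δ : ℝ, 0 < δ ∧ δ ≤ 1 / 2 ∧ 2 * δ * D ≤ ε / 2 := by
    refine ⟨min (1 / 2) (ε / (4 * (D + 1))), lt_min (by norm_num) (by positivity), min_le_left _ _,
      ?_⟩
    have h1 : min (1 / 2) (ε / (4 * (D + 1))) ≤ ε / (4 * (D + 1)) := min_le_right _ _
    have h2 : ε / (4 * (D + 1)) * D ≤ ε / 4 := by
      rw [div_mul_eq_mul_div, div_le_div_iff₀ (by positivity) (by norm_num)]
      linarith only [hε]
    linarith only [h2, h1, hD0, mul_le_mul_of_nonneg_right h1 hD0]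
  have hη : 0 < ε / 8 * Vz (P₀ : ℝ) := mul_pos (by positivity) (Vz_pos _)
  filter_upwards [hle P₀ hP, hcmp P₀ hP _ hη, modA1 (A ^ 2 + 1), op_sum A (A ^ 2 + 1),
    true1 (A ^ 2 + 1) hδ0, uu_lower A, scales, EE_sub P₀,
    log_tendsto.eventually_ge_atTop (24 / ε), eventually_gt_atTop 0] with
    X h1 h2 h3 h4 h5 h6 h7 h8 h9 h10 k hk hkA
  obtain ⟨s1, s2, s3, s4, -⟩ := h7
  have hX : (0 : ℝ) < X := by exact_mod_cast h10
  have hL : 0 < LL X := by linarith only [hδ0, hδ1, s1]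
  have hl : 0 < Real.log X := by linarith only [hδ0, hδ1, s2]
  have hu : 0 < uu X (k - 1) := uu_pos hL _
  have hk1 : ((k - 1 : ℕ) : ℝ) ≤ A * LL X :=
    le_trans (by exact_mod_cast Nat.sub_le k 1) hkA
  have hx0 : 0 ≤ (k : ℝ) / LL X := div_nonneg (Nat.cast_nonneg k) hL.le
  have hxA : (k : ℝ) / LL X ≤ A := (div_le_iff₀ hL).2 hkA
  have hY : (X : ℝ) / YY X ^ 3 ≤ X := div_le_self hX.le (one_le_pow₀ (by linarith only [hδ0, hδ1, s3, s4]))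
  have hE : ∀ y : ℝ, (X : ℝ) / YY X ^ 3 ≤ y → y ≤ X →
      |(Vz (zz X))⁻¹ * Ex1 X (TT X y) k - (Vz P₀)⁻¹ * G1 P₀ (k / LL X) * ph X P₀ (k - 1)|
        ≤ ε / 8 * uu X (k - 1) := by
    intro y hy hy'
    refine (tem1_exp h8.2 (TT X y) fun i hi => (h2 y hy hy' k i hkA hi (by omega)).1).trans_eq ?_
    have := (Vz_pos (P₀ : ℝ)).ne'
    field_simp
  have hph : ph X P₀ (k - 1) ≤ C * uu X (k - 1) :=
    ((h1 (TT X X) (TT_nonneg X X) (TT_le_e3 X X)).1 (k - 1) hk1).1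
  have hG := tem1_G1_mono P₀ hx0 hxA
  have hm : (Vz P₀)⁻¹ * G1 P₀ (k / LL X) * ph X P₀ (k - 1) ≤ D * uu X (k - 1) := by
    calc _ ≤ (Vz P₀)⁻¹ * G1 P₀ (k / LL X) * (C * uu X (k - 1)) :=
          mul_le_mul_of_nonneg_left hph (mul_nonneg hV.le hG.1)
      _ ≤ (Vz P₀)⁻¹ * G1 P₀ A * (C * uu X (k - 1)) :=
          mul_le_mul_of_nonneg_right (mul_le_mul_of_nonneg_left hG.2 hV.le)
            (mul_nonneg (by linarith only [hC, hδ0, hδ1]) hu.le)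
      _ = _ := by rw [hD]; ring
  have ht0 : 0 ≤ 1 / Real.log X ^ (A ^ 2 + 1) := div_nonneg zero_le_one (pow_nonneg hl.le _)
  have ht : 3 * (1 / Real.log X ^ (A ^ 2 + 1)) ≤ ε / 8 * uu X (k - 1) := by
    have e1 : 1 / Real.log X ^ (A ^ 2 + 1) = 1 / Real.log X ^ (A ^ 2) * (1 / Real.log X) := by
      rw [pow_succ, one_div_mul_one_div]
    have e2 : 1 / Real.log X ≤ ε / 24 := by
      rw [div_le_iff₀ hε] at h9
      rw [div_le_div_iff₀ hl (by norm_num)]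
      linarith only [h9]
    have e3 : 1 / Real.log X ^ (A ^ 2) * (1 / Real.log X) ≤ uu X (k - 1) * (ε / 24) :=
      mul_le_mul (h6 _ hk1) e2 (div_nonneg zero_le_one hl.le) hu.le
    rw [e1]
    linarith only [e3]
  have eX : (X : ℝ) / Real.log X ^ (A ^ 2 + 1) = X * (1 / Real.log X ^ (A ^ 2 + 1)) := by
    rw [mul_one_div]
  have a3 := h3 k
  have a4 := h4 k hkA
  have a5 := h5 k
  rw [eX] at a3 a4 a5
  rw [sum_sub_distrib] at a4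
  have key := tem1_comb hX a3.1 a3.2 a4 a5 (hE _ le_rfl hY) (hE _ hY le_rfl)
  refine tem1_solve hm hu.le hδ0.le hδ1 hδ2 ?_ ?_ ?_ key
  · exact add_nonneg (mul_nonneg (by norm_num) ht0) (mul_nonneg (by linarith only [hε]) hu.le)
  · linarith only [ht]
  · exact div_nonneg (mul_nonneg (Nat.cast_nonneg _) hl.le) hX.le

theorem M1_low (A : ℕ) (hA : 1 ≤ A) : ∃ c : ℝ, 0 < c ∧ ∃ K : ℕ, ∀ᶠ X : ℕ in atTop,
    ∀ k : ℕ, K ≤ k → (k : ℝ) ≤ A * LL X → c * uu X (k - 1) ≤ cnt1 X k * Real.log X / X := by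
  obtain ⟨P₀, hP, c, hc, hph⟩ := ph_ge A
  refine ⟨c / 2, half_pos hc, P₀ + 1, ?_⟩
  filter_upwards [hph, M1 A hA hP (half_pos hc), LL_tendsto.eventually_gt_atTop 0] with
    X h1 h2 hL k hk hkA
  have hu : 0 < uu X (k - 1) := uu_pos hL _
  have hk1 : ((k - 1 : ℕ) : ℝ) ≤ A * LL X :=
    le_trans (by exact_mod_cast Nat.sub_le k 1) hkA
  have a1 := h1 _ hk1
  have a2 := (abs_le.1 (h2 k (by omega) hkA)).1
  have a3 := one_le_G1 P₀ (div_nonneg (Nat.cast_nonneg k) hL.le)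
  have a4 : 0 ≤ ph X P₀ (k - 1) := (mul_pos hc hu).le.trans a1
  have a5 := le_mul_of_one_le_left a4 a3
  linarith only [a1, a2, a5]


end Pool.Agent.Work.MP_51e72e_nt.TE
end
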