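import Pool.Agent.Work.MP_51e72e_nt.TEPl
import Pool.Agent.Lib.ANT.SieveSums
import Pool.Agent.Work.MP_51e72e_nt.TENum
import Pool.Agent.Work.MP_51e72e_nt.TEBasic
import Pool.Agent.Work.MP_51e72e_nt.TEExc

-- merged part: Pool.Agent.Work.MP_51e72e_nt.TEShiuA
section
/-! Upper bound sieve with prescribed small parts. -/

set_option autoImplicit false
open Finset Filter Topology
open Pool.Agent.Work.MP_678620_nt

namespace Pool.Agent.Work.MP_51e72e_nt.TE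

lemma shiuA_root {p : ℕ} (hp : p.Prime) {A : ℤ} (hA : ¬ (p : ℤ) ∣ A) (c : ℤ) :
    ∃ t₀ : ℕ, t₀ < p ∧ ∀ t : ℕ, t < p → ((p : ℤ) ∣ A * t + c ↔ t = t₀) := by
  haveI := Fact.mk hp
  have hA' : (A : ZMod p) ≠ 0 := fun h => hA ((ZMod.intCast_zmod_eq_zero_iff_dvd A p).1 h)
  refine ⟨(-(c : ZMod p) / A).val, ZMod.val_lt _, fun t ht => ?_⟩
  rw [← ZMod.intCast_zmod_eq_zero_iff_dvd]
  push_cast
  constructor
  · intro h
    have : (t : ZMod p) = -(c : ZMod p) / A := by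
      rw [eq_div_iff hA']
      linear_combination h
    rw [← this, ZMod.val_cast_of_lt ht]
  · intro h
    have : (t : ZMod p) = -(c : ZMod p) / A := by
      rw [h, ZMod.natCast_zmod_val]
    rw [this]
    field_simp
    ring

lemma shiuA_modEq {a b : ℤ} (hab : IsCoprime a b) {d n m : ℕ} (hn : d ∣ val a b n)
    (hm : d ∣ val a b m) : n ≡ m [MOD d] := by
  rw [dvd_val] at hn hm
  have h1 : IsCoprime a (a * n + b) := by
    rw [add_comm]
    exact hab.add_mul_left_right n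
  have h2 : IsCoprime (d : ℤ) a := (h1.of_isCoprime_of_dvd_right hn).symm
  rw [Nat.modEq_iff_dvd]
  refine h2.dvd_of_dvd_mul_left ?_
  have := dvd_sub hm hn
  rwa [show a * m + b - (a * n + b) = a * (m - n) by ring] at this

lemma shiuA_card {a₁ b₁ a₂ b₂ : ℤ} {p : ℕ} (hp : p.Prime) {L r : ℤ}
    (h1 : ¬ (p : ℤ) ∣ a₁ * L) (h2 : ¬ (p : ℤ) ∣ a₂ * L) (h3 : ¬ (p : ℤ) ∣ a₁ * b₂ - a₂ * b₁) :
    ((range p).filter fun t : ℕ =>
      (p : ℤ) ∣ a₁ * (r + L * t) + b₁ ∨ (p : ℤ) ∣ a₂ * (r + L * t) + b₂).card = 2 := by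
  obtain ⟨t₁, l1, k1⟩ := shiuA_root hp h1 (a₁ * r + b₁)
  obtain ⟨t₂, l2, k2⟩ := shiuA_root hp h2 (a₂ * r + b₂)
  have e1 : ∀ t : ℕ, a₁ * (r + L * t) + b₁ = a₁ * L * t + (a₁ * r + b₁) := fun t => by ring
  have e2 : ∀ t : ℕ, a₂ * (r + L * t) + b₂ = a₂ * L * t + (a₂ * r + b₂) := fun t => by ring
  have ne : t₁ ≠ t₂ := by
    rintro rfl
    have u1 := (k1 t₁ l1).2 rfl
    have u2 := (k2 t₁ l1).2 rfl
    apply h3
    have := dvd_sub (u2.mul_left a₁) (u1.mul_left a₂)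
    rwa [show a₁ * (a₂ * L * t₁ + (a₂ * r + b₂)) - a₂ * (a₁ * L * t₁ + (a₁ * r + b₁))
      = a₁ * b₂ - a₂ * b₁ by ring] at this
  rw [← card_pair ne]
  congr 1
  ext t
  rw [mem_filter, mem_range, mem_insert, mem_singleton, e1, e2]
  constructor
  · rintro ⟨ht, h | h⟩
    · exact Or.inl ((k1 t ht).1 h)
    · exact Or.inr ((k2 t ht).1 h)
  · rintro (rfl | rfl)
    · exact ⟨l1, Or.inl ((k1 _ l1).2 rfl)⟩
    · exact ⟨l2, Or.inr ((k2 _ l2).2 rfl)⟩

lemma shiuA_rou {a b : ℤ} {d n p : ℕ} {w : ℝ} (hp : p.Prime) (hw : (p : ℝ) ≤ w) (hd : ¬ p ∣ d)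
    (h1 : d ∣ val a b n) (h2 : Rou w (val a b n / d)) : ¬ (p : ℤ) ∣ a * n + b := by
  intro h
  rw [← dvd_val, ← Nat.mul_div_cancel' h1] at h
  exact absurd (h2 p hp (((Nat.Prime.dvd_mul hp).1 h).resolve_left hd)) (not_lt.2 hw)

lemma shiuA_mod {a b r L : ℤ} {p s : ℕ} (h : (p : ℤ) ∣ a * (r + L * (s % p : ℕ)) + b) :
    (p : ℤ) ∣ a * (r + L * s) + b := by
  have e : (s : ℤ) = (s % p : ℕ) + p * (s / p : ℕ) := by exact_mod_cast (Nat.mod_add_div s p).symm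
  have : a * (r + L * s) + b = a * (r + L * (s % p : ℕ)) + b + p * (a * L * (s / p : ℕ)) := by
    conv_lhs => rw [e]
    ring
  rw [this]
  exact dvd_add h (dvd_mul_right _ _)

theorem shiuA {a₁ b₁ a₂ b₂ : ℤ} (hF : Frm a₁ b₁ a₂ b₂) : ∃ C : ℝ, 0 < C ∧
    ∀ N d₁ d₂ : ℕ, 0 < d₁ → 0 < d₂ → ∀ w : ℝ, 1 < w →
    (((Icc 1 N).filter fun n => d₁ ∣ val a₁ b₁ n ∧ d₂ ∣ val a₂ b₂ n ∧
        Rou w (val a₁ b₁ n / d₁) ∧ Rou w (val a₂ b₂ n / d₂)).card : ℝ)
      ≤ C * (N / (d₁ * d₂) + 1) * (rt d₁ * rt d₂) / Real.log w ^ 2 + w ^ 8 := by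
  classical
  obtain ⟨h, hh⟩ : ∃ h : ℕ, h = (a₁ * b₂ - a₂ * b₁).natAbs := ⟨_, rfl⟩
  have h0 : 0 < h := by
    rw [hh]
    exact Int.natAbs_pos.2 (sub_ne_zero.2 hF.det)
  obtain ⟨Q₀, hQ₀⟩ : ∃ Q₀ : ℕ, Q₀ = 2 * a₁.natAbs * a₂.natAbs * h := ⟨_, rfl⟩
  have Q0 : 0 < Q₀ := by
    have := Int.natAbs_pos.2 hF.pos₁.ne'
    have := Int.natAbs_pos.2 hF.pos₂.ne'
    rw [hQ₀]
    positivity
  have h0' : (0 : ℝ) < h := by exact_mod_cast h0
  have Q0' : (0 : ℝ) < Q₀ := by exact_mod_cast Q0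
  refine ⟨h * Q₀ ^ 2, by positivity, fun N d₁ d₂ hd₁ hd₂ w hw => ?_⟩
  have lw := Real.log_pos hw
  have w0 : 0 < w := by linarith only [hw]
  have d1' : (0 : ℝ) < d₁ := by exact_mod_cast hd₁
  have d2' : (0 : ℝ) < d₂ := by exact_mod_cast hd₂
  have t1 : (0 : ℝ) < d₁.totient := by exact_mod_cast Nat.totient_pos.2 hd₁
  have t2 : (0 : ℝ) < d₂.totient := by exact_mod_cast Nat.totient_pos.2 hd₂
  set S := (Icc 1 N).filter fun n => d₁ ∣ val a₁ b₁ n ∧ d₂ ∣ val a₂ b₂ n ∧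
        Rou w (val a₁ b₁ n / d₁) ∧ Rou w (val a₂ b₂ n / d₂) with hS
  rcases S.eq_empty_or_nonempty with hE | ⟨n₀, hn₀⟩
  · rw [hE, card_empty, Nat.cast_zero]
    unfold rt
    positivity
  obtain ⟨-, m1, m2, -⟩ := mem_filter.1 hn₀
  obtain ⟨L, hL⟩ : ∃ L, L = Nat.lcm d₁ d₂ := ⟨_, rfl⟩
  have L0 : 0 < L := hL ▸ Nat.lcm_pos hd₁ hd₂
  have L0' : (0 : ℝ) < L := by exact_mod_cast L0
  have hmod : ∀ n ∈ S, n % L = n₀ % L := fun n hn => by
    obtain ⟨-, k1, k2, -⟩ := mem_filter.1 hn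
    rw [hL]
    exact Nat.mod_lcm (shiuA_modEq hF.cop₁ k1 m1) (shiuA_modEq hF.cop₂ k2 m2)
  have hg : d₁ * d₂ ≤ h * L := by
    rw [← Nat.gcd_mul_lcm, ← hL]
    refine Nat.mul_le_mul_right _ (Nat.le_of_dvd h0 ?_)
    rw [hh, ← Int.natCast_dvd]
    have u1 : ((Nat.gcd d₁ d₂ : ℕ) : ℤ) ∣ a₁ * n₀ + b₁ :=
      dvd_val.1 ((Nat.gcd_dvd_left _ _).trans m1)
    have u2 : ((Nat.gcd d₁ d₂ : ℕ) : ℤ) ∣ a₂ * n₀ + b₂ :=
      dvd_val.1 ((Nat.gcd_dvd_right _ _).trans m2)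
    have := dvd_sub (u2.mul_left a₁) (u1.mul_left a₂)
    rwa [show a₁ * (a₂ * n₀ + b₂) - a₂ * (a₁ * n₀ + b₁) = a₁ * b₂ - a₂ * b₁ by ring] at this
  obtain ⟨Q, hQ⟩ : ∃ Q : ℕ, Q = Q₀ * d₁ * d₂ := ⟨_, rfl⟩
  have Qp : 0 < Q := by rw [hQ]; positivity
  obtain ⟨r, hr⟩ : ∃ r : ℤ, r = ((n₀ % L : ℕ) : ℤ) - L := ⟨_, rfl⟩
  obtain ⟨Ω, hΩ⟩ : ∃ Ω : ℕ → Finset ℕ, Ω = fun p => if p ∣ Q then ∅ else
      (range p).filter fun t : ℕ =>
        (p : ℤ) ∣ a₁ * (r + L * t) + b₁ ∨ (p : ℤ) ∣ a₂ * (r + L * t) + b₂ := ⟨_, rfl⟩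
  have nd : ∀ p : ℕ, ¬ p ∣ Q → ¬ p ∣ 2 ∧ ¬ p ∣ a₁.natAbs ∧ ¬ p ∣ a₂.natAbs ∧ ¬ p ∣ h ∧
      ¬ p ∣ d₁ ∧ ¬ p ∣ d₂ := fun p hp => by
    rw [hQ, hQ₀] at hp
    refine ⟨fun k => hp ?_, fun k => hp ?_, fun k => hp ?_, fun k => hp ?_, fun k => hp ?_,
      fun k => hp ?_⟩
    · exact ((((k.mul_right _).mul_right _).mul_right _).mul_right _).mul_right _
    · exact ((((k.mul_left _).mul_right _).mul_right _).mul_right _).mul_right _
    · exact (((k.mul_left _).mul_right _).mul_right _).mul_right _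
    · exact ((k.mul_left _).mul_right _).mul_right _
    · exact (k.mul_left _).mul_right _
    · exact k.mul_left _
  have hcard : ∀ p : ℕ, p.Prime → ¬ p ∣ Q → (Ω p).card = 2 := fun p hp hpQ => by
    obtain ⟨-, c1, c2, c3, c4, c5⟩ := nd p hpQ
    have cL : ¬ p ∣ L := fun k => by
      rw [hL] at k
      exact ((Nat.Prime.dvd_mul hp).1 (k.trans (Nat.lcm_dvd_mul _ _))).elim c4 c5
    have hp' := Nat.prime_iff_prime_int.1 hp
    rw [hΩ]
    simp only [if_neg hpQ]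
    refine shiuA_card hp (fun k => ?_) (fun k => ?_) fun k => c3 ?_
    · exact (hp'.dvd_or_dvd k).elim (fun k => c1 (Int.natCast_dvd.1 k))
        fun k => cL (Int.natCast_dvd_natCast.1 k)
    · exact (hp'.dvd_or_dvd k).elim (fun k => c2 (Int.natCast_dvd.1 k))
        fun k => cL (Int.natCast_dvd_natCast.1 k)
    · rw [hh]
      exact Int.natCast_dvd.1 k
  have hemp : ∀ p : ℕ, p ∣ Q → Ω p = ∅ := fun p hp => by
    rw [hΩ]
    simp only [if_pos hp]
  have key := Pool.Agent.Lib.ANT.sieve_dim (univ : Finset (Fin 2)) (fun _ => Q) (fun _ _ => Qp)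
    w hw Ω (fun p _ _ => by
      by_cases k : p ∣ Q
      · rw [hemp p k]
        exact empty_subset _
      · rw [hΩ]
        simp only [if_neg k]
        exact filter_subset _ _)
    (fun p hp _ => by
      by_cases k : p ∣ Q
      · rw [hemp p k]
        exact hp.pos
      · rw [hcard p hp k]
        have := hp.two_le
        have h2 : p ≠ 2 := fun e => (nd p k).1 (e ▸ dvd_rfl)
        omega)
    (fun p hp _ => by
      by_cases k : p ∣ Q
      · rw [filter_false_of_mem fun _ _ => not_not.2 k]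
        exact Nat.zero_le _
      · rw [hcard p hp k]
        exact (card_filter_le _ _).trans (by simp))
    0 (N / L + 1)
  have hle : S.card ≤ ((Ioc 0 (0 + (N / L + 1))).filter (fun n =>
      ∀ p ∈ (range (⌊w⌋₊ + 1)).filter Nat.Prime, n % p ∉ Ω p)).card := by
    refine card_le_card_of_injOn (fun n => n / L + 1) (fun n hn => ?_) fun n hn m hm e => ?_
    · have hn' := hmod n hn
      obtain ⟨k0, k1, k2, k3, k4⟩ := mem_filter.1 (mem_coe.1 hn)
      refine mem_coe.2 (mem_filter.2 ⟨mem_Ioc.2 ⟨Nat.succ_pos _, ?_⟩, fun p hp hm => ?_⟩)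
      · have := Nat.div_le_div_right (c := L) (mem_Icc.1 k0).2
        show n / L + 1 ≤ 0 + (N / L + 1)
        omega
      · obtain ⟨p1, p2⟩ := mem_filter.1 hp
        have pw : (p : ℝ) ≤ w :=
          (Nat.cast_le.2 (Nat.lt_succ_iff.1 (mem_range.1 p1))).trans (Nat.floor_le w0.le)
        by_cases k : p ∣ Q
        · rw [hemp p k] at hm
          exact notMem_empty _ hm
        · obtain ⟨-, -, -, -, c4, c5⟩ := nd p k
          rw [hΩ] at hm
          simp only [if_neg k] at hm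
          have e : r + (L : ℤ) * ((n / L + 1 : ℕ) : ℤ) = n := by
            have : (n : ℤ) = (n % L : ℕ) + L * (n / L : ℕ) := by
              exact_mod_cast (Nat.mod_add_div n L).symm
            rw [hr, ← hn', Nat.cast_add, Nat.cast_one]
            linarith only [this]
          rcases (mem_filter.1 hm).2 with u | u
          · have := shiuA_mod u
            rw [e] at this
            exact shiuA_rou p2 pw c4 k1 k3 this
          · have := shiuA_mod u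
            rw [e] at this
            exact shiuA_rou p2 pw c5 k2 k4 this
    · have e1 : n / L = m / L := Nat.add_right_cancel e
      rw [← Nat.mod_add_div n L, ← Nat.mod_add_div m L, hmod n hn, hmod m hm, e1]
  refine (Nat.cast_le.2 hle).trans (key.trans (add_le_add ?_ (le_of_eq ?_)))
  · have Qp' : (0 : ℝ) < Q := by exact_mod_cast Qp
    have tQ : (d₁.totient : ℝ) * d₂.totient ≤ Q.totient := by
      have a1 := Nat.totient_super_multiplicative (Q₀ * d₁) d₂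
      have a2 := Nat.totient_super_multiplicative Q₀ d₁
      have a3 : 1 ≤ Q₀.totient := Nat.totient_pos.2 Q0
      have : d₁.totient * d₂.totient ≤ Q.totient := by
        rw [hQ]
        refine le_trans (Nat.mul_le_mul_right _ (le_trans ?_ a2)) a1
        exact Nat.le_mul_of_pos_left _ a3
      exact_mod_cast this
    have tQ0 : (0 : ℝ) < Q.totient := lt_of_lt_of_le (by positivity) tQ
    have n1 : ((N / L + 1 : ℕ) : ℝ) ≤ h * (N / (d₁ * d₂) + 1) := by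
      have a1 : ((N / L : ℕ) : ℝ) ≤ N / L := Nat.cast_div_le
      have a2 : (N : ℝ) / L ≤ h * (N / (d₁ * d₂)) := by
        rw [← mul_div_assoc, div_le_div_iff₀ L0' (by positivity)]
        have : (d₁ : ℝ) * d₂ ≤ h * L := by exact_mod_cast hg
        linarith only [this, mul_le_mul_of_nonneg_left this (Nat.cast_nonneg N : (0 : ℝ) ≤ N)]
      have a3 : (1 : ℝ) ≤ h := by exact_mod_cast h0
      push_cast
      linarith only [a1, a2, a3]
    have n2 : ((Q : ℝ) / Q.totient) ^ 2 ≤ Q₀ ^ 2 * (rt d₁ * rt d₂) := by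
      have : (Q : ℝ) / Q.totient ≤ Q₀ * (d₁ / d₁.totient * (d₂ / d₂.totient)) := by
        refine (div_le_div_of_nonneg_left Qp'.le (by positivity) tQ).trans (le_of_eq ?_)
        rw [hQ]
        push_cast
        field_simp
      refine (pow_le_pow_left₀ (by positivity) this 2).trans (le_of_eq ?_)
      unfold rt
      ring
    rw [prod_const, card_univ, Fintype.card_fin]
    have e : ((N / L + 1 : ℕ) : ℝ) / ((Q.totient : ℝ) / Q * Real.log w) ^ 2
        = ((N / L + 1 : ℕ) : ℝ) * ((Q : ℝ) / Q.totient) ^ 2 / Real.log w ^ 2 := by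
      field_simp
    rw [e]
    refine div_le_div_of_nonneg_right ?_ (by positivity)
    refine (mul_le_mul n1 n2 (by positivity) (by positivity)).trans (le_of_eq ?_)
    ring
  · rw [card_univ, Fintype.card_fin, ← pow_mul]

end Pool.Agent.Work.MP_51e72e_nt.TE
end

-- merged part: Pool.Agent.Work.MP_51e72e_nt.TEShiuM
section
/-! The mass of the small parts. -/

set_option autoImplicit false
open Finset Filter Topology
open Pool.Agent.Work.MP_678620_nt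

namespace Pool.Agent.Work.MP_51e72e_nt.TE

/-- The completely multiplicative function `n ^ e`. -/
noncomputable def shM_pw (e : ℝ) : ℕ →* ℝ where
  toFun n := (n : ℝ) ^ e
  map_one' := by simp
  map_mul' m n := by
    push_cast
    exact Real.mul_rpow (by positivity) (by positivity)

lemma shM_lt_one {e : ℝ} (he : e < 0) {p : ℕ} (hp : p.Prime) : (p : ℝ) ^ e < 1 :=
  Real.rpow_lt_one_of_one_lt_of_neg (by exact_mod_cast hp.one_lt) he

lemma shM_fac {S : Finset ℕ} (hS : ∀ p ∈ S, p.Prime) {e : ℝ} (he : e < 0) (T : Finset ℕ)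
    (hT : ∀ m ∈ T, m ∈ Nat.factoredNumbers S) :
    ∑ m ∈ T, (m : ℝ) ^ e ≤ ∏ p ∈ S, (1 - (p : ℝ) ^ e)⁻¹ := by
  have h1 : ∀ {p : ℕ}, p.Prime → ‖shM_pw e p‖ < 1 := by
    intro p hp
    have h0 : (0 : ℝ) ≤ (p : ℝ) ^ e := by positivity
    change ‖(p : ℝ) ^ e‖ < 1
    rw [Real.norm_of_nonneg h0]
    exact shM_lt_one he hp
  have h2 := (EulerProduct.summable_and_hasSum_factoredNumbers_prod_filter_prime_geometric h1 S).2
  rw [filter_true_of_mem hS] at h2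
  have h3 : HasSum ((Nat.factoredNumbers S).indicator fun m : ℕ => (m : ℝ) ^ e)
      (∏ p ∈ S, (1 - (p : ℝ) ^ e)⁻¹) := hasSum_subtype_iff_indicator.1 h2
  have h4 := sum_le_hasSum T (fun m _ => Set.indicator_nonneg (fun n _ => by positivity) m) h3
  refine le_trans (le_of_eq (sum_congr rfl fun m hm => ?_)) h4
  rw [Set.indicator_of_mem (hT m hm)]

lemma shM_fib {S : Finset ℕ} (hS : ∀ p ∈ S, p.Prime) {e : ℝ} (he : e < 0) (T : Finset ℕ)
    (hT : ∀ d ∈ T, d ≠ 0 ∧ d.primeFactors = S) :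
    ∑ d ∈ T, (d : ℝ) ^ e ≤ ∏ p ∈ S, ((p : ℝ) ^ e * (1 - (p : ℝ) ^ e)⁻¹) := by
  have hdvd : ∀ d ∈ T, (∏ p ∈ S, p) ∣ d := fun d hd => by
    rw [← (hT d hd).2]
    exact Nat.prod_primeFactors_dvd d
  have hinj : Set.InjOn (fun d => d / ∏ p ∈ S, p) (T : Set ℕ) := by
    intro a ha b hb hab
    have h1 := Nat.mul_div_cancel' (hdvd a ha)
    have h2 := Nat.mul_div_cancel' (hdvd b hb)
    simp only at hab
    rw [← h1, ← h2, hab]
  have hQ : ((∏ p ∈ S, p : ℕ) : ℝ) ^ e = ∏ p ∈ S, (p : ℝ) ^ e := map_prod (shM_pw e) _ S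
  have h1 : ∑ d ∈ T, (d : ℝ) ^ e
      = (∏ p ∈ S, (p : ℝ) ^ e) * ∑ m ∈ T.image (fun d => d / ∏ p ∈ S, p), (m : ℝ) ^ e := by
    rw [sum_image hinj, mul_sum]
    refine sum_congr rfl fun d hd => ?_
    rw [← hQ, ← Real.mul_rpow (by positivity) (by positivity), ← Nat.cast_mul,
      Nat.mul_div_cancel' (hdvd d hd)]
  rw [h1, prod_mul_distrib]
  refine mul_le_mul_of_nonneg_left (shM_fac hS he _ fun m hm => ?_)
    (prod_nonneg fun p _ => by positivity)
  obtain ⟨d, hd, rfl⟩ := mem_image.1 hm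
  have h2 : d ∈ Nat.factoredNumbers S :=
    Nat.mem_factoredNumbers_of_primeFactors_subset (hT d hd).1 (hT d hd).2.subset
  exact Nat.mem_factoredNumbers_of_dvd h2 (Nat.div_dvd_of_dvd (hdvd d hd))

lemma shM_euler {P : Finset ℕ} (hP : ∀ p ∈ P, p.Prime) {w : ℕ → ℝ} (hw : ∀ p ∈ P, 0 ≤ w p)
    {e : ℝ} (he : e < 0) (t : ℕ) (T : Finset ℕ)
    (hT : ∀ d ∈ T, d ≠ 0 ∧ d.primeFactors ⊆ P ∧ om d = t) :
    ∑ d ∈ T, (∏ p ∈ d.primeFactors, w p) * (d : ℝ) ^ e
      ≤ (∑ p ∈ P, w p * ((p : ℝ) ^ e * (1 - (p : ℝ) ^ e)⁻¹)) ^ t / t.factorial := by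
  have hpos : ∀ p ∈ P, 0 ≤ w p * ((p : ℝ) ^ e * (1 - (p : ℝ) ^ e)⁻¹) := fun p hp =>
    mul_nonneg (hw p hp) (mul_nonneg (by positivity)
      (inv_nonneg.2 (sub_nonneg.2 (shM_lt_one he (hP p hp)).le)))
  refine le_trans ?_ (esym_le_pow hpos t)
  have hmap : ∀ d ∈ T, d.primeFactors ∈ P.powersetCard t := fun d hd =>
    mem_powersetCard.2 ⟨(hT d hd).2.1, (hT d hd).2.2⟩
  rw [← sum_fiberwise_of_maps_to hmap, esym]
  refine sum_le_sum fun S hS => ?_
  have hSP := (mem_powersetCard.1 hS).1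
  have h1 : ∑ d ∈ T.filter (fun d => d.primeFactors = S),
      (∏ p ∈ d.primeFactors, w p) * (d : ℝ) ^ e
      = (∏ p ∈ S, w p) * ∑ d ∈ T.filter (fun d => d.primeFactors = S), (d : ℝ) ^ e := by
    rw [mul_sum]
    refine sum_congr rfl fun d hd => ?_
    rw [(mem_filter.1 hd).2]
  rw [h1, prod_mul_distrib]
  refine mul_le_mul_of_nonneg_left (shM_fib (fun p hp => hP p (hSP hp)) he _ fun d hd => ?_)
    (prod_nonneg fun p hp => hw p (hSP hp))
  exact ⟨(hT d (mem_filter.1 hd).1).1, (mem_filter.1 hd).2⟩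

lemma shM_rt {d : ℕ} (hd : d ≠ 0) :
    rt d = ∏ p ∈ d.primeFactors, ((1 - (p : ℝ)⁻¹)⁻¹) ^ 2 := by
  have h1 : (d.totient : ℝ) = d * ∏ p ∈ d.primeFactors, (1 - (p : ℝ)⁻¹) := by
    have := congrArg (fun x : ℚ => (x : ℝ)) (Nat.totient_eq_mul_prod_factors d)
    simpa using this
  have h2 : (d : ℝ) ≠ 0 := by exact_mod_cast hd
  rw [rt, h1, prod_pow, prod_inv_distrib, div_mul_cancel_left₀ h2]

lemma shM_rt_nonneg (d : ℕ) : 0 ≤ rt d := sq_nonneg _

/-- The local bound. -/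
lemma shM_loc {p : ℕ} (hp : p.Prime) {θ η c : ℝ} (h0 : 0 ≤ θ) (h1 : θ ≤ 1) (hη : 0 ≤ η)
    (hη' : η ≤ 1 / 10) (hc : η * Real.log p ≤ c) :
    θ * ((1 - (p : ℝ)⁻¹)⁻¹) ^ 2 * ((p : ℝ) ^ (η - 1) * (1 - (p : ℝ) ^ (η - 1))⁻¹)
      ≤ θ * (p : ℝ)⁻¹ + Real.exp c * η * (Real.log p / p) + 60 * (p : ℝ) ^ (-(3 / 2) : ℝ) := by
  have hp2 : (2 : ℝ) ≤ p := by exact_mod_cast hp.two_le
  have hp0 : (0 : ℝ) < p := by linarith only [hp2]
  have hp1 : (1 : ℝ) ≤ p := by linarith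
  have hl : 0 ≤ Real.log p := Real.log_nonneg hp1
  set x := (p : ℝ) ^ (η - 1) with hx
  set y := (p : ℝ)⁻¹ with hy
  have hx0 : 0 < x := Real.rpow_pos_of_pos hp0 _
  have hy0 : 0 < y := inv_pos.2 hp0
  have hy2 : y ≤ 1 / 2 := by
    rw [hy, one_div]
    exact inv_anti₀ (by norm_num) hp2
  have hyx : y ≤ x := by
    rw [hy, hx, ← Real.rpow_neg_one]
    exact Real.rpow_le_rpow_of_exponent_le hp1 (by linarith only [hη])
  have hxx : x * x ≤ (p : ℝ) ^ (-(3 / 2) : ℝ) := by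
    rw [hx, ← Real.rpow_add hp0]
    exact Real.rpow_le_rpow_of_exponent_le hp1 (by linarith only [hη', hy0, hy2])
  have hxy : x * x ≤ y := by
    rw [hy, hx, ← Real.rpow_add hp0, ← Real.rpow_neg_one]
    exact Real.rpow_le_rpow_of_exponent_le hp1 (by linarith only [hη', hy0, hy2])
  have hx3 : x ≤ 3 / 4 := by (refine le_of_not_gt fun h_nl => ?_; linarith only [h_nl, hy2, hxy, hx0, hy0, mul_pos_of_neg_of_neg (Mathlib.Tactic.Linarith.sub_neg_of_lt hx0) (Mathlib.Tactic.Linarith.sub_neg_of_lt hy0), mul_nonneg_of_nonpos_of_nonpos (le_of_lt (Mathlib.Tactic.Linarith.sub_neg_of_lt hx0)) (Mathlib.Tactic.Linarith.sub_nonpos_of_le hy2), mul_pos_of_neg_of_neg (Mathlib.Tactic.Linarith.sub_neg_of_lt hx0) (Mathlib.Tactic.Linarith.sub_neg_of_lt h_nl)])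
  have ha : (1 - x)⁻¹ ≤ 1 + 4 * x := by
    rw [inv_le_iff_one_le_mul₀ (by linarith only [hy0, hy2, hx3])]
    linarith only [hx0, hx3, mul_nonneg_of_nonpos_of_nonpos (le_of_lt (Mathlib.Tactic.Linarith.sub_neg_of_lt hx0)) (Mathlib.Tactic.Linarith.sub_nonpos_of_le hx3)]
  have hb : ((1 - y)⁻¹) ^ 2 ≤ 1 + 8 * x := by
    have h2 : (1 - y)⁻¹ ≤ 1 + 2 * y := by
      rw [inv_le_iff_one_le_mul₀ (by linarith only [hy0, hy2])]
      linarith only [hy0, hy2, mul_nonneg_of_nonpos_of_nonpos (le_of_lt (Mathlib.Tactic.Linarith.sub_neg_of_lt hy0)) (Mathlib.Tactic.Linarith.sub_nonpos_of_le hy2)]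
    have h3 : 0 ≤ (1 - y)⁻¹ := inv_nonneg.2 (by linarith only [hy0, hy2])
    calc ((1 - y)⁻¹) ^ 2 ≤ (1 + 2 * y) ^ 2 := by gcongr
      _ ≤ 1 + 8 * x := by linarith only [hyx, hx0, hy0, hy2, mul_pos_of_neg_of_neg (Mathlib.Tactic.Linarith.sub_neg_of_lt hx0) (Mathlib.Tactic.Linarith.sub_neg_of_lt hy0), mul_nonneg_of_nonpos_of_nonpos (le_of_lt (Mathlib.Tactic.Linarith.sub_neg_of_lt hx0)) (Mathlib.Tactic.Linarith.sub_nonpos_of_le hy2), mul_nonneg_of_nonpos_of_nonpos (le_of_lt (Mathlib.Tactic.Linarith.sub_neg_of_lt hy0)) (Mathlib.Tactic.Linarith.sub_nonpos_of_le hy2)]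
  have hxe : x ≤ y + Real.exp c * η * (Real.log p / p) := by
    have h2 : x = Real.exp (η * Real.log p) * y := by
      rw [hx, hy, Real.rpow_sub hp0, Real.rpow_one, Real.rpow_def_of_pos hp0, mul_comm η,
        div_eq_mul_inv]
    have h3 : 0 ≤ η * Real.log p := mul_nonneg hη hl
    have h4 : Real.exp (η * Real.log p) ≤ 1 + Real.exp c * (η * Real.log p) := by
      have h5 := Real.add_one_le_exp (-(η * Real.log p))
      have h6 : Real.exp (η * Real.log p) * Real.exp (-(η * Real.log p)) = 1 := by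
        rw [← Real.exp_add]; simp
      have h7 := Real.exp_pos (η * Real.log p)
      have h8 : Real.exp (η * Real.log p) ≤ Real.exp c := Real.exp_le_exp.2 hc
      have h9 : Real.exp (η * Real.log p) * (η * Real.log p) ≤ Real.exp c * (η * Real.log p) := by
        gcongr
      (refine le_of_not_gt fun h_nl => ?_; linarith only [h_nl, hx0, h5, hy0, h6, h9, h2, mul_nonneg_of_nonpos_of_nonpos (le_of_lt (Mathlib.Tactic.Linarith.sub_neg_of_lt hx0)) (Mathlib.Tactic.Linarith.sub_nonpos_of_le h5), Mathlib.Tactic.Linarith.mul_zero_eq (Mathlib.Tactic.Linarith.sub_neg_of_lt hy0) (sub_eq_zero_of_eq h6), mul_nonneg_of_nonpos_of_nonpos (le_of_lt (Mathlib.Tactic.Linarith.sub_neg_of_lt hy0)) (Mathlib.Tactic.Linarith.sub_nonpos_of_le h9), mul_pos_of_neg_of_neg (Mathlib.Tactic.Linarith.sub_neg_of_lt hy0) (Mathlib.Tactic.Linarith.sub_neg_of_lt h_nl), Mathlib.Tactic.Linarith.zero_mul_eq (sub_eq_zero_of_eq h2) (Mathlib.Tactic.Linarith.sub_nonpos_of_le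 h5)])
    calc x = Real.exp (η * Real.log p) * y := h2
      _ ≤ (1 + Real.exp c * (η * Real.log p)) * y := by gcongr
      _ = _ := by rw [div_eq_mul_inv, ← hy]; ring
  have hE : 0 ≤ Real.exp c * η * (Real.log p / p) := by positivity
  have h3 : 0 ≤ (1 - x)⁻¹ := inv_nonneg.2 (by linarith only [hy0, hy2, hx3])
  calc θ * ((1 - y)⁻¹) ^ 2 * (x * (1 - x)⁻¹) ≤ θ * (1 + 8 * x) * (x * (1 + 4 * x)) := by gcongr
    _ = θ * x + θ * (x * x * (12 + 32 * x)) := by ring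
    _ ≤ θ * (y + Real.exp c * η * (Real.log p / p)) + 1 * (x * x * 60) := by
      gcongr
      linarith only [hy0, hy2, hx3]
    _ ≤ _ := by linarith only [hxx, h1, hyx, hxe, mul_nonneg_of_nonpos_of_nonpos (Mathlib.Tactic.Linarith.sub_nonpos_of_le h1) (Mathlib.Tactic.Linarith.sub_nonpos_of_le hyx), mul_nonneg_of_nonpos_of_nonpos (Mathlib.Tactic.Linarith.sub_nonpos_of_le h1) (Mathlib.Tactic.Linarith.sub_nonpos_of_le hxe)]

/-- The constant of the Euler product bound. -/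
noncomputable def shM_c1 (c : ℝ) : ℝ :=
  Real.exp c * (c + 3) + 60 * ∑' n : ℕ, (n : ℝ) ^ (-(3 / 2) : ℝ)

lemma shM_c1_nonneg {c : ℝ} (hc : 0 ≤ c) : 0 ≤ shM_c1 c := by
  have : 0 ≤ ∑' n : ℕ, (n : ℝ) ^ (-(3 / 2) : ℝ) := tsum_nonneg fun n => by positivity
  unfold shM_c1
  positivity

lemma shM_mass {X u : ℕ} {c : ℝ} (hc : 0 ≤ c) (hl : 0 < Real.log X)
    (hη : c * u / Real.log X ≤ 1 / 10) {θ : ℕ → ℝ} (h0 : ∀ p, 0 ≤ θ p) (h1 : ∀ p, θ p ≤ 1) :
    ∑ p ∈ (PS 0 X).filter (fun p : ℕ => u * Real.log p ≤ Real.log X),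
      θ p * ((1 - (p : ℝ)⁻¹)⁻¹) ^ 2 * ((p : ℝ) ^ (c * u / Real.log X - 1) *
        (1 - (p : ℝ) ^ (c * u / Real.log X - 1))⁻¹)
      ≤ ∑ p ∈ PS 0 X, θ p * (p : ℝ)⁻¹ + shM_c1 c := by
  set η := c * u / Real.log X with hηd
  set P := (PS 0 X).filter (fun p : ℕ => u * Real.log p ≤ Real.log X) with hP
  have hη0 : 0 ≤ η := by positivity
  have hA : ∑ p ∈ P, θ p * (p : ℝ)⁻¹ ≤ ∑ p ∈ PS 0 X, θ p * (p : ℝ)⁻¹ :=
    sum_le_sum_of_subset_of_nonneg (filter_subset _ _) fun p _ _ =>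
      mul_nonneg (h0 p) (by positivity)
  have hB : η * ∑ p ∈ P, Real.log p / p ≤ c + 3 := by
    rcases Nat.eq_zero_or_pos u with rfl | hu
    · have : η = 0 := by simp [hηd]
      rw [this]
      linarith only [hc]
    have hu0 : (0 : ℝ) < u := by exact_mod_cast hu
    have hsub : P ⊆ PS 1 (Real.exp (Real.log X / u)) := by
      intro p hp
      obtain ⟨h2, h3⟩ := mem_filter.1 hp
      have hp1 := (mem_PS.1 h2).1
      have hp0 : (0 : ℝ) < p := by exact_mod_cast hp1.pos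
      refine mem_PS.2 ⟨hp1, by exact_mod_cast hp1.one_lt, ?_⟩
      rw [← Real.log_le_iff_le_exp hp0, le_div_iff₀ hu0]
      linarith only [h3]
    have h4 := sum_log_PS (y := 1) (y' := Real.exp (Real.log X / u)) one_pos
      (Real.one_le_exp (by positivity))
    rw [Real.log_exp, Real.log_one, sub_zero] at h4
    have h5 : ∑ p ∈ P, Real.log p / p ≤ Real.log X / u + 30 :=
      le_trans (sum_le_sum_of_subset_of_nonneg hsub fun p _ _ =>
        div_nonneg (Real.log_natCast_nonneg p) (by positivity)) h4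
    have h6 : η * (Real.log X / u) = c := by
      rw [hηd]
      field_simp
    calc η * ∑ p ∈ P, Real.log p / p ≤ η * (Real.log X / u + 30) := by gcongr
      _ = c + 30 * η := by rw [mul_add, h6]; ring
      _ ≤ c + 3 := by linarith only [hη]
  have hC : ∑ p ∈ P, (p : ℝ) ^ (-(3 / 2) : ℝ) ≤ ∑' n : ℕ, (n : ℝ) ^ (-(3 / 2) : ℝ) :=
    (Real.summable_nat_rpow.2 (by norm_num)).sum_le_tsum P fun n _ => by positivity
  calc _ ≤ ∑ p ∈ P, (θ p * (p : ℝ)⁻¹ + Real.exp c * η * (Real.log p / p)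
          + 60 * (p : ℝ) ^ (-(3 / 2) : ℝ)) := by
        refine sum_le_sum fun p hp => ?_
        obtain ⟨h2, h3⟩ := mem_filter.1 hp
        refine shM_loc (mem_PS.1 h2).1 (h0 p) (h1 p) hη0 hη ?_
        rw [hηd, div_mul_eq_mul_div, div_le_iff₀ hl, mul_assoc]
        gcongr
    _ = ∑ p ∈ P, θ p * (p : ℝ)⁻¹ + Real.exp c * (η * ∑ p ∈ P, Real.log p / p)
          + 60 * ∑ p ∈ P, (p : ℝ) ^ (-(3 / 2) : ℝ) := by
        rw [sum_add_distrib, sum_add_distrib, ← mul_sum, ← mul_sum, mul_assoc]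
    _ ≤ ∑ p ∈ PS 0 X, θ p * (p : ℝ)⁻¹ + Real.exp c * (c + 3)
          + 60 * ∑' n : ℕ, (n : ℝ) ^ (-(3 / 2) : ℝ) := by gcongr
    _ = _ := by rw [shM_c1, add_assoc]

/-- One class `u`. -/
lemma shM_class {X u k : ℕ} {c M B : ℝ} (hc : 0 ≤ c) (hl : 0 < Real.log X)
    (hη : c * u / Real.log X ≤ 1 / 10) {θ : ℕ → ℝ} (h0 : ∀ p, 0 ≤ θ p) (h1 : ∀ p, θ p ≤ 1)
    (hM : ∑ p ∈ PS 0 X, θ p * (p : ℝ)⁻¹ + shM_c1 c ≤ M) (hB0 : 0 ≤ B)
    (hB : ∀ t, t < k → k ≤ t + u + 2 → M ^ t / t.factorial ≤ B) :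
    ∑ d ∈ DD X u k, (∏ p ∈ d.primeFactors, θ p) * (rt d / d)
      ≤ Real.exp (c - c * u / 10) * ((u + 2) * B) := by
  set η := c * u / Real.log X with hηd
  set P := (PS 0 X).filter (fun p : ℕ => u * Real.log p ≤ Real.log X) with hP
  have hX1 : (1 : ℝ) ≤ X := by
    rcases Nat.eq_zero_or_pos X with rfl | h
    · simp at hl
    · exact_mod_cast h
  have hmem : ∀ d ∈ DD X u k, d ≠ 0 ∧ d.primeFactors ⊆ P ∧
      u * Real.log X / 10 ≤ u * Real.log d + Real.log X ∧ k ≤ om d + u + 2 ∧ om d < k := by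
    intro d hd
    unfold DD at hd
    rw [mem_filter, mem_Icc] at hd
    obtain ⟨⟨h2, h3⟩, h4, h5, h6, h7⟩ := hd
    refine ⟨by omega, fun p hp => mem_filter.2 ⟨?_, h4 p hp⟩, h5, h6, h7⟩
    have hp1 := Nat.prime_of_mem_primeFactors hp
    refine mem_PS.2 ⟨hp1, by exact_mod_cast hp1.pos, ?_⟩
    have h8 : (d : ℝ) ≤ (X : ℝ) ^ (1 / 10 : ℝ) := (Nat.le_floor_iff (by positivity)).1 h3
    have h9 : (X : ℝ) ^ (1 / 10 : ℝ) ≤ X := by
      conv_rhs => rw [← Real.rpow_one X]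
      exact Real.rpow_le_rpow_of_exponent_le hX1 (by norm_num)
    have h10 : (p : ℝ) ≤ d := by exact_mod_cast Nat.le_of_mem_primeFactors hp
    linarith only [h8, h9, h10]
  have hstep : ∀ d ∈ DD X u k, (∏ p ∈ d.primeFactors, θ p) * (rt d / d)
      ≤ Real.exp (c - c * u / 10) *
        ((∏ p ∈ d.primeFactors, θ p * ((1 - (p : ℝ)⁻¹)⁻¹) ^ 2) * (d : ℝ) ^ (η - 1)) := by
    intro d hd
    obtain ⟨h2, -, h3, -, -⟩ := hmem d hd
    have hd0 : (0 : ℝ) < d := by exact_mod_cast Nat.pos_of_ne_zero h2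
    have h4 : 1 ≤ Real.exp (c - c * u / 10) * (d : ℝ) ^ η := by
      rw [Real.rpow_def_of_pos hd0, ← Real.exp_add]
      refine Real.one_le_exp ?_
      have h5 : c * (u * Real.log X / 10) / Real.log X
          ≤ c * (u * Real.log d + Real.log X) / Real.log X := by gcongr
      have h6 : c * (u * Real.log X / 10) / Real.log X = c * u / 10 := by field_simp
      have h7 : c * (u * Real.log d + Real.log X) / Real.log X = Real.log d * η + c := by
        rw [hηd]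
        field_simp
      linarith only [h5, h6, h7]
    have h8 : 0 ≤ (∏ p ∈ d.primeFactors, θ p) * (rt d / d) :=
      mul_nonneg (prod_nonneg fun p _ => h0 p) (div_nonneg (shM_rt_nonneg d) hd0.le)
    rw [prod_mul_distrib, ← shM_rt h2, Real.rpow_sub hd0, Real.rpow_one]
    calc _ ≤ (Real.exp (c - c * u / 10) * (d : ℝ) ^ η) *
          ((∏ p ∈ d.primeFactors, θ p) * (rt d / d)) := le_mul_of_one_le_left h8 h4
      _ = _ := by ring
  refine (sum_le_sum hstep).trans ?_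
  rw [← mul_sum]
  refine mul_le_mul_of_nonneg_left ?_ (Real.exp_pos _).le
  have hmap : ∀ d ∈ DD X u k, om d ∈ Ico (k - (u + 2)) k := fun d hd => by
    obtain ⟨-, -, -, h2, h3⟩ := hmem d hd
    rw [mem_Ico]
    omega
  rw [← sum_fiberwise_of_maps_to hmap]
  have hPp : ∀ p ∈ P, p.Prime := fun p hp => (mem_PS.1 (mem_filter.1 hp).1).1
  have he : η - 1 < 0 := by linarith only [hη]
  have hμ0 : 0 ≤ ∑ p ∈ P, θ p * ((1 - (p : ℝ)⁻¹)⁻¹) ^ 2 *
      ((p : ℝ) ^ (η - 1) * (1 - (p : ℝ) ^ (η - 1))⁻¹) :=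
    sum_nonneg fun p hp => mul_nonneg (mul_nonneg (h0 p) (sq_nonneg _)) (mul_nonneg (by positivity)
      (inv_nonneg.2 (sub_nonneg.2 (shM_lt_one he (hPp p hp)).le)))
  have hμ := (shM_mass hc hl hη h0 h1).trans hM
  calc _ ≤ ∑ t ∈ Ico (k - (u + 2)) k, B := by
        refine sum_le_sum fun t ht => ?_
        rw [mem_Ico] at ht
        refine (shM_euler hPp (fun p _ => mul_nonneg (h0 p) (sq_nonneg _)) he t _
          fun d hd => ?_).trans (le_trans ?_ (hB t ht.2 (by omega)))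
        · obtain ⟨h2, h3⟩ := mem_filter.1 hd
          exact ⟨(hmem d h2).1, (hmem d h2).2.1, h3⟩
        · gcongr
    _ ≤ (u + 2) * B := by
        rw [sum_const, nsmul_eq_mul, Nat.card_Ico]
        have : ((k - (k - (u + 2)) : ℕ) : ℝ) ≤ u + 2 := by
          exact_mod_cast (by omega : k - (k - (u + 2)) ≤ u + 2)
        gcongr

lemma shM_sum {A : ℝ} (hA : 1 ≤ A) (N : ℕ) :
    ∑ u ∈ range N, (u + 1 : ℝ) ^ 2 * (Real.exp (10 * (Real.log (2 * A) + 2)
        - 10 * (Real.log (2 * A) + 2) * u / 10) * ((u + 2) * (2 * A) ^ (u + 1)))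
      ≤ Real.exp (10 * (Real.log (2 * A) + 2)) * (2 * A) * 72 := by
  have h2A : 0 < 2 * A := by linarith
  have h1 : ∀ u : ℕ, (u + 1 : ℝ) ^ 2 * (Real.exp (10 * (Real.log (2 * A) + 2)
        - 10 * (Real.log (2 * A) + 2) * u / 10) * ((u + 2) * (2 * A) ^ (u + 1)))
      ≤ Real.exp (10 * (Real.log (2 * A) + 2)) * (2 * A) * 36 * (1 / 2) ^ u := by
    intro u
    have h2 : Real.exp (10 * (Real.log (2 * A) + 2) - 10 * (Real.log (2 * A) + 2) * u / 10)
        * (2 * A) ^ u = Real.exp (10 * (Real.log (2 * A) + 2)) * (Real.exp (-u) * Real.exp (-u)) := by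
      have h3 : (2 * A) ^ u = Real.exp (u * Real.log (2 * A)) := by
        rw [Real.exp_nat_mul, Real.exp_log h2A]
      rw [h3, ← Real.exp_add, ← Real.exp_add, ← Real.exp_add]
      congr 1
      ring
    have h4 : Real.exp (-(u : ℝ)) ≤ (1 / 2) ^ u := by
      have h5 : Real.exp (-(u : ℝ)) = Real.exp (-1) ^ u := by
        rw [← Real.exp_nat_mul]
        congr 1
        ring
      have h6 : Real.exp (-1) ≤ 1 / 2 := by
        rw [Real.exp_neg, one_div]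
        refine inv_anti₀ (by norm_num) ?_
        have := Real.add_one_le_exp (1 : ℝ)
        linarith
      rw [h5]
      gcongr
    have h7 : ((u : ℝ) + 1) ^ 2 * (u + 2) * Real.exp (-u) ≤ 36 := by
      have h8 := Real.pow_div_factorial_le_exp ((u : ℝ) + 1) (by positivity) 3
      have h9 : Real.exp ((u : ℝ) + 1) * Real.exp (-u) = Real.exp 1 := by
        rw [← Real.exp_add]
        congr 1
        ring
      have h10 : Real.exp 1 ≤ 3 := by
        have := Real.exp_one_lt_d9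
        linarith only [this]
      have h11 : ((u : ℝ) + 1) ^ 3 ≤ 6 * Real.exp ((u : ℝ) + 1) := by
        have : ((3 : ℕ).factorial : ℝ) = 6 := by norm_num [Nat.factorial]
        rw [this, div_le_iff₀ (by norm_num)] at h8
        linarith only [h8]
      have h12 : ((u : ℝ) + 1) ^ 2 * (u + 2) ≤ 2 * ((u : ℝ) + 1) ^ 3 := by
        have : (0 : ℝ) ≤ u := by positivity
        linarith only [sq_nonneg ((u : ℝ) + 1), mul_nonneg_of_nonpos_of_nonpos (Mathlib.Tactic.Linarith.sub_nonpos_of_le (sq_nonneg (↑u + (1 : ℝ)))) (Mathlib.Tactic.Linarith.sub_nonpos_of_le (Mathlib.Tactic.Linarith.natCast_nonneg ℝ u))]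
      calc _ ≤ 12 * Real.exp ((u : ℝ) + 1) * Real.exp (-u) :=
            mul_le_mul_of_nonneg_right (by linarith only [h8, h12]) (Real.exp_pos _).le
        _ = 12 * Real.exp 1 := by rw [mul_assoc, h9]
        _ ≤ 36 := by linarith only [h10]
    calc _ = (Real.exp (10 * (Real.log (2 * A) + 2) - 10 * (Real.log (2 * A) + 2) * u / 10)
          * (2 * A) ^ u) * (2 * A) * (((u : ℝ) + 1) ^ 2 * (u + 2)) := by ring
      _ = Real.exp (10 * (Real.log (2 * A) + 2)) * (2 * A) *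
          (((u : ℝ) + 1) ^ 2 * (u + 2) * Real.exp (-u)) * Real.exp (-u) := by rw [h2]; ring
      _ ≤ _ := by gcongr
  refine (sum_le_sum fun u _ => h1 u).trans ?_
  rw [← mul_sum]
  have := sum_geometric_two_le N
  calc _ ≤ Real.exp (10 * (Real.log (2 * A) + 2)) * (2 * A) * 36 * 2 := by gcongr
    _ = _ := by ring

lemma shM_shift {X : ℕ} {A : ℝ} (hA : 1 ≤ A) (h : 0 < LL X) {k t u : ℕ} (hk : (k : ℝ) ≤ A * LL X)
    (h1 : t < k) (h2 : k ≤ t + u + 2) : uu X t ≤ A ^ (u + 1) * uu X (k - 1) := by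
  obtain ⟨i, rfl⟩ : ∃ i, k = t + i + 1 := ⟨k - t - 1, by omega⟩
  have h3 : ((t + i : ℕ) : ℝ) ≤ A * LL X := le_trans (by push_cast; linarith only []) hk
  have h4 := uu_pos h (t + i)
  rw [Nat.add_sub_cancel]
  refine (uu_shift h h3).trans ?_
  gcongr
  omega

theorem shiuM (A : ℕ) (hA : 1 ≤ A) : ∃ C : ℝ, 0 < C ∧ ∀ᶠ X : ℕ in atTop, ∀ k k0 : ℕ,
    (k : ℝ) ≤ A * LL X →
    ∑ u ∈ range (⌊√(Real.log X)⌋₊ + 1), (u + 1 : ℝ) ^ 2 * ∑ d ∈ DD X u k, rt d / d
        ≤ C * uu X (k - 1) ∧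
      ∑ u ∈ range (⌊√(Real.log X)⌋₊ + 1), (u + 1 : ℝ) ^ 2 *
          ∑ d ∈ (DD X u k).filter (fun d => (d.primeFactors ∩ EE X).card < k0), rt d / d
        ≤ C * 2 ^ k0 * (24 / 25 : ℝ) ^ k * uu X (k - 1) := by
  have hA1 : (1 : ℝ) ≤ A := by exact_mod_cast hA
  have hlog : 0 ≤ Real.log (2 * (A : ℝ)) := Real.log_nonneg (by linarith only [hA1])
  obtain ⟨c, hcd⟩ : ∃ c : ℝ, c = 10 * (Real.log (2 * (A : ℝ)) + 2) := ⟨_, rfl⟩
  have hc : 0 ≤ c := by rw [hcd]; positivity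
  have hc1 := shM_c1_nonneg hc
  obtain ⟨K, hKd⟩ : ∃ K : ℝ, K = Real.exp ((73 + shM_c1 c) * A) := ⟨_, rfl⟩
  have hK1 : 1 ≤ K := by rw [hKd]; exact Real.one_le_exp (by positivity)
  refine ⟨Real.exp c * (2 * A) * 72 * (2 * K), by positivity, ?_⟩
  have hlt : Tendsto (fun X : ℕ => Real.log X) atTop atTop :=
    Real.tendsto_log_atTop.comp tendsto_natCast_atTop_atTop
  filter_upwards [scales, EE_ok, hlt.eventually_ge_atTop ((10 * c) ^ 2),
    LL_tendsto.eventually_ge_atTop (100 * (73 + shM_c1 c)), eventually_ge_atTop 2]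
    with X hsc hEE hlc hLc hX2 k k0 hk
  have hL : 0 < LL X := by linarith only [hc1, hLc, hsc.1]
  have hl : 0 < Real.log X := by linarith only [hsc, hsc.2.1]
  have hU := uu_pos hL (k - 1)
  have hX2' : (2 : ℝ) ≤ X := by exact_mod_cast hX2
  have hη : ∀ u ∈ range (⌊√(Real.log X)⌋₊ + 1), c * u / Real.log X ≤ 1 / 10 := by
    intro u hu
    have h1 : (u : ℝ) ≤ √(Real.log X) :=
      (Nat.le_floor_iff (Real.sqrt_nonneg _)).1 (Nat.lt_succ_iff.1 (mem_range.1 hu))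
    have h2 : 10 * c ≤ √(Real.log X) := Real.le_sqrt_of_sq_le hlc
    have h3 := Real.mul_self_sqrt hl.le
    rw [div_le_iff₀ hl]
    have h4 : 10 * c * u ≤ √(Real.log X) * √(Real.log X) := by gcongr
    linarith only [h3, h4]
  have hP0 : ∑ p ∈ PS 0 X, (p : ℝ)⁻¹ ≤ LL X + 73 := by
    have := (abs_le.1 (sum_PS0 hX2')).2
    unfold LL
    linarith only [this]
  have hfin : ∀ (W : ℝ) (F : ℕ → ℝ), 0 ≤ W → (∀ u ∈ range (⌊√(Real.log X)⌋₊ + 1),
      F u ≤ Real.exp (c - c * u / 10) * ((u + 2) * ((2 * A) ^ (u + 1) * W))) →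
      ∑ u ∈ range (⌊√(Real.log X)⌋₊ + 1), (u + 1 : ℝ) ^ 2 * F u
        ≤ Real.exp c * (2 * A) * 72 * W := by
    intro W F hW hF
    have h1 := shM_sum hA1 (⌊√(Real.log X)⌋₊ + 1)
    rw [← hcd] at h1
    refine le_trans ?_ (mul_le_mul_of_nonneg_right h1 hW)
    rw [sum_mul]
    refine sum_le_sum fun u hu => ?_
    calc _ ≤ (u + 1 : ℝ) ^ 2 *
          (Real.exp (c - c * u / 10) * ((u + 2) * ((2 * A) ^ (u + 1) * W))) := by
          gcongr
          exact hF u hu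
      _ = _ := by ring
  constructor
  · refine le_trans (hfin (2 * K * uu X (k - 1)) _ (by positivity) fun u hu => ?_)
      (le_of_eq (by ring))
    have h1 := shM_class (k := k) (M := LL X + (73 + shM_c1 c))
      (B := (2 * A) ^ (u + 1) * (2 * K * uu X (k - 1))) hc hl (hη u hu) (θ := fun _ => 1)
      (fun _ => zero_le_one) (fun _ => le_rfl) (by simp only [one_mul]; linarith only [hP0]) (by positivity)
      (fun t h1 h2 => by
        have h3 : (t : ℝ) ≤ A * LL X := le_trans (by exact_mod_cast h1.le) hk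
        have h4 := pow_le_uu (c := 73 + shM_c1 c) hL (by positivity) h3 (by positivity) le_rfl
        have h5 := shM_shift hA1 hL hk h1 h2
        rw [← hKd] at h4
        calc _ ≤ K * uu X t := h4
          _ ≤ K * (A ^ (u + 1) * uu X (k - 1)) := by gcongr
          _ = A ^ (u + 1) * (1 * K * uu X (k - 1)) := by ring
          _ ≤ _ := by gcongr <;> linarith only [hA1])
    simpa using h1
  · refine le_trans (hfin (2 ^ k0 * (2 * K * ((24 / 25 : ℝ) ^ k * uu X (k - 1)))) _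
      (by positivity) fun u hu => ?_) (le_of_eq (by ring))
    have hsub : EE X ⊆ PS 0 X := by
      refine PS_mono (Real.exp_pos _).le ?_
      have h1 : Real.log X ^ (1 / 4 : ℝ) ≤ Real.log X := by
        conv_rhs => rw [← Real.rpow_one (Real.log X)]
        exact Real.rpow_le_rpow_of_exponent_le (by linarith only [hsc, hsc.2.1]) (by norm_num)
      calc _ ≤ Real.exp (Real.log X) := Real.exp_le_exp.2 h1
        _ = X := Real.exp_log (by linarith only [hX2'])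
    have hM : ∑ p ∈ PS 0 X, (if p ∈ EE X then (1 / 2 : ℝ) else 1) * (p : ℝ)⁻¹ + shM_c1 c
        ≤ 24 / 25 * LL X := by
      have h1 : ∑ p ∈ PS 0 X, (if p ∈ EE X then (1 / 2 : ℝ) else 1) * (p : ℝ)⁻¹
          = ∑ p ∈ PS 0 X, (p : ℝ)⁻¹ - 1 / 2 * ∑ p ∈ EE X, (p : ℝ)⁻¹ := by
        have h2 : ∑ p ∈ EE X, (p : ℝ)⁻¹ = ∑ p ∈ PS 0 X, if p ∈ EE X then (p : ℝ)⁻¹ else 0 := by
          rw [sum_ite_mem, inter_eq_right.2 hsub]
        rw [h2, mul_sum, ← sum_sub_distrib]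
        refine sum_congr rfl fun p _ => ?_
        split_ifs <;> ring
      have := hEE.2
      linarith only [hEE, hLc, hP0, h1]
    have h1 := shM_class (k := k) (M := 24 / 25 * LL X)
      (B := (2 * A) ^ (u + 1) * (2 * K * ((24 / 25 : ℝ) ^ k * uu X (k - 1)))) hc hl (hη u hu)
      (θ := fun p => if p ∈ EE X then (1 / 2 : ℝ) else 1)
      (fun _ => by positivity) (fun _ => by split_ifs <;> norm_num) hM (by positivity)
      (fun t h1 h2 => by
        have h5 := shM_shift hA1 hL hk h1 h2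
        have h6 : (24 / 25 : ℝ) ^ t ≤ 2 ^ (u + 2) * (24 / 25 : ℝ) ^ k := by
          obtain ⟨i, rfl⟩ : ∃ i, k = t + i := ⟨k - t, by omega⟩
          have h7 : (1 : ℝ) ≤ 2 ^ (u + 2) * (24 / 25 : ℝ) ^ i :=
            calc (1 : ℝ) ≤ (2 * (24 / 25)) ^ i := one_le_pow₀ (by norm_num)
              _ = 2 ^ i * (24 / 25 : ℝ) ^ i := mul_pow _ _ _
              _ ≤ _ := by
                gcongr
                · norm_num
                · omega
          calc (24 / 25 : ℝ) ^ t ≤ (2 ^ (u + 2) * (24 / 25 : ℝ) ^ i) * (24 / 25 : ℝ) ^ t :=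
                le_mul_of_one_le_left (by positivity) h7
            _ = _ := by ring
        calc (24 / 25 * LL X) ^ t / t.factorial = (24 / 25 : ℝ) ^ t * uu X t := by
              rw [uu, mul_pow, mul_div_assoc]
          _ ≤ (2 ^ (u + 2) * (24 / 25 : ℝ) ^ k) * (A ^ (u + 1) * uu X (k - 1)) := by
              have := uu_pos hL t
              gcongr
          _ = (2 * A) ^ (u + 1) * (2 * 1 * ((24 / 25 : ℝ) ^ k * uu X (k - 1))) := by
              rw [mul_pow]; ring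
          _ ≤ _ := by gcongr)
    calc _ ≤ ∑ d ∈ (DD X u k).filter (fun d => (d.primeFactors ∩ EE X).card < k0), 2 ^ k0 *
          ((∏ p ∈ d.primeFactors, if p ∈ EE X then (1 / 2 : ℝ) else 1) * (rt d / d)) := by
          refine sum_le_sum fun d hd => ?_
          have h2 := (mem_filter.1 hd).2
          have h3 : 0 ≤ rt d / d := div_nonneg (shM_rt_nonneg d) (by positivity)
          rw [← mul_assoc, prod_ite_mem, prod_const]
          refine le_mul_of_one_le_left h3 ?_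
          calc (1 : ℝ) = 2 ^ (d.primeFactors ∩ EE X).card * (1 / 2) ^ (d.primeFactors ∩ EE X).card := by
                rw [← mul_pow]; norm_num
            _ ≤ _ := by
                gcongr
                norm_num
      _ ≤ ∑ d ∈ DD X u k, 2 ^ k0 *
          ((∏ p ∈ d.primeFactors, if p ∈ EE X then (1 / 2 : ℝ) else 1) * (rt d / d)) := by
          refine sum_le_sum_of_subset_of_nonneg (filter_subset _ _) fun d _ _ => ?_
          have h3 : 0 ≤ rt d / d := div_nonneg (shM_rt_nonneg d) (by positivity)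
          have h4 : 0 ≤ ∏ p ∈ d.primeFactors, if p ∈ EE X then (1 / 2 : ℝ) else 1 :=
            prod_nonneg fun p _ => by positivity
          positivity
      _ ≤ 2 ^ k0 * (Real.exp (c - c * u / 10) * ((u + 2) *
          ((2 * A) ^ (u + 1) * (2 * K * ((24 / 25 : ℝ) ^ k * uu X (k - 1)))))) := by
          rw [← mul_sum]
          gcongr
      _ = _ := by ring


end Pool.Agent.Work.MP_51e72e_nt.TE
end

-- merged part: Pool.Agent.Work.MP_51e72e_nt.TEShiuS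
section
/-! Splitting a typical integer. -/

set_option autoImplicit false
open Finset Filter Topology
open Pool.Agent.Work.MP_678620_nt

namespace Pool.Agent.Work.MP_51e72e_nt.TE

lemma shiuS_comb (s W : ℝ) (hs : s ≤ W) (T : Finset ℕ) : W < s * (∏ p ∈ T, p : ℕ) →
    ∃ q ∈ T, s * (∏ p ∈ T.filter (· < q), p : ℕ) ≤ W ∧
      W < s * (∏ p ∈ T.filter (· < q), p : ℕ) * q := by
  induction T using Finset.induction_on_max with
  | empty => intro h; simp at h; linarith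
  | insert a S ha ih =>
    intro h
    have haS : a ∉ S := fun h => lt_irrefl _ (ha a h)
    rcases lt_or_ge W (s * (∏ p ∈ S, p : ℕ)) with h1 | h1
    · obtain ⟨q, hq, h2⟩ := ih h1
      refine ⟨q, mem_insert_of_mem hq, ?_⟩
      rwa [filter_insert, if_neg (ha q hq).not_gt]
    · refine ⟨a, mem_insert_self _ _, ?_⟩
      rw [filter_insert, if_neg (lt_irrefl a), filter_true_of_mem ha]
      rw [prod_insert haS, Nat.cast_mul] at h
      exact ⟨h1, by linarith⟩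

theorem split_typ : ∀ᶠ X : ℕ in atTop, ∀ r : ℕ, Typ X r →
    ∃ u ∈ range (⌊√(Real.log X)⌋₊ + 1), ∃ d ∈ DD X u (om r), d ∣ r ∧
      Rou (Real.exp (Real.log X / (u + 1))) (r / d) ∧
      d.primeFactors ∩ EE X = ZZ (zz X) r ∩ EE X := by
  filter_upwards [scales, eventually_gt_atTop 0] with X ⟨_, hl, hz2, hzY, hY, hlz, hE⟩ hX0 r
    ⟨hsq, hsY, hr1, hr2⟩
  have hX : (0 : ℝ) < X := by exact_mod_cast hX0
  have hY0 : 0 < YY X := Real.exp_pos _
  have hr0' : (0 : ℝ) < r := (div_pos hX hY0).trans_le hr1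
  have hr0 : r ≠ 0 := by exact_mod_cast hr0'.ne'
  have hlY : 100 * Real.log (YY X) ≤ Real.log X := by
    have := Real.log_le_log (pow_pos hY0 _) hY
    rwa [Real.log_pow, Nat.cast_ofNat] at this
  have hW0 : 0 < (X : ℝ) ^ (1 / 10 : ℝ) := Real.rpow_pos_of_pos hX _
  have hW : Real.log ((X : ℝ) ^ (1 / 10 : ℝ)) = Real.log X / 10 := by
    rw [Real.log_rpow hX]; ring
  have hsm := sp_mul_rp (zz X) r
  have hsmo := smo_sp (zz X) r
  have hrou := rou_rp (zz X) hr0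
  generalize sp (zz X) r = s at *
  generalize rp (zz X) r = m at *
  have hm := Nat.prod_primeFactors_of_squarefree hsq
  obtain ⟨q, hq, h1, h2⟩ := shiuS_comb s ((X : ℝ) ^ (1 / 10 : ℝ))
    (hsY.trans ((Real.log_le_log_iff hY0 hW0).1 (by linarith only [hl, hlY, hW]))) m.primeFactors (by
      rw [hm, ← Nat.cast_mul, hsm]
      refine lt_of_lt_of_le ((Real.log_lt_log_iff hW0 (div_pos hX hY0)).1 ?_) hr1
      rw [Real.log_div hX.ne' hY0.ne']
      linarith only [hl, hlY, hW])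
  rw [← Nat.cast_mul] at h1 h2
  have hB : (∏ p ∈ m.primeFactors.filter (fun p => ¬ p < q), p).primeFactors =
      m.primeFactors.filter (fun p => ¬ p < q) :=
    Nat.primeFactors_prod fun p hp => Nat.prime_of_mem_primeFactors (mem_filter.1 hp).1
  have hqB : q ∈ m.primeFactors.filter (fun p => ¬ p < q) := mem_filter.2 ⟨hq, lt_irrefl q⟩
  have hpow : q ^ (m.primeFactors.filter (fun p => ¬ p < q)).card ≤
      ∏ p ∈ m.primeFactors.filter (fun p => ¬ p < q), p :=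
    pow_card_le_prod _ _ _ fun p hp => not_lt.1 (mem_filter.1 hp).2
  have hBq : ∀ p ∈ m.primeFactors.filter (fun p => ¬ p < q), q ≤ p :=
    fun p hp => not_lt.1 (mem_filter.1 hp).2
  have hqp := Nat.prime_of_mem_primeFactors hq
  have hzq : zz X < q := hrou q hqp (Nat.dvd_of_mem_primeFactors hq)
  have hd : ∀ p : ℕ, p.Prime → p ∣ s * ∏ p ∈ m.primeFactors.filter (· < q), p → p < q := by
    intro p hp h
    rcases hp.dvd_mul.1 h with h | h
    · exact_mod_cast (hsmo p hp h).trans_lt hzq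
    · obtain ⟨p', hp', h⟩ := (Prime.dvd_finsetProd_iff hp.prime _).1 h
      rw [(Nat.prime_dvd_prime_iff_eq hp (Nat.prime_of_mem_primeFactors (mem_filter.1 hp').1)).1 h]
      exact (mem_filter.1 hp').2
  have hdr : (s * ∏ p ∈ m.primeFactors.filter (· < q), p) *
      ∏ p ∈ m.primeFactors.filter (fun p => ¬ p < q), p = r := by
    rw [mul_assoc, prod_filter_mul_prod_filter_not, hm, hsm]
  generalize s * ∏ p ∈ m.primeFactors.filter (· < q), p = d at *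
  generalize ∏ p ∈ m.primeFactors.filter (fun p => ¬ p < q), p = e at *
  generalize m.primeFactors.filter (fun p => ¬ p < q) = B at *
  have hd0 : d ≠ 0 := left_ne_zero_of_mul (hdr ▸ hr0)
  have he0 : e ≠ 0 := right_ne_zero_of_mul (hdr ▸ hr0)
  have hd0' : (0 : ℝ) < d := by exact_mod_cast Nat.pos_of_ne_zero hd0
  have hq0 : (0 : ℝ) < q := by exact_mod_cast hqp.pos
  have he : ∀ p : ℕ, p.Prime → p ∣ e → q ≤ p := fun p hp h =>
    hBq p (hB ▸ Nat.mem_primeFactors.2 ⟨hp, h, he0⟩)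
  have hom : om r = om d + B.card := by
    rw [om, om, ← hdr, Nat.primeFactors_mul hd0 he0, hB, card_union_of_disjoint]
    exact disjoint_left.2 fun p hp hp' => (hBq p hp').not_gt
      (hd p (Nat.prime_of_mem_primeFactors hp) (Nat.dvd_of_mem_primeFactors hp))
  have hL0 : 0 < Real.log q := Real.log_pos (by linarith only [hz2, hzq])
  have hLs : √(Real.log X) ≤ Real.log q := by
    rw [Real.sqrt_eq_rpow]
    refine (Real.rpow_le_rpow_of_exponent_le (z := 24 / 25) (by linarith only [hl]) (by norm_num)).trans ?_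
    exact (Real.le_log_iff_exp_le hq0).2 hzq.le
  have hu1 : (⌊Real.log X / Real.log q⌋₊ : ℝ) * Real.log q ≤ Real.log X :=
    (le_div_iff₀ hL0).1 (Nat.floor_le (by positivity))
  have hu2 : Real.log X < ((⌊Real.log X / Real.log q⌋₊ : ℝ) + 1) * Real.log q :=
    (div_lt_iff₀ hL0).1 (Nat.lt_floor_add_one _)
  have hu3 : ⌊Real.log X / Real.log q⌋₊ ≤ ⌊√(Real.log X)⌋₊ := by
    refine Nat.floor_mono ((div_le_iff₀ hL0).2 ?_)
    have := Real.mul_self_sqrt (show 0 ≤ Real.log X by linarith only [hl])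
    linarith only [this, hLs, Real.sqrt_nonneg (Real.log X), mul_nonneg_of_nonpos_of_nonpos (Mathlib.Tactic.Linarith.sub_nonpos_of_le hLs) (Mathlib.Tactic.Linarith.sub_nonpos_of_le (Real.sqrt_nonneg (Real.log ↑X)))]
  generalize ⌊Real.log X / Real.log q⌋₊ = u at *
  have hu0 : (0 : ℝ) ≤ u := Nat.cast_nonneg u
  have hc : B.card < u + 2 := by
    have h3 : (q : ℝ) ^ B.card ≤ r := by
      exact_mod_cast hpow.trans (Nat.le_of_dvd (Nat.pos_of_ne_zero hr0) ⟨d, by rw [← hdr, mul_comm]⟩)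
    have h4 := Real.log_le_log (pow_pos hq0 _) (h3.trans hr2)
    rw [Real.log_pow, Real.log_mul hX.ne' (by linarith only [hl])] at h4
    have h5 := Real.log_le_log (by linarith only [hl]) (hlz.trans hzq.le)
    have h6 : (B.card : ℝ) < u + 2 := lt_of_mul_lt_mul_right (by linarith only [hu2, h4, h5]) hL0.le
    exact_mod_cast h6
  have hc1 : 0 < B.card := card_pos.2 ⟨q, hqB⟩
  refine ⟨u, mem_range.2 (by omega), d, ?_, ⟨e, hdr.symm⟩, ?_, ?_⟩
  · unfold DD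
    refine mem_filter.2 ⟨mem_Icc.2 ⟨Nat.pos_of_ne_zero hd0, Nat.le_floor h1⟩, fun p hp => ?_, ?_,
      by omega, by omega⟩
    · have hp' := Nat.prime_of_mem_primeFactors hp
      refine le_trans (mul_le_mul_of_nonneg_left (Real.log_le_log ?_ ?_) hu0) hu1
      · exact_mod_cast hp'.pos
      · exact_mod_cast (hd p hp' (Nat.dvd_of_mem_primeFactors hp)).le
    · have h3 := Real.log_le_log hW0 h2.le
      rw [hW, Real.log_mul hd0'.ne' hq0.ne'] at h3
      have := mul_le_mul_of_nonneg_left h3 hu0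
      linarith only [hu1, this]
  · rw [← hdr, Nat.mul_div_cancel_left _ (Nat.pos_of_ne_zero hd0)]
    intro p hp h
    refine lt_of_lt_of_le ((Real.lt_log_iff_exp_lt hq0).1 ?_) (by exact_mod_cast he p hp h)
    rw [div_lt_iff₀ (by positivity)]
    linarith only [hu2]
  · ext p
    simp only [mem_inter, mem_ZZ, Nat.mem_primeFactors, and_congr_left_iff]
    intro hp
    have h3 : (p : ℝ) ≤ zz X := (mem_PS.1 hp).2.2.trans hE
    refine ⟨fun h => ⟨h.1, h3, h.2.1.trans ⟨e, hdr.symm⟩⟩, fun h => ⟨h.1, ?_, hd0⟩⟩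
    refine (h.1.dvd_mul.1 (hdr ▸ h.2.2)).resolve_right fun h4 => ?_
    have h5 : (q : ℝ) ≤ p := by exact_mod_cast he p h.1 h4
    linarith only [hzq, h3, h5]

end Pool.Agent.Work.MP_51e72e_nt.TE
end

-- merged part: Pool.Agent.Work.MP_51e72e_nt.TEShiuB
section
/-! Few primes of `EE X` is rare. -/

set_option autoImplicit false
open Finset Filter Topology
open Pool.Agent.Work.MP_678620_nt

namespace Pool.Agent.Work.MP_51e72e_nt.TE

lemma shB_rou {w w' : ℝ} (h : w ≤ w') {n : ℕ} (hn : Rou w' n) : Rou w n :=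
  fun p hp hd => h.trans_lt (hn p hp hd)

lemma shB_rt (d : ℕ) : 0 ≤ rt d := sq_nonneg _

lemma shB_DD {X u k d : ℕ} (hX : 0 < X) (h : d ∈ DD X u k) :
    0 < d ∧ (d : ℝ) ≤ Real.exp (Real.log X / 10) := by
  classical
  unfold DD at h
  obtain ⟨h1, h2⟩ := mem_Icc.1 (mem_filter.1 h).1
  have hX' : (0 : ℝ) < X := by exact_mod_cast hX
  refine ⟨h1, ?_⟩
  have h3 : (d : ℝ) ≤ (X : ℝ) ^ (1 / 10 : ℝ) :=
    (Nat.le_floor_iff (Real.rpow_nonneg hX'.le _)).1 h2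
  rwa [Real.rpow_def_of_pos hX', mul_one_div] at h3

/-- the sieving level attached to a pair of classes -/
noncomputable def shBw (X u₁ u₂ : ℕ) : ℝ :=
  Real.exp (Real.log X / (100 * ((u₁ + 1 : ℝ) * (u₂ + 1))))

/-- the sifted set attached to a pair of classes and small parts -/
noncomputable def shBF (a₁ b₁ a₂ b₂ : ℤ) (X : ℕ) (p q : Σ _ : ℕ, ℕ) : Finset ℕ :=
  (Icc 1 X).filter fun n => p.2 ∣ val a₁ b₁ n ∧ q.2 ∣ val a₂ b₂ n ∧
    Rou (shBw X p.1 q.1) (val a₁ b₁ n / p.2) ∧ Rou (shBw X p.1 q.1) (val a₂ b₂ n / q.2)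

/-- the weight of a class and small part -/
noncomputable def shBg (p : Σ _ : ℕ, ℕ) : ℝ := (p.1 + 1 : ℝ) ^ 2 * (rt p.2 / p.2)

lemma shB_w_le {X : ℕ} (hl : 0 ≤ Real.log X) (u₁ u₂ : ℕ) :
    shBw X u₁ u₂ ≤ Real.exp (Real.log X / (u₁ + 1)) ∧
      shBw X u₁ u₂ ≤ Real.exp (Real.log X / (u₂ + 1)) := by
  have h1 : (0 : ℝ) ≤ u₁ := Nat.cast_nonneg _
  have h2 : (0 : ℝ) ≤ u₂ := Nat.cast_nonneg _
  have h3 := mul_nonneg h1 h2
  unfold shBw
  constructor
  · exact Real.exp_le_exp.2 (div_le_div_of_nonneg_left hl (by positivity) (by linarith only [h3]))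
  · exact Real.exp_le_exp.2 (div_le_div_of_nonneg_left hl (by positivity) (by linarith only [h3]))

lemma shB_one {a₁ b₁ a₂ b₂ : ℤ} {C : ℝ} (hC : 0 < C)
    (h : ∀ N d₁ d₂ : ℕ, 0 < d₁ → 0 < d₂ → ∀ w : ℝ, 1 < w →
      (((Icc 1 N).filter fun n => d₁ ∣ val a₁ b₁ n ∧ d₂ ∣ val a₂ b₂ n ∧
        Rou w (val a₁ b₁ n / d₁) ∧ Rou w (val a₂ b₂ n / d₂)).card : ℝ)
      ≤ C * (N / (d₁ * d₂) + 1) * (rt d₁ * rt d₂) / Real.log w ^ 2 + w ^ 8)
    {X : ℕ} (hX : 0 < X) (hl : 0 < Real.log X) (p q : Σ _ : ℕ, ℕ)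
    (hp : 0 < p.2 ∧ (p.2 : ℝ) ≤ Real.exp (Real.log X / 10))
    (hq : 0 < q.2 ∧ (q.2 : ℝ) ≤ Real.exp (Real.log X / 10)) :
    ((shBF a₁ b₁ a₂ b₂ X p q).card : ℝ) ≤
      20000 * C * (X / Real.log X ^ 2) * (shBg p * shBg q) + Real.exp (Real.log X / 10) := by
  obtain ⟨u₁, d₁⟩ := p
  obtain ⟨u₂, d₂⟩ := q
  simp only at hp hq
  have hX' : (0 : ℝ) < X := by exact_mod_cast hX
  have h1 : (0 : ℝ) ≤ u₁ := Nat.cast_nonneg _
  have h2 : (0 : ℝ) ≤ u₂ := Nat.cast_nonneg _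
  have h3 := mul_nonneg h1 h2
  have hd₁ : (0 : ℝ) < d₁ := by exact_mod_cast hp.1
  have hd₂ : (0 : ℝ) < d₂ := by exact_mod_cast hq.1
  have hw : 1 < shBw X u₁ u₂ := Real.one_lt_exp_iff.2 (by positivity)
  refine (h X d₁ d₂ hp.1 hq.1 _ hw).trans (add_le_add ?_ ?_)
  · have h4 : (d₁ : ℝ) * d₂ ≤ X := by
      calc (d₁ : ℝ) * d₂ ≤ Real.exp (Real.log X / 10) * Real.exp (Real.log X / 10) :=
            mul_le_mul hp.2 hq.2 hd₂.le (Real.exp_pos _).le
        _ = Real.exp (Real.log X / 10 + Real.log X / 10) := (Real.exp_add _ _).symm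
        _ ≤ Real.exp (Real.log X) := Real.exp_le_exp.2 (by linarith only [hl])
        _ = X := Real.exp_log hX'
    have h5 : (X : ℝ) / (d₁ * d₂) + 1 ≤ 2 * (X / (d₁ * d₂)) := by
      have : 1 ≤ (X : ℝ) / (d₁ * d₂) := (one_le_div (by positivity)).2 h4
      linarith only [this]
    have h6 := shB_rt d₁
    have h7 := shB_rt d₂
    unfold shBw shBg
    rw [Real.log_exp]
    calc _ ≤ C * (2 * (X / (d₁ * d₂))) * (rt d₁ * rt d₂) /
          (Real.log X / (100 * ((u₁ + 1 : ℝ) * (u₂ + 1)))) ^ 2 := by gcongr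
      _ = _ := by field_simp; ring
  · unfold shBw
    rw [← Real.exp_nat_mul]
    refine Real.exp_le_exp.2 ?_
    have h4 : Real.log X / (100 * ((u₁ + 1 : ℝ) * (u₂ + 1))) ≤ Real.log X / 100 :=
      div_le_div_of_nonneg_left hl.le (by norm_num) (by linarith only [h3])
    push_cast
    linarith only [hl, h4]

lemma shB_card {X : ℕ} (hl : 1 ≤ Real.log X) (D : ℕ → Finset ℕ)
    (hD : ∀ u, ∀ d ∈ D u, 0 < d ∧ (d : ℝ) ≤ Real.exp (Real.log X / 10)) :
    (((range (⌊√(Real.log X)⌋₊ + 1)).sigma D).card : ℝ) ≤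
      2 * √(Real.log X) * Real.exp (Real.log X / 10) := by
  have h1 : ∀ u, ((D u).card : ℝ) ≤ Real.exp (Real.log X / 10) := by
    intro u
    have h2 : D u ⊆ Icc 1 ⌊Real.exp (Real.log X / 10)⌋₊ := fun d hd =>
      mem_Icc.2 ⟨(hD u d hd).1, Nat.le_floor (hD u d hd).2⟩
    have h3 := card_le_card h2
    rw [Nat.card_Icc, Nat.add_sub_cancel] at h3
    exact le_trans (by exact_mod_cast h3) (Nat.floor_le (Real.exp_pos _).le)
  rw [card_sigma, Nat.cast_sum]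
  refine (sum_le_card_nsmul _ _ _ fun u _ => h1 u).trans ?_
  rw [nsmul_eq_mul, card_range]
  refine mul_le_mul_of_nonneg_right ?_ (Real.exp_pos _).le
  have h4 : (⌊√(Real.log X)⌋₊ : ℝ) ≤ √(Real.log X) := Nat.floor_le (Real.sqrt_nonneg _)
  have h5 : 1 ≤ √(Real.log X) := Real.one_le_sqrt.2 hl
  push_cast
  linarith

lemma shB_sum (U : Finset ℕ) (D : ℕ → Finset ℕ) :
    ∑ p ∈ U.sigma D, shBg p = ∑ u ∈ U, (u + 1 : ℝ) ^ 2 * ∑ d ∈ D u, rt d / d := by
  rw [sum_sigma]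
  refine sum_congr rfl fun u _ => ?_
  rw [mul_sum]
  rfl

lemma shB_g (p : Σ _ : ℕ, ℕ) : 0 ≤ shBg p :=
  mul_nonneg (sq_nonneg _) (div_nonneg (shB_rt _) (Nat.cast_nonneg _))

lemma shB_cover (a₁ b₁ a₂ b₂ : ℤ) {X : ℕ} (hl : 0 ≤ Real.log X) (k0 k₁ k₂ : ℕ)
    (h : ∀ r : ℕ, Typ X r → ∃ u ∈ range (⌊√(Real.log X)⌋₊ + 1), ∃ d ∈ DD X u (om r), d ∣ r ∧
      Rou (Real.exp (Real.log X / (u + 1))) (r / d) ∧
      d.primeFactors ∩ EE X = ZZ (zz X) r ∩ EE X) :
    cntB a₁ b₁ a₂ b₂ X k0 k₁ k₂ ≤ ((Icc 1 X).filter fun n => ¬ Typ X (val a₁ b₁ n)).card +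
      ((Icc 1 X).filter fun n => ¬ Typ X (val a₂ b₂ n)).card +
      ∑ p ∈ (range (⌊√(Real.log X)⌋₊ + 1)).sigma
          (fun u => (DD X u k₁).filter (fun d => (d.primeFactors ∩ EE X).card < k0)),
        ∑ q ∈ (range (⌊√(Real.log X)⌋₊ + 1)).sigma (fun u => DD X u k₂),
          (shBF a₁ b₁ a₂ b₂ X p q).card := by
  refine le_trans ?_ (add_le_add (card_union_le _ _) (sum_le_sum fun p _ => card_biUnion_le))
  refine le_trans ?_ (add_le_add le_rfl card_biUnion_le)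
  refine le_trans (card_le_card fun n hn => ?_) (card_union_le _ _)
  obtain ⟨h0, h1, h2, h3⟩ := mem_filter.1 hn
  by_cases t1 : Typ X (val a₁ b₁ n)
  swap
  · exact mem_union_left _ (mem_union_left _ (mem_filter.2 ⟨h0, t1⟩))
  by_cases t2 : Typ X (val a₂ b₂ n)
  swap
  · exact mem_union_left _ (mem_union_right _ (mem_filter.2 ⟨h0, t2⟩))
  obtain ⟨u₁, hu₁, d₁, hd₁, e₁, r₁, z₁⟩ := h _ t1
  obtain ⟨u₂, hu₂, d₂, hd₂, e₂, r₂, -⟩ := h _ t2
  rw [h1] at hd₁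
  rw [h2] at hd₂
  refine mem_union_right _ (mem_biUnion.2 ⟨⟨u₁, d₁⟩, mem_sigma.2 ⟨hu₁, mem_filter.2 ⟨hd₁, ?_⟩⟩,
    mem_biUnion.2 ⟨⟨u₂, d₂⟩, mem_sigma.2 ⟨hu₂, hd₂⟩, mem_filter.2 ⟨h0, e₁, e₂,
      shB_rou (shB_w_le hl u₁ u₂).1 r₁, shB_rou (shB_w_le hl u₁ u₂).2 r₂⟩⟩⟩)
  rwa [z₁]

theorem shiuB {a₁ b₁ a₂ b₂ : ℤ} (hF : Frm a₁ b₁ a₂ b₂) (A k0 : ℕ) {ε : ℝ} (hε : 0 < ε) :
    ∃ K : ℕ, ∀ᶠ X : ℕ in atTop, ∀ k₁ k₂ : ℕ, K ≤ k₁ → (k₁ : ℝ) ≤ A * LL X → (k₂ : ℝ) ≤ A * LL X →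
    (cntB a₁ b₁ a₂ b₂ X k0 k₁ k₂ : ℝ)
      ≤ ε * (X / Real.log X ^ 2 * (uu X (k₁ - 1) * uu X (k₂ - 1))) := by
  obtain ⟨C, hC, hA⟩ := shiuA hF
  obtain ⟨C', hC', hM⟩ := shiuM (A + 1) (by omega)
  obtain ⟨K, hK⟩ := exists_pow_lt_of_lt_one
    (show 0 < ε / 2 / (20000 * C * (C' * 2 ^ k0 * C')) by positivity)
    (show (24 / 25 : ℝ) < 1 by norm_num)
  have t2 : Tendsto (fun x : ℕ => Real.log x) atTop atTop :=
    Real.tendsto_log_atTop.comp tendsto_natCast_atTop_atTop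
  refine ⟨K, ?_⟩
  filter_upwards [hM, split_typ, exc_card hF.pos₁ hF.cop₁ (2 * A ^ 2 + 3),
    exc_card hF.pos₂ hF.cop₂ (2 * A ^ 2 + 3), uu_lower A, scales,
    log_pow_le 16 (2 * (2 * A ^ 2 + 4)) one_pos, t2.eventually_ge_atTop (6 / ε),
    eventually_gt_atTop 0] with X hM hS hE₁ hE₂ hU hsc hP hl6 hX k₁ k₂ hk hk₁ hk₂
  obtain ⟨hL, hl, -⟩ := hsc
  have hX' : (0 : ℝ) < X := by exact_mod_cast hX
  have hl0 : 0 < Real.log X := by linarith only [hl]
  have hc := shB_cover a₁ b₁ a₂ b₂ hl0.le k0 k₁ k₂ hS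
  have hM₁ := (hM k₁ k0 (by push_cast; linarith only [hk₁, hL])).2
  have hM₂ := (hM k₂ k0 (by push_cast; linarith only [hk₂, hL])).1
  rw [← shB_sum] at hM₁ hM₂
  have hD₁ : ∀ u, ∀ d ∈ (DD X u k₁).filter (fun d => (d.primeFactors ∩ EE X).card < k0),
      0 < d ∧ (d : ℝ) ≤ Real.exp (Real.log X / 10) := fun u d hd => shB_DD hX (mem_filter.1 hd).1
  have hD₂ : ∀ u, ∀ d ∈ DD X u k₂, 0 < d ∧ (d : ℝ) ≤ Real.exp (Real.log X / 10) :=
    fun u d hd => shB_DD hX hd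
  have c₁ := shB_card (by linarith only [hl]) _ hD₁
  have c₂ := shB_card (by linarith only [hl]) _ hD₂
  set P := (range (⌊√(Real.log X)⌋₊ + 1)).sigma
    (fun u => (DD X u k₁).filter (fun d => (d.primeFactors ∩ EE X).card < k0)) with hPd
  set Q := (range (⌊√(Real.log X)⌋₊ + 1)).sigma (fun u => DD X u k₂) with hQd
  have u₁ := uu_pos (X := X) (by linarith only [hL]) (k₁ - 1)
  have u₂ := uu_pos (X := X) (by linarith only [hL]) (k₂ - 1)
  have v₁ := hU (k₁ - 1) (le_trans (by exact_mod_cast Nat.sub_le k₁ 1) hk₁)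
  have v₂ := hU (k₂ - 1) (le_trans (by exact_mod_cast Nat.sub_le k₂ 1) hk₂)
  have s1 : ∑ p ∈ P, ∑ q ∈ Q, ((shBF a₁ b₁ a₂ b₂ X p q).card : ℝ) ≤
      20000 * C * (X / Real.log X ^ 2) * ((∑ p ∈ P, shBg p) * ∑ q ∈ Q, shBg q) +
        P.card * (Q.card * Real.exp (Real.log X / 10)) := by
    refine (sum_le_sum fun p hp => sum_le_sum fun q hq => shB_one hC hA hX hl0 p q
      (hD₁ _ _ (mem_sigma.1 hp).2) (hD₂ _ _ (mem_sigma.1 hq).2)).trans (le_of_eq ?_)
    simp only [sum_add_distrib, sum_const, nsmul_eq_mul]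
    rw [sum_mul_sum]
    simp only [mul_sum, hPd, hQd]
  have s2 : 20000 * C * (X / Real.log X ^ 2) * ((∑ p ∈ P, shBg p) * ∑ q ∈ Q, shBg q) ≤
      ε / 2 * (X / Real.log X ^ 2 * (uu X (k₁ - 1) * uu X (k₂ - 1))) := by
    have h1 : (24 / 25 : ℝ) ^ k₁ ≤ ε / 2 / (20000 * C * (C' * 2 ^ k0 * C')) :=
      (pow_le_pow_of_le_one (by norm_num) (by norm_num) hk).trans hK.le
    have h2 : 0 ≤ ∑ q ∈ Q, shBg q := sum_nonneg fun q _ => shB_g q
    calc _ ≤ 20000 * C * (X / Real.log X ^ 2) *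
          ((C' * 2 ^ k0 * (24 / 25 : ℝ) ^ k₁ * uu X (k₁ - 1)) * (C' * uu X (k₂ - 1))) := by
          gcongr
      _ ≤ 20000 * C * (X / Real.log X ^ 2) *
          ((C' * 2 ^ k0 * (ε / 2 / (20000 * C * (C' * 2 ^ k0 * C'))) * uu X (k₁ - 1)) *
            (C' * uu X (k₂ - 1))) := by gcongr
      _ = _ := by field_simp
  have s3 : (P.card : ℝ) * (Q.card * Real.exp (Real.log X / 10)) ≤
      X / Real.log X ^ (2 * A ^ 2 + 3) := by
    have h1 : 4 * Real.log X ^ (2 * A ^ 2 + 4) ≤ Real.exp (Real.log X / 2) := by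
      refine (pow_le_pow_iff_left₀ (by positivity) (Real.exp_pos _).le two_ne_zero).1 ?_
      rw [Real.rpow_one] at hP
      rw [← Real.exp_nat_mul, mul_pow, ← pow_mul, mul_comm (2 * A ^ 2 + 4) 2]
      refine le_trans (le_of_eq (by norm_num)) (hP.trans (le_of_eq ?_))
      congr 1
      push_cast
      ring
    rw [le_div_iff₀ (by positivity)]
    calc _ ≤ (2 * √(Real.log X) * Real.exp (Real.log X / 10)) *
          ((2 * √(Real.log X) * Real.exp (Real.log X / 10)) * Real.exp (Real.log X / 10)) *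
          Real.log X ^ (2 * A ^ 2 + 3) := by gcongr
      _ = 4 * (√(Real.log X) * √(Real.log X) * Real.log X ^ (2 * A ^ 2 + 3)) *
          Real.exp (Real.log X / 10) ^ 3 := by ring
      _ = 4 * Real.log X ^ (2 * A ^ 2 + 4) * Real.exp (Real.log X / 10) ^ 3 := by
          rw [Real.mul_self_sqrt hl0.le, ← pow_succ']
      _ ≤ Real.exp (Real.log X / 2) * Real.exp (Real.log X / 10) ^ 3 := by gcongr
      _ ≤ Real.exp (Real.log X) := by
          rw [← Real.exp_nat_mul, ← Real.exp_add]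
          refine Real.exp_le_exp.2 ?_
          push_cast
          linarith only [hl]
      _ = X := Real.exp_log hX'
  have s4 : 3 * (X / Real.log X ^ (2 * A ^ 2 + 3)) ≤
      ε / 2 * (X / Real.log X ^ 2 * (uu X (k₁ - 1) * uu X (k₂ - 1))) := by
    have h1 : 3 / Real.log X ≤ ε / 2 := by
      rw [div_le_iff₀ hε] at hl6
      rw [div_le_iff₀ hl0]
      linarith only [hl6]
    calc _ = 3 / Real.log X * (X / Real.log X ^ 2 *
          (1 / Real.log X ^ (A ^ 2) * (1 / Real.log X ^ (A ^ 2)))) := by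
          rw [pow_add, two_mul, pow_add]
          field_simp
      _ ≤ _ := by gcongr
  have hc' : (cntB a₁ b₁ a₂ b₂ X k0 k₁ k₂ : ℝ) ≤
      ((Icc 1 X).filter fun n => ¬ Typ X (val a₁ b₁ n)).card +
      ((Icc 1 X).filter fun n => ¬ Typ X (val a₂ b₂ n)).card +
      ∑ p ∈ P, ∑ q ∈ Q, ((shBF a₁ b₁ a₂ b₂ X p q).card : ℝ) := by exact_mod_cast hc
  linarith only [hE₁, hE₂, s1, s2, s3, s4, hc']

end Pool.Agent.Work.MP_51e72e_nt.TE
end
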