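import Pool.Agent.Work.MP_51e72e_nt.TETP
import Pool.Agent.Work.MP_51e72e_nt.TEM1
import Pool.Agent.Work.MP_51e72e_nt.TEModA
import Pool.Agent.Work.MP_51e72e_nt.TEShiuB

/-! The two-point asymptotic. -/

set_option autoImplicit false
open Finset Filter Topology
open Pool.Agent.Work.MP_678620_nt

namespace Pool.Agent.Work.MP_51e72e_nt.TE

lemma M2_term {m c₁ c₂ c₁' c₂' e₁ e₂ t₁ t₂ w₁ w₂ C δ σ A κ ρ : ℝ}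
    (hm1 : m ≤ c₁ * c₂) (hm2 : c₁ * c₂ - σ * (c₁' * c₂') - κ * (e₁ * c₂ + c₁ * e₂) ≤ m)
    (hc₁ : 0 ≤ c₁) (hc₂ : 0 ≤ c₂) (hc₂' : 0 ≤ c₂') (ht₁ : 0 ≤ t₁)
    (hσ : 0 ≤ σ) (hκ : 0 ≤ κ) (hw₁ : 0 ≤ w₁) (hw₂ : 0 ≤ w₂) (hC : 0 ≤ C) (hA : 0 ≤ A)
    (hρ : 0 ≤ ρ) (hδ : 0 ≤ δ)
    (b₁ : c₁ ≤ C * w₁) (b₂ : c₂ ≤ C * w₂) (b₁' : c₁' ≤ C * A * w₁) (b₂' : c₂' ≤ C * A * w₂)
    (d₁ : e₁ ≤ ρ * w₁) (d₂ : e₂ ≤ ρ * w₂) (f₁ : t₁ ≤ C * w₁)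
    (g₁ : |c₁ - t₁| ≤ δ * w₁) (g₂ : |c₂ - t₂| ≤ δ * w₂) :
    |m - t₁ * t₂| ≤ (2 * C * δ + σ * (C * A) ^ 2 + 2 * κ * ρ * C) * (w₁ * w₂) := by
  have h1 : |c₁ * c₂ - t₁ * t₂| ≤ 2 * C * δ * (w₁ * w₂) := by
    calc _ = |(c₁ - t₁) * c₂ + t₁ * (c₂ - t₂)| := by ring_nf
      _ ≤ |c₁ - t₁| * c₂ + t₁ * |c₂ - t₂| := by
        refine (abs_add_le _ _).trans ?_
        rw [abs_mul, abs_mul, abs_of_nonneg hc₂, abs_of_nonneg ht₁]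
      _ ≤ (δ * w₁) * (C * w₂) + (C * w₁) * (δ * w₂) := by gcongr
      _ = _ := by ring
  have h2 : c₁' * c₂' ≤ (C * A * w₁) * (C * A * w₂) := by gcongr
  have h3 : e₁ * c₂ ≤ (ρ * w₁) * (C * w₂) := by gcongr
  have h4 : c₁ * e₂ ≤ (C * w₁) * (ρ * w₂) :=
    (mul_le_mul_of_nonneg_left d₂ hc₁).trans (by gcongr)
  have h5 : σ * (c₁' * c₂') ≤ σ * ((C * A * w₁) * (C * A * w₂)) := by gcongr
  have h6 : κ * (e₁ * c₂ + c₁ * e₂) ≤ κ * ((ρ * w₁) * (C * w₂) + (C * w₁) * (ρ * w₂)) := by gcongr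
  have h7 : 0 ≤ σ * (C * A) ^ 2 * (w₁ * w₂) := by positivity
  have h8 : 0 ≤ 2 * κ * ρ * C * (w₁ * w₂) := by positivity
  rw [abs_le] at h1 ⊢
  constructor <;> linarith only [hm2, h1, h5, h6, hm1, h1.1, h1.2]

/-- The model expectation against the main term. -/
lemma M2_mid {a₁ b₁ a₂ b₂ : ℤ} (hF : Frm a₁ b₁ a₂ b₂) (A : ℕ) (hA : 1 ≤ A) :
    ∃ D : ℝ, 0 < D ∧ ∀ P₀ : ℕ, 4 ≤ P₀ → (a₁ * a₂ * (a₁ * b₂ - a₂ * b₁)).natAbs ≤ P₀ →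
    ∀ ε : ℝ, 0 < ε → ∀ᶠ X : ℕ in atTop, ∀ y : ℝ, (X : ℝ) / YY X ^ 3 ≤ y → y ≤ X →
    ∀ k0 K k₁ k₂ : ℕ, P₀ < K → K ≤ k₁ → K ≤ k₂ → (k₁ : ℝ) ≤ A * LL X → (k₂ : ℝ) ≤ A * LL X →
    (Vz P₀)⁻¹ ^ 2 * G2 a₁ b₁ a₂ b₂ P₀ (k₁ / LL X) (k₂ / LL X) *
        (ph X P₀ (k₁ - 1) * ph X P₀ (k₂ - 1))
      ≤ (Vz P₀)⁻¹ ^ 2 * G2 a₁ b₁ a₂ b₂ P₀ A A * D * (uu X (k₁ - 1) * uu X (k₂ - 1)) ∧
    |(Vz (zz X))⁻¹ ^ 2 * Ex2 a₁ b₁ a₂ b₂ X k0 (TT X y) k₁ k₂ - (Vz P₀)⁻¹ ^ 2 *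
        G2 a₁ b₁ a₂ b₂ P₀ (k₁ / LL X) (k₂ / LL X) * (ph X P₀ (k₁ - 1) * ph X P₀ (k₂ - 1))|
      ≤ (Vz P₀)⁻¹ ^ 2 * G2 a₁ b₁ a₂ b₂ P₀ A A *
        (D / P₀ + D * ε + D * (2 ^ k0 * 2 ^ P₀ * (24 / 25 : ℝ) ^ K)) *
        (uu X (k₁ - 1) * uu X (k₂ - 1)) := by
  obtain ⟨C₀, hC₀, h0⟩ := sym_le A hA
  obtain ⟨C₁, hC₁, h1⟩ := sym_cmp A hA
  have hA' : (1 : ℝ) ≤ A := by exact_mod_cast hA
  set D := 2 * C₀ * C₁ + 4 * (C₀ * A) ^ 2 + 4 * C₀ ^ 2 + 4 * C₀ with hD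
  refine ⟨D, by positivity, fun P₀ hP hP' ε hε => ?_⟩
  have hP3 : 3 ≤ P₀ := by omega
  have hP4 : (4 : ℝ) ≤ P₀ := by exact_mod_cast hP
  filter_upwards [h0 P₀ hP3, h1 P₀ hP3 ε hε, EE_sub P₀, scales] with X h0 h1 hE hs y hy1 hy2
    k0 K k₁ k₂ hK hk₁ hk₂ hk₁' hk₂'
  have hL : 0 < LL X := by linarith only [hs, hs.1]
  obtain ⟨R, hR1, hR2, hR⟩ := modB2 hF hP3 hP' hE.2 hE.1
  have hR0 : 0 ≤ R := by
    have : 4 / (P₀ : ℝ) ≤ 1 := by rw [div_le_one (by linarith only [hP4])]; exact hP4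
    linarith only [hR1, this]
  have hn : ∀ p ∈ PS P₀ (zz X), 0 ≤ n2 p := fun p hp => by
    obtain ⟨e1, e2, e3, -⟩ := n_le (by omega) hp
    linarith only [e1, e2, e3]
  have hn1 : ∀ p ∈ PS P₀ (zz X), 0 ≤ n1 p := fun p hp => by
    obtain ⟨e1, e2, -⟩ := n_le (by omega) hp
    linarith only [e1, e2]
  have hph : ∀ k : ℕ, (k : ℝ) ≤ A * LL X → 0 ≤ ph X P₀ (k - 1) ∧
      ph X P₀ (k - 1) ≤ C₀ * uu X (k - 1) := fun k hk =>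
    ⟨(cv_mono hn1 (fun _ _ => le_rfl) (TT_nonneg X X) (fun _ => le_rfl) _).1,
      ((h0 _ (TT_nonneg X X) (TT_le_e3 X X)).1 (k - 1)
        (le_trans (by exact_mod_cast Nat.sub_le k 1) hk)).1⟩
  have hx : ∀ k : ℕ, (k : ℝ) ≤ A * LL X → 0 ≤ k / LL X ∧ k / LL X ≤ A := fun k hk =>
    ⟨by positivity, by rw [div_le_iff₀ hL]; exact hk⟩
  have ht : ∀ k i : ℕ, (k : ℝ) ≤ A * LL X → 0 ≤ (k / LL X) ^ i * ph X P₀ (k - 1) ∧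
      (k / LL X) ^ i * ph X P₀ (k - 1) ≤ C₀ * (A ^ i * uu X (k - 1)) := fun k i hk => by
    obtain ⟨e1, e2⟩ := hph k hk
    obtain ⟨e3, e4⟩ := hx k hk
    refine ⟨by positivity, ?_⟩
    calc _ ≤ (A : ℝ) ^ i * (C₀ * uu X (k - 1)) := by gcongr
      _ = _ := by ring
  have u₁ := (uu_pos hL (k₁ - 1)).le
  have u₂ := (uu_pos hL (k₂ - 1)).le
  set U := uu X (k₁ - 1) * uu X (k₂ - 1) with hU
  have hU0 : 0 ≤ U := mul_nonneg u₁ u₂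
  set ρ : ℝ := 2 * (24 / 25 : ℝ) ^ K * 2 ^ P₀ with hρ
  set θ : ℝ := 2 * C₀ * (C₁ / P₀ + ε) + 4 / P₀ * (C₀ * A) ^ 2 + 2 * 2 ^ k0 * ρ * C₀ with hθ
  obtain ⟨-, h0⟩ := h0 _ (TT_nonneg X y) (TT_le_e3 X y)
  have hdef : ∀ k i : ℕ, K ≤ k → (k : ℝ) ≤ A * LL X → i ≤ P₀ →
      cs (PS P₀ (zz X)) (hf (EE X) n2) (TT X y) k i ≤ ρ * (A ^ i * uu X (k - 1)) := by
    intro k i hk hk' hi
    refine (h0 k i hk').2.trans ?_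
    have := (uu_pos hL (k - 1)).le
    have e1 : (24 / 25 : ℝ) ^ k ≤ (24 / 25 : ℝ) ^ K :=
      pow_le_pow_of_le_one (by norm_num) (by norm_num) hk
    have e2 : (2 : ℝ) ^ i ≤ 2 ^ P₀ := pow_le_pow_right₀ (by norm_num) hi
    calc _ = 2 * (24 / 25 : ℝ) ^ k * 2 ^ i * (A ^ i * uu X (k - 1)) := by rw [mul_pow]; ring
      _ ≤ _ := by rw [hρ]; gcongr
  have hterm : ∀ i₁ i₂ : ℕ, i₁ ≤ P₀ → i₂ ≤ P₀ →
      |Mid (PS P₀ (zz X)) (EE X) n2 k0 (TT X y) k₁ k₂ i₁ i₂ -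
        ((k₁ / LL X) ^ i₁ * ph X P₀ (k₁ - 1)) * ((k₂ / LL X) ^ i₂ * ph X P₀ (k₂ - 1))|
        ≤ θ * ((A ^ i₁ * uu X (k₁ - 1)) * (A ^ i₂ * uu X (k₂ - 1))) := by
    intro i₁ i₂ hi₁ hi₂
    have e1 := le_Mid (EE X) hn (TT_nonneg X y) k0 k₁ k₂ i₁ i₂
    have e2 := sum_n2_sq hP3 (zz X)
    have e3 := cs_nonneg hn (TT_nonneg X y) k₁ (i₁ + 1)
    have e4 := cs_nonneg hn (TT_nonneg X y) k₂ (i₂ + 1)
    refine M2_term (c₁' := cs (PS P₀ (zz X)) n2 (TT X y) k₁ (i₁ + 1))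
      (c₂' := cs (PS P₀ (zz X)) n2 (TT X y) k₂ (i₂ + 1))
      (Mid_le (EE X) hn (TT_nonneg X y) k0 k₁ k₂ i₁ i₂) (le_trans ?_ e1)
      (cs_nonneg hn (TT_nonneg X y) _ _) (cs_nonneg hn (TT_nonneg X y) _ _) e4
      (ht k₁ i₁ hk₁').1 (by positivity) (by positivity) (by positivity) (by positivity)
      (by positivity) (by positivity) (by positivity) (by positivity)
      (by simpa only [mul_assoc] using (h0 k₁ i₁ hk₁').1)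
      (by simpa only [mul_assoc] using (h0 k₂ i₂ hk₂').1)
      ((h0 k₁ (i₁ + 1) hk₁').1.trans (le_of_eq (by ring)))
      ((h0 k₂ (i₂ + 1) hk₂').1.trans (le_of_eq (by ring)))
      (hdef k₁ i₁ hk₁ hk₁' hi₁) (hdef k₂ i₂ hk₂ hk₂' hi₂) (ht k₁ i₁ hk₁').2
      (by simpa only [mul_assoc] using (h1 y hy1 hy2 k₁ i₁ hk₁' hi₁ (by omega)).2)
      (by simpa only [mul_assoc] using (h1 y hy1 hy2 k₂ i₂ hk₂' hi₂ (by omega)).2)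
    have := mul_le_mul_of_nonneg_right e2 (mul_nonneg e3 e4)
    linarith only [this]
  have hcard : ∀ Z ∈ (PS 0 P₀).powerset, Z.card ≤ P₀ := fun Z hZ =>
    (card_le_card (mem_powerset.1 hZ)).trans (card_PS_le P₀)
  set G := G2 a₁ b₁ a₂ b₂ P₀ A A with hG
  set M := G2 a₁ b₁ a₂ b₂ P₀ (k₁ / LL X) (k₂ / LL X) * (ph X P₀ (k₁ - 1) * ph X P₀ (k₂ - 1))
    with hM
  have hMe : M = ∑ Z₁ ∈ (PS 0 P₀).powerset, ∑ Z₂ ∈ (PS 0 P₀).powerset,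
      PZ a₁ b₁ a₂ b₂ (PS 0 P₀) Z₁ Z₂ * (((k₁ / LL X) ^ Z₁.card * ph X P₀ (k₁ - 1)) *
        ((k₂ / LL X) ^ Z₂.card * ph X P₀ (k₂ - 1))) := by
    rw [hM, G2_eq, sum_mul]
    refine sum_congr rfl fun _ _ => ?_
    rw [sum_mul]
    exact sum_congr rfl fun _ _ => by ring
  have hGe : ∀ c : ℝ, G * c * U = ∑ Z₁ ∈ (PS 0 P₀).powerset, ∑ Z₂ ∈ (PS 0 P₀).powerset,
      PZ a₁ b₁ a₂ b₂ (PS 0 P₀) Z₁ Z₂ *
        (c * ((A ^ Z₁.card * uu X (k₁ - 1)) * (A ^ Z₂.card * uu X (k₂ - 1)))) := by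
    intro c
    rw [hG, G2_eq, sum_mul, sum_mul]
    refine sum_congr rfl fun _ _ => ?_
    rw [sum_mul, sum_mul]
    exact sum_congr rfl fun _ _ => by ring
  have hG0 : 0 ≤ G := by
    rw [hG, G2_eq]
    exact sum_nonneg fun _ _ => sum_nonneg fun _ _ => mul_nonneg (PZ_nonneg _ _ _ _ _ _ _)
      (by positivity)
  have hM0 : 0 ≤ M := by
    rw [hMe]
    exact sum_nonneg fun _ _ => sum_nonneg fun _ _ => mul_nonneg (PZ_nonneg _ _ _ _ _ _ _)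
      (mul_nonneg (ht _ _ hk₁').1 (ht _ _ hk₂').1)
  have hM1 : M ≤ G * C₀ ^ 2 * U := by
    rw [hMe, hGe]
    refine sum_le_sum fun Z₁ _ => sum_le_sum fun Z₂ _ =>
      mul_le_mul_of_nonneg_left ?_ (PZ_nonneg _ _ _ _ _ _ _)
    calc _ ≤ (C₀ * (A ^ Z₁.card * uu X (k₁ - 1))) * (C₀ * (A ^ Z₂.card * uu X (k₂ - 1))) :=
          mul_le_mul (ht _ _ hk₁').2 (ht _ _ hk₂').2 (ht _ _ hk₂').1 (by positivity)
      _ = _ := by ring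
  set T := ∑ Z₁ ∈ (PS 0 P₀).powerset, ∑ Z₂ ∈ (PS 0 P₀).powerset, PZ a₁ b₁ a₂ b₂ (PS 0 P₀) Z₁ Z₂ *
        Mid (PS P₀ (zz X)) (EE X) n2 k0 (TT X y) k₁ k₂ Z₁.card Z₂.card with hT
  have hTM : |T - M| ≤ G * θ * U := by
    rw [hT, hMe, hGe, ← sum_sub_distrib]
    refine (abs_sum_le_sum_abs _ _).trans (sum_le_sum fun Z₁ hZ₁ => ?_)
    rw [← sum_sub_distrib]
    refine (abs_sum_le_sum_abs _ _).trans (sum_le_sum fun Z₂ hZ₂ => ?_)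
    rw [← mul_sub, abs_mul, abs_of_nonneg (PZ_nonneg _ _ _ _ _ _ _)]
    exact mul_le_mul_of_nonneg_left (hterm _ _ (hcard _ hZ₁) (hcard _ hZ₂))
      (PZ_nonneg _ _ _ _ _ _ _)
  have hV : 0 ≤ (Vz P₀)⁻¹ ^ 2 := sq_nonneg _
  have hCD : C₀ ^ 2 ≤ D := by
    have : 0 ≤ 2 * C₀ * C₁ + 4 * (C₀ * A) ^ 2 + 3 * C₀ ^ 2 + 4 * C₀ := by positivity
    linarith only [this]
  constructor
  · calc _ = (Vz P₀)⁻¹ ^ 2 * M := by rw [hM]; ring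
      _ ≤ (Vz P₀)⁻¹ ^ 2 * (G * D * U) := by
          refine mul_le_mul_of_nonneg_left (hM1.trans ?_) hV
          gcongr
      _ = _ := by ring
  · rw [hR, ← hT]
    have e1 : |R * T - M| ≤ G * (θ + 4 / P₀ * C₀ ^ 2) * U := by
      calc _ = |R * (T - M) - (1 - R) * M| := by ring_nf
        _ ≤ R * |T - M| + (1 - R) * M := by
          refine (abs_sub _ _).trans ?_
          rw [abs_mul, abs_mul, abs_of_nonneg hR0, abs_of_nonneg (sub_nonneg.2 hR2),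
            abs_of_nonneg hM0]
        _ ≤ 1 * (G * θ * U) + 4 / P₀ * (G * C₀ ^ 2 * U) := by
          gcongr
          linarith only [hR1]
        _ = _ := by ring
    have e2 : θ + 4 / P₀ * C₀ ^ 2
        ≤ D / P₀ + D * ε + D * (2 ^ k0 * 2 ^ P₀ * (24 / 25 : ℝ) ^ K) := by
      have f1 : 2 * C₀ ≤ D := by
        have : 0 ≤ 2 * C₀ * C₁ + 4 * (C₀ * A) ^ 2 + 4 * C₀ ^ 2 + 2 * C₀ := by positivity
        linarith only [this]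
      have f2 : 4 * C₀ ≤ D := by
        have : 0 ≤ 2 * C₀ * C₁ + 4 * (C₀ * A) ^ 2 + 4 * C₀ ^ 2 := by positivity
        linarith only [this]
      have f3 : (2 * C₀ * C₁ + 4 * (C₀ * A) ^ 2 + 4 * C₀ ^ 2) / P₀ ≤ D / P₀ := by
        gcongr; linarith only [hC₀]
      have f4 : 2 * C₀ * ε ≤ D * ε := by gcongr
      have f5 : 4 * C₀ * (2 ^ k0 * 2 ^ P₀ * (24 / 25 : ℝ) ^ K)
          ≤ D * (2 ^ k0 * 2 ^ P₀ * (24 / 25 : ℝ) ^ K) := by gcongr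
      calc _ = (2 * C₀ * C₁ + 4 * (C₀ * A) ^ 2 + 4 * C₀ ^ 2) / P₀ + 2 * C₀ * ε
            + 4 * C₀ * (2 ^ k0 * 2 ^ P₀ * (24 / 25 : ℝ) ^ K) := by rw [hθ, hρ]; ring
        _ ≤ _ := by linarith only [f3, f4, f5]
    calc _ = (Vz P₀)⁻¹ ^ 2 * |R * T - M| := by
          rw [← abs_of_nonneg hV, ← abs_mul, abs_of_nonneg hV, hM]; ring_nf
      _ ≤ (Vz P₀)⁻¹ ^ 2 * (G * (D / P₀ + D * ε + D * (2 ^ k0 * 2 ^ P₀ * (24 / 25 : ℝ) ^ K)) * U) := by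
          refine mul_le_mul_of_nonneg_left (e1.trans ?_) hV
          gcongr
      _ = _ := by ring

lemma cnt_split (a₁ b₁ a₂ b₂ : ℤ) (X k0 k₁ k₂ : ℕ) :
    cntG a₁ b₁ a₂ b₂ X k0 k₁ k₂ ≤ cnt2 a₁ b₁ a₂ b₂ X k₁ k₂ ∧
    cnt2 a₁ b₁ a₂ b₂ X k₁ k₂ ≤ cntG a₁ b₁ a₂ b₂ X k0 k₁ k₂ + cntB a₁ b₁ a₂ b₂ X k0 k₁ k₂
      + cntB a₂ b₂ a₁ b₁ X k0 k₂ k₁ := by
  unfold cntG cnt2 cntB
  constructor
  · refine card_le_card fun n hn => ?_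
    rw [mem_filter] at hn ⊢
    exact ⟨hn.1, hn.2.1, hn.2.2.1⟩
  · refine le_trans (card_le_card fun n hn => ?_)
      ((card_union_le _ _).trans (Nat.add_le_add_right (card_union_le _ _) _))
    simp only [mem_union, mem_filter] at hn ⊢
    obtain ⟨h1, h2, h3⟩ := hn
    by_cases h4 : k0 ≤ (ZZ (zz X) (val a₁ b₁ n) ∩ EE X).card
    · by_cases h5 : k0 ≤ (ZZ (zz X) (val a₂ b₂ n) ∩ EE X).card
      · exact Or.inl (Or.inl ⟨h1, h2, h3, h4, h5⟩)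
      · exact Or.inr ⟨h1, h3, h2, not_le.1 h5⟩
    · exact Or.inl (Or.inr ⟨h1, h2, h3, not_le.1 h4⟩)

lemma M2_real {c g M E₁ E₂ sf sg U ε ε₂ W : ℝ} (hε : 0 < ε) (hU : 0 ≤ U) (hW : 0 ≤ W)
    (hg : 0 ≤ g) (h2 : 0 ≤ ε₂) (h2' : ε₂ ≤ 1 / 2) (h2'' : 8 * ε₂ * (W + ε) ≤ ε) (hM : M ≤ W * U)
    (e1 : |E₁ - M| ≤ ε / 4 * U) (e2 : |E₂ - M| ≤ ε / 4 * U)
    (f1 : E₁ - ε / 24 * U ≤ sf) (f2 : sf ≤ E₂ + ε / 24 * U) (f3 : |sg - sf| ≤ ε / 24 * U)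
    (f4 : |sg - g| ≤ ε₂ * g + ε / 24 * U) (c1 : g ≤ c) (c2 : c ≤ g + ε / 4 * U) :
    |c - M| ≤ ε * U := by
  rw [abs_le] at *
  have hεU : 0 ≤ ε * U := by positivity
  have g1 : g ≤ 2 * (W + ε) * U := by linarith only [hM, e1, e2, f2, f3, f4, hg, h2', mul_nonneg_of_nonpos_of_nonpos (Mathlib.Tactic.Linarith.sub_nonpos_of_le hg) (Mathlib.Tactic.Linarith.sub_nonpos_of_le h2')]
  have g2 : ε₂ * g ≤ ε / 4 * U := by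
    calc ε₂ * g ≤ ε₂ * (2 * (W + ε) * U) := by gcongr
      _ = (8 * ε₂ * (W + ε)) / 4 * U := by ring
      _ ≤ _ := by gcongr
  constructor <;> linarith only [e1, f1, f3, f4, c1, g2, e2, f2, c2]

theorem M2 {a₁ b₁ a₂ b₂ : ℤ} (hF : Frm a₁ b₁ a₂ b₂) (A : ℕ) (hA : 1 ≤ A) {ε : ℝ} (hε : 0 < ε) :
    ∀ᶠ P₀ : ℕ in atTop, ∃ K : ℕ, ∀ᶠ X : ℕ in atTop, ∀ k₁ k₂ : ℕ, K ≤ k₁ → K ≤ k₂ →
    (k₁ : ℝ) ≤ A * LL X → (k₂ : ℝ) ≤ A * LL X →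
    |cnt2 a₁ b₁ a₂ b₂ X k₁ k₂ * Real.log X ^ 2 / X - (Vz P₀)⁻¹ ^ 2 *
        G2 a₁ b₁ a₂ b₂ P₀ (k₁ / LL X) (k₂ / LL X) * (ph X P₀ (k₁ - 1) * ph X P₀ (k₂ - 1))|
      ≤ ε * (uu X (k₁ - 1) * uu X (k₂ - 1)) := by
  obtain ⟨D, hD, hmid⟩ := M2_mid hF A hA
  have hA' : (1 : ℝ) ≤ A := by exact_mod_cast hA
  obtain ⟨k0, htp⟩ := tp_sum hF A (2 * A ^ 2 + 1)
  obtain ⟨K₁, hK₁⟩ := shiuB hF A k0 (show 0 < ε / 8 by positivity)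
  obtain ⟨K₂, hK₂⟩ := shiuB hF.symm A k0 (show 0 < ε / 8 by positivity)
  filter_upwards [(const_small hF hA').eventually_le_const (show 0 < ε / 12 / D by positivity),
    eventually_ge_atTop 4, eventually_ge_atTop (a₁ * a₂ * (a₁ * b₂ - a₂ * b₁)).natAbs] with
    P₀ hP1 hP2 hP3
  set Kp := (Vz P₀)⁻¹ ^ 2 * G2 a₁ b₁ a₂ b₂ P₀ A A with hKp
  have hKp0 : 0 ≤ Kp := by
    refine mul_nonneg (sq_nonneg _) ?_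
    rw [G2_eq]
    exact sum_nonneg fun _ _ => sum_nonneg fun _ _ => mul_nonneg (PZ_nonneg _ _ _ _ _ _ _)
      (by positivity)
  set ε₁ := ε / 12 / (Kp * D + 1) with hε₁
  have hε₁0 : 0 < ε₁ := by positivity
  obtain ⟨K₃, hK₃⟩ : ∃ K₃ : ℕ, ∀ K ≥ K₃, 2 ^ k0 * 2 ^ P₀ * (24 / 25 : ℝ) ^ K ≤ ε₁ := by
    have := (tendsto_pow_atTop_nhds_zero_of_lt_one (r := (24 / 25 : ℝ)) (by norm_num)
      (by norm_num)).const_mul (2 ^ k0 * 2 ^ P₀)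
    rw [mul_zero] at this
    exact eventually_atTop.1 (this.eventually_le_const hε₁0)
  set K := max (max K₁ K₂) (max K₃ (P₀ + 1)) with hK
  set ε₂ := min (1 / 2) (ε / 8 / (Kp * D + ε)) with hε₂
  have hε₂0 : 0 < ε₂ := lt_min (by norm_num) (by positivity)
  refine ⟨K, ?_⟩
  filter_upwards [hmid P₀ hP2 hP3 ε₁ hε₁0, htp, hK₁, hK₂, modA2 hF (2 * A ^ 2 + 1),
    true2 hF (2 * A ^ 2 + 1) hε₂0, uu_lower A, scales, log_tendsto.eventually_ge_atTop (24 / ε),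
    eventually_gt_atTop 0] with X hmid htp hK₁ hK₂ hmod htrue hlow hs hl hX k₁ k₂ hk₁ hk₂ hk₁' hk₂'
  have hL : 0 < LL X := by linarith only [hs, hs.1]
  have hX' : (0 : ℝ) < X := by exact_mod_cast hX
  have hl0 : 0 < Real.log X := by linarith only [hs, hs.2.1]
  have u₁ := uu_pos hL (k₁ - 1)
  have u₂ := uu_pos hL (k₂ - 1)
  set U := uu X (k₁ - 1) * uu X (k₂ - 1) with hU
  have hU0 : 0 < U := mul_pos u₁ u₂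
  have hY : (X : ℝ) / YY X ^ 3 ≤ X :=
    div_le_self hX'.le (one_le_pow₀ (by linarith only [hs, hs.2.2.1, hs.2.2.2.1]))
  have herr : (X : ℝ) / Real.log X ^ (2 * A ^ 2 + 1) ≤ X * (ε / 24 * U) := by
    have e1 := hlow (k₁ - 1) (le_trans (by exact_mod_cast Nat.sub_le k₁ 1) hk₁')
    have e2 := hlow (k₂ - 1) (le_trans (by exact_mod_cast Nat.sub_le k₂ 1) hk₂')
    have e3 : 1 / Real.log X ≤ ε / 24 := by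
      rw [div_le_iff₀ hl0]
      rw [div_le_iff₀ hε] at hl
      linarith only [hl]
    calc _ = X * (1 / Real.log X * (1 / Real.log X ^ (A ^ 2) * (1 / Real.log X ^ (A ^ 2)))) := by
          field_simp; ring
      _ ≤ _ := by rw [hU]; gcongr
  have hη : Kp * (D / P₀ + D * ε₁ + D * (2 ^ k0 * 2 ^ P₀ * (24 / 25 : ℝ) ^ K)) ≤ ε / 4 := by
    have e1 : Kp * (D / P₀) ≤ ε / 12 := by
      rw [le_div_iff₀ hD] at hP1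
      calc _ = Kp / P₀ * D := by ring
        _ ≤ _ := hP1
    have e2 : Kp * (D * ε₁) ≤ ε / 12 := by
      calc _ ≤ (Kp * D + 1) * ε₁ := by linarith only [hε₁0]
        _ = _ := by rw [hε₁]; field_simp
    have e3 : Kp * (D * (2 ^ k0 * 2 ^ P₀ * (24 / 25 : ℝ) ^ K)) ≤ Kp * (D * ε₁) := by
      have := hK₃ K ((le_max_left _ _).trans (le_max_right _ _))
      gcongr
    linarith only [e1, e2, e3]
  have hKP : P₀ < K := lt_of_lt_of_le (Nat.lt_succ_self _)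
    ((le_max_right _ _).trans (le_max_right _ _))
  obtain ⟨m1, m2⟩ := hmid _ le_rfl hY k0 K k₁ k₂ hKP hk₁ hk₂ hk₁' hk₂'
  obtain ⟨-, m3⟩ := hmid _ hY le_rfl k0 K k₁ k₂ hKP hk₁ hk₂ hk₁' hk₂'
  obtain ⟨q1, q2⟩ := hmod k0 k₁ k₂
  have q3 := htp k₁ k₂ hk₁' hk₂'
  have q4 := htrue k0 k₁ k₂
  have q5 := hK₁ k₁ k₂ (((le_max_left _ _).trans (le_max_left _ _)).trans hk₁) hk₁' hk₂'
  have q6 := hK₂ k₂ k₁ (((le_max_right _ _).trans (le_max_left _ _)).trans hk₂) hk₂' hk₁'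
  obtain ⟨q7, q8⟩ := cnt_split a₁ b₁ a₂ b₂ X k0 k₁ k₂
  rw [sum_sub_distrib] at q3
  set sf := ∑ n ∈ Icc 1 X, Ff X k0 k₁ (val a₁ b₁ n) * Ff X k0 k₂ (val a₂ b₂ n)
  set sg := ∑ n ∈ Icc 1 X, Fg X k0 k₁ (val a₁ b₁ n) * Fg X k0 k₂ (val a₂ b₂ n)
  refine M2_real (g := cntG a₁ b₁ a₂ b₂ X k0 k₁ k₂ * Real.log X ^ 2 / X) (sf := sf / X)
    (sg := sg / X) (ε₂ := ε₂) (W := Kp * D) hε hU0.le (by positivity) (by positivity) hε₂0.le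
    (min_le_left _ _) ?_ m1 (m2.trans (by gcongr)) (m3.trans (by gcongr)) ?_ ?_ ?_ ?_ ?_ ?_
  · calc _ ≤ 8 * (ε / 8 / (Kp * D + ε)) * (Kp * D + ε) := by gcongr; exact min_le_right _ _
      _ = ε := by field_simp
  · rw [le_div_iff₀ hX']; linarith only [herr, q1]
  · rw [div_le_iff₀ hX']; linarith only [herr, q2]
  · rw [← sub_div, abs_div, abs_of_pos hX', div_le_iff₀ hX']; linarith only [herr, q3]
  · rw [← sub_div, abs_div, abs_of_pos hX', div_le_iff₀ hX', mul_comm _ (Real.log X ^ 2)]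
    have : (ε₂ * (Real.log X ^ 2 * cntG a₁ b₁ a₂ b₂ X k0 k₁ k₂ / X) + ε / 24 * U) * X
        = ε₂ * (Real.log X ^ 2 * cntG a₁ b₁ a₂ b₂ X k0 k₁ k₂) + X * (ε / 24 * U) := by
      field_simp
    linarith only [herr, q4, this]
  · gcongr
  · have e1 : (cnt2 a₁ b₁ a₂ b₂ X k₁ k₂ : ℝ) ≤ cntG a₁ b₁ a₂ b₂ X k0 k₁ k₂
        + ε / 4 * (X / Real.log X ^ 2 * U) := by
      have : (cnt2 a₁ b₁ a₂ b₂ X k₁ k₂ : ℝ) ≤ cntG a₁ b₁ a₂ b₂ X k0 k₁ k₂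
        + cntB a₁ b₁ a₂ b₂ X k0 k₁ k₂ + cntB a₂ b₂ a₁ b₁ X k0 k₂ k₁ := by exact_mod_cast q8
      rw [mul_comm (uu X (k₂ - 1))] at q6
      linarith only [q5, q6, this]
    calc _ ≤ (cntG a₁ b₁ a₂ b₂ X k0 k₁ k₂ + ε / 4 * (X / Real.log X ^ 2 * U))
          * Real.log X ^ 2 / X := by gcongr
      _ = _ := by field_simp

end Pool.Agent.Work.MP_51e72e_nt.TE
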