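import Pool.Agent.Work.MP_51e72e_nt.TEM1
import Pool.Agent.Work.MP_51e72e_nt.TEM2

/-! The joint local law. -/

set_option autoImplicit false
open Finset Filter Topology
open Pool.Agent.Work.MP_678620_nt

namespace Pool.Agent.Work.MP_51e72e_nt.TE

lemma final_real {x a₁ a₂ m₁ m₂ u₁ u₂ F S c C δ : ℝ} (hc : 0 < c) (hδ : 0 ≤ δ) (hδc : δ ≤ c)
    (hu₁ : 0 ≤ u₁) (hu₂ : 0 ≤ u₂) (l₁ : c * u₁ ≤ a₁) (l₂ : c * u₂ ≤ a₂)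
    (e₁ : |a₁ - m₁| ≤ δ * u₁) (e₂ : |a₂ - m₂| ≤ δ * u₂) (e₃ : |x - F * (m₁ * m₂)| ≤ δ * (u₁ * u₂))
    (e₄ : |F - S| ≤ δ) (e₅ : |S| ≤ C) :
    |x - S * (a₁ * a₂)| ≤ δ * (1 / c ^ 2 + 4 + 3 * C / c) * (a₁ * a₂) := by
  have ha₁ : 0 ≤ a₁ := le_trans (by positivity) l₁
  have ha₂ : 0 ≤ a₂ := le_trans (by positivity) l₂
  have hC : 0 ≤ C := (abs_nonneg _).trans e₅
  have v₁ : u₁ ≤ a₁ / c := by rw [le_div_iff₀ hc]; linarith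
  have v₂ : u₂ ≤ a₂ / c := by rw [le_div_iff₀ hc]; linarith
  have ht : δ / c ≤ 1 := (div_le_one hc).2 hδc
  have w₁ : |m₁ - a₁| ≤ δ / c * a₁ := by
    rw [abs_sub_comm]
    calc _ ≤ δ * (a₁ / c) := e₁.trans (by gcongr)
      _ = _ := by ring
  have w₂ : |m₂ - a₂| ≤ δ / c * a₂ := by
    rw [abs_sub_comm]
    calc _ ≤ δ * (a₂ / c) := e₂.trans (by gcongr)
      _ = _ := by ring
  have z₁ : |m₁| ≤ 2 * a₁ := by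
    have := abs_add_le (m₁ - a₁) a₁
    rw [sub_add_cancel, abs_of_nonneg ha₁] at this
    nlinarith
  have z₂ : |m₂| ≤ 2 * a₂ := by
    have := abs_add_le (m₂ - a₂) a₂
    rw [sub_add_cancel, abs_of_nonneg ha₂] at this
    nlinarith
  have y₁ : |m₁ * m₂ - a₁ * a₂| ≤ 3 * (δ / c) * (a₁ * a₂) := by
    calc _ = |(m₁ - a₁) * m₂ + a₁ * (m₂ - a₂)| := by ring_nf
      _ ≤ |m₁ - a₁| * |m₂| + a₁ * |m₂ - a₂| := by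
        refine (abs_add_le _ _).trans ?_
        rw [abs_mul, abs_mul, abs_of_nonneg ha₁]
      _ ≤ (δ / c * a₁) * (2 * a₂) + a₁ * (δ / c * a₂) := by gcongr
      _ = _ := by ring
  calc _ = |(x - F * (m₁ * m₂)) + (F - S) * (m₁ * m₂) + S * (m₁ * m₂ - a₁ * a₂)| := by ring_nf
    _ ≤ |x - F * (m₁ * m₂)| + |F - S| * (|m₁| * |m₂|) + |S| * |m₁ * m₂ - a₁ * a₂| := by
      refine (abs_add_three _ _ _).trans ?_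
      rw [abs_mul, abs_mul, abs_mul]
    _ ≤ δ * (a₁ / c * (a₂ / c)) + δ * ((2 * a₁) * (2 * a₂)) + C * (3 * (δ / c) * (a₁ * a₂)) := by
      gcongr
      exact e₃.trans (by gcongr)
    _ = _ := by field_simp; ring

theorem joint_law {a₁ b₁ a₂ b₂ : ℤ} (hF : Frm a₁ b₁ a₂ b₂) : ∃ S : ℝ → ℝ → ℝ,
    (∀ x₁ x₂ : ℝ, 0 ≤ x₁ → 0 ≤ x₂ →
      Tendsto (fun y : ℕ => ∏ p ∈ PS 0 y, fac a₁ b₁ a₂ b₂ p x₁ x₂) atTop (𝓝 (S x₁ x₂))) ∧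
    ContinuousOn (fun x : ℝ × ℝ => S x.1 x.2) (Set.Ici 0 ×ˢ Set.Ici 0) ∧
    ∀ A ε : ℝ, 0 < ε → ∃ K : ℕ, ∀ᶠ X : ℕ in atTop, ∀ k₁ k₂ : ℕ, K ≤ k₁ → K ≤ k₂ →
      (k₁ : ℝ) ≤ A * LL X → (k₂ : ℝ) ≤ A * LL X →
      |(cnt2 a₁ b₁ a₂ b₂ X k₁ k₂ : ℝ) * X
          - S (k₁ / LL X) (k₂ / LL X) * (cnt1 X k₁ * cnt1 X k₂)| ≤ ε * (cnt1 X k₁ * cnt1 X k₂) := by
  obtain ⟨S, hS1, hS2, hS3⟩ := const_lim hF
  refine ⟨S, hS1, hS2, fun A₀ ε hε => ?_⟩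
  set A : ℕ := ⌈A₀⌉₊ + 1 with hA
  have hA1 : 1 ≤ A := by omega
  have hA0 : A₀ ≤ A := by
    rw [hA]; push_cast; linarith [Nat.le_ceil A₀]
  obtain ⟨c, hc, K₀, hlow⟩ := M1_low A hA1
  obtain ⟨⟨C, hC, hSC⟩, hS4⟩ := hS3 A
  set δ := min c (ε / (1 / c ^ 2 + 4 + 3 * C / c)) with hδ
  have hδ0 : 0 < δ := lt_min hc (by positivity)
  obtain ⟨P₀, ⟨K₁, hM2⟩, hP1, hP2⟩ :=
    ((M2 hF A hA1 hδ0).and ((hS4 δ hδ0).and (eventually_ge_atTop 3))).exists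
  refine ⟨max (max K₀ K₁) (P₀ + 1), ?_⟩
  filter_upwards [hlow, hM2, M1 A hA1 hP2 hδ0, scales, eventually_gt_atTop 0] with
    X hlow hM2 hM1 hs hX k₁ k₂ hk₁ hk₂ hk₁' hk₂'
  have hL : 0 < LL X := by linarith [hs.1]
  have hX' : (0 : ℝ) < X := by exact_mod_cast hX
  have hl0 : 0 < Real.log X := by linarith [hs.2.1]
  have hAL : A₀ * LL X ≤ A * LL X := by gcongr
  replace hk₁' := hk₁'.trans hAL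
  replace hk₂' := hk₂'.trans hAL
  have hx : ∀ k : ℕ, (k : ℝ) ≤ A * LL X → k / LL X ∈ Set.Icc (0 : ℝ) A := fun k hk =>
    ⟨by positivity, by rw [div_le_iff₀ hL]; exact hk⟩
  simp only [max_le_iff] at hk₁ hk₂
  have e3 := hM2 k₁ k₂ hk₁.1.2 hk₂.1.2 hk₁' hk₂'
  rw [G2_fac _ _ _ _ _ (hx k₁ hk₁').1 (hx k₂ hk₂').1] at e3
  have key := final_real (x := cnt2 a₁ b₁ a₂ b₂ X k₁ k₂ * Real.log X ^ 2 / X) hc hδ0.le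
    (min_le_left _ _) (uu_pos hL _).le (uu_pos hL _).le
    (hlow k₁ hk₁.1.1 hk₁') (hlow k₂ hk₂.1.1 hk₂') (hM1 k₁ hk₁.2 hk₁') (hM1 k₂ hk₂.2 hk₂')
    (by convert e3 using 3; ring) (hP1 _ (hx k₁ hk₁') _ (hx k₂ hk₂'))
    (hSC _ (hx k₁ hk₁') _ (hx k₂ hk₂'))
  have hδε : δ * (1 / c ^ 2 + 4 + 3 * C / c) ≤ ε := by
    rw [← le_div_iff₀ (by positivity)]; exact min_le_right _ _
  have hq : 0 < (X : ℝ) ^ 2 / Real.log X ^ 2 := by positivity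
  calc _ = X ^ 2 / Real.log X ^ 2 * |cnt2 a₁ b₁ a₂ b₂ X k₁ k₂ * Real.log X ^ 2 / X -
        S (k₁ / LL X) (k₂ / LL X) *
          (cnt1 X k₁ * Real.log X / X * (cnt1 X k₂ * Real.log X / X))| := by
        rw [← abs_of_pos hq, ← abs_mul]
        congr 1
        field_simp
    _ ≤ X ^ 2 / Real.log X ^ 2 *
        (ε * (cnt1 X k₁ * Real.log X / X * (cnt1 X k₂ * Real.log X / X))) := by
        gcongr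
        exact key.trans (by gcongr)
    _ = _ := by field_simp

lemma cnt2_neg₁ (a₁ b₁ a₂ b₂ : ℤ) : cnt2 (-a₁) (-b₁) a₂ b₂ = cnt2 a₁ b₁ a₂ b₂ := by
  funext X k₁ k₂
  simp only [cnt2, val, neg_mul, ← neg_add, Int.natAbs_neg]

lemma cnt2_neg₂ (a₁ b₁ a₂ b₂ : ℤ) : cnt2 a₁ b₁ (-a₂) (-b₂) = cnt2 a₁ b₁ a₂ b₂ := by
  funext X k₁ k₂
  simp only [cnt2, val, neg_mul, ← neg_add, Int.natAbs_neg]

lemma fac_neg₁ (a₁ b₁ a₂ b₂ : ℤ) : fac (-a₁) (-b₁) a₂ b₂ = fac a₁ b₁ a₂ b₂ := by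
  funext p x₁ x₂
  simp only [fac, loc, neg_mul, ← neg_add, dvd_neg]

lemma fac_neg₂ (a₁ b₁ a₂ b₂ : ℤ) : fac a₁ b₁ (-a₂) (-b₂) = fac a₁ b₁ a₂ b₂ := by
  funext p x₁ x₂
  simp only [fac, loc, neg_mul, ← neg_add, dvd_neg]

theorem joint_law' {a₁ b₁ a₂ b₂ : ℤ} (ha₁ : a₁ ≠ 0) (ha₂ : a₂ ≠ 0) (h₁ : IsCoprime a₁ b₁)
    (h₂ : IsCoprime a₂ b₂) (hd : a₁ * b₂ ≠ a₂ * b₁) : ∃ S : ℝ → ℝ → ℝ,
    (∀ x₁ x₂ : ℝ, 0 ≤ x₁ → 0 ≤ x₂ →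
      Tendsto (fun y : ℕ => ∏ p ∈ PS 0 y, fac a₁ b₁ a₂ b₂ p x₁ x₂) atTop (𝓝 (S x₁ x₂))) ∧
    ContinuousOn (fun x : ℝ × ℝ => S x.1 x.2) (Set.Ici 0 ×ˢ Set.Ici 0) ∧
    ∀ A ε : ℝ, 0 < ε → ∃ K : ℕ, ∀ᶠ X : ℕ in atTop, ∀ k₁ k₂ : ℕ, K ≤ k₁ → K ≤ k₂ →
      (k₁ : ℝ) ≤ A * LL X → (k₂ : ℝ) ≤ A * LL X →
      |(cnt2 a₁ b₁ a₂ b₂ X k₁ k₂ : ℝ) * X
          - S (k₁ / LL X) (k₂ / LL X) * (cnt1 X k₁ * cnt1 X k₂)| ≤ ε * (cnt1 X k₁ * cnt1 X k₂) := by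
  rcases lt_or_gt_of_ne ha₁ with p₁ | p₁ <;> rcases lt_or_gt_of_ne ha₂ with p₂ | p₂
  · have := joint_law (a₁ := -a₁) (b₁ := -b₁) (a₂ := -a₂) (b₂ := -b₂)
      ⟨by omega, by omega, h₁.neg_neg, h₂.neg_neg, fun h => hd (by linarith)⟩
    rwa [cnt2_neg₁, cnt2_neg₂, fac_neg₁, fac_neg₂] at this
  · have := joint_law (a₁ := -a₁) (b₁ := -b₁) (a₂ := a₂) (b₂ := b₂)
      ⟨by omega, p₂, h₁.neg_neg, h₂, fun h => hd (by linarith)⟩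
    rwa [cnt2_neg₁, fac_neg₁] at this
  · have := joint_law (a₁ := a₁) (b₁ := b₁) (a₂ := -a₂) (b₂ := -b₂)
      ⟨p₁, by omega, h₁, h₂.neg_neg, fun h => hd (by linarith)⟩
    rwa [cnt2_neg₂, fac_neg₂] at this
  · exact joint_law ⟨p₁, p₂, h₁, h₂, hd⟩

end Pool.Agent.Work.MP_51e72e_nt.TE
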