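import Pool.Agent.Work.MP_51e72e_nt.TEBasic
import Pool.Agent.Work.MP_678620_nt.SPTwo

/-! The two-point estimate for the weights. -/

set_option autoImplicit false
open Finset Filter Topology
open Pool.Agent.Work.MP_678620_nt

namespace Pool.Agent.Work.MP_51e72e_nt.TE

/-- The smooth coefficient: multiples of `a` whose cofactor has `i` primes outside `E`. -/
noncomputable def tpBeta (z : ℝ) (E : Finset ℕ) (a i b : ℕ) : ℂ :=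
  if a ∣ b ∧ Smo z b ∧ ((b / a).primeFactors \ E).card = i then 1 else 0

lemma tpBeta_le (z : ℝ) (E : Finset ℕ) (a i b : ℕ) : ‖tpBeta z E a i b‖ ≤ 1 := by
  unfold tpBeta
  split_ifs <;> simp

lemma tpBeta_supp (z : ℝ) (E : Finset ℕ) (a i b : ℕ) (h : tpBeta z E a i b ≠ 0) : Smo z b := by
  by_contra hb
  exact h (if_neg fun h' => hb h'.2.1)

lemma tp_smo {z : ℝ} {a : ℕ} (ha : 0 < a) (haz : (a : ℝ) ≤ z) : Smo z a := fun p _ hpa =>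
  le_trans (by exact_mod_cast Nat.le_of_dvd ha hpa) haz

lemma tp_cop {a p : ℕ} (ha : 0 < a) (hp : p.Prime) (h : a < p) : Nat.Coprime a p :=
  ((Nat.Prime.coprime_iff_not_dvd hp).2 (Nat.not_dvd_of_pos_of_lt ha h)).symm

lemma tpBeta_mul {z : ℝ} {E : Finset ℕ} {a p : ℕ} (ha : 0 < a) (hp : p.Prime) (hpE : p ∈ E)
    (hpz : (p : ℝ) ≤ z) (hap : a < p) (i n : ℕ) : tpBeta z E a i (p * n) = tpBeta z E a i n := by
  rcases Nat.eq_zero_or_pos n with rfl | hn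
  · rw [mul_zero]
  unfold tpBeta
  refine if_congr ?_ rfl rfl
  have h1 : a ∣ p * n ↔ a ∣ n := (tp_cop ha hp hap).dvd_mul_left
  have h2 : Smo z (p * n) ↔ Smo z n :=
    ⟨fun h q hq hqn => h q hq (hqn.mul_left p), fun h => (tp_smo hp.pos hpz).mul h⟩
  rw [h1, h2]
  refine and_congr_right fun hd => and_congr_right fun _ => ?_
  obtain ⟨n', rfl⟩ := hd
  have hn' : n' ≠ 0 := by
    rintro rfl
    simp at hn
  have e1 : p * (a * n') / a = p * n' := by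
    rw [mul_left_comm, Nat.mul_div_cancel_left _ ha]
  rw [e1, Nat.mul_div_cancel_left _ ha, Nat.primeFactors_mul hp.ne_zero hn', hp.primeFactors,
    union_sdiff_distrib, sdiff_eq_empty_iff_subset.2 (singleton_subset_iff.2 hpE), empty_union]

lemma tp_conv {z : ℝ} (E : Finset ℕ) {a r : ℕ} (ha : 0 < a) (haz : (a : ℝ) ≤ z) (hr : r ≠ 0)
    (i : ℕ) {γ : ℕ → ℝ} (hγ : ∀ n, γ n ≠ 0 → Rou z n) :
    conv (tpBeta z E a i) γ ((a * r : ℕ) : ℤ) =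
      if (ZZ z r \ E).card = i then (γ (rp z r) : ℂ) else 0 := by
  have hs : Smo z (a * sp z r) := (tp_smo ha haz).mul (smo_sp z r)
  have e : a * sp z r * rp z r = a * r := by rw [mul_assoc, sp_mul_rp]
  have h0 : a * r ≠ 0 := mul_ne_zero ha.ne' hr
  have h := sp_eq hs (rou_rp z hr) (e ▸ h0)
  rw [e] at h
  rw [conv_eq (tpBeta_supp z E a i) hγ h0, h.1, h.2, tpBeta, Nat.mul_div_cancel_left _ ha,
    primeFactors_sp z hr]
  by_cases hc : (ZZ z r \ E).card = i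
  · rw [if_pos ⟨dvd_mul_right _ _, hs, hc⟩, if_pos hc, one_mul]
  · rw [if_neg fun h' => hc h'.2.2, if_neg hc, zero_mul]

lemma tp_wE {z : ℝ} {E : Finset ℕ} {a : ℕ} (ha : 0 < a)
    (hE : ∀ p ∈ E, p.Prime ∧ (p : ℝ) ≤ z ∧ a < p) (r : ℕ) :
    wE E ((a * r : ℕ) : ℤ) = (ZZ z r ∩ E).card := by
  unfold wE
  congr 1
  ext p
  rw [mem_filter, mem_inter, mem_ZZ, Int.natCast_dvd_natCast]
  constructor
  · rintro ⟨h1, h2⟩
    obtain ⟨b1, b2, b3⟩ := hE p h1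
    exact ⟨⟨b1, b2, (tp_cop ha b1 b3).symm.dvd_mul_left.1 h2⟩, h1⟩
  · rintro ⟨⟨_, _, h3⟩, h1⟩
    exact ⟨h1, h3.mul_left a⟩

/-- The admissible pairs (primes in `E`, primes outside `E`). -/
def tpI (k0 k : ℕ) : Finset (ℕ × ℕ) :=
  (range k ×ˢ range k).filter fun x => k0 ≤ x.1 ∧ x.1 + x.2 < k

lemma tpI_card (k0 k : ℕ) : ((tpI k0 k).card : ℝ) ≤ (k : ℝ) ^ 2 := by
  have h : (tpI k0 k).card ≤ k ^ 2 := by
    refine (card_filter_le _ _).trans ?_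
    rw [card_product, card_range, sq]
  exact_mod_cast h

/-- The weight as a sum of convolutions. -/
noncomputable def tpG (z : ℝ) (E : Finset ℕ) (k0 a k : ℕ) (γ : ℕ → ℕ → ℝ) (m : ℤ) : ℂ :=
  ∑ x ∈ tpI k0 k, if wE E m = x.1 then conv (tpBeta z E a x.2) (γ (k - 1 - x.1 - x.2)) m else 0

lemma tpG_eq {X : ℕ} {z : ℝ} {a r : ℕ} (ha : 0 < a) (haz : (a : ℝ) ≤ z) (hr : r ≠ 0)
    (hE : ∀ p ∈ EE X, p.Prime ∧ (p : ℝ) ≤ z ∧ a < p) (k0 k : ℕ) {γ : ℕ → ℕ → ℝ}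
    (hγ : ∀ t n, γ t n ≠ 0 → Rou z n) :
    tpG z (EE X) k0 a k γ ((a * r : ℕ) : ℤ) =
      (gz X k0 (fun t => γ t (rp z r)) k (ZZ z r) : ℝ) := by
  have hc : (ZZ z r ∩ EE X).card + (ZZ z r \ EE X).card = (ZZ z r).card :=
    card_inter_add_card_sdiff _ _
  unfold tpG gz
  rw [tp_wE ha hE r]
  simp only [tp_conv (EE X) ha haz hr _ (hγ _)]
  have hz : ∀ x : ℕ × ℕ, x ≠ ((ZZ z r ∩ EE X).card, (ZZ z r \ EE X).card) →
      (if (ZZ z r ∩ EE X).card = x.1 then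
        if (ZZ z r \ EE X).card = x.2 then (γ (k - 1 - x.1 - x.2) (rp z r) : ℂ) else 0
        else 0) = 0 := by
    rintro ⟨e, i⟩ hne
    by_cases h1 : (ZZ z r ∩ EE X).card = e
    · by_cases h2 : (ZZ z r \ EE X).card = i
      · exact absurd (Prod.ext h1.symm h2.symm) hne
      · rw [if_pos h1, if_neg h2]
    · rw [if_neg h1]
  by_cases hm : k0 ≤ (ZZ z r ∩ EE X).card ∧ (ZZ z r).card < k
  · have hm' : ((ZZ z r ∩ EE X).card, (ZZ z r \ EE X).card) ∈ tpI k0 k := by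
      simp only [tpI, mem_filter, mem_product, mem_range]
      omega
    rw [sum_eq_single_of_mem _ hm' fun x _ hx => hz x hx, if_pos rfl, if_pos rfl, if_pos hm,
      Nat.sub_sub (k - 1), hc]
  · rw [if_neg hm, Complex.ofReal_zero]
    refine sum_eq_zero fun x hx => hz x ?_
    rintro rfl
    simp only [tpI, mem_filter, mem_product, mem_range] at hx
    omega

lemma tpG_le {z : ℝ} {E : Finset ℕ} {k0 a k : ℕ} {γ : ℕ → ℕ → ℝ} {m : ℤ} {B : ℝ} (hB : 0 ≤ B)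
    (h : ∀ i t, ‖conv (tpBeta z E a i) (γ t) m‖ ≤ B) : ‖tpG z E k0 a k γ m‖ ≤ (k : ℝ) ^ 2 * B := by
  unfold tpG
  refine (norm_sum_le _ _).trans ((sum_le_card_nsmul _ _ B fun x _ => ?_).trans ?_)
  · split_ifs
    · exact h _ _
    · simpa using hB
  · rw [nsmul_eq_mul]
    exact mul_le_mul_of_nonneg_right (tpI_card k0 k) hB

/-- The summand as a function of `m = a₂ (a₁ n + b₁)`. -/
noncomputable def tpD (z : ℝ) (E : Finset ℕ) (k0 a a' k k' : ℕ) (h c : ℤ) (M0 : ℕ) (m : ℤ) : ℂ :=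
  if m ≡ c [ZMOD M0] then
    tpG z E k0 a k (fun t => gam z 1 (ww z t)) m *
        tpG z E k0 a' k' (fun t => gam z 1 (ww z t)) (m + h) -
      tpG z E k0 a k (fun t => flat z 1 (ww z t)) m *
        tpG z E k0 a' k' (fun t => flat z 1 (ww z t)) (m + h)
  else 0

lemma tpD_eq (z : ℝ) (E : Finset ℕ) (k0 a a' k k' : ℕ) (h c : ℤ) (M0 : ℕ) (m : ℤ) :
    tpD z E k0 a a' k k' h c M0 m = ∑ x ∈ tpI k0 k, ∑ y ∈ tpI k0 k',
      if wE E m = x.1 ∧ wE E (m + h) = y.1 ∧ m ≡ c [ZMOD M0] then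
        conv (tpBeta z E a x.2) (gam z 1 (ww z (k - 1 - x.1 - x.2))) m *
            conv (tpBeta z E a' y.2) (gam z 1 (ww z (k' - 1 - y.1 - y.2))) (m + h) -
          conv (tpBeta z E a x.2) (flat z 1 (ww z (k - 1 - x.1 - x.2))) m *
            conv (tpBeta z E a' y.2) (flat z 1 (ww z (k' - 1 - y.1 - y.2))) (m + h)
      else 0 := by
  unfold tpD tpG
  by_cases hm : m ≡ c [ZMOD M0]
  · rw [if_pos hm, sum_mul_sum, sum_mul_sum, ← sum_sub_distrib]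
    refine sum_congr rfl fun x _ => ?_
    rw [← sum_sub_distrib]
    refine sum_congr rfl fun y _ => ?_
    by_cases h1 : wE E m = x.1 <;> by_cases h2 : wE E (m + h) = y.1 <;> simp [h1, h2, hm]
  · simp [hm]

lemma tp_split (D : ℤ → ℂ) {a b c : ℤ} (h1 : a ≤ b) (h2 : b ≤ c) :
    ∑ m ∈ Ioc a c, D m = ∑ m ∈ Ioc a b, D m + ∑ m ∈ Ioc b c, D m := by
  rw [← Ioc_union_Ioc_eq_Ioc h1 h2, sum_union (Ioc_disjoint_Ioc_of_le le_rfl)]

lemma tp_triv (D : ℤ → ℂ) {a b : ℤ} (hab : a ≤ b) {Bd : ℝ} (hD : ∀ m, m ≤ b → ‖D m‖ ≤ Bd) :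
    ‖∑ m ∈ Ioc a b, D m‖ ≤ ((b : ℝ) - a) * Bd := by
  refine (norm_sum_le _ _).trans
    ((sum_le_card_nsmul _ _ Bd fun m hm => hD m (mem_Ioc.1 hm).2).trans (le_of_eq ?_))
  have h : (((b - a).toNat : ℤ) : ℝ) = ((b - a : ℤ) : ℝ) := by
    rw [Int.toNat_of_nonneg (by omega)]
  rw [nsmul_eq_mul, Int.card_Ioc]
  push_cast at h
  rw [h]

lemma tp_dyadic (D : ℤ → ℂ) {s Mx : ℕ} (hs : 0 < s) {δ Bd : ℝ} (hδ : 0 ≤ δ) (hB : 0 ≤ Bd)
    (hD : ∀ m : ℤ, m ≤ Mx → ‖D m‖ ≤ Bd)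
    (hbl : ∀ N : ℕ, s ≤ N → N ≤ Mx → ‖∑ m ∈ Ioc (N : ℤ) (2 * N), D m‖ ≤ δ * N) (M : ℕ) :
    M ≤ Mx → ‖∑ m ∈ Ioc (0 : ℤ) M, D m‖ ≤ (δ + Bd / s) * M + Bd * (2 * s) := by
  have hs' : (0 : ℝ) < s := by exact_mod_cast hs
  have hδ' : 0 ≤ δ + Bd / s := by positivity
  induction M using Nat.strong_induction_on with
  | _ M ih =>
    intro hM
    by_cases h : M ≤ 2 * s
    · have h1 := tp_triv D (a := 0) (b := M) (by omega) (Bd := Bd) fun m hm => hD m (by omega)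
      have h2 : (M : ℝ) ≤ 2 * s := by exact_mod_cast h
      have h3 : 0 ≤ (δ + Bd / s) * M := by positivity
      push_cast at h1
      clear * - M D δ Bd s h3 h1 hB h2
      nlinarith only [h3, h1, hB, h2]
    · obtain ⟨N, hN⟩ : ∃ N, N = M / 2 := ⟨_, rfl⟩
      have e1 : s ≤ N := by omega
      have e2 : 2 * N ≤ M := by omega
      have e3 : M ≤ 2 * N + 1 := by omega
      rw [tp_split D (b := N) (by omega) (by omega),
        tp_split D (a := N) (b := 2 * N) (by omega) (by omega)]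
      have h1 := ih N (by omega) (by omega)
      have h2 := hbl N e1 (by omega)
      have h3 := tp_triv D (a := 2 * N) (b := M) (by omega) (Bd := Bd) fun m hm => hD m (by omega)
      have f1 : (s : ℝ) ≤ N := by exact_mod_cast e1
      have f2 : 2 * (N : ℝ) ≤ M := by exact_mod_cast e2
      have f3 : (M : ℝ) ≤ 2 * N + 1 := by exact_mod_cast e3
      push_cast at h3
      have h4 : ((M : ℝ) - 2 * N) * Bd ≤ Bd / s * N := by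
        clear * - Bd s N hs' f1 hB M f3
        have : Bd ≤ Bd / s * N := by
          rw [div_mul_eq_mul_div, le_div_iff₀ hs']
          exact mul_le_mul_of_nonneg_left f1 hB
        nlinarith only [this, hB, f3]
      have h5 := mul_le_mul_of_nonneg_left f2 hδ'
      refine (norm_add_le _ _).trans ((add_le_add h1 ((norm_add_le _ _).trans
        (add_le_add h2 (h3.trans h4)))).trans ?_)
      clear * - δ Bd s N M h5
      linarith only [h5]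

lemma tp_reindex (D : ℤ → ℂ) {c : ℤ} {M0 : ℕ} (hM : 0 < M0)
    (hD : ∀ m, ¬ m ≡ c [ZMOD M0] → D m = 0) (u v : ℕ) :
    ∑ n ∈ Ioc u v, D (M0 * n + c) = ∑ m ∈ Ioc ((M0 : ℤ) * u + c) (M0 * v + c), D m := by
  have hM' : (0 : ℤ) < M0 := by exact_mod_cast hM
  refine sum_of_injOn (fun n : ℕ => (M0 : ℤ) * n + c) ?_ ?_ ?_ fun _ _ => rfl
  · intro x _ y _ h
    have h' : (M0 : ℤ) * x = M0 * y := add_right_cancel h
    exact_mod_cast mul_left_cancel₀ hM'.ne' h'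
  · intro n hn
    have hn' := mem_Ioc.1 (mem_coe.1 hn)
    have h1 : (u : ℤ) < n := by exact_mod_cast hn'.1
    have h2 : (n : ℤ) ≤ v := by exact_mod_cast hn'.2
    refine mem_coe.2 (mem_Ioc.2 ⟨?_, ?_⟩)
    · have := mul_lt_mul_of_pos_left h1 hM'
      linarith only [this]
    · have := mul_le_mul_of_nonneg_left h2 hM'.le
      linarith
  · intro m hm hne
    refine hD m fun hc => hne ?_
    obtain ⟨t, ht⟩ := hc.symm.dvd
    obtain ⟨h1, h2⟩ := mem_Ioc.1 hm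
    have h3 : (u : ℤ) < t := lt_of_mul_lt_mul_left (by linarith) hM'.le
    have h4 : t ≤ (v : ℤ) := le_of_mul_le_mul_left (by linarith) hM'
    obtain ⟨n, rfl⟩ := Int.eq_ofNat_of_zero_le (show 0 ≤ t by omega)
    refine ⟨n, mem_coe.2 (mem_Ioc.2 ⟨by exact_mod_cast h3, by exact_mod_cast h4⟩), ?_⟩
    simp only
    linarith only [ht]

lemma tp_num {l σ x : ℝ} {s : ℕ} (A B : ℕ) (hl : 3 ≤ l) (hσ : σ * σ = x)
    (h1 : 24 * l ^ (B + 12) ≤ σ) (hs : σ ≤ s) (hs' : (s : ℝ) ≤ 2 * σ) {M : ℝ} (hM0 : 0 ≤ M)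
    (hM : M ≤ l * x) :
    2 * ((l ^ 2 / l ^ (A + B + 5) + 2 * l ^ 8 / s) * M + 2 * l ^ 8 * (2 * s)) + l * (16 * l ^ 4)
      ≤ x / l ^ B := by
  have hl0 : 0 < l := by linarith
  have hl1 : 1 ≤ l := by linarith
  have hB : 0 < l ^ B := by positivity
  have hB1 : 1 ≤ l ^ B := one_le_pow₀ hl1
  have hσ0 : 0 < σ := lt_of_lt_of_le (by positivity) h1
  have hx : 0 ≤ x := by nlinarith only [hσ]
  have hs0 : (0 : ℝ) < s := lt_of_lt_of_le hσ0 hs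
  have a1 : l ^ 2 / l ^ (A + B + 5) * M ≤ x / l ^ B / 9 := by
    clear * - l B A hl hl1 M x hM hM0
    have e1 : l ^ B * l ^ 3 * 9 ≤ l ^ (A + B + 5) := by
      have : l ^ (A + B + 5) = l ^ A * (l ^ B * l ^ 3 * l ^ 2) := by ring
      rw [this]
      have e2 : l ^ B * l ^ 3 * 9 ≤ l ^ B * l ^ 3 * l ^ 2 :=
        mul_le_mul_of_nonneg_left (by nlinarith only [hl]) (by positivity)
      exact e2.trans (le_mul_of_one_le_left (by positivity) (one_le_pow₀ hl1))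
    calc l ^ 2 / l ^ (A + B + 5) * M ≤ l ^ 2 / (l ^ B * l ^ 3 * 9) * (l * x) := by gcongr
      _ = x / l ^ B / 9 := by field_simp
  have a2 : 2 * l ^ 8 / s * M ≤ 2 * (l ^ 9 * σ) := by
    clear * - l s M σ x hl hσ0 hs hM hM0 hσ
    calc 2 * l ^ 8 / s * M ≤ 2 * l ^ 8 / σ * (l * x) := by gcongr
      _ = 2 * (l ^ 9 * σ) := by
        rw [← hσ]
        field_simp
  have a3 : 2 * l ^ 8 * (2 * s) ≤ 8 * (l ^ 9 * σ) := by
    clear * - l hl1 s σ hs' hs0 hl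
    have e1 : l ^ 8 ≤ l ^ 9 := pow_le_pow_right₀ hl1 (by norm_num)
    calc 2 * l ^ 8 * (2 * s) ≤ 2 * l ^ 9 * (2 * (2 * σ)) := by gcongr
      _ = _ := by ring
  have hσ1 : 1 ≤ σ := by
    have : 1 ≤ l ^ (B + 12) := one_le_pow₀ hl1
    linarith only [h1, this]
  have a4 : l * (16 * l ^ 4) ≤ 16 * (l ^ 9 * σ) := by
    clear * - l hl1 σ hl hσ1
    have e1 : l ^ 5 ≤ l ^ 9 := pow_le_pow_right₀ hl1 (by norm_num)
    have e2 : l ^ 9 ≤ l ^ 9 * σ := le_mul_of_one_le_right (by positivity) hσ1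
    nlinarith only [e1, e2]
  have a5 : 72 * (l ^ 9 * σ) ≤ x / l ^ B := by
    clear * - l σ x B hB hσ hl hσ0 h1
    rw [le_div_iff₀ hB, ← hσ]
    have e1 : 3 * l ^ (B + 9) ≤ l ^ (B + 12) := by
      have : l ^ (B + 12) = l ^ 3 * l ^ (B + 9) := by ring
      rw [this]
      refine mul_le_mul_of_nonneg_right ?_ (by positivity)
      nlinarith only [hl, sq_nonneg l]
    calc 72 * (l ^ 9 * σ) * l ^ B = 24 * (3 * l ^ (B + 9)) * σ := by ring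
      _ ≤ 24 * l ^ (B + 12) * σ := by gcongr
      _ ≤ σ * σ := by gcongr
  have a6 : 0 ≤ x / l ^ B := by positivity
  rw [add_mul]
  linarith only [a1, a2, a3, a4, a5, a6]

lemma tpD_le {X : ℕ} {E : Finset ℕ} {k0 a a' k k' : ℕ} {h c : ℤ} {M0 : ℕ} {m : ℤ}
    (hk : (k : ℝ) ^ 2 ≤ Real.log X) (hk' : (k' : ℝ) ^ 2 ≤ Real.log X)
    (hcb : ∀ (q0 : ℕ) (β : ℕ → ℂ) (w : ℕ → ℝ), Dat (zz X) q0 β w →
      ∀ n : ℤ, n ≤ (X : ℤ) ^ 3 → ‖conv β (gam (zz X) q0 w) n‖ ≤ Real.log X ^ 3 ∧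
        ‖conv β (flat (zz X) q0 w) n‖ ≤ Real.log X ^ 3 ∧
        ‖conv β (gam (zz X) q0 w) n - conv β (flat (zz X) q0 w) n‖ ≤ Real.log X ^ 3)
    (hm : m ≤ (X : ℤ) ^ 3) (hm' : m + h ≤ (X : ℤ) ^ 3) :
    ‖tpD (zz X) E k0 a a' k k' h c M0 m‖ ≤ 2 * Real.log X ^ 8 := by
  have h3 : 0 ≤ Real.log X ^ 3 := by positivity
  have key : ∀ (b j : ℕ) (n : ℤ), (j : ℝ) ^ 2 ≤ Real.log X → n ≤ (X : ℤ) ^ 3 →
      ‖tpG (zz X) E k0 b j (fun t => gam (zz X) 1 (ww (zz X) t)) n‖ ≤ Real.log X ^ 4 ∧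
        ‖tpG (zz X) E k0 b j (fun t => flat (zz X) 1 (ww (zz X) t)) n‖ ≤ Real.log X ^ 4 := by
    intro b j n hj hn
    have hd := fun i t => hcb 1 _ _
      (dat_ww (tpBeta_le (zz X) E b i) (tpBeta_supp (zz X) E b i) t) n hn
    have e : (j : ℝ) ^ 2 * Real.log X ^ 3 ≤ Real.log X ^ 4 :=
      (mul_le_mul_of_nonneg_right hj h3).trans (le_of_eq (by ring))
    exact ⟨(tpG_le h3 fun i t => (hd i t).1).trans e, (tpG_le h3 fun i t => (hd i t).2.1).trans e⟩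
  unfold tpD
  split_ifs
  · refine (norm_sub_le _ _).trans ?_
    rw [norm_mul, norm_mul]
    have h4 : 0 ≤ Real.log X ^ 4 := by positivity
    have e1 := mul_le_mul (key a k m hk hm).1 (key a' k' _ hk' hm').1 (norm_nonneg _) h4
    have e2 := mul_le_mul (key a k m hk hm).2 (key a' k' _ hk' hm').2 (norm_nonneg _) h4
    have e3 : Real.log X ^ 4 * Real.log X ^ 4 = Real.log X ^ 8 := by ring
    linarith
  · rw [norm_zero]
    positivity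

lemma tpD_block {z : ℝ} {E : Finset ℕ} {k0 a a' k k' : ℕ} {h c : ℤ} {M0 : ℕ} {I : Finset ℤ}
    {l δ : ℝ} (hδ : 0 ≤ δ) (hk : (k : ℝ) ^ 2 ≤ l) (hk' : (k' : ℝ) ^ 2 ≤ l)
    (H : ∀ e e' i i' t t' : ℕ, k0 ≤ e → k0 ≤ e' → e < k → e' < k' →
      ‖∑ n ∈ I, if wE E n = e ∧ wE E (n + h) = e' ∧ n ≡ c [ZMOD M0] then
        conv (tpBeta z E a i) (gam z 1 (ww z t)) n *
            conv (tpBeta z E a' i') (gam z 1 (ww z t')) (n + h) -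
          conv (tpBeta z E a i) (flat z 1 (ww z t)) n *
            conv (tpBeta z E a' i') (flat z 1 (ww z t')) (n + h) else 0‖ ≤ δ) :
    ‖∑ m ∈ I, tpD z E k0 a a' k k' h c M0 m‖ ≤ l ^ 2 * δ := by
  simp only [tpD_eq]
  rw [sum_comm]
  have hl : 0 ≤ l := (sq_nonneg _).trans hk
  refine (norm_sum_le _ _).trans ((sum_le_card_nsmul _ _ (l * δ) fun x hx => ?_).trans ?_)
  · rw [sum_comm]
    refine (norm_sum_le _ _).trans ((sum_le_card_nsmul _ _ δ fun y hy => ?_).trans ?_)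
    · simp only [tpI, mem_filter, mem_product, mem_range] at hx hy
      exact H _ _ _ _ _ _ hx.2.1 hy.2.1 hx.1.1 hy.1.1
    · rw [nsmul_eq_mul]
      exact mul_le_mul_of_nonneg_right ((tpI_card k0 k').trans hk') hδ
  · rw [nsmul_eq_mul, sq, mul_assoc]
    exact mul_le_mul_of_nonneg_right ((tpI_card k0 k).trans hk) (mul_nonneg hl hδ)

lemma tp_val {a : ℕ} (ha : 0 < a) {b : ℤ} {n : ℕ} (hn : b.natAbs < n) :
    ((val a b n : ℕ) : ℤ) = a * n + b ∧ val a b n ≠ 0 := by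
  have h1 : (n : ℤ) ≤ a * n := le_mul_of_one_le_left (by omega) (by omega)
  have h2 : 0 < (a : ℤ) * n + b := by omega
  unfold val
  omega

lemma tpD_val {X : ℕ} {a₁ a₂ : ℕ} (h₁ : 0 < a₁) (h₂ : 0 < a₂) {b₁ b₂ : ℤ}
    (hE : EE X ⊆ PS (a₁ + a₂ : ℕ) (zz X)) (hz : ((a₁ + a₂ : ℕ) : ℝ) ≤ zz X) (k0 k₁ k₂ : ℕ) {n : ℕ}
    (hn : b₁.natAbs + b₂.natAbs < n) :
    tpD (zz X) (EE X) k0 a₂ a₁ k₁ k₂ (a₁ * b₂ - a₂ * b₁) (a₂ * b₁) (a₁ * a₂)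
        ((a₁ * a₂ : ℕ) * n + a₂ * b₁) =
      ((Fg X k0 k₁ (val a₁ b₁ n) * Fg X k0 k₂ (val a₂ b₂ n)
        - Ff X k0 k₁ (val a₁ b₁ n) * Ff X k0 k₂ (val a₂ b₂ n) : ℝ) : ℂ) := by
  obtain ⟨v1, w1⟩ := tp_val h₁ (b := b₁) (n := n) (by omega)
  obtain ⟨v2, w2⟩ := tp_val h₂ (b := b₂) (n := n) (by omega)
  have e1 : ((a₁ * a₂ : ℕ) : ℤ) * n + a₂ * b₁ = ((a₂ * val a₁ b₁ n : ℕ) : ℤ) := by
    push_cast
    rw [v1]
    ring
  have e2 : ((a₁ * a₂ : ℕ) : ℤ) * n + a₂ * b₁ + (a₁ * b₂ - a₂ * b₁) =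
      ((a₁ * val a₂ b₂ n : ℕ) : ℤ) := by
    push_cast
    rw [v2]
    ring
  have hE' : ∀ a : ℕ, a ≤ a₁ + a₂ → ∀ p ∈ EE X, p.Prime ∧ (p : ℝ) ≤ zz X ∧ a < p := by
    intro a ha p hp
    obtain ⟨c1, c2, c3⟩ := mem_PS.1 (hE hp)
    have c4 : a₁ + a₂ < p := by exact_mod_cast c2
    exact ⟨c1, c3, by omega⟩
  have hz' : ∀ a : ℕ, a ≤ a₁ + a₂ → (a : ℝ) ≤ zz X := fun a ha =>
    le_trans (by exact_mod_cast ha) hz
  have hg : ∀ t n, gam (zz X) 1 (ww (zz X) t) n ≠ 0 → Rou (zz X) n := fun t n hn =>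
    (gam_supp (dat_ww (tpBeta_le (zz X) ∅ 1 0) (tpBeta_supp (zz X) ∅ 1 0) t) n hn).1
  have hf : ∀ t n, flat (zz X) 1 (ww (zz X) t) n ≠ 0 → Rou (zz X) n := fun t n hn =>
    (flat_supp n hn).1
  have hfl : ∀ r, r ≠ 0 → (fun t => flat (zz X) 1 (ww (zz X) t) (rp (zz X) r)) =
      fun t => rhoF (zz X) (ww (zz X) t) (rp (zz X) r) := fun r hr =>
    funext fun t => if_pos ⟨rou_rp _ hr, Nat.modEq_one⟩
  have hmod : ((a₁ * a₂ : ℕ) : ℤ) * n + a₂ * b₁ ≡ a₂ * b₁ [ZMOD (a₁ * a₂ : ℕ)] :=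
    Int.modEq_iff_dvd.2 ⟨-n, by ring⟩
  unfold tpD
  rw [if_pos hmod, e2, e1, tpG_eq h₂ (hz' _ (by omega)) w1 (hE' _ (by omega)) k0 k₁ hg,
    tpG_eq h₂ (hz' _ (by omega)) w1 (hE' _ (by omega)) k0 k₁ hf,
    tpG_eq h₁ (hz' _ (by omega)) w2 (hE' _ (by omega)) k0 k₂ hg,
    tpG_eq h₁ (hz' _ (by omega)) w2 (hE' _ (by omega)) k0 k₂ hf, hfl _ w1, hfl _ w2]
  unfold Fg Ff
  push_cast
  rfl

theorem tp_sum {a₁ b₁ a₂ b₂ : ℤ} (hF : Frm a₁ b₁ a₂ b₂) (A B : ℕ) : ∃ k0 : ℕ, ∀ᶠ X : ℕ in atTop,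
    ∀ k₁ k₂ : ℕ, (k₁ : ℝ) ≤ A * LL X → (k₂ : ℝ) ≤ A * LL X →
    |∑ n ∈ Icc 1 X, (Fg X k0 k₁ (val a₁ b₁ n) * Fg X k0 k₂ (val a₂ b₂ n)
      - Ff X k0 k₁ (val a₁ b₁ n) * Ff X k0 k₂ (val a₂ b₂ n))| ≤ X / Real.log X ^ B := by
  obtain ⟨k0, hk0⟩ := two_point (A + B + 5) 1 le_rfl (c0 := 1 / 8) (by norm_num)
  refine ⟨k0, ?_⟩
  obtain ⟨α₁, rfl⟩ := Int.eq_ofNat_of_zero_le hF.pos₁.le
  obtain ⟨α₂, rfl⟩ := Int.eq_ofNat_of_zero_le hF.pos₂.le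
  have p₁ : 0 < α₁ := by exact_mod_cast hF.pos₁
  have p₂ : 0 < α₂ := by exact_mod_cast hF.pos₂
  obtain ⟨h, hh⟩ : ∃ h : ℤ, h = α₁ * b₂ - α₂ * b₁ := ⟨_, rfl⟩
  obtain ⟨c, hc⟩ : ∃ c : ℤ, c = α₂ * b₁ := ⟨_, rfl⟩
  obtain ⟨M0, hM0⟩ : ∃ M0 : ℕ, M0 = α₁ * α₂ := ⟨_, rfl⟩
  obtain ⟨n₀, hn₀⟩ : ∃ n₀ : ℕ, n₀ = b₁.natAbs + b₂.natAbs := ⟨_, rfl⟩
  have hM0p : 0 < M0 := hM0 ▸ Nat.mul_pos p₁ p₂
  have hh0 : h ≠ 0 := hh ▸ sub_ne_zero.2 hF.det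
  have hm0 : 0 ≤ (M0 : ℤ) * n₀ + c := by
    clear * - n₀ α₁ b₁ b₂ α₂ h c M0 hn₀ p₁ hh0 hM0 hc p₂
    have e1 : (n₀ : ℤ) ≤ α₁ * n₀ := le_mul_of_one_le_left (by omega) (by omega)
    have e2 : 0 ≤ (α₁ : ℤ) * n₀ + b₁ := by omega
    have e3 : (M0 : ℤ) * n₀ + c = α₂ * (α₁ * n₀ + b₁) := by
      rw [hM0, hc]
      push_cast
      ring
    rw [e3]
    positivity
  have hC : ∀ᶠ X : ℕ in atTop, ((M0 + c.natAbs + h.natAbs + n₀ : ℕ) : ℝ) ≤ Real.log X :=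
    (Real.tendsto_log_atTop.comp tendsto_natCast_atTop_atTop).eventually_ge_atTop _
  filter_upwards [hk0, hC, EE_ok, scales, conv_bound, F_bound, val_le α₁ b₁, val_le α₂ b₂,
    SPTwo_pow (2 * (B + 12)), SPTwo_log, LL_le_rpow (A : ℝ) (c := 1 / 2) (by norm_num),
    EE_sub (α₁ + α₂), eventually_ge_atTop 2] with X hk0 hC hEE hsc hcb hFb hv1 hv2 hpow hl hLL
    hsub hX2
  intro k₁ k₂ hk₁ hk₂
  have hX0 : (0 : ℝ) < X := by exact_mod_cast (show 0 < X by omega)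
  have hl0 : 0 ≤ Real.log X := by linarith only [hl]
  have hl1 : 1 ≤ Real.log X := by linarith only [hl]
  have hlX : Real.log X ≤ X := (Real.log_le_sub_one_of_pos hX0).trans (by linarith only [])
  have hCX : M0 + c.natAbs + h.natAbs + n₀ ≤ X := by exact_mod_cast hC.trans hlX
  have hk : ∀ k : ℕ, (k : ℝ) ≤ A * LL X → (k : ℝ) ^ 2 ≤ Real.log X := by
    intro k hk
    have e := pow_le_pow_left₀ (Nat.cast_nonneg k) (hk.trans hLL) 2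
    rwa [← Real.rpow_natCast (Real.log X ^ (1 / 2 : ℝ)), ← Real.rpow_mul hl0,
      show (1 / 2 : ℝ) * ((2 : ℕ) : ℝ) = 1 by norm_num, Real.rpow_one] at e
  have hA : ∀ k e : ℕ, (k : ℝ) ≤ A * LL X → e < k →
      (e : ℝ) ≤ ((A + B + 5 : ℕ) : ℝ) * Real.log (Real.log X) := by
    intro k e hk he
    have e1 : (e : ℝ) ≤ k := by exact_mod_cast he.le
    have e2 : (A : ℝ) ≤ ((A + B + 5 : ℕ) : ℝ) := by exact_mod_cast (show A ≤ A + B + 5 by omega)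
    exact e1.trans (hk.trans (mul_le_mul_of_nonneg_right e2 (zero_le_one.trans hsc.1)))
  have hlA : Real.log X ≤ Real.log X ^ (A + B + 5) := le_self_pow₀ hl1 (by omega)
  push_cast at hC
  have n1 : (0 : ℝ) ≤ M0 := Nat.cast_nonneg _
  have n2 : (0 : ℝ) ≤ (c.natAbs : ℕ) := Nat.cast_nonneg _
  have n3 : (0 : ℝ) ≤ (h.natAbs : ℕ) := Nat.cast_nonneg _
  have n4 : (0 : ℝ) ≤ n₀ := Nat.cast_nonneg _
  have hhA : |(h : ℝ)| ≤ Real.log X ^ (A + B + 5) := by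
    rw [← Int.cast_abs, ← Nat.cast_natAbs]
    linarith only [hlA, hC]
  have hMA : (M0 : ℝ) ≤ Real.log X ^ (A + B + 5) := by linarith only [hlA, hC]
  -- the scale of the dyadic decomposition
  obtain ⟨σ, hσ⟩ : ∃ σ, σ = Real.sqrt X := ⟨_, rfl⟩
  have hσσ : σ * σ = X := hσ ▸ Real.mul_self_sqrt hX0.le
  have hσ1 : 24 * Real.log X ^ (B + 12) ≤ σ := by
    rw [hσ]
    refine Real.le_sqrt_of_sq_le (le_trans (le_of_eq ?_) hpow)
    ring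
  have hσ2 : 1 ≤ σ := by
    have : 1 ≤ Real.log X ^ (B + 12) := one_le_pow₀ hl1
    linarith only [hσ1, this]
  have hs1 : σ ≤ ⌈σ⌉₊ := Nat.le_ceil σ
  have hs2 : (⌈σ⌉₊ : ℝ) ≤ 2 * σ := by
    clear * - σ hσ2
    have := Nat.ceil_lt_add_one (show 0 ≤ σ by linarith)
    linarith
  have hs0 : 0 < ⌈σ⌉₊ := Nat.ceil_pos.2 (by linarith only [hσ2])
  have hsX : X ≤ ⌈σ⌉₊ ^ 2 := by
    clear * - X σ hσσ hs1 hσ2
    have : (X : ℝ) ≤ (⌈σ⌉₊ : ℝ) ^ 2 := by nlinarith only [hσσ, hs1, hσ2]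
    exact_mod_cast this
  have hn₀X : n₀ ≤ X := by omega
  have hmono : (M0 : ℤ) * n₀ + c ≤ M0 * X + c := by
    clear * - n₀ X hn₀X M0 b₁ b₂ α₁ α₂ h c hM0 hM0p σ
    have : (n₀ : ℤ) ≤ X := by exact_mod_cast hn₀X
    have := mul_le_mul_of_nonneg_left this (show (0 : ℤ) ≤ M0 by omega)
    linarith only [this]
  obtain ⟨m₀, hm₀⟩ := Int.eq_ofNat_of_zero_le hm0
  obtain ⟨Mx, hMx⟩ := Int.eq_ofNat_of_zero_le (hm0.trans hmono)
  have hMx1 : Mx ≤ (M0 + c.natAbs) * X := by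
    have e1 : c.natAbs ≤ c.natAbs * X := Nat.le_mul_of_pos_right _ (by omega)
    have e2 : ((M0 * X : ℕ) : ℤ) + c = Mx := by
      push_cast
      exact hMx
    rw [add_mul]
    omega
  have hMx2 : Mx ≤ X ^ 2 := by
    rw [sq]
    exact hMx1.trans (Nat.mul_le_mul_right _ (by omega))
  have hMx3 : Mx + h.natAbs ≤ X ^ 3 := by
    clear * - X hX2 Mx h b₁ b₂ α₁ α₂ c M0 hM0 n₀ hn₀ hM0p hCX σ m₀ hm₀ hMx hMx2
    have e1 : X ^ 2 * 2 ≤ X ^ 3 := by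
      rw [pow_succ X 2]
      exact Nat.mul_le_mul_left _ hX2
    have e2 : X ≤ X ^ 2 := Nat.le_self_pow (by norm_num) X
    omega
  have hMx4 : (Mx : ℝ) ≤ Real.log X * X := by
    clear * - Mx M0 c X hMx1 n₀ h hC hX0
    have e1 : (Mx : ℝ) ≤ ((M0 : ℝ) + (c.natAbs : ℕ)) * X := by exact_mod_cast hMx1
    exact e1.trans (mul_le_mul_of_nonneg_right (by linarith) hX0.le)
  have hMx5 : (Mx : ℤ) + h.natAbs ≤ (X : ℤ) ^ 3 := by exact_mod_cast hMx3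
  have hE : ∀ a : ℕ, 0 < a → a ≤ α₁ + α₂ → ∀ i, ∀ p ∈ EE X, ∀ n,
      tpBeta (zz X) (EE X) a i (p * n) = tpBeta (zz X) (EE X) a i n := by
    intro a ha ha' i p hp n
    obtain ⟨c1, c2, c3⟩ := mem_PS.1 (hsub.1 hp)
    have c4 : α₁ + α₂ < p := by exact_mod_cast c2
    exact tpBeta_mul ha c1 hp c3 (by omega) i n
  have key := tp_dyadic (tpD (zz X) (EE X) k0 α₂ α₁ k₁ k₂ h c M0) (Mx := Mx) hs0
    (δ := Real.log X ^ 2 / Real.log X ^ (A + B + 5)) (Bd := 2 * Real.log X ^ 8) (by positivity)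
    (by positivity)
    (fun m hm => tpD_le (hk _ hk₁) (hk _ hk₂) hcb (by omega) (by omega))
    (fun N hN hN' => by
      clear * - N X k0 α₂ α₁ k₁ k₂ h c M0 A B hl hk hk₁ hk₂ hk0 σ hsX hN Mx hN' hMx2 hEE hA hh0
        hhA hM0p hMA hE p₂ b₁ b₂ p₁ n₀ m₀
      refine (tpD_block (δ := N / Real.log X ^ (A + B + 5)) (by positivity) (hk _ hk₁) (hk _ hk₂)
        fun e e' i i' t t' he he' hek hek' => ?_).trans (le_of_eq (by ring))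
      exact hk0 N (hsX.trans (Nat.pow_le_pow_left hN 2)) (hN'.trans hMx2) (EE X) hEE.1 e e' he he'
        (hA _ _ hk₁ hek) (hA _ _ hk₂ hek') h c M0 hh0 hhA hM0p hMA _ _ _ _
        (dat_ww (tpBeta_le _ _ _ _) (tpBeta_supp _ _ _ _) t)
        (dat_ww (tpBeta_le _ _ _ _) (tpBeta_supp _ _ _ _) t')
        (hE α₂ p₂ (by omega) i) (hE α₁ p₁ (by omega) i'))
  have hm₀x : m₀ ≤ Mx := by omega
  have k1 := key Mx le_rfl
  have k2 := key m₀ hm₀x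
  have hI : Icc 1 X = Ioc 0 X := rfl
  rw [hI, ← sum_Ioc_consecutive _ (Nat.zero_le n₀) hn₀X]
  have t1 : |∑ n ∈ Ioc 0 n₀, (Fg X k0 k₁ (val α₁ b₁ n) * Fg X k0 k₂ (val α₂ b₂ n)
      - Ff X k0 k₁ (val α₁ b₁ n) * Ff X k0 k₂ (val α₂ b₂ n))| ≤
      Real.log X * (16 * Real.log X ^ 4) := by
    clear * - n₀ X k0 k₁ α₁ b₁ k₂ α₂ b₂ h c M0 hn₀ σ hn₀X m₀ Mx hFb hv1 hv2 hC hl
    refine (abs_sum_le_sum_abs _ _).trans
      ((sum_le_card_nsmul _ _ (16 * Real.log X ^ 4) fun n hn => ?_).trans ?_)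
    · have hn' : n ∈ Icc 1 X := by
        rw [mem_Ioc] at hn
        rw [mem_Icc]
        omega
      obtain ⟨u1, u2, u3, u4⟩ := hFb k0 k₁ _ (hv1 n hn')
      obtain ⟨v1, v2, v3, v4⟩ := hFb k0 k₂ _ (hv2 n hn')
      have e1 := mul_le_mul u2 v2 v1 (u1.trans u2)
      have e2 := mul_le_mul u4 v4 v3 (u3.trans u4)
      have e3 := mul_nonneg u1 v1
      have e4 := mul_nonneg u3 v3
      have e5 : 4 * Real.log X ^ 2 * (4 * Real.log X ^ 2) = 16 * Real.log X ^ 4 := by ring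
      rw [abs_le]
      constructor <;> linarith only [e2, e3, e1, e4]
    · rw [nsmul_eq_mul, Nat.card_Ioc, Nat.sub_zero]
      exact mul_le_mul_of_nonneg_right (by linarith) (by positivity)
  have t2 : |∑ n ∈ Ioc n₀ X, (Fg X k0 k₁ (val α₁ b₁ n) * Fg X k0 k₂ (val α₂ b₂ n)
      - Ff X k0 k₁ (val α₁ b₁ n) * Ff X k0 k₂ (val α₂ b₂ n))| =
      ‖∑ m ∈ Ioc (0 : ℤ) Mx, tpD (zz X) (EE X) k0 α₂ α₁ k₁ k₂ h c M0 m -
        ∑ m ∈ Ioc (0 : ℤ) m₀, tpD (zz X) (EE X) k0 α₂ α₁ k₁ k₂ h c M0 m‖ := by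
    clear * - n₀ X k0 k₁ α₁ b₁ k₂ α₂ b₂ Mx h c M0 m₀ hm0 σ hm₀ hmono hMx hM0p hh hc hM0 p₁ p₂ hsub
      hn₀
    rw [tp_split _ (b := m₀) (c := Mx) (by omega) (by omega), add_sub_cancel_left, ← hm₀, ← hMx,
      ← tp_reindex (tpD (zz X) (EE X) k0 α₂ α₁ k₁ k₂ h c M0) hM0p (fun m hm => if_neg hm),
      ← Real.norm_eq_abs, ← Complex.norm_real, Complex.ofReal_sum]
    congr 1
    refine sum_congr rfl fun n hn => ?_
    rw [hh, hc, hM0]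
    exact (tpD_val p₁ p₂ hsub.1 hsub.2 k0 k₁ k₂ (hn₀ ▸ (mem_Ioc.1 hn).1)).symm
  have t3 := tp_num (M := Mx) A B hl hσσ hσ1 hs1 hs2 (Nat.cast_nonneg _) hMx4
  have t4 : (Real.log X ^ 2 / Real.log X ^ (A + B + 5) + 2 * Real.log X ^ 8 / (⌈σ⌉₊ : ℕ)) * m₀ ≤
      (Real.log X ^ 2 / Real.log X ^ (A + B + 5) + 2 * Real.log X ^ 8 / (⌈σ⌉₊ : ℕ)) * Mx :=
    mul_le_mul_of_nonneg_left (by exact_mod_cast hm₀x) (by positivity)
  refine (abs_add_le _ _).trans ?_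
  rw [t2]
  have t5 := norm_sub_le (∑ m ∈ Ioc (0 : ℤ) Mx, tpD (zz X) (EE X) k0 α₂ α₁ k₁ k₂ h c M0 m)
    (∑ m ∈ Ioc (0 : ℤ) m₀, tpD (zz X) (EE X) k0 α₂ α₁ k₁ k₂ h c M0 m)
  clear * - n₀ X k0 k₁ α₁ b₁ k₂ α₂ b₂ Mx h c M0 m₀ B A σ k1 k2 t1 t3 t4 t5
  linarith only [k1, k2, t1, t3, t4, t5]

end Pool.Agent.Work.MP_51e72e_nt.TE
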